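import Mathlib

set_option autoImplicit false

namespace Pool.Agent.H32.ACB

open Filter Topology

theorem residual_frec {X : Type} [NormedAddCommGroup X] [NormedSpace ℝ X] (T : X →L[ℝ] X)
    (hb : ∀ x L, ∑ n ∈ Finset.range L, ‖(T ^ (n + 1)) x‖ ≤ (4 * L + 2) * ‖x‖)
    (hd : Dense {p : X | ∃ q, 0 < q ∧ (T ^ q) p = p}) :
    {x : X | ∀ U ∈ nhds x, ∃ δ : ℝ, 0 < δ ∧ ∃ N : ℕ, ∀ n : ℕ, N ≤ n →
      δ * (n : ℝ) ≤ ((Set.ncard {k : ℕ | k < n ∧ (T ^ k) x ∈ U} : ℕ) : ℝ)} ∈ residual X := by
  classical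
  have h : ∀ j : ℕ, {x : X | ∃ p, ∃ q : ℕ, 0 < q ∧ (T ^ q) p = p ∧
      ‖x - p‖ < 1 / (j + 1) / (24 * q)} ∈
      residual X := fun j => residual_of_dense_open (by
    simp only [Set.ofPred_exists, Set.ofPred_and]
    exact isOpen_iUnion fun p => isOpen_iUnion fun q => isOpen_const.inter (isOpen_const.inter
      (isOpen_lt (by fun_prop) continuous_const))) (hd.mono (by
        rintro p ⟨q, h1, h2⟩
        exact ⟨p, q, h1, h2, by simp only [sub_self, norm_zero]; positivity⟩))
  filter_upwards [countable_iInter_mem.2 h] with x hx U hU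
  obtain ⟨ε, hε, hU⟩ := Metric.mem_nhds_iff.1 hU
  obtain ⟨j, hj⟩ := exists_nat_one_div_lt hε
  obtain ⟨p, q, hq, hp, hx⟩ := Set.mem_iInter.1 hx j
  have q1 : (1 : ℝ) ≤ q := by exact_mod_cast hq
  have hx' : ‖x - p‖ * (24 * q) < ε := ((lt_div_iff₀ (by positivity)).1 hx).trans hj
  have h0 := norm_nonneg (x - p)
  refine ⟨1 / (2 * q), by positivity, 1, fun n hn => ?_⟩
  have n1 : (1 : ℝ) ≤ n := by exact_mod_cast hn
  set B := (Finset.range n).filter fun k => ε / 2 ≤ ‖(T ^ k) (x - p)‖ with hB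
  have h1 : B.card * (ε / 2) ≤ 6 * n * ‖x - p‖ := by
    obtain ⟨m, rfl⟩ : ∃ m, n = m + 1 := ⟨n - 1, by omega⟩
    have k1 := hb (x - p) m
    have k2 := Finset.card_nsmul_le_sum B _ _ fun k hk => (Finset.mem_filter.1 hk).2
    have k3 := Finset.sum_le_sum_of_subset_of_nonneg (Finset.filter_subset
      (fun k => ε / 2 ≤ ‖(T ^ k) (x - p)‖) (Finset.range (m + 1))) (f := fun k => ‖(T ^ k) (x - p)‖)
      fun _ _ _ => norm_nonneg _
    rw [Finset.sum_range_succ', pow_zero, one_apply_eq_self] at k3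
    rw [nsmul_eq_mul] at k2
    push_cast
    have : (0 : ℝ) ≤ m := by positivity
    nlinarith
  set A := (Finset.range ((n + q - 1) / q)).image (q * ·) with hA
  have h2 : n ≤ A.card * q := by
    rw [hA, Finset.card_image_of_injective _ (mul_right_injective₀ hq.ne'), Finset.card_range]
    have := Nat.div_add_mod' (n + q - 1) q
    have := Nat.mod_lt (n + q - 1) hq
    omega
  have h3 : ((A \ B : Finset ℕ) : Set ℕ) ⊆ {k : ℕ | k < n ∧ (T ^ k) x ∈ U} := by
    intro k hk
    obtain ⟨k1, k2⟩ := Finset.mem_sdiff.1 hk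
    obtain ⟨i, hi, rfl⟩ := Finset.mem_image.1 k1
    have k3 : q * i < n := by
      have := (Nat.le_div_iff_mul_le hq).1 (Finset.mem_range.1 hi)
      rw [Nat.succ_mul, mul_comm] at this
      omega
    refine ⟨k3, hU ?_⟩
    have k4 : (T ^ (q * i)) p = p := by
      rw [pow_mul, FunLike.coe_pow_eq_iterate]
      exact Function.iterate_fixed hp i
    simp only [hB, Finset.mem_filter, Finset.mem_range, k3, true_and, not_le, map_sub, k4] at k2
    rw [mem_ball_iff_norm, ← sub_sub_sub_cancel_right _ _ p]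
    exact (norm_sub_le _ _).trans_lt (by nlinarith)
  have h4 := Set.ncard_le_ncard h3 ((Set.finite_lt_nat n).subset fun k hk => hk.1)
  rw [Set.ncard_coe_finset] at h4
  have h5 : (A.card : ℝ) ≤ ({k : ℕ | k < n ∧ (T ^ k) x ∈ U}.ncard : ℕ) + B.card := by
    exact_mod_cast Finset.card_le_card_sdiff_add_card.trans (Nat.add_le_add_right h4 _)
  have h6 : (n : ℝ) ≤ A.card * q := by exact_mod_cast h2
  have h7 : (B.card : ℝ) * (2 * q) ≤ n := by
    refine le_of_mul_le_mul_right ?_ hε
    nlinarith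
  rw [div_mul_eq_mul_div, one_mul, div_le_iff₀ (by positivity)]
  nlinarith

abbrev ι := Option (Σ N : ℕ, Fin (N + 1))

noncomputable abbrev X := lp (fun _ : ι => ℝ) 1

noncomputable def e (i : ι) : X := by classical exact lp.single 1 i 1

lemma norm_e (i : ι) : ‖e i‖ = 1 := by
  classical
  simp [e, lp.norm_single]

lemma hasSum_e (x : X) : HasSum (fun i => x i • e i) x := by
  classical
  simpa [e, ← lp.single_smul] using lp.hasSum_single (by norm_num) x

lemma hasSum_norm (x : X) : HasSum (fun i => ‖x i‖) ‖x‖ := by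
  simpa using lp.hasSum_norm (by norm_num) x

lemma exists_op (t : ι → X) (C : ℝ) (h : ∀ i, ‖t i‖ ≤ C) : ∃ T : X →L[ℝ] X, ∀ i, T (e i) = t i := by
  classical
  have b : ∀ (x : X) i, ‖x i • t i‖ ≤ C * ‖x i‖ := fun x i => by
    rw [norm_smul, mul_comm]
    exact mul_le_mul_of_nonneg_right (h i) (norm_nonneg _)
  have s : ∀ x : X, Summable fun i => x i • t i := fun x =>
    Summable.of_norm_bounded ((hasSum_norm x).mul_left C).summable (b x)
  refine ⟨LinearMap.mkContinuous
    { toFun := fun x => ∑' i, x i • t i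
      map_add' := fun x y => by simp [add_smul, (s x).tsum_add (s y)]
      map_smul' := fun c x => by simp [mul_smul, (s x).tsum_const_smul c] } C
    fun x => tsum_of_norm_bounded ((hasSum_norm x).mul_left C) (b x), fun i => ?_⟩
  change ∑' j, e i j • t j = _
  rw [tsum_eq_single i fun j hj => by simp [e, lp.single_apply, hj]]
  simp [e]

noncomputable def v (N j : ℕ) : ℝ := √(N + 1) / √(N + 1 - (j % (N + 1) : ℕ))

lemma lt_P (N j : ℕ) : (1 : ℝ) ≤ N + 1 - (j % (N + 1) : ℕ) := by
  have : ((j % (N + 1) : ℕ) : ℝ) ≤ N := by exact_mod_cast Nat.lt_succ_iff.1 (Nat.mod_lt j N.succ_pos)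
  linarith

lemma one_le_v (N j : ℕ) : 1 ≤ v N j :=
  (one_le_div (Real.sqrt_pos.2 (by linarith [lt_P N j]))).2 (Real.sqrt_le_sqrt (by simp))

lemma v_pos (N j : ℕ) : 0 < v N j := by linarith [one_le_v N j]

lemma sum_v (N L : ℕ) : ∀ j ≤ N, ∑ n ∈ Finset.range L, v N (j + n) ≤ 2 * L * v N j := by
  have h : ∀ j L, j + L ≤ N + 1 → ∑ n ∈ Finset.range L, v N (j + n) ≤
      2 * √(N + 1) * (√(N + 1 - j) - √(N + 1 - (j + L))) := by
    intro j L
    induction L with
    | zero => simp
    | succ L ih =>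
      intro hL
      rw [Finset.sum_range_succ, v, Nat.mod_eq_of_lt (by omega)]
      have h1 : (0 : ℝ) ≤ N + 1 - (j + (L + 1 : ℕ)) := by
        rw [sub_nonneg]
        exact_mod_cast hL
      have h2 := ih (by omega)
      push_cast at *
      have h3 := Real.mul_self_sqrt h1
      have h4 := Real.mul_self_sqrt (x := N + 1 - (j + L)) (by linarith)
      have h5 : 0 < √((N : ℝ) + 1 - (j + L)) := Real.sqrt_pos.2 (by linarith)
      have h6 : 1 / √((N : ℝ) + 1 - (j + L)) ≤ 2 * (√(N + 1 - (j + L)) - √(N + 1 - (j + (L + 1)))) := by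
        rw [div_le_iff₀ h5]
        nlinarith [sq_nonneg (√((N : ℝ) + 1 - (j + L)) - √(N + 1 - (j + (L + 1))))]
      have h7 := mul_le_mul_of_nonneg_left h6 (Real.sqrt_nonneg (N + 1))
      rw [mul_one_div] at h7
      linarith
  have h' : ∀ j L, j ≤ N → j + L ≤ N + 1 → ∑ n ∈ Finset.range L, v N (j + n) ≤ 2 * L * v N j := by
    intro j L hj hL
    refine (h j L hL).trans ?_
    have h1 : (0 : ℝ) ≤ N + 1 - (j + L) := by
      rw [sub_nonneg]
      exact_mod_cast hL
    have h2 : (j : ℝ) ≤ N := by exact_mod_cast hj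
    have h3 := Real.mul_self_sqrt h1
    have h4 := Real.mul_self_sqrt (x := N + 1 - j) (by linarith)
    have h5 : √((N : ℝ) + 1 - (j + L)) ≤ √(N + 1 - j) := Real.sqrt_le_sqrt (by
      have : (0 : ℝ) ≤ L := by positivity
      linarith)
    rw [v, Nat.mod_eq_of_lt (by omega), ← mul_div_assoc, le_div_iff₀ (Real.sqrt_pos.2 (by linarith)),
      mul_assoc, mul_assoc, mul_assoc, mul_comm (L : ℝ)]
    gcongr
    nlinarith [Real.sqrt_nonneg ((N : ℝ) + 1 - (j + L))]
  induction L using Nat.strong_induction_on with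
  | _ L ih =>
    intro j hj
    by_cases hL : j + L ≤ N + 1
    · exact h' j L hj hL
    obtain ⟨M, rfl⟩ : ∃ M, L = N + 1 - j + M := ⟨L - (N + 1 - j), by omega⟩
    rw [Finset.sum_range_add]
    have h1 := h' j (N + 1 - j) hj (by omega)
    have h2 := ih M (by omega) 0 (by omega)
    have h3 : ∀ n, v N (j + (N + 1 - j + n)) = v N (0 + n) := fun n => by
      rw [v, v, show j + (N + 1 - j + n) = 0 + n + (N + 1) by omega, Nat.add_mod_right]
    have h4 : v N 0 = 1 := by simp [v]; positivity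
    simp only [h3]
    rw [h4] at h2
    push_cast [Nat.cast_add (N + 1 - j)]
    have := one_le_v N j
    have : (0 : ℝ) ≤ M := by positivity
    nlinarith

noncomputable def g (N j : ℕ) : X := v N j • e (some ⟨N, Fin.ofNat (N + 1) j⟩) +
  (if j % (N + 1) = 0 then √(N + 1) else 0) • e none

lemma g_mod (N j : ℕ) : g N (j % (N + 1)) = g N j := by
  simp [g, v, Fin.ofNat]

lemma norm_g (N j : ℕ) : ‖g N (j + 1)‖ ≤ v N (j + 1) + v N j := by
  refine (norm_add_le _ _).trans ?_
  rw [norm_smul, norm_smul, norm_e, norm_e, mul_one, mul_one, Real.norm_of_nonneg (v_pos _ _).le]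
  gcongr
  split_ifs with h
  · have : j % (N + 1) = N := by
      have : j % (N + 1) < N + 1 := Nat.mod_lt j N.succ_pos
      by_contra h1
      rw [← Nat.mod_add_mod, Nat.mod_eq_of_lt (by omega)] at h
      omega
    simp [v, this, abs_of_nonneg (Real.sqrt_nonneg _)]
  · simp [(v_pos _ _).le]

lemma sum_g (N L j : ℕ) (hj : j ≤ N) :
    ∑ n ∈ Finset.range L, ‖(v N j)⁻¹ • g N (j + n + 1)‖ ≤ 4 * L + 2 := by
  have h1 := sum_v N L j hj
  have h2 := sum_v N (L + 1) j hj
  have h0 := v_pos N j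
  rw [Finset.sum_range_succ'] at h2
  simp only [norm_smul, norm_inv, Real.norm_of_nonneg h0.le, ← Finset.mul_sum]
  rw [inv_mul_le_iff₀ h0]
  refine (Finset.sum_le_sum fun n _ => norm_g N (j + n)).trans ?_
  rw [Finset.sum_add_distrib]
  simp only [← add_assoc, add_zero] at h2
  push_cast at h2
  linarith

theorem main : ∃ T : X →L[ℝ] X, T (e none) = 0 ∧
    (∀ x L, ∑ n ∈ Finset.range L, ‖(T ^ (n + 1)) x‖ ≤ (4 * L + 2) * ‖x‖) ∧
    Dense {p : X | ∃ q, 0 < q ∧ (T ^ q) p = p} := by
  obtain ⟨T, hT⟩ := exists_op (fun i => i.elim 0 fun s => (v s.1 s.2)⁻¹ • g s.1 (s.2 + 1)) 6 (by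
    rintro (_ | ⟨N, j⟩)
    · simp
    · simpa [show (4 : ℝ) + 2 = 6 by norm_num] using sum_g N 1 j j.is_le)
  have h0 : T (e none) = 0 := hT none
  have h1 : ∀ N j, T (g N j) = g N (j + 1) := fun N j => by
    rw [g, map_add, map_smul, map_smul, h0, hT, smul_zero, add_zero, ← g_mod N (j + 1)]
    simp only [Option.elim, Fin.ofNat]
    rw [← g_mod N (_ + 1), Nat.mod_add_mod, show v N (j % (N + 1)) = v N j by simp [v],
      smul_inv_smul₀ (v_pos _ _).ne']
  have h2 : ∀ N j n, (T ^ n) (g N j) = g N (j + n) := fun N j n => by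
    induction n with
    | zero => rfl
    | succ n ih => rw [pow_succ', mul_apply_eq_comp, ih, h1, add_assoc]
  refine ⟨T, h0, fun x L => ?_, ?_⟩
  · have h3 : ∀ i, ∑ n ∈ Finset.range L, ‖(T ^ (n + 1)) (e i)‖ ≤ 4 * L + 2 := by
      rintro (_ | ⟨N, j⟩)
      · simp only [pow_succ, mul_apply_eq_comp, h0, map_zero, norm_zero, Finset.sum_const_zero]
        positivity
      · simpa only [pow_succ, mul_apply_eq_comp, hT, Option.elim, map_smul, h2, add_right_comm _ 1] using
          sum_g N L j j.is_le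
    refine le_of_tendsto_of_tendsto' (f := fun s : Finset ι => ∑ n ∈ Finset.range L,
      ‖(T ^ (n + 1)) (∑ i ∈ s, x i • e i)‖) (b := atTop) (tendsto_finsetSum _ fun n _ =>
        (((T ^ (n + 1)).continuous.tendsto _).comp (hasSum_e x)).norm) tendsto_const_nhds fun s => ?_
    simp only [map_sum, map_smul]
    refine (Finset.sum_le_sum fun n _ => norm_sum_le _ _).trans ?_
    rw [Finset.sum_comm]
    refine le_trans (Finset.sum_le_sum fun i _ => ?_)
      (sum_le_hasSum s (fun i _ => by positivity) ((hasSum_norm x).mul_left (4 * (L : ℝ) + 2)))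
    simp only [norm_smul, ← Finset.mul_sum]
    rw [mul_comm]
    exact mul_le_mul_of_nonneg_right (h3 i) (norm_nonneg _)
  · let P : Submodule ℝ X :=
      { carrier := {p : X | ∃ q, 0 < q ∧ (T ^ q) p = p}
        zero_mem' := ⟨1, one_pos, by simp⟩
        smul_mem' := fun c p ⟨q, k1, k2⟩ => ⟨q, k1, by rw [map_smul, k2]⟩
        add_mem' := fun {p p'} ⟨q, k1, k2⟩ ⟨q', k3, k4⟩ => ⟨q * q', mul_pos k1 k3, by
          rw [map_add]
          congr 1
          · rw [pow_mul, FunLike.coe_pow_eq_iterate]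
            exact Function.iterate_fixed k2 _
          · rw [pow_mul', FunLike.coe_pow_eq_iterate]
            exact Function.iterate_fixed k4 _⟩ }
    have k1 : ∀ N j, g N j ∈ P := fun N j => ⟨N + 1, N.succ_pos, by
      rw [h2, ← g_mod, Nat.add_mod_right, g_mod]⟩
    have k2 : e none ∈ P.topologicalClosure := by
      refine mem_closure_of_tendsto (b := atTop) (f := fun N : ℕ => (√(N + 1))⁻¹ • g N 0)
        (tendsto_iff_norm_sub_tendsto_zero.2 ?_) (Eventually.of_forall fun N => P.smul_mem _ (k1 N 0))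
      refine (tendsto_inv_atTop_zero.comp (Real.tendsto_sqrt_atTop.comp
        (tendsto_natCast_atTop_atTop.atTop_add (tendsto_const_nhds (x := (1 : ℝ)))))).congr fun N => ?_
      have : √((N : ℝ) + 1) ≠ 0 := by positivity
      simp [g, v, this, norm_smul, norm_e, abs_of_nonneg (Real.sqrt_nonneg _)]
    have k3 : ∀ i, e i ∈ P.topologicalClosure := by
      rintro (_ | ⟨N, j⟩)
      · exact k2
      · have := P.topologicalClosure.sub_mem (P.le_topologicalClosure (k1 N j))
          (P.topologicalClosure.smul_mem (if j % (N + 1) = 0 then √(N + 1) else 0) k2)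
        rw [g, add_sub_cancel_right, Submodule.smul_mem_iff _ (v_pos _ _).ne'] at this
        simpa using this
    exact fun x => P.isClosed_topologicalClosure.mem_of_tendsto (hasSum_e x)
      (Eventually.of_forall fun s => Submodule.sum_mem _ fun i _ => Submodule.smul_mem _ _ (k3 i))

end Pool.Agent.H32.ACB
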