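import Mathlib

/-! Zero-one law for tail-invariant achievement sets: meagre lemmas and nonnegative series. -/

namespace Pool.Agent.H32.Ach
open Set Filter Topology

def M (S K : Set ℝ) : Prop := IsMeagre {y : K | y.1 ∈ S}

lemma M.mono {S S' K : Set ℝ} (h : M S' K) (e : S ⊆ S') : M S K :=
  IsMeagre.mono (fun _ hy => e hy) h

lemma M.up {S K K' : Set ℝ} (h : M S K) (e : K ⊆ K') (e' : S ⊆ K) : M S K' :=
  IsMeagre.mono (fun y hy => (mem_image _ _ _).2 ⟨⟨y.1, e' hy⟩, hy, rfl⟩)
    ((IsEmbedding.inclusion e).isInducing.isMeagre_image h)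

lemma M.opn {S K O : Set ℝ} (h : M S K) (hO : IsOpen O) : M S (K ∩ O) := by
  refine IsMeagre.preimage_of_isOpenMap (f := inclusion (inter_subset_left : K ∩ O ⊆ K))
    (continuous_inclusion _) (IsOpenEmbedding.inclusion _ ?_).isOpenMap h
  have : (Subtype.val : K → ℝ) ⁻¹' (K ∩ O) = Subtype.val ⁻¹' O := by ext y; simp
  rw [this]; exact hO.preimage continuous_subtype_val

lemma M.tr {S K : Set ℝ} (h : M S K) (t : ℝ) : M {y | y + t ∈ S} {y | y + t ∈ K} :=
  let e : {y // y + t ∈ K} ≃ₜ {y // y ∈ K} := (Homeomorph.addRight t).subtype fun _ => Iff.rfl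
  IsMeagre.preimage_of_isOpenMap (f := e) e.continuous e.isOpenMap h

lemma M.real {S K : Set ℝ} (h : M S K) (e : S ⊆ K) : IsMeagre S :=
  IsMeagre.mono (fun y hy => (mem_image _ _ _).2 ⟨⟨y, e hy⟩, hy, rfl⟩)
    (IsInducing.subtypeVal.isMeagre_image h)

lemma M.of_real {S K : Set ℝ} (h : IsMeagre S) (e : K ⊆ closure (interior (closure K))) :
    M S K := by
  obtain ⟨C, c1, c2, c3⟩ := isMeagre_iff_countable_union_isNowhereDense.1 h
  refine IsMeagre.mono (s := ⋃ N ∈ C, (Subtype.val : K → ℝ) ⁻¹' closure N) (fun y hy => ?_)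
    (isMeagre_biUnion c2 fun N hN => IsNowhereDense.isMeagre ?_)
  · obtain ⟨N, h1, h2⟩ := c3 hy
    exact mem_biUnion h1 (subset_closure h2)
  · rw [(isClosed_closure.preimage continuous_subtype_val).isNowhereDense_iff]
    refine eq_empty_of_forall_notMem fun y hy => ?_
    obtain ⟨_, u1, ⟨O, o1, rfl⟩, u3⟩ := mem_interior.1 hy
    obtain ⟨z, z1, z2⟩ := mem_closure_iff.1 (e y.2) O o1 u3
    have : O ∩ interior (closure K) ⊆ interior (closure N) := by
      refine interior_maximal (fun w hw => ?_) (o1.inter isOpen_interior)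
      have := o1.inter_closure ⟨hw.1, interior_subset hw.2⟩
      exact closure_minimal (fun v hv => u1 (a := ⟨v, hv.2⟩) hv.1) isClosed_closure this
    have h5 := this ⟨z1, z2⟩
    rw [c1 N hN] at h5
    exact h5

lemma M.iUnion {ι : Type} [Countable ι] {S : ι → Set ℝ} {K : Set ℝ} (h : ∀ i, M (S i) K) :
    M (⋃ i, S i) K :=
  IsMeagre.mono (fun _ hy => by simpa using hy) (isMeagre_iUnion h)

/-- translation argument on the line -/
lemma M.spread {S V K D : Set ℝ} (h : M (S ∩ V) K) (hS : S ⊆ K) (hD : D.Countable)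
    (e : K ⊆ closure (interior (closure K))) (hs : ∀ y ∈ S, ∃ t ∈ D, y + t ∈ S ∩ V) : M S K := by
  have h1 := h.real (inter_subset_left.trans hS)
  refine M.of_real (IsMeagre.mono (s := ⋃ t ∈ D, (fun y => y + t) ⁻¹' (S ∩ V)) (fun y hy => ?_)
    (isMeagre_biUnion hD fun t _ => IsMeagre.preimage_of_isOpenMap (continuous_add_const t)
      (Homeomorph.addRight t).isOpenMap h1)) e
  obtain ⟨t, t1, t2⟩ := hs y hy
  exact mem_biUnion t1 t2

/-- closed under finite modifications -/
def Tail (I : Set (Set ℕ)) : Prop :=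
  ∀ B ∈ I, ∀ B' : Set ℕ, ∀ L : Set ℕ, L.Finite → B \ L = B' \ L → B' ∈ I

noncomputable def sg (x : ℕ → ℝ) (B : Set ℕ) : ℝ := ∑' n, B.indicator x n

section
variable {x : ℕ → ℝ} (hs : Summable x)
include hs

lemma sg_union {B C : Set ℕ} (h : Disjoint B C) : sg x (B ∪ C) = sg x B + sg x C := by
  unfold sg
  rw [indicator_union_of_disjoint h, (hs.indicator B).tsum_add (hs.indicator C)]

lemma sg_split (B L : Set ℕ) : sg x B = sg x (B ∩ L) + sg x (B \ L) := by
  rw [← sg_union hs (disjoint_sdiff_inter.symm), inter_union_sdiff]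

omit hs in
lemma sg_fin (F : Finset ℕ) : sg x F = ∑ n ∈ F, x n := (sum_eq_tsum_indicator x F).symm

variable (hp : ∀ n, 0 ≤ x n)
include hp

omit hs in
lemma sg_nn (B : Set ℕ) : 0 ≤ sg x B := tsum_nonneg fun n => indicator_nonneg (fun k _ => hp k) n

lemma sg_mono {B C : Set ℕ} (h : B ⊆ C) : sg x B ≤ sg x C := by
  rw [sg_split hs C B, inter_eq_right.2 h]; linarith [sg_nn hp (C \ B)]

lemma sg_one {B : Set ℕ} {k : ℕ} (h : k ∈ B) : x k ≤ sg x B := by
  have := sg_mono hs hp (B := ({k} : Finset ℕ)) (C := B) (by simpa using h)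
  rwa [sg_fin, Finset.sum_singleton] at this

omit hp in
lemma tail {η : ℝ} (h : 0 < η) : ∃ n, sg x (Iio n)ᶜ < η := by
  have h1 := hs.hasSum.tendsto_sum_nat
  obtain ⟨n, hn⟩ := (h1.eventually (lt_mem_nhds (show ∑' n, x n - η < ∑' n, x n by linarith))).exists
  refine ⟨n, ?_⟩
  have h2 := sg_split hs univ (Iio n)
  rw [univ_inter, ← compl_eq_univ_sdiff, ← Finset.coe_range, sg_fin, Finset.coe_range] at h2
  have h3 : sg x univ = ∑' n, x n := by simp [sg]
  linarith

omit hs in
lemma kak_fin (η : ℝ) (J : Finset ℕ) :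
    (∀ n ∈ J, x n ≤ ∑ m ∈ J with x m < x n, x m + η) → ∀ y, 0 ≤ y → y ≤ ∑ m ∈ J, x m + η →
      ∃ B ⊆ J, ∑ m ∈ B, x m ≤ y ∧ y ≤ ∑ m ∈ B, x m + η := by
  classical
  induction J using Finset.induction_on_max_value x with
  | empty => intro _ y h1 h2; exact ⟨∅, subset_rfl, by simpa using h1, h2⟩
  | insert a J ha hm ih =>
    intro h y h1 h2
    have ih' := ih fun n hn => by
      have := h n (Finset.mem_insert_of_mem hn)
      rwa [Finset.filter_insert, if_neg (not_lt.2 (hm n hn))] at this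
    have h3 := h a (Finset.mem_insert_self _ _)
    rw [Finset.filter_insert, if_neg (lt_irrefl _)] at h3
    have h4 : ∑ m ∈ J with x m < x a, x m ≤ ∑ m ∈ J, x m :=
      Finset.sum_le_sum_of_subset_of_nonneg (Finset.filter_subset _ _) fun k _ _ => hp k
    rw [Finset.sum_insert ha] at h2
    by_cases hy : y ≤ ∑ m ∈ J, x m + η
    · obtain ⟨B, b1, b2⟩ := ih' y h1 hy
      exact ⟨B, b1.trans (Finset.subset_insert _ _), b2⟩
    · obtain ⟨B, b1, b2, b3⟩ := ih' (y - x a) (by linarith) (by linarith)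
      refine ⟨insert a B, Finset.insert_subset_insert _ b1, ?_⟩
      rw [Finset.sum_insert fun k => ha (b1 k)]
      constructor <;> linarith

lemma kak {ε : ℝ} (hε : 0 < ε) (h : ∀ c, 0 < c → c ≤ ε → c ≤ sg x {k | x k < c}) :
    Icc 0 ε ⊆ closure (range (sg x)) := by
  classical
  intro y hy
  refine Metric.mem_closure_iff.2 fun η hη => ?_
  obtain ⟨N, hN⟩ := tail hs (half_pos hη)
  have bd : ∀ c, sg x {k | x k < c} ≤ ∑ m ∈ Finset.range N with x m < c, x m + η / 2 := by
    intro c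
    rw [sg_split hs _ (Iio N), ← sg_fin]
    refine add_le_add (sg_mono hs hp fun k hk => ?_) ((sg_mono hs hp fun k hk => hk.2).trans hN.le)
    simpa using ⟨hk.2, hk.1⟩
  obtain ⟨B, -, b2, b3⟩ := kak_fin hp (η / 2) ((Finset.range N).filter fun m => x m < ε)
    (fun n hn => by
      have hn' := (Finset.mem_filter.1 hn).2
      rcases (hp n).eq_or_lt with e | e
      · rw [← e]
        exact add_nonneg (Finset.sum_nonneg fun k _ => hp k) (half_pos hη).le
      · refine ((h _ e hn'.le).trans (bd _)).trans (le_of_eq ?_)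
        rw [Finset.filter_filter]
        congr 2
        exact Finset.filter_congr fun k _ => ⟨fun e => ⟨e.trans hn', e⟩, fun e => e.2⟩)
    y hy.1 (hy.2.trans ((h ε hε le_rfl).trans (bd ε)))
  refine ⟨_, ⟨B, rfl⟩, ?_⟩
  rw [sg_fin, Real.dist_eq, abs_lt]
  constructor <;> linarith

omit hp hs in
lemma fin_sums {L : Set ℕ} (hL : L.Finite) : (sg x '' {F | F ⊆ L}).Finite :=
  hL.finite_subsets.image _

lemma reg (h : (interior (closure (range (sg x)))).Nonempty) :
    range (sg x) ⊆ closure (interior (closure (range (sg x)))) := by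
  rintro _ ⟨B, rfl⟩
  refine Metric.mem_closure_iff.2 fun η hη => ?_
  obtain ⟨N, hN⟩ := tail hs hη
  let T := sg x '' {C | Disjoint C (Iio N)}
  have hc : ∀ t, IsClosed ((fun y => y - t) ⁻¹' closure T) := fun t =>
    isClosed_closure.preimage (continuous_sub_right t)
  have h1 : closure (range (sg x)) ⊆
      ⋃ t ∈ sg x '' {F | F ⊆ Iio N}, (fun y => y - t) ⁻¹' closure T := by
    refine closure_minimal ?_ ((fin_sums (x := x) (finite_Iio N)).isClosed_biUnion fun t _ => hc t)
    rintro _ ⟨C, rfl⟩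
    refine mem_biUnion ⟨C ∩ Iio N, inter_subset_right, rfl⟩ (subset_closure
      ⟨C \ Iio N, disjoint_sdiff_left, ?_⟩)
    rw [sg_split hs C (Iio N)]; ring
  obtain ⟨z, hz⟩ : (interior (closure T)).Nonempty := by
    by_contra k
    rw [not_nonempty_iff_eq_empty] at k
    have := isMeagre_biUnion (fin_sums (x := x) (finite_Iio N)).countable
      (f := fun t => (fun y => y - t) ⁻¹' closure T) fun t _ =>
      IsMeagre.preimage_of_isOpenMap (continuous_sub_right t) (Homeomorph.subRight t).isOpenMap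
        ((isClosed_closure.isNowhereDense_iff.2 k).isMeagre)
    exact not_isMeagre_of_isOpen isOpen_interior h (this.mono (interior_subset.trans h1))
  have hT : closure T ⊆ Icc 0 (sg x (Iio N)ᶜ) := by
    refine closure_minimal ?_ isClosed_Icc
    rintro _ ⟨C, hC, rfl⟩
    exact ⟨sg_nn hp _, sg_mono hs hp (Disjoint.subset_compl_right hC)⟩
  have h2 : (fun y => y - sg x (B ∩ Iio N)) ⁻¹' interior (closure T) ⊆
      interior (closure (range (sg x))) := by
    refine interior_maximal (fun w hw => ?_) (isOpen_interior.preimage (continuous_sub_right _))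
    have := map_mem_closure (f := fun y => y + sg x (B ∩ Iio N)) (t := range (sg x))
      (continuous_add_const _) (interior_subset hw) (by
        rintro _ ⟨C, hC, rfl⟩
        exact ⟨_, sg_union hs (Disjoint.mono_right inter_subset_right hC)⟩)
    simpa using this
  refine ⟨z + sg x (B ∩ Iio N), h2 (by simpa using hz), ?_⟩
  have h3 := hT (interior_subset hz)
  have h4 := sg_split hs B (Iio N)
  have h5 := sg_nn hp (B \ Iio N)
  have h6 := sg_mono hs hp (B := B \ Iio N) (C := (Iio N)ᶜ) fun k hk => hk.2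
  rw [Real.dist_eq, abs_lt]
  constructor <;> linarith [h3.1, h3.2]

theorem core {I : Set (Set ℕ)} (hI : Tail I) {V : Set ℝ} (hV : IsOpen V) {B0 : Set ℕ}
    (h0 : sg x B0 ∈ V) (h : M (sg x '' I ∩ V) (range (sg x))) : M (sg x '' I) (range (sg x)) := by
  obtain ⟨ρ, hρ, hb⟩ := Metric.isOpen_iff.1 hV _ h0
  by_cases hi : (interior (closure (range (sg x)))).Nonempty
  · obtain ⟨N, hN⟩ := tail hs hρ
    have hf := fin_sums (x := x) (finite_Iio N)
    refine h.spread (image_subset_range _ _) (hf.image2 (fun a b => a - b) hf).countable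
      (reg hs hp hi) ?_
    rintro _ ⟨B, hB, rfl⟩
    have e : sg x B + (sg x (B0 ∩ Iio N) - sg x (B ∩ Iio N)) = sg x (B0 ∩ Iio N ∪ B \ Iio N) := by
      rw [sg_union hs (disjoint_sdiff_right.mono_left inter_subset_right), sg_split hs B (Iio N)]
      ring
    refine ⟨_, ⟨_, ⟨B0 ∩ Iio N, inter_subset_right, rfl⟩, _, ⟨B ∩ Iio N, inter_subset_right, rfl⟩,
      rfl⟩, ⟨_, hI B hB _ (Iio N) (finite_Iio N) ?_, e.symm⟩, hb ?_⟩
    · ext k; simp only [Set.mem_sdiff, mem_union, mem_inter_iff]; tauto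
    · have h4 := sg_split hs B (Iio N)
      have h4' := sg_split hs B0 (Iio N)
      have h5 := sg_nn hp (B \ Iio N)
      have h5' := sg_nn hp (B0 \ Iio N)
      have h6 := sg_mono hs hp (B := B \ Iio N) (C := (Iio N)ᶜ) fun k hk => hk.2
      have h6' := sg_mono hs hp (B := B0 \ Iio N) (C := (Iio N)ᶜ) fun k hk => hk.2
      rw [Metric.mem_ball, Real.dist_eq, abs_lt]
      constructor <;> linarith
  rw [not_nonempty_iff_eq_empty] at hi
  obtain ⟨w, w1, w2⟩ : ∃ w ∈ Ioo (sg x B0 - ρ) (sg x B0), w ∉ closure (range (sg x)) := by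
    by_contra k
    push Not at k
    have := interior_maximal k isOpen_Ioo
    rw [hi] at this
    exact this (a := sg x B0 - ρ / 2) ⟨by linarith, by linarith⟩
  obtain ⟨g, hg, gb⟩ := Metric.isOpen_iff.1 isClosed_closure.isOpen_compl w w2
  have gap : ∀ B, w < sg x B → w + g ≤ sg x B := fun B hB => by
    by_contra k
    refine gb (a := sg x B) ?_ (subset_closure ⟨B, rfl⟩)
    rw [Metric.mem_ball, Real.dist_eq, abs_lt]; constructor <;> linarith
  obtain ⟨N, hN⟩ := tail hs hg
  have up : ∀ B, w < sg x B → w < sg x (B ∩ Iio N) := fun B hB => by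
    have h4 := sg_split hs B (Iio N)
    have h6 := sg_mono hs hp (B := B \ Iio N) (C := (Iio N)ᶜ) fun k hk => hk.2
    linarith [gap B hB]
  have hf := fin_sums (x := x) (finite_Iio N)
  obtain ⟨_, ⟨⟨F, hF, rfl⟩, v1⟩, v2⟩ := (hf.inter_of_left (Ioi w)).exists_minimal
    ⟨_, ⟨B0 ∩ Iio N, inter_subset_right, rfl⟩, up B0 w1.2⟩
  have vm : ∀ G ⊆ Iio N, w < sg x G → sg x F ≤ sg x G := fun G hG k => by
    rcases le_total (sg x F) (sg x G) with e | e
    · exact e
    · exact v2 ⟨⟨G, hG, rfl⟩, k⟩ e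
  have v3 : sg x F ≤ sg x B0 := (vm _ inter_subset_right (up B0 w1.2)).trans
    (sg_mono hs hp inter_subset_left)
  obtain ⟨δ, d0, d1⟩ : ∃ δ > 0, ∀ G ⊆ Iio N, (sg x F < sg x G → sg x F + δ ≤ sg x G) ∧
      (0 < sg x G → δ ≤ sg x G) := by
    have h1 : ∀ᶠ δ in 𝓝[>] (0 : ℝ), ∀ t ∈ sg x '' {F | F ⊆ Iio N},
        (sg x F < t → sg x F + δ ≤ t) ∧ (0 < t → δ ≤ t) := by
      refine (eventually_all_finite hf).2 fun t _ => Eventually.and ?_ ?_
      · by_cases k : sg x F < t
        · exact mem_of_superset (nhdsWithin_le_nhds (Iio_mem_nhds (sub_pos.2 k))) fun δ hδ _ => by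
            have : δ < t - sg x F := hδ
            linarith
        · exact Eventually.of_forall fun _ e => absurd e k
      · by_cases k : 0 < t
        · exact mem_of_superset (nhdsWithin_le_nhds (Iio_mem_nhds k)) fun δ hδ _ => le_of_lt hδ
        · exact Eventually.of_forall fun _ e => absurd e k
    obtain ⟨δ, h2, h3⟩ := (h1.and self_mem_nhdsWithin).exists
    exact ⟨δ, h3, fun G hG => h2 _ ⟨G, hG, rfl⟩⟩
  obtain ⟨c, c0, c1, c2⟩ : ∃ c, 0 < c ∧ c ≤ min δ ρ ∧ sg x {k | x k < c} < c := by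
    by_contra k
    push Not at k
    have := interior_maximal (Ioo_subset_Icc_self.trans (kak hs hp (lt_min d0 hρ) k)) isOpen_Ioo
    rw [hi] at this
    exact this (a := min δ ρ / 2) ⟨by positivity, half_lt_self (lt_min d0 hρ)⟩
  have cδ := c1.trans (min_le_left _ _)
  have cρ := c1.trans (min_le_right _ _)
  let L := {k | x k < c}ᶜ
  have hL : L.Finite := by
    have := hs.tendsto_cofinite_zero.eventually (gt_mem_nhds c0)
    exact this
  let T := sg x '' {B | Disjoint B L}
  let S := sg x '' {B | B ∈ I ∧ Disjoint B L}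
  have sm : ∀ B, Disjoint B L → sg x B < c := fun B hB =>
    (sg_mono hs hp (fun k hk => not_not.1 fun e => disjoint_left.1 hB hk e)).trans_lt c2
  have av : ∀ B, sg x B < c → sg x F + sg x B = sg x (F ∪ B \ Iio N) := fun B hB => by
    have h4 := sg_split hs B (Iio N)
    have h5 := sg_nn hp (B \ Iio N)
    have h6 := (d1 _ (inter_subset_right (s := B))).2
    have h7 : sg x (B ∩ Iio N) = 0 := by
      refine le_antisymm (not_lt.1 fun e => ?_) (sg_nn hp _)
      linarith [h6 e]
    rw [sg_union hs (disjoint_sdiff_right.mono_left hF)]; linarith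
  have e1 : {y | y + sg x F ∈ range (sg x) ∩ Ioo w (sg x F + c)} = T := by
    ext y
    constructor
    · rintro ⟨⟨B, hB⟩, y1, y2⟩
      rw [← hB] at y1 y2
      have h4 := sg_split hs B (Iio N)
      have h5 := sg_nn hp (B \ Iio N)
      have h6 := vm _ inter_subset_right (up B y1)
      have h7 : sg x (B ∩ Iio N) = sg x F := by
        refine le_antisymm (not_lt.1 fun e => ?_) h6
        linarith [(d1 _ (inter_subset_right (s := B))).1 e]
      refine ⟨B \ Iio N, disjoint_left.2 fun k hk e => e ?_, by linarith⟩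
      have := sg_one hs hp hk
      show x k < c
      linarith
    · rintro ⟨B, hB, rfl⟩
      have h1 := sm B hB
      have h2 := sg_nn hp B
      have h3 : w < sg x F := v1
      exact ⟨⟨_, by rw [← av B h1, add_comm]⟩, by linarith, by linarith⟩
  have m1 : M S T := by
    rw [← e1]
    refine ((h.opn isOpen_Ioo).tr (sg x F)).mono ?_
    rintro _ ⟨B, ⟨b1, b2⟩, rfl⟩
    have h1 := sm B b2
    have h2 := sg_nn hp B
    have h3 : w < sg x F := v1
    refine ⟨⟨F ∪ B \ Iio N, hI B b1 _ (Iio N) (finite_Iio N) ?_, by rw [← av B h1, add_comm]⟩,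
      hb ?_⟩
    · ext k
      simp only [Set.mem_sdiff, mem_union]
      exact ⟨fun e => ⟨Or.inr e, e.2⟩, fun e => e.1.resolve_left fun f => e.2 (hF f)⟩
    · rw [Metric.mem_ball, Real.dist_eq, abs_lt]; constructor <;> linarith [w1.1]
  have := hL.finite_subsets.to_subtype
  refine (M.iUnion (ι := {G | G ⊆ L}) (S := fun G => {y | y + -sg x G.1 ∈ S}) fun G =>
    (m1.tr _).up ?_ fun y hy => image_mono (fun B hB => hB.2) hy).mono ?_
  · rintro y ⟨B, hB, e⟩
    exact ⟨B ∪ G.1, by rw [sg_union hs (Disjoint.mono_right G.2 hB), e]; ring⟩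
  · rintro _ ⟨B, hB, rfl⟩
    refine mem_iUnion.2 ⟨⟨B ∩ L, inter_subset_right⟩, B \ L,
      ⟨hI B hB _ L hL (by simp), disjoint_sdiff_left⟩, ?_⟩
    simp only
    rw [sg_split hs B L]; ring
end

end Pool.Agent.H32.Ach
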