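import Mathlib

set_option autoImplicit false
open MeasureTheory Set
open scoped ENNReal Pointwise

namespace Pool.Agent.H32.BBL

lemma bm_compact {K L : Set ℝ} (hK : IsCompact K) (hL : IsCompact L) (hK0 : K.Nonempty)
    (hL0 : L.Nonempty) : volume K + volume L ≤ volume (K + L) := by
  obtain ⟨a, haK, ha⟩ := hK.exists_isGreatest hK0
  obtain ⟨b, hbL, hb⟩ := hL.exists_isLeast hL0
  have h1 : volume ((fun x => x + b) '' K) = volume K := by
    simp [image_add_right]
  have h2 : volume ((fun x => a + x) '' L) = volume L := by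
    simp [image_add_left]
  have hm2 : MeasurableSet ((fun x => a + x) '' L) :=
    (hL.image (by fun_prop)).measurableSet
  have hd : AEDisjoint volume ((fun x => x + b) '' K) ((fun x => a + x) '' L) := by
    refine measure_mono_null (t := {a + b}) ?_ (by simp)
    rintro z ⟨⟨x, hx, rfl⟩, ⟨y, hy, hxy⟩⟩
    have := ha hx
    have := hb hy
    simp only [mem_singleton_iff] at *
    linarith
  rw [← h1, ← h2, ← measure_union₀ hm2.nullMeasurableSet hd]
  apply measure_mono
  rintro z (⟨x, hx, rfl⟩ | ⟨y, hy, rfl⟩)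
  · exact add_mem_add hx hbL
  · exact add_mem_add haK hy

lemma bm_meas {A B : Set ℝ} (hA : MeasurableSet A) (hB : MeasurableSet B) (hA0 : A.Nonempty)
    (hB0 : B.Nonempty) : volume A + volume B ≤ volume (A + B) := by
  obtain ⟨a, ha⟩ := hA0
  obtain ⟨b, hb⟩ := hB0
  have e : ∀ S : Set ℝ, MeasurableSet S →
      volume S = ⨆ K : {K : Set ℝ // K ⊆ S ∧ IsCompact K}, volume K.1 := by
    intro S hS
    apply le_antisymm
    · rw [hS.measure_eq_iSup_isCompact volume]
      refine iSup_le fun K => iSup_le fun h1 => iSup_le fun h2 => ?_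
      exact le_iSup (fun K : {K : Set ℝ // K ⊆ S ∧ IsCompact K} => volume K.1) ⟨K, h1, h2⟩
    · exact iSup_le fun K => measure_mono K.2.1
  have : Nonempty {K : Set ℝ // K ⊆ A ∧ IsCompact K} := ⟨⟨∅, empty_subset _, isCompact_empty⟩⟩
  have : Nonempty {K : Set ℝ // K ⊆ B ∧ IsCompact K} := ⟨⟨∅, empty_subset _, isCompact_empty⟩⟩
  rw [e A hA, e B hB]
  refine ENNReal.iSup_add_iSup_le fun K L => ?_
  have h := bm_compact (K.2.2.insert a) (L.2.2.insert b) (insert_nonempty _ _)
    (insert_nonempty _ _)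
  refine le_trans (add_le_add (measure_mono (subset_insert _ _))
    (measure_mono (subset_insert _ _))) (h.trans (measure_mono ?_))
  exact add_subset_add (insert_subset ha K.2.1) (insert_subset hb L.2.1)

lemma vol_smul (r : ℝ) (hr : 0 ≤ r) (A : Set ℝ) :
    volume (r • A) = ENNReal.ofReal r * volume A := by
  rw [Measure.addHaar_smul]
  simp [abs_of_nonneg hr]

lemma bm_smul {A B : Set ℝ} (hA : MeasurableSet A) (hB : MeasurableSet B) (hA0 : A.Nonempty)
    (hB0 : B.Nonempty) {t : ℝ} (ht : 0 < t) (ht1 : t < 1) :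
    ENNReal.ofReal t * volume A + ENNReal.ofReal (1 - t) * volume B
      ≤ volume (t • A + (1 - t) • B) := by
  rw [← vol_smul t ht.le, ← vol_smul (1 - t) (by linarith)]
  exact bm_meas (hA.const_smul₀ t) (hB.const_smul₀ (1 - t)) hA0.smul_set hB0.smul_set

lemma layer (f : ℝ → ℝ) (hf : Measurable f) (h0 : ∀ x, 0 ≤ f x) (a : ℝ) (ha : 0 < a) :
    ∫⁻ x, ENNReal.ofReal (f x) =
      ENNReal.ofReal a * ∫⁻ s in Ioi (0:ℝ), volume {x | a * s < f x} := by
  have h := lintegral_eq_lintegral_meas_lt volume (f := fun x => f x / a)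
    (Filter.Eventually.of_forall fun x => div_nonneg (h0 x) ha.le)
    (hf.div_const a).aemeasurable
  have e : ∀ s : ℝ, {x | s < f x / a} = {x | a * s < f x} := by
    intro s; ext x
    simp only [Set.mem_ofPred_eq]
    rw [lt_div_iff₀ ha, mul_comm]
  simp only [e] at h
  rw [← h, ← lintegral_const_mul _ (hf.div_const a).ennreal_ofReal]
  apply lintegral_congr
  intro x
  rw [← ENNReal.ofReal_mul ha.le]
  congr 1
  field_simp

lemma meas_level (f : ℝ → ℝ) (hf : Measurable f) (a : ℝ) :
    Measurable fun s : ℝ => volume {x | a * s < f x} := by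
  have hS : MeasurableSet {p : ℝ × ℝ | a * p.1 < f p.2} :=
    measurableSet_lt (by fun_prop) (hf.comp measurable_snd)
  exact measurable_measure_prodMk_left (ν := volume) hS

/-- One-dimensional Borell-Brascamp-Lieb inequality for the harmonic mean. -/
lemma bbl (f g h : ℝ → ℝ) (hf : Measurable f) (hg : Measurable g) (hh : Measurable h)
    (f0 : ∀ x, 0 ≤ f x) (g0 : ∀ x, 0 ≤ g x) (h0 : ∀ x, 0 ≤ h x)
    (fb : BddAbove (range f)) (gb : BddAbove (range g)) {t : ℝ} (ht : 0 < t) (ht1 : t < 1)
    (H : ∀ x y a b, 0 < a → 0 < b → a < f x → b < g y →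
      1 / (t / a + (1 - t) / b) < h (t * x + (1 - t) * y)) :
    min (∫⁻ x, ENNReal.ofReal (f x)) (∫⁻ x, ENNReal.ofReal (g x))
      ≤ ∫⁻ x, ENNReal.ofReal (h x) := by
  by_cases hf0 : ∀ x, f x = 0
  · simp [hf0]
  by_cases hg0 : ∀ x, g x = 0
  · simp [hg0]
  push Not at hf0 hg0
  obtain ⟨x0, hx0⟩ := hf0
  obtain ⟨y0, hy0⟩ := hg0
  set a := ⨆ x, f x with ha
  set b := ⨆ x, g x with hb
  have hfa : ∀ x, f x ≤ a := fun x => le_ciSup fb x
  have hgb : ∀ x, g x ≤ b := fun x => le_ciSup gb x
  have a0 : 0 < a := lt_of_lt_of_le (lt_of_le_of_ne (f0 x0) hx0.symm) (hfa x0)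
  have b0 : 0 < b := lt_of_lt_of_le (lt_of_le_of_ne (g0 y0) hy0.symm) (hgb y0)
  have t1 : 0 < 1 - t := by linarith
  set c := 1 / (t / a + (1 - t) / b) with hc
  have d0 : 0 < t / a + (1 - t) / b := by positivity
  have c0 : 0 < c := by positivity
  have key : ∀ s ∈ Ioi (0:ℝ), ENNReal.ofReal t * volume {x | a * s < f x}
      + ENNReal.ofReal (1 - t) * volume {x | b * s < g x} ≤ volume {x | c * s < h x} := by
    intro s hs
    have hs0 : 0 < s := hs
    by_cases hs1 : s < 1
    · have hA0 : {x | a * s < f x}.Nonempty := by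
        have : a * s < ⨆ x, f x := by rw [← ha]; nlinarith
        exact exists_lt_of_lt_ciSup this
      have hB0 : {x | b * s < g x}.Nonempty := by
        have : b * s < ⨆ x, g x := by rw [← hb]; nlinarith
        exact exists_lt_of_lt_ciSup this
      refine (bm_smul (measurableSet_lt measurable_const hf) (measurableSet_lt measurable_const hg)
        hA0 hB0 ht ht1).trans (measure_mono ?_)
      rintro z ⟨_, ⟨x, hx, rfl⟩, _, ⟨y, hy, rfl⟩, rfl⟩
      have := H x y (a * s) (b * s) (by positivity) (by positivity) hx hy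
      simp only [Set.mem_ofPred_eq, smul_eq_mul]
      refine lt_of_eq_of_lt ?_ this
      rw [hc]; field_simp
    · have e1 : {x | a * s < f x} = ∅ := by
        ext x; simp only [Set.mem_ofPred_eq, mem_empty_iff_false, iff_false, not_lt]
        have := hfa x; nlinarith
      have e2 : {x | b * s < g x} = ∅ := by
        ext x; simp only [Set.mem_ofPred_eq, mem_empty_iff_false, iff_false, not_lt]
        have := hgb x; nlinarith
      simp [e1, e2]
  have hI := setLIntegral_mono' (μ := volume) measurableSet_Ioi key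
  rw [lintegral_add_left ((meas_level f hf a).const_mul _),
    lintegral_const_mul _ (meas_level f hf a), lintegral_const_mul _ (meas_level g hg b)] at hI
  rw [layer f hf f0 a a0, layer g hg g0 b b0, layer h hh h0 c c0]
  set F := ∫⁻ s in Ioi (0:ℝ), volume {x | a * s < f x}
  set G := ∫⁻ s in Ioi (0:ℝ), volume {x | b * s < g x}
  refine le_trans ?_ (mul_le_mul_right hI _)
  set m := min (ENNReal.ofReal a * F) (ENNReal.ofReal b * G) with hm
  have m1 : ENNReal.ofReal (1 / a) * m ≤ F := by
    calc _ ≤ ENNReal.ofReal (1 / a) * (ENNReal.ofReal a * F) :=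
          mul_le_mul_right (min_le_left _ _) _
      _ = F := by
          rw [← mul_assoc, ← ENNReal.ofReal_mul (by positivity), one_div_mul_cancel a0.ne']
          simp
  have m2 : ENNReal.ofReal (1 / b) * m ≤ G := by
    calc _ ≤ ENNReal.ofReal (1 / b) * (ENNReal.ofReal b * G) :=
          mul_le_mul_right (min_le_right _ _) _
      _ = G := by
          rw [← mul_assoc, ← ENNReal.ofReal_mul (by positivity), one_div_mul_cancel b0.ne']
          simp
  calc m = ENNReal.ofReal c * (ENNReal.ofReal t * (ENNReal.ofReal (1 / a) * m)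
        + ENNReal.ofReal (1 - t) * (ENNReal.ofReal (1 / b) * m)) := by
        rw [← mul_assoc, ← mul_assoc, ← add_mul, ← mul_assoc,
          ← ENNReal.ofReal_mul ht.le, ← ENNReal.ofReal_mul t1.le,
          ← ENNReal.ofReal_add (by positivity) (by positivity), ← ENNReal.ofReal_mul c0.le]
        have : c * (t * (1 / a) + (1 - t) * (1 / b)) = 1 := by
          rw [hc]; field_simp
        rw [this]; simp
    _ ≤ _ := by gcongr

end Pool.Agent.H32.BBL
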