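import Pool.Agent.H32.DiffExt

set_option autoImplicit false

namespace Pool.Agent.H32.BoxIFS

open Set Filter Topology

abbrev Ω := ℕ → Fin 3

def cons (i : Fin 3) (ω : Ω) : Ω := fun n => Nat.casesOn n i ω

def P (j : ℕ) (ω : Ω) (n : ℕ) : Prop := ∃ r, ∀ k < n, (ω k = 2 ↔ (k + r) % (2 * (j + 1)) = 0)

def N (j : ℕ) : ℕ := 21 ^ (j + 1)

lemma N_ge (j : ℕ) : 20 * (j + 1) + 1 ≤ N j := by
  induction j with
  | zero => simp [N]
  | succ j ih =>
    simp only [N, pow_succ] at *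
    omega

lemma N_mono {i j : ℕ} (h : i ≤ j) : N i ≤ N j := Nat.pow_le_pow_right (by omega) (by omega)

open Classical in
noncomputable def e (ω : Ω) (n : ℕ) : ℕ :=
  (Finset.range n).sup fun j => if P j ω n ∧ n ≤ 20 * N j then n - N j else 0

lemma P.mono {j n m : ℕ} {ω : Ω} (h : P j ω n) (hm : m ≤ n) : P j ω m :=
  h.imp fun _ h k hk => h k (by omega)

lemma P.congr {j n : ℕ} {ω ω' : Ω} (h : P j ω n) (hω : ∀ k < n, ω k = ω' k) : P j ω' n :=
  h.imp fun _ h k hk => hω k hk ▸ h k hk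

lemma P.tail {j n : ℕ} {i : Fin 3} {ω : Ω} (h : P j (cons i ω) (n + 1)) : P j ω n := by
  obtain ⟨r, h⟩ := h
  refine ⟨r + 1, fun k hk => ?_⟩
  have := h (k + 1) (by omega)
  rwa [add_assoc, add_comm 1 r] at this

lemma e_ge {j n : ℕ} {ω : Ω} (h : P j ω n) (hn : n ≤ 20 * N j) : n - N j ≤ e ω n := by
  classical
  by_cases hj : j < n
  · refine le_trans (le_of_eq ?_) (Finset.le_sup (f := fun j =>
      if P j ω n ∧ n ≤ 20 * N j then n - N j else 0) (Finset.mem_range.2 hj))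
    exact (if_pos ⟨h, hn⟩).symm
  · have := N_ge j
    omega

lemma e_le {n c : ℕ} {ω : Ω} (h : ∀ j, P j ω n → n ≤ 20 * N j → n - N j ≤ c) : e ω n ≤ c := by
  refine Finset.sup_le fun j _ => ?_
  split_ifs with hj
  · exact h j hj.1 hj.2
  · exact Nat.zero_le _

lemma e_le_self (ω : Ω) (n : ℕ) : e ω n ≤ n := e_le fun _ _ _ => Nat.sub_le _ _

lemma e_succ (ω : Ω) (n : ℕ) : e ω (n + 1) ≤ e ω n + 1 :=
  e_le fun j h1 h2 => by
    have := e_ge (h1.mono (Nat.le_succ n)) (by omega)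
    omega

lemma e_cons (i : Fin 3) (ω : Ω) (n : ℕ) : e (cons i ω) (n + 1) ≤ e ω n + 1 :=
  e_le fun j h1 h2 => by
    have := e_ge h1.tail (by omega)
    omega

lemma e_congr {n : ℕ} {ω ω' : Ω} (h : ∀ k < n, ω k = ω' k) : e ω n = e ω' n :=
  le_antisymm (e_le fun _ h1 h2 => e_ge (h1.congr h) h2)
    (e_le fun _ h1 h2 => e_ge (h1.congr fun k hk => (h k hk).symm) h2)

lemma P_uniq {i j : ℕ} {ω : Ω} (hi : P i ω (4 * (i + 1))) (hj : P j ω (4 * (j + 1))) : ¬ i < j := by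
  intro hij
  obtain ⟨r, hr⟩ := hi
  obtain ⟨s, hs⟩ := hj
  set p := 2 * (i + 1) with hp
  have hp0 : 0 < p := by omega
  have h1 : (p - r % p + r) % p = 0 := by
    have := Nat.mod_lt r hp0
    have h2 := Nat.mod_add_div r p
    rw [show p - r % p + r = p * (r / p + 1) by rw [mul_add]; omega]
    exact Nat.mul_mod_right _ _
  have hlt := Nat.mod_lt r hp0
  obtain ⟨k, hk, hkr⟩ : ∃ k, k < p ∧ (k + r) % p = 0 := by
    by_cases h : r % p = 0
    · exact ⟨0, hp0, by simpa using h⟩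
    · exact ⟨_, by omega, h1⟩
  have a1 := (hs k (by omega)).1 ((hr k (by omega)).2 hkr)
  have a2 := (hs (k + p) (by omega)).1 ((hr (k + p) (by omega)).2 (by
    rw [add_right_comm, Nat.add_mod_right, hkr]))
  have := (Nat.dvd_add_right (Nat.dvd_of_mod_eq_zero a1)).1
    (show 2 * (j + 1) ∣ k + s + p by rw [add_right_comm]; exact Nat.dvd_of_mod_eq_zero a2)
  have := Nat.le_of_dvd hp0 this
  omega

lemma e_zero (ω : Ω) (M : ℕ) : ∃ n0, ∀ n ≥ n0, ∀ ω' : Ω, (∀ k < n, ω' k = ω k) →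
    ∀ m, n ≤ m → m < n + M → e ω' m = 0 := by
  obtain ⟨J, hJ⟩ : ∃ J, ∀ j, P j ω (4 * (j + 1)) → j ≤ J := by
    by_cases h : ∃ j, P j ω (4 * (j + 1))
    · obtain ⟨J, hJ⟩ := h
      exact ⟨J, fun j hj => not_lt.1 (P_uniq hJ hj)⟩
    · exact ⟨0, fun j hj => (h ⟨j, hj⟩).elim⟩
  refine ⟨20 * N (J + M) + 1, fun n hn ω' hω m h1 h2 =>
    Nat.le_zero.1 (e_le fun j h3 h4 => ?_)⟩
  by_contra hc
  have h5 := N_ge j
  have : j ≤ J + M := by
    by_cases h6 : 4 * (j + 1) ≤ n
    · exact (hJ j (((h3.mono h1).congr hω).mono h6)).trans (by omega)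
    · omega
  have := N_mono this
  omega

lemma e_N (ω : Ω) (j : ℕ) : e ω (N j) = 0 :=
  Nat.le_zero.1 (e_le fun i _ h => by
    by_cases hij : j ≤ i
    · have := N_mono hij
      omega
    · have h1 := N_mono (show i + 1 ≤ j by omega)
      have h2 := N_ge i
      simp only [N, pow_succ] at *
      omega)

noncomputable def L (ω : Ω) (n : ℕ) : ℝ := (1 / 16) ^ (8 * n - 7 * e ω n)

lemma L_pos (ω : Ω) (n : ℕ) : 0 < L ω n := by
  unfold L
  positivity

lemma L_congr {n : ℕ} {ω ω' : Ω} (h : ∀ k < n, ω k = ω' k) : L ω n = L ω' n := by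
  rw [L, L, e_congr h]

lemma L_aux {ω ω' : Ω} {n : ℕ} (h : e ω' (n + 1) ≤ e ω n + 1) : L ω' (n + 1) ≤ L ω n / 16 := by
  have := e_le_self ω n
  rw [div_eq_mul_one_div _ (16 : ℝ), L, L, ← pow_succ]
  exact pow_le_pow_of_le_one (by norm_num) (by norm_num) (by omega)

lemma L_add (ω : Ω) (n k : ℕ) : L ω (k + n) ≤ L ω n * (1 / 16) ^ k := by
  induction k with
  | zero => simp
  | succ k ih =>
    have := L_aux (e_succ ω (k + n))
    rw [add_right_comm, pow_succ]
    linarith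

lemma L_zero (ω : Ω) : L ω 0 = 1 := by simp [L]

lemma L_le (ω : Ω) (n : ℕ) : L ω n ≤ (1 / 16) ^ n := by
  simpa [L_zero] using L_add ω 0 n

lemma L_anti (ω : Ω) {n m : ℕ} (h : n ≤ m) : L ω m ≤ L ω n := by
  obtain ⟨k, rfl⟩ := Nat.exists_eq_add_of_le' h
  exact (L_add ω n k).trans (mul_le_of_le_one_right (L_pos _ _).le
    (pow_le_one₀ (by norm_num) (by norm_num)))

lemma tail_bound {c : ℕ → ℝ} {ω : Ω} {A : ℝ} (hA : 0 ≤ A) (hc : ∀ m, |c m| ≤ A * L ω m) :
    Summable c ∧ ∀ n, |∑' k, c (k + n)| ≤ A * L ω n * (16 / 15) := by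
  have hg : HasSum (fun k : ℕ => (1 / 16 : ℝ) ^ k) (16 / 15) := by
    have := hasSum_geometric_of_lt_one (r := 1 / 16) (by norm_num) (by norm_num)
    norm_num at this ⊢
    exact this
  refine ⟨Summable.of_norm_bounded (hg.summable.mul_left A) fun m =>
    (hc m).trans (mul_le_mul_of_nonneg_left (L_le ω m) hA), fun n => ?_⟩
  refine tsum_of_norm_bounded (f := fun k => c (k + n)) (hg.mul_left (A * L ω n))
    fun k => (hc _).trans ?_
  rw [mul_assoc]
  exact mul_le_mul_of_nonneg_left (L_add ω n k) hA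

lemma dig (i : Fin 3) : 0 ≤ ((i : ℕ) : ℝ) ∧ ((i : ℕ) : ℝ) ≤ 2 := by
  have : (i : ℕ) ≤ 2 := by omega
  exact ⟨by positivity, by exact_mod_cast this⟩

noncomputable def xt (ω : Ω) (n : ℕ) : ℝ := (ω n : ℕ) * L ω n

noncomputable def x (ω : Ω) : ℝ := ∑' n, xt ω n

lemma xt_le (ω : Ω) (m : ℕ) : |xt ω m| ≤ 2 * L ω m := by
  rw [xt, abs_mul, abs_of_nonneg (dig _).1, abs_of_pos (L_pos _ _)]
  exact mul_le_mul_of_nonneg_right (dig _).2 (L_pos _ _).le

lemma diff_bound {c c' : ℕ → ℝ} {ω ω' : Ω} {A : ℝ} (hA : 0 ≤ A) (hc : ∀ m, |c m| ≤ A * L ω m)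
    (hc' : ∀ m, |c' m| ≤ A * L ω' m) {n : ℕ} (h : ∀ k < n, c k = c' k) :
    |∑' k, c k - ∑' k, c' k| ≤ A * (L ω n + L ω' n) * (16 / 15) := by
  obtain ⟨s1, t1⟩ := tail_bound hA hc
  obtain ⟨s2, t2⟩ := tail_bound hA hc'
  rw [← s1.sum_add_tsum_nat_add n, ← s2.sum_add_tsum_nat_add n,
    Finset.sum_congr rfl fun k hk => h k (Finset.mem_range.1 hk), add_sub_add_left_eq_sub]
  have := abs_sub (∑' k, c (k + n)) (∑' k, c' (k + n))
  linarith [t1 n, t2 n]

lemma sep {ω ω' : Ω} {n : ℕ} (h : ∀ k < n, ω k = ω' k) (hn : ω n ≠ ω' n) :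
    2 / 3 * L ω n ≤ |x ω - x ω'| := by
  have hL := L_congr h
  have h1 := diff_bound (c := Function.update (xt ω) n (xt ω' n)) (c' := xt ω') (ω := ω) (ω' := ω')
    (n := n + 1) zero_le_two (fun m => by
      by_cases hm : m = n
      · subst hm
        rw [Function.update_self, hL]
        exact xt_le _ _
      · rw [Function.update_of_ne hm]
        exact xt_le _ _) (xt_le ω') (fun k hk => by
      by_cases hm : k = n
      · subst hm
        rw [Function.update_self]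
      · rw [Function.update_of_ne hm, xt, xt, h k (by omega),
          L_congr fun i hi => h i (by omega)])
  rw [((tail_bound zero_le_two (xt_le ω)).1.hasSum.update n (xt ω' n)).tsum_eq] at h1
  have h2 := L_aux (e_succ ω n)
  have h3 := L_aux (e_succ ω' n)
  have h4 : L ω n ≤ |xt ω' n - xt ω n| := by
    rw [xt, xt, ← hL, ← sub_mul, abs_mul, abs_of_pos (L_pos _ _)]
    refine le_mul_of_one_le_left (L_pos _ _).le ?_
    have : (1 : ℤ) ≤ |((ω' n : ℕ) : ℤ) - (ω n : ℕ)| := Int.one_le_abs (by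
      intro h
      exact hn (Fin.ext (by omega)))
    exact_mod_cast this
  have h5 := abs_sub (xt ω' n - xt ω n + x ω - x ω') (x ω - x ω')
  rw [show xt ω' n - xt ω n + x ω - x ω' - (x ω - x ω') = xt ω' n - xt ω n by ring] at h5
  have := L_pos ω n
  change |xt ω' n - xt ω n + x ω - x ω'| ≤ _ at h1
  linarith

lemma first {ω ω' : Ω} (h : ω ≠ ω') : ∃ n, (∀ k < n, ω k = ω' k) ∧ ω n ≠ ω' n := by
  classical
  have hex : ∃ n, ω n ≠ ω' n := Function.ne_iff.1 h
  exact ⟨Nat.find hex, fun k hk => not_not.1 (Nat.find_min hex hk), Nat.find_spec hex⟩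

lemma x_inj : Function.Injective x := by
  intro ω ω' h
  by_contra hc
  obtain ⟨n, h1, h2⟩ := first hc
  have := sep h1 h2
  rw [h, sub_self, abs_zero] at this
  linarith [L_pos ω n]

noncomputable def b : ℝ := (1 / 16) ^ 8

noncomputable def gt (i : Fin 3) (ω : Ω) (n : ℕ) : ℝ := (ω n : ℕ) * (L (cons i ω) (n + 1) - b * L ω n)

lemma gt_le (i : Fin 3) (ω : Ω) (m : ℕ) : |gt i ω m| ≤ 1 / 8 * L ω m := by
  have h1 := L_aux (e_cons i ω m)
  have h2 := L_pos (cons i ω) (m + 1)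
  have h3 := L_pos ω m
  have h4 : |L (cons i ω) (m + 1) - b * L ω m| ≤ L ω m / 16 := by
    unfold b
    rw [abs_le]
    constructor <;> linarith
  rw [gt, abs_mul, abs_of_nonneg (dig _).1]
  nlinarith [(dig (ω m)).1, (dig (ω m)).2, abs_nonneg (L (cons i ω) (m + 1) - b * L ω m)]

lemma x_cons (i : Fin 3) (ω : Ω) : x (cons i ω) = (i : ℕ) + b * x ω + ∑' n, gt i ω n := by
  rw [x, (tail_bound zero_le_two (xt_le _)).1.tsum_eq_zero_add, x, ← tsum_mul_left, add_assoc,
    ← ((tail_bound zero_le_two (xt_le ω)).1.mul_left b).tsum_add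
      (tail_bound (by norm_num) (gt_le i ω)).1]
  congr 1
  · simp [xt, L_zero, cons]
  · refine tsum_congr fun n => ?_
    simp only [xt, gt, cons]
    ring

lemma cons_congr {i : Fin 3} {ω ω' : Ω} {n : ℕ} (h : ∀ k < n, ω k = ω' k) :
    ∀ k < n + 1, cons i ω k = cons i ω' k := by
  intro k hk
  cases k with
  | zero => rfl
  | succ k => exact h k (by omega)

lemma gt_congr {i : Fin 3} {ω ω' : Ω} {n : ℕ} (h : ∀ k < n, ω k = ω' k) :
    ∀ k < n, gt i ω k = gt i ω' k := fun k hk => by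
  rw [gt, gt, h k hk, L_congr (n := k) fun j hj => h j (by omega),
    L_congr (cons_congr (n := k) fun j hj => h j (by omega))]

lemma hc : Continuous x := by
    refine continuous_tsum (u := fun n => 2 * (1 / 16 : ℝ) ^ n) (fun n => ?_)
      ((summable_geometric_of_lt_one (by norm_num) (by norm_num)).mul_left 2) fun n ω =>
        (xt_le ω n).trans (by linarith [L_le ω n])
    refine IsLocallyConstant.continuous ((IsLocallyConstant.iff_eventually_eq _).2 fun ω => ?_)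
    have : ∀ᶠ ω' in 𝓝 ω, ∀ k ∈ Finset.range (n + 1), ω' k = ω k :=
      (eventually_all_finset _).2 fun k _ =>
        ((continuous_apply k).tendsto ω).eventually (p := fun a => a = ω k) (by simp)
    filter_upwards [this] with ω' h
    rw [xt, xt, h n (by simp), L_congr fun k hk => h k (by simp; omega)]

theorem exists_f (i : Fin 3) : ∃ f : ℝ → ℝ, Differentiable ℝ f ∧ LipschitzWith (9 / 10) f ∧
    ∀ ω, f (x ω) = x (cons i ω) := by
  let g : ℝ → ℝ := fun t => ∑' n, gt i (Function.invFun x t) n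
  have hg : ∀ ω, g (x ω) = ∑' n, gt i ω n := fun ω => by
    simp only [g, Function.leftInverse_invFun x_inj ω]
  obtain ⟨G, h1, h2⟩ := DiffExt.ext_compact (K := range x) (isCompact_range hc) (range_nonempty x)
    (g := g) (C := 2 / 5) (by norm_num) (by
      rintro - ⟨ω, rfl⟩ - ⟨ω', rfl⟩
      by_cases h : ω' = ω
      · simp [h]
      obtain ⟨n, k1, k2⟩ := first h
      have k3 := diff_bound (by norm_num) (gt_le i ω') (gt_le i ω) (gt_congr k1)
      rw [hg, hg]
      linarith [sep k1 k2, L_congr k1]) (by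
      rintro - ⟨ω, rfl⟩ ε hε
      obtain ⟨M, hM⟩ := exists_pow_lt_of_lt_one hε (show (1 / 16 : ℝ) < 1 by norm_num)
      obtain ⟨n1, a1⟩ := e_zero ω M
      obtain ⟨n2, a2⟩ := e_zero (cons i ω) M
      refine ⟨L ω (n1 + n2) / 2, by linarith [L_pos ω (n1 + n2)], ?_⟩
      rintro - ⟨ω', rfl⟩ hd
      by_cases h : ω' = ω
      · simp [h]
      obtain ⟨n, k1, k2⟩ := first h
      have k3 := sep k1 k2
      have k4 := L_congr k1
      have hn : n1 + n2 ≤ n := by
        by_contra hc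
        linarith [L_anti ω (show n ≤ n1 + n2 by omega), L_pos ω (n1 + n2)]
      have z : ∀ ω' : Ω, (∀ k < n, ω' k = ω k) → ∀ m, n ≤ m → m < n + M → gt i ω' m = 0 := by
        intro ω' k1 m m1 m2
        rw [gt, L, L, a1 n (by omega) ω' k1 m m1 m2,
          a2 (n + 1) (by omega) _ (cons_congr k1) (m + 1) (by omega) (by omega), b, ← pow_add]
        simp [mul_add, add_comm]
      have k5 := diff_bound (by norm_num) (gt_le i ω') (gt_le i ω) (n := M + n) fun k hk => by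
        by_cases hkn : k < n
        · exact gt_congr k1 k hkn
        · rw [z ω' k1 k (by omega) (by omega), z ω (fun _ _ => rfl) k (by omega) (by omega)]
      rw [hg, hg]
      have k6 := L_add ω n M
      have k7 := L_add ω' n M
      have k8 : L ω n * (1 / 16) ^ M ≤ L ω n * ε := by
        have := L_pos ω n
        gcongr
      rw [k4] at k7 k3
      nlinarith [L_pos ω n])
  choose D hD hD' using h2
  have hd : ∀ t, HasDerivAt (fun t => ((i : ℕ) : ℝ) + b * t + G t) (b * 1 + D t) t := fun t =>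
    (((hasDerivAt_id t).const_mul b).const_add _).add (hD' t)
  refine ⟨_, fun t => (hd t).differentiableAt, lipschitzWith_of_nnnorm_deriv_le
    (fun t => (hd t).differentiableAt) fun t => ?_, fun ω => ?_⟩
  · rw [(hd t).deriv, ← NNReal.coe_le_coe, coe_nnnorm, Real.norm_eq_abs]
    have := abs_le.1 (hD t)
    unfold b
    rw [abs_le]
    constructor <;> norm_num <;> linarith
  · rw [h1 _ ⟨ω, rfl⟩, hg, x_cons]

theorem cover (n : ℕ) {δ : ℝ} (h : ∀ ω, 5 * L ω n ≤ δ) :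
    ∃ s : Finset ℝ, s.card ≤ 3 ^ n ∧ ∀ ω, ∃ y ∈ s, |x ω - y| ≤ δ := by
  classical
  let ex : (Fin n → Fin 3) → Ω := fun u k => if h : k < n then u ⟨k, h⟩ else 0
  refine ⟨Finset.univ.image fun u => x (ex u), Finset.card_image_le.trans (by simp), fun ω =>
    ⟨_, Finset.mem_image_of_mem _ (Finset.mem_univ fun k : Fin n => ω k), ?_⟩⟩
  have h1 : ∀ k < n, ω k = ex (fun k => ω k) k := fun k hk => by simp [ex, hk]
  have := diff_bound zero_le_two (xt_le ω) (xt_le (ex fun k => ω k)) (n := n) fun k hk => by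
    rw [xt, xt, h1 k hk, L_congr fun i hi => h1 i (by omega)]
  rw [← L_congr h1] at this
  exact this.trans (by linarith [h ω, L_pos ω n])

theorem pack (j : ℕ) : ∃ φ : (Fin (10 * N j) → Fin 2) → Ω, ∀ u u', u ≠ u' →
    2 / 3 * (1 / 16) ^ (27 * N j) ≤ |x (φ u) - x (φ u')| := by
  let φ : (Fin (10 * N j) → Fin 2) → Ω := fun u k =>
    if k % (2 * (j + 1)) = 0 then 2 else
      if h : k % 2 = 1 ∧ k / 2 < 10 * N j then (u ⟨k / 2, h.2⟩).castSucc else 0
  refine ⟨φ, fun u u' huu => ?_⟩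
  obtain ⟨i, hi⟩ := Function.ne_iff.1 huu
  have h1 : φ u (2 * i + 1) ≠ φ u' (2 * i + 1) := by
    have e1 : (2 * i + 1) % (2 * (j + 1)) ≠ 0 := fun h => by
      have := (Dvd.intro _ rfl : 2 ∣ 2 * (j + 1)).trans (Nat.dvd_of_mod_eq_zero h)
      omega
    have e2 : (2 * (i : ℕ) + 1) / 2 = i := by omega
    have e3 : (2 * (i : ℕ) + 1) % 2 = 1 := by omega
    simpa [φ, e1, e2, e3] using hi
  obtain ⟨n, k1, k2⟩ := first fun h : φ u = φ u' => h1 (congrFun h _)
  have hn : n ≤ 20 * N j := by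
    by_contra hc
    exact h1 (k1 _ (by omega))
  have hP : P j (φ u) (20 * N j) := ⟨0, fun k _ => by
    simp only [φ, add_zero]
    split_ifs with h h'
    · simp [h]
    · simpa [h] using Fin.castSucc_ne_last (u ⟨k / 2, h'.2⟩)
    · simp [h]⟩
  have h2 := e_ge hP le_rfl
  have h3 : (1 / 16 : ℝ) ^ (27 * N j) ≤ L (φ u) (20 * N j) :=
    pow_le_pow_of_le_one (by norm_num) (by norm_num) (by omega)
  linarith [sep k1 k2, L_anti (φ u) hn]

end Pool.Agent.H32.BoxIFS
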