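import Mathlib

open Set Filter
open Cardinal hiding univ

namespace Pool.Agent.H32.IndF

abbrev T : Type := ℕ → Bool
abbrev W : Type := (ℵ₁ : Cardinal.{0}).ord.ToType

lemma W_card : #W = ℵ₁ := mk_ord_toType _

lemma W_bdd {s : Set W} (hs : s.Countable) : ∃ β, ∀ a ∈ s, a < β := by
  by_contra h
  push Not at h
  have h1 : ∀ a : W, (Iic a).Countable := fun a => by
    rw [← Iio_insert]
    exact (le_aleph0_iff_set_countable.1 (lt_aleph_one_iff.1 (mk_Iio_toType_ord_lt a))).insert a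
  have h2 : (univ : Set W).Countable := (hs.biUnion fun a _ => h1 a).mono fun β _ => by
    obtain ⟨a, ha, h⟩ := h β
    exact mem_biUnion ha h
  rw [← le_aleph0_iff_set_countable, mk_univ, W_card] at h2
  exact absurd h2 (not_le.2 aleph0_lt_aleph_one)

def Fn (s : Finset (T × Bool)) : Prop := ∀ t, (t, true) ∈ s → (t, false) ∉ s

def combo (C : T × Bool → Set ℕ) (s : Finset (T × Bool)) : Set ℕ := {n | ∀ x ∈ s, n ∈ C x}

lemma exists_family : ∃ C : T × Bool → Set ℕ, (∀ t, C (t, false) = (C (t, true))ᶜ) ∧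
    ∀ s, Fn s → ∃ᶠ n in cofinite, n ∈ combo C s := by
  classical
  obtain ⟨e⟩ : Nonempty (ℕ ≃ ℕ × Finset (List Bool)) := nonempty_equiv_of_countable
  let r : T → ℕ → List Bool := fun t n => List.ofFn fun i : Fin n => t i
  refine ⟨fun x => {n | decide (r x.1 (e n).1 ∈ (e n).2) = x.2}, fun t => by ext n; simp,
    fun s hs => ?_⟩
  have h1 : ∀ᶠ n in atTop, ∀ x ∈ s, ∀ y ∈ s, r x.1 n = r y.1 n → x.1 = y.1 := by
    simp only [Finset.eventually_all]
    intro x _ y _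
    by_cases h : x.1 = y.1
    · exact Eventually.of_forall fun _ _ => h
    · obtain ⟨i, hi⟩ := Function.ne_iff.1 h
      filter_upwards [eventually_gt_atTop i] with n hn h2
      exact (hi (congrFun (List.ofFn_injective h2) ⟨i, hn⟩)).elim
  obtain ⟨N, hN⟩ := eventually_atTop.1 h1
  rw [frequently_cofinite_iff_infinite]
  refine infinite_of_injective_forall_mem
    (f := fun n => e.symm (N + n, (s.filter fun x => x.2 = true).image fun x => r x.1 (N + n)))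
    (fun a b h => by simpa using congrArg Prod.fst (e.symm.injective h)) fun n x hx => ?_
  simp only [mem_ofPred_eq, Equiv.apply_symm_apply]
  obtain ⟨t, _ | _⟩ := x
  · rw [decide_eq_false_iff_not]
    simp only [Finset.mem_image, Finset.mem_filter]
    rintro ⟨⟨t', b⟩, ⟨h1, rfl⟩, h2⟩
    obtain rfl : t' = t := hN _ (Nat.le_add_right _ _) _ h1 _ hx h2
    exact hs _ h1 hx
  · rw [decide_eq_true_iff]
    exact Finset.mem_image.2 ⟨_, Finset.mem_filter.2 ⟨hx, rfl⟩, rfl⟩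

lemma exists_filter (C : T × Bool → Set ℕ) (h : ∀ s, Fn s → ∃ᶠ n in cofinite, n ∈ combo C s) :
    ∃ F : Filter ℕ, F ≤ cofinite ∧ (∀ s, Fn s → ∃ᶠ n in F, n ∈ combo C s) ∧
      ∀ X : Set ℕ, (∃ᶠ n in F, n ∈ X) → ∃ s, Fn s ∧ ∀ᶠ n in F, n ∈ combo C s → n ∈ X := by
  obtain ⟨F, h1, h2⟩ : ∃ F : Filter ℕ, F ≤ cofinite ∧
      Minimal (fun F : Filter ℕ => ∀ s, Fn s → ∃ᶠ n in F, n ∈ combo C s) F :=
    zorn_le_nonempty₀ (α := (Filter ℕ)ᵒᵈ)
      {F : Filter ℕ | ∀ s, Fn s → ∃ᶠ n in F, n ∈ combo C s}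
      (fun c hc hch F0 hF0 => ⟨(⨅ F ∈ (c : Set (Filter ℕ)), F : Filter ℕ), fun s hs h3 => by
        obtain ⟨F, hF, h4⟩ := (mem_biInf_of_directed (f := id) (s := (c : Set (Filter ℕ)))
          hch.directedOn ⟨F0, hF0⟩).1 h3
        exact hc hF s hs h4, fun F hF =>
          show ((⨅ F ∈ (c : Set (Filter ℕ)), F : Filter ℕ) ≤ (F : Filter ℕ)) from
            biInf_le (α := Filter ℕ) (fun F => F) hF⟩) cofinite h
  refine ⟨F, h1, h2.prop, fun X hX => ?_⟩
  by_contra hc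
  push Not at hc
  have h3 : F ≤ F ⊓ 𝓟 Xᶜ := h2.le_of_le (fun s hs => by
    rw [frequently_inf_principal]
    exact (hc s hs).mono fun n hn => ⟨hn.2, hn.1⟩) inf_le_left
  exact hX (le_principal_iff.1 (h3.trans inf_le_right))

theorem main : ∃ (U : Ultrafilter ℕ) (G : W → Set (Set ℕ)) (p : W → Ultrafilter ℕ) (X : W → Set ℕ),
    (∀ α, univ ∈ G α ∧ (∀ A ∈ G α, ∀ B, A ⊆ B → B ∈ G α) ∧ (∀ A ∈ G α, ∀ B ∈ G α, A ∩ B ∈ G α)) ∧
    (∀ α β, α ≤ β → G α ⊆ G β) ∧ (∀ α β, α < β → X α ∈ G β) ∧ (∀ α, X α ∉ G α) ∧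
    (∀ A, A ∈ U ↔ ∃ α, A ∈ G α) ∧ (∀ α, ∀ A ∈ G α, A ∈ p α) ∧ (∀ α β, α ≤ β → X β ∉ p α) ∧
    (∀ α, (p α : Filter ℕ) ≤ cofinite) ∧ (U : Filter ℕ) ≤ cofinite ∧
    ∀ B : Set (Set ℕ), (∀ b ∈ B, b ∈ U) → (∀ A ∈ U, ∃ b ∈ B, b ⊆ A) → 𝔠 ≤ #B := by
  classical
  obtain ⟨C, hC, h0⟩ := exists_family
  obtain ⟨F, hF, hind, hden⟩ := exists_filter C h0
  have hcn : ∀ t b, C (t, !b) = (C (t, b))ᶜ := fun t b => by cases b <;> simp [hC]
  have hfn : ∀ s n, n ∈ combo C s → Fn s := fun s n hn t h1 h2 => by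
    have := hn _ h2
    rw [hC] at this
    exact this (hn _ h1)
  have hun : ∀ s r n, n ∈ combo C (s ∪ r) ↔ n ∈ combo C s ∧ n ∈ combo C r := fun s r n => by
    simp only [combo, mem_ofPred_eq, Finset.mem_union, or_imp, forall_and]
  have : F.NeBot := (frequently_true_iff_neBot F).1 ((hind ∅ fun _ h => by simp at h).mono
    fun _ _ => trivial)
  let U := Ultrafilter.of F
  have hU : (U : Filter ℕ) ≤ F := Ultrafilter.of_le F
  have hpos : ∀ A ∈ U, ∃ᶠ n in F, n ∈ A := fun A hA h =>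
    Ultrafilter.compl_notMem_iff.2 hA (hU h)
  obtain ⟨ι⟩ : Nonempty (W ↪ T) := by
    rw [← Cardinal.le_def, W_card]
    simpa using aleph_one_le_continuum
  have : Nonempty W := by
    rw [← mk_ne_zero_iff, W_card]
    exact (aleph_pos 1).ne'
  let ρ : T → W := Function.invFun ι
  have hρ : ∀ β, ρ (ι β) = β := Function.leftInverse_invFun ι.injective
  let res : Finset (T × Bool) → W → Finset (T × Bool) := fun s α => s.filter fun x => ρ x.1 < α
  let B : W → Set ℕ → Prop := fun α X => ∀ s, Fn s → (∀ᶠ n in F, n ∈ combo C s → n ∈ X) →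
    ∀ᶠ n in F, n ∈ combo C (res s α) → n ∈ X
  have hglue : ∀ α (s r : Finset (T × Bool)), Fn s → Fn (r ∪ res s α) → (∀ x ∈ r, ρ x.1 < α) →
      Fn (r ∪ s) := fun α s r h1 h2 h3 t a1 a2 => by
    have key : ∀ b, ρ t < α → (t, b) ∈ r ∪ s → (t, b) ∈ r ∪ res s α := fun b h a =>
      Finset.mem_union.2 ((Finset.mem_union.1 a).imp id fun a => Finset.mem_filter.2 ⟨a, h⟩)
    by_cases h : ρ t < α
    · exact h2 t (key _ h a1) (key _ h a2)
    · exact h1 t ((Finset.mem_union.1 a1).resolve_left fun a => h (h3 _ a))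
        ((Finset.mem_union.1 a2).resolve_left fun a => h (h3 _ a))
  have hsupp : ∀ X, ∃ α, B α X := fun X => by
    have : ∀ n, ∃ m : Finset (T × Bool), (∃ r, n ∈ combo C r ∧ ∀ᶠ k in F, k ∈ combo C r → k ∉ X) →
        n ∈ combo C m ∧ ∀ᶠ k in F, k ∈ combo C m → k ∉ X := fun n => by
      by_cases h : ∃ r, n ∈ combo C r ∧ ∀ᶠ k in F, k ∈ combo C r → k ∉ X
      · exact h.imp fun _ h _ => h
      · exact ⟨∅, fun h' => (h h').elim⟩
    choose m hm using this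
    obtain ⟨α, hα⟩ := W_bdd (s := ⋃ n, (fun x => ρ x.1) '' (m n : Set (T × Bool)))
      (countable_iUnion fun n => (m n).countable_toSet.image _)
    refine ⟨α, fun s hs h1 => ?_⟩
    by_contra h2
    obtain ⟨r, hr, h3⟩ := hden (combo C (res s α) \ X) (by
      simp only [not_eventually, Classical.not_imp] at h2
      exact h2)
    obtain ⟨n, hn, hn'⟩ := ((hind r hr).and_eventually h3).exists
    obtain ⟨a1, a2⟩ := hm n ⟨r, hn, h3.mono fun k hk hk' => (hk hk').2⟩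
    have h4 := hglue α s (m n) hs (hfn _ n ((hun _ _ _).2 ⟨a1, (hn' hn).1⟩))
      fun x hx => hα _ (mem_iUnion.2 ⟨n, x, hx, rfl⟩)
    obtain ⟨k, b1, b2, b3⟩ := ((hind _ h4).and_eventually (h1.and a2)).exists
    exact b3 ((hun _ _ _).1 b1).1 (b2 ((hun _ _ _).1 b1).2)
  have hε : ∀ t, ∃ b, C (t, b) ∈ U := fun t =>
    (U.mem_or_compl_mem (C (t, true))).elim (fun h => ⟨_, h⟩) fun h => ⟨false, hC t ▸ h⟩
  choose ε hε using hε
  have hmem : ∀ s x, Fn s → (∀ᶠ n in F, n ∈ combo C s → n ∈ C x) → x ∈ s := by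
    rintro s ⟨t, b⟩ hs h
    by_contra hx
    have h1 : Fn ({(t, !b)} ∪ s) := fun t' a1 a2 => by
      simp only [Finset.mem_union, Finset.mem_singleton, Prod.mk.injEq] at a1 a2
      rcases a1 with ⟨rfl, a1⟩ | a1 <;> rcases a2 with ⟨e, a2⟩ | a2
      · rw [← a1] at a2; cases a2
      · cases b
        · exact hx a2
        · cases a1
      · subst e
        cases b
        · cases a2
        · exact hx a1
      · exact hs _ a1 a2
    obtain ⟨k, b1, b2⟩ := ((hind _ h1).and_eventually h).exists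
    have := ((hun _ _ _).1 b1).1 (t, !b) (by simp)
    rw [hcn] at this
    exact this (b2 ((hun _ _ _).1 b1).2)
  have hBi : ∀ α X Y, B α X → B α Y → B α (X ∩ Y) := fun α X Y h1 h2 s hs h =>
    ((h1 s hs (h.mono fun n a b => (a b).1)).and (h2 s hs (h.mono fun n a b => (a b).2))).mono
      fun n a b => ⟨a.1 b, a.2 b⟩
  let G : W → Set (Set ℕ) := fun α => {Y | ∃ X ∈ U, B α X ∧ ∀ᶠ n in F, n ∈ X → n ∈ Y}
  let H : W → Filter ℕ := fun α =>
    { sets := {Y | ∃ X ∈ U, B α X ∧ ∃ s : Finset (T × Bool), (∀ x ∈ s, α ≤ ρ x.1 ∧ x.2 = !ε x.1) ∧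
        ∀ᶠ n in F, n ∈ X → n ∈ combo C s → n ∈ Y}
      univ_sets := ⟨univ, univ_mem, fun _ _ _ => by simp, ∅, by simp, by simp⟩
      sets_of_superset := fun ⟨X, h1, h2, s, h3, h4⟩ h =>
        ⟨X, h1, h2, s, h3, h4.mono fun n a b c => h (a b c)⟩
      inter_sets := fun ⟨X, h1, h2, s, h3, h4⟩ ⟨X', h1', h2', s', h3', h4'⟩ =>
        ⟨X ∩ X', inter_mem h1 h1', hBi _ _ _ h2 h2', s ∪ s',
          fun x hx => (Finset.mem_union.1 hx).elim (h3 x) (h3' x),
          (h4.and h4').mono fun n a b c =>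
            ⟨a.1 b.1 ((hun _ _ _).1 c).1, a.2 b.2 ((hun _ _ _).1 c).2⟩⟩ }
  have hH : ∀ α, (H α).NeBot := fun α => by
    rw [neBot_iff, Ne, ← empty_mem_iff_bot]
    rintro ⟨X, h1, h2, s, h3, h4⟩
    obtain ⟨r, hr, h5⟩ := hden X (hpos X h1)
    have h6 : Fn (res r α ∪ s) := by
      refine hglue α s _ (fun t a1 a2 => ?_) (fun t a1 a2 => ?_)
        fun x hx => (Finset.mem_filter.1 hx).2
      · have := (h3 _ a1).2.trans (h3 _ a2).2.symm
        cases this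
      · have key : ∀ x ∈ res r α ∪ res s α, x ∈ r := fun x hx =>
          (Finset.mem_union.1 hx).elim (fun a => (Finset.mem_filter.1 a).1) fun a =>
            absurd (Finset.mem_filter.1 a).2 (not_lt.2 (h3 x (Finset.mem_filter.1 a).1).1)
        exact hr t (key _ a1) (key _ a2)
    obtain ⟨k, b1, b2, b3⟩ := ((hind _ h6).and_eventually ((h2 r hr h5).and h4)).exists
    exact b3 (b2 ((hun _ _ _).1 b1).1) ((hun _ _ _).1 b1).2
  let p : W → Ultrafilter ℕ := fun α => @Ultrafilter.of _ (H α) (hH α)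
  have hp : ∀ α, (p α : Filter ℕ) ≤ H α := fun α => @Ultrafilter.of_le _ (H α) (hH α)
  have hGp : ∀ α, ∀ A ∈ G α, A ∈ p α := fun α A ⟨X, h1, h2, h3⟩ =>
    hp α ⟨X, h1, h2, ∅, by simp, h3.mono fun n a b _ => a b⟩
  have hXp : ∀ α β, α ≤ β → C (ι β, ε (ι β)) ∉ p α := fun α β h => by
    rw [← Ultrafilter.compl_mem_iff_notMem, ← hcn]
    refine hp α ⟨univ, univ_mem, fun _ _ _ => by simp, {(ι β, !ε (ι β))}, ?_,
      Eventually.of_forall fun n _ h => h _ (Finset.mem_singleton_self _)⟩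
    simp [hρ, h]
  refine ⟨U, G, p, fun β => C (ι β, ε (ι β)), fun α => ⟨⟨univ, univ_mem, fun _ _ _ => by simp,
    by simp⟩, fun A ⟨X, h1, h2, h3⟩ A' h => ⟨X, h1, h2, h3.mono fun n a b => h (a b)⟩,
    fun A ⟨X, h1, h2, h3⟩ A' ⟨X', h1', h2', h3'⟩ => ⟨X ∩ X', inter_mem h1 h1', hBi _ _ _ h2 h2',
      (h3.and h3').mono fun n a b => ⟨a.1 b.1, a.2 b.2⟩⟩⟩, ?_, ?_,
    fun α h => hXp α α le_rfl (hGp α _ h), fun A => ⟨fun h => ?_, ?_⟩, hGp, hXp, ?_,
    hU.trans hF, ?_⟩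
  · rintro α β h A ⟨X, h1, h2, h3⟩
    refine ⟨X, h1, fun s hs h4 => (h2 s hs h4).mono fun n a b => a fun x hx => b x ?_, h3⟩
    exact Finset.mem_filter.2 ⟨(Finset.mem_filter.1 hx).1, (Finset.mem_filter.1 hx).2.trans_le h⟩
  · intro α β h
    refine ⟨_, hε (ι α), fun s hs h1 => Eventually.of_forall fun n hn => hn _ ?_, by simp⟩
    exact Finset.mem_filter.2 ⟨hmem s _ hs h1, by rwa [hρ]⟩
  · obtain ⟨α, hα⟩ := hsupp A
    exact ⟨α, A, h, hα, by simp⟩
  · rintro ⟨α, X, h1, -, h2⟩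
    filter_upwards [h1, hU h2] with n a b using b a
  · intro α A hA
    exact hGp α A ⟨univ, univ_mem, fun _ _ _ => by simp,
      mem_of_superset (hF hA) fun n a _ => a⟩
  · intro B h1 h2
    choose b hb hb' using fun t => h2 _ (hε t)
    by_contra hlt
    have hfin : ∀ A ∈ B, {t | b t = A}.Finite := fun A hA => by
      obtain ⟨r, hr, h3⟩ := hden A (hpos A (h1 A hA))
      refine (r.finite_toSet.image Prod.fst).subset fun t ht => ⟨(t, ε t), hmem r _ hr ?_, rfl⟩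
      exact h3.mono fun n a c => hb' t (by rw [ht]; exact a c)
    have h4 : (univ : Set T) ⊆ ⋃ A : B, {t | b t = A} := fun t _ =>
      mem_iUnion.2 ⟨⟨b t, hb t⟩, rfl⟩
    have h5 := (mk_le_mk_of_subset h4).trans (mk_iUnion_le_sum_mk.trans
      (sum_le_sum _ (fun _ => ℵ₀) fun A : B => (hfin A A.2).lt_aleph0.le))
    rw [sum_const', mk_univ] at h5
    refine absurd h5 (not_le.2 ?_)
    have : #T = 𝔠 := by simp
    rw [this]
    exact mul_lt_of_lt aleph0_le_continuum (not_le.1 hlt) aleph0_lt_continuum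

end Pool.Agent.H32.IndF
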