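import Mathlib

open Set Cardinal

namespace Pool.Agent.H32.Maz

/-- transfinite construction along a list of continuum many tasks -/
lemma build {X Y T : Type} (hT : #T ≤ 𝔠) (π : X → Y) (Good : Set X → Prop)
    (Done : T → Set X → Prop) (hmono : ∀ t S S', S ⊆ S' → Done t S → Done t S')
    (hchain : ∀ c : Set (Set X), DirectedOn (· ⊆ ·) c → (∀ S ∈ c, Good S) → Good (⋃₀ c))
    (step : ∀ S, Good S → #(π '' S) < 𝔠 → ∀ t, ∃ S', S ⊆ S' ∧ (π '' S' \ π '' S).Finite ∧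
      Good S' ∧ Done t S') : ∃ S, Good S ∧ ∀ t, Done t S := by
  obtain ⟨_, _, hord⟩ := exists_ord_eq_type_lt T
  have hG : ∀ (S : Set X) (t : T), ∃ S', S ⊆ S' ∧ (π '' S' \ π '' S).Finite ∧
      (Good S → #(π '' S) < 𝔠 → Good S' ∧ Done t S') := fun S t => by
    by_cases h : Good S ∧ #(π '' S) < 𝔠
    · obtain ⟨S', h1, h2, h3⟩ := step S h.1 h.2 t
      exact ⟨S', h1, h2, fun _ _ => h3⟩
    · exact ⟨S, subset_rfl, by simp, fun h1 h2 => (h ⟨h1, h2⟩).elim⟩
  choose G hG1 hG2 hG3 using hG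
  let F : T → Set X := WellFoundedLT.fix fun i ih => G (⋃ j : Iio i, ih j j.2) i
  have hF : ∀ i, F i = G (⋃₀ (F '' Iio i)) i := fun i => by
    rw [sUnion_image, biUnion_eq_iUnion]
    exact WellFoundedLT.fix_eq _ i
  have hm : Monotone F := fun j i h => by
    rcases h.eq_or_lt with rfl | h
    · exact le_rfl
    · rw [hF i]
      exact (subset_sUnion_of_mem (mem_image_of_mem F (mem_Iio.2 h))).trans (hG1 _ _)
  have hdir : ∀ s : Set T, DirectedOn (· ⊆ ·) (F '' s) := fun s => by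
    rintro _ ⟨i, hi, rfl⟩ _ ⟨j, hj, rfl⟩
    rcases le_total i j with h | h
    exacts [⟨_, ⟨j, hj, rfl⟩, hm h, subset_rfl⟩, ⟨_, ⟨i, hi, rfl⟩, subset_rfl, hm h⟩]
  let D : T → Set Y := fun i => π '' F i \ π '' ⋃₀ (F '' Iio i)
  have hD : ∀ i, (D i).Finite := fun i => by
    simp only [D]
    rw [hF i]
    exact hG2 _ _
  have hsub : ∀ i, π '' F i ⊆ ⋃ j ∈ Iic i, D j := fun i => by
    induction i using WellFoundedLT.induction with
    | ind i ih =>
      intro y hy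
      by_cases h : y ∈ π '' ⋃₀ (F '' Iio i)
      · obtain ⟨x, ⟨_, ⟨j, hj, rfl⟩, hx⟩, rfl⟩ := h
        exact biUnion_subset_biUnion_left (Iic_subset_Iic.2 (le_of_lt hj)) (ih j hj ⟨x, hx, rfl⟩)
      · exact mem_biUnion (mem_Iic.2 le_rfl) ⟨hy, h⟩
  have hsmall : ∀ i, #(π '' ⋃₀ (F '' Iio i)) < 𝔠 := fun i => by
    have h1 : π '' ⋃₀ (F '' Iio i) ⊆ ⋃ j : Iio i, D j := by
      rintro _ ⟨x, ⟨_, ⟨j, hj, rfl⟩, hx⟩, rfl⟩
      obtain ⟨k, hk, hx'⟩ := mem_iUnion₂.1 (hsub j ⟨x, hx, rfl⟩)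
      exact mem_iUnion.2 ⟨⟨k, lt_of_le_of_lt hk hj⟩, hx'⟩
    refine (mk_le_mk_of_subset h1).trans_lt (mk_iUnion_le_sum_mk.trans_lt ?_)
    refine (sum_le_sum _ (fun _ => ℵ₀) fun j : Iio i => (hD j).lt_aleph0.le).trans_lt ?_
    rw [sum_const']
    exact mul_lt_of_lt aleph0_le_continuum ((mk_Iio_lt i hord).trans_le hT) aleph0_lt_continuum
  have hgood : ∀ i, Good (F i) ∧ Done i (F i) := fun i => by
    induction i using WellFoundedLT.induction with
    | ind i ih =>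
      rw [hF i]
      exact hG3 _ _ (hchain _ (hdir _) (by rintro _ ⟨j, hj, rfl⟩; exact (ih j hj).1)) (hsmall i)
  refine ⟨⋃₀ (F '' Set.univ), hchain _ (hdir _) (by rintro _ ⟨j, -, rfl⟩; exact (hgood j).1),
    fun t => hmono t _ _ (subset_sUnion_of_mem (mem_image_of_mem F (mem_univ t))) (hgood t).2⟩

abbrev P : Type := ℝ × ℝ

lemma span_small {s : Set P} (h : #s < 𝔠) : #(Submodule.span ℚ s) < 𝔠 := by
  have h1 : #(insert 0 s : Set P) < 𝔠 :=
    mk_insert_le.trans_lt (add_lt_of_lt aleph0_le_continuum h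
      (one_lt_aleph0.trans aleph0_lt_continuum))
  have : Nonempty (insert 0 s : Set P) := ⟨⟨0, mem_insert _ _⟩⟩
  rw [← Submodule.span_insert_zero, Finsupp.span_eq_range_linearCombination]
  refine lt_of_le_of_lt (b := #((insert 0 s : Set P) →₀ ℚ)) mk_range_le ?_
  rw [mk_finsupp_of_infinite', Cardinal.mkRat]
  exact max_lt h1 aleph0_lt_continuum

def det (u w : P) : ℝ := u.1 * w.2 - u.2 * w.1

noncomputable def φ (θ : ℝ) (p : P) : ℝ := Real.cos θ * p.1 - Real.sin θ * p.2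

/-- sets that a curve meets in few parameters -/
def Sm (γ : ℝ → P) (Z : Set P) : Prop := #(γ ⁻¹' Z) < 𝔠

lemma Sm.union {γ : ℝ → P} {Z Z' : Set P} (h : Sm γ Z) (h' : Sm γ Z') : Sm γ (Z ∪ Z') :=
  (mk_union_le _ _).trans_lt (add_lt_of_lt aleph0_le_continuum h h')

lemma Sm.of_small {γ : ℝ → P} (hγ : Function.Injective γ) {Z : Set P} (h : #Z < 𝔠) : Sm γ Z :=
  (mk_preimage_of_injective _ _ hγ).trans_lt h

lemma Sm.exists {γ : ℝ → P} {Z : Set P} (h : Sm γ Z) : ∃ t, γ t ∉ Z := by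
  by_contra hc
  push Not at hc
  have : γ ⁻¹' Z = Set.univ := eq_univ_of_forall hc
  rw [Sm, this, mk_univ, mk_real] at h
  exact lt_irrefl _ h

lemma Sm.fam {γ : ℝ → P} {ι : Type} {s : Set ι} (hs : #s < 𝔠) (R : ι → P → Prop)
    (h : ∀ i ∈ s, {t | R i (γ t)}.Finite) : Sm γ {r | ∃ i ∈ s, R i r} := by
  have h1 : γ ⁻¹' {r | ∃ i ∈ s, R i r} ⊆ ⋃ i : s, {t | R i (γ t)} := fun t ⟨i, hi, h⟩ =>
    mem_iUnion.2 ⟨⟨i, hi⟩, h⟩
  refine (mk_le_mk_of_subset h1).trans_lt (mk_iUnion_le_sum_mk.trans_lt ?_)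
  refine (sum_le_sum _ (fun _ => ℵ₀) fun j : s => (h j j.2).lt_aleph0.le).trans_lt ?_
  rw [sum_const']
  exact mul_lt_of_lt aleph0_le_continuum hs aleph0_lt_continuum

lemma prod_small {A B : Set P} (h : #A < 𝔠) (h' : #B < 𝔠) : #(A ×ˢ B) < 𝔠 := by
  rw [mk_setProd]
  exact mul_lt_of_lt aleph0_le_continuum h h'

lemma ins_small {A : Set P} (h : #A < 𝔠) (r : P) : #(insert r A : Set P) < 𝔠 :=
  mk_insert_le.trans_lt (add_lt_of_lt aleph0_le_continuum h
    (one_lt_aleph0.trans aleph0_lt_continuum))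

def par (t : ℝ) : P := (t, t ^ 2)

lemma par_inj : Function.Injective par := fun _ _ h => congrArg Prod.fst h

lemma par_fin {a b : ℝ} (c : ℝ) (h : a ≠ 0 ∨ b ≠ 0) : {t : ℝ | a * t + b * t ^ 2 = c}.Finite := by
  have hp : (Polynomial.C b * Polynomial.X ^ 2 + Polynomial.C a * Polynomial.X - Polynomial.C c :
      Polynomial ℝ) ≠ 0 := fun e => by
    have h1 := congrArg (Polynomial.coeff · 1) e
    have h2 := congrArg (Polynomial.coeff · 2) e
    simp [Polynomial.coeff_C] at h1 h2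
    tauto
  refine (Polynomial.finite_setOfPred_isRoot hp).subset fun t ht => ?_
  simp only [mem_ofPred_eq, Polynomial.IsRoot, Polynomial.eval_sub, Polynomial.eval_add,
    Polynomial.eval_mul, Polynomial.eval_C, Polynomial.eval_pow, Polynomial.eval_X] at ht ⊢
  linarith

lemma det_fin (p : P) {u : P} (hu : u ≠ 0) : {t | det (par t - p) u = 0}.Finite := by
  refine (par_fin (a := u.2) (b := -u.1) (det p u) ?_).subset fun t ht => ?_
  · by_contra h
    push Not at h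
    exact hu (Prod.ext (by simpa using h.2) h.1)
  · simp only [mem_ofPred_eq, det, par, Prod.fst_sub, Prod.snd_sub] at ht ⊢
    linarith

lemma phi_fin (θ c : ℝ) : {t | φ θ (par t) = c}.Finite := by
  refine (par_fin (a := Real.cos θ) (b := -Real.sin θ) c ?_).subset fun t ht => ?_
  · by_contra h
    push Not at h
    have := Real.sin_sq_add_cos_sq θ
    rw [h.1, neg_eq_zero.1 h.2] at this
    norm_num at this
  · simp only [mem_ofPred_eq, φ, par] at ht ⊢
    linarith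

lemma det_of_phi {θ : ℝ} {u w : P} (hu : φ θ u = 0) (hw : φ θ w = 0) : det u w = 0 := by
  simp only [φ, det] at *
  have := Real.sin_sq_add_cos_sq θ
  have e1 : Real.cos θ * (u.1 * w.2 - u.2 * w.1) = 0 := by linear_combination w.2 * hu - u.2 * hw
  have e2 : Real.sin θ * (u.1 * w.2 - u.2 * w.1) = 0 := by linear_combination w.1 * hu - u.1 * hw
  linear_combination Real.cos θ * e1 + Real.sin θ * e2 - (u.1 * w.2 - u.2 * w.1) * this

lemma phi_sub (θ : ℝ) (u w : P) : φ θ (u - w) = φ θ u - φ θ w := by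
  simp only [φ, Prod.fst_sub, Prod.snd_sub]; ring

abbrev X : Type := ℝ × Bool × P

def π (x : X) : P := x.2.2

def cls (B : Set X) (θ : ℝ) (b : Bool) : Set P := {p | (θ, b, p) ∈ B}

lemma cls_sub (B : Set X) (θ : ℝ) (b : Bool) : cls B θ b ⊆ π '' B := fun _ hp => ⟨_, hp, rfl⟩

lemma cls_mono {B B' : Set X} (h : B ⊆ B') (θ : ℝ) (b : Bool) : cls B θ b ⊆ cls B' θ b :=
  fun _ hp => h hp

structure Good (B : Set X) : Prop where
  tot : ∀ θ, ∀ p ∈ π '' B, ∃ b, p ∈ cls B θ b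
  col : ∀ p ∈ π '' B, ∀ q ∈ π '' B, ∀ r ∈ π '' B, p ≠ q → r ≠ p → r ≠ q → det (r - p) (q - p) ≠ 0
  ind : ∀ θ b, LinearIndepOn ℚ id (cls B θ b)
  fn : ∀ θ b, ∀ p ∈ cls B θ b, ∀ q ∈ cls B θ b, φ θ p = φ θ q → p = q
  dis : ∀ θ b, ∀ p ∈ cls B θ b, p ∉ cls B θ (!b)

lemma good_chain (c : Set (Set X)) (hc : DirectedOn (· ⊆ ·) c) (h : ∀ S ∈ c, Good S) :
    Good (⋃₀ c) where
  tot := by
    rintro θ _ ⟨x, ⟨S, hS, hx⟩, rfl⟩
    obtain ⟨b, hb⟩ := (h S hS).tot θ _ ⟨x, hx, rfl⟩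
    exact ⟨b, S, hS, hb⟩
  col := by
    rintro _ ⟨x, ⟨S1, h1, hx⟩, rfl⟩ _ ⟨y, ⟨S2, h2, hy⟩, rfl⟩ _ ⟨z, ⟨S3, h3, hz⟩, rfl⟩
    obtain ⟨S4, h4, e1, e2⟩ := hc S1 h1 S2 h2
    obtain ⟨S, hS, e3, e4⟩ := hc S4 h4 S3 h3
    exact (h S hS).col _ ⟨x, e3 (e1 hx), rfl⟩ _ ⟨y, e3 (e2 hy), rfl⟩ _ ⟨z, e4 hz, rfl⟩
  ind := fun θ b => by
    have : cls (⋃₀ c) θ b = ⋃ S ∈ c, cls S θ b := by ext p; simp [cls]
    rw [this]
    refine linearIndepOn_biUnion_of_directed (fun S1 h1 S2 h2 => ?_) fun S hS => (h S hS).ind θ b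
    obtain ⟨S, hS, e1, e2⟩ := hc S1 h1 S2 h2
    exact ⟨S, hS, fun _ hp => e1 hp, fun _ hp => e2 hp⟩
  fn := by
    rintro θ b p ⟨S1, h1, hx⟩ q ⟨S2, h2, hy⟩
    obtain ⟨S, hS, e1, e2⟩ := hc S1 h1 S2 h2
    exact (h S hS).fn θ b p (e1 hx) q (e2 hy)
  dis := by
    rintro θ b p ⟨S1, h1, hx⟩ ⟨S2, h2, hy⟩
    obtain ⟨S, hS, e1, e2⟩ := hc S1 h1 S2 h2
    exact (h S hS).dis θ b p (e1 hx) (e2 hy)

def add (B : Set X) (r : P) (c : ℝ → Bool) : Set X := B ∪ {x | x.2.1 = c x.1 ∧ x.2.2 = r}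

lemma π_add (B : Set X) (r : P) (c : ℝ → Bool) : π '' add B r c = insert r (π '' B) := by
  ext p
  constructor
  · rintro ⟨x, hx | hx, rfl⟩
    exacts [Or.inr ⟨x, hx, rfl⟩, Or.inl hx.2]
  · rintro (rfl | ⟨x, hx, rfl⟩)
    exacts [⟨(0, c 0, p), Or.inr ⟨rfl, rfl⟩, rfl⟩, ⟨x, Or.inl hx, rfl⟩]

lemma cls_add_eq (B : Set X) (r : P) (c : ℝ → Bool) (θ : ℝ) :
    cls (add B r c) θ (c θ) = insert r (cls B θ (c θ)) := by
  ext p; simp [cls, add, or_comm]

lemma cls_add_ne (B : Set X) (r : P) (c : ℝ → Bool) (θ : ℝ) {b : Bool} (h : b ≠ c θ) :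
    cls (add B r c) θ b = cls B θ b := by
  ext p; simp [cls, add, h]

/-- `r` is off all lines through two points of `A` -/
def Off (A : Set P) (r : P) : Prop := ∀ p ∈ A, ∀ q ∈ A, p ≠ q → det (r - p) (q - p) ≠ 0

def Legal (B : Set X) (r : P) (θ : ℝ) (b : Bool) : Prop := ∀ p ∈ cls B θ b, φ θ p ≠ φ θ r

lemma Good.add {B : Set X} (h : Good B) {r : P} {c : ℝ → Bool} (hr : r ∉ π '' B)
    (ho : Off (π '' B) r) (hs : ∀ θ, r ∉ Submodule.span ℚ (cls B θ (c θ)))
    (hl : ∀ θ, Legal B r θ (c θ)) : Good (add B r c) where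
  tot := by
    rw [π_add]
    rintro θ p (rfl | hp)
    · exact ⟨c θ, Or.inr ⟨rfl, rfl⟩⟩
    · obtain ⟨b, hb⟩ := h.tot θ p hp
      exact ⟨b, Or.inl hb⟩
  col := by
    rw [π_add]
    rintro p (rfl | hp) q (rfl | hq) s (rfl | hs) h1 h2 h3 <;> try contradiction
    · intro e
      refine ho q hq s hs (Ne.symm h3) ?_
      simp only [det, Prod.fst_sub, Prod.snd_sub] at e ⊢
      linarith
    · intro e
      refine ho p hp s hs (Ne.symm h2) ?_
      simp only [det, Prod.fst_sub, Prod.snd_sub] at e ⊢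
      linarith
    · exact ho p hp q hq h1
    · exact h.col p hp q hq s hs h1 h2 h3
  ind := fun θ b => by
    by_cases hb : b = c θ
    · rw [hb, cls_add_eq]
      exact (h.ind θ _).id_insert (hs θ)
    · rw [cls_add_ne _ _ _ _ hb]
      exact h.ind θ b
  fn := fun θ b => by
    by_cases hb : b = c θ
    · rw [hb, cls_add_eq]
      rintro p (rfl | hp) q (rfl | hq) e
      exacts [rfl, (hl θ q hq e.symm).elim, (hl θ p hp e).elim, h.fn θ _ p hp q hq e]
    · rw [cls_add_ne _ _ _ _ hb]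
      exact h.fn θ b
  dis := by
    rintro θ b p (h1 | h1) (h2 | h2)
    · exact h.dis θ b p h1 h2
    · exact hr ⟨_, h1, h2.2⟩
    · exact hr ⟨_, h2, h1.2⟩
    · have := h1.1.trans h2.1.symm
      simp at this

lemma Good.legal {B : Set X} (h : Good B) {r : P} (ho : Off (π '' B) r) (θ : ℝ) :
    ∃ b, Legal B r θ b := by
  by_contra hc
  simp only [Legal, not_exists, not_forall, not_not] at hc
  obtain ⟨p, hp, e1⟩ := hc true
  obtain ⟨q, hq, e2⟩ := hc false
  refine ho p (cls_sub _ _ _ hp) q (cls_sub _ _ _ hq) (fun e => h.dis θ true p hp (e ▸ hq))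
    (det_of_phi (θ := θ) ?_ ?_) <;> rw [phi_sub] <;> linarith

lemma span_drop {s : Set P} {W : Submodule ℚ P} {r x : P} (hs : s ⊆ W) (hx : x ∈ W) (hr : r ∉ W)
    (h : x ∈ Submodule.span ℚ (insert r s)) : x ∈ Submodule.span ℚ s := by
  obtain ⟨a, z, hz, rfl⟩ := Submodule.mem_span_insert.1 h
  by_cases ha : a = 0
  · simpa [ha] using hz
  · have h1 : a • r ∈ W := by simpa using W.sub_mem hx (Submodule.span_le.2 hs hz)
    exact (hr ((W.smul_mem_iff ha).1 h1)).elim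

lemma off_sm {γ : ℝ → P} {A : Set P} (hA : #A < 𝔠)
    (h : ∀ p ∈ A, ∀ q ∈ A, p ≠ q → {t | det (γ t - p) (q - p) = 0}.Finite) :
    Sm γ {r | ¬ Off A r} := by
  have := Sm.fam (γ := γ) (prod_small hA hA)
    (fun i r => i.1 ≠ i.2 ∧ det (r - i.1) (i.2 - i.1) = 0) fun i hi => by
      by_cases e : i.1 = i.2
      · simp [e]
      · exact (h _ hi.1 _ hi.2 e).subset fun t ht => ht.2
  refine (mk_le_mk_of_subset fun t ht => ?_).trans_lt this
  simp only [Off, mem_preimage, mem_ofPred_eq, not_forall, not_not] at ht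
  obtain ⟨p, hp, q, hq, h1, h2⟩ := ht
  exact ⟨(p, q), ⟨hp, hq⟩, h1, h2⟩

lemma add_on_line {B : Set X} (h : Good B) (hA : #(π '' B) < 𝔠) {a b : ℝ} (c : ℝ)
    (hab : a ≠ 0 ∨ b ≠ 0) (hn : ¬ ∃ p ∈ π '' B, ∃ q ∈ π '' B, p ≠ q ∧ a * p.1 + b * p.2 = c ∧
      a * q.1 + b * q.2 = c) :
    ∃ r k, a * r.1 + b * r.2 = c ∧ r ∉ π '' B ∧ Good (add B r k) := by
  have hpos : a ^ 2 + b ^ 2 ≠ 0 := by
    rcases hab with h | h <;> positivity
  let γ : ℝ → P := fun t => (c * a / (a ^ 2 + b ^ 2) - t * b, c * b / (a ^ 2 + b ^ 2) + t * a)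
  have hγ : ∀ t, a * (γ t).1 + b * (γ t).2 = c := fun t => by
    simp only [γ]; field_simp; ring
  have hinj : Function.Injective γ := fun s t e => by
    have e1 := congrArg Prod.fst e
    have e2 := congrArg Prod.snd e
    simp only [γ, sub_right_inj, add_right_inj, mul_eq_mul_right_iff] at e1 e2
    tauto
  have h1 := off_sm (γ := γ) hA fun p hp q hq hpq => Set.Subsingleton.finite fun s hs t ht => by
    by_contra hst
    have hγs := hγ s
    simp only [mem_ofPred_eq, det, Prod.fst_sub, Prod.snd_sub] at hs ht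
    have e1 : (s - t) * (a * (q.1 - p.1) + b * (q.2 - p.2)) = 0 := by
      simp only [γ] at hs ht
      linear_combination ht - hs
    have e2 := (mul_eq_zero.1 e1).resolve_left (sub_ne_zero.2 hst)
    have e3 : a * p.1 + b * p.2 = c := by
      by_contra e
      have e' := sub_ne_zero.2 e
      apply hpq
      have f1 : (a * p.1 + b * p.2 - c) * (q.1 - p.1) = 0 := by
        linear_combination b * hs - ((γ s).1 - p.1) * e2 + (q.1 - p.1) * hγs
      have f2 : (a * p.1 + b * p.2 - c) * (q.2 - p.2) = 0 := by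
        linear_combination -a * hs - ((γ s).2 - p.2) * e2 + (q.2 - p.2) * hγs
      exact Prod.ext (sub_eq_zero.1 ((mul_eq_zero.1 f1).resolve_left e')).symm
        (sub_eq_zero.1 ((mul_eq_zero.1 f2).resolve_left e')).symm
    exact hn ⟨p, hp, q, hq, hpq, e3, by linarith⟩
  obtain ⟨t, ht⟩ := (h1.union (Sm.of_small hinj (span_small hA))).exists
  simp only [mem_union, mem_ofPred_eq, not_or, not_not, SetLike.mem_coe] at ht
  choose k hk using h.legal ht.1
  have h2 : γ t ∉ π '' B := fun e => ht.2 (Submodule.subset_span e)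
  exact ⟨γ t, k, hγ t, h2, h.add h2 ht.1
    (fun θ e => ht.2 (Submodule.span_mono (cls_sub _ _ _) e)) hk⟩

lemma line_step {B : Set X} (h : Good B) (hA : #(π '' B) < 𝔠) {a b : ℝ} (c : ℝ)
    (hab : a ≠ 0 ∨ b ≠ 0) : ∃ S', B ⊆ S' ∧ (π '' S' \ π '' B).Finite ∧ Good S' ∧
      ∃ p ∈ π '' S', ∃ q ∈ π '' S', p ≠ q ∧ a * p.1 + b * p.2 = c ∧ a * q.1 + b * q.2 = c := by
  by_cases h0 : ∃ p ∈ π '' B, ∃ q ∈ π '' B, p ≠ q ∧ a * p.1 + b * p.2 = c ∧ a * q.1 + b * q.2 = c
  · exact ⟨B, subset_rfl, by simp, h, h0⟩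
  obtain ⟨r, k, hr, hr', hg⟩ := add_on_line h hA c hab h0
  by_cases h1 : ∃ p ∈ π '' add B r k, ∃ q ∈ π '' add B r k, p ≠ q ∧ a * p.1 + b * p.2 = c ∧
      a * q.1 + b * q.2 = c
  · refine ⟨add B r k, subset_union_left, ?_, hg, h1⟩
    rw [π_add]
    exact (finite_singleton r).subset fun x hx => hx.1.resolve_right hx.2
  obtain ⟨r', k', hs, hs', hg'⟩ := add_on_line hg (by rw [π_add]; exact ins_small hA r) c hab h1
  refine ⟨add (add B r k) r' k', subset_union_left.trans subset_union_left, ?_, hg', ?_⟩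
  · rw [π_add, π_add]
    refine (toFinite {r', r}).subset fun x hx => ?_
    rcases hx.1 with e | e | e
    exacts [Or.inl e, Or.inr e, (hx.2 e).elim]
  · rw [π_add] at hs'
    rw [π_add, π_add]
    exact ⟨r', Or.inl rfl, r, Or.inr (Or.inl rfl), fun e => hs' (Or.inl e), hs, hr⟩

lemma phi_sm {A : Set P} (hA : #A < 𝔠) (θ : ℝ) (f : P → ℝ) :
    Sm par {r | ∃ p ∈ A, φ θ r = f p} := Sm.fam hA _ fun _ _ => phi_fin _ _

lemma span_step {B : Set X} (h : Good B) (hA : #(π '' B) < 𝔠) (θ₀ : ℝ) (b₀ : Bool) (v : P) :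
    ∃ S', B ⊆ S' ∧ (π '' S' \ π '' B).Finite ∧ Good S' ∧
      v ∈ Submodule.span ℚ (cls S' θ₀ b₀) := by
  classical
  by_cases hv : v ∈ Submodule.span ℚ (cls B θ₀ b₀)
  · exact ⟨B, subset_rfl, by simp, h, hv⟩
  set A := π '' B with hAdef
  let W0 := Submodule.span ℚ (insert v A)
  have hoff : ∀ {A : Set P}, #A < 𝔠 → Sm par {r | ¬ Off A r} := fun hA =>
    off_sm hA fun p _ q _ hpq => det_fin p (sub_ne_zero.2 (Ne.symm hpq))
  obtain ⟨r1, hr1, o1, f1⟩ : ∃ r1, r1 ∉ W0 ∧ Off A r1 ∧ ∀ p ∈ A, φ θ₀ r1 ≠ φ θ₀ p := by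
    obtain ⟨t, ht⟩ := (((Sm.of_small par_inj (span_small (ins_small hA v))).union (hoff hA)).union
      (phi_sm hA θ₀ (φ θ₀))).exists
    simp only [mem_union, mem_ofPred_eq, not_or, not_not, SetLike.mem_coe, not_exists,
      not_and] at ht
    exact ⟨par t, ht.1.1, ht.1.2, ht.2⟩
  have hA1 := ins_small hA r1
  let W1 := Submodule.span ℚ (insert r1 (insert v A))
  have hvW0 : v ∈ W0 := Submodule.subset_span (Or.inl rfl)
  have hAW0 : A ⊆ W0 := fun p hp => Submodule.subset_span (Or.inr hp)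
  have hW : W0 ≤ W1 := Submodule.span_mono (subset_insert _ _)
  have hr1W : r1 ∈ W1 := Submodule.subset_span (Or.inl rfl)
  have hA1W : insert r1 A ⊆ W1 := insert_subset hr1W fun p hp => hW (hAW0 hp)
  have hne : ∀ p ∈ insert r1 A, v - r1 - p - p ≠ 0 := by
    rintro p (rfl | hp) e
    · apply hr1
      have : p = (1 / 3 : ℚ) • v := by
        have : v = (3 : ℚ) • p := by
          rw [show (3 : ℚ) = 1 + 1 + 1 by norm_num, add_smul, add_smul, one_smul]
          linear_combination (exp := 1) e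
        rw [this, smul_smul]; norm_num
      rw [this]
      exact W0.smul_mem _ hvW0
    · apply hr1
      have : r1 = v - p - p := by linear_combination (exp := 1) -e
      rw [this]
      exact W0.sub_mem (W0.sub_mem hvW0 (hAW0 hp)) (hAW0 hp)
  obtain ⟨r2, hr2, o2, f2, g2, o3, o3', f3, f3'⟩ : ∃ r2, r2 ∉ W1 ∧ Off (insert r1 A) r2 ∧
      (∀ p ∈ insert r1 A, φ θ₀ r2 ≠ φ θ₀ p) ∧ (∀ p ∈ A, ∀ q ∈ A, det (r2 - q) (r1 - p) ≠ 0) ∧
      Off (insert r1 A) (v - r1 - r2) ∧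
      (∀ p ∈ insert r1 A, det (r2 - p) (v - r1 - p - p) ≠ 0) ∧
      (∀ p ∈ insert r1 A, φ θ₀ r2 ≠ φ θ₀ (v - r1 - p)) ∧ φ θ₀ r2 ≠ φ θ₀ (v - r1) / 2 := by
    have s1 := Sm.of_small par_inj (span_small (ins_small (ins_small hA v) r1))
    have s2 := hoff hA1
    have s3 := phi_sm hA1 θ₀ (φ θ₀)
    have s4 := Sm.fam (γ := par) (prod_small hA hA) (fun i r => det (r - i.2) (r1 - i.1) = 0)
      fun i hi => det_fin _ (sub_ne_zero.2 fun e => hr1 (e ▸ hAW0 hi.1))
    have s5 : Sm par {r | ¬ Off (insert r1 A) (v - r1 - r)} :=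
      off_sm (γ := fun t => v - r1 - par t) hA1 fun p _ q _ hpq =>
        (det_fin (v - r1 - p) (sub_ne_zero.2 (Ne.symm hpq))).subset fun t ht => by
          simp only [mem_ofPred_eq, det, Prod.fst_sub, Prod.snd_sub] at ht ⊢
          linarith
    have s6 := Sm.fam (γ := par) hA1 (fun p r => det (r - p) (v - r1 - p - p) = 0)
      fun p hp => det_fin _ (hne p hp)
    have s7 := phi_sm hA1 θ₀ fun p => φ θ₀ (v - r1 - p)
    have s8 := phi_sm hA1 θ₀ fun _ => φ θ₀ (v - r1) / 2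
    obtain ⟨t, ht⟩ := (s1.union (s2.union (s3.union (s4.union (s5.union (s6.union
      (s7.union s8))))))).exists
    simp only [mem_union, mem_ofPred_eq, not_or, not_not, SetLike.mem_coe, not_exists,
      not_and] at ht
    obtain ⟨t1, t2, t3, t4, t5, t6, t7, t8⟩ := ht
    exact ⟨par t, t1, t2, t3, fun p hp q hq => t4 (p, q) ⟨hp, hq⟩, t5, t6, t7, t8 r1 (Or.inl rfl)⟩
  have hc1 : ∀ θ, ∃ b, Legal B r1 θ b ∧ Legal B r2 θ (!b) := fun θ => by
    by_cases e : ∃ p ∈ A, φ θ p = φ θ r1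
    · obtain ⟨p, hp, e⟩ := e
      obtain ⟨b, hb⟩ := h.legal o1 θ
      refine ⟨b, hb, fun q hq e' => g2 p hp q (cls_sub _ _ _ hq) (det_of_phi (θ := θ) ?_ ?_)⟩ <;>
        rw [phi_sub] <;> linarith
    · obtain ⟨b, hb⟩ := h.legal (r := r2) (fun p hp q hq => o2 p (Or.inr hp) q (Or.inr hq)) θ
      exact ⟨!b, fun p hp e' => e ⟨p, cls_sub _ _ _ hp, e'⟩, by rwa [Bool.not_not]⟩
  choose k hk1 hk2 using hc1
  let k1 : ℝ → Bool := fun θ => if θ = θ₀ then b₀ else k θ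
  let k2 : ℝ → Bool := fun θ => if θ = θ₀ then b₀ else !k θ
  have g1 : Good (add B r1 k1) := h.add (fun e => hr1 (hAW0 e)) o1
    (fun θ e => hr1 (Submodule.span_le.2 ((cls_sub _ _ _).trans hAW0) e)) fun θ => by
      simp only [k1]
      split_ifs with e
      · exact fun p hp => e ▸ (f1 p (cls_sub _ _ _ hp)).symm
      · exact hk1 θ
  have hπ1 : π '' add B r1 k1 = insert r1 A := π_add _ _ _
  have g2' : Good (add (add B r1 k1) r2 k2) := g1.add (fun e => hr2 (hA1W (hπ1 ▸ e))) (hπ1 ▸ o2)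
    (fun θ e => hr2 (Submodule.span_le.2 ((cls_sub _ _ _).trans (hπ1 ▸ hA1W)) e)) fun θ => by
      by_cases e : θ = θ₀
      · exact fun p hp => e ▸ (f2 p (hπ1 ▸ cls_sub _ _ _ hp)).symm
      · intro p hp
        rw [cls_add_ne _ _ _ _ (by simp [k1, k2, e])] at hp
        simp only [k2, if_neg e] at hp
        exact hk2 θ p hp
  have hπ2 : π '' add (add B r1 k1) r2 k2 = insert r2 (insert r1 A) := by rw [π_add, hπ1]
  have hr3W : v - r1 - r2 ∉ W1 := fun e => hr2 (by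
    simpa using W1.sub_mem (W1.sub_mem (hW hvW0) hr1W) e)
  have o4 : Off (insert r2 (insert r1 A)) (v - r1 - r2) := by
    rintro p (rfl | hp) q (rfl | hq) hpq
    · contradiction
    · intro e
      refine o3' q hq ?_
      simp only [det, Prod.fst_sub, Prod.snd_sub] at e ⊢
      linarith
    · intro e
      refine o3' p hp ?_
      simp only [det, Prod.fst_sub, Prod.snd_sub] at e ⊢
      linarith
    · exact o3 p hp q hq hpq
  choose k' hk' using g2'.legal (hπ2 ▸ o4)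
  let k3 : ℝ → Bool := fun θ => if θ = θ₀ then b₀ else k' θ
  have e1 : k1 θ₀ = b₀ := if_pos rfl
  have e2 : k2 θ₀ = b₀ := if_pos rfl
  have e3 : k3 θ₀ = b₀ := if_pos rfl
  have hcl : cls (add (add B r1 k1) r2 k2) θ₀ b₀ = insert r2 (insert r1 (cls B θ₀ b₀)) := by
    have a1 := cls_add_eq B r1 k1 θ₀
    have a2 := cls_add_eq (add B r1 k1) r2 k2 θ₀
    rw [e1] at a1
    rw [e2, a1] at a2
    exact a2
  have g3 : Good (add (add (add B r1 k1) r2 k2) (v - r1 - r2) k3) := by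
    refine g2'.add ?_ (hπ2 ▸ o4) (fun θ e => ?_) fun θ => ?_
    · rw [hπ2]
      rintro (e | e)
      · apply f3'
        rw [show v - r1 = r2 - (0 - r2) by linear_combination (exp := 1) e, phi_sub, phi_sub]
        simp only [φ, Prod.fst_zero, Prod.snd_zero]
        ring
      · exact hr3W (hA1W e)
    · by_cases h0 : θ = θ₀
      · rw [h0, e3, hcl] at e
        have a1 : v ∈ Submodule.span ℚ (insert r2 (insert r1 (cls B θ₀ b₀))) := by
          have := Submodule.add_mem _ (Submodule.add_mem _ e (Submodule.subset_span (Or.inl rfl)))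
            (Submodule.subset_span (Or.inr (Or.inl rfl)))
          simpa using this
        have a2 := span_drop (insert_subset hr1W fun p hp => hW (hAW0 (cls_sub _ _ _ hp)))
          (hW hvW0) hr2 a1
        exact hv (span_drop ((cls_sub _ _ _).trans hAW0) hvW0 hr1 a2)
      · by_cases h1 : k3 θ = k2 θ
        · rw [h1, cls_add_eq, cls_add_ne _ _ _ _ (by simp [k1, k2, h0])] at e
          have a1 : v - r1 ∈ Submodule.span ℚ (insert r2 (cls B θ (k2 θ))) := by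
            simpa using Submodule.add_mem _ e (Submodule.subset_span (Or.inl rfl))
          have a2 := span_drop (fun p hp => hW (hAW0 (cls_sub _ _ _ hp)))
            (W1.sub_mem (hW hvW0) hr1W) hr2 a1
          have a3 : v - r1 ∈ W0 := Submodule.span_le.2 ((cls_sub _ _ _).trans hAW0) a2
          exact hr1 (by simpa using W0.sub_mem hvW0 a3)
        · rw [cls_add_ne _ _ _ _ h1] at e
          exact hr3W (Submodule.span_le.2 ((cls_sub _ _ _).trans (hπ1 ▸ hA1W)) e)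
    · by_cases h0 : θ = θ₀
      · intro p hp e
        have hp' := hπ2 ▸ cls_sub _ _ _ hp
        rw [h0, phi_sub] at e
        rcases hp' with rfl | hp'
        · exact f3' (by linarith)
        · exact f3 p hp' (by rw [phi_sub]; linarith)
      · simp only [k3, if_neg h0]
        exact hk' θ
  refine ⟨add (add (add B r1 k1) r2 k2) (v - r1 - r2) k3,
    subset_union_left.trans (subset_union_left.trans subset_union_left), ?_, g3, ?_⟩
  · rw [π_add, hπ2]
    refine (toFinite {v - r1 - r2, r2, r1}).subset fun x hx => ?_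
    rcases hx.1 with e | e | e | e
    exacts [Or.inl e, Or.inr (Or.inl e), Or.inr (Or.inr e), (hx.2 e).elim]
  · have a3 := cls_add_eq (add (add B r1 k1) r2 k2) (v - r1 - r2) k3 θ₀
    rw [e3, hcl] at a3
    rw [a3]
    have := Submodule.add_mem (Submodule.span ℚ (insert (v - r1 - r2) (insert r2 (insert r1
      (cls B θ₀ b₀))))) (Submodule.add_mem _ (Submodule.subset_span (Or.inl rfl))
      (Submodule.subset_span (Or.inr (Or.inl rfl))))
      (Submodule.subset_span (Or.inr (Or.inr (Or.inl rfl))))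
    simpa using this

theorem exists_good : ∃ B : Set X, Good B ∧ (∀ a b c : ℝ, a ≠ 0 ∨ b ≠ 0 → ∃ p ∈ π '' B,
    ∃ q ∈ π '' B, p ≠ q ∧ a * p.1 + b * p.2 = c ∧ a * q.1 + b * q.2 = c) ∧
    ∀ θ b, Submodule.span ℚ (cls B θ b) = ⊤ := by
  refine Exists.imp (fun B hB => ?_) (build (T := (ℝ × ℝ × ℝ) × X) ?_ π Good
    (fun t S => (t.1.1 ≠ 0 ∨ t.1.2.1 ≠ 0 → ∃ p ∈ π '' S, ∃ q ∈ π '' S, p ≠ q ∧
      t.1.1 * p.1 + t.1.2.1 * p.2 = t.1.2.2 ∧ t.1.1 * q.1 + t.1.2.1 * q.2 = t.1.2.2) ∧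
      t.2.2.2 ∈ Submodule.span ℚ (cls S t.2.1 t.2.2.1)) ?_ good_chain ?_)
  · exact ⟨hB.1, fun a b c => (hB.2 ((a, b, c), 0, true, 0)).1, fun θ b =>
      eq_top_iff.2 fun v _ => (hB.2 (0, θ, b, v)).2⟩
  · simp [mk_real]
  · rintro t S S' hS ⟨h1, h2⟩
    refine ⟨fun h => ?_, Submodule.span_mono (cls_mono hS _ _) h2⟩
    obtain ⟨p, hp, q, hq, e⟩ := h1 h
    exact ⟨p, image_mono hS hp, q, image_mono hS hq, e⟩
  · intro S hS hA t
    obtain ⟨S1, a1, a2, a3, a4⟩ := span_step hS hA t.2.1 t.2.2.1 t.2.2.2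
    by_cases hab : t.1.1 ≠ 0 ∨ t.1.2.1 ≠ 0
    · have hA1 : #(π '' S1) < 𝔠 := by
        refine (mk_le_mk_of_subset (show π '' S1 ⊆ π '' S ∪ (π '' S1 \ π '' S) from
          fun x hx => (em _).imp id fun h => ⟨hx, h⟩)).trans_lt
          ((mk_union_le _ _).trans_lt (add_lt_of_lt aleph0_le_continuum hA
            (a2.lt_aleph0.trans aleph0_lt_continuum)))
      obtain ⟨S2, b1, b2, b3, b4⟩ := line_step a3 hA1 t.1.2.2 hab
      refine ⟨S2, a1.trans b1, (a2.union b2).subset fun x hx => ?_, b3, fun _ => b4,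
        Submodule.span_mono (cls_mono b1 _ _) a4⟩
      by_cases e : x ∈ π '' S1
      exacts [Or.inl ⟨e, hx.2⟩, Or.inr ⟨hx.1, e⟩]
    · exact ⟨S1, a1, a2, a3, fun h => (hab h).elim, a4⟩

noncomputable def rotL (θ : ℝ) : P →ₗ[ℚ] P where
  toFun p := (Real.cos θ * p.1 - Real.sin θ * p.2, Real.sin θ * p.1 + Real.cos θ * p.2)
  map_add' p q := by ext <;> simp <;> ring
  map_smul' a p := by ext <;> simp [Rat.smul_def] <;> ring

lemma rotL_inv (θ : ℝ) (p : P) : rotL θ (rotL (-θ) p) = p := by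
  have := Real.sin_sq_add_cos_sq θ
  ext <;> simp only [rotL, LinearMap.coe_mk, AddHom.coe_mk, Real.cos_neg, Real.sin_neg]
  · linear_combination p.1 * this
  · linear_combination p.2 * this

theorem main : ∃ M : Set P, (∀ a b c : ℝ, a ≠ 0 ∨ b ≠ 0 →
    ∃ p q, p ≠ q ∧ M ∩ {r | a * r.1 + b * r.2 = c} = {p, q}) ∧
    ∀ θ : ℝ, ∃ f : Bool → ℝ → ℝ, (∀ b, LinearIndepOn ℚ id {p : P | p.2 = f b p.1} ∧
      Submodule.span ℚ {p : P | p.2 = f b p.1} = ⊤) ∧
      rotL θ '' M = {p : P | p.2 = f true p.1} ∪ {p : P | p.2 = f false p.1} := by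
  obtain ⟨B, hB, hl, hs⟩ := exists_good
  refine ⟨π '' B, fun a b c hab => ?_, fun θ => ?_⟩
  · obtain ⟨p, hp, q, hq, hpq, e1, e2⟩ := hl a b c hab
    refine ⟨p, q, hpq, Subset.antisymm (fun r hr => ?_) ?_⟩
    · by_contra h
      simp only [mem_insert_iff, mem_singleton_iff, not_or] at h
      refine hB.col p hp q hq r hr.1 hpq h.1 h.2 ?_
      have e3 : a * r.1 + b * r.2 = c := hr.2
      simp only [det, Prod.fst_sub, Prod.snd_sub]
      rcases hab with h0 | h0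
      · refine (mul_eq_zero.1 ?_).resolve_left h0
        linear_combination (q.2 - p.2) * (e3 - e1) - (r.2 - p.2) * (e2 - e1)
      · refine (mul_eq_zero.1 ?_).resolve_left h0
        linear_combination -(q.1 - p.1) * (e3 - e1) + (r.1 - p.1) * (e2 - e1)
    · rintro r (rfl | rfl)
      exacts [⟨hp, e1⟩, ⟨hq, e2⟩]
  · have hex : ∀ b x, ∃ p ∈ cls B θ b, φ θ p = x := fun b x => by
      obtain ⟨p, hp, q, hq, hpq, e1, e2⟩ := hl (Real.cos θ) (-Real.sin θ) x (by
        by_contra h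
        push Not at h
        have := Real.sin_sq_add_cos_sq θ
        rw [h.1, neg_eq_zero.1 h.2] at this
        norm_num at this)
      have f1 : φ θ p = x := by simp only [φ]; linarith
      have f2 : φ θ q = x := by simp only [φ]; linarith
      obtain ⟨b1, h1⟩ := hB.tot θ p hp
      obtain ⟨b2, h2⟩ := hB.tot θ q hq
      have hb : b1 ≠ b2 := fun e => hpq (hB.fn θ b1 p h1 q (e ▸ h2) (f1.trans f2.symm))
      by_cases e : b = b1
      · exact ⟨p, e ▸ h1, f1⟩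
      · have : b = b2 := by revert hb e; cases b <;> cases b1 <;> cases b2 <;> simp
        exact ⟨q, this ▸ h2, f2⟩
    choose g hg hg' using hex
    have hgr : ∀ b, {p : P | p.2 = (rotL θ (g b p.1)).2} = rotL θ '' cls B θ b := fun b => by
      ext p
      constructor
      · exact fun h => ⟨g b p.1, hg b _, Prod.ext (hg' b _) h.symm⟩
      · rintro ⟨q, hq, rfl⟩
        have : g b (rotL θ q).1 = q := hB.fn θ b _ (hg b _) q hq (hg' b _)
        show _ = _
        rw [this]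
    have hinj : Function.Injective (rotL θ) := by
      refine Function.LeftInverse.injective (g := rotL (-θ)) fun p => ?_
      simpa using rotL_inv (-θ) p
    refine ⟨fun b x => (rotL θ (g b x)).2, fun b => ?_, ?_⟩
    · rw [hgr]
      refine ⟨(hB.ind θ b).id_imageₛ hinj.injOn, ?_⟩
      rw [← Submodule.map_span, hs, Submodule.map_top, LinearMap.range_eq_top]
      exact fun p => ⟨_, rotL_inv θ p⟩
    · rw [hgr, hgr, ← image_union]
      congr 1
      refine Subset.antisymm (fun p hp => ?_) (union_subset (cls_sub _ _ _) (cls_sub _ _ _))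
      obtain ⟨b, hb⟩ := hB.tot θ p hp
      cases b
      exacts [Or.inr hb, Or.inl hb]

end Pool.Agent.H32.Maz
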