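import Pool.Agent.H32.UFA

open Set Filter Function Topology

namespace Pool.Agent.H32.UFB

open Pool.Agent.H32.UFA

/-- `X` is `u`-compact: every sequence has a `u`-limit in `X` -/
def UCompact (u : Ultrafilter ℕ) (X : Type) [TopologicalSpace X] : Prop :=
  ∀ f : ℕ → X, ∃ x : X, Tendsto f u (𝓝 x)

/-- `X` is discretely `u`-compact: every injective sequence with discrete range has a `u`-limit -/
def DUCompact (u : Ultrafilter ℕ) (X : Type) [TopologicalSpace X] : Prop :=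
  ∀ f : ℕ → X, Injective f → IsDiscrete (range f) → ∃ x : X, Tendsto f u (𝓝 x)

/-- Comfort preorder -/
def CLe (u v : Ultrafilter ℕ) : Prop :=
  ∀ (X : Type) [TopologicalSpace X] [T35Space X], UCompact v X → UCompact u X

/-- Comfort-Frolik preorder -/
def CFLe (u v : Ultrafilter ℕ) : Prop :=
  ∀ (X : Type) [TopologicalSpace X] [T35Space X], DUCompact v X → DUCompact u X

/-- Rudin-Frolik preorder -/
def RFLe (u v : Ultrafilter ℕ) : Prop :=
  ∃ f : ℕ → Ultrafilter ℕ, Injective f ∧ IsDiscrete (range f) ∧ Tendsto f u (𝓝 v)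

/-- tree-like preorder -/
def TreeLike (R : Ultrafilter ℕ → Ultrafilter ℕ → Prop) : Prop :=
  ∀ v u w, R u v → R w v → R u w ∨ R w u

/-- selective ultrafilter: nonprincipal, and every map is constant or injective on a large set -/
def Selective (u : Ultrafilter ℕ) : Prop :=
  (∀ n : ℕ, u ≠ pure n) ∧ ∀ h : ℕ → ℕ, ∃ A ∈ u, InjOn h A ∨ ∃ c, ∀ n ∈ A, h n = c

lemma tendsto_bind (v : UF) (g : ℕ → UF) : Tendsto g v (𝓝 (v.bind g)) := by
  rw [ultrafilterBasis_is_basis.nhds_hasBasis.tendsto_right_iff]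
  rintro _ ⟨⟨s, rfl⟩, hs⟩
  exact hs

lemma eq_bind {v p : UF} {g : ℕ → UF} (h : Tendsto g v (𝓝 p)) : p = v.bind g :=
  tendsto_nhds_unique h (tendsto_bind v g)

lemma isol_of_discrete {g : ℕ → UF} (hi : Injective g) (hd : IsDiscrete (range g)) :
    ∃ S : ℕ → Set ℕ, (∀ j, S j ∈ g j) ∧ ∀ i j, i ≠ j → S i ∉ g j := by
  have : ∀ j, ∃ S ∈ g j, ∀ i, j ≠ i → S ∉ g i := by
    intro j
    obtain ⟨U, hU, hUj⟩ := isDiscrete_iff_forall_mem_exists_isOpen.1 hd (g j) ⟨j, rfl⟩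
    have hj : g j ∈ U := (hUj.symm ▸ mem_singleton (g j) : g j ∈ U ∩ range g).1
    obtain ⟨_, ⟨s, rfl⟩, h1, h2⟩ := ultrafilterBasis_is_basis.exists_subset_of_mem_open hj hU
    refine ⟨s, h1, fun i hi' hs => hi' ?_⟩
    have : g i ∈ U ∩ range g := ⟨h2 hs, i, rfl⟩
    rw [hUj] at this
    exact (hi this).symm
  choose S h1 h2 using this
  exact ⟨S, h1, h2⟩

lemma discrete_of_part {g : ℕ → UF} {ρ : ℕ → ℕ} (h : ∀ j, (g j).map ρ = pure j) :
    Injective g ∧ IsDiscrete (range g) := by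
  have hi : Injective g := fun i j hij => Ultrafilter.pure_injective (by rw [← h i, hij, h j])
  refine ⟨hi, isDiscrete_iff_forall_mem_exists_isOpen.2 ?_⟩
  rintro _ ⟨j, rfl⟩
  refine ⟨{p | {k | ρ k = j} ∈ p}, ultrafilter_isOpen_basic _, ?_⟩
  ext p
  constructor
  · rintro ⟨h1, i, rfl⟩
    have := Ultrafilter.pure_injective ((h i).symm.trans (map_eq_pure.2 h1))
    rw [this]; rfl
  · rintro rfl
    exact ⟨map_eq_pure.1 (h j), j, rfl⟩

lemma part_of_discrete {g : ℕ → UF} (hi : Injective g) (hd : IsDiscrete (range g)) :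
    ∃ τ : ℕ → ℕ, ∀ j, (g j).map τ = pure j := by
  obtain ⟨S, h1, h2⟩ := isol_of_discrete hi hd
  obtain ⟨τ, h, -⟩ := exists_part h1 h2
  exact ⟨τ, h⟩

lemma map_bind_part {v : UF} {g : ℕ → UF} {τ : ℕ → ℕ} (h : {j | (g j).map τ = pure j} ∈ v) :
    (v.bind g).map τ = v := by
  rw [UFA.map_bind]
  exact (UFA.bind_congr (g' := fun n => pure (id n)) h).trans rfl

lemma RFLe.rk {u v : UF} (h : RFLe u v) : RK u v := by
  obtain ⟨g, hi, hd, ht⟩ := h
  obtain ⟨τ, hτ⟩ := part_of_discrete hi hd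
  exact ⟨τ, by rw [eq_bind ht]; exact map_bind_part (univ_mem' hτ)⟩

lemma discrete_image {X Y : Type} [TopologicalSpace X] [TopologicalSpace Y] {e : X → Y}
    (he : IsEmbedding e) {f : ℕ → X} : IsDiscrete (range f) ↔ IsDiscrete (range (e ∘ f)) := by
  rw [range_comp, isDiscrete_iff_forall_mem_exists_isOpen, isDiscrete_iff_forall_mem_exists_isOpen]
  constructor
  · rintro h _ ⟨x, hx, rfl⟩
    obtain ⟨U, hU, h1⟩ := h x hx
    obtain ⟨V, hV, rfl⟩ := he.isInducing.isOpen_iff.1 hU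
    refine ⟨V, hV, ?_⟩
    rw [← image_preimage_inter, h1, image_singleton]
  · intro h x hx
    obtain ⟨V, hV, h1⟩ := h _ ⟨x, hx, rfl⟩
    refine ⟨e ⁻¹' V, hV.preimage he.continuous, ?_⟩
    rw [← image_preimage_inter, ← image_singleton] at h1
    exact (image_injective.2 he.injective) h1

/-- a subspace of the ultrafilter space closed under discrete limits -/
lemma duc_sub {v : UF} {Y : Set UF}
    (h : ∀ g : ℕ → UF, (∀ n, g n ∈ Y) → Injective g → IsDiscrete (range g) → v.bind g ∈ Y) :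
    DUCompact v Y := by
  intro f hi hd
  have h1 := h (Subtype.val ∘ f) (fun n => (f n).2) (Subtype.val_injective.comp hi)
    ((discrete_image IsEmbedding.subtypeVal).1 hd)
  exact ⟨⟨_, h1⟩, tendsto_subtype_rng.2 (tendsto_bind v _)⟩

lemma mem_of_duc {u : UF} {Y : Set UF} (hp : ∀ n : ℕ, (pure n : UF) ∈ Y) (h : DUCompact u Y) :
    u ∈ Y := by
  obtain ⟨h1, h2⟩ := discrete_of_part (g := fun n => (pure n : UF)) (ρ := id) fun _ => rfl
  obtain ⟨x, hx⟩ := h (fun n => ⟨pure n, hp n⟩) (fun a b hab => h1 (congrArg Subtype.val hab))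
    ((discrete_image IsEmbedding.subtypeVal).2 h2)
  have := eq_bind (tendsto_subtype_rng.1 hx)
  have h3 : x.1 = u := this
  exact h3 ▸ x.2

lemma CFLe.mem {u v : UF} (h : CFLe u v) {Y : Set UF} (hp : ∀ n : ℕ, (pure n : UF) ∈ Y)
    (hY : ∀ g : ℕ → UF, (∀ n, g n ∈ Y) → Injective g → IsDiscrete (range g) → v.bind g ∈ Y) :
    u ∈ Y := mem_of_duc hp (h Y (duc_sub hY))

lemma CFLe.rf {u v : UF} (h : CFLe u v) (hu : NP u) : RFLe v u := by
  have := h.mem (Y := {p | (∃ n : ℕ, p = pure n) ∨ RFLe v p}) (fun n => Or.inl ⟨n, rfl⟩)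
    fun g _ hi hd => Or.inr ⟨g, hi, hd, tendsto_bind v g⟩
  rcases this with ⟨n, hn⟩ | h
  · exact (hu n hn).elim
  · exact h

lemma lim_bind {X : Type} [TopologicalSpace X] [RegularSpace X] {v : UF} {g : ℕ → UF} {f y : ℕ → X}
    {x : X} (h1 : ∀ n, Tendsto f (g n) (𝓝 (y n))) (h2 : Tendsto y v (𝓝 x)) :
    Tendsto f (v.bind g) (𝓝 x) := by
  rw [(closed_nhds_basis x).tendsto_right_iff]
  rintro C ⟨hC, -⟩
  have h3 : ∀ᶠ n in (v : Filter ℕ), y n ∈ interior C := h2 (interior_mem_nhds.2 hC)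
  show {k | f k ∈ C} ∈ v.bind g
  rw [UFA.mem_bind]
  filter_upwards [h3] with n hn
  exact h1 n (mem_interior_iff_mem_nhds.1 hn)

lemma CFLe.c {u v : UF} (h : CFLe u v) : CLe u v := by
  intro X _ _ hX f
  refine h.mem (Y := {p | ∃ x : X, Tendsto f p (𝓝 x)}) (fun n => ⟨f n, tendsto_pure_nhds f n⟩) ?_
  intro g hg _ _
  choose y hy using hg
  obtain ⟨x, hx⟩ := hX y
  exact ⟨x, lim_bind hy hx⟩

lemma c_of_rk {u v : UF} (h : RK u v) : CLe u v := by
  obtain ⟨φ, rfl⟩ := h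
  intro X _ _ hX f
  exact hX (f ∘ φ)

lemma rf_tens (a b : UF) : RFLe a (tens a b) := by
  obtain ⟨h1, h2⟩ := discrete_of_part (col_fst b)
  exact ⟨_, h1, h2, tendsto_bind _ _⟩

lemma tens_np {a : UF} (ha : NP a) (b : UF) : NP (tens a b) := ha.of_RK ⟨_, tens_fst a b⟩

lemma cf_pure (n : ℕ) (v : UF) : CFLe (pure n) v :=
  fun _ _ _ _ f _ _ => ⟨f n, tendsto_pure_nhds f n⟩

lemma cf_of_iso {v w : UF} (hv : NP v) (h : Iso v w) : CFLe w v := by
  obtain ⟨φ, A, hA, hi, rfl⟩ := h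
  obtain ⟨σ, h1, h2, h3⟩ := exists_ext hv hA
  intro X _ _ hX f hf hd
  obtain ⟨x, hx⟩ := hX (f ∘ φ ∘ σ) (hf.comp fun a b hab => h1 (hi (h2 a) (h2 b) hab))
    (hd.mono (range_comp_subset_range _ _))
  refine ⟨x, ?_⟩
  show Tendsto (f ∘ φ) v (𝓝 x)
  refine hx.congr' ?_
  filter_upwards [h3] with n hn
  simp only [comp, hn]

lemma uc_of_selective {u : UF} (hu : Selective u) {X : Type} [TopologicalSpace X] [T1Space X]
    (hX : DUCompact u X) : UCompact u X := by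
  classical
  intro f
  by_contra hn
  push Not at hn
  have hV : ∀ n, ∃ V : Set X, IsOpen V ∧ f n ∈ V ∧ {m | f m ∈ V} ∉ u := by
    intro n
    by_contra h
    push Not at h
    exact hn (f n) ((nhds_basis_opens (f n)).tendsto_right_iff.2 fun V hV => h V hV.2 hV.1)
  choose V hVo hVn hVu using hV
  have hex : ∀ m, ∃ n, f m ∈ V n := fun m => ⟨m, hVn m⟩
  obtain ⟨A, hA, hA'⟩ := hu.2 fun m => Nat.find (hex m)
  rcases hA' with hinj | ⟨c, hc⟩
  swap
  · refine hVu c (mem_of_superset hA fun m hm => ?_)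
    have := Nat.find_spec (hex m)
    rw [hc m hm] at this
    exact this
  have hfin : ∀ n, (A ∩ {m | f m ∈ V n}).Finite := by
    intro n
    refine Finite.of_finite_image ((finite_Iic n).subset ?_) (hinj.mono inter_subset_left)
    rintro _ ⟨m, hm, rfl⟩
    exact Nat.find_min' _ hm.2
  have hfi : InjOn f A := by
    intro a ha b hb hab
    apply hinj ha hb
    simp only [hab]
  obtain ⟨σ, h1, h2, h3⟩ := exists_ext hu.1 hA
  have hd : IsDiscrete (range (f ∘ σ)) := by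
    rw [isDiscrete_iff_forall_mem_exists_isOpen]
    rintro _ ⟨n, rfl⟩
    have hF : ((f '' (A ∩ {m | f m ∈ V (σ n)})) \ {f (σ n)}).Finite :=
      ((hfin _).image f).subset sdiff_subset
    refine ⟨V (σ n) \ ((f '' (A ∩ {m | f m ∈ V (σ n)})) \ {f (σ n)}),
      (hVo _).sdiff hF.isClosed, ?_⟩
    ext x
    constructor
    · rintro ⟨⟨hx1, hx2⟩, m, rfl⟩
      by_contra hne
      exact hx2 ⟨⟨σ m, ⟨h2 m, hx1⟩, rfl⟩, hne⟩
    · rintro rfl
      exact ⟨⟨hVn _, fun h => h.2 rfl⟩, n, rfl⟩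
  obtain ⟨x, hx⟩ := hX (f ∘ σ) (fun a b hab => h1 (hfi (h2 a) (h2 b) hab)) hd
  refine hn x (hx.congr' ?_)
  filter_upwards [h3] with n hn
  simp only [comp, hn]

lemma uc_tens {a b : UF} {X : Type} [TopologicalSpace X] [RegularSpace X]
    (ha : UCompact a X) (hb : UCompact b X) : UCompact (tens a b) X := by
  intro f
  choose y hy using fun n => hb (f ∘ Nat.pair n)
  obtain ⟨x, hx⟩ := ha y
  exact ⟨x, lim_bind hy hx⟩

/-- bottom level decomposition of a predecessor -/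
lemma CFLe.decomp {v w : UF} (h : CFLe w v) (hw : NP w) :
    ∃ (b : UF) (g : ℕ → UF) (ρ : ℕ → ℕ), {n | (g n).map ρ = pure n ∧ Iso v (g n)} ∈ b ∧
      w = b.bind g ∧ ((∃ n : ℕ, b = pure n) ∨ RK v b) := by
  classical
  have := h.mem (Y := {p | (∃ n : ℕ, p = pure n) ∨ ∃ (b : UF) (g : ℕ → UF) (ρ : ℕ → ℕ),
      {n | (g n).map ρ = pure n ∧ Iso v (g n)} ∈ b ∧
      p = b.bind g ∧ ((∃ n : ℕ, b = pure n) ∨ RK v b)}) (fun n => Or.inl ⟨n, rfl⟩) ?_
  · rcases this with ⟨n, hn⟩ | h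
    · exact (hw n hn).elim
    · exact h
  intro e he hi hd
  right
  obtain ⟨τ, hτ⟩ := part_of_discrete hi hd
  rcases v.mem_or_compl_mem {j | ∃ n : ℕ, e j = pure n} with hJ | hJ
  · have : ∀ j, ∃ n : ℕ, (∃ n : ℕ, e j = pure n) → e j = pure n := fun j => by
      by_cases h : ∃ n : ℕ, e j = pure n
      · obtain ⟨n, hn⟩ := h
        exact ⟨n, fun _ => hn⟩
      · exact ⟨0, fun h' => (h h').elim⟩
    choose φ hφ using this
    refine ⟨pure 0, fun _ => v.bind e, fun _ => 0, ⟨map_eq_pure.2 (univ_mem' fun _ => rfl), φ, _, hJ, ?_, ?_⟩, rfl,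
      Or.inl ⟨0, rfl⟩⟩
    · intro a ha b hb hab
      apply hi
      rw [hφ a ha, hφ b hb, hab]
    · rw [← bind_pure']
      apply UFA.bind_congr
      filter_upwards [hJ] with j hj
      exact (hφ j hj).symm
  · have : ∀ j, ∃ (b : UF) (g : ℕ → UF) (ρ : ℕ → ℕ), (¬ ∃ n : ℕ, e j = pure n) →
        {n | (g n).map ρ = pure n ∧ Iso v (g n)} ∈ b ∧ e j = b.bind g := fun j => by
      rcases he j with h | ⟨b, g, ρ, h1, h2, -⟩
      · exact ⟨v, e, id, fun h' => (h' h).elim⟩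
      · exact ⟨b, g, ρ, fun _ => ⟨h1, h2⟩⟩
    choose b g ρ hb using this
    refine ⟨v.bind fun j => (b j).map (Nat.pair j), fun m => g m.unpair.1 m.unpair.2,
      fun k => Nat.pair (τ k) (ρ (τ k) k), ?_, ?_, Or.inr ⟨fun k => k.unpair.1, ?_⟩⟩
    · rw [UFA.mem_bind]
      filter_upwards [hJ] with j hj
      obtain ⟨h1, h2⟩ := hb j hj
      have h3 : {k | τ k = j} ∈ (b j).bind (g j) := h2 ▸ map_eq_pure.1 (hτ j)
      rw [UFA.mem_bind] at h3
      rw [Ultrafilter.mem_map]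
      filter_upwards [h1, h3] with n hn hn'
      simp only [mem_preimage, mem_ofPred_eq, Nat.unpair_pair]
      refine ⟨map_eq_pure.2 ?_, hn.2⟩
      filter_upwards [hn', map_eq_pure.1 hn.1] with k hk hk'
      simp only [hk, hk']
    · rw [UFA.bind_bind]
      apply UFA.bind_congr
      filter_upwards [hJ] with j hj
      rw [(hb j hj).2, UFA.bind_map]
      congr 1
      funext n
      simp
    · exact map_bind_part (univ_mem' fun j => col_fst _ j)

end Pool.Agent.H32.UFB
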