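import Mathlib
import Pool.Agent.H32.Maz
import Pool.Agent.H32.IndF
import Pool.Agent.H32.UFB

open Set Filter Function
open Cardinal hiding univ

namespace Pool.Agent.H32.CHU

open UFA IndF

/-- an iteration of length `ω₁` -/
lemma iter {X : Type} (Good : Set X → Prop) (R : Set X → Set X → Prop)
    (hchain : ∀ c : Set (Set X), DirectedOn (· ⊆ ·) c → (∀ S ∈ c, Good S) → Good (⋃₀ c))
    (step : ∀ S, Good S → #S ≤ 𝔠 → ∃ S', S ⊆ S' ∧ Good S' ∧ #S' ≤ 𝔠 ∧ R S S') :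
    ∃ Y, Good Y ∧ ∀ s ⊆ Y, s.Countable → ∃ S S', s ⊆ S ∧ R S S' ∧ S' ⊆ Y := by
  have hG : ∀ S : Set X, ∃ S', S ⊆ S' ∧ (Good S → #S ≤ 𝔠 → Good S' ∧ #S' ≤ 𝔠 ∧ R S S') :=
    fun S => by
      by_cases h : Good S ∧ #S ≤ 𝔠
      · obtain ⟨S', h1, h2⟩ := step S h.1 h.2
        exact ⟨S', h1, fun _ _ => h2⟩
      · exact ⟨S, subset_rfl, fun h1 h2 => (h ⟨h1, h2⟩).elim⟩
  choose G hG1 hG2 using hG
  let F : W → Set X := WellFoundedLT.fix fun i ih => G (⋃ j : Iio i, ih j j.2)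
  have hF : ∀ i, F i = G (⋃₀ (F '' Iio i)) := fun i => by
    rw [sUnion_image, biUnion_eq_iUnion]
    exact WellFoundedLT.fix_eq _ i
  have hm : Monotone F := fun j i h => by
    rcases h.eq_or_lt with rfl | h
    · exact le_rfl
    · rw [hF i]
      exact (subset_sUnion_of_mem (mem_image_of_mem F (mem_Iio.2 h))).trans (hG1 _)
  have hdir : ∀ s : Set W, DirectedOn (· ⊆ ·) (F '' s) := fun s => by
    rintro _ ⟨i, hi, rfl⟩ _ ⟨j, hj, rfl⟩
    rcases le_total i j with h | h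
    exacts [⟨_, ⟨j, hj, rfl⟩, hm h, subset_rfl⟩, ⟨_, ⟨i, hi, rfl⟩, subset_rfl, hm h⟩]
  have hgood : ∀ i, Good (F i) ∧ #(F i) ≤ 𝔠 ∧ R (⋃₀ (F '' Iio i)) (F i) := fun i => by
    induction i using WellFoundedLT.induction with
    | ind i ih =>
      rw [hF i]
      refine hG2 _ (hchain _ (hdir _) (by rintro _ ⟨j, hj, rfl⟩; exact (ih j hj).1)) ?_
      rw [sUnion_image, biUnion_eq_iUnion]
      refine mk_iUnion_le_sum_mk.trans
        ((sum_le_sum _ (fun _ => 𝔠) fun j : Iio i => (ih j j.2).2.1).trans ?_)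
      rw [sum_const']
      exact (mul_le_mul_left ((mk_set_le _).trans (W_card.trans_le aleph_one_le_continuum)) _).trans
        (by simp)
  refine ⟨⋃₀ (F '' univ), hchain _ (hdir _) (by rintro _ ⟨j, -, rfl⟩; exact (hgood j).1),
    fun s hs hc => ?_⟩
  have : ∀ x : s, ∃ j, x.1 ∈ F j := fun x => by
    obtain ⟨_, ⟨j, -, rfl⟩, h⟩ := hs x.2
    exact ⟨j, h⟩
  choose j hj using this
  have := hc.to_subtype
  obtain ⟨β, hβ⟩ := W_bdd (countable_range j)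
  exact ⟨⋃₀ (F '' Iio β), _, fun x hx => ⟨_, ⟨_, hβ _ ⟨⟨x, hx⟩, rfl⟩, rfl⟩, hj ⟨x, hx⟩⟩,
    (hgood β).2.2,
    subset_sUnion_of_mem (mem_image_of_mem F (mem_univ β))⟩

/-- building an ultrafilter under CH -/
lemma ch_uf (CH : 𝔠 = (ℵ₁ : Cardinal.{0})) {T : Type} (hT : #T ≤ 𝔠) (P : T → Set ℕ → Prop)
    (h : ∀ t (x : ℕ → ℕ), ∃ B, P t B ∧ ∃ᶠ k in atTop, x k ∈ B) :
    ∃ v : UF, (v : Filter ℕ) ≤ atTop ∧ ∀ t, ∃ B ∈ v, P t B := by
  obtain ⟨S, h1, h2⟩ := Maz.build hT id (fun S => (atTop ⊓ generate S).NeBot)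
    (fun t S => ∃ B ∈ S, P t B) (fun t S S' k ⟨B, a, b⟩ => ⟨B, k a, b⟩)
    (fun c hc k => ⟨fun z => by
      obtain ⟨A, a1, B, b1, k'⟩ := mem_inf_iff.1 (empty_mem_iff_bot.2 z)
      obtain ⟨t, t1, t2, t3⟩ := mem_generate_iff.1 b1
      rcases c.eq_empty_or_nonempty with rfl | hn
      · obtain rfl : t = ∅ := by simpa using t1
        obtain ⟨n, hn⟩ := Filter.nonempty_of_mem a1
        exact k'.ge ⟨hn, t3 (by simp)⟩
      · obtain ⟨S, s1, s2⟩ := hc.exists_mem_subset_of_finite_of_subset_sUnion hn t2 t1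
        exact (k S s1).ne (empty_mem_iff_bot.1
          (mem_inf_iff.2 ⟨A, a1, B, mem_generate_iff.2 ⟨t, s2, t2, t3⟩, k'⟩))⟩)
    (fun S k hs t => by
      rw [image_id, CH, lt_aleph_one_iff, le_aleph0_iff_set_countable] at hs
      have : (generate S).IsCountablyGenerated := ⟨⟨S, hs, rfl⟩⟩
      obtain ⟨x, hx⟩ := exists_seq_tendsto (atTop ⊓ generate S)
      obtain ⟨B, b1, b2⟩ := h t x
      refine ⟨S ∪ {B}, subset_union_left, (finite_singleton B).subset fun A hA => ?_, ?_,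
        B, .inr rfl, b1⟩
      · simp only [image_id] at hA
        exact hA.1.resolve_left hA.2
      · rw [generate_union, generate_singleton, ← inf_assoc]
        exact frequently_mem_iff_neBot.1 (hx.frequently b2))
  refine ⟨Ultrafilter.of _, (Ultrafilter.of_le (atTop ⊓ generate S)).trans inf_le_left, fun t => ?_⟩
  obtain ⟨B, a, b⟩ := h2 t
  exact ⟨B, Ultrafilter.of_le _ (mem_inf_of_right (mem_generate_of_mem a)), b⟩

lemma sepset {p q : UF} (h : p ≠ q) : ∃ S ∈ p, S ∉ q := by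
  by_contra! k
  exact h (eq_of_sub k)

lemma sep0 {u p : UF} (hu : (u : Filter ℕ) ≤ atTop) {α β : ℕ → UF} (h : ∀ n, α n ≠ β n)
    (ha : u.bind α = p) (hb : u.bind β = p) (k : {n | β n ≠ p} ∈ u) :
    ∃ S, ∃ᶠ n in atTop, S ∈ α n ∧ S ∉ β n := by
  choose E e1 e2 using fun n => sepset (h n)
  have : ∀ q : UF, ∃ G ∉ p, q ≠ p → G ∈ q := fun q => by
    by_cases z : q = p
    · exact ⟨∅, Ultrafilter.empty_notMem, fun y => (y z).elim⟩
    · obtain ⟨G, g1, g2⟩ := sepset z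
      exact ⟨G, g2, fun _ => g1⟩
  choose G0 g1 g2 using this
  let G : ℕ → Set ℕ := fun n => G0 (α n) ∪ G0 (β n)
  have g3 : ∀ n, (G n)ᶜ ∈ p := fun n => Ultrafilter.compl_mem_iff_notMem.2 fun z =>
    (Ultrafilter.union_mem_iff.1 z).elim (g1 _) (g1 _)
  obtain ⟨s, s1, s2⟩ := exists_seq_of_forall_finset_exists (fun n => β n ≠ p)
    (fun i n => i < n ∧ (G i)ᶜ ∈ α n ∧ (G i)ᶜ ∈ β n) fun t _ => Ultrafilter.nonempty_of_mem
      (inter_mem k ((eventually_all_finset t (l := (u : Filter ℕ))).2 fun i _ =>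
        inter_mem (hu (eventually_gt_atTop i)) (inter_mem (ha ▸ g3 i : _ ∈ u.bind α)
          (hb ▸ g3 i : _ ∈ u.bind β))))
  let H : ℕ → Set ℕ := fun k => G (s k) ∩ ⋂ i ∈ Iio k, (G (s i))ᶜ
  have d : ∀ i j x, x ∈ H i → x ∈ H j → i = j := fun i j x a b => by
    rcases lt_trichotomy i j with z | z | z
    exacts [(mem_iInter₂.1 b.2 i z a.1).elim, z, (mem_iInter₂.1 a.2 j z b.1).elim]
  obtain ⟨r, hr⟩ : ∃ r, (⋃ k, H (2 * k + r))ᶜ ∈ p := by
    by_contra! z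
    simp only [Ultrafilter.compl_mem_iff_notMem, not_not] at z
    obtain ⟨x, x1, x2⟩ := Ultrafilter.nonempty_of_mem (inter_mem (z 0) (z 1))
    obtain ⟨i, hi⟩ := mem_iUnion.1 x1
    obtain ⟨j, hj⟩ := mem_iUnion.1 x2
    have := d _ _ x hi hj
    omega
  refine ⟨(⋃ k, H (2 * k + r) ∩ E (s (2 * k + r))) ∪ (⋃ k, H (2 * k + r))ᶜ,
    (StrictMono.tendsto_atTop (φ := fun k => s (2 * k + r))
      fun a b z => (s2 _ _ (by omega)).1).frequently (Frequently.of_forall fun k => ⟨?_, fun z => ?_⟩)⟩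
  · by_cases y : α (s (2 * k + r)) = p
    · exact y ▸ mem_of_superset hr subset_union_right
    · refine mem_of_superset (inter_mem (inter_mem (mem_of_superset (g2 _ y) subset_union_left)
        ((biInter_mem (finite_Iio _)).2 fun i hi => (s2 _ _ hi).2.1)) (e1 _)) fun x hx =>
        .inl (mem_iUnion.2 ⟨k, hx⟩)
  · refine e2 (s (2 * k + r)) ?_
    have y : H (2 * k + r) ∈ β (s (2 * k + r)) := inter_mem (mem_of_superset (g2 _ (s1 _))
      subset_union_right) ((biInter_mem (finite_Iio _)).2 fun i hi => (s2 _ _ hi).2.2)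
    filter_upwards [y, z]
    rintro x x1 (x2 | x2)
    · obtain ⟨j, j1, j2⟩ := mem_iUnion.1 x2
      exact d _ _ x j1 x1 ▸ j2
    · exact (x2 (mem_iUnion.2 ⟨k, x1⟩)).elim

lemma sep {α β : ℕ → UF} (h : ∀ n, α n ≠ β n) : ∃ S, ∃ᶠ n in atTop, S ∈ α n ∧ S ∉ β n := by
  let u := hyperfilter ℕ
  have hu : (u : Filter ℕ) ≤ atTop := Nat.hyperfilter_le_atTop
  by_cases e : u.bind α = u.bind β
  · rcases u.mem_or_compl_mem {n | β n ≠ u.bind β} with k | k
    · exact sep0 hu h e rfl k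
    · obtain ⟨S, hS⟩ := sep0 hu (fun n => (h n).symm) rfl e
        (mem_of_superset k fun n hn z => hn (z ▸ (h n).symm))
      exact ⟨Sᶜ, hS.mono fun n hn => by simpa [Ultrafilter.compl_mem_iff_notMem] using hn.symm⟩
  · obtain ⟨S, s1, s2⟩ := sepset e
    exact ⟨S, (Eventually.frequently (inter_mem (show _ ∈ u from s1)
      (Ultrafilter.compl_mem_iff_notMem.2 s2))).filter_mono hu⟩

end Pool.Agent.H32.CHU
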