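import Mathlib
import Pool.Agent.H32.CHU

open Set Filter Function Topology
open Cardinal hiding univ

namespace Pool.Agent.H32.CHY

open UFA

def Good (S : Set UF) : Prop := (∀ f, ∀ ξ ∈ S, ξ.map f ∈ S) ∧
  (∀ ξ ∈ S, ∀ η ∈ S, ∃ ζ ∈ S, ζ.map (fun k => k.unpair.1) = ξ ∧ ζ.map (fun k => k.unpair.2) = η) ∧
  ∀ ξ ∈ S, ∀ f g : ℕ → ℕ, (∀ x, f x ≠ g x) → ξ.map f ≠ ξ.map g

def R (S S' : Set UF) : Prop := S'.Nonempty ∧ ∀ ξ : ℕ → UF, (∀ n, ξ n ∈ S) →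
  ∃ v : UF, (v : Filter ℕ) ≤ atTop ∧ v.bind ξ ∈ S'

lemma step (CH : 𝔠 = (ℵ₁ : Cardinal.{0})) (S : Set UF) (h : Good S) (hs : #S ≤ 𝔠) :
    ∃ S', S ⊆ S' ∧ Good S' ∧ #S' ≤ 𝔠 ∧ R S S' := by
  rcases S.eq_empty_or_nonempty with rfl | hn
  · refine ⟨range pure, empty_subset _, ⟨?_, ?_, ?_⟩, mk_range_le.trans (by simp [aleph0_le_continuum]),
      range_nonempty _, fun ξ k => (k 0).elim⟩
    · rintro f _ ⟨n, rfl⟩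
      exact ⟨f n, rfl⟩
    · rintro _ ⟨n, rfl⟩ _ ⟨m, rfl⟩
      exact ⟨_, ⟨Nat.pair n m, rfl⟩, by simp, by simp⟩
    · rintro _ ⟨n, rfl⟩ f g k z
      exact k n (Ultrafilter.pure_injective z)
  have c : #(ℕ → S) ≤ 𝔠 := by
    simpa using power_le_power_right (c := ℵ₀) hs
  obtain ⟨v, v1, v2⟩ := CHU.ch_uf CH (T := (ℕ → S) × (ℕ → S))
    (by simpa using mul_le_mul' c c)
    (fun t B => (∀ n, t.1 n ≠ t.2 n) → ∃ A, ∀ n ∈ B, A ∈ (t.1 n).1 ∧ A ∉ (t.2 n).1) fun t x => by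
      by_cases k : ∀ n, t.1 n ≠ t.2 n
      · obtain ⟨A, hA⟩ := CHU.sep fun n => Subtype.val_injective.ne (k (x n))
        exact ⟨_, fun _ => ⟨A, fun _ => id⟩, hA⟩
      · exact ⟨univ, fun z => (k z).elim, Frequently.of_forall fun _ => trivial⟩
  have m : S ⊆ range fun ξ : ℕ → S => v.bind fun n => (ξ n).1 := fun p hp =>
    ⟨fun _ => ⟨p, hp⟩, bind_const _ _⟩
  refine ⟨_, m, ⟨?_, ?_, ?_⟩, mk_range_le.trans c, hn.mono m, fun ξ k =>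
    ⟨v, v1, fun n => ⟨_, k n⟩, rfl⟩⟩
  · rintro f _ ⟨ξ, rfl⟩
    exact ⟨fun n => ⟨_, h.1 f _ (ξ n).2⟩, rfl⟩
  · rintro _ ⟨ξ, rfl⟩ _ ⟨η, rfl⟩
    choose ζ z1 z2 z3 using fun n => h.2.1 _ (ξ n).2 _ (η n).2
    exact ⟨_, ⟨fun n => ⟨_, z1 n⟩, rfl⟩, congrArg v.bind (funext z2), congrArg v.bind (funext z3)⟩
  · rintro _ ⟨ξ, rfl⟩ f g k z
    obtain ⟨B, b1, b2⟩ := v2 (fun n => ⟨_, h.1 f _ (ξ n).2⟩, fun n => ⟨_, h.1 g _ (ξ n).2⟩)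
    obtain ⟨A, hA⟩ := b2 fun n y => h.2.2 _ (ξ n).2 f g k (congrArg Subtype.val y)
    have a : A ∈ (v.bind fun n => (ξ n).1).map f :=
      mem_of_superset (f := (v : Filter ℕ)) b1 fun n hn => (hA n hn).1
    rw [z] at a
    obtain ⟨n, n1, n2⟩ := Ultrafilter.nonempty_of_mem (inter_mem b1 (show _ ∈ v from a))
    exact (hA n n1).2 n2

theorem exists_Y (CH : 𝔠 = (ℵ₁ : Cardinal.{0})) : ∃ Y : Set UF, Good Y ∧ (∀ n : ℕ, pure n ∈ Y) ∧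
    ∀ ξ : ℕ → UF, (∀ n, ξ n ∈ Y) → ∃ v : UF, (v : Filter ℕ) ≤ atTop ∧ v.bind ξ ∈ Y := by
  obtain ⟨Y, y, hY⟩ := CHU.iter Good R (fun c hc h => ⟨fun f ξ ⟨S, a, b⟩ =>
    ⟨S, a, (h S a).1 f ξ b⟩, fun ξ ⟨S, a, b⟩ η ⟨S', a', b'⟩ => by
      obtain ⟨Z, z1, z2, z3⟩ := hc S a S' a'
      obtain ⟨ζ, k1, k2⟩ := (h Z z1).2.1 ξ (z2 b) η (z3 b')
      exact ⟨ζ, ⟨Z, z1, k1⟩, k2⟩, fun ξ ⟨S, a, b⟩ => (h S a).2.2 ξ b⟩) (step CH)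
  refine ⟨Y, y, fun n => ?_, fun ξ h => ?_⟩
  · obtain ⟨_, _, -, ⟨⟨ξ, a⟩, -⟩, b⟩ := hY ∅ (empty_subset _) countable_empty
    exact map_eq_pure.2 (univ_mem' (f := (ξ : Filter ℕ)) fun _ => rfl) ▸ y.1 (fun _ => n) ξ (b a)
  · obtain ⟨S, S', a, ⟨-, b⟩, c⟩ := hY (range ξ) (range_subset_iff.2 h) (countable_range _)
    exact (b _ fun n => a ⟨n, rfl⟩).imp fun v hv => ⟨hv.1, c hv.2⟩

end Pool.Agent.H32.CHY
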