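import Pool.Agent.H32.Dual

set_option autoImplicit false

namespace Pool.Agent.H32.CM

open MeasureTheory Set Filter Topology Metric
open scoped ENNReal BoundedContinuousFunction

lemma pair {μ : Measure ℝ} [IsProbabilityMeasure μ] (hac : μ ≪ volume) {U : Set ℝ}
    (hU : MeasurableSet U) (h : μ U ≠ 0) :
    ∃ x ∈ U, ∃ δ > 0, ∃ η > 0, ∀ B : Set ℝ, MeasurableSet B → μ.real Bᶜ ≤ η →
      ∀ t : ℝ, |t| ≤ δ → ∃ y ∈ B, ∃ y' ∈ B, y + y' = 2 * x + t := by
  set f := μ.rnDeriv volume with hf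
  have hfm : Measurable f := Measure.measurable_rnDeriv _ _
  have hμ : ∀ S, MeasurableSet S → μ S = ∫⁻ x in S, f x := fun S hS =>
    (Measure.setLIntegral_rnDeriv hac S).symm
  have h1 : ∃ k : ℕ, volume (U ∩ {x | (k : ℝ≥0∞)⁻¹ ≤ f x}) ≠ 0 := by
    by_contra hc
    push Not at hc
    have h2 : volume (⋃ k : ℕ, U ∩ {x | (k : ℝ≥0∞)⁻¹ ≤ f x}) = 0 := measure_iUnion_null hc
    apply h
    rw [hμ U hU, lintegral_eq_zero_iff hfm, Filter.EventuallyEq, ae_restrict_iff' hU]
    refine measure_mono_null (fun x hx => ?_) h2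
    simp only [mem_compl_iff, mem_ofPred_eq, Classical.not_imp, Pi.zero_apply] at hx
    obtain ⟨k, hk⟩ := ENNReal.exists_inv_nat_lt hx.2
    exact mem_iUnion.2 ⟨k, hx.1, hk.le⟩
  obtain ⟨k, hk⟩ := h1
  set A := U ∩ {x | (k : ℝ≥0∞)⁻¹ ≤ f x} with hA
  have hAm : MeasurableSet A := hU.inter (measurableSet_le measurable_const hfm)
  have hdom : ∀ S, MeasurableSet S → volume.real (S ∩ A) ≤ (k + 1) * μ.real S := by
    intro S hS
    have a1 : (k : ℝ≥0∞)⁻¹ * volume (S ∩ A) ≤ μ S := by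
      rw [← setLIntegral_const]
      refine le_trans (setLIntegral_mono' (hS.inter hAm) fun x hx => hx.2.2) ?_
      rw [← hμ _ (hS.inter hAm)]
      exact measure_mono inter_subset_left
    have a2 : volume (S ∩ A) ≤ (k + 1) * μ S := by
      have a3 : ((k : ℝ≥0∞) + 1)⁻¹ ≤ (k : ℝ≥0∞)⁻¹ := ENNReal.inv_le_inv.2 le_self_add
      have a4 := (mul_le_mul_left a3 (volume (S ∩ A))).trans a1
      rwa [ENNReal.inv_mul_le_iff (by simp) (by simp)] at a4
    have a5 := ENNReal.toReal_mono (by finiteness) a2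
    rw [ENNReal.toReal_mul, ENNReal.toReal_add (by simp) (by simp)] at a5
    simpa [Measure.real] using a5
  have hne : (ae (volume.restrict A)).NeBot := ae_neBot.2 (by simpa using hk)
  obtain ⟨x, hx1, hx2⟩ := ((Besicovitch.ae_tendsto_measure_inter_div volume A).and
    (ae_restrict_mem hAm)).exists
  obtain ⟨r, hr1, hr2⟩ := ((hx1.eventually (lt_mem_nhds (show ENNReal.ofReal (9 / 10) < 1 by
    rw [ENNReal.ofReal_lt_one]; norm_num))).and self_mem_nhdsWithin).exists
  have hr : 0 < r := hr2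
  have hr3 : 9 / 10 * (2 * r) ≤ volume.real (A ∩ closedBall x r) := by
    rw [Real.volume_closedBall, ENNReal.lt_div_iff_mul_lt (by simp [hr]) (by simp),
      ← ENNReal.ofReal_mul (by norm_num)] at hr1
    exact (ENNReal.ofReal_le_iff_le_toReal (((measure_mono inter_subset_right).trans_lt
      measure_closedBall_lt_top).ne)).1 hr1.le
  refine ⟨x, hx2.1, r / 2, by positivity, r / (5 * (k + 1)), by positivity, fun B hB hη t ht => ?_⟩
  set C := B ∩ (A ∩ closedBall x r) with hC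
  have hCm : MeasurableSet C := hB.inter (hAm.inter measurableSet_closedBall)
  have fin : ∀ S : Set ℝ, S ⊆ closedBall x (3 / 2 * r) → volume S ≠ ∞ := fun S hS =>
    ((measure_mono hS).trans_lt measure_closedBall_lt_top).ne
  have s0 : closedBall x r ⊆ closedBall x (3 / 2 * r) := closedBall_subset_closedBall (by linarith)
  have s1 : C ⊆ closedBall x (3 / 2 * r) := fun y hy => s0 hy.2.2
  have c1 : 8 / 5 * r ≤ volume.real C := by
    have a1 := measureReal_inter_add_sdiff (μ := volume) (s := A ∩ closedBall x r) hB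
      (fin _ fun y hy => s0 hy.2)
    have a2 := hdom (Bᶜ ∩ closedBall x r) (hB.compl.inter measurableSet_closedBall)
    have a3 : μ.real (Bᶜ ∩ closedBall x r) ≤ μ.real Bᶜ := measureReal_mono inter_subset_left
    have a4 : (A ∩ closedBall x r) \ B = Bᶜ ∩ closedBall x r ∩ A := by ext; simp; tauto
    have a5 : (k + 1 : ℝ) * (r / (5 * (k + 1))) = r / 5 := by field_simp
    have a6 := mul_le_mul_of_nonneg_left (a3.trans hη) (show (0 : ℝ) ≤ k + 1 by positivity)
    rw [a4, inter_comm _ B] at a1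
    linarith
  set C' := (fun y => 2 * x + t - y) ⁻¹' C with hC'
  have hC'm : MeasurableSet C' := hCm.preimage (by fun_prop)
  have c2 : volume.real C' = volume.real C := by
    rw [Measure.real, Measure.real, hC',
      (Measure.measurePreserving_sub_left volume (2 * x + t)).measure_preimage hCm.nullMeasurableSet]
  have s2 : C' ⊆ closedBall x (3 / 2 * r) := fun y hy => by
    have a1 := hy.2.2
    rw [mem_closedBall, Real.dist_eq, abs_le] at a1 ⊢
    rw [abs_le] at ht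
    constructor <;> linarith [a1.1, a1.2, ht.1, ht.2]
  by_contra hc
  push Not at hc
  have hd : Disjoint C C' := disjoint_left.2 fun y hy hy' => hc y hy.1 _ hy'.1 (by ring)
  have c3 := measureReal_union (μ := volume) hd hC'm (fin _ s1) (fin _ s2)
  have c4 : volume.real (C ∪ C') ≤ volume.real (closedBall x (3 / 2 * r)) :=
    measureReal_mono (union_subset s1 s2) (fin _ subset_rfl)
  rw [Real.volume_real_closedBall (by positivity)] at c4
  linarith

lemma support_line {φ : ℝ → ℝ} (hφ : Continuous φ) {a b m : ℝ} (ha : a < m) (hb : m < b) :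
    ∃ s c p q : ℝ, p ∈ Icc a m ∧ q ∈ Icc m b ∧ φ p - s * (p - m) - c = 0 ∧ φ q - s * (q - m) - c = 0 ∧
      ∀ x ∈ Icc a b, 0 ≤ φ x - s * (x - m) - c := by
  set F : ℝ → ℝ → ℝ := fun s x => φ x - s * (x - m) with hF
  have hFc : Continuous ↿F := by simp only [hF]; unfold Function.HasUncurry.uncurry; fun_prop
  have hmin : ∀ s u v, u ≤ v → ∃ p ∈ Icc u v, sInf (F s '' Icc u v) = F s p ∧
      ∀ x ∈ Icc u v, F s p ≤ F s x := by
    intro s u v h
    obtain ⟨p, h1, h2, h3⟩ := isCompact_Icc.exists_sInf_image_eq_and_le (nonempty_Icc.2 h)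
      (f := F s) (by simp only [hF]; fun_prop)
    exact ⟨p, h1, h2, h3⟩
  obtain ⟨K, hK⟩ := (isCompact_Icc (a := a) (b := b)).exists_bound_of_continuousOn hφ.continuousOn
  have hK' : ∀ x ∈ Icc a b, -K ≤ φ x ∧ φ x ≤ K := fun x hx => abs_le.1 (hK x hx)
  have hK0 : 0 ≤ K := by have := hK' a ⟨le_rfl, by linarith⟩; linarith
  have hc : Continuous fun s => sInf (F s '' Icc a m) - sInf (F s '' Icc m b) :=
    (isCompact_Icc.continuous_sInf hFc).sub (isCompact_Icc.continuous_sInf hFc)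
  have h1 : sInf (F (-(2 * K / (m - a))) '' Icc a m) - sInf (F (-(2 * K / (m - a))) '' Icc m b) ≤ 0 := by
    obtain ⟨p, p1, p2, p3⟩ := hmin (-(2 * K / (m - a))) a m ha.le
    obtain ⟨q, q1, q2, -⟩ := hmin (-(2 * K / (m - a))) m b hb.le
    have a1 := p3 a ⟨le_rfl, ha.le⟩
    have a2 := hK' a ⟨le_rfl, by linarith⟩
    have a3 := hK' q ⟨by linarith [q1.1], q1.2⟩
    have a4 : 2 * K / (m - a) * (m - a) = 2 * K := div_mul_cancel₀ _ (by linarith)
    have a5 : 0 ≤ 2 * K / (m - a) * (q - m) :=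
      mul_nonneg (div_nonneg (by linarith) (by linarith)) (by linarith [q1.1])
    rw [p2, q2]
    simp only [hF] at a1 ⊢
    linarith
  have h2 : 0 ≤ sInf (F (2 * K / (b - m)) '' Icc a m) - sInf (F (2 * K / (b - m)) '' Icc m b) := by
    obtain ⟨p, p1, p2, -⟩ := hmin (2 * K / (b - m)) a m ha.le
    obtain ⟨q, q1, q2, q3⟩ := hmin (2 * K / (b - m)) m b hb.le
    have a1 := q3 b ⟨hb.le, le_rfl⟩
    have a2 := hK' b ⟨by linarith, le_rfl⟩
    have a3 := hK' p ⟨p1.1, by linarith [p1.2]⟩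
    have a4 : 2 * K / (b - m) * (b - m) = 2 * K := div_mul_cancel₀ _ (by linarith)
    have a5 : 0 ≤ 2 * K / (b - m) * (m - p) :=
      mul_nonneg (div_nonneg (by linarith) (by linarith)) (by linarith [p1.2])
    rw [p2, q2]
    simp only [hF] at a1 ⊢
    linarith
  obtain ⟨s, hs⟩ := intermediate_value_univ _ _ hc ⟨h1, h2⟩
  obtain ⟨p, p1, p2, p3⟩ := hmin s a m ha.le
  obtain ⟨q, q1, q2, q3⟩ := hmin s m b hb.le
  simp only [p2, q2] at hs
  refine ⟨s, F s p, p, q, p1, q1, sub_self _, ?_, fun x hx => ?_⟩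
  · change F s q - F s p = 0
    linarith
  · change 0 ≤ F s x - F s p
    rcases le_total x m with h | h
    · linarith [p3 x ⟨hx.1, h⟩]
    · linarith [q3 x ⟨h, hx.2⟩]

lemma split {p q m L : ℝ} (hp : p ≤ m) (hq : m ≤ q) (hL : q - p ≤ L) (N : ℕ) :
    ∃ k l : ℕ, k + l = N ∧ |k * p + l * q - N * m| ≤ L := by
  rcases (hp.trans hq).eq_or_lt with h | h
  · refine ⟨0, N, by simp, ?_⟩
    have : q = m := by linarith
    rw [this]; simp; linarith
  · have h0 : 0 < q - p := by linarith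
    have h1 : 0 ≤ N * (q - m) / (q - p) := div_nonneg (mul_nonneg (by positivity) (by linarith)) h0.le
    have h2 := Nat.floor_le h1
    have h3 := Nat.lt_floor_add_one (N * (q - m) / (q - p))
    set k := ⌊N * (q - m) / (q - p)⌋₊
    rw [le_div_iff₀ h0] at h2
    rw [div_lt_iff₀ h0] at h3
    have h4 : k ≤ N := by
      have : (k : ℝ) * (q - p) ≤ N * (q - p) :=
        h2.trans (mul_le_mul_of_nonneg_left (by linarith) (by positivity))
      exact_mod_cast le_of_mul_le_mul_right this h0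
    refine ⟨k, N - k, by omega, ?_⟩
    rw [Nat.cast_sub h4, abs_le]
    constructor <;> nlinarith

def Ach (a b : ℝ) (ψ : ℝ → ℝ) (n : ℕ) (S Φ : ℝ) : Prop :=
  ∃ x : Fin n → ℝ, (∀ i, x i ∈ Icc a b) ∧ ∑ i, x i = S ∧ ∑ i, ψ (x i) ≤ Φ

lemma Ach.add {a b : ℝ} {ψ : ℝ → ℝ} {n n' : ℕ} {S S' Φ Φ' : ℝ} (h : Ach a b ψ n S Φ)
    (h' : Ach a b ψ n' S' Φ') : Ach a b ψ (n + n') (S + S') (Φ + Φ') := by
  obtain ⟨x, x1, x2, x3⟩ := h
  obtain ⟨y, y1, y2, y3⟩ := h'
  refine ⟨Fin.append x y, fun i => ?_, ?_, ?_⟩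
  · refine Fin.addCases (fun i => ?_) (fun i => ?_) i
    · simpa using x1 i
    · simpa using y1 i
  · simp [Fin.sum_univ_add, x2, y2]
  · simp only [Fin.sum_univ_add, Fin.append_left, Fin.append_right]; linarith

lemma Ach.const {a b : ℝ} {ψ : ℝ → ℝ} (n : ℕ) {y θ : ℝ} (hy : y ∈ Icc a b) (h : ψ y ≤ θ) :
    Ach a b ψ n (n * y) (n * θ) :=
  ⟨fun _ => y, fun _ => hy, by simp, by
    simpa using mul_le_mul_of_nonneg_left h (Nat.cast_nonneg n)⟩

lemma side {μ : Measure ℝ} [IsProbabilityMeasure μ] (hac : μ ≪ volume)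
    (hi : Integrable (fun x => x) μ) : μ (Iio (∫ x, x ∂μ)) ≠ 0 ∧ μ (Ioi (∫ x, x ∂μ)) ≠ 0 := by
  have key : ¬ (∀ᵐ x ∂μ, x = ∫ x, x ∂μ) := fun h => by
    have h1 : μ {∫ x, x ∂μ} = 0 := hac (measure_singleton _)
    have h2 : ∀ᵐ x ∂μ, x ≠ ∫ x, x ∂μ := by simpa [ae_iff] using h1
    obtain ⟨x, a, b⟩ := (h.and h2).exists
    exact b a
  constructor
  · intro h
    have h1 : (fun _ => ∫ x, x ∂μ) ≤ᵐ[μ] fun x => x := by
      simp only [EventuallyLE, ae_iff, not_le]; exact h
    have := (integral_eq_iff_of_ae_le (integrable_const _) hi h1).1 (by simp)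
    exact key (this.mono fun x hx => hx.symm)
  · intro h
    have h1 : (fun x => x) ≤ᵐ[μ] fun _ => ∫ x, x ∂μ := by
      simp only [EventuallyLE, ae_iff, not_le]; exact h
    exact key ((integral_eq_iff_of_ae_le hi (integrable_const _) h1).1 (by simp))

theorem dual_ineq {μ : Measure ℝ} [IsProbabilityMeasure μ] (hac : μ ≪ volume) {a b : ℝ}
    (hab : μ (Icc a b)ᶜ = 0) : ∃ N : ℕ, 1 ≤ N ∧ ∀ n, N ≤ n → ∀ φ : ℝ →ᵇ ℝ, ∀ ε > 0,
      ∃ x : Fin n → ℝ, (∀ i, x i ∈ Icc a b) ∧ ∑ i, x i = n * ∫ x, x ∂μ ∧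
        ∑ i, φ (x i) ≤ n * (∫ x, φ x ∂μ + ε) := by
  have hae : ∀ᵐ x ∂μ, x ∈ Icc a b := hab
  have hi : Integrable (fun x => x) μ := Integrable.of_mem_Icc a b measurable_id.aemeasurable hae
  set m := ∫ x, x ∂μ with hm
  obtain ⟨s1, s2⟩ := side hac hi
  have u1 : μ (Ico a m) ≠ 0 := fun h => s1 (measure_mono_null (fun x hx => by
    by_cases h1 : x ∈ Icc a b
    · exact Or.inl ⟨h1.1, hx⟩
    · exact Or.inr h1) (measure_union_null h hab))
  have u2 : μ (Ioc m b) ≠ 0 := fun h => s2 (measure_mono_null (fun x hx => by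
    by_cases h1 : x ∈ Icc a b
    · exact Or.inl ⟨hx, h1.2⟩
    · exact Or.inr h1) (measure_union_null h hab))
  obtain ⟨x1, hx1, δ1, d1, η1, e1, P1⟩ := pair hac measurableSet_Ico u1
  obtain ⟨x2, hx2, δ2, d2, η2, e2, P2⟩ := pair hac measurableSet_Ioc u2
  have ha : a < m := by
    by_contra h
    have : Ico a m = ∅ := Ico_eq_empty h
    rw [this] at hx1; exact hx1
  have hb : m < b := lt_of_lt_of_le hx2.1 hx2.2
  have ha' : a < m := ha
  set δ := min δ1 δ2 with hδ
  set η := min η1 η2 with hη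
  have d0 : 0 < δ := lt_min d1 d2
  have e0 : 0 < η := lt_min e1 e2
  obtain ⟨j, hj⟩ := exists_nat_gt (3 * (b - a) / δ)
  have hj0 : (0 : ℝ) < j := lt_trans (div_pos (by linarith) d0) hj
  obtain ⟨N, hN⟩ := exists_nat_gt (2 * j / η)
  refine ⟨N + 2 * j + 1, by omega, fun n hn φ ε hε => ?_⟩
  obtain ⟨s, c, p, q, hp, hq, z1, z2, z3⟩ := support_line φ.continuous ha hb
  set ψ : ℝ → ℝ := fun x => φ x - s * (x - m) - c with hψ
  have iφ : Integrable φ μ := φ.integrable μ
  have i2 : Integrable (fun x => s * (x - m)) μ := (hi.sub (integrable_const _)).const_mul _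
  have iψ : Integrable ψ μ := (iφ.sub i2).sub (integrable_const _)
  have hD : ∫ x, ψ x ∂μ = ∫ x, φ x ∂μ - c := by
    simp only [hψ]
    rw [integral_sub (iφ.sub' i2) (integrable_const _), integral_sub iφ i2, integral_const_mul,
      integral_sub hi (integrable_const _)]
    simp [hm]
  have hψ0 : 0 ≤ᵐ[μ] ψ := hae.mono z3
  have hD0 : 0 ≤ ∫ x, ψ x ∂μ := integral_nonneg_of_ae hψ0
  have hn' : (N : ℝ) + 1 ≤ n := by exact_mod_cast (by omega : N + 1 ≤ n)
  have hN0 : (0 : ℝ) ≤ N := by positivity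
  set θ : ℝ := n * (∫ x, ψ x ∂μ + ε) / (2 * j) with hθ
  have θ0 : 0 < θ := div_pos (mul_pos (by linarith) (by linarith)) (by linarith)
  set B := Icc a b ∩ {x | ψ x ≤ θ} with hB
  have hBm : MeasurableSet B := measurableSet_Icc.inter
    (measurableSet_le (by simp only [hψ]; fun_prop) measurable_const)
  have hB1 : μ.real Bᶜ ≤ η := by
    have a1 := mul_meas_ge_le_integral_of_nonneg hψ0 iψ θ
    have a2 : μ.real Bᶜ ≤ μ.real {x | θ ≤ ψ x} := by
      refine ENNReal.toReal_mono (measure_ne_top _ _) (measure_mono_ae (hae.mono fun x hx h => ?_))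
      by_contra h2
      exact h ⟨hx, (not_le.1 h2).le⟩
    have a3 : ∫ x, ψ x ∂μ ≤ θ * η := by
      rw [div_lt_iff₀ e0] at hN
      rw [hθ, div_mul_eq_mul_div, le_div_iff₀ (by linarith)]
      have b1 : 2 * j ≤ n * η := by nlinarith
      nlinarith [mul_le_mul_of_nonneg_left b1 hD0, mul_pos (mul_pos (by linarith : (0 : ℝ) < n) hε) e0]
    exact a2.trans (le_of_mul_le_mul_left (a1.trans a3) θ0)
  obtain ⟨k, l, kl, h1⟩ := split hp.2 hq.1 (L := b - a) (by linarith [hp.1, hq.2]) (n - 2 * j)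
  obtain ⟨j1, j2, jj, h2⟩ := split hx1.2.le hx2.1.le (L := b - a) (by linarith [hx1.1, hx2.2]) j
  have cast1 : ((n - 2 * j : ℕ) : ℝ) = n - 2 * j := by rw [Nat.cast_sub (by omega)]; push_cast; ring
  have cast2 : (j1 : ℝ) + j2 = j := by exact_mod_cast jj
  rw [cast1] at h1
  set t : ℝ := (n * m - (k * p + l * q) - 2 * (j1 * x1 + j2 * x2)) / j with ht
  have ht1 : |t| ≤ δ := by
    rw [ht, abs_div, abs_of_pos hj0, div_le_iff₀ hj0]
    rw [div_lt_iff₀ d0] at hj
    rw [abs_le] at h1 h2 ⊢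
    constructor <;> linarith [h1.1, h1.2, h2.1, h2.2]
  obtain ⟨y1, b1, y1', b1', c1⟩ := P1 B hBm (hB1.trans (min_le_left _ _)) t (ht1.trans (min_le_left _ _))
  obtain ⟨y2, b2, y2', b2', c2⟩ := P2 B hBm (hB1.trans (min_le_right _ _)) t
    (ht1.trans (min_le_right _ _))
  have A := (((((Ach.const (ψ := ψ) k ⟨hp.1, hp.2.trans hb.le⟩ z1.le).add
    (Ach.const l ⟨ha.le.trans hq.1, hq.2⟩ z2.le)).add (Ach.const j1 b1.1 b1.2)).add
    (Ach.const j1 b1'.1 b1'.2)).add (Ach.const j2 b2.1 b2.2)).add (Ach.const j2 b2'.1 b2'.2)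
  rw [show k + l + j1 + j1 + j2 + j2 = n by omega] at A
  obtain ⟨x, r1, r2, r3⟩ := A
  have r4 : ∑ i, x i = n * m := by
    have e : t * j = n * m - (k * p + l * q) - 2 * (j1 * x1 + j2 * x2) := by
      rw [ht]; field_simp
    rw [r2]
    linear_combination j1 * c1 + j2 * c2 + e + t * cast2
  refine ⟨x, r1, r4, ?_⟩
  have e2 : ∑ i, ψ (x i) = ∑ i, φ (x i) - n * c := by
    simp only [hψ, Finset.sum_sub_distrib, ← Finset.mul_sum, r4]
    simp
  have e3 : θ * (2 * j) = n * (∫ x, ψ x ∂μ + ε) := by rw [hθ]; field_simp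
  rw [e2] at r3
  rw [hD, ← cast2] at e3
  linarith

theorem main (μ : Measure ℝ) [IsProbabilityMeasure μ] (hac : μ ≪ volume) {a b : ℝ}
    (hab : μ (Icc a b)ᶜ = 0) : ∃ N : ℕ, ∀ n : ℕ, N ≤ n →
      ∃ ν : Measure (Fin n → ℝ), IsProbabilityMeasure ν ∧
        (∀ i : Fin n, ν.map (fun x => x i) = μ) ∧ ∃ c : ℝ, ∀ᵐ x ∂ν, ∑ i, x i = c := by
  obtain ⟨N, hN, h⟩ := dual_ineq hac hab
  refine ⟨N, fun n hn => ?_⟩
  have : NeZero n := ⟨by omega⟩
  have hn' : (0 : ℝ) < n := by exact_mod_cast (by omega : 0 < n)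
  set H : Set (Fin n → ℝ) := (univ.pi fun _ => Icc a b) ∩ {x | ∑ i, x i = n * ∫ x, x ∂μ} with hH
  have hc : IsCompact H := (isCompact_univ_pi fun _ => isCompact_Icc).inter_right
    (isClosed_eq (by fun_prop) continuous_const)
  have : CompactSpace H := isCompact_iff_compactSpace.1 hc
  let T : (Fin n → ℝ →ᵇ ℝ) →ₗ[ℝ] C(H, ℝ) :=
    { toFun := fun φ => ⟨fun x => ∑ i, φ i (x.1 i), continuous_finsetSum _ fun i _ =>
        (φ i).continuous.comp ((continuous_apply i).comp continuous_subtype_val)⟩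
      map_add' := fun φ φ' => by ext x; simp [Finset.sum_add_distrib]
      map_smul' := fun c φ => by ext x; simp [Finset.mul_sum] }
  let L : (Fin n → ℝ →ᵇ ℝ) →ₗ[ℝ] ℝ :=
    { toFun := fun φ => ∑ i, ∫ x, φ i x ∂μ
      map_add' := fun φ φ' => by
        rw [← Finset.sum_add_distrib]
        exact Finset.sum_congr rfl fun i _ => integral_add ((φ i).integrable μ) ((φ' i).integrable μ)
      map_smul' := fun c φ => by
        simp only [RingHom.id_apply, smul_eq_mul, Finset.mul_sum, ← integral_const_mul]; rfl }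
  obtain ⟨ν, h1, h2⟩ := Dual.exists_measure T L fun φ ε hε => by
    obtain ⟨x, x1, x2, x3⟩ := h n hn (-∑ i, φ i) ε hε
    have e1 : ∫ y, (-∑ i, φ i) y ∂μ = -L φ := by
      simp only [BoundedContinuousFunction.coe_neg, BoundedContinuousFunction.coe_sum, Pi.neg_apply,
        Finset.sum_apply, integral_neg]
      rw [integral_finsetSum _ fun i _ => (φ i).integrable μ]; rfl
    have e2 : ∑ j, (-∑ i, φ i) (x j) = -∑ c : Fin n, ∑ i, φ i (x (i + c)) := by
      simp only [BoundedContinuousFunction.coe_neg, BoundedContinuousFunction.coe_sum, Pi.neg_apply,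
        Finset.sum_apply, Finset.sum_neg_distrib, neg_inj]
      rw [Finset.sum_comm, Finset.sum_comm (f := fun c i => φ i (x (i + c)))]
      exact Finset.sum_congr rfl fun i _ => (Equiv.sum_comp (Equiv.addLeft i) fun j => φ i (x j)).symm
    rw [e1, e2] at x3
    have h3 : ∑ _c : Fin n, (L φ - ε) ≤ ∑ c : Fin n, ∑ i, φ i (x (i + c)) := by
      simp only [Finset.sum_const, Finset.card_univ, Fintype.card_fin, nsmul_eq_mul]
      linarith
    obtain ⟨c, -, hc⟩ := Finset.exists_le_of_sum_le Finset.univ_nonempty h3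
    refine ⟨⟨fun i => x (i + c), fun i _ => x1 _, ?_⟩, ?_⟩
    · rw [mem_ofPred_eq, ← x2]
      exact Equiv.sum_comp (Equiv.addRight c) x
    · change _ ≤ ∑ i, φ i (x (i + c)) + ε
      linarith
  refine ⟨ν.map Subtype.val, Measure.isProbabilityMeasure_map measurable_subtype_coe.aemeasurable,
    fun i => ?_, n * ∫ x, x ∂μ, ?_⟩
  · rw [Measure.map_map (by fun_prop) measurable_subtype_coe]
    refine ext_of_forall_integral_eq_of_IsFiniteMeasure fun f => ?_
    rw [integral_map ((measurable_pi_apply i).comp measurable_subtype_coe).aemeasurable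
      f.continuous.aestronglyMeasurable]
    have := h2 (Pi.single i f)
    simp only [T, L, LinearMap.coe_mk, AddHom.coe_mk, ContinuousMap.coe_mk] at this
    rw [Finset.sum_eq_single i (fun j _ hj => by simp [Pi.single_eq_of_ne hj]) (by simp)] at this
    simp only [Pi.single_eq_same] at this
    rw [← this]
    refine integral_congr_ae (ae_of_all _ fun x => ?_)
    simp only [Function.comp]
    rw [Finset.sum_eq_single i (fun j _ hj => by simp [Pi.single_eq_of_ne hj]) (by simp)]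
    simp
  · rw [ae_map_iff measurable_subtype_coe.aemeasurable
      (measurableSet_eq_fun (by fun_prop) measurable_const)]
    exact ae_of_all _ fun x => x.2.2

end Pool.Agent.H32.CM
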