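import Pool.Agent.H32.EntInno

set_option autoImplicit false

namespace Pool.Agent.H32.Join

open Filter Topology MeasureTheory
open scoped ENNReal BoundedContinuousFunction

lemma cesaro {X : Type} [TopologicalSpace X] [PolishSpace X] [MeasurableSpace X] [BorelSpace X]
    (μ ν : Measure X) [IsProbabilityMeasure μ] [IsProbabilityMeasure ν] {T : X → X}
    (hT : Continuous T) (hμ : MeasurePreserving T μ μ) (hν : MeasurePreserving T ν ν)
    (ξ : ℕ → Measure (X × X)) [∀ N, IsProbabilityMeasure (ξ N)]
    (h1 : ∀ N, (ξ N).map Prod.fst = μ) (h2 : ∀ N, (ξ N).map Prod.snd = ν) :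
    ∃ ζ : Measure (X × X), IsProbabilityMeasure ζ ∧ MeasurePreserving (Prod.map T T) ζ ζ ∧
      ζ.map Prod.fst = μ ∧ ζ.map Prod.snd = ν ∧ ∀ (f : X × X →ᵇ ℝ) (c r : ℝ), 0 ≤ r →
        (∀ ε > 0, ∃ K, ∀ N j, j + K ≤ N → |∫ p, f ((Prod.map T T)^[j] p) ∂ξ N - c| ≤ r + ε) →
        |∫ p, f p ∂ζ - c| ≤ r := by
  set S := Prod.map T T with hS
  have cS : Continuous S := hT.prodMap hT
  have mS : ∀ j, Measurable S^[j] := fun j => cS.measurable.iterate j
  have pj : ∀ N j, IsProbabilityMeasure ((ξ N).map S^[j]) := fun N j =>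
    Measure.isProbabilityMeasure_map (mS j).aemeasurable
  let av : ℕ → Measure (X × X) := fun N =>
    ((N + 1 : ℕ) : ℝ≥0∞)⁻¹ • ∑ j ∈ Finset.range (N + 1), (ξ N).map S^[j]
  have cst : ∀ (N : ℕ) {Y : Type} [MeasurableSpace Y] (m : Measure Y),
      ((N + 1 : ℕ) : ℝ≥0∞)⁻¹ • ∑ _j ∈ Finset.range (N + 1), m = m := fun N Y _ m => by
    rw [Finset.sum_const, Finset.card_range, ← Nat.cast_smul_eq_nsmul ℝ≥0∞, smul_smul,
      ENNReal.inv_mul_cancel (by simp) (by simp), one_smul]
  have mp : ∀ N (g : X × X → X) (m : Measure X), Measurable g → (ξ N).map g = m →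
      MeasurePreserving T m m → (∀ j, g ∘ S^[j] = T^[j] ∘ g) → (av N).map g = m := by
    intro N g m hg e hm hc
    rw [Measure.map_smul, Measure.map_finset_sum hg.aemeasurable,
      Finset.sum_congr rfl (g := fun _ => m) fun j _ => ?_, cst]
    rw [Measure.map_map hg (mS j), hc, ← Measure.map_map (hm.iterate j).measurable hg, e,
      (hm.iterate j).map_eq]
  have a1 : ∀ N, (av N).map Prod.fst = μ := fun N => mp N _ _ measurable_fst (h1 N) hμ fun j => by
    rw [hS, Prod.map_iterate]; rfl
  have a2 : ∀ N, (av N).map Prod.snd = ν := fun N => mp N _ _ measurable_snd (h2 N) hν fun j => by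
    rw [hS, Prod.map_iterate]; rfl
  have pa : ∀ N, IsProbabilityMeasure (av N) := fun N => ⟨by
    have := congrArg (fun m : Measure X => m Set.univ) (a1 N)
    simpa [Measure.map_apply measurable_fst] using this⟩
  let P : ℕ → ProbabilityMeasure (X × X) := fun N => ⟨av N, pa N⟩
  have hint : ∀ (f : X × X →ᵇ ℝ) N, ∫ p, f p ∂av N =
      (∑ j ∈ Finset.range (N + 1), ∫ p, f (S^[j] p) ∂ξ N) / (N + 1) := by
    intro f N
    rw [integral_smul_measure, integral_finsetSum_measure fun j _ => f.integrable _,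
      Finset.sum_congr rfl fun j _ => integral_map (mS j).aemeasurable
        f.continuous.aestronglyMeasurable]
    simp only [ENNReal.toReal_inv, ENNReal.toReal_natCast, smul_eq_mul]
    push_cast
    ring
  have hb : ∀ (f : X × X →ᵇ ℝ) N j, |∫ p, f (S^[j] p) ∂ξ N| ≤ ‖f‖ := fun f N j => by
    simpa using norm_integral_le_of_norm_le_const (μ := ξ N) (f := fun p => f (S^[j] p))
      (ae_of_all _ fun p => f.norm_coe_le_norm _)
  have ht : IsTightMeasureSet {((m : ProbabilityMeasure (X × X)) : Measure (X × X)) |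
      m ∈ Set.range P} := by
    refine IsTightMeasureSet.prodMk ((isTightMeasureSet_singleton (μ := μ)).subset ?_)
      ((isTightMeasureSet_singleton (μ := ν)).subset ?_)
    · rintro - ⟨-, ⟨-, ⟨N, rfl⟩, rfl⟩, rfl⟩
      exact a1 N
    · rintro - ⟨-, ⟨-, ⟨N, rfl⟩, rfl⟩, rfl⟩
      exact a2 N
  obtain ⟨ζ, -, hζ⟩ := (isCompact_closure_of_isTightMeasureSet ht).ultrafilter_le_nhds
    ((hyperfilter ℕ).map P) (by
      rw [Ultrafilter.coe_map, le_principal_iff, mem_map]
      exact Eventually.of_forall fun N => subset_closure ⟨N, rfl⟩)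
  have hl : ∀ f : X × X →ᵇ ℝ, Tendsto (fun N => ∫ p, f p ∂av N) (hyperfilter ℕ)
      (𝓝 (∫ p, f p ∂(ζ : Measure (X × X)))) :=
    ProbabilityMeasure.tendsto_iff_forall_integral_tendsto.1 (hζ : Tendsto P _ _)
  have h0 : ∀ C : ℝ, Tendsto (fun N : ℕ => C / ((N : ℝ) + 1)) (hyperfilter ℕ) (𝓝 0) := fun C =>
    (tendsto_const_nhds.div_atTop (tendsto_natCast_atTop_atTop.atTop_add tendsto_const_nhds)).mono_left
      Nat.hyperfilter_le_atTop
  have mg : ∀ (g : X × X → X) (m : Measure X) [IsProbabilityMeasure m], Continuous g →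
      (∀ N, (av N).map g = m) → (ζ : Measure (X × X)).map g = m := by
    intro g m _ hg e
    have := Measure.isProbabilityMeasure_map (μ := (ζ : Measure (X × X))) hg.measurable.aemeasurable
    refine ext_of_forall_integral_eq_of_IsFiniteMeasure fun f => ?_
    rw [integral_map hg.measurable.aemeasurable f.continuous.aestronglyMeasurable]
    refine tendsto_nhds_unique (hl (f.compContinuous ⟨g, hg⟩)) (tendsto_const_nhds.congr fun N => ?_)
    rw [← e N, integral_map hg.measurable.aemeasurable f.continuous.aestronglyMeasurable]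
    rfl
  refine ⟨ζ, inferInstance, ⟨cS.measurable, ?_⟩, mg _ _ continuous_fst a1, mg _ _ continuous_snd a2,
    fun f c r hr h => ?_⟩
  · have := Measure.isProbabilityMeasure_map (μ := (ζ : Measure (X × X))) cS.measurable.aemeasurable
    refine ext_of_forall_integral_eq_of_IsFiniteMeasure fun f => ?_
    rw [integral_map cS.measurable.aemeasurable f.continuous.aestronglyMeasurable]
    refine sub_eq_zero.1 (tendsto_nhds_unique ((hl (f.compContinuous ⟨S, cS⟩)).sub (hl f))
      (squeeze_zero_norm (fun N => ?_) (h0 (2 * ‖f‖))))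
    rw [hint, hint, ← sub_div, ← Finset.sum_sub_distrib, norm_div, Real.norm_eq_abs, Real.norm_eq_abs,
      abs_of_pos (a := (N : ℝ) + 1) (by positivity)]
    have := Finset.sum_range_sub (fun j => ∫ p, f (S^[j] p) ∂ξ N) (N + 1)
    simp only [Function.iterate_succ_apply'] at this
    refine div_le_div_of_nonneg_right ((congrArg _ this).trans_le ((abs_sub _ _).trans ?_))
      (by positivity)
    have k1 := hb f N (N + 1)
    have k2 := hb f N 0
    simp only [Function.iterate_succ_apply'] at k1
    linarith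
  · refine le_of_forall_pos_le_add fun ε hε => ?_
    obtain ⟨K, hK⟩ := h ε hε
    refine le_of_tendsto_of_tendsto' ((hl f).sub_const c).abs
      (by simpa using (h0 (K * (‖f‖ + |c|))).const_add (r + ε)) fun N => ?_
    have hN : (0 : ℝ) < N + 1 := by positivity
    rw [hint, div_sub' hN.ne', abs_div, abs_of_pos hN, div_le_iff₀ hN, add_mul (r + ε),
      div_mul_cancel₀ _ hN.ne']
    have e : ((N : ℝ) + 1) * c = ∑ _j ∈ Finset.range (N + 1), c := by simp
    rw [e, ← Finset.sum_sub_distrib]
    refine (Finset.abs_sum_le_sum_abs _ _).trans ((Finset.sum_le_sum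
      (g := fun j => r + ε + if N < j + K then ‖f‖ + |c| else 0) fun j _ => ?_).trans ?_)
    · split_ifs with hj
      · exact (abs_sub _ _).trans (by linarith [hb f N j])
      · exact (hK N j (by omega)).trans (by simp)
    · rw [Finset.sum_add_distrib, ← Finset.sum_filter]
      have : ((Finset.range (N + 1)).filter fun j => N < j + K).card ≤ K := by
        refine (Finset.card_le_card (t := Finset.Ico (N + 1 - K) (N + 1)) fun j hj => ?_).trans
          (by simp; omega)
        simp only [Finset.mem_filter, Finset.mem_range, Finset.mem_Ico] at hj ⊢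
        omega
      simp only [Finset.sum_const, Finset.card_range, nsmul_eq_mul]
      push_cast
      rw [mul_comm]
      gcongr

end Pool.Agent.H32.Join
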