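import Mathlib

set_option autoImplicit false

namespace Pool.Agent.H32.Cheb

open Finset

variable {E X ι : Type} [Fintype E] [DecidableEq E] [Fintype X]

lemma exp_prod (w : E → X → ℝ) (hw1 : ∀ e, ∑ x, w e x = 1) (f : E → X → ℝ) (S : Finset E) :
    ∑ ω : E → X, (∏ e, w e (ω e)) * ∏ e ∈ S, f e (ω e) = ∏ e ∈ S, ∑ x, w e x * f e x := by
  have h1 : ∀ ω : E → X, (∏ e, w e (ω e)) * ∏ e ∈ S, f e (ω e) =
      ∏ e, w e (ω e) * if e ∈ S then f e (ω e) else 1 := fun ω => by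
    rw [prod_mul_distrib, prod_ite_mem, univ_inter]
  simp only [h1]
  rw [← Fintype.piFinset_univ, ← prod_univ_sum (fun _ => univ)
    fun e x => w e x * if e ∈ S then f e x else 1, ← prod_subset (subset_univ S)]
  · exact prod_congr rfl fun e he => by simp [he]
  · intro e _ he
    simp [he, hw1]

lemma total (w : E → X → ℝ) (hw1 : ∀ e, ∑ x, w e x = 1) : ∑ ω : E → X, ∏ e, w e (ω e) = 1 := by
  simpa using exp_prod w hw1 w ∅

lemma cheb (w : E → X → ℝ) (hw0 : ∀ e x, 0 ≤ w e x) (hw1 : ∀ e, ∑ x, w e x = 1) (f : E → X → ℝ)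
    (hf : ∀ e x, f e x * f e x = f e x) (s : Finset ι) (S : ι → Finset E)
    (hS : ∀ i ∈ s, ∀ j ∈ s, i ≠ j → Disjoint (S i) (S j)) {m t : ℝ}
    (hm : ∑ i ∈ s, ∏ e ∈ S i, ∑ x, w e x * f e x ≤ m) (ht : 0 < t)
    (A : (E → X) → Prop) [DecidablePred A] (hA : ∀ ω, A ω → m + t ≤ ∑ i ∈ s, ∏ e ∈ S i, f e (ω e)) :
    ∑ ω : E → X, (if A ω then ∏ e, w e (ω e) else 0) ≤ m / t ^ 2 := by
  classical
  set a : ι → ℝ := fun i => ∏ e ∈ S i, ∑ x, w e x * f e x with ha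
  set W : (E → X) → ℝ := fun ω => ∏ e, w e (ω e) with hW
  set Z : ι → (E → X) → ℝ := fun i ω => ∏ e ∈ S i, f e (ω e) with hZ
  have W0 : ∀ ω, 0 ≤ W ω := fun ω => prod_nonneg fun e _ => hw0 e _
  have W1 : ∑ ω, W ω = 1 := total w hw1
  have e1 : ∀ i, ∑ ω, W ω * Z i ω = a i := fun i => exp_prod w hw1 f (S i)
  have e2 : ∀ i ∈ s, ∀ j ∈ s, ∑ ω, W ω * (Z i ω * Z j ω) ≤ a i * a j + if i = j then a i else 0 := by
    intro i hi j hj
    split_ifs with h
    · subst h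
      have : ∀ ω, Z i ω * Z i ω = Z i ω := fun ω => by
        simp only [hZ, ← prod_mul_distrib, hf]
      simp only [this, e1]
      nlinarith [mul_self_nonneg (a i)]
    · have : ∀ ω, Z i ω * Z j ω = ∏ e ∈ S i ∪ S j, f e (ω e) := fun ω =>
        (prod_union (hS i hi j hj h)).symm
      simp only [this, hW]
      rw [exp_prod w hw1, prod_union (hS i hi j hj h), add_zero]
  set μ := ∑ i ∈ s, a i with hμ
  have e3 : ∑ ω, W ω * (∑ i ∈ s, Z i ω) = μ := by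
    simp only [mul_sum]
    rw [sum_comm]
    simp only [e1, hμ]
  have e4 : ∑ ω, W ω * ((∑ i ∈ s, Z i ω) * ∑ i ∈ s, Z i ω) ≤ μ * μ + μ := by
    simp only [sum_mul_sum]
    simp only [mul_sum]
    rw [sum_comm]
    refine (sum_le_sum fun i hi => (sum_comm.trans_le (sum_le_sum fun j hj => e2 i hi j hj))).trans ?_
    simp only [sum_add_distrib, sum_ite_eq, ← mul_sum, ← sum_mul]
    rw [sum_congr rfl fun i hi => if_pos hi]
  have e5 : ∑ ω, W ω * ((∑ i ∈ s, Z i ω) - μ) ^ 2 ≤ m := by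
    have : ∀ ω, W ω * ((∑ i ∈ s, Z i ω) - μ) ^ 2 = W ω * ((∑ i ∈ s, Z i ω) * ∑ i ∈ s, Z i ω) -
        2 * μ * (W ω * ∑ i ∈ s, Z i ω) + μ * μ * W ω := fun ω => by ring
    simp only [this, sum_add_distrib, sum_sub_distrib, ← mul_sum, e3, W1]
    linarith
  rw [le_div_iff₀ (by positivity), sum_mul]
  refine le_trans (sum_le_sum fun ω _ => ?_) e5
  split_ifs with h
  · have h1 := hA ω h
    exact mul_le_mul_of_nonneg_left (pow_le_pow_left₀ ht.le (by linarith) 2) (W0 ω)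
  · rw [zero_mul]
    exact mul_nonneg (W0 ω) (sq_nonneg _)

end Pool.Agent.H32.Cheb
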