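import Mathlib

open Set
open Cardinal hiding univ

namespace Pool.Agent.H32.Clo

/-- closing a countable set under continuum many operations of countable arity -/
lemma clo {Y I : Type} (hI : #I ≤ 𝔠) (e : ℕ → Y) (op : I → (ℕ → Y) → Y) :
    ∃ Z : Set Y, #Z ≤ 𝔠 ∧ (∀ n, e n ∈ Z) ∧ ∀ i x, (∀ n, x n ∈ Z) → op i x ∈ Z := by
  let β : ℕ ⊕ I → Type := Sum.elim (fun _ => Empty) fun _ => ℕ
  let ev : WType β → Y := WType.elim Y fun
    | ⟨.inl n, _⟩ => e n
    | ⟨.inr i, f⟩ => op i f
  refine ⟨range ev, mk_range_le.trans (WType.cardinalMk_le_of_le ?_),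
    fun n => ⟨WType.mk (.inl n) Empty.elim, rfl⟩, fun i x h => ?_⟩
  · refine (sum_le_sum _ (fun _ => 𝔠) fun a => ?_).trans ?_
    · refine (power_le_power_left continuum_ne_zero (show _ ≤ ℵ₀ from ?_)).trans_eq
        continuum_power_aleph0
      rcases a with a | a <;> simp [β]
    · rw [sum_const', mk_sum, lift_id, lift_id, mk_nat]
      exact (mul_le_mul_left (add_le_add aleph0_le_continuum hI) _).trans (by simp)
  · choose t ht using h
    exact ⟨WType.mk (.inr i) t, congrArg (op i) (funext ht)⟩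

end Pool.Agent.H32.Clo
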