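import Mathlib

open Set Filter Topology TopologicalSpace

namespace Pool.Agent.H32.CoSob

/-- saturated compact -/
def KS {X : Type} [TopologicalSpace X] (K : Set X) : Prop :=
  IsCompact K ∧ K = ⋂₀ {U | IsOpen U ∧ K ⊆ U}

lemma sat_iff {X : Type} [TopologicalSpace X] (K : Set X) :
    K = ⋂₀ {U | IsOpen U ∧ K ⊆ U} ↔ ∀ x ∈ K, ∀ y, x ∈ closure {y} → y ∈ K := by
  constructor
  · intro h x hx y hy
    rw [h]
    intro U hU
    obtain ⟨z, hz, rfl⟩ := mem_closure_iff.1 hy U hU.1 (hU.2 hx)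
    exact hz
  · intro h
    refine Subset.antisymm (fun x hx U hU => hU.2 hx) fun y hy => by_contra fun hc => ?_
    exact hy (closure {y})ᶜ ⟨isClosed_closure.isOpen_compl, fun x hx h' => hc (h x hx y h')⟩
      (subset_closure rfl)

abbrev M := ℕ → Bool

open Classical in
noncomputable def φ (x : M) : M := fun n => decide (∃ᶠ k in atTop, x (Nat.pair n k) = true)

lemma φ_surj {W : Set M} (hW : IsOpen W) {x : M} (hx : x ∈ W) (p : M) : ∃ r ∈ W, φ r = p := by
  let g : ℕ → M := fun L i => if i < L then x i else p i.unpair.1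
  have lim : Tendsto g atTop (𝓝 x) := by
    refine tendsto_pi_nhds.2 fun i => tendsto_const_nhds.congr' ?_
    filter_upwards [eventually_gt_atTop i] with L hL
    simp [g, hL]
  obtain ⟨L, hL⟩ := (lim.eventually (hW.mem_nhds hx)).exists
  refine ⟨g L, hL, funext fun n => ?_⟩
  have : ∀ᶠ k in atTop, g L (Nat.pair n k) = p n := by
    filter_upwards [eventually_ge_atTop L] with k hk
    have := Nat.right_le_pair n k
    simp [g, not_lt.2 (hk.trans this)]
  cases h : p n
  · rw [h] at this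
    simp only [φ, decide_eq_false_iff_not, not_frequently]
    exact this.mono fun k hk => by simp [hk]
  · rw [h] at this
    simp only [φ, decide_eq_true_eq]
    exact this.frequently

def conv (C : Set M) (r : M) : Prop := ∀ W ∈ 𝓝 r, (C \ W).Finite

def sub (p : M) : Set (Set M) :=
  {O | (∃ q, O = {q}ᶜ) ∨ ∃ C r, conv C r ∧ φ r = p ∧ p ∈ C ∧ O = Cᶜ}

@[reducible] def τ (p : M) : TopologicalSpace M := generateFrom (sub p)

@[reducible] def τs : TopologicalSpace M := ⨅ p, τ p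

lemma le_τ {f : Filter M} {p x : M} : f ≤ @nhds M (τ p) x ↔ ∀ O ∈ sub p, x ∈ O → O ∈ f :=
  tendsto_nhds_generateFrom_iff (m := id)

lemma t1 (p : M) : @T1Space M (τ p) :=
  @T1Space.mk M (τ p) fun q => @IsClosed.mk M (τ p) _ (isOpen_generateFrom_of_mem (Or.inl ⟨q, rfl⟩))

lemma ulim (U : Ultrafilter M) (hU : (U : Filter M) ≤ cofinite) {r : M} (hr : (U : Filter M) ≤ 𝓝 r)
    (p x : M) (h : φ r = p → x = p) : (U : Filter M) ≤ @nhds M (τ p) x := by
  refine le_τ.2 ?_
  rintro O (⟨q, rfl⟩ | ⟨C, r', h1, h2, h3, rfl⟩) hx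
  · exact hU (by simp)
  · refine Ultrafilter.compl_mem_iff_notMem.2 fun hC => ?_
    have : (U : Filter M) ≤ 𝓝 r' := fun W hW => by
      filter_upwards [hC, hU (h1 W hW).compl_mem_cofinite] with y a b
      by_contra hc
      exact b ⟨a, hc⟩
    rw [← tendsto_nhds_unique (f := id) hr this] at h2
    exact hx (h h2 ▸ h3)

lemma cpt_univ : @IsCompact M τs univ := by
  let _ := τs
  refine isCompact_iff_ultrafilter_le_nhds.2 fun U _ => ?_
  rcases U.le_cofinite_or_eq_pure with hU | ⟨a, rfl⟩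
  · obtain ⟨r, -, hr⟩ := (@isCompact_iff_ultrafilter_le_nhds M Pi.topologicalSpace _).1
      (@isCompact_univ M Pi.topologicalSpace _) U (by simp)
    refine ⟨φ r, trivial, ?_⟩
    rw [nhds_iInf]
    exact le_iInf fun p => @ulim U hU r hr p _ id
  · exact ⟨a, trivial, pure_le_nhds a⟩

lemma acc {K W : Set M} (hW : IsOpen W) (hK : W ⊆ closure K) {r : M} (hr : r ∈ W) :
    ∃ s : ℕ → M, (∀ n, s n ∈ K \ {r}) ∧ Tendsto s atTop (𝓝 r) := by
  refine mem_closure_iff_seq_limit.1 (mem_closure_iff.2 fun O hO hrO => ?_)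
  obtain ⟨y, hy, e⟩ := φ_surj (hO.inter hW) ⟨hrO, hr⟩ fun n => !φ r n
  have hne : y ≠ r := fun h => by
    have := congrFun e 0
    rw [h] at this
    simp at this
  obtain ⟨z, ⟨z1, z2⟩, z3⟩ := mem_closure_iff.1 (hK hy.2) _ (hO.inter isOpen_compl_singleton)
    ⟨hy.1, hne⟩
  exact ⟨z, z1, z3, z2⟩

lemma small {K : Set M} (hK : @IsCompact M τs K) {p : M} (hp : p ∉ K) :
    interior (closure K) = ∅ := by
  refine eq_empty_of_forall_notMem fun x hx => ?_
  obtain ⟨r, hr, e⟩ := φ_surj isOpen_interior hx p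
  obtain ⟨s, hs, lim⟩ := acc isOpen_interior interior_subset hr
  obtain ⟨y, hy, hle⟩ := (@isCompact_iff_ultrafilter_le_nhds M τs _).1 hK
    ((hyperfilter ℕ).map s) (le_principal_iff.2 (mem_map.2 (univ_mem' fun n => (hs n).1)))
  rw [nhds_iInf] at hle
  have h1 := le_τ.1 (hle.trans (iInf_le _ p)) (insert p (range s \ {y}))ᶜ
    (Or.inr ⟨_, r, fun W hW => ?_, e, mem_insert _ _, rfl⟩) (by
      rintro (h | h)
      · exact hp (h ▸ hy)
      · exact h.2 rfl)
  · have h2 : ∀ᶠ n in atTop, s n ≠ y := by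
      by_cases hyr : y = r
      · exact Eventually.of_forall fun n => hyr ▸ (hs n).2
      · exact lim.eventually_ne (Ne.symm hyr)
    rw [← Nat.cofinite_eq_atTop] at h2
    obtain ⟨n, a, b⟩ := (Filter.Eventually.and (f := (hyperfilter ℕ : Filter ℕ))
      (p := fun n => s n ∈ (insert p (range s \ {y}))ᶜ) h1 (hyperfilter_le_cofinite h2)).exists
    exact a (Or.inr ⟨⟨n, rfl⟩, b⟩)
  · have h2 : {n | s n ∉ W}.Finite := by
      have := lim hW
      rw [← Nat.cofinite_eq_atTop] at this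
      exact this
    refine ((h2.image s).insert p).subset ?_
    rintro z ⟨rfl | ⟨⟨n, rfl⟩, -⟩, hz⟩
    · exact Or.inl rfl
    · exact Or.inr ⟨n, hz, rfl⟩

lemma irr {K L : Set M} (hK : @IsCompact M τs K) (hL : @IsCompact M τs L) (h : K ∪ L = univ) :
    K = univ ∨ L = univ := by
  by_contra hc
  push Not at hc
  obtain ⟨p, hp⟩ := (ne_univ_iff_exists_notMem _).1 hc.1
  obtain ⟨q, hq⟩ := (ne_univ_iff_exists_notMem _).1 hc.2
  have h1 := small hK hp
  have h2 := small hL hq
  have h3 : (closure K)ᶜ ⊆ interior (closure L) :=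
    interior_maximal (fun x hx => subset_closure (((eq_univ_iff_forall.1 h) x).resolve_left
      fun h => hx (subset_closure h))) isClosed_closure.isOpen_compl
  rw [h2, subset_empty_iff, compl_empty_iff] at h3
  rw [h3, interior_univ] at h1
  exact univ_nonempty.ne_empty h1

lemma rem {p q : M} (hq : q ≠ p) {K : Set M} (hK : @IsCompact M (τ p) K) (hne : (K \ {q}).Nonempty) :
    @IsCompact M (τ p) (K \ {q}) := by
  refine (@isCompact_iff_ultrafilter_le_nhds M (τ p) _).2 fun U hU => ?_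
  rcases U.le_cofinite_or_eq_pure with hc | ⟨a, rfl⟩
  · obtain ⟨r, -, hr⟩ := isCompact_iff_ultrafilter_le_nhds.1 isCompact_univ U (by simp)
    by_cases hp : p ∈ K
    · exact ⟨p, ⟨hp, Ne.symm hq⟩, ulim U hc hr p p fun _ => rfl⟩
    · obtain ⟨x, hx, hle⟩ := (@isCompact_iff_ultrafilter_le_nhds M (τ p) _).1 hK U
        (hU.trans (principal_mono.2 sdiff_subset))
      obtain ⟨z, hz⟩ := hne
      refine ⟨z, hz, le_τ.2 ?_⟩
      rintro O (⟨q, rfl⟩ | ⟨C, r', h1, h2, h3, rfl⟩) hx'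
      · exact hc (by simp)
      · have := le_τ.1 hle (C \ {x})ᶜ (Or.inr ⟨_, r', fun W hW => (h1 W hW).subset
          (sdiff_subset_sdiff_left sdiff_subset), h2, ⟨h3, fun e : p = x => hp (e ▸ hx)⟩, rfl⟩)
          fun h => h.2 rfl
        filter_upwards [this, hc (finite_singleton x).compl_mem_cofinite] with y a b h
        exact a ⟨h, b⟩
  · exact ⟨a, le_principal_iff.1 hU, @pure_le_nhds M (τ p) a⟩

end Pool.Agent.H32.CoSob
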