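import Pool.Agent.H32.PCA

set_option autoImplicit false
set_option linter.unusedSectionVars false
open MeasureTheory ProbabilityTheory Filter Topology
open scoped ENNReal

namespace Pool.Agent.H32.PCA

lemma convex_zero (w : ℕ → ℝ) (h0 : w 0 ≤ 0) (hb0 : ∀ l, 0 ≤ w l) (hb : ∀ l, w l ≤ 1)
    (hc : ∀ l, 2 * w (l + 1) ≤ w l + w (l + 2)) (l : ℕ) : w l ≤ 0 := by
  have hd : ∀ l, w (l + 1) - w l ≤ 0 := by
    intro l
    by_contra hpos
    push Not at hpos
    have h1 : ∀ n : ℕ, w (l + 1) - w l ≤ w (l + n + 1) - w (l + n) := by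
      intro n
      induction n with
      | zero => simp
      | succ n ih =>
        have := hc (l + n)
        have e1 : l + (n + 1) + 1 = l + n + 2 := by ring
        have e2 : l + (n + 1) = l + n + 1 := by ring
        rw [e1, e2]
        linarith
    have h2 : ∀ n : ℕ, n * (w (l + 1) - w l) ≤ w (l + n) := by
      intro n
      induction n with
      | zero => simpa using hb0 l
      | succ n ih =>
        have := h1 n
        have e2 : l + (n + 1) = l + n + 1 := by ring
        rw [e2]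
        push_cast
        linarith
    obtain ⟨n, hn⟩ := exists_nat_gt (1 / (w (l + 1) - w l))
    rw [div_lt_iff₀ hpos] at hn
    linarith [h2 n, hb (l + n)]
  induction l with
  | zero => exact h0
  | succ l ih => linarith [hd l]

lemma conv_lemma {J : Type} (W E : ℕ → J → ℤ → ℕ → ℝ) (h0 : ∀ t j a, W t j a 0 ≤ 0)
    (h1 : ∀ t j a l, W t j a l ≤ 1)
    (hs : ∀ t j a l, 4 * W (t + 1) j a (l + 1) ≤ W t j a l + W t j (a - 1) (l + 1) +
      W t j a (l + 1) + W t j (a - 1) (l + 2) + E t j a l)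
    (hE : ∀ a l ε, 0 < ε → ∀ᶠ t in atTop, ∀ j, E t j a l ≤ ε) :
    ∀ a l ε, 0 < ε → ∀ᶠ t in atTop, ∀ j, W t j a l ≤ ε := by
  let G : ℕ → Set ℝ := fun l => {c | 0 ≤ c ∧ ∀ a, ∀ᶠ t in atTop, ∀ j, W t j a l ≤ c}
  have hG1 : ∀ l, (1 : ℝ) ∈ G l := fun l =>
    ⟨zero_le_one, fun a => Eventually.of_forall fun t j => h1 t j a l⟩
  have hGb : ∀ l, BddBelow (G l) := fun l => ⟨0, fun c hc => hc.1⟩
  let w : ℕ → ℝ := fun l => sInf (G l)
  have hw0 : ∀ l, 0 ≤ w l := fun l => le_csInf ⟨1, hG1 l⟩ fun c hc => hc.1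
  have hw1 : ∀ l, w l ≤ 1 := fun l => csInf_le (hGb l) (hG1 l)
  have hwe : ∀ l ε, 0 < ε → ∀ a, ∀ᶠ t in atTop, ∀ j, W t j a l ≤ w l + ε := by
    intro l ε hε a
    obtain ⟨c, hc, hlt⟩ := exists_lt_of_csInf_lt ⟨1, hG1 l⟩ (show w l < w l + ε by linarith)
    filter_upwards [hc.2 a] with t ht j using (ht j).trans hlt.le
  have hz : w 0 ≤ 0 :=
    csInf_le (hGb 0) ⟨le_rfl, fun a => Eventually.of_forall fun t j => h0 t j a⟩
  have hc : ∀ l, 2 * w (l + 1) ≤ w l + w (l + 2) := by
    intro l
    refine le_of_forall_pos_le_add fun ε hε => ?_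
    have hε' : 0 < ε / 5 := by positivity
    have : (w l + 2 * w (l + 1) + w (l + 2) + ε) / 4 ∈ G (l + 1) := by
      refine ⟨by linarith [hw0 l, hw0 (l + 1), hw0 (l + 2)], fun a => ?_⟩
      have h5 := ((((hwe l _ hε' a).and (hwe (l + 1) _ hε' (a - 1))).and
        (hwe (l + 1) _ hε' a)).and (hwe (l + 2) _ hε' (a - 1))).and (hE a l _ hε')
      obtain ⟨t0, ht0⟩ := eventually_atTop.1 h5
      refine eventually_atTop.2 ⟨t0 + 1, fun t ht j => ?_⟩
      obtain ⟨s, rfl⟩ : ∃ s, t = s + 1 := ⟨t - 1, by omega⟩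
      obtain ⟨⟨⟨⟨a1, a2⟩, a3⟩, a4⟩, a5⟩ := ht0 s (by omega)
      linarith [hs s j a l, a1 j, a2 j, a3 j, a4 j, a5 j]
    have h2 : w (l + 1) ≤ _ := csInf_le (hGb _) this
    linarith
  intro a l ε hε
  have := convex_zero w hz hw0 hw1 hc l
  filter_upwards [hwe l ε hε a] with t ht j using (ht j).trans (by linarith)

abbrev Z1 := Fin 1 → ℤ

def e (i : ℤ) : Z1 := fun _ => i

lemma e_inj : Function.Injective e := fun _ _ h => congrFun h 0

lemma e_add (i j : ℤ) : e i + e j = e (i + j) := rfl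

lemma e_eq (k : Z1) : e (k 0) = k := by
  funext i
  rw [Subsingleton.elim i 0]
  rfl

variable {A : Type} [MeasurableSpace A] [Fintype A] [DiscreteMeasurableSpace A]

def phi (K : A → Fin 3) (i : ℤ) (x : Z1 → A) : Prop := K (x (e i)) = 1 ∨ K (x (e (i - 1))) = 2

def DD (K : A → Fin 3) (a : ℤ) (l : ℕ) : Set (Z1 → A) := {x | ∃ j : ℕ, j < l ∧ phi K (a + j) x}

def LL (L : A → Prop) (a : ℤ) (l : ℕ) : Set (Z1 → A) :=
  {x | ∃ j : ℕ, j < l ∧ L (x (e (a + j)))}

lemma measurableSet_coord {ι : Type} (k : ι) (P : A → Prop) :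
    MeasurableSet {x : ι → A | P (x k)} :=
  measurable_pi_apply k (MeasurableSet.of_discrete (s := {a | P a}))

lemma measurableSet_phi (K : A → Fin 3) (i : ℤ) : MeasurableSet {x | phi K i x} :=
  (measurableSet_coord (e i) fun a => K a = 1).union
    (measurableSet_coord (e (i - 1)) fun a => K a = 2)

lemma measurableSet_DD (K : A → Fin 3) (a : ℤ) (l : ℕ) : MeasurableSet (DD K a l) := by
  have : DD K a l = ⋃ j : ℕ, ⋃ (_ : j < l), {x | phi K (a + j) x} := by
    ext x
    simp [DD]
  rw [this]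
  exact MeasurableSet.iUnion fun j => MeasurableSet.iUnion fun _ => measurableSet_phi K _

lemma measurableSet_LL (L : A → Prop) (a : ℤ) (l : ℕ) : MeasurableSet (LL L a l) := by
  have : LL L a l = ⋃ j : ℕ, ⋃ (_ : j < l), {x | L (x (e (a + j)))} := by
    ext x
    simp [LL]
  rw [this]
  exact MeasurableSet.iUnion fun j => MeasurableSet.iUnion fun _ => measurableSet_coord _ _

lemma infinitePi_coord {ι : Type} (m : ι → Measure A) [∀ i, IsProbabilityMeasure (m i)] (k : ι)
    (P : A → Prop) : Measure.infinitePi m {x | P (x k)} = m k {a | P a} :=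
  (measurePreserving_eval_infinitePi m k).measure_preimage
    (MeasurableSet.of_discrete (s := {a | P a})).nullMeasurableSet

lemma infinitePi_two {ι : Type} (m : ι → Measure A) [∀ i, IsProbabilityMeasure (m i)] {k k' : ι}
    (h : k ≠ k') (P Q : A → Prop) :
    Measure.infinitePi m ({x | P (x k)} ∩ {x | Q (x k')}) = m k {a | P a} * m k' {a | Q a} := by
  have h1 := Measure.infinitePi_map_eval_prod (P := m) h
  rw [← Measure.prod_prod, ← h1, Measure.map_apply (by fun_prop) MeasurableSet.of_discrete]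
  rfl

open Classical in
lemma step_bound (m : Z1 → Measure A) [∀ i, IsProbabilityMeasure (m i)] (K : A → Fin 3)
    (occ : ℤ → Prop) (h0 : ∀ i, ¬ occ i → m (e i) {a | K a ≠ 0} = 0)
    (h1 : ∀ k, (m k).real {a | K a = 1} ≤ 1 / 2) (h2 : ∀ k, (m k).real {a | K a = 2} ≤ 1 / 2)
    (a : ℤ) (l : ℕ) (hno : ∀ j : ℕ, j < l → ¬ occ (a + j)) :
    4 * (Measure.infinitePi m).real (DD K a (l + 1)) ≤
      (if occ (a - 1) then 1 else 0) + (if occ (a + l) then 1 else 0) +
        (if occ (a - 1) ∨ occ (a + l) then 1 else 0) := by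
  set ν := Measure.infinitePi m with hν
  set E1 : Set (Z1 → A) := {y | K (y (e (a - 1))) = 2} with hE1
  set E2 : Set (Z1 → A) := {y | K (y (e (a + l))) = 1} with hE2
  have hae : ∀ᵐ y ∂ν, ∀ j : ℕ, j < l → K (y (e (a + j))) = 0 := by
    rw [ae_all_iff]
    intro j
    by_cases hj : j < l
    · have := h0 _ (hno j hj)
      rw [← infinitePi_coord m] at this
      rw [ae_iff]
      simpa [hj] using this
    · simp [hj]
  have hsub : ν.real (DD K a (l + 1)) ≤ ν.real (E1 ∪ E2) := by
    refine ENNReal.toReal_mono (measure_ne_top _ _) (measure_mono_ae ?_)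
    filter_upwards [hae] with y hy hD
    obtain ⟨j, hj, hp | hp⟩ := hD
    · by_cases hjl : j < l
      · rw [hy j hjl] at hp
        exact absurd hp (by decide)
      · obtain rfl : j = l := by omega
        exact Or.inr hp
    · cases j with
      | zero => exact Or.inl (by simpa [hE1] using hp)
      | succ j =>
        have h3 := hy j (by omega)
        have : a + ((j + 1 : ℕ) : ℤ) - 1 = a + j := by push_cast; ring
        rw [this, h3] at hp
        exact absurd hp (by decide)
  have hm1 : MeasurableSet E1 := measurableSet_coord _ fun b => K b = 2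
  have hm2 : MeasurableSet E2 := measurableSet_coord _ fun b => K b = 1
  have hu := measureReal_union_add_inter (μ := ν) (s := E1) hm2
  have hne : e (a - 1) ≠ e (a + l) := fun h => by
    have := e_inj h
    omega
  have hi : ν.real (E1 ∩ E2) = ν.real E1 * ν.real E2 := by
    simp only [Measure.real, hE1, hE2, hν]
    rw [infinitePi_two m hne (fun b => K b = 2) (fun b => K b = 1),
      infinitePi_coord m _ (fun b => K b = 2), infinitePi_coord m _ (fun b => K b = 1),
      ENNReal.toReal_mul]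
  have hp1 : ν.real E1 = (m (e (a - 1))).real {b | K b = 2} := by
    simp only [Measure.real, hE1, hν]
    rw [infinitePi_coord m _ (fun b => K b = 2)]
  have hp2 : ν.real E2 = (m (e (a + l))).real {b | K b = 1} := by
    simp only [Measure.real, hE2, hν]
    rw [infinitePi_coord m _ (fun b => K b = 1)]
  have hz : ∀ (i : ℤ) (c : Fin 3), c ≠ 0 → ¬ occ i → (m (e i)).real {b | K b = c} = 0 := by
    intro i c hc hi
    have : m (e i) {b | K b = c} = 0 := measure_mono_null (fun b hb => by
      have hb' : K b = c := hb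
      show K b ≠ 0
      rwa [hb']) (h0 i hi)
    simp [Measure.real, this]
  have b1 := h2 (e (a - 1))
  have b2 := h1 (e (a + l))
  rw [← hp1] at b1
  rw [← hp2] at b2
  have n1 : 0 ≤ ν.real E1 := measureReal_nonneg
  have n2 : 0 ≤ ν.real E2 := measureReal_nonneg
  by_cases c1 : occ (a - 1) <;> by_cases c2 : occ (a + l)
  · simp only [c1, c2, if_true, or_self]
    nlinarith
  · have := hz _ 1 (by decide) c2
    rw [← hp2] at this
    simp only [c1, c2, if_true, if_false, true_or]
    nlinarith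
  · have := hz _ 2 (by decide) c1
    rw [← hp1] at this
    simp only [c1, c2, if_true, if_false, or_true]
    nlinarith
  · have h3 := hz _ 1 (by decide) c2
    have h4 := hz _ 2 (by decide) c1
    rw [← hp2] at h3
    rw [← hp1] at h4
    simp only [c1, c2, if_false, or_self]
    nlinarith

variable (N : Finset Z1) (F : (N → A) → Measure A) [∀ u, IsProbabilityMeasure (F u)]

lemma ker_bound (K : A → Fin 3) (L : A → Prop)
    (h0 : ∀ (x : Z1 → A) i, ¬ (phi K i x ∨ L (x (e i))) →
      F (fun v : N => x (e i + v)) {a | K a ≠ 0} = 0)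
    (h1 : ∀ u, (F u).real {a | K a = 1} ≤ 1 / 2) (h2 : ∀ u, (F u).real {a | K a = 2} ≤ 1 / 2)
    (a : ℤ) (l : ℕ) (x : Z1 → A) :
    4 * (ker N F x).real (DD K a (l + 1)) ≤
      (DD K a l).indicator 1 x + (DD K (a - 1) (l + 1)).indicator 1 x +
      (DD K a (l + 1)).indicator 1 x + (DD K (a - 1) (l + 2)).indicator 1 x +
      4 * (LL L (a - 1) (l + 2)).indicator 1 x := by
  classical
  have hle : (ker N F x).real (DD K a (l + 1)) ≤ 1 := measureReal_le_one
  have nn : ∀ C : Set (Z1 → A), (0 : ℝ) ≤ C.indicator 1 x := fun C =>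
    Set.indicator_nonneg (fun _ _ => zero_le_one) x
  by_cases hL : x ∈ LL L (a - 1) (l + 2)
  · rw [Set.indicator_of_mem hL, Pi.one_apply]
    linarith [nn (DD K a l), nn (DD K (a - 1) (l + 1)), nn (DD K a (l + 1)),
      nn (DD K (a - 1) (l + 2))]
  by_cases hD : x ∈ DD K a l
  · obtain ⟨j, hj, hp⟩ := hD
    have e1 : a - 1 + ((j + 1 : ℕ) : ℤ) = a + j := by push_cast; ring
    have m1 : x ∈ DD K a l := ⟨j, hj, hp⟩
    have m2 : x ∈ DD K (a - 1) (l + 1) := ⟨j + 1, by omega, by rwa [e1]⟩
    have m3 : x ∈ DD K a (l + 1) := ⟨j, by omega, hp⟩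
    have m4 : x ∈ DD K (a - 1) (l + 2) := ⟨j + 1, by omega, by rwa [e1]⟩
    rw [Set.indicator_of_mem m1, Set.indicator_of_mem m2, Set.indicator_of_mem m3,
      Set.indicator_of_mem m4, Pi.one_apply]
    linarith [nn (LL L (a - 1) (l + 2))]
  have hb := step_bound (fun k : Z1 => F fun v : N => x (k + v)) K
    (fun i => phi K i x ∨ L (x (e i))) (h0 x) (fun k => h1 _) (fun k => h2 _) a l (by
      intro j hj hh
      rcases hh with hh | hh
      · exact hD ⟨j, hj, hh⟩
      · refine hL ⟨j + 1, by omega, ?_⟩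
        have e1 : a - 1 + ((j + 1 : ℕ) : ℤ) = a + j := by push_cast; ring
        rwa [e1])
  have l1 : ¬ L (x (e (a - 1))) := fun h => hL ⟨0, by omega, by simpa using h⟩
  have e2 : a - 1 + ((l + 1 : ℕ) : ℤ) = a + l := by push_cast; ring
  have l2 : ¬ L (x (e (a + l))) := fun h => hL ⟨l + 1, by omega, by rwa [e2]⟩
  simp only [l1, l2, or_false] at hb
  refine hb.trans ?_
  have q1 : (if phi K (a - 1) x then (1 : ℝ) else 0) ≤ (DD K (a - 1) (l + 1)).indicator 1 x := by
    split_ifs with h
    · rw [Set.indicator_of_mem (show x ∈ DD K (a - 1) (l + 1) from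
        ⟨0, by omega, by simpa using h⟩), Pi.one_apply]
    · exact nn _
  have q2 : (if phi K (a + l) x then (1 : ℝ) else 0) ≤ (DD K a (l + 1)).indicator 1 x := by
    split_ifs with h
    · rw [Set.indicator_of_mem (show x ∈ DD K a (l + 1) from ⟨l, by omega, h⟩), Pi.one_apply]
    · exact nn _
  have q3 : (if phi K (a - 1) x ∨ phi K (a + l) x then (1 : ℝ) else 0) ≤
      (DD K (a - 1) (l + 2)).indicator 1 x := by
    split_ifs with h
    · have : x ∈ DD K (a - 1) (l + 2) := by
        rcases h with h | h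
        · exact ⟨0, by omega, by simpa using h⟩
        · exact ⟨l + 1, by omega, by rwa [e2]⟩
      rw [Set.indicator_of_mem this, Pi.one_apply]
    · exact nn _
  linarith [nn (DD K a l), nn (LL L (a - 1) (l + 2))]

lemma evolve_succ_real {ι : Type} [AddCommGroup ι] (N : Finset ι) (F : (N → A) → Measure A)
    [∀ u, IsProbabilityMeasure (F u)] {C : Set (ι → A)} (hC : MeasurableSet C) (t : ℕ)
    (μ : Measure (ι → A)) [IsProbabilityMeasure μ] :
    (evolve N F (t + 1) μ).real C = ∫ x, (ker N F x).real C ∂(evolve N F t μ) := by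
  simp only [Measure.real]
  rw [evolve_succ_apply N F hC, integral_toReal (f := fun x => ker N F x C)
    ((Measure.measurable_coe hC).comp (measurable_ker N F)).aemeasurable
    (ae_of_all _ fun x => measure_lt_top _ _)]

lemma integrable_ker_real {ι : Type} [AddCommGroup ι] (N : Finset ι) (F : (N → A) → Measure A)
    [∀ u, IsProbabilityMeasure (F u)] {C : Set (ι → A)} (hC : MeasurableSet C)
    (ν : Measure (ι → A)) [IsProbabilityMeasure ν] :
    Integrable (fun x => (ker N F x).real C) ν := by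
  refine Integrable.of_bound (C := 1) ?_ (ae_of_all _ fun x => ?_)
  · exact (((Measure.measurable_coe hC).comp
      (measurable_ker N F)).ennreal_toReal).aestronglyMeasurable
  · rw [Real.norm_of_nonneg measureReal_nonneg]
    exact measureReal_le_one

lemma coal_tendsto {J : Type} (μ : J → Measure (Z1 → A)) [∀ j, IsProbabilityMeasure (μ j)]
    (K : A → Fin 3) (L : A → Prop)
    (h0 : ∀ (x : Z1 → A) i, ¬ (phi K i x ∨ L (x (e i))) →
      F (fun v : N => x (e i + v)) {a | K a ≠ 0} = 0)
    (h1 : ∀ u, (F u).real {a | K a = 1} ≤ 1 / 2) (h2 : ∀ u, (F u).real {a | K a = 2} ≤ 1 / 2)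
    (hL : ∀ a l ε, 0 < ε → ∀ᶠ t in atTop, ∀ j, (evolve N F t (μ j)).real (LL L a l) ≤ ε) :
    ∀ a l ε, 0 < ε → ∀ᶠ t in atTop, ∀ j, (evolve N F t (μ j)).real (DD K a l) ≤ ε := by
  refine conv_lemma (fun t j a l => (evolve N F t (μ j)).real (DD K a l))
    (fun t j a l => 4 * (evolve N F t (μ j)).real (LL L (a - 1) (l + 2))) ?_ ?_ ?_ ?_
  · intro t j a
    simp [DD]
  · intro t j a l
    exact measureReal_le_one
  · intro t j a l
    have hi : ∀ C : Set (Z1 → A), MeasurableSet C →
        Integrable (C.indicator (1 : (Z1 → A) → ℝ)) (evolve N F t (μ j)) := fun C hC =>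
      (integrable_const (1 : ℝ)).indicator hC
    have i1 := hi _ (measurableSet_DD K a l)
    have i2 := hi _ (measurableSet_DD K (a - 1) (l + 1))
    have i3 := hi _ (measurableSet_DD K a (l + 1))
    have i4 := hi _ (measurableSet_DD K (a - 1) (l + 2))
    have i5 := (hi _ (measurableSet_LL L (a - 1) (l + 2))).const_mul 4
    rw [evolve_succ_real N F (measurableSet_DD K a _), ← integral_const_mul]
    refine (integral_mono ((integrable_ker_real N F (measurableSet_DD K a _) _).const_mul 4)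
      ((((i1.add i2).add i3).add i4).add i5) (fun x => ker_bound N F K L h0 h1 h2 a l x)).trans ?_
    rw [integral_add' (((i1.add i2).add i3).add i4) i5, integral_add' ((i1.add i2).add i3) i4,
      integral_add' (i1.add i2) i3, integral_add' i1 i2, integral_const_mul,
      integral_indicator_one (measurableSet_DD K a l),
      integral_indicator_one (measurableSet_DD K _ _),
      integral_indicator_one (measurableSet_DD K _ _),
      integral_indicator_one (measurableSet_DD K _ _),
      integral_indicator_one (measurableSet_LL L _ _)]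
  · intro a l ε hε
    filter_upwards [hL (a - 1) (l + 2) (ε / 4) (by positivity)] with t ht j
    linarith [ht j]

lemma occ_bound (K : A → Fin 3) (L : A → Prop)
    (h0 : ∀ (x : Z1 → A) i, ¬ (phi K i x ∨ L (x (e i))) →
      F (fun v : N => x (e i + v)) {a | K a ≠ 0} = 0)
    (μ : Measure (Z1 → A)) [IsProbabilityMeasure μ] (t : ℕ) (i : ℤ) :
    (evolve N F (t + 1) μ).real {x | K (x (e i)) ≠ 0} ≤
      (evolve N F t μ).real (DD K i 1) + (evolve N F t μ).real (LL L i 1) := by
  refine le_trans ?_ (measureReal_union_le _ _)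
  have hm := (measurableSet_DD K i 1).union (measurableSet_LL L i 1)
  refine ENNReal.toReal_mono (measure_ne_top _ _) ?_
  rw [evolve_succ_apply N F (measurableSet_coord _ fun a => K a ≠ 0),
    ← lintegral_indicator_one hm]
  refine lintegral_mono fun x => ?_
  by_cases hx : x ∈ DD K i 1 ∪ LL L i 1
  · rw [Set.indicator_of_mem hx]
    exact prob_le_one
  · have := h0 x i (by
      rintro (h | h)
      · exact hx (Or.inl ⟨0, by omega, by simpa using h⟩)
      · exact hx (Or.inr ⟨0, by omega, by simpa using h⟩))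
    unfold ker
    rw [infinitePi_coord _ _ (fun a => K a ≠ 0), this]
    exact zero_le

lemma cyl_bound {ι : Type} (ν : Measure (ι → A)) [IsProbabilityMeasure ν] (z : ι → A)
    (S : Finset ι) (a : ι → A) :
    |ν.real (cyl S a) - (Measure.dirac z).real (cyl S a)| ≤ ∑ k ∈ S, ν.real {x | x k ≠ z k} := by
  by_cases hz : z ∈ cyl S a
  · have h1 : (Measure.dirac z).real (cyl S a) = 1 := by
      simp [Measure.real, Measure.dirac_apply' _ (measurableSet_cyl S a), hz]
    rw [h1, abs_sub_comm, abs_of_nonneg (sub_nonneg.2 measureReal_le_one),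
      ← probReal_compl_eq_one_sub (measurableSet_cyl S a)]
    refine le_trans (measureReal_mono ?_ (measure_ne_top _ _)) (measureReal_biUnion_finset_le S _)
    intro x hx
    simp only [cyl, Set.mem_compl_iff, Set.mem_ofPred_eq, not_forall] at hx
    obtain ⟨k, hk, hne⟩ := hx
    refine Set.mem_iUnion₂.2 ⟨k, hk, ?_⟩
    rw [← hz k hk] at hne
    exact hne
  · have h1 : (Measure.dirac z).real (cyl S a) = 0 := by
      simp [Measure.real, Measure.dirac_apply' _ (measurableSet_cyl S a), hz]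
    rw [h1, sub_zero, abs_of_nonneg measureReal_nonneg]
    simp only [cyl, Set.mem_ofPred_eq, not_forall] at hz
    obtain ⟨k, hk, hne⟩ := hz
    refine le_trans (measureReal_mono (s₂ := {x | x k ≠ z k}) ?_ (measure_ne_top _ _))
      (Finset.single_le_sum (f := fun k => ν.real {x | x k ≠ z k})
        (fun _ _ => measureReal_nonneg) hk)
    intro x hx h
    exact hne (h.symm.trans (hx k hk))

lemma ae_bind_of {ι : Type} [AddCommGroup ι] (N : Finset ι) (F : (N → A) → Measure A)
    [∀ u, IsProbabilityMeasure (F u)] {C C' : Set (ι → A)} (hC' : MeasurableSet C')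
    (h : ∀ x ∈ C, ∀ᵐ y ∂(ker N F x), y ∈ C') (μ : Measure (ι → A)) (hμ : ∀ᵐ x ∂μ, x ∈ C) :
    ∀ᵐ y ∂(μ.bind (ker N F)), y ∈ C' := by
  change (μ.bind (ker N F)) C'ᶜ = 0
  rw [Measure.bind_apply hC'.compl (measurable_ker N F).aemeasurable]
  refine (lintegral_congr_ae (g := fun _ => 0) ?_).trans lintegral_zero
  filter_upwards [hμ] with x hx using h x hx

lemma ae_evolve_of {ι : Type} [AddCommGroup ι] (N : Finset ι) (F : (N → A) → Measure A)
    [∀ u, IsProbabilityMeasure (F u)] (C : ℕ → Set (ι → A)) (hC : ∀ t, MeasurableSet (C t))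
    (h : ∀ t, ∀ x ∈ C t, ∀ᵐ y ∂(ker N F x), y ∈ C (t + 1)) (μ : Measure (ι → A))
    (hμ : ∀ᵐ x ∂μ, x ∈ C 0) (t : ℕ) : ∀ᵐ y ∂(evolve N F t μ), y ∈ C t := by
  induction t with
  | zero => exact hμ
  | succ t ih =>
    rw [evolve_succ]
    exact ae_bind_of N F (hC _) (h t) _ ih

def N3 : Finset Z1 := {e (-1), e 0, e 1}

def lift3 (r : A → A → A → Measure A) (u : N3 → A) : Measure A :=
  r (u ⟨e (-1), by simp [N3]⟩) (u ⟨e 0, by simp [N3]⟩) (u ⟨e 1, by simp [N3]⟩)

lemma lift3_apply (r : A → A → A → Measure A) (x : Z1 → A) (i : ℤ) :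
    lift3 r (fun v : N3 => x (e i + v)) = r (x (e (i - 1))) (x (e i)) (x (e (i + 1))) := by
  simp only [lift3, e_add, add_zero, sub_eq_add_neg]

lemma ae_lift3 (r : A → A → A → Measure A) [∀ u, IsProbabilityMeasure (lift3 r u)]
    (ok : A → A → A → A → Prop) (h : ∀ l c q, r l c q {b | ¬ ok l c q b} = 0) (x : Z1 → A) :
    ∀ᵐ y ∂(ker N3 (lift3 r) x), ∀ i : ℤ,
      ok (x (e (i - 1))) (x (e i)) (x (e (i + 1))) (y (e i)) := by
  have := ae_ker N3 (lift3 r) x
    (fun k b => ok (x (e (k 0 - 1))) (x (e (k 0))) (x (e (k 0 + 1))) b) (fun k => by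
      obtain ⟨i, rfl⟩ : ∃ i, k = e i := ⟨k 0, (e_eq k).symm⟩
      rw [lift3_apply]
      exact h _ _ _)
  filter_upwards [this] with y hy i using hy (e i)

noncomputable def coin (a b : A) : Measure A :=
  (2⁻¹ : ℝ≥0∞) • Measure.dirac a + (2⁻¹ : ℝ≥0∞) • Measure.dirac b

instance isProb_coin (a b : A) : IsProbabilityMeasure (coin a b) :=
  ⟨by simp [coin, ENNReal.inv_two_add_inv_two]⟩

lemma coin_null (a b : A) (s : Set A) (ha : a ∉ s) (hb : b ∉ s) : coin a b s = 0 := by
  simp [coin, ha, hb]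

lemma coin_half_left (a b : A) (s : Set A) (ha : a ∉ s) : (coin a b).real s ≤ 1 / 2 := by
  by_cases hb : b ∈ s <;> simp [coin, Measure.real, ha, hb]

lemma coin_half_right (a b : A) (s : Set A) (hb : b ∉ s) : (coin a b).real s ≤ 1 / 2 := by
  by_cases ha : a ∈ s <;> simp [coin, Measure.real, ha, hb]

end Pool.Agent.H32.PCA
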