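import Mathlib

set_option autoImplicit false
open MeasureTheory ProbabilityTheory Set Filter Topology Matrix
open scoped ENNReal NNReal

namespace Pool.Agent.H32.GM

lemma rowcond {ι α : Type*} [Fintype ι] [DecidableEq ι] [MeasurableSpace α] (ρ : Measure α)
    [IsProbabilityMeasure ρ] (S : Set (ι → α)) (hS : MeasurableSet S) (i : ι) (c : ℝ≥0∞)
    (h : ∀ x : ι → α, ρ {y | Function.update x i y ∈ S} ≤ c) :
    Measure.pi (fun _ : ι => ρ) S ≤ c := by
  have h1 := lintegral_le_of_lmarginal_le (μ := fun _ : ι => ρ) {i}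
    (f := S.indicator 1) (g := fun _ => c) (measurable_one.indicator hS) measurable_const (by
      rw [lmarginal_singleton, lmarginal_singleton]
      intro x
      have hm : MeasurableSet {y | Function.update x i y ∈ S} := measurable_update x hS
      have : ∀ y, S.indicator (1 : (ι → α) → ℝ≥0∞) (Function.update x i y)
          = {y | Function.update x i y ∈ S}.indicator 1 y := fun y => by
        by_cases hy : Function.update x i y ∈ S <;> simp [hy]
      simp only [this]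
      rw [lintegral_indicator_one hm]
      simpa using h x)
  rw [lintegral_indicator_one hS] at h1
  simpa using h1

lemma pi_char {ι : Type*} [Fintype ι] (V : ℝ≥0) (t : ι → ℝ) :
    ∫ x, Complex.exp ((∑ j, t j * x j : ℝ) * Complex.I)
      ∂(Measure.pi fun _ : ι => gaussianReal 0 V)
      = Complex.exp (-((V * ∑ j, t j ^ 2 : ℝ) : ℂ) / 2) := by
  have e : ∀ x : ι → ℝ, Complex.exp ((∑ j, t j * x j : ℝ) * Complex.I)
      = ∏ j, Complex.exp (t j * x j * Complex.I) := by
    intro x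
    rw [← Complex.exp_sum]
    push_cast
    rw [Finset.sum_mul]
  simp only [e]
  rw [integral_fintype_prod_eq_prod (fun j (y : ℝ) => Complex.exp (t j * y * Complex.I))]
  simp only [← charFun_apply_real, charFun_gaussianReal]
  rw [← Complex.exp_sum]
  congr 1
  push_cast
  rw [Finset.mul_sum, neg_div, Finset.sum_div, ← Finset.sum_neg_distrib]
  refine Finset.sum_congr rfl fun j _ => ?_
  ring

lemma lin_law {ι : Type*} [Fintype ι] (V : ℝ≥0) (c : ι → ℝ) :
    (Measure.pi fun _ : ι => gaussianReal 0 V).map (fun x => ∑ j, c j * x j)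
      = (gaussianReal 0 1).map (fun z => Real.sqrt (V * ∑ j, c j ^ 2) * z) := by
  have hm : Measurable fun x : ι → ℝ => ∑ j, c j * x j := by fun_prop
  apply Measure.ext_of_charFun
  ext t
  rw [charFun_map_mul, charFun_gaussianReal, charFun_apply_real,
    integral_map hm.aemeasurable (by fun_prop)]
  have h := pi_char V (fun j => t * c j)
  have e : ∀ x : ι → ℝ, ((t : ℂ) * (∑ j, c j * x j : ℝ)) = ((∑ j, t * c j * x j : ℝ) : ℂ) := by
    intro x
    rw [← Complex.ofReal_mul, Finset.mul_sum]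
    simp only [mul_assoc]
  simp only [e]
  rw [h]
  congr 1
  have h2 : Real.sqrt (V * ∑ j, c j ^ 2) ^ 2 = V * ∑ j, c j ^ 2 :=
    Real.sq_sqrt (by positivity)
  have h3 : (V * ∑ j, (t * c j) ^ 2 : ℝ) = (Real.sqrt (V * ∑ j, c j ^ 2) * t) ^ 2 := by
    rw [mul_pow, h2]
    simp only [mul_pow, ← Finset.mul_sum]
    ring
  rw [h3]
  push_cast
  simp [neg_div]

lemma gauss_le (s : Set ℝ) (hs : MeasurableSet s) :
    gaussianReal 0 1 s ≤ ENNReal.ofReal (1 / 2) * volume s := by
  rw [gaussianReal_of_var_ne_zero _ one_ne_zero, withDensity_apply _ hs, ← setLIntegral_const]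
  refine lintegral_mono fun x => ENNReal.ofReal_le_ofReal ?_
  unfold gaussianPDFReal
  have h1 : Real.exp (-(x - 0) ^ 2 / (2 * (1 : ℝ≥0))) ≤ 1 :=
    Real.exp_le_one_iff.2 (div_nonpos_of_nonpos_of_nonneg (by nlinarith [sq_nonneg (x - 0)])
      (by positivity))
  have h2 : 2 ≤ Real.sqrt (2 * Real.pi * (1 : ℝ≥0)) := by
    apply Real.le_sqrt_of_sq_le
    have := Real.pi_gt_three
    simp; linarith
  have h3 : (Real.sqrt (2 * Real.pi * (1 : ℝ≥0)))⁻¹ ≤ 1 / 2 := by
    rw [inv_eq_one_div]; exact one_div_le_one_div_of_le (by norm_num) h2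
  calc _ ≤ 1 / 2 * 1 := mul_le_mul h3 h1 (Real.exp_pos _).le (by norm_num)
    _ = _ := by norm_num

lemma small1 (a s t : ℝ) (hs : 0 < s) :
    gaussianReal 0 1 {z | |a + s * z| ≤ t} ≤ ENNReal.ofReal (t / s) := by
  have : {z | |a + s * z| ≤ t} = Icc ((-t - a) / s) ((t - a) / s) := by
    ext z
    simp only [Set.mem_ofPred_eq, abs_le, mem_Icc, div_le_iff₀ hs, le_div_iff₀ hs]
    constructor <;> rintro ⟨h1, h2⟩ <;> constructor <;> linarith
  rw [this]
  refine (gauss_le _ measurableSet_Icc).trans (le_of_eq ?_)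
  rw [Real.volume_Icc, ← ENNReal.ofReal_mul (by norm_num)]
  congr 1
  field_simp
  ring

lemma small_lin {ι : Type*} [Fintype ι] (V : ℝ≥0) (c : ι → ℝ) (a t : ℝ)
    (h : 0 < V * ∑ j, c j ^ 2) :
    (Measure.pi fun _ : ι => gaussianReal 0 V) {x | |a + ∑ j, c j * x j| ≤ t}
      ≤ ENNReal.ofReal (t / Real.sqrt (V * ∑ j, c j ^ 2)) := by
  have hm : Measurable fun x : ι → ℝ => ∑ j, c j * x j := by fun_prop
  have hs : MeasurableSet {y : ℝ | |a + y| ≤ t} := measurableSet_le (by fun_prop) (by fun_prop)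
  have h1 := Measure.map_apply (μ := Measure.pi fun _ : ι => gaussianReal 0 V) hm hs
  rw [lin_law, Measure.map_apply (by fun_prop) hs] at h1
  refine le_trans (le_of_eq h1.symm) ?_
  exact small1 a _ t (Real.sqrt_pos.2 h)

lemma closed_proj {X Y : Type*} [TopologicalSpace X] [TopologicalSpace Y] {K : Set Y}
    (hK : IsCompact K) {C : Set (X × Y)} (hC : IsClosed C) :
    IsClosed {x | ∃ y ∈ K, (x, y) ∈ C} := by
  have : CompactSpace K := isCompact_iff_compactSpace.1 hK
  have h1 : IsClosed ((fun p : X × K => (p.1, (p.2 : Y))) ⁻¹' C) := hC.preimage (by fun_prop)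
  have h2 := isClosedMap_fst_of_compactSpace _ h1
  convert h2 using 1
  ext x
  simp

lemma sphere_compact (ι : Type*) [Fintype ι] : IsCompact {u : ι → ℝ | u ⬝ᵥ u = 1} := by
  refine (isCompact_closedBall (0 : ι → ℝ) 1).of_isClosed_subset
    (isClosed_eq (by unfold dotProduct; fun_prop) continuous_const) fun u hu => ?_
  rw [mem_closedBall_zero_iff, pi_norm_le_iff_of_nonneg zero_le_one]
  intro i
  have h1 : u i * u i ≤ u ⬝ᵥ u :=
    Finset.single_le_sum (f := fun j => u j * u j) (fun j _ => mul_self_nonneg _)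
      (Finset.mem_univ i)
  rw [show u ⬝ᵥ u = 1 from hu] at h1
  rw [Real.norm_eq_abs, abs_le]
  constructor <;> nlinarith

lemma exists_ker {m n : ℕ} (h : m ≤ n) (A : Matrix (Fin m) (Fin n) ℝ) (i : Fin m) :
    ∃ z : Fin n → ℝ, z ≠ 0 ∧ ∀ l, l ≠ i → A l ⬝ᵥ z = 0 := by
  let B : Matrix {l : Fin m // l ≠ i} (Fin n) ℝ := fun l => A l.1
  have h1 : Module.finrank ℝ ({l : Fin m // l ≠ i} → ℝ) < Module.finrank ℝ (Fin n → ℝ) := by
    have := i.pos
    simp [Fintype.card_subtype_compl]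
    omega
  obtain ⟨z, hz, hz0⟩ := (Submodule.ne_bot_iff _).1
    (LinearMap.ker_ne_bot_of_finrank_lt (f := B.mulVecLin) h1)
  exact ⟨z, hz0, fun l hl => congrFun (LinearMap.mem_ker.1 hz) ⟨l, hl⟩⟩

lemma exists_big {ι : Type*} [Fintype ι] (u : ι → ℝ) (hu : u ⬝ᵥ u = 1) :
    ∃ i, 1 ≤ Fintype.card ι * u i ^ 2 := by
  by_contra h
  push Not at h
  have hne : Nonempty ι := by
    by_contra h'
    rw [not_nonempty_iff] at h'
    simp [dotProduct] at hu
  have h1 : ∑ i, (Fintype.card ι : ℝ) * u i ^ 2 < ∑ _i : ι, (1 : ℝ) :=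
    Finset.sum_lt_sum_of_nonempty Finset.univ_nonempty fun i _ => h i
  rw [← Finset.mul_sum] at h1
  have h2 : ∑ i, u i ^ 2 = 1 := by rw [← hu]; simp [dotProduct, sq]
  simp [h2] at h1

lemma dot_self_eq {ι : Type*} [Fintype ι] (u : ι → ℝ) : u ⬝ᵥ u = ∑ j, u j ^ 2 := by
  simp [dotProduct, sq]

lemma dot_self_nonneg {ι : Type*} [Fintype ι] (u : ι → ℝ) : 0 ≤ u ⬝ᵥ u := by
  rw [dot_self_eq]; positivity

lemma dot_self_pos {ι : Type*} [Fintype ι] {u : ι → ℝ} (h : u ≠ 0) : 0 < u ⬝ᵥ u :=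
  lt_of_le_of_ne (dot_self_nonneg u) fun h' => h (dotProduct_self_eq_zero.1 h'.symm)

lemma gauss_sq (V : ℝ≥0) : ∫⁻ z, ENNReal.ofReal (z ^ 2) ∂gaussianReal 0 V = V := by
  have hi : Integrable (fun z : ℝ => z ^ 2) (gaussianReal 0 V) :=
    (memLp_id_gaussianReal (μ := 0) (v := V) 2).integrable_sq
  rw [← ofReal_integral_eq_lintegral_ofReal hi
    (Eventually.of_forall fun z => sq_nonneg _)]
  have h := variance_id_gaussianReal (μ := 0) (v := V)
  rw [variance_eq_integral aemeasurable_id] at h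
  simp only [id, integral_id_gaussianReal, sub_zero] at h
  simp [h]

lemma pi_sq {ι : Type*} [Fintype ι] (V : ℝ≥0) :
    ∫⁻ x, ENNReal.ofReal (∑ j, x j ^ 2) ∂(Measure.pi fun _ : ι => gaussianReal 0 V)
      = Fintype.card ι * V := by
  have e : ∀ x : ι → ℝ, ENNReal.ofReal (∑ j, x j ^ 2) = ∑ j, ENNReal.ofReal (x j ^ 2) :=
    fun x => ENNReal.ofReal_sum_of_nonneg fun j _ => sq_nonneg _
  simp only [e]
  rw [lintegral_finsetSum _ fun j _ => by fun_prop]
  have : ∀ j : ι, ∫⁻ x, ENNReal.ofReal (x j ^ 2) ∂(Measure.pi fun _ : ι => gaussianReal 0 V)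
      = V := fun j => by
    rw [← gauss_sq V]
    exact (measurePreserving_eval (fun _ : ι => gaussianReal 0 V) j).lintegral_comp
      (f := fun z : ℝ => ENNReal.ofReal (z ^ 2)) (by fun_prop)
  simp [this]

lemma pipi_sq {ι κ : Type*} [Fintype ι] [Fintype κ] (V : ℝ≥0) :
    ∫⁻ x, ENNReal.ofReal (∑ i, ∑ j, x i j ^ 2)
      ∂(Measure.pi fun _ : ι => Measure.pi fun _ : κ => gaussianReal 0 V)
      = Fintype.card ι * (Fintype.card κ * V) := by
  have e : ∀ x : ι → κ → ℝ, ENNReal.ofReal (∑ i, ∑ j, x i j ^ 2)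
      = ∑ i, ENNReal.ofReal (∑ j, x i j ^ 2) :=
    fun x => ENNReal.ofReal_sum_of_nonneg fun j _ => by positivity
  simp only [e]
  rw [lintegral_finsetSum _ fun j _ => by fun_prop]
  have : ∀ i : ι, ∫⁻ x, ENNReal.ofReal (∑ j, x i j ^ 2)
      ∂(Measure.pi fun _ : ι => Measure.pi fun _ : κ => gaussianReal 0 V)
      = Fintype.card κ * V := fun i => by
    rw [← pi_sq V]
    exact (measurePreserving_eval
      (fun _ : ι => Measure.pi fun _ : κ => gaussianReal 0 V) i).lintegral_comp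
      (f := fun z : κ → ℝ => ENNReal.ofReal (∑ j, z j ^ 2)) (by fun_prop)
  simp [this]

end Pool.Agent.H32.GM
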