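import Mathlib
import Pool.Agent.H32.GM

set_option autoImplicit false
open MeasureTheory ProbabilityTheory Set Filter Topology Matrix
open scoped ENNReal NNReal

namespace Pool.Agent.H32.GM

lemma gram {m n : ℕ} (A : Matrix (Fin m) (Fin n) ℝ) (u w : Fin m → ℝ) :
    u ⬝ᵥ ((A * Aᵀ) *ᵥ w) = (u ᵥ* A) ⬝ᵥ (w ᵥ* A) := by
  rw [← mulVec_mulVec, dotProduct_mulVec, mulVec_transpose]

lemma parseval {m : ℕ} (b : OrthonormalBasis (Fin m) ℝ (EuclideanSpace ℝ (Fin m)))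
    (x : Fin m → ℝ) : ∑ l, ((b l).ofLp ⬝ᵥ x) ^ 2 = x ⬝ᵥ x := by
  have h := b.sum_sq_inner_right (WithLp.toLp 2 x)
  rw [EuclideanSpace.real_norm_sq_eq] at h
  rw [dot_self_eq, ← h]
  refine Finset.sum_congr rfl fun l _ => ?_
  simp [PiLp.inner_apply, dotProduct, mul_comm]

lemma basis_dot {m : ℕ} (b : OrthonormalBasis (Fin m) ℝ (EuclideanSpace ℝ (Fin m)))
    (j k : Fin m) : (b j).ofLp ⬝ᵥ (b k).ofLp = if j = k then 1 else 0 := by
  have h := orthonormal_iff_ite.1 b.orthonormal j k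
  rw [← h]
  simp [PiLp.inner_apply, dotProduct, mul_comm]

lemma approx_eig {m : ℕ} {M : Matrix (Fin m) (Fin m) ℝ} (hM : M.IsHermitian) (y : Fin m → ℝ)
    (hy : y ≠ 0) (lam d : ℝ) (hd : 0 ≤ d)
    (h : (M *ᵥ y - lam • y) ⬝ᵥ (M *ᵥ y - lam • y) ≤ d ^ 2 * (y ⬝ᵥ y)) :
    ∃ l, |hM.eigenvalues l - lam| ≤ d := by
  by_contra hc
  push Not at hc
  set b := hM.eigenvectorBasis
  have hT : Mᵀ = M := by rw [← conjTranspose_eq_transpose_of_trivial]; exact hM.eq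
  have e : ∀ l, (b l).ofLp ⬝ᵥ (M *ᵥ y - lam • y) = (hM.eigenvalues l - lam) * ((b l).ofLp ⬝ᵥ y) := by
    intro l
    rw [dotProduct_sub, dotProduct_mulVec, ← mulVec_transpose, hT, hM.mulVec_eigenvectorBasis,
      smul_dotProduct, dotProduct_smul]
    simp only [smul_eq_mul]; ring
  rw [← parseval b, ← parseval b, Finset.mul_sum] at h
  simp only [e] at h
  have hp : ∃ l, (b l).ofLp ⬝ᵥ y ≠ 0 := by
    by_contra h'
    push Not at h'
    have := parseval b y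
    simp only [h'] at this
    have h2 := dot_self_pos hy
    simp at this
    linarith
  obtain ⟨l0, hl0⟩ := hp
  have hsq : ∀ l, d ^ 2 < (hM.eigenvalues l - lam) ^ 2 := fun l => by
    rw [← sq_abs (hM.eigenvalues l - lam)]
    have := hc l
    nlinarith
  refine absurd h (not_le.2 (Finset.sum_lt_sum (fun l _ => ?_) ⟨l0, Finset.mem_univ _, ?_⟩))
  · rw [mul_pow]; exact mul_le_mul_of_nonneg_right (hsq l).le (sq_nonneg _)
  · rw [mul_pow]; exact mul_lt_mul_of_pos_right (hsq l0) (by positivity)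

lemma vecMul_split {m n : ℕ} (A : Matrix (Fin m) (Fin n) ℝ) (i : Fin m) (u : Fin m → ℝ) :
    u ᵥ* A = u ᵥ* (A.updateRow i 0) + u i • A i := by
  ext j
  simp only [vecMul, dotProduct, Pi.add_apply, Pi.smul_apply, smul_eq_mul]
  rw [← Finset.add_sum_erase _ _ (Finset.mem_univ i),
    ← Finset.add_sum_erase _ _ (Finset.mem_univ i)]
  have : ∑ l ∈ Finset.univ.erase i, u l * A.updateRow i 0 l j
      = ∑ l ∈ Finset.univ.erase i, u l * A l j :=
    Finset.sum_congr rfl fun l hl => by rw [updateRow_ne (Finset.ne_of_mem_erase hl)]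
  rw [this]
  simp [add_comm]

lemma herm {m n : ℕ} (A : Matrix (Fin m) (Fin n) ℝ) : (A * Aᵀ).IsHermitian := by
  have := isHermitian_mul_conjTranspose_self A
  rwa [conjTranspose_eq_transpose_of_trivial] at this

lemma cs_dot {ι : Type*} [Fintype ι] (u w : ι → ℝ) : (u ⬝ᵥ w) ^ 2 ≤ (u ⬝ᵥ u) * (w ⬝ᵥ w) := by
  rw [dot_self_eq, dot_self_eq]
  exact Finset.sum_mul_sq_le_sq_mul_sq _ _ _

lemma null_case {m n : ℕ} (A : Matrix (Fin m) (Fin n) ℝ) (i : Fin m) (u : Fin m → ℝ)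
    (hu : u ᵥ* A = 0) (hi : u i ≠ 0) (z : Fin n → ℝ) (hz : ∀ l, l ≠ i → A l ⬝ᵥ z = 0) :
    z ⬝ᵥ A i = 0 := by
  have h1 : u ⬝ᵥ (A *ᵥ z) = 0 := by rw [dotProduct_mulVec, hu, zero_dotProduct]
  have h2 : u ⬝ᵥ (A *ᵥ z) = u i * (A i ⬝ᵥ z) := by
    unfold dotProduct
    rw [Finset.sum_eq_single i]
    · rfl
    · intro l _ hl
      have : (A *ᵥ z) l = 0 := hz l hl
      rw [this, mul_zero]
    · simp
  rw [h1] at h2
  rw [dotProduct_comm]
  exact (mul_eq_zero.1 h2.symm).resolve_left hi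

lemma det_lemma {m n : ℕ} (A : Matrix (Fin m) (Fin n) ℝ) (i : Fin m) (u1 u2 : Fin m → ℝ)
    (s1 s2 : ℝ) (h1 : u1 ⬝ᵥ u1 = 1) (h2 : u2 ⬝ᵥ u2 = 1) (h12 : u1 ⬝ᵥ u2 = 0)
    (e1 : (A * Aᵀ) *ᵥ u1 = s1 ^ 2 • u1) (e2 : (A * Aᵀ) *ᵥ u2 = s2 ^ 2 • u2)
    (hs2 : 0 < s2) (hs : s2 ≤ s1) (hi : u1 i ≠ 0) :
    ∃ l, s2 ^ 2 ≤ (((herm (A.updateRow i 0)).eigenvectorBasis l).ofLp ᵥ* (A.updateRow i 0)) ⬝ᵥ
        (((herm (A.updateRow i 0)).eigenvectorBasis l).ofLp ᵥ* (A.updateRow i 0)) ∧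
      |u1 i| * |(((herm (A.updateRow i 0)).eigenvectorBasis l).ofLp ᵥ* (A.updateRow i 0)) ⬝ᵥ A i|
        ≤ s1 ^ 2 - s2 ^ 2 := by
  set A' := A.updateRow i 0 with hA'
  set y := u2 i • u1 - u1 i • u2 with hy
  have yi : y i = 0 := by simp [hy]; ring
  have yy : y ⬝ᵥ y = u2 i ^ 2 + u1 i ^ 2 := by
    simp only [hy, sub_dotProduct, dotProduct_sub, smul_dotProduct, dotProduct_smul, h1, h2, h12,
      dotProduct_comm u2 u1, smul_eq_mul]
    ring
  have y0 : y ≠ 0 := by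
    intro h
    rw [h, zero_dotProduct] at yy
    have : 0 < u1 i ^ 2 := by positivity
    nlinarith [sq_nonneg (u2 i)]
  have hd : 0 ≤ s1 ^ 2 - s2 ^ 2 := by nlinarith
  have yA : y ᵥ* A = y ᵥ* A' := by rw [vecMul_split A i y, yi, zero_smul, add_zero]
  have key : ∀ l, ((A' * A'ᵀ) *ᵥ y - s1 ^ 2 • y) l ^ 2
      ≤ ((u1 i * (s1 ^ 2 - s2 ^ 2)) * u2 l) ^ 2 := by
    intro l
    by_cases hl : l = i
    · subst hl
      have : ((A' * A'ᵀ) *ᵥ y) l = 0 := by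
        rw [← mulVec_mulVec]
        simp [hA', mulVec]
      simp only [Pi.sub_apply, this, Pi.smul_apply, yi]
      simp; positivity
    · have e3 : ((A' * A'ᵀ) *ᵥ y) l = ((A * Aᵀ) *ᵥ y) l := by
        rw [← mulVec_mulVec, ← mulVec_mulVec, mulVec_transpose, mulVec_transpose, yA]
        simp only [mulVec]
        congr 1
        ext j
        simp [hA', updateRow_ne hl]
      have e4 : (A * Aᵀ) *ᵥ y = u2 i • s1 ^ 2 • u1 - u1 i • s2 ^ 2 • u2 := by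
        rw [hy, mulVec_sub, mulVec_smul, mulVec_smul, e1, e2]
      apply le_of_eq
      congr 1
      rw [Pi.sub_apply, e3, e4]
      simp only [Pi.sub_apply, hy, Pi.smul_apply, smul_eq_mul]
      ring
  obtain ⟨l, hl⟩ := approx_eig (herm A') y y0 (s1 ^ 2) (s1 ^ 2 - s2 ^ 2) hd (by
    rw [dot_self_eq, yy]
    refine (Finset.sum_le_sum fun l _ => key l).trans ?_
    simp only [mul_pow, ← Finset.mul_sum]
    rw [← dot_self_eq, h2]
    nlinarith [mul_nonneg (sq_nonneg (s1 ^ 2 - s2 ^ 2)) (sq_nonneg (u2 i))])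
  refine ⟨l, ?_⟩
  set w := ((herm A').eigenvectorBasis l).ofLp with hw
  set mu := (herm A').eigenvalues l with hmu
  have ew : (A' * A'ᵀ) *ᵥ w = mu • w := (herm A').mulVec_eigenvectorBasis l
  have ww : w ⬝ᵥ w = 1 := by rw [hw, basis_dot, if_pos rfl]
  have cc : (w ᵥ* A') ⬝ᵥ (w ᵥ* A') = mu := by
    rw [← gram, ew, dotProduct_smul, ww, smul_eq_mul, mul_one]
  have hmu2 : s2 ^ 2 ≤ mu := by have := (abs_le.1 hl).1; linarith
  refine ⟨by rw [cc]; exact hmu2, ?_⟩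
  have wi : w i = 0 := by
    have h3 : ((A' * A'ᵀ) *ᵥ w) i = 0 := by
      rw [← mulVec_mulVec]
      simp [hA', mulVec]
    rw [ew] at h3
    have : 0 < mu := by nlinarith
    simpa [this.ne'] using h3
  have wA : w ᵥ* A = w ᵥ* A' := by rw [vecMul_split A i w, wi, zero_smul, add_zero]
  have f1 : w ⬝ᵥ ((A * Aᵀ) *ᵥ u1) = s1 ^ 2 * (w ⬝ᵥ u1) := by
    rw [e1, dotProduct_smul, smul_eq_mul]
  have f2 : w ⬝ᵥ ((A * Aᵀ) *ᵥ u1) = mu * (w ⬝ᵥ u1) + u1 i * ((w ᵥ* A') ⬝ᵥ A i) := by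
    rw [gram, wA, vecMul_split A i u1, dotProduct_add, dotProduct_smul, smul_eq_mul, ← hA',
      dotProduct_comm (w ᵥ* A') (u1 ᵥ* A'), ← gram, ew, dotProduct_smul, smul_eq_mul,
      dotProduct_comm u1 w]
  have f3 : |w ⬝ᵥ u1| ≤ 1 := by
    have := cs_dot w u1
    rw [ww, h1] at this
    exact abs_le_one_iff_mul_self_le_one.2 (by nlinarith)
  rw [← abs_mul]
  have f4 : u1 i * ((w ᵥ* A') ⬝ᵥ A i) = -((mu - s1 ^ 2) * (w ⬝ᵥ u1)) := by linarith
  rw [f4, abs_neg, abs_mul]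
  nlinarith [abs_nonneg (mu - s1 ^ 2), abs_nonneg (w ⬝ᵥ u1)]

def Cl {m n : ℕ} (Abar : Matrix (Fin m) (Fin n) ℝ) (i : Fin m) (x : ℝ) :
    Set ((Fin m → Fin n → ℝ) × ((Fin m → ℝ) × (Fin m → ℝ) × ℝ × ℝ)) :=
  {q | q.2.1 ⬝ᵥ q.2.2.1 = 0 ∧
    ((Abar + of q.1) * (Abar + of q.1)ᵀ) *ᵥ q.2.1 = q.2.2.2.1 ^ 2 • q.2.1 ∧
    ((Abar + of q.1) * (Abar + of q.1)ᵀ) *ᵥ q.2.2.1 = q.2.2.2.2 ^ 2 • q.2.2.1 ∧
    q.2.2.2.2 ≤ q.2.2.2.1 ∧ (q.2.2.2.1 - q.2.2.2.2) * x ≤ q.2.2.2.2 ∧ 1 ≤ m * q.2.1 i ^ 2}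

def KK (m : ℕ) (T : ℝ) : Set ((Fin m → ℝ) × (Fin m → ℝ) × ℝ × ℝ) :=
  {u | u ⬝ᵥ u = 1} ×ˢ {u | u ⬝ᵥ u = 1} ×ˢ Icc 0 T ×ˢ Icc 0 T

lemma KK_compact (m : ℕ) (T : ℝ) : IsCompact (KK m T) :=
  (sphere_compact _).prod ((sphere_compact _).prod (isCompact_Icc.prod isCompact_Icc))

lemma Cl_closed {m n : ℕ} (Abar : Matrix (Fin m) (Fin n) ℝ) (i : Fin m) (x : ℝ) :
    IsClosed (Cl Abar i x) := by
  have hA : Continuous fun q : (Fin m → Fin n → ℝ) × ((Fin m → ℝ) × (Fin m → ℝ) × ℝ × ℝ) =>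
      Abar + of q.1 := continuous_const.add continuous_fst
  have hM := hA.matrix_mul hA.matrix_transpose
  unfold Cl
  simp only [Set.ofPred_and]
  refine IsClosed.inter (isClosed_eq (by fun_prop) continuous_const) (IsClosed.inter
    (isClosed_eq (hM.matrix_mulVec (by fun_prop)) (by fun_prop)) (IsClosed.inter
    (isClosed_eq (hM.matrix_mulVec (by fun_prop)) (by fun_prop)) (IsClosed.inter
    (isClosed_le (by fun_prop) (by fun_prop)) (IsClosed.inter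
    (isClosed_le (by fun_prop) (by fun_prop)) (isClosed_le (by fun_prop) (by fun_prop))))))

lemma small_dot {n : ℕ} (σ : ℝ≥0) (hσ : 0 < σ) (c a : Fin n → ℝ) (t : ℝ) :
    (Measure.pi fun _ : Fin n => gaussianReal 0 (σ ^ 2))
      {y | c ≠ 0 ∧ |c ⬝ᵥ (a + y)| ≤ t * Real.sqrt (c ⬝ᵥ c)} ≤ ENNReal.ofReal (t / σ) := by
  by_cases hc : c = 0
  · simp [hc]
  have h0 := dot_self_pos hc
  have hs : (0 : ℝ) < σ := hσ
  have h1 := small_lin (σ ^ 2) c (c ⬝ᵥ a) (t * Real.sqrt (c ⬝ᵥ c))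
    (by rw [← dot_self_eq]; push_cast; positivity)
  refine le_trans (measure_mono fun y hy => ?_) (h1.trans (le_of_eq ?_))
  · have := hy.2
    rwa [dotProduct_add] at this
  · rw [← dot_self_eq]
    push_cast
    rw [Real.sqrt_mul (by positivity), Real.sqrt_sq hs.le]
    congr 1
    have := Real.sqrt_pos.2 h0
    field_simp

lemma C_bound {m n : ℕ} (hmn : m ≤ n) (Abar : Matrix (Fin m) (Fin n) ℝ) (i : Fin m) (x T : ℝ)
    (hx : 0 < x) (σ : ℝ≥0) (hσ : 0 < σ) :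
    (Measure.pi fun _ : Fin m => Measure.pi fun _ : Fin n => gaussianReal 0 (σ ^ 2))
      {G | ∃ p ∈ KK m T, (G, p) ∈ Cl Abar i x}
      ≤ m * ENNReal.ofReal (2 * T * Real.sqrt m / x / σ) := by
  refine rowcond _ _ (closed_proj (KK_compact m T) (Cl_closed Abar i x)).measurableSet i _
    fun G0 => ?_
  set A' := (Abar + of G0).updateRow i 0 with hA'
  obtain ⟨z, hz0, hz⟩ := exists_ker hmn (Abar + of G0) i
  set c : Fin m → Fin n → ℝ := fun l => ((herm A').eigenvectorBasis l).ofLp ᵥ* A' with hc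
  set t := 2 * T * Real.sqrt m / x with ht
  have hsub : {y | Function.update G0 i y ∈ {G | ∃ p ∈ KK m T, (G, p) ∈ Cl Abar i x}}
      ⊆ {y | z ≠ 0 ∧ |z ⬝ᵥ (Abar i + y)| ≤ 0 * Real.sqrt (z ⬝ᵥ z)} ∪
        ⋃ l, {y | c l ≠ 0 ∧ |c l ⬝ᵥ (Abar i + y)| ≤ t * Real.sqrt (c l ⬝ᵥ c l)} := by
    rintro y ⟨⟨u1, u2, s1, s2⟩, ⟨h1, h2, hs1, hs2⟩, h12, e1, e2, hs, hg, hb⟩
    simp only [Set.mem_ofPred_eq, mem_Icc] at h1 h2 hs1 hs2 h12 e1 e2 hs hg hb
    set A := Abar + of (Function.update G0 i y) with hA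
    have hAi : A i = Abar i + y := by
      ext j; simp [hA]
    have hAl : ∀ l, l ≠ i → A l = (Abar + of G0) l := by
      intro l hl; ext j; simp [hA, Function.update_of_ne hl]
    have hAA : A.updateRow i 0 = A' := by
      ext l j
      by_cases hl : l = i
      · subst hl; simp [hA']
      · rw [hA', updateRow_ne hl, updateRow_ne hl, hAl l hl]
    have hi : u1 i ≠ 0 := by
      intro h; rw [h] at hb; norm_num at hb
    rcases hs2.1.eq_or_lt with h0 | h0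
    · left
      have hs10 : s1 = 0 := by
        rw [← h0] at hg hs
        have : s1 ≤ 0 := by
          by_contra h
          have := mul_pos (not_le.1 h) hx
          linarith
        linarith
      have hu : u1 ᵥ* A = 0 := by
        have := gram A u1 u1
        rw [e1, hs10] at this
        simp only [ne_eq, OfNat.ofNat_ne_zero, not_false_eq_true, zero_pow, zero_smul,
          dotProduct_zero] at this
        exact dotProduct_self_eq_zero.1 this.symm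
      have := null_case A i u1 hu hi z (fun l hl => by rw [hAl l hl]; exact hz l hl)
      refine ⟨hz0, ?_⟩
      rw [← hAi, this]; simp
    · right
      obtain ⟨l, k1, k2⟩ := det_lemma A i u1 u2 s1 s2 h1 h2 h12 e1 e2 h0 hs hi
      rw [hAA] at k1 k2
      rw [hAi] at k2
      refine mem_iUnion.2 ⟨l, fun h => ?_, ?_⟩
      · have : c l ⬝ᵥ c l = 0 := by rw [h, zero_dotProduct]
        have k3 : s2 ^ 2 ≤ c l ⬝ᵥ c l := k1
        nlinarith
      · have k3 : s2 ≤ Real.sqrt (c l ⬝ᵥ c l) := Real.le_sqrt_of_sq_le k1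
        have k4 : |u1 i| * |c l ⬝ᵥ (Abar i + y)| ≤ s1 ^ 2 - s2 ^ 2 := k2
        have k5 : 1 ≤ Real.sqrt m * |u1 i| := by
          rw [← Real.sqrt_sq_eq_abs, ← Real.sqrt_mul (by positivity)]
          exact Real.one_le_sqrt.2 hb
        have k6 : s1 - s2 ≤ s2 / x := by rw [le_div_iff₀ hx]; exact hg
        have k7 : s1 ^ 2 - s2 ^ 2 ≤ s2 / x * (2 * T) := by
          have : s1 ^ 2 - s2 ^ 2 = (s1 - s2) * (s1 + s2) := by ring
          rw [this]
          exact mul_le_mul k6 (by linarith [hs1.2, hs2.2]) (by linarith [hs1.1]) (by positivity)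
        have hT : 0 ≤ T := le_trans hs1.1 hs1.2
        have hm := Real.sqrt_nonneg (m : ℝ)
        calc |c l ⬝ᵥ (Abar i + y)| ≤ (Real.sqrt m * |u1 i|) * |c l ⬝ᵥ (Abar i + y)| :=
              le_mul_of_one_le_left (abs_nonneg _) k5
          _ = Real.sqrt m * (|u1 i| * |c l ⬝ᵥ (Abar i + y)|) := by ring
          _ ≤ Real.sqrt m * (s2 / x * (2 * T)) := mul_le_mul_of_nonneg_left (k4.trans k7) hm
          _ = t * s2 := by rw [ht]; ring
          _ ≤ _ := by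
              have : 0 ≤ t := by rw [ht]; positivity
              gcongr
  refine (measure_mono hsub).trans ((measure_union_le _ _).trans ?_)
  have b1 := small_dot σ hσ z (Abar i) 0
  have b2 := (measure_iUnion_fintype_le
    (Measure.pi fun _ : Fin n => gaussianReal 0 (σ ^ 2)) _).trans
    (Finset.sum_le_sum fun l _ => small_dot σ hσ (c l) (Abar i) t)
  refine (add_le_add b1 b2).trans (le_of_eq ?_)
  simp

lemma vecMul_le {m n : ℕ} (A : Matrix (Fin m) (Fin n) ℝ) (u : Fin m → ℝ) (hu : u ⬝ᵥ u = 1) :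
    (u ᵥ* A) ⬝ᵥ (u ᵥ* A) ≤ ∑ i, ∑ j, A i j ^ 2 := by
  rw [dot_self_eq, Finset.sum_comm]
  refine Finset.sum_le_sum fun j _ => ?_
  have := cs_dot u (fun i => A i j)
  rw [hu, one_mul, dot_self_eq] at this
  exact this

lemma gap_main {m n : ℕ} (hmn : m ≤ n) (Abar : Matrix (Fin m) (Fin n) ℝ)
    (hA : (∑ i, ∑ j, Abar i j ^ 2) ≤ 1) (σ : ℝ≥0) (hσ : 0 < σ) (hσ1 : σ ≤ 1) (x : ℝ) (hx : 1 < x)
    (E : Set (Fin m → Fin n → ℝ))
    (hE : ∀ G ∈ E, ∃ (u1 u2 : Fin m → ℝ) (s1 s2 : ℝ), u1 ⬝ᵥ u1 = 1 ∧ u2 ⬝ᵥ u2 = 1 ∧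
      u1 ⬝ᵥ u2 = 0 ∧ ((Abar + of G) * (Abar + of G)ᵀ) *ᵥ u1 = s1 ^ 2 • u1 ∧
      ((Abar + of G) * (Abar + of G)ᵀ) *ᵥ u2 = s2 ^ 2 • u2 ∧ 0 ≤ s2 ∧ s2 ≤ s1 ∧
      s1 - s2 ≤ s2 / x) :
    (Measure.pi fun _ : Fin m => Measure.pi fun _ : Fin n => gaussianReal 0 (σ ^ 2)) E
      ≤ ENNReal.ofReal (6 * (n : ℝ) ^ 3 / Real.sqrt x / σ) := by
  rcases E.eq_empty_or_nonempty with rfl | ⟨G1, hG1⟩
  · simp
  have hm : 1 ≤ m := by
    obtain ⟨u1, _, _, _, h1, _⟩ := hE G1 hG1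
    obtain ⟨i, _⟩ := exists_big u1 h1
    exact i.pos
  set P := Measure.pi fun _ : Fin m => Measure.pi fun _ : Fin n => gaussianReal 0 (σ ^ 2)
    with hP
  have hx0 : 0 < x := by linarith
  set r := Real.sqrt x with hr
  have r1 : 1 ≤ r := Real.one_le_sqrt.2 hx.le
  have rr : r * r = x := Real.mul_self_sqrt hx0.le
  set T := Real.sqrt r with hT
  have TT : T ^ 2 = r := Real.sq_sqrt (by linarith)
  have T1 : 1 ≤ T := Real.one_le_sqrt.2 r1
  have hs : (0 : ℝ) < σ := hσ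
  have hs1 : (σ : ℝ) ≤ 1 := hσ1
  have hsub : E ⊆ {G | ENNReal.ofReal r ≤ ENNReal.ofReal (2 + 2 * ∑ i, ∑ j, G i j ^ 2)} ∪
      ⋃ i, {G | ∃ p ∈ KK m T, (G, p) ∈ Cl Abar i x} := by
    intro G hG
    obtain ⟨u1, u2, s1, s2, h1, h2, h12, e1, e2, h0, hs, hg⟩ := hE G hG
    by_cases hc : s1 ≤ T
    · right
      obtain ⟨i, hi⟩ := exists_big u1 h1
      refine mem_iUnion.2 ⟨i, (u1, u2, s1, s2), ⟨h1, h2, ⟨h0.trans hs, hc⟩, h0, hs.trans hc⟩,
        h12, e1, e2, hs, (le_div_iff₀ hx0).1 hg, by simpa using hi⟩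
    · left
      apply ENNReal.ofReal_le_ofReal
      have k1 := gram (Abar + of G) u1 u1
      rw [e1, dotProduct_smul, h1, smul_eq_mul, mul_one] at k1
      have k2 := vecMul_le (Abar + of G) u1 h1
      have k3 : ∑ i, ∑ j, (Abar + of G) i j ^ 2
          ≤ 2 * ∑ i, ∑ j, Abar i j ^ 2 + 2 * ∑ i, ∑ j, G i j ^ 2 := by
        simp only [Finset.mul_sum, ← Finset.sum_add_distrib]
        refine Finset.sum_le_sum fun i _ => Finset.sum_le_sum fun j _ => ?_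
        simp only [Matrix.add_apply, of_apply]
        nlinarith [sq_nonneg (Abar i j - G i j)]
      nlinarith
  have hmeas : Measurable fun G : Fin m → Fin n → ℝ =>
      ENNReal.ofReal (2 + 2 * ∑ i, ∑ j, G i j ^ 2) := by fun_prop
  have hn : (1 : ℝ) ≤ n := by exact_mod_cast hm.trans hmn
  have hmn' : (m : ℝ) ≤ n := by exact_mod_cast hmn
  have hm' : (1 : ℝ) ≤ m := by exact_mod_cast hm
  have b1 : P {G | ENNReal.ofReal r ≤ ENNReal.ofReal (2 + 2 * ∑ i, ∑ j, G i j ^ 2)}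
      ≤ ENNReal.ofReal (4 * (n : ℝ) ^ 3 / r / σ) := by
    refine (meas_ge_le_lintegral_div hmeas.aemeasurable (by simp; linarith)
      ENNReal.ofReal_ne_top).trans ?_
    have e : ∀ G : Fin m → Fin n → ℝ, ENNReal.ofReal (2 + 2 * ∑ i, ∑ j, G i j ^ 2)
        = 2 + 2 * ENNReal.ofReal (∑ i, ∑ j, G i j ^ 2) := fun G => by
      rw [ENNReal.ofReal_add (by norm_num) (by positivity), ENNReal.ofReal_mul (by norm_num)]
      simp
    simp only [e]
    rw [lintegral_add_left measurable_const, lintegral_const_mul _ (by fun_prop), hP, pipi_sq]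
    have e2 : (∫⁻ _ : Fin m → Fin n → ℝ, (2 : ℝ≥0∞) ∂(Measure.pi fun _ : Fin m =>
        Measure.pi fun _ : Fin n => gaussianReal 0 (σ ^ 2))) + 2 * ((Fintype.card (Fin m) : ℝ≥0∞)
        * ((Fintype.card (Fin n) : ℝ≥0∞) * ((σ ^ 2 : ℝ≥0) : ℝ≥0∞)))
        = ENNReal.ofReal (2 + 2 * (m * (n * (σ : ℝ) ^ 2))) := by
      rw [ENNReal.ofReal_add (by norm_num) (by positivity), ENNReal.ofReal_mul (by norm_num),
        ENNReal.ofReal_mul (by positivity), ENNReal.ofReal_mul (by positivity),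
        ENNReal.ofReal_pow hs.le]
      simp
    rw [e2, ← ENNReal.ofReal_div_of_pos (by linarith)]
    apply ENNReal.ofReal_le_ofReal
    rw [div_div, div_le_div_iff₀ (by linarith) (by positivity)]
    have k1 : (σ : ℝ) ^ 2 ≤ 1 := by nlinarith
    have k2 : (m : ℝ) * (n * (σ : ℝ) ^ 2) ≤ n * (n * 1) := by gcongr
    have k3 : (n : ℝ) * n ≤ n ^ 3 := by nlinarith
    have k4 : (1 : ℝ) ≤ n ^ 3 := one_le_pow₀ hn
    have k5 : 2 + 2 * (m * (n * (σ : ℝ) ^ 2)) ≤ 4 * (n : ℝ) ^ 3 := by linarith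
    calc _ ≤ 4 * (n : ℝ) ^ 3 * (r * 1) := by gcongr
      _ = _ := by ring
  have b2 : P (⋃ i, {G | ∃ p ∈ KK m T, (G, p) ∈ Cl Abar i x})
      ≤ ENNReal.ofReal (2 * (n : ℝ) ^ 3 / r / σ) := by
    refine (measure_iUnion_fintype_le P _).trans ((Finset.sum_le_sum fun i _ =>
      C_bound hmn Abar i x T hx0 σ hσ).trans ?_)
    rw [Finset.sum_const, Finset.card_univ, Fintype.card_fin, nsmul_eq_mul,
      ← ENNReal.ofReal_natCast, ← ENNReal.ofReal_mul (by positivity),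
      ← ENNReal.ofReal_mul (by positivity)]
    apply ENNReal.ofReal_le_ofReal
    have k1 : Real.sqrt m ≤ n := by
      rw [Real.sqrt_le_left (by positivity)]; nlinarith
    have k2 : T ≤ r := by nlinarith
    calc (m : ℝ) * (m * (2 * T * Real.sqrt m / x / σ)) ≤ n * (n * (2 * r * n / x / σ)) := by
          gcongr
      _ = _ := by rw [← rr]; field_simp
  refine (measure_mono hsub).trans ((measure_union_le _ _).trans ((add_le_add b1 b2).trans
    (le_of_eq ?_)))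
  rw [← ENNReal.ofReal_add (by positivity) (by positivity)]
  congr 1
  ring

end Pool.Agent.H32.GM
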