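import Mathlib
import Pool.Agent.H32.Gap

set_option autoImplicit false
open MeasureTheory ProbabilityTheory Set Filter Topology Matrix
open scoped ENNReal NNReal

namespace Pool.Agent.H32.GM

noncomputable abbrev gv (n : ℕ) : Measure (Fin n → ℝ) := Measure.pi fun _ => gaussianReal 0 1
noncomputable abbrev gm (n : ℕ) : Measure (Fin n → Fin n → ℝ) := Measure.pi fun _ => gv n

lemma ext_vec {n : ℕ} (μ ν : Measure (Fin n → ℝ)) [IsFiniteMeasure μ] [IsFiniteMeasure ν]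
    (h : ∀ t : Fin n → ℝ, ∫ x, Complex.exp ((∑ j, t j * x j : ℝ) * Complex.I) ∂μ
      = ∫ x, Complex.exp ((∑ j, t j * x j : ℝ) * Complex.I) ∂ν) : μ = ν := by
  apply Measure.ext_of_charFunDual
  ext L
  have e : ∀ x : Fin n → ℝ, L x = ∑ j, L (Pi.single j 1) * x j := by
    intro x
    conv_lhs => rw [← Finset.univ_sum_single x, map_sum]
    refine Finset.sum_congr rfl fun j _ => ?_
    have : (Pi.single j (x j) : Fin n → ℝ) = x j • Pi.single j 1 := by
      rw [← Pi.single_smul]; simp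
    rw [this, map_smul, smul_eq_mul, mul_comm]
  have := h fun j => L (Pi.single j 1)
  simp only [← e] at this
  exact this

lemma ext_mat {n : ℕ} (μ ν : Measure (Fin n → Fin n → ℝ)) [IsFiniteMeasure μ]
    [IsFiniteMeasure ν]
    (h : ∀ t : Fin n → Fin n → ℝ,
      ∫ x, Complex.exp ((∑ i, ∑ j, t i j * x i j : ℝ) * Complex.I) ∂μ
      = ∫ x, Complex.exp ((∑ i, ∑ j, t i j * x i j : ℝ) * Complex.I) ∂ν) : μ = ν := by
  apply Measure.ext_of_charFunDual
  ext L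
  have e : ∀ x : Fin n → Fin n → ℝ,
      L x = ∑ i, ∑ j, L (Pi.single i (Pi.single j 1)) * x i j := by
    intro x
    have hx : x = ∑ i, ∑ j, x i j • (Pi.single i (Pi.single j 1) : Fin n → Fin n → ℝ) := by
      ext a b
      simp [Finset.sum_apply, Pi.single_apply, ite_apply]
    conv_lhs => rw [hx, map_sum]
    refine Finset.sum_congr rfl fun i _ => ?_
    rw [map_sum]
    refine Finset.sum_congr rfl fun j _ => ?_
    rw [map_smul, smul_eq_mul, mul_comm]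
  have := h fun i j => L (Pi.single i (Pi.single j 1))
  simp only [← e] at this
  exact this

lemma gv_char {n : ℕ} (t : Fin n → ℝ) :
    ∫ x, Complex.exp ((∑ j, t j * x j : ℝ) * Complex.I) ∂gv n
      = Complex.exp (-((∑ j, t j ^ 2 : ℝ) : ℂ) / 2) := by
  have := pi_char 1 t
  simpa using this

lemma gm_char {n : ℕ} (t : Fin n → Fin n → ℝ) :
    ∫ x, Complex.exp ((∑ i, ∑ j, t i j * x i j : ℝ) * Complex.I) ∂gm n
      = Complex.exp (-((∑ i, ∑ j, t i j ^ 2 : ℝ) : ℂ) / 2) := by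
  have e : ∀ x : Fin n → Fin n → ℝ, Complex.exp ((∑ i, ∑ j, t i j * x i j : ℝ) * Complex.I)
      = ∏ i, Complex.exp ((∑ j, t i j * x i j : ℝ) * Complex.I) := by
    intro x
    rw [← Complex.exp_sum, Complex.ofReal_sum, Finset.sum_mul]
  simp only [e]
  rw [integral_fintype_prod_eq_prod
    (fun i (y : Fin n → ℝ) => Complex.exp ((∑ j, t i j * y j : ℝ) * Complex.I))]
  simp only [gv_char]
  rw [← Complex.exp_sum, Complex.ofReal_sum, neg_div, Finset.sum_div, ← Finset.sum_neg_distrib]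
  simp only [neg_div]

lemma g1_char (t : ℝ) : ∫ x, Complex.exp ((t * x : ℝ) * Complex.I) ∂gaussianReal 0 1
    = Complex.exp (-((t ^ 2 : ℝ) : ℂ) / 2) := by
  have h := charFun_gaussianReal (μ := 0) (v := 1) t
  rw [charFun_apply_real] at h
  push_cast
  rw [h]
  simp [neg_div]

lemma proj_sq {n : ℕ} (w t : Fin n → ℝ) (hw : w ⬝ᵥ w = 1) :
    ∑ j, (t j - (t ⬝ᵥ w) * w j) ^ 2 + (t ⬝ᵥ w) ^ 2 = ∑ j, t j ^ 2 := by
  have e : ∀ j, (t j - (t ⬝ᵥ w) * w j) ^ 2
      = t j ^ 2 - 2 * (t ⬝ᵥ w) * (t j * w j) + (t ⬝ᵥ w) ^ 2 * (w j * w j) := fun j => by ring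
  simp only [e, Finset.sum_add_distrib, Finset.sum_sub_distrib, ← Finset.mul_sum]
  have h1 : ∑ j, t j * w j = t ⬝ᵥ w := rfl
  have h2 : ∑ j, w j * w j = 1 := hw
  rw [h1, h2]; ring

lemma proj_lin {n : ℕ} (w t x : Fin n → ℝ) (e : ℝ) :
    ∑ j, t j * (x j - (x ⬝ᵥ w) * w j + e * w j)
      = ∑ j, (t j - (t ⬝ᵥ w) * w j) * x j + (t ⬝ᵥ w) * e := by
  have e1 : ∀ j, t j * (x j - (x ⬝ᵥ w) * w j + e * w j)
      = t j * x j - (x ⬝ᵥ w) * (t j * w j) + e * (t j * w j) := fun j => by ring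
  have e2 : ∀ j, (t j - (t ⬝ᵥ w) * w j) * x j = t j * x j - (t ⬝ᵥ w) * (x j * w j) :=
    fun j => by ring
  simp only [e1, e2, Finset.sum_add_distrib, Finset.sum_sub_distrib, ← Finset.mul_sum]
  have h1 : ∑ j, t j * w j = t ⬝ᵥ w := rfl
  have h2 : ∑ j, x j * w j = x ⬝ᵥ w := rfl
  rw [h1, h2]; ring

def Psi {n : ℕ} (w : Fin n → ℝ) (p : (Fin n → ℝ) × ℝ) : Fin n → ℝ :=
  fun j => p.1 j - (p.1 ⬝ᵥ w) * w j + p.2 * w j

def Phi {n : ℕ} (v : Fin n → ℝ) (p : (Fin n → Fin n → ℝ) × (Fin n → ℝ)) : Fin n → Fin n → ℝ :=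
  fun i => Psi v (p.1 i, p.2 i)

lemma Psi_cont {n : ℕ} (w : Fin n → ℝ) : Continuous (Psi w) := by unfold Psi; fun_prop

lemma Phi_cont {n : ℕ} (w : Fin n → ℝ) : Continuous (Phi w) := by unfold Phi Psi; fun_prop

lemma split_vec {n : ℕ} (w : Fin n → ℝ) (hw : w ⬝ᵥ w = 1) :
    ((gv n).prod (gaussianReal 0 1)).map (Psi w) = gv n := by
  apply ext_vec
  intro t
  rw [integral_map (Psi_cont w).measurable.aemeasurable
    (Continuous.aestronglyMeasurable (by fun_prop)), gv_char]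
  have e : ∀ p : (Fin n → ℝ) × ℝ, Complex.exp ((∑ j, t j * Psi w p j : ℝ) * Complex.I)
      = Complex.exp ((∑ j, (t j - (t ⬝ᵥ w) * w j) * p.1 j : ℝ) * Complex.I)
        * Complex.exp (((t ⬝ᵥ w) * p.2 : ℝ) * Complex.I) := by
    intro p
    rw [← Complex.exp_add, ← add_mul, ← Complex.ofReal_add, ← proj_lin]
    rfl
  simp only [e]
  rw [integral_prod_mul (fun x : Fin n → ℝ =>
    Complex.exp ((∑ j, (t j - (t ⬝ᵥ w) * w j) * x j : ℝ) * Complex.I))
    (fun y : ℝ => Complex.exp (((t ⬝ᵥ w) * y : ℝ) * Complex.I)), gv_char, g1_char,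
    ← Complex.exp_add, ← proj_sq w t hw, Complex.ofReal_add]
  congr 1; ring

lemma split_mat {n : ℕ} (w : Fin n → ℝ) (hw : w ⬝ᵥ w = 1) :
    ((gm n).prod (gv n)).map (Phi w) = gm n := by
  apply ext_mat
  intro t
  rw [integral_map (Phi_cont w).measurable.aemeasurable
    (Continuous.aestronglyMeasurable (by fun_prop)), gm_char]
  have e : ∀ p : (Fin n → Fin n → ℝ) × (Fin n → ℝ),
      Complex.exp ((∑ i, ∑ j, t i j * Phi w p i j : ℝ) * Complex.I)
      = Complex.exp ((∑ i, ∑ j, (t i j - (t i ⬝ᵥ w) * w j) * p.1 i j : ℝ) * Complex.I)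
        * Complex.exp ((∑ i, (t i ⬝ᵥ w) * p.2 i : ℝ) * Complex.I) := by
    intro p
    rw [← Complex.exp_add, ← add_mul, ← Complex.ofReal_add, ← Finset.sum_add_distrib]
    simp only [← proj_lin]
    rfl
  simp only [e]
  rw [integral_prod_mul (fun x : Fin n → Fin n → ℝ =>
    Complex.exp ((∑ i, ∑ j, (t i j - (t i ⬝ᵥ w) * w j) * x i j : ℝ) * Complex.I))
    (fun y : Fin n → ℝ => Complex.exp ((∑ i, (t i ⬝ᵥ w) * y i : ℝ) * Complex.I)), gm_char,
    gv_char, ← Complex.exp_add]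
  have : ∑ i, ∑ j, t i j ^ 2 = ∑ i, ∑ j, (t i j - (t i ⬝ᵥ w) * w j) ^ 2 + ∑ i, (t i ⬝ᵥ w) ^ 2 := by
    rw [← Finset.sum_add_distrib]
    exact Finset.sum_congr rfl fun i _ => (proj_sq w (t i) hw).symm
  rw [this, Complex.ofReal_add]
  congr 1; ring

noncomputable def nv {n : ℕ} (x : Fin n → ℝ) : ℝ := ‖(WithLp.toLp 2 x : EuclideanSpace ℝ (Fin n))‖

noncomputable def opn {n : ℕ} (M : Matrix (Fin n) (Fin n) ℝ) : ℝ :=
  ‖Matrix.toEuclideanCLM (𝕜 := ℝ) M‖

lemma nv_nonneg {n : ℕ} (x : Fin n → ℝ) : 0 ≤ nv x := norm_nonneg _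
lemma opn_nonneg {n : ℕ} (M : Matrix (Fin n) (Fin n) ℝ) : 0 ≤ opn M := norm_nonneg _

lemma nv_sq {n : ℕ} (x : Fin n → ℝ) : nv x ^ 2 = x ⬝ᵥ x := by
  unfold nv
  rw [EuclideanSpace.real_norm_sq_eq, dot_self_eq]

lemma nv_unit {n : ℕ} {x : Fin n → ℝ} (h : x ⬝ᵥ x = 1) : nv x = 1 := by
  have h1 := nv_sq x
  have h2 := nv_nonneg x
  rw [h] at h1
  nlinarith

lemma nv_add {n : ℕ} (x y : Fin n → ℝ) : nv (x + y) ≤ nv x + nv y := by
  unfold nv; rw [WithLp.toLp_add]; exact norm_add_le _ _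

lemma nv_smul {n : ℕ} (c : ℝ) (x : Fin n → ℝ) : nv (c • x) = |c| * nv x := by
  unfold nv; rw [WithLp.toLp_smul, norm_smul, Real.norm_eq_abs]

lemma nv_cont {n : ℕ} : Continuous (nv : (Fin n → ℝ) → ℝ) := by
  unfold nv; fun_prop

lemma dot_le {n : ℕ} (x y : Fin n → ℝ) : |x ⬝ᵥ y| ≤ nv x * nv y := by
  apply abs_le_of_sq_le_sq _ (mul_nonneg (nv_nonneg _) (nv_nonneg _))
  rw [mul_pow, nv_sq, nv_sq]
  exact cs_dot x y

lemma opn_bound {n : ℕ} (M : Matrix (Fin n) (Fin n) ℝ) (x : Fin n → ℝ) :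
    nv (M *ᵥ x) ≤ opn M * nv x := by
  unfold nv opn
  rw [← toEuclideanCLM_toLp]
  exact ContinuousLinearMap.le_opNorm _ _

lemma opn_le {n : ℕ} (M : Matrix (Fin n) (Fin n) ℝ) (C : ℝ) (hC : 0 ≤ C)
    (h : ∀ x, nv (M *ᵥ x) ≤ C * nv x) : opn M ≤ C := by
  refine ContinuousLinearMap.opNorm_le_bound _ hC fun x => ?_
  have := h x.ofLp
  unfold nv at this
  rwa [← toEuclideanCLM_toLp, WithLp.toLp_ofLp] at this

lemma opn_cont {n : ℕ} : Continuous (opn : Matrix (Fin n) (Fin n) ℝ → ℝ) := by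
  have : Continuous fun M : Matrix (Fin n) (Fin n) ℝ => Matrix.toEuclideanCLM (𝕜 := ℝ) M :=
    LinearMap.continuous_of_finiteDimensional
      (Matrix.toEuclideanCLM (𝕜 := ℝ) (n := Fin n)).toAlgEquiv.toLinearMap
  exact this.norm

lemma Psi_eq {n : ℕ} (w x : Fin n → ℝ) (e : ℝ) :
    Psi w (x, e) = x + (-(x ⬝ᵥ w)) • w + e • w := by
  ext j; simp [Psi]; ring

lemma Psi_dot {n : ℕ} (w x : Fin n → ℝ) (e : ℝ) (hw : w ⬝ᵥ w = 1) : w ⬝ᵥ Psi w (x, e) = e := by
  rw [Psi_eq, dotProduct_add, dotProduct_add, dotProduct_smul, dotProduct_smul, hw,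
    dotProduct_comm w x]
  simp

lemma Psi_nv {n : ℕ} (w x : Fin n → ℝ) (e : ℝ) (hw : w ⬝ᵥ w = 1) :
    nv (Psi w (x, e)) ≤ 2 * nv x + |e| := by
  rw [Psi_eq]
  have h1 := nv_add (x + (-(x ⬝ᵥ w)) • w) (e • w)
  have h2 := nv_add x ((-(x ⬝ᵥ w)) • w)
  have h3 := dot_le x w
  rw [nv_smul, nv_unit hw] at h1 h2
  rw [nv_unit hw] at h3
  rw [abs_neg] at h2
  linarith

lemma rho_int {n : ℕ} (hn : 1 ≤ n) :
    ∫⁻ x, ENNReal.ofReal (Real.sqrt n + (∑ j, x j ^ 2) / Real.sqrt n) ∂gv n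
      = ENNReal.ofReal (2 * Real.sqrt n) := by
  have hs : 0 < Real.sqrt n := Real.sqrt_pos.2 (by exact_mod_cast hn)
  have e : ∀ x : Fin n → ℝ, ENNReal.ofReal (Real.sqrt n + (∑ j, x j ^ 2) / Real.sqrt n)
      = ENNReal.ofReal (Real.sqrt n)
        + ENNReal.ofReal (1 / Real.sqrt n) * ENNReal.ofReal (∑ j, x j ^ 2) := fun x => by
    rw [ENNReal.ofReal_add hs.le (by positivity), ← ENNReal.ofReal_mul (by positivity)]
    congr 2; ring
  simp only [e]
  rw [lintegral_add_left measurable_const, lintegral_const_mul _ (by fun_prop), pi_sq,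
    lintegral_const, measure_univ, mul_one, Fintype.card_fin, ENNReal.coe_one, mul_one,
    ← ENNReal.ofReal_natCast, ← ENNReal.ofReal_mul (by positivity),
    ← ENNReal.ofReal_add hs.le (by positivity)]
  congr 1
  have := Real.mul_self_sqrt (Nat.cast_nonneg (α := ℝ) n)
  field_simp
  nlinarith

lemma nv_le_rho {n : ℕ} (hn : 1 ≤ n) (x : Fin n → ℝ) :
    nv x ≤ Real.sqrt n + (∑ j, x j ^ 2) / Real.sqrt n := by
  have hs : 0 < Real.sqrt n := Real.sqrt_pos.2 (by exact_mod_cast hn)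
  rw [← dot_self_eq, ← nv_sq, ← sub_le_iff_le_add', le_div_iff₀ hs]
  nlinarith [sq_nonneg (nv x - Real.sqrt n), nv_nonneg x, mul_nonneg (nv_nonneg x) hs.le]

lemma inner_bound {n : ℕ} (hn : 1 ≤ n) (w : Fin n → ℝ) (hw : w ⬝ᵥ w = 1) (c D y σ : ℝ)
    (hD : 0 ≤ D) (hy : 2 ≤ y) (hσ : 0 < σ) (hσ1 : σ ≤ 1) :
    gv n {x | y * |c + σ * (w ⬝ᵥ x)| ≤ D + σ * nv x}
      ≤ ENNReal.ofReal (2 / (y * σ) * (D + |c| + 4 * Real.sqrt n)) := by
  have hm : MeasurableSet {x : Fin n → ℝ | y * |c + σ * (w ⬝ᵥ x)| ≤ D + σ * nv x} := by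
    have := nv_cont (n := n)
    exact (isClosed_le (by fun_prop) (by fun_prop)).measurableSet
  have hP := (Psi_cont w).measurable
  have hs : 0 < Real.sqrt n := Real.sqrt_pos.2 (by exact_mod_cast hn)
  have hk : 0 < 2 / (y * σ) := by positivity
  conv_lhs => rw [← split_vec w hw]
  rw [Measure.map_apply hP hm, Measure.prod_apply (hP hm)]
  calc _ ≤ ∫⁻ x, (ENNReal.ofReal (2 / (y * σ) * (D + |c|)) + ENNReal.ofReal (2 / (y * σ) * 2) *
        ENNReal.ofReal (Real.sqrt n + (∑ j, x j ^ 2) / Real.sqrt n)) ∂gv n := by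
        apply lintegral_mono
        intro x
        have h0 := nv_nonneg x
        have hr := nv_le_rho hn x
        have := small1 c σ (2 / y * (D + |c| + 2 * nv x)) hσ
        refine le_trans (measure_mono fun e he => ?_) (this.trans ?_)
        · simp only [mem_preimage, Set.mem_ofPred_eq, Psi_dot w x e hw] at he ⊢
          have h1 := Psi_nv w x e hw
          have h2 : σ * |e| ≤ |c + σ * e| + |c| := by
            have := abs_sub (c + σ * e) c
            rwa [add_sub_cancel_left, abs_mul, abs_of_pos hσ] at this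
          have h3 : σ * nv (Psi w (x, e)) ≤ σ * (2 * nv x + |e|) :=
            mul_le_mul_of_nonneg_left h1 hσ.le
          have h4 : σ * (2 * nv x) ≤ 2 * nv x := mul_le_of_le_one_left (by positivity) hσ1
          rw [div_mul_eq_mul_div, le_div_iff₀ (by linarith)]
          nlinarith [abs_nonneg (c + σ * e)]
        · simp only []
          rw [← ENNReal.ofReal_mul (by positivity),
            ← ENNReal.ofReal_add (by positivity) (by positivity)]
          apply ENNReal.ofReal_le_ofReal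
          have : 2 / y * (D + |c| + 2 * nv x) / σ
              = 2 / (y * σ) * (D + |c|) + 2 / (y * σ) * 2 * nv x := by field_simp
          rw [this]
          gcongr
    _ = _ := by
        rw [lintegral_add_left measurable_const, lintegral_const_mul _ (by fun_prop),
          rho_int hn, lintegral_const, measure_univ, mul_one,
          ← ENNReal.ofReal_mul (by positivity),
          ← ENNReal.ofReal_add (by positivity) (by positivity)]
        congr 1; ring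

end Pool.Agent.H32.GM
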