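import Mathlib
import Pool.Agent.H32.Cond

set_option autoImplicit false
open MeasureTheory ProbabilityTheory Set Filter Topology Matrix
open scoped ENNReal NNReal

namespace Pool.Agent.H32.GM

lemma exists_net (n : ℕ) : ∃ N : Finset (EuclideanSpace ℝ (Fin n)), N.card ≤ 5 ^ n ∧
    (∀ c ∈ N, ‖c‖ ≤ 2) ∧ ∀ x : EuclideanSpace ℝ (Fin n), ‖x‖ ≤ 2 → ∃ c ∈ N, ‖x - c‖ < 1 := by
  classical
  let P : Finset (EuclideanSpace ℝ (Fin n)) → Prop := fun s =>
    (∀ c ∈ s, ‖c‖ ≤ 2) ∧ ∀ c ∈ s, ∀ d ∈ s, c ≠ d → 1 ≤ ‖c - d‖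
  have hb : ∀ s, P s → s.card ≤ 5 ^ n := fun s hs => by
    have := Besicovitch.card_le_of_separated s hs.1 hs.2
    simpa using this
  let Q : ℕ → Prop := fun k => ∃ s, P s ∧ s.card = k
  have h0 : Q 0 := ⟨∅, ⟨by simp, by simp⟩, rfl⟩
  obtain ⟨s, hs, hk⟩ : Q (Nat.findGreatest Q (5 ^ n)) :=
    Nat.findGreatest_spec (Nat.zero_le _) h0
  refine ⟨s, hb s hs, hs.1, fun x hx => ?_⟩
  by_contra hc
  push Not at hc
  have hxs : x ∉ s := fun h => by
    have := hc x h
    simp at this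
    linarith
  have hP : P (insert x s) := by
    refine ⟨fun c hc' => ?_, fun c hc' d hd hcd => ?_⟩
    · rcases Finset.mem_insert.1 hc' with rfl | h
      · exact hx
      · exact hs.1 c h
    · rcases Finset.mem_insert.1 hc' with rfl | h <;> rcases Finset.mem_insert.1 hd with rfl | h'
      · exact absurd rfl hcd
      · exact hc d h'
      · rw [norm_sub_rev]; exact hc c h
      · exact hs.2 c h d h' hcd
  have h1 := Nat.le_findGreatest (P := Q) (hb _ hP) ⟨_, hP, rfl⟩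
  rw [Finset.card_insert_of_notMem hxs, hk] at h1
  omega

lemma opn_net {n : ℕ} (N : Finset (EuclideanSpace ℝ (Fin n)))
    (hN : ∀ x : EuclideanSpace ℝ (Fin n), ‖x‖ ≤ 2 → ∃ c ∈ N, ‖x - c‖ < 1)
    (M : Matrix (Fin n) (Fin n) ℝ) (B : ℝ) (hB : 0 ≤ B) (h : ∀ c ∈ N, nv (M *ᵥ c.ofLp) ≤ B) :
    opn M ≤ B := by
  set T := Matrix.toEuclideanCLM (𝕜 := ℝ) M with hT
  have h1 : ‖T‖ ≤ (B + ‖T‖) / 2 := by
    refine ContinuousLinearMap.opNorm_le_of_unit_norm (by positivity) fun x hx => ?_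
    obtain ⟨c, hc, hxc⟩ := hN ((2 : ℝ) • x) (by rw [norm_smul, hx]; simp)
    have h2 := h c hc
    unfold nv at h2
    rw [← toEuclideanCLM_toLp, WithLp.toLp_ofLp, ← hT] at h2
    have h3 : T ((2 : ℝ) • x) = T c + T ((2 : ℝ) • x - c) := by rw [← map_add]; simp
    have h4 : ‖T ((2 : ℝ) • x - c)‖ ≤ ‖T‖ * 1 :=
      (T.le_opNorm _).trans (mul_le_mul_of_nonneg_left hxc.le (norm_nonneg _))
    have h5 := norm_add_le (T c) (T ((2 : ℝ) • x - c))
    rw [← h3, map_smul, norm_smul] at h5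
    simp only [Real.norm_ofNat] at h5
    linarith
  unfold opn
  linarith

lemma exp_sq : ∫⁻ z, ENNReal.ofReal (Real.exp (z ^ 2 / 4)) ∂gaussianReal 0 1 ≤ 2 := by
  rw [gaussianReal_of_var_ne_zero _ one_ne_zero,
    lintegral_withDensity_eq_lintegral_mul _ (measurable_gaussianPDF _ _) (by fun_prop)]
  have hi := integrable_exp_neg_mul_sq (b := 1 / 4) (by norm_num)
  calc _ ≤ ∫⁻ z, ENNReal.ofReal (1 / 2 * Real.exp (-(1 / 4) * z ^ 2)) := by
        refine lintegral_mono fun z => ?_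
        simp only [Pi.mul_apply, gaussianPDF]
        rw [← ENNReal.ofReal_mul (gaussianPDFReal_nonneg _ _ _)]
        apply ENNReal.ofReal_le_ofReal
        unfold gaussianPDFReal
        have h2 : 2 ≤ Real.sqrt (2 * Real.pi * (1 : ℝ≥0)) := by
          apply Real.le_sqrt_of_sq_le
          have := Real.pi_gt_three
          simp; linarith
        have h3 : (Real.sqrt (2 * Real.pi * (1 : ℝ≥0)))⁻¹ ≤ 1 / 2 := by
          rw [inv_eq_one_div]; exact one_div_le_one_div_of_le (by norm_num) h2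
        rw [mul_assoc, ← Real.exp_add]
        have : -(z - 0) ^ 2 / (2 * ((1 : ℝ≥0) : ℝ)) + z ^ 2 / 4 = -(1 / 4) * z ^ 2 := by
          simp; ring
        rw [this]
        gcongr
    _ = ENNReal.ofReal (1 / 2 * Real.sqrt (Real.pi / (1 / 4))) := by
        rw [← ofReal_integral_eq_lintegral_ofReal (hi.const_mul _)
          (Eventually.of_forall fun z => by positivity), integral_const_mul, integral_gaussian]
    _ ≤ ENNReal.ofReal 2 := by
        apply ENNReal.ofReal_le_ofReal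
        have : Real.sqrt (Real.pi / (1 / 4)) ≤ 4 := by
          rw [Real.sqrt_le_left (by norm_num)]
          have := Real.pi_lt_four
          linarith
        linarith
    _ = 2 := by simp

lemma exp_row {n : ℕ} (c : Fin n → ℝ) (hc : c ⬝ᵥ c ≤ 4) :
    ∫⁻ r, ENNReal.ofReal (Real.exp ((r ⬝ᵥ c) ^ 2 / 16)) ∂gv n ≤ 2 := by
  have hm : Measurable fun x : Fin n → ℝ => ∑ j, c j * x j := by fun_prop
  have h1 := lintegral_map (μ := gv n) (f := fun z : ℝ => ENNReal.ofReal (Real.exp (z ^ 2 / 16)))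
    (by fun_prop) hm
  rw [lin_law, lintegral_map (by fun_prop) (by fun_prop)] at h1
  have e : ∀ r : Fin n → ℝ, r ⬝ᵥ c = ∑ j, c j * r j := fun r => dotProduct_comm r c
  simp only [e]
  rw [← h1]
  refine le_trans (lintegral_mono fun z => ENNReal.ofReal_le_ofReal (Real.exp_le_exp.2 ?_)) exp_sq
  rw [mul_pow, Real.sq_sqrt (by positivity), ← dot_self_eq]
  simp only [NNReal.coe_one, one_mul]
  nlinarith [sq_nonneg z]

lemma exp_mat {n : ℕ} (c : Fin n → ℝ) (hc : c ⬝ᵥ c ≤ 4) :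
    ∫⁻ G, ENNReal.ofReal (Real.exp (nv (of G *ᵥ c) ^ 2 / 16)) ∂gm n ≤ 2 ^ n := by
  have e : ∀ G : Fin n → Fin n → ℝ, ENNReal.ofReal (Real.exp (nv (of G *ᵥ c) ^ 2 / 16))
      = ∏ i, ENNReal.ofReal (Real.exp ((G i ⬝ᵥ c) ^ 2 / 16)) := by
    intro G
    rw [nv_sq, dot_self_eq, Finset.sum_div, Real.exp_sum,
      ENNReal.ofReal_prod_of_nonneg fun i _ => (Real.exp_pos _).le]
    rfl
  simp only [e]
  have hf : Measurable fun r : Fin n → ℝ => ENNReal.ofReal (Real.exp ((r ⬝ᵥ c) ^ 2 / 16)) := by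
    have : Continuous fun r : Fin n → ℝ => Real.exp ((r ⬝ᵥ c) ^ 2 / 16) := by fun_prop
    exact this.measurable.ennreal_ofReal
  have hI : iIndepFun (fun (i : Fin n) (G : Fin n → Fin n → ℝ) =>
      ENNReal.ofReal (Real.exp ((G i ⬝ᵥ c) ^ 2 / 16))) (gm n) :=
    iIndepFun_pi (X := fun _ r => ENNReal.ofReal (Real.exp ((r ⬝ᵥ c) ^ 2 / 16)))
      fun _ => hf.aemeasurable
  rw [lintegral_prod_eq_prod_lintegral_of_indepFun _ _ hI
    fun i => hf.comp (measurable_pi_apply i)]
  calc _ ≤ ∏ _i : Fin n, (2 : ℝ≥0∞) := by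
        refine Finset.prod_le_prod' fun i _ => ?_
        rw [(measurePreserving_eval (fun _ : Fin n => gv n) i).lintegral_comp hf]
        exact exp_row c hc
    _ = _ := by simp

lemma opn_int {n : ℕ} (hn : 1 ≤ n) :
    ∫⁻ G, ENNReal.ofReal (opn (of G)) ∂gm n ≤ ENNReal.ofReal (65 * Real.sqrt n) := by
  obtain ⟨N, hc, h2, hN⟩ := exists_net n
  have hn' : (1 : ℝ) ≤ n := by exact_mod_cast hn
  have hs : 0 < Real.sqrt n := Real.sqrt_pos.2 (by linarith)
  have hss := Real.mul_self_sqrt (Nat.cast_nonneg (α := ℝ) n)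
  have pt : ∀ G : Fin n → Fin n → ℝ, opn (of G) ≤ 49 * Real.sqrt n
      + 16 * Real.exp (-(3 * n)) * ∑ c ∈ N, Real.exp (nv (of G *ᵥ c.ofLp) ^ 2 / 16) := by
    intro G
    set S := 16 * Real.exp (-(3 * n)) * ∑ c ∈ N, Real.exp (nv (of G *ᵥ c.ofLp) ^ 2 / 16) with hS
    have S0 : 0 ≤ S := by positivity
    refine opn_net N hN _ _ (by positivity) fun c hc => ?_
    set a := nv (of G *ᵥ c.ofLp)
    have a0 : 0 ≤ a := nv_nonneg _
    have k1 : Real.exp (a ^ 2 / 16) ≤ ∑ c ∈ N, Real.exp (nv (of G *ᵥ c.ofLp) ^ 2 / 16) :=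
      Finset.single_le_sum (f := fun c : EuclideanSpace ℝ (Fin n) =>
        Real.exp (nv (of G *ᵥ c.ofLp) ^ 2 / 16)) (fun c _ => (Real.exp_pos _).le) hc
    have k2 : 16 * Real.exp (-(3 * n)) * Real.exp (a ^ 2 / 16) ≤ S := by rw [hS]; gcongr
    rw [mul_assoc, ← Real.exp_add] at k2
    have k3 := Real.add_one_le_exp (-(3 * n) + a ^ 2 / 16)
    have k4 : a ^ 2 ≤ 48 * n + S := by linarith
    have s1 : 1 ≤ Real.sqrt n := Real.one_le_sqrt.2 hn'
    by_contra hcon
    push Not at hcon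
    nlinarith
  have hmeas : ∀ c : EuclideanSpace ℝ (Fin n), Measurable fun G : Fin n → Fin n → ℝ =>
      ENNReal.ofReal (Real.exp (nv (of G *ᵥ c.ofLp) ^ 2 / 16)) := fun c => by
    have h1 : Continuous fun G : Fin n → Fin n → ℝ => of G *ᵥ c.ofLp :=
      Continuous.matrix_mulVec continuous_id continuous_const
    have h3 := nv_cont.comp h1
    have : Continuous fun G : Fin n → Fin n → ℝ => Real.exp (nv (of G *ᵥ c.ofLp) ^ 2 / 16) :=
      Real.continuous_exp.comp ((h3.pow 2).div_const 16)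
    exact this.measurable.ennreal_ofReal
  calc _ ≤ ∫⁻ G, (ENNReal.ofReal (49 * Real.sqrt n) + ENNReal.ofReal (16 * Real.exp (-(3 * n)))
        * ∑ c ∈ N, ENNReal.ofReal (Real.exp (nv (of G *ᵥ c.ofLp) ^ 2 / 16))) ∂gm n := by
        refine lintegral_mono fun G => ?_
        rw [← ENNReal.ofReal_sum_of_nonneg fun c _ => (Real.exp_pos _).le,
          ← ENNReal.ofReal_mul (by positivity),
          ← ENNReal.ofReal_add (by positivity) (by positivity)]
        exact ENNReal.ofReal_le_ofReal (pt G)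
    _ ≤ ENNReal.ofReal (49 * Real.sqrt n) + ENNReal.ofReal (16 * Real.exp (-(3 * n)))
        * ENNReal.ofReal (10 ^ n) := by
        rw [lintegral_add_left measurable_const, lintegral_const, measure_univ, mul_one,
          lintegral_const_mul _ (Finset.measurable_sum _ fun c _ => hmeas c),
          lintegral_finsetSum _ fun c _ => hmeas c]
        gcongr
        calc _ ≤ ∑ _c ∈ N, (2 : ℝ≥0∞) ^ n := by
              refine Finset.sum_le_sum fun c hc => exp_mat _ ?_
              rw [← nv_sq]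
              have h3 : nv c.ofLp ≤ 2 := h2 c hc
              nlinarith [nv_nonneg c.ofLp]
          _ ≤ (5 : ℝ≥0∞) ^ n * 2 ^ n := by
              rw [Finset.sum_const, nsmul_eq_mul]
              gcongr
              exact_mod_cast hc
          _ = _ := by
              rw [← mul_pow, ENNReal.ofReal_pow (by norm_num)]
              norm_num
    _ ≤ _ := by
        rw [← ENNReal.ofReal_mul (by positivity),
          ← ENNReal.ofReal_add (by positivity) (by positivity)]
        apply ENNReal.ofReal_le_ofReal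
        have k1 : (10 : ℝ) ^ n ≤ Real.exp (3 * n) := by
          rw [mul_comm, Real.exp_nat_mul]
          gcongr
          have h1 := Real.exp_one_gt_d9
          have h3 : Real.exp 3 = Real.exp 1 ^ 3 := by rw [← Real.exp_nat_mul]; norm_num
          rw [h3]
          calc (10 : ℝ) ≤ 2.7182818283 ^ 3 := by norm_num
            _ ≤ _ := by gcongr
        have k2 : Real.exp (-(3 * n)) * Real.exp (3 * n) = 1 := by rw [← Real.exp_add]; simp
        have k3 : Real.exp (-(3 * n)) * 10 ^ n ≤ 1 := by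
          rw [← k2]; gcongr
        have s1 : 1 ≤ Real.sqrt n := Real.one_le_sqrt.2 hn'
        nlinarith

end Pool.Agent.H32.GM
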