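import Mathlib
import Pool.Agent.H32.Cond2

set_option autoImplicit false
open MeasureTheory ProbabilityTheory Set Filter Topology Matrix
open scoped ENNReal NNReal

namespace Pool.Agent.H32.GM

lemma A_cont {n : ℕ} (Abar : Matrix (Fin n) (Fin n) ℝ) (σ : ℝ) :
    Continuous fun G : Fin n → Fin n → ℝ => Abar + σ • of G :=
  continuous_const.add (Continuous.const_smul continuous_id σ)

lemma normalize {n : ℕ} (u : Fin n → ℝ) (hu : u ≠ 0) :
    ((nv u)⁻¹ • u) ⬝ᵥ ((nv u)⁻¹ • u) = 1 ∧ 0 < nv u := by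
  have h1 := dot_self_pos hu
  have h2 := nv_sq u
  have h3 : 0 < nv u := by
    rcases (nv_nonneg u).eq_or_lt with h | h
    · rw [← h] at h2; nlinarith
    · exact h
  refine ⟨?_, h3⟩
  rw [smul_dotProduct, dotProduct_smul, ← h2, smul_eq_mul, smul_eq_mul]
  field_simp

lemma sing {n : ℕ} (Abar : Matrix (Fin n) (Fin n) ℝ) (σ : ℝ) (hσ : 0 < σ) :
    gm n {G | (Abar + σ • of G).det = 0} = 0 := by
  have hsub : {G : Fin n → Fin n → ℝ | (Abar + σ • of G).det = 0} ⊆
      ⋃ i, {G | ∃ u ∈ {u : Fin n → ℝ | u ⬝ᵥ u = 1},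
        (G, u) ∈ {q : (Fin n → Fin n → ℝ) × (Fin n → ℝ) |
          q.2 ᵥ* (Abar + σ • of q.1) = 0 ∧ 1 ≤ n * q.2 i ^ 2}} := by
    intro G hG
    obtain ⟨u, hu, h0⟩ := exists_vecMul_eq_zero_iff.2 hG
    obtain ⟨h1, _⟩ := normalize u hu
    obtain ⟨i, hi⟩ := exists_big _ h1
    refine mem_iUnion.2 ⟨i, _, h1, ?_, by simpa using hi⟩
    simp only []
    rw [smul_vecMul, h0, smul_zero]
  refine measure_mono_null hsub (measure_iUnion_null fun i => le_antisymm ?_ bot_le)
  have hcl : IsClosed {q : (Fin n → Fin n → ℝ) × (Fin n → ℝ) |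
      q.2 ᵥ* (Abar + σ • of q.1) = 0 ∧ 1 ≤ n * q.2 i ^ 2} := by
    rw [Set.ofPred_and]
    exact (isClosed_eq (Continuous.matrix_vecMul continuous_snd
      ((A_cont Abar σ).comp continuous_fst)) continuous_const).inter
      (isClosed_le (by fun_prop) (by fun_prop))
  refine rowcond _ _ (closed_proj (sphere_compact _) hcl).measurableSet i _ fun G0 => ?_
  obtain ⟨z, hz0, hz⟩ := exists_ker le_rfl (Abar + σ • of G0) i
  have h1 := small_lin 1 (σ • z) (z ⬝ᵥ Abar i) 0 (by
    rw [← dot_self_eq, NNReal.coe_one, one_mul]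
    exact dot_self_pos (smul_ne_zero hσ.ne' hz0))
  refine le_trans (measure_mono ?_) (h1.trans (by simp))
  rintro y ⟨u, _, h2, h3⟩
  simp only [] at h2 h3
  have hi : u i ≠ 0 := by
    intro h; rw [h] at h3; norm_num at h3
  have := null_case _ i u h2 hi z (fun l hl => by
    rw [← hz l hl]; congr 1; ext j; simp [Function.update_of_ne hl])
  have e : (Abar + σ • of (Function.update G0 i y)) i = Abar i + σ • y := by
    ext j; simp
  rw [e, dotProduct_add, dotProduct_smul, ← smul_dotProduct] at this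
  simp only [Set.mem_ofPred_eq]
  have e2 : ∑ j, (σ • z) j * y j = (σ • z) ⬝ᵥ y := rfl
  rw [e2, this]; simp

lemma F_meas {n : ℕ} (Abar : Matrix (Fin n) (Fin n) ℝ) (σ y : ℝ) :
    MeasurableSet {q : (Fin n → Fin n → ℝ) × (Fin n → ℝ) | (Abar + σ • of q.1).det ≠ 0 ∧
      y ≤ opn (Abar + σ • of q.1) * nv (q.2 ᵥ* (Abar + σ • of q.1)⁻¹)} := by
  have hA : Continuous fun q : (Fin n → Fin n → ℝ) × (Fin n → ℝ) => Abar + σ • of q.1 :=
    (A_cont Abar σ).comp continuous_fst
  have h1 := hA.matrix_det.measurable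
  have h2 : Measurable fun q : (Fin n → Fin n → ℝ) × (Fin n → ℝ) =>
      q.2 ᵥ* (Abar + σ • of q.1)⁻¹ := by
    refine measurable_pi_lambda _ fun j => ?_
    simp only [vecMul, dotProduct, Matrix.inv_def, Ring.inverse_eq_inv', Matrix.smul_apply,
      smul_eq_mul]
    refine Finset.measurable_sum _ fun i _ => Measurable.mul (by fun_prop) (h1.inv.mul ?_)
    exact (hA.matrix_adjugate.matrix_elem i j).measurable
  rw [Set.ofPred_and]
  exact (h1 (measurableSet_singleton 0).compl).inter
    (measurableSet_le measurable_const ((opn_cont.comp hA).measurable.mul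
      (nv_cont.measurable.comp h2)))

lemma core {n : ℕ} (hn : 1 ≤ n) (Abar : Matrix (Fin n) (Fin n) ℝ) (hA : opn Abar ≤ Real.sqrt n)
    (σ : ℝ) (hσ : 0 < σ) (hσ1 : σ ≤ 1) (v : Fin n → ℝ) (hv : v ⬝ᵥ v = 1) (y : ℝ) (hy : 0 < y) :
    gm n {G | (Abar + σ • of G).det ≠ 0 ∧
      y ≤ opn (Abar + σ • of G) * nv (v ᵥ* (Abar + σ • of G)⁻¹)}
      ≤ ENNReal.ofReal (272 * Real.sqrt n / (y * σ)) := by
  have hn' : (1 : ℝ) ≤ n := by exact_mod_cast hn
  have s1 : 1 ≤ Real.sqrt n := Real.one_le_sqrt.2 hn'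
  rcases lt_or_ge y 2 with hy2 | hy2
  · refine prob_le_one.trans ?_
    rw [← ENNReal.ofReal_one]
    apply ENNReal.ofReal_le_ofReal
    rw [le_div_iff₀ (by positivity)]
    nlinarith
  have hm : MeasurableSet {G : Fin n → Fin n → ℝ | (Abar + σ • of G).det ≠ 0 ∧
      y ≤ opn (Abar + σ • of G) * nv (v ᵥ* (Abar + σ • of G)⁻¹)} :=
    measurable_prodMk_right (y := v) (F_meas Abar σ y)
  have hP := (Phi_cont v).measurable
  conv_lhs => rw [← split_mat v hv]
  rw [Measure.map_apply hP hm, Measure.prod_apply (hP hm)]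
  have hop : Measurable fun G : Fin n → Fin n → ℝ => ENNReal.ofReal (opn (of G)) :=
    (opn_cont.comp (continuous_id : Continuous fun G : Fin n → Fin n → ℝ =>
      of G)).measurable.ennreal_ofReal
  calc _ ≤ ∫⁻ G, (ENNReal.ofReal (2 / (y * σ) * (6 * Real.sqrt n))
        + ENNReal.ofReal (2 / (y * σ) * 2) * ENNReal.ofReal (opn (of G))) ∂gm n := by
        refine lintegral_mono fun G => ?_
        let A0 : Matrix (Fin n) (Fin n) ℝ := of fun i j =>
          (Abar + σ • of G) i j - ((Abar + σ • of G) i ⬝ᵥ v) * v j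
        have h0 : A0 *ᵥ v = 0 := by
          ext i
          have : (A0 *ᵥ v) i = (Abar + σ • of G) i ⬝ᵥ v - ((Abar + σ • of G) i ⬝ᵥ v) * (v ⬝ᵥ v) := by
            simp only [A0, mulVec, dotProduct, of_apply, sub_mul, Finset.sum_sub_distrib,
              mul_assoc, ← Finset.mul_sum]
          rw [this, hv]; simp
        have hv0 : v ≠ 0 := by rintro rfl; simp at hv
        obtain ⟨u, hu, hu0⟩ := exists_vecMul_eq_zero_iff.2
          (exists_mulVec_eq_zero_iff.1 ⟨v, hv0, h0⟩)
        obtain ⟨hw, _⟩ := normalize u hu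
        set w := (nv u)⁻¹ • u with hwdef
        have hw0 : w ᵥ* A0 = 0 := by rw [hwdef, smul_vecMul, hu0, smul_zero]
        have hc : |w ⬝ᵥ (Abar *ᵥ v)| ≤ Real.sqrt n := by
          have h1 := dot_le w (Abar *ᵥ v)
          have h2 := opn_bound Abar v
          rw [nv_unit hw] at h1
          rw [nv_unit hv] at h2
          linarith
        have go := opn_nonneg (of G)
        have hb := inner_bound hn w hw (w ⬝ᵥ (Abar *ᵥ v)) (Real.sqrt n + 2 * opn (of G)) y σ
          (by positivity) hy2 hσ hσ1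
        refine le_trans (measure_mono fun x hx => ?_) (hb.trans ?_)
        · obtain ⟨hd, hx⟩ := hx
          simp only [Set.mem_ofPred_eq]
          set A := Abar + σ • of (Phi v (G, x)) with hAdef
          have e1 : A = A0 + vecMulVec (Abar *ᵥ v + σ • x) v := by
            ext i j
            have : (Abar + σ • of G) i ⬝ᵥ v = Abar i ⬝ᵥ v + σ * (G i ⬝ᵥ v) := by
              have : (Abar + σ • of G) i = Abar i + σ • G i := by ext k; simp
              rw [this, add_dotProduct, smul_dotProduct, smul_eq_mul]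
            simp only [hAdef, A0, Matrix.add_apply, Matrix.smul_apply, of_apply, Phi, Psi,
              vecMulVec_apply, this, Pi.add_apply, Pi.smul_apply, smul_eq_mul]
            have : (Abar *ᵥ v) i = Abar i ⬝ᵥ v := rfl
            rw [this]; ring
          have e2 : w ᵥ* A = (w ⬝ᵥ (Abar *ᵥ v) + σ * (w ⬝ᵥ x)) • v := by
            rw [e1, vecMul_add, hw0, zero_add, vecMul_vecMulVec, dotProduct_add, dotProduct_smul,
              smul_eq_mul]
          have e3 : w = (w ⬝ᵥ (Abar *ᵥ v) + σ * (w ⬝ᵥ x)) • (v ᵥ* A⁻¹) := by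
            rw [← smul_vecMul, ← e2, vecMul_vecMul, mul_nonsing_inv _ (Ne.isUnit hd), vecMul_one]
          have e4 := nv_smul (w ⬝ᵥ (Abar *ᵥ v) + σ * (w ⬝ᵥ x)) (v ᵥ* A⁻¹)
          rw [← e3, nv_unit hw] at e4
          have e5 : opn A ≤ Real.sqrt n + 2 * opn (of G) + σ * nv x := by
            refine opn_le _ _ (by have := nv_nonneg x; positivity) fun t => ?_
            have f1 : A *ᵥ t = Abar *ᵥ t + σ • (of G *ᵥ Psi v (t, 0) + (t ⬝ᵥ v) • x) := by
              rw [hAdef, add_mulVec, smul_mulVec]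
              congr 2
              ext i
              have g1 : (of (Phi v (G, x)) *ᵥ t) i = Psi v (G i, x i) ⬝ᵥ t := rfl
              have g2 : (of G *ᵥ Psi v (t, 0)) i = G i ⬝ᵥ Psi v (t, 0) := rfl
              rw [Pi.add_apply, g1, g2, Psi_eq, Psi_eq]
              simp only [add_dotProduct, dotProduct_add, smul_dotProduct, dotProduct_smul,
                smul_eq_mul, Pi.smul_apply, dotProduct_comm v t]
              ring
            have f2 := nv_add (Abar *ᵥ t) (σ • (of G *ᵥ Psi v (t, 0) + (t ⬝ᵥ v) • x))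
            have f3 := nv_add (of G *ᵥ Psi v (t, 0)) ((t ⬝ᵥ v) • x)
            have f4 := opn_bound (of G) (Psi v (t, 0))
            have f5 := Psi_nv v t 0 hv
            have f6 := dot_le t v
            have f7 := opn_bound Abar t
            rw [nv_smul, abs_of_pos hσ] at f2
            rw [nv_smul] at f3
            rw [nv_unit hv, mul_one] at f6
            rw [abs_zero, add_zero] at f5
            have t0 := nv_nonneg t
            have x0 := nv_nonneg x
            have f8 : nv (of G *ᵥ Psi v (t, 0)) ≤ opn (of G) * (2 * nv t) :=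
              f4.trans (mul_le_mul_of_nonneg_left f5 go)
            have f9 : |t ⬝ᵥ v| * nv x ≤ nv t * nv x := mul_le_mul_of_nonneg_right f6 x0
            have f10 : σ * nv (of G *ᵥ Psi v (t, 0) + (t ⬝ᵥ v) • x)
                ≤ σ * (opn (of G) * (2 * nv t) + nv t * nv x) :=
              mul_le_mul_of_nonneg_left (by linarith) hσ.le
            have f11 : σ * (opn (of G) * (2 * nv t)) ≤ opn (of G) * (2 * nv t) :=
              mul_le_of_le_one_left (by positivity) hσ1
            have f12 : opn Abar * nv t ≤ Real.sqrt n * nv t := mul_le_mul_of_nonneg_right hA t0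
            rw [f1]
            nlinarith
          have e6 : y * |w ⬝ᵥ (Abar *ᵥ v) + σ * (w ⬝ᵥ x)|
              ≤ opn A * nv (v ᵥ* A⁻¹) * |w ⬝ᵥ (Abar *ᵥ v) + σ * (w ⬝ᵥ x)| :=
            mul_le_mul_of_nonneg_right hx (abs_nonneg _)
          rw [mul_assoc, mul_comm (nv _), ← e4, mul_one] at e6
          linarith
        · rw [← ENNReal.ofReal_mul (by positivity),
            ← ENNReal.ofReal_add (by positivity) (by positivity)]
          apply ENNReal.ofReal_le_ofReal
          rw [mul_assoc, ← mul_add]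
          exact mul_le_mul_of_nonneg_left (by linarith) (by positivity)
    _ ≤ ENNReal.ofReal (2 / (y * σ) * (6 * Real.sqrt n))
        + ENNReal.ofReal (2 / (y * σ) * 2) * ENNReal.ofReal (65 * Real.sqrt n) := by
        rw [lintegral_add_left measurable_const, lintegral_const, measure_univ, mul_one,
          lintegral_const_mul _ hop]
        gcongr
        exact opn_int hn
    _ = _ := by
        rw [← ENNReal.ofReal_mul (by positivity),
          ← ENNReal.ofReal_add (by positivity) (by positivity)]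
        congr 1; ring

lemma half_le {n : ℕ} (B : Matrix (Fin n) (Fin n) ℝ) (hB : 0 < opn B) :
    1 / 2 ≤ gv n {g | opn B / 4 ≤ nv (g ᵥ* B)} := by
  obtain ⟨a, ha, hBa⟩ := (Matrix.toEuclideanCLM (𝕜 := ℝ) B).exists_lt_apply_of_lt_opNorm
    (r := opn B / 2) (by unfold opn at *; linarith)
  set c := B *ᵥ a.ofLp with hc
  have hc1 : opn B / 2 < nv c := by
    unfold nv
    rwa [hc, ← toEuclideanCLM_toLp, WithLp.toLp_ofLp]
  have ha1 : nv a.ofLp ≤ 1 := ha.le
  have c0 : 0 < nv c := by linarith
  have h1 := small_lin 1 c 0 (nv c / 2) (by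
    rw [← dot_self_eq, ← nv_sq, NNReal.coe_one, one_mul]; positivity)
  rw [← dot_self_eq, ← nv_sq, NNReal.coe_one, one_mul, Real.sqrt_sq c0.le,
    show nv c / 2 / nv c = 1 / 2 by field_simp] at h1
  have h2 : (univ : Set (Fin n → ℝ)) ⊆ {g | opn B / 4 ≤ nv (g ᵥ* B)} ∪
      {x | |0 + ∑ j, c j * x j| ≤ nv c / 2} := by
    intro g _
    by_cases hg : |0 + ∑ j, c j * g j| ≤ nv c / 2
    · exact Or.inr hg
    · left
      have e : ∑ j, c j * g j = (g ᵥ* B) ⬝ᵥ a.ofLp := by
        rw [← dotProduct_mulVec, ← hc, dotProduct_comm]; rfl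
      rw [zero_add, e, not_le] at hg
      have h3 := dot_le (g ᵥ* B) a.ofLp
      have h4 := mul_le_of_le_one_right (nv_nonneg (g ᵥ* B)) ha1
      simp only [Set.mem_ofPred_eq]
      linarith
  have h3 := (measure_mono (μ := gv n) h2).trans ((measure_union_le _ _).trans
    (add_le_add_right h1 _))
  rw [measure_univ, ENNReal.ofReal_div_of_pos (by norm_num), ENNReal.ofReal_one,
    ENNReal.ofReal_ofNat] at h3
  exact (ENNReal.add_le_add_iff_right (a := 1 / 2) (by simp)).1
    ((ENNReal.add_halves 1).le.trans h3)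

lemma cond_main {n : ℕ} (hn : 1 ≤ n) (Abar : Matrix (Fin n) (Fin n) ℝ)
    (hA : opn Abar ≤ Real.sqrt n) (σ : ℝ) (hσ : 0 < σ) (hσ1 : σ ≤ 1) (x : ℝ) (hx : 0 < x) :
    gm n {G | (Abar + σ • of G).det = 0 ∨
      x ≤ opn (Abar + σ • of G) * opn (Abar + σ • of G)⁻¹}
      ≤ ENNReal.ofReal (4352 * n / (x * σ)) := by
  set F := {q : (Fin n → Fin n → ℝ) × (Fin n → ℝ) | (Abar + σ • of q.1).det ≠ 0 ∧
      x / 4 ≤ opn (Abar + σ • of q.1) * nv (q.2 ᵥ* (Abar + σ • of q.1)⁻¹)} with hF
  have mF : MeasurableSet F := F_meas Abar σ (x / 4)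
  have hn' : (1 : ℝ) ≤ n := by exact_mod_cast hn
  have hs : 0 < Real.sqrt n := Real.sqrt_pos.2 (by linarith)
  have hsub : {G : Fin n → Fin n → ℝ | (Abar + σ • of G).det = 0 ∨
      x ≤ opn (Abar + σ • of G) * opn (Abar + σ • of G)⁻¹} ⊆
      {G | (Abar + σ • of G).det = 0} ∪ {G | 1 / 2 ≤ gv n (Prod.mk G ⁻¹' F)} := by
    intro G hG
    by_cases hd : (Abar + σ • of G).det = 0
    · exact Or.inl hd
    right
    have h1 : x ≤ opn (Abar + σ • of G) * opn (Abar + σ • of G)⁻¹ := hG.resolve_left hd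
    have h2 : 0 < opn (Abar + σ • of G)⁻¹ := by
      rcases (opn_nonneg (Abar + σ • of G)⁻¹).eq_or_lt with h | h
      · rw [← h] at h1; linarith
      · exact h
    refine (half_le _ h2).trans (measure_mono fun g hg => ⟨hd, ?_⟩)
    have h3 := mul_le_mul_of_nonneg_left (show _ ≤ _ from hg) (opn_nonneg (Abar + σ • of G))
    simp only []
    linarith
  have b1 : ((gm n).prod (gv n)) F ≤ ENNReal.ofReal (2176 * n / (x * σ)) := by
    rw [Measure.prod_apply_symm mF]
    calc _ ≤ ∫⁻ g, ENNReal.ofReal (1088 * Real.sqrt n / (x * σ))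
          * ENNReal.ofReal (Real.sqrt n + (∑ j, g j ^ 2) / Real.sqrt n) ∂gv n := by
          refine lintegral_mono fun g => ?_
          have hr := nv_le_rho hn g
          set r := Real.sqrt n + (∑ j, g j ^ 2) / Real.sqrt n with hrdef
          have r0 : 0 < r := by positivity
          obtain ⟨v, hv, t, ht, rfl⟩ : ∃ v : Fin n → ℝ, v ⬝ᵥ v = 1 ∧ ∃ t : ℝ, |t| ≤ r ∧
              g = t • v := by
            by_cases hg : g = 0
            · exact ⟨Pi.single ⟨0, hn⟩ 1, by simp, 0, by simpa using r0.le, by simp [hg]⟩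
            · obtain ⟨h1, h2⟩ := normalize g hg
              refine ⟨_, h1, nv g, by rwa [abs_of_pos h2], ?_⟩
              rw [smul_smul, mul_inv_cancel₀ h2.ne', one_smul]
          have hb := core hn Abar hA σ hσ hσ1 v hv (x / 4 / r) (by positivity)
          refine le_trans (le_trans (measure_mono ?_) hb) (le_of_eq ?_)
          · intro G hG
            refine ⟨hG.1, ?_⟩
            have h1 := hG.2
            simp only [] at h1
            rw [smul_vecMul, nv_smul] at h1
            rw [div_le_iff₀ r0]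
            have h2 := mul_nonneg (opn_nonneg (Abar + σ • of G))
              (nv_nonneg (v ᵥ* (Abar + σ • of G)⁻¹))
            nlinarith
          · simp only []
            rw [← ENNReal.ofReal_mul (by positivity)]
            congr 1
            field_simp
            norm_num
      _ = _ := by
          rw [lintegral_const_mul _ (by fun_prop), rho_int hn,
            ← ENNReal.ofReal_mul (by positivity)]
          congr 1
          have := Real.mul_self_sqrt (Nat.cast_nonneg (α := ℝ) n)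
          field_simp
          nlinarith
  have b2 := mul_meas_ge_le_lintegral (μ := gm n) (measurable_measure_prodMk_left (ν := gv n) mF)
    (1 / 2)
  rw [← Measure.prod_apply mF] at b2
  refine (measure_mono hsub).trans ((measure_union_le _ _).trans ?_)
  rw [sing Abar σ hσ, zero_add]
  have b3 := mul_le_mul_right (b2.trans b1) 2
  rw [← mul_assoc, one_div, ENNReal.mul_inv_cancel (by norm_num) (by norm_num), one_mul] at b3
  rw [one_div]
  refine b3.trans (le_of_eq ?_)
  rw [← ENNReal.ofReal_ofNat, ← ENNReal.ofReal_mul (by norm_num)]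
  congr 1; ring

end Pool.Agent.H32.GM
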