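import Mathlib

open Set Filter Topology Metric

namespace Pool.Agent.H32.Corr

abbrev P : Type := ℝ × ℝ
abbrev oo : WithTop ℕ∞ := ((⊤ : ℕ∞) : WithTop ℕ∞)

/-- the closed square -/
def K : Set P := closedBall 0 1

/-- smooth at every point of the closed square -/
def Sm {E : Type} [NormedAddCommGroup E] [NormedSpace ℝ E] (f : P → E) : Prop :=
  ∀ x ∈ K, ContDiffAt ℝ oo f x

/-- directional derivative -/
noncomputable def D (e : P) (f : P → ℂ) (x : P) : ℂ := fderiv ℝ f x e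

lemma Sm.fderiv {f : P → ℂ} (h : Sm f) : Sm (fderiv ℝ f) := fun x hx =>
  (h x hx).fderiv_right (le_of_eq rfl)

lemma Sm.D {f : P → ℂ} (h : Sm f) (e : P) : Sm (D e f) := fun x hx =>
  (h.fderiv x hx).clm_apply contDiffAt_const

lemma Sm.bdd {f : P → ℂ} (h : Sm f) : ∃ M, ∀ x ∈ K, ‖f x‖ ≤ M :=
  (isCompact_closedBall (0 : P) 1).exists_bound_of_continuousOn fun x hx =>
    (h x hx).continuousAt.continuousWithinAt

lemma Sm.has {f : P → ℂ} (h : Sm f) {x : P} (hx : x ∈ K) : HasFDerivAt f (_root_.fderiv ℝ f x) x :=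
  ((h x hx).differentiableAt (by simp)).hasFDerivAt

/-- the corrugation -/
noncomputable def cor (ℓ : P →L[ℝ] ℝ) (f A B : P → ℂ) (l : ℝ) (x : P) : ℂ :=
  f x + l⁻¹ • (Real.sin (l * ℓ x) • A x + Real.sin (2 * (l * ℓ x)) • B x)

lemma cor_sm (ℓ : P →L[ℝ] ℝ) {f A B : P → ℂ} (hf : Sm f) (hA : Sm A) (hB : Sm B) (l : ℝ) :
    Sm (cor ℓ f A B l) := by
  intro x hx
  have h1 : ContDiffAt ℝ oo (fun x => l * ℓ x) x := contDiffAt_const.mul ℓ.contDiff.contDiffAt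
  exact (hf x hx).add (((h1.sin.smul (hA x hx)).add
    ((contDiffAt_const.mul h1).sin.smul (hB x hx))).const_smul _)

lemma small {F G : P → ℂ} (hF : Sm F) (hG : Sm G) {η : ℝ} (hη : 0 < η) :
    ∀ᶠ l : ℝ in atTop, ∀ x ∈ K, ∀ a b : ℝ,
      ‖l⁻¹ • (Real.sin a • F x + Real.sin b • G x)‖ ≤ η := by
  obtain ⟨M, hM⟩ := hF.bdd
  obtain ⟨N, hN⟩ := hG.bdd
  filter_upwards [eventually_gt_atTop 0, eventually_ge_atTop ((M + N) / η)] with l h0 hl x hx a b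
  rw [norm_smul, Real.norm_eq_abs, abs_of_pos (inv_pos.2 h0), inv_mul_le_iff₀ h0]
  refine (norm_add_le _ _).trans ?_
  rw [norm_smul, norm_smul, Real.norm_eq_abs, Real.norm_eq_abs]
  have h1 := mul_le_of_le_one_left (norm_nonneg (F x)) (Real.abs_sin_le_one a)
  have h2 := mul_le_of_le_one_left (norm_nonneg (G x)) (Real.abs_sin_le_one b)
  rw [div_le_iff₀ hη] at hl
  linarith [hM x hx, hN x hx]

lemma cor_close (ℓ : P →L[ℝ] ℝ) (f : P → ℂ) {A B : P → ℂ} (hA : Sm A) (hB : Sm B) {η : ℝ}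
    (hη : 0 < η) : ∀ᶠ l : ℝ in atTop, ∀ x ∈ K, ‖cor ℓ f A B l x - f x‖ ≤ η := by
  filter_upwards [small hA hB hη] with l hl x hx
  rw [cor, add_sub_cancel_left]
  exact hl x hx _ _

lemma cor_D (ℓ : P →L[ℝ] ℝ) {f A B : P → ℂ} (hf : Sm f) (hA : Sm A) (hB : Sm B) (e : P) {η : ℝ}
    (hη : 0 < η) : ∀ᶠ l : ℝ in atTop, ∀ x ∈ K, ‖D e (cor ℓ f A B l) x - (D e f x +
      ℓ e • (Real.cos (l * ℓ x) • A x + (2 * Real.cos (2 * (l * ℓ x))) • B x))‖ ≤ η := by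
  filter_upwards [small (hA.D e) (hB.D e) hη, eventually_gt_atTop 0] with l hl h0 x hx
  have h1 : HasFDerivAt (fun x => l * ℓ x) (l • ℓ) x := ℓ.hasFDerivAt.const_mul l
  have h2 := (hf.has hx).add (((h1.sin.smul (hA.has hx)).add
    ((h1.const_mul 2).sin.smul (hB.has hx))).const_smul l⁻¹)
  have h3 : D e (cor ℓ f A B l) x = _ := congrArg (fun L : P →L[ℝ] ℂ => L e) h2.fderiv
  rw [h3]
  convert hl x hx (l * ℓ x) (2 * (l * ℓ x)) using 2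
  have h4 : (l : ℂ) ≠ 0 := by exact_mod_cast h0.ne'
  simp only [D, add_apply, smul_apply,
    ContinuousLinearMap.smulRight_apply, smul_eq_mul, Complex.real_smul]
  push_cast
  field_simp
  ring

lemma sq_pert {a b : ℂ} {η : ℝ} (ha : ‖a‖ ≤ 1) (h : ‖b - a‖ ≤ η) (hη : η ≤ 1) :
    ‖a‖ ^ 2 - 3 * η ≤ ‖b‖ ^ 2 ∧ ‖b‖ ^ 2 ≤ ‖a‖ ^ 2 + 3 * η := by
  have h1 := abs_le.1 ((abs_norm_sub_norm_le b a).trans h)
  have h2 := norm_nonneg a
  have h3 := norm_nonneg b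
  constructor <;> nlinarith [h1.1, h1.2]

lemma main_norm (A : ℂ) (s θ : ℝ) :
    ‖A + (Real.cos θ • (2 * Complex.I * s * A) + (2 * Real.cos (2 * θ)) • (-(s ^ 2 / 2) * A))‖ ^ 2 =
      ‖A‖ ^ 2 * (1 + 2 * s ^ 2 + s ^ 4 * Real.cos (2 * θ) ^ 2) := by
  have : A + (Real.cos θ • (2 * Complex.I * s * A) + (2 * Real.cos (2 * θ)) • (-(s ^ 2 / 2) * A)) =
      A * ((1 - s ^ 2 * Real.cos (2 * θ) : ℝ) + (2 * s * Real.cos θ : ℝ) * Complex.I) := by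
    simp only [Complex.real_smul]
    push_cast
    ring
  rw [this, norm_mul, mul_pow, Complex.sq_norm (_ + _), Complex.normSq_add_mul_I, Real.cos_two_mul]
  ring

lemma main_dist (A : ℂ) (hA : ‖A‖ ≤ 1) {s : ℝ} (hs : |s| ≤ 1) (θ : ℝ) :
    ‖Real.cos θ • (2 * Complex.I * s * A) + (2 * Real.cos (2 * θ)) • (-(s ^ 2 / 2) * A)‖ ≤
      3 * |s| := by
  refine (norm_add_le _ _).trans ?_
  simp only [norm_smul, norm_mul, norm_neg, norm_div, norm_pow, Complex.norm_I, Complex.norm_real,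
    Real.norm_eq_abs, Complex.norm_ofNat, abs_two]
  have h1 := Real.abs_cos_le_one θ
  have h2 := Real.abs_cos_le_one (2 * θ)
  have h3 := abs_nonneg s
  have h4 := norm_nonneg A
  have h5 : |s| * ‖A‖ ≤ |s| := mul_le_of_le_one_right h3 hA
  have h6 : |Real.cos θ| * (|s| * ‖A‖) ≤ |s| * ‖A‖ := mul_le_of_le_one_left (by positivity) h1
  have h7 : |Real.cos (2 * θ)| * (|s| * (|s| * ‖A‖)) ≤ |s| * (|s| * ‖A‖) :=
    mul_le_of_le_one_left (by positivity) h2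
  have h8 : |s| * (|s| * ‖A‖) ≤ |s| * ‖A‖ := mul_le_of_le_one_left (by positivity) hs
  nlinarith

lemma step (ℓ : P →L[ℝ] ℝ) (e e' : P) (h1 : ℓ e = 1) (h0 : ℓ e' = 0) {f : P → ℂ} (hf : Sm f)
    {t : ℝ} (ht : 0 < t) (ht' : t ≤ 1 / 20)
    (hd : ∀ x ∈ K, t ^ 2 / 4 ≤ 1 - ‖D e f x‖ ^ 2 ∧ 1 - ‖D e f x‖ ^ 2 ≤ 2 * t ^ 2) :
    ∃ g, Sm g ∧ ∀ x ∈ K, (t ^ 2 / 8 ≤ 1 - ‖D e g x‖ ^ 2 ∧ 1 - ‖D e g x‖ ^ 2 ≤ t ^ 2 / 4) ∧
      ‖D e g x - D e f x‖ ≤ 7 * t ∧ ‖D e' g x - D e' f x‖ ≤ t ^ 2 / 100 ∧ ‖g x - f x‖ ≤ t := by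
  let q : P → ℝ := fun x => (1 - 3 * t ^ 2 / 16 - ‖D e f x‖ ^ 2) / (2 * ‖D e f x‖ ^ 2)
  have ht2 : t ^ 2 ≤ 1 / 400 := by nlinarith
  have ht0 : 0 < t ^ 2 := by positivity
  have hq : ∀ x ∈ K, 0 < q x ∧ q x ≤ 2 * t ^ 2 ∧
      ‖D e f x‖ ^ 2 * (2 * q x) = 1 - 3 * t ^ 2 / 16 - ‖D e f x‖ ^ 2 := by
    intro x hx
    obtain ⟨a1, a2⟩ := hd x hx
    have h2 : 0 < 2 * ‖D e f x‖ ^ 2 := by linarith
    refine ⟨div_pos (by linarith) h2, ?_, ?_⟩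
    · rw [div_le_iff₀ h2]; nlinarith
    · rw [← mul_assoc, mul_comm _ 2]
      exact mul_div_cancel₀ _ h2.ne'
  have hσ : Sm fun x => ((√(q x) : ℝ) : ℂ) := by
    intro x hx
    have h2 := (hf.D e x hx).norm_sq ℝ
    have h3 : ContDiffAt ℝ oo q x := (contDiffAt_const.sub h2).div (contDiffAt_const.mul h2)
      (by linarith [(hd x hx).2])
    exact Complex.ofRealCLM.contDiff.contDiffAt.comp x (h3.sqrt (hq x hx).1.ne')
  have hA : Sm fun x => 2 * Complex.I * (√(q x) : ℝ) * D e f x := fun x hx =>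
    (contDiffAt_const.mul (hσ x hx)).mul (hf.D e x hx)
  have hB : Sm fun x => -(((√(q x) : ℝ) : ℂ) ^ 2 / 2) * D e f x := fun x hx =>
    (((hσ x hx).pow 2).div_const 2).neg.mul (hf.D e x hx)
  have hη : 0 < t ^ 2 / 100 := by positivity
  obtain ⟨l, a1, a2, a3⟩ := ((cor_D ℓ hf hA hB e hη).and ((cor_D ℓ hf hA hB e' hη).and
    (cor_close ℓ f hA hB ht))).exists
  refine ⟨_, cor_sm ℓ hf hA hB l, fun x hx => ?_⟩
  have b1 := a1 x hx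
  have b2 := a2 x hx
  rw [h1, one_smul] at b1
  rw [h0, zero_smul, add_zero] at b2
  obtain ⟨q1, q2, q3⟩ := hq x hx
  obtain ⟨d1, d2⟩ := hd x hx
  have hs2 : √(q x) ^ 2 = q x := Real.sq_sqrt q1.le
  have hn := main_norm (D e f x) (√(q x)) (l * ℓ x)
  have hA1 : ‖D e f x‖ ≤ 1 := by nlinarith [norm_nonneg (D e f x)]
  have hs : √(q x) ≤ 2 * t := Real.sqrt_le_iff.2 ⟨by linarith, by nlinarith⟩
  have hm := main_dist (D e f x) hA1 (s := √(q x))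
    (by rw [abs_of_nonneg (Real.sqrt_nonneg _)]; linarith) (l * ℓ x)
  rw [abs_of_nonneg (Real.sqrt_nonneg _)] at hm
  have h4 : √(q x) ^ 4 = q x ^ 2 := by
    calc √(q x) ^ 4 = (√(q x) ^ 2) ^ 2 := by ring
      _ = q x ^ 2 := by rw [hs2]
  rw [hs2, h4] at hn
  have hc := Real.cos_sq_le_one (2 * (l * ℓ x))
  have e0 : 0 ≤ ‖D e f x‖ ^ 2 * (q x ^ 2 * Real.cos (2 * (l * ℓ x)) ^ 2) := by positivity
  have e1 : ‖D e f x‖ ^ 2 * (q x ^ 2 * Real.cos (2 * (l * ℓ x)) ^ 2) ≤ t ^ 2 / 100 := by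
    have : ‖D e f x‖ ^ 2 * (q x ^ 2 * Real.cos (2 * (l * ℓ x)) ^ 2) ≤ 1 * (q x ^ 2 * 1) := by
      gcongr
      linarith
    nlinarith
  set M := D e f x + (Real.cos (l * ℓ x) • (2 * Complex.I * (√(q x) : ℝ) * D e f x) +
    (2 * Real.cos (2 * (l * ℓ x))) • (-(((√(q x) : ℝ) : ℂ) ^ 2 / 2) * D e f x)) with hM
  have hM2 : ‖M‖ ^ 2 = 1 - 3 * t ^ 2 / 16 +
      ‖D e f x‖ ^ 2 * (q x ^ 2 * Real.cos (2 * (l * ℓ x)) ^ 2) := by
    rw [hn]; linarith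
  have hM1 : ‖M‖ ≤ 1 := by nlinarith [norm_nonneg M]
  obtain ⟨p1, p2⟩ := sq_pert hM1 b1 (by linarith)
  refine ⟨⟨by linarith, by linarith⟩, ?_, b2, a3 x hx⟩
  have h5 := norm_sub_le_norm_sub_add_norm_sub (D e (cor ℓ f (fun x => 2 * Complex.I * (√(q x) : ℝ) *
    D e f x) (fun x => -(((√(q x) : ℝ) : ℂ) ^ 2 / 2) * D e f x) l) x) M (D e f x)
  rw [hM, add_sub_cancel_left] at h5
  nlinarith

/-- the invariant -/
def R (t : ℝ) (f : P → ℂ) : Prop := Sm f ∧ ∀ x ∈ K,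
  (t ^ 2 / 3 ≤ 1 - ‖D (1, 0) f x‖ ^ 2 ∧ 1 - ‖D (1, 0) f x‖ ^ 2 ≤ 3 * t ^ 2 / 2) ∧
  (t ^ 2 / 3 ≤ 1 - ‖D (0, 1) f x‖ ^ 2 ∧ 1 - ‖D (0, 1) f x‖ ^ 2 ≤ 3 * t ^ 2 / 2)

lemma fderiv_le (L : P →L[ℝ] ℂ) : ‖L‖ ≤ ‖L (1, 0)‖ + ‖L (0, 1)‖ := by
  refine L.opNorm_le_bound (by positivity) fun v => ?_
  have : v = v.1 • ((1, 0) : P) + v.2 • ((0, 1) : P) := by ext <;> simp
  conv_lhs => rw [this, map_add, map_smul, map_smul]
  refine (norm_add_le _ _).trans ?_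
  rw [norm_smul, norm_smul, add_mul, mul_comm, mul_comm ‖v.2‖]
  gcongr
  · exact norm_fst_le v
  · exact norm_snd_le v

lemma round {t : ℝ} (ht : 0 < t) (ht' : t ≤ 1 / 20) {f : P → ℂ} (h : R t f) :
    ∃ g, R (t / 2) g ∧ ∀ x ∈ K, ‖fderiv ℝ g x - fderiv ℝ f x‖ ≤ 16 * t ∧ ‖g x - f x‖ ≤ 16 * t := by
  have ht2 : t ^ 2 ≤ t / 20 := by nlinarith
  have ht0 : 0 < t ^ 2 := by positivity
  obtain ⟨g, hg, hg'⟩ := step (ContinuousLinearMap.fst ℝ ℝ ℝ) (1, 0) (0, 1) rfl rfl h.1 ht ht'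
    fun x hx => ⟨by linarith [(h.2 x hx).1.1], by linarith [(h.2 x hx).1.2]⟩
  obtain ⟨k, hk, hk'⟩ := step (ContinuousLinearMap.snd ℝ ℝ ℝ) (0, 1) (1, 0) rfl rfl hg ht ht'
    fun x hx => by
      obtain ⟨a1, a2⟩ := (h.2 x hx).2
      obtain ⟨p1, p2⟩ := sq_pert (a := D (0, 1) f x)
        (by nlinarith [norm_nonneg (D (0, 1) f x)]) (hg' x hx).2.2.1 (by linarith)
      constructor <;> linarith
  refine ⟨k, ⟨hk, fun x hx => ?_⟩, fun x hx => ⟨?_, ?_⟩⟩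
  · obtain ⟨a1, a2⟩ := (hg' x hx).1
    obtain ⟨b1, b2⟩ := (hk' x hx).1
    obtain ⟨p1, p2⟩ := sq_pert (a := D (1, 0) g x)
      (by nlinarith [norm_nonneg (D (1, 0) g x)]) (hk' x hx).2.2.1 (by linarith)
    rw [div_pow]
    refine ⟨⟨?_, ?_⟩, ?_, ?_⟩ <;> linarith
  · refine (fderiv_le _).trans ?_
    have h1 := norm_sub_le_norm_sub_add_norm_sub (D (1, 0) k x) (D (1, 0) g x) (D (1, 0) f x)
    have h2 := norm_sub_le_norm_sub_add_norm_sub (D (0, 1) k x) (D (0, 1) g x) (D (0, 1) f x)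
    obtain ⟨-, a1, a2, -⟩ := hg' x hx
    obtain ⟨-, b1, b2, -⟩ := hk' x hx
    show ‖D (1, 0) k x - D (1, 0) f x‖ + ‖D (0, 1) k x - D (0, 1) f x‖ ≤ _
    linarith
  · have h1 := norm_sub_le_norm_sub_add_norm_sub (k x) (g x) (f x)
    linarith [(hg' x hx).2.2.2, (hk' x hx).2.2.2]

lemma geo {E : Type} [NormedAddCommGroup E] [CompleteSpace E] (u : ℕ → P → E) (C : ℝ)
    (h : ∀ n, ∀ x ∈ K, ‖u (n + 1) x - u n x‖ ≤ C / 2 / 2 ^ n) :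
    ∃ l : P → E, TendstoUniformlyOn u l atTop K ∧ ∀ x ∈ K, ‖l x - u 0 x‖ ≤ C := by
  have h' : ∀ x ∈ K, ∀ n, dist (u n x) (u (n + 1) x) ≤ C / 2 / 2 ^ n := fun x hx n => by
    rw [dist_comm, dist_eq_norm]; exact h n x hx
  have : ∀ x ∈ K, ∃ a, Tendsto (fun n => u n x) atTop (𝓝 a) := fun x hx =>
    cauchySeq_tendsto_of_complete (cauchySeq_of_le_geometric_two (h' x hx))
  choose! l hl using this
  refine ⟨l, ?_, fun x hx => ?_⟩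
  · rw [tendstoUniformlyOn_iff]
    intro ε hε
    have : Tendsto (fun n : ℕ => C / 2 ^ n) atTop (𝓝 0) :=
      tendsto_const_nhds.div_atTop (tendsto_pow_atTop_atTop_of_one_lt one_lt_two)
    filter_upwards [this.eventually (gt_mem_nhds hε)] with n hn x hx
    rw [dist_comm]
    exact (dist_le_of_le_geometric_two_of_tendsto (h' x hx) (hl x hx) n).trans_lt hn
  · rw [← dist_eq_norm, dist_comm]
    exact dist_le_of_le_geometric_two_of_tendsto₀ (h' x hx) (hl x hx)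

/-- the limit of the corrugation scheme -/
theorem limit {t : ℝ} (ht : 0 < t) (ht' : t ≤ 1 / 20) {f : P → ℂ} (h : R t f) :
    ∃ F : P → ℂ, ContDiffOn ℝ 1 F (ball 0 1) ∧ ∀ x ∈ ball (0 : P) 1,
      ‖fderiv ℝ F x (1, 0)‖ = 1 ∧ ‖fderiv ℝ F x (0, 1)‖ = 1 ∧
      ‖fderiv ℝ F x - fderiv ℝ f x‖ ≤ 32 * t := by
  have hr : ∀ (n : ℕ) (f : {f // R (t / 2 ^ n) f}), ∃ g : {f // R (t / 2 ^ (n + 1)) f},
      ∀ x ∈ K, ‖fderiv ℝ g.1 x - fderiv ℝ f.1 x‖ ≤ 32 * t / 2 / 2 ^ n ∧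
        ‖g.1 x - f.1 x‖ ≤ 32 * t / 2 / 2 ^ n := by
    intro n f
    obtain ⟨g, h1, h2⟩ := round (by positivity)
      ((div_le_self ht.le (one_le_pow₀ one_le_two)).trans ht') f.2
    rw [div_div, ← pow_succ] at h1
    refine ⟨⟨g, h1⟩, fun x hx => ?_⟩
    have : 32 * t / 2 / 2 ^ n = 16 * (t / 2 ^ n) := by ring
    rw [this]
    exact h2 x hx
  choose Φ hΦ using hr
  let u : ∀ n : ℕ, {f // R (t / 2 ^ n) f} := fun n =>
    Nat.rec (motive := fun n => {f // R (t / 2 ^ n) f}) ⟨f, by simpa using h⟩ Φ n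
  obtain ⟨L, hL, hL'⟩ := geo (fun n => fderiv ℝ (u n).1) (32 * t) fun n x hx => (hΦ n (u n) x hx).1
  obtain ⟨F, hF, -⟩ := geo (fun n => (u n).1) (32 * t) fun n x hx => (hΦ n (u n) x hx).2
  have hsub : ball (0 : P) 1 ⊆ K := ball_subset_closedBall
  have hder : ∀ x ∈ ball (0 : P) 1, HasFDerivAt F (L x) x := fun x hx =>
    hasFDerivAt_of_tendstoUniformlyOn isOpen_ball (hL.mono hsub)
      (fun n y hy => (u n).2.1.has (hsub hy)) (fun y hy => hF.tendsto_at (hsub hy)) hx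
  have hLc : ContinuousOn L K := hL.continuousOn (Frequently.of_forall fun n x hx =>
    ((u n).2.1.fderiv x hx).continuousAt.continuousWithinAt)
  have hone : ∀ x ∈ K, ∀ e : P, (∀ n, (t / 2 ^ n) ^ 2 / 3 ≤ 1 - ‖D e (u n).1 x‖ ^ 2 ∧
      1 - ‖D e (u n).1 x‖ ^ 2 ≤ 3 * (t / 2 ^ n) ^ 2 / 2) → ‖L x e‖ = 1 := by
    intro x hx e he
    have h1 : Tendsto (fun n => 1 - ‖D e (u n).1 x‖ ^ 2) atTop (𝓝 (1 - ‖L x e‖ ^ 2)) :=
      (((((ContinuousLinearMap.apply ℝ ℂ e).continuous.tendsto _).comp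
        (hL.tendsto_at hx)).norm).pow 2).const_sub 1
    have h2 : Tendsto (fun n : ℕ => t / 2 ^ n) atTop (𝓝 0) :=
      tendsto_const_nhds.div_atTop (tendsto_pow_atTop_atTop_of_one_lt one_lt_two)
    have h3 : Tendsto (fun n : ℕ => 3 * (t / 2 ^ n) ^ 2 / 2) atTop (𝓝 0) := by
      simpa using ((h2.pow 2).const_mul 3).div_const 2
    have h4 : Tendsto (fun n => 1 - ‖D e (u n).1 x‖ ^ 2) atTop (𝓝 0) :=
      squeeze_zero (fun n => le_trans (by positivity) (he n).1) (fun n => (he n).2) h3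
    have h5 := tendsto_nhds_unique h1 h4
    nlinarith [norm_nonneg (L x e)]
  refine ⟨F, fun x hx => (contDiffAt_one_iff.2 ⟨L, ball 0 1, isOpen_ball.mem_nhds hx,
    hLc.mono hsub, hder⟩).contDiffWithinAt, fun x hx => ?_⟩
  rw [(hder x hx).fderiv]
  exact ⟨hone x (hsub hx) _ fun n => ((u n).2.2 x (hsub hx)).1,
    hone x (hsub hx) _ fun n => ((u n).2.2 x (hsub hx)).2, hL' x (hsub hx)⟩

end Pool.Agent.H32.Corr
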