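import Mathlib

set_option autoImplicit false

namespace Pool.Agent.H32.Cut

open Finset

noncomputable section

variable {G : Type} [AddCommGroup G] [Fintype G] [DecidableEq G]

def conv (μ ν : G → ℝ) (y : G) : ℝ := ∑ s, μ s * ν (y - s)

def cp (κ : G → ℝ) : ℕ → G → ℝ
  | 0 => fun y => if y = 0 then 1 else 0
  | t + 1 => conv κ (cp κ t)

def M (κ : G → ℝ) : Matrix G G ℝ := Matrix.of fun x y => κ (y - x)

structure IsProb (κ : G → ℝ) : Prop where
  nonneg : ∀ s, 0 ≤ κ s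
  sum : ∑ s, κ s = 1

omit [DecidableEq G] in
lemma sum_conv (μ ν : G → ℝ) : ∑ y, conv μ ν y = (∑ s, μ s) * ∑ s, ν s := by
  unfold conv
  rw [sum_comm, sum_mul]
  refine sum_congr rfl fun s _ => ?_
  rw [← mul_sum]
  congr 1
  exact Fintype.sum_equiv (Equiv.subRight s) _ _ fun _ => rfl

omit [DecidableEq G] in
lemma conv_nonneg {μ ν : G → ℝ} (h1 : ∀ s, 0 ≤ μ s) (h2 : ∀ s, 0 ≤ ν s) (y : G) : 0 ≤ conv μ ν y :=
  sum_nonneg fun s _ => mul_nonneg (h1 s) (h2 _)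

omit [DecidableEq G] in
lemma conv_comm (μ ν : G → ℝ) : conv μ ν = conv ν μ := by
  funext y
  unfold conv
  exact Fintype.sum_equiv (Equiv.subLeft y) _ _ fun s => by simp [mul_comm]

lemma cp_prob {κ : G → ℝ} (h : IsProb κ) (t : ℕ) : IsProb (cp κ t) := by
  induction t with
  | zero => exact ⟨fun s => by unfold cp; positivity, by simp [cp]⟩
  | succ t ih => exact ⟨conv_nonneg h.1 ih.1, by rw [cp, sum_conv, h.2, ih.2, one_mul]⟩

lemma M_pow (κ : G → ℝ) (t : ℕ) (x y : G) : (M κ ^ t) x y = cp κ t (y - x) := by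
  induction t generalizing x with
  | zero => simp [cp, Matrix.one_apply, sub_eq_zero, eq_comm]
  | succ t ih =>
    rw [pow_succ', Matrix.mul_apply, cp, conv]
    refine Fintype.sum_equiv (Equiv.subRight x) _ _ fun z => ?_
    rw [ih]
    simp [M]

lemma cp_add (κ : G → ℝ) (s t : ℕ) : cp κ (s + t) = conv (cp κ s) (cp κ t) := by
  funext y
  have := M_pow κ (s + t) 0 y
  rw [pow_add, Matrix.mul_apply, sub_zero] at this
  rw [← this, conv]
  simp [M_pow]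

def Inv (N : AddSubgroup G) (β : G → ℝ) : Prop := ∀ n ∈ N, ∀ y, β (y + n) = β y

omit [DecidableEq G] in
lemma inv_conv {N : AddSubgroup G} (μ : G → ℝ) {β : G → ℝ} (h : Inv N β) : Inv N (conv μ β) := by
  intro n hn y
  unfold conv
  exact sum_congr rfl fun s _ => by rw [add_sub_right_comm, h n hn]

lemma stage {κ κ' : G → ℝ} (h : IsProb κ) {N : AddSubgroup G} (h0 : ∀ s, 0 ≤ κ' s)
    (h1 : ∀ s, κ' s ≤ κ s) (hN : Inv N κ') {a : ℝ} (ha : ∑ s, κ' s = a) (t : ℕ) :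
    ∃ β : G → ℝ, (∀ y, 0 ≤ β y) ∧ (∀ y, β y ≤ cp κ t y) ∧ Inv N β ∧ ∑ y, β y = 1 - (1 - a) ^ t := by
  induction t with
  | zero => exact ⟨0, fun _ => le_rfl, (cp_prob h 0).1, fun _ _ _ => rfl, by simp⟩
  | succ t ih =>
    obtain ⟨β, b0, b1, b2, b3⟩ := ih
    refine ⟨fun y => conv κ' (cp κ t) y + conv (fun s => κ s - κ' s) β y, fun y => ?_, fun y => ?_,
      fun n hn y => ?_, ?_⟩
    · exact add_nonneg (conv_nonneg h0 (cp_prob h t).1 y)
        (conv_nonneg (fun s => sub_nonneg.2 (h1 s)) b0 y)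
    · simp only [cp, conv, ← sum_add_distrib]
      refine sum_le_sum fun s _ => ?_
      nlinarith [b1 (y - s), h1 s]
    · simp only [conv_comm κ']
      rw [inv_conv _ hN n hn, inv_conv _ b2 n hn]
    · rw [sum_add_distrib, sum_conv, sum_conv, ha, (cp_prob h t).2, sum_sub_distrib, h.2, ha, b3]
      ring

omit [DecidableEq G] in
lemma conv_both {N1 N2 : AddSubgroup G} (hN : ∀ g, ∃ n1 ∈ N1, ∃ n2 ∈ N2, g = n1 + n2)
    {β1 β2 : G → ℝ} (h1 : Inv N1 β1) (h2 : Inv N2 β2) (y : G) :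
    conv β1 β2 y = (∑ s, β1 s) * (∑ s, β2 s) / Fintype.card G := by
  have : ∀ z, conv β1 β2 z = conv β1 β2 y := by
    intro z
    obtain ⟨n1, m1, n2, m2, e⟩ := hN (z - y)
    have : z = y + n1 + n2 := by rw [add_assoc, ← e]; abel
    rw [this, inv_conv _ h2 n2 m2, conv_comm, inv_conv _ h1 n1 m1]
  have hc : (Fintype.card G : ℝ) ≠ 0 := by positivity
  rw [← sum_conv, sum_congr rfl fun z _ => this z]
  simp

lemma half_pow {b : ℝ} (h0 : 0 ≤ b) (h1 : b ≤ 1) (j : ℕ) :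
    (1 - b) ^ (j / 2) ≤ (1 + b) * (1 - b / 2) ^ j := by
  have h2 : (1 - b) ^ (j / 2) ≤ (1 - b / 2) ^ (2 * (j / 2)) := by
    rw [pow_mul]
    exact pow_le_pow_left₀ (by linarith) (by nlinarith) _
  refine h2.trans ?_
  have h3 : 0 ≤ (1 - b / 2) ^ (2 * (j / 2)) := pow_nonneg (by linarith) _
  rcases Nat.even_or_odd' j with ⟨k, rfl | rfl⟩
  · rw [show 2 * (2 * k / 2) = 2 * k by omega] at h3 ⊢
    nlinarith
  · rw [show 2 * ((2 * k + 1) / 2) = 2 * k by omega] at h3 ⊢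
    rw [pow_succ]
    nlinarith [mul_nonneg h3 (mul_nonneg h0 (sub_nonneg.2 h1))]

lemma up_bound {κ κ1 κ2 : G → ℝ} (h : IsProb κ) {N1 N2 : AddSubgroup G}
    (hN : ∀ g, ∃ n1 ∈ N1, ∃ n2 ∈ N2, g = n1 + n2)
    (p1 : ∀ s, 0 ≤ κ1 s) (q1 : ∀ s, κ1 s ≤ κ s) (i1 : Inv N1 κ1) {a : ℝ} (ha : ∑ s, κ1 s = a)
    (p2 : ∀ s, 0 ≤ κ2 s) (q2 : ∀ s, κ2 s ≤ κ s) (i2 : Inv N2 κ2) {b : ℝ} (hb : ∑ s, κ2 s = b)
    (s t : ℕ) (y : G) :
    (1 - (1 - a) ^ s) * (1 - (1 - b) ^ t) / Fintype.card G ≤ cp κ (s + t) y := by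
  obtain ⟨β1, b0, b1, b2, b3⟩ := stage h p1 q1 i1 ha s
  obtain ⟨β2, c0, c1, c2, c3⟩ := stage h p2 q2 i2 hb t
  rw [← b3, ← c3, ← conv_both hN b2 c2 y, cp_add]
  exact sum_le_sum fun z _ => mul_le_mul (b1 _) (c1 _) (c0 _) ((cp_prob h s).1 _)

lemma low_bound {κ : G → ℝ} (h : IsProb κ) (T : Finset G) (B : ℕ → Finset G) (h0 : 0 ∈ B 0)
    (hB : ∀ j, ∀ s ∈ T, ∀ y ∈ B j, s + y ∈ B (j + 1)) (j : ℕ) :
    (∑ s ∈ T, κ s) ^ j ≤ ∑ y ∈ B j, cp κ j y := by
  induction j with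
  | zero => simp [cp, h0]
  | succ j ih =>
    simp only [cp, conv]
    rw [sum_comm, pow_succ', sum_mul]
    refine le_trans (sum_le_sum fun s hs => ?_) (sum_le_sum_of_subset_of_nonneg (subset_univ T)
      fun s _ _ => sum_nonneg fun y _ => mul_nonneg (h.1 s) ((cp_prob h j).1 _))
    rw [← mul_sum]
    refine mul_le_mul_of_nonneg_left (ih.trans ?_) (h.1 s)
    have : ∑ y ∈ B j, cp κ j y = ∑ y ∈ (B j).image (s + ·), cp κ j (y - s) := by
      rw [sum_image fun _ _ _ _ e => add_left_cancel e]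
      simp
    rw [this]
    refine sum_le_sum_of_subset_of_nonneg (fun y hy => ?_) fun y _ _ => (cp_prob h j).1 _
    obtain ⟨z, hz, rfl⟩ := mem_image.1 hy
    exact hB j s hs z hz

omit [DecidableEq G] in
lemma eigen {κ : G → ℝ} {f : G → ℂ} {c : ℂ} (hf : f ≠ 0)
    (h : ∀ x, ∑ y, (κ (y - x) : ℂ) * f y = c * f x) :
    ∃ ψ : AddChar G ℂ, c = ∑ s, (κ s : ℂ) * ψ s ∧ (ψ = 0 → ∑ x, f x ≠ 0) := by
  classical
  have h1 : ∃ ψ : AddChar G ℂ, ∑ x, f x * ψ (-x) ≠ 0 := by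
    by_contra hc
    push Not at hc
    refine hf (funext fun y => ?_)
    have : ∑ ψ : AddChar G ℂ, ψ y * ∑ x, f x * ψ (-x) = 0 := by simp [hc]
    simp only [mul_sum] at this
    rw [sum_comm] at this
    have e : ∀ x, ∑ ψ : AddChar G ℂ, ψ y * (f x * ψ (-x)) =
        if y = x then f x * Fintype.card G else 0 := by
      intro x
      have : ∀ ψ : AddChar G ℂ, ψ y * (f x * ψ (-x)) = f x * ψ (y - x) := fun ψ => by
        rw [sub_eq_add_neg, AddChar.map_add_eq_mul]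
        ring
      simp only [this, ← mul_sum, AddChar.sum_apply_eq_ite, sub_eq_zero, mul_ite, mul_zero]
    simpa [e] using this
  obtain ⟨ψ, hψ⟩ := h1
  refine ⟨ψ, ?_, fun h0 => by simpa [h0] using hψ⟩
  refine mul_right_cancel₀ hψ ?_
  rw [mul_sum]
  have : ∀ x, c * (f x * ψ (-x)) = ∑ y, (κ (y - x) : ℂ) * f y * ψ (-x) := fun x => by
    rw [← mul_assoc, ← h, sum_mul]
  simp only [this]
  rw [sum_comm, mul_sum]
  refine sum_congr rfl fun y _ => ?_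
  rw [sum_mul]
  refine Fintype.sum_equiv (Equiv.subLeft y) _ _ fun x => ?_
  have : ψ (-x) = ψ (y - x) * ψ (-y) := by
    rw [← AddChar.map_add_eq_mul]
    congr 1
    abel
  rw [this]
  simp only [Equiv.subLeft_apply]
  ring

def tv (μ : G → ℝ) : ℝ := 1 / 2 * ∑ y, |μ y - 1 / (Fintype.card G : ℝ)|

omit [DecidableEq G] in
lemma tv_le {μ : G → ℝ} (h : ∑ y, μ y = 1) {c : ℝ} (hc : c ≤ 1)
    (hl : ∀ y, c / Fintype.card G ≤ μ y) : tv μ ≤ 1 - c := by
  have hG : (0 : ℝ) < Fintype.card G := by positivity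
  have : ∀ y, |μ y - 1 / (Fintype.card G : ℝ)| ≤
      (μ y - 1 / Fintype.card G) + 2 * ((1 - c) / Fintype.card G) := by
    intro y
    have h1 := hl y
    have h2 : 0 ≤ (1 - c) / Fintype.card G := div_nonneg (by linarith) hG.le
    have h3 : (1 - c) / Fintype.card G = 1 / Fintype.card G - c / Fintype.card G := by ring
    rw [abs_le]
    constructor <;> linarith
  have h2 := sum_le_sum fun y (_ : y ∈ univ) => this y
  simp only [sum_add_distrib, sum_sub_distrib, h, sum_const, card_univ, nsmul_eq_mul] at h2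
  have e1 : (Fintype.card G : ℝ) * (1 / Fintype.card G) = 1 := by field_simp
  have e2 : (Fintype.card G : ℝ) * (2 * ((1 - c) / Fintype.card G)) = 2 * (1 - c) := by field_simp
  unfold tv
  linarith

lemma le_tv {μ : G → ℝ} (h : ∑ y, μ y = 1) (B : Finset G) :
    ∑ y ∈ B, μ y - B.card / Fintype.card G ≤ tv μ := by
  have hG : (0 : ℝ) < Fintype.card G := by positivity
  have h1 : ∑ y ∈ B, (μ y - 1 / (Fintype.card G : ℝ)) + ∑ y ∈ Bᶜ, (μ y - 1 / (Fintype.card G : ℝ)) =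
      0 := by
    rw [sum_add_sum_compl, sum_sub_distrib, h]
    simp
  have h2 : ∑ y ∈ B, (μ y - 1 / (Fintype.card G : ℝ)) ≤ ∑ y ∈ B, |μ y - 1 / (Fintype.card G : ℝ)| :=
    sum_le_sum fun y _ => le_abs_self _
  have h3 : -∑ y ∈ Bᶜ, (μ y - 1 / (Fintype.card G : ℝ)) ≤
      ∑ y ∈ Bᶜ, |μ y - 1 / (Fintype.card G : ℝ)| := by
    rw [← sum_neg_distrib]
    exact sum_le_sum fun y _ => neg_le_abs _
  have h4 := sum_add_sum_compl B fun y => |μ y - 1 / (Fintype.card G : ℝ)|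
  have h5 : ∑ y ∈ B, (μ y - 1 / (Fintype.card G : ℝ)) = ∑ y ∈ B, μ y - B.card / Fintype.card G := by
    rw [sum_sub_distrib]
    simp [div_eq_mul_inv]
  unfold tv
  linarith

/-- The quantitative features of the example at scale `m`. -/
structure Pak (κ : G → ℝ) (m : ℕ) : Prop where
  prob : IsProb κ
  symm : ∀ s, κ (-s) = κ s
  card : m ≤ Fintype.card G
  char : ∀ ψ : AddChar G ℂ, ψ ≠ 0 → ‖∑ s, (κ s : ℂ) * ψ s‖ ≤ 3 / 4
  up : ∀ s t y, (1 - (1 - 1 / 8) ^ s) * (1 - (1 - 1 / (66 * (m : ℝ))) ^ t) / Fintype.card G ≤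
    cp κ (s + t) y
  low : ∃ B : Finset G, (B.card : ℝ) / Fintype.card G ≤ 1 / 100 ∧
    ∀ j : ℕ, 99 / 100 * (1 - j / (8 * (m : ℝ))) ≤ ∑ y ∈ B, cp κ j y

variable {κ : G → ℝ} {m : ℕ}

lemma Pak.up' (h : Pak κ m) (hm : 1 ≤ m) (j : ℕ) (y : G) :
    (1 - 9 / 8 * (15 / 16) ^ j - (1 + 1 / (66 * (m : ℝ))) * (1 - 1 / (132 * (m : ℝ))) ^ j) /
      Fintype.card G ≤ cp κ j y := by
  have hm' : (1 : ℝ) ≤ m := by exact_mod_cast hm
  have hb0 : (0 : ℝ) ≤ 1 / (66 * m) := by positivity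
  have hb1 : (1 : ℝ) / (66 * m) ≤ 1 := by
    rw [div_le_one (by positivity)]
    linarith
  have h1 := h.up (j - j / 2) (j / 2) y
  rw [show j - j / 2 + j / 2 = j by omega] at h1
  refine le_trans (div_le_div_of_nonneg_right ?_ (by positivity)) h1
  have h2 := half_pow hb0 hb1 j
  have h3 := half_pow (b := 1 / 8) (by norm_num) (by norm_num) j
  have h4 : (1 - 1 / 8 : ℝ) ^ (j - j / 2) ≤ (1 - 1 / 8) ^ (j / 2) :=
    pow_le_pow_of_le_one (by norm_num) (by norm_num) (by omega)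
  have e1 : (1 : ℝ) / (66 * m) / 2 = 1 / (132 * m) := by ring
  rw [e1] at h2
  have h5 : (0 : ℝ) ≤ (1 - 1 / 8) ^ (j - j / 2) := by positivity
  have h6 : (0 : ℝ) ≤ (1 - 1 / (66 * m)) ^ (j / 2) := pow_nonneg (by linarith) _
  have e2 : (1 - 1 / 8 / 2 : ℝ) = 15 / 16 := by norm_num
  rw [e2] at h3
  nlinarith [mul_nonneg h5 h6]

lemma one_sub_pow_le {b : ℝ} (h0 : 0 ≤ b) (h1 : b ≤ 1) (j : ℕ) : (1 - b) ^ j ≤ 1 / (1 + j * b) := by
  rw [le_div_iff₀ (by positivity)]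
  have h2 : 1 + j * b ≤ (1 + b) ^ j := one_add_mul_le_pow (by linarith) j
  calc (1 - b) ^ j * (1 + j * b) ≤ (1 - b) ^ j * (1 + b) ^ j :=
        mul_le_mul_of_nonneg_left h2 (pow_nonneg (by linarith) _)
    _ = (1 - b ^ 2) ^ j := by rw [← mul_pow]; ring_nf
    _ ≤ 1 := pow_le_one₀ (by nlinarith) (by nlinarith)

lemma Pak.early (h : Pak κ m) (hm : 8 ≤ m) (y : G) :
    1 / 200 / (Fintype.card G : ℝ) ≤ cp κ (2 * m) y := by
  have hm' : (8 : ℝ) ≤ m := by exact_mod_cast hm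
  have h1 := h.up m m y
  rw [← two_mul] at h1
  refine le_trans (div_le_div_of_nonneg_right ?_ (by positivity)) h1
  have h2 := one_sub_pow_le (b := 1 / 8) (by norm_num) (by norm_num) m
  have h3 := one_sub_pow_le (b := 1 / (66 * (m : ℝ))) (by positivity)
    (by rw [div_le_one (by positivity)]; linarith) m
  have e : (m : ℝ) * (1 / (66 * m)) = 1 / 66 := by field_simp
  rw [e] at h3
  have h4 : (1 : ℝ) / (1 + m * (1 / 8)) ≤ 1 / 2 :=
    one_div_le_one_div_of_le (by norm_num) (by linarith)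
  have h5 : (1 : ℝ) / 2 ≤ 1 - (1 - 1 / 8) ^ m := by linarith
  have h6 : (1 : ℝ) / 100 ≤ 1 - (1 - 1 / (66 * (m : ℝ))) ^ m := by
    norm_num at h3 ⊢
    linarith
  nlinarith

lemma Pak.late (h : Pak κ m) (hm : 1 ≤ m) {ε : ℝ} (hε : 0 < ε) :
    ∃ j, ∀ y, (1 - ε) / (Fintype.card G : ℝ) ≤ cp κ j y := by
  have hm' : (1 : ℝ) ≤ m := by exact_mod_cast hm
  have t1 := (tendsto_pow_atTop_nhds_zero_of_lt_one (r := (15 / 16 : ℝ)) (by norm_num)
    (by norm_num)).const_mul (9 / 8)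
  have t2 := (tendsto_pow_atTop_nhds_zero_of_lt_one (r := 1 - 1 / (132 * (m : ℝ)))
    (by rw [sub_nonneg, div_le_one (by positivity)]; linarith)
    (by rw [sub_lt_self_iff]; positivity)).const_mul (1 + 1 / (66 * (m : ℝ)))
  have t3 := t1.add t2
  simp only [mul_zero, add_zero] at t3
  obtain ⟨j, hj⟩ := (t3.eventually (ge_mem_nhds hε)).exists
  exact ⟨j, fun y => le_trans (div_le_div_of_nonneg_right (by linarith) (by positivity))
    (h.up' hm j y)⟩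

lemma Pak.tv_low (h : Pak κ m) (j : ℕ) :
    99 / 100 * (1 - j / (8 * (m : ℝ))) - 1 / 100 ≤ tv (cp κ j) := by
  obtain ⟨B, h1, h2⟩ := h.low
  have := le_tv (cp_prob h.prob j).2 B
  linarith [h2 j]

lemma Pak.tv_gt (h : Pak κ m) (hm : 1 ≤ m) {j : ℕ} (hj : j ≤ 4 * m) : 1 / 4 < tv (cp κ j) := by
  have h1 := h.tv_low j
  have hm' : (1 : ℝ) ≤ m := by exact_mod_cast hm
  have hj' : (j : ℝ) ≤ 4 * m := by exact_mod_cast hj
  have : (j : ℝ) / (8 * m) ≤ 1 / 2 := by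
    rw [div_le_iff₀ (by positivity)]
    linarith
  linarith

lemma Pak.tv_gt' (h : Pak κ m) (hm : 1 ≤ m) {j : ℕ} (hj : j ≤ 2 * m) : 1 / 2 < tv (cp κ j) := by
  have h1 := h.tv_low j
  have hm' : (1 : ℝ) ≤ m := by exact_mod_cast hm
  have hj' : (j : ℝ) ≤ 2 * m := by exact_mod_cast hj
  have : (j : ℝ) / (8 * m) ≤ 1 / 4 := by
    rw [div_le_iff₀ (by positivity)]
    linarith
  linarith

lemma Pak.eig (h : Pak κ m) {f : G → ℝ} {c : ℝ} (hf : f ≠ 0) (h0 : ∑ x, f x = 0)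
    (he : (M κ).mulVec f = c • f) : |c| ≤ 3 / 4 := by
  obtain ⟨ψ, h1, h2⟩ := eigen (κ := κ) (f := fun x => (f x : ℂ)) (c := c)
    (fun e => hf (funext fun x => by simpa using congrFun e x)) fun x => by
      have := congrFun he x
      simp only [Matrix.mulVec, dotProduct, M, Matrix.of_apply, Pi.smul_apply, smul_eq_mul] at this
      exact_mod_cast this
  have h3 := h.char ψ fun e => h2 e (by exact_mod_cast h0)
  rw [← h1] at h3
  simpa using h3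

omit [DecidableEq G] in
lemma sum_sub (μ : G → ℝ) (x : G) :
    1 / 2 * ∑ y, |μ (y - x) - 1 / (Fintype.card G : ℝ)| = tv μ := by
  unfold tv
  congr 1
  exact Fintype.sum_equiv (Equiv.subRight x) _ _ fun _ => rfl

end

end Pool.Agent.H32.Cut
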