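import Pool.Agent.H32.Cut

set_option autoImplicit false

namespace Pool.Agent.H32.Cut

open Finset
open scoped Pointwise

noncomputable section

section curve

variable (p d : ℕ) [Fact p.Prime]

def vv (x : ZMod p) : Fin d → ZMod p := fun i => x ^ (i : ℕ)

def S1 : Finset (Fin d → ZMod p) :=
  ((univ.erase 0) ×ˢ univ).image fun q : ZMod p × ZMod p => q.1 • vv p d q.2

variable {p d}

lemma S1_inj (hd : 2 ≤ d) : Set.InjOn (fun q : ZMod p × ZMod p => q.1 • vv p d q.2)
    ((univ.erase 0) ×ˢ univ : Finset (ZMod p × ZMod p)) := by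
  rintro ⟨t, x⟩ h ⟨t', x'⟩ - e
  have h0 := congrFun e ⟨0, by omega⟩
  have h1 := congrFun e ⟨1, by omega⟩
  simp [vv] at h0 h1 h
  subst h0
  rw [mul_left_cancel₀ h h1]

lemma S1_card (hd : 2 ≤ d) : (S1 p d).card = (p - 1) * p := by
  rw [S1, card_image_of_injOn (S1_inj hd)]
  simp [ZMod.card]

lemma S1_zero (hd : 2 ≤ d) : 0 ∉ S1 p d := by
  simp only [S1, mem_image, not_exists, not_and]
  rintro ⟨t, x⟩ h e
  have h0 := congrFun e ⟨0, by omega⟩
  simp [vv] at h0 h
  exact h h0

lemma S1_neg {a : Fin d → ZMod p} (h : a ∈ S1 p d) : -a ∈ S1 p d := by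
  obtain ⟨⟨t, x⟩, h1, rfl⟩ := mem_image.1 h
  exact mem_image.2 ⟨(-t, x), by simpa using h1, by simp⟩

lemma char_sum {A ι : Type} [AddCommGroup A] (χ : AddChar A ℂ) (s : Finset ι) (f : ι → A)
    (h : ∀ i ∈ s, χ (f i) = 1) : χ (∑ i ∈ s, f i) = 1 := by
  classical
  induction s using Finset.induction_on with
  | empty => simp
  | insert i s hi ih =>
    rw [sum_insert hi, AddChar.map_add_eq_mul, h i (mem_insert_self _ _),
      ih fun j hj => h j (mem_insert_of_mem hj), one_mul]

open Classical in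
lemma few_lines (χ : AddChar (Fin d → ZMod p) ℂ) (hχ : χ ≠ 0) :
    (univ.filter fun x : ZMod p => ∀ t : ZMod p, χ (t • vv p d x) = 1).card < d := by
  by_contra hc
  obtain ⟨Y, hY, hcard⟩ := exists_subset_card_eq (not_lt.1 hc)
  let e := (Finset.equivFinOfCardEq hcard).symm
  have hinj : Function.Injective fun i => (e i : ZMod p) := Subtype.val_injective.comp e.injective
  have hu : IsUnit (Matrix.vandermonde fun i => (e i : ZMod p)) :=
    (Matrix.isUnit_iff_isUnit_det _).2 (Matrix.det_vandermonde_ne_zero_iff.2 hinj).isUnit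
  refine hχ (AddChar.ext _ _ fun a => ?_)
  obtain ⟨c, rfl⟩ := Matrix.vecMul_surjective_iff_isUnit.2 hu a
  have : Matrix.vecMul c (Matrix.vandermonde fun i => (e i : ZMod p)) =
      ∑ i, c i • vv p d (e i) := by
    funext j
    simp [Matrix.vecMul, dotProduct, vv, Finset.sum_apply]
  simp only [this, AddChar.zero_apply]
  exact char_sum χ _ _ fun i _ => (mem_filter.1 (hY (e i).2)).2 _

lemma S1_char (hd : 2 ≤ d) (χ : AddChar (Fin d → ZMod p) ℂ) (hχ : χ ≠ 0) :
    ‖∑ a ∈ S1 p d, χ a‖ ≤ p * d := by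
  classical
  rw [S1, sum_image (S1_inj hd), sum_product_right]
  have h1 : ∀ x : ZMod p, ∑ t ∈ univ.erase (0 : ZMod p), χ (t • vv p d x) =
      (if ∀ t : ZMod p, χ (t • vv p d x) = 1 then (p : ℂ) else 0) - 1 := by
    intro x
    rw [sum_erase_eq_sub (mem_univ _)]
    have := AddChar.sum_eq_ite (χ.compAddMonoidHom
      (LinearMap.toSpanSingleton (ZMod p) _ (vv p d x)).toAddMonoidHom)
    simp only [AddChar.compAddMonoidHom_apply, LinearMap.toAddMonoidHom_coe,
      LinearMap.toSpanSingleton_apply, ZMod.card] at this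
    rw [this]
    simp [DFunLike.ext_iff]
  simp only [h1]
  rw [sum_sub_distrib, ← sum_filter]
  refine (norm_sub_le _ _).trans ?_
  have h2 := few_lines χ hχ
  have h3 : ((univ.filter fun x : ZMod p => ∀ t : ZMod p, χ (t • vv p d x) = 1).card : ℝ) + 1 ≤ d := by
    exact_mod_cast h2
  simp only [sum_const, nsmul_eq_mul, card_univ, ZMod.card, mul_one, norm_mul, Complex.norm_natCast]
  nlinarith [(Nat.cast_nonneg p : (0 : ℝ) ≤ p)]

end curve

variable {G : Type} [AddCommGroup G] [Fintype G] [DecidableEq G]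

def unif (S : Finset G) (s : G) : ℝ := if s ∈ S then 1 / S.card else 0

def lz (α : ℝ) (S : Finset G) (s : G) : ℝ := (if s = 0 then α else 0) + (1 - α) * unif S s

omit [AddCommGroup G] in
lemma sum_ind (T : Finset G) (c : ℝ) : ∑ s, (if s ∈ T then c else 0) = T.card * c := by
  simp

lemma lz_prob {α : ℝ} (h0 : 0 ≤ α) (h1 : α ≤ 1) {S : Finset G} (hS : S.Nonempty) :
    IsProb (lz α S) := by
  have : (S.card : ℝ) ≠ 0 := by exact_mod_cast hS.card_pos.ne'
  refine ⟨fun s => ?_, ?_⟩
  · unfold lz unif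
    have : 0 ≤ 1 - α := by linarith
    positivity
  · simp only [lz, unif, sum_add_distrib, ← mul_sum, sum_ind]
    simp [this]

theorem exists_pak (m : ℕ) (hm : 2 ≤ m) :
    ∃ (G : Type) (_ : AddCommGroup G) (_ : Fintype G) (_ : DecidableEq G) (S : Finset G),
      0 ∉ S ∧ S.Nonempty ∧ (∀ s ∈ S, -s ∈ S) ∧ ∀ α : ℝ, 0 ≤ α → α ≤ 1 / 2 → Pak (lz α S) m := by
  classical
  obtain ⟨p, hp, hprime⟩ := Nat.exists_infinite_primes (4 * (16 * m + 2) + 1)
  have : Fact p.Prime := ⟨hprime⟩
  set d := 16 * m + 2 with hd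
  set N := 32 * m * p ^ (16 * m) with hN
  have hpow : 1 ≤ p ^ (16 * m) := Nat.one_le_pow _ _ hprime.pos
  have hN2 : 32 * m ≤ N := Nat.le_mul_of_pos_right _ hpow
  have : NeZero N := ⟨by omega⟩
  have : Fact (1 < N) := ⟨by omega⟩
  have hd2 : 2 ≤ d := by omega
  set T : Finset ((Fin d → ZMod p) × ZMod N) := S1 p d ×ˢ univ with hT
  set U : Finset ((Fin d → ZMod p) × ZMod N) := univ ×ˢ {1, -1} with hU
  set P : ℝ := (p : ℝ) ^ (16 * m) with hP
  have hp' : (4 * (16 * m + 2) + 1 : ℝ) ≤ p := by exact_mod_cast hp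
  have hm' : (2 : ℝ) ≤ m := by exact_mod_cast hm
  have hP1 : (1 : ℝ) ≤ P := by rw [hP]; exact_mod_cast hpow
  have cN : (N : ℝ) = 32 * m * P := by rw [hN, hP]; push_cast; ring
  have cA : (Fintype.card (Fin d → ZMod p) : ℝ) = P * p ^ 2 := by
    simp [ZMod.card, hd, pow_add, hP]
  have cT : (T.card : ℝ) = (p - 1) * p * (32 * m * P) := by
    rw [hT, card_product, S1_card hd2, card_univ, ZMod.card, ← cN]
    push_cast [Nat.cast_sub hprime.pos]
    ring
  have cU : (U.card : ℝ) ≤ 2 * (P * p ^ 2) := by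
    rw [hU, card_product, card_univ, Nat.cast_mul, cA, mul_comm]
    have : (({1, -1} : Finset (ZMod N)).card : ℝ) ≤ 2 := by exact_mod_cast card_le_two
    exact mul_le_mul_of_nonneg_right this (by positivity)
  have cS1 : (T.card : ℝ) ≤ (T ∪ U).card := by exact_mod_cast card_le_card subset_union_left
  have cS2 : ((T ∪ U).card : ℝ) ≤ T.card + U.card := by exact_mod_cast card_union_le _ _
  have hp0 : (0 : ℝ) < p := by linarith
  have hQ : 0 < P * p ^ 2 := by positivity
  have cT1 : 16 * m * (P * p ^ 2) ≤ T.card := by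
    rw [cT]
    have : 0 ≤ 16 * m * P * p * (p - 2) := by
      have : (0 : ℝ) ≤ p - 2 := by linarith
      positivity
    nlinarith
  have cT2 : (T.card : ℝ) ≤ 32 * m * (P * p ^ 2) := by
    rw [cT]
    have : 0 ≤ 32 * m * P * p := by positivity
    nlinarith
  have hT0 : (0 : ℝ) < T.card := lt_of_lt_of_le (by positivity) cT1
  have hS0 : (0 : ℝ) < (T ∪ U).card := lt_of_lt_of_le hT0 cS1
  have hne : (T ∪ U).Nonempty := card_pos.1 (by exact_mod_cast hS0)
  have hneg : ∀ s ∈ T ∪ U, -s ∈ T ∪ U := by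
    intro s hs
    rcases mem_union.1 hs with h | h
    · exact mem_union_left _ (mem_product.2 ⟨S1_neg (mem_product.1 h).1, mem_univ _⟩)
    · refine mem_union_right _ (mem_product.2 ⟨mem_univ _, ?_⟩)
      rcases mem_insert.1 (mem_product.1 h).2 with h | h
      · simp [h]
      · simp [mem_singleton.1 h]
  refine ⟨(Fin d → ZMod p) × ZMod N, inferInstance, inferInstance, inferInstance, T ∪ U, ?_, hne,
    hneg, fun α a0 a1 => ?_⟩
  · rw [mem_union, not_or]
    exact ⟨fun h => S1_zero hd2 (mem_product.1 h).1, by simp [hU]⟩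
  have hprob := lz_prob a0 (by linarith) hne
  have hge : ∀ s ∈ T ∪ U, 1 / (2 * ((T ∪ U).card : ℝ)) ≤ lz α (T ∪ U) s := by
    intro s hs
    simp only [lz, unif, if_pos hs]
    have h1 : 0 ≤ if s = 0 then α else 0 := by positivity
    have h2 : 1 / (2 * ((T ∪ U).card : ℝ)) = 1 / 2 * (1 / (T ∪ U).card) := by field_simp
    have h3 : 1 / 2 * (1 / ((T ∪ U).card : ℝ)) ≤ (1 - α) * (1 / (T ∪ U).card) :=
      mul_le_mul_of_nonneg_right (by linarith) (by positivity)
    linarith
  refine ⟨hprob, fun s => ?_, ?_, fun ψ hψ => ?_, fun s t y => ?_, ?_⟩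
  · have : -s ∈ T ∪ U ↔ s ∈ T ∪ U := ⟨fun h => by simpa using hneg _ h, hneg s⟩
    simp only [lz, unif, this, neg_eq_zero]
  · rw [Fintype.card_prod, ZMod.card]
    exact le_trans (by omega) (Nat.le_mul_of_pos_left _ Fintype.card_pos)
  · have e1 : ∑ s, (lz α (T ∪ U) s : ℂ) * ψ s =
        α + ((1 - α) / (T ∪ U).card : ℝ) * ∑ s ∈ T ∪ U, ψ s := by
      simp only [lz, unif]
      push_cast
      simp only [add_mul, sum_add_distrib, apply_ite Complex.ofReal, ite_mul, mul_ite]
      simp [mul_sum, div_eq_mul_inv, -mem_union]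
    have e2 : ‖∑ s ∈ T, ψ s‖ ≤ p * d * N := by
      have : ∑ s ∈ T, ψ s = (∑ a ∈ S1 p d, ψ.compAddMonoidHom (AddMonoidHom.inl _ _) a) *
          ∑ h, ψ.compAddMonoidHom (AddMonoidHom.inr _ _) h := by
        rw [hT, sum_product, sum_mul_sum]
        refine sum_congr rfl fun a _ => sum_congr rfl fun h _ => ?_
        simp [← AddChar.map_add_eq_mul]
      rw [this, AddChar.sum_eq_ite]
      split_ifs with h
      · rw [norm_mul, ZMod.card, Complex.norm_natCast]
        refine mul_le_mul_of_nonneg_right (S1_char hd2 _ fun h2 => hψ ?_) (by positivity)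
        refine AddChar.ext _ _ fun g => ?_
        have h3 := DFunLike.congr_fun h g.2
        have h4 := DFunLike.congr_fun h2 g.1
        simp only [AddChar.compAddMonoidHom_apply, AddMonoidHom.inr_apply, AddMonoidHom.inl_apply,
          AddChar.zero_apply] at h3 h4 ⊢
        have : g = (g.1, 0) + (0, g.2) := by simp
        rw [this, AddChar.map_add_eq_mul, h3, h4, one_mul]
      · simp only [mul_zero, norm_zero]
        positivity
    have e3 : ‖∑ s ∈ T ∪ U, ψ s‖ ≤ p * d * N + U.card := by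
      rw [← union_sdiff_self_eq_union, sum_union disjoint_sdiff]
      refine (norm_add_le _ _).trans (add_le_add e2 ((norm_sum_le _ _).trans ?_))
      simp only [AddChar.norm_apply, sum_const, nsmul_eq_mul, mul_one]
      exact_mod_cast card_le_card sdiff_subset
    have e4 : ‖∑ s ∈ T ∪ U, ψ s‖ ≤ (T ∪ U).card / 2 := by
      have h1 : (p : ℝ) * d * N ≤ T.card / 4 := by
        rw [cT, cN, hd]
        push_cast
        have : 0 ≤ (p : ℝ) * (32 * m * P) := by positivity
        nlinarith
      nlinarith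
    rw [e1]
    refine (norm_add_le _ _).trans ?_
    rw [norm_mul, Complex.norm_real, Complex.norm_real, Real.norm_of_nonneg a0,
      Real.norm_of_nonneg (div_nonneg (by linarith) hS0.le)]
    have : (1 - α) / (T ∪ U).card * ‖∑ s ∈ T ∪ U, ψ s‖ ≤
        (1 - α) / (T ∪ U).card * ((T ∪ U).card / 2) :=
      mul_le_mul_of_nonneg_left e4 (div_nonneg (by linarith) hS0.le)
    have h2 : (1 - α) / (T ∪ U).card * (((T ∪ U).card : ℝ) / 2) = (1 - α) / 2 := by field_simp
    linarith
  · refine up_bound hprob (N1 := (AddMonoidHom.fst _ _).ker) (N2 := (AddMonoidHom.snd _ _).ker)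
      (fun g => ⟨(0, g.2), by exact AddMonoidHom.mem_ker.2 rfl, (g.1, 0),
        by exact AddMonoidHom.mem_ker.2 rfl, by simp⟩)
      (κ1 := fun s => if s ∈ T then 1 / (8 * T.card) else 0)
      (κ2 := fun s => if s ∈ (univ ×ˢ {1} : Finset ((Fin d → ZMod p) × ZMod N))
        then 1 / (66 * m * (P * p ^ 2)) else 0)
      (fun s => by positivity) (fun s => ?_) (fun n hn y => ?_) ?_
      (fun s => by positivity) (fun s => ?_) (fun n hn y => ?_) ?_ s t y
    · split_ifs with h
      · refine le_trans (one_div_le_one_div_of_le (by positivity) ?_) (hge s (mem_union_left _ h))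
        nlinarith
      · exact hprob.1 s
    · have : n.1 = 0 := hn
      simp [hT, this]
    · rw [sum_ind]
      field_simp
    · split_ifs with h
      · refine le_trans (one_div_le_one_div_of_le (by positivity) ?_) (hge s (mem_union_right _
          (mem_product.2 ⟨mem_univ _, by simp [mem_singleton.1 (mem_product.1 h).2]⟩)))
        nlinarith
      · exact hprob.1 s
    · have : n.2 = 0 := hn
      simp only [mem_product, Prod.snd_add, this, add_zero, mem_univ]
    · rw [sum_ind, card_product, card_univ, card_singleton, mul_one, cA]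
      field_simp
  · set S0 := insert 0 (S1 p d) with hS0'
    have h00 : (0 : Fin d → ZMod p) ∈ S0 := mem_insert_self _ _
    refine ⟨((8 * m) • S0) ×ˢ univ, ?_, fun j => ?_⟩
    · have h1 : ((8 * m) • S0).card ≤ p ^ (16 * m) := by
        refine card_nsmul_le.trans ?_
        rw [show 16 * m = 2 * (8 * m) by ring, pow_mul p 2]
        refine Nat.pow_le_pow_left ((card_insert_le _ _).trans ?_) _
        rw [S1_card hd2]
        obtain ⟨q, rfl⟩ : ∃ q, p = q + 1 := ⟨p - 1, by omega⟩
        simp only [Nat.add_sub_cancel]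
        nlinarith
      have h2 : (((8 * m) • S0).card : ℝ) ≤ P := by rw [hP]; exact_mod_cast h1
      rw [card_product, Fintype.card_prod, card_univ, Nat.cast_mul, Nat.cast_mul, cA,
        mul_div_mul_right _ _ (by positivity), div_le_iff₀ hQ]
      have : (100 : ℝ) ≤ p ^ 2 := by nlinarith
      nlinarith
    have hnn : ∀ B : Finset ((Fin d → ZMod p) × ZMod N), 0 ≤ ∑ y ∈ B, cp (lz α (T ∪ U)) j y :=
      fun B => sum_nonneg fun y _ => (cp_prob hprob j).1 y
    by_cases hj : j ≤ 8 * m
    · have h1 := low_bound hprob (S0 ×ˢ univ) (fun j => (j • S0) ×ˢ univ) (by simp)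
        (fun j s hs y hy => mem_product.2 ⟨by
          rw [succ_nsmul']
          exact add_mem_add (mem_product.1 hs).1 (mem_product.1 hy).1, mem_univ _⟩) j
      have h2 : 1 - 1 / (8 * (m : ℝ)) ≤ ∑ s ∈ S0 ×ˢ univ, lz α (T ∪ U) s := by
        have h3 : ∑ s ∈ S0 ×ˢ univ, lz α (T ∪ U) s + ∑ s ∈ (S0 ×ˢ univ)ᶜ, lz α (T ∪ U) s = 1 := by
          rw [sum_add_sum_compl, hprob.2]
        have h4 : ∑ s ∈ (S0 ×ˢ univ)ᶜ, lz α (T ∪ U) s ≤
            ∑ s, if s ∈ U then 1 / ((T ∪ U).card : ℝ) else 0 := by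
          refine le_trans (sum_le_sum fun s hs => ?_) (sum_le_sum_of_subset_of_nonneg
            (subset_univ _) fun s _ _ => by positivity)
          have hs' : s.1 ∉ S0 := by simpa using hs
          have h5 : s ≠ 0 := fun e => hs' (e ▸ h00)
          have h6 : s ∉ T := fun e => hs' (mem_insert_of_mem (mem_product.1 e).1)
          simp only [lz, unif, if_neg h5, mem_union, h6, false_or, zero_add]
          split_ifs
          · exact mul_le_of_le_one_left (by positivity) (by linarith)
          · simp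
        rw [sum_ind] at h4
        have h7 : (U.card : ℝ) * (1 / (T ∪ U).card) ≤ 1 / (8 * m) := by
          rw [mul_one_div, div_le_div_iff₀ hS0 (by positivity)]
          nlinarith
        linarith
      have h8 : (1 : ℝ) / (8 * m) ≤ 1 := by
        rw [div_le_one (by positivity)]
        linarith
      have h9 := one_add_mul_le_pow (a := -(1 / (8 * (m : ℝ)))) (by linarith) j
      have h10 := pow_le_pow_left₀ (by linarith) h2 j
      have h11 : ∑ y ∈ (j • S0) ×ˢ univ, cp (lz α (T ∪ U)) j y ≤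
          ∑ y ∈ ((8 * m) • S0) ×ˢ univ, cp (lz α (T ∪ U)) j y :=
        sum_le_sum_of_subset_of_nonneg (product_subset_product_left (nsmul_subset_nsmul_right h00 hj))
          fun y _ _ => (cp_prob hprob j).1 y
      have e : 1 + (j : ℝ) * -(1 / (8 * m)) = 1 - j / (8 * m) := by ring
      rw [e, ← sub_eq_add_neg] at h9
      nlinarith [hnn (((8 * m) • S0) ×ˢ univ)]
    · have : (1 : ℝ) ≤ j / (8 * m) := by
        rw [le_div_iff₀ (by positivity)]
        have : ((8 * m : ℕ) : ℝ) ≤ j := by exact_mod_cast (not_le.1 hj).le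
        push_cast at this
        linarith
      nlinarith [hnn (((8 * m) • S0) ×ˢ univ)]

end

end Pool.Agent.H32.Cut
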