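import Pool.Agent.H32.CutEx

set_option autoImplicit false

namespace Pool.Agent.H32.Cut

open Finset Filter Topology

noncomputable section

def tm {V : Type} [Fintype V] [DecidableEq V] (P : Matrix V V ℝ) (ε : ℝ) : ℕ :=
  sInf {t : ℕ | ∀ x, 1 / 2 * ∑ y, |(P ^ t) x y - 1 / (Fintype.card V : ℝ)| ≤ ε}

def ts {V : Type} [Fintype V] [DecidableEq V] (P : Matrix V V ℝ) (ε : ℝ) : ℕ :=
  sInf {t : ℕ | ∀ x y, 1 - (P ^ t) x y / (1 / (Fintype.card V : ℝ)) ≤ ε}

def l2 {V : Type} [Fintype V] (P : Matrix V V ℝ) : ℝ :=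
  sSup {c : ℝ | ∃ f : V → ℝ, f ≠ 0 ∧ ∑ x, f x = 0 ∧ P.mulVec f = c • f}

variable {G : Type} [AddCommGroup G] [Fintype G] [DecidableEq G] {κ : G → ℝ} {m : ℕ}

lemma tm_eq (κ : G → ℝ) (ε : ℝ) : tm (M κ) ε = sInf {t : ℕ | tv (cp κ t) ≤ ε} := by
  simp only [tm, M_pow, sum_sub, forall_const]

lemma ts_eq (κ : G → ℝ) (ε : ℝ) :
    ts (M κ) ε = sInf {t : ℕ | ∀ y, (1 - ε) / (Fintype.card G : ℝ) ≤ cp κ t y} := by
  have hG : (0 : ℝ) < Fintype.card G := by positivity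
  simp only [ts, M_pow]
  congr 1
  ext t
  simp only [Set.mem_ofPred_eq, div_le_iff₀ hG, one_div, div_inv_eq_mul]
  exact ⟨fun h y => by have := h 0 y; rw [sub_zero] at this; linarith,
    fun h x y => by linarith [h (y - x)]⟩

lemma Pak.tm_mem (h : Pak κ m) (hm : 1 ≤ m) {ε : ℝ} (hε : 0 < ε) :
    tv (cp κ (sInf {t : ℕ | tv (cp κ t) ≤ ε})) ≤ ε := by
  obtain ⟨j, hj⟩ := h.late hm hε
  have := tv_le (cp_prob h.prob j).2 (by linarith) hj
  exact Nat.sInf_mem (s := {t : ℕ | tv (cp κ t) ≤ ε}) ⟨j, by simpa using this⟩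

lemma Pak.tm_low (h : Pak κ m) (hm : 1 ≤ m) {ε : ℝ} (hε : 0 < ε) (h4 : ε ≤ 1 / 4) :
    4 * m < tm (M κ) ε := by
  rw [tm_eq]
  by_contra hc
  linarith [h.tm_mem hm hε, h.tv_gt hm (not_lt.1 hc)]

lemma Pak.tm_half (h : Pak κ m) (hm : 1 ≤ m) : 2 * m < tm (M κ) (1 / 2) := by
  rw [tm_eq]
  by_contra hc
  linarith [h.tm_mem hm (ε := 1 / 2) (by norm_num), h.tv_gt' hm (not_lt.1 hc)]

lemma Pak.tv_zero (h : Pak κ m) (hm : 201 ≤ m) : 1 - 1 / 200 < tv (cp κ 0) := by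
  have h1 := le_tv (cp_prob h.prob 0).2 {0}
  have h2 : (201 : ℝ) ≤ Fintype.card G := by exact_mod_cast hm.trans h.card
  have h3 : (1 : ℝ) / Fintype.card G ≤ 1 / 201 := one_div_le_one_div_of_le (by norm_num) h2
  simp only [sum_singleton, card_singleton, Nat.cast_one, cp, if_true] at h1
  simp only [cp]
  linarith

lemma Pak.tm_up (h : Pak κ m) (hm : 201 ≤ m) :
    1 ≤ tm (M κ) (1 - 1 / 200) ∧ tm (M κ) (1 - 1 / 200) ≤ 2 * m := by
  rw [tm_eq]
  refine ⟨Nat.pos_of_ne_zero fun e => ?_, Nat.sInf_le (tv_le (cp_prob h.prob _).2 (by norm_num)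
    (h.early (by omega)))⟩
  have := h.tm_mem (by omega) (ε := 1 - 1 / 200) (by norm_num)
  rw [e] at this
  linarith [h.tv_zero hm]

lemma Pak.ts_mem (h : Pak κ m) (hm : 1 ≤ m) {ε : ℝ} (hε : 0 < ε) :
    tv (cp κ (ts (M κ) ε)) ≤ ε := by
  rw [ts_eq]
  have := tv_le (cp_prob h.prob _).2 (by linarith) (Nat.sInf_mem
    (s := {t : ℕ | ∀ y, (1 - ε) / (Fintype.card G : ℝ) ≤ cp κ t y}) (h.late hm hε))
  simpa using this

lemma Pak.ts_low (h : Pak κ m) (hm : 1 ≤ m) : 4 * m < ts (M κ) (1 / 200) := by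
  by_contra hc
  linarith [h.ts_mem hm (ε := 1 / 200) (by norm_num), h.tv_gt hm (not_lt.1 hc)]

lemma Pak.ts_up (h : Pak κ m) (hm : 201 ≤ m) :
    1 ≤ ts (M κ) (1 - 1 / 200) ∧ ts (M κ) (1 - 1 / 200) ≤ 2 * m := by
  refine ⟨Nat.pos_of_ne_zero fun e => ?_, ?_⟩
  · have := h.ts_mem (by omega) (ε := 1 - 1 / 200) (by norm_num)
    rw [e] at this
    linarith [h.tv_zero hm]
  · rw [ts_eq]
    refine Nat.sInf_le fun y => ?_
    rw [sub_sub_cancel]
    exact h.early (by omega) y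

lemma Pak.l2_le (h : Pak κ m) : l2 (M κ) ≤ 3 / 4 :=
  Real.sSup_le (fun _ ⟨_, h1, h2, h3⟩ => (le_abs_self _).trans (h.eig h1 h2 h3)) (by norm_num)

lemma Pak.pos (h : Pak κ m) (hm : 1 ≤ m) (y : G) : 0 < cp κ 2 y := by
  refine lt_of_lt_of_le ?_ (h.up 1 1 y)
  have : (0 : ℝ) < m := by exact_mod_cast hm
  simp only [pow_one, sub_sub_cancel]
  positivity

lemma prod_cond {a : ℕ → ℕ} {l : ℕ → ℝ} (ha : ∀ n, n ≤ a n) (hl : ∀ n, l n ≤ 3 / 4) :
    Tendsto (fun n => (a n : ℝ) / (1 / (1 - l n))) atTop atTop := by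
  refine tendsto_atTop_mono (fun n => ?_)
    (tendsto_natCast_atTop_atTop.atTop_mul_const (show (0 : ℝ) < 1 / 4 by norm_num))
  rw [div_div_eq_mul_div, div_one]
  exact mul_le_mul (by exact_mod_cast ha n) (by linarith [hl n]) (by norm_num) (by positivity)

lemma no_cut {a b : ℕ → ℕ} (h : ∀ n, 1 ≤ b n ∧ 2 * b n ≤ a n) :
    ¬ Tendsto (fun n => (a n : ℝ) / b n) atTop (𝓝 1) := by
  intro ht
  have : (2 : ℝ) ≤ 1 := ge_of_tendsto' ht fun n => by
    have h1 : (0 : ℝ) < b n := by exact_mod_cast (h n).1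
    rw [le_div_iff₀ h1]
    exact_mod_cast (h n).2
  norm_num at this

lemma closure_top {S : Finset G} (h : Pak (lz 0 S) m) (hm : 1 ≤ m) (y : G) :
    ∃ a ∈ S, ∃ b ∈ S, y = a + b := by
  have h1 := (h.pos hm y).ne'
  obtain ⟨a, -, ha⟩ := exists_ne_zero_of_sum_ne_zero h1
  obtain ⟨b, -, hb⟩ := exists_ne_zero_of_sum_ne_zero (right_ne_zero_of_mul ha)
  have key : ∀ s, lz 0 S s ≠ 0 → s ∈ S := fun s hs => by
    by_contra hc
    simp [lz, unif, hc] at hs
  refine ⟨a, key a (left_ne_zero_of_mul ha), b, key b (left_ne_zero_of_mul hb), ?_⟩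
  have h2 := right_ne_zero_of_mul hb
  simp only [cp, ne_eq, ite_eq_right_iff, one_ne_zero, imp_false, not_not] at h2
  rw [sub_sub, sub_eq_zero] at h2
  exact h2

def cay (S : Finset G) (h0 : 0 ∉ S) (hn : ∀ s ∈ S, -s ∈ S) : SimpleGraph G where
  Adj x y := y - x ∈ S
  symm := ⟨fun x y h => by simpa using hn _ h⟩
  loopless := ⟨fun x h => h0 (by simpa using h)⟩

instance (S : Finset G) (h0 : 0 ∉ S) (hn : ∀ s ∈ S, -s ∈ S) : DecidableRel (cay S h0 hn).Adj :=
  fun x y => inferInstanceAs (Decidable (y - x ∈ S))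

variable {S : Finset G} {h0 : 0 ∉ S} {hn : ∀ s ∈ S, -s ∈ S}

omit [Fintype G] [DecidableEq G] in
lemma cay_adj (x y : G) : (cay S h0 hn).Adj x y ↔ y - x ∈ S := Iff.rfl

lemma cay_degree (x : G) : (cay S h0 hn).degree x = S.card := by
  rw [← SimpleGraph.card_neighborFinset_eq_degree]
  refine card_bij (fun y _ => y - x) (fun y hy => by simpa [cay_adj] using hy)
    (fun a _ b _ e => sub_left_injective e) fun s hs => ⟨s + x, by simpa [cay_adj] using hs, by simp⟩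

omit [Fintype G] [DecidableEq G] in
lemma cay_trans (x y : G) : ∃ φ : cay S h0 hn ≃g cay S h0 hn, φ x = y :=
  ⟨⟨Equiv.addRight (y - x), by intro a b; simp [cay]⟩, by simp⟩

lemma cay_conn (h : Pak (lz 0 S) m) (hm : 1 ≤ m) : (cay S h0 hn).Connected := by
  refine ⟨fun x y => ?_⟩
  obtain ⟨a, ha, b, hb, e⟩ := closure_top h hm (y - x)
  have h1 : (cay S h0 hn).Adj x (x + a) := by simpa [cay_adj] using ha
  have h2 : (cay S h0 hn).Adj (x + a) y := by
    rw [cay_adj, ← sub_sub, e]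
    simpa using hb
  exact h1.reachable.trans h2.reachable

lemma cay_lazy : (Matrix.of fun a b : G => (if a = b then (1 / 2 : ℝ) else 0) +
    (if (cay S h0 hn).Adj a b then 1 / (2 * ((cay S h0 hn).degree a : ℝ)) else 0)) =
      M (lz (1 / 2) S) := by
  ext a b
  simp only [Matrix.of_apply, M, lz, unif, cay_degree, cay_adj, sub_eq_zero, eq_comm (a := b)]
  congr 1
  split_ifs
  · rw [one_div, mul_inv]
    ring
  · simp

lemma cay_srw : (Matrix.of fun a b : G =>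
    if (cay S h0 hn).Adj a b then 1 / ((cay S h0 hn).degree a : ℝ) else 0) = M (lz 0 S) := by
  ext a b
  simp [M, lz, unif, cay_degree, cay_adj]

lemma hs_pow (t r : ℝ) :
    HasSum (fun j : ℕ => Real.exp (-t) * t ^ j / j.factorial * r ^ j) (Real.exp (-(t * (1 - r)))) := by
  have h := (NormedSpace.expSeries_div_hasSum_exp (t * r)).mul_left (Real.exp (-t))
  rw [← Real.exp_eq_exp_ℝ, ← Real.exp_add] at h
  have e : -(t * (1 - r)) = -t + t * r := by ring
  rw [e]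
  have e2 : (fun j : ℕ => Real.exp (-t) * t ^ j / j.factorial * r ^ j) =
      fun j : ℕ => Real.exp (-t) * ((t * r) ^ j / j.factorial) := by
    funext j
    rw [mul_pow]
    ring
  rw [e2]
  exact h

def po (t : ℝ) (j : ℕ) : ℝ := Real.exp (-t) * t ^ j / j.factorial

lemma po_nonneg {t : ℝ} (ht : 0 ≤ t) (j : ℕ) : 0 ≤ po t j := by
  unfold po
  positivity

lemma po_sum (t : ℝ) : HasSum (po t) 1 := by
  have := hs_pow t 1
  simp only [one_pow, mul_one, sub_self, mul_zero, neg_zero, Real.exp_zero] at this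
  exact this

lemma po_mean (t : ℝ) : HasSum (fun j => po t j * j) t := by
  rw [← hasSum_nat_add_iff' 1]
  have e : (fun j : ℕ => po t (j + 1) * ((j + 1 : ℕ) : ℝ)) = fun j => t * po t j := by
    funext j
    unfold po
    rw [Nat.factorial_succ]
    push_cast
    field_simp
    ring
  rw [e]
  simpa using (po_sum t).mul_left t

def ht (κ : G → ℝ) (t : ℝ) (y : G) : ℝ := ∑' j, po t j * cp κ j y

lemma cp_le_one (h : IsProb κ) (j : ℕ) (y : G) : cp κ j y ≤ 1 :=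
  (single_le_sum (fun s _ => (cp_prob h j).1 s) (mem_univ y)).trans (cp_prob h j).2.le

lemma ht_has (h : IsProb κ) {t : ℝ} (h0 : 0 ≤ t) (y : G) :
    HasSum (fun j => po t j * cp κ j y) (ht κ t y) :=
  (Summable.of_nonneg_of_le (fun j => mul_nonneg (po_nonneg h0 j) ((cp_prob h j).1 y))
    (fun j => mul_le_of_le_one_right (po_nonneg h0 j) (cp_le_one h j y)) (po_sum t).summable).hasSum

lemma ht_set (h : IsProb κ) {t : ℝ} (h0 : 0 ≤ t) (B : Finset G) :
    HasSum (fun j => po t j * ∑ y ∈ B, cp κ j y) (∑ y ∈ B, ht κ t y) := by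
  simpa only [mul_sum] using hasSum_sum fun y (_ : y ∈ B) => ht_has h h0 y

lemma ht_sum (h : IsProb κ) {t : ℝ} (h0 : 0 ≤ t) : ∑ y, ht κ t y = 1 := by
  have := ht_set h h0 univ
  simp only [(cp_prob h _).2, mul_one] at this
  exact this.unique (po_sum t)

lemma Pak.ht_low (h : Pak κ m) {t : ℝ} (h0 : 0 ≤ t) :
    99 / 100 * (1 - t / (8 * (m : ℝ))) - 1 / 100 ≤ tv (ht κ t) := by
  obtain ⟨B, h1, h2⟩ := h.low
  have h3 := le_tv (ht_sum h.prob h0) B
  have h4 := ((po_sum t).sub ((po_mean t).div_const (8 * (m : ℝ)))).mul_left (99 / 100)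
  have h5 := hasSum_le (fun j => ?_) h4 (ht_set h.prob h0 B)
  · linarith
  · have := mul_le_mul_of_nonneg_left (h2 j) (po_nonneg h0 j)
    refine le_trans (le_of_eq ?_) this
    ring

lemma Pak.ht_up (h : Pak κ m) (hm : 1 ≤ m) {t : ℝ} (h0 : 0 ≤ t) :
    tv (ht κ t) ≤ 9 / 8 * Real.exp (-(t / 16)) +
      (1 + 1 / (66 * (m : ℝ))) * Real.exp (-(t / (132 * m))) := by
  have h1 := (((po_sum t).sub ((hs_pow t (15 / 16)).mul_left (9 / 8))).sub
    ((hs_pow t (1 - 1 / (132 * (m : ℝ)))).mul_left (1 + 1 / (66 * (m : ℝ))))).div_const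
      (Fintype.card G : ℝ)
  have e1 : t * (1 - 15 / 16) = t / 16 := by ring
  have e2 : t * (1 - (1 - 1 / (132 * (m : ℝ)))) = t / (132 * m) := by ring
  rw [e1, e2] at h1
  have h2 := tv_le (ht_sum h.prob h0) (c := 1 - 9 / 8 * Real.exp (-(t / 16)) -
    (1 + 1 / (66 * (m : ℝ))) * Real.exp (-(t / (132 * m))))
    (by
      have : 0 ≤ (1 + 1 / (66 * (m : ℝ))) * Real.exp (-(t / (132 * m))) := by positivity
      linarith [Real.exp_pos (-(t / 16))])
    fun y => hasSum_le (fun j => ?_) h1 (ht_has h.prob h0 y)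
  · linarith
  · have := mul_le_mul_of_nonneg_left (h.up' hm j y) (po_nonneg h0 j)
    refine le_trans (le_of_eq ?_) this
    unfold po
    ring

lemma exp_neg_le {x : ℝ} (hx : 0 ≤ x) : Real.exp (-x) ≤ 1 / (1 + x) := by
  rw [Real.exp_neg, one_div]
  exact inv_anti₀ (by positivity) (by linarith [Real.add_one_le_exp x])

lemma Pak.ht_early (h : Pak κ m) (hm : 1800 ≤ m) {t : ℝ} (h0 : 2 * m ≤ t) :
    tv (ht κ t) ≤ 1 - 1 / 200 := by
  have hm' : (1800 : ℝ) ≤ m := by exact_mod_cast hm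
  have h1 := h.ht_up (by omega) (t := t) (by linarith)
  have h2 : Real.exp (-(t / 16)) ≤ 1 / 226 :=
    (exp_neg_le (by linarith)).trans (one_div_le_one_div_of_le (by norm_num) (by linarith))
  have h3 : (1 : ℝ) / 66 ≤ t / (132 * m) := by
    rw [le_div_iff₀ (by positivity)]
    linarith
  have h4 : Real.exp (-(t / (132 * m))) ≤ 1 / (1 + 1 / 66) :=
    (exp_neg_le (by linarith)).trans (one_div_le_one_div_of_le (by norm_num) (by linarith))
  have h5 : (1 : ℝ) / (66 * m) ≤ 1 / (66 * 1800) :=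
    one_div_le_one_div_of_le (by norm_num) (by linarith)
  have h6 : (1 + 1 / (66 * (m : ℝ))) * Real.exp (-(t / (132 * m))) ≤
      (1 + 1 / (66 * 1800)) * (1 / (1 + 1 / 66)) :=
    mul_le_mul (by linarith) h4 (Real.exp_pos _).le (by norm_num)
  norm_num at h6 h1 h2 ⊢
  linarith

lemma Pak.ht_tau (h : Pak κ m) (hm : 1 ≤ m) :
    4 * (m : ℝ) ≤ sInf {t : ℝ | 0 ≤ t ∧ tv (ht κ t) ≤ 1 / 4} := by
  have hm' : (1 : ℝ) ≤ m := by exact_mod_cast hm
  refine le_csInf ⟨132 * m * 100, by positivity, ?_⟩ fun t ⟨h0, h1⟩ => ?_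
  · have h1 := h.ht_up hm (t := 132 * m * 100) (by positivity)
    have h2 : Real.exp (-(132 * m * 100 / 16)) ≤ 1 / 100 :=
      (exp_neg_le (by positivity)).trans (one_div_le_one_div_of_le (by norm_num) (by linarith))
    have e : 132 * (m : ℝ) * 100 / (132 * m) = 100 := by field_simp
    rw [e] at h1
    have h4 : Real.exp (-100) ≤ 1 / 100 :=
      (exp_neg_le (by norm_num)).trans (by norm_num)
    have h5 : (1 : ℝ) / (66 * m) ≤ 1 := by
      rw [div_le_one (by positivity)]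
      linarith
    have h6 : (1 + 1 / (66 * (m : ℝ))) * Real.exp (-100) ≤ 2 * (1 / 100) :=
      mul_le_mul (by linarith) h4 (Real.exp_pos _).le (by norm_num)
    linarith
  · have h2 := h.ht_low h0
    by_contra hc
    have : t / (8 * m) ≤ 1 / 2 := by
      rw [div_le_iff₀ (by positivity)]
      linarith
    linarith

end

end Pool.Agent.H32.Cut
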