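import Mathlib

set_option autoImplicit false

namespace Pool.Agent.H32.MinSet

open Filter Topology

theorem exists_minimal {Z : Type} [TopologicalSpace Z] [CompactSpace Z] [Nonempty Z] {σ : Z → Z}
    (hσ : Continuous σ) : ∃ L : Set Z, IsClosed L ∧ L.Nonempty ∧ Set.MapsTo σ L L ∧
      ∀ W, IsOpen W → (W ∩ L).Nonempty → ∃ g, ∀ q ∈ L, ∃ m ≤ g, σ^[m] q ∈ W := by
  obtain ⟨L, -, ⟨h1, h2, h3⟩, hL⟩ := zorn_superset_nonempty
    {L : Set Z | IsClosed L ∧ L.Nonempty ∧ Set.MapsTo σ L L} (fun c hc hch hne => by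
      have := hne.to_subtype
      exact ⟨⋂₀ c, ⟨isClosed_sInter fun s hs => (hc hs).1,
        IsCompact.nonempty_sInter_of_directed_nonempty_isCompact_isClosed (fun a ha b hb =>
          (hch.total ha hb).elim (fun h => ⟨a, ha, subset_rfl, h⟩) fun h => ⟨b, hb, h, subset_rfl⟩)
          (fun s hs => (hc hs).2.1) (fun s hs => (hc hs).1.isCompact) fun s hs => (hc hs).1,
        fun x hx s hs => (hc hs).2.2 (hx s hs)⟩, fun s hs => Set.sInter_subset_of_mem hs⟩)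
    Set.univ ⟨isClosed_univ, Set.univ_nonempty, Set.mapsTo_univ _ _⟩
  refine ⟨L, h1, h2, h3, fun W hW ⟨p, hp, hpL⟩ => ?_⟩
  have h4 : L ⊆ ⋃ m, σ^[m] ⁻¹' W := by
    intro q hq
    by_contra hn
    have := hL (y := L \ ⋃ m, σ^[m] ⁻¹' W) ⟨h1.sdiff (isOpen_iUnion fun m =>
      hW.preimage (hσ.iterate m)), ⟨q, hq, hn⟩, fun x hx => ⟨h3 hx.1, fun k => hx.2 (by
        obtain ⟨m, hm⟩ := Set.mem_iUnion.1 k
        exact Set.mem_iUnion.2 ⟨m + 1, hm⟩)⟩⟩ Set.sdiff_subset hpL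
    exact this.2 (Set.mem_iUnion.2 ⟨0, hp⟩)
  obtain ⟨t, ht⟩ := h1.isCompact.elim_finite_subcover _ (fun m => hW.preimage (hσ.iterate m)) h4
  refine ⟨t.sup id, fun q hq => ?_⟩
  obtain ⟨m, hm, k⟩ := Set.mem_iUnion₂.1 (ht hq)
  exact ⟨m, Finset.le_sup (f := id) hm, k⟩

theorem exists_urec {Z : Type} [TopologicalSpace Z] [CompactSpace Z] [Nonempty Z] {σ : Z → Z}
    (hσ : Continuous σ) : ∃ z : Z, ∀ W ∈ 𝓝 z, ∃ g, ∀ k, ∃ m, k ≤ m ∧ m ≤ k + g ∧ σ^[m] z ∈ W := by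
  obtain ⟨L, -, ⟨z, hz⟩, h3, h⟩ := exists_minimal hσ
  refine ⟨z, fun W hW => ?_⟩
  obtain ⟨g, hg⟩ := h _ isOpen_interior ⟨z, mem_interior_iff_mem_nhds.2 hW, hz⟩
  refine ⟨g, fun k => ?_⟩
  obtain ⟨m, h1, h2⟩ := hg _ (h3.iterate k hz)
  exact ⟨m + k, by omega, by omega, by
    rw [Function.iterate_add_apply]
    exact interior_subset h2⟩

end Pool.Agent.H32.MinSet
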