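import Mathlib

open Filter Topology

namespace Pool.Agent.H32.DCArith

structure Seqs (q : ℝ) where
  N : ℕ → ℕ
  M : ℕ → ℕ
  r : ℕ → ℕ
  n : ℕ → ℕ
  m : ℕ → ℕ
  mono : Monotone M
  one : ∀ k, 1 ≤ M k
  hN : ∀ k, N k = ⌊(n k : ℝ) ^ q⌋₊
  kN : ∀ k, k ≤ N k
  monoN : Monotone N
  two : ∀ k, 2 * N k ≤ M (k + 1)
  r1 : ∀ k, 1 ≤ r k
  hr : ∀ k, (k + 1) * (N k + 1) ^ 2 ≤ 2 ^ r k
  kn : ∀ k, k < n k
  km : ∀ k, k < m k
  h5 : ∀ c : ℕ, ∀ᶠ k in atTop, c * (r k * M k) ≤ n k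
  h6 : ∀ k, (m k : ℝ) ^ q ≤ M (k + 1)
  h6' : ∀ k, k * N k ≤ m k
  h7 : ∀ q', q < q' → ∀ᶠ k in atTop, ∀ x : ℕ, (x : ℝ) ^ q' ≤ 2 * N k + 2 → 2 * x ≤ M k

lemma sq_le (c : ℕ) : ∀ᶠ s : ℕ in atTop, c * s ^ 2 ≤ 2 ^ s := by
  have h := tendsto_pow_const_div_const_pow_of_one_lt 2 (one_lt_two : (1 : ℝ) < 2)
  filter_upwards [h.eventually (gt_mem_nhds (show (0 : ℝ) < 1 / (c + 1) by positivity))] with s hs
  rw [div_lt_div_iff₀ (by positivity) (by positivity)] at hs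
  have : ((c * s ^ 2 : ℕ) : ℝ) ≤ ((2 ^ s : ℕ) : ℝ) := by
    push_cast
    nlinarith [sq_nonneg (s : ℝ)]
  exact_mod_cast this

theorem seqs {q : ℝ} (hq : 1 ≤ q) : Nonempty (Seqs q) := by
  obtain ⟨Q, hQ1, hQ⟩ : ∃ Q : ℕ, 1 ≤ Q ∧ q ≤ Q :=
    ⟨⌈q⌉₊, Nat.one_le_ceil_iff.2 (by linarith), Nat.le_ceil q⟩
  let s : ℕ → ℕ := fun k => (2 * Q) ^ (k + 1)
  have hs : ∀ k, s (k + 1) = 2 * Q * s k := fun k => by simp only [s]; ring
  have ks : ∀ k, k + 2 ≤ s k := fun k => by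
    have : k + 1 < 2 ^ (k + 1) := Nat.lt_two_pow_self
    exact this.trans_le (Nat.pow_le_pow_left (by omega) _)
  have smono : Monotone s := monotone_nat_of_le_succ fun k => by rw [hs]; nlinarith [ks k]
  have st : Tendsto s atTop atTop := tendsto_atTop_mono (fun k => by have := ks k; show k ≤ s k; omega)
    tendsto_id
  have pw : ∀ a : ℕ, (((2 ^ a : ℕ) : ℝ)) ^ q ≤ ((2 ^ (Q * a) : ℕ) : ℝ) := fun a => by
    have : (1 : ℝ) ≤ ((2 ^ a : ℕ) : ℝ) := by exact_mod_cast Nat.one_le_two_pow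
    refine (Real.rpow_le_rpow_of_exponent_le this hQ).trans_eq ?_
    rw [Real.rpow_natCast]; push_cast; rw [← pow_mul, mul_comm]
  have NU : ∀ k, ⌊(((2 ^ (s k ^ 2) : ℕ) : ℝ)) ^ q⌋₊ ≤ 2 ^ (Q * s k ^ 2) := fun k =>
    Nat.floor_le_of_le (pw _)
  have NL : ∀ k, 2 ^ (s k ^ 2) ≤ ⌊(((2 ^ (s k ^ 2) : ℕ) : ℝ)) ^ q⌋₊ := fun k => by
    apply Nat.le_floor
    have : (1 : ℝ) ≤ ((2 ^ (s k ^ 2) : ℕ) : ℝ) := by exact_mod_cast Nat.one_le_two_pow
    simpa using Real.rpow_le_rpow_of_exponent_le this hq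
  have e1 : ∀ k, Q * (Q * s k ^ 2 + s k) ≤ s (k + 1) * (s (k + 1) - 1) := fun k => by
    have h1 := ks k
    rw [hs]
    obtain ⟨t, ht⟩ : ∃ t, 2 * Q * s k = t + 1 := ⟨2 * Q * s k - 1, by
      have : 1 ≤ 2 * Q * s k := by nlinarith
      omega⟩
    have : 2 * Q * s k - 1 = t := by omega
    rw [this]
    have h3 : Q * s k + 1 ≤ 2 * t := by nlinarith
    nlinarith [Nat.mul_le_mul_left (Q * s k) h3]
  have kn : ∀ k, k < 2 ^ (s k ^ 2) := fun k => by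
    have := ks k
    exact Nat.lt_two_pow_self.trans_le (Nat.pow_le_pow_right two_pos (by nlinarith))
  refine ⟨⟨fun k => ⌊(((2 ^ (s k ^ 2) : ℕ) : ℝ)) ^ q⌋₊, fun k => 2 ^ (s k * (s k - 1)),
    fun k => 2 * Q * s k ^ 2 + s k + 2, fun k => 2 ^ (s k ^ 2), fun k => 2 ^ (Q * s k ^ 2 + s k),
    fun a b h => Nat.pow_le_pow_right two_pos (Nat.mul_le_mul (smono h) (Nat.sub_le_sub_right (smono h) 1)),
    fun k => Nat.one_le_two_pow, fun k => rfl, fun k => (kn k).le.trans (NL k), fun a b h => ?_,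
    fun k => ?_, fun k => by omega, fun k => ?_, kn, fun k => ?_, fun c => ?_, fun k => ?_, fun k => ?_,
    fun q' hq' => ?_⟩⟩
  · refine Nat.floor_le_floor (Real.rpow_le_rpow (by positivity) ?_ (by linarith))
    exact_mod_cast Nat.pow_le_pow_right two_pos (Nat.pow_le_pow_left (smono h) 2)
  · refine (Nat.mul_le_mul_left 2 (NU k)).trans ?_
    rw [← pow_succ']
    refine Nat.pow_le_pow_right two_pos (le_trans ?_ (e1 k))
    have := ks k
    nlinarith [Nat.mul_le_mul_right (Q * s k ^ 2 + s k) hQ1]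
  · have h1 := NU k
    have h2 : k + 1 ≤ 2 ^ s k := by
      have := ks k
      have : s k < 2 ^ s k := Nat.lt_two_pow_self
      omega
    have h3 : 1 ≤ 2 ^ (Q * s k ^ 2) := Nat.one_le_two_pow
    calc _ ≤ 2 ^ s k * (2 * 2 ^ (Q * s k ^ 2)) ^ 2 :=
          Nat.mul_le_mul h2 (Nat.pow_le_pow_left (by omega) 2)
      _ = _ := by ring
  · have := ks k
    exact Nat.lt_two_pow_self.trans_le (Nat.pow_le_pow_right two_pos (by omega))
  · filter_upwards [st.eventually (sq_le (c * (2 * Q + 2)))] with k hk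
    have h1 := ks k
    have : s k ^ 2 = s k + s k * (s k - 1) := by
      obtain ⟨t, ht⟩ : ∃ t, s k = t + 1 := ⟨s k - 1, by omega⟩
      rw [ht]; simp; ring
    show c * ((2 * Q * s k ^ 2 + s k + 2) * 2 ^ (s k * (s k - 1))) ≤ 2 ^ (s k ^ 2)
    rw [← mul_assoc]
    conv_rhs => rw [this, pow_add]
    refine Nat.mul_le_mul_right _ (le_trans ?_ hk)
    rw [mul_assoc c]
    exact Nat.mul_le_mul_left c (by nlinarith)
  · refine (pw _).trans ?_
    exact_mod_cast Nat.pow_le_pow_right two_pos (e1 k)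
  · show k * _ ≤ 2 ^ (Q * s k ^ 2 + s k)
    rw [pow_add, mul_comm]
    refine Nat.mul_le_mul (NU k) ?_
    have := ks k
    have : s k < 2 ^ s k := Nat.lt_two_pow_self
    omega
  · have hq0 : 0 < q' := by linarith
    obtain ⟨c, hc⟩ := exists_nat_gt (2 * q' / (q' - q))
    rw [div_lt_iff₀ (by linarith)] at hc
    filter_upwards [st.eventually (eventually_ge_atTop (c + 3))] with k hk x hx
    have h1 := ks k
    have hNle : ((⌊(((2 ^ (s k ^ 2) : ℕ) : ℝ)) ^ q⌋₊ : ℕ) : ℝ) ≤ (2 : ℝ) ^ (q * (s k : ℝ) ^ 2) := by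
      refine (Nat.floor_le (by positivity)).trans_eq ?_
      rw [mul_comm, Real.rpow_mul zero_le_two]
      norm_cast
    have h1' : (1 : ℝ) ≤ (2 : ℝ) ^ (q * (s k : ℝ) ^ 2) := Real.one_le_rpow one_le_two (by positivity)
    have hx2 : (x : ℝ) ^ q' ≤ (2 : ℝ) ^ (q * (s k : ℝ) ^ 2 + 2) := by
      rw [Real.rpow_add two_pos]
      norm_num at hx hNle ⊢
      linarith
    have hs3 : (c : ℝ) + 3 ≤ s k := by exact_mod_cast hk
    have hc0 : (0 : ℝ) ≤ c := by positivity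
    have hx3 : (x : ℝ) ^ q' ≤ ((2 : ℝ) ^ ((s k : ℝ) ^ 2 - s k - 1)) ^ q' := by
      rw [← Real.rpow_mul zero_le_two]
      refine hx2.trans (Real.rpow_le_rpow_of_exponent_le one_le_two ?_)
      have a1 : 2 * q' * s k ≤ (q' - q) * (s k : ℝ) ^ 2 := by
        have : (c : ℝ) * (q' - q) ≤ s k * (q' - q) := mul_le_mul_of_nonneg_right (by linarith) (by linarith)
        nlinarith
      nlinarith
    rw [Real.rpow_le_rpow_iff (by positivity) (by positivity) hq0] at hx3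
    have : ((2 * x : ℕ) : ℝ) ≤ ((2 ^ (s k * (s k - 1)) : ℕ) : ℝ) := by
      push_cast
      rw [← Real.rpow_natCast 2 (s k * (s k - 1))]
      have e : ((s k * (s k - 1) : ℕ) : ℝ) = 1 + ((s k : ℝ) ^ 2 - s k - 1) := by
        rw [Nat.cast_mul, Nat.cast_sub (by omega)]; push_cast; ring
      rw [e, Real.rpow_add two_pos, Real.rpow_one]
      linarith
    exact_mod_cast this

end Pool.Agent.H32.DCArith
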