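import Mathlib

set_option autoImplicit false
open Filter Topology Finset

namespace Pool.Agent.H32.DR

/-- convolution -/
noncomputable def cv (a b : ℕ → ℝ) (l : ℕ) : ℝ := ∑ ij ∈ antidiagonal l, a ij.1 * b ij.2

lemma hasSum_cv {a b : ℕ → ℝ} {A B : ℝ} (ha0 : ∀ k, 0 ≤ a k) (hb0 : ∀ k, 0 ≤ b k)
    (ha : HasSum a A) (hb : HasSum b B) : HasSum (cv a b) (A * B) := by
  have ha' : Summable fun k => ‖a k‖ := by
    simpa [Real.norm_eq_abs, abs_of_nonneg (ha0 _)] using ha.summable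
  have hb' : Summable fun k => ‖b k‖ := by
    simpa [Real.norm_eq_abs, abs_of_nonneg (hb0 _)] using hb.summable
  have h1 := tsum_mul_tsum_eq_tsum_sum_antidiagonal_of_summable_norm ha' hb'
  have h2 := (summable_norm_sum_mul_antidiagonal_of_summable_norm ha' hb').of_norm
  rw [ha.tsum_eq, hb.tsum_eq] at h1
  rw [h1]
  exact h2.hasSum

/-- one step of the Derrida Retaux recursion with m = 2 -/
noncomputable def T (f : ℕ → ℝ) (k : ℕ) : ℝ := cv f f (k + 1) + if k = 0 then f 0 ^ 2 else 0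

lemma cv_nonneg {a b : ℕ → ℝ} (ha0 : ∀ k, 0 ≤ a k) (hb0 : ∀ k, 0 ≤ b k) (l : ℕ) : 0 ≤ cv a b l :=
  Finset.sum_nonneg fun _ _ => mul_nonneg (ha0 _) (hb0 _)

lemma T_nonneg {f : ℕ → ℝ} (h0 : ∀ k, 0 ≤ f k) (k : ℕ) : 0 ≤ T f k := by
  unfold T
  have := cv_nonneg h0 h0 (k + 1)
  split_ifs <;> positivity

lemma T_mono {f g : ℕ → ℝ} (h0 : ∀ k, 0 ≤ g k) (h : ∀ k, g k ≤ f k) (k : ℕ) : T g k ≤ T f k := by
  unfold T cv
  refine add_le_add (Finset.sum_le_sum fun ij _ => ?_) ?_
  · exact mul_le_mul (h _) (h _) (h0 _) ((h0 _).trans (h _))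
  · split_ifs
    · exact pow_le_pow_left₀ (h0 0) (h 0) 2
    · exact le_rfl

lemma hs_congr {a b : ℕ → ℝ} {A B : ℝ} (h : HasSum a A) (h1 : ∀ k, b k = a k) (h2 : B = A) :
    HasSum b B := by
  rw [h2, funext h1]; exact h

lemma cv_zero (a b : ℕ → ℝ) : cv a b 0 = a 0 * b 0 := by simp [cv]

structure Good (f : ℕ → ℝ) (M G D : ℝ) : Prop where
  nn : ∀ k, 0 ≤ f k
  hM : HasSum f M
  hG : HasSum (fun k : ℕ => f k * (2 : ℝ) ^ k) G
  hD : HasSum (fun k : ℕ => (k : ℝ) * f k * (2 : ℝ) ^ k) D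

lemma Good.step {f : ℕ → ℝ} {M G D : ℝ} (h : Good f M G D) :
    Good (T f) (M ^ 2) (G ^ 2 / 2 + f 0 ^ 2 / 2) (D * G - G ^ 2 / 2 + f 0 ^ 2 / 2) := by
  have hn := h.nn
  have hg0 : ∀ k : ℕ, 0 ≤ f k * (2 : ℝ) ^ k := fun k => by have := hn k; positivity
  have hd0 : ∀ k : ℕ, 0 ≤ (k : ℝ) * f k * (2 : ℝ) ^ k := fun k => by have := hn k; positivity
  have c1 := hasSum_cv hn hn h.hM h.hM
  have c2 := hasSum_cv hg0 hg0 h.hG h.hG
  have c3 := hasSum_cv hd0 hg0 h.hD h.hG
  have c4 := hasSum_cv hg0 hd0 h.hG h.hD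
  have e2 : ∀ l, cv (fun k : ℕ => f k * (2 : ℝ) ^ k) (fun k : ℕ => f k * (2 : ℝ) ^ k) l
      = cv f f l * 2 ^ l := by
    intro l
    unfold cv
    rw [Finset.sum_mul]
    refine Finset.sum_congr rfl fun ij hij => ?_
    rw [← HasAntidiagonal.mem_antidiagonal.mp hij, pow_add]; ring
  have e3 : ∀ l, cv (fun k : ℕ => (k : ℝ) * f k * (2 : ℝ) ^ k) (fun k : ℕ => f k * (2 : ℝ) ^ k) l
      + cv (fun k : ℕ => f k * (2 : ℝ) ^ k) (fun k : ℕ => (k : ℝ) * f k * (2 : ℝ) ^ k) l
      = (l : ℝ) * cv f f l * 2 ^ l := by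
    intro l
    unfold cv
    rw [Finset.mul_sum, Finset.sum_mul, ← Finset.sum_add_distrib]
    refine Finset.sum_congr rfl fun ij hij => ?_
    rw [← HasAntidiagonal.mem_antidiagonal.mp hij, pow_add]; push_cast; ring
  have s1 : HasSum (fun k => cv f f (k + 1)) (M * M - f 0 * f 0) := by
    have := (hasSum_nat_add_iff' 1).mpr c1
    simpa [cv_zero] using this
  have c2' : HasSum (fun l => cv f f l * 2 ^ l) (G * G) := by
    simpa [funext e2] using c2
  have c3' : HasSum (fun l : ℕ => (l : ℝ) * cv f f l * 2 ^ l) (D * G + G * D) := by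
    have := c3.add c4
    simpa [e3] using this
  have s2 : HasSum (fun k => cv f f (k + 1) * 2 ^ (k + 1)) (G * G - f 0 * f 0) := by
    have := (hasSum_nat_add_iff' 1).mpr c2'
    simpa [cv_zero] using this
  have s3 : HasSum (fun k : ℕ => ((k + 1 : ℕ) : ℝ) * cv f f (k + 1) * 2 ^ (k + 1))
      (D * G + G * D) := by
    have := (hasSum_nat_add_iff' 1).mpr c3'
    simpa using this
  have i1 : HasSum (fun k : ℕ => if k = 0 then f 0 ^ 2 else 0) (f 0 ^ 2) := by
    simpa using hasSum_ite_eq (0 : ℕ) (f 0 ^ 2)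
  refine ⟨T_nonneg hn, ?_, ?_, ?_⟩
  · exact hs_congr (s1.add i1) (fun k => rfl) (by ring)
  · refine hs_congr ((s2.mul_left (1 / 2)).add i1) (fun k => ?_) (by ring)
    unfold T
    split_ifs with hk
    · subst hk; ring
    · rw [pow_succ]; ring
  · refine hs_congr ((s3.mul_left (1 / 2)).sub (s2.mul_left (1 / 2))) (fun k => ?_) (by ring)
    unfold T
    split_ifs with hk
    · subst hk; simp
    · rw [pow_succ]; push_cast; ring

/-- the iterates -/
noncomputable def it (f : ℕ → ℝ) : ℕ → ℕ → ℝ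
  | 0 => f
  | n + 1 => T (it f n)

noncomputable def Ms (f : ℕ → ℝ) : ℝ := ∑' k, f k
noncomputable def Gs (f : ℕ → ℝ) : ℝ := ∑' k, f k * (2 : ℝ) ^ k
noncomputable def Ds (f : ℕ → ℝ) : ℝ := ∑' k : ℕ, (k : ℝ) * f k * (2 : ℝ) ^ k

lemma Good.canon {f : ℕ → ℝ} {M G D : ℝ} (h : Good f M G D) : Good f (Ms f) (Gs f) (Ds f) :=
  ⟨h.nn, h.hM.summable.hasSum, h.hG.summable.hasSum, h.hD.summable.hasSum⟩

lemma Good.eqM {f : ℕ → ℝ} {M G D : ℝ} (h : Good f M G D) : Ms f = M := h.hM.tsum_eq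
lemma Good.eqG {f : ℕ → ℝ} {M G D : ℝ} (h : Good f M G D) : Gs f = G := h.hG.tsum_eq
lemma Good.eqD {f : ℕ → ℝ} {M G D : ℝ} (h : Good f M G D) : Ds f = D := h.hD.tsum_eq

lemma good_it {f : ℕ → ℝ} {M G D : ℝ} (h : Good f M G D) (n : ℕ) :
    Good (it f n) (Ms (it f n)) (Gs (it f n)) (Ds (it f n)) := by
  induction n with
  | zero => exact h.canon
  | succ n ih => exact ih.step.canon

lemma M_succ {f : ℕ → ℝ} {M G D : ℝ} (h : Good f M G D) (n : ℕ) :
    Ms (it f (n + 1)) = Ms (it f n) ^ 2 := (good_it h n).step.eqM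

lemma G_succ {f : ℕ → ℝ} {M G D : ℝ} (h : Good f M G D) (n : ℕ) :
    Gs (it f (n + 1)) = Gs (it f n) ^ 2 / 2 + it f n 0 ^ 2 / 2 := (good_it h n).step.eqG

lemma delta_succ {f : ℕ → ℝ} {M G D : ℝ} (h : Good f M G D) (n : ℕ) :
    Gs (it f (n + 1)) - Ds (it f (n + 1)) = (Gs (it f n) - Ds (it f n)) * Gs (it f n) := by
  have h1 := (good_it h n).step.eqG
  have h2 := (good_it h n).step.eqD
  change Gs (T (it f n)) - Ds (T (it f n)) = _
  rw [h1, h2]; ring

lemma delta_prod {f : ℕ → ℝ} {M G D : ℝ} (h : Good f M G D) (n : ℕ) :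
    Gs (it f n) - Ds (it f n) = (G - D) * ∏ i ∈ range n, Gs (it f i) := by
  induction n with
  | zero =>
    have h1 := h.eqG
    have h2 := h.eqD
    simp only [it, h1, h2, range_zero, prod_empty, mul_one]
  | succ n ih => rw [delta_succ h, ih, prod_range_succ]; ring

lemma Good.delta_le {f : ℕ → ℝ} {M G D : ℝ} (h : Good f M G D) : G - D ≤ f 0 := by
  have h1 := h.hG.sub h.hD
  have i1 : HasSum (fun k : ℕ => if k = 0 then f 0 else 0) (f 0) := by
    simpa using hasSum_ite_eq (0 : ℕ) (f 0)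
  refine hasSum_le (fun k => ?_) h1 i1
  split_ifs with hk
  · subst hk; simp
  · have h2 : (1 : ℝ) ≤ k := by exact_mod_cast Nat.one_le_iff_ne_zero.mpr hk
    have h3 : 0 ≤ f k * (2 : ℝ) ^ k := by have := h.nn k; positivity
    nlinarith

lemma Good.zero_le {f : ℕ → ℝ} {M G D : ℝ} (h : Good f M G D) : f 0 ≤ M :=
  le_hasSum h.hM 0 fun j _ => h.nn j

lemma Good.M_le_G {f : ℕ → ℝ} {M G D : ℝ} (h : Good f M G D) : M ≤ G := by
  refine hasSum_le (fun k => ?_) h.hM h.hG
  have h2 : (1 : ℝ) ≤ 2 ^ k := one_le_pow₀ (by norm_num)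
  have := h.nn k
  nlinarith

lemma M_one {f : ℕ → ℝ} {G D : ℝ} (h : Good f 1 G D) (n : ℕ) : Ms (it f n) = 1 := by
  induction n with
  | zero => exact h.eqM
  | succ n ih => rw [M_succ h, ih]; norm_num

lemma it_mono {f g : ℕ → ℝ} (h0 : ∀ k, 0 ≤ g k) (h : ∀ k, g k ≤ f k) (n : ℕ) :
    (∀ k, 0 ≤ it g n k) ∧ ∀ k, it g n k ≤ it f n k := by
  induction n with
  | zero => exact ⟨h0, h⟩
  | succ n ih => exact ⟨T_nonneg ih.1, T_mono ih.1 ih.2⟩

lemma one_le_prod_aux (x : ℕ → ℝ) (h : ∀ i, 1 ≤ x i) (n : ℕ) : 1 ≤ ∏ j ∈ range n, x j := by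
  induction n with
  | zero => simp
  | succ n ih => rw [prod_range_succ]; nlinarith [h n]

lemma one_sub_sum_le_prod (d : ℕ → ℝ) (n : ℕ) (h0 : ∀ i, 0 ≤ d i) (h1 : ∀ i < n, d i ≤ 1) :
    1 - ∑ i ∈ range n, d i ≤ ∏ i ∈ range n, (1 - d i) := by
  induction n with
  | zero => simp
  | succ n ih =>
    rw [sum_range_succ, prod_range_succ]
    have ih' := ih fun i hi => h1 i (by omega)
    have h2 := h1 n (by omega)
    have h3 := h0 n
    have h4 : 0 ≤ ∑ i ∈ range n, d i := Finset.sum_nonneg fun i _ => h0 i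
    nlinarith [mul_le_mul_of_nonneg_right ih' (sub_nonneg.mpr h2)]

/-- the comparison bound -/
theorem upper {f g : ℕ → ℝ} {G D M' G' D' : ℝ} (hf : Good f 1 G D) (hg : Good g M' G' D')
    (hle : ∀ k, g k ≤ f k) (K : ℕ) (hK : 0 < K) (e : ℝ) (he : 0 < e) (he' : e ≤ G' - D')
    (h1 : G - G' ≤ e / K) (h2 : 1 - M' ≤ (e / K) / 2 ^ K) (n : ℕ) (hn : 8 * n ≤ K) :
    ∏ i ∈ range n, Gs (it f i) ≤ 2 / e := by
  have hK' : (0 : ℝ) < K := by exact_mod_cast hK
  have hmono := it_mono hg.nn hle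
  have hG1 : ∀ i, 1 ≤ Gs (it f i) := fun i => by
    have := (good_it hf i).M_le_G
    rwa [M_one hf] at this
  have hP1 : ∀ i, 1 ≤ ∏ j ∈ range i, Gs (it f j) := fun i =>
    one_le_prod_aux _ hG1 _
  have hMle : ∀ i, Ms (it g i) ≤ 1 := fun i => by
    have := hasSum_le (hmono i).2 (good_it hg i).hM (good_it hf i).hM
    rwa [M_one hf] at this
  have hM0 : ∀ i, 0 ≤ Ms (it g i) := fun i => tsum_nonneg (hmono i).1
  have hGle : ∀ i, Gs (it g i) ≤ Gs (it f i) := fun i =>
    hasSum_le (fun k => mul_le_mul_of_nonneg_right ((hmono i).2 k) (by positivity))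
      (good_it hg i).hG (good_it hf i).hG
  have hG0 : ∀ i, 0 ≤ Gs (it g i) := fun i => (hM0 i).trans (good_it hg i).M_le_G
  have hmu : ∀ i, 1 - Ms (it g i) ≤ 2 ^ i * ((e / K) / 2 ^ K) := by
    intro i
    induction i with
    | zero => simpa [it, hg.eqM] using h2
    | succ i ih =>
      rw [M_succ hg, pow_succ (2 : ℝ) i]
      have a1 := hMle i
      have a2 := hM0 i
      nlinarith
  have hz : ∀ i, it f i 0 - it g i 0 ≤ 1 - Ms (it g i) := by
    intro i
    have a1 := ((good_it hf i).hM.sub (good_it hg i).hM)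
    rw [M_one hf] at a1
    exact le_hasSum a1 0 fun j _ => sub_nonneg.mpr ((hmono i).2 j)
  have hz1 : ∀ i, it f i 0 ≤ 1 := fun i => by
    have := (good_it hf i).zero_le
    rwa [M_one hf] at this
  have hdiff : ∀ i, Gs (it f i) - Gs (it g i)
      ≤ (∏ j ∈ range i, Gs (it f j)) * ((e / K) * (1 + 2 ^ i / 2 ^ K)) := by
    intro i
    induction i with
    | zero =>
      simp only [it, hf.eqG, hg.eqG, range_zero, prod_empty, one_mul]
      have : 0 ≤ e / K * (2 ^ 0 / 2 ^ K) := by positivity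
      nlinarith
    | succ i ih =>
      rw [G_succ hf, G_succ hg, prod_range_succ]
      have a1 := hz i
      have a2 := hmu i
      have a3 := hz1 i
      have a4 := (hmono i).1 0
      have a5 := (hmono i).2 0
      have a6 := hGle i
      have a7 := hG0 i
      have a8 := hG1 i
      have a9 := hP1 i
      set P := ∏ j ∈ range i, Gs (it f j)
      set x := Gs (it f i)
      set y := Gs (it g i)
      set u := it f i 0
      set v := it g i 0
      set c := e / K
      have hc : 0 ≤ c := by positivity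
      set t : ℝ := 2 ^ i / 2 ^ K with ht
      have ht0 : 0 ≤ t := by positivity
      have e1 : (2 : ℝ) ^ (i + 1) / 2 ^ K = 2 * t := by rw [ht, pow_succ]; ring
      have e2 : (2 : ℝ) ^ i * (c / 2 ^ K) = c * t := by rw [ht]; ring
      rw [e1]
      rw [e2] at a2
      have b1 : x ^ 2 / 2 - y ^ 2 / 2 ≤ x * (x - y) := by nlinarith
      have b2 : u ^ 2 / 2 - v ^ 2 / 2 ≤ c * t := by nlinarith
      have b3 : x * (x - y) ≤ x * (P * (c * (1 + t))) :=
        mul_le_mul_of_nonneg_left ih (by linarith)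
      have b4 : 1 ≤ P * x := by nlinarith
      have b5 : c * t ≤ P * x * (c * t) := by
        have : 0 ≤ c * t := by positivity
        nlinarith
      nlinarith
  induction n using Nat.strong_induction_on with
  | _ n ih =>
    have hd : ∀ i < n, Gs (it f i) - Gs (it g i) ≤ 4 / K := by
      intro i hi
      have a1 := ih i hi (by omega)
      have a2 := hdiff i
      have a3 : (2 : ℝ) ^ i / 2 ^ K ≤ 1 := by
        rw [div_le_one (by positivity)]
        exact pow_le_pow_right₀ (by norm_num) (by omega)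
      have a4 : (e / K) * (1 + 2 ^ i / 2 ^ K) ≤ (e / K) * 2 :=
        mul_le_mul_of_nonneg_left (by linarith) (by positivity)
      have a5 : (∏ j ∈ range i, Gs (it f j)) * ((e / K) * (1 + 2 ^ i / 2 ^ K))
          ≤ (2 / e) * ((e / K) * 2) :=
        mul_le_mul a1 a4 (by positivity) (by positivity)
      have a6 : (2 / e) * ((e / K) * 2) = 4 / K := by field_simp; ring
      linarith
    have hsum : ∑ i ∈ range n, (Gs (it f i) - Gs (it g i)) ≤ 1 / 2 := by
      have a1 : ∑ i ∈ range n, (Gs (it f i) - Gs (it g i)) ≤ ∑ _i ∈ range n, (4 / K : ℝ) :=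
        Finset.sum_le_sum fun i hi => hd i (mem_range.mp hi)
      rw [sum_const, card_range, nsmul_eq_mul] at a1
      have a2 : (8 : ℝ) * n ≤ K := by exact_mod_cast hn
      have a3 : (n : ℝ) * (4 / K) ≤ 1 / 2 := by
        rw [← mul_div_assoc, div_le_iff₀ hK']; linarith
      linarith
    have hd1 : ∀ i < n, Gs (it f i) - Gs (it g i) ≤ 1 := by
      intro i hi
      have a1 : Gs (it f i) - Gs (it g i) ≤ ∑ i ∈ range n, (Gs (it f i) - Gs (it g i)) :=
        Finset.single_le_sum (f := fun i => Gs (it f i) - Gs (it g i))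
          (fun j _ => sub_nonneg.mpr (hGle j)) (mem_range.mpr hi)
      linarith
    have b1 := one_sub_sum_le_prod (fun i => Gs (it f i) - Gs (it g i)) n
      (fun j => sub_nonneg.mpr (hGle j)) hd1
    have b2 : (∏ i ∈ range n, Gs (it f i)) * ∏ i ∈ range n, (1 - (Gs (it f i) - Gs (it g i)))
        ≤ ∏ i ∈ range n, Gs (it g i) := by
      rw [← prod_mul_distrib]
      refine Finset.prod_le_prod (fun i hi => ?_) (fun i hi => ?_)
      · exact mul_nonneg (by linarith [hG1 i]) (sub_nonneg.mpr (hd1 i (mem_range.mp hi)))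
      · have a1 := hG1 i
        have a2 := hGle i
        nlinarith
    have b3 := delta_prod hg n
    have b4 := (good_it hg n).delta_le
    have b5 := (good_it hg n).zero_le
    have b6 := hMle n
    have b7 : 0 ≤ ∏ i ∈ range n, Gs (it g i) := Finset.prod_nonneg fun i _ => hG0 i
    have b8 : e * ∏ i ∈ range n, Gs (it g i) ≤ 1 := by
      have := mul_le_mul_of_nonneg_right he' b7
      linarith
    have b9 := hP1 n
    rw [le_div_iff₀ he]
    set P := ∏ i ∈ range n, Gs (it f i)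
    set Q := ∏ i ∈ range n, Gs (it g i)
    set R := ∏ i ∈ range n, (1 - (Gs (it f i) - Gs (it g i)))
    have c1 : 1 / 2 ≤ R := by linarith
    have c2 : P * (1 / 2) ≤ Q := by nlinarith
    nlinarith

/-- the Riccati lower bound -/
theorem lower {f : ℕ → ℝ} {G D : ℝ} (hf : Good f 1 G D) (N : ℕ) (hN : 3 ≤ N)
    (h : ∀ n, N ≤ n → it f n 0 ≤ 1 - (5 / 2) / (n : ℝ) ^ 2) (n : ℕ) (hn : N ≤ n) :
    (n : ℝ) / N ≤ ∏ i ∈ range n, Gs (it f i) := by
  have hG1 : ∀ i, 1 ≤ Gs (it f i) := fun i => by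
    have := (good_it hf i).M_le_G
    rwa [M_one hf] at this
  have key : ∀ k, N ≤ k → 1 + 1 / (k : ℝ) ≤ Gs (it f k) := by
    intro k hk
    by_contra hc
    push Not at hc
    have hk0 : (3 : ℝ) ≤ k := by exact_mod_cast hN.trans hk
    have inv : ∀ m, k ≤ m → Gs (it f m) - 1 ≤ 3 / (2 * (m : ℝ)) - 1 / (2 * (k : ℝ)) := by
      intro m hm
      induction m, hm using Nat.le_induction with
      | base =>
        have : 3 / (2 * (k : ℝ)) - 1 / (2 * (k : ℝ)) = 1 / k := by field_simp; ring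
        linarith
      | succ m hm ih =>
        have hm0 : (k : ℝ) ≤ m := by exact_mod_cast hm
        have hm3 : (3 : ℝ) ≤ m := hk0.trans hm0
        rw [G_succ hf]
        have a1 := h m (hk.trans hm)
        have a2 := (good_it hf m).nn 0
        have a3 := hG1 m
        set x := Gs (it f m)
        set u := it f m 0
        set r : ℝ := 1 / (m : ℝ) with hr
        have hr0 : 0 < r := by positivity
        have hr3 : r ≤ 1 / 3 := one_div_le_one_div_of_le (by norm_num) hm3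
        have e1 : (5 / 2) / (m : ℝ) ^ 2 = 5 / 2 * r ^ 2 := by rw [hr]; field_simp
        have e2 : 3 / (2 * (m : ℝ)) = 3 / 2 * r := by rw [hr]; field_simp
        have e3 : 1 / (2 * (m : ℝ)) ≤ 1 / (2 * (k : ℝ)) :=
          one_div_le_one_div_of_le (by linarith) (by linarith)
        have e4 : 1 / (2 * (m : ℝ)) = r / 2 := by rw [hr]; field_simp
        have e5 : 3 / 2 * r - 3 / 2 * r ^ 2 ≤ 3 / (2 * ((m + 1 : ℕ) : ℝ)) := by
          push_cast
          rw [le_div_iff₀ (by positivity), hr]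
          field_simp
          nlinarith
        rw [e1] at a1
        rw [e2] at ih
        have b1 : x - 1 ≤ r := by linarith
        have b2 : (x - 1) ^ 2 ≤ r ^ 2 := pow_le_pow_left₀ (by linarith) b1 2
        have b3 : u ^ 2 ≤ (1 - 5 / 2 * r ^ 2) ^ 2 := pow_le_pow_left₀ a2 a1 2
        have b4 : r ^ 2 ≤ 1 / 9 := by nlinarith
        have b5 : (1 - 5 / 2 * r ^ 2) ^ 2 ≤ 1 - 4 * r ^ 2 := by nlinarith [sq_nonneg r]
        nlinarith
    have a1 := inv (4 * k) (by omega)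
    have a2 := hG1 (4 * k)
    push_cast at a1
    have a3 : 3 / (2 * (4 * (k : ℝ))) - 1 / (2 * (k : ℝ)) = -(1 / (8 * k)) := by field_simp; ring
    have a4 : 0 < 1 / (8 * (k : ℝ)) := by positivity
    linarith
  have hN0 : (0 : ℝ) < N := by exact_mod_cast (by omega : 0 < N)
  induction n, hn using Nat.le_induction with
  | base =>
    rw [div_self hN0.ne']
    exact one_le_prod_aux _ hG1 _
  | succ m hm ih =>
    rw [prod_range_succ]
    have a1 := key m hm
    have hm0 : (0 : ℝ) < m := by exact_mod_cast (by omega : 0 < m)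
    have a2 : ((m + 1 : ℕ) : ℝ) / N = (m / N) * (1 + 1 / (m : ℝ)) := by
      push_cast; field_simp
    rw [a2]
    exact mul_le_mul ih a1 (by positivity) (le_trans (by positivity) ih)

end Pool.Agent.H32.DR
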