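import Pool.Agent.H32.DR

set_option autoImplicit false
open Filter Topology Finset

namespace Pool.Agent.H32.DR

noncomputable def tt (j : ℕ) : ℝ := 1 / √((j : ℝ) + 1)

noncomputable def aa (j : ℕ) : ℝ := tt j - tt (j + 1)

lemma aa_nonneg (j : ℕ) : 0 ≤ aa j := by
  unfold aa tt
  rw [sub_nonneg]
  refine one_div_le_one_div_of_le (by positivity) (Real.sqrt_le_sqrt ?_)
  push_cast; linarith

lemma tt_lim : Tendsto tt atTop (𝓝 0) := by
  unfold tt
  refine Tendsto.const_div_atTop ?_ 1
  refine Real.tendsto_sqrt_atTop.comp ?_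
  exact tendsto_atTop_add_const_right _ _ tendsto_natCast_atTop_atTop

lemma hasSum_aa (L : ℕ) : HasSum (fun j => aa (j + L)) (tt L) := by
  rw [hasSum_iff_tendsto_nat_of_nonneg (fun j => aa_nonneg _)]
  have e : ∀ n, ∑ i ∈ range n, aa (i + L) = tt L - tt (n + L) := by
    intro n
    induction n with
    | zero => simp
    | succ n ih =>
      rw [sum_range_succ, ih]
      unfold aa
      rw [show n + L + 1 = n + 1 + L by ring]; ring
  simp only [e]
  have := (tt_lim.comp (tendsto_add_atTop_nat L)).const_sub (tt L)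
  simpa using this

noncomputable def qq (j : ℕ) : ℝ := aa j / (2 * ((j : ℝ) + 1) * 2 ^ (j + 2))

lemma qq_nonneg (j : ℕ) : 0 ≤ qq j := by
  unfold qq; have := aa_nonneg j; positivity

lemma qq_key (j : ℕ) : ((j : ℝ) + 1) * qq j * 2 ^ (j + 2) = aa j / 2 := by
  unfold qq; field_simp

lemma qq_le1 (j : ℕ) : qq j * 2 ^ (j + 2) ≤ aa j / 2 := by
  rw [← qq_key]
  have h : 0 ≤ qq j * 2 ^ (j + 2) := by have := qq_nonneg j; positivity
  have h2 : (0 : ℝ) ≤ j := by positivity
  nlinarith

lemma qq_le2 (j : ℕ) : qq j ≤ aa j / 2 := by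
  refine le_trans ?_ (qq_le1 j)
  have h2 : (1 : ℝ) ≤ 2 ^ (j + 2) := one_le_pow₀ (by norm_num)
  have := qq_nonneg j
  nlinarith

lemma hasSum_half : HasSum (fun j => aa j / 2) (1 / 2) := by
  have := (hasSum_aa 0).div_const 2
  simpa [tt] using this

lemma summable_qq : Summable qq :=
  Summable.of_nonneg_of_le qq_nonneg qq_le2 hasSum_half.summable

lemma summable_qq1 : Summable fun j => qq j * (2 : ℝ) ^ (j + 2) :=
  Summable.of_nonneg_of_le (fun j => by have := qq_nonneg j; positivity) qq_le1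
    hasSum_half.summable

lemma tsum_qq_le : ∑' j, qq j ≤ 1 / 2 := hasSum_le qq_le2 summable_qq.hasSum hasSum_half

/-- the initial law -/
noncomputable def f0 : ℕ → ℝ
  | 0 => 1 / 2
  | 1 => 1 / 2 - ∑' j, qq j
  | j + 2 => qq j

lemma f0_nonneg (k : ℕ) : 0 ≤ f0 k := by
  match k with
  | 0 => simp [f0]
  | 1 => simp only [f0]; linarith [tsum_qq_le]
  | j + 2 => exact qq_nonneg j

lemma good_f0 : ∃ G, Good f0 1 G G := by
  refine ⟨1 / 2 + 2 * f0 1 + ∑' j, qq j * (2 : ℝ) ^ (j + 2), f0_nonneg, ?_, ?_, ?_⟩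
  · rw [← hasSum_nat_add_iff' 2]
    refine hs_congr summable_qq.hasSum (fun k => rfl) ?_
    simp [sum_range_succ, f0]; ring
  · rw [← hasSum_nat_add_iff' 2]
    refine hs_congr summable_qq1.hasSum (fun k => rfl) ?_
    simp [sum_range_succ, f0]; ring
  · rw [← hasSum_nat_add_iff' 2]
    refine hs_congr (summable_qq1.hasSum.add hasSum_half) (fun k => ?_) ?_
    · rw [← qq_key]
      simp only [f0]; push_cast; ring
    · simp [sum_range_succ, f0]; ring

theorem prod_le (L n : ℕ) (hn : 8 * n ≤ L + 1) :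
    ∏ i ∈ range n, Gs (it f0 i) ≤ 4 * √((L : ℝ) + 1) := by
  obtain ⟨G, hG⟩ := good_f0
  set K := L + 1 with hK
  set g : ℕ → ℝ := fun k => if k ≤ K then f0 k else 0 with hg
  have hg0 : ∀ k, 0 ≤ g k := fun k => by
    simp only [hg]; split_ifs
    · exact f0_nonneg k
    · exact le_rfl
  have hle : ∀ k, g k ≤ f0 k := fun k => by
    simp only [hg]; split_ifs
    · exact le_rfl
    · exact f0_nonneg k
  have s1 : Summable g := Summable.of_nonneg_of_le hg0 hle hG.hM.summable
  have s2 : Summable fun k : ℕ => g k * (2 : ℝ) ^ k :=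
    Summable.of_nonneg_of_le (fun k => by have := hg0 k; positivity)
      (fun k => mul_le_mul_of_nonneg_right (hle k) (by positivity)) hG.hG.summable
  have s3 : Summable fun k : ℕ => (k : ℝ) * g k * (2 : ℝ) ^ k :=
    Summable.of_nonneg_of_le (fun k => by have := hg0 k; positivity)
      (fun k => mul_le_mul_of_nonneg_right
        (mul_le_mul_of_nonneg_left (hle k) (by positivity)) (by positivity)) hG.hD.summable
  have hgood : Good g (Ms g) (Gs g) (Ds g) := ⟨hg0, s1.hasSum, s2.hasSum, s3.hasSum⟩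
  have he : HasSum (fun k : ℕ => ((k : ℝ) - 1) * (f0 k - g k) * (2 : ℝ) ^ k) (tt L / 2) := by
    rw [← hasSum_nat_add_iff' (L + 2)]
    refine hs_congr ((hasSum_aa L).div_const 2) (fun k => ?_) ?_
    · rw [← qq_key]
      have h1 : ¬ (k + (L + 2) ≤ K) := by omega
      simp only [hg, h1, if_false]
      rw [show k + (L + 2) = (k + L) + 2 by ring]
      simp only [f0]; push_cast; ring
    · rw [Finset.sum_eq_zero, sub_zero]
      intro i hi
      have h1 : i ≤ K := by have := mem_range.mp hi; omega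
      simp [hg, h1]
  have hK0 : (0 : ℝ) < K := by exact_mod_cast (by omega : 0 < K)
  have htt : 0 < tt L := by unfold tt; positivity
  have r1 := hG.hM.sub hgood.hM
  have r2 := hG.hG.sub hgood.hG
  have r3 := hG.hD.sub hgood.hD
  have k1 : tt L / 2 ≤ Gs g - Ds g := by
    have := he.unique (hs_congr (r3.sub r2) (fun k => by ring) rfl)
    linarith
  have p1 : ∀ k : ℕ, f0 k * 2 ^ k - g k * 2 ^ k ≤ ((k : ℝ) - 1) * (f0 k - g k) * (2 : ℝ) ^ k / K := by
    intro k
    simp only [hg]
    split_ifs with h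
    · simp
    · have h1 : (K : ℝ) + 1 ≤ k := by exact_mod_cast (by omega : K + 1 ≤ k)
      rw [le_div_iff₀ hK0]
      have h2 : 0 ≤ f0 k * 2 ^ k := by have := f0_nonneg k; positivity
      nlinarith
  have k2 : G - Gs g ≤ tt L / 2 / K := hasSum_le p1 r2 (he.div_const K)
  have k3 : 1 - Ms g ≤ tt L / 2 / K / 2 ^ K := by
    refine hasSum_le (fun k => ?_) r1 ((he.div_const K).div_const (2 ^ K))
    refine le_trans ?_ (div_le_div_of_nonneg_right (p1 k) (by positivity))
    simp only [hg]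
    split_ifs with h
    · simp
    · rw [le_div_iff₀ (by positivity)]
      have h1 : (2 : ℝ) ^ K ≤ 2 ^ k := pow_le_pow_right₀ (by norm_num) (by omega)
      have := f0_nonneg k
      nlinarith
  have := upper hG hgood hle K (by omega) (tt L / 2) (by positivity) k1 k2 k3 n hn
  refine this.trans (le_of_eq ?_)
  unfold tt
  field_simp
  norm_num

lemma bridge (f : ℕ → ℝ) (k : ℕ) :
    (∑ x : Fin 2 → Fin (k + 2), if (∑ i, (x i : ℕ)) = k + 1 then ∏ i, f (x i) else 0)
      = cv f f (k + 1) := by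
  rw [← (finTwoArrowEquiv (Fin (k + 2))).symm.sum_comp, Fintype.sum_prod_type]
  simp only [finTwoArrowEquiv_symm_apply, Fin.sum_univ_two, Fin.prod_univ_two,
    Matrix.cons_val_zero, Matrix.cons_val_one]
  unfold cv
  rw [Finset.Nat.sum_antidiagonal_eq_sum_range_succ (fun i j => f i * f j),
    ← Fin.sum_univ_eq_sum_range (fun i => f i * f (k + 1 - i))]
  refine Finset.sum_congr rfl fun a _ => ?_
  have ha := a.2
  rw [Finset.sum_eq_single (⟨k + 1 - a, by omega⟩ : Fin (k + 2))]
  · have : (a : ℕ) + (k + 1 - a) = k + 1 := by omega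
    simp [this]
  · intro b _ hb
    rw [if_neg]
    intro h
    apply hb
    ext
    simp only
    omega
  · simp

theorem final (h : Tendsto (fun n : ℕ => ((∑' k : ℕ, it f0 n k * (1 / 2 : ℝ) ^ k) - 1) /
    (-(8 / 3) / ((n : ℝ) ^ 2))) atTop (𝓝 1)) : False := by
  obtain ⟨G, hG⟩ := good_f0
  have h1 := h.eventually (lt_mem_nhds (show (15 / 16 : ℝ) < 1 by norm_num))
  obtain ⟨N0, hN0⟩ := eventually_atTop.mp h1
  set N := max N0 3 with hN
  have hN3 : 3 ≤ N := le_max_right _ _
  have key : ∀ n, N ≤ n → it f0 n 0 ≤ 1 - (5 / 2) / (n : ℝ) ^ 2 := by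
    intro n hn
    have a1 := hN0 n ((le_max_left _ _).trans hn)
    have hn0 : (0 : ℝ) < n := by exact_mod_cast (by omega : 0 < n)
    have hg := good_it hG n
    have s1 : Summable fun k : ℕ => it f0 n k * (1 / 2 : ℝ) ^ k :=
      Summable.of_nonneg_of_le (fun k => by have := hg.nn k; positivity)
        (fun k => mul_le_of_le_one_right (hg.nn k) (pow_le_one₀ (by norm_num) (by norm_num)))
        hg.hM.summable
    have a2 : it f0 n 0 * (1 / 2 : ℝ) ^ 0 ≤ ∑' k : ℕ, it f0 n k * (1 / 2 : ℝ) ^ k :=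
      s1.le_tsum 0 fun j _ => by have := hg.nn j; positivity
    have a3 : -(8 / 3) / ((n : ℝ) ^ 2) < 0 := div_neg_of_neg_of_pos (by norm_num) (by positivity)
    rw [lt_div_iff_of_neg a3] at a1
    have a4 : 15 / 16 * (-(8 / 3) / ((n : ℝ) ^ 2)) = -((5 / 2) / (n : ℝ) ^ 2) := by ring
    rw [a4] at a1
    simp only [pow_zero, mul_one] at a2
    linarith
  set n := 200 * N ^ 2 with hn
  have hNn : N ≤ n := by nlinarith
  have b1 := lower hG N hN3 key n hNn
  have b2 := prod_le (8 * n - 1) n (by omega)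
  have hN0' : (0 : ℝ) < N := by exact_mod_cast (by omega : 0 < N)
  have e1 : (((8 * n - 1 : ℕ) : ℝ) + 1) = (40 * N) ^ 2 := by
    have : 8 * n - 1 + 1 = (40 * N) ^ 2 := by
      have : 1 ≤ 8 * n := by omega
      rw [Nat.sub_add_cancel this, hn]; ring
    exact_mod_cast this
  rw [e1, Real.sqrt_sq (by positivity)] at b2
  have e2 : (n : ℝ) / N = 200 * N := by
    rw [hn]; push_cast; field_simp
  rw [e2] at b1
  linarith

end Pool.Agent.H32.DR
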