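import Mathlib

set_option autoImplicit false

namespace Pool.Agent.H32.DiffExt

open Set Filter Topology

noncomputable def ψ (τ : ℝ) : ℝ := 3 * τ ^ 2 - 2 * τ ^ 3

lemma right {K : Set ℝ} {g G u v : ℝ → ℝ} {C : ℝ} (hC : 0 ≤ C)
    (hu : ∀ t, u t ∈ K ∧ u t ≤ t ∧ ∀ y ∈ K, y ≤ t → y ≤ u t) (hv : ∀ t, v t ∈ K ∧ t ≤ v t)
    (hG : ∀ t, |G t - g (u t)| ≤ |g (v t) - g (u t)| * (3 * ((t - u t) / (v t - u t)) ^ 2))
    (hL : ∀ x ∈ K, ∀ y ∈ K, |g y - g x| ≤ C * |y - x|) {x : ℝ} (hx : x ∈ K)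
    (h0 : ∀ ε > 0, ∃ δ > 0, ∀ y ∈ K, |y - x| ≤ δ → |g y - g x| ≤ ε * |y - x|) :
    ∀ ε > 0, ∃ δ > 0, ∀ t, x ≤ t → t - x ≤ δ → |G t - g x| ≤ ε * (t - x) := by
  intro ε hε
  obtain ⟨δ, hδ, h⟩ := h0 (ε / 7) (by positivity)
  refine ⟨min (δ / 2) (ε / 7 * δ / (C + 1)), by positivity, fun t hxt ht => ?_⟩
  obtain ⟨uK, ut, umax⟩ := hu t
  obtain ⟨vK, tv⟩ := hv t
  have xu := umax x hx hxt
  have t1 := ht.trans (min_le_left _ _)
  have t2 := ht.trans (min_le_right _ _)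
  rw [le_div_iff₀ (by positivity)] at t2
  have h1 := h _ uK (by rw [abs_of_nonneg (by linarith)]; linarith)
  rw [abs_of_nonneg (sub_nonneg.2 xu)] at h1
  have h2 := hG t
  have h3 : |g (v t) - g (u t)| * (3 * ((t - u t) / (v t - u t)) ^ 2) ≤ 6 * (ε / 7) * (t - x) := by
    rcases (ut.trans tv).eq_or_lt with h4 | h4
    · rw [← h4]
      simp only [sub_self, abs_zero, zero_mul]
      exact mul_nonneg (by positivity) (by linarith)
    set τ := (t - u t) / (v t - u t) with hτ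
    have hτ1 : τ * (v t - u t) = t - u t := div_mul_cancel₀ _ (by linarith)
    have hτ0 : 0 ≤ τ := div_nonneg (by linarith) (by linarith)
    have hτ2 : τ ≤ 1 := (div_le_one (by linarith)).2 (by linarith)
    by_cases h5 : v t - x ≤ δ
    · have h6 := h _ vK (by rw [abs_of_nonneg (by linarith)]; linarith)
      rw [abs_of_nonneg (by linarith : 0 ≤ v t - x)] at h6
      have h7 : |g (v t) - g (u t)| ≤ ε / 7 * ((v t - u t) + 2 * (u t - x)) := by
        have := abs_sub_le (g (v t)) (g x) (g (u t))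
        rw [abs_sub_comm (g x)] at this
        linarith
      have h8 : ((v t - u t) + 2 * (u t - x)) * τ ^ 2 ≤ 2 * (t - x) := by
        have : τ ^ 2 ≤ τ := by nlinarith
        nlinarith
      calc _ ≤ ε / 7 * ((v t - u t) + 2 * (u t - x)) * (3 * τ ^ 2) := by gcongr
        _ = 3 * (ε / 7) * (((v t - u t) + 2 * (u t - x)) * τ ^ 2) := by ring
        _ ≤ 3 * (ε / 7) * (2 * (t - x)) := by gcongr
        _ = _ := by ring
    · have h6 := hL _ uK _ vK
      rw [abs_of_nonneg (by linarith : 0 ≤ v t - u t)] at h6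
      have h7 : τ * δ ≤ 2 * (t - x) := by nlinarith
      have h8 : C * τ ≤ 2 * (ε / 7) := by
        refine le_of_mul_le_mul_right ?_ hδ
        nlinarith
      calc _ ≤ C * (v t - u t) * (3 * τ ^ 2) := by gcongr
        _ = 3 * (C * τ) * (τ * (v t - u t)) := by ring
        _ ≤ 3 * (2 * (ε / 7)) * (t - x) := by
          rw [hτ1]
          gcongr
        _ = _ := by ring
  have := abs_sub_le (G t) (g (u t)) (g x)
  have : ε / 7 * (u t - x) ≤ ε / 7 * (t - x) := by gcongr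
  linarith

theorem ext_closed {K : Set ℝ} (hK : IsClosed K) (hb : ∀ t, ∃ y ∈ K, y ≤ t) (ha : ∀ t, ∃ y ∈ K, t ≤ y)
    {g : ℝ → ℝ} {C : ℝ} (hC : 0 ≤ C) (hL : ∀ x ∈ K, ∀ y ∈ K, |g y - g x| ≤ C * |y - x|)
    (h0 : ∀ x ∈ K, ∀ ε > 0, ∃ δ > 0, ∀ y ∈ K, |y - x| ≤ δ → |g y - g x| ≤ ε * |y - x|) :
    ∃ G : ℝ → ℝ, (∀ x ∈ K, G x = g x) ∧ ∀ t, ∃ D, |D| ≤ 2 * C ∧ HasDerivAt G D t := by
  have hu : ∀ t, ∃ u, u ∈ K ∧ u ≤ t ∧ ∀ y ∈ K, y ≤ t → y ≤ u := by
    intro t
    obtain ⟨y, hy, hyt⟩ := hb t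
    have hbd : BddAbove (K ∩ Iic t) := ⟨t, fun _ h => h.2⟩
    have := (hK.inter isClosed_Iic).csSup_mem ⟨y, hy, hyt⟩ hbd
    exact ⟨_, this.1, this.2, fun z hz hzt => le_csSup hbd ⟨hz, hzt⟩⟩
  have hv : ∀ t, ∃ v, v ∈ K ∧ t ≤ v ∧ ∀ y ∈ K, t ≤ y → v ≤ y := by
    intro t
    obtain ⟨y, hy, hyt⟩ := ha t
    have hbd : BddBelow (K ∩ Ici t) := ⟨t, fun _ h => h.2⟩
    have := (hK.inter isClosed_Ici).csInf_mem ⟨y, hy, hyt⟩ hbd
    exact ⟨_, this.1, this.2, fun z hz hzt => csInf_le hbd ⟨hz, hzt⟩⟩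
  choose u hu using hu
  choose v hv using hv
  let G : ℝ → ℝ := fun t => g (u t) + (g (v t) - g (u t)) * ψ ((t - u t) / (v t - u t))
  have hτ : ∀ t, 0 ≤ (t - u t) / (v t - u t) ∧ (t - u t) / (v t - u t) ≤ 1 := fun t =>
    ⟨div_nonneg (by linarith [(hu t).2.1]) (by linarith [(hu t).2.1, (hv t).2.1]),
      div_le_one_of_le₀ (by linarith [(hv t).2.1]) (by linarith [(hu t).2.1, (hv t).2.1])⟩
  have hGK : ∀ x ∈ K, G x = g x := by
    intro x hx
    have : u x = x := le_antisymm (hu x).2.1 ((hu x).2.2 x hx le_rfl)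
    simp [G, this, ψ]
  refine ⟨G, hGK, fun x => ?_⟩
  by_cases hx : x ∈ K
  · refine ⟨0, by simpa using hC, ?_⟩
    have r1 := right (G := G) hC hu (fun t => ⟨(hv t).1, (hv t).2.1⟩) (fun t => by
      obtain ⟨h1, h2⟩ := hτ t
      simp only [G, add_sub_cancel_left, abs_mul]
      refine mul_le_mul_of_nonneg_left (abs_le.2 ⟨?_, ?_⟩) (abs_nonneg _) <;> unfold ψ <;>
        nlinarith [pow_nonneg h1 2, pow_nonneg h1 3]) hL hx (h0 x hx)
    have r2 := right (K := Neg.neg ⁻¹' K) (g := fun t => g (-t)) (G := fun t => G (-t))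
      (u := fun t => -v (-t)) (v := fun t => -u (-t)) (x := -x) hC
      (fun t => ⟨by simpa using (hv (-t)).1, by linarith [(hv (-t)).2.1],
        fun y hy hyt => by linarith [(hv (-t)).2.2 (-y) hy (by linarith)]⟩)
      (fun t => ⟨by simpa using (hu (-t)).1, by linarith [(hu (-t)).2.1]⟩) (fun t => by
        obtain ⟨h1, h2⟩ := hτ (-t)
        simp only [neg_neg]
        rcases ((hu (-t)).2.1.trans (hv (-t)).2.1).eq_or_lt with h | h
        · simp [G, h]
        have e1 : (t - -v (-t)) / (-u (-t) - -v (-t)) = 1 - (-t - u (-t)) / (v (-t) - u (-t)) := by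
          have : v (-t) - u (-t) ≠ 0 := by linarith
          have : -u (-t) - -v (-t) ≠ 0 := by linarith
          field_simp
          ring
        rw [e1]
        set τ := (-t - u (-t)) / (v (-t) - u (-t))
        have e2 : G (-t) - g (v (-t)) = (g (u (-t)) - g (v (-t))) * (1 - ψ τ) := by
          simp only [G]
          ring
        rw [e2, abs_mul]
        refine mul_le_mul_of_nonneg_left (abs_le.2 ⟨?_, ?_⟩) (abs_nonneg _) <;> unfold ψ <;>
          nlinarith [pow_nonneg (sub_nonneg.2 h2) 2, pow_nonneg (sub_nonneg.2 h2) 3,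
            mul_nonneg h1 (pow_nonneg (sub_nonneg.2 h2) 2)])
      (fun a ha b hb => by
        have := hL _ ha _ hb
        rwa [neg_sub_neg, abs_sub_comm a] at this) (by simpa using hx) (fun ε hε => by
        obtain ⟨δ, hδ, h⟩ := h0 x hx ε hε
        refine ⟨δ, hδ, fun y hy hyx => ?_⟩
        have e : |-y - x| = |y - -x| := by rw [← abs_neg]; congr 1; ring
        have := h (-y) hy (by rwa [e])
        rwa [e, ← neg_neg x, neg_neg (-x)] at this)
    rw [hasDerivAt_iff_isLittleO, Asymptotics.isLittleO_iff]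
    intro ε hε
    obtain ⟨δ1, p1, q1⟩ := r1 ε hε
    obtain ⟨δ2, p2, q2⟩ := r2 ε hε
    filter_upwards [Metric.closedBall_mem_nhds x (lt_min p1 p2)] with t ht
    rw [Metric.mem_closedBall, Real.dist_eq, le_min_iff, abs_le, abs_le] at ht
    simp only [smul_zero, sub_zero, Real.norm_eq_abs, hGK x hx]
    rcases le_total x t with h | h
    · rw [abs_of_nonneg (sub_nonneg.2 h)]
      exact q1 t h ht.1.2
    · have := q2 (-t) (by linarith) (by linarith [ht.2.1])
      simp only [neg_neg] at this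
      rw [abs_of_nonpos (sub_nonpos.2 h)]
      convert this using 2
      ring
  · have h1 : u x < x := lt_of_le_of_ne (hu x).2.1 fun h => hx (h ▸ (hu x).1)
    have h2 : x < v x := lt_of_le_of_ne (hv x).2.1 fun h => hx (h ▸ (hv x).1)
    have hev : G =ᶠ[𝓝 x] fun t => g (u x) + (g (v x) - g (u x)) * ψ ((t - u x) / (v x - u x)) := by
      filter_upwards [Ioo_mem_nhds h1 h2] with t ht
      have e1 : u t = u x := by
        refine le_antisymm ?_ ((hu t).2.2 _ (hu x).1 ht.1.le)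
        rcases le_total (u t) x with h | h
        · exact (hu x).2.2 _ (hu t).1 h
        · linarith [(hv x).2.2 _ (hu t).1 h, (hu t).2.1, ht.2]
      have e2 : v t = v x := by
        refine le_antisymm ((hv t).2.2 _ (hv x).1 ht.2.le) ?_
        rcases le_total x (v t) with h | h
        · exact (hv x).2.2 _ (hv t).1 h
        · linarith [(hu x).2.2 _ (hv t).1 h, (hv t).2.1, ht.1]
      simp only [G, e1, e2]
    obtain ⟨h3, h4⟩ := hτ x
    set τ := (x - u x) / (v x - u x)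
    have d1 : HasDerivAt (fun t => (t - u x) / (v x - u x)) (1 / (v x - u x)) x :=
      ((hasDerivAt_id x).sub_const _).div_const _
    have d2 : HasDerivAt ψ (6 * τ * (1 - τ)) τ := by
      have := ((hasDerivAt_pow 2 τ).const_mul 3).sub ((hasDerivAt_pow 3 τ).const_mul 2)
      refine HasDerivAt.congr_deriv this ?_
      push_cast
      ring
    refine ⟨_, ?_, (((d2.comp x d1).const_mul (g (v x) - g (u x))).const_add (g (u x))).congr_of_eventuallyEq hev⟩
    have h5 := hL _ (hu x).1 _ (hv x).1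
    have h6 : 0 < v x - u x := by linarith
    rw [abs_of_pos h6] at h5
    rw [abs_mul, abs_of_nonneg (show 0 ≤ 6 * τ * (1 - τ) * (1 / (v x - u x)) by
      have := sub_nonneg.2 h4
      positivity)]
    calc _ ≤ C * (v x - u x) * (2 * (1 / (v x - u x))) := by
          gcongr
          nlinarith [sq_nonneg (2 * τ - 1)]
      _ = _ := by field_simp

theorem ext_compact {K : Set ℝ} (hK : IsCompact K) (hne : K.Nonempty)
    {g : ℝ → ℝ} {C : ℝ} (hC : 0 ≤ C) (hL : ∀ x ∈ K, ∀ y ∈ K, |g y - g x| ≤ C * |y - x|)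
    (h0 : ∀ x ∈ K, ∀ ε > 0, ∃ δ > 0, ∀ y ∈ K, |y - x| ≤ δ → |g y - g x| ≤ ε * |y - x|) :
    ∃ G : ℝ → ℝ, (∀ x ∈ K, G x = g x) ∧ ∀ t, ∃ D, |D| ≤ 2 * C ∧ HasDerivAt G D t := by
  obtain ⟨a, ha, ha'⟩ := hK.exists_isLeast hne
  obtain ⟨b, hb, hb'⟩ := hK.exists_isGreatest hne
  have hab : a ≤ b := ha' hb
  let p : ℝ → ℝ := fun t => max a (min b t)
  have hp : ∀ t ∈ K ∪ (Iic a ∪ Ici b), p t ∈ K := by
    rintro t (h | h | h)
    · simpa [p, ha' h, hb' h] using h
    · simpa [p, show min b t ≤ a from min_le_of_right_le h] using ha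
    · simpa [p, show b ≤ t from h, hab] using hb
  have hp1 : ∀ s t, |p s - p t| ≤ |s - t| := fun s t =>
    (abs_max_sub_max_le_max _ _ _ _).trans (max_le (by simp)
      ((abs_min_sub_min_le_max _ _ _ _).trans (by simp)))
  obtain ⟨G, h1, h2⟩ := ext_closed (K := K ∪ (Iic a ∪ Ici b))
    (hK.isClosed.union (isClosed_Iic.union isClosed_Ici))
    (fun t => ⟨min a t, Or.inr (Or.inl (mem_Iic.2 (min_le_left _ _))), min_le_right _ _⟩)
    (fun t => ⟨max b t, Or.inr (Or.inr (mem_Ici.2 (le_max_left _ _))), le_max_right _ _⟩) (g := g ∘ p) hC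
    (fun x hx y hy => (hL _ (hp x hx) _ (hp y hy)).trans (mul_le_mul_of_nonneg_left (hp1 _ _) hC))
    (fun x hx ε hε => by
      obtain ⟨δ, hδ, h⟩ := h0 _ (hp x hx) ε hε
      exact ⟨δ, hδ, fun y hy hyx => (h _ (hp y hy) ((hp1 _ _).trans hyx)).trans
        (mul_le_mul_of_nonneg_left (hp1 _ _) hε.le)⟩)
  refine ⟨G, fun x hx => ?_, h2⟩
  rw [h1 x (Or.inl hx)]
  simp [p, ha' hx, hb' hx]

end Pool.Agent.H32.DiffExt
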