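import Mathlib

set_option autoImplicit false

namespace Pool.Agent.H32.Dual

open MeasureTheory
open scoped CompactlySupported

theorem exists_measure {X : Type} [TopologicalSpace X] [CompactSpace X] [T2Space X]
    [MeasurableSpace X] [BorelSpace X] {E : Type} [AddCommGroup E] [Module ℝ E]
    (T : E →ₗ[ℝ] C(X, ℝ)) (L : E →ₗ[ℝ] ℝ) (h : ∀ e, ∀ ε > 0, ∃ x, L e ≤ T e x + ε) :
    ∃ ν : Measure X, IsProbabilityMeasure ν ∧ ∀ e, ∫ x, T e x ∂ν = L e := by
  have hne : Nonempty X := by obtain ⟨x, -⟩ := h 0 1 one_pos; exact ⟨x⟩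
  set N : C(X, ℝ) → ℝ := fun F => ⨆ x, F x with hN
  have hb : ∀ F : C(X, ℝ), BddAbove (Set.range F) := fun F => (isCompact_range F.continuous).bddAbove
  have hle : ∀ (F : C(X, ℝ)) x, F x ≤ N F := fun F x => le_ciSup (hb F) x
  have hL : ∀ e, L e ≤ N (T e) := fun e => le_of_forall_pos_le_add fun ε hε => by
    obtain ⟨x, hx⟩ := h e ε hε
    linarith [hle (T e) x]
  have hker : LinearMap.ker T ≤ LinearMap.ker L := by
    intro e he
    have h0 : N 0 = 0 := by simp [hN]
    have h1 := hL e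
    have h2 := hL (-e)
    rw [map_neg, map_neg, LinearMap.mem_ker.1 he, neg_zero, h0] at h2
    rw [LinearMap.mem_ker.1 he, h0] at h1
    exact LinearMap.mem_ker.2 (by linarith)
  set f : LinearMap.range T →ₗ[ℝ] ℝ :=
    ((LinearMap.ker T).liftQ L hker).comp T.quotKerEquivRange.symm.toLinearMap with hf
  have hfT : ∀ e, f ⟨T e, LinearMap.mem_range_self T e⟩ = L e := fun e => by
    simp [hf]
  obtain ⟨g, g1, g2⟩ := exists_extension_of_le_sublinear ⟨LinearMap.range T, f⟩ N
    (fun c hc F => by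
      simp only [hN, ContinuousMap.smul_apply, smul_eq_mul]
      exact (Real.mul_iSup_of_nonneg hc.le _).symm)
    (fun F G => ciSup_le fun x => add_le_add (hle F x) (hle G x))
    (by
      rintro ⟨_, e, rfl⟩
      exact (hfT e).le.trans (hL e))
  have g3 : ∀ e, g (T e) = L e := fun e => (g1 ⟨T e, LinearMap.mem_range_self T e⟩).trans (hfT e)
  have g4 : ∀ F : C(X, ℝ), (∀ x, 0 ≤ F x) → 0 ≤ g F := fun F hF => by
    have h1 := g2 (-F)
    have h2 : N (-F) ≤ 0 := ciSup_le fun x => by simpa using hF x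
    rw [map_neg] at h1
    linarith
  have g5 : g 1 = 1 := by
    have h1 := g2 1
    have h2 := g2 (-1)
    rw [map_neg] at h2
    have h3 : N 1 = 1 := by simp [hN]
    have h4 : N (-1) = -1 := by simp [hN]
    linarith
  let Λ : C_c(X, ℝ) →ₚ[ℝ] ℝ := PositiveLinearMap.mk₀
    { toFun := fun F => g F.toContinuousMap
      map_add' := fun F G => by rw [← map_add]; rfl
      map_smul' := fun c F => by rw [RingHom.id_apply, ← map_smul]; rfl }
    fun F hF => g4 _ fun x => hF x
  have key : ∀ F : C(X, ℝ), ∫ x, F x ∂(RealRMK.rieszMeasure Λ) = g F := fun F =>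
    RealRMK.integral_rieszMeasure Λ (CompactlySupportedContinuousMap.continuousMapEquiv F)
  refine ⟨RealRMK.rieszMeasure Λ, ?_, fun e => (key _).trans (g3 e)⟩
  have h1 := key 1
  rw [g5] at h1
  simp only [ContinuousMap.one_apply, integral_const, smul_eq_mul, mul_one] at h1
  exact isProbabilityMeasure_iff_real.2 h1

end Pool.Agent.H32.Dual
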