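import Mathlib

set_option autoImplicit false

namespace Pool.Agent.H32.Ekel

open Filter Topology

variable {X : Type*} [NormedAddCommGroup X] [NormedSpace ℝ X]

lemma ekeland [CompleteSpace X] (f : X →L[ℝ] ℝ) (C : Set X) (hC : IsClosed C) (M : ℝ)
    (hM : ∀ z ∈ C, f z ≤ M) (k : ℝ) (hk : 0 < k) (x0 : X) (hx0 : x0 ∈ C) :
    ∃ y ∈ C, f x0 + k * ‖y - x0‖ ≤ f y ∧ ∀ z ∈ C, f z ≤ f y + k * ‖z - y‖ := by
  let S : X → Set X := fun y => {z | z ∈ C ∧ f y + k * ‖z - y‖ ≤ f z}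
  have hself : ∀ y ∈ C, y ∈ S y := fun y hy => ⟨hy, by simp⟩
  have htrans : ∀ a b c, b ∈ S a → c ∈ S b → c ∈ S a := by
    intro a b c hb hc
    refine ⟨hc.1, ?_⟩
    have h1 : ‖c - a‖ ≤ ‖c - b‖ + ‖b - a‖ := norm_sub_le_norm_sub_add_norm_sub c b a
    have h2 := mul_le_mul_of_nonneg_left h1 hk.le
    have h3 := hb.2
    have h4 := hc.2
    linarith
  have hclosed : ∀ a, IsClosed (S a) := fun a => by
    have h1 : IsClosed {z : X | f a + k * ‖z - a‖ ≤ f z} := isClosed_le (by fun_prop) (by fun_prop)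
    exact hC.inter h1
  have step : ∀ (n : ℕ) (y : X), ∃ y', y ∈ C → y' ∈ S y ∧
      ∀ z ∈ S y, f z ≤ f y' + 1 / ((n : ℝ) + 1) := by
    intro n y
    by_cases hy : y ∈ C
    · have hne : (f '' S y).Nonempty := ⟨_, y, hself y hy, rfl⟩
      have hbd : BddAbove (f '' S y) := ⟨M, by rintro _ ⟨z, hz, rfl⟩; exact hM z hz.1⟩
      have hpos : (0 : ℝ) < 1 / ((n : ℝ) + 1) := by positivity
      obtain ⟨_, ⟨y', hy', rfl⟩, hlt⟩ := exists_lt_of_lt_csSup hne
        (show sSup (f '' S y) - 1 / ((n : ℝ) + 1) < sSup (f '' S y) by linarith)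
      refine ⟨y', fun _ => ⟨hy', fun z hz => ?_⟩⟩
      have := le_csSup hbd ⟨z, hz, rfl⟩
      linarith
    · exact ⟨y, fun h => absurd h hy⟩
  choose g hg using step
  let u : ℕ → X := fun n => Nat.rec x0 (fun n y => g n y) n
  have hu : ∀ n, u (n + 1) = g n (u n) := fun n => rfl
  have huC : ∀ n, u n ∈ C := by
    intro n
    induction n with
    | zero => exact hx0
    | succ n ih => rw [hu]; exact (hg n _ ih).1.1
  have hS : ∀ n m, n ≤ m → u m ∈ S (u n) := by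
    intro n m h
    induction m, h using Nat.le_induction with
    | base => exact hself _ (huC n)
    | succ m _ ih => exact htrans _ _ _ ih (by rw [hu]; exact (hg m _ (huC m)).1)
  have hsmall : ∀ n, ∀ z ∈ S (u (n + 1)), ‖z - u (n + 1)‖ ≤ k⁻¹ * (1 / ((n : ℝ) + 1)) := by
    intro n z hz
    have h1 := (hg n _ (huC n)).2 z (htrans _ _ _ (hS n (n + 1) (Nat.le_succ n)) hz)
    rw [← hu] at h1
    have h2 := hz.2
    rw [le_inv_mul_iff₀ hk]
    linarith
  have ht : Tendsto (fun n : ℕ => k⁻¹ * (1 / ((n : ℝ) + 1))) atTop (𝓝 0) := by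
    have := (tendsto_one_div_add_atTop_nhds_zero_nat (𝕜 := ℝ)).const_mul k⁻¹
    simpa using this
  have hcau : CauchySeq (fun n => u (n + 1)) := by
    refine cauchySeq_of_le_tendsto_0' _ (fun n m h => ?_) ht
    rw [dist_comm, dist_eq_norm]
    exact hsmall n _ (hS (n + 1) (m + 1) (by omega))
  obtain ⟨y, hy⟩ := cauchySeq_tendsto_of_complete hcau
  have hyS : ∀ n, y ∈ S (u n) := fun n =>
    (hclosed _).mem_of_tendsto hy (eventually_atTop.2 ⟨n, fun m hm => hS n (m + 1) (by omega)⟩)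
  refine ⟨y, (hyS 0).1, (hyS 0).2, fun z hz => ?_⟩
  by_contra hlt
  push Not at hlt
  have hzS : z ∈ S y := ⟨hz, hlt.le⟩
  have h1 : Tendsto (fun n => ‖z - u (n + 1)‖) atTop (𝓝 ‖z - y‖) := (tendsto_const_nhds.sub hy).norm
  have h2 : ‖z - y‖ ≤ 0 :=
    le_of_tendsto_of_tendsto' h1 ht (fun n => hsmall n z (htrans _ _ _ (hyS (n + 1)) hzS))
  have h3 : z = y := sub_eq_zero.mp (norm_le_zero_iff.mp h2)
  rw [h3] at hlt
  simp at hlt

lemma norm_le_of_ball (g : X →L[ℝ] ℝ) (M : ℝ) (h : ∀ w, ‖w‖ < 1 → g w ≤ M) : ‖g‖ ≤ M := by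
  by_contra hlt
  push Not at hlt
  obtain ⟨w, hw, hw2⟩ := g.exists_lt_apply_of_lt_opNorm hlt
  have h1 := h w hw
  have h2 := h (-w) (by simpa using hw)
  rw [map_neg] at h2
  rw [Real.norm_eq_abs, lt_abs] at hw2
  rcases hw2 with h3 | h3 <;> linarith

/-- multiplier rule on the intersection of the unit ball and the ball of radius `r` at `x`. -/
lemma mult (f : X →L[ℝ] ℝ) (x y : X) (hx : ‖x‖ = 1) (r : ℝ) (hr : 1 ≤ r) (k : ℝ) (hk : 0 < k)
    (hy1 : ‖y‖ ≤ 1) (hy2 : ‖y - x‖ ≤ r)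
    (hmax : ∀ z, ‖z‖ ≤ 1 → ‖z - x‖ ≤ r → f z ≤ f y + k * ‖z - y‖) :
    ∃ G1 G2 G3 : X →L[ℝ] ℝ, f = G1 + G2 + G3 ∧ ‖G3‖ ≤ k ∧ G1 y = ‖G1‖ ∧
      G2 (y - x) = r * ‖G2‖ := by
  have hr0 : 0 < r := by linarith
  let A : Set ((X × X) × (X × ℝ)) :=
    {p | ‖y + p.1.1‖ < 1 ∧ ‖y - x + p.1.2‖ < r ∧ k * ‖p.2.1‖ < p.2.2}
  let T : X →L[ℝ] ((X × X) × (X × ℝ)) :=
    ((ContinuousLinearMap.id ℝ X).prod (ContinuousLinearMap.id ℝ X)).prod
      ((ContinuousLinearMap.id ℝ X).prod f)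
  have hAo : IsOpen A := by
    have h1 : IsOpen {p : (X × X) × (X × ℝ) | ‖y + p.1.1‖ < 1} :=
      isOpen_lt (by fun_prop) (by fun_prop)
    have h2 : IsOpen {p : (X × X) × (X × ℝ) | ‖y - x + p.1.2‖ < r} :=
      isOpen_lt (by fun_prop) (by fun_prop)
    have h3 : IsOpen {p : (X × X) × (X × ℝ) | k * ‖p.2.1‖ < p.2.2} :=
      isOpen_lt (by fun_prop) (by fun_prop)
    exact h1.inter (h2.inter h3)
  have cvx : ∀ (c p q : X) (a b : ℝ), 0 ≤ a → 0 ≤ b → a + b = 1 →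
      ‖c + (a • p + b • q)‖ ≤ a * ‖c + p‖ + b * ‖c + q‖ := by
    intro c p q a b ha hb hab
    have : c + (a • p + b • q) = a • (c + p) + b • (c + q) := by
      rw [smul_add, smul_add, add_add_add_comm, ← add_smul, hab, one_smul]
    rw [this]
    refine (norm_add_le _ _).trans ?_
    rw [norm_smul, norm_smul, Real.norm_of_nonneg ha, Real.norm_of_nonneg hb]
  have lt2 : ∀ (a b s t s' t' : ℝ), 0 ≤ a → 0 ≤ b → a + b = 1 → s < s' → t < t' →
      a * s + b * t < a * s' + b * t' := by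
    intro a b s t s' t' ha hb hab h1 h2
    rcases ha.eq_or_lt with h | h
    · have : b = 1 := by linarith
      subst h; subst this; linarith
    · nlinarith
  have hAc : Convex ℝ A := by
    intro p hp q hq a b ha hb hab
    refine ⟨?_, ?_, ?_⟩
    · have h1 := cvx y p.1.1 q.1.1 a b ha hb hab
      have h2 := lt2 a b _ _ _ _ ha hb hab hp.1 hq.1
      change ‖y + (a • p.1.1 + b • q.1.1)‖ < 1
      linarith
    · have h1 := cvx (y - x) p.1.2 q.1.2 a b ha hb hab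
      have h2 := lt2 a b _ _ _ _ ha hb hab hp.2.1 hq.2.1
      change ‖y - x + (a • p.1.2 + b • q.1.2)‖ < r
      have h3 : a * r + b * r = r := by rw [← add_mul, hab, one_mul]
      linarith
    · have h1 := cvx 0 p.2.1 q.2.1 a b ha hb hab
      simp only [zero_add] at h1
      have h2 := lt2 a b _ _ _ _ ha hb hab hp.2.2 hq.2.2
      change k * ‖a • p.2.1 + b • q.2.1‖ < a * p.2.2 + b * q.2.2
      have h3 := mul_le_mul_of_nonneg_left h1 hk.le
      linarith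
  have hLc : Convex ℝ (Set.range T) := by
    rintro _ ⟨p, rfl⟩ _ ⟨q, rfl⟩ a b _ _ _
    exact ⟨a • p + b • q, by rw [map_add, map_smul, map_smul]⟩
  have hdis : Disjoint A (Set.range T) := by
    rw [Set.disjoint_left]
    rintro _ hp ⟨h, rfl⟩
    obtain ⟨h1, h2, h3⟩ := hp
    change ‖y + h‖ < 1 at h1
    change ‖y - x + h‖ < r at h2
    change k * ‖h‖ < f h at h3
    have h4 := hmax (y + h) h1.le (by rw [show y + h - x = y - x + h by abel]; exact h2.le)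
    rw [map_add, add_sub_cancel_left] at h4
    linarith
  obtain ⟨F, u, hF1, hF2⟩ := geometric_hahn_banach_open hAc hAo hLc hdis
  have hu0 : u ≤ 0 := by simpa using hF2 (T 0) ⟨0, rfl⟩
  have hF0 : ∀ h, F (T h) = 0 := by
    intro h
    by_contra hne
    have := hF2 (T (((u - 1) / F (T h)) • h)) ⟨_, rfl⟩
    rw [map_smul, map_smul, smul_eq_mul, div_mul_cancel₀ _ hne] at this
    linarith
  let g1 : X →L[ℝ] ℝ := F.comp ((ContinuousLinearMap.inl ℝ _ _).comp (ContinuousLinearMap.inl ℝ X X))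
  let g2 : X →L[ℝ] ℝ := F.comp ((ContinuousLinearMap.inl ℝ _ _).comp (ContinuousLinearMap.inr ℝ X X))
  let g3 : X →L[ℝ] ℝ := F.comp ((ContinuousLinearMap.inr ℝ _ _).comp (ContinuousLinearMap.inl ℝ X ℝ))
  let σ : ℝ := - F ((0, 0), (0, 1))
  have hdec : ∀ (a b c : X) (t : ℝ), F ((a, b), (c, t)) = g1 a + g2 b + g3 c - σ * t := by
    intro a b c t
    have : (((a, b), (c, t)) : (X × X) × (X × ℝ)) =
        ((a, 0), (0, 0)) + ((0, b), (0, 0)) + ((0, 0), (c, 0)) + t • ((0, 0), (0, 1)) := by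
      simp
    rw [this, map_add, map_add, map_add, map_smul]
    change g1 a + g2 b + g3 c + t * F ((0, 0), (0, 1)) = g1 a + g2 b + g3 c - (- F ((0, 0), (0, 1))) * t
    ring
  have hsum : ∀ h, g1 h + g2 h + g3 h = σ * f h := by
    intro h
    have := hF0 h
    change F ((h, h), (h, f h)) = 0 at this
    rw [hdec] at this
    linarith
  have key : ∀ (w1 w2 c : X) (t : ℝ), ‖w1‖ < 1 → ‖w2‖ < 1 → k * ‖c‖ < t →
      g1 w1 - g1 y + (r * g2 w2 - g2 (y - x)) + g3 c < σ * t := by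
    intro w1 w2 c t h1 h2 h3
    have := hF1 ((w1 - y, r • w2 - (y - x)), (c, t)) ⟨by simpa using h1, by
      change ‖y - x + (r • w2 - (y - x))‖ < r
      rw [add_sub_cancel, norm_smul, Real.norm_of_nonneg hr0.le]
      nlinarith, h3⟩
    rw [hdec, map_sub g1, map_sub g2 (r • w2), map_smul, smul_eq_mul] at this
    linarith
  have hσ : 0 < σ := by
    set h0 : X := (1 / 2 : ℝ) • x - y with hh0
    have hx2 : ‖(1 / 2 : ℝ) • x‖ = 1 / 2 := by rw [norm_smul, hx]; norm_num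
    have e : y - x + h0 = -((1 / 2 : ℝ) • x) := by rw [hh0]; module
    have hT : ∀ t : ℝ, k * ‖h0‖ < t → σ * f h0 < σ * t := by
      intro t ht
      have := hF1 ((h0, h0), (h0, t)) ⟨by
        change ‖y + h0‖ < 1
        rw [hh0, add_sub_cancel, hx2]; norm_num, by
        change ‖y - x + h0‖ < r
        rw [e, norm_neg, hx2]; linarith, ht⟩
      rw [hdec, hsum] at this
      linarith
    have h1 := hT (k * ‖h0‖ + |f h0| + 1) (by have := abs_nonneg (f h0); linarith)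
    by_contra hn
    push Not at hn
    have h2 : f h0 ≤ k * ‖h0‖ + |f h0| + 1 := by
      have := le_abs_self (f h0)
      have : 0 ≤ k * ‖h0‖ := by positivity
      linarith
    have := mul_le_mul_of_nonpos_left h2 hn
    linarith
  have key2 : ∀ c : X, ‖g1‖ - g1 y + (r * ‖g2‖ - g2 (y - x)) + g3 c ≤ σ * (k * ‖c‖) := by
    intro c
    have k1 : ∀ w1 w2 : X, ‖w1‖ < 1 → ‖w2‖ < 1 →
        g1 w1 - g1 y + (r * g2 w2 - g2 (y - x)) + g3 c ≤ σ * (k * ‖c‖) := by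
      intro w1 w2 h1 h2
      refine le_of_forall_pos_le_add fun e he => ?_
      have := key w1 w2 c (k * ‖c‖ + e / σ) h1 h2 (by have := div_pos he hσ; linarith)
      rw [mul_add, mul_div_cancel₀ _ hσ.ne'] at this
      exact this.le
    have k2 : ∀ w2 : X, ‖w2‖ < 1 →
        ‖g1‖ - g1 y + (r * g2 w2 - g2 (y - x)) + g3 c ≤ σ * (k * ‖c‖) := by
      intro w2 h2
      have := norm_le_of_ball g1 (σ * (k * ‖c‖) + g1 y - (r * g2 w2 - g2 (y - x)) - g3 c)
        (fun w hw => by have := k1 w w2 hw h2; linarith)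
      linarith
    have := norm_le_of_ball g2 ((σ * (k * ‖c‖) - ‖g1‖ + g1 y + g2 (y - x) - g3 c) / r)
      (fun w hw => by
        have := k2 w hw
        rw [le_div_iff₀ hr0]; linarith)
    rw [le_div_iff₀ hr0] at this
    linarith
  have b1 : g1 y ≤ ‖g1‖ := by
    have h1 := g1.le_opNorm y
    have h2 := le_abs_self (g1 y)
    rw [Real.norm_eq_abs] at h1
    nlinarith [norm_nonneg g1]
  have b2 : g2 (y - x) ≤ r * ‖g2‖ := by
    have h1 := g2.le_opNorm (y - x)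
    have h2 := le_abs_self (g2 (y - x))
    rw [Real.norm_eq_abs] at h1
    nlinarith [norm_nonneg g2]
  have k0 := key2 0
  simp only [map_zero, norm_zero, mul_zero, add_zero] at k0
  have hσi : 0 < σ⁻¹ := inv_pos.mpr hσ
  refine ⟨σ⁻¹ • g1, σ⁻¹ • g2, σ⁻¹ • g3, ?_, ?_, ?_, ?_⟩
  · ext h
    have := hsum h
    simp only [add_apply, smul_apply, smul_eq_mul]
    field_simp
    linarith
  · refine norm_le_of_ball _ _ fun w hw => ?_
    have := key2 w
    simp only [smul_apply, smul_eq_mul]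
    rw [inv_mul_le_iff₀ hσ]
    have h3 : σ * (k * ‖w‖) ≤ σ * k := by
      apply mul_le_mul_of_nonneg_left _ hσ.le
      nlinarith
    linarith
  · rw [norm_smul, Real.norm_of_nonneg hσi.le]
    simp only [smul_apply, smul_eq_mul]
    congr 1; linarith
  · rw [norm_smul, Real.norm_of_nonneg hσi.le]
    simp only [smul_apply, smul_eq_mul]
    have : g2 (y - x) = r * ‖g2‖ := by linarith
    rw [this]; ring

/-- Ekeland point together with the multipliers. -/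
lemma combo [CompleteSpace X] (f : X →L[ℝ] ℝ) (x : X) (hx : ‖x‖ = 1) (r : ℝ) (hr : 1 ≤ r)
    (k : ℝ) (hk : 0 < k) :
    ∃ (y : X) (G1 G2 G3 : X →L[ℝ] ℝ), ‖y‖ ≤ 1 ∧ ‖y - x‖ ≤ r ∧ f x + k * ‖y - x‖ ≤ f y ∧
      f = G1 + G2 + G3 ∧ ‖G3‖ ≤ k ∧ G1 y = ‖G1‖ ∧ G2 (y - x) = r * ‖G2‖ := by
  have hcl : IsClosed {z : X | ‖z‖ ≤ 1 ∧ ‖z - x‖ ≤ r} := by
    have h1 : IsClosed {z : X | ‖z‖ ≤ 1} := isClosed_le (by fun_prop) (by fun_prop)
    have h2 : IsClosed {z : X | ‖z - x‖ ≤ r} := isClosed_le (by fun_prop) (by fun_prop)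
    exact h1.inter h2
  obtain ⟨y, hy, h1, h2⟩ := ekeland f _ hcl ‖f‖ (fun z hz => by
    have h1 := f.le_opNorm z
    have h2 := le_abs_self (f z)
    rw [Real.norm_eq_abs] at h1
    nlinarith [norm_nonneg f, hz.1]) k hk x ⟨hx.le, by simp; linarith⟩
  obtain ⟨G1, G2, G3, e1, e2, e3, e4⟩ := mult f x y hx r hr k hk hy.1 hy.2
    (fun z hz1 hz2 => h2 z ⟨hz1, hz2⟩)
  exact ⟨y, G1, G2, G3, hy.1, hy.2, h1, e1, e2, e3, e4⟩

lemma app_le (g : X →L[ℝ] ℝ) (z : X) (hz : ‖z‖ ≤ 1) : |g z| ≤ ‖g‖ := by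
  have h1 := g.le_opNorm z
  rw [Real.norm_eq_abs] at h1
  nlinarith [norm_nonneg g]

/-- normalising an attaining functional -/
lemma normalise (G : X →L[ℝ] ℝ) (y : X) (hy : ‖y‖ ≤ 1) (hG : 0 < ‖G‖) (h : |G y| = ‖G‖) :
    ‖y‖ = 1 ∧ ‖‖G‖⁻¹ • G‖ = 1 ∧ |(‖G‖⁻¹ • G) y| = 1 ∧ ‖G - ‖G‖⁻¹ • G‖ = |‖G‖ - 1| := by
  refine ⟨?_, ?_, ?_, ?_⟩
  · have h1 := G.le_opNorm y
    rw [Real.norm_eq_abs, h] at h1
    apply le_antisymm hy
    by_contra hn
    push Not at hn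
    nlinarith
  · rw [norm_smul, norm_inv, norm_norm, inv_mul_cancel₀ hG.ne']
  · simp only [smul_apply, smul_eq_mul]
    rw [abs_mul, h, abs_inv, abs_norm, inv_mul_cancel₀ hG.ne']
  · have : G - ‖G‖⁻¹ • G = (1 - ‖G‖⁻¹) • G := by
      ext z; simp only [sub_apply, smul_apply, smul_eq_mul]; ring
    rw [this, norm_smul, Real.norm_eq_abs]
    conv_lhs => rw [← abs_of_pos hG]
    rw [abs_of_pos hG, ← abs_of_pos hG, ← abs_mul, abs_of_pos hG, sub_mul, one_mul,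
      inv_mul_cancel₀ hG.ne']

end Pool.Agent.H32.Ekel
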