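import Pool.Agent.H32.CutRes

set_option autoImplicit false

namespace Pool.Agent.H32.Cut

open Finset Filter Topology
open scoped Pointwise

noncomputable section

variable {G : Type} [AddCommGroup G] [Fintype G] [DecidableEq G]

def kl (μ : G → ℝ) : ℝ := ∑ y, μ y * Real.log (μ y / (1 / (Fintype.card G : ℝ)))

omit [DecidableEq G] in
lemma kl_sub (μ : G → ℝ) (x : G) :
    ∑ y, μ (y - x) * Real.log (μ (y - x) / (1 / (Fintype.card G : ℝ))) = kl μ :=
  Fintype.sum_equiv (Equiv.subRight x) _ _ fun _ => rfl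

lemma mul_log_ge {x y : ℝ} (hx : 0 ≤ x) (hy : 0 < y) : x - y ≤ x * Real.log (x / y) := by
  rcases hx.eq_or_lt with rfl | hx
  · simp; linarith
  · have h := Real.one_sub_inv_le_log_of_pos (div_pos hx hy)
    have h2 := mul_le_mul_of_nonneg_left h hx.le
    have e : x * (1 - (x / y)⁻¹) = x - y := by field_simp
    linarith

lemma kl_low {μ : G → ℝ} (h0 : ∀ y, 0 ≤ μ y) (h1 : ∑ y, μ y = 1) (B : Finset G) (a : ℝ)
    (hB : (B.card : ℝ) / Fintype.card G * Real.exp a ≤ 1) : a * ∑ y ∈ B, μ y - 1 ≤ kl μ := by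
  have hG : (0 : ℝ) < Fintype.card G := by positivity
  have key : ∀ y, (if y ∈ B then a * μ y else 0) + μ y - 1 / (Fintype.card G : ℝ)
      - (if y ∈ B then Real.exp a / Fintype.card G else 0)
      ≤ μ y * Real.log (μ y / (1 / (Fintype.card G : ℝ))) := by
    intro y
    split_ifs with hy
    · have := mul_log_ge (h0 y) (show 0 < Real.exp a / Fintype.card G by positivity)
      rcases (h0 y).eq_or_lt with h | h
      · rw [← h]
        have : 0 < Real.exp a / Fintype.card G := by positivity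
        have : 0 < 1 / (Fintype.card G : ℝ) := by positivity
        simp only [mul_zero, zero_mul]
        linarith
      · have e : Real.log (μ y / (1 / (Fintype.card G : ℝ)))
            = Real.log (μ y / (Real.exp a / Fintype.card G)) + a := by
          rw [show μ y / (1 / (Fintype.card G : ℝ)) = μ y / (Real.exp a / Fintype.card G) * Real.exp a by
            field_simp, Real.log_mul (by positivity) (by positivity), Real.log_exp]
        rw [e]
        have : 0 < 1 / (Fintype.card G : ℝ) := by positivity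
        nlinarith
    · have := mul_log_ge (h0 y) (show 0 < 1 / (Fintype.card G : ℝ) by positivity)
      linarith
  have h2 := Finset.sum_le_sum fun y (_ : y ∈ univ) => key y
  simp only [sum_sub_distrib, sum_add_distrib, h1, sum_ite_mem, univ_inter, sum_const, card_univ,
    nsmul_eq_mul, ← mul_sum] at h2
  have e1 : (Fintype.card G : ℝ) * (1 / Fintype.card G) = 1 := by field_simp
  have e2 : (B.card : ℝ) * (Real.exp a / Fintype.card G) = B.card / Fintype.card G * Real.exp a := by
    ring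
  unfold kl
  linarith

omit [DecidableEq G] in
lemma kl_up {μ : G → ℝ} (h1 : ∑ y, μ y = 1) {a : ℝ} (ha0 : 0 < a) (ha1 : a ≤ 1)
    (h : ∀ y, (1 - a) / Fintype.card G ≤ μ y) : kl μ ≤ a * Real.log (Fintype.card G) := by
  have hG : (0 : ℝ) < Fintype.card G := by positivity
  set N : ℝ := (Fintype.card G : ℝ) with hN
  set ν : G → ℝ := fun y => (μ y - (1 - a) / N) / a with hν
  have hν0 : ∀ y, 0 ≤ ν y := fun y => div_nonneg (sub_nonneg.2 (h y)) ha0.le
  have hν1 : ∑ y, ν y = 1 := by
    simp only [hν, ← sum_div, sum_sub_distrib, h1, sum_const, card_univ, nsmul_eq_mul, ← hN]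
    field_simp; ring
  have hν2 : ∀ y, ν y ≤ 1 := fun y => by
    rw [← hν1]; exact single_le_sum (fun s _ => hν0 s) (mem_univ y)
  have key : ∀ y, μ y * Real.log (μ y / (1 / N)) ≤ a * (ν y * Real.log N) := by
    intro y
    have hc := Real.convexOn_mul_log.2 (show (1 : ℝ) ∈ Set.Ici 0 by simp)
      (show ν y * N ∈ Set.Ici 0 from mul_nonneg (hν0 y) hG.le) (show 0 ≤ 1 - a by linarith) ha0.le
      (by ring)
    simp only [smul_eq_mul, mul_one, Real.log_one, mul_zero, zero_add] at hc
    have e : 1 - a + a * (ν y * N) = μ y * N := by simp only [hν]; field_simp; ring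
    rw [e] at hc
    have e2 : μ y / (1 / N) = μ y * N := by field_simp
    rw [e2]
    have h3 : ν y * Real.log (ν y * N) ≤ ν y * Real.log N := by
      rcases (hν0 y).eq_or_lt with h | h
      · rw [← h]; simp
      · refine mul_le_mul_of_nonneg_left (Real.log_le_log (by positivity) ?_) h.le
        nlinarith [hν2 y]
    have h4 : μ y * Real.log (μ y * N) * N ≤ a * (ν y * Real.log (ν y * N)) * N := by nlinarith
    have h5 := le_of_mul_le_mul_right h4 hG
    nlinarith
  refine (Finset.sum_le_sum fun y _ => key y).trans (le_of_eq ?_)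
  rw [← mul_sum, ← sum_mul, hν1, one_mul]

lemma cp_ge {κ : G → ℝ} (h : IsProb κ) {c : ℝ} (hc : ∀ s, c / Fintype.card G ≤ κ s) (j : ℕ) (y : G) :
    (1 - (1 - c) ^ j) / Fintype.card G ≤ cp κ j y := by
  have hG : (0 : ℝ) < Fintype.card G := by positivity
  induction j generalizing y with
  | zero => simpa using (cp_prob h 0).1 y
  | succ j ih =>
    simp only [cp, conv]
    have e : ∑ s, κ s * cp κ j (y - s) = ∑ s, (κ s - c / Fintype.card G) * cp κ j (y - s)
        + c / Fintype.card G * ∑ s, cp κ j (y - s) := by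
      rw [mul_sum, ← sum_add_distrib]
      exact sum_congr rfl fun s _ => by ring
    have e2 : ∑ s, cp κ j (y - s) = 1 := by
      rw [← (cp_prob h j).2]
      exact Fintype.sum_equiv (Equiv.subLeft y) _ _ fun _ => rfl
    have h3 : ∑ s, (κ s - c / Fintype.card G) * ((1 - (1 - c) ^ j) / Fintype.card G) ≤
        ∑ s, (κ s - c / Fintype.card G) * cp κ j (y - s) :=
      sum_le_sum fun s _ => mul_le_mul_of_nonneg_left (ih _) (sub_nonneg.2 (hc s))
    rw [← sum_mul, sum_sub_distrib, h.2, sum_const, card_univ, nsmul_eq_mul] at h3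
    have e3 : (1 - (Fintype.card G : ℝ) * (c / Fintype.card G)) = 1 - c := by field_simp
    rw [e3] at h3
    rw [e, e2]
    refine le_trans (le_of_eq ?_) (add_le_add h3 le_rfl)
    rw [pow_succ]; field_simp; ring

/-- Features of the entropy example: refresh rate `c`, volume `L`, horizon `T`. -/
structure EP (κ : G → ℝ) (c L T : ℝ) : Prop where
  prob : IsProb κ
  symm : ∀ s, κ (-s) = κ s
  pos : ∀ s, 0 < κ s
  eig : ∀ (f : G → ℝ) (e : ℝ), f ≠ 0 → ∑ x, f x = 0 → (M κ).mulVec f = e • f → |e| ≤ 1 / 4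
  up : ∀ t, 0 ≤ t → kl (ht κ t) ≤ Real.exp (-(c * t)) * L
  low : ∀ t, 0 ≤ t → t ≤ T → Real.exp (-(c * t)) * L / 4 - 1 ≤ kl (ht κ t)

lemma ht_up_gen {κ : G → ℝ} (h : IsProb κ) {c : ℝ} (hc0 : 0 ≤ c)
    (hc : ∀ s, c / Fintype.card G ≤ κ s) {t : ℝ} (h0 : 0 ≤ t) :
    kl (ht κ t) ≤ Real.exp (-(c * t)) * Real.log (Fintype.card G) := by
  refine kl_up (ht_sum h h0) (Real.exp_pos _) (Real.exp_le_one_iff.2 (by nlinarith)) fun y => ?_
  have h1 := ((po_sum t).sub (hs_pow t (1 - c))).div_const (Fintype.card G : ℝ)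
  rw [show t * (1 - (1 - c)) = c * t by ring] at h1
  refine hasSum_le (fun j => ?_) h1 (ht_has h h0 y)
  have := mul_le_mul_of_nonneg_left (cp_ge h hc j y) (po_nonneg h0 j)
  refine le_trans (le_of_eq ?_) this
  unfold po
  ring

lemma ht_low_gen {κ : G → ℝ} (h : IsProb κ) {c : ℝ} (hc0 : 0 ≤ c) (hc1 : c ≤ 1) (B : Finset G)
    (r : ℕ) (hr : 0 < r) (hB : ∀ j ≤ r, (1 - c) ^ j ≤ ∑ y ∈ B, cp κ j y) {t : ℝ} (h0 : 0 ≤ t)
    (h1 : t ≤ r / 2) : Real.exp (-(c * t)) / 2 ≤ ∑ y ∈ B, ht κ t y := by
  have hr' : (0 : ℝ) < r := by exact_mod_cast hr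
  have a1 := ((po_sum ((1 - c) * t)).sub ((po_mean ((1 - c) * t)).div_const r)).mul_left
    (Real.exp (-(c * t)))
  have a2 := hasSum_le (fun j => ?_) a1 (ht_set h h0 B)
  · refine le_trans ?_ a2
    have : (1 - c) * t / r ≤ 1 / 2 := by
      rw [div_le_iff₀ hr']; nlinarith
    nlinarith [Real.exp_pos (-(c * t))]
  · have e : Real.exp (-(c * t)) * po ((1 - c) * t) j = po t j * (1 - c) ^ j := by
      unfold po
      rw [mul_pow, show Real.exp (-t) = Real.exp (-(c * t)) * Real.exp (-((1 - c) * t)) by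
        rw [← Real.exp_add]; congr 1; ring]
      ring
    have e2 : Real.exp (-(c * t)) * (po ((1 - c) * t) j - po ((1 - c) * t) j * j / r)
        = po t j * ((1 - c) ^ j * (1 - j / r)) := by
      rw [← mul_assoc, ← e]; ring
    rw [e2]
    refine mul_le_mul_of_nonneg_left ?_ (po_nonneg h0 j)
    have p1 : 0 ≤ (1 - c) ^ j := pow_nonneg (by linarith) j
    by_cases hj : j ≤ r
    · have : 0 ≤ (j : ℝ) / r := by positivity
      nlinarith [hB j hj]
    · have : (1 : ℝ) ≤ j / r := by
        rw [le_div_iff₀ hr']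
        have : (r : ℝ) ≤ j := by exact_mod_cast (not_le.1 hj).le
        linarith
      have h3 : 0 ≤ ∑ y ∈ B, cp κ j y := sum_nonneg fun y _ => (cp_prob h j).1 y
      nlinarith

theorem exists_ep (r p : ℕ) (hr : 0 < r) (hp : p.Prime) (hpr : 16 * r < p) (c : ℝ) (hc0 : 0 < c)
    (hc1 : c ≤ 1) :
    ∃ (G : Type) (_ : AddCommGroup G) (_ : Fintype G) (_ : DecidableEq G) (κ : G → ℝ),
      EP κ c (4 * r * Real.log p) (r / 2) := by
  classical
  have : Fact p.Prime := ⟨hp⟩
  set d := 4 * r with hd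
  have hd2 : 2 ≤ d := by omega
  have hp' : (16 * r + 1 : ℝ) ≤ p := by exact_mod_cast hpr
  have hr' : (1 : ℝ) ≤ r := by exact_mod_cast hr
  have hp0 : (0 : ℝ) < p := by linarith
  have cG : (Fintype.card (Fin d → ZMod p) : ℝ) = (p : ℝ) ^ d := by simp [ZMod.card]
  have cS : ((S1 p d).card : ℝ) = (p - 1) * p := by
    rw [S1_card hd2]; push_cast [Nat.cast_sub hp.pos]; ring
  have cS0 : (0 : ℝ) < (S1 p d).card := by rw [cS]; nlinarith
  have hne : (S1 p d).Nonempty := card_pos.1 (by exact_mod_cast cS0)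
  have hG : (0 : ℝ) < Fintype.card (Fin d → ZMod p) := by positivity
  set κ : (Fin d → ZMod p) → ℝ :=
    fun s => (1 - c) * unif (S1 p d) s + c / Fintype.card (Fin d → ZMod p) with hκ
  have hu0 : ∀ s, 0 ≤ unif (S1 p d) s := fun s => by unfold unif; positivity
  have hge : ∀ s, c / Fintype.card (Fin d → ZMod p) ≤ κ s := fun s => by
    have := mul_nonneg (sub_nonneg.2 hc1) (hu0 s)
    simp only [hκ]; linarith
  have hpos : ∀ s, 0 < κ s := fun s => lt_of_lt_of_le (by positivity) (hge s)
  have hu1 : ∑ s, unif (S1 p d) s = 1 := by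
    simp only [unif, sum_ind]; field_simp
  have hprob : IsProb κ := by
    refine ⟨fun s => (hpos s).le, ?_⟩
    simp only [hκ, sum_add_distrib, ← mul_sum, hu1, sum_const, card_univ, nsmul_eq_mul]
    field_simp; ring
  have hL : Real.log (Fintype.card (Fin d → ZMod p)) = 4 * r * Real.log p := by
    rw [cG, Real.log_pow, hd]; push_cast; ring
  refine ⟨Fin d → ZMod p, inferInstance, inferInstance, inferInstance, κ, hprob, fun s => ?_, hpos,
    fun f e hf h0 he => ?_, fun t h0 => ?_, fun t h0 h1 => ?_⟩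
  · have : -s ∈ S1 p d ↔ s ∈ S1 p d := ⟨fun h => by simpa using S1_neg h, S1_neg⟩
    simp only [hκ, unif, this]
  · obtain ⟨ψ, h1, h2⟩ := eigen (κ := κ) (f := fun x => (f x : ℂ)) (c := e)
      (fun e => hf (funext fun x => by simpa using congrFun e x)) fun x => by
        have := congrFun he x
        simp only [Matrix.mulVec, dotProduct, M, Matrix.of_apply, Pi.smul_apply, smul_eq_mul] at this
        exact_mod_cast this
    have hψ : ψ ≠ 0 := fun e => h2 e (by exact_mod_cast h0)
    have e1 : ∑ s, (κ s : ℂ) * ψ s = (((1 - c) / (S1 p d).card : ℝ) : ℂ) * ∑ s ∈ S1 p d, ψ s := by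
      have e0 : ∑ s, ψ s = 0 := by rw [AddChar.sum_eq_ite, if_neg hψ]
      simp only [hκ, unif]
      push_cast
      simp only [add_mul, sum_add_distrib, apply_ite Complex.ofReal, ite_mul, mul_ite, ← mul_sum, e0]
      simp [mul_sum, div_eq_mul_inv]
    have e2 := S1_char hd2 ψ hψ
    have e3 : |e| = ‖∑ s, (κ s : ℂ) * ψ s‖ := by rw [← h1]; simp
    rw [e3, e1, norm_mul, Complex.norm_real, Real.norm_of_nonneg (div_nonneg (by linarith) cS0.le)]
    have e4 : (1 - c) / (S1 p d).card ≤ 1 / (S1 p d).card :=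
      div_le_div_of_nonneg_right (by linarith) cS0.le
    refine (mul_le_mul e4 e2 (norm_nonneg _) (by positivity)).trans ?_
    rw [cS, hd, div_mul_eq_mul_div, div_le_div_iff₀ (by nlinarith) (by norm_num)]
    push_cast
    nlinarith
  · rw [← hL]; exact ht_up_gen hprob hc0.le hge h0
  · set S0 := insert 0 (S1 p d) with hS0'
    have h00 : (0 : Fin d → ZMod p) ∈ S0 := mem_insert_self _ _
    have b1 : (r • S0).card ≤ p ^ (2 * r) := by
      refine card_nsmul_le.trans ?_
      rw [pow_mul p 2]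
      refine Nat.pow_le_pow_left ((card_insert_le _ _).trans ?_) _
      rw [S1_card hd2]
      obtain ⟨q, rfl⟩ : ∃ q, p = q + 1 := ⟨p - 1, by omega⟩
      simp only [Nat.add_sub_cancel]
      nlinarith
    have b2 : ∀ j ≤ r, (1 - c) ^ j ≤ ∑ y ∈ r • S0, cp κ j y := by
      intro j hj
      have a1 := low_bound hprob S0 (fun j => j • S0) (by simp)
        (fun j s hs y hy => by rw [succ_nsmul']; exact add_mem_add hs hy) j
      have a2 : 1 - c ≤ ∑ s ∈ S0, κ s := by
        have a3 : ∑ s ∈ S1 p d, κ s ≤ ∑ s ∈ S0, κ s :=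
          sum_le_sum_of_subset_of_nonneg (subset_insert _ _) fun s _ _ => (hpos s).le
        refine le_trans ?_ a3
        have a4 : ∑ s ∈ S1 p d, (1 - c) * (1 / ((S1 p d).card : ℝ)) ≤ ∑ s ∈ S1 p d, κ s := by
          refine sum_le_sum fun s hs => ?_
          simp only [hκ, unif, if_pos hs]
          have : 0 ≤ c / Fintype.card (Fin d → ZMod p) := by positivity
          linarith
        rw [sum_const, nsmul_eq_mul] at a4
        refine le_trans (le_of_eq ?_) a4
        field_simp
      have a5 := pow_le_pow_left₀ (by linarith) a2 j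
      have a6 : ∑ y ∈ j • S0, cp κ j y ≤ ∑ y ∈ r • S0, cp κ j y :=
        sum_le_sum_of_subset_of_nonneg (nsmul_subset_nsmul_right h00 hj)
          fun y _ _ => (cp_prob hprob j).1 y
      linarith
    have b3 := ht_low_gen hprob hc0.le hc1 (r • S0) r hr b2 h0 h1
    have b4 := kl_low (μ := ht κ t)
      (fun y => (ht_has hprob h0 y).nonneg fun j => mul_nonneg (po_nonneg h0 j) ((cp_prob hprob j).1 y))
      (ht_sum hprob h0) (r • S0) (2 * r * Real.log p) (by
        have e : Real.exp (2 * r * Real.log p) = (p : ℝ) ^ (2 * r) := by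
          rw [show 2 * (r : ℝ) * Real.log p = Real.log ((p : ℝ) ^ (2 * r)) by
            rw [Real.log_pow]; push_cast; ring, Real.exp_log (by positivity)]
        have b5 : ((r • S0).card : ℝ) ≤ (p : ℝ) ^ (2 * r) := by exact_mod_cast b1
        have e5 : (p : ℝ) ^ d = (p : ℝ) ^ (2 * r) * (p : ℝ) ^ (2 * r) := by
          rw [← pow_add]; congr 1; omega
        rw [e, cG, div_mul_eq_mul_div, div_le_one (by positivity), e5]
        exact mul_le_mul_of_nonneg_right b5 (by positivity))
    have b6 : 0 ≤ 2 * r * Real.log p := by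
      have := Real.log_nonneg (show (1 : ℝ) ≤ p by linarith)
      positivity
    have b7 := mul_le_mul_of_nonneg_left b3 b6
    linarith

end

end Pool.Agent.H32.Cut
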