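import Pool.Agent.H32.Ent

set_option autoImplicit false

namespace Pool.Agent.H32.Cut

open Finset Filter Topology

noncomputable section

section
variable {G : Type} [AddCommGroup G] [Fintype G] [DecidableEq G]

omit [DecidableEq G] in
lemma kl_nonneg {μ : G → ℝ} (h0 : ∀ y, 0 ≤ μ y) (h1 : ∑ y, μ y = 1) : 0 ≤ kl μ := by
  have hG : (0 : ℝ) < Fintype.card G := by positivity
  have h2 := Finset.sum_le_sum fun y (_ : y ∈ univ) =>
    mul_log_ge (h0 y) (show 0 < 1 / (Fintype.card G : ℝ) by positivity)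
  simp only [sum_sub_distrib, h1, sum_const, card_univ, nsmul_eq_mul] at h2
  have e1 : (Fintype.card G : ℝ) * (1 / Fintype.card G) = 1 := by field_simp
  unfold kl
  linarith

lemma EP.nonneg {κ : G → ℝ} {c L T : ℝ} (h : EP κ c L T) {t : ℝ} (h0 : 0 ≤ t) : 0 ≤ kl (ht κ t) :=
  kl_nonneg (fun y => (ht_has h.prob h0 y).nonneg fun j =>
    mul_nonneg (po_nonneg h0 j) ((cp_prob h.prob j).1 y)) (ht_sum h.prob h0)

end

structure AP (D : ℝ → ℝ) (c L T : ℝ) : Prop where
  nn : ∀ t, 0 ≤ t → 0 ≤ D t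
  up : ∀ t, 0 ≤ t → D t ≤ Real.exp (-(c * t)) * L
  low : ∀ t, 0 ≤ t → t ≤ T → Real.exp (-(c * t)) * L / 4 - 1 ≤ D t
  c0 : 0 < c
  c1 : c ≤ 1
  L1 : 1 ≤ L
  cT : c * T = 2 * Real.log L

def tE (D : ℝ → ℝ) (ε : ℝ) : ℝ := sInf {t : ℝ | 0 ≤ t ∧ D t ≤ ε}

variable {D : ℝ → ℝ} {c L T ε : ℝ}

lemma tE_nonneg : 0 ≤ tE D ε := Real.sInf_nonneg fun _ h => h.1

lemma AP.mem (h : AP D c L T) (hε : 0 < ε) (hL : ε ≤ L) :
    Real.log (L / ε) / c ∈ {t : ℝ | 0 ≤ t ∧ D t ≤ ε} := by
  have h1 : 0 ≤ Real.log (L / ε) / c :=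
    div_nonneg (Real.log_nonneg ((one_le_div hε).2 hL)) h.c0.le
  refine ⟨h1, (h.up _ h1).trans (le_of_eq ?_)⟩
  have hL0 : 0 < L := by linarith
  have hc := h.c0
  rw [show c * (Real.log (L / ε) / c) = Real.log (L / ε) by field_simp, Real.exp_neg,
    Real.exp_log (by positivity)]
  field_simp

lemma AP.tE_le (h : AP D c L T) (hε : 0 < ε) (hL : ε ≤ L) : c * tE D ε ≤ Real.log (L / ε) := by
  have h1 : tE D ε ≤ Real.log (L / ε) / c := csInf_le ⟨0, fun _ h => h.1⟩ (h.mem hε hL)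
  rw [le_div_iff₀ h.c0] at h1
  linarith

lemma AP.le_tE (h : AP D c L T) (hε : 0 < ε) (hL : ε ≤ L) :
    Real.log (L / (4 * (ε + 1))) ≤ c * tE D ε := by
  have hc := h.c0
  have hL1 := h.L1
  have h1 : Real.log (L / (4 * (ε + 1))) / c ≤ tE D ε := by
    refine le_csInf ⟨_, h.mem hε hL⟩ fun t ⟨h0, h2⟩ => ?_
    rw [div_le_iff₀ hc]
    by_cases hT : t ≤ T
    · have h3 := h.low t h0 hT
      rw [Real.log_le_iff_le_exp (by positivity), div_le_iff₀ (by positivity)]
      have h4 : Real.exp (-(c * t)) * L ≤ 4 * (ε + 1) := by linarith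
      have h5 := mul_le_mul_of_nonneg_left h4 (Real.exp_pos (t * c)).le
      rw [← mul_assoc, ← Real.exp_add, show t * c + -(c * t) = 0 by ring, Real.exp_zero] at h5
      linarith
    · have h3 : Real.log (L / (4 * (ε + 1))) ≤ Real.log L :=
        Real.log_le_log (by positivity) (div_le_self (by linarith) (by linarith))
      have h4 := Real.log_nonneg hL1
      have h5 := h.cT
      nlinarith [not_le.1 hT]
  rw [div_le_iff₀ hc] at h1
  linarith

lemma AP.exp_up (h : AP D c L T) (hε : 0 < ε) (hL : ε ≤ L) :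
    Real.exp (-(c * tE D ε)) * L ≤ 4 * (ε + 1) := by
  have h1 := h.le_tE hε hL
  have hL1 := h.L1
  have h2 : Real.exp (-(c * tE D ε)) ≤ Real.exp (-Real.log (L / (4 * (ε + 1)))) :=
    Real.exp_le_exp.2 (by linarith)
  rw [Real.exp_neg (Real.log _), Real.exp_log (by positivity)] at h2
  refine (mul_le_mul_of_nonneg_right h2 (by linarith)).trans (le_of_eq ?_)
  field_simp

lemma AP.exp_low (h : AP D c L T) (hε : 0 < ε) (hL : ε ≤ L) :
    ε ≤ Real.exp (-(c * tE D ε)) * L := by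
  have h1 := h.tE_le hε hL
  have hL1 := h.L1
  have h2 : Real.exp (-Real.log (L / ε)) ≤ Real.exp (-(c * tE D ε)) :=
    Real.exp_le_exp.2 (by linarith)
  rw [Real.exp_neg (Real.log _), Real.exp_log (by positivity)] at h2
  refine le_trans (le_of_eq ?_) (mul_le_mul_of_nonneg_right h2 (by linarith))
  field_simp

theorem asym {D : ℕ → ℝ → ℝ} {c L T g : ℕ → ℝ} (h : ∀ n, AP (D n) (c n) (L n) (T n))
    (hg : ∀ n, 3 / 4 ≤ g n) (hc : Tendsto c atTop (𝓝 0)) (hL : Tendsto L atTop atTop) :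
    Tendsto (fun n => D n 0) atTop atTop ∧ ∀ ε : ℝ, 0 < ε →
      Tendsto (fun n => g n * tE (D n) ε) atTop atTop ∧
      (∀ δ : ℝ, 0 < δ → δ < 1 → Tendsto (fun n => D n ((1 + δ) * tE (D n) ε)) atTop (𝓝 0) ∧
        Tendsto (fun n => D n ((1 - δ) * tE (D n) ε)) atTop atTop) ∧
      (∀ s : ℝ, ∀ᶠ n in atTop, 0 ≤ tE (D n) ε + s * (g n)⁻¹ ∧
        D n (tE (D n) ε + s * (g n)⁻¹) ≤ 8 * (ε + 1)) := by
  have hT : ∀ n, 0 ≤ T n := fun n => by
    have h1 := (h n).cT
    have h2 := Real.log_nonneg (h n).L1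
    have h3 := (h n).c0
    by_contra hh
    nlinarith [not_le.1 hh]
  refine ⟨?_, fun ε hε => ?_⟩
  · refine tendsto_atTop_mono (fun n => ?_)
      (tendsto_atTop_add_const_right _ (-1) (hL.atTop_div_const (show (0 : ℝ) < 4 by norm_num)))
    have := (h n).low 0 le_rfl (hT n)
    simp only [mul_zero, neg_zero, Real.exp_zero, one_mul] at this
    linarith
  have ev : ∀ᶠ n in atTop, ε ≤ L n := hL.eventually_ge_atTop ε
  have ev2 : ∀ᶠ n in atTop, 1 / ε ≤ L n := hL.eventually_ge_atTop _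
  have hct : Tendsto (fun n => c n * tE (D n) ε) atTop atTop := by
    refine tendsto_atTop_mono' _ (ev.mono fun n hn => (h n).le_tE hε hn) ?_
    exact Real.tendsto_log_atTop.comp (hL.atTop_div_const (by positivity))
  have htt : Tendsto (fun n => tE (D n) ε) atTop atTop := by
    refine tendsto_atTop_mono (fun n => ?_) hct
    have := (h n).c1
    nlinarith [tE_nonneg (D := D n) (ε := ε)]
  refine ⟨?_, fun δ d0 d1 => ⟨?_, ?_⟩, fun s => ?_⟩
  · refine tendsto_atTop_mono (fun n => ?_) (htt.const_mul_atTop (show (0 : ℝ) < 3 / 4 by norm_num))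
    exact mul_le_mul_of_nonneg_right (hg n) tE_nonneg
  · have t1 : Tendsto (fun n => 4 * (ε + 1) * Real.exp (-(δ * (c n * tE (D n) ε)))) atTop (𝓝 0) := by
      have := (Real.tendsto_exp_neg_atTop_nhds_zero.comp (hct.const_mul_atTop d0)).const_mul
        (4 * (ε + 1))
      simpa using this
    refine squeeze_zero' (Eventually.of_forall fun n => (h n).nn _ ?_) (ev.mono fun n hn => ?_) t1
    · exact mul_nonneg (by linarith) tE_nonneg
    · refine ((h n).up _ (mul_nonneg (by linarith) tE_nonneg)).trans ?_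
      have h1 := (h n).exp_up hε hn
      rw [show -(c n * ((1 + δ) * tE (D n) ε)) = -(c n * tE (D n) ε) + -(δ * (c n * tE (D n) ε)) by ring,
        Real.exp_add]
      nlinarith [Real.exp_pos (-(δ * (c n * tE (D n) ε)))]
  · have t1 : Tendsto (fun n => ε / 4 * Real.exp (δ * (c n * tE (D n) ε)) + -1) atTop atTop :=
      tendsto_atTop_add_const_right _ _
        ((Real.tendsto_exp_atTop.comp (hct.const_mul_atTop d0)).const_mul_atTop (by positivity))
    refine tendsto_atTop_mono' _ ((ev.and ev2).mono fun n hn => ?_) t1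
    have h0 : 0 ≤ tE (D n) ε := tE_nonneg
    have h1 := (h n).exp_low hε hn.1
    have h2 := (h n).tE_le hε hn.1
    have hL1 := (h n).L1
    have h3 : Real.log (L n / ε) ≤ 2 * Real.log (L n) := by
      rw [show 2 * Real.log (L n) = Real.log (L n * L n) by
        rw [Real.log_mul (by linarith) (by linarith)]; ring]
      refine Real.log_le_log (by positivity) ?_
      rw [div_eq_mul_one_div]
      exact mul_le_mul_of_nonneg_left hn.2 (by linarith)
    have h4 : tE (D n) ε ≤ T n := by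
      have h5 := (h n).cT
      exact le_of_mul_le_mul_left (by linarith) (h n).c0
    have h6 := (h n).low ((1 - δ) * tE (D n) ε) (mul_nonneg (by linarith) h0) (by nlinarith)
    rw [show -(c n * ((1 - δ) * tE (D n) ε)) = -(c n * tE (D n) ε) + δ * (c n * tE (D n) ε) by ring,
      Real.exp_add] at h6
    show _ ≤ D n _
    nlinarith [Real.exp_pos (δ * (c n * tE (D n) ε))]
  · have t1 : Tendsto (fun n => Real.exp (c n * (4 / 3 * |s|))) atTop (𝓝 1) := by
      have := (Real.continuous_exp.tendsto _).comp (hc.mul_const (4 / 3 * |s|))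
      simpa [Function.comp_def] using this
    filter_upwards [ev, htt.eventually_ge_atTop (4 / 3 * |s|),
      t1.eventually (ge_mem_nhds (show (1 : ℝ) < 2 by norm_num))] with n h1 h2 h3
    have g0 : 0 < g n := by linarith [hg n]
    have g1 : (g n)⁻¹ ≤ 4 / 3 := by
      rw [inv_le_comm₀ g0 (by norm_num)]
      linarith [hg n]
    have g2 : -(4 / 3 * |s|) ≤ s * (g n)⁻¹ := by
      have a1 := neg_abs_le s
      have a2 := abs_nonneg s
      have a3 : 0 < (g n)⁻¹ := inv_pos.2 g0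
      nlinarith
    have h4 : 0 ≤ tE (D n) ε + s * (g n)⁻¹ := by linarith
    refine ⟨h4, ((h n).up _ h4).trans ?_⟩
    have h5 := (h n).exp_up hε h1
    have h6 : Real.exp (-(c n * (tE (D n) ε + s * (g n)⁻¹)))
        ≤ Real.exp (-(c n * tE (D n) ε)) * Real.exp (c n * (4 / 3 * |s|)) := by
      rw [← Real.exp_add]
      refine Real.exp_le_exp.2 ?_
      nlinarith [(h n).c0]
    have hL1 := (h n).L1
    have h7 := mul_le_mul_of_nonneg_right h6 (show 0 ≤ L n by linarith)
    have h8 : 0 ≤ Real.exp (-(c n * tE (D n) ε)) * L n := by positivity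
    nlinarith

theorem exists_fam : ∃ (G : ℕ → Type) (_ : ∀ n, AddCommGroup (G n)) (_ : ∀ n, Fintype (G n))
    (_ : ∀ n, DecidableEq (G n)) (κ : ∀ n, G n → ℝ) (c L T : ℕ → ℝ),
    (∀ n, EP (κ n) (c n) (L n) (T n)) ∧ (∀ n, AP (fun t => kl (ht (κ n) t)) (c n) (L n) (T n)) ∧
      Tendsto c atTop (𝓝 0) ∧ Tendsto L atTop atTop := by
  have hp : ∀ n : ℕ, ∃ p, p.Prime ∧ 16 * (n + 64) ^ 2 < p ∧ p ≤ 2 * (16 * (n + 64) ^ 2) :=
    fun n => Nat.exists_prime_lt_and_le_two_mul _ (by positivity)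
  choose p p1 p2 p3 using hp
  set L : ℕ → ℝ := fun n => 4 * (((n + 64) ^ 2 : ℕ) : ℝ) * Real.log (p n) with hL
  set c : ℕ → ℝ := fun n => 4 * Real.log (L n) / (((n + 64) ^ 2 : ℕ) : ℝ) with hc
  have hlog : ∀ n, 1 ≤ Real.log (p n) := fun n => by
    rw [Real.le_log_iff_exp_le (by exact_mod_cast (p1 n).pos)]
    have h1 : 16 ≤ p n := by
      have := p2 n
      have h3 : 1 ≤ (n + 64) ^ 2 := Nat.one_le_pow _ _ (by omega)
      omega
    have h2 : (16 : ℝ) ≤ p n := by exact_mod_cast h1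
    linarith [Real.exp_one_lt_d9]
  have hL1 : ∀ n : ℕ, (n : ℝ) + 64 ≤ L n := fun n => by
    simp only [hL]; push_cast
    have := hlog n
    have h0 : (0 : ℝ) ≤ n := by positivity
    nlinarith [mul_le_mul_of_nonneg_left this (show 0 ≤ 4 * ((n : ℝ) + 64) ^ 2 by positivity)]
  have hL2 : ∀ n : ℕ, Real.log (L n) ≤ 16 * ((n : ℝ) + 64) := fun n => by
    have h0 : (0 : ℝ) ≤ n := by positivity
    have h1 : Real.log (p n) ≤ p n := (Real.log_le_sub_one_of_pos (by exact_mod_cast (p1 n).pos)).trans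
      (by linarith)
    have h2 : (p n : ℝ) ≤ 2 * (16 * ((n : ℝ) + 64) ^ 2) := by exact_mod_cast p3 n
    have h3 : L n ≤ (4 * ((n : ℝ) + 64)) ^ 4 := by
      simp only [hL]; push_cast
      have := mul_le_mul_of_nonneg_left (h1.trans h2) (show 0 ≤ 4 * ((n : ℝ) + 64) ^ 2 by positivity)
      nlinarith [pow_nonneg (show (0 : ℝ) ≤ n + 64 by positivity) 4]
    have h4 := Real.log_le_log (by linarith [hL1 n]) h3
    rw [Real.log_pow] at h4
    have h5 := Real.log_le_sub_one_of_pos (show 0 < 4 * ((n : ℝ) + 64) by positivity)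
    push_cast at h4
    linarith
  have hc0 : ∀ n, 0 < c n := fun n => by
    have h0 : (0 : ℝ) ≤ n := by positivity
    have := Real.log_pos (show 1 < L n by linarith [hL1 n])
    simp only [hc]; positivity
  have hc2 : ∀ n : ℕ, c n ≤ 64 / ((n : ℝ) + 64) := fun n => by
    have h0 : (0 : ℝ) ≤ n := by positivity
    simp only [hc]; push_cast
    rw [div_le_div_iff₀ (by positivity) (by positivity)]
    nlinarith [hL2 n]
  have hc1 : ∀ n, c n ≤ 1 := fun n => (hc2 n).trans (by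
    have h0 : (0 : ℝ) ≤ n := by positivity
    rw [div_le_one (by positivity)]; linarith)
  choose G i1 i2 i3 κ hκ using fun n : ℕ =>
    exists_ep ((n + 64) ^ 2) (p n) (by positivity) (p1 n) (p2 n) (c n) (hc0 n) (hc1 n)
  refine ⟨G, i1, i2, i3, κ, c, L, fun n => (((n + 64) ^ 2 : ℕ) : ℝ) / 2, hκ, fun n => ?_, ?_, ?_⟩
  · have h0 : (0 : ℝ) ≤ n := by positivity
    refine ⟨fun t h => (hκ n).nonneg h, (hκ n).up, (hκ n).low, hc0 n, hc1 n, by linarith [hL1 n], ?_⟩
    simp only [hc]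
    field_simp
    ring
  · refine squeeze_zero (fun n => (hc0 n).le) hc2 ?_
    exact Tendsto.const_div_atTop (tendsto_atTop_add_const_right _ _ tendsto_natCast_atTop_atTop) _
  · exact tendsto_atTop_mono hL1 (tendsto_atTop_add_const_right _ _ tendsto_natCast_atTop_atTop)

end

end Pool.Agent.H32.Cut
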