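import Pool.Agent.H32.Riesz

set_option autoImplicit false

namespace Pool.Agent.H32.Join

open Filter Topology MeasureTheory
open scoped ENNReal symmDiff

def sf {A : Type} (x : ℕ → A) (n : ℕ) : A := x (n + 1)

lemma gibbs {p q : ℝ} (hp : 0 ≤ p) (hq : 0 < q) : Real.negMulLog p ≤ p * -Real.log q + (q - p) := by
  rcases hp.eq_or_lt with rfl | hp
  · simp [hq.le]
  have := Real.log_le_sub_one_of_pos (div_pos hq hp)
  rw [Real.log_div hq.ne' hp.ne'] at this
  have h2 := mul_le_mul_of_nonneg_left this hp.le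
  rw [mul_sub p (q / p), mul_div_cancel₀ _ hp.ne'] at h2
  simp only [Real.negMulLog]
  linarith

lemma ent_le {m : ℕ} (μ : Measure (ℕ → Fin m)) [IsProbabilityMeasure μ]
    (hμ : MeasurePreserving sf μ μ) (a0 : Fin m) (k : ℕ) (r : (ℕ → Fin m) → ℝ) (hr : ∀ z, 0 < r z)
    (hk : ∀ z z', (∀ i ≤ k, z i = z' i) → r z = r z')
    (hs : ∀ z : ℕ → Fin m, ∑ a, r (fun n => Nat.casesOn n a z) ≤ 1) (n : ℕ) :
    ∑ w : Fin (k + n) → Fin m, Real.negMulLog (μ.real {x | ∀ i : Fin (k + n), x i = w i}) ≤
      k * Real.log m + n * ∫ z, -Real.log (r z) ∂μ := by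
  classical
  let ex : ∀ N, (Fin N → Fin m) → ℕ → Fin m := fun N w i => if h : i < N then w ⟨i, h⟩ else a0
  let q : ℕ → (ℕ → Fin m) → ℝ := fun n z => ∏ i ∈ Finset.range n, r (sf^[i] z)
  have hq : ∀ n z, 0 < q n z := fun n z => Finset.prod_pos fun i _ => hr _
  have hsum : ∀ n, ∑ w : Fin (k + n) → Fin m, q n (ex _ w) ≤ m ^ k := by
    intro n
    induction n with
    | zero => simp [q]
    | succ n ih =>
      refine le_trans ?_ ih
      have := (Fin.consEquiv fun _ : Fin (k + n + 1) => Fin m).sum_comp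
        fun w => q (n + 1) (ex (k + n + 1) w)
      refine this.symm.le.trans ?_
      rw [Fintype.sum_prod_type_right]
      refine Finset.sum_le_sum fun w _ => ?_
      have e : ∀ a, ex (k + n + 1) ((Fin.consEquiv fun _ : Fin (k + n + 1) => Fin m) (a, w)) =
          fun n' => Nat.casesOn n' a (ex _ w) := by
        intro a
        funext i
        cases i with
        | zero => simp [ex]
        | succ i =>
          by_cases hi : i < k + n
          · simp only [ex, hi, Nat.succ_lt_succ hi, dif_pos]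
            rfl
          · simp [ex, hi]
      have e2 : ∀ a, q (n + 1) (fun n' => Nat.casesOn n' a (ex _ w)) =
          q n (ex (k + n) w) * r (fun n' => Nat.casesOn n' a (ex _ w)) := fun a =>
        Finset.prod_range_succ' _ _
      simp only [e, e2, ← Finset.mul_sum]
      exact mul_le_of_le_one_right (hq n _).le (hs _)
  have sfi : ∀ i (z : ℕ → Fin m) j, sf^[i] z j = z (j + i) := by
    intro i
    induction i with
    | zero => exact fun _ _ => rfl
    | succ i ih => exact fun z j => by rw [Function.iterate_succ_apply, ih]; rfl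
  have rep : ∀ N (f : (ℕ → Fin m) → ℝ), (∀ z z', (∀ i < N, z i = z' i) → f z = f z') →
      Integrable f μ ∧ ∫ z, f z ∂μ = ∑ w : Fin N → Fin m,
        μ.real {x | ∀ i : Fin N, x i = w i} * f (ex N w) := by
    intro N f hf
    have mρ : Measurable fun (z : ℕ → Fin m) (i : Fin N) => z i := by fun_prop
    have e : f = fun z => f (ex N fun i : Fin N => z i) :=
      funext fun z => hf _ _ fun i hi => by simp [ex, hi]
    have hi : Integrable (fun w => f (ex N w)) (μ.map fun z (i : Fin N) => z i) := Integrable.of_finite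
    refine ⟨e ▸ (integrable_map_measure hi.1 mρ.aemeasurable).1 hi, ?_⟩
    conv_lhs => rw [e]
    rw [← integral_map (f := fun w => f (ex N w)) mρ.aemeasurable hi.1, integral_fintype hi]
    refine Finset.sum_congr rfl fun w _ => ?_
    rw [smul_eq_mul, map_measureReal_apply mρ (measurableSet_singleton _)]
    congr 2
    ext x
    simp [funext_iff]
  have hm : (0 : ℝ) < m := by exact_mod_cast a0.pos
  have h1 := (rep (k + n) (fun _ => 1) fun _ _ _ => rfl).2
  have h2 := (rep (k + n) (fun z => -Real.log (q n z)) fun z z' h => by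
    simp only [q]
    congr 2
    exact Finset.prod_congr rfl fun i hi => hk _ _ fun j hj => by
      rw [sfi, sfi, h _ (by have := Finset.mem_range.1 hi; omega)]).2
  have h3 := (rep (k + 1) (fun z => -Real.log (r z)) fun z z' h => by
    rw [hk z z' fun i hi => h i (by omega)]).1
  have h4 : ∫ z, -Real.log (q n z) ∂μ = n * ∫ z, -Real.log (r z) ∂μ := by
    have : ∀ z, -Real.log (q n z) = ∑ i ∈ Finset.range n, -Real.log (r (sf^[i] z)) := fun z => by
      rw [Real.log_prod fun i _ => (hr _).ne', Finset.sum_neg_distrib]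
    simp only [this]
    rw [integral_finsetSum (f := fun i z => -Real.log (r (sf^[i] z))) _
      fun i _ => (hμ.iterate i).integrable_comp_of_integrable h3,
      Finset.sum_congr rfl (g := fun _ => ∫ z, -Real.log (r z) ∂μ) fun i _ => ?_]
    · simp
    · rw [← integral_map (f := fun z => -Real.log (r z)) (hμ.iterate i).measurable.aemeasurable
        (by rw [(hμ.iterate i).map_eq]; exact h3.1), (hμ.iterate i).map_eq]
  refine (Finset.sum_le_sum fun w _ => gibbs (q := q n (ex _ w) / m ^ k) measureReal_nonneg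
    (div_pos (hq _ _) (by positivity))).trans ?_
  simp only [Real.log_div (hq _ _).ne' (pow_pos hm k).ne', Real.log_pow, neg_sub, mul_sub,
    Finset.sum_add_distrib, Finset.sum_sub_distrib, ← Finset.sum_mul, ← Finset.sum_div]
  simp only [integral_const, probReal_univ, smul_eq_mul, mul_one, mul_neg,
    Finset.sum_neg_distrib] at h1 h2
  have h5 := (div_le_one (pow_pos hm k)).2 (hsum n)
  rw [← h1, ← h4, h2]
  linarith

lemma msf {A : Type} [MeasurableSpace A] : Measurable (sf (A := A)) :=
  measurable_pi_lambda _ fun _ => measurable_pi_apply _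

noncomputable def ind {m : ℕ} (a : Fin m) (z : ℕ → Fin m) : ℝ := if z 0 = a then 1 else 0

lemma m_ind {m : ℕ} (a : Fin m) : Measurable (ind a) :=
  (Measurable.of_discrete (f := fun b => if b = a then (1 : ℝ) else 0)).comp (measurable_pi_apply 0)

lemma inno {m : ℕ} (μ : Measure (ℕ → Fin m)) [IsProbabilityMeasure μ]
    (hμ : MeasurePreserving sf μ μ) (a : Fin m) : ∃ Y : (ℕ → Fin m) → ℝ, Measurable Y ∧
      (∀ z, 0 ≤ Y z ∧ Y z ≤ 1) ∧ ∀ K : (ℕ → Fin m) → ℝ, Integrable K μ →
        ∫ z, (ind a z - Y (sf z)) * K (sf z) ∂μ = 0 := by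
  have hle : MeasurableSpace.pi.comap sf ≤ (MeasurableSpace.pi : MeasurableSpace (ℕ → Fin m)) :=
    msf.comap_le
  have b1 : ∀ z, 0 ≤ ind a z ∧ ind a z ≤ 1 := fun z => by unfold ind; split_ifs <;> simp
  have i1 : Integrable (ind a) μ := Integrable.of_bound (m_ind a).aestronglyMeasurable 1
    (ae_of_all _ fun z => by rw [Real.norm_eq_abs, abs_of_nonneg (b1 z).1]; exact (b1 z).2)
  obtain ⟨Y, mY, hY⟩ := (stronglyMeasurable_condExp (m := MeasurableSpace.pi.comap sf) (μ := μ)
    (f := ind a)).measurable.exists_eq_measurable_comp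
  have h0 : 0 ≤ᵐ[μ] μ[ind a | MeasurableSpace.pi.comap sf] := condExp_nonneg (ae_of_all _ fun z => (b1 z).1)
  have h1 : μ[ind a | MeasurableSpace.pi.comap sf] ≤ᵐ[μ] μ[fun _ => (1 : ℝ) | MeasurableSpace.pi.comap sf] :=
    condExp_mono i1 (integrable_const _) (ae_of_all _ fun z => (b1 z).2)
  rw [condExp_const hle] at h1
  have hc : ∀ᵐ z ∂μ, max 0 (min 1 (Y (sf z))) = (μ[ind a | MeasurableSpace.pi.comap sf]) z := by
    filter_upwards [h0, h1] with z k0 k1
    rw [hY] at k0 k1 ⊢
    exact (congrArg _ (min_eq_right k1)).trans (max_eq_right k0)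
  refine ⟨fun z => max 0 (min 1 (Y z)), by fun_prop, fun z => ⟨le_max_left _ _, by simp⟩,
    fun K hK => ?_⟩
  have e : ∀ᵐ z ∂μ, K (sf z) = hK.1.mk K (sf z) := hμ.quasiMeasurePreserving.ae hK.1.ae_eq_mk
  have hK' : Integrable (hK.1.mk K ∘ sf) μ := hμ.integrable_comp_of_integrable (hK.congr hK.1.ae_eq_mk)
  have sm : StronglyMeasurable[MeasurableSpace.pi.comap sf] (hK.1.mk K ∘ sf) :=
    hK.1.stronglyMeasurable_mk.comp_measurable (Measurable.of_comap_le le_rfl)
  have i2 : Integrable ((hK.1.mk K ∘ sf) * ind a) μ := hK'.mul_bdd (c := 1)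
    (m_ind a).aestronglyMeasurable
    (ae_of_all _ fun z => by rw [Real.norm_eq_abs, abs_of_nonneg (b1 z).1]; exact (b1 z).2)
  have k1 := condExp_mul_of_stronglyMeasurable_left sm i2 i1
  refine Eq.trans ?_ ((integral_sub i2 integrable_condExp).trans
    (sub_eq_zero.2 (integral_condExp hle).symm))
  refine integral_congr_ae ?_
  filter_upwards [e, hc, k1] with z e1 e2 e3
  rw [e3, e1, e2]
  simp only [Pi.mul_apply, Function.comp]
  ring

theorem exists_sys {m : ℕ} (μ : Measure (ℕ → Fin m)) [IsProbabilityMeasure μ]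
    (hμ : MeasurePreserving sf μ μ) {c : ℝ} (hc : 0 < c) (h : ∀ n : ℕ, c * n ≤
      ∑ w : Fin n → Fin m, Real.negMulLog (μ.real {x | ∀ i : Fin n, x i = w i})) :
    ∃ (s : Sys (ℕ → Fin m)) (a : Fin m), s.μ = μ ∧ s.σ = sf ∧ ∫ z, s.φ z * ind a z ∂μ ≠ 0 := by
  classical
  choose Y mY bY hY using inno μ hμ
  have b1 : ∀ (a : Fin m) z, |ind a z - Y a (sf z)| ≤ 1 := fun a z => by
    have := bY a (sf z)
    unfold ind
    split_ifs <;> rw [abs_le] <;> constructor <;> linarith
  have m1 : ∀ a, Measurable fun z => ind a z - Y a (sf z) := fun a =>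
    (m_ind a).sub ((mY a).comp msf)
  by_contra hcon
  push Not at hcon
  have hz : ∀ a, ∀ᵐ z ∂μ, ind a z = Y a (sf z) := by
    intro a
    have k1 := hcon ⟨μ, inferInstance, sf, hμ, _, m1 a, b1 a, hY a⟩ a rfl rfl
    have iY : Integrable (Y a) μ := Integrable.of_bound (mY a).aestronglyMeasurable 1
      (ae_of_all _ fun z => by rw [Real.norm_eq_abs, abs_of_nonneg (bY a z).1]; exact (bY a z).2)
    have k2 := hY a _ iY
    have i1 : Integrable (fun z => ind a z - Y a (sf z)) μ :=
      Integrable.of_bound (m1 a).aestronglyMeasurable 1 (ae_of_all _ (b1 a))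
    have i2 := i1.mul_bdd (c := 1) (m_ind a).aestronglyMeasurable
      (ae_of_all _ fun z => by unfold ind; split_ifs <;> simp)
    have i3 := i1.mul_bdd (c := 1) (g := fun z => Y a (sf z))
      ((mY a).comp msf).aestronglyMeasurable (ae_of_all _ fun z => by
      rw [Real.norm_eq_abs, abs_of_nonneg (bY a _).1]; exact (bY a _).2)
    have k3 : ∫ z, (ind a z - Y a (sf z)) * (ind a z - Y a (sf z)) ∂μ = 0 := by
      simp only [mul_sub (ind a _ - _)]
      exact (integral_sub i2 i3).trans (sub_eq_zero.2 (k1.trans k2.symm))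
    rw [integral_eq_zero_iff_of_nonneg (fun z => mul_self_nonneg _)
      (i1.mul_bdd (m1 a).aestronglyMeasurable (ae_of_all _ (b1 a)))] at k3
    filter_upwards [k3] with z hz
    exact sub_eq_zero.1 (mul_self_eq_zero.1 hz)
  obtain ⟨z0⟩ := nonempty_of_isProbabilityMeasure μ
  have hm : (1 : ℝ) ≤ m := by exact_mod_cast (z0 0).pos
  set η := 1 - Real.exp (-(c / 3)) with hη
  have η0 : 0 < η := sub_pos.2 (Real.exp_lt_one_iff.2 (by linarith))
  have η1 : η < 1 := sub_lt_self _ (Real.exp_pos _)
  have l0 : 0 ≤ Real.log (m / η) := Real.log_nonneg ((one_le_div η0).2 (by linarith))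
  set ε := c / 3 / (m * (Real.log (m / η) + 1)) with hε
  have ε0 : 0 < ε := by positivity
  have hC : ∀ a, ∃ t ∈ measurableCylinders fun _ : ℕ => Fin m,
      μ (t ∆ (Y a ⁻¹' {1})) < ENNReal.ofReal ε := fun a =>
    exists_measure_symmDiff_lt_of_generateFrom_isSetRing isSetRing_measurableCylinders
      ⟨{Set.univ}, Set.countable_singleton _, by simpa using univ_mem_measurableCylinders fun _ : ℕ => Fin m, by simp⟩
      generateFrom_measurableCylinders.symm (mY a (measurableSet_singleton _))
      (ENNReal.ofReal_pos.2 ε0)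
  choose C hC1 hC2 using hC
  choose s S mS hS using fun a => (mem_measurableCylinders _).1 (hC1 a)
  obtain ⟨k, hk⟩ := (Finset.univ.biUnion s).bddAbove
  let g : (ℕ → Fin m) → Fin m := fun z => if h : ∃ a, z ∈ C a then h.choose else z0 0
  let r : (ℕ → Fin m) → ℝ := fun z => if z 0 = g (sf z) then 1 - η else η / m
  have dep : ∀ z z' : ℕ → Fin m, (∀ i ≤ k + 1, z i = z' i) → r z = r z' := by
    intro z z' hzz
    have : ∀ a, sf z ∈ C a ↔ sf z' ∈ C a := fun a => by
      rw [hS, mem_cylinder, mem_cylinder, show (s a).restrict (sf z) = (s a).restrict (sf z') from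
        funext fun i => hzz _ (Nat.succ_le_succ (hk (Finset.mem_coe.2
          (Finset.mem_biUnion.2 ⟨a, Finset.mem_univ _, i.2⟩))))]
    simp only [r, g, this, hzz 0 (by omega)]
  have key := ent_le μ hμ (z0 0) (k + 1) r (fun z => by
    simp only [r]
    split_ifs
    · linarith
    · positivity) dep (fun z => by
      refine (Finset.sum_le_sum (g := fun a => (if a = g z then 1 - η else 0) + η / m)
        fun a _ => ?_).trans ?_
      · change (if a = g z then _ else _) ≤ _
        have : 0 < η / m := by positivity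
        split_ifs <;> linarith
      · rw [Finset.sum_add_distrib]
        simp [mul_div_cancel₀ η (show (m : ℝ) ≠ 0 by positivity)])
  have mB : ∀ a, MeasurableSet (C a ∆ (Y a ⁻¹' {1})) := fun a =>
    (MeasurableSet.of_mem_measurableCylinders (hC1 a)).symmDiff (mY a (measurableSet_singleton _))
  have iB : ∀ a, Integrable ((sf ⁻¹' (C a ∆ (Y a ⁻¹' {1}))).indicator (1 : (ℕ → Fin m) → ℝ)) μ :=
    fun a => (integrable_const (1 : ℝ)).indicator (msf (mB a))
  have hint : ∫ z, -Real.log (r z) ∂μ ≤ 2 * c / 3 := by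
    refine (integral_mono_of_nonneg (g := fun z => c / 3 + Real.log (m / η) *
      ∑ a, (sf ⁻¹' (C a ∆ (Y a ⁻¹' {1}))).indicator 1 z) (ae_of_all _ fun z => ?_)
      ((integrable_const _).add ((integrable_finsetSum _ fun a _ => iB a).const_mul _)) ?_).trans ?_
    · refine neg_nonneg.2 (Real.log_nonpos ?_ ?_) <;> simp only [r] <;> split_ifs
      · linarith
      · positivity
      · linarith
      · exact (div_le_one (by linarith)).2 (by linarith)
    · filter_upwards [ae_all_iff.2 hz] with z hz
      have p0 : ∀ a, 0 ≤ (sf ⁻¹' (C a ∆ (Y a ⁻¹' {1}))).indicator (1 : (ℕ → Fin m) → ℝ) z :=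
        fun a => Set.indicator_nonneg (fun _ _ => zero_le_one) _
      have p1 := Finset.sum_nonneg fun a (_ : a ∈ Finset.univ) => p0 a
      simp only [r]
      split_ifs with h1
      · rw [hη, sub_sub_cancel, Real.log_exp]
        nlinarith
      · have : ∃ a, z ∈ sf ⁻¹' (C a ∆ (Y a ⁻¹' {1})) := by
          by_contra hn
          simp only [Set.mem_preimage, Set.mem_symmDiff, not_exists, not_or, not_and, not_not,
            Set.mem_singleton_iff, ← hz] at hn
          have e1 : ∃ a, sf z ∈ C a := ⟨z 0, (hn _).2 (by simp [ind])⟩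
          have e2 := (hn _).1 e1.choose_spec
          apply h1
          simp only [g, dif_pos e1]
          by_contra e3
          simp [ind, e3] at e2
        obtain ⟨a, ha⟩ := this
        have p2 := Finset.single_le_sum (fun a (_ : a ∈ Finset.univ) => p0 a) (Finset.mem_univ a)
        rw [Set.indicator_of_mem ha, Pi.one_apply] at p2
        rw [← Real.log_inv, inv_div]
        nlinarith
    · rw [integral_add (integrable_const _) ((integrable_finsetSum _ fun a _ => iB a).const_mul _),
        integral_const_mul, integral_finsetSum _ fun a _ => iB a]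
      have : ∑ a, ∫ z, (sf ⁻¹' (C a ∆ (Y a ⁻¹' {1}))).indicator (1 : (ℕ → Fin m) → ℝ) z ∂μ ≤
          m * ε := by
        refine (Finset.sum_le_card_nsmul _ _ ε fun a _ => ?_).trans (by simp)
        rw [integral_indicator_one (msf (mB a)), Measure.real,
          hμ.measure_preimage (mB a).nullMeasurableSet]
        exact ENNReal.toReal_le_of_le_ofReal ε0.le (hC2 a).le
      have e : m * ε * (Real.log (m / η) + 1) = c / 3 := by
        rw [hε]
        field_simp
      simp only [integral_const, probReal_univ, smul_eq_mul, one_mul]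
      have : 0 ≤ m * ε := by positivity
      nlinarith
  obtain ⟨n, hn⟩ := exists_nat_gt ((k + 1 : ℕ) * Real.log m / (c / 3))
  rw [div_lt_iff₀ (by positivity)] at hn
  have k1 := (h _).trans (key n)
  have k2 : (0 : ℝ) ≤ n := by positivity
  have k3 : (0 : ℝ) ≤ (k + 1 : ℕ) := by positivity
  rw [Nat.cast_add (k + 1) n] at k1
  nlinarith

end Pool.Agent.H32.Join
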