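import Mathlib

/-! The erasing substitution map on the unit interval: definitions and binary expansions. -/

namespace Pool.Agent.H32.Er
open Set

/-- The sequence is not eventually zero. -/
def InfOnes (b : ℕ → Bool) : Prop := ∀ N, ∃ k, N ≤ k ∧ b k = true

/-- The real number with binary digits `b` (index `k` is position `k + 1`). -/
noncomputable def val (b : ℕ → Bool) : ℝ := ∑' k, (if b k = true then 1 else 0 : ℝ) / 2 ^ (k + 1)

/-- The binary expansion of `x` that is not eventually zero. -/
noncomputable def beta (x : ℝ) : ℕ → Bool := Classical.epsilon fun b => InfOnes b ∧ val b = x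

/-- The substitution: the `j`-th surviving symbol comes from the `j`-th digit one, at index `k`
(position `k + 1`); it is zero for odd positions and one for even positions. -/
noncomputable def rho (b : ℕ → Bool) (j : ℕ) : Bool :=
  decide (Even (Nat.nth (fun k => b k = true) j + 1))

open Classical in
/-- The interval map. -/
noncomputable def R (x : ℝ) : ℝ := if x = 0 then 2 / 3 else val (rho (beta x))

/-- Points of the unit interval whose orbit is dense in the unit interval. -/
def E : Set ℝ := {x | x ∈ Icc (0 : ℝ) 1 ∧ Icc (0 : ℝ) 1 ⊆ closure (range fun n => R^[n] x)}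

noncomputable def T (x : ℝ) : ℝ := if 1 / 2 < x then 2 * x - 1 else 2 * x
noncomputable def bx (x : ℝ) (k : ℕ) : Bool := decide (1 / 2 < T^[k] x)
def W (b : ℕ → Bool) (k : ℕ) : List Bool := (List.range k).map b
def sh (b : ℕ → Bool) : ℕ → Bool := fun i => b (i + 1)
noncomputable def lo : List Bool → ℝ
  | [] => 0
  | a :: v => ((if a = true then 1 else 0) + lo v) / 2

@[simp] lemma W_zero (b : ℕ → Bool) : W b 0 = [] := rfl
@[simp] lemma W_len (b : ℕ → Bool) (k : ℕ) : (W b k).length = k := by simp [W]
lemma W_cons (b : ℕ → Bool) (k : ℕ) : W b (k + 1) = b 0 :: W (sh b) k := by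
  simp [W, List.range_succ_eq_map, sh, Function.comp_def]
lemma W_snoc (b : ℕ → Bool) (k : ℕ) : W b (k + 1) = W b k ++ [b k] := by
  simp [W, List.range_succ]

lemma lo_bd (v : List Bool) : 0 ≤ lo v ∧ lo v + (1 / 2) ^ v.length ≤ 1 := by
  induction v with
  | nil => simp [lo]
  | cons a v ih =>
    simp only [lo, List.length_cons, pow_succ]
    cases a <;> simp only [Bool.false_eq_true, if_false, if_true] <;> constructor <;>
      linarith [ih.1, ih.2]

lemma sh_bx (x : ℝ) : sh (bx x) = bx (T x) := by
  funext i; rfl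

lemma T_mem {x : ℝ} (hx : x ∈ Ioc (0 : ℝ) 1) : T x ∈ Ioc (0 : ℝ) 1 := by
  unfold T; split_ifs with h <;> constructor <;> linarith [hx.1, hx.2]

lemma mem_J (v : List Bool) : ∀ x : ℝ, x ∈ Ioc (lo v) (lo v + (1 / 2) ^ v.length) ↔
    x ∈ Ioc (0 : ℝ) 1 ∧ W (bx x) v.length = v := by
  induction v with
  | nil => intro x; simp [lo]
  | cons a v ih =>
    intro x
    have hb := lo_bd v
    have hp : (0 : ℝ) < (1 / 2) ^ v.length := by positivity
    rw [List.length_cons, W_cons, sh_bx, List.cons.injEq]
    have h0 : bx x 0 = decide (1 / 2 < x) := rfl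
    rw [h0]
    have ih' := ih (T x)
    simp only [lo, pow_succ, mem_Ioc] at ih' ⊢
    constructor
    · rintro ⟨h1, h2⟩
      cases a
      · simp only [Bool.false_eq_true, if_false] at h1 h2
        have hx : ¬ (1 / 2 < x) := by linarith [hb.2]
        have hT : T x = 2 * x := by simp only [T, if_neg hx]
        refine ⟨⟨by linarith [hb.1], by linarith [hb.2]⟩, by simp only [hx, decide_false], ?_⟩
        exact (ih'.1 ⟨by rw [hT]; linarith, by rw [hT]; linarith⟩).2
      · simp only [if_true] at h1 h2
        have hx : (1 / 2 < x) := by linarith [hb.1]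
        have hT : T x = 2 * x - 1 := by simp only [T, if_pos hx]
        refine ⟨⟨by linarith [hb.1], by linarith [hb.2]⟩, by simp only [hx, decide_true], ?_⟩
        exact (ih'.1 ⟨by rw [hT]; linarith, by rw [hT]; linarith⟩).2
    · rintro ⟨hx, ha, hv⟩
      have h3 := ih'.2 ⟨T_mem hx, hv⟩
      by_cases h : 1 / 2 < x
      · have hT : T x = 2 * x - 1 := by simp only [T, if_pos h]
        rw [hT] at h3
        simp only [h, decide_true] at ha
        subst ha
        simp only [if_true]
        constructor <;> linarith [h3.1, h3.2]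
      · have hT : T x = 2 * x := by simp only [T, if_neg h]
        rw [hT] at h3
        simp only [h, decide_false] at ha
        subst ha
        simp only [Bool.false_eq_true, if_false]
        constructor <;> linarith [h3.1, h3.2]

lemma summ (b : ℕ → Bool) :
    Summable fun k => (if b k = true then 1 else 0 : ℝ) / 2 ^ (k + 1) := by
  refine Summable.of_nonneg_of_le (fun k => by split_ifs <;> positivity) (fun k => ?_)
    (summable_geometric_two' 1)
  rw [div_div, ← pow_succ']
  split_ifs
  · exact le_rfl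
  · rw [zero_div]; positivity

lemma val_le (b : ℕ → Bool) : 0 ≤ val b ∧ val b ≤ 1 := by
  refine ⟨tsum_nonneg fun k => by split_ifs <;> positivity, ?_⟩
  rw [← tsum_geometric_two' 1]
  refine (summ b).tsum_le_tsum (fun k => ?_) (summable_geometric_two' 1)
  rw [div_div, ← pow_succ']
  split_ifs
  · exact le_rfl
  · rw [zero_div]; positivity

lemma val_pos {b : ℕ → Bool} (hb : InfOnes b) : 0 < val b := by
  obtain ⟨k, -, hk⟩ := hb 0
  refine (summ b).tsum_pos (fun k => by split_ifs <;> positivity) k ?_
  rw [if_pos hk]; positivity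

lemma val_sh (b : ℕ → Bool) : val b = ((if b 0 = true then 1 else 0) + val (sh b)) / 2 := by
  unfold val
  rw [(summ b).tsum_eq_zero_add, add_div, ← tsum_div_const]
  congr 1
  · norm_num
  · refine tsum_congr fun k => ?_
    rw [div_div, ← pow_succ]; rfl

lemma val_Icc (k : ℕ) : ∀ b, val b ∈ Icc (lo (W b k)) (lo (W b k) + (1 / 2) ^ k) := by
  induction k with
  | zero => intro b; simpa [lo] using val_le b
  | succ k ih =>
    intro b
    have := ih (sh b)
    rw [W_cons, val_sh b]
    simp only [lo, pow_succ, mem_Icc] at this ⊢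
    constructor <;> linarith [this.1, this.2]

lemma InfOnes.sh {b : ℕ → Bool} (hb : InfOnes b) : InfOnes (sh b) := by
  intro N
  obtain ⟨k, hk, h⟩ := hb (N + 1)
  obtain ⟨j, rfl⟩ : ∃ j, k = j + 1 := ⟨k - 1, by omega⟩
  exact ⟨j, by omega, h⟩

lemma val_Ioc (k : ℕ) : ∀ b, InfOnes b →
    val b ∈ Ioc (lo (W b k)) (lo (W b k) + (1 / 2) ^ k) := by
  induction k with
  | zero => intro b hb; simpa [lo] using ⟨val_pos hb, (val_le b).2⟩
  | succ k ih =>
    intro b hb
    have := ih (sh b) hb.sh
    rw [W_cons, val_sh b]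
    simp only [lo, pow_succ, mem_Ioc] at this ⊢
    constructor <;> linarith [this.1, this.2]

lemma W_inj {b c : ℕ → Bool} (h : ∀ k, W b k = W c k) : b = c := by
  funext k
  have := h (k + 1)
  rw [W_snoc, W_snoc, h k] at this
  simpa using this

lemma bx_val {b : ℕ → Bool} (hb : InfOnes b) : bx (val b) = b := by
  refine W_inj fun k => ?_
  have h := (mem_J (W b k) (val b)).1 (by simpa using val_Ioc k b hb)
  simpa using h.2

lemma mem_self {x : ℝ} (hx : x ∈ Ioc (0 : ℝ) 1) (k : ℕ) :
    x ∈ Ioc (lo (W (bx x) k)) (lo (W (bx x) k) + (1 / 2) ^ k) := by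
  have := (mem_J (W (bx x) k) x).2 ⟨hx, by simp⟩
  simpa using this

lemma small {d : ℝ} (hd : 0 < d) : ∃ k : ℕ, (1 / 2 : ℝ) ^ k < d :=
  exists_pow_lt_of_lt_one hd (by norm_num)

lemma val_bx {x : ℝ} (hx : x ∈ Ioc (0 : ℝ) 1) : val (bx x) = x := by
  by_contra hne
  obtain ⟨k, hk⟩ := small (abs_pos.2 (sub_ne_zero.2 hne))
  have h1 := mem_self hx k
  have h2 := val_Icc k (bx x)
  have : |val (bx x) - x| ≤ (1 / 2) ^ k :=
    abs_le.2 ⟨by linarith [h1.2, h2.1], by linarith [h1.1, h2.2]⟩
  linarith

lemma inf_bx {x : ℝ} (hx : x ∈ Ioc (0 : ℝ) 1) : InfOnes (bx x) := by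
  intro N
  by_contra hn
  push Not at hn
  have hy : T^[N] x ∈ Ioc (0 : ℝ) 1 := by
    clear hn
    induction N with
    | zero => exact hx
    | succ n ih => rw [Function.iterate_succ_apply']; exact T_mem ih
  have h1 := val_bx hy
  have h2 : ∀ k, ¬ (bx (T^[N] x) k = true) := fun k => by
    have := hn (k + N) (by omega)
    simpa only [bx, Function.iterate_add_apply] using this
  have : val (bx (T^[N] x)) = 0 := by
    unfold val; simp [h2]
  linarith [hy.1]

lemma beta_eq {x : ℝ} (hx : x ∈ Ioc (0 : ℝ) 1) : beta x = bx x := by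
  have h : InfOnes (beta x) ∧ val (beta x) = x :=
    Classical.epsilon_spec (p := fun b => InfOnes b ∧ val b = x) ⟨bx x, inf_bx hx, val_bx hx⟩
  rw [← bx_val h.1, h.2]

lemma R_val {b : ℕ → Bool} (hb : InfOnes b) : R (val b) = val (rho b) := by
  unfold R
  rw [if_neg (val_pos hb).ne', beta_eq ⟨val_pos hb, (val_le b).2⟩, bx_val hb]

/-- A sequence all of whose images are not eventually zero and visit every cylinder. -/
def Good (b : ℕ → Bool) : Prop :=
  (∀ n, InfOnes (rho^[n] b)) ∧ ∀ w : List Bool, ∃ n, W (rho^[n] b) w.length = w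

lemma mem_E {x : ℝ} (hx : x ∈ Ioc (0 : ℝ) 1) (hg : Good (bx x)) : x ∈ E := by
  have hR : ∀ n, R^[n] x = val (rho^[n] (bx x)) := by
    intro n
    induction n with
    | zero => exact (val_bx hx).symm
    | succ n ih => rw [Function.iterate_succ_apply', Function.iterate_succ_apply', ih,
        R_val (hg.1 n)]
  refine ⟨⟨hx.1.le, hx.2⟩, ?_⟩
  rw [← closure_Ioc (zero_ne_one' ℝ)]
  refine closure_minimal (fun y hy => ?_) isClosed_closure
  rw [Metric.mem_closure_iff]
  intro d hd
  obtain ⟨k, hk⟩ := small hd
  obtain ⟨n, hn⟩ := hg.2 (W (bx y) k)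
  refine ⟨_, ⟨n, rfl⟩, ?_⟩
  have h1 := mem_self hy k
  have h2 := val_Icc k (rho^[n] (bx x))
  rw [W_len] at hn
  rw [hn] at h2
  simp only [hR, Real.dist_eq]
  exact lt_of_le_of_lt (abs_le.2 ⟨by linarith [h1.1, h2.2], by linarith [h1.2, h2.1]⟩) hk

/-- The substitution on finite words. -/
def rw (v : List Bool) : List Bool :=
  ((List.range v.length).filter fun i => v.getD i false).map fun i => decide (Even (i + 1))

@[simp] lemma rw_nil : rw [] = [] := rfl

lemma rw_snoc (v : List Bool) (a : Bool) :
    rw (v ++ [a]) = rw v ++ if a = true then [decide (Even (v.length + 1))] else [] := by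
  unfold rw
  rw [List.length_append, List.length_singleton, List.range_succ, List.filter_append,
    List.map_append]
  congr 1
  · congr 1
    refine List.filter_congr fun i hi => ?_
    rw [List.mem_range] at hi
    simp [List.getD_eq_getElem?_getD, List.getElem?_append_left hi]
  · cases a <;> simp [List.getD_eq_getElem?_getD]

lemma rw_W (b : ℕ → Bool) (k : ℕ) :
    rw (W b k) = W (rho b) (Nat.count (fun i => b i = true) k) := by
  induction k with
  | zero => rfl
  | succ k ih =>
    rw [W_snoc, rw_snoc, ih, Nat.count_succ]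
    by_cases h : b k = true
    · rw [if_pos h, if_pos h, W_snoc, W_len]
      congr 2
      unfold rho
      rw [Nat.nth_count (p := fun i => b i = true) h]
    · rw [if_neg h, if_neg h]; simp

/-- Cylinders. -/
def cyl (v : List Bool) : Set (ℕ → Bool) := {b | W b v.length = v}

lemma rho_cyl {v : List Bool} {b : ℕ → Bool} (h : b ∈ cyl v) : rho b ∈ cyl (rw v) := by
  have h1 := rw_W b v.length
  rw [show W b v.length = v from h] at h1
  show W _ _ = _
  rw [h1, W_len]

lemma iter_cyl (n : ℕ) {v : List Bool} {b : ℕ → Bool} (h : b ∈ cyl v) :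
    rho^[n] b ∈ cyl (rw^[n] v) := by
  induction n with
  | zero => exact h
  | succ n ih => rw [Function.iterate_succ_apply', Function.iterate_succ_apply']; exact rho_cyl ih

lemma mem_cyl_snoc (v : List Bool) (a : Bool) (b : ℕ → Bool) :
    b ∈ cyl (v ++ [a]) ↔ b ∈ cyl v ∧ b v.length = a := by
  simp only [cyl, mem_ofPred_eq, List.length_append, List.length_singleton, W_snoc]
  constructor
  · intro h
    have := List.append_inj' h rfl
    exact ⟨this.1, by simpa using this.2⟩
  · rintro ⟨h1, h2⟩; rw [h1, h2]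

lemma cyl_anti (v s : List Bool) : cyl (v ++ s) ⊆ cyl v := by
  induction s using List.reverseRecOn with
  | nil => simp
  | append_singleton s a ih =>
    intro b hb
    rw [← List.append_assoc, mem_cyl_snoc] at hb
    exact ih hb.1

end Pool.Agent.H32.Er
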