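import Pool.Agent.H32.Erase

/-! Finite-word combinatorics of the erasing substitution, and the category statement. -/

namespace Pool.Agent.H32.Er
open Set

lemma rw_open (t : List Bool) : ∀ v, ∃ s, rw (v ++ s) = rw v ++ t := by
  induction t with
  | nil => intro v; exact ⟨[], by simp⟩
  | cons a t ih =>
    intro v
    have h1 : ∃ s, rw (v ++ s) = rw v ++ [a] := by
      by_cases h : decide (Even (v.length + 1)) = a
      · exact ⟨[true], by rw [rw_snoc, if_pos rfl, h]⟩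
      · refine ⟨[false] ++ [true], ?_⟩
        rw [← List.append_assoc, rw_snoc, rw_snoc, if_pos rfl, if_neg (by simp)]
        simp only [List.append_nil, List.length_append, List.length_singleton]
        congr 2
        have := Nat.even_add_one (n := v.length + 1)
        cases a <;> simp only [this] <;> simpa using h
    obtain ⟨s, hs⟩ := h1
    obtain ⟨s', hs'⟩ := ih (v ++ s)
    exact ⟨s ++ s', by rw [← List.append_assoc, hs', hs]; simp⟩

lemma iter_open (n : ℕ) : ∀ v t, ∃ s, rw^[n] (v ++ s) = rw^[n] v ++ t := by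
  induction n with
  | zero => intro v t; exact ⟨t, rfl⟩
  | succ n ih =>
    intro v t
    obtain ⟨s', hs'⟩ := ih (rw v) t
    obtain ⟨s, hs⟩ := rw_open s' v
    exact ⟨s, by rw [Function.iterate_succ_apply, Function.iterate_succ_apply, hs, hs']⟩

lemma r2_even {v : List Bool} (hv : Even v.length) (a : Bool) :
    rw (rw (v ++ [a])) = rw (rw v) := by
  rw [rw_snoc]
  cases a
  · simp
  · have : decide (Even (v.length + 1)) = false := by
      simp only [decide_eq_false_iff_not, Nat.even_add_one, not_not]; exact hv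
    rw [if_pos rfl, this, rw_snoc]; simp

lemma r2_le (v : List Bool) (a : Bool) :
    (rw (rw (v ++ [a]))).length ≤ (rw (rw v)).length + 1 := by
  rw [rw_snoc]
  cases a
  · simp
  · rw [if_pos rfl, rw_snoc]; split_ifs <;> simp

lemma r2_len (v : List Bool) : 2 * (rw (rw v)).length ≤ v.length := by
  induction v using List.reverseRecOn with
  | nil => simp
  | append_singleton v a ih =>
    rw [List.length_append, List.length_singleton]
    by_cases hv : Even v.length
    · rw [r2_even hv]; omega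
    · have := r2_le v a
      rw [Nat.not_even_iff_odd, Nat.odd_iff] at hv
      omega

lemma erase (k : ℕ) : ∀ v : List Bool, v.length ≤ k → ∃ n, rw^[n] v = [] := by
  induction k with
  | zero => intro v hv; exact ⟨0, List.length_eq_zero_iff.1 (Nat.le_zero.1 hv)⟩
  | succ k ih =>
    intro v hv
    have := r2_len v
    obtain ⟨n, hn⟩ := ih (rw (rw v)) (by omega)
    exact ⟨n + 1 + 1, by rw [Function.iterate_succ_apply, Function.iterate_succ_apply, hn]⟩

lemma generic (Q : List Bool → Prop) (hQ : ∀ v, ∃ s, Q (v ++ s)) :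
    {x : Icc (0 : ℝ) 1 | x.1 ∈ Ioc (0 : ℝ) 1 ∧ ∃ v, Q v ∧ bx x.1 ∈ cyl v} ∈
      residual (Icc (0 : ℝ) 1) := by
  let U : Set ℝ := ⋃ v : {v // Q v}, Ioo (lo v.1) (lo v.1 + (1 / 2) ^ v.1.length)
  have hU : IsOpen U := isOpen_iUnion fun v => isOpen_Ioo
  have hsub : ∀ x ∈ U, x ∈ Ioc (0 : ℝ) 1 ∧ ∃ v, Q v ∧ bx x ∈ cyl v := by
    intro x hx
    obtain ⟨v, hv⟩ := mem_iUnion.1 hx
    have := (mem_J v.1 x).1 (Ioo_subset_Ioc_self hv)
    exact ⟨this.1, v.1, v.2, this.2⟩
  refine Filter.mem_of_superset (residual_of_dense_open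
    (s := Subtype.val ⁻¹' U) (hU.preimage continuous_subtype_val) ?_) fun x hx => hsub _ hx
  rw [Subtype.dense_iff]
  conv_lhs => rw [← closure_Ioc (zero_ne_one' ℝ)]
  refine closure_minimal (fun y hy => ?_) isClosed_closure
  rw [Metric.mem_closure_iff]
  intro d hd
  obtain ⟨k, hk⟩ := small hd
  obtain ⟨s, hs⟩ := hQ (W (bx y) k)
  set v := W (bx y) k ++ s with hv
  have hp : (0 : ℝ) < (1 / 2) ^ v.length := by positivity
  set x := lo v + (1 / 2) ^ v.length / 2 with hx
  have hxI : x ∈ Ioo (lo v) (lo v + (1 / 2) ^ v.length) := ⟨by linarith, by linarith⟩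
  have hxU : x ∈ U := mem_iUnion.2 ⟨⟨v, hs⟩, hxI⟩
  have h1 := (mem_J v x).1 (Ioo_subset_Ioc_self hxI)
  refine ⟨x, ⟨⟨x, h1.1.1.le, h1.1.2⟩, hxU, rfl⟩, ?_⟩
  have h2 : bx x ∈ cyl (W (bx y) k) := cyl_anti _ s h1.2
  have h3 := (mem_J (W (bx y) k) x).2 ⟨h1.1, h2⟩
  have h4 := mem_self hy k
  rw [W_len] at h3
  rw [Real.dist_eq]
  exact lt_of_le_of_lt (abs_le.2 ⟨by linarith [h3.2, h4.1], by linarith [h3.1, h4.2]⟩) hk

theorem comeagre : IsMeagre {x : Icc (0 : ℝ) 1 | x.1 ∉ E} := by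
  have hA : ∀ p : ℕ × ℕ, {x : Icc (0 : ℝ) 1 | x.1 ∈ Ioc (0 : ℝ) 1 ∧ ∃ v, (∃ u : List Bool,
      p.2 ≤ u.length ∧ rw^[p.1] v = u ++ [true]) ∧ bx x.1 ∈ cyl v} ∈ residual (Icc (0 : ℝ) 1) := by
    intro p
    refine generic _ fun v => ?_
    obtain ⟨s, hs⟩ := iter_open p.1 v (List.replicate p.2 true ++ [true])
    exact ⟨s, rw^[p.1] v ++ List.replicate p.2 true, by simp, by rw [hs, List.append_assoc]⟩
  have hB : ∀ w : List Bool, {x : Icc (0 : ℝ) 1 | x.1 ∈ Ioc (0 : ℝ) 1 ∧ ∃ v,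
      (∃ n, rw^[n] v = w) ∧ bx x.1 ∈ cyl v} ∈ residual (Icc (0 : ℝ) 1) := by
    intro w
    refine generic _ fun v => ?_
    obtain ⟨n, hn⟩ := erase _ v le_rfl
    obtain ⟨s, hs⟩ := iter_open n v w
    exact ⟨s, n, by rw [hs, hn, List.nil_append]⟩
  have h1 := (countable_iInter_mem (l := residual (Icc (0 : ℝ) 1))).2 hA
  have h2 := (countable_iInter_mem (l := residual (Icc (0 : ℝ) 1))).2 hB
  refine Filter.mem_of_superset (Filter.inter_mem h1 h2) fun x hx => ?_
  simp only [mem_inter_iff, mem_iInter, mem_ofPred_eq] at hx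
  simp only [mem_compl_iff, mem_ofPred_eq, not_not]
  refine mem_E (hx.2 []).1 ⟨fun n N => ?_, fun w => ?_⟩
  · obtain ⟨-, v, ⟨u, hu, hv⟩, hb⟩ := hx.1 (n, N)
    have := iter_cyl n hb
    rw [hv, mem_cyl_snoc] at this
    exact ⟨u.length, hu, this.2⟩
  · obtain ⟨-, v, ⟨n, hv⟩, hb⟩ := hx.2 w
    have := iter_cyl n hb
    rw [hv] at this
    exact ⟨n, this⟩

end Pool.Agent.H32.Er
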