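import Pool.Agent.H32.Erase2

/-! The second iterate of the erasing substitution is ergodic for the fair coin measure. -/

namespace Pool.Agent.H32.Er
open Set MeasureTheory

lemma meas_T : Measurable T := by
  unfold T
  exact Measurable.ite (measurableSet_lt measurable_const measurable_id) (by fun_prop) (by fun_prop)

lemma meas_bx : Measurable bx := by
  refine measurable_pi_iff.2 fun k => measurable_to_bool ?_
  have : (fun x => bx x k) ⁻¹' {true} = {x | 1 / 2 < T^[k] x} := by ext x; simp [bx]
  rw [this]
  exact measurableSet_lt measurable_const (meas_T.iterate k)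

@[simp] lemma cyl_nil : cyl [] = univ := by ext b; simp [cyl]

lemma meas_cyl (v : List Bool) : MeasurableSet (cyl v) := by
  induction v using List.reverseRecOn with
  | nil => simp
  | append_singleton v a ih =>
    have : cyl (v ++ [a]) = cyl v ∩ (fun b : ℕ → Bool => b v.length) ⁻¹' {a} := by
      ext b; simp [mem_cyl_snoc]
    rw [this]
    exact ih.inter (measurable_pi_apply _ (measurableSet_singleton a))

lemma rho_true {b : ℕ → Bool} {j : ℕ} (h : rho b j = true) :
    ∃ k, b k = true ∧ Nat.count (fun i => b i = true) k = j := by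
  by_cases hc : ∀ hf : {i | b i = true}.Finite, j < hf.toFinset.card
  · exact ⟨_, Nat.nth_mem j hc, Nat.count_nth hc⟩
  · push Not at hc
    obtain ⟨hf, hj⟩ := hc
    unfold rho at h
    rw [Nat.nth_of_card_le hf hj] at h
    simp at h

lemma inf_of_rho {b : ℕ → Bool} (h : InfOnes (rho b)) : InfOnes b := by
  intro N
  obtain ⟨j, hj, h1⟩ := h N
  obtain ⟨k, hk, h2⟩ := rho_true h1
  have := Nat.count_le (p := fun i => b i = true) (n := k)
  exact ⟨k, by omega, hk⟩

lemma meas_rho : Measurable rho := by
  refine measurable_pi_iff.2 fun j => measurable_to_bool ?_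
  have : (fun b => rho b j) ⁻¹' {true} =
      ⋃ v : {v : List Bool // ∃ u : List Bool, u.length = j ∧ rw v = u ++ [true]}, cyl v.1 := by
    ext b
    simp only [mem_preimage, mem_singleton_iff, mem_iUnion]
    constructor
    · intro h
      obtain ⟨k, hk, h2⟩ := rho_true h
      refine ⟨⟨W b (k + 1), W (rho b) j, by simp, ?_⟩, by simp [cyl]⟩
      rw [rw_W, Nat.count_succ, if_pos hk, h2, W_snoc, h]
    · rintro ⟨⟨v, u, hu, hv⟩, hb⟩
      have := rho_cyl hb
      rw [hv, mem_cyl_snoc, hu] at this
      exact this.2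
  rw [this]
  exact MeasurableSet.iUnion fun v => meas_cyl _

noncomputable def P : Measure (ℕ → Bool) := (volume.restrict (Ioc (0 : ℝ) 1)).map bx

lemma P_cyl (v : List Bool) : P (cyl v) = ENNReal.ofReal ((1 / 2) ^ v.length) := by
  unfold P
  rw [Measure.map_apply meas_bx (meas_cyl v), Measure.restrict_apply (meas_bx (meas_cyl v))]
  have : bx ⁻¹' cyl v ∩ Ioc 0 1 = Ioc (lo v) (lo v + (1 / 2) ^ v.length) := by
    ext x; rw [mem_J]; exact ⟨fun h => ⟨h.2, h.1⟩, fun h => ⟨h.2, h.1⟩⟩
  rw [this, Real.volume_Ioc]; congr 1; ring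

instance : IsProbabilityMeasure P := ⟨by simpa using P_cyl []⟩

lemma Pr_cyl (v : List Bool) : P.real (cyl v) = (1 / 2) ^ v.length := by
  rw [measureReal_def, P_cyl, ENNReal.toReal_ofReal (by positivity)]

lemma W_le (b : ℕ → Bool) {k m : ℕ} (h : k ≤ m) : ∃ t, W b m = W b k ++ t := by
  induction m, h using Nat.le_induction with
  | base => exact ⟨[], by simp⟩
  | succ m _ ih =>
    obtain ⟨t, ht⟩ := ih
    exact ⟨t ++ [b m], by rw [W_snoc, ht, List.append_assoc]⟩

lemma cyl_comp {u v : List Bool} {b : ℕ → Bool} (hu : b ∈ cyl u) (hv : b ∈ cyl v)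
    (h : u.length ≤ v.length) : ∃ t, v = u ++ t := by
  obtain ⟨t, ht⟩ := W_le b h
  rw [show W b u.length = u from hu, show W b v.length = v from hv] at ht
  exact ⟨t, ht⟩

lemma cyl_inter (u r : List Bool) : cyl u ∩ cyl r = ∅ ∨ ∃ t, cyl u ∩ cyl r = cyl (r ++ t) ∧
    (u = r ++ t ∨ t = []) := by
  rcases (cyl u ∩ cyl r).eq_empty_or_nonempty with h | ⟨b, hu, hr⟩
  · exact Or.inl h
  · right
    rcases le_total u.length r.length with h | h
    · obtain ⟨t, rfl⟩ := cyl_comp hu hr h
      exact ⟨[], by rw [List.append_nil]; exact inter_eq_right.2 (cyl_anti _ _), Or.inr rfl⟩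
    · obtain ⟨t, rfl⟩ := cyl_comp hr hu h
      exact ⟨t, inter_eq_left.2 (cyl_anti _ _), Or.inl rfl⟩

lemma ext_cyl {μ ν : Measure (ℕ → Bool)} [IsFiniteMeasure μ] (h : ∀ v, μ (cyl v) = ν (cyl v)) :
    μ = ν := by
  refine ext_of_generate_finite (range cyl) ?_ ?_ ?_ (by simpa using h [])
  · refine le_antisymm ?_ (MeasurableSpace.generateFrom_le (by rintro _ ⟨v, rfl⟩; exact meas_cyl v))
    have : @Measurable _ _ (MeasurableSpace.generateFrom (range cyl)) MeasurableSpace.pi
        (fun b : ℕ → Bool => b) := by
      refine (@measurable_pi_iff _ _ _ (MeasurableSpace.generateFrom (range cyl)) _ _).2 fun i =>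
        @measurable_to_bool _ (MeasurableSpace.generateFrom (range cyl)) _ ?_
      have : (fun b : ℕ → Bool => b i) ⁻¹' {true} =
          ⋃ v : {v : List Bool // v.length = i}, cyl (v.1 ++ [true]) := by
        ext b
        simp only [mem_preimage, mem_singleton_iff, mem_iUnion, mem_cyl_snoc]
        constructor
        · intro h; exact ⟨⟨W b i, by simp⟩, by simp [cyl], by simpa using h⟩
        · rintro ⟨⟨v, hv⟩, -, h⟩; rwa [hv] at h
      rw [this]
      exact MeasurableSet.iUnion fun v => MeasurableSpace.measurableSet_generateFrom ⟨_, rfl⟩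
    exact fun s hs => this hs
  · rintro _ ⟨u, rfl⟩ _ ⟨r, rfl⟩ hne
    rcases cyl_inter u r with h | ⟨t, h, -⟩
    · exact absurd h hne.ne_empty
    · exact ⟨_, h.symm⟩
  · rintro _ ⟨v, rfl⟩; exact h v

lemma split (v : List Bool) {S : Set (ℕ → Bool)} (hS : MeasurableSet S) :
    P.real (cyl v ∩ S) = P.real (cyl (v ++ [false]) ∩ S) + P.real (cyl (v ++ [true]) ∩ S) := by
  rw [← measureReal_union _ ((meas_cyl _).inter hS)]
  · congr 1
    ext b
    simp only [mem_inter_iff, mem_union, mem_cyl_snoc]
    cases b v.length <;> simp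
  · rw [disjoint_left]
    rintro b ⟨h1, -⟩ ⟨h2, -⟩
    rw [mem_cyl_snoc] at h1 h2
    simpa using h1.2.symm.trans h2.2

noncomputable def sg (b : ℕ → Bool) : ℕ → Bool := rho (rho b)
def r2 (v : List Bool) : List Bool := rw (rw v)
lemma meas_sg : Measurable sg := meas_rho.comp meas_rho
lemma sg_cyl {v : List Bool} {b : ℕ → Bool} (h : b ∈ cyl v) : sg b ∈ cyl (r2 v) :=
  rho_cyl (rho_cyl h)

lemma r2_f {v : List Bool} (hv : Even v.length) (x : Bool) : r2 (v ++ [x] ++ [false]) = r2 v := by
  unfold r2
  rw [rw_snoc, if_neg (by simp), List.append_nil, r2_even hv]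

lemma r2_t {v : List Bool} (hv : Even v.length) (x : Bool) :
    r2 (v ++ [x] ++ [true]) = r2 v ++ [xor x (decide (Even ((rw v).length + 1)))] := by
  unfold r2
  have h1 : decide (Even ((v ++ [x]).length + 1)) = true := by
    simp only [List.length_append, List.length_singleton, decide_eq_true_eq, Nat.even_add_one,
      not_not]; exact hv
  rw [rw_snoc, if_pos rfl, h1, rw_snoc, if_pos rfl, r2_even hv, rw_snoc]
  congr 2
  cases x
  · simp
  · have := Nat.even_add_one (n := (rw v).length + 1)
    simp only [if_true, List.length_append, List.length_singleton, this]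
    by_cases h : Even ((rw v).length + 1) <;> simp only [h] <;> simp

lemma key (t : List Bool) : ∀ v : List Bool, Even v.length →
    P.real (cyl v ∩ sg ⁻¹' cyl (r2 v ++ t)) = (1 / 2) ^ v.length * (1 / 2) ^ t.length := by
  induction t with
  | nil =>
    intro v _
    have : cyl v ⊆ sg ⁻¹' cyl (r2 v) := fun b hb => sg_cyl hb
    rw [List.append_nil, inter_eq_left.2 this, Pr_cyl]; simp
  | cons a t ih =>
    set g : List Bool → ℝ := fun v => P.real (cyl v ∩ sg ⁻¹' cyl (r2 v ++ a :: t)) with hg
    have hev : ∀ (v : List Bool) (x y : Bool), Even v.length → Even (v ++ [x] ++ [y]).length := by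
      intro v x y hv
      simp only [List.length_append, List.length_singleton, Nat.even_add_one, not_not]; exact hv
    have hrec : ∀ v : List Bool, Even v.length → g v = g (v ++ [false] ++ [false]) +
        g (v ++ [true] ++ [false]) + (1 / 2) ^ v.length * (1 / 2) ^ t.length / 4 := by
      intro v hv
      have hS := meas_sg (meas_cyl (r2 v ++ a :: t))
      have hx : ∀ x : Bool, P.real (cyl (v ++ [x] ++ [true]) ∩ sg ⁻¹' cyl (r2 v ++ a :: t)) =
          if xor x (decide (Even ((rw v).length + 1))) = a then
            (1 / 2) ^ v.length * (1 / 2) ^ t.length / 4 else 0 := by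
        intro x
        split_ifs with h
        · have := ih _ (hev v x true hv)
          rw [r2_t hv, h, List.append_assoc (r2 v), List.singleton_append] at this
          rw [this]
          simp only [List.length_append, List.length_singleton, pow_succ]; ring
        · have : cyl (v ++ [x] ++ [true]) ∩ sg ⁻¹' cyl (r2 v ++ a :: t) = ∅ := by
            refine eq_empty_of_forall_notMem fun b hb => h ?_
            have h1 := sg_cyl hb.1
            rw [r2_t hv, mem_cyl_snoc] at h1
            have h2 : sg b ∈ cyl (r2 v ++ [a] ++ t) := by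
              rw [List.append_assoc, List.singleton_append]; exact hb.2
            have h3 := cyl_anti _ _ h2
            rw [mem_cyl_snoc] at h3
            exact h1.2.symm.trans h3.2
          rw [this]; simp
      simp only [hg]
      rw [split v hS, split (v ++ [false]) hS, split (v ++ [true]) hS, hx, hx, r2_f hv, r2_f hv]
      cases a <;> cases (decide (Even ((rw v).length + 1))) <;> simp <;> ring
    have hb : ∀ n : ℕ, ∀ v : List Bool, Even v.length →
        |g v - (1 / 2) ^ v.length * (1 / 2) ^ t.length / 2| ≤ (1 / 2) ^ v.length * (1 / 2) ^ n := by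
      intro n
      induction n with
      | zero =>
        intro v _
        have h1 : g v ≤ (1 / 2) ^ v.length := by
          rw [← Pr_cyl]; exact measureReal_mono inter_subset_left
        have h2 : 0 ≤ g v := measureReal_nonneg
        have h3 : (1 / 2 : ℝ) ^ t.length ≤ 1 := pow_le_one₀ (by norm_num) (by norm_num)
        have h4 : (0 : ℝ) < (1 / 2) ^ v.length := by positivity
        have h5 : (0 : ℝ) < (1 / 2) ^ t.length := by positivity
        rw [abs_le]; constructor <;> nlinarith
      | succ n ihn =>
        intro v hv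
        have h1 := ihn _ (hev v false false hv)
        have h2 := ihn _ (hev v true false hv)
        rw [hrec v hv]
        simp only [List.length_append, List.length_singleton, pow_succ] at h1 h2 ⊢
        rw [abs_le] at h1 h2 ⊢
        constructor <;> linarith [h1.1, h1.2, h2.1, h2.2]
    intro v hv
    have h0 : g v - (1 / 2) ^ v.length * (1 / 2) ^ t.length / 2 = 0 := by
      by_contra hne
      obtain ⟨k, hk⟩ := small (abs_pos.2 hne)
      have h1 := hb k v hv
      have h3 : (1 / 2 : ℝ) ^ v.length ≤ 1 := pow_le_one₀ (by norm_num) (by norm_num)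
      have h5 : (0 : ℝ) < (1 / 2) ^ k := by positivity
      nlinarith
    show g v = _
    simp only [List.length_cons, pow_succ]
    linarith

lemma push {v : List Bool} (hv : Even v.length) {A : Set (ℕ → Bool)} (hA : MeasurableSet A) :
    (1 / 2) ^ (r2 v).length * P.real (cyl v ∩ sg ⁻¹' A) =
      (1 / 2) ^ v.length * P.real (cyl (r2 v) ∩ A) := by
  have hm : P (cyl (r2 v)) • (P.restrict (cyl v)).map sg = P (cyl v) • P.restrict (cyl (r2 v)) := by
    have : IsFiniteMeasure (P (cyl (r2 v)) • (P.restrict (cyl v)).map sg) :=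
      Measure.smul_finite _ (measure_ne_top _ _)
    refine ext_cyl fun u => ?_
    rw [Measure.smul_apply, Measure.smul_apply, Measure.map_apply meas_sg (meas_cyl u),
      Measure.restrict_apply (meas_sg (meas_cyl u)), Measure.restrict_apply (meas_cyl u)]
    have h1 : sg ⁻¹' cyl u ∩ cyl v = cyl v ∩ sg ⁻¹' (cyl u ∩ cyl (r2 v)) := by
      ext b; exact ⟨fun h => ⟨h.2, h.1, sg_cyl h.2⟩, fun h => ⟨h.2.1, h.1⟩⟩
    rw [h1]
    rcases cyl_inter u (r2 v) with h | ⟨t, h, -⟩
    · rw [h]; simp
    · rw [h, smul_eq_mul, smul_eq_mul]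
      rw [← ENNReal.toReal_eq_toReal_iff' (by finiteness) (by finiteness), ENNReal.toReal_mul,
        ENNReal.toReal_mul, ← measureReal_def, ← measureReal_def, ← measureReal_def,
        ← measureReal_def, key t v hv, Pr_cyl, Pr_cyl, Pr_cyl, List.length_append, pow_add]
      ring
  have h2 := congrArg (fun μ : Measure (ℕ → Bool) => (μ A).toReal) hm
  simp only [Measure.smul_apply, smul_eq_mul, ENNReal.toReal_mul] at h2
  rw [Measure.map_apply meas_sg hA, Measure.restrict_apply (meas_sg hA), Measure.restrict_apply hA,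
    ← measureReal_def, ← measureReal_def, ← measureReal_def, ← measureReal_def, Pr_cyl, Pr_cyl,
    inter_comm _ (cyl v), inter_comm A] at h2
  exact h2

lemma mp_sg : MeasurePreserving sg P P := by
  refine ⟨meas_sg, Measure.ext fun A hA => ?_⟩
  have := push (v := []) (by simp) hA
  simp only [r2, rw_nil, List.length_nil, pow_zero, one_mul, cyl_nil, univ_inter] at this
  rw [Measure.map_apply meas_sg hA,
    ← ENNReal.toReal_eq_toReal_iff' (measure_ne_top _ _) (measure_ne_top _ _)]
  exact this

lemma inv_cyl {A : Set (ℕ → Bool)} (hA : MeasurableSet A) (hi : sg ⁻¹' A = A) (k : ℕ) :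
    ∀ v : List Bool, v.length = k → P.real (cyl v ∩ A) = (1 / 2) ^ v.length * P.real A := by
  have hs : ∀ v : List Bool, Even v.length →
      P.real (cyl (r2 v) ∩ A) = (1 / 2) ^ (r2 v).length * P.real A →
      P.real (cyl v ∩ A) = (1 / 2) ^ v.length * P.real A := by
    intro v hv h
    have := push hv hA
    rw [hi, h] at this
    have h5 : (0 : ℝ) < (1 / 2) ^ (r2 v).length := by positivity
    exact mul_left_cancel₀ h5.ne' (by rw [this]; ring)
  induction k using Nat.strong_induction_on with
  | _ k ih =>
    intro v hk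
    by_cases h0 : k = 0
    · obtain rfl : v = [] := List.length_eq_zero_iff.1 (by omega)
      simp
    by_cases hv : Even v.length
    · have := r2_len v
      exact hs v hv (ih _ (by show (rw (rw v)).length < k; omega) _ rfl)
    have hev : ∀ a, Even (v ++ [a]).length := fun a => by
      simp only [List.length_append, List.length_singleton, Nat.even_add_one]; exact hv
    by_cases h1 : k = 1
    · obtain ⟨x, rfl⟩ := List.length_eq_one_iff.1 (hk.trans h1)
      have e1 : r2 ([x] ++ [false]) = [] := r2_f (v := []) (by simp) x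
      have e2 : r2 ([x] ++ [true]) = [x] := by
        have := r2_t (v := []) (by simp) x
        simpa [r2] using this
      have a1 := hs _ (hev false) (by rw [e1]; simp)
      have a2 := push (hev true) hA
      rw [hi, e2] at a2
      have a3 := split [x] hA
      simp only [List.length_append, List.length_singleton] at a1 a2 ⊢
      linarith
    · rw [Nat.not_even_iff_odd, Nat.odd_iff] at hv
      have hx : ∀ a, P.real (cyl (v ++ [a]) ∩ A) = (1 / 2) ^ (v ++ [a]).length * P.real A := by
        intro a
        have := r2_len (v ++ [a])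
        rw [List.length_append, List.length_singleton] at this
        exact hs _ (hev a) (ih _ (by show (rw (rw (v ++ [a]))).length < k; omega) _ rfl)
      rw [split v hA, hx, hx]
      simp only [List.length_append, List.length_singleton, pow_succ]; ring

lemma erg_sg : Ergodic sg P := by
  refine ⟨mp_sg, ⟨fun A hA hi => ?_⟩⟩
  have hm : P.restrict A = P A • P := by
    refine ext_cyl fun v => ?_
    rw [Measure.restrict_apply (meas_cyl v), Measure.smul_apply, smul_eq_mul,
      ← ENNReal.toReal_eq_toReal_iff' (by finiteness) (by finiteness), ENNReal.toReal_mul,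
      ← measureReal_def, ← measureReal_def, ← measureReal_def, inv_cyl hA hi _ v rfl, Pr_cyl,
      mul_comm]
  have h2 := congrArg (fun μ : Measure (ℕ → Bool) => μ Aᶜ) hm
  simp only [Measure.smul_apply, smul_eq_mul, Measure.restrict_apply hA.compl, compl_inter_self,
    measure_empty] at h2
  rw [Filter.eventuallyConst_set]
  rcases mul_eq_zero.1 h2.symm with h | h
  · exact Or.inr (measure_eq_zero_iff_ae_notMem.1 h)
  · exact Or.inl ((measure_eq_zero_iff_ae_notMem.1 h).mono fun b hb => not_not.1 hb)

lemma sg_iter (n : ℕ) (b : ℕ → Bool) : sg^[n] b = rho^[2 * n] b := by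
  rw [Function.iterate_mul]; rfl

lemma ae_good : ∀ᵐ b ∂P, Good b := by
  have hI : MeasurableSet {b | InfOnes b} := by
    have : {b | InfOnes b} = ⋂ N : ℕ, ⋃ k : {k // N ≤ k},
        (fun b : ℕ → Bool => b k.1) ⁻¹' {true} := by
      ext b; simp [InfOnes]
    rw [this]
    exact MeasurableSet.iInter fun N => MeasurableSet.iUnion fun k =>
      measurable_pi_apply _ (measurableSet_singleton _)
  have h1 : ∀ᵐ b ∂P, InfOnes b := by
    unfold P
    rw [ae_map_iff meas_bx.aemeasurable hI]
    exact (ae_restrict_mem measurableSet_Ioc).mono fun x hx => inf_bx hx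
  have h2 : ∀ᵐ b ∂P, ∀ n, InfOnes (sg^[n] b) :=
    ae_all_iff.2 fun n => (mp_sg.iterate n).quasiMeasurePreserving.ae h1
  have h3 : ∀ᵐ b ∂P, ∀ w : List Bool, ∃ n, sg^[n] b ∈ cyl w := by
    refine ae_all_iff.2 fun w => ?_
    have hm : MeasurableSet (⋃ n : ℕ, sg^[n] ⁻¹' cyl w) :=
      MeasurableSet.iUnion fun n => (meas_sg.iterate n) (meas_cyl w)
    rcases erg_sg.ae_empty_or_univ_of_preimage_ae_le hm.nullMeasurableSet
      (LE.le.eventuallyLE (fun b hb => by
        obtain ⟨n, hn⟩ := mem_iUnion.1 hb
        exact mem_iUnion.2 ⟨n + 1, hn⟩)) with h | h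
    · exfalso
      rw [ae_eq_empty] at h
      have := measure_mono_null (subset_iUnion (fun n : ℕ => sg^[n] ⁻¹' cyl w) 0) h
      have h5 : P.real (cyl w) = 0 := by
        rw [measureReal_def]; exact (congrArg ENNReal.toReal this).trans ENNReal.toReal_zero
      rw [Pr_cyl] at h5
      exact absurd h5 (by positivity)
    · rw [ae_eq_univ] at h
      exact (measure_eq_zero_iff_ae_notMem.1 h).mono fun b hb => by
        obtain ⟨n, hn⟩ := mem_iUnion.1 (notMem_compl_iff.1 hb)
        exact ⟨n, hn⟩
  filter_upwards [h2, h3] with b hb2 hb3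
  refine ⟨fun n => ?_, fun w => ?_⟩
  · have hd : ∀ m, InfOnes (rho^[m + n] b) → InfOnes (rho^[n] b) := by
      intro m
      induction m with
      | zero => simp
      | succ m ih =>
        intro h
        rw [show m + 1 + n = (m + n) + 1 by omega, Function.iterate_succ_apply'] at h
        exact ih (inf_of_rho h)
    have := hb2 n
    rw [sg_iter, two_mul] at this
    exact hd n this
  · obtain ⟨n, hn⟩ := hb3 w
    rw [sg_iter] at hn
    exact ⟨_, hn⟩

theorem conull : volume (Icc (0 : ℝ) 1 \ E) = 0 ∧ volume E = 1 := by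
  have h1 : ∀ᵐ x ∂(volume.restrict (Ioc (0 : ℝ) 1)), x ∈ E := by
    filter_upwards [ae_of_ae_map meas_bx.aemeasurable ae_good, ae_restrict_mem measurableSet_Ioc]
      with x hx hx'
    exact mem_E hx' hx
  rw [ae_restrict_iff' measurableSet_Ioc] at h1
  have h2 : volume (Icc (0 : ℝ) 1 \ E) = 0 := by
    rw [measure_eq_zero_iff_ae_notMem]
    filter_upwards [h1, Measure.ae_ne volume (0 : ℝ)] with x hx h0
    exact fun h => h.2 (hx ⟨lt_of_le_of_ne h.1.1 h0.symm, h.1.2⟩)
  refine ⟨h2, ?_⟩
  have h3 := measure_sdiff_null (s := Icc (0 : ℝ) 1) h2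
  rw [sdiff_sdiff_cancel_left (fun x hx => hx.1 : E ⊆ Icc (0 : ℝ) 1)] at h3
  rw [h3]; simp

end Pool.Agent.H32.Er
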