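import Mathlib

open Set Filter

namespace Pool.Agent.H32.FE

abbrev U := Ultrafilter ℕ+

/-- `A ∈ F ⬝ G` iff `{n | A / n ∈ G} ∈ F` -/
def mul (F G : U) : U := F.bind fun n => G.map (n * ·)

def MDvd (F G : U) : Prop := ∃ H1 H2 : U, G = mul (mul H1 F) H2

def FeSet (A B : Set ℕ+) : Prop := ∀ S ⊆ A, S.Finite → ∃ k : ℕ+, ∀ a ∈ S, k * a ∈ B

def Fe (F G : U) : Prop := ∀ B ∈ G, ∃ A ∈ F, FeSet A B

def Level (n : ℕ) : Set ℕ+ := {m | (m : ℕ).primeFactorsList.length = n}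

def InL (F : U) : Prop := ∃ n, Level n ∈ F

def Minimal (ρ : U → U → Prop) (F : U) : Prop :=
  F ≠ pure 1 ∧ ∀ G, ρ G F → G = pure 1 ∨ (ρ G F ∧ ρ F G)

lemma mem_mul {F G : U} {A : Set ℕ+} : A ∈ mul F G ↔ {n | {m | n * m ∈ A} ∈ G} ∈ F := Iff.rfl

noncomputable def q (i : ℕ) : ℕ+ := ⟨Nat.nth Nat.Prime i, (Nat.prime_nth_prime i).pos⟩

lemma qp (i : ℕ) : (q i : ℕ).Prime := Nat.prime_nth_prime i

noncomputable def r (y : ℕ+) : ℕ :=
  if Nat.count Nat.Prime y % 2 = 0 then Nat.count Nat.Prime y / 2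
  else (Nat.count Nat.Prime y / 2).unpair.1

noncomputable def α (i : ℕ) : ℕ+ := q (2 * i)

noncomputable def β (n j : ℕ) : ℕ+ := q (2 * Nat.pair n j + 1)

lemma cq (i : ℕ) : Nat.count Nat.Prime (q i) = i :=
  Nat.count_nth_of_infinite Nat.infinite_setOfPred_prime i

lemma rα (i : ℕ) : r (α i) = i := by simp [r, α, cq]

lemma rβ (n j : ℕ) : r (β n j) = n := by
  have : (2 * Nat.pair n j + 1) / 2 = Nat.pair n j := by omega
  simp [r, β, cq, this]

lemma le_q (i : ℕ) : i ≤ q i := Nat.le_nth fun h => (Nat.infinite_setOfPred_prime h).elim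

noncomputable def F0 : U := (hyperfilter ℕ).map α

noncomputable def G0 : U := (hyperfilter ℕ).bind fun n => mul F0 ((hyperfilter ℕ).map (β n))

lemma ev {p : ℕ → Prop} (h : ∀ᶠ n in atTop, p n) : {n | p n} ∈ hyperfilter ℕ :=
  Nat.hyperfilter_le_atTop h

def B (N : ℕ) : Set ℕ+ := {x | ∃ i n j, N ≤ n ∧ n < i ∧ i < β n j ∧ x = α i * β n j}

lemma B_mem (N : ℕ) : B N ∈ G0 :=
  ev ((eventually_ge_atTop N).mono fun n hn => ev ((eventually_gt_atTop n).mono fun i hi =>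
    ev ((eventually_gt_atTop i).mono fun j hj => ⟨i, n, j, hn, hi,
      lt_of_lt_of_le (by have := Nat.right_le_pair n j; omega) (le_q _), rfl⟩)))

lemma aux {x y p s : ℕ} (hp : p.Prime) (hs : s.Prime) (hy : y ≠ 1) (h : x * y = p * s)
    (hd : p ∣ x) : x = p ∧ y = s := by
  obtain ⟨c, rfl⟩ := hd
  rw [mul_assoc] at h
  have h1 := Nat.eq_of_mul_eq_mul_left hp.pos h
  obtain rfl := (hs.eq_one_or_self_of_dvd y ⟨c, by rw [← h1, mul_comm]⟩).resolve_left hy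
  rw [(mul_eq_right₀ hs.ne_zero).1 h1, mul_one]
  exact ⟨rfl, rfl⟩

lemma two {x y : ℕ+} {a b : ℕ} (hx : x ≠ 1) (hy : y ≠ 1) (h : x * y = q a * q b) :
    x = q a ∧ y = q b ∨ x = q b ∧ y = q a := by
  have h1 : (x : ℕ) * y = q a * q b := by exact_mod_cast h
  rcases (qp a).dvd_mul.1 ⟨_, h1⟩ with e | e
  · exact Or.inl ((aux (qp a) (qp b) (by exact_mod_cast hy) h1 e).imp PNat.eq PNat.eq)
  · exact Or.inr ((aux (qp a) (qp b) (by exact_mod_cast hx) (mul_comm _ _ |>.trans h1) e).symm.imp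
      PNat.eq PNat.eq)

lemma eqp {X : U} (h : ({1} : Set ℕ+) ∈ X) : X = pure 1 :=
  Ultrafilter.eq_of_le (Filter.le_pure_iff.2 h)

lemma ne_one {X : U} (h : X ≠ pure 1) : {x | x ≠ 1} ∈ X :=
  Ultrafilter.compl_mem_iff_notMem.2 fun e => h (eqp e)

lemma irred {X Y : U} (h : G0 = mul X Y) : X = pure 1 ∨ Y = pure 1 := by
  by_contra hc
  push Not at hc
  have : ∀ N, ∃ M : ℕ, {y | N ≤ r y ∧ r y < M} ∈ Y := fun N => by
    obtain ⟨x, x1, x2⟩ := Ultrafilter.nonempty_of_mem (inter_mem (mem_mul.1 (h ▸ B_mem N))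
      (ne_one hc.1))
    refine ⟨x, mem_of_superset (inter_mem x1 (ne_one hc.2)) ?_⟩
    rintro y ⟨⟨i, n, j, a, b, c, d⟩, e⟩
    rcases two x2 e d with ⟨rfl, rfl⟩ | ⟨rfl, rfl⟩
    · exact ⟨(rβ n j).ge.trans' a, (rβ n j).trans_lt (lt_of_lt_of_le (by omega) (le_q _))⟩
    · exact ⟨(rα i).ge.trans' (by omega), (rα i).trans_lt c⟩
  obtain ⟨M, hM⟩ := this 0
  obtain ⟨_, hK⟩ := this M
  obtain ⟨y, y1, y2⟩ := Ultrafilter.nonempty_of_mem (inter_mem hM hK)
  exact y1.2.not_ge y2.1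

lemma mul_one' (X : U) : mul X (pure 1) = X := by
  ext A
  simp [mem_mul]

lemma one_mul' (X : U) : mul (pure 1) X = X := by
  ext A
  simp [mem_mul]

lemma dvd_G0 {K : U} (h : MDvd K G0) : K = pure 1 ∨ K = G0 := by
  obtain ⟨H1, H2, h⟩ := h
  rcases irred h with e | rfl
  · left
    have e2 : ({1} : Set ℕ+) ∈ mul H1 K := by rw [e]; rfl
    obtain ⟨x, hx⟩ := Ultrafilter.nonempty_of_mem (mem_mul.1 e2)
    exact eqp (mem_of_superset hx fun y hy =>
      PNat.eq (Nat.eq_one_of_mul_eq_one_left (by exact_mod_cast hy : (x : ℕ) * y = 1)))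
  · rw [mul_one'] at h
    rcases irred h with rfl | e
    exacts [Or.inr ((one_mul' K).symm.trans h.symm), Or.inl e]

lemma fe : Fe F0 G0 := fun B hB => by
  obtain ⟨n, hn⟩ := Ultrafilter.nonempty_of_mem (show _ ∈ hyperfilter ℕ from hB)
  refine ⟨_, mem_mul.1 hn, fun S s1 s2 => ?_⟩
  obtain ⟨k, hk⟩ := Ultrafilter.nonempty_of_mem (f := (hyperfilter ℕ).map (β n))
    ((biInter_mem (s := fun a => {m | a * m ∈ B}) s2).2 s1)
  exact ⟨k, fun a ha => mul_comm a k ▸ mem_iInter₂.1 hk a ha⟩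

lemma L1 : Level 1 ∈ F0 := ev <| Eventually.of_forall fun i => by
  simp [Level, α, Nat.primeFactorsList_prime (qp _)]

lemma len (a b : ℕ+) : ((a * b : ℕ+) : ℕ).primeFactorsList.length =
    (a : ℕ).primeFactorsList.length + (b : ℕ).primeFactorsList.length := by
  rw [PNat.mul_coe, (Nat.perm_primeFactorsList_mul a.ne_zero b.ne_zero).length_eq,
    List.length_append]

lemma L2 : Level 2 ∈ G0 := mem_of_superset (B_mem 0) (by
  rintro _ ⟨i, n, j, -, -, -, rfl⟩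
  simp only [Level, mem_ofPred_eq, len, α, β, Nat.primeFactorsList_prime (qp _), List.length_singleton])

lemma not_fe : ¬ Fe G0 F0 := fun h => by
  obtain ⟨A, a1, a2⟩ := h _ L1
  obtain ⟨x, x1, x2⟩ := Ultrafilter.nonempty_of_mem (inter_mem a1 L2)
  obtain ⟨k, hk⟩ := a2 {x} (singleton_subset_iff.2 x1) (finite_singleton x)
  have h1 := hk x rfl
  simp only [Level, mem_ofPred_eq, len] at h1 x2
  omega

lemma ne1 {X : U} {n : ℕ} (h : Level (n + 1) ∈ X) : X ≠ pure 1 := by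
  rintro rfl
  simp [Level] at h

end Pool.Agent.H32.FE
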