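import Pool.Agent.H32.Uniq

set_option autoImplicit false

namespace Pool.Agent.H32.FM

open Finset

variable {N : ℕ}

def rr (N : ℕ) : Equiv.Perm (Fin (N + 1)) := finRotate (N + 1)

abbrev C (N : ℕ) := Fin (N + 1) → Bool

lemma rr_val (t : Fin (N + 1)) :
    (t.1 < N ∧ (rr N t).1 = t.1 + 1) ∨ (t.1 = N ∧ (rr N t).1 = 0) := by
  rw [rr, finRotate_apply, Fin.val_add_one]
  have := t.2
  split_ifs with h
  · exact .inr ⟨by simp [h], rfl⟩
  · exact .inl ⟨by
      rw [Fin.ext_iff, Fin.val_last] at h
      omega, rfl⟩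

lemma cyc_ind {P : Fin (N + 1) → Prop} {u : Fin (N + 1)} (hu : P u) (h : ∀ t, P t → P (rr N t))
    (t : Fin (N + 1)) : P t := by
  have key : ∀ u, P u → ∀ k (hk : u.1 + k < N + 1), P ⟨u.1 + k, hk⟩ := by
    intro u hu k
    induction k with
    | zero => exact fun _ => hu
    | succ k ih =>
      intro hk
      have := rr_val (⟨u.1 + k, by omega⟩ : Fin (N + 1))
      convert h _ (ih (by omega)) using 1
      exact Fin.ext (by simp only at this ⊢; omega)
  have h1 := h _ (key u hu (N - u.1) (by omega))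
  have h2 := rr_val (⟨u.1 + (N - u.1), by omega⟩ : Fin (N + 1))
  convert key _ h1 t.1 (by simp only at h2; omega) using 1
  exact Fin.ext (by simp only at h2 ⊢; omega)

def sg (p : Fin (N + 1)) (A : C N) : C N :=
  if A p = true ∧ A (rr N p) = false then A ∘ Equiv.swap p (rr N p) else A

def b (x : Bool) : ℕ := if x then 0 else 1

def cnt (A : C N) : ℕ := ∑ t, b (A t)

def IsQ (A S : C N) (Q : Fin (N + 1) → ℕ) : Prop := ∀ t, Q (rr N t) = Q t + b (A t) - b (S t)

lemma cnt_swap (A : C N) (e : Equiv.Perm (Fin (N + 1))) : cnt (A ∘ e) = cnt A :=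
  Equiv.sum_comp e fun t => b (A t)

lemma cnt_sg (p : Fin (N + 1)) (A : C N) : cnt (sg p A) = cnt A := by
  unfold sg
  split_ifs
  exacts [cnt_swap _ _, rfl]

lemma b_le (x : Bool) : b x ≤ 1 := by cases x <;> simp [b]

lemma ex_Q {A S : C N} (h : cnt A ≤ cnt S) : ∃ Q, IsQ A S Q := by
  have h1 : ∃ s, ∃ P : Fin (N + 1) → ℕ, (∀ t, P t + b (A t) - b (S t) ≤ P (rr N t)) ∧ ∑ t, P t = s := by
    refine ⟨_, fun t => N + 1 + ∑ i ∈ Iio t, b (A i) - ∑ i ∈ Iio t, b (S i), fun t => ?_, rfl⟩
    have k : ∑ i ∈ Iio t, b (S i) ≤ N := (sum_le_card_nsmul _ _ 1 fun i _ => b_le _).trans (by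
      have := t.2
      simp
      omega)
    have := b_le (S t)
    beta_reduce
    rcases rr_val t with ⟨-, e⟩ | ⟨e1, e⟩
    · rw [show Iio (rr N t) = insert t (Iio t) by
        ext i
        simp only [mem_Iio, mem_insert, Fin.lt_def, Fin.ext_iff]
        omega, sum_insert (by simp), sum_insert (by simp)]
      omega
    · rw [cnt, cnt, show (univ : Finset (Fin (N + 1))) = insert t (Iio t) by
        ext i
        have := i.2
        simp only [mem_Iio, mem_insert, Fin.lt_def, Fin.ext_iff, mem_univ, true_iff]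
        omega, sum_insert (by simp), sum_insert (by simp)] at h
      rw [show Iio (rr N t) = ∅ by
        ext i
        simp only [mem_Iio, Fin.lt_def, notMem_empty, iff_false]
        omega]
      simp only [sum_empty]
      omega
  classical
  obtain ⟨P, h2, h3⟩ := Nat.find_spec h1
  let P' : Fin (N + 1) → ℕ := fun t => P ((rr N).symm t) + b (A ((rr N).symm t)) - b (S ((rr N).symm t))
  have h4 : ∀ t, P' t ≤ P t := fun t => by simpa [P'] using h2 ((rr N).symm t)
  have h5 := Nat.find_min' h1 ⟨P', fun t => by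
    have := h4 t
    simp only [P', Equiv.symm_apply_apply] at this ⊢
    omega, rfl⟩
  have h6 := (sum_eq_sum_iff_of_le fun t _ => h4 t).1 (le_antisymm (sum_le_sum fun t _ => h4 t)
    (h3.le.trans h5))
  exact ⟨P, fun t => by simpa [P'] using (h6 (rr N t) (mem_univ _)).symm⟩

open Classical in
noncomputable def qq (A S : C N) : Fin (N + 1) → ℕ := if h : ∃ Q, IsQ A S Q then h.choose else 0

lemma qq_spec {A S : C N} (h : cnt A ≤ cnt S) : IsQ A S (qq A S) := by
  rw [qq, dif_pos (ex_Q h)]
  exact (ex_Q h).choose_spec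

noncomputable def D (A S : C N) : C N := fun t => S t || decide (qq A S t + b (A t) = 0)

lemma cnt_D {A S : C N} (h : cnt A ≤ cnt S) : cnt (D A S) = cnt A := by
  have h1 : ∑ t, (qq A S (rr N t) + b (D A S t)) = ∑ t, (qq A S t + b (A t)) :=
    sum_congr rfl fun t _ => by
      rw [qq_spec h t, D]
      generalize qq A S t + b (A t) = x
      cases S t <;> cases x <;> simp [b]
  rw [sum_add_distrib, sum_add_distrib, Equiv.sum_comp (rr N) (qq A S)] at h1
  exact Nat.add_left_cancel h1

lemma unused {A S : C N} (h : cnt A < cnt S) {Q : Fin (N + 1) → ℕ} (hQ : IsQ A S Q) :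
    ∃ u, S u = false ∧ Q u + b (A u) = 0 := by
  by_contra k
  have h1 : ∑ t, (Q (rr N t) + b (S t)) = ∑ t, (Q t + b (A t)) := sum_congr rfl fun t _ => by
    have := not_exists.1 k t
    rw [hQ t]
    generalize Q t + b (A t) = x at this
    cases e : S t <;> cases x <;> simp_all [b]
  rw [sum_add_distrib, sum_add_distrib, Equiv.sum_comp (rr N) Q] at h1
  exact h.ne' (Nat.add_left_cancel h1)

lemma cmp {A S A' S' : C N} (h : cnt A < cnt S) {Q Q' : Fin (N + 1) → ℕ} (hQ : IsQ A S Q)
    (hQ' : IsQ A' S' Q') (ha : ∀ t, b (A t) ≤ b (A' t)) (hs : ∀ t, b (S' t) ≤ b (S t)) (t : Fin (N + 1)) :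
    Q t ≤ Q' t := by
  obtain ⟨u, -, h2⟩ := unused h hQ
  refine cyc_ind (P := fun t => Q t ≤ Q' t) (u := rr N u) (by rw [hQ u]; omega) (fun t k => ?_) t
  have := ha t
  have := hs t
  rw [hQ t, hQ' t]
  omega

lemma qq_eq {A S : C N} (h : cnt A < cnt S) {Q : Fin (N + 1) → ℕ} (hQ : IsQ A S Q) : qq A S = Q :=
  funext fun t => le_antisymm (cmp h (qq_spec h.le) hQ (fun _ => le_rfl) (fun _ => le_rfl) t)
    (cmp h hQ (qq_spec h.le) (fun _ => le_rfl) (fun _ => le_rfl) t)

lemma sg_off (p : Fin (N + 1)) (A : C N) {t : Fin (N + 1)} (h1 : t ≠ p) (h2 : t ≠ rr N p) :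
    sg p A t = A t := by
  unfold sg
  split_ifs
  · simp [Equiv.swap_apply_of_ne_of_ne h1 h2]
  · rfl

lemma sg_l (p : Fin (N + 1)) (A : C N) : sg p A p = (A p && A (rr N p)) := by
  unfold sg
  cases e1 : A p <;> cases e2 : A (rr N p) <;> simp [e1, e2]

lemma sg_r (p : Fin (N + 1)) (A : C N) : sg p A (rr N p) = (A p || A (rr N p)) := by
  unfold sg
  cases e1 : A p <;> cases e2 : A (rr N p) <;> simp [e1, e2]

lemma loc {A S S' : C N} (h : cnt A < cnt S) (hS : cnt S' = cnt S) {q : Fin (N + 1)}
    (hq : rr N q ≠ q) (ho : ∀ t, t ≠ q → t ≠ rr N q → S' t = S t)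
    (he : ∀ x, x + b (sg q A q) - b (S' q) + b (sg q A (rr N q)) - b (S' (rr N q)) =
      x + b (A q) - b (S q) + b (A (rr N q)) - b (S (rr N q))) :
    qq (sg q A) S' = Function.update (qq A S) (rr N q) (qq A S q + b (sg q A q) - b (S' q)) := by
  have h1 := qq_spec h.le
  refine qq_eq (by rwa [cnt_sg, hS]) fun t => ?_
  by_cases k1 : t = q
  · rw [k1, Function.update_self, Function.update_of_ne hq.symm]
  · rw [Function.update_of_ne ((rr N).injective.ne k1)]
    by_cases k2 : t = rr N q
    · rw [k2, Function.update_self, he, h1, h1]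
    · rw [Function.update_of_ne k2, h1, sg_off _ _ k1 k2, ho t k1 k2]

def ph (x : Fin (N + 1) × C N) : Fin (N + 1) × C N :=
  if x.2 (rr N x.1) = true then (rr N x.1, x.2) else (x.1, x.2 ∘ Equiv.swap x.1 (rr N x.1))

lemma ph_snd (p : Fin (N + 1)) (S : C N) : (ph (p, S)).2 = sg p S := by
  unfold ph sg
  cases e1 : S p <;> cases e2 : S (rr N p) <;> simp only [e2] <;> simp
  funext t
  simp only [Function.comp_apply, Equiv.swap_apply_def]
  split_ifs <;> simp_all

lemma D_sg {A S : C N} (h : cnt A < cnt S) (p : Fin (N + 1)) :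
    D (sg (ph (p, S)).1 A) (sg p S) = sg p (D A S) := by
  by_cases hq : ∀ q : Fin (N + 1), rr N q ≠ q
  swap
  · push Not at hq
    obtain ⟨q, hq⟩ := hq
    have := rr_val q
    obtain rfl : N = 0 := by omega
    have e : ∀ (p : Fin 1) (A : C 0), sg p A = A := fun p A => by
      rw [sg, if_neg]
      rw [Subsingleton.elim (α := Fin 1) (rr 0 p) p]
      simp
    simp only [e]
  have h1 := qq_spec h.le
  cases e : S (rr N p)
  · have e1 : (ph (p, S)).1 = p := by simp [ph, e]
    have h2 := loc h (cnt_sg p S) (hq p) (fun t => sg_off p S) fun x => by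
      simp only [sg_l, sg_r, e]
      cases A p <;> cases A (rr N p) <;> cases S p <;> simp [b]
    funext t
    rw [e1, D, h2]
    by_cases k1 : t = p
    · rw [k1, Function.update_of_ne (hq p).symm]
      simp only [sg_l, D, h1 p, e]
      generalize qq A S p = x
      cases A p <;> cases A (rr N p) <;> cases S p <;> cases x <;> simp [b]
    · by_cases k2 : t = rr N p
      · rw [k2, Function.update_self]
        simp only [sg_l, sg_r, D, h1 p, e]
        generalize qq A S p = x
        cases A p <;> cases A (rr N p) <;> cases S p <;> rcases x with _ | _ | x <;> simp [b]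
      · rw [Function.update_of_ne k2, sg_off _ _ k1 k2, sg_off _ _ k1 k2, sg_off _ _ k1 k2, D]
  · have e1 : (ph (p, S)).1 = rr N p := by simp [ph, e]
    have e2 : ∀ S : C N, S (rr N p) = true → sg p S = S := fun S k => by simp [sg, k]
    rw [e1, e2 S e, e2 _ (by simp [D, e])]
    generalize rr N p = q at e
    have h2 := loc h rfl (hq q) (fun _ _ _ => rfl) fun x => by
      simp only [sg_l, sg_r, e]
      cases A q <;> cases A (rr N q) <;> simp [b]
    funext t
    rw [D, h2]
    by_cases k1 : t = q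
    · simp [k1, D, e]
    · by_cases k2 : t = rr N q
      · rw [k2, Function.update_self]
        simp only [sg_l, sg_r, D, h1 q, e]
        cases A q <;> cases A (rr N q) <;> simp [b]
      · rw [Function.update_of_ne k2, sg_off _ _ k1 k2, D]

lemma ph_bij : Function.Bijective (ph (N := N)) := by
  refine Finite.injective_iff_bijective.1 (Function.LeftInverse.injective (g := fun x =>
    if x.2 x.1 = true then ((rr N).symm x.1, x.2) else (x.1, x.2 ∘ Equiv.swap x.1 (rr N x.1))) ?_)
  rintro ⟨p, S⟩
  cases e : S (rr N p) <;> simp [ph, e, Function.comp_assoc]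
  funext t
  simp

lemma reach {ι : Type} [Fintype ι] (x : ι → C N) : Relation.ReflTransGen
    (fun a c : ι → C N => ∃ p, c = fun s => sg p (a s)) x fun s t => decide (cnt (x s) ≤ t.1) := by
  generalize hm : ∑ s, ∑ t, t.1 * b (x s t) = m
  induction m using Nat.strong_induction_on generalizing x with
  | _ m ih =>
  by_cases h : ∃ s p, p.1 < N ∧ x s p = true ∧ x s (rr N p) = false
  · obtain ⟨s, p, h1, h2⟩ := h
    have h3 := rr_val p
    have h4 : ∀ A : C N, A p = true ∧ A (rr N p) = false →
        ∑ t, t.1 * b (sg p A t) < ∑ t, t.1 * b (A t) := fun A k => by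
      rw [sg, if_pos k, ← Equiv.sum_comp (Equiv.swap p (rr N p))]
      refine sum_lt_sum (fun t _ => ?_) ⟨rr N p, mem_univ _, ?_⟩
      · simp only [Function.comp_apply, Equiv.swap_apply_self]
        rw [Equiv.swap_apply_def]
        split_ifs with a c
        · simp [a, k.1, b]
        · rw [c]
          exact Nat.mul_le_mul_right _ (by omega)
        · rfl
      · simp only [Function.comp_apply, Equiv.swap_apply_left, Equiv.swap_apply_right, k.2, b]
        simp only [Bool.false_eq_true, if_false]
        omega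
    have h5 := ih _ (hm ▸ sum_lt_sum (f := fun s => ∑ t : Fin (N + 1), t.1 * b (sg p (x s) t)) (fun s _ => by
      by_cases k : x s p = true ∧ x s (rr N p) = false
      · exact (h4 _ k).le
      · rw [sg, if_neg k]) ⟨s, mem_univ _, h4 _ h2⟩) _ rfl
    simp only [cnt_sg] at h5
    exact .head ⟨p, rfl⟩ h5
  · convert Relation.ReflTransGen.refl with s t
    have h1 : Monotone (x s) := Fin.monotone_iff_le_succ.2 fun p => by
      have h3 := rr_val p.castSucc
      have h4 : rr N p.castSucc = p.succ := Fin.ext (by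
        have := p.2
        simp only [Fin.val_castSucc, Fin.val_succ] at h3 ⊢
        omega)
      have := not_exists.1 (not_exists.1 h s) p.castSucc
      rw [h4] at this
      cases e1 : x s p.castSucc <;> cases e2 : x s p.succ <;> simp_all
    cases e : x s t
    · rw [decide_eq_false_iff_not, not_le, ← Nat.succ_le_iff]
      refine le_trans (le_of_eq (by simp)) ((card_nsmul_le_sum (Iic t) (fun i => b (x s i)) 1
        fun i hi => ?_).trans (sum_le_sum_of_subset (subset_univ _)))
      have := h1 (mem_Iic.1 hi)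
      rw [e] at this
      simp [b, Bool.eq_false_of_le_false this]
    · rw [decide_eq_true_iff, cnt, ← sum_subset (subset_univ (Iio t))]
      · exact (sum_le_card_nsmul _ _ 1 fun i _ => b_le _).trans (by simp)
      · intro i _ hi
        have := h1 (not_lt.1 fun k => hi (mem_Iio.2 k))
        rw [e] at this
        simp [b, Bool.eq_true_of_true_le this]

end Pool.Agent.H32.FM
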