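import Pool.Agent.H32.FM

set_option autoImplicit false

namespace Pool.Agent.H32.FM1

open Finset Pool.Agent.H32.FM

variable {N : ℕ}

abbrev Pm (N : ℕ) := Equiv.Perm (Fin (N + 1))

def lev (τ : Pm N) (s : ℕ) : C N := fun a => decide (s ≤ τ a)

def sp (p : Fin (N + 1)) (τ : Pm N) : Pm N :=
  if τ (rr N p) < τ p then τ * Equiv.swap p (rr N p) else τ

lemma cnt_lev (τ : Pm N) {s : ℕ} (hs : s ≤ N + 1) : cnt (lev τ s) = s := by
  rw [cnt, ← Equiv.sum_comp τ.symm]
  simp only [lev, Equiv.apply_symm_apply]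
  rw [Fin.sum_univ_eq_sum_range fun a => b (decide (s ≤ a)), ← sum_subset (range_mono hs),
    sum_congr rfl (g := fun _ => 1) fun a ha => by simp [b, mem_range.1 ha]]
  · simp
  · intro a _ ha
    simpa [b] using ha

lemma lev_sp (p : Fin (N + 1)) (τ : Pm N) (s : ℕ) : lev (sp p τ) s = sg p (lev τ s) := by
  unfold sp sg
  simp only [lev, decide_eq_true_eq, decide_eq_false_iff_not, Fin.lt_def]
  split_ifs with h1 h2 h2
  · rfl
  · funext t
    simp only [lev, Equiv.Perm.mul_apply, Equiv.swap_apply_def, decide_eq_decide]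
    split_ifs with a c
    · rw [a]
      omega
    · rw [c]
      omega
    · rfl
  · omega
  · rfl

end Pool.Agent.H32.FM1
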