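import Pool.Agent.H32.FM

set_option autoImplicit false

namespace Pool.Agent.H32.FM

open Finset

variable {N : ℕ}

lemma cnt_up {S : C N} {r : Fin (N + 1)} (h : S r = true) :
    cnt (Function.update S r false) = cnt S + 1 := by
  rw [cnt, cnt, ← add_sum_erase _ _ (mem_univ r), ← add_sum_erase _ _ (mem_univ r),
    sum_congr rfl fun t ht => by rw [Function.update_of_ne (mem_erase.1 ht).1]]
  simp [b, h, add_comm]

lemma toggle {A B S : C N} (hAB : ∀ t, b (A t) ≤ b (B t)) (h : cnt B < cnt S) {r : Fin (N + 1)}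
    (hr : S r = true) (hB : (∀ a < r, D B S a = false) ∨ ∀ a < r, D B (Function.update S r false) a = false)
    {a : Fin (N + 1)} (ha : a < r) : D A S a = D A (Function.update S r false) a := by
  have h0 := cnt_up hr
  have h1 : cnt A ≤ cnt B := sum_le_sum fun t _ => hAB t
  have h2 : ∀ t, b (S t) ≤ b (Function.update S r false t) := fun t => by
    by_cases e : t = r
    · simp [e, hr, b]
    · rw [Function.update_of_ne e]
  obtain ⟨u, u1, u2⟩ := unused h (qq_spec h.le)
  have q1 := qq_spec (A := A) (S := S) (by omega)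
  have q2 := qq_spec (A := A) (S := Function.update S r false) (by omega)
  have c1 := cmp (by omega) q1 (qq_spec h.le) hAB (fun _ => le_rfl) u
  have c2 := cmp (by omega) q2 q1 (fun _ => le_rfl) h2 u
  have c3 := cmp (A := B) (by omega) (qq_spec (S := Function.update S r false) (by omega))
    (qq_spec h.le) (fun _ => le_rfl) h2 u
  have c4 := hAB u
  have h3 : r < u := by
    rcases lt_trichotomy r u with k | k | k
    · exact k
    · simp [← k, hr] at u1
    · rcases hB with e | e
      · simpa [D, u2] using e u k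
      · have := e u k
        simp only [D, Bool.or_eq_false_iff, decide_eq_false_iff_not] at this
        omega
  have h4 : qq A S (rr N u) = qq A (Function.update S r false) (rr N u) := by
    rw [q1 u, q2 u]
    omega
  have h5 := cyc_ind (P := fun t => u < t ∨ t ≤ r → qq A S t = qq A (Function.update S r false) t)
    (u := rr N u) (fun _ => h4) (fun t k1 k2 => by
      by_cases e : t = u
      · rw [e, h4]
      · have := rr_val t
        have := u.2
        simp only [Fin.lt_def, Fin.le_def, Fin.ext_iff] at k1 k2 e h3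
        rw [q1 t, q2 t, k1 (by omega), Function.update_of_ne (Fin.ne_of_val_ne (by omega))]) a (.inr ha.le)
  rw [D, D, h5, Function.update_of_ne ha.ne]

abbrev Pm (N : ℕ) := Equiv.Perm (Fin (N + 1))

def lev (τ : Pm N) (s : ℕ) : C N := fun a => decide (s ≤ τ a)

def sp (p : Fin (N + 1)) (τ : Pm N) : Pm N :=
  if τ (rr N p) < τ p then τ * Equiv.swap p (rr N p) else τ

lemma cnt_lev (τ : Pm N) {s : ℕ} (hs : s ≤ N + 1) : cnt (lev τ s) = s := by
  rw [cnt, ← Equiv.sum_comp τ.symm]
  simp only [lev, Equiv.apply_symm_apply]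
  rw [Fin.sum_univ_eq_sum_range fun a => b (decide (s ≤ a)), ← sum_subset (range_mono hs),
    sum_congr rfl (g := fun _ => 1) fun a ha => by simp [b, mem_range.1 ha]]
  · simp
  · intro a _ ha
    simpa [b] using ha

lemma lev_sp (p : Fin (N + 1)) (τ : Pm N) (s : ℕ) : lev (sp p τ) s = sg p (lev τ s) := by
  unfold sp sg
  simp only [lev, decide_eq_true_eq, decide_eq_false_iff_not, Fin.lt_def]
  split_ifs with h1 h2 h2
  · rfl
  · funext t
    simp only [lev, Equiv.Perm.mul_apply, Equiv.swap_apply_def, decide_eq_decide]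
    split_ifs with a c
    · rw [a]
      omega
    · rw [c]
      omega
    · rfl
  · omega
  · rfl

lemma stat {π : Pm N → ℝ} (h : ∀ τ : Pm N, (∑ k, if τ (rr N k) < τ k then π τ else 0) =
    ∑ k, if τ k < τ (rr N k) then π (τ * Equiv.swap k (rr N k)) else 0) (f : Pm N → ℝ) :
    ∑ τ, π τ * ∑ p, f (sp p τ) = (N + 1 : ℕ) * ∑ τ, π τ * f τ := by
  have h1 : ∀ p, ∑ τ, π τ * f (sp p τ) = ∑ τ, (π τ * f τ - (if τ (rr N p) < τ p then π τ else 0) * f τ +
      (if τ p < τ (rr N p) then π (τ * Equiv.swap p (rr N p)) else 0) * f τ) := fun p => by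
    rw [sum_add_distrib, ← Equiv.sum_comp (Equiv.mulRight (Equiv.swap p (rr N p)))
      fun τ => (if τ p < τ (rr N p) then π (τ * Equiv.swap p (rr N p)) else 0) * f τ, ← sum_add_distrib]
    refine sum_congr rfl fun τ _ => ?_
    by_cases k : τ (rr N p) < τ p <;> simp [sp, k]
  simp only [mul_sum]
  rw [sum_comm]
  simp only [h1]
  rw [sum_comm]
  refine sum_congr rfl fun τ _ => ?_
  rw [sum_add_distrib, sum_sub_distrib, ← sum_mul, ← sum_mul, ← sum_mul, h]
  simp [mul_assoc]

lemma card_cnt (j : ℕ) : ∑ S : C N, (if cnt S = j then (1 : ℝ) else 0) = (N + 1).choose j := by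
  rw [sum_boole]
  congr 1
  rw [show (N + 1).choose j = (powersetCard j (univ : Finset (Fin (N + 1)))).card by simp]
  have h : ∀ S : C N, cnt S = (univ.filter fun t => S t = false).card := fun S => by
    rw [cnt, card_filter]
    exact sum_congr rfl fun t _ => by cases S t <;> simp [b]
  refine card_bij' (fun S _ => univ.filter fun t => S t = false) (fun T _ t => decide (t ∉ T))
    (fun S hS => by simpa [h] using hS) (fun T hT => by simpa [h] using hT)
    (fun S _ => by funext t; simp) fun T _ => by simp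

def xx (m j : ℕ) (τ : Pm N) : Option (Fin (m + 1)) → C N := fun o => lev τ (o.elim j Fin.val)

noncomputable def yy (m : ℕ) (τ : Pm N) (S : C N) : Option (Fin (m + 1)) → C N :=
  fun o => o.elim S fun s => D (lev τ s) S

lemma fm {π : Pm N → ℝ} (h : ∀ f : Pm N → ℝ, ∑ τ, π τ * ∑ p, f (sp p τ) = (N + 1 : ℕ) * ∑ τ, π τ * f τ)
    {m j : ℕ} (hm : m < j) (hj : j ≤ N + 1) (f : (Option (Fin (m + 1)) → C N) → ℝ) :
    (N + 1).choose j * ∑ τ, π τ * f (xx m j τ) =
      ∑ τ, π τ * ∑ S, if cnt S = j then f (yy m τ S) else 0 := by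
  have h1 : ∀ (τ : Pm N) (s : Fin (m + 1)), cnt (lev τ s) = s := fun τ s =>
    cnt_lev τ (by have := s.2; omega)
  have := Uniq.uniq_map (fun p (x : Option (Fin (m + 1)) → C N) s => sg p (x s))
    (fun τ => (N + 1).choose j * π τ) (xx m j)
    (fun z : Pm N × C N => if cnt z.2 = j then π z.1 else 0) (fun z => yy m z.1 z.2)
    (fun g => by
      have := h fun τ => g (xx m j τ)
      simp only [mul_assoc, ← mul_sum, Fintype.card_fin]
      rw [mul_left_comm, ← this]
      simp only [xx, ← lev_sp]
      rfl)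
    (fun g => by
      have e : ∀ τ : Pm N, ∑ S : C N, (if cnt S = j then π τ else 0) * ∑ p, g (fun s => sg p (yy m τ S s)) =
          ∑ S : C N, π τ * ∑ p, if cnt S = j then g (yy m (sp p τ) S) else 0 := fun τ => by
        simp only [mul_sum]
        rw [sum_comm, sum_comm (s := (univ : Finset (C N))), ← Fintype.sum_prod_type',
          ← Fintype.sum_prod_type']
        refine Fintype.sum_bijective ph ph_bij _ _ fun ⟨p, S⟩ => ?_
        simp only [ph_snd, cnt_sg]
        split_ifs with k
        · congr 2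
          funext o
          cases o with
          | none => rfl
          | some s =>
            have := s.2
            simp only [yy, Option.elim, lev_sp]
            rw [D_sg (by rw [h1]; omega)]
        · simp
      simp only [Fintype.sum_prod_type, e]
      rw [sum_comm, sum_comm (s := (univ : Finset (Pm N))), mul_sum]
      refine sum_congr rfl fun S _ => ?_
      rw [h fun τ => if cnt S = j then g (yy m τ S) else 0, Fintype.card_fin]
      split_ifs <;> simp)
    (by
      simp only [Fintype.sum_prod_type, ← card_cnt, sum_mul]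
      simp)
    (fun o t => decide (o.elim j Fin.val ≤ t.1)) (fun τ => by
      convert reach (xx m j τ) with o
      cases o with
      | none => exact (cnt_lev τ hj).symm
      | some s => exact (h1 τ s).symm)
    (fun z hz => by
      have k : cnt z.2 = j := by
        by_contra k
        exact hz (if_neg k)
      convert reach (yy m z.1 z.2) with o
      cases o with
      | none => exact k.symm
      | some s =>
        have := s.2
        exact ((cnt_D (by rw [h1]; omega)).trans (h1 _ s)).symm) f
  simp only [mul_assoc, ← mul_sum, Fintype.sum_prod_type] at this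
  rw [this]
  simp [mul_sum]

theorem tail {π : Pm N → ℝ} (h : ∀ f : Pm N → ℝ, ∑ τ, π τ * ∑ p, f (sp p τ) = (N + 1 : ℕ) * ∑ τ, π τ * f τ)
    (r : Fin (N + 1)) (i : Fin (N + 1) → ℕ) {m : ℕ} (hi : ∀ a < r, i a < m) (d : ℕ) :
    ∀ j, m < j → j + d = N + 1 →
    (N + 1) * ∑ τ, π τ * (if (∀ a < r, (τ a : ℕ) = i a) ∧ j ≤ τ r then 1 else 0) =
      d * ∑ τ, π τ * (if ∀ a < r, (τ a : ℕ) = i a then 1 else 0) := by
  classical
  induction d with
  | zero =>
    intro j _ hj
    rw [sum_eq_zero fun τ _ => by rw [if_neg fun k => by have := (τ r).2; omega, mul_zero]]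
    simp
  | succ d ih =>
    intro j hm hj
    let ev : (Option (Fin (m + 1)) → C N) → Prop := fun x =>
      ∀ a < r, ∀ s : Fin (m + 1), x (some s) a = decide (s.1 ≤ i a)
    have e1 : ∀ j (τ : Pm N), ev (xx m j τ) ↔ ∀ a < r, (τ a : ℕ) = i a := fun j τ =>
      forall₂_congr fun a ha => ⟨fun k => by
        have := hi a ha
        have k1 := k ⟨i a, by omega⟩
        have k2 := k ⟨i a + 1, by omega⟩
        simp only [xx, lev, Option.elim, decide_eq_decide] at k1 k2
        omega, fun k s => by simp [xx, lev, k]⟩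
    have f1 := fm h hm (by omega) fun x => if ev x ∧ x none r = true then 1 else 0
    have f2 := fm h (m := m) (j := j + 1) (by omega) (by omega)
      fun x => if ev x ∧ x none r = false then 1 else 0
    have f3 : ∀ τ : Pm N, (∑ S, if cnt S = j then
        (if ev (yy m τ S) ∧ yy m τ S none r = true then (1 : ℝ) else 0) else 0) =
        ∑ S, if cnt S = j + 1 then (if ev (yy m τ S) ∧ yy m τ S none r = false then 1 else 0) else 0 := by
      intro τ
      refine Fintype.sum_bijective (fun S => Function.update S r (!S r))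
        (Function.Involutive.bijective fun S => by simp) _ _ fun S => ?_
      cases e : S r
      · simp [yy, e]
      · have hc := cnt_up e
        simp only [yy, Option.elim, e, Bool.not_true, Function.update_self, and_true, hc,
          Nat.add_right_cancel_iff]
        refine ite_congr rfl (fun k => if_congr ?_ rfl rfl) fun _ => rfl
        have t := fun hB (s : Fin (m + 1)) a ha => toggle (A := lev τ s) (B := lev τ m) (fun t => by
          have := s.2
          simp only [b, lev, decide_eq_true_eq]
          split_ifs <;> omega) (by rw [cnt_lev τ (by omega)]; omega) e hB (a := a) ha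
        refine ⟨fun c a ha s => ?_, fun c a ha s => ?_⟩
        · exact (t (.inl fun a ha => (c a ha (Fin.last m)).trans (by simpa using hi a ha)) s a ha).symm.trans
            (c a ha s)
        · exact (t (.inr fun a ha => (c a ha (Fin.last m)).trans (by simpa using hi a ha)) s a ha).trans
            (c a ha s)
    simp only [f3] at f1
    rw [← f2] at f1
    simp only [e1] at f1
    simp only [xx, lev, Option.elim, decide_eq_true_eq, decide_eq_false_iff_not] at f1
    have f4 : ∑ τ, π τ * (if (∀ a < r, (τ a : ℕ) = i a) ∧ ¬ j + 1 ≤ τ r then (1 : ℝ) else 0) =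
        ∑ τ, π τ * (if ∀ a < r, (τ a : ℕ) = i a then 1 else 0) -
          ∑ τ, π τ * (if (∀ a < r, (τ a : ℕ) = i a) ∧ j + 1 ≤ τ r then 1 else 0) := by
      rw [← sum_sub_distrib]
      refine sum_congr rfl fun τ _ => ?_
      by_cases k1 : ∀ a < r, (τ a : ℕ) = i a <;> by_cases k2 : j + 1 ≤ τ r <;> simp [k1, k2]
    have f5 := ih (j + 1) (by omega) (by omega)
    have f6 : ((N + 1).choose (j + 1) : ℝ) * (j + 1) = (N + 1).choose j * (d + 1) := by
      have := Nat.choose_succ_right_eq (N + 1) j
      rw [show N + 1 - j = d + 1 by omega] at this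
      exact_mod_cast this
    have f7 : (N : ℝ) + 1 = j + (d + 1) := by exact_mod_cast hj.symm
    have f8 : (0 : ℝ) < (N + 1).choose j := by exact_mod_cast Nat.choose_pos (by omega)
    rw [f4] at f1
    refine mul_left_cancel₀ f8.ne' ?_
    push_cast
    linear_combination (N + 1) * f1 - ((N + 1).choose (j + 1) : ℝ) * f5 +
      (∑ τ, π τ * (if ∀ a < r, (τ a : ℕ) = i a then (1 : ℝ) else 0)) * (f6 + ((N + 1).choose (j + 1) : ℝ) * f7)

theorem last {π : Pm N → ℝ} (h : ∀ f : Pm N → ℝ, ∑ τ, π τ * ∑ p, f (sp p τ) = (N + 1 : ℕ) * ∑ τ, π τ * f τ)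
    (r : Fin (N + 1)) (i : Fin (N + 1) → ℕ) (k : Fin (N + 1)) (hi : ∀ a < r, i a + 1 < k) :
    ∑ τ, π τ * (if (∀ a < r, (τ a : ℕ) = i a) ∧ τ r = k then 1 else 0) =
      1 / (N + 1) * ∑ τ, π τ * (if ∀ a < r, (τ a : ℕ) = i a then 1 else 0) := by
  have hk := k.2
  have hi' : ∀ a < r, i a < k - 1 := fun a ha => by have := hi a ha; omega
  have h1 := tail h r i hi' (N - k) (k + 1) (by omega) (by omega)
  have h2 : (N + 1) * ∑ τ, π τ * (if (∀ a < r, (τ a : ℕ) = i a) ∧ k.1 ≤ τ r then 1 else 0) =
      (N - k + 1 : ℕ) * ∑ τ, π τ * (if ∀ a < r, (τ a : ℕ) = i a then 1 else 0) := by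
    rcases Nat.eq_zero_or_pos k with e | e
    · simp [e]
    · exact tail h r i hi' _ _ (by omega) (by omega)
  have h3 : ∑ τ, π τ * (if (∀ a < r, (τ a : ℕ) = i a) ∧ τ r = k then (1 : ℝ) else 0) =
      ∑ τ, π τ * (if (∀ a < r, (τ a : ℕ) = i a) ∧ k.1 ≤ τ r then 1 else 0) -
        ∑ τ, π τ * (if (∀ a < r, (τ a : ℕ) = i a) ∧ k.1 + 1 ≤ τ r then 1 else 0) := by
    rw [← sum_sub_distrib]
    refine sum_congr rfl fun τ _ => ?_
    by_cases k1 : ∀ a < r, (τ a : ℕ) = i a
    · simp only [eq_true k1, true_and, Fin.ext_iff]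
      split_ifs <;> first | omega | simp
    · simp [k1]
  rw [h3]
  push_cast at h2
  field_simp
  linear_combination h2 - h1

end Pool.Agent.H32.FM
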