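import Mathlib

set_option autoImplicit false

namespace Pool.Agent.H32.FR

def cls (μ : ℕ) : ℕ := padicValNat 2 μ

def ln (k : ℕ) : ℕ := k.unpair.1

def Blk (k μ s : ℕ) : Prop :=
  0 < μ ∧ cls μ = k ∧ 4 ^ k ∣ s ∧ 2 * 4 ^ μ ≤ s ∧ s < 2 * 4 ^ μ + 4 ^ (μ - ln k)

def Thick (μ n : ℕ) : Prop :=
  2 * 4 ^ μ ≤ n + 4 ^ (μ - ln (cls μ)) ∧ n < 2 * 4 ^ μ + 2 * 4 ^ (μ - ln (cls μ))

open Classical in
noncomputable def θ (n : ℕ) : ℕ := if Thick (Nat.log 4 n) n then ln (cls (Nat.log 4 n)) else 0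

def Near (n k : ℕ) : Prop := ∃ j, 1 ≤ j ∧ n < j * 4 ^ k + 2 * k ∧ j * 4 ^ k < n + 2 * k

open Classical in
noncomputable def lam (n : ℕ) : ℕ := Nat.findGreatest (Near n) n

noncomputable def e (n : ℕ) : ℕ := lam n + 2 * θ n

noncomputable def w (n t : ℕ) : ℕ := if t < n then t else e n + (t - n)

lemma four_le (k : ℕ) : 4 * k ≤ 4 ^ k := by
  induction k with
  | zero => simp
  | succ k ih =>
    rcases k with _ | k
    · simp
    · rw [pow_succ]; omega

lemma two_le (k : ℕ) : 2 * k ≤ 2 ^ k := by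
  induction k with
  | zero => simp
  | succ k ih =>
    rcases k with _ | k
    · simp
    · rw [pow_succ]; omega

lemma p4 {a b : ℕ} (h : a ≤ b) : 4 ^ a ≤ 4 ^ b := Nat.pow_le_pow_right (by norm_num) h

lemma cls_le (μ : ℕ) : 2 * cls μ ≤ μ := by
  rcases μ.eq_zero_or_pos with rfl | h
  · simp [cls]
  · exact (two_le _).trans (Nat.le_of_dvd h pow_padicValNat_dvd)

lemma ln_le (k : ℕ) : ln k ≤ k := Nat.unpair_left_le k

lemma gap {μ μ' : ℕ} (h : μ' < μ) (hi : ln (cls μ') = ln (cls μ)) : μ' + ln (cls μ) < μ := by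
  have h1 : 2 ^ ln (cls μ) ∣ μ := (pow_dvd_pow 2 (ln_le _)).trans pow_padicValNat_dvd
  have h2 : 2 ^ ln (cls μ) ∣ μ' := hi ▸ (pow_dvd_pow 2 (ln_le _)).trans pow_padicValNat_dvd
  have := Nat.le_of_dvd (by omega) (Nat.dvd_sub h1 h2)
  have := @Nat.lt_two_pow_self (ln (cls μ))
  omega

lemma θ_le (n : ℕ) : 2 * θ n ≤ Nat.log 4 n := by
  unfold θ
  have := cls_le (Nat.log 4 n)
  have := ln_le (cls (Nat.log 4 n))
  split_ifs <;> omega

lemma log_le (n : ℕ) : 4 * Nat.log 4 n ≤ n := by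
  rcases n.eq_zero_or_pos with rfl | h
  · simp
  · exact (four_le _).trans (Nat.pow_log_le_self 4 h.ne')

lemma θ_eq {μ n : ℕ} (h : Thick μ n) : θ n = ln (cls μ) := by
  have h1 := p4 (Nat.sub_le μ (ln (cls μ)))
  have h2 : Nat.log 4 n = μ := Nat.log_eq_of_pow_le_of_lt_pow (by have := h.1; omega) (by
    have := h.2
    rw [pow_succ]
    omega)
  rw [θ, h2, if_pos h]

lemma Near.le {n k : ℕ} (h : Near n k) : 2 * k ≤ n := by
  obtain ⟨j, h1, -, h2⟩ := h
  have := four_le k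
  have := Nat.le_mul_of_pos_left (4 ^ k) h1
  omega

lemma le_lam {n k : ℕ} (h : Near n k) : k ≤ lam n := by
  classical
  exact Nat.le_findGreatest (by have := h.le; omega) h

lemma near_lam {n : ℕ} (h : lam n ≠ 0) : Near n (lam n) := by
  classical
  exact Nat.findGreatest_of_ne_zero rfl h

lemma e_le (n : ℕ) : e n ≤ n := by
  have h1 := θ_le n
  have h2 := log_le n
  have h3 : 2 * lam n ≤ n := by
    by_cases h : lam n = 0
    · omega
    · exact (near_lam h).le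
  unfold e
  omega

lemma w_succ (n t : ℕ) : w n (t + 1) ≤ w n t + 1 := by
  have := e_le n
  unfold w
  split_ifs <;> omega

lemma w_le (n t : ℕ) : w n t ≤ t := by
  have := e_le n
  unfold w
  split_ifs <;> omega

lemma le_w (n t : ℕ) : t ≤ w n t + n := by
  unfold w
  split_ifs <;> omega

lemma Blk.lt {k μ s : ℕ} (h : Blk k μ s) : s < 3 * 4 ^ μ := by
  have h1 := p4 (Nat.sub_le μ (ln k))
  have := h.2.2.2.2
  omega

lemma Blk.two {k μ s : ℕ} (h : Blk k μ s) : 2 * k ≤ μ := h.2.1 ▸ cls_le μ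

lemma Blk.mono {k μ s k' μ' s' : ℕ} (h : Blk k μ s) (h' : Blk k' μ' s') (hs : s ≤ s') :
    μ ≤ μ' := by
  by_contra hc
  have h1 := p4 (show μ' + 1 ≤ μ by omega)
  have := h'.lt
  have := h.2.2.2.1
  rw [pow_succ] at h1
  omega

lemma Blk.cls_eq {k μ s k' μ' : ℕ} (h : Blk k μ s) (h' : Blk k' μ' s) : k = k' := by
  rw [← h.2.1, ← h'.2.1, (h.mono h' le_rfl).antisymm (h'.mono h le_rfl)]

lemma Blk.sep {k μ s k' μ' s' : ℕ} (h : Blk k μ s) (h' : Blk k' μ' s') (hs : s < s') :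
    s + 4 ^ k ≤ s' ∧ s + 4 ^ k' ≤ s' := by
  rcases (h.mono h' hs.le).eq_or_lt with rfl | hl
  · obtain rfl : k = k' := h.2.1.symm.trans h'.2.1
    have := Nat.le_of_dvd (by omega) (Nat.dvd_sub h'.2.2.1 h.2.2.1)
    omega
  · have h1 := p4 (show μ + 1 ≤ μ' from hl)
    have h2 := p4 (show k ≤ μ' by have := h.two; omega)
    have h3 := p4 (show k' ≤ μ' by have := h'.two; omega)
    have := h.lt
    have := h'.2.2.2.1
    rw [pow_succ] at h1
    omega

lemma conflict {k μ s k' μ' s' n t t' : ℕ} (h : Blk k μ s) (h' : Blk k' μ' s') (hi : ln k = ln k')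
    (h1 : n ≤ t) (h2 : e n + (t - n) < θ n + k) (h3 : t' < n) (h4 : t' < θ n + k')
    (h5 : s + t = s' + t') : θ n = ln k := by
  unfold e at h2
  rcases (h.mono h' (by omega)).eq_or_lt with rfl | hl
  · obtain rfl : k = k' := h.2.1.symm.trans h'.2.1
    obtain ⟨j, hj⟩ := Nat.dvd_sub h'.2.2.1 h.2.2.1
    have := le_lam (n := n) (k := k) ⟨j, Nat.pos_of_ne_zero (by rintro rfl; omega), by
      rw [mul_comm j]; omega, by rw [mul_comm j]; omega⟩
    omega
  · have g := gap hl (by rw [h.2.1, h'.2.1, hi])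
    have a1 := p4 (show μ + 1 ≤ μ' - ln (cls μ') by omega)
    have a2 := p4 (show k' ≤ μ' - ln (cls μ') by
      have := h'.two; have := ln_le k'; rw [h'.2.1]; omega)
    have a3 := four_le μ
    have a4 := four_le k'
    have a5 := h.two
    have a6 := h.lt
    have a7 := h'.2.2.2
    rw [pow_succ] at a1
    rw [hi, ← h'.2.1]
    rw [← h'.2.1] at a7
    exact θ_eq ⟨by omega, by omega⟩

lemma far {k μ s n t L : ℕ} (h : Blk k μ s) (h1 : t < θ n + k) (h2 : n ≤ s + t) (h3 : θ n ≠ ln k)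
    (h4 : 4 ^ (2 * L + 1) ≤ s + t) : θ n + L + n ≤ s + t := by
  have a1 := θ_le n
  have a2 := log_le n
  have a3 := four_le μ
  have a4 := h.two
  have a5 := h.lt
  have a6 : Nat.log 4 n < μ + 1 := Nat.log_lt_of_lt_pow' (by omega) (by rw [pow_succ]; omega)
  have a7 : 2 ^ μ ≤ 4 ^ (μ - ln k) := by
    rw [show 4 = 2 ^ 2 from rfl, ← pow_mul]
    exact Nat.pow_le_pow_right (by norm_num) (by have := ln_le k; omega)
  have a8 := @Nat.lt_two_pow_self μ
  have a9 : 2 * L + 1 < μ + 1 := (Nat.pow_lt_pow_iff_right (a := 4) (by norm_num)).1 (by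
    rw [pow_succ 4 μ]; omega)
  have b1 : ¬Thick μ n := fun k => h3 (by rw [θ_eq k, h.2.1])
  have b2 := h.2.2.2
  rw [Thick, h.2.1] at b1
  omega

lemma cnt_low (k s₀ : ℕ) : ∃ δ : ℝ, 0 < δ ∧ ∃ N₀ : ℕ, ∀ N, N₀ ≤ N → ∀ p : ℕ → Prop,
    (∀ n μ, Blk k μ (n + s₀) → p n) → δ * N ≤ ({n : ℕ | 1 ≤ n ∧ n ≤ N ∧ p n}.ncard : ℕ) := by
  refine ⟨1 / 4 ^ (2 * k + 2 ^ (k + 1) + 1), by positivity, 4 ^ (s₀ + 2 ^ (k + 1) + 1),
    fun N hN p hp => ?_⟩
  have h0 : N ≠ 0 := by have := Nat.one_le_pow (s₀ + 2 ^ (k + 1) + 1) 4 (by norm_num); omega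
  have h1 := Nat.le_log_of_pow_le (by norm_num) hN
  have h2 := Nat.pow_log_le_self 4 h0
  have h3 := Nat.lt_pow_succ_log_self (b := 4) (by norm_num) N
  generalize Nat.log 4 N = l at h1 h2 h3
  have h4 := Nat.div_add_mod (l - 1 - 2 ^ k) (2 ^ (k + 1))
  have h5 := Nat.mod_lt (l - 1 - 2 ^ k) (show 0 < 2 ^ (k + 1) by positivity)
  generalize (l - 1 - 2 ^ k) / 2 ^ (k + 1) = a at h4
  obtain ⟨μ, hμ⟩ : ∃ μ, μ = 2 ^ k + 2 ^ (k + 1) * a := ⟨_, rfl⟩
  have h6 : 2 ^ (k + 1) = 2 * 2 ^ k := pow_succ' 2 k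
  have h7 := Nat.one_le_two_pow (n := k)
  have hc : cls μ = k := by
    rw [hμ, show 2 ^ k + 2 ^ (k + 1) * a = 2 ^ k * (2 * a + 1) by ring, cls,
      padicValNat.mul (by positivity) (by omega), padicValNat.prime_pow,
      padicValNat.eq_zero_of_not_dvd (by omega), add_zero]
  have h8 := hc ▸ cls_le μ
  have h9 := p4 (show μ + 1 ≤ l by omega)
  have a1 := four_le μ
  have a2 := p4 (show μ - k ≤ μ - ln k by have := ln_le k; omega)
  have a3 := p4 (Nat.sub_le μ (ln k))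
  have a4 : 4 ^ k * 4 ^ (μ - 2 * k) = 4 ^ (μ - k) := by rw [← pow_add]; congr 1; omega
  rw [pow_succ] at h9
  have key : 4 ^ (μ - 2 * k) ≤ {n : ℕ | 1 ≤ n ∧ n ≤ N ∧ p n}.ncard := by
    rw [← Finset.card_range (4 ^ (μ - 2 * k)), ← Set.ncard_coe_finset]
    refine Set.ncard_le_ncard_of_injOn (fun j => 2 * 4 ^ μ + 4 ^ k * j - s₀) (fun j hj => ?_)
      (fun j _ j' _ e => Nat.eq_of_mul_eq_mul_left (show 0 < 4 ^ k by positivity) (by
        simp only at e; omega)) ((Set.finite_le_nat N).subset fun n hn => hn.2.1)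
    have b1 := Nat.mul_lt_mul_of_pos_left (Finset.mem_range.1 hj) (show 0 < 4 ^ k by positivity)
    refine ⟨by omega, by omega, hp _ μ ?_⟩
    rw [Nat.sub_add_cancel (by omega)]
    exact ⟨by omega, hc, Dvd.dvd.add (Dvd.dvd.mul_left (pow_dvd_pow 4 (by omega)) 2)
      (Dvd.intro _ rfl), by omega, by omega⟩
  have b2 : N ≤ 4 ^ (μ - 2 * k) * 4 ^ (2 * k + 2 ^ (k + 1) + 1) := by
    rw [← pow_add]
    exact h3.le.trans (p4 (by omega))
  rw [one_div_mul_eq_div, div_le_iff₀ (by positivity)]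
  exact_mod_cast b2.trans (Nat.mul_le_mul_right _ key)

lemma cnt_up {Q : ℕ} (hQ : 0 < Q) (N : ℕ) :
    ({n : ℕ | n ≤ N ∧ 3 * Q ≤ e n}.ncard : ℝ) ≤ 20 * N / 2 ^ Q := by
  classical
  let A := (Finset.Ico Q (N + 1)).biUnion fun k => (Finset.range (2 * N / 4 ^ k) ×ˢ
    Finset.range (4 * k)).image fun p => (p.1 + 1) * 4 ^ k + p.2 - 2 * k
  let B := (Finset.Ico Q (Nat.log 4 N + 1)).biUnion fun μ =>
    Finset.Ico (2 * 4 ^ μ - 4 ^ (μ - Q)) (2 * 4 ^ μ + 2 * 4 ^ (μ - Q))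
  have h1 : {n : ℕ | n ≤ N ∧ 3 * Q ≤ e n} ⊆ ↑(A ∪ B) := by
    rintro n ⟨h1, h2⟩
    rw [Finset.mem_coe, Finset.mem_union]
    unfold e at h2
    by_cases h : Q ≤ lam n
    · have h3 := near_lam (n := n) (by omega)
      have h4 := h3.le
      obtain ⟨j, h5, h6, h7⟩ := h3
      obtain ⟨j, rfl⟩ := Nat.exists_eq_add_of_le' h5
      refine Or.inl (Finset.mem_biUnion.2 ⟨lam n, Finset.mem_Ico.2 ⟨h, by omega⟩,
        Finset.mem_image.2 ⟨(j, n + 2 * lam n - (j + 1) * 4 ^ lam n), Finset.mem_product.2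
        ⟨Finset.mem_range.2 ((Nat.le_div_iff_mul_le (by positivity)).2 (by
          change (j + 1) * _ ≤ _; omega)), Finset.mem_range.2 (by omega)⟩, by dsimp only; omega⟩⟩)
    · have h3 := θ_le n
      have h4 : Q ≤ θ n := by omega
      have h5 : Thick (Nat.log 4 n) n := by
        by_contra k
        rw [θ, if_neg k] at h4
        omega
      have h6 := p4 (show Nat.log 4 n - ln (cls (Nat.log 4 n)) ≤ Nat.log 4 n - Q by
        rw [← θ_eq h5]; omega)
      have h7 := Nat.log_mono_right (b := 4) h1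
      exact Or.inr (Finset.mem_biUnion.2 ⟨Nat.log 4 n, Finset.mem_Ico.2 ⟨by omega, by omega⟩,
        Finset.mem_Ico.2 ⟨by have := h5.1; omega, by have := h5.2; omega⟩⟩)
  have hA : (A.card : ℝ) ≤ 16 * N / 2 ^ Q := by
    calc (A.card : ℝ) ≤ ∑ k ∈ Finset.Ico Q (N + 1), 8 * N * (1 / 2 : ℝ) ^ k := by
          refine (Nat.cast_le.2 Finset.card_biUnion_le).trans ?_
          rw [Nat.cast_sum]
          refine Finset.sum_le_sum fun k _ => (Nat.cast_le.2 Finset.card_image_le).trans ?_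
          rw [Finset.card_product, Finset.card_range, Finset.card_range, one_div, inv_pow,
            ← div_eq_mul_inv, le_div_iff₀ (by positivity)]
          have a1 := Nat.div_mul_le_self (2 * N) (4 ^ k)
          have a2 : k * 2 ^ k ≤ 4 ^ k := by
            rw [show 4 = 2 * 2 from rfl, mul_pow]
            exact Nat.mul_le_mul_right _ Nat.lt_two_pow_self.le
          have a3 := Nat.mul_le_mul_left (2 * N / 4 ^ k) a2
          exact_mod_cast (show 2 * N / 4 ^ k * (4 * k) * 2 ^ k ≤ 8 * N by nlinarith)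
      _ ≤ 16 * N / 2 ^ Q := by
          rw [← Finset.mul_sum]
          refine (mul_le_mul_of_nonneg_left (geom_sum_Ico_le_of_lt_one (by norm_num)
            (by norm_num)) (by positivity)).trans_eq ?_
          rw [one_div, inv_pow]
          ring
  have hB : B.card * 4 ^ Q ≤ 4 * N := by
    have a1 : ∀ l, ∑ μ ∈ Finset.range l, 3 * 4 ^ μ < 4 ^ l := fun l => by
      induction l with
      | zero => simp
      | succ l ih => rw [Finset.sum_range_succ, pow_succ]; omega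
    rcases N.eq_zero_or_pos with rfl | hN
    · simp [B, Finset.Ico_eq_empty_of_le (show 1 ≤ Q from hQ)]
    refine (Nat.mul_le_mul_right _ Finset.card_biUnion_le).trans ?_
    rw [Finset.sum_mul]
    refine (Finset.sum_le_sum (g := fun μ => 3 * 4 ^ μ) fun μ hμ => ?_).trans
      ((Finset.sum_le_sum_of_subset fun μ hμ => Finset.mem_range.2 (Finset.mem_Ico.1 hμ).2).trans
        ((a1 _).le.trans (by rw [pow_succ']; exact Nat.mul_le_mul_left _ (Nat.pow_log_le_self 4 hN.ne'))))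
    rw [Nat.card_Ico, ← Nat.sub_add_cancel (Finset.mem_Ico.1 hμ).1, pow_add, Nat.add_sub_cancel,
      ← mul_assoc 3]
    exact Nat.mul_le_mul_right _ (by omega)
  have hB' : (B.card : ℝ) ≤ 4 * N / 2 ^ Q := by
    rw [le_div_iff₀ (by positivity)]
    exact_mod_cast (Nat.mul_le_mul_left _ (Nat.pow_le_pow_left (by norm_num) Q)).trans hB
  have h2 := (Set.ncard_le_ncard h1 (Finset.finite_toSet _)).trans
    ((Set.ncard_coe_finset _).trans_le (Finset.card_union_le A B))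
  have h3 : ({n : ℕ | n ≤ N ∧ 3 * Q ≤ e n}.ncard : ℝ) ≤ A.card + B.card := by exact_mod_cast h2
  linarith [show (20 : ℝ) * N / 2 ^ Q = 16 * N / 2 ^ Q + 4 * N / 2 ^ Q by ring]

end Pool.Agent.H32.FR
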