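import Pool.Agent.H32.FRArith

set_option autoImplicit false

namespace Pool.Agent.H32.FR

open Filter Topology

variable (𝕜 : Type) [RCLike 𝕜]

abbrev Z := ZeroAtInftyContinuousMap (ℕ × ℕ) 𝕜

abbrev X := (𝕜 × 𝕜) × Z 𝕜

noncomputable def d (a : ℕ) : 𝕜 := Nat.casesOn a 0 (TopologicalSpace.denseSeq 𝕜)

noncomputable def r (i : ℕ) : 𝕜 := if ‖d 𝕜 i.unpair.1‖ ≤ i then d 𝕜 i.unpair.1 else 0

variable {𝕜}

lemma d_dense (c : 𝕜) {ε : ℝ} (hε : 0 < ε) : ∃ a, ‖d 𝕜 a - c‖ < ε := by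
  obtain ⟨a, ha⟩ := (TopologicalSpace.denseRange_denseSeq 𝕜).exists_dist_lt c hε
  exact ⟨a + 1, by rwa [dist_comm, dist_eq_norm] at ha⟩

lemma r_dense (c : 𝕜) {ε : ℝ} (hε : 0 < ε) : ∃ i, ‖r 𝕜 i - c‖ < ε := by
  obtain ⟨a, ha⟩ := d_dense c hε
  refine ⟨Nat.pair a ⌈‖d 𝕜 a‖⌉₊, ?_⟩
  rwa [r, Nat.unpair_pair, if_pos (Nat.ceil_le.1 (Nat.right_le_pair _ _))]

lemma le_norm (f : Z 𝕜) (p : ℕ × ℕ) : ‖f p‖ ≤ ‖f‖ := f.toBCF.norm_coe_le_norm p

lemma norm_le (f : Z 𝕜) {C : ℝ} (hC : 0 ≤ C) (h : ∀ p, ‖f p‖ ≤ C) : ‖f‖ ≤ C :=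
  (BoundedContinuousFunction.norm_le (f := f.toBCF) hC).2 h

def mk (f : ℕ × ℕ → 𝕜) (h : Tendsto f cofinite (𝓝 0)) : Z 𝕜 :=
  ⟨⟨f, continuous_of_discreteTopology⟩, by rwa [cocompact_eq_cofinite]⟩

lemma tends (f : Z 𝕜) : Tendsto f cofinite (𝓝 0) := cocompact_eq_cofinite (ℕ × ℕ) ▸ f.zero_at_infty'

lemma c0 {f : ℕ × ℕ → 𝕜} {C : ℝ}
    (h : ∀ L : ℕ, ∃ R, ∀ n t, t + 1 < n ∨ R ≤ t → ‖f (n, t)‖ ≤ C / 2 ^ L) :
    Tendsto f cofinite (𝓝 0) := by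
  refine NormedAddGroup.tendsto_nhds_zero.2 fun ε hε => ?_
  obtain ⟨L, hL⟩ := ((tendsto_const_nhds.div_atTop (tendsto_pow_atTop_atTop_of_one_lt
    (r := (2 : ℝ)) one_lt_two) (a := C)).eventually (gt_mem_nhds hε)).exists
  obtain ⟨R, hR⟩ := h L
  refine ((Set.finite_le_nat R).prod (Set.finite_le_nat R)).subset fun p hp => ?_
  have : ¬(p.2 + 1 < p.1 ∨ R ≤ p.2) := fun k => hp ((hR _ _ k).trans_lt hL)
  exact ⟨show p.1 ≤ R by omega, show p.2 ≤ R by omega⟩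

lemma dv {c : 𝕜} {C : ℝ} {i j L : ℕ} (hc : ‖c‖ ≤ 2 ^ i * C) (h : i + L ≤ j) :
    ‖c / 2 ^ j‖ ≤ C / 2 ^ L := by
  have hC : 0 ≤ C := nonneg_of_mul_nonneg_right ((norm_nonneg c).trans hc) (by positivity)
  rw [norm_div, norm_pow, RCLike.norm_two, div_le_div_iff₀ (by positivity) (by positivity)]
  calc ‖c‖ * 2 ^ L ≤ 2 ^ i * C * 2 ^ L := by gcongr
    _ = C * 2 ^ (i + L) := by ring
    _ ≤ C * 2 ^ j := by gcongr; norm_num

noncomputable def h (i : ℕ) (v : 𝕜 × 𝕜) : 𝕜 := v.1 - r 𝕜 i * v.2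

lemma h_le (i : ℕ) (v : 𝕜 × 𝕜) : ‖h i v‖ ≤ 2 ^ i * ‖v‖ := by
  have h1 : ‖r 𝕜 i‖ ≤ i := by
    unfold r
    split_ifs with k
    exacts [k, by simp]
  have h2 : (i : ℝ) + 1 ≤ 2 ^ i := by exact_mod_cast Nat.lt_two_pow_self
  have h3 := norm_fst_le v
  have h4 := mul_le_mul h1 (norm_snd_le v) (norm_nonneg _) i.cast_nonneg
  have h5 := mul_le_mul_of_nonneg_right h2 (norm_nonneg v)
  refine (norm_sub_le _ _).trans ?_
  rw [norm_mul]
  linarith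

noncomputable def b (v : 𝕜 × 𝕜) (p : ℕ × ℕ) : 𝕜 := if p.1 ≤ p.2 then h (θ p.1) v else 0

noncomputable def U (x : X 𝕜) (p : ℕ × ℕ) : 𝕜 := b x.1 p + 2 ^ w p.1 p.2 * x.2 p

lemma jump (v : 𝕜 × 𝕜) {n t L : ℕ} (hL : t + 1 < n ∨ 2 * L ≤ t) :
    ‖(b v (n, t + 1) - b v (n, t)) / 2 ^ w n t‖ ≤ ‖v‖ / 2 ^ L := by
  by_cases k : n = t + 1
  · have h1 := θ_le n
    have h2 := log_le n
    refine dv (i := θ n) ?_ (by rw [w, if_pos (by omega)]; omega)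
    simp only [b]
    rw [if_pos (by omega), if_neg (by omega), sub_zero]
    exact h_le _ _
  · have : b v (n, t + 1) = b v (n, t) := if_congr (by dsimp only; omega) rfl rfl
    rw [this, sub_self, zero_div, norm_zero]
    positivity

lemma step (x : X 𝕜) (p : ℕ × ℕ) : ‖(U x (p.1, p.2 + 1) - b x.1 p) / 2 ^ w p.1 p.2‖ ≤
    ‖(b x.1 (p.1, p.2 + 1) - b x.1 p) / 2 ^ w p.1 p.2‖ + 2 * ‖x.2 (p.1, p.2 + 1)‖ := by
  rw [U, add_sub_right_comm, add_div]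
  refine (norm_add_le _ _).trans (add_le_add_right ((dv (i := w p.1 p.2) (L := 0)
    (C := 2 * ‖x.2 (p.1, p.2 + 1)‖) ?_ le_rfl).trans_eq (by simp)) _)
  rw [norm_mul, norm_pow, RCLike.norm_two, ← mul_assoc, ← pow_succ]
  exact mul_le_mul_of_nonneg_right (pow_le_pow_right₀ one_le_two (w_succ _ _)) (norm_nonneg _)

noncomputable def Tz (x : X 𝕜) : Z 𝕜 :=
  mk (fun p => (U x (p.1, p.2 + 1) - b x.1 p) / 2 ^ w p.1 p.2) (squeeze_zero_norm (step x) (by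
    simpa using (c0 (f := fun p => (b x.1 (p.1, p.2 + 1) - b x.1 p) / 2 ^ w p.1 p.2)
      fun L => ⟨2 * L, fun n t => jump x.1⟩).norm.add (((tends x.2).comp
      (Function.Injective.tendsto_cofinite (f := fun p : ℕ × ℕ => (p.1, p.2 + 1))
        fun p q e => by grind)).norm.const_mul 2)))

lemma Tz_apply (x : X 𝕜) (p : ℕ × ℕ) :
    Tz x p = (U x (p.1, p.2 + 1) - b x.1 p) / 2 ^ w p.1 p.2 := rfl

variable (𝕜) in
noncomputable def T : X 𝕜 →L[𝕜] X 𝕜 := LinearMap.mkContinuous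
  { toFun := fun x => (x.1, Tz x)
    map_add' := fun x y => Prod.ext rfl (ZeroAtInftyContinuousMap.ext fun p => by
      simp only [Prod.snd_add, ZeroAtInftyContinuousMap.add_apply, Tz_apply, U, b, h,
        Prod.fst_add]
      split_ifs <;> ring)
    map_smul' := fun c x => Prod.ext rfl (ZeroAtInftyContinuousMap.ext fun p => by
      simp only [Prod.smul_snd, ZeroAtInftyContinuousMap.smul_apply, Tz_apply, U, b, h,
        Prod.smul_fst, smul_eq_mul, RingHom.id_apply]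
      split_ifs <;> ring) } 3 fun x => by
    have h1 := norm_fst_le x
    have h2 := norm_snd_le x
    refine max_le (h1.trans (by linarith [norm_nonneg x])) (norm_le _ (by positivity) fun p =>
      (step x p).trans ?_)
    have h3 := jump x.1 (n := p.1) (t := p.2) (L := 0) (Or.inr (Nat.zero_le _))
    have h4 := le_norm x.2 (p.1, p.2 + 1)
    rw [pow_zero, div_one] at h3
    linarith

lemma T_pow (s : ℕ) (x : X 𝕜) :
    ((T 𝕜 ^ s) x).1 = x.1 ∧ ∀ n t, U ((T 𝕜 ^ s) x) (n, t) = U x (n, s + t) := by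
  induction s generalizing x with
  | zero => simp
  | succ s ih =>
    rw [pow_succ, mul_apply_eq_comp]
    refine ⟨(ih _).1, fun n t => ((ih _).2 n t).trans ?_⟩
    change b x.1 _ + _ * Tz x _ = _
    rw [Tz_apply, mul_div_cancel₀ _ (by simp), add_sub_cancel, add_right_comm]

lemma T_snd (s : ℕ) (x : X 𝕜) (n t : ℕ) :
    ((T 𝕜 ^ s) x).2 (n, t) = (U x (n, s + t) - b x.1 (n, t)) / 2 ^ w n t := by
  rw [← (T_pow s x).2, U, (T_pow s x).1, add_sub_cancel_left, mul_div_cancel_left₀ _ (by simp)]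

lemma U_mk (v : 𝕜 × 𝕜) (u : ℕ × ℕ → 𝕜) (k) (p : ℕ × ℕ) :
    U (v, mk (fun p => (u p - b v p) / 2 ^ w p.1 p.2) k) p = u p := by
  change b v p + _ * ((u p - b v p) / _) = _
  rw [mul_div_cancel₀ _ (by simp), add_sub_cancel]

lemma bin {i : ℕ} {v : 𝕜 × 𝕜} (hv : h i v = 0) : ∃ z : Z 𝕜, ∀ k μ s, Blk k μ s → ln k = i →
    ‖((T 𝕜 ^ s) (v, z)).2‖ ≤ ‖v‖ / 2 ^ k := by
  classical
  let u : ℕ × ℕ → 𝕜 := fun p => if p.2 < p.1 ∨ ∃ k μ s t, Blk k μ s ∧ ln k = i ∧ t < p.1 ∧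
    t < θ p.1 + k ∧ p.2 = s + t then 0 else h (θ p.1) v
  have hu : ∀ n τ t, ‖u (n, τ) - b v (n, t)‖ ≤ 2 ^ θ n * ‖v‖ := fun n τ t => by
    simp only [u, b]
    split_ifs <;> simp [h_le]
  refine ⟨mk (fun p => (u p - b v p) / 2 ^ w p.1 p.2) (c0 (C := ‖v‖) fun L =>
    ⟨4 ^ (2 * L + 1), fun n τ hτ => ?_⟩), fun k μ s hs hk => norm_le _ (by positivity) ?_⟩
  · by_cases k : u (n, τ) = b v (n, τ)
    · rw [k, sub_self, zero_div, norm_zero]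
      positivity
    refine dv (hu _ _ _) ?_
    simp only [u, b] at k
    split_ifs at k with h1 h2 h2
    · obtain ⟨k', μ, s, t, a1, a2, -, a3, rfl⟩ := h1.resolve_left (by omega)
      have := far a1 a3 h2 (fun e => k (by rw [e, a2, hv])) (hτ.resolve_left (by omega))
      have := le_w n (s + t)
      dsimp only
      omega
    · exact absurd rfl k
    · exact absurd rfl k
    · exact absurd (Or.inl (by omega)) h1
  · rintro ⟨n, t⟩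
    rw [T_snd, U_mk]
    by_cases a : θ n + k ≤ w n t
    · exact dv (hu _ _ _) a
    suffices u (n, s + t) = b v (n, t) by
      rw [this, sub_self, zero_div, norm_zero]
      positivity
    simp only [u, b]
    by_cases h1 : t < n
    · rw [w, if_pos h1] at a
      rw [if_pos (Or.inr ⟨k, μ, s, t, hs, hk, h1, by omega, rfl⟩), if_neg (by omega)]
    · rw [w, if_neg h1] at a
      rw [if_pos (show n ≤ t by omega)]
      split_ifs with h2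
      · obtain ⟨k', μ', s', t', a1, a2, a3, a4, a5⟩ := h2.resolve_left (by omega)
        rw [conflict hs a1 (hk.trans a2.symm) (by omega) (by omega) a3 a4 a5, hk, hv]
      · rfl

noncomputable def g : ℕ → ((ℕ × ℕ) →₀ ℕ) := (exists_surjective_nat _).choose

variable (𝕜) in
noncomputable def pp (k : ℕ) (q : ℕ × ℕ) : 𝕜 :=
  if q.1 < k ∧ q.2 < k ∧ ‖d 𝕜 (g k.unpair.2.unpair.1 q)‖ ≤ k then d 𝕜 (g k.unpair.2.unpair.1 q)
  else 0

lemma pp_le (k : ℕ) (q : ℕ × ℕ) : ‖pp 𝕜 k q‖ ≤ 2 ^ k := by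
  have h2 : (k : ℝ) ≤ 2 ^ k := by exact_mod_cast Nat.lt_two_pow_self.le
  unfold pp
  split_ifs with a
  exacts [a.2.2.trans h2, by simp]

lemma pp_ne {k : ℕ} {q : ℕ × ℕ} (a : pp 𝕜 k q ≠ 0) : q.1 < k ∧ q.2 < k := by
  by_contra c
  exact a (if_neg fun e => c ⟨e.1, e.2.1⟩)

lemma pp_dense (i K : ℕ) (y : Z 𝕜) {ε : ℝ} (hε : 0 < ε) :
    ∃ k, K ≤ k ∧ ln k = i ∧ ∀ q, ‖pp 𝕜 k q - y q‖ ≤ ε := by
  classical
  have hF := NormedAddGroup.tendsto_nhds_zero.1 (tends y) ε hε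
  rw [eventually_cofinite] at hF
  choose a ha using fun q => d_dense (y q) hε
  obtain ⟨c, hc⟩ := (exists_surjective_nat ((ℕ × ℕ) →₀ ℕ)).choose_spec
    (Finsupp.onFinset hF.toFinset (fun q => if q ∈ hF.toFinset then a q else 0) fun q => by
      split_ifs <;> simp_all)
  obtain ⟨M, hM⟩ := (hF.image fun q => q.1 + q.2 + ⌈‖d 𝕜 (a q)‖⌉₊).bddAbove
  have k1 := (Nat.right_le_pair c (M + K + 1)).trans (Nat.right_le_pair i _)
  refine ⟨Nat.pair i (Nat.pair c (M + K + 1)), by omega, by rw [ln, Nat.unpair_pair], fun q => ?_⟩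
  simp only [pp, Nat.unpair_pair, g, hc, Finsupp.onFinset_apply]
  by_cases hq : q ∈ hF.toFinset
  · have := hM ⟨q, hF.mem_toFinset.1 hq, rfl⟩
    dsimp only at this
    rw [if_pos hq, if_pos ⟨by omega, by omega, Nat.ceil_le.1 (by omega)⟩]
    exact (ha q).le
  · rw [if_neg hq, show d 𝕜 0 = 0 from rfl, ite_self, zero_sub, norm_neg]
    exact (not_not.1 (hF.mem_toFinset.not.1 hq)).le

lemma pert : ∃ z : Z 𝕜, ∀ k μ s, Blk k μ s → ∀ q,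
    ‖((T 𝕜 ^ s) (0, z)).2 q - pp 𝕜 k q‖ ≤ 1 / 2 ^ k := by
  classical
  let u : ℕ × ℕ → 𝕜 := fun p => if a : ∃ c : ℕ × ℕ × ℕ, Blk c.1 c.2.1 c.2.2 ∧ c.2.2 ≤ p.2 ∧
    p.2 < c.2.2 + c.1 then 2 ^ w p.1 (p.2 - a.choose.2.2) * pp 𝕜 a.choose.1 (p.1, p.2 - a.choose.2.2)
    else 0
  have b0 : ∀ p, b (0 : 𝕜 × 𝕜) p = 0 := fun p => by simp [b, h]
  have hu : ∀ n τ, u (n, τ) ≠ 0 → ∃ k μ s, Blk k μ s ∧ s ≤ τ ∧ τ < s + k ∧ n < k ∧
      ‖u (n, τ)‖ ≤ 2 ^ (2 * k) * 1 := fun n τ a => by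
    simp only [u] at a ⊢
    split_ifs at a ⊢ with c
    · obtain ⟨a1, a2, a3⟩ := c.choose_spec
      obtain ⟨a4, a5⟩ := pp_ne (right_ne_zero_of_mul a)
      refine ⟨_, _, _, a1, a2, a3, a4, ?_⟩
      rw [norm_mul, norm_pow, RCLike.norm_two, mul_one, two_mul, pow_add]
      exact mul_le_mul (pow_le_pow_right₀ one_le_two ((w_le _ _).trans a5.le)) (pp_le _ _)
        (norm_nonneg _) (by positivity)
    · exact absurd rfl a
  refine ⟨mk (fun p => (u p - b 0 p) / 2 ^ w p.1 p.2) (c0 (C := 1) fun L =>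
    ⟨2 * L, fun n τ hτ => ?_⟩), fun k μ s hs => ?_⟩
  · rw [b0, sub_zero]
    by_cases a : u (n, τ) = 0
    · rw [a, zero_div, norm_zero]
      positivity
    obtain ⟨k, μ, s, a1, a2, a3, a4, a5⟩ := hu n τ a
    have := le_w n τ
    have := four_le μ
    have := a1.two
    have := a1.2.2.2.1
    exact dv a5 (by dsimp only; omega)
  · rintro ⟨n, t⟩
    rw [T_snd, U_mk, b0, sub_zero]
    have a0 := four_le k
    by_cases ht : t < k
    · have c : ∃ c : ℕ × ℕ × ℕ, Blk c.1 c.2.1 c.2.2 ∧ c.2.2 ≤ s + t ∧ s + t < c.2.2 + c.1 :=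
        ⟨(k, μ, s), hs, by dsimp only; omega⟩
      obtain ⟨a1, a2, a3⟩ := c.choose_spec
      have a4 := four_le c.choose.1
      have e : c.choose.2.2 = s := by
        rcases lt_trichotomy c.choose.2.2 s with l | l | l
        · have := a1.sep hs l
          omega
        · exact l
        · have := hs.sep a1 l
          omega
      have e' : c.choose.1 = k := a1.cls_eq (e ▸ hs)
      simp only [u]
      rw [dif_pos c, e, e', Nat.add_sub_cancel_left, mul_div_cancel_left₀ _ (by simp), sub_self,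
        norm_zero]
      positivity
    · rw [show pp 𝕜 k (n, t) = 0 from by_contra fun a => ht (pp_ne a).2, sub_zero]
      by_cases a : u (n, s + t) = 0
      · rw [a, zero_div, norm_zero]
        positivity
      obtain ⟨k', μ', s', a1, a2, a3, a4, a5⟩ := hu n _ a
      have := le_w n t
      have := four_le k'
      refine dv a5 ?_
      rcases lt_trichotomy s' s with l | rfl | l
      · have := a1.sep hs l
        omega
      · have := a1.cls_eq hs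
        omega
      · have := hs.sep a1 l
        omega

lemma visit {i : ℕ} {v : 𝕜 × 𝕜} (hv : h i v = 0) : ∃ z : Z 𝕜, ∀ y : Z 𝕜, ∀ W ∈ 𝓝 ((v, y) : X 𝕜),
    ∃ k, ∀ μ s, Blk k μ s → (T 𝕜 ^ s) (v, z) ∈ W := by
  obtain ⟨z₁, h1⟩ := bin hv
  obtain ⟨z₂, h2⟩ := pert (𝕜 := 𝕜)
  refine ⟨z₁ + z₂, fun y W hW => ?_⟩
  obtain ⟨ε, hε, k1⟩ := Metric.mem_nhds_iff.1 hW
  obtain ⟨K, hK⟩ := eventually_atTop.1 ((tendsto_const_nhds.div_atTop
    (tendsto_pow_atTop_atTop_of_one_lt (r := (2 : ℝ)) one_lt_two) (a := ‖v‖ + 1)).eventually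
      (gt_mem_nhds (half_pos hε)))
  obtain ⟨k, k2, k3, k4⟩ := pp_dense i K y (show 0 < ε / 4 by positivity)
  refine ⟨k, fun μ s hs => k1 (mem_ball_iff_norm.2 (max_lt ?_ ((norm_le _
    (C := (‖v‖ + 1) / 2 ^ k + ε / 4) (by positivity) fun q => ?_).trans_lt (by
      linarith [hK k k2]))))⟩
  · rwa [Prod.fst_sub, (T_pow _ _).1, sub_self, norm_zero]
  · have e : ((v, z₁ + z₂) : X 𝕜) = (v, z₁) + (0, z₂) := by simp
    have k5 := (le_norm _ q).trans (h1 k μ s hs k3)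
    have k6 := norm_sub_le_norm_sub_add_norm_sub (((T 𝕜 ^ s) (0, z₂)).2 q) (pp 𝕜 k q) (y q)
    rw [e, map_add, Prod.snd_sub, Prod.snd_add, ZeroAtInftyContinuousMap.sub_apply,
      ZeroAtInftyContinuousMap.add_apply, add_sub_assoc, add_div]
    exact (norm_add_le _ _).trans (by linarith [h2 k μ s hs q, k4 q])

lemma lines (v' : 𝕜 × 𝕜) {ε : ℝ} (hε : 0 < ε) : ∃ i v, h i v = 0 ∧ ‖v - v'‖ < ε := by
  obtain ⟨c, h1, h2⟩ := (dense_compl_singleton (0 : 𝕜)).exists_dist_lt v'.2 hε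
  have h3 : 0 < ‖c‖ := norm_pos_iff.2 h1
  obtain ⟨i, hi⟩ := r_dense (v'.1 / c) (div_pos hε h3)
  refine ⟨i, (r 𝕜 i * c, c), sub_self _, max_lt ?_ (by rwa [dist_comm, dist_eq_norm] at h2)⟩
  rwa [lt_div_iff₀ h3, ← norm_mul, sub_mul, div_mul_cancel₀ _ h1] at hi

theorem dense_frec : Dense {x : X 𝕜 | ∀ W ∈ 𝓝 x, ∃ δ : ℝ, 0 < δ ∧ ∃ N₀ : ℕ, ∀ N : ℕ, N₀ ≤ N →
    δ * (N : ℝ) ≤ (({n : ℕ | 1 ≤ n ∧ n ≤ N ∧ (T 𝕜 ^ n) x ∈ W}.ncard : ℕ) : ℝ)} := by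
  refine Metric.dense_iff.2 fun x ε hε => ?_
  obtain ⟨i, v, h1, h2⟩ := lines x.1 hε
  obtain ⟨z, hz⟩ := visit h1
  obtain ⟨k, hk⟩ := hz x.2 (Metric.ball x ε) (Metric.isOpen_ball.mem_nhds (mem_ball_iff_norm.2
    (max_lt h2 (by rwa [Prod.snd_sub, sub_self, norm_zero]))))
  refine ⟨_, hk (2 ^ k) (2 * 4 ^ 2 ^ k) ⟨by positivity, padicValNat.prime_pow k,
    (pow_dvd_pow 4 Nat.lt_two_pow_self.le).mul_left 2, le_rfl, by simp⟩, fun W hW => ?_⟩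
  obtain ⟨k', hk'⟩ := hz ((T 𝕜 ^ (2 * 4 ^ 2 ^ k)) (v, z)).2 W (by
    rwa [← Prod.mk.eta (p := (T 𝕜 ^ (2 * 4 ^ 2 ^ k)) (v, z)), (T_pow _ _).1] at hW)
  obtain ⟨δ, a1, N₀, a2⟩ := cnt_low k' (2 * 4 ^ 2 ^ k)
  exact ⟨δ, a1, N₀, fun N hN => a2 N hN _ fun n μ a3 => by
    rw [← mul_apply_eq_comp, ← pow_add]
    exact hk' μ _ a3⟩

theorem not_ufrec {x : X 𝕜} (hx : x.1 = (1, 0)) : ¬∀ W ∈ 𝓝 x, ∃ δ : ℝ, 0 < δ ∧ ∀ N₀ : ℕ, ∃ N : ℕ,
    N₀ < N ∧ δ * (N : ℝ) ≤ (({n : ℕ | 1 ≤ n ∧ n ≤ N ∧ (T 𝕜 ^ n) x ∈ W}.ncard : ℕ) : ℝ) := by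
  intro H
  obtain ⟨δ, h1, h2⟩ := H _ (Metric.ball_mem_nhds x (show (0 : ℝ) < 1 / 4 by norm_num))
  obtain ⟨Q, hQ, h3⟩ := ((eventually_gt_atTop 0).and ((tendsto_const_nhds.div_atTop
    (tendsto_pow_atTop_atTop_of_one_lt (r := (2 : ℝ)) one_lt_two) (a := 20)).eventually
      (gt_mem_nhds (half_pos h1)))).exists
  have hF := NormedAddGroup.tendsto_nhds_zero.1 (tends x.2) (1 / 4 / 2 ^ (3 * Q)) (by positivity)
  rw [eventually_cofinite] at hF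
  obtain ⟨M, hM⟩ := (hF.image Prod.fst).bddAbove
  obtain ⟨N, h4, h5⟩ := h2 ⌈2 * (M + 1) / δ⌉₊
  have h6 : {n : ℕ | 1 ≤ n ∧ n ≤ N ∧ (T 𝕜 ^ n) x ∈ Metric.ball x (1 / 4)} ⊆
      Set.Ico 0 (M + 1) ∪ {n : ℕ | n ≤ N ∧ 3 * Q ≤ e n} := by
    rintro n ⟨a1, a2, a3⟩
    by_contra hc
    have a4 : M < n := not_le.1 fun k => hc (Or.inl ⟨n.zero_le, Nat.lt_succ_of_le k⟩)
    have a5 : e n ≤ 3 * Q := (not_le.1 fun k => hc (Or.inr ⟨a2, k⟩)).le
    have a6 : ∀ t, ‖x.2 (n, t)‖ * 2 ^ (3 * Q) < 1 / 4 := fun t => (lt_div_iff₀ (by positivity)).1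
      (by_contra fun k => a4.not_ge (hM ⟨(n, t), k, rfl⟩))
    have a7 := ((le_norm _ (n, 0)).trans (norm_snd_le _)).trans_lt (mem_ball_iff_norm.1 a3)
    rw [Prod.snd_sub, ZeroAtInftyContinuousMap.sub_apply, T_snd] at a7
    simp only [U, b, h, w, hx, add_zero, le_refl, if_true, lt_irrefl, if_false, Nat.sub_self,
      if_pos (show 0 < n from a1), if_neg (show ¬n ≤ 0 by omega), pow_zero, div_one, sub_zero,
      mul_zero] at a7
    have a8 : ‖(2 : 𝕜) ^ e n * x.2 (n, n)‖ < 1 / 4 := by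
      rw [norm_mul, norm_pow, RCLike.norm_two, mul_comm]
      exact (mul_le_mul_of_nonneg_left (pow_le_pow_right₀ one_le_two a5)
        (norm_nonneg _)).trans_lt (a6 n)
    have a9 := (le_mul_of_one_le_right (norm_nonneg _) (one_le_pow₀ one_le_two)).trans_lt (a6 0)
    have b1 := norm_add_le (1 + 2 ^ e n * x.2 (n, n) - x.2 (n, 0)) (x.2 (n, 0))
    have b2 := norm_sub_le (1 + 2 ^ e n * x.2 (n, n)) (2 ^ e n * x.2 (n, n))
    rw [sub_add_cancel] at b1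
    rw [add_sub_cancel_right, norm_one] at b2
    linarith
  have h7 := (Set.ncard_le_ncard h6 ((Set.finite_Ico _ _).union ((Set.finite_le_nat N).subset
    fun n hn => hn.1))).trans (Set.ncard_union_le _ _)
  rw [Set.ncard_Ico_nat, Nat.sub_zero] at h7
  have h8 := h5.trans (Nat.cast_le.2 h7)
  have h9 := cnt_up hQ N
  have b1 := (div_lt_iff₀ h1).1 (Nat.lt_of_ceil_lt h4)
  have b2 := mul_le_mul_of_nonneg_right h3.le N.cast_nonneg
  push_cast at h8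
  rw [div_mul_eq_mul_div] at b2
  linarith

lemma exists_mem {M : Submodule 𝕜 (X 𝕜)} (hM : Dense (M : Set (X 𝕜))) :
    ∃ x ∈ M, x.1 = (1, 0) := by
  have h1 := (M.map (LinearMap.fst 𝕜 (𝕜 × 𝕜) (Z 𝕜))).closed_of_finiteDimensional
  exact h1.closure_subset (Prod.fst_surjective.denseRange.dense_image continuous_fst hM (1, 0))

end Pool.Agent.H32.FR
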