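import Mathlib

set_option autoImplicit false

namespace Pool.Agent.H32.Stein

open Finset

variable {ι : Type} [DecidableEq ι] {d : ℕ} {x : ι → Fin d → ℝ}

structure Adm (x : ι → Fin d → ℝ) (A : Finset ι) (c : ℝ) (μ : ι → ℝ) : Prop where
  lo : ∀ i ∈ A, 0 ≤ μ i
  hi : ∀ i ∈ A, μ i ≤ 1
  sum : ∑ i ∈ A, μ i = c
  bal : ∀ j, ∑ i ∈ A, μ i * x i j = 0

open Classical in
noncomputable def fr (A : Finset ι) (μ : ι → ℝ) : Finset ι := A.filter fun i => 0 < μ i ∧ μ i < 1

lemma exists_dir (x : ι → Fin d → ℝ) (B : Finset ι) (hB : d + 1 < B.card) :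
    ∃ v : ι → ℝ, (∀ i, i ∉ B → v i = 0) ∧ ∑ i ∈ B, v i = 0 ∧ (∀ j, ∑ i ∈ B, v i * x i j = 0) ∧
      ∃ i ∈ B, v i ≠ 0 := by
  have h : ¬ LinearIndependent ℝ fun i : B => ((1 : ℝ), x i) := by
    intro h
    have := h.fintype_card_le_finrank
    simp at this
    omega
  obtain ⟨g, h1, i0, h2⟩ := Fintype.not_linearIndependent_iff.1 h
  refine ⟨fun i => if hi : i ∈ B then g ⟨i, hi⟩ else 0, fun i hi => dif_neg hi, ?_, fun j => ?_,
    i0, i0.2, by simpa using h2⟩
  · have := congrArg Prod.fst h1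
    simp only [Prod.fst_sum, Prod.smul_fst, smul_eq_mul, mul_one, Prod.fst_zero] at this
    rw [← this, ← Finset.sum_coe_sort B]
    exact sum_congr rfl fun i _ => by simp
  · have := congrFun (congrArg Prod.snd h1) j
    simp only [Prod.snd_sum, Prod.smul_snd, Finset.sum_apply, Pi.smul_apply, smul_eq_mul,
      Prod.snd_zero, Pi.zero_apply] at this
    rw [← this, ← Finset.sum_coe_sort B]
    exact sum_congr rfl fun i _ => by simp

lemma reduce1 {A : Finset ι} {c : ℝ} {μ : ι → ℝ} (h : Adm x A c μ) (hc : d + 1 < (fr A μ).card) :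
    ∃ μ', Adm x A c μ' ∧ (fr A μ').card < (fr A μ).card := by
  classical
  obtain ⟨v, v0, v1, v2, v3⟩ := exists_dir x (fr A μ) hc
  have hsub : fr A μ ⊆ A := filter_subset _ _
  set τ : ι → ℝ := fun i => if 0 < v i then (1 - μ i) / v i else μ i / (-v i) with hτ
  obtain ⟨i0, hi0, hmin⟩ := exists_min_image ((fr A μ).filter fun i => v i ≠ 0) τ
    (by obtain ⟨i, a, b⟩ := v3; exact ⟨i, mem_filter.2 ⟨a, b⟩⟩)
  obtain ⟨hi1, hi2⟩ := mem_filter.1 hi0
  have hi3 := (mem_filter.1 hi1).2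
  have t0 : 0 ≤ τ i0 := by
    simp only [hτ]
    split_ifs with hv
    · exact div_nonneg (by linarith [hi3.2]) hv.le
    · exact div_nonneg hi3.1.le (by linarith [not_lt.1 hv])
  have key : ∀ i ∈ A, 0 ≤ μ i + τ i0 * v i ∧ μ i + τ i0 * v i ≤ 1 := by
    intro i hi
    have a0 := h.lo i hi
    have a1 := h.hi i hi
    by_cases hv : v i = 0
    · rw [hv]; constructor <;> linarith
    · have hf : i ∈ fr A μ := by_contra fun hh => hv (v0 i hh)
      have a2 := hmin i (mem_filter.2 ⟨hf, hv⟩)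
      by_cases hp : 0 < v i
      · have a3 : τ i = (1 - μ i) / v i := if_pos hp
        rw [a3, le_div_iff₀ hp] at a2
        constructor <;> nlinarith
      · have hn : 0 < -v i := by
          have := lt_of_le_of_ne (not_lt.1 hp) hv
          linarith
        have a3 : τ i = μ i / (-v i) := if_neg hp
        rw [a3, le_div_iff₀ hn] at a2
        constructor <;> nlinarith
  have s1 : ∑ i ∈ A, v i = 0 := by
    rw [← v1]; exact (sum_subset hsub fun i _ hi => v0 i hi).symm
  have s2 : ∀ j, ∑ i ∈ A, v i * x i j = 0 := fun j => by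
    rw [← v2 j]; exact (sum_subset hsub fun i _ hi => by rw [v0 i hi, zero_mul]).symm
  refine ⟨fun i => μ i + τ i0 * v i, ⟨fun i hi => (key i hi).1, fun i hi => (key i hi).2, ?_,
    fun j => ?_⟩, ?_⟩
  · rw [sum_add_distrib, ← mul_sum, s1, h.sum]; ring
  · simp only [add_mul, mul_assoc]
    rw [sum_add_distrib, ← mul_sum, s2, h.bal]; ring
  · refine card_lt_card ⟨fun i hi => ?_, fun hh => ?_⟩
    · by_contra hf
      have a1 := mem_filter.1 hi
      simp only [v0 i hf, mul_zero, add_zero] at a1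
      exact hf (mem_filter.2 a1)
    · have a1 : 0 < μ i0 + τ i0 * v i0 ∧ μ i0 + τ i0 * v i0 < 1 := (mem_filter.1 (hh hi1)).2
      by_cases hp : 0 < v i0
      · have a3 : τ i0 = (1 - μ i0) / v i0 := if_pos hp
        rw [a3, div_mul_cancel₀ _ hi2] at a1
        linarith [a1.2]
      · have a3 : τ i0 = μ i0 / (-v i0) := if_neg hp
        have a4 : μ i0 / (-v i0) * v i0 = -μ i0 := by field_simp
        rw [a3, a4] at a1
        linarith [a1.1]

lemma reduce {A : Finset ι} {c : ℝ} {μ : ι → ℝ} (h : Adm x A c μ) :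
    ∃ μ', Adm x A c μ' ∧ (fr A μ').card ≤ d + 1 := by
  generalize hk : (fr A μ).card = k
  induction k using Nat.strong_induction_on generalizing μ with
  | _ k ih =>
    by_cases hc : d + 1 < (fr A μ).card
    · obtain ⟨μ', h1, h2⟩ := reduce1 h hc
      exact ih _ (hk ▸ h2) h1 rfl
    · exact ⟨μ, h, not_lt.1 hc⟩

lemma step {A : Finset ι} {μ : ι → ℝ} (h : Adm x A ((A.card : ℝ) - d) μ) (hA : d < A.card) :
    ∃ i ∈ A, ∃ μ', Adm x (A.erase i) (((A.erase i).card : ℝ) - d) μ' := by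
  classical
  have hA' : (d : ℝ) + 1 ≤ A.card := by exact_mod_cast hA
  set r : ℝ := ((A.card : ℝ) - 1 - d) / (A.card - d) with hr
  have r0 : 0 ≤ r := div_nonneg (by linarith) (by linarith)
  have r1 : r ≤ 1 := (div_le_one (by linarith)).2 (by linarith)
  have h1 : Adm x A ((A.card : ℝ) - 1 - d) fun i => r * μ i := by
    refine ⟨fun i hi => mul_nonneg r0 (h.lo i hi), fun i hi => ?_, ?_, fun j => ?_⟩
    · nlinarith [h.lo i hi, h.hi i hi]
    · rw [← mul_sum, h.sum, hr, div_mul_cancel₀ _ (by linarith)]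
    · simp only [mul_assoc]; rw [← mul_sum, h.bal, mul_zero]
  obtain ⟨ν, h2, h3⟩ := reduce h1
  have h4 : ∃ i ∈ A, ν i = 0 := by
    by_contra hc
    push Not at hc
    have hp : ∀ i ∈ A, 0 < ν i := fun i hi => lt_of_le_of_ne (h2.lo i hi) (hc i hi).symm
    have hsub : fr A ν ⊆ A := filter_subset _ _
    have e1 := sum_sdiff (f := ν) hsub
    have e2 : ∑ i ∈ A \ fr A ν, ν i = (A.card : ℝ) - (fr A ν).card := by
      rw [sum_congr rfl (g := fun _ => (1 : ℝ)) fun i hi => ?_, sum_const, card_sdiff_of_subset hsub,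
        nsmul_eq_mul, mul_one, Nat.cast_sub (card_le_card hsub)]
      obtain ⟨a1, a2⟩ := mem_sdiff.1 hi
      by_contra a3
      exact a2 (mem_filter.2 ⟨a1, hp i a1, lt_of_le_of_ne (h2.hi i a1) a3⟩)
    have h5 : ((fr A ν).card : ℝ) ≤ d + 1 := by exact_mod_cast h3
    rw [e2, h2.sum] at e1
    rcases (fr A ν).eq_empty_or_nonempty with he | he
    · rw [he] at e1
      simp at e1
      have : (0 : ℝ) ≤ d := by positivity
      linarith
    · have := sum_pos (fun i hi => hp i (hsub hi)) he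
      linarith
  obtain ⟨i, hi, h5⟩ := h4
  refine ⟨i, hi, ν, fun k hk => h2.lo k (mem_of_mem_erase hk), fun k hk => h2.hi k (mem_of_mem_erase hk),
    ?_, fun j => ?_⟩
  · rw [sum_erase _ h5, h2.sum, card_erase_of_mem hi, Nat.cast_sub (by omega)]; simp
  · rw [sum_erase _ (by rw [h5, zero_mul]), h2.bal]

lemma order [Nonempty ι] {M : ℝ} (hM : ∀ i j, |x i j| ≤ M) (hM0 : 0 ≤ M) (k : ℕ) (A : Finset ι)
    (hk : A.card = k) (h : A.card ≤ d ∨ ∃ μ, Adm x A ((A.card : ℝ) - d) μ) :
    ∃ σ : ℕ → ι, (∀ f : ι → ℝ, ∑ s ∈ range k, f (σ s) = ∑ i ∈ A, f i) ∧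
      ∀ r ≤ k, ∀ j, |∑ s ∈ range r, x (σ s) j| ≤ d * M := by
  induction k generalizing A with
  | zero =>
    rw [card_eq_zero.1 hk]
    refine ⟨fun _ => Classical.arbitrary ι, fun f => by simp, fun r hr j => ?_⟩
    rw [Nat.le_zero.1 hr]; simp; positivity
  | succ k ih =>
    have h1 : ∃ i ∈ A, (A.erase i).card ≤ d ∨
        ∃ μ, Adm x (A.erase i) (((A.erase i).card : ℝ) - d) μ := by
      by_cases hd : A.card ≤ d
      · obtain ⟨i, hi⟩ := card_pos.1 (show 0 < A.card by omega)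
        exact ⟨i, hi, Or.inl (card_erase_le.trans hd)⟩
      · obtain ⟨μ, hμ⟩ := h.resolve_left hd
        obtain ⟨i, hi, h2⟩ := step hμ (not_le.1 hd)
        exact ⟨i, hi, Or.inr h2⟩
    have h2 : ∀ j, |∑ i ∈ A, x i j| ≤ d * M := by
      intro j
      rcases h with h | ⟨μ, hμ⟩
      · refine (abs_sum_le_sum_abs _ _).trans ((sum_le_sum fun i _ => hM i j).trans ?_)
        rw [sum_const, nsmul_eq_mul]
        exact mul_le_mul_of_nonneg_right (by exact_mod_cast h) hM0
      · have e : ∑ i ∈ A, x i j = ∑ i ∈ A, (1 - μ i) * x i j := by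
          simp only [sub_mul, one_mul]; rw [sum_sub_distrib, hμ.bal, sub_zero]
        rw [e]
        refine (abs_sum_le_sum_abs _ _).trans ((sum_le_sum (g := fun i => (1 - μ i) * M)
          fun i hi => ?_).trans (le_of_eq ?_))
        · rw [abs_mul, abs_of_nonneg (by linarith [hμ.hi i hi])]
          exact mul_le_mul_of_nonneg_left (hM i j) (by linarith [hμ.hi i hi])
        · rw [← sum_mul, sum_sub_distrib, hμ.sum]; simp
    obtain ⟨i, hi, h3⟩ := h1
    obtain ⟨σ, s1, s2⟩ := ih (A.erase i) (by rw [card_erase_of_mem hi]; omega) h3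
    have e1 : ∀ (f : ι → ℝ) (r : ℕ), r ≤ k →
        ∑ s ∈ range r, f (Function.update σ k i s) = ∑ s ∈ range r, f (σ s) := fun f r hr =>
      sum_congr rfl fun s hs => by
        rw [Function.update_of_ne (by have := mem_range.1 hs; omega)]
    have e2 : ∀ f : ι → ℝ, ∑ s ∈ range (k + 1), f (Function.update σ k i s) = ∑ i ∈ A, f i := by
      intro f
      rw [sum_range_succ, e1 f k le_rfl, s1, Function.update_self, sum_erase_add _ _ hi]
    refine ⟨Function.update σ k i, e2, fun r hr j => ?_⟩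
    rcases Nat.lt_or_ge r (k + 1) with hr' | hr'
    · rw [e1 (fun i => x i j) r (by omega)]; exact s2 r (by omega) j
    · rw [le_antisymm hr hr', e2 fun i => x i j]; exact h2 j

/-- The Steinitz lemma (sup norm) with the Grinberg Sevastyanov constant. -/
theorem steinitz {n : ℕ} (hn : 0 < n) (x : Fin n → Fin d → ℝ) {M : ℝ} (hM : ∀ i j, |x i j| ≤ M)
    (hM0 : 0 ≤ M) (h0 : ∀ j, ∑ i, x i j = 0) :
    ∃ π : Equiv.Perm (Fin n), ∀ r ≤ n, ∀ j,
      |∑ s ∈ range r, if h : s < n then x (π ⟨s, h⟩) j else 0| ≤ d * M := by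
  have : Nonempty (Fin n) := ⟨⟨0, hn⟩⟩
  obtain ⟨σ, s1, s2⟩ := order hM hM0 n univ (by simp) (by
    by_cases hd : n ≤ d
    · left; simpa using hd
    · right
      have hn' : (0 : ℝ) < n := by exact_mod_cast hn
      have hd' : (d : ℝ) ≤ n := by exact_mod_cast (not_le.1 hd).le
      refine ⟨fun _ => ((n : ℝ) - d) / n, fun _ _ => div_nonneg (by linarith) hn'.le,
        fun _ _ => (div_le_one hn').2 (by linarith [(Nat.cast_nonneg d : (0 : ℝ) ≤ d)]), ?_,
        fun j => ?_⟩
      · simp; field_simp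
      · rw [← mul_sum, h0, mul_zero])
  have hs : Function.Surjective fun s : Fin n => σ s := by
    intro i
    by_contra hc
    push Not at hc
    have := s1 fun k => if k = i then 1 else 0
    rw [sum_eq_zero fun s hs => if_neg (hc ⟨s, mem_range.1 hs⟩)] at this
    simp at this
  refine ⟨Equiv.ofBijective _ (Finite.surjective_iff_bijective.1 hs), fun r hr j => ?_⟩
  refine le_trans (le_of_eq ?_) (s2 r hr j)
  congr 1
  refine sum_congr rfl fun s hs => ?_
  rw [dif_pos (by have := mem_range.1 hs; omega)]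
  rfl

end Pool.Agent.H32.Stein
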