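import Pool.Agent.H32.FlowDefs
import Pool.Agent.H32.Stein

set_option autoImplicit false

namespace Pool.Agent.H32.Flow

open Finset MeasureTheory ProbabilityTheory
open scoped NNReal

noncomputable section

lemma comp_zero (t : ℕ → ℕ → ℝ) (i : ℕ) : comp t i 0 = 0 := by cases i <;> simp [comp]

lemma comp_nonneg {t : ℕ → ℕ → ℝ} (h : ∀ i j, 0 ≤ t i j) (i j : ℕ) : 0 ≤ comp t i j := by
  induction i generalizing j with
  | zero => simp [comp]
  | succ i ih =>
    cases j with
    | zero => simp [comp]
    | succ j =>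
      rw [comp]
      exact add_nonneg ((ih _).trans (le_max_left _ _)) (h i j)

lemma comp_cont {X : Type} [TopologicalSpace X] {t : X → ℕ → ℕ → ℝ}
    (h : ∀ i j, Continuous fun x => t x i j) (i j : ℕ) : Continuous fun x => comp (t x) i j := by
  induction i generalizing j with
  | zero => simp only [comp]; exact continuous_const
  | succ i ih =>
    induction j with
    | zero => simp only [comp]; exact continuous_const
    | succ j ih2 =>
      simp only [comp]
      exact ((ih _).max ih2).add (h i j)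

lemma comp_le {t : ℕ → ℕ → ℝ} {n m : ℕ} {a : ℕ → ℝ} {b D M : ℝ} (hb0 : 0 ≤ b) (hD0 : 0 ≤ D)
    (hM0 : 0 ≤ M) (hb : ∀ j < m, a j ≤ b) (hM : ∀ i j, t i j ≤ M)
    (hD : ∀ r ≤ n, ∀ j < m, |∑ s ∈ range r, (t s j - a j)| ≤ D) (j : ℕ) (hj : j ≤ m) :
    ∀ i ≤ n, comp t i j ≤ i * b + j * (2 * D + M) := by
  induction j with
  | zero => intro i _; rw [comp_zero]; positivity
  | succ j ih =>
    have key : ∀ i ≤ n, comp t i (j + 1) ≤
        i * b + ∑ s ∈ range i, (t s j - a j) + D + M + j * (2 * D + M) := by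
      intro i hi
      induction i with
      | zero => simp only [comp, range_zero, sum_empty]; positivity
      | succ i ih2 =>
        rw [comp]
        have h1 := ih2 (by omega)
        have h2 := ih (by omega) (i + 1) hi
        have h3 := (abs_le.1 (hD (i + 1) hi j (by omega))).1
        have h4 := hb j (by omega)
        have h5 := hM i j
        rw [sum_range_succ] at h3 ⊢
        push_cast at h2 ⊢
        rcases le_total (comp t i (j + 1)) (comp t (i + 1) j) with h | h
        · rw [max_eq_right h]; linarith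
        · rw [max_eq_left h]; linarith
    intro i hi
    have h1 := key i hi
    have h3 := (abs_le.1 (hD i hi j (by omega))).2
    push_cast
    linarith

variable {n m : ℕ}

lemma opt_le_ms (T : Fin n → Fin m → ℝ≥0) (π : Equiv.Perm (Fin n)) : opt T ≤ makespan T π :=
  ciInf_le (Finite.bddBelow_range _) π

lemma opt_nonneg (T : Fin n → Fin m → ℝ≥0) : 0 ≤ opt T :=
  Real.iInf_nonneg fun π => comp_nonneg (fun i j => by split_ifs <;> simp) _ _

lemma opt_meas : Measurable (opt : (Fin n → Fin m → ℝ≥0) → ℝ) := by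
  refine Measurable.iInf fun π => Continuous.measurable (comp_cont (fun i j => ?_) _ _)
  by_cases h : i < n ∧ j < m
  · simp only [dif_pos h]; fun_prop
  · simp only [dif_neg h]; exact continuous_const

lemma opt_le (hn : 0 < n) (T : Fin n → Fin m → ℝ≥0) {S M : ℝ} (hS0 : 0 ≤ S) (hM0 : 0 ≤ M)
    (hS : ∀ j, ∑ i, (T i j : ℝ) ≤ S) (hM : ∀ i j, (T i j : ℝ) ≤ M) :
    opt T ≤ S + m * (2 * (m * M) + M) := by
  have hn' : (0 : ℝ) < n := by exact_mod_cast hn
  have ha : ∀ j, 0 ≤ (∑ i, (T i j : ℝ)) / n ∧ (∑ i, (T i j : ℝ)) / n ≤ M := fun j => by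
    refine ⟨by positivity, ?_⟩
    rw [div_le_iff₀ hn']
    refine (sum_le_sum fun i _ => hM i j).trans (le_of_eq ?_)
    simp [mul_comm]
  obtain ⟨π, hπ⟩ := Stein.steinitz hn (fun i j => (T i j : ℝ) - (∑ i, (T i j : ℝ)) / n) (M := M)
    (fun i j => by
      have := ha j
      have := hM i j
      have := (T i j).2
      rw [abs_le]; constructor <;> simp only [NNReal.val_eq_coe] at * <;> linarith) hM0
    (fun j => by
      rw [sum_sub_distrib]; simp; field_simp; ring)
  refine (opt_le_ms T π).trans ?_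
  have h := comp_le (n := n) (m := m)
    (t := fun i j => if h : i < n ∧ j < m then (T (π ⟨i, h.1⟩) ⟨j, h.2⟩ : ℝ) else 0)
    (a := fun j => if h : j < m then (∑ i, (T i ⟨j, h⟩ : ℝ)) / n else 0) (b := S / n) (D := m * M)
    (M := M) (by positivity) (by positivity) hM0
    (fun j hj => by rw [dif_pos hj]; exact div_le_div_of_nonneg_right (hS _) hn'.le)
    (fun i j => by split_ifs; exacts [hM _ _, hM0])
    (fun r hr j hj => by
      refine le_trans (le_of_eq ?_) (hπ r hr ⟨j, hj⟩)
      congr 1
      refine sum_congr rfl fun s hs => ?_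
      have h1 : s < n := by have := mem_range.1 hs; omega
      rw [dif_pos ⟨h1, hj⟩, dif_pos hj, dif_pos h1]) m le_rfl n le_rfl
  rw [mul_div_cancel₀ _ hn'.ne'] at h
  exact h

end

end Pool.Agent.H32.Flow
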