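import Pool.Agent.H32.Flow

set_option autoImplicit false

namespace Pool.Agent.H32.Flow

open Finset MeasureTheory ProbabilityTheory Filter Topology
open scoped NNReal

noncomputable section

variable {F : Measure ℝ≥0} [IsProbabilityMeasure F] {n m : ℕ}

abbrev PP (F : Measure ℝ≥0) (n m : ℕ) : Measure (Fin n → Fin m → ℝ≥0) :=
  Measure.pi fun _ : Fin n => Measure.pi fun _ : Fin m => F

lemma mp_row (j : Fin m) : MeasurePreserving (fun r : Fin m → ℝ≥0 => r j) (Measure.pi fun _ => F) F :=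
  measurePreserving_eval (fun _ => F) j

lemma mp (i : Fin n) (j : Fin m) : MeasurePreserving (fun T => T i j) (PP F n m) F :=
  (mp_row j).comp (measurePreserving_eval (fun _ : Fin n => Measure.pi fun _ : Fin m => F) i)

omit [IsProbabilityMeasure F] in
lemma int_mp {X : Type} [MeasurableSpace X] {P : Measure X} {e : X → ℝ≥0}
    (h : MeasurePreserving e P F) {g : ℝ≥0 → ℝ} (hg : Measurable g) :
    ∫ x, g (e x) ∂P = ∫ y, g y ∂F := by
  rw [← h.map_eq, integral_map h.measurable.aemeasurable hg.aestronglyMeasurable]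

def ex (a : ℝ) (x : ℝ≥0) : ℝ := max ((x : ℝ) - a) 0

lemma ex_meas (a : ℝ) : Measurable (ex a) := by unfold ex; fun_prop

lemma ex_mem (hF : MemLp (fun x : ℝ≥0 => (x : ℝ)) 2 F) (a : ℝ) : MemLp (ex a) 2 F :=
  (hF.sub (memLp_const a)).pos_part

def hh (F : Measure ℝ≥0) (a : ℝ) : ℝ := ∫ x, ex a x ^ 2 ∂F

omit [IsProbabilityMeasure F] in
lemma hh_lim (hF : MemLp (fun x : ℝ≥0 => (x : ℝ)) 2 F) : Tendsto (hh F) atTop (𝓝 0) := by
  have h := tendsto_integral_filter_of_dominated_convergence (μ := F) (l := atTop)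
    (F := fun (a : ℝ) (x : ℝ≥0) => ex a x ^ 2) (f := fun _ => 0) (fun x => (x : ℝ) ^ 2)
    (Eventually.of_forall fun a => ((ex_meas a).pow_const 2).aestronglyMeasurable)
    ((eventually_ge_atTop 0).mono fun a ha => ae_of_all _ fun x => by
      rw [Real.norm_of_nonneg (sq_nonneg _)]
      refine pow_le_pow_left₀ (le_max_right _ _) (max_le (sub_le_self _ ha) x.2) 2)
    hF.integrable_sq (ae_of_all _ fun x => by
      refine tendsto_const_nhds.congr' ((eventually_ge_atTop (x : ℝ)).mono fun a ha => ?_)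
      simp only [ex]
      rw [max_eq_right (by linarith)]; simp)
  rw [integral_zero] at h
  exact h

lemma max_part (hF : MemLp (fun x : ℝ≥0 => (x : ℝ)) 2 F) {a : ℝ} (ha : 0 < a) :
    ∃ M : (Fin n → Fin m → ℝ≥0) → ℝ, Integrable M (PP F n m) ∧ (∀ T, 0 ≤ M T) ∧
      (∀ T i j, (T i j : ℝ) ≤ M T) ∧ ∫ T, M T ∂PP F n m = 2 * a + n * m * hh F a / a := by
  have hi : ∀ i j, Integrable (fun T : Fin n → Fin m → ℝ≥0 => ex a (T i j) ^ 2) (PP F n m) :=
    fun i j => (mp i j).integrable_comp_of_integrable (ex_mem hF a).integrable_sq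
  have hs : Integrable (fun T : Fin n → Fin m → ℝ≥0 => (∑ i, ∑ j, ex a (T i j) ^ 2) / a) (PP F n m) :=
    (integrable_finsetSum _ fun i _ => integrable_finsetSum _ fun j _ => hi i j).div_const a
  refine ⟨fun T => 2 * a + (∑ i, ∑ j, ex a (T i j) ^ 2) / a, (integrable_const _).add hs,
    fun T => by positivity, fun T i j => ?_, ?_⟩
  · have h1 : ex a (T i j) ^ 2 ≤ ∑ i, ∑ j, ex a (T i j) ^ 2 :=
      (single_le_sum (f := fun j => ex a (T i j) ^ 2) (fun _ _ => sq_nonneg _) (mem_univ j)).trans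
        (single_le_sum (f := fun i => ∑ j, ex a (T i j) ^ 2)
          (fun _ _ => sum_nonneg fun _ _ => sq_nonneg _) (mem_univ i))
    have h2 : (T i j : ℝ) - 2 * a ≤ ex a (T i j) ^ 2 / a := by
      rw [le_div_iff₀ ha]
      have h3 : (T i j : ℝ) - a ≤ ex a (T i j) := le_max_left _ _
      nlinarith [sq_nonneg (ex a (T i j) - a)]
    have h4 := div_le_div_of_nonneg_right h1 ha.le
    simp only
    linarith
  · rw [integral_add (integrable_const _) hs, integral_div,
      integral_finsetSum _ fun i _ => integrable_finsetSum _ fun j _ => hi i j]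
    have e : ∀ i, ∫ T, ∑ j, ex a (T i j) ^ 2 ∂PP F n m = m * hh F a := fun i => by
      rw [integral_finsetSum _ fun j _ => hi i j]
      have e2 : ∀ j, ∫ T, ex a (T i j) ^ 2 ∂PP F n m = hh F a := fun j =>
        int_mp (mp i j) (g := fun x => ex a x ^ 2) ((ex_meas a).pow_const 2)
      simp [e2]
    simp [e, mul_assoc]

lemma exp_part (j : Fin m) {g : ℝ≥0 → ℝ} (hg : Measurable g) {B l : ℝ} (hB : ∀ x, g x ∈ Set.Icc 0 B) :
    Integrable (fun T : Fin n → Fin m → ℝ≥0 => Real.exp (l * ∑ i, (g (T i j) - ∫ x, g x ∂F)))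
      (PP F n m) ∧
    ∫ T, Real.exp (l * ∑ i, (g (T i j) - ∫ x, g x ∂F)) ∂PP F n m ≤ Real.exp (n * (B ^ 2 * l ^ 2 / 8)) := by
  have hs := hasSubgaussianMGF_of_mem_Icc (μ := F) hg.aemeasurable (ae_of_all _ hB)
  have e : ∀ T : Fin n → Fin m → ℝ≥0, Real.exp (l * ∑ i, (g (T i j) - ∫ x, g x ∂F)) =
      ∏ i, Real.exp (l * (g (T i j) - ∫ x, g x ∂F)) := fun T => by
    rw [mul_sum, Real.exp_sum]
  simp only [e]
  have hi : Integrable (fun r : Fin m → ℝ≥0 => Real.exp (l * (g (r j) - ∫ x, g x ∂F)))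
      (Measure.pi fun _ => F) := (mp_row j).integrable_comp_of_integrable (hs.integrable_exp_mul l)
  refine ⟨Integrable.fintype_prod (f := fun (_ : Fin n) (r : Fin m → ℝ≥0) =>
    Real.exp (l * (g (r j) - ∫ x, g x ∂F))) fun _ => hi, ?_⟩
  rw [integral_fintype_prod_eq_prod (fun (_ : Fin n) (r : Fin m → ℝ≥0) =>
    Real.exp (l * (g (r j) - ∫ x, g x ∂F))), prod_const, card_univ, Fintype.card_fin,
    Real.exp_nat_mul]
  refine pow_le_pow_left₀ (integral_nonneg fun _ => (Real.exp_pos _).le) ?_ _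
  rw [int_mp (mp_row j) (g := fun y => Real.exp (l * (g y - ∫ x, g x ∂F))) (by fun_prop)]
  refine (hs.mgf_le l).trans (le_of_eq ?_)
  congr 1
  push_cast
  rw [sub_zero, div_pow, Real.norm_eq_abs, sq_abs]
  ring

lemma var_part (j : Fin m) {g : ℝ≥0 → ℝ} (hm : Measurable g) (hg : MemLp g 2 F) :
    Integrable (fun T : Fin n → Fin m → ℝ≥0 => (∑ i, (g (T i j) - ∫ x, g x ∂F)) ^ 2) (PP F n m) ∧
    ∫ T, (∑ i, (g (T i j) - ∫ x, g x ∂F)) ^ 2 ∂PP F n m ≤ n * ∫ x, g x ^ 2 ∂F := by
  have h1 : ∀ i, MemLp (fun T : Fin n → Fin m → ℝ≥0 => g (T i j)) 2 (PP F n m) := fun i =>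
    hg.comp_measurePreserving (mp i j)
  have h2 : MemLp (fun T : Fin n → Fin m → ℝ≥0 => ∑ i, (g (T i j) - ∫ x, g x ∂F)) 2 (PP F n m) :=
    memLp_finsetSum _ fun i _ => (h1 i).sub (memLp_const _)
  refine ⟨h2.integrable_sq, ?_⟩
  have h3 : MemLp (fun r : Fin m → ℝ≥0 => g (r j)) 2 (Measure.pi fun _ => F) :=
    hg.comp_measurePreserving (mp_row j)
  have h4 := variance_sum_pi (μ := fun _ : Fin n => Measure.pi fun _ : Fin m => F)
    (X := fun _ r => g (r j)) fun _ => h3
  have h5 : Var[fun r : Fin m → ℝ≥0 => g (r j); Measure.pi fun _ => F] ≤ ∫ x, g x ^ 2 ∂F := by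
    refine (variance_le_expectation_sq (μ := Measure.pi fun _ : Fin m => F) h3.1).trans (le_of_eq ?_)
    exact int_mp (mp_row (F := F) j) (g := fun y => g y ^ 2) (hm.pow_const 2)
  have e : (∑ i : Fin n, fun ω : Fin n → Fin m → ℝ≥0 => g (ω i j)) = fun ω => ∑ i, g (ω i j) := by
    funext ω; simp
  rw [e, variance_eq_integral (Measurable.aemeasurable (by fun_prop)),
    integral_finsetSum _ fun i _ => (h1 i).integrable (by norm_num)] at h4
  have e2 : ∀ i, ∫ T, g (T i j) ∂PP F n m = ∫ x, g x ∂F := fun i => int_mp (mp i j) hm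
  simp only [e2] at h4
  simp only [sum_sub_distrib]
  rw [h4, sum_const, card_univ, Fintype.card_fin, nsmul_eq_mul]
  exact mul_le_mul_of_nonneg_left h5 (by positivity)

lemma load_part (hF : MemLp (fun x : ℝ≥0 => (x : ℝ)) 2 F) (hn : 0 < n) (hm : 0 < m) {B a : ℝ}
    (hB : 0 < B) (ha : 0 < a) :
    ∃ S : (Fin n → Fin m → ℝ≥0) → ℝ, Integrable S (PP F n m) ∧
      (∀ T j, ∑ i, (T i j : ℝ) ≤ S T) ∧ ∫ T, S T ∂PP F n m ≤ n * (∫ x, (x : ℝ) ∂F) +
        B * √(n : ℝ) * (Real.log m + 1) + a + m * n * hh F B / a := by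
  have hn' : (0 : ℝ) < n := by exact_mod_cast hn
  have hm' : (0 : ℝ) < m := by exact_mod_cast hm
  have hs : 0 < √(n : ℝ) := Real.sqrt_pos.2 hn'
  set L : ℝ := B * √(n : ℝ) with hL
  have hL0 : 0 < L := by positivity
  set U : ℝ≥0 → ℝ := fun x => min (x : ℝ) B with hU
  have hUm : Measurable U := by fun_prop
  have hUB : ∀ x, U x ∈ Set.Icc 0 B := fun x => ⟨le_min x.2 hB.le, min_le_right _ _⟩
  have hsplit : ∀ x : ℝ≥0, (x : ℝ) = U x + ex B x := fun x => by
    simp only [hU, ex]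
    rcases le_total (x : ℝ) B with h | h
    · rw [min_eq_left h, max_eq_right (by linarith)]; ring
    · rw [min_eq_right h, max_eq_left (by linarith)]; ring
  have hτ : ∫ x, (x : ℝ) ∂F = ∫ x, U x ∂F + ∫ x, ex B x ∂F := by
    rw [← integral_add (Integrable.of_mem_Icc 0 B hUm.aemeasurable (ae_of_all _ hUB))
      ((ex_mem hF B).integrable (by norm_num))]
    exact integral_congr_ae (ae_of_all _ hsplit)
  have h1 := fun j : Fin m => exp_part (F := F) (n := n) j hUm (l := 1 / L) hUB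
  have h2 := fun j : Fin m => var_part (F := F) (n := n) j (ex_meas B) (ex_mem hF B)
  set E : (Fin n → Fin m → ℝ≥0) → ℝ :=
    fun T => ∑ j, Real.exp (1 / L * ∑ i, (U (T i j) - ∫ x, U x ∂F)) with hE
  set Q : (Fin n → Fin m → ℝ≥0) → ℝ :=
    fun T => ∑ j, (∑ i, (ex B (T i j) - ∫ x, ex B x ∂F)) ^ 2 with hQ
  have iE : Integrable E (PP F n m) := integrable_finsetSum _ fun j _ => (h1 j).1
  have iQ : Integrable Q (PP F n m) := integrable_finsetSum _ fun j _ => (h2 j).1
  have bE : ∫ T, E T ∂PP F n m ≤ m * 2 := by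
    rw [hE, integral_finsetSum _ fun j _ => (h1 j).1]
    refine (sum_le_sum (g := fun _ => (2 : ℝ)) fun j _ => (h1 j).2.trans ?_).trans (by simp)
    have e : (n : ℝ) * (B ^ 2 * (1 / L) ^ 2 / 8) = 1 / 8 := by
      rw [hL, div_pow, mul_pow, Real.sq_sqrt hn'.le]; field_simp
    rw [e]
    have h3 := Real.exp_bound_div_one_sub_of_interval' (x := 1 / 8) (by norm_num) (by norm_num)
    linarith [show (1 : ℝ) / (1 - 1 / 8) ≤ 2 by norm_num]
  have bQ : ∫ T, Q T ∂PP F n m ≤ m * (n * hh F B) := by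
    rw [hQ, integral_finsetSum _ fun j _ => (h2 j).1]
    exact (sum_le_sum (g := fun _ => n * hh F B) fun j _ => (h2 j).2).trans (by simp)
  have i1 : Integrable (fun T => (n * (∫ x, (x : ℝ) ∂F) + L * (Real.log m - 1) + a) + L / m * E T)
      (PP F n m) := (integrable_const _).add (iE.const_mul _)
  refine ⟨fun T => (n * (∫ x, (x : ℝ) ∂F) + L * (Real.log m - 1) + a) + L / m * E T + Q T / a,
    i1.add (iQ.div_const a), fun T j => ?_, ?_⟩
  · set A := ∑ i, (U (T i j) - ∫ x, U x ∂F) with hA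
    set C := ∑ i, (ex B (T i j) - ∫ x, ex B x ∂F) with hC
    have e : ∑ i, (T i j : ℝ) = n * (∫ x, (x : ℝ) ∂F) + A + C := by
      rw [hA, hC, hτ, sum_congr rfl fun i _ => hsplit (T i j)]
      simp only [sum_add_distrib, sum_sub_distrib, sum_const, card_univ, Fintype.card_fin,
        nsmul_eq_mul]
      ring
    have a1 : Real.exp (1 / L * A) ≤ E T :=
      single_le_sum (f := fun j => Real.exp (1 / L * ∑ i, (U (T i j) - ∫ x, U x ∂F)))
        (fun _ _ => (Real.exp_pos _).le) (mem_univ j)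
    have a2 : C ^ 2 ≤ Q T :=
      single_le_sum (f := fun j => (∑ i, (ex B (T i j) - ∫ x, ex B x ∂F)) ^ 2)
        (fun _ _ => sq_nonneg _) (mem_univ j)
    have a3 := Real.add_one_le_exp (1 / L * A - Real.log m)
    rw [Real.exp_sub, Real.exp_log hm'] at a3
    have a4 : A ≤ L * (Real.log m - 1) + L / m * E T := by
      have b1 := div_le_div_of_nonneg_right a1 hm'.le
      have b2 := mul_le_mul_of_nonneg_left (a3.trans b1) hL0.le
      have e1 : L * (1 / L * A - Real.log m + 1) = A - L * (Real.log m - 1) := by field_simp; ring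
      have e2 : L * (E T / m) = L / m * E T := by ring
      linarith
    have a5 : C ≤ a + Q T / a := by
      have b1 : C - a ≤ C ^ 2 / a := by
        rw [le_div_iff₀ ha]; nlinarith [sq_nonneg (C - a), sq_nonneg C, sq_nonneg a]
      have b2 := div_le_div_of_nonneg_right a2 ha.le
      linarith
    simp only
    linarith
  · rw [integral_add i1 (iQ.div_const a), integral_add (integrable_const _) (iE.const_mul _),
      integral_const_mul, integral_div]
    simp only [integral_const, probReal_univ, smul_eq_mul, one_mul]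
    have b1 := mul_le_mul_of_nonneg_left bE (show 0 ≤ L / m by positivity)
    have e1 : L / m * (m * 2) = 2 * L := by field_simp
    have b2 := div_le_div_of_nonneg_right bQ ha.le
    rw [← mul_assoc] at b2
    linarith

lemma opt_bound (hF : MemLp (fun x : ℝ≥0 => (x : ℝ)) 2 F) (hn : 0 < n) (hm : 0 < m) {B a b : ℝ}
    (hB : 0 < B) (ha : 0 < a) (hb : 0 < b) :
    Integrable opt (PP F n m) ∧ ∫ T, opt T ∂PP F n m ≤ n * (∫ x, (x : ℝ) ∂F) +
        B * √(n : ℝ) * (Real.log m + 1) + a + m * n * hh F B / a +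
        m * (2 * m + 1) * (2 * b + n * m * hh F b / b) := by
  obtain ⟨S, s1, s2, s3⟩ := load_part hF hn hm hB ha
  obtain ⟨M, m1, m2, m3, m4⟩ := max_part (n := n) (m := m) hF hb
  have i1 : Integrable (fun T => S T + m * (2 * m + 1) * M T) (PP F n m) := s1.add (m1.const_mul _)
  have key : ∀ T, opt T ≤ S T + m * (2 * m + 1) * M T := fun T => by
    have h0 : 0 ≤ S T := le_trans (by positivity) (s2 T ⟨0, hm⟩)
    refine (opt_le hn T h0 (m2 T) (s2 T) (m3 T)).trans (le_of_eq ?_)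
    ring
  have i2 : Integrable opt (PP F n m) :=
    i1.mono' opt_meas.aestronglyMeasurable (ae_of_all _ fun T => by
      rw [Real.norm_of_nonneg (opt_nonneg T)]; exact key T)
  refine ⟨i2, (integral_mono i2 i1 key).trans ?_⟩
  rw [integral_add s1 (m1.const_mul _), integral_const_mul, m4]
  linarith

theorem main (hF : MemLp (fun x : ℝ≥0 => (x : ℝ)) 2 F) {c : ℝ} (hc : 0 < c) :
    ∃ m0 : ℕ, ∀ m, m0 ≤ m → ∃ n1 : ℕ, ∀ n, n1 ≤ n → Integrable opt (PP F n m) ∧
      ∫ T, (opt T - ((n : ℝ) + m - 1) * ∫ x, (x : ℝ) ∂F) ∂PP F n m < c * √((m : ℝ) * n) := by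
  obtain ⟨B, hB1, hB2⟩ := ((eventually_gt_atTop (0 : ℝ)).and
    ((hh_lim hF).eventually (ge_mem_nhds (show 0 < c ^ 2 / 64 by positivity)))).exists
  have t1 : Tendsto (fun m : ℕ => (Real.log m + 1) / √(m : ℝ)) atTop (𝓝 0) := by
    have h1 := (isLittleO_log_rpow_atTop (show (0 : ℝ) < 1 / 2 by norm_num)).tendsto_div_nhds_zero
    have h2 : Tendsto (fun x : ℝ => 1 / √x) atTop (𝓝 0) := Real.tendsto_sqrt_atTop.const_div_atTop 1
    have h3 := (h1.add h2).comp tendsto_natCast_atTop_atTop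
    simp only [add_zero] at h3
    refine h3.congr fun m => ?_
    simp only [Function.comp, Real.sqrt_eq_rpow, add_div]
  obtain ⟨m0, hm0⟩ := eventually_atTop.1 ((eventually_ge_atTop 1).and
    (t1.eventually (ge_mem_nhds (show 0 < c / (4 * B) by positivity))))
  refine ⟨m0, fun m hm => ?_⟩
  obtain ⟨hm1, hm2⟩ := hm0 m hm
  have hm' : (1 : ℝ) ≤ m := by exact_mod_cast hm1
  set K : ℝ := m * (2 * m + 1) with hK
  have hK0 : 0 < K := by positivity
  set η : ℝ := c / (16 * K) with hη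
  have hη0 : 0 < η := by positivity
  have t2 : Tendsto (fun n : ℕ => hh F (η * √(n : ℝ))) atTop (𝓝 0) :=
    (hh_lim hF).comp ((Real.tendsto_sqrt_atTop.comp tendsto_natCast_atTop_atTop).const_mul_atTop hη0)
  obtain ⟨n1, hn1⟩ := eventually_atTop.1 ((eventually_ge_atTop 1).and
    (t2.eventually (ge_mem_nhds (show 0 < c * η / (8 * K * m) by positivity))))
  refine ⟨n1, fun n hn => ?_⟩
  obtain ⟨hn2, hn3⟩ := hn1 n hn
  have hn' : (1 : ℝ) ≤ n := by exact_mod_cast hn2
  have sn : 1 ≤ √(n : ℝ) := Real.one_le_sqrt.2 hn'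
  have sm : 1 ≤ √(m : ℝ) := Real.one_le_sqrt.2 hm'
  have en : √(n : ℝ) * √(n : ℝ) = n := Real.mul_self_sqrt (by linarith)
  have em : √(m : ℝ) * √(m : ℝ) = m := Real.mul_self_sqrt (by linarith)
  obtain ⟨i1, h1⟩ := opt_bound (n := n) (m := m) hF (by omega) (by omega) hB1
    (a := c / 8 * (√(m : ℝ) * √(n : ℝ))) (b := η * √(n : ℝ)) (by positivity) (by positivity)
  refine ⟨i1, ?_⟩
  rw [integral_sub i1 (integrable_const _), Real.sqrt_mul (by positivity)]
  simp only [integral_const, probReal_univ, smul_eq_mul, one_mul]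
  have hτ : 0 ≤ ∫ x, (x : ℝ) ∂F := integral_nonneg fun x => x.2
  set p := √(m : ℝ)
  set q := √(n : ℝ)
  have b1 : B * q * (Real.log m + 1) ≤ c / 4 * (p * q) := by
    rw [div_le_div_iff₀ (by linarith) (by positivity)] at hm2
    nlinarith
  have b2 : m * n * hh F B / (c / 8 * (p * q)) ≤ c / 8 * (p * q) := by
    rw [div_le_iff₀ (by positivity)]
    have e : c / 8 * (p * q) * (c / 8 * (p * q)) = m * n * (c ^ 2 / 64) := by
      rw [← em, ← en]; ring
    rw [e]
    exact mul_le_mul_of_nonneg_left hB2 (by positivity)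
  have b3 : K * (2 * (η * q) + n * m * hh F (η * q) / (η * q)) ≤ c / 4 * q := by
    have c1 : n * m * hh F (η * q) / (η * q) ≤ c / (8 * K) * q := by
      rw [div_le_iff₀ (by positivity)]
      have e : c / (8 * K) * q * (η * q) = n * m * (c * η / (8 * K * m)) := by
        rw [← en]; field_simp
      rw [e]
      exact mul_le_mul_of_nonneg_left hn3 (by positivity)
    have c2 := mul_le_mul_of_nonneg_left (add_le_add_right c1 (2 * (η * q))) hK0.le
    refine c2.trans (le_of_eq ?_)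
    rw [hη]; field_simp; ring
  have b4 : q ≤ p * q := by nlinarith
  have b5 : 0 < c * (p * q) := by positivity
  nlinarith [mul_le_mul_of_nonneg_left b4 hc.le, mul_nonneg (sub_nonneg.2 hm') hτ]

end

end Pool.Agent.H32.Flow
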