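import Mathlib

set_option autoImplicit false

namespace Pool.Agent.H32.Flow

open scoped NNReal

noncomputable section

/-- Completion times: `C 0 j = C i 0 = 0` and `C (i+1) (j+1) = max (C i (j+1)) (C (i+1) j) + t i j`,
where `t i j` is the time of the `(i+1)`-st scheduled task on machine `j+1`. -/
def comp (t : ℕ → ℕ → ℝ) : ℕ → ℕ → ℝ
  | 0, _ => 0
  | _ + 1, 0 => 0
  | i + 1, j + 1 => max (comp t i (j + 1)) (comp t (i + 1) j) + t i j

/-- Makespan `C n m` of the permutation schedule `π` for the operation times `T`. -/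
def makespan {n m : ℕ} (T : Fin n → Fin m → ℝ≥0) (π : Equiv.Perm (Fin n)) : ℝ :=
  comp (fun i j => if h : i < n ∧ j < m then (T (π ⟨i, h.1⟩) ⟨j, h.2⟩ : ℝ) else 0) n m

/-- Optimal makespan: the minimum over all permutation schedules. -/
def opt {n m : ℕ} (T : Fin n → Fin m → ℝ≥0) : ℝ := ⨅ π : Equiv.Perm (Fin n), makespan T π

end

end Pool.Agent.H32.Flow
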