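import Mathlib

set_option autoImplicit false

namespace Pool.Agent.H32.Glau

def sel (s T a : ℕ) : ℕ := (T >>> (s * a)) &&& (2 ^ s - 1)

def e7 (s : ℕ) (g : ℕ → ℕ) : ℕ :=
  g 0 + (g 1 + (g 2 + (g 3 + (g 4 + (g 5 + g 6 <<< s) <<< s) <<< s) <<< s) <<< s) <<< s

def get (T a b c d : ℕ) : ℕ := sel 40 (sel 280 (sel 1960 (sel 13720 T d) c) b) a

def enc (F : ℕ → ℕ → ℕ → ℕ → ℕ) : ℕ :=
  e7 13720 fun d => e7 1960 fun c => e7 280 fun b => e7 40 fun a => F a b c d

def s7 (g : ℕ → ℕ) : ℕ := g 0 + g 1 + g 2 + g 3 + g 4 + g 5 + g 6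

def ssum (F : ℕ → ℕ → ℕ → ℕ → ℕ) : ℕ := s7 fun a => s7 fun b => s7 fun c => s7 fun d => F a b c d

def ok (a b c d : ℕ) : Bool := !(Nat.beq a b) && !(Nat.beq b c) && !(Nat.beq c d)

def no (a b c d : ℕ) : ℕ := cond (ok a b c d) 0 1

def bad (a b c d : ℕ) : ℕ :=
  s7 (fun x => no x b c d) + s7 (fun x => no a x c d) + s7 (fun x => no a b x d) +
    s7 (fun x => no a b c x)

def r0 (T b c d : ℕ) : ℕ := s7 fun x => get T x b c d
def r1 (T a c d : ℕ) : ℕ := s7 fun x => get T a x c d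
def r2 (T a b d : ℕ) : ℕ := s7 fun x => get T a b x d
def r3 (T a b c : ℕ) : ℕ := s7 fun x => get T a b c x

def nxt (T a b c d : ℕ) : ℕ := cond (ok a b c d)
  (r0 T b c d + r1 T a c d + r2 T a b d + r3 T a b c + bad a b c d * get T a b c d) 0

def tab (i j k l : ℕ) : ℕ → ℕ
  | 0 => enc fun a b c d => cond (Nat.beq a i && Nat.beq b j && Nat.beq c k && Nat.beq d l) 1 0
  | t + 1 => enc (nxt (tab i j k l t))

def dev (T a b c d : ℕ) : ℕ :=
  cond (ok a b c d) ((1512 * get T a b c d - 28 ^ 8) + (28 ^ 8 - 1512 * get T a b c d)) 0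

def chk (i j k l : ℕ) : Bool :=
  Nat.ble (1000 * ssum (dev (tab i j k l 8))) (2 * 367 * 1512 * 28 ^ 8)

theorem c1 : chk 0 1 0 1 = true := by decide +kernel
theorem c2 : chk 0 1 0 2 = true := by decide +kernel
theorem c3 : chk 0 1 2 0 = true := by decide +kernel
theorem c4 : chk 0 1 2 1 = true := by decide +kernel
theorem c5 : chk 0 1 2 3 = true := by decide +kernel
theorem c0 : ssum (fun a b c d => cond (ok a b c d) 1 0) = 1512 := by decide +kernel

end Pool.Agent.H32.Glau
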