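import Pool.Agent.H32.Peierls

set_option autoImplicit false

namespace Pool.Agent.H32.Peierls

open Finset
open scoped NNReal

def nb (j : Fin 2 × Bool) : V := if j.2 then e j.1 else -e j.1

def cnt (x : V → Bool) (i : V) : ℕ := ∑ j, if x (i + nb j) = true then 1 else 0

lemma cnt_le (x : V → Bool) (i : V) : cnt x i ≤ 4 := by
  refine (sum_le_card_nsmul _ _ 1 fun j _ => ?_).trans (by simp)
  split_ifs <;> simp

lemma cnt_mono {x y : V → Bool} (h : ∀ v, x v ≤ y v) (i : V) : cnt x i ≤ cnt y i := by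
  refine sum_le_sum fun j _ => ?_
  have := h (i + nb j)
  revert this
  cases x (i + nb j) <;> cases y (i + nb j) <;> simp

def ne01 (a b : Bool) : ℕ := if a ≠ b then 1 else 0

def ds (n : ℕ) (y : Bool) : ℕ := if y then 4 - n else n

lemma ds_cnt (x : V → Bool) (i : V) (y : Bool) :
    ds (cnt x i) y = ∑ d : Fin 2, (ne01 y (x (i + e d)) + ne01 (x (i - e d)) y) := by
  simp only [cnt, Fintype.sum_prod_type, Fin.sum_univ_two, Fintype.sum_bool, nb, sub_eq_add_neg,
    if_true, Bool.false_eq_true, if_false]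
  generalize x (i + e 0) = a
  generalize x (i + e 1) = b
  generalize x (i + -e 0) = c
  generalize x (i + -e 1) = d
  revert a b c d y
  decide

lemma r_pos : 0 < r := by
  unfold r
  positivity

lemma r_le : r ≤ 1 := by
  unfold r
  rw [← NNReal.coe_le_coe]
  norm_num

noncomputable def den (n : ℕ) : ℝ≥0 := r ^ n + r ^ (4 - n)

lemma den_pos (n : ℕ) : 0 < den n := by
  have := r_pos
  unfold den
  positivity

noncomputable def kw (n : ℕ) (y : Bool) : ℝ≥0 := r ^ ds n y / den n

lemma kw_pos (n : ℕ) (y : Bool) : 0 < kw n y := div_pos (pow_pos r_pos _) (den_pos n)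

lemma kw_sum (n : ℕ) : kw n true + kw n false = 1 := by
  rw [kw, kw, ← add_div, div_eq_one_iff_eq (den_pos n).ne', add_comm]
  rfl

lemma kw_flip {n : ℕ} (h : n ≤ 4) (y : Bool) : kw (4 - n) y = kw n (!y) := by
  have : 4 - (4 - n) = n := by omega
  cases y <;> simp [kw, ds, den, this, add_comm]

lemma kw_holley {n m : ℕ} (h : n ≤ m) (a b : Bool) :
    kw n a * kw m b ≤ kw n (a ⊓ b) * kw m (a ⊔ b) := by
  cases a <;> cases b <;> try exact le_rfl
  change kw n true * kw m false ≤ kw n false * kw m true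
  simp only [kw, div_mul_div_comm, ← pow_add]
  refine div_le_div_of_nonneg_right (pow_le_pow_of_le_one zero_le r_le ?_) zero_le
  simp only [ds, if_true, Bool.false_eq_true, if_false]
  omega

noncomputable def K (L : ℕ) (σ τ : box L → Bool) : ℝ≥0 := ∏ i : box L, kw (cnt (ext L σ) i) (τ i)

noncomputable def KK (L : ℕ) (G : (box L → Bool) → ℝ≥0) (σ : box L → Bool) : ℝ≥0 :=
  ∑ τ, G τ * K L σ τ

lemma sum_K (L : ℕ) (σ : box L → Bool) : ∑ τ, K L σ τ = 1 := by
  have := Finset.prod_univ_sum (fun _ : box L => (univ : Finset Bool))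
    (fun i y => kw (cnt (ext L σ) i) y)
  rw [Fintype.piFinset_univ] at this
  refine this.symm.trans (prod_eq_one fun i _ => ?_)
  rw [Fintype.sum_bool, kw_sum]

lemma KK_mono (L : ℕ) {G : (box L → Bool) → ℝ≥0} (hG : Monotone G) : Monotone (KK L G) := by
  intro σ σ' h
  refine holley (K L σ) (K L σ') G (fun _ => zero_le) (fun _ => zero_le) (fun _ => zero_le) hG
    (by rw [sum_K, sum_K]) fun a b => ?_
  simp only [K, ← prod_mul_distrib]
  refine prod_le_prod' fun i _ => kw_holley (cnt_mono (fun v => ?_) _) _ _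
  unfold ext
  split_ifs with hv
  · exact h _
  · exact le_rfl

noncomputable def Dis (L : ℕ) (σ τ : box L → Bool) : ℕ :=
  ∑ a ∈ box (L + 1) ×ˢ (univ : Finset (Fin 2)),
    (ne01 (ext L τ a.1) (ext L σ (a.1 + e a.2)) + ne01 (ext L σ a.1) (ext L τ (a.1 + e a.2)))

lemma Dis_symm (L : ℕ) (σ τ : box L → Bool) : Dis L σ τ = Dis L τ σ :=
  sum_congr rfl fun _ _ => add_comm _ _

lemma split {L : ℕ} {A : Finset V} (hA : box L ⊆ A) (φ : V → Bool → ℕ) (τ : box L → Bool) :
    ∑ w ∈ A, φ w (ext L τ w) = ∑ i : box L, φ i (τ i) + ∑ w ∈ A \ box L, φ w false := by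
  rw [← sum_sdiff hA, add_comm, ← sum_coe_sort (box L)]
  congr 1
  · exact sum_congr rfl fun i _ => by simp [ext]
  · exact sum_congr rfl fun w hw => by rw [supp_ext L τ w (mem_sdiff.1 hw).2]

lemma Dis_eq (L : ℕ) : ∃ C : (box L → Bool) → ℕ, ∀ σ τ,
    Dis L σ τ = ∑ i : box L, ds (cnt (ext L σ) i) (τ i) + C σ := by
  classical
  refine ⟨fun σ => ∑ d : Fin 2, (∑ w ∈ box (L + 1) \ box L, ne01 false (ext L σ (w + e d)) +
    ∑ w ∈ (box (L + 1)).map (addRightEmbedding (e d)) \ box L, ne01 (ext L σ (w - e d)) false),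
    fun σ τ => ?_⟩
  simp only [ds_cnt]
  rw [Dis, sum_product_right, sum_comm (s := univ) (t := univ), ← sum_add_distrib]
  refine sum_congr rfl fun d _ => ?_
  have h1 : box L ⊆ box (L + 1) := fun v hv => by
    simp only [mem_box] at hv ⊢
    omega
  have h2 : box L ⊆ (box (L + 1)).map (addRightEmbedding (e d)) := fun v hv => by
    refine mem_map.2 ⟨v - e d, ?_, by simp⟩
    fin_cases d <;> simp [mem_box] at hv ⊢ <;> omega
  have h3 := split h1 (fun w y => ne01 y (ext L σ (w + e d))) τ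
  have h4 := split h2 (fun w y => ne01 (ext L σ (w - e d)) y) τ
  rw [sum_map] at h4
  simp only [addRightEmbedding_apply, add_sub_cancel_right] at h4
  rw [sum_add_distrib, sum_add_distrib, h3, h4]
  ring

noncomputable def Z (L : ℕ) (σ : box L → Bool) : ℝ≥0 := ∑ τ, r ^ Dis L σ τ

lemma W_eq (L : ℕ) (σ τ : box L → Bool) : r ^ Dis L σ τ = Z L σ * K L σ τ := by
  obtain ⟨C, hC⟩ := Dis_eq L
  have h : ∀ τ, r ^ Dis L σ τ = (r ^ C σ * ∏ i : box L, den (cnt (ext L σ) i)) * K L σ τ := by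
    intro τ
    rw [hC, pow_add, ← prod_pow_eq_pow_sum, mul_comm, mul_assoc, K, ← prod_mul_distrib]
    congr 1
    refine prod_congr rfl fun i _ => ?_
    rw [kw, mul_div_cancel₀ _ (den_pos _).ne']
  rw [Z, sum_congr rfl fun τ _ => h τ, ← mul_sum, sum_K, mul_one, h]

lemma stat (L : ℕ) (G : (box L → Bool) → ℝ≥0) :
    ∑ σ, Z L σ * KK L G σ = ∑ σ, Z L σ * G σ := by
  simp only [KK, mul_sum]
  rw [sum_comm]
  refine sum_congr rfl fun τ _ => ?_
  conv_rhs => rw [Z, sum_mul]
  refine sum_congr rfl fun σ _ => ?_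
  rw [Dis_symm, W_eq]
  ring

def sw {L : ℕ} (σ τ : box L → Bool) : box L → Bool :=
  fun i => if (i.1 0 + i.1 1) % 2 = 0 then σ i else τ i

lemma ext_sw {L : ℕ} (σ τ : box L → Bool) (v : V) :
    ext L (sw σ τ) v = if (v 0 + v 1) % 2 = 0 then ext L σ v else ext L τ v := by
  unfold ext sw
  split_ifs <;> rfl

lemma Dis_sw {L : ℕ} (σ τ : box L → Bool) :
    Dis L σ τ = (Bd L (ext L (sw σ τ))).card + (Bd L (ext L (sw τ σ))).card := by
  rw [Bd, Bd, card_filter, card_filter, ← sum_add_distrib]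
  refine sum_congr rfl fun a _ => ?_
  obtain ⟨v, d⟩ := a
  have h : ((v + e d) 0 + (v + e d) 1) % 2 = 0 ↔ ¬ (v 0 + v 1) % 2 = 0 := by
    fin_cases d <;> simp <;> omega
  simp only [ext_sw, h, ne01]
  by_cases hv : (v 0 + v 1) % 2 = 0
  · simp only [hv, not_true, if_true, if_false]
    exact add_comm _ _
  · simp only [hv, not_false_iff, if_true, if_false]

noncomputable def G0 (L : ℕ) (σ : box L → Bool) : ℝ≥0 := if ext L σ 0 = true then 1 else 0

lemma G0_mono (L : ℕ) : Monotone (G0 L) := by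
  intro σ σ' h
  have : ext L σ 0 ≤ ext L σ' 0 := by
    unfold ext
    split_ifs with hv
    · exact h _
    · exact le_rfl
  unfold G0
  revert this
  cases ext L σ 0 <;> cases ext L σ' 0 <;> simp

lemma pair_sum (L : ℕ) (φ : Bool → ℝ≥0) :
    ∑ σ, Z L σ * φ (ext L σ 0) = (∑ η, r ^ (Bd L (ext L η)).card * φ (ext L η 0)) *
      ∑ η, r ^ (Bd L (ext L η)).card := by
  let f : (box L → Bool) × (box L → Bool) → (box L → Bool) × (box L → Bool) :=
    fun p => (sw p.1 p.2, sw p.2 p.1)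
  have hf : Function.Involutive f := by
    intro p
    ext i <;> simp only [f, sw] <;> split_ifs <;> rfl
  rw [sum_mul_sum, ← Fintype.sum_prod_type', ← Equiv.sum_comp hf.toPerm, Fintype.sum_prod_type]
  refine sum_congr rfl fun σ _ => ?_
  rw [Z, sum_mul]
  refine sum_congr rfl fun τ _ => ?_
  simp only [Function.Involutive.coe_toPerm, f]
  rw [Dis_sw, ext_sw, if_pos (by simp), pow_add]
  ring

theorem KK_bound (L t : ℕ) : (KK L)^[t] (G0 L) ⊥ ≤ 4⁻¹ := by
  have hm : ∀ t, Monotone ((KK L)^[t] (G0 L)) := by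
    intro t
    induction t with
    | zero => exact G0_mono L
    | succ t ih =>
      rw [Function.iterate_succ_apply']
      exact KK_mono L ih
  have hs : ∀ t, ∑ σ, Z L σ * (KK L)^[t] (G0 L) σ = ∑ σ, Z L σ * G0 L σ := by
    intro t
    induction t with
    | zero => rfl
    | succ t ih => rw [Function.iterate_succ_apply', stat, ih]
  have hZ : 0 < ∑ σ, Z L σ :=
    sum_pos (fun σ _ => sum_pos (fun τ _ => pow_pos r_pos _) univ_nonempty) univ_nonempty
  have h1 := pair_sum L fun b => if b = true then 1 else 0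
  have h2 := pair_sum L fun _ => 1
  simp only [mul_one] at h2
  refine le_of_mul_le_mul_left ?_ hZ
  calc _ ≤ ∑ σ, Z L σ * (KK L)^[t] (G0 L) σ := by
        rw [sum_mul]
        exact sum_le_sum fun σ _ => mul_le_mul_right (hm t bot_le) _
    _ = _ := (hs t).trans h1
    _ ≤ _ := by
        rw [h2, mul_right_comm, mul_comm _ (4⁻¹ : ℝ≥0)]
        refine mul_le_mul_left (le_trans (le_of_eq ?_) (peierls L)) _
        simp only [mul_ite, mul_one, mul_zero]

end Pool.Agent.H32.Peierls
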