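import Pool.Agent.H32.Cesaro

set_option autoImplicit false

namespace Pool.Agent.H32.Join

open Filter Topology MeasureTheory
open scoped ENNReal BoundedContinuousFunction

lemma wd {X : Type} [MeasurableSpace X] (μ ν : Measure X) [IsProbabilityMeasure μ]
    [IsProbabilityMeasure ν] {d : X × X → ℝ} (md : Measurable d) {C : ℝ}
    (bd : ∀ p, 0 ≤ d p ∧ d p ≤ C) (h1 : ∀ x, ∫ y, d (x, y) ∂ν = 1) (h2 : ∀ y, ∫ x, d (x, y) ∂μ = 1) :
    ((μ.prod ν).withDensity fun p => ENNReal.ofReal (d p)).map Prod.fst = μ ∧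
    ((μ.prod ν).withDensity fun p => ENNReal.ofReal (d p)).map Prod.snd = ν := by
  have one : ∀ (m : Measure X) [IsProbabilityMeasure m] (g : X → X × X), Measurable g →
      ∫ y, d (g y) ∂m = 1 → ∫⁻ y, ENNReal.ofReal (d (g y)) ∂m = 1 := by
    intro m _ g hg h
    rw [← ofReal_integral_eq_lintegral_ofReal (f := fun y => d (g y))
      (Integrable.of_bound (md.comp hg).aestronglyMeasurable C
      (ae_of_all _ fun y => by rw [Real.norm_eq_abs, abs_of_nonneg (bd _).1]; exact (bd _).2))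
      (ae_of_all _ fun y => (bd _).1), h, ENNReal.ofReal_one]
  constructor <;> ext A hA
  · rw [Measure.map_apply measurable_fst hA, withDensity_apply _ (measurable_fst hA),
      ← lintegral_indicator (measurable_fst hA),
      lintegral_prod _ (md.ennreal_ofReal.indicator (measurable_fst hA)).aemeasurable,
      ← lintegral_indicator_one hA]
    refine lintegral_congr fun x => ?_
    by_cases hx : x ∈ A
    · simpa [Set.indicator, hx] using one ν _ measurable_prodMk_left (h1 x)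
    · simp [Set.indicator, hx]
  · rw [Measure.map_apply measurable_snd hA, withDensity_apply _ (measurable_snd hA),
      ← lintegral_indicator (measurable_snd hA),
      lintegral_prod_symm _ (md.ennreal_ofReal.indicator (measurable_snd hA)).aemeasurable,
      ← lintegral_indicator_one hA]
    refine lintegral_congr fun x => ?_
    by_cases hx : x ∈ A
    · simpa [Set.indicator, hx] using one μ _ measurable_prodMk_right (h2 x)
    · simp [Set.indicator, hx]

lemma icomp {X Y : Type} [MeasurableSpace X] [MeasurableSpace Y] {μ : Measure X} {ν : Measure Y}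
    {π : X → Y} (h : MeasurePreserving π μ ν) (f : Y → ℝ) (hf : AEStronglyMeasurable f ν) :
    ∫ y, f y ∂ν = ∫ x, f (π x) ∂μ := by
  obtain ⟨h1, rfl⟩ := h
  exact integral_map h1.aemeasurable hf

lemma sf_iter {A : Type} (i : ℕ) : ∀ (z : ℕ → A) j, sf^[i] z j = z (j + i) := by
  induction i with
  | zero => exact fun _ _ => rfl
  | succ i ih => exact fun z j => by rw [Function.iterate_succ_apply, ih]; rfl

lemma lift (μ : Measure (ℕ → ℕ)) [IsProbabilityMeasure μ] (hμ : MeasurePreserving sf μ μ)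
    (h : ∃ m : ℕ, ∃ f : ℕ → Fin m, ∃ c : ℝ, 0 < c ∧ ∀ n : ℕ, c * (n : ℝ) ≤ ∑ w : Fin n → Fin m,
      Real.negMulLog ((μ {x : ℕ → ℕ | ∀ i : Fin n, f (x i.val) = w i}).toReal)) :
    ∃ (m : ℕ) (π : (ℕ → ℕ) → ℕ → Fin m) (s : Sys (ℕ → Fin m)) (F : s.L2) (g : ℕ → ℝ),
      MeasurePreserving π μ s.μ ∧ s.α F 0 ≠ 0 ∧ (∀ a, |g a| ≤ 1) ∧
        ∀ n, ∀ᵐ x ∂μ, (s.U^[n] F) (π x) = g (x n) := by
  obtain ⟨m, f, c, hc, h⟩ := h
  let π : (ℕ → ℕ) → ℕ → Fin m := fun x i => f (x i)
  have mπ : Measurable π := measurable_pi_lambda _ fun i =>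
    (Measurable.of_discrete (f := f)).comp (measurable_pi_apply i)
  have := Measure.isProbabilityMeasure_map (μ := μ) mπ.aemeasurable
  have hs : MeasurePreserving sf (μ.map π) (μ.map π) := ⟨msf, by
    rw [Measure.map_map msf mπ, show sf ∘ π = π ∘ sf from rfl, ← Measure.map_map mπ msf, hμ.map_eq]⟩
  obtain ⟨s, a, e1, e2, e3⟩ := exists_sys (μ.map π) hs hc fun n => (h n).trans_eq
    (Finset.sum_congr rfl fun w _ => by
      rw [Measure.real, Measure.map_apply mπ (by measurability)]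
      rfl)
  have b1 : ∀ z, |ind a z| ≤ 1 := fun z => by unfold ind; split_ifs <;> simp
  have hm : MemLp (ind a) 2 s.μ := MemLp.of_bound (m_ind a).aestronglyMeasurable 1 (ae_of_all _ b1)
  have hp : MeasurePreserving π μ s.μ := ⟨mπ, e1.symm⟩
  refine ⟨m, π, s, hm.toLp _, fun b => if f b = a then 1 else 0, hp, ?_,
    fun b => by dsimp only; split_ifs <;> simp, fun n => ?_⟩
  · rw [s.α_zero, ← e1] at *
    rwa [integral_congr_ae (hm.coeFn_toLp.mono fun z hz => by rw [hz])]
  · have : ∀ᵐ z ∂s.μ, (s.U^[n] (hm.toLp _)) z = ind a (sf^[n] z) := by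
      induction n with
      | zero => exact hm.coeFn_toLp
      | succ n ih =>
        rw [Function.iterate_succ_apply']
        filter_upwards [s.U_ae (s.U^[n] (hm.toLp _)), s.mp.quasiMeasurePreserving.ae ih] with z k1 k2
        rw [k1, k2, e2]
        rfl
    filter_upwards [hp.quasiMeasurePreserving.ae this] with x hx
    rw [hx, ind, sf_iter, zero_add]

lemma indep (μ ν : Measure (ℕ → ℕ)) [IsProbabilityMeasure μ] [IsProbabilityMeasure ν]
    (ξ : Measure ((ℕ → ℕ) × (ℕ → ℕ))) [IsProbabilityMeasure ξ] (h : ∀ a b : ℕ,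
      ξ ({p : (ℕ → ℕ) × (ℕ → ℕ) | p.1 0 = a} ∩ {p | p.2 0 = b}) =
        μ {x : ℕ → ℕ | x 0 = a} * ν {y : ℕ → ℕ | y 0 = b}) (g k : ℕ → ℝ) :
    ∫ p, g (p.1 0) * k (p.2 0) ∂ξ = (∫ x, g (x 0) ∂μ) * ∫ y, k (y 0) ∂ν := by
  have m0 : Measurable fun x : ℕ → ℕ => x 0 := measurable_pi_apply 0
  have e : ξ.map (Prod.map (fun x => x 0) fun x => x 0) =
      (μ.map fun x => x 0).prod (ν.map fun x => x 0) := Measure.ext_of_singleton fun q => by
    rw [Measure.map_apply (m0.prodMap m0) (measurableSet_singleton _), ← Set.singleton_prod_singleton,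
      Measure.prod_prod, Measure.map_apply m0 (measurableSet_singleton _),
      Measure.map_apply m0 (measurableSet_singleton _)]
    exact h q.1 q.2
  rw [← integral_map (f := g) m0.aemeasurable Measurable.of_discrete.aestronglyMeasurable,
    ← integral_map (f := k) m0.aemeasurable Measurable.of_discrete.aestronglyMeasurable,
    ← integral_prod_mul, ← e,
    integral_map (m0.prodMap m0).aemeasurable Measurable.of_discrete.aestronglyMeasurable]
  rfl

theorem main (μ ν : Measure (ℕ → ℕ)) [IsProbabilityMeasure μ] [IsProbabilityMeasure ν]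
    (hμ : MeasurePreserving sf μ μ) (hν : MeasurePreserving sf ν ν)
    {m m' : ℕ} {π : (ℕ → ℕ) → ℕ → Fin m} {ρ : (ℕ → ℕ) → ℕ → Fin m'} {s : Sys (ℕ → Fin m)}
    {t : Sys (ℕ → Fin m')} {F : s.L2} {G : t.L2} {g k : ℕ → ℝ} (hπ : MeasurePreserving π μ s.μ)
    (hρ : MeasurePreserving ρ ν t.μ) (hF : s.α F 0 ≠ 0) (hG : t.α G 0 ≠ 0) (bg : ∀ a, |g a| ≤ 1)
    (bk : ∀ a, |k a| ≤ 1) (eF : ∀ n, ∀ᵐ x ∂μ, (s.U^[n] F) (π x) = g (x n))
    (eG : ∀ n, ∀ᵐ x ∂ν, (t.U^[n] G) (ρ x) = k (x n))
    (h : ∀ ξ : Measure ((ℕ → ℕ) × (ℕ → ℕ)), IsProbabilityMeasure ξ →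
      MeasurePreserving (Prod.map sf sf) ξ ξ → ξ.map Prod.fst = μ → ξ.map Prod.snd = ν →
      ∀ a b : ℕ, ξ ({p : (ℕ → ℕ) × (ℕ → ℕ) | p.1 0 = a} ∩ {p | p.2 0 = b}) =
        μ {x : ℕ → ℕ | x 0 = a} * ν {y : ℕ → ℕ | y 0 = b}) : False := by
  refine l2_lemma (s.α_sq F) (t.α_sq G) hF hG fun p q => ?_
  rw [← s.α_iter, ← t.α_iter]
  set F' := s.U^[p] F with hF'
  set G' := t.U^[q] G with hG'
  have hs : Summable fun n => s.α F' n * t.α G' n :=
    summ ⟨_, (mem_iff _).2 (s.α_sq F')⟩ ⟨_, (mem_iff _).2 (t.α_sq G')⟩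
  suffices H : ∀ δ : ℝ, 0 < δ → δ ≤ 1 → |∑' n, s.α F' n * t.α G' n| ≤ δ * (‖F'‖ * ‖G'‖) by
    refine abs_nonpos_iff.1 (ge_of_tendsto (f := fun δ : ℝ => δ * (‖F'‖ * ‖G'‖)) (x := 𝓝[>] 0) ?_ ?_)
    · exact (Continuous.tendsto' (by fun_prop) _ _ (by simp)).mono_left nhdsWithin_le_nhds
    · filter_upwards [Ioc_mem_nhdsGT one_pos] with δ hδ using H δ hδ.1 hδ.2
  intro δ h0 h1
  have mπρ := hπ.prod hρ
  have md : ∀ N, Measurable fun x : (ℕ → ℕ) × (ℕ → ℕ) => D s t δ N (π x.1, ρ x.2) := fun N =>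
    (mD s t δ N).comp mπρ.measurable
  have hw := fun N => wd μ ν (md N) (fun x => bD s t h0.le h1 N _) (fun x => by
      rw [← marg s t h0.le h1 N (π x), icomp hρ (fun w => D s t δ N (π x, w))
        ((mD s t δ N).comp measurable_prodMk_left).aestronglyMeasurable]) fun y => by
      rw [← marg t s h0.le h1 N (ρ y), icomp hπ (fun w => D t s δ N (ρ y, w))
        ((mD t s δ N).comp measurable_prodMk_left).aestronglyMeasurable]
      simp only [D_swap s t, Prod.swap]
  have pw : ∀ N, IsProbabilityMeasure ((μ.prod ν).withDensity fun x =>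
      ENNReal.ofReal (D s t δ N (π x.1, ρ x.2))) := fun N => ⟨by
    have := congrArg (fun m : Measure (ℕ → ℕ) => m Set.univ) (hw N).1
    simpa [Measure.map_apply measurable_fst] using this⟩
  have cs : Continuous (sf (A := ℕ)) := continuous_pi fun _ => continuous_apply _
  obtain ⟨ζ, pζ, iζ, z1, z2, hζ⟩ := cesaro μ ν cs hμ hν _ (fun N => (hw N).1) fun N => (hw N).2
  have mpq : Measurable (Prod.map (sf (A := ℕ))^[p] (sf (A := ℕ))^[q]) :=
    (msf.iterate p).prodMap (msf.iterate q)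
  have pζ' := Measure.isProbabilityMeasure_map (μ := ζ) mpq.aemeasurable
  have k1 := indep μ ν _ (h _ pζ' ⟨iζ.measurable, by
      rw [Measure.map_map iζ.measurable mpq, Prod.map_comp_map, ← Function.iterate_succ',
        ← Function.iterate_succ', Function.iterate_succ, Function.iterate_succ, ← Prod.map_comp_map,
        ← Measure.map_map mpq iζ.measurable, iζ.map_eq]⟩ (by
      rw [Measure.map_map measurable_fst mpq, Prod.map_fst',
        ← Measure.map_map (msf.iterate p) measurable_fst, z1, (hμ.iterate p).map_eq]) (by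
      rw [Measure.map_map measurable_snd mpq, Prod.map_snd',
        ← Measure.map_map (msf.iterate q) measurable_snd, z2, (hν.iterate q).map_eq])) g k
  have cf : Continuous fun x : (ℕ → ℕ) × (ℕ → ℕ) => g (x.1 p) * k (x.2 q) :=
    (continuous_of_discreteTopology.comp ((continuous_apply p).comp continuous_fst)).mul
      (continuous_of_discreteTopology.comp ((continuous_apply q).comp continuous_snd))
  have hE : ∀ {m : ℕ} {π : (ℕ → ℕ) → ℕ → Fin m} {s : Sys (ℕ → Fin m)} {F : s.L2} {g : ℕ → ℝ}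
      {μ : Measure (ℕ → ℕ)}, MeasurePreserving π μ s.μ →
      (∀ n, ∀ᵐ x ∂μ, (s.U^[n] F) (π x) = g (x n)) → ∀ n, s.E (s.U^[n] F) = ∫ x, g (x 0) ∂μ := by
    intro m π s F g μ hπ e n
    induction n with
    | zero =>
      rw [Sys.E, icomp hπ _ (Lp.aestronglyMeasurable _)]
      exact integral_congr_ae (e 0)
    | succ n ih => rw [Function.iterate_succ_apply', ← s.E_L, s.L_U, ih]
  have k2 := hζ (BoundedContinuousFunction.ofNormedAddCommGroup _ cf 1 fun x => by
      rw [norm_mul]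
      exact mul_le_one₀ (bg _) (norm_nonneg _) (bk _))
    (s.E F' * t.E G' + δ * ∑' n, s.α F' n * t.α G' n) (δ ^ 2 * (‖F'‖ * ‖G'‖)) (by positivity)
    fun ε hε => by
      obtain ⟨K, hK⟩ := Metric.tendsto_atTop.1 hs.hasSum.tendsto_sum_nat ε hε
      refine ⟨K, fun N j hj => ?_⟩
      obtain ⟨M, rfl⟩ : ∃ M, N = M + j := ⟨N - j, by omega⟩
      have b1 := (I_bound s t h0.le h1 M F' G').2.2
      have b2 := hK M (by omega)
      rw [← I_U s t h0.le h1 j, I,
        icomp mπρ _ (intI s t _ _ (mD s t δ _) (absD s t h0.le h1 _)).1] at b1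
      rw [integral_withDensity_eq_integral_toReal_smul (md _).ennreal_ofReal
        (ae_of_all _ fun _ => ENNReal.ofReal_lt_top), integral_congr_ae (g := fun x =>
          (s.U^[j] F') (π x.1) * (t.U^[j] G') (ρ x.2) * D s t δ (M + j) (π x.1, ρ x.2))]
      · rw [Real.dist_eq, abs_lt] at b2
        rw [abs_le] at b1 ⊢
        simp only [Prod.map] at b1
        constructor <;> nlinarith
      · filter_upwards [Measure.quasiMeasurePreserving_fst.ae (eF (j + p)),
          Measure.quasiMeasurePreserving_snd.ae (eG (j + q))] with x e1 e2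
        rw [hF', hG', ← Function.iterate_add_apply, ← Function.iterate_add_apply, e1, e2,
          ENNReal.toReal_ofReal (bD s t h0.le h1 _ _).1, Prod.map_iterate]
        simp [sf_iter, add_comm, mul_comm]
  rw [integral_map mpq.aemeasurable (Measurable.aestronglyMeasurable (by fun_prop)),
    ← hE hπ eF p, ← hE hρ eG q] at k1
  simp only [Prod.map, sf_iter, zero_add] at k1
  simp only [BoundedContinuousFunction.coe_ofNormedAddCommGroup] at k2
  rw [k1, sub_add_cancel_left, abs_neg, abs_mul, abs_of_pos h0, pow_two, mul_assoc] at k2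
  exact le_of_mul_le_mul_left k2 h0

end Pool.Agent.H32.Join
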