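import Mathlib

open MeasureTheory Set Filter Topology Function
open scoped ENNReal

namespace Pool.Agent.H32.Khin

section comb
variable {ι C : Type*} [DecidableEq ι] [Fintype C] [LinearOrder C]

def top (W : Finset ι) (c : ι → C) (v : ι) : Finset (Equiv.Perm C) :=
  Finset.univ.filter fun π => ∀ u ∈ W, u ≠ v → π (c u) < π (c v)

lemma top_le (W : Finset ι) (c : ι → C) (hc : InjOn c W) {v v' : ι} (hv : v ∈ W) (hv' : v' ∈ W) :
    (top W c v).card ≤ (top W c v').card := by
  refine Finset.card_le_card_of_injOn (fun π => π * Equiv.swap (c v) (c v')) ?_ ?_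
  · intro π hπ
    simp only [top, Finset.coe_filter, Finset.mem_univ, true_and, mem_ofPred_eq] at hπ ⊢
    intro u hu huv
    simp only [Equiv.Perm.coe_mul, comp_apply, Equiv.swap_apply_right]
    by_cases h : u = v
    · subst h
      rw [Equiv.swap_apply_left]
      exact hπ v' hv' (Ne.symm huv)
    · rw [Equiv.swap_apply_of_ne_of_ne (fun e => h (hc hu hv e)) (fun e => huv (hc hu hv' e))]
      exact hπ u hu h
  · intro a _ b _ h
    exact mul_right_cancel h

lemma top_sum (W : Finset ι) (c : ι → C) :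
    ∑ v ∈ W, (top W c v).card ≤ Fintype.card (Equiv.Perm C) := by
  rw [← Finset.card_biUnion]
  · exact Finset.card_le_univ _
  · intro v hv v' hv' hne
    rw [Function.onFun, Finset.disjoint_left]
    intro π h1 h2
    simp only [top, Finset.mem_filter, Finset.mem_univ, true_and] at h1 h2
    exact lt_asymm (h1 v' hv' (Ne.symm hne)) (h2 v hv hne)

lemma top_bound (W : Finset ι) (c : ι → C) (hc : InjOn c W) {v : ι} (hv : v ∈ W) :
    W.card * (top W c v).card ≤ Fintype.card (Equiv.Perm C) := by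
  refine le_trans ?_ (top_sum W c)
  rw [← smul_eq_mul, ← Finset.sum_const]
  exact Finset.sum_le_sum fun v' hv' => top_le W c hc hv hv'

lemma marker {Ω : Type*} [MeasurableSpace Ω] (μ : Measure Ω) [IsProbabilityMeasure μ]
    [MeasurableSpace C] [MeasurableSingletonClass C] (W S : Finset ι) (hS : S ⊆ W)
    (c : ι → Ω → C) (hc : ∀ u, Measurable (c u)) :
    ∃ π : Equiv.Perm C, W.card * μ {y | InjOn (fun u => c u y) W ∧
      ∃ v ∈ S, ∀ u ∈ W, u ≠ v → π (c u y) < π (c v y)} ≤ S.card := by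
  classical
  set B : Equiv.Perm C → Set Ω := fun π => {y | InjOn (fun u => c u y) W ∧
      ∃ v ∈ S, ∀ u ∈ W, u ≠ v → π (c u y) < π (c v y)} with hB
  have mB : ∀ π, MeasurableSet (B π) := by
    intro π
    have hm : Measurable fun y => fun u : W => c u y := measurable_pi_lambda _ fun u => hc u
    have : B π = (fun y => fun u : W => c u y) ⁻¹'
        {g | Injective g ∧ ∃ v : W, v.1 ∈ S ∧ ∀ u : W, u ≠ v → π (g u) < π (g v)} := by
      ext y
      simp only [hB, mem_ofPred_eq, mem_preimage]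
      refine and_congr ?_ ⟨?_, ?_⟩
      · constructor
        · intro h a b e; exact Subtype.ext (h a.2 b.2 e)
        · intro h a ha b hb e
          exact congrArg Subtype.val (@h ⟨a, ha⟩ ⟨b, hb⟩ e)
      · rintro ⟨v, hv, h⟩
        exact ⟨⟨v, hS hv⟩, hv, fun u hu => h u u.2 fun e => hu (Subtype.ext e)⟩
      · rintro ⟨v, hv, h⟩
        exact ⟨v, hv, fun u hu e => h ⟨u, hu⟩ fun e' => e (congrArg Subtype.val e')⟩
    rw [this]
    exact hm (Set.toFinite _).measurableSet
  have pt : ∀ y, ∑ π : Equiv.Perm C, (W.card : ℝ≥0∞) * (B π).indicator 1 y ≤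
      ∑ _π : Equiv.Perm C, (S.card : ℝ≥0∞) := by
    intro y
    rw [← Finset.mul_sum, Finset.sum_const, Finset.card_univ, nsmul_eq_mul]
    have e : ∑ π : Equiv.Perm C, (B π).indicator (1 : Ω → ℝ≥0∞) y =
        ((Finset.univ.filter fun π => y ∈ B π).card : ℝ≥0∞) := by
      rw [Finset.card_filter]
      push_cast
      refine Finset.sum_congr rfl fun π _ => ?_
      by_cases h : y ∈ B π <;> simp [h]
    rw [e]
    by_cases hy : InjOn (fun u => c u y) W
    · have h1 : (Finset.univ.filter fun π => y ∈ B π) ⊆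
          S.biUnion fun v => top W (fun u => c u y) v := by
        intro π hπ
        obtain ⟨-, v, hv, h⟩ := (Finset.mem_filter.1 hπ).2
        exact Finset.mem_biUnion.2 ⟨v, hv, Finset.mem_filter.2 ⟨Finset.mem_univ _, h⟩⟩
      have h2 := (Finset.card_le_card h1).trans Finset.card_biUnion_le
      have h3 : W.card * (Finset.univ.filter fun π => y ∈ B π).card ≤
          Fintype.card (Equiv.Perm C) * S.card := by
        refine (Nat.mul_le_mul_left _ h2).trans ?_
        rw [Finset.mul_sum, mul_comm, ← smul_eq_mul, ← Finset.sum_const]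
        exact Finset.sum_le_sum fun v hv => top_bound W _ hy (hS hv)
      exact_mod_cast h3
    · have : (Finset.univ.filter fun π => y ∈ B π) = ∅ := by
        refine Finset.filter_eq_empty_iff.2 fun π _ h => hy h.1
      simp [this]
  have it := lintegral_mono (μ := μ) pt
  rw [lintegral_finsetSum _ fun π _ => (measurable_one.indicator (mB π)).const_mul _,
    lintegral_const, measure_univ, mul_one] at it
  simp only [lintegral_const_mul _ (measurable_one.indicator (mB _)),
    lintegral_indicator_one (mB _)] at it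
  obtain ⟨π, -, h⟩ := ENNReal.exists_le_of_sum_le Finset.univ_nonempty it
  exact ⟨π, h⟩

end comb

abbrev T := UnitAddCircle

lemma prob : IsProbabilityMeasure (volume : Measure T) := ⟨UnitAddCircle.measure_univ⟩

lemma noat : NullSingletonClass (volume : Measure T) :=
  ⟨fun x => by rw [← Metric.closedBall_zero, AddCircle.volume_closedBall]; simp⟩

def lam (v : ℕ × ℕ) : ℕ := 2 ^ v.1 * 3 ^ v.2

lemma lam_inj : Injective lam := by
  rintro ⟨a, b⟩ ⟨c, d⟩ h
  simp only [lam] at h
  have h2 := congrArg (fun n => n.factorization 2) h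
  have h3 := congrArg (fun n => n.factorization 3) h
  simp [Nat.factorization_mul, Nat.prime_two.factorization, Nat.prime_three.factorization] at h2 h3
  simp [h2, h3]

lemma mp {n : ℕ} (hn : n ≠ 0) : MeasurePreserving (fun y : T => n • y) volume volume := by
  have := Measure.measurePreserving_zsmul (volume : Measure T) (n := (n : ℤ)) (by exact_mod_cast hn)
  simpa using this

lemma coll {a b : ℕ} (h : a ≠ b) : {y : T | a • y = b • y}.Finite := by
  wlog hab : a < b generalizing a b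
  · have := this (Ne.symm h) (by omega)
    simpa [eq_comm] using this
  refine (AddCircle.finite_torsion (1 : ℝ) (n := b - a) (by omega)).subset fun y hy => ?_
  have e : b = a + (b - a) := by omega
  simp only [mem_ofPred_eq] at hy ⊢
  rw [e, add_nsmul] at hy
  simpa using hy

lemma cells (W : Finset (ℕ × ℕ)) : ∃ (M : ℕ) (c : T → Fin M), Measurable c ∧
    volume {y : T | ¬ InjOn (fun u => c (lam u • y)) W} ≤ 1 / 4 := by
  classical
  obtain ⟨e, em, ei⟩ := MeasurableSpace.measurable_injection_nat_bool_of_countablySeparated T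
  let c : ∀ m : ℕ, T → Fin (Fintype.card (Fin m → Bool)) := fun m y =>
    Fintype.equivFin _ fun i : Fin m => e y i
  have cm : ∀ m, Measurable (c m) := fun m =>
    (Measurable.of_discrete (f := Fintype.equivFin (Fin m → Bool))).comp
      (measurable_pi_lambda _ fun i => (measurable_pi_apply _).comp em)
  let N : ℕ → Set T := fun m => {y | ¬ InjOn (fun u => c m (lam u • y)) W}
  have hN : ∀ m y, y ∈ N m ↔ ∃ u ∈ W, ∃ v ∈ W, u ≠ v ∧
      ∀ i < m, e (lam u • y) i = e (lam v • y) i := by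
    intro m y
    simp only [N, InjOn, mem_ofPred_eq, c, Equiv.apply_eq_iff_eq, funext_iff, Finset.mem_coe]
    push Not
    constructor
    · rintro ⟨u, hu, v, hv, h, hne⟩
      exact ⟨u, hu, v, hv, hne, fun i hi => h ⟨i, hi⟩⟩
    · rintro ⟨u, hu, v, hv, hne, h⟩
      exact ⟨u, hu, v, hv, fun i => h i i.2, hne⟩
  have mN : ∀ m, MeasurableSet (N m) := by
    intro m
    have hm : Measurable fun y : T => fun u : W => c m (lam u • y) :=
      measurable_pi_lambda _ fun u => (cm m).comp (measurable_const_smul _)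
    have : N m = (fun y : T => fun u : W => c m (lam u • y)) ⁻¹' {g | ¬ Injective g} := by
      ext y
      simp only [N, mem_ofPred_eq, mem_preimage]
      refine not_congr ⟨?_, ?_⟩
      · intro h a b e; exact Subtype.ext (h a.2 b.2 e)
      · intro h a ha b hb e
        exact congrArg Subtype.val (@h ⟨a, ha⟩ ⟨b, hb⟩ e)
    rw [this]
    exact hm (Set.toFinite _).measurableSet
  have anti : Antitone N := by
    intro m m' h y hy
    rw [hN] at hy ⊢
    obtain ⟨u, hu, v, hv, hne, h'⟩ := hy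
    exact ⟨u, hu, v, hv, hne, fun i hi => h' i (by omega)⟩
  have lim := tendsto_measure_iInter_atTop (μ := (volume : Measure T))
    (fun m => (mN m).nullMeasurableSet) anti ⟨0, measure_ne_top _ _⟩
  have z : volume (⋂ m, N m) = 0 := by
    have := noat
    refine Set.Countable.measure_zero (Set.Countable.mono (s₂ := ⋃ p : (ℕ × ℕ) × (ℕ × ℕ),
      ⋃ _ : p.1 ≠ p.2, {y : T | lam p.1 • y = lam p.2 • y}) ?_ ?_) _
    · intro y hy
      by_contra hc
      simp only [mem_iUnion, not_exists, mem_ofPred_eq] at hc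
      have : ∀ p : (ℕ × ℕ) × (ℕ × ℕ), ∃ i, p.1 ≠ p.2 → e (lam p.1 • y) i ≠ e (lam p.2 • y) i := by
        intro p
        by_cases h : p.1 = p.2
        · exact ⟨0, fun h' => (h' h).elim⟩
        · have := fun h' => hc p h (ei h')
          obtain ⟨i, hi⟩ := Function.ne_iff.1 this
          exact ⟨i, fun _ => hi⟩
      choose i hi using this
      obtain ⟨u, hu, v, hv, hne, h⟩ := (hN _ y).1 (mem_iInter.1 hy ((W ×ˢ W).sup i + 1))
      exact hi (u, v) hne (h _ (Nat.lt_succ_of_le
        (Finset.le_sup (f := i) (Finset.mem_product.2 ⟨hu, hv⟩))))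
    · exact countable_iUnion fun p => countable_iUnion fun h =>
        (coll fun e => h (lam_inj e)).countable
  rw [z] at lim
  obtain ⟨m, hm⟩ := (lim.eventually (ge_mem_nhds (show (0 : ℝ≥0∞) < 1 / 4 by simp))).exists
  exact ⟨_, c m, cm m, hm⟩

lemma lam_add (u w : ℕ × ℕ) (y : T) : lam u • lam w • y = lam (u + w) • y := by
  rw [smul_smul]; congr 1
  simp only [lam, Prod.fst_add, Prod.snd_add]; ring

def Good (A : Set T) (Q H : ℕ) : Set T :=
  {y | ∃ r, ∀ s t, s ≤ H → t ≤ H → s % Q = r % Q → lam (s, t) • y ∈ A}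

lemma sweep (Q H : ℕ) (hQ : 0 < Q) (hH : 0 < H) : ∃ A : Set T, MeasurableSet A ∧
    volume A ≤ (Q : ℝ≥0∞)⁻¹ ∧ volume (Good A Q H)ᶜ ≤ 1 / 2 := by
  classical
  set W := Finset.range (16 * H) ×ˢ Finset.range (16 * H) with hW
  set B := Finset.range (15 * H) ×ˢ Finset.range (15 * H) with hB
  set I := Finset.Ico H (15 * H) ×ˢ Finset.Ico H (15 * H) with hI
  have IW : I ⊆ W := by
    intro v hv
    simp only [hI, hW, Finset.mem_product, Finset.mem_Ico, Finset.mem_range] at hv ⊢
    omega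
  have := prob
  obtain ⟨M, c, cm, hc⟩ := cells W
  have cm' : ∀ u, Measurable fun y : T => c (lam u • y) := fun u =>
    cm.comp (measurable_const_smul _)
  obtain ⟨π, hπ⟩ := marker (volume : Measure T) W (W \ I) Finset.sdiff_subset
    (fun u y => c (lam u • y)) cm'
  let A : ℕ → Set T := fun r => {y | ∃ v ∈ B, v.1 % Q = r ∧
    ∀ u ∈ B, u ≠ v → π (c (lam u • y)) < π (c (lam v • y))}
  have mA : ∀ r, MeasurableSet (A r) := by
    intro r
    have hm : Measurable fun y : T => fun u : B => c (lam u • y) :=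
      measurable_pi_lambda _ fun u => cm' u
    have : A r = (fun y : T => fun u : B => c (lam u • y)) ⁻¹'
        {g | ∃ v : B, v.1.1 % Q = r ∧ ∀ u : B, u ≠ v → π (g u) < π (g v)} := by
      ext y
      simp only [A, mem_ofPred_eq, mem_preimage]
      constructor
      · rintro ⟨v, hv, h1, h⟩
        exact ⟨⟨v, hv⟩, h1, fun u hu => h u u.2 fun e => hu (Subtype.ext e)⟩
      · rintro ⟨v, hv, h⟩
        exact ⟨v, v.2, hv, fun u hu e => h ⟨u, hu⟩ fun e' => e (congrArg Subtype.val e')⟩
    rw [this]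
    exact hm (Set.toFinite _).measurableSet
  have dA : Set.PairwiseDisjoint (↑(Finset.range Q)) A := by
    intro r _ r' _ hne
    rw [Function.onFun, Set.disjoint_left]
    rintro y ⟨v, hv, h1, h2⟩ ⟨v', hv', h1', h2'⟩
    have : v ≠ v' := fun e => hne (by rw [← h1, ← h1', e])
    exact lt_asymm (h2 v' hv' this.symm) (h2' v hv this)
  have sA : ∑ r ∈ Finset.range Q, volume (A r) ≤ ∑ _r ∈ Finset.range Q, (Q : ℝ≥0∞)⁻¹ := by
    rw [← measure_biUnion_finset dA fun r _ => mA r, Finset.sum_const, Finset.card_range,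
      nsmul_eq_mul, ENNReal.mul_inv_cancel (by simp [hQ.ne']) (by simp)]
    exact prob_le_one
  obtain ⟨r0, hr0, hA⟩ := ENNReal.exists_le_of_sum_le ⟨0, Finset.mem_range.2 hQ⟩ sA
  rw [Finset.mem_range] at hr0
  refine ⟨A r0, mA r0, hA, ?_⟩
  have sub : (Good (A r0) Q H)ᶜ ⊆ {y : T | ¬ InjOn (fun u => c (lam u • y)) W} ∪
      {y | InjOn (fun u => c (lam u • y)) W ∧ ∃ v ∈ W \ I, ∀ u ∈ W, u ≠ v →
        π (c (lam u • y)) < π (c (lam v • y))} := by
    intro y hy
    by_contra hn
    simp only [mem_union, mem_ofPred_eq, not_or, not_not, not_and] at hn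
    obtain ⟨hi, hn⟩ := hn
    obtain ⟨v, hv, hmax⟩ := Finset.exists_max_image W (fun u => π (c (lam u • y)))
      ⟨(0, 0), by simp [hW, hH]⟩
    have strict : ∀ u ∈ W, u ≠ v → π (c (lam u • y)) < π (c (lam v • y)) := fun u hu hne =>
      lt_of_le_of_ne (hmax u hu) fun e => hne (hi hu hv (π.injective e))
    have vI : v ∈ I := by
      by_contra h
      exact hn hi ⟨v, Finset.mem_sdiff.2 ⟨hv, h⟩, strict⟩
    simp only [hI, Finset.mem_product, Finset.mem_Ico] at vI
    refine hy ⟨v.1 + Q - r0, fun s t hs ht hr => ⟨(v.1 - s, v.2 - t), ?_, ?_, fun u hu hne => ?_⟩⟩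
    · simp only [hB, Finset.mem_product, Finset.mem_range]; omega
    · have h1 : v.1 - s + s ≡ r0 + s [MOD Q] := by
        have e1 : v.1 - s + s = v.1 := by omega
        have e2 : r0 + (v.1 + Q - r0) = v.1 + Q := by omega
        have h2 : r0 + s ≡ r0 + (v.1 + Q - r0) [MOD Q] := Nat.ModEq.add_left _ hr
        rw [e2] at h2
        rw [e1]
        exact (h2.trans (by simp [Nat.ModEq])).symm
      have := Nat.ModEq.add_right_cancel' s h1
      rw [Nat.ModEq, Nat.mod_eq_of_lt hr0] at this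
      exact this
    · have e : (v.1 - s, v.2 - t) + (s, t) = v := by
        ext <;> simp <;> omega
      rw [lam_add, lam_add, e]
      simp only [hB, Finset.mem_product, Finset.mem_range] at hu
      refine strict _ ?_ fun e' => hne (add_right_cancel (e'.trans e.symm))
      simp only [hW, Finset.mem_product, Finset.mem_range, Prod.fst_add, Prod.snd_add]
      omega
  refine (measure_mono sub).trans ((measure_union_le _ _).trans ?_)
  have c1 : W.card = 256 * H ^ 2 := by simp [hW]; ring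
  have c2 : (W \ I).card = 60 * H ^ 2 := by
    rw [Finset.card_sdiff_of_subset IW, c1]
    have : I.card = 196 * H ^ 2 := by
      have : 15 * H - H = 14 * H := by omega
      simp [hI, this]; ring
    omega
  rw [c1, c2] at hπ
  have q : ∀ m : ℝ≥0∞, ((256 * H ^ 2 : ℕ) : ℝ≥0∞) * m ≤ ((60 * H ^ 2 : ℕ) : ℝ≥0∞) → m ≤ 1 / 4 := by
    intro m hm
    have h0 : ((256 * H ^ 2 : ℕ) : ℝ≥0∞) ≠ 0 := by simp [hH.ne']
    refine (ENNReal.mul_le_mul_iff_right h0 (ENNReal.natCast_ne_top _)).1 (hm.trans ?_)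
    have : ((256 * H ^ 2 : ℕ) : ℝ≥0∞) * (1 / 4) = ((64 * H ^ 2 : ℕ) : ℝ≥0∞) := by
      have : ((256 * H ^ 2 : ℕ) : ℝ≥0∞) = ((64 * H ^ 2 : ℕ) : ℝ≥0∞) * 4 := by push_cast; ring
      rw [this, mul_assoc, one_div, ENNReal.mul_inv_cancel (by simp) (by simp), mul_one]
    rw [this]
    exact_mod_cast (by omega : 60 * H ^ 2 ≤ 64 * H ^ 2)
  refine (add_le_add hc (q _ hπ)).trans (le_of_eq ?_)
  rw [ENNReal.div_add_div_same, ENNReal.div_eq_div_iff] <;> norm_num

/-- `(lam n)` is a Khintchin sequence. -/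
def Khintchin (l : ℕ → ℕ) : Prop :=
  ∀ f : T → ℝ, Integrable f → ∀ᵐ x : T,
    Tendsto (fun N : ℕ => (∑ n ∈ Finset.range N, f (l n • x)) / N) atTop (𝓝 (∫ y, f y))

lemma prod3 (ω : ℕ → ℕ) (m : ℕ) : ∀ k, (∀ i, m ≤ i → i < m + k → ω i = 3) →
    ∏ i ∈ Finset.range (m + k), ω i = (∏ i ∈ Finset.range m, ω i) * 3 ^ k := by
  intro k
  induction k with
  | zero => simp
  | succ k ih =>
    intro h
    rw [← add_assoc, Finset.prod_range_succ, ih fun i h1 h2 => h i h1 (by omega),
      h (m + k) (by omega) (by omega)]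
    ring

open Classical in
noncomputable def word (L i : ℕ) : ℕ := if ∃ s, i = L * 2 ^ s then 2 else 3

lemma word3 {L s i : ℕ} (h1 : L * 2 ^ s < i) (h2 : i < L * 2 ^ (s + 1)) : word L i = 3 := by
  rw [word, if_neg]
  rintro ⟨t, rfl⟩
  have a := (Nat.pow_lt_pow_iff_right (by norm_num : 1 < 2)).1 (Nat.lt_of_mul_lt_mul_left h1)
  have b := (Nat.pow_lt_pow_iff_right (by norm_num : 1 < 2)).1 (Nat.lt_of_mul_lt_mul_left h2)
  omega

lemma prodw (ω : ℕ → ℕ) (L Q : ℕ) (hL : 0 < L)
    (h : ∀ i, L ≤ i → i < L * 2 ^ Q → ω i = word L i) : ∀ s, s < Q → ∀ n, L * 2 ^ s ≤ n →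
    n < L * 2 ^ (s + 1) → ∃ b ≤ n, ∏ i ∈ Finset.range (n + 1), ω i =
      lam (s + 1, b) * ∏ i ∈ Finset.range L, ω i := by
  have mono : ∀ s t, s ≤ t → L * 2 ^ s ≤ L * 2 ^ t := fun s t hst =>
    Nat.mul_le_mul_left _ (Nat.pow_le_pow_right (by norm_num) hst)
  have step : ∀ s, s < Q → (∃ b ≤ L * 2 ^ s, ∏ i ∈ Finset.range (L * 2 ^ s), ω i =
      lam (s, b) * ∏ i ∈ Finset.range L, ω i) → ∀ n, L * 2 ^ s ≤ n →
      n < L * 2 ^ (s + 1) → ∃ b ≤ n, ∏ i ∈ Finset.range (n + 1), ω i =
      lam (s + 1, b) * ∏ i ∈ Finset.range L, ω i := by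
    rintro s hs ⟨b, hb, e⟩ n h1 h2
    have m0 := mono 0 s (by omega)
    have m1 := mono (s + 1) Q hs
    obtain ⟨k, rfl⟩ := Nat.exists_eq_add_of_le h1
    have e2 : L * 2 ^ s + k + 1 = L * 2 ^ s + 1 + k := by ring
    refine ⟨b + k, by omega, ?_⟩
    rw [e2, prod3 ω _ k fun i a1 a2 => by
      rw [h i (by omega) (by omega), word3 (s := s) (by omega) (by omega)],
      Finset.prod_range_succ, e, h _ (by omega) (by omega), word, if_pos ⟨s, rfl⟩]
    simp only [lam]; ring
  intro s
  induction s with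
  | zero => intro hs; exact step 0 hs ⟨0, by simp, by simp [lam]⟩
  | succ s ih =>
    intro hs
    refine step _ hs ?_
    have p : 0 < L * 2 ^ s := by positivity
    have e : L * 2 ^ (s + 1) = 2 * (L * 2 ^ s) := by ring
    obtain ⟨b, hb, e'⟩ := ih (by omega) (L * 2 ^ (s + 1) - 1) (by omega) (by omega)
    have e3 : L * 2 ^ (s + 1) - 1 + 1 = L * 2 ^ (s + 1) := by omega
    rw [e3] at e'
    exact ⟨b, by omega, e'⟩

lemma notKh : ∃ Q : ℕ → ℕ, ∀ ω : ℕ → ℕ, (∀ i, ω i ≠ 0) →
    (∀ n, ∃ L, n < L ∧ ∀ i, L ≤ i → i < L * 2 ^ Q L → ω i = word L i) →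
    ¬ Khintchin fun n => ∏ i ∈ Finset.range (n + 1), ω i := by
  classical
  obtain ⟨ε, ε0, hε⟩ := ENNReal.exists_pos_sum_of_countable' (show (1 / 4 : ℝ≥0∞) ≠ 0 by simp) ℕ
  have hQ : ∀ L, ∃ q : ℕ, 0 < q ∧ (q : ℝ≥0∞)⁻¹ ≤ ε L := by
    intro L
    obtain ⟨q, hq⟩ := ENNReal.exists_inv_nat_lt (ε0 L).ne'
    refine ⟨q + 1, by omega, le_trans ?_ hq.le⟩
    exact ENNReal.inv_le_inv.2 (by simp)
  choose Q Q0 hQ using hQ
  choose A mA hA hG using fun L => sweep (Q L) (L * 2 ^ Q L + Q L) (Q0 L) (by have := Q0 L; omega)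
  refine ⟨Q, fun ω hω hw hK => ?_⟩
  set U := ⋃ L, A L with hU
  have mU : MeasurableSet U := MeasurableSet.iUnion mA
  have μU : volume U < 1 / 4 :=
    ((measure_iUnion_le _).trans (ENNReal.tsum_le_tsum fun L => (hA L).trans (hQ L))).trans_lt hε
  have μU' : (volume : Measure T).real U < 1 / 2 := by
    have := ENNReal.toReal_strict_mono (by simp) μU
    simp only [Measure.real]
    norm_num at this ⊢
    linarith
  have hK' := hK (U.indicator 1) ((integrable_const 1).indicator mU)
  rw [integral_indicator_one mU] at hK'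
  let E : ℕ → Set T := fun n => {x | ∀ N ≥ n, (∑ k ∈ Finset.range N,
    U.indicator (1 : T → ℝ) ((∏ i ∈ Finset.range (k + 1), ω i) • x)) / N < 1 / 2}
  have mE : Monotone E := fun a b hab x hx N hN => hx N (by omega)
  have hE : ∀ n, volume (E n) ≤ 1 / 2 := by
    intro n
    obtain ⟨L, hL, hw⟩ := hw n
    have P0 : ∏ i ∈ Finset.range L, ω i ≠ 0 := Finset.prod_ne_zero_iff.2 fun i _ => hω i
    have pm := mp P0
    refine le_trans ?_ (hG L)
    have hle := Measure.le_map_apply (μ := (volume : Measure T)) pm.measurable.aemeasurable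
      (Good (A L) (Q L) (L * 2 ^ Q L + Q L))ᶜ
    rw [pm.map_eq] at hle
    refine le_trans (measure_mono ?_) hle
    rintro x hx ⟨r, hr⟩
    have q0 := Q0 L
    obtain ⟨s, hs, hsr⟩ : ∃ s < Q L, (s + 1) % Q L = r % Q L := by
      refine ⟨(r + Q L - 1) % Q L, Nat.mod_lt _ q0, ?_⟩
      rw [Nat.mod_add_mod]
      have : r + Q L - 1 + 1 = r + Q L := by omega
      rw [this]; simp
    have m1 : L * 2 ^ (s + 1) ≤ L * 2 ^ Q L :=
      Nat.mul_le_mul_left _ (Nat.pow_le_pow_right (by norm_num) hs)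
    have p : L ≤ L * 2 ^ s := Nat.le_mul_of_pos_right _ (by positivity)
    have e : L * 2 ^ (s + 1) = L * 2 ^ s + L * 2 ^ s := by ring
    have := hx (L * 2 ^ (s + 1)) (by omega)
    rw [div_lt_iff₀ (by have : 0 < L := by omega
                        positivity)] at this
    have h2 : ((L * 2 ^ s : ℕ) : ℝ) ≤ ∑ k ∈ Finset.range (L * 2 ^ (s + 1)),
        U.indicator (1 : T → ℝ) ((∏ i ∈ Finset.range (k + 1), ω i) • x) := by
      rw [e, Finset.sum_range_add]
      refine le_add_of_nonneg_of_le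
        (Finset.sum_nonneg fun k _ => indicator_nonneg (fun _ _ => zero_le_one) _) ?_
      rw [Finset.sum_congr rfl (g := fun _ => (1 : ℝ))]
      · simp
      · intro k hk
        rw [Finset.mem_range] at hk
        obtain ⟨b, hb, e'⟩ := prodw ω L (Q L) (by omega) hw s hs (L * 2 ^ s + k) (by omega) (by omega)
        rw [e', mul_smul, indicator_of_mem (mem_iUnion.2 ⟨L, hr (s + 1) b (by omega) (by omega) hsr⟩)]
        rfl
    rw [e] at this h2
    push_cast at this h2
    linarith
  have tot : volume (⋃ n, E n) ≤ 1 / 2 := by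
    rw [mE.measure_iUnion]; exact iSup_le hE
  have full : ∀ᵐ x : T, x ∈ ⋃ n, E n := by
    filter_upwards [hK'] with x hx
    obtain ⟨n, hn⟩ := eventually_atTop.1 (hx.eventually (gt_mem_nhds μU'))
    exact mem_iUnion.2 ⟨n, hn⟩
  have : volume (⋃ n, E n) = 1 := by
    have := prob
    have h1 := measure_univ_le_add_compl (μ := (volume : Measure T)) (⋃ n, E n)
    have h2 : volume (⋃ n, E n)ᶜ = 0 := full
    rw [h2, add_zero, measure_univ] at h1
    exact le_antisymm prob_le_one h1
  rw [this] at tot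
  norm_num at tot

theorem meagre (S : Set ℕ) (h2 : 2 ∈ S) (h3 : 3 ∈ S) (h0 : 0 ∉ S) :
    IsMeagre {ω : ℕ → S | Khintchin fun n => ∏ i ∈ Finset.range (n + 1), (ω i : ℕ)} := by
  obtain ⟨Q, hQ⟩ := notKh
  have wS : ∀ L i, word L i ∈ S := fun L i => by unfold word; split_ifs <;> assumption
  let U : ℕ → Set (ℕ → S) := fun n =>
    {ω | ∃ L, n < L ∧ ∀ i, L ≤ i → i < L * 2 ^ Q L → (ω i : ℕ) = word L i}
  have oU : ∀ n, IsOpen (U n) := by
    intro n
    have : U n = ⋃ L, ⋃ _ : n < L, ⋂ i ∈ Finset.Ico L (L * 2 ^ Q L),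
        (fun ω : ℕ → S => ω i) ⁻¹' {a | (a : ℕ) = word L i} := by
      ext ω; simp [U]
    rw [this]
    exact isOpen_iUnion fun L => isOpen_iUnion fun _ => isOpen_biInter_finset fun i _ =>
      (isOpen_discrete _).preimage (continuous_apply i)
  have dU : ∀ n, Dense (U n) := by
    intro n ω
    let g : ℕ → ℕ → S := fun L i => if i < L then ω i else ⟨word L i, wS L i⟩
    have lim : Tendsto g atTop (𝓝 ω) := by
      refine tendsto_pi_nhds.2 fun i => tendsto_const_nhds.congr' ?_
      filter_upwards [eventually_gt_atTop i] with L hL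
      simp [g, hL]
    refine mem_closure_of_tendsto lim ?_
    filter_upwards [eventually_gt_atTop n] with L hL
    exact ⟨L, hL, fun i hi _ => by simp [g, not_lt.2 hi]⟩
  have : ∀ᶠ ω in residual (ℕ → S), ∀ n, ω ∈ U n :=
    eventually_countable_forall.2 fun n => residual_of_dense_open (oU n) (dU n)
  refine this.mono fun ω hω => hQ (fun i => ω i) (fun i e => h0 (e ▸ (ω i).2)) hω

end Pool.Agent.H32.Khin
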