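import Mathlib
import Pool.Agent.H32.Maz
import Pool.Agent.H32.UFB

open Set Filter Function
open Cardinal hiding univ

namespace Pool.Agent.H32.Kun

open UFA

abbrev T : Type := ℕ → Bool
abbrev Ω : Type := Σ k : ℕ, (Fin k → Bool) → Finset (Fin k → Bool)

def res (k : ℕ) (t : T) : Fin k → Bool := fun i => t i

lemma sep (s : Finset T) : ∀ᶠ k in atTop, ∀ x ∈ s, ∀ y ∈ s, res k x = res k y → x = y := by
  simp only [Finset.eventually_all]
  intro x _ y _
  by_cases h : x = y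
  · exact Eventually.of_forall fun _ _ => h
  · obtain ⟨i, hi⟩ := Function.ne_iff.1 h
    filter_upwards [eventually_gt_atTop i] with n hn h2
    exact (hi (congrFun h2 ⟨i, hn⟩)).elim

lemma low (N : ℕ) : {ω : Ω | ω.1 < N}.Finite :=
  ((finite_lt_nat N).biUnion fun k _ => finite_range (Sigma.mk (β := fun k : ℕ =>
    (Fin k → Bool) → Finset (Fin k → Bool)) k)).subset fun ω h => mem_biUnion h ⟨ω.2, rfl⟩

def Y (X : T → T → ℕ → Set ℕ) (τ : Finset T) (σ : T → Finset T) : Set ℕ :=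
  {k | ∀ β ∈ τ, ∀ α ∈ σ β, k ∈ X β α (σ β).card}

/-- an independent linked family -/
lemma family : ∃ X : T → T → ℕ → Set ℕ, (∀ β α n m, n ≤ m → X β α n ⊆ X β α m) ∧
    (∀ β n (s : Finset T), n < s.card → {k | ∀ α ∈ s, k ∈ X β α n}.Finite) ∧
    ∀ τ σ, (Y X τ σ).Infinite := by
  classical
  have : Infinite Ω := Infinite.of_injective (fun k : ℕ => (⟨k, fun _ => ∅⟩ : Ω))
    fun a b h => congrArg Sigma.fst h
  obtain ⟨e⟩ : Nonempty (ℕ ≃ Ω) := nonempty_equiv_of_countable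
  refine ⟨fun β α n => e ⁻¹' {ω | res ω.1 α ∈ ω.2 (res ω.1 β) ∧ (ω.2 (res ω.1 β)).card ≤ n},
    fun β α n m h k hk => ⟨hk.1, hk.2.trans h⟩, fun β n s hs => ?_, fun τ σ => ?_⟩
  · obtain ⟨N, hN⟩ := eventually_atTop.1 (sep s)
    refine ((low N).preimage e.injective.injOn).subset fun k hk => ?_
    by_contra h
    obtain ⟨α, hα⟩ := Finset.card_pos.1 (Nat.zero_lt_of_lt hs)
    exact absurd ((Finset.card_le_card_of_injOn _ (fun a ha => (hk a ha).1)
      (hN _ (not_lt.1 h))).trans (hk α hα).2) (not_le.2 hs)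
  · obtain ⟨N, hN⟩ := eventually_atTop.1 (sep τ)
    refine infinite_of_injective_forall_mem (f := fun n => e.symm ⟨N + n, fun b =>
      (τ.filter fun β => res _ β = b).biUnion fun β => (σ β).image (res _)⟩)
      (fun a b h => by simpa using congrArg Sigma.fst (e.symm.injective h)) fun n β hβ α hα => ?_
    have : (τ.filter fun γ => res (N + n) γ = res _ β) = {β} := by
      ext γ
      simp only [Finset.mem_filter, Finset.mem_singleton]
      exact ⟨fun h => hN _ (Nat.le_add_right _ _) _ h.1 _ hβ h.2, fun h => by rw [h]; exact ⟨hβ, rfl⟩⟩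
    simp only [mem_preimage, Equiv.apply_symm_apply, mem_ofPred_eq, this, Finset.singleton_biUnion]
    exact ⟨Finset.mem_image_of_mem _ hα, Finset.card_image_le⟩

def F (S : Set (Set ℕ ⊕ T)) : Filter ℕ := cofinite ⊓ generate (Sum.inl ⁻¹' S)

def ad (S : Set (Set ℕ ⊕ T)) (G : Set (Set ℕ)) (τ : Finset T) : Set (Set ℕ ⊕ T) :=
  S ∪ (Sum.inl '' G ∪ Sum.inr '' τ)

lemma F_ad (S : Set (Set ℕ ⊕ T)) (G : Set (Set ℕ)) (τ : Finset T) :
    F (ad S G τ) = F S ⊓ generate G := by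
  rw [F, F, inf_assoc, ← generate_union]
  congr 2
  ext A
  simp [ad]

def π : Set ℕ ⊕ T → Option T := Sum.elim (fun _ => none) some

lemma π_ad (S : Set (Set ℕ ⊕ T)) (G : Set (Set ℕ)) (τ : Finset T) :
    (π '' ad S G τ \ π '' S).Finite := by
  refine ((τ.finite_toSet.image some).insert none).subset ?_
  rintro _ ⟨⟨x, h | ⟨A, -, rfl⟩ | ⟨β, h, rfl⟩, rfl⟩, k⟩
  exacts [(k ⟨x, h, rfl⟩).elim, .inl rfl, .inr ⟨β, h, rfl⟩]

/-- Kunen: a nonprincipal ultrafilter that is not a limit of a discrete sequence in the remainder -/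
theorem exists_min : ∃ w : UF, NP w ∧ ∀ (v : UF) (g : ℕ → UF) (ρ : ℕ → ℕ), NP v →
    (∀ j, (g j).map ρ = pure j) → {j | NP (g j)} ∈ v → w ≠ v.bind g := by
  classical
  obtain ⟨X, x1, x2, x3⟩ := family
  have hT : #T = 𝔠 := by simp [T]
  obtain ⟨S, h1, h2⟩ := Maz.build (T := ℕ → ℕ) (by simp) π
    (fun S => ∀ τ σ, (∀ β ∈ τ, Sum.inr β ∉ S) → ∃ᶠ k in F S, k ∈ Y X τ σ)
    (fun ρ S => (∃ r, Sum.inl {k | ρ k < r} ∈ S) ∨ ∃ β, ∀ α, Sum.inl {k | k ∈ X β α (ρ k)} ∈ S)
    (fun ρ S S' h k => k.imp (fun ⟨r, a⟩ => ⟨r, h a⟩) fun ⟨β, a⟩ => ⟨β, fun α => h (a α)⟩)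
    (fun c hc h τ σ hτ k => by
      obtain ⟨A, a1, B, b1, k'⟩ := mem_inf_iff.1 k
      clear k
      obtain ⟨t, t1, t2, t3⟩ := mem_generate_iff.1 b1
      rcases c.eq_empty_or_nonempty with rfl | hn
      · obtain rfl : t = ∅ := by simpa using t1
        obtain ⟨n, n1, n2⟩ := ((frequently_cofinite_iff_infinite.2 (x3 τ σ)).and_eventually a1).exists
        exact (k'.ge ⟨n2, t3 (by simp)⟩ :) n1
      · obtain ⟨S, s1, s2⟩ := hc.exists_mem_subset_of_finite_of_subset_sUnion hn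
          (t2.image Sum.inl) (image_subset_iff.2 t1)
        refine h S s1 τ σ (fun β hβ q => hτ β hβ ⟨S, s1, q⟩) ?_
        exact mem_inf_iff.2 ⟨A, a1, B, mem_generate_iff.2 ⟨t, image_subset_iff.1 s2, t2, t3⟩, k'⟩)
    (fun S h hs ρ => by
      by_cases q : ∃ r τ σ, (∀ β ∈ τ, Sum.inr β ∉ S) ∧ ∀ᶠ k in F S, k ∈ Y X τ σ → ρ k < r
      · obtain ⟨r, τ, σ, q1, q2⟩ := q
        refine ⟨ad S {{k | ρ k < r}} τ, subset_union_left, π_ad _ _ _, fun τ' σ' h' => ?_,
          .inl ⟨r, .inr (.inl ⟨_, rfl, rfl⟩)⟩⟩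
        rw [F_ad, generate_singleton, frequently_inf_principal]
        refine ((h (τ ∪ τ') (fun β => if β ∈ τ then σ β else σ' β) fun β hβ k =>
          (Finset.mem_union.1 hβ).elim (q1 β · k) (h' β · (.inl k))).and_eventually q2).mono
          fun k ⟨k1, k2⟩ => ⟨k2 fun β hβ => ?_, fun β hβ => ?_⟩
        · simpa [hβ] using k1 β (Finset.mem_union_left _ hβ)
        · have : β ∉ τ := fun z => h' β hβ (.inr (.inr ⟨β, z, rfl⟩))
          simpa [this] using k1 β (Finset.mem_union_right _ hβ)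
      · push Not at q
        obtain ⟨β, hβ⟩ : ∃ β, Sum.inr β ∉ S := by
          by_contra! z
          exact absurd (hT.ge.trans (mk_le_of_injective (f := fun β => (⟨some β, _, z β, rfl⟩ :
            π '' S)) fun a b k => by simpa using k)) (not_le.2 hs)
        refine ⟨ad S (range fun α => {k | k ∈ X β α (ρ k)}) {β}, subset_union_left, π_ad _ _ _,
          fun τ σ h' k => ?_, .inr ⟨β, fun α => .inr (.inl ⟨_, ⟨α, rfl⟩, rfl⟩)⟩⟩
        rw [F_ad, generate_eq_biInf, iInf_range] at k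
        obtain ⟨A, a1, B, b1, k⟩ := mem_inf_iff.1 k
        obtain ⟨s, hs⟩ := (mem_iInf_finite B).1 b1
        simp only [iInf_principal_finset, mem_principal] at hs
        obtain ⟨n, ⟨n1, n2⟩, n3⟩ := ((q s.card (insert β τ) (update σ β s) fun γ hγ z =>
          (Finset.mem_insert.1 hγ).elim (fun e => hβ (e ▸ z)) (h' γ · (.inl z))).and_eventually
          a1).exists
        refine (k.ge ⟨n3, hs (mem_iInter₂.2 fun α hα => x1 _ _ _ _ n2 ?_)⟩ :) fun γ hγ => ?_
        · simpa using (by simpa using n1 β (Finset.mem_insert_self _ _) :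
            ∀ α ∈ s, n ∈ X β α s.card) α hα
        · have : γ ≠ β := fun z => h' γ hγ (.inr (.inr ⟨β, by simp, by rw [z]⟩))
          simpa [this] using n1 γ (Finset.mem_insert_of_mem hγ))
  have : (F S).NeBot := ⟨fun k => by simpa [k] using h1 ∅ (fun _ => ∅) (by simp)⟩
  let w := Ultrafilter.of (F S)
  have w1 : ∀ A, Sum.inl A ∈ S → A ∈ w := fun A hA =>
    Ultrafilter.of_le (F S) (mem_inf_of_right (mem_generate_of_mem hA))
  refine ⟨w, fun n hn => ?_, fun v g ρ hv hg hn e => ?_⟩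
  · have : {n}ᶜ ∈ w := Ultrafilter.of_le (F S) (mem_inf_of_left (finite_singleton n).compl_mem_cofinite)
    simp [hn] at this
  rcases h2 ρ with ⟨r, hr⟩ | ⟨β, hβ⟩
  · have : v = w.map ρ := by rw [e, UFB.map_bind_part (univ_mem' hg)]
    exact hv.fin (finite_lt_nat r) (this ▸ w1 _ hr)
  · have f : ∀ j, {α | NP (g j) ∧ {k | k ∈ X β α (ρ k)} ∈ g j}.Finite := fun j => by
      by_contra z
      obtain ⟨s, s1, s2⟩ := Set.Infinite.exists_subset_card_eq z (j + 1)
      obtain ⟨α, hα⟩ := Finset.card_pos.1 (show 0 < s.card by omega)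
      refine (s1 hα).1.fin (x2 β j s (by omega)) ?_
      filter_upwards [(biInter_finset_mem s).2 fun α hα => (s1 hα).2, map_eq_pure.1 (hg j)]
        with k k1 k2 α hα
      exact k2 ▸ mem_iInter₂.1 k1 α hα
    have : (univ : Set T).Countable := (countable_iUnion fun j => (f j).countable).mono
      fun α _ => by
        obtain ⟨j, j1, j2⟩ := Ultrafilter.nonempty_of_mem
          (inter_mem hn (show _ ∈ v from (e ▸ w1 _ (hβ α) : _ ∈ v.bind g)))
        exact mem_iUnion.2 ⟨j, j1, j2⟩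
    rw [← le_aleph0_iff_set_countable, mk_univ, hT] at this
    exact absurd this (not_le.2 aleph0_lt_continuum)

end Pool.Agent.H32.Kun
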