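import Mathlib
import Pool.Agent.H32.Kun

open Set Filter Function
open Cardinal hiding univ

namespace Pool.Agent.H32.Kun2

open UFA Kun

abbrev St : Type := Set (Bool × Set ℕ ⊕ T)

def F (S : St) (b : Bool) : Filter ℕ := cofinite ⊓ generate {A | Sum.inl (b, A) ∈ S}

def ad (S : St) (G : Bool → Set (Set ℕ)) (τ : Finset T) : St :=
  S ∪ (Sum.inl '' {p | p.2 ∈ G p.1} ∪ Sum.inr '' τ)

lemma F_ad (S : St) (G : Bool → Set (Set ℕ)) (τ : Finset T) (b : Bool) :
    F (ad S G τ) b = F S b ⊓ generate (G b) := by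
  rw [F, F, inf_assoc, ← generate_union]
  congr 2
  ext A
  simp [ad]

def π : Bool × Set ℕ ⊕ T → Option T := Sum.elim (fun _ => none) some

lemma π_ad (S : St) (G : Bool → Set (Set ℕ)) (τ : Finset T) :
    (π '' ad S G τ \ π '' S).Finite := by
  refine ((τ.finite_toSet.image some).insert none).subset ?_
  rintro _ ⟨⟨x, h | ⟨A, -, rfl⟩ | ⟨β, h, rfl⟩, rfl⟩, k⟩
  exacts [(k ⟨x, h, rfl⟩).elim, .inl rfl, .inr ⟨β, h, rfl⟩]

lemma mem_ad {S : St} {G : Bool → Set (Set ℕ)} {τ : Finset T} {b : Bool} {A : Set ℕ}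
    (h : A ∈ G b) : Sum.inl (b, A) ∈ ad S G τ := .inr (.inl ⟨(b, A), h, rfl⟩)

def Fr (S : St) (τ : Finset T) : Prop := ∀ β ∈ τ, Sum.inr β ∉ S

lemma Fr.of_ad {S : St} {G : Bool → Set (Set ℕ)} {τ τ' : Finset T} (h : Fr (ad S G τ) τ') :
    Fr S τ' ∧ ∀ β ∈ τ', β ∉ τ :=
  ⟨fun β hβ z => h β hβ (.inl z), fun β hβ z => h β hβ (.inr (.inr ⟨β, z, rfl⟩))⟩

variable {X : T → T → ℕ → Set ℕ}

lemma L1 {S : St} {τ τ' : Finset T} (h : Fr S τ) (h' : Fr S τ') (d : ∀ β ∈ τ', β ∉ τ)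
    (σ σ' : T → Finset T) : ∃ τ'' σ'', Fr S τ'' ∧ (∀ β ∈ τ'', β ∈ τ ∨ β ∈ τ') ∧
      Y X τ'' σ'' ⊆ Y X τ σ ∩ Y X τ' σ' := by
  classical
  refine ⟨τ ∪ τ', fun β => if β ∈ τ then σ β else σ' β, fun β hβ =>
    (Finset.mem_union.1 hβ).elim (h β) (h' β), fun β => Finset.mem_union.1,
    fun k k1 => ⟨fun β hβ => ?_, fun β hβ => ?_⟩⟩
  · simpa [hβ] using k1 β (Finset.mem_union_left _ hβ)
  · simpa [d β hβ] using k1 β (Finset.mem_union_right _ hβ)

def WP (u : UF) : Prop := NP u ∧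
  ∀ (v : UF) (c : ℕ → UF), u = v.bind c → {n | ¬ NP (c n)} ∈ v ∨ {n | c n = u} ∈ v

theorem exists_pair : ∃ w : Bool → UF, (∀ b, WP (w b)) ∧ ∀ b, ¬ RK (w (!b)) (w b) := by
  classical
  obtain ⟨X, x1, x2, x3⟩ := family
  have hT : #T = 𝔠 := by simp [T]
  obtain ⟨S, h1, h2⟩ := Maz.build (T := Bool × Bool × (ℕ → ℕ)) (by simp) π
    (fun S => ∀ b τ σ, Fr S τ → ∃ᶠ k in F S b, k ∈ Y X τ σ)
    (fun t S => if t.1 then (∃ r, Sum.inl (t.2.1, {k | t.2.2 k < r}) ∈ S) ∨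
      ∃ β, ∀ α, Sum.inl (t.2.1, {k | k ∈ X β α (t.2.2 k)}) ∈ S else
      ∃ A, Sum.inl (t.2.1, t.2.2 ⁻¹' A) ∈ S ∧ Sum.inl (!t.2.1, Aᶜ) ∈ S)
    (fun t S S' h k => by
      split_ifs at k ⊢
      exacts [k.imp (fun ⟨r, a⟩ => ⟨r, h a⟩) fun ⟨β, a⟩ => ⟨β, fun α => h (a α)⟩,
        k.imp fun _ a => ⟨h a.1, h a.2⟩])
    (fun c hc h b τ σ hτ k => by
      obtain ⟨A, a1, B, b1, k'⟩ := mem_inf_iff.1 k
      clear k
      obtain ⟨t, t1, t2, t3⟩ := mem_generate_iff.1 b1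
      rcases c.eq_empty_or_nonempty with rfl | hn
      · obtain rfl : t = ∅ := by simpa using t1
        obtain ⟨n, n1, n2⟩ := ((frequently_cofinite_iff_infinite.2 (x3 τ σ)).and_eventually a1).exists
        exact (k'.ge ⟨n2, t3 (by simp)⟩ :) n1
      · obtain ⟨S, s1, s2⟩ := hc.exists_mem_subset_of_finite_of_subset_sUnion hn
          (t2.image fun A => Sum.inl (b, A)) (image_subset_iff.2 t1)
        refine h S s1 b τ σ (fun β hβ q => hτ β hβ ⟨S, s1, q⟩) ?_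
        exact mem_inf_iff.2 ⟨A, a1, B, mem_generate_iff.2 ⟨t, image_subset_iff.1 s2, t2, t3⟩, k'⟩)
    (fun S h hs ⟨i, b, ρ⟩ => by
      obtain ⟨β, hβ⟩ : ∃ β, Fr S {β} := by
        by_contra! z
        simp only [Fr, Finset.mem_singleton, forall_eq, not_not] at z
        exact absurd (hT.ge.trans (mk_le_of_injective (f := fun β => (⟨some β, _, z β, rfl⟩ :
          π '' S)) fun a b k => by simpa using k)) (not_le.2 hs)
      have one : ∀ b τ σ α, Fr S τ → (∀ γ ∈ τ, γ ∉ ({β} : Finset T)) →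
          ∃ᶠ k in F S b, k ∈ X β α 1 ∧ k ∈ Y X τ σ := fun b τ σ α a1 a2 => by
        obtain ⟨τ', σ', c1, -, c2⟩ := L1 (X := X) hβ a1 a2 (fun _ => {α}) σ
        exact (h b τ' σ' c1).mono fun k hk => ⟨by simpa [Y] using (c2 hk).1, (c2 hk).2⟩
      cases i
      · simp only [Bool.false_eq_true, if_false]
        by_cases q : ∃ τ σ, Fr S τ ∧ ∀ᶠ k in F S b, k ∈ Y X τ σ → ρ k ∈ X β 0 1
        · obtain ⟨τ, σ, q1, q2⟩ := q
          refine ⟨ad S (fun c => {if c = b then ρ ⁻¹' X β 0 1 else (X β 0 1)ᶜ}) (insert β τ),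
            subset_union_left, π_ad _ _ _, fun c τ' σ' h' => ?_, X β 0 1, mem_ad (by simp),
            mem_ad (by simp)⟩
          rw [F_ad, generate_singleton, frequently_inf_principal]
          split_ifs with e
          · obtain ⟨τ2, σ2, c1, -, c2⟩ := L1 (X := X) q1 h'.of_ad.1
              (fun γ hγ z => h'.of_ad.2 γ hγ (Finset.mem_insert_of_mem z)) σ σ'
            exact ((h b τ2 σ2 c1).and_eventually q2).mono (fun k hk =>
              ⟨hk.2 (c2 hk.1).1, (c2 hk.1).2⟩) |> (e ▸ ·)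
          · have z : (1 : T) ≠ 0 := fun z => by simpa using congrFun z 0
            refine ((one c τ' σ' 1 h'.of_ad.1 fun γ hγ y => h'.of_ad.2 γ hγ
              (by simp_all)).and_eventually (mem_inf_of_left (x2 β 1 {0, 1}
                (by rw [Finset.card_pair z.symm]; simp)).compl_mem_cofinite)).mono
              fun k hk => ⟨fun y => hk.2 (by simp [y, hk.1.1]), hk.1.2⟩
        · push Not at q
          refine ⟨ad S (fun c => {if c = b then ρ ⁻¹' (X β 0 1)ᶜ else X β 0 1}) {β},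
            subset_union_left, π_ad _ _ _, fun c τ' σ' h' => ?_, (X β 0 1)ᶜ, mem_ad (by simp),
            mem_ad (by simp)⟩
          rw [F_ad, generate_singleton, frequently_inf_principal]
          split_ifs with e
          exacts [e ▸ (q τ' σ' h'.of_ad.1).mono fun k hk => hk.symm,
            one c τ' σ' 0 h'.of_ad.1 h'.of_ad.2]
      simp only [if_true]
      by_cases q : ∃ r τ σ, Fr S τ ∧ ∀ᶠ k in F S b, k ∈ Y X τ σ → ρ k < r
      · obtain ⟨r, τ, σ, q1, q2⟩ := q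
        refine ⟨ad S (fun c => {if c = b then {k | ρ k < r} else univ}) τ, subset_union_left,
          π_ad _ _ _, fun c τ' σ' h' => ?_, .inl ⟨r, mem_ad (by simp)⟩⟩
        rw [F_ad, generate_singleton, frequently_inf_principal]
        split_ifs with e
        · obtain ⟨τ2, σ2, c1, -, c2⟩ := L1 (X := X) q1 h'.of_ad.1 h'.of_ad.2 σ σ'
          exact ((h b τ2 σ2 c1).and_eventually q2).mono (fun k hk =>
            ⟨hk.2 (c2 hk.1).1, (c2 hk.1).2⟩) |> (e ▸ ·)
        · simpa using h c τ' σ' h'.of_ad.1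
      · push Not at q
        refine ⟨ad S (fun c => range fun α => if c = b then {k | k ∈ X β α (ρ k)} else univ) {β},
          subset_union_left, π_ad _ _ _, fun c τ σ h' => ?_,
          .inr ⟨β, fun α => mem_ad ⟨α, by simp⟩⟩⟩
        rw [F_ad, generate_eq_biInf, iInf_range]
        split_ifs with e
        swap
        · simpa using h c τ σ h'.of_ad.1
        intro k
        obtain ⟨A, a1, B, b1, k⟩ := mem_inf_iff.1 k
        obtain ⟨s, hs⟩ := (mem_iInf_finite B).1 b1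
        simp only [iInf_principal_finset, mem_principal] at hs
        obtain ⟨τ2, σ2, c1, -, c2⟩ := L1 (X := X) hβ h'.of_ad.1 h'.of_ad.2 (fun _ => s) σ
        obtain ⟨n, ⟨n1, n2⟩, n3⟩ := ((q s.card τ2 σ2 c1).and_eventually (e ▸ a1)).exists
        exact (k.ge ⟨n3, hs (mem_iInter₂.2 fun α hα =>
          x1 _ _ _ _ n2 ((c2 n1).1 β (by simp) α hα))⟩ :) (c2 n1).2)
  have : ∀ b, (F S b).NeBot := fun b =>
    ⟨fun k => by simpa [k] using h1 b ∅ (fun _ => ∅) (by simp [Fr])⟩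
  let w := fun b => Ultrafilter.of (F S b)
  have w1 : ∀ b A, Sum.inl (b, A) ∈ S → A ∈ w b := fun b A hA =>
    Ultrafilter.of_le (F S b) (mem_inf_of_right (mem_generate_of_mem hA))
  refine ⟨w, fun b => ⟨fun n hn => ?_, fun v c e => ?_⟩, fun b ⟨f, hf⟩ => ?_⟩
  · have : {n}ᶜ ∈ w b :=
      Ultrafilter.of_le (F S b) (mem_inf_of_left (finite_singleton n).compl_mem_cofinite)
    simp [hn] at this
  · by_contra z
    simp only [not_or, ← Ultrafilter.compl_mem_iff_notMem] at z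
    have : ∀ j, ∃ A ∈ w b, c j ≠ w b → A ∉ c j := fun j => by
      by_contra! y
      exact (y univ univ_mem).1 (eq_of_sub fun A hA => (y A hA).2).symm
    choose A a1 a2 using this
    let r : ℕ → ℕ := fun k => Nat.findGreatest (fun n => ∀ j < n, k ∈ A j) k
    have r1 : ∀ j k, k ∉ A j → r k ≤ j := fun j k hk => not_lt.1 fun y =>
      hk (Nat.findGreatest_spec (P := fun n => ∀ j < n, k ∈ A j) (Nat.zero_le k) (by simp) j y)
    rcases (by simpa using h2 (true, b, r) : (∃ n, Sum.inl (b, {k | r k < n}) ∈ S) ∨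
      ∃ β, ∀ α, Sum.inl (b, {k | k ∈ X β α (r k)}) ∈ S) with ⟨n, hn⟩ | ⟨β, hβ⟩
    · obtain ⟨k, ⟨k1, k2⟩, k3⟩ := Ultrafilter.nonempty_of_mem (inter_mem (inter_mem (w1 _ _ hn)
        ((biInter_mem (finite_lt_nat n)).2 fun j _ => a1 j)) (Ultrafilter.of_le (F S b)
          (mem_inf_of_left (finite_lt_nat n).compl_mem_cofinite)))
      exact absurd (Nat.le_findGreatest (P := fun n => ∀ j < n, k ∈ A j) (not_lt.1 k3)
        (mem_iInter₂.1 k2)) (not_le.2 k1)
    · have f : ∀ j, {α | (NP (c j) ∧ c j ≠ w b) ∧ {k | k ∈ X β α (r k)} ∈ c j}.Finite := fun j => by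
        by_contra z
        obtain ⟨s, s1, s2⟩ := Set.Infinite.exists_subset_card_eq z (j + 1)
        obtain ⟨α, hα⟩ := Finset.card_pos.1 (show 0 < s.card by omega)
        refine (s1 hα).1.1.fin (x2 β j s (by omega)) ?_
        filter_upwards [(biInter_finset_mem s).2 fun α hα => (s1 hα).2,
          Ultrafilter.compl_mem_iff_notMem.2 (a2 j (s1 hα).1.2)] with k k1 k2 α hα
        exact x1 _ _ _ _ (r1 j k k2) (mem_iInter₂.1 k1 α hα)
      have : (univ : Set T).Countable := (countable_iUnion fun j => (f j).countable).mono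
        fun α _ => by
          obtain ⟨j, ⟨j1, j2⟩, j3⟩ := Ultrafilter.nonempty_of_mem (inter_mem (inter_mem z.1 z.2)
            (show _ ∈ v from (e ▸ w1 _ _ (hβ α) : _ ∈ v.bind c)))
          exact mem_iUnion.2 ⟨j, ⟨not_not.1 j1, j2⟩, j3⟩
      rw [← le_aleph0_iff_set_countable, mk_univ, hT] at this
      exact absurd this (not_le.2 aleph0_lt_continuum)
  · obtain ⟨A, a1, a2⟩ : ∃ A, Sum.inl (b, f ⁻¹' A) ∈ S ∧ Sum.inl (!b, Aᶜ) ∈ S := by
      simpa using h2 (false, b, f)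
    exact Ultrafilter.compl_mem_iff_notMem.1 (w1 _ _ a2) (hf ▸ w1 _ _ a1)

end Pool.Agent.H32.Kun2
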