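import Mathlib
import Pool.Agent.H32.Kun2

open Set Filter Function
open Cardinal hiding univ

namespace Pool.Agent.H32.Kun3

open UFA Kun

def G (F0 : Filter ℕ) (S : Set (Set ℕ ⊕ T)) : Filter ℕ := F0 ⊓ generate (Sum.inl ⁻¹' S)

lemma G_ad (F0 : Filter ℕ) (S : Set (Set ℕ ⊕ T)) (A : Set (Set ℕ)) (τ : Finset T) :
    G F0 (ad S A τ) = G F0 S ⊓ generate A := by
  rw [G, G, inf_assoc, ← generate_union]
  congr 2
  ext A
  simp [ad]

theorem wp_le {X : T → T → ℕ → Set ℕ} (x1 : ∀ β α n m, n ≤ m → X β α n ⊆ X β α m)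
    (x2 : ∀ β n (s : Finset T), n < s.card → {k | ∀ α ∈ s, k ∈ X β α n}.Finite)
    {F0 : Filter ℕ} (hF : F0 ≤ cofinite) (x3 : ∀ τ σ, ∃ᶠ k in F0, k ∈ Y X τ σ) :
    ∃ w : UF, (w : Filter ℕ) ≤ F0 ∧ Kun2.WP w := by
  classical
  have hT : #T = 𝔠 := by simp [T]
  obtain ⟨S, h1, h2⟩ := Maz.build (T := ℕ → ℕ) (by simp) π
    (fun S => ∀ τ σ, (∀ β ∈ τ, Sum.inr β ∉ S) → ∃ᶠ k in G F0 S, k ∈ Y X τ σ)
    (fun ρ S => (∃ r, Sum.inl {k | ρ k < r} ∈ S) ∨ ∃ β, ∀ α, Sum.inl {k | k ∈ X β α (ρ k)} ∈ S)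
    (fun ρ S S' h k => k.imp (fun ⟨r, a⟩ => ⟨r, h a⟩) fun ⟨β, a⟩ => ⟨β, fun α => h (a α)⟩)
    (fun c hc h τ σ hτ k => by
      obtain ⟨A, a1, B, b1, k'⟩ := mem_inf_iff.1 k
      clear k
      obtain ⟨t, t1, t2, t3⟩ := mem_generate_iff.1 b1
      rcases c.eq_empty_or_nonempty with rfl | hn
      · obtain rfl : t = ∅ := by simpa using t1
        obtain ⟨n, n1, n2⟩ := ((x3 τ σ).and_eventually a1).exists
        exact (k'.ge ⟨n2, t3 (by simp)⟩ :) n1
      · obtain ⟨S, s1, s2⟩ := hc.exists_mem_subset_of_finite_of_subset_sUnion hn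
          (t2.image Sum.inl) (image_subset_iff.2 t1)
        refine h S s1 τ σ (fun β hβ q => hτ β hβ ⟨S, s1, q⟩) ?_
        exact mem_inf_iff.2 ⟨A, a1, B, mem_generate_iff.2 ⟨t, image_subset_iff.1 s2, t2, t3⟩, k'⟩)
    (fun S h hs ρ => by
      by_cases q : ∃ r τ σ, (∀ β ∈ τ, Sum.inr β ∉ S) ∧ ∀ᶠ k in G F0 S, k ∈ Y X τ σ → ρ k < r
      · obtain ⟨r, τ, σ, q1, q2⟩ := q
        refine ⟨ad S {{k | ρ k < r}} τ, subset_union_left, π_ad _ _ _, fun τ' σ' h' => ?_,
          .inl ⟨r, .inr (.inl ⟨_, rfl, rfl⟩)⟩⟩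
        rw [G_ad, generate_singleton, frequently_inf_principal]
        refine ((h (τ ∪ τ') (fun β => if β ∈ τ then σ β else σ' β) fun β hβ k =>
          (Finset.mem_union.1 hβ).elim (q1 β · k) (h' β · (.inl k))).and_eventually q2).mono
          fun k ⟨k1, k2⟩ => ⟨k2 fun β hβ => ?_, fun β hβ => ?_⟩
        · simpa [hβ] using k1 β (Finset.mem_union_left _ hβ)
        · have : β ∉ τ := fun z => h' β hβ (.inr (.inr ⟨β, z, rfl⟩))
          simpa [this] using k1 β (Finset.mem_union_right _ hβ)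
      · push Not at q
        obtain ⟨β, hβ⟩ : ∃ β, Sum.inr β ∉ S := by
          by_contra! z
          exact absurd (hT.ge.trans (mk_le_of_injective (f := fun β => (⟨some β, _, z β, rfl⟩ :
            π '' S)) fun a b k => by simpa using k)) (not_le.2 hs)
        refine ⟨ad S (range fun α => {k | k ∈ X β α (ρ k)}) {β}, subset_union_left, π_ad _ _ _,
          fun τ σ h' k => ?_, .inr ⟨β, fun α => .inr (.inl ⟨_, ⟨α, rfl⟩, rfl⟩)⟩⟩
        rw [G_ad, generate_eq_biInf, iInf_range] at k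
        obtain ⟨A, a1, B, b1, k⟩ := mem_inf_iff.1 k
        obtain ⟨s, hs⟩ := (mem_iInf_finite B).1 b1
        simp only [iInf_principal_finset, mem_principal] at hs
        obtain ⟨n, ⟨n1, n2⟩, n3⟩ := ((q s.card (insert β τ) (update σ β s) fun γ hγ z =>
          (Finset.mem_insert.1 hγ).elim (fun e => hβ (e ▸ z)) (h' γ · (.inl z))).and_eventually
          a1).exists
        refine (k.ge ⟨n3, hs (mem_iInter₂.2 fun α hα => x1 _ _ _ _ n2 ?_)⟩ :) fun γ hγ => ?_
        · simpa using (by simpa using n1 β (Finset.mem_insert_self _ _) :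
            ∀ α ∈ s, n ∈ X β α s.card) α hα
        · have : γ ≠ β := fun z => h' γ hγ (.inr (.inr ⟨β, by simp, by rw [z]⟩))
          simpa [this] using n1 γ (Finset.mem_insert_of_mem hγ))
  have : (G F0 S).NeBot := ⟨fun k => by simpa [k] using h1 ∅ (fun _ => ∅) (by simp)⟩
  let w := Ultrafilter.of (G F0 S)
  have w0 : (w : Filter ℕ) ≤ F0 := (Ultrafilter.of_le (G F0 S)).trans inf_le_left
  have w1 : ∀ A, Sum.inl A ∈ S → A ∈ w := fun A hA =>
    Ultrafilter.of_le (G F0 S) (mem_inf_of_right (mem_generate_of_mem hA))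
  refine ⟨w, w0, fun n hn => ?_, fun v c e => ?_⟩
  · have : {n}ᶜ ∈ w := w0 (hF (finite_singleton n).compl_mem_cofinite)
    simp [hn] at this
  · by_contra z
    simp only [not_or, ← Ultrafilter.compl_mem_iff_notMem] at z
    have : ∀ j, ∃ A ∈ w, c j ≠ w → A ∉ c j := fun j => by
      by_contra! y
      exact (y univ univ_mem).1 (eq_of_sub fun A hA => (y A hA).2).symm
    choose A a1 a2 using this
    let r : ℕ → ℕ := fun k => Nat.findGreatest (fun n => ∀ j < n, k ∈ A j) k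
    have r1 : ∀ j k, k ∉ A j → r k ≤ j := fun j k hk => not_lt.1 fun y =>
      hk (Nat.findGreatest_spec (P := fun n => ∀ j < n, k ∈ A j) (Nat.zero_le k) (by simp) j y)
    rcases h2 r with ⟨n, hn⟩ | ⟨β, hβ⟩
    · obtain ⟨k, ⟨k1, k2⟩, k3⟩ := Ultrafilter.nonempty_of_mem (inter_mem (inter_mem (w1 _ hn)
        ((biInter_mem (finite_lt_nat n)).2 fun j _ => a1 j)) (w0 (hF (finite_lt_nat n).compl_mem_cofinite)))
      exact absurd (Nat.le_findGreatest (P := fun n => ∀ j < n, k ∈ A j) (not_lt.1 k3)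
        (mem_iInter₂.1 k2)) (not_le.2 k1)
    · have f : ∀ j, {α | (NP (c j) ∧ c j ≠ w) ∧ {k | k ∈ X β α (r k)} ∈ c j}.Finite := fun j => by
        by_contra z
        obtain ⟨s, s1, s2⟩ := Set.Infinite.exists_subset_card_eq z (j + 1)
        obtain ⟨α, hα⟩ := Finset.card_pos.1 (show 0 < s.card by omega)
        refine (s1 hα).1.1.fin (x2 β j s (by omega)) ?_
        filter_upwards [(biInter_finset_mem s).2 fun α hα => (s1 hα).2,
          Ultrafilter.compl_mem_iff_notMem.2 (a2 j (s1 hα).1.2)] with k k1 k2 α hα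
        exact x1 _ _ _ _ (r1 j k k2) (mem_iInter₂.1 k1 α hα)
      have : (univ : Set T).Countable := (countable_iUnion fun j => (f j).countable).mono
        fun α _ => by
          obtain ⟨j, ⟨j1, j2⟩, j3⟩ := Ultrafilter.nonempty_of_mem (inter_mem (inter_mem z.1 z.2)
            (show _ ∈ v from (e ▸ w1 _ (hβ α) : _ ∈ v.bind c)))
          exact mem_iUnion.2 ⟨j, ⟨not_not.1 j1, j2⟩, j3⟩
      rw [← le_aleph0_iff_set_countable, mk_univ, hT] at this
      exact absurd this (not_le.2 aleph0_lt_continuum)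

theorem many : ∃ w : (T → Bool) → UF, Injective w ∧ ∀ g, Kun2.WP (w g) := by
  classical
  obtain ⟨X, x1, x2, x3⟩ := family
  let c : Bool → T → T := fun b β n => Nat.casesOn n b β
  have : ∀ g : T → Bool, ∃ w : UF, (w : Filter ℕ) ≤ cofinite ⊓ ⨅ β, 𝓟 (X (c false β) (fun _ => g β) 1) ∧
      Kun2.WP w := fun g => wp_le (X := fun β => X (c true β)) (fun _ => x1 _) (fun _ => x2 _)
    inf_le_left fun τ σ k => by
      obtain ⟨A, a1, B, b1, k⟩ := mem_inf_iff.1 k
      obtain ⟨s, hs⟩ := (mem_iInf_finite B).1 b1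
      simp only [iInf_principal_finset, mem_principal] at hs
      obtain ⟨n, n1, n2⟩ := ((frequently_cofinite_iff_infinite.2 (x3 (τ.image (c true) ∪
        s.image (c false)) fun γ => if γ 0 then σ (γ ∘ Nat.succ) else
          {fun _ => g (γ ∘ Nat.succ)})).and_eventually a1).exists
      exact (k.ge ⟨n2, hs (mem_iInter₂.2 fun β hβ => n1 _ (Finset.mem_union_right _
        (Finset.mem_image_of_mem _ hβ)) _ (Finset.mem_singleton_self _))⟩ :)
        fun β hβ => n1 _ (Finset.mem_union_left _ (Finset.mem_image_of_mem _ hβ))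
  choose w w1 w2 using this
  refine ⟨w, fun a b e => funext fun β => by_contra fun z => ?_, w2⟩
  refine (w2 a).1.fin (x2 (c false β) 1 {fun _ => a β, fun _ => b β}
    (by rw [Finset.card_pair fun y => z (congrFun y 0)]; simp)) ?_
  filter_upwards [w1 a (mem_inf_of_right (mem_iInf_of_mem β (mem_principal_self _))),
    e ▸ w1 b (mem_inf_of_right (mem_iInf_of_mem β (mem_principal_self _)))] with k k1 k2
  simp [k1, k2]

end Pool.Agent.H32.Kun3
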