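import Mathlib

set_option autoImplicit false

namespace Pool.Agent.H32.Join

open Filter Topology
open scoped InnerProductSpace ENNReal

abbrev H := lp (fun _ : ℕ => ℝ) 2

def sh (a : ℕ → ℝ) (n : ℕ) : ℝ := Nat.casesOn n 0 a

lemma mem_iff (a : ℕ → ℝ) : Memℓp a 2 ↔ Summable fun n => a n ^ 2 := by
  rw [memℓp_gen_iff (by norm_num)]
  simp

lemma inner_eq (x y : H) : ⟪x, y⟫_ℝ = ∑' n, x n * y n := by
  rw [lp.inner_eq_tsum]
  simp [mul_comm]

lemma summ (x y : H) : Summable fun n => x n * y n := by
  simpa [mul_comm] using lp.summable_inner (𝕜 := ℝ) x y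

noncomputable def S0 : H →ₗ[ℝ] H where
  toFun x := ⟨sh x, (mem_iff _).2 ((summable_nat_add_iff 1).1 ((mem_iff _).1 x.2))⟩
  map_add' x y := by
    ext n
    cases n <;> simp [sh]
  map_smul' c x := by
    ext n
    cases n <;> simp [sh]

lemma S0_apply (x : H) (n : ℕ) : S0 x n = sh x n := rfl

noncomputable def S : H →ₗᵢ[ℝ] H := S0.isometryOfInner fun x y => by
  rw [inner_eq, inner_eq, (summ _ _).tsum_eq_zero_add]
  simp [S0_apply, sh]

lemma S_apply (x : H) (n : ℕ) : S x n = sh x n := rfl

lemma S_iter (p : ℕ) (x : H) : ∀ n, (S^[p] x) n = sh^[p] x n := by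
  induction p with
  | zero => exact fun _ => rfl
  | succ p ih =>
    intro n
    rw [Function.iterate_succ_apply', Function.iterate_succ_apply', S_apply, funext ih]

lemma sh_iter (p : ℕ) (a : ℕ → ℝ) (n : ℕ) : sh^[p] a n = if p ≤ n then a (n - p) else 0 := by
  induction p generalizing n with
  | zero => simp
  | succ p ih =>
    rw [Function.iterate_succ_apply']
    cases n with
    | zero => simp [sh]
    | succ n => simp [sh, ih]

lemma inner_iter (p : ℕ) (x y : H) : ⟪S^[p] x, S^[p] y⟫_ℝ = ⟪x, y⟫_ℝ := by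
  induction p with
  | zero => rfl
  | succ p ih => simp only [Function.iterate_succ_apply', S.inner_map_map, ih]

lemma wander (x : H) (hx : x 0 ≠ 0) : ∃ φ : H,
    (∀ p, S^[p] φ ∈ (Submodule.span ℝ (Set.range fun p => S^[p] x)).topologicalClosure) ∧
    Orthonormal ℝ fun p => S^[p] φ := by
  set M := (Submodule.span ℝ (Set.range fun p => S^[p] x)).topologicalClosure with hM
  have hS : ∀ y ∈ M, S y ∈ M := by
    intro y hy
    have h1 : (Submodule.span ℝ (Set.range fun p => S^[p] x)) ≤
        M.comap (S.toContinuousLinearMap : H →ₗ[ℝ] H) := by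
      rw [Submodule.span_le]
      rintro - ⟨p, rfl⟩
      exact Submodule.le_topologicalClosure _ (Submodule.subset_span
        ⟨p + 1, Function.iterate_succ_apply' _ _ _⟩)
    exact Submodule.topologicalClosure_minimal _ h1
      ((Submodule.isClosed_topologicalClosure _).preimage S.continuous) hy
  have hSp : ∀ p, ∀ y ∈ M, S^[p] y ∈ M := by
    intro p y hy
    induction p with
    | zero => exact hy
    | succ p ih =>
      rw [Function.iterate_succ_apply']
      exact hS _ ih
  let e : H := lp.single 2 0 1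
  have he : ∀ y : H, ⟪y, e⟫_ℝ = y 0 := fun y => by simp [e, lp.inner_single_right]
  let ψ := M.starProjection e
  have hψ : ∀ y ∈ M, ⟪y, ψ⟫_ℝ = y 0 := fun y hy => by
    rw [← he, ← Submodule.inner_starProjection_left_eq_right, Submodule.starProjection_eq_self_iff.2 hy]
  have hψM : ψ ∈ M := M.starProjection_apply_mem e
  have h0 : ψ ≠ 0 := fun h => hx (by
    rw [← hψ x (Submodule.le_topologicalClosure _ (Submodule.subset_span ⟨0, rfl⟩)), h,
      inner_zero_right])
  let φ := ‖ψ‖⁻¹ • ψ
  have hφM : φ ∈ M := M.smul_mem _ hψM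
  have key : ∀ i k, ⟪S^[i + (k + 1)] φ, S^[i] φ⟫_ℝ = 0 := by
    intro i k
    rw [Function.iterate_add_apply, inner_iter, inner_smul_right, hψ _ (hSp _ _ hφM),
      Function.iterate_succ_apply', S_apply]
    simp [sh]
  refine ⟨φ, fun p => hSp p _ hφM, fun p => ?_, fun i j hij => ?_⟩
  · have := inner_iter p φ φ
    rw [real_inner_self_eq_norm_sq, real_inner_self_eq_norm_sq,
      show ‖φ‖ = 1 from norm_smul_inv_norm h0] at this
    nlinarith [norm_nonneg (S^[p] φ)]
  · rcases lt_or_gt_of_ne hij with h | h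
    · obtain ⟨k, rfl⟩ := Nat.exists_eq_add_of_lt h
      rw [real_inner_comm, add_assoc]
      exact key _ _
    · obtain ⟨k, rfl⟩ := Nat.exists_eq_add_of_lt h
      rw [add_assoc]
      exact key _ _

theorem l2_lemma {α β : ℕ → ℝ} (hα : Summable fun n => α n ^ 2) (hβ : Summable fun n => β n ^ 2)
    (h0 : α 0 ≠ 0) (h0' : β 0 ≠ 0) (h : ∀ p q, ∑' n, sh^[p] α n * sh^[q] β n = 0) : False := by
  let x : H := ⟨α, (mem_iff _).2 hα⟩
  let y : H := ⟨β, (mem_iff _).2 hβ⟩
  obtain ⟨φ, h1, h2⟩ := wander x h0
  obtain ⟨ψ, h3, h4⟩ := wander y h0'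
  have ho : (Submodule.span ℝ (Set.range fun p => S^[p] x)).topologicalClosure ⟂
      (Submodule.span ℝ (Set.range fun p => S^[p] y)).topologicalClosure := by
    have : Submodule.span ℝ (Set.range fun p => S^[p] x) ⟂
        Submodule.span ℝ (Set.range fun p => S^[p] y) := by
      rw [Submodule.isOrtho_span]
      rintro - ⟨p, rfl⟩ - ⟨q, rfl⟩
      rw [inner_eq]
      simp only [S_iter]
      exact h p q
    have h5 := Submodule.topologicalClosure_minimal _ this.le (Submodule.isClosed_orthogonal _)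
    exact (Submodule.IsOrtho.symm (Submodule.topologicalClosure_minimal _
      (Submodule.IsOrtho.symm h5).le (Submodule.isClosed_orthogonal _)))
  have hv : Orthonormal ℝ (Sum.elim (fun p => S^[p] φ) fun p => S^[p] ψ) := by
    refine ⟨fun i => ?_, fun i j hij => ?_⟩
    · cases i
      · exact h2.1 _
      · exact h4.1 _
    · rcases i with i | i <;> rcases j with j | j
      · exact h2.2 fun e => hij (congrArg _ e)
      · exact ho.inner_eq (h1 i) (h3 j)
      · exact ho.symm.inner_eq (h3 i) (h1 j)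
      · exact h4.2 fun e => hij (congrArg _ e)
  have part : ∀ z : H, ‖z‖ = 1 → Tendsto (fun n => ∑ i ∈ Finset.range (n + 1),
      ‖⟪S^[i] z, (lp.single 2 n 1 : H)⟫_ℝ‖ ^ 2) atTop (𝓝 1) := by
    intro z hz
    have k1 := (summ z z).hasSum.tendsto_sum_nat.comp (tendsto_add_atTop_nat 1)
    rw [← inner_eq, real_inner_self_eq_norm_sq, hz, one_pow] at k1
    refine k1.congr fun n => ?_
    simp only [Function.comp]
    rw [← Finset.sum_range_reflect]
    refine Finset.sum_congr rfl fun i hi => ?_
    have : i ≤ n := by simpa [Nat.lt_succ_iff] using hi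
    simp [lp.inner_single_right, S_iter, sh_iter, this, sq]
  have := le_of_tendsto' ((part φ (h2.1 0)).add (part ψ (h4.1 0))) (b := 1) fun n => by
    have k := hv.sum_inner_products_le (lp.single 2 n 1 : H)
      (s := (Finset.range (n + 1)).disjSum (Finset.range (n + 1)))
    rw [Finset.sum_disjSum] at k
    simpa using k
  norm_num at this

end Pool.Agent.H32.Join
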