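import Mathlib

set_option autoImplicit false

namespace Pool.Agent.H32.Lac

open Filter Topology MeasureTheory Real

lemma ex_eta : ∃ η : ℝ, 2 < η ∧ η < 3 ∧ Transcendental ℚ η := by
  by_contra h
  have h1 : Set.Ioo (2 : ℝ) 3 ⊆ {x | IsAlgebraic ℚ x} := fun x hx => by
    by_contra k
    exact h ⟨x, hx.1, hx.2, k⟩
  have := measure_mono_null (μ := volume) h1 ((Algebraic.countable ℚ ℝ).measure_zero _)
  norm_num at this

lemma ratio {η : ℝ} (h : 2 < η) :
    Tendsto (fun k : ℕ => ((⌊η ^ (k + 1)⌋₊ : ℕ) : ℝ) / ((⌊η ^ k⌋₊ : ℕ) : ℝ)) atTop (𝓝 η) := by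
  have h1 := (tendsto_nat_floor_div_atTop (R := ℝ)).comp
    (tendsto_pow_atTop_atTop_of_one_lt (show 1 < η by linarith))
  have h2 := ((h1.comp (tendsto_add_atTop_nat 1)).div h1 one_ne_zero).const_mul η
  rw [div_one, mul_one] at h2
  refine h2.congr fun k => ?_
  have : (0 : ℝ) < η := by linarith
  simp only [Function.comp, Pi.div_apply, pow_succ]
  field_simp

lemma ex_l : ∃ l : ℝ, 1 ≤ l ∧
    Real.log (∫ t in (0 : ℝ)..1, Real.exp (l * Real.cos (2 * π * t))) ≤ l - 5 := by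
  have h := intervalIntegral.tendsto_integral_filter_of_dominated_convergence (μ := volume)
    (l := atTop) (a := 0) (b := 1) (F := fun l : ℝ => fun t => Real.exp (l * (Real.cos (2 * π * t) - 1)))
    (f := fun _ => 0) (fun _ => 1) (.of_forall fun l => Continuous.aestronglyMeasurable (by fun_prop))
    ((eventually_ge_atTop 0).mono fun l hl => .of_forall fun t _ => by
      rw [Real.norm_eq_abs, abs_of_pos (Real.exp_pos _), Real.exp_le_one_iff]
      exact mul_nonpos_of_nonneg_of_nonpos hl (by linarith [Real.cos_le_one (2 * π * t)]))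
    (by simp) (by
      filter_upwards [compl_mem_ae_iff.2 (measure_singleton (1 : ℝ))] with t h1 h2
      rw [Set.uIoc_of_le zero_le_one] at h2
      have h3 : t < 1 := lt_of_le_of_ne h2.2 h1
      have h4 := h2.1
      refine Real.tendsto_exp_atBot.comp (tendsto_id.atTop_mul_const_of_neg (sub_neg.2
        ((Real.cos_le_one _).lt_of_ne fun k => ?_)))
      have := (Real.cos_eq_one_iff_of_lt_of_lt (by nlinarith [pi_pos]) (by nlinarith [pi_pos])).1 k
      nlinarith [pi_pos])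
  rw [intervalIntegral.integral_zero] at h
  obtain ⟨l, h1, h2⟩ := ((eventually_ge_atTop 1).and
    (h.eventually (ge_mem_nhds (Real.exp_pos (-5))))).exists
  refine ⟨l, h1, (Real.log_le_iff_le_exp (intervalIntegral.integral_pos zero_lt_one
    (Continuous.continuousOn (by fun_prop)) (fun _ _ => (Real.exp_pos _).le)
      ⟨0, by simp, Real.exp_pos _⟩)).2 ?_⟩
  simp only [mul_sub, mul_one, Real.exp_sub, intervalIntegral.integral_div] at h2
  rwa [div_le_iff₀ (Real.exp_pos _), ← Real.exp_add, neg_add_eq_sub] at h2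

lemma low {η l : ℝ} (h1 : 2 < η) (h2 : η < 3) (hl : 1 ≤ l) : ∀ᶠ n : ℕ in atTop,
    ((-3 : ℝ) : EReal) ≤ ((((n : ℝ)⁻¹ : ℝ)) : EReal) * ENNReal.log (volume (Set.Icc (0 : ℝ) 1 ∩
      {ω : ℝ | (∑ k ∈ Finset.range n, Real.cos (2 * π * ((⌊η ^ k⌋₊ : ℕ) : ℝ) * ω)) / (n : ℝ) ∈
        Set.Ici (1 - 1 / l)})) := by
  filter_upwards [eventually_gt_atTop 0,
    tendsto_natCast_atTop_atTop.eventually_ge_atTop (Real.log (8 * l))] with n hn hn'
  have h0 : (0 : ℝ) < n := Nat.cast_pos.2 hn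
  have h3 : (1 : ℝ) ≤ 3 ^ n := one_le_pow₀ (by norm_num)
  have h4 : Set.Icc 0 (1 / (8 * l * 3 ^ n)) ⊆ Set.Icc (0 : ℝ) 1 ∩
      {ω : ℝ | (∑ k ∈ Finset.range n, Real.cos (2 * π * ((⌊η ^ k⌋₊ : ℕ) : ℝ) * ω)) / (n : ℝ) ∈
        Set.Ici (1 - 1 / l)} := by
    intro ω ⟨a, b⟩
    refine ⟨⟨a, b.trans ((div_le_one (by positivity)).2 (by nlinarith))⟩, ?_⟩
    rw [Set.mem_ofPred_eq, Set.mem_Ici, le_div_iff₀ h0, mul_comm, ← nsmul_eq_mul]
    refine le_trans (by simp) (Finset.card_nsmul_le_sum _ _ (1 - 1 / l) fun k hk =>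
      le_trans ?_ Real.one_sub_sq_div_two_le_cos)
    have k1 : ((⌊η ^ k⌋₊ : ℕ) : ℝ) ≤ 3 ^ n := (Nat.floor_le (by positivity)).trans
      ((pow_le_pow_left₀ (by linarith) h2.le k).trans
        (pow_le_pow_right₀ (by norm_num) (Finset.mem_range.1 hk).le))
    have k2 : 2 * π * ((⌊η ^ k⌋₊ : ℕ) : ℝ) * ω ≤ 1 / l := by
      calc _ ≤ 8 * 3 ^ n * (1 / (8 * l * 3 ^ n)) := by
            gcongr
            linarith [pi_le_four]
        _ = 1 / l := by field_simp
    have k3 : 0 ≤ 2 * π * ((⌊η ^ k⌋₊ : ℕ) : ℝ) * ω := by positivity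
    have k4 : 1 / l ≤ 1 := (div_le_one (by linarith)).2 hl
    nlinarith
  have h5 := ENNReal.log_monotone (measure_mono (μ := volume) h4)
  rw [Real.volume_Icc, sub_zero, ENNReal.log_ofReal_of_pos (by positivity)] at h5
  refine le_trans ?_ (mul_le_mul_of_nonneg_left h5 (EReal.coe_nonneg.2 (by positivity)))
  rw [← EReal.coe_mul, EReal.coe_le_coe_iff, one_div, Real.log_inv,
    Real.log_mul (by positivity) (by positivity), Real.log_pow, le_inv_mul_iff₀ h0]
  have := Real.log_le_sub_one_of_pos (show (0 : ℝ) < 3 by norm_num)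
  nlinarith

end Pool.Agent.H32.Lac
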