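import Mathlib

set_option autoImplicit false

namespace Pool.Agent.H32.Loc

open MeasureTheory ProbabilityTheory Set

lemma indep_local {ι X : Type} [MeasurableSpace X] [Nonempty X] (μ : ι → Measure X)
    [∀ i, IsProbabilityMeasure (μ i)] {S T : Finset ι} (hST : Disjoint S T) {A B : Set (ι → X)}
    (mA : MeasurableSet A) (mB : MeasurableSet B)
    (hA : ∀ ω ω' : ι → X, (∀ x ∈ S, ω x = ω' x) → ω ∈ A → ω' ∈ A)
    (hB : ∀ ω ω' : ι → X, (∀ x ∈ T, ω x = ω' x) → ω ∈ B → ω' ∈ B) :
    Measure.infinitePi μ (A ∩ B) = Measure.infinitePi μ A * Measure.infinitePi μ B := by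
  classical
  have key : ∀ (S : Finset ι) (A : Set (ι → X)), MeasurableSet A →
      (∀ ω ω' : ι → X, (∀ x ∈ S, ω x = ω' x) → ω ∈ A → ω' ∈ A) →
      ∃ A' : Set (S → X), MeasurableSet A' ∧ A = (fun ω (i : S) => ω i) ⁻¹' A' := by
    intro S A mA hA
    let ex : (S → X) → ι → X := fun η x => if h : x ∈ S then η ⟨x, h⟩ else Classical.arbitrary X
    refine ⟨ex ⁻¹' A, (measurable_pi_lambda _ fun x => ?_) mA, Set.ext fun ω =>
      ⟨hA _ _ fun x hx => by simp [ex, hx], hA _ _ fun x hx => by simp [ex, hx]⟩⟩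
    by_cases h : x ∈ S
    · simp only [ex, h, dif_pos]
      exact measurable_pi_apply _
    · simp [ex, h]
  obtain ⟨A', m1, rfl⟩ := key S A mA hA
  obtain ⟨B', m2, rfl⟩ := key T B mB hB
  exact ((iIndepFun_infinitePi (P := μ) (X := fun _ a => a) fun _ => measurable_id).indepFun_finset
    S T hST fun i => measurable_pi_apply i).measure_inter_preimage_eq_mul _ _ m1 m2

lemma meas_rtg {Ω α : Type} [MeasurableSpace Ω] [Countable α] (r : Ω → α → α → Prop)
    (hr : ∀ u v, MeasurableSet {ω | r ω u v}) (a b : α) :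
    MeasurableSet {ω | Relation.ReflTransGen (r ω) a b} := by
  let P : ℕ → α → Set Ω := fun n => n.rec (fun a => {_ω | a = b})
    fun _ Q a => ⋃ c, {ω | r ω a c} ∩ Q c
  have h1 : ∀ n a, MeasurableSet (P n a) := by
    intro n
    induction n with
    | zero => exact fun a => MeasurableSet.const _
    | succ n ih => exact fun a => MeasurableSet.iUnion fun c => (hr a c).inter (ih c)
  have h2 : {ω | Relation.ReflTransGen (r ω) a b} = ⋃ n, P n a := by
    ext ω
    simp only [mem_iUnion]
    constructor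
    · intro h
      induction h using Relation.ReflTransGen.head_induction_on with
      | refl => exact ⟨0, rfl⟩
      | head h _ ih =>
        obtain ⟨n, hn⟩ := ih
        exact ⟨n + 1, mem_iUnion.2 ⟨_, h, hn⟩⟩
    · rintro ⟨n, hn⟩
      induction n generalizing a with
      | zero =>
        obtain rfl : a = b := hn
        exact Relation.ReflTransGen.refl
      | succ n ih =>
        obtain ⟨c, h, hc⟩ := mem_iUnion.1 hn
        exact Relation.ReflTransGen.head h (ih c hc)
  rw [h2]
  exact MeasurableSet.iUnion fun n => h1 n a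

lemma po_mean (t : ℝ) : HasSum (fun j : ℕ => Real.exp (-t) * t ^ j / j.factorial * j) t := by
  have h := (NormedSpace.expSeries_div_hasSum_exp t).mul_left (t * Real.exp (-t))
  rw [← Real.exp_eq_exp_ℝ, mul_assoc, ← Real.exp_add, neg_add_cancel, Real.exp_zero, mul_one] at h
  rw [← hasSum_nat_add_iff' 1]
  have e : (fun j : ℕ => Real.exp (-t) * t ^ (j + 1) / (j + 1).factorial * ((j + 1 : ℕ) : ℝ)) =
      fun j => t * Real.exp (-t) * (t ^ j / j.factorial) := by
    funext j
    rw [Nat.factorial_succ]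
    push_cast
    field_simp
    ring
  rw [e]
  simpa using h

end Pool.Agent.H32.Loc
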