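import Mathlib

set_option autoImplicit false
set_option linter.unusedSectionVars false

namespace Pool.Agent.H32.MA

open Matrix Filter Topology
open scoped ComplexOrder

variable {n : Type} [Fintype n] [DecidableEq n]

abbrev Mt (n : Type) := Matrix n n ℂ

def ip (u w : n → ℂ) : ℂ := star u ⬝ᵥ w

def R (u w : n → ℂ) : Mt n := vecMulVec u (star w)

lemma ip_adj (A : Mt n) (u w : n → ℂ) : ip u (A *ᵥ w) = ip (Aᴴ *ᵥ u) w := by
  simp only [ip, star_mulVec, conjTranspose_conjTranspose, dotProduct_mulVec]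

lemma ip_herm {A : Mt n} (hA : A.IsHermitian) (u w : n → ℂ) : ip u (A *ᵥ w) = ip (A *ᵥ u) w := by
  rw [ip_adj, hA.eq]

lemma ip_conj (u w : n → ℂ) : star (ip u w) = ip w u := by
  simp only [ip]
  rw [star_dotProduct, star_star]

lemma ip_re_comm (u w : n → ℂ) : (ip u w).re = (ip w u).re := by
  rw [← ip_conj u w]
  rfl

lemma ip_add (u w z : n → ℂ) : ip u (w + z) = ip u w + ip u z := dotProduct_add _ _ _
lemma ip_sub (u w z : n → ℂ) : ip u (w - z) = ip u w - ip u z := dotProduct_sub _ _ _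
lemma ip_smul (u w : n → ℂ) (c : ℂ) : ip u (c • w) = c * ip u w := dotProduct_smul _ _ _
lemma ip_neg (u w : n → ℂ) : ip u (-w) = -ip u w := dotProduct_neg _ _
lemma ip_zero (u : n → ℂ) : ip u 0 = 0 := dotProduct_zero _
lemma zero_ip (u : n → ℂ) : ip 0 u = 0 := by simp [ip]
lemma sub_ip (u w z : n → ℂ) : ip (u - w) z = ip u z - ip w z := by
  simp only [ip, star_sub, sub_dotProduct]
lemma neg_ip (u z : n → ℂ) : ip (-u) z = -ip u z := by
  simp only [ip, star_neg, neg_dotProduct]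

noncomputable def sq (u : n → ℂ) : ℝ := ∑ i, Complex.normSq (u i)

lemma ip_self (u : n → ℂ) : ip u u = sq u := by
  simp only [ip, sq, dotProduct, Pi.star_apply, Complex.ofReal_sum, Complex.normSq_eq_conj_mul_self]
  rfl

lemma sq_nonneg' (u : n → ℂ) : 0 ≤ sq u := Finset.sum_nonneg fun _ _ => Complex.normSq_nonneg _

lemma sq_pos {u : n → ℂ} (h : u ≠ 0) : 0 < sq u := (sq_nonneg' u).lt_of_ne' fun k => h (by
  have := ip_self u
  rw [k] at this
  exact dotProduct_star_self_eq_zero.1 this)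

lemma mul_R (A : Mt n) (u w : n → ℂ) : A * R u w = R (A *ᵥ u) w := mul_vecMulVec _ _ _

lemma R_mul (A : Mt n) (u w : n → ℂ) : R u w * A = R u (Aᴴ *ᵥ w) := by
  simp only [R, vecMulVec_mul, star_mulVec, conjTranspose_conjTranspose]

lemma R_R (u w a b : n → ℂ) : R u w * R a b = ip w a • R u b := by
  simp only [R, vecMulVec_mul_vecMulVec, vecMulVec_smul, ip]

lemma R_ct (u w : n → ℂ) : (R u w)ᴴ = R w u := by
  simp only [R, conjTranspose_vecMulVec, star_star]

lemma tr_R (u w : n → ℂ) : (R u w).trace = ip w u := by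
  simp only [R, trace_vecMulVec, ip, dotProduct_comm]

lemma R_psd (u : n → ℂ) : (R u u).PosSemidef := posSemidef_vecMulVec_self_star u

lemma R_sub (u w z : n → ℂ) : R u (w - z) = R u w - R u z := by
  ext i j
  simp [R, vecMulVec_apply, mul_sub]

lemma sub_R (u w z : n → ℂ) : R (u - w) z = R u z - R w z := by
  ext i j
  simp [R, vecMulVec_apply, sub_mul]

lemma R_smul (u w : n → ℂ) (x : ℝ) : R u ((x : ℂ) • w) = (x : ℂ) • R u w := by
  ext i j
  simp [R, vecMulVec_apply, mul_left_comm]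

lemma smul_R (u w : n → ℂ) (x : ℂ) : R (x • u) w = x • R u w := smul_vecMulVec _ _ _

lemma zero_R (u : n → ℂ) : R 0 u = 0 := by
  ext i j
  simp [R, vecMulVec_apply]

lemma psd_re {A : Mt n} (hA : A.PosSemidef) (u : n → ℂ) : 0 ≤ (ip u (A *ᵥ u)).re :=
  hA.re_dotProduct_nonneg u

lemma psd_of_re {A : Mt n} (hA : A.IsHermitian) (h : ∀ u, 0 ≤ (ip u (A *ᵥ u)).re) :
    A.PosSemidef := by
  refine PosSemidef.of_dotProduct_mulVec_nonneg hA fun u => Complex.nonneg_iff.2 ⟨h u, ?_⟩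
  have : star (ip u (A *ᵥ u)) = ip u (A *ᵥ u) := by rw [ip_conj, ← ip_herm hA]
  exact (Complex.conj_eq_iff_im.1 this).symm

lemma psd_zero {A : Mt n} (hA : A.PosSemidef) {u : n → ℂ} (h : (ip u (A *ᵥ u)).re ≤ 0) :
    A *ᵥ u = 0 := by
  have h1 := Complex.nonneg_iff.1 (hA.dotProduct_mulVec_nonneg u)
  exact (hA.dotProduct_mulVec_zero_iff u).1 (Complex.ext (le_antisymm h h1.1) h1.2.symm)

open scoped MatrixOrder in
lemma psd_ex {A : Mt n} (hA : A.PosSemidef) : ∃ N : Mt n, A = Nᴴ * N :=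
  CStarAlgebra.nonneg_iff_eq_star_mul_self.1 hA.nonneg

lemma tr_nonneg {A B : Mt n} (hA : A.PosSemidef) (hB : B.PosSemidef) : 0 ≤ (A * B).trace.re := by
  obtain ⟨N, rfl⟩ := psd_ex hA
  rw [mul_assoc, trace_mul_comm]
  exact (Complex.nonneg_iff.1 (hB.mul_mul_conjTranspose_same N).trace_nonneg).1

lemma mul_zero_of_tr {A B : Mt n} (hA : A.PosSemidef) (hB : B.PosSemidef)
    (h : (A * B).trace.re ≤ 0) : A * B = 0 := by
  obtain ⟨N, rfl⟩ := psd_ex hA
  rw [mul_assoc, trace_mul_comm] at h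
  have h0 := hB.mul_mul_conjTranspose_same N
  have h1 := Complex.nonneg_iff.1 h0.trace_nonneg
  have h2 := h0.trace_eq_zero_iff.1 (Complex.ext (le_antisymm h h1.1) h1.2.symm)
  obtain ⟨L, rfl⟩ := psd_ex hB
  have h3 : N * Lᴴ = 0 := by
    rw [← self_mul_conjTranspose_eq_zero, ← h2]
    simp only [conjTranspose_mul, conjTranspose_conjTranspose, mul_assoc]
  rw [mul_assoc, ← mul_assoc N, h3, zero_mul, mul_zero]

noncomputable def fr (A B : Mt n) : ℝ := (Aᴴ * B).trace.re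

noncomputable def nf (A : Mt n) : ℝ := fr A A

lemma fr_comm (A B : Mt n) : fr A B = fr B A := by
  unfold fr
  rw [← conjTranspose_conjTranspose (Aᴴ * B), trace_conjTranspose, conjTranspose_mul,
    conjTranspose_conjTranspose]
  rfl

lemma fr_add (A B C : Mt n) : fr A (B + C) = fr A B + fr A C := by
  simp only [fr, mul_add, trace_add, Complex.add_re]

lemma fr_smul (A B : Mt n) (t : ℝ) : fr A ((t : ℂ) • B) = t * fr A B := by
  simp only [fr, Matrix.mul_smul, trace_smul, smul_eq_mul, Complex.re_ofReal_mul]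

lemma nf_var (A B : Mt n) (t : ℝ) : nf (A + (t : ℂ) • B) = nf A + t * (2 * fr A B + t * nf B) := by
  unfold nf
  rw [fr_add, fr_smul, fr_comm _ A, fr_comm _ B, fr_add, fr_add, fr_smul, fr_smul, fr_comm B A]
  ring

lemma nf_eq (A : Mt n) : nf A = ∑ j, ∑ i, Complex.normSq (A i j) := by
  simp only [nf, fr, trace, diag, mul_apply, conjTranspose_apply, Complex.re_sum]
  refine Finset.sum_congr rfl fun j _ => Finset.sum_congr rfl fun i _ => ?_
  rw [Complex.star_def, ← Complex.normSq_eq_conj_mul_self, Complex.ofReal_re]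

lemma nf_nonneg (A : Mt n) : 0 ≤ nf A := by
  rw [nf_eq]
  exact Finset.sum_nonneg fun _ _ => Finset.sum_nonneg fun _ _ => Complex.normSq_nonneg _

lemma nf_zero {A : Mt n} (h : nf A ≤ 0) : A = 0 := by
  have h1 := Complex.nonneg_iff.1 (posSemidef_conjTranspose_mul_self A).trace_nonneg
  exact trace_conjTranspose_mul_self_eq_zero_iff.1 (Complex.ext (le_antisymm h h1.1) h1.2.symm)

@[fun_prop]
lemma fr_cont {X : Type} [TopologicalSpace X] {A B : X → Mt n} (hA : Continuous A)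
    (hB : Continuous B) : Continuous fun x => fr (A x) (B x) :=
  Complex.continuous_re.comp (hA.matrix_conjTranspose.matrix_mul hB).matrix_trace

@[fun_prop]
lemma nf_cont {X : Type} [TopologicalSpace X] {A : X → Mt n} (hA : Continuous A) :
    Continuous fun x => nf (A x) := fr_cont hA hA

lemma cpt (r : ℝ) : IsCompact {A : Mt n | nf A ≤ r} := by
  have h : IsCompact (Set.pi Set.univ fun _ : n => Set.pi Set.univ fun _ : n =>
      Metric.closedBall (0 : ℂ) (r + 1)) :=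
    isCompact_univ_pi fun _ => isCompact_univ_pi fun _ => isCompact_closedBall _ _
  refine IsCompact.of_isClosed_subset (h : IsCompact (X := Mt n) _)
    (isClosed_le (nf_cont continuous_id) continuous_const) fun A hA i _ j _ => ?_
  have h1 : Complex.normSq (A i j) ≤ r := by
    refine le_trans ?_ hA
    rw [nf_eq]
    exact (Finset.single_le_sum (f := fun i => Complex.normSq (A i j))
      (fun _ _ => Complex.normSq_nonneg _) (Finset.mem_univ i)).trans
      (Finset.single_le_sum (f := fun j => ∑ i, Complex.normSq (A i j))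
        (fun _ _ => Finset.sum_nonneg fun _ _ => Complex.normSq_nonneg _) (Finset.mem_univ j))
  rw [Complex.normSq_eq_norm_sq] at h1
  rw [mem_closedBall_zero_iff]
  nlinarith [norm_nonneg (A i j)]

lemma lim {φ τ : ℝ → ℝ} (hφ : Continuous φ) (hτ : ∀ t, 0 < t → 0 < τ t)
    (h : ∀ᶠ t in 𝓝[>] (0 : ℝ), 0 ≤ τ t * φ t) : 0 ≤ φ 0 := by
  refine ge_of_tendsto (hφ.continuousAt.tendsto.mono_left (nhdsWithin_le_nhds (s := Set.Ioi 0))) ?_
  filter_upwards [h, self_mem_nhdsWithin] with t h1 h2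
  exact (mul_nonneg_iff_of_pos_left (hτ t h2)).1 h1

lemma var {P : Mt n} {B : ℝ → Mt n} (hB : Continuous B) {τ : ℝ → ℝ} (hc : Continuous τ)
    (h0 : τ 0 = 0) (hτ : ∀ t, 0 < t → 0 < τ t)
    (h : ∀ᶠ t in 𝓝[>] (0 : ℝ), nf P ≤ nf (P + (τ t : ℂ) • B t)) : 0 ≤ fr P (B 0) := by
  have := lim (φ := fun t => 2 * fr P (B t) + τ t * nf (B t)) (by fun_prop) hτ
    (h.mono fun t ht => by rw [nf_var] at ht; linarith)
  simp only [h0] at this
  linarith

def Un (U : Mt n) : Prop := Uᴴ * U = 1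

lemma Un.symm {U : Mt n} (h : Un U) : U * Uᴴ = 1 := mul_eq_one_comm.1 h

lemma Un.mul {U V : Mt n} (h : Un U) (k : Un V) : Un (U * V) := by
  unfold Un at *
  rw [conjTranspose_mul, mul_assoc, ← mul_assoc Uᴴ, h, one_mul, k]

lemma Un.ct {U : Mt n} (h : Un U) : Un Uᴴ := by
  unfold Un
  rw [conjTranspose_conjTranspose, h.symm]

lemma Un_one : Un (1 : Mt n) := by simp [Un]

lemma rot {K : Mt n} (X : Mt n) {a : ℝ} (ha : 0 ≤ a) (hK : Kᴴ = -K)
    (h3 : K * (K * K) = (-a : ℂ) • K) : ∃ U B : ℝ → Mt n, Continuous B ∧ (∀ t, Un (U t)) ∧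
      (∀ t : ℝ, U t * X * (U t)ᴴ = X + ((2 * t : ℝ) : ℂ) • (K * X - X * K) +
        ((t ^ 2 : ℝ) : ℂ) • B t) ∧
      B 0 = (2 : ℂ) • (K * (K * X - X * K) - (K * X - X * K) * K) := by
  let σ : ℝ → ℝ := fun t => 2 / (1 + a * t ^ 2)
  have hp : ∀ t : ℝ, (1 + a * t ^ 2) ≠ 0 := fun t => by positivity
  have hp' : ∀ t : ℝ, ((1 : ℂ) + a * t ^ 2) ≠ 0 := fun t => by exact_mod_cast hp t
  have hσ : Continuous σ := continuous_const.div (by fun_prop) hp
  have hU : ∀ s r : ℝ, (1 + (s : ℂ) • K + (r : ℂ) • (K * K))ᴴ =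
      1 - (s : ℂ) • K + (r : ℂ) • (K * K) := fun s r => by
    simp only [conjTranspose_add, conjTranspose_one, conjTranspose_smul, conjTranspose_mul, hK,
      Complex.star_def, Complex.conj_ofReal, smul_neg, neg_mul_neg, sub_eq_add_neg]
  refine ⟨fun t => 1 + ((t * σ t : ℝ) : ℂ) • K + ((t ^ 2 * σ t : ℝ) : ℂ) • (K * K),
    fun t => ((-a * t * σ t : ℝ) : ℂ) • (K * X - X * K) + ((σ t : ℝ) : ℂ) • (K * (K * X) + X * (K * K))
      - ((σ t ^ 2 : ℝ) : ℂ) • (K * (X * K)) +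
      ((t * σ t ^ 2 : ℝ) : ℂ) • (K * (X * (K * K)) - K * (K * (X * K))) +
      ((t ^ 2 * σ t ^ 2 : ℝ) : ℂ) • (K * (K * (X * (K * K)))), by fun_prop, fun t => ?_, fun t => ?_,
    ?_⟩
  · unfold Un
    rw [hU]
    have := hp' t
    simp only [mul_add, add_mul, sub_mul, Matrix.smul_mul, Matrix.mul_smul, one_mul, mul_one,
      mul_assoc, h3, σ]
    match_scalars <;> field_simp <;> ring
  · rw [hU]
    have := hp' t
    have h5 : (1 : ℂ) + t ^ 2 * a ≠ 0 := by rwa [mul_comm] at this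
    simp only [mul_add, add_mul, mul_sub, Matrix.smul_mul, Matrix.mul_smul, one_mul, mul_one,
      mul_assoc, σ]
    match_scalars <;> field_simp <;> ring
  · simp only [mul_sub, sub_mul, mul_assoc, σ]
    match_scalars <;> norm_num

lemma dim (A B : Mt n) (S T : Finset n) (h : S.card + T.card < Fintype.card n) :
    ∃ z : n → ℂ, z ≠ 0 ∧ (∀ i ∈ S, (A *ᵥ z) i = 0) ∧ ∀ i ∈ T, (B *ᵥ z) i = 0 := by
  let f : (n → ℂ) →ₗ[ℂ] (S → ℂ) × (T → ℂ) :=
    ((LinearMap.funLeft ℂ ℂ Subtype.val).comp A.mulVecLin).prod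
      ((LinearMap.funLeft ℂ ℂ Subtype.val).comp B.mulVecLin)
  have := LinearMap.ker_ne_bot_of_finrank_lt (f := f) (by simpa using h)
  obtain ⟨z, hz, h0⟩ := (Submodule.ne_bot_iff _).1 this
  exact ⟨z, h0, fun i hi => congrFun (congrArg Prod.fst hz) ⟨i, hi⟩,
    fun i hi => congrFun (congrArg Prod.snd hz) ⟨i, hi⟩⟩

end Pool.Agent.H32.MA
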