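import Pool.Agent.H32.MatA

set_option autoImplicit false
set_option linter.unusedSectionVars false

namespace Pool.Agent.H32.MA

open Matrix Filter Topology
open scoped ComplexOrder

variable {n : Type} [Fintype n] [DecidableEq n]

noncomputable def fc (U : Mt n) (φ : n → ℝ) : Mt n := U * diagonal (fun i => (φ i : ℂ)) * Uᴴ

lemma fc_mul {U : Mt n} (hU : Un U) (φ ψ : n → ℝ) :
    fc U φ * fc U ψ = fc U fun i => φ i * ψ i := by
  unfold fc
  rw [mul_assoc, mul_assoc U, ← mul_assoc Uᴴ, mul_assoc U, ← mul_assoc Uᴴ, hU, one_mul,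
    ← mul_assoc (diagonal _), diagonal_mul_diagonal]
  simp only [Complex.ofReal_mul]

lemma fc_herm (U : Mt n) (φ : n → ℝ) : (fc U φ).IsHermitian :=
  isHermitian_mul_mul_conjTranspose _ (isHermitian_diagonal_of_self_adjoint _
    (funext fun _ => Complex.conj_ofReal _))

lemma fc_psd (U : Mt n) {φ : n → ℝ} (h : ∀ i, 0 ≤ φ i) : (fc U φ).PosSemidef :=
  (PosSemidef.diagonal fun i => Complex.zero_le_real.2 (h i)).mul_mul_conjTranspose_same U

lemma fc_sub (U : Mt n) (φ ψ : n → ℝ) : fc U (fun i => φ i - ψ i) = fc U φ - fc U ψ := by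
  unfold fc
  rw [← sub_mul, ← mul_sub, diagonal_sub]
  simp only [Complex.ofReal_sub]

lemma fc_const {U : Mt n} (hU : Un U) (c : ℝ) : fc U (fun _ => c) = (c : ℂ) • 1 := by
  unfold fc
  rw [← smul_one_eq_diagonal, Matrix.mul_smul, mul_one, Matrix.smul_mul, hU.symm]

lemma fc_conj (V U : Mt n) (φ : n → ℝ) : V * fc U φ * Vᴴ = fc (V * U) φ := by
  simp only [fc, conjTranspose_mul, mul_assoc]

lemma fc_co {U : Mt n} (hU : Un U) (φ : n → ℝ) (z : n → ℂ) (i : n) :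
    (Uᴴ *ᵥ (fc U φ *ᵥ z)) i = φ i * (Uᴴ *ᵥ z) i := by
  unfold fc
  rw [mulVec_mulVec, ← mul_assoc, ← mul_assoc, hU, one_mul, ← mulVec_mulVec, mulVec_diagonal]

lemma ext_co {U : Mt n} (hU : Un U) {z w : n → ℂ} (h : ∀ i, (Uᴴ *ᵥ z) i = (Uᴴ *ᵥ w) i) :
    z = w := by
  rw [← one_mulVec z, ← one_mulVec w, ← hU.symm, ← mulVec_mulVec, ← mulVec_mulVec, funext h]

lemma ip_co {U : Mt n} (hU : Un U) (u w : n → ℂ) : ip u w = ip (Uᴴ *ᵥ u) (Uᴴ *ᵥ w) := by
  rw [← ip_adj, mulVec_mulVec, hU.symm, one_mulVec]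

lemma ip_zero_co {U : Mt n} (hU : Un U) {u w : n → ℂ}
    (h : ∀ i, (Uᴴ *ᵥ u) i = 0 ∨ (Uᴴ *ᵥ w) i = 0) : ip u w = 0 := by
  rw [ip_co hU]
  exact Finset.sum_eq_zero fun i _ => by rcases h i with h | h <;> simp [h]

lemma fc_form {U : Mt n} (hU : Un U) (φ : n → ℝ) (u : n → ℂ) :
    (ip u (fc U φ *ᵥ u)).re = ∑ i, φ i * Complex.normSq ((Uᴴ *ᵥ u) i) := by
  rw [ip_co hU]
  simp only [ip, dotProduct, Complex.re_sum, fc_co hU, Pi.star_apply]
  refine Finset.sum_congr rfl fun i _ => ?_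
  rw [mul_left_comm, Complex.star_def, ← Complex.normSq_eq_conj_mul_self, ← Complex.ofReal_mul,
    Complex.ofReal_re]

lemma sq_co {U : Mt n} (hU : Un U) (u : n → ℂ) : sq u = ∑ i, Complex.normSq ((Uᴴ *ᵥ u) i) := by
  have := ip_co hU u u
  rw [ip_self, ip_self] at this
  exact_mod_cast this

lemma form_le {U : Mt n} (hU : Un U) {φ ψ : n → ℝ} {u : n → ℂ}
    (h : ∀ i, (Uᴴ *ᵥ u) i ≠ 0 → φ i ≤ ψ i) :
    (ip u (fc U φ *ᵥ u)).re ≤ (ip u (fc U ψ *ᵥ u)).re := by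
  rw [fc_form hU, fc_form hU]
  refine Finset.sum_le_sum fun i _ => ?_
  by_cases k : (Uᴴ *ᵥ u) i = 0
  · simp [k]
  · exact mul_le_mul_of_nonneg_right (h i k) (Complex.normSq_nonneg _)

lemma form_const {U : Mt n} (hU : Un U) (c : ℝ) (u : n → ℂ) :
    (ip u (fc U (fun _ => c) *ᵥ u)).re = c * sq u := by
  rw [fc_form hU, sq_co hU, Finset.mul_sum]

lemma fc_comm {U G : Mt n} (hU : Un U) {d : n → ℝ} (h : G * fc U d = fc U d * G) (k : ℝ → ℝ) :
    G * fc U (fun i => k (d i)) = fc U (fun i => k (d i)) * G := by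
  have e1 : ∀ φ, Uᴴ * (G * fc U φ) * U = Uᴴ * G * U * diagonal fun i => (φ i : ℂ) := fun φ => by
    simp only [fc, mul_assoc]
    rw [hU, mul_one]
  have e2 : ∀ φ, Uᴴ * (fc U φ * G) * U = (diagonal fun i => (φ i : ℂ)) * (Uᴴ * G * U) := fun φ => by
    simp only [fc, ← mul_assoc]
    rw [hU, one_mul]
  have e3 : ∀ A : Mt n, A = U * (Uᴴ * A * U) * Uᴴ := fun A => by
    simp only [← mul_assoc]
    rw [hU.symm, one_mul, mul_assoc, hU.symm, mul_one]
  have h1 := (e1 d).symm.trans (h ▸ e2 d)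
  rw [e3 (G * _), e3 (_ * G), e1, e2]
  congr 2
  ext i j
  have := congrFun (congrFun h1 i) j
  rw [mul_diagonal, diagonal_mul] at this ⊢
  by_cases h0 : (Uᴴ * G * U) i j = 0
  · simp [h0]
  · rw [mul_comm] at this
    rw [Complex.ofReal_injective (mul_right_cancel₀ h0 this), mul_comm]

lemma spec {A : Mt n} (hA : A.IsHermitian) :
    Un (hA.eigenvectorUnitary : Mt n) ∧ A = fc hA.eigenvectorUnitary hA.eigenvalues :=
  ⟨hA.eigenvectorUnitary.2.1, hA.spectral_theorem⟩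

lemma ker_comm {G A : Mt n} (h : G * A = A * G) {u : n → ℂ} (hu : G *ᵥ u = 0) :
    G *ᵥ (A *ᵥ u) = 0 := by
  rw [mulVec_mulVec, h, ← mulVec_mulVec, hu, mulVec_zero]

lemma sandwich {G S : Mt n} (hS : S.IsHermitian) (h : G * S = S * G) (z : n → ℂ) :
    ip z (G *ᵥ (S *ᵥ (S *ᵥ z))) = ip (S *ᵥ z) (G *ᵥ (S *ᵥ z)) := by
  rw [← ip_herm hS, mulVec_mulVec, h, ← mulVec_mulVec]

lemma key {U W G : Mt n} (hU : Un U) (hW : Un W) {d c : n → ℝ} (hG : G.PosSemidef)
    (hX : G * fc U d = fc U d * G) (hC : G * fc W c = fc W c * G) {κ : ℝ} (hκ : 0 < κ)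
    (h0 : ∃ u, u ≠ 0 ∧ G *ᵥ u = 0)
    (hk : ∀ u, G *ᵥ u = 0 → fc W c *ᵥ u = fc U d *ᵥ u - (κ : ℂ) • u)
    (hcnt : ∀ t : ℝ, (Finset.univ.filter fun i => t ≤ d i).card ≤
      (Finset.univ.filter fun i => t ≤ c i).card) :
    ∃ (x : ℝ) (v α ρ b : n → ℂ), v ≠ 0 ∧ G *ᵥ v = 0 ∧ fc U d *ᵥ v = (x : ℂ) • v ∧
      fc W c *ᵥ v = ((x - κ : ℝ) : ℂ) • v ∧ ip v α = 0 ∧ ip v ρ = 0 ∧
      (x : ℂ) • α - fc U d *ᵥ α = b ∧ fc W c *ᵥ ρ - ((x - κ : ℝ) : ℂ) • ρ = b ∧
      0 < (ip b (G *ᵥ α)).re + (ip b (G *ᵥ ρ)).re := by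
  classical
  obtain ⟨i0, hi0, hmax⟩ := Finset.exists_max_image
    (Finset.univ.filter fun i => ∃ u, G *ᵥ u = 0 ∧ (Uᴴ *ᵥ u) i ≠ 0) d (by
      obtain ⟨u, h1, h2⟩ := h0
      by_contra k
      refine h1 (ext_co hU fun i => ?_)
      by_contra k2
      exact k ⟨i, Finset.mem_filter.2 ⟨Finset.mem_univ _, u, h2, by simpa using k2⟩⟩)
  obtain ⟨u, hu, hui⟩ := (Finset.mem_filter.1 hi0).2
  set x := d i0 with hx
  let v := fc U (fun i => if d i = x then 1 else 0) *ᵥ u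
  have hv : ∀ i, (Uᴴ *ᵥ v) i = if d i = x then (Uᴴ *ᵥ u) i else 0 := fun i => by
    rw [fc_co hU]
    split_ifs <;> simp
  have hv0 : (Uᴴ *ᵥ v) i0 ≠ 0 := by rwa [hv, if_pos rfl]
  have hGv : G *ᵥ v = 0 := ker_comm (fc_comm hU hX fun s => if s = x then 1 else 0) hu
  have hXv : fc U d *ᵥ v = (x : ℂ) • v := ext_co hU fun i => by
    rw [fc_co hU, mulVec_smul, Pi.smul_apply, hv]
    split_ifs with h <;> simp [h]
  have hCv : fc W c *ᵥ v = ((x - κ : ℝ) : ℂ) • v := by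
    rw [hk v hGv, hXv, Complex.ofReal_sub, sub_smul]
  have hWv : ∀ j, x ≤ c j → (Wᴴ *ᵥ v) j = 0 := fun j hj => by
    have := fc_co hW c v j
    rw [hCv, mulVec_smul, Pi.smul_apply, smul_eq_mul] at this
    by_contra k
    have := Complex.ofReal_injective (mul_right_cancel₀ k this)
    linarith
  obtain ⟨z, hz, hz1, hz2⟩ := dim Uᴴ Wᴴ ((Finset.univ.filter fun i => x ≤ d i).erase i0)
    (Finset.univ.filter fun i => ¬x ≤ c i) (by
      have h1 := hcnt x
      have h2 := Finset.card_filter_add_card_filter_not (s := Finset.univ) fun i => x ≤ c i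
      have h3 := Finset.card_erase_lt_of_mem (s := Finset.univ.filter fun i => x ≤ d i) (a := i0)
        (by simp [hx])
      rw [Finset.card_univ] at h2
      omega)
  have hz2' : ∀ j, ¬x ≤ c j → (Wᴴ *ᵥ z) j = 0 := fun j hj => hz2 j (by simpa using hj)
  have hvz : ip v z = 0 := ip_zero_co hW fun j => (em (x ≤ c j)).imp (hWv j) (hz2' j)
  have hz1' : ∀ i, x ≤ d i → (Uᴴ *ᵥ z) i = 0 := fun i hi => by
    by_cases k : i = i0
    swap
    · exact hz1 i (by simp [k, hi])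
    rw [ip_co hU, ip, dotProduct, Finset.sum_eq_single i0 (fun j _ hj => ?_) (by simp)] at hvz
    · rw [k]
      exact (mul_eq_zero.1 hvz).resolve_left (by simpa using hv0)
    · by_cases k2 : d j = x
      · rw [hz1 j (by simp [hj, k2]), mul_zero]
      · rw [Pi.star_apply, hv, if_neg k2, star_zero, zero_mul]
  let p : ℝ → ℝ := fun s => if s < x then √(x - s)⁻¹ else 0
  let q : ℝ → ℝ := fun s => if x ≤ s then √(s - x + κ)⁻¹ else 0
  let S := fc U fun i => p (d i)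
  let T := fc W fun i => q (c i)
  have hρ : fc W c *ᵥ (T *ᵥ (T *ᵥ z)) - ((x - κ : ℝ) : ℂ) • (T *ᵥ (T *ᵥ z)) = z :=
    ext_co hW fun j => by
      rw [mulVec_sub, mulVec_smul, Pi.sub_apply, Pi.smul_apply, fc_co hW, fc_co hW, fc_co hW]
      by_cases k : x ≤ c j
      · have h1 : 0 < c j - x + κ := by linarith
        have h2 : (c j - (x - κ)) * (q (c j) * q (c j)) = 1 := by
          simp only [q, if_pos k]
          rw [Real.mul_self_sqrt (by positivity), ← sub_add, mul_inv_cancel₀ h1.ne']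
        have h3 := congrArg Complex.ofReal h2
        push_cast at h3 ⊢
        rw [smul_eq_mul]
        linear_combination (Wᴴ *ᵥ z) j * h3
      · simp [hz2' j k]
  refine ⟨x, v, S *ᵥ (S *ᵥ z), T *ᵥ (T *ᵥ z), z, fun k => hv0 (by rw [k, mulVec_zero]; rfl), hGv, hXv,
    hCv, ip_zero_co hU fun i => ?_, ip_zero_co hW fun j => ?_, ext_co hU fun i => ?_, hρ, ?_⟩
  · by_cases k : d i = x
    · right
      rw [fc_co hU]
      simp [p, k]
    · left
      rw [hv, if_neg k]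
  · by_cases k : x ≤ c j
    · exact Or.inl (hWv j k)
    · right
      rw [fc_co hW]
      simp [q, k]
  · rw [mulVec_sub, mulVec_smul, Pi.sub_apply, Pi.smul_apply, fc_co hU d, fc_co hU, fc_co hU]
    by_cases k : d i < x
    · have h1 : 0 < x - d i := by linarith
      have h2 : (x - d i) * (p (d i) * p (d i)) = 1 := by
        simp only [p, if_pos k]
        rw [Real.mul_self_sqrt (by positivity), mul_inv_cancel₀ h1.ne']
      have h3 := congrArg Complex.ofReal h2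
      push_cast at h3 ⊢
      rw [smul_eq_mul]
      linear_combination (Uᴴ *ᵥ z) i * h3
    · simp [hz1' i (not_lt.1 k)]
  · rw [sandwich (fc_herm _ _) (fc_comm hU hX p), sandwich (fc_herm _ _) (fc_comm hW hC q)]
    refine add_pos_of_nonneg_of_pos (psd_re hG _) (not_le.1 fun k => hz ?_)
    have h1 : G *ᵥ (T *ᵥ z) = 0 := psd_zero hG k
    have h2 := congrArg (fun y => (ip (T *ᵥ z) y).re) (hk _ h1)
    have h3 := form_le hU (φ := d) (ψ := fun _ => x) (u := T *ᵥ z) fun i hi =>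
      hmax i (Finset.mem_filter.2 ⟨Finset.mem_univ _, _, h1, hi⟩)
    have h4 := form_le hW (φ := fun _ => x) (ψ := c) (u := T *ᵥ z) fun i hi => by
      by_contra k2
      rw [fc_co hW, hz2' i k2, mul_zero] at hi
      exact hi rfl
    rw [form_const hU] at h3
    rw [form_const hW] at h4
    simp only [ip_sub, ip_smul, ip_self, Complex.sub_re, ← Complex.ofReal_mul,
      Complex.ofReal_re] at h2
    have h5 : T *ᵥ z = 0 := by
      by_contra k2
      have := mul_pos hκ (sq_pos k2)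
      linarith
    rw [← hρ, h5]
    simp

end Pool.Agent.H32.MA
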