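import Pool.Agent.H32.MatB

set_option autoImplicit false
set_option linter.unusedSectionVars false

namespace Pool.Agent.H32.MA

open Matrix Filter Topology
open scoped ComplexOrder

variable {n : Type} [Fintype n] [DecidableEq n]

lemma fr_herm {P : Mt n} (hP : P.IsHermitian) (B : Mt n) : fr P B = (P * B).trace.re := by
  rw [fr, hP.eq]

lemma fr_R {P : Mt n} (hP : P.IsHermitian) (u : n → ℂ) : fr P (R u u) = (ip u (P *ᵥ u)).re := by
  rw [fr_herm hP, mul_R, tr_R]

lemma comm_of_min {P X : Mt n} (hP : P.IsHermitian) (hX : X.IsHermitian) {ε : ℝ} (hε : ε ≠ 0)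
    (h : ∀ U, Un U → nf P ≤ nf (P + (ε : ℂ) • (U * X * Uᴴ - X))) : P * X = X * P := by
  have h1 : (((ε : ℂ) * Complex.I) • (X * P - P * X)).PosSemidef := by
    refine psd_of_re ?_ fun u => ?_
    · simp only [IsHermitian, conjTranspose_smul, conjTranspose_sub, conjTranspose_mul, hP.eq,
        hX.eq, star_mul', Complex.star_def, Complex.conj_ofReal, Complex.conj_I]
      module
    obtain ⟨U, B, hB, hU, h2, -⟩ := rot (K := Complex.I • R u u) X (a := sq u ^ 2) (by positivity)
      (by simp [conjTranspose_smul, R_ct]) (by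
        simp only [Matrix.smul_mul, Matrix.mul_smul, R_R, ip_self, smul_smul]
        congr 1
        push_cast
        linear_combination (Complex.I * (sq u : ℂ) ^ 2) * Complex.I_mul_I)
    have h3 := var (P := P) (B := fun t => (ε : ℂ) • ((2 : ℂ) • (Complex.I • R u u * X -
      X * Complex.I • R u u) + (t : ℂ) • B t)) (by fun_prop) continuous_id rfl (fun _ h => h)
      (Eventually.of_forall fun t => (h _ (hU t)).trans_eq (by
        rw [h2]
        congr 2
        simp only [id]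
        push_cast
        module))
    rw [fr_herm hP] at h3
    simp only [Complex.ofReal_zero, zero_smul, add_zero, Matrix.mul_smul, Matrix.smul_mul, mul_sub,
      R_mul, mul_R, trace_smul, trace_sub, tr_R, hX.eq, smul_eq_mul, ← ip_herm hX] at h3
    simp only [smul_mulVec, sub_mulVec, ip_smul, ip_sub, ← mulVec_mulVec]
    simp only [Complex.mul_re, Complex.mul_im, Complex.sub_re, Complex.sub_im, Complex.ofReal_re,
      Complex.ofReal_im, Complex.I_re, Complex.I_im, Complex.re_ofNat, Complex.im_ofNat] at h3 ⊢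
    linarith
  have h2 := h1.trace_eq_zero_iff.1 (by rw [trace_smul, trace_sub, trace_mul_comm, sub_self, smul_zero])
  exact (sub_eq_zero.1 ((smul_eq_zero.1 h2).resolve_left
    (mul_ne_zero (by exact_mod_cast hε) Complex.I_ne_zero))).symm

lemma second {G X : Mt n} (hG : G.IsHermitian) (hX : X.IsHermitian) {v α b : n → ℂ} {x : ℝ}
    (hv : G *ᵥ v = 0) (hx : X *ᵥ v = (x : ℂ) • v) (h0 : ip v α = 0)
    (hb : (x : ℂ) • α - X *ᵥ α = b) :
    ∃ U B : ℝ → Mt n, Continuous B ∧ (∀ t, Un (U t)) ∧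
      (∀ t : ℝ, U t * X * (U t)ᴴ = X + ((2 * t : ℝ) : ℂ) • (R b v + R v b) +
        ((t ^ 2 : ℝ) : ℂ) • B t) ∧ (B 0).trace = 0 ∧
      (G * B 0).trace.re = 4 * sq v * (ip b (G *ᵥ α)).re := by
  have h0' : ip α v = 0 := by rw [← ip_conj, h0, star_zero]
  obtain ⟨U, B, h1, h2, h3, h4⟩ := rot (K := R α v - R v α) X (a := sq α * sq v)
    (mul_nonneg (sq_nonneg' _) (sq_nonneg' _)) (by simp [conjTranspose_sub, R_ct]) (by
      simp only [mul_sub, sub_mul, R_R, Matrix.mul_smul, h0, h0', ip_self]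
      push_cast
      module)
  have h5 : (R α v - R v α) * X - X * (R α v - R v α) = R b v + R v b := by
    simp only [mul_sub, sub_mul, R_mul, mul_R, hX.eq, hx, ← hb, R_sub, sub_R, R_smul, smul_R]
    module
  rw [h5] at h3 h4
  refine ⟨U, B, h1, h2, h3, by rw [h4, trace_smul, trace_sub, trace_mul_comm, sub_self, smul_zero], ?_⟩
  have h6 : ∀ y, ip v (G *ᵥ y) = 0 := fun y => by rw [ip_herm hG, hv, zero_ip]
  have h7 := ip_re_comm α (G *ᵥ b)
  rw [← ip_herm hG] at h7
  rw [h4]
  simp only [mul_sub, sub_mul, mul_add, add_mul, R_R]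
  simp only [Matrix.mul_smul, mul_sub, mul_add, mul_R, hv, zero_R, trace_smul,
    trace_sub, trace_add, tr_R, h6, h0, h0', ip_self, smul_eq_mul, trace_zero, Complex.mul_re,
    Complex.sub_re, Complex.add_re, Complex.re_ofNat, Complex.im_ofNat, Complex.ofReal_re,
    Complex.ofReal_im, mul_zero, zero_mul, Complex.zero_re, h7]
  ring

lemma ev_le (ω : ℝ) : ∀ᶠ t in 𝓝[>] (0 : ℝ), 0 < t ∧ t * ω ≤ 1 := by
  have : ∀ᶠ t in 𝓝 (0 : ℝ), t * ω < 1 :=
    (continuous_id.mul continuous_const).continuousAt.eventually_lt continuousAt_const (by simp)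
  filter_upwards [self_mem_nhdsWithin, nhdsWithin_le_nhds this] with t h1 h2 using ⟨h1, h2.le⟩

lemma psd_smul {A : Mt n} (hA : A.PosSemidef) {t : ℝ} (ht : 0 ≤ t) : ((t : ℂ) • A).PosSemidef :=
  hA.smul (Complex.zero_le_real.2 ht)

lemma Qzero {U W Y Q P : Mt n} (hU : Un U) (hW : Un W) {d c : n → ℝ} (hY : Y.PosSemidef)
    (hQ : Q.PosSemidef) (hP : P = fc W c - fc U d - Y + Q) {M : ℝ} (hM : 0 < M)
    (hmin : ∀ U' W' Y' Q' : Mt n, Un U' → Un W' → Y'.PosSemidef → (Y - Y').PosSemidef →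
      Q'.PosSemidef → nf Q + M * nf P ≤
        nf Q' + M * nf (W' * fc W c * W'ᴴ - U' * fc U d * U'ᴴ - Y' + Q'))
    (hcnt : ∀ t : ℝ, (Finset.univ.filter fun i => t ≤ d i).card ≤
      (Finset.univ.filter fun i => t ≤ c i).card) : Q = 0 := by
  have hX := fc_herm U d
  have hC := fc_herm W c
  have hPh : P.IsHermitian := hP ▸ ((hC.sub hX).sub hY.1).add hQ.1
  have m1 : ∀ U' W' Y' : Mt n, Un U' → Un W' → Y'.PosSemidef → (Y - Y').PosSemidef →
      nf P ≤ nf (W' * fc W c * W'ᴴ - U' * fc U d * U'ᴴ - Y' + Q) := fun U' W' Y' a b e f =>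
    le_of_mul_le_mul_left (le_of_add_le_add_left (hmin U' W' Y' Q a b e f hQ)) hM
  have hYY : (Y - Y).PosSemidef := by rw [sub_self]; exact PosSemidef.zero
  have cX : P * fc U d = fc U d * P := comm_of_min hPh hX (ε := -1) (by norm_num) fun V hV =>
    (m1 V 1 Y hV Un_one hY hYY).trans_eq (by
      rw [hP, conjTranspose_one, one_mul, mul_one]
      congr 1
      push_cast
      module)
  have cC : P * fc W c = fc W c * P := comm_of_min hPh hC (ε := 1) (by norm_num) fun V hV =>
    (m1 1 V Y Un_one hV hY hYY).trans_eq (by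
      rw [hP, conjTranspose_one, one_mul, mul_one]
      congr 1
      push_cast
      module)
  have m2 : ∀ S : Mt n, (∀ᶠ t : ℝ in 𝓝[>] (0 : ℝ), (Q + (t : ℂ) • S).PosSemidef) →
      0 ≤ fr Q S + M * fr P S := fun S hS => by
    have := lim (φ := fun t => 2 * (fr Q S + M * fr P S) + t * (nf S + M * nf S)) (τ := id)
      (by fun_prop) (fun _ h => h) (hS.mono fun t ht => by
        have := hmin 1 1 Y _ Un_one Un_one hY hYY ht
        rw [conjTranspose_one, one_mul, mul_one, one_mul, mul_one, ← add_assoc, ← hP, nf_var,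
          nf_var] at this
        simp only [id]
        linarith)
    linarith
  have hH : (Q + (M : ℂ) • P).PosSemidef := psd_of_re (hQ.1.add (by
      simp [IsHermitian, conjTranspose_smul, hPh.eq])) fun u => by
    have := m2 (R u u) ((ev_le 0).mono fun t ht => hQ.add (psd_smul (R_psd u) ht.1.le))
    rw [fr_R hQ.1, fr_R hPh] at this
    rwa [add_mulVec, smul_mulVec, ip_add, ip_smul, Complex.add_re, Complex.re_ofReal_mul]
  have hQH : Q * (Q + (M : ℂ) • P) = 0 := mul_zero_of_tr hQ hH (by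
    have := m2 (((-1 : ℝ) : ℂ) • Q) ((ev_le 1).mono fun t ht => by
      have := psd_smul hQ (t := 1 - t) (by linarith [ht.2])
      convert this using 1
      push_cast
      module)
    rw [fr_smul, fr_smul, fr_comm P] at this
    rw [← fr_herm hQ.1, fr_add, fr_smul]
    linarith)
  have cQ : P * Q = Q * P := by
    have h1 := congrArg conjTranspose hQH
    rw [conjTranspose_mul, hH.1.eq, hQ.1.eq, conjTranspose_zero, ← hQH, add_mul, mul_add,
      Matrix.smul_mul, Matrix.mul_smul] at h1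
    exact smul_right_injective _ (by exact_mod_cast hM.ne') (add_left_cancel h1)
  have cY : P * Y = Y * P := by
    have : Y = fc W c - fc U d + Q - P := by rw [hP]; abel
    rw [this, mul_sub, sub_mul, mul_add, add_mul, mul_sub, sub_mul, cX, cC, cQ]
  by_contra hQ0
  obtain ⟨V, p, hV, hPV⟩ : ∃ V p, Un V ∧ P = fc V p := ⟨_, _, spec hPh⟩
  have hne : Nonempty n := by
    by_contra k
    exact hQ0 (Matrix.ext fun i _ => (k ⟨i⟩).elim)
  obtain ⟨i0, hi0⟩ := Finite.exists_min p
  set μ := p i0 with hμ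
  have hμ0 : μ < 0 := not_le.1 fun k => hQ0 (nf_zero (by
    have h1 := tr_nonneg hQ (hPV ▸ fc_psd V fun i => k.trans (hi0 i) : P.PosSemidef)
    have h2 := congrArg (fun A => A.trace.re) hQH
    simp only [mul_add, Matrix.mul_smul, trace_add, trace_smul, smul_eq_mul, Complex.add_re,
      Complex.re_ofReal_mul, trace_zero, Complex.zero_re] at h2
    rw [nf, fr_herm hQ.1]
    nlinarith))
  obtain ⟨G, hGP⟩ : ∃ G : Mt n, G = P - (μ : ℂ) • 1 := ⟨_, rfl⟩
  have hG2 : G = fc V fun i => p i - μ := by rw [fc_sub, fc_const hV, hGP, ← hPV]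
  have hG : G.PosSemidef := hG2 ▸ fc_psd V fun i => sub_nonneg.2 (hi0 i)
  have cG : ∀ A, P * A = A * P → G * A = A * G := fun A h => by
    rw [hGP, mul_sub, sub_mul, h, Matrix.smul_mul, Matrix.mul_smul, one_mul, mul_one]
  have hE : ∀ u, G *ᵥ u = 0 → P *ᵥ u = (μ : ℂ) • u := fun u h => by
    rwa [hGP, sub_mulVec, smul_mulVec, one_mulVec, sub_eq_zero] at h
  have hz : ∀ (u : n → ℂ) (s : ℝ), s < 0 → 0 ≤ (ip u ((s : ℂ) • u)).re → u = 0 := fun u s hs h => by
    by_contra k
    rw [ip_smul, ip_self, ← Complex.ofReal_mul, Complex.ofReal_re] at h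
    exact absurd (mul_neg_of_neg_of_pos hs (sq_pos k)) (not_lt.2 h)
  have hQE : ∀ u, G *ᵥ u = 0 → Q *ᵥ u = ((-(M * μ) : ℝ) : ℂ) • u := fun u h => by
    have h1 : G *ᵥ ((Q + (M : ℂ) • P) *ᵥ u) = 0 := ker_comm (cG _ (by
      rw [mul_add, add_mul, cQ, Matrix.smul_mul, Matrix.mul_smul])) h
    have h2 := psd_re hH ((Q + (M : ℂ) • P) *ᵥ u)
    rw [add_mulVec Q _ (_ *ᵥ u), mulVec_mulVec, hQH, zero_mulVec, zero_add, smul_mulVec, hE _ h1, smul_smul,
      ← Complex.ofReal_mul] at h2
    have h3 := hz _ _ (mul_neg_of_pos_of_neg hM hμ0) h2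
    rw [add_mulVec, smul_mulVec, hE _ h, smul_smul] at h3
    rw [eq_neg_of_add_eq_zero_left h3]
    push_cast
    module
  have hYE : ∀ u, G *ᵥ u = 0 → Y *ᵥ u = 0 := fun u h => by
    have h1 := hE _ (ker_comm (cG _ cY) h)
    obtain ⟨ω, hω⟩ : ∃ ω : ℝ, ip u (Y *ᵥ u) = ω := ⟨_, (Complex.conj_eq_iff_re.1 (by
      rw [← Complex.star_def, ip_conj, ← ip_herm hY.1])).symm⟩
    have h2 := var (P := P) (B := fun t => ((2 - t * ω : ℝ) : ℂ) • R (Y *ᵥ u) (Y *ᵥ u)) (by fun_prop)
      continuous_id rfl (fun _ h => h) ((ev_le ω).mono fun t ht => by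
        refine (m1 1 1 (Y - ((t * (2 - t * ω) : ℝ) : ℂ) • R (Y *ᵥ u) (Y *ᵥ u)) Un_one Un_one ?_
          ?_).trans_eq ?_
        · convert hY.mul_mul_conjTranspose_same (1 - (t : ℂ) • R (Y *ᵥ u) u) using 1
          simp only [conjTranspose_sub, conjTranspose_one, conjTranspose_smul, R_ct,
            Complex.star_def, Complex.conj_ofReal, mul_sub, sub_mul, Matrix.smul_mul,
            Matrix.mul_smul, one_mul, mul_one, R_mul Y, mul_R Y, R_R, hY.1.eq, ← ip_herm hY.1, hω]
          push_cast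
          module
        · rw [sub_sub_cancel]
          exact psd_smul (R_psd _) (mul_nonneg ht.1.le (by linarith [ht.2]))
        · rw [hP, conjTranspose_one, one_mul, mul_one, one_mul, mul_one]
          congr 1
          simp only [id]
          push_cast
          module)
    rw [fr_smul, fr_R hPh, h1] at h2
    exact hz _ _ hμ0 (by linarith)
  obtain ⟨x, v, α, ρ, b, hv, k1, k2, k3, k4, k5, k6, k7, k8⟩ := key hU hW hG (cG _ cX) (cG _ cC)
    (κ := -((M + 1) * μ)) (by nlinarith) ⟨V *ᵥ Pi.single i0 1, fun k => by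
      have := congrFun (congrArg (Vᴴ *ᵥ ·) k) i0
      simp only [mulVec_mulVec] at this
      rw [hV] at this
      simp at this, ext_co hV fun i => by
        rw [hG2, fc_co hV, mulVec_mulVec, hV, one_mulVec, mulVec_zero]
        by_cases k : i = i0
        · simp [k, hμ]
        · simp [k]⟩ (fun u h => by
      have : fc W c = fc U d + Y - Q + P := by rw [hP]; abel
      rw [this, add_mulVec, sub_mulVec, add_mulVec, hYE u h, hQE u h, hE u h]
      push_cast
      module) hcnt
  obtain ⟨U1, B1, a1, a2, a3, a4, a5⟩ := second hG.1 hX k1 k2 k4 k6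
  obtain ⟨U2, B2, b1, b2, b3, b4, b5⟩ := second hG.1 hC (α := -ρ) (b := b) k1 k3
    (by rw [ip_neg, k5, neg_zero]) (by rw [← k7, mulVec_neg]; module)
  have h1 := var (P := P) (B := fun t => B2 t - B1 t) (by fun_prop) (τ := fun t => t ^ 2)
    (by fun_prop) (by simp) (fun _ h => by positivity) (Eventually.of_forall fun t =>
      (m1 _ _ Y (a2 t) (b2 t) hY hYY).trans_eq (by
        rw [a3, b3, hP]
        congr 1
        module))
  have h2 : P = G + (μ : ℂ) • 1 := by rw [hGP, sub_add_cancel]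
  rw [fr_herm hPh, h2, add_mul, mul_sub, trace_add, trace_sub, Matrix.smul_mul, one_mul, trace_smul,
    trace_sub, a4, b4, sub_self, smul_zero, add_zero, Complex.sub_re, a5, b5, mulVec_neg, ip_neg,
    Complex.neg_re] at h1
  nlinarith [mul_pos (sq_pos hv) k8]

end Pool.Agent.H32.MA
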