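import Pool.Agent.H32.MatC

set_option autoImplicit false
set_option linter.unusedSectionVars false

namespace Pool.Agent.H32.MA

open Matrix Filter Topology
open scoped ComplexOrder

variable {n : Type} [Fintype n] [DecidableEq n]

@[fun_prop]
lemma fc_cont {X : Type} [TopologicalSpace X] {A : X → Mt n} (hA : Continuous A) (d : n → ℝ) :
    Continuous fun x => fc (A x) d :=
  (hA.matrix_mul continuous_const).matrix_mul hA.matrix_conjTranspose

lemma cl_psd : IsClosed {A : Mt n | A.PosSemidef} := by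
  have : {A : Mt n | A.PosSemidef} = {A | Aᴴ = A} ∩ ⋂ u, {A | 0 ≤ (ip u (A *ᵥ u)).re} := by
    ext A
    simp only [Set.mem_inter_iff, Set.mem_iInter, Set.mem_ofPred_eq]
    exact ⟨fun h => ⟨h.1, psd_re h⟩, fun h => psd_of_re h.1 h.2⟩
  rw [this]
  exact (isClosed_eq continuous_id.matrix_conjTranspose continuous_id).inter
    (isClosed_iInter fun u => isClosed_le continuous_const (Complex.continuous_re.comp
      (continuous_const.dotProduct (continuous_id.matrix_mulVec continuous_const))))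

lemma cpU : IsCompact {U : Mt n | Un U} :=
  (cpt (Fintype.card n)).of_isClosed_subset
    (isClosed_eq (continuous_id.matrix_conjTranspose.matrix_mul continuous_id) continuous_const)
    fun U hU => by
      have : Uᴴ * U = 1 := hU
      simp [nf, fr, this]

lemma cpY {Y0 : Mt n} (h : Y0.PosSemidef) :
    IsCompact {Y : Mt n | Y.PosSemidef ∧ (Y0 - Y).PosSemidef} :=
  (cpt (nf Y0)).of_isClosed_subset
    (cl_psd.inter (cl_psd.preimage (continuous_const.sub continuous_id))) fun Y hY => by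
      have h1 := tr_nonneg hY.1 hY.2
      have h2 := tr_nonneg hY.2 h
      rw [mul_sub, trace_sub, Complex.sub_re] at h1
      rw [sub_mul, trace_sub, Complex.sub_re] at h2
      rw [Set.mem_ofPred_eq, nf, nf, fr_herm hY.1.1, fr_herm h.1]
      linarith

lemma cpQ (r : ℝ) : IsCompact {Q : Mt n | Q.PosSemidef ∧ nf Q ≤ r} := (cpt r).inter_left cl_psd

lemma link {U W Y0 Q0 : Mt n} (hU : Un U) (hW : Un W) {d c : n → ℝ} (hY : Y0.PosSemidef)
    (hQ : Q0.PosSemidef) (h : fc W c - fc U d - Y0 + Q0 = 0)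
    (hcnt : ∀ t : ℝ, (Finset.univ.filter fun i => t ≤ d i).card ≤
      (Finset.univ.filter fun i => t ≤ c i).card) :
    ∃ U' W' Y : Mt n, Un U' ∧ Un W' ∧ Y.PosSemidef ∧ (Y0 - Y).PosSemidef ∧
      fc W' c - fc U' d - Y = 0 := by
  have hYY : (Y0 - Y0).PosSemidef := by rw [sub_self]; exact PosSemidef.zero
  obtain ⟨⟨U1, W1, Y1⟩, ⟨a1, a2, a3, a4⟩, hm⟩ := (cpU.prod (cpU.prod (cpY hY))).exists_isMinOn
    (f := fun x : Mt n × Mt n × Mt n => nf (fc x.2.1 c - fc x.1 d - x.2.2))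
    ⟨(U, W, Y0), hU, hW, hY, hYY⟩ (Continuous.continuousOn (by fun_prop))
  refine ⟨U1, W1, Y1, a1, a2, a3, a4, nf_zero (not_lt.1 fun hp => ?_)⟩
  obtain ⟨M, hM, hM2⟩ : ∃ M : ℝ, 0 < M ∧ nf Q0 < M * nf (fc W1 c - fc U1 d - Y1) :=
    ⟨(nf Q0 + 1) / nf (fc W1 c - fc U1 d - Y1), div_pos (by linarith [nf_nonneg Q0]) hp, by
      rw [div_mul_cancel₀ _ hp.ne']; linarith⟩
  obtain ⟨⟨U2, W2, Y2, Q2⟩, ⟨b1, b2, ⟨b3, b4⟩, b5, b6⟩, hm2⟩ :=
    (cpU.prod (cpU.prod ((cpY hY).prod (cpQ (nf Q0))))).exists_isMinOn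
    (f := fun x : Mt n × Mt n × Mt n × Mt n =>
      nf x.2.2.2 + M * nf (fc x.2.1 c - fc x.1 d - x.2.2.1 + x.2.2.2))
    ⟨(U, W, Y0, Q0), hU, hW, ⟨hY, hYY⟩, hQ, le_rfl⟩ (Continuous.continuousOn (by fun_prop))
  have h1 : nf Q2 + M * nf (fc W2 c - fc U2 d - Y2 + Q2) ≤ nf Q0 := by
    have := isMinOn_iff.1 hm2 (U, W, Y0, Q0) ⟨hU, hW, ⟨hY, hYY⟩, hQ, le_rfl⟩
    simpa [h, nf, fr] using this
  have h2 : Q2 = 0 := Qzero b1 b2 b3 b5 rfl hM (fun U' W' Y' Q' k1 k2 k3 k4 k5 => by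
    by_cases k : nf Q' ≤ nf Q0
    · rw [fc_conj, fc_conj]
      exact isMinOn_iff.1 hm2 (U' * U2, W' * W2, Y', Q') ⟨k1.mul b1, k2.mul b2,
        ⟨k3, by simpa using b4.add k4⟩, k5, k⟩
    · exact h1.trans ((not_le.1 k).le.trans
        (le_add_of_nonneg_right (mul_nonneg hM.le (nf_nonneg _))))) hcnt
  have h3 := isMinOn_iff.1 hm (U2, W2, Y2) ⟨b1, b2, b3, b4⟩
  have h4 := nf_nonneg Q2
  rw [h2, add_zero, ← h2] at h1
  nlinarith

lemma dom {U W : Mt n} (hU : Un U) (hW : Un W) {s t : n → ℝ}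
    (hcnt : ∀ r : ℝ, (Finset.univ.filter fun i => r ≤ s i).card ≤
      (Finset.univ.filter fun i => r ≤ t i).card) :
    ∃ V : Mt n, Un V ∧ (fc (V * W) t - fc U s).PosSemidef := by
  classical
  obtain ⟨f, hf, hf2⟩ := (Finset.all_card_le_biUnion_card_iff_exists_injective
    fun i => Finset.univ.filter fun j => s i ≤ t j).1 fun S => by
      rcases S.eq_empty_or_nonempty with rfl | hS
      · simp
      obtain ⟨i, hi, hm⟩ := S.exists_min_image s hS
      exact (Finset.card_le_card fun j hj => by simpa using hm j hj).trans ((hcnt (s i)).trans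
        (Finset.card_le_card (Finset.subset_biUnion_of_mem
          (fun i => Finset.univ.filter fun j => s i ≤ t j) hi)))
  let e := Equiv.ofBijective f (Finite.injective_iff_bijective.1 hf)
  have h1 : Un (U.submatrix id e.symm) := by
    unfold Un
    rw [conjTranspose_submatrix, ← Equiv.coe_refl, submatrix_mul_equiv, hU, submatrix_one_equiv]
  refine ⟨U.submatrix id e.symm * Wᴴ, h1.mul hW.ct, ?_⟩
  have h2 : fc (U.submatrix id e.symm) t = fc U fun i => t (f i) := by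
    have : diagonal (fun i => (t i : ℂ)) = (diagonal fun i => (t (f i) : ℂ)).submatrix e.symm e.symm := by
      rw [submatrix_diagonal_equiv]
      congr 1
      funext i
      exact congrArg (fun j => (t j : ℂ)) (e.apply_symm_apply i).symm
    unfold fc
    rw [this, conjTranspose_submatrix, submatrix_mul_equiv, submatrix_mul_equiv, submatrix_id_id]
  rw [mul_assoc, hW, mul_one, h2, ← fc_sub]
  exact fc_psd _ fun i => sub_nonneg.2 (by simpa using hf2 i)

lemma cnt_of {s t : n → ℝ} {r : ℝ} (A B : Mt n)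
    (h : ∀ z : n → ℂ, z ≠ 0 → (∀ i, ¬r ≤ s i → (A *ᵥ z) i = 0) → (∀ i, r ≤ t i → (B *ᵥ z) i = 0) →
      False) : (Finset.univ.filter fun i => r ≤ s i).card ≤
      (Finset.univ.filter fun i => r ≤ t i).card := by
  by_contra k
  have h2 := Finset.card_filter_add_card_filter_not (s := Finset.univ) fun i => r ≤ s i
  rw [Finset.card_univ] at h2
  obtain ⟨z, hz, h3, h4⟩ := dim A B (Finset.univ.filter fun i => ¬r ≤ s i)
    (Finset.univ.filter fun i => r ≤ t i) (by omega)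
  exact h z hz (fun i hi => h3 i (by simpa using hi)) fun i hi => h4 i (by simpa using hi)

lemma ex_co {U : Mt n} (hU : Un U) {z : n → ℂ} (hz : z ≠ 0) :
    (Finset.univ.filter fun i => (Uᴴ *ᵥ z) i ≠ 0).Nonempty := by
  by_contra k
  refine hz (ext_co hU fun i => ?_)
  by_contra k2
  exact k ⟨i, by simpa using k2⟩

lemma weyl {U W : Mt n} (hU : Un U) (hW : Un W) {a c : n → ℝ} (h : (fc W c - fc U a).PosSemidef)
    {g : ℝ → ℝ} (hg : MonotoneOn g (Set.Ici 0)) (ha : ∀ i, 0 ≤ a i) (hc : ∀ i, 0 ≤ c i) (r : ℝ) :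
    (Finset.univ.filter fun i => r ≤ g (a i)).card ≤
      (Finset.univ.filter fun i => r ≤ g (c i)).card := by
  refine cnt_of Uᴴ Wᴴ fun z hz h1 h2 => ?_
  obtain ⟨i, hi, hm⟩ := Finset.exists_min_image _ a (ex_co hU hz)
  obtain ⟨j, hj, hM⟩ := Finset.exists_max_image _ c (ex_co hW hz)
  have h3 := form_le hU (φ := fun _ => a i) (ψ := a) (u := z) fun k hk => hm k (by simpa using hk)
  have h4 := form_le hW (φ := c) (ψ := fun _ => c j) (u := z) fun k hk => hM k (by simpa using hk)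
  have h5 := psd_re h z
  rw [form_const hU] at h3
  rw [form_const hW] at h4
  rw [sub_mulVec, ip_sub, Complex.sub_re] at h5
  have h6 : a i ≤ c j := le_of_mul_le_mul_right (by linarith) (sq_pos hz)
  refine (Finset.mem_filter.1 hj).2 (h2 j (le_trans ?_ (hg (ha i) (hc j) h6)))
  by_contra k
  exact (Finset.mem_filter.1 hi).2 (h1 i k)

lemma sq_herm {A : Mt n} (hA : A.IsHermitian) (z : n → ℂ) :
    sq (A *ᵥ z) = (ip z ((A * A) *ᵥ z)).re := by
  rw [← mulVec_mulVec, ip_herm hA, ip_self, Complex.ofReal_re]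

lemma form_mul {U : Mt n} (hU : Un U) (r : ℝ) (φ : n → ℝ) (u : n → ℂ) :
    (ip u (fc U (fun i => r * φ i) *ᵥ u)).re = r * (ip u (fc U φ *ᵥ u)).re := by
  simp only [fc_form hU, Finset.mul_sum, mul_assoc]

lemma ab {U W V : Mt n} (hU : Un U) (hW : Un W) (hV : Un V) {a c l : n → ℝ}
    (h : (fc W c - fc U a).PosSemidef) {g : ℝ → ℝ} (hg : MonotoneOn g (Set.Ici 0))
    (hcv : ConcaveOn ℝ (Set.Ici 0) g) (g0 : g 0 = 0) (ha : ∀ i, 0 ≤ a i) (hc : ∀ i, 0 ≤ c i)
    (hl : fc W (fun i => √(g (c i) * (c i)⁻¹)) * fc U a * fc W (fun i => √(g (c i) * (c i)⁻¹)) =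
      fc V l) (r : ℝ) :
    (Finset.univ.filter fun i => r ≤ l i).card ≤
      (Finset.univ.filter fun i => r ≤ g (a i)).card := by
  have gp : ∀ t, 0 ≤ t → 0 ≤ g t := fun t ht => g0 ▸ hg Set.self_mem_Ici ht ht
  rcases le_or_gt r 0 with hr | hr
  · exact Finset.card_le_card fun i _ => by simpa using hr.trans (gp _ (ha i))
  set D := fc W fun i => √(g (c i) * (c i)⁻¹) with hD
  have hDh : D.IsHermitian := fc_herm _ _
  have hA := fc_herm U a
  refine cnt_of Vᴴ (Uᴴ * D) fun u hu h1 h2 => ?_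
  set z := D *ᵥ u with hz
  set s := (ip z (fc U a *ᵥ z)).re with hs
  have e1 : D *ᵥ (fc U a *ᵥ z) = fc V l *ᵥ u := by rw [hz, mulVec_mulVec, mulVec_mulVec, hl]
  have e2 : s = (ip u (fc V l *ᵥ u)).re := by rw [← e1, ip_herm hDh]
  have h1' : ∀ i, (Vᴴ *ᵥ u) i ≠ 0 → r ≤ l i := fun i hi => by_contra fun k => hi (h1 i k)
  have s0 : 0 < s := by
    have := form_le hV (φ := fun _ => r) (ψ := l) h1'
    rw [form_const hV, ← e2] at this
    exact (mul_pos hr (sq_pos hu)).trans_le this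
  have e3 : r * s ≤ sq (D *ᵥ (fc U a *ᵥ z)) := by
    rw [e1, sq_herm (fc_herm _ _), fc_mul hV, e2, ← form_mul hV]
    exact form_le hV fun i hi => mul_le_mul_of_nonneg_right (h1' i hi) (hr.le.trans (h1' i hi))
  obtain ⟨j, hj, hM⟩ := Finset.exists_max_image _ a (ex_co hU (z := z) fun k => by
    rw [hs, k, zero_ip] at s0
    exact lt_irrefl _ s0)
  have e4 : g (a j) < r := not_le.1 fun k =>
    (Finset.mem_filter.1 hj).2 (by rw [hz, mulVec_mulVec]; exact h2 j k)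
  have e5 : sq (fc U a *ᵥ z) ≤ a j * s := by
    rw [sq_herm hA, fc_mul hU, hs, ← form_mul hU]
    exact form_le hU fun i hi => mul_le_mul_of_nonneg_right (hM i (by simpa using hi)) (ha i)
  set b := fc U a *ᵥ z with hb
  set m : n → ℝ := fun i => Complex.normSq ((Wᴴ *ᵥ b) i) with hm
  have m0 : ∀ i, 0 ≤ m i := fun i => Complex.normSq_nonneg _
  have e6 : ∑ i, (c i)⁻¹ * m i ≤ s := by
    have k1 := psd_re (fc_psd U ha) (z - fc W (fun i => (c i)⁻¹) *ᵥ b)
    have k2 := psd_re h (fc W (fun i => (c i)⁻¹) *ᵥ b)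
    have k3 := fc_form hW (fun i => (c i)⁻¹) b
    have k4 : (ip (fc W (fun i => (c i)⁻¹) *ᵥ b) (fc W c *ᵥ (fc W (fun i => (c i)⁻¹) *ᵥ b))).re =
        ∑ i, (c i)⁻¹ * m i := by
      rw [← ip_herm (fc_herm _ _), mulVec_mulVec, mulVec_mulVec, fc_mul hW, fc_mul hW, fc_form hW]
      refine Finset.sum_congr rfl fun i _ => ?_
      by_cases k : c i = 0 <;> simp [k, hm]
    rw [sub_mulVec, ip_sub, Complex.sub_re, k4] at k2
    rw [mulVec_sub, ip_sub, sub_ip, sub_ip, ip_herm hA z (_ *ᵥ b), ← hb, Complex.sub_re,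
      Complex.sub_re, Complex.sub_re, ip_re_comm (_ *ᵥ b) b, k3, ← hs] at k1
    linarith
  have e7 : sq (D *ᵥ b) = ∑ i, g (c i) * (c i)⁻¹ * m i := by
    rw [sq_herm hDh, hD, fc_mul hW, fc_form hW]
    refine Finset.sum_congr rfl fun i _ => ?_
    rw [Real.mul_self_sqrt (mul_nonneg (gp _ (hc i)) (inv_nonneg.2 (hc i)))]
  have w0 : ∀ i, 0 ≤ (c i)⁻¹ * m i / s := fun i =>
    div_nonneg (mul_nonneg (inv_nonneg.2 (hc i)) (m0 i)) s0.le
  have e8 := hcv.map_add_sum_le (t := Finset.univ) (w := fun i => (c i)⁻¹ * m i / s) (p := c)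
    (v := 1 - ∑ i, (c i)⁻¹ * m i / s) (q := 0) (fun i _ => w0 i) (sub_add_cancel _ _)
    (fun i _ => hc i) (by rw [← Finset.sum_div, sub_nonneg, div_le_one s0]; exact e6) Set.self_mem_Ici
  simp only [g0, smul_eq_mul, mul_zero, zero_add] at e8
  have e9 : ∑ i, (c i)⁻¹ * m i / s * c i ≤ a j := by
    refine le_trans (Finset.sum_le_sum fun i _ => (?_ : _ ≤ m i / s)) ?_
    · by_cases k : c i = 0
      · simpa [k] using div_nonneg (m0 i) s0.le
      · exact le_of_eq (by field_simp)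
    · rw [← Finset.sum_div, div_le_iff₀ s0]
      exact (sq_co hW b).symm.trans_le e5
  have e10 := (e8.trans (hg (Finset.sum_nonneg fun i _ => mul_nonneg (w0 i) (hc i)) (ha j)
    e9)).trans_lt e4
  have e11 : ∑ i, (c i)⁻¹ * m i / s * g (c i) = (∑ i, g (c i) * (c i)⁻¹ * m i) / s := by
    rw [Finset.sum_div]
    exact Finset.sum_congr rfl fun i _ => by ring
  rw [e11, div_lt_iff₀ s0, ← e7] at e10
  linarith

theorem main {UA UB W : Mt n} (hA : Un UA) (hB : Un UB) (hW : Un W) {a b c : n → ℝ}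
    (ha : ∀ i, 0 ≤ a i) (hb : ∀ i, 0 ≤ b i) (hc : ∀ i, 0 ≤ c i)
    (h : fc UA a + fc UB b = fc W c) {f : ℝ → ℝ} (hf : ConcaveOn ℝ (Set.Ici 0) f)
    (hm : MonotoneOn f (Set.Ici 0)) (f0 : 0 ≤ f 0) : ∃ U V : Mt n, Un U ∧ Un V ∧
      (fc W (fun i => f (c i)) - U * fc UA (fun i => f (a i)) * Uᴴ).PosSemidef ∧
      (V * fc UB (fun i => f (b i)) * Vᴴ -
        (fc W (fun i => f (c i)) - U * fc UA (fun i => f (a i)) * Uᴴ)).PosSemidef := by
  let g : ℝ → ℝ := fun t => f t - f 0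
  have hg : MonotoneOn g (Set.Ici 0) := fun x hx y hy k => sub_le_sub_right (hm hx hy k) _
  have hcv : ConcaveOn ℝ (Set.Ici 0) g := hf.add_const (-f 0)
  have g0 : g 0 = 0 := sub_self _
  have p1 : (fc W c - fc UA a).PosSemidef := by rw [← h, add_sub_cancel_left]; exact fc_psd _ hb
  have p2 : (fc W c - fc UB b).PosSemidef := by rw [← h, add_sub_cancel_right]; exact fc_psd _ ha
  set D := fc W fun i => √(g (c i) * (c i)⁻¹) with hD
  have hDh : Dᴴ = D := fc_herm _ _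
  have q1 : (D * fc UA a * D).PosSemidef := by
    simpa only [hDh] using (fc_psd UA ha).mul_mul_conjTranspose_same D
  have q2 : (D * fc UB b * D).PosSemidef := by
    simpa only [hDh] using (fc_psd UB hb).mul_mul_conjTranspose_same D
  obtain ⟨V1, k1, k2⟩ := dom (spec q1.1).1 hA (ab hA hW (spec q1.1).1 p1 hg hcv g0 ha hc (spec q1.1).2)
  obtain ⟨V2, k3, k4⟩ := dom (spec q2.1).1 hB (ab hB hW (spec q2.1).1 p2 hg hcv g0 hb hc (spec q2.1).2)
  rw [← (spec q1.1).2] at k2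
  rw [← (spec q2.1).2] at k4
  have e : D * fc UA a * D + D * fc UB b * D = fc W fun i => g (c i) := by
    rw [← add_mul, ← mul_add, h, hD, fc_mul hW, fc_mul hW]
    congr 1
    funext i
    rw [mul_right_comm, Real.mul_self_sqrt (mul_nonneg (g0 ▸ hg Set.self_mem_Ici (hc i) (hc i))
      (inv_nonneg.2 (hc i)))]
    by_cases k : c i = 0 <;> simp [k, g0]
  obtain ⟨U', W', Y, r1, r2, r3, r4, r5⟩ := link (k1.mul hA) hW q2 k2 (c := fun i => g (c i))
    (by rw [← e]; abel) (weyl hA hW p1 hg ha hc)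
  have cj : ∀ {S T : Mt n} (φ : n → ℝ), Un T → S * Tᴴ * fc T φ * (S * Tᴴ)ᴴ = fc S φ :=
    fun φ hT => by rw [fc_conj, mul_assoc, hT, mul_one]
  have hZ : Un (W * W'ᴴ) := hW.mul r2.ct
  have e2 : fc W (fun i => f (c i)) - W * W'ᴴ * U' * UAᴴ * fc UA (fun i => f (a i)) *
      (W * W'ᴴ * U' * UAᴴ)ᴴ = W * W'ᴴ * Y * (W * W'ᴴ)ᴴ := by
    rw [← sub_eq_zero.1 r5, mul_sub, sub_mul, cj _ r2, cj _ hA, fc_conj, fc_sub, fc_sub,
      fc_const hW, fc_const (hZ.mul r1)]
    abel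
  refine ⟨W * W'ᴴ * U' * UAᴴ, W * W'ᴴ * V2, (hZ.mul r1).mul hA.ct, hZ.mul k3, ?_, ?_⟩
  · rw [e2]
    exact r3.mul_mul_conjTranspose_same _
  · have := ((k4.add r4).add (psd_smul PosSemidef.one f0)).mul_mul_conjTranspose_same (W * W'ᴴ)
    rw [e2]
    convert this using 1
    rw [fc_sub, fc_const (k3.mul hB), fc_conj, mul_assoc _ V2, ← fc_conj, ← sub_mul, ← mul_sub]
    congr 2
    abel

end Pool.Agent.H32.MA
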