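import Mathlib

open Set

namespace Pool.Agent.H32.Mem

/-- an arena on the node set `V`; `isP` marks the nodes of Protagonist -/
structure Arena (C V : Type) where
  isP : V → Prop
  E : Set (V × C × V)
  total : ∀ v, ∃ e ∈ E, e.1 = v

variable {C V : Type}

/-- finite paths are a start node and a list of edges, the latest edge first -/
def last (u : V) : List (V × C × V) → V
  | [] => u
  | e :: _ => e.2.2

def IsPath (A : Arena C V) (u : V) : List (V × C × V) → Prop
  | [] => True
  | e :: l => IsPath A u l ∧ e ∈ A.E ∧ e.1 = last u l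

def IsStrat (A : Arena C V) (S : V → List (V × C × V) → V × C × V) : Prop :=
  ∀ u l, IsPath A u l → A.isP (last u l) → S u l ∈ A.E ∧ (S u l).1 = last u l

/-- the first `n` edges of an infinite play -/
def pre (π : ℕ → V × C × V) : ℕ → List (V × C × V)
  | 0 => []
  | n + 1 => π n :: pre π n

/-- `π` is an infinite play from `u` consistent with `S` -/
def Play (A : Arena C V) (S : V → List (V × C × V) → V × C × V) (u : V) (π : ℕ → V × C × V) :
    Prop :=
  ∀ n, π n ∈ A.E ∧ (π n).1 = last u (pre π n) ∧ (A.isP (π n).1 → π n = S u (pre π n))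

def Wins (A : Arena C V) (W : Set (ℕ → C)) (S : V → List (V × C × V) → V × C × V) (u : V) : Prop :=
  ∀ π, Play A S u π → (fun n => (π n).2.1) ∈ W

def Optimal (A : Arena C V) (W : Set (ℕ → C)) (S : V → List (V × C × V) → V × C × V) : Prop :=
  IsStrat A S ∧ ∀ u, (∃ S', IsStrat A S' ∧ Wins A W S' u) → Wins A W S u

/-- memory state after a path -/
def mem {M : Type} (m₀ : M) (δ : M → V × C × V → M) : List (V × C × V) → M
  | [] => m₀
  | e :: l => δ (mem m₀ δ l) e

def Built {M : Type} (A : Arena C V) (S : V → List (V × C × V) → V × C × V) (m₀ : M)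
    (δ : M → V × C × V → M) : Prop :=
  ∀ u l u' l', IsPath A u l → IsPath A u' l' → A.isP (last u l) → last u l = last u' l' →
    mem m₀ δ l = mem m₀ δ l' → S u l = S u' l'

/-- the general memory requirement is finite -/
def GenFin (W : Set (ℕ → C)) : Prop :=
  ∃ k, 0 < k ∧ ∀ (V : Type) [Finite V] [Nonempty V] (A : Arena C V),
    ∃ S, ∃ (m₀ : Fin k) (δ : Fin k → V × C × V → Fin k), Optimal A W S ∧ Built A S m₀ δ

/-- the chromatic memory requirement is finite -/
def ChrFin (W : Set (ℕ → C)) : Prop :=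
  ∃ k, 0 < k ∧ ∀ (V : Type) [Finite V] [Nonempty V] (A : Arena C V),
    ∃ S, ∃ (m₀ : Fin k) (δ : Fin k → C → Fin k), Optimal A W S ∧
      Built A S m₀ fun m e => δ m e.2.1

lemma Play.path {A : Arena C V} {S u π} (h : Play A S u π) : ∀ n, IsPath A u (pre π n)
  | 0 => trivial
  | n + 1 => ⟨h.path n, (h n).1, (h n).2.1⟩

lemma exists_play (A : Arena C V) (S : V → List (V × C × V) → V × C × V) (u : V)
    (I : List (V × C × V) → Prop) (h0 : I []) (h : ∀ l, IsPath A u l → I l →
      ∃ e ∈ A.E, e.1 = last u l ∧ (A.isP e.1 → e = S u l) ∧ I (e :: l)) :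
    ∃ π, Play A S u π ∧ ∀ n, I (pre π n) := by
  choose f hf using h
  let g : ℕ → {l // IsPath A u l ∧ I l} := fun n => Nat.rec ⟨[], trivial, h0⟩
    (fun _ l => ⟨f l.1 l.2.1 l.2.2 :: l.1, ⟨l.2.1, (hf _ _ _).1, (hf _ _ _).2.1⟩,
      (hf _ _ _).2.2.2⟩) n
  let π : ℕ → V × C × V := fun n => f (g n).1 (g n).2.1 (g n).2.2
  have hp : ∀ n, pre π n = (g n).1 := fun n => by
    induction n with
    | zero => rfl
    | succ n ih => rw [pre, ih]
  refine ⟨π, fun n => ?_, fun n => hp n ▸ (g n).2.2⟩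
  rw [hp]
  exact ⟨(hf _ _ _).1, (hf _ _ _).2.1, (hf _ _ _).2.2.1⟩

lemma next_edge {A : Arena C V} {S} (hS : IsStrat A S) {u l} (hl : IsPath A u l) :
    ∃ e ∈ A.E, e.1 = last u l ∧ (A.isP e.1 → e = S u l) := by
  by_cases h : A.isP (last u l)
  · exact ⟨_, (hS u l hl h).1, (hS u l hl h).2, fun _ => rfl⟩
  · obtain ⟨e, he, h1⟩ := A.total (last u l)
    exact ⟨e, he, h1, fun h2 => (h (h1 ▸ h2)).elim⟩

inductive Col | a | b | c | d (j : Fin 2)
  deriving DecidableEq, Fintype

abbrev Q : Type := Option (ℕ × Fin 2)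

open Classical in
noncomputable def step : Col → Q → Q
  | _, none => none
  | .a, some (n, i) => some (n + 1, i)
  | .b, some (n, i) => if n = 0 then none else some (n - 1, i)
  | .c, some (n, i) => some (n, if ∃ s, n = 2 ^ s then i + 1 else i)
  | .d j, some (n, i) => if n = 0 ∧ i ≠ j then none else some (n, i)

def le : Q → Q → Prop
  | none, _ => True
  | some _, none => False
  | some (n, i), some (n', i') => n < n' ∨ (n = n' ∧ i = i')

def wt : Col → ℤ
  | .a => 1
  | .b => -1
  | _ => 0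

lemma step_none (x : Col) : step x none = none := by cases x <;> rfl

lemma step_lev {x : Col} {n i n' i'} (h : step x (some (n, i)) = some (n', i')) :
    (n' : ℤ) = n + wt x := by
  cases x <;> simp only [step, wt] at h ⊢
  · simp only [Option.some.injEq, Prod.mk.injEq] at h; omega
  · split_ifs at h
    simp only [Option.some.injEq, Prod.mk.injEq] at h; omega
  · simp only [Option.some.injEq, Prod.mk.injEq] at h; omega
  · split_ifs at h
    simp only [Option.some.injEq, Prod.mk.injEq] at h; omega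

lemma step_alive (x : Col) {n : ℕ} (i) (h : n ≠ 0) : step x (some (n, i)) ≠ none := by
  cases x <;> simp [step, h]

lemma wt_bd (x : Col) : -1 ≤ wt x := by cases x <;> simp [wt]

lemma le_rfl' : ∀ q, le q q
  | none => trivial
  | some (_, _) => Or.inr ⟨rfl, rfl⟩

lemma le_trans' : ∀ {p q r}, le p q → le q r → le p r
  | none, _, _, _, _ => trivial
  | some _, none, _, h, _ => h.elim
  | some _, some _, none, _, h => h.elim
  | some (_, _), some (_, _), some (_, _), h, h' => by
    simp only [le] at *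
    omega

lemma step_mono (x : Col) : ∀ {p q}, le p q → le (step x p) (step x q)
  | none, _, _ => by rw [step_none]; trivial
  | some _, none, h => h.elim
  | some (n, i), some (n', i'), h => by
    rcases h with h | ⟨rfl, rfl⟩
    · rcases h1 : step x (some (n, i)) with _ | ⟨m, j⟩
      · trivial
      rcases h2 : step x (some (n', i')) with _ | ⟨m', j'⟩
      · exact step_alive x i' (by omega) h2
      have := step_lev h1
      have := step_lev h2
      left; omega
    · exact le_rfl' _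

def runG {α : Type} (F : Col → α → α) (x₀ : α) (w : ℕ → Col) : ℕ → α
  | 0 => x₀
  | n + 1 => F (w n) (runG F x₀ w n)

def W : Set (ℕ → Col) := {w | ∀ n, runG step (some (0, 0)) w n ≠ none}

noncomputable def st (l : List (V × Col × V)) : Q := mem (some (0, 0)) (fun q e => step e.2.1 q) l

lemma mem_pre {α : Type} (F : Col → α → α) (x₀ : α) (π : ℕ → V × Col × V) : ∀ n,
    mem x₀ (fun q e => F e.2.1 q) (pre π n) = runG F x₀ (fun n => (π n).2.1) n
  | 0 => rfl
  | n + 1 => by rw [pre, mem, mem_pre F x₀ π n]; rfl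

lemma mem_W (π : ℕ → V × Col × V) : (fun n => (π n).2.1) ∈ W ↔ ∀ n, st (pre π n) ≠ none := by
  simp only [st, mem_pre]; rfl

/-- the owner of the nodes in `R` forces the dead state within `k` steps -/
def Att (A : Arena Col V) (R : V → Prop) : ℕ → V → Q → Prop
  | 0, _, q => q = none
  | k + 1, v, q => q = none ∨ (R v ∧ ∃ e ∈ A.E, e.1 = v ∧ Att A R k e.2.2 (step e.2.1 q)) ∨
      (¬ R v ∧ ∀ e ∈ A.E, e.1 = v → Att A R k e.2.2 (step e.2.1 q))

variable {A : Arena Col V} {R : V → Prop}

lemma att_none : ∀ k v, Att A R k v none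
  | 0, _ => rfl
  | _ + 1, _ => Or.inl rfl

lemma att_succ : ∀ {k v q}, Att A R k v q → Att A R (k + 1) v q
  | 0, _, _, h => Or.inl h
  | _ + 1, _, _, h => h.imp id (Or.imp (fun ⟨h1, e, h2, h3, h4⟩ => ⟨h1, e, h2, h3, att_succ h4⟩)
      fun h => ⟨h.1, fun e h2 h3 => att_succ (h.2 e h2 h3)⟩)

lemma att_mono {k k' v q} (h : Att A R k v q) (hk : k ≤ k') : Att A R k' v q := by
  induction hk with
  | refl => exact h
  | step _ ih => exact att_succ ih

lemma att_down : ∀ {k v q p}, Att A R k v q → le p q → Att A R k v p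
  | k, v, _, none, _, _ => att_none k v
  | _, _, none, some _, _, h => h.elim
  | 0, _, some _, some _, h, _ => by cases h
  | _ + 1, _, some _, some _, h, h' => by
    rcases h with h | ⟨h1, e, h2, h3, h4⟩ | h
    · cases h
    · exact Or.inr (Or.inl ⟨h1, e, h2, h3, att_down h4 (step_mono _ h')⟩)
    · exact Or.inr (Or.inr ⟨h.1, fun e h2 h3 => att_down (h.2 e h2 h3) (step_mono _ h')⟩)

lemma att_lev : ∀ {k v n i}, Att A R k v (some (n, i)) → n < k
  | 0, _, _, _, h => by cases h
  | k + 1, v, n, i, h => by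
    obtain ⟨e, he⟩ : ∃ e : V × Col × V, Att A R k e.2.2 (step e.2.1 (some (n, i))) := by
      rcases h with h | ⟨-, e, -, -, h4⟩ | h
      · cases h
      · exact ⟨e, h4⟩
      · obtain ⟨e, h1, h2⟩ := A.total v
        exact ⟨e, h.2 e h1 h2⟩
    by_cases h0 : n = 0
    · omega
    rcases h1 : step e.2.1 (some (n, i)) with _ | ⟨m, j⟩
    · exact (step_alive _ i h0 h1).elim
    rw [h1] at he
    have := att_lev he
    have := step_lev h1
    have := wt_bd e.2.1
    omega

def Free (A : Arena Col V) (R : V → Prop) (v : V) (q : Q) : Prop := ∀ k, ¬ Att A R k v q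

lemma Free.all {v q} (h : Free A R v q) (hv : R v) (e) (he : e ∈ A.E) (h1 : e.1 = v) :
    Free A R e.2.2 (step e.2.1 q) := fun k hk => h (k + 1) (Or.inr (Or.inl ⟨hv, e, he, h1, hk⟩))

lemma Free.ex [Finite V] {v q} (h : Free A R v q) (hv : ¬ R v) :
    ∃ e ∈ A.E, e.1 = v ∧ Free A R e.2.2 (step e.2.1 q) := by
  by_contra hc
  have : ∀ e : V × Col × V, ∃ k, e ∈ A.E → e.1 = v → Att A R k e.2.2 (step e.2.1 q) := fun e => by
    by_contra h1
    push Not at h1
    exact hc ⟨e, (h1 0).1, (h1 0).2.1, fun k => (h1 k).2.2⟩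
  choose f hf using this
  obtain ⟨K, hK⟩ := (finite_range f).bddAbove
  exact h (K + 1) (Or.inr (Or.inr ⟨hv, fun e h1 h2 => att_mono (hf e h1 h2) (hK ⟨e, rfl⟩)⟩))

def comp : Q → Fin 2
  | none => 0
  | some (_, i) => i

theorem gen_W : GenFin W := by
  refine ⟨2, two_pos, fun V _ _ A => ?_⟩
  let R : V → Prop := fun v => ¬ A.isP v
  let vs : V → Fin 2 → Q := fun v i => some (sInf {n | Free A R v (some (n, i))}, i)
  have hvs : ∀ v q, Free A R v q → Free A R v (vs v (comp q)) ∧ le (vs v (comp q)) q := by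
    rintro v (_ | ⟨n, i⟩) h
    · exact (h 0 rfl).elim
    · have h1 : n ∈ {n | Free A R v (some (n, i))} := h
      exact ⟨Nat.sInf_mem ⟨n, h1⟩, (Nat.sInf_le h1).lt_or_eq.imp id fun e => ⟨e, rfl⟩⟩
  have hn : ∀ v i, ∃ e ∈ A.E, e.1 = v ∧ (A.isP v → Free A R v (vs v i) →
      Free A R e.2.2 (step e.2.1 (vs v i))) := fun v i => by
    by_cases h : A.isP v ∧ Free A R v (vs v i)
    · obtain ⟨e, h1, h2, h3⟩ := h.2.ex (not_not.2 h.1)
      exact ⟨e, h1, h2, fun _ _ => h3⟩
    · obtain ⟨e, h1, h2⟩ := A.total v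
      exact ⟨e, h1, h2, fun h3 h4 => (h ⟨h3, h4⟩).elim⟩
  choose nxt hn1 hn2 hn3 using hn
  let δ : Fin 2 → V × Col × V → Fin 2 := fun i e => comp (step e.2.1 (vs e.1 i))
  refine ⟨fun u l => nxt (last u l) (mem 0 δ l), 0, δ, ⟨fun u l _ _ => ⟨hn1 _ _, hn2 _ _⟩, ?_⟩,
    fun u l u' l' _ _ _ h1 h2 => by simp only [h1, h2]⟩
  rintro u ⟨S', hS', hw⟩ π hπ
  have h0 : Free A R u (some (0, 0)) := fun k hk => by
    obtain ⟨ρ, h1, h2⟩ := exists_play A S' u
      (fun l => st l = none ∨ ∃ j, j + l.length ≤ k ∧ Att A R j (last u l) (st l))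
      (Or.inr ⟨k, le_rfl, hk⟩) (by
        intro l hl hI
        by_cases hd : st l = none
        · obtain ⟨e, e1, e2, e3⟩ := next_edge hS' hl
          refine ⟨e, e1, e2, e3, Or.inl ?_⟩
          show step _ (st l) = none
          rw [hd, step_none]
        obtain ⟨j, hj, ha⟩ := hI.resolve_left hd
        rcases j with _ | j
        · exact (hd ha).elim
        rcases ha with ha | ⟨a1, e, e1, e2, e3⟩ | ⟨a1, a2⟩
        · exact (hd ha).elim
        · exact ⟨e, e1, e2, fun h => (a1 (e2 ▸ h)).elim,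
            Or.inr ⟨j, by simp only [List.length_cons]; omega, e3⟩⟩
        · obtain ⟨e, e1, e2, e3⟩ := next_edge hS' hl
          exact ⟨e, e1, e2, e3, Or.inr ⟨j, by simp only [List.length_cons]; omega, a2 e e1 e2⟩⟩)
    have hlen : ∀ n, (pre ρ n).length = n := fun n => by
      induction n with
      | zero => rfl
      | succ n ih => simp [pre, ih]
    rcases h2 (k + 1) with h3 | ⟨j, h3, -⟩
    · exact (mem_W ρ).1 (hw ρ h1) _ h3
    · rw [hlen] at h3; omega
  have inv : ∀ n, Free A R (last u (pre π n)) (vs (last u (pre π n)) (mem 0 δ (pre π n))) ∧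
      le (vs (last u (pre π n)) (mem 0 δ (pre π n))) (st (pre π n)) := fun n => by
    induction n with
    | zero => exact hvs u _ h0
    | succ n ih =>
      obtain ⟨e1, e2, e3⟩ := hπ n
      have h1 : Free A R (π n).2.2 (step (π n).2.1 (vs (π n).1 (mem 0 δ (pre π n)))) := by
        by_cases hP : A.isP (π n).1
        · have := hn3 _ _ (e2 ▸ hP) ih.1
          rw [← show π n = nxt _ _ from e3 hP, ← e2] at this
          exact this
        · exact (e2 ▸ ih.1 : Free A R (π n).1 _).all hP _ e1 rfl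
      exact ⟨(hvs _ _ h1).1, le_trans' (hvs _ _ h1).2 (step_mono _ (e2 ▸ ih.2))⟩
  exact (mem_W π).2 fun n h => by
    have := (inv n).2
    rw [h] at this
    exact this

def lev : Q → ℕ
  | none => 0
  | some (n, _) => n

theorem gen_notW : GenFin Wᶜ := by
  classical
  refine ⟨2, two_pos, fun V _ _ A => ?_⟩
  let I : V → Prop := fun v => ∀ n i, ∃ k, Att A A.isP k v (some (n, i))
  obtain ⟨B, hB⟩ : ∃ B, ∀ v, ¬ I v → ∀ n i k, Att A A.isP k v (some (n, i)) → n ≤ B := by
    have : ∀ v, ∃ b, ¬ I v → ∀ n i k, Att A A.isP k v (some (n, i)) → n ≤ b := fun v => by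
      by_cases h : I v
      · exact ⟨0, fun h' => (h' h).elim⟩
      · simp only [I, not_forall, not_exists] at h
        obtain ⟨n0, i0, h⟩ := h
        exact ⟨n0, fun _ n i k hk => not_lt.1 fun hlt => h k (att_down hk (Or.inl hlt))⟩
    choose b hb using this
    obtain ⟨B, hB⟩ := (finite_range b).bddAbove
    exact ⟨B, fun v hv n i k hk => (hb v hv n i k hk).trans (hB ⟨v, rfl⟩)⟩
  obtain ⟨K, hK⟩ : ∃ K, ∀ v n i k, n ≤ B + 2 → Att A A.isP k v (some (n, i)) →
      Att A A.isP K v (some (n, i)) := by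
    have : ∀ x : V × Fin (B + 3) × Fin 2, ∃ k, ∀ k', Att A A.isP k' x.1 (some (x.2.1, x.2.2)) →
        Att A A.isP k x.1 (some (x.2.1, x.2.2)) := fun x => by
      by_cases h : ∃ k, Att A A.isP k x.1 (some (x.2.1, x.2.2))
      · exact h.imp fun k hk _ _ => hk
      · exact ⟨0, fun k hk => (h ⟨k, hk⟩).elim⟩
    choose f hf using this
    obtain ⟨K, hK⟩ := (finite_range f).bddAbove
    exact ⟨K, fun v n i k hn hk => att_mono (hf (v, ⟨n, by omega⟩, i) k hk) (hK ⟨_, rfl⟩)⟩
  let ν : V → Fin 2 → ℕ := fun v i => Nat.findGreatest (fun n => Att A A.isP K v (some (n, i))) K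
  let rk : V → Fin 2 → ℕ := fun v i => sInf {j | Att A A.isP j v (some (ν v i, i))}
  have hν : ∀ v n i, Att A A.isP K v (some (n, i)) →
      n ≤ ν v i ∧ Att A A.isP K v (some (ν v i, i)) := fun v n i h =>
    ⟨Nat.le_findGreatest (att_lev h).le h,
      Nat.findGreatest_spec (P := fun n => Att A A.isP K v (some (n, i))) (att_lev h).le h⟩
  have hrk : ∀ v i, Att A A.isP K v (some (ν v i, i)) → ∃ j, rk v i = j + 1 ∧ j < K ∧
      Att A A.isP (j + 1) v (some (ν v i, i)) := fun v i h => by
    have h1 : Att A A.isP (rk v i) v (some (ν v i, i)) :=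
      Nat.sInf_mem (s := {j | Att A A.isP j v (some (ν v i, i))}) ⟨K, h⟩
    have h2 : rk v i ≤ K := Nat.sInf_le h
    rcases h3 : rk v i with _ | j
    · rw [h3] at h1; cases h1
    · exact ⟨j, rfl, by omega, h3 ▸ h1⟩
  have hn : ∀ v i, ∃ e ∈ A.E, e.1 = v ∧ (A.isP v → Att A A.isP K v (some (ν v i, i)) →
      Att A A.isP (rk v i - 1) e.2.2 (step e.2.1 (some (ν v i, i)))) := fun v i => by
    by_cases h : A.isP v ∧ Att A A.isP K v (some (ν v i, i))
    · obtain ⟨j, h1, -, h2⟩ := hrk v i h.2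
      rcases h2 with h2 | ⟨-, e, e1, e2, e3⟩ | h2
      · cases h2
      · exact ⟨e, e1, e2, fun _ _ => by rw [h1]; exact e3⟩
      · exact (h2.1 h.1).elim
    · obtain ⟨e, h1, h2⟩ := A.total v
      exact ⟨e, h1, h2, fun h3 h4 => (h ⟨h3, h4⟩).elim⟩
  choose nxt hn1 hn2 hn3 using hn
  let δ : Fin 2 → V × Col × V → Fin 2 := fun i e => comp (step e.2.1 (some (ν e.1 i, i)))
  refine ⟨fun u l => nxt (last u l) (mem 0 δ l), 0, δ, ⟨fun u l _ _ => ⟨hn1 _ _, hn2 _ _⟩, ?_⟩,
    fun u l u' l' _ _ _ h1 h2 => by simp only [h1, h2]⟩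
  rintro u ⟨S', hS', hw⟩ π hπ hW
  have h0 : ¬ Free A A.isP u (some (0, 0)) := fun hF => by
    obtain ⟨ρ, h1, h2⟩ := exists_play A S' u (fun l => Free A A.isP (last u l) (st l)) hF (by
      intro l hl hI
      by_cases hP : A.isP (last u l)
      · obtain ⟨e, e1, e2, e3⟩ := next_edge hS' hl
        exact ⟨e, e1, e2, e3, hI.all hP e e1 e2⟩
      · obtain ⟨e, e1, e2, e3⟩ := hI.ex hP
        exact ⟨e, e1, e2, fun h => (hP (e2 ▸ h)).elim, e3⟩)
    exact hw ρ h1 ((mem_W ρ).2 fun n h => h2 n 0 h)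
  simp only [Free, not_forall, not_not] at h0
  obtain ⟨k0, h0⟩ := h0
  have hal := (mem_W π).1 hW
  let v : ℕ → V := fun n => last u (pre π n)
  let m : ℕ → Fin 2 := fun n => mem 0 δ (pre π n)
  let J : ℕ → Prop := fun n => Att A A.isP K (v n) (some (ν (v n) (m n), m n)) ∧
    (le (st (pre π n)) (some (ν (v n) (m n), m n)) ∨ I (v n))
  let Φ : ℕ → ℤ := fun n => (K + 1) * (lev (st (pre π n)) + K - ν (v n) (m n)) + rk (v n) (m n)
  have hstep : ∀ n, J n → J (n + 1) ∧ Φ (n + 1) < Φ n := by
    rintro n ⟨j1, j2⟩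
    obtain ⟨e1, e2, e3⟩ := hπ n
    have e2' : (π n).1 = v n := e2
    obtain ⟨j, r1, r2, r3⟩ := hrk _ _ j1
    have h1 : Att A A.isP j (v (n + 1)) (step (π n).2.1 (some (ν (v n) (m n), m n))) := by
      by_cases hP : A.isP (π n).1
      · have := hn3 _ _ (e2' ▸ hP) j1
        rw [← show π n = nxt (v n) (m n) from e3 hP, r1] at this
        exact this
      · rcases r3 with h2 | h2 | h2
        · cases h2
        · exact (hP (e2' ▸ h2.1)).elim
        · exact h2.2 _ e1 e2'
    have hst : st (pre π (n + 1)) = step (π n).2.1 (st (pre π n)) := rfl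
    have hm : m (n + 1) = comp (step (π n).2.1 (some (ν (v n) (m n), m n))) := by
      rw [← e2']; rfl
    have hbig : I (v n) → B + 2 ≤ ν (v n) (m n) := fun h => by
      obtain ⟨k, hk⟩ := h (B + 2) (m n)
      exact (hν _ _ _ (hK _ _ _ k le_rfl hk)).1
    rcases hq : step (π n).2.1 (some (ν (v n) (m n), m n)) with _ | ⟨n', i'⟩
    · exfalso
      rcases j2 with j2 | j2
      · have := step_mono (π n).2.1 j2
        rw [hq, ← hst] at this
        rcases h3 : st (pre π (n + 1)) with _ | q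
        · exact hal _ h3
        · rw [h3] at this; exact this
      · exact step_alive _ _ (by have := hbig j2; omega) hq
    rw [hq] at h1 hm
    replace hm : m (n + 1) = i' := hm
    have h2 := hν _ _ _ (att_mono h1 r2.le)
    have l1 := step_lev hq
    refine ⟨⟨hm ▸ h2.2, ?_⟩, ?_⟩
    · rcases j2 with j2 | j2
      · left
        have := step_mono (π n).2.1 j2
        rw [hq, ← hst] at this
        rw [hm]
        exact le_trans' this (h2.1.lt_or_eq.imp id fun e => ⟨e, rfl⟩)
      · right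
        by_contra h3
        have := hB _ h3 _ _ _ h1
        have := hbig j2
        have := wt_bd (π n).2.1
        omega
    · simp only [Φ, hm]
      rcases h3 : st (pre π n) with _ | ⟨a, ia⟩
      · exact (hal _ h3).elim
      rcases h4 : st (pre π (n + 1)) with _ | ⟨a', ia'⟩
      · exact (hal _ h4).elim
      have l2 := step_lev (h3 ▸ hst.symm.trans h4)
      simp only [lev]
      rcases h2.1.lt_or_eq with h5 | h5
      · obtain ⟨j', r1', r2', -⟩ := hrk _ _ h2.2
        have h6 : (a' : ℤ) + K - ν (v (n + 1)) i' + 1 ≤ a + K - ν (v n) (m n) := by omega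
        have h7 := mul_le_mul_of_nonneg_left h6 (show (0 : ℤ) ≤ K + 1 by positivity)
        rw [r1, r1']
        push_cast
        have : (j' : ℤ) < K := by exact_mod_cast r2'
        linarith
      · have h6 : rk (v (n + 1)) i' ≤ j := Nat.sInf_le (show Att A A.isP j _ _ from h5 ▸ h1)
        have h7 : (a' : ℤ) + K - ν (v (n + 1)) i' = a + K - ν (v n) (m n) := by omega
        rw [h7, r1]
        push_cast
        have : (rk (v (n + 1)) i' : ℤ) ≤ j := by exact_mod_cast h6
        linarith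
  have hJ : ∀ n, J n ∧ Φ n + n ≤ Φ 0 := fun n => by
    induction n with
    | zero =>
      have := hν u 0 0 (hK _ _ _ _ (by omega) h0)
      exact ⟨⟨this.2, Or.inl (this.1.lt_or_eq.imp id fun e => ⟨e, rfl⟩)⟩, by simp⟩
    | succ n ih =>
      have := hstep n ih.1
      refine ⟨this.1, ?_⟩
      push_cast
      linarith [this.2, ih.2]
  have hpos : ∀ n, 0 ≤ Φ n := fun n => by
    have h1 : (ν (v n) (m n) : ℤ) ≤ K := by exact_mod_cast (att_lev (hJ n).1.1).le
    have h2 : (0 : ℤ) ≤ lev (st (pre π n)) + K - ν (v n) (m n) := by omega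
    simp only [Φ]
    positivity
  have h1 := (hJ ((Φ 0).toNat + 1)).2
  have h2 := hpos ((Φ 0).toNat + 1)
  push_cast at h1
  omega

def col (N j : ℕ) : Col := if j < N then .a else if j = N then .c else .b

lemma runG_word {α : Type} (F : Col → α → α) (x₀ : α) (w : ℕ → Col) (N : ℕ)
    (h : ∀ j < 2 * N + 1, w j = col N j) :
    runG F x₀ w (2 * N + 1) = (F .b)^[N] (F .c ((F .a)^[N] x₀)) := by
  have h1 : ∀ j ≤ N, runG F x₀ w j = (F .a)^[j] x₀ := fun j hj => by
    induction j with
    | zero => rfl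
    | succ j ih =>
      rw [runG, ih (by omega), h j (by omega), col, if_pos (by omega), Function.iterate_succ_apply']
  have h2 : ∀ j ≤ N, runG F x₀ w (N + 1 + j) = (F .b)^[j] (F .c ((F .a)^[N] x₀)) := fun j hj => by
    induction j with
    | zero => rw [Nat.add_zero, runG, h1 N le_rfl, h N (by omega), col, if_neg (by omega), if_pos rfl]; rfl
    | succ j ih =>
      rw [← Nat.add_assoc, runG, ih (by omega), h _ (by omega), col, if_neg (by omega),
        if_neg (by omega), Function.iterate_succ_apply']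
  rw [show 2 * N + 1 = N + 1 + N by omega, h2 N le_rfl]

lemma iter_a (n : ℕ) : (step .a)^[n] (some (0, 0)) = some (n, 0) := by
  induction n with
  | zero => rfl
  | succ n ih => rw [Function.iterate_succ_apply', ih]; rfl

lemma iter_b (n : ℕ) (i) : (step .b)^[n] (some (n, i)) = some (0, i) := by
  induction n with
  | zero => rfl
  | succ n ih => rw [Function.iterate_succ_apply, step, if_neg (by omega)]; exact ih

lemma period (k : ℕ) : ∃ i p, 0 < p ∧ ∀ f : Fin k → Fin k, ∀ n ≥ i, f^[n + p] = f^[n] := by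
  obtain ⟨i, j, h1, h2⟩ := Finite.exists_ne_map_eq_of_infinite
    (fun (n : ℕ) (f : Fin k → Fin k) => f^[n])
  wlog h : i < j generalizing i j
  · exact this j i h1.symm h2.symm (by omega)
  refine ⟨i, j - i, by omega, fun f n hn => ?_⟩
  obtain ⟨t, rfl⟩ := Nat.exists_eq_add_of_le' hn
  have h3 : f^[i] = f^[j] := congrFun h2 f
  rw [show t + i + (j - i) = t + j by omega, Function.iterate_add, Function.iterate_add, h3]

theorem not_chr : ¬ ChrFin W := by
  rintro ⟨k, -, h⟩
  obtain ⟨i, p, hp, hper⟩ := period k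
  let N : Fin 2 → ℕ := fun t => if t = 1 then 2 ^ (i + p) else 2 ^ (i + p) + p
  have hlt : i + p < 2 ^ (i + p) := Nat.lt_two_pow_self
  have hc : ∀ t, step .c (some (N t, 0)) = some (N t, t) := fun t => by
    fin_cases t
    · have : ¬ ∃ s, 2 ^ (i + p) + p = 2 ^ s := by
        rintro ⟨s, hs⟩
        have h1 : i + p < s := (Nat.pow_lt_pow_iff_right one_lt_two).1 (by omega)
        have h2 : 2 ^ (i + p + 1) ≤ 2 ^ s := Nat.pow_le_pow_right two_pos h1
        rw [pow_succ] at h2
        omega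
      simp [N, step, this]
    · simp [N, step]
  let V : Type := Option (Σ t : Fin 2, Fin (2 * N t + 1))
  let nd : Fin 2 → ℕ → V := fun t j => if h : j < 2 * N t + 1 then some ⟨t, ⟨j, h⟩⟩ else none
  let ed : Fin 2 → ℕ → V × Col × V := fun t j => (nd t j, col (N t) j, nd t (j + 1))
  let A : Arena Col V :=
    { isP := fun v => v = none
      E := {e | (∃ t j, j < 2 * N t + 1 ∧ e = ed t j) ∨ ∃ j, e = (none, .d j, none)}
      total := by
        rintro (_ | ⟨t, j, hj⟩)
        · exact ⟨_, Or.inr ⟨0, rfl⟩, rfl⟩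
        · exact ⟨_, Or.inl ⟨t, j, hj, rfl⟩, dif_pos hj⟩ }
  have hend : ∀ t, nd t (2 * N t + 1) = none := fun t => dif_neg (lt_irrefl _)
  have hdet : ∀ S t π, Play A S (nd t 0) π → ∀ j ≤ 2 * N t + 1,
      last (nd t 0) (pre π j) = nd t j ∧ (j < 2 * N t + 1 → π j = ed t j) := by
    intro S t π hπ j
    have key : ∀ j, j < 2 * N t + 1 → last (nd t 0) (pre π j) = nd t j → π j = ed t j := by
      intro j hj hl
      obtain ⟨e1, e2, -⟩ := hπ j
      rw [hl] at e2
      rcases e1 with ⟨t', j', h1, h2⟩ | ⟨j', h2⟩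
      · rw [h2] at e2 ⊢
        simp only [ed, nd, dif_pos h1, dif_pos hj, V, Option.some.injEq, Sigma.mk.injEq] at e2
        obtain ⟨rfl, e3⟩ := e2
        rw [show j' = j from congrArg Fin.val (eq_of_heq e3)]
      · rw [h2] at e2
        simp [nd, V] at e2
        omega
    induction j with
    | zero => exact fun _ => ⟨rfl, fun h => key 0 h rfl⟩
    | succ j ih =>
      intro hj
      have h1 : last (nd t 0) (pre π (j + 1)) = nd t (j + 1) := by
        show (π j).2.2 = _
        rw [(ih (by omega)).2 (by omega)]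
      exact ⟨h1, fun h => key _ h h1⟩
  have hrun : ∀ S t π, Play A S (nd t 0) π → ∀ {α : Type} (F : Col → α → α) (x₀ : α),
      mem x₀ (fun q e => F e.2.1 q) (pre π (2 * N t + 1)) =
        (F .b)^[N t] (F .c ((F .a)^[N t] x₀)) := fun S t π hπ α F x₀ => by
    rw [mem_pre]
    refine runG_word F x₀ _ _ fun j hj => ?_
    rw [(hdet S t π hπ j hj.le).2 hj]
  have hst : ∀ S t π, Play A S (nd t 0) π → st (pre π (2 * N t + 1)) = some (0, t) :=
    fun S t π hπ => by rw [st, hrun S t π hπ, iter_a, hc, iter_b]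
  obtain ⟨S, m₀, δ, ⟨hS, hopt⟩, hb⟩ := h V A
  have hwin : ∀ t, Wins A W S (nd t 0) := fun t => by
    refine hopt _ ⟨fun _ _ => (none, .d t, none), fun u l _ hl => ⟨Or.inr ⟨t, rfl⟩, hl.symm⟩,
      fun π hπ => (mem_W π).2 fun n => ?_⟩
    have h1 : ∀ j, last (nd t 0) (pre π (2 * N t + 1 + j)) = none ∧
        st (pre π (2 * N t + 1 + j)) = some (0, t) := fun j => by
      induction j with
      | zero => exact ⟨(hdet _ t π hπ _ le_rfl).1.trans (hend t), hst _ t π hπ⟩
      | succ j ih =>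
        obtain ⟨-, e2, e3⟩ := hπ (2 * N t + 1 + j)
        have e4 := e3 (e2.trans ih.1)
        refine ⟨show (π (2 * N t + 1 + j)).2.2 = none by rw [e4], ?_⟩
        show step (π (2 * N t + 1 + j)).2.1 (st (pre π (2 * N t + 1 + j))) = _
        rw [ih.2, e4]
        simp [step]
    intro hn
    have h2 : ∀ j, st (pre π (n + j)) = none := fun j => by
      induction j with
      | zero => exact hn
      | succ j ih =>
        show step _ (st (pre π (n + j))) = none
        rw [ih, step_none]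
    have := (h2 (2 * N t + 1)).symm.trans (Nat.add_comm n _ ▸ (h1 n).2)
    cases this
  have hpl : ∀ t, ∃ π, Play A S (nd t 0) π := fun t => by
    obtain ⟨π, h1, -⟩ := exists_play A S (nd t 0) (fun _ => True) trivial fun l hl _ => by
      obtain ⟨e, e1, e2, e3⟩ := next_edge hS hl
      exact ⟨e, e1, e2, e3, trivial⟩
    exact ⟨π, h1⟩
  choose π hπ using hpl
  have hl : ∀ t, last (nd t 0) (pre (π t) (2 * N t + 1)) = none := fun t =>
    (hdet _ t _ (hπ t) _ le_rfl).1.trans (hend t)
  have hmove : ∀ t, S (nd t 0) (pre (π t) (2 * N t + 1)) = (none, .d t, none) := fun t => by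
    obtain ⟨e1, e2, e3⟩ := hπ t (2 * N t + 1)
    rw [hl] at e2
    rw [← e3 e2]
    rcases e1 with ⟨t', j', h1, h2⟩ | ⟨j', h2⟩
    · rw [h2] at e2
      simp [ed, nd, V] at e2
      omega
    · have h3 := (mem_W _).1 (hwin t _ (hπ t)) (2 * N t + 1 + 1)
      rw [h2]
      by_contra h4
      apply h3
      show step (π t (2 * N t + 1)).2.1 (st (pre (π t) (2 * N t + 1))) = none
      rw [hst _ t _ (hπ t), h2]
      have : t ≠ j' := fun e => h4 (by rw [e])
      simp [step, this]
  have heq := hb _ _ _ _ ((hπ 0).path (2 * N 0 + 1)) ((hπ 1).path (2 * N 1 + 1)) (hl 0)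
    ((hl 0).trans (hl 1).symm) (by
      rw [hrun S 0 _ (hπ 0) (fun x m => δ m x), hrun S 1 _ (hπ 1) (fun x m => δ m x)]
      have e0 : N 0 = 2 ^ (i + p) + p := rfl
      have e1 : N 1 = 2 ^ (i + p) := rfl
      rw [e0, e1, hper _ _ (by omega), hper _ _ (by omega)])
  rw [hmove, hmove] at heq
  simp at heq

theorem W_safety : ∃ P : Set (List Col), W = {w | ∀ n, (List.range n).map w ∉ P} := by
  refine ⟨{l | l.foldl (fun q x => step x q) (some (0, 0)) = none}, ?_⟩
  have : ∀ (w : ℕ → Col) n, ((List.range n).map w).foldl (fun q x => step x q) (some (0, 0)) =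
      runG step (some (0, 0)) w n := fun w n => by
    induction n with
    | zero => rfl
    | succ n ih => rw [List.range_succ, List.map_append, List.foldl_append, ih]; rfl
  ext w
  simp only [W, mem_ofPred_eq, this]

end Pool.Agent.H32.Mem
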