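import Mathlib
import Pool.Agent.H32.Mem

open Set

namespace Pool.Agent.H32.Mem

variable {C V : Type}

lemma genFin_of (W : Set (ℕ → C)) (M : Type) [Fintype M] [Nonempty M]
    (h : ∀ (V : Type) [Finite V] [Nonempty V] (A : Arena C V),
      ∃ S, ∃ (m₀ : M) (δ : M → V × C × V → M), Optimal A W S ∧ Built A S m₀ δ) : GenFin W := by
  refine ⟨Fintype.card M, Fintype.card_pos, fun V _ _ A => ?_⟩
  obtain ⟨S, m₀, δ, h1, h2⟩ := h V A
  let φ := Fintype.equivFin M
  have : ∀ l, mem (φ m₀) (fun m e => φ (δ (φ.symm m) e)) l = φ (mem m₀ δ l) := fun l => by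
    induction l with
    | nil => rfl
    | cons e l ih => rw [mem, ih, Equiv.symm_apply_apply]; rfl
  refine ⟨S, φ m₀, fun m e => φ (δ (φ.symm m) e), h1, fun u l u' l' a1 a2 a3 a4 a5 => ?_⟩
  rw [this, this] at a5
  exact h2 u l u' l' a1 a2 a3 a4 (φ.injective a5)

/-- the colour `none` resets the counter -/
noncomputable def step' : Option Col → Q → Q
  | none, _ => some (0, 0)
  | some x, q => step x q

lemma step'_mono (x : Option Col) {p q : Q} (h : le p q) : le (step' x p) (step' x q) := by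
  cases x
  exacts [le_rfl' _, step_mono _ h]

noncomputable def run' (w : ℕ → Option Col) : ℕ → Q
  | 0 => some (0, 0)
  | n + 1 => step' (w n) (run' w n)

def W' : Set (ℕ → Option Col) := {w | ∃ N, ∀ n ≥ N, ¬ (w n = none ∧ run' w n = none)}

lemma W'_shift (w : ℕ → Option Col) (k : ℕ) : w ∈ W' ↔ (fun i => w (i + k)) ∈ W' := by
  by_cases h : ∃ i, w (i + k) = none
  · obtain ⟨i, hi⟩ := h
    have : ∀ j, run' (fun i => w (i + k)) (i + 1 + j) = run' w (i + 1 + j + k) := fun j => by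
      induction j with
      | zero =>
        rw [show i + 1 + 0 + k = i + k + 1 by omega, Nat.add_zero, run', run', hi]; rfl
      | succ j ih =>
        rw [show i + 1 + (j + 1) + k = i + 1 + j + k + 1 by omega, ← Nat.add_assoc, run', run', ih]
    constructor
    · rintro ⟨N, hN⟩
      refine ⟨N + (i + 1), fun n hn => ?_⟩
      obtain ⟨j, rfl⟩ : ∃ j, n = i + 1 + j := ⟨n - (i + 1), by omega⟩
      rw [this]
      exact hN _ (by omega)
    · rintro ⟨N, hN⟩
      refine ⟨N + (i + 1) + k, fun n hn => ?_⟩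
      obtain ⟨j, rfl⟩ : ∃ j, n = i + 1 + j + k := ⟨n - (i + 1) - k, by omega⟩
      rw [← this]
      exact hN _ (by omega)
  · refine iff_of_true ⟨k, fun n hn h1 => h ⟨n - k, ?_⟩⟩ ⟨0, fun n _ h1 => h ⟨n, h1.1⟩⟩
    rw [Nat.sub_add_cancel hn]
    exact h1.1

noncomputable def st' (l : List (V × Option Col × V)) : Q :=
  mem (some (0, 0)) (fun q e => step' e.2.1 q) l

lemma st'_pre (π : ℕ → V × Option Col × V) : ∀ n, st' (pre π n) = run' (fun n => (π n).2.1) n
  | 0 => rfl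
  | n + 1 => by rw [run', ← st'_pre π n]; rfl

def Bad (e : V × Option Col × V) (q : Q) : Prop := e.2.1 = none ∧ q = none

lemma mem_W' (π : ℕ → V × Option Col × V) : (fun n => (π n).2.1) ∈ W' ↔
    ∃ N, ∀ n ≥ N, ¬ Bad (π n) (st' (pre π n)) := by
  simp only [st'_pre]; rfl

/-- Antagonist forces a bad reset within `k` steps, staying outside `Y` -/
def AttB (A : Arena (Option Col) V) (Y : Set V) : ℕ → V → Q → Prop
  | 0, _, _ => False
  | k + 1, v, q => (¬ A.isP v ∧ ∃ e ∈ A.E, e.1 = v ∧ e.2.2 ∉ Y ∧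
      (Bad e q ∨ AttB A Y k e.2.2 (step' e.2.1 q))) ∨ (A.isP v ∧ ∀ e ∈ A.E, e.1 = v → e.2.2 ∉ Y ∧
      (Bad e q ∨ AttB A Y k e.2.2 (step' e.2.1 q)))

variable {A : Arena (Option Col) V} {Y : Set V}

lemma attB_succ : ∀ {k v q}, AttB A Y k v q → AttB A Y (k + 1) v q
  | 0, _, _, h => h.elim
  | _ + 1, _, _, h => h.imp
      (fun ⟨h1, e, h2, h3, h4, h5⟩ => ⟨h1, e, h2, h3, h4, h5.imp id attB_succ⟩)
      fun h => ⟨h.1, fun e h2 h3 => ⟨(h.2 e h2 h3).1, (h.2 e h2 h3).2.imp id attB_succ⟩⟩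

lemma attB_mono {k k' v q} (h : AttB A Y k v q) (hk : k ≤ k') : AttB A Y k' v q := by
  induction hk with
  | refl => exact h
  | step _ ih => exact attB_succ ih

def FreeB (A : Arena (Option Col) V) (Y : Set V) (v : V) (q : Q) : Prop := ∀ k, ¬ AttB A Y k v q

def Ok (A : Arena (Option Col) V) (Y : Set V) (e : V × Option Col × V) (q : Q) : Prop :=
  e.2.2 ∈ Y ∨ (¬ Bad e q ∧ FreeB A Y e.2.2 (step' e.2.1 q))

lemma FreeB.all {v q} (h : FreeB A Y v q) (hv : ¬ A.isP v) (e) (he : e ∈ A.E) (h1 : e.1 = v) :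
    Ok A Y e q := by
  by_cases h2 : e.2.2 ∈ Y
  · exact Or.inl h2
  · exact Or.inr ⟨fun h3 => h 1 (Or.inl ⟨hv, e, he, h1, h2, Or.inl h3⟩),
      fun k hk => h (k + 1) (Or.inl ⟨hv, e, he, h1, h2, Or.inr hk⟩)⟩

lemma FreeB.ex [Finite V] {v q} (h : FreeB A Y v q) (hv : A.isP v) :
    ∃ e ∈ A.E, e.1 = v ∧ Ok A Y e q := by
  by_contra hc
  have : ∀ e : V × Option Col × V, ∃ k, e ∈ A.E → e.1 = v → e.2.2 ∉ Y ∧
      (Bad e q ∨ AttB A Y k e.2.2 (step' e.2.1 q)) := fun e => by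
    by_contra h1
    push Not at h1
    refine hc ⟨e, (h1 0).1, (h1 0).2.1, ?_⟩
    by_cases h2 : e.2.2 ∈ Y
    · exact Or.inl h2
    · exact Or.inr ⟨((h1 0).2.2 h2).1, fun k => ((h1 k).2.2 h2).2⟩
  choose f hf using this
  obtain ⟨K, hK⟩ := (finite_range f).bddAbove
  exact h (K + 1) (Or.inr ⟨hv, fun e h1 h2 => ⟨(hf e h1 h2).1,
    (hf e h1 h2).2.imp id fun h3 => attB_mono h3 (hK ⟨e, rfl⟩)⟩⟩)

def Lay (A : Arena (Option Col) V) : ℕ → Set V
  | 0 => ∅
  | n + 1 => Lay A n ∪ {v | ∃ q, FreeB A (Lay A n) v q}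

theorem gen_W' : GenFin W' := by
  classical
  refine genFin_of _ (Option (Fin 2)) fun V _ _ A => ?_
  have hmono : Monotone (Lay A) := monotone_nat_of_le_succ fun n => subset_union_left
  obtain ⟨N, hN⟩ := WellFoundedGT.monotone_chain_condition (⟨Lay A, hmono⟩ : ℕ →o Set V)
  have hN' : Lay A N = Lay A (N + 1) := hN (N + 1) (by omega)
  let ℓ : V → ℕ := fun v => sInf {n | v ∈ Lay A (n + 1)}
  let F : V → Q → Prop := fun v q => FreeB A (Lay A (ℓ v)) v q
  have hlt : ∀ v n, v ∈ Lay A n → ℓ v < n := fun v n h => by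
    rcases n with _ | n
    · exact h.elim
    · exact Nat.lt_succ_of_le (Nat.sInf_le h)
  have hF : ∀ v n, v ∈ Lay A n → ∃ q, F v q := fun v n h => by
    have h1 : v ∈ Lay A (ℓ v + 1) :=
      Nat.sInf_mem (s := {n | v ∈ Lay A (n + 1)}) ⟨n, hmono n.le_succ h⟩
    exact h1.resolve_left fun h2 => lt_irrefl _ (hlt v _ h2)
  have hvs : ∀ (v : V) (m : Option (Fin 2)), ∃ p, ((∃ q, F v q) → F v p) ∧
      ∀ q, F v q → q.map Prod.snd = m → le p q := fun v m => by
    by_cases h : ∃ q, F v q ∧ q.map Prod.snd = m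
    · obtain ⟨_ | ⟨n, i⟩, h1, rfl⟩ := h
      · exact ⟨none, fun _ => h1, fun _ _ _ => trivial⟩
      · refine ⟨some (sInf {n | F v (some (n, i))}, i),
          fun _ => Nat.sInf_mem (s := {n | F v (some (n, i))}) ⟨n, h1⟩, ?_⟩
        rintro (_ | ⟨n', i'⟩) h2 h3
        · cases h3
        · obtain rfl : i' = i := by simpa using h3
          exact (Nat.sInf_le (s := {n | F v (some (n, i'))}) h2).lt_or_eq.imp id fun e => ⟨e, rfl⟩
    · by_cases h' : ∃ q, F v q
      · obtain ⟨q, hq⟩ := h'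
        exact ⟨q, fun _ => hq, fun q h1 h2 => (h ⟨q, h1, h2⟩).elim⟩
      · exact ⟨none, fun h => (h' h).elim, fun _ _ _ => trivial⟩
  choose vs hvs1 hvs2 using hvs
  have hn : ∀ v m, ∃ e ∈ A.E, e.1 = v ∧ (A.isP v → F v (vs v m) →
      Ok A (Lay A (ℓ v)) e (vs v m)) := fun v m => by
    by_cases h : A.isP v ∧ F v (vs v m)
    · obtain ⟨e, h1, h2, h3⟩ := h.2.ex h.1
      exact ⟨e, h1, h2, fun _ _ => h3⟩
    · obtain ⟨e, h1, h2⟩ := A.total v
      exact ⟨e, h1, h2, fun h3 h4 => (h ⟨h3, h4⟩).elim⟩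
  choose nxt hn1 hn2 hn3 using hn
  let δ : Option (Fin 2) → V × Option Col × V → Option (Fin 2) :=
    fun m e => (step' e.2.1 (vs e.1 m)).map Prod.snd
  refine ⟨fun u l => nxt (last u l) (mem none δ l), none, δ,
    ⟨fun u l _ _ => ⟨hn1 _ _, hn2 _ _⟩, ?_⟩, fun u l u' l' _ _ _ h1 h2 => by simp only [h1, h2]⟩
  rintro u ⟨S', hS', hw⟩ π hπ
  have h0 : u ∈ Lay A N := by
    by_contra hu
    let r : List (V × Option Col × V) → ℕ := fun l =>
      sInf {k | AttB A (Lay A N) k (last u l) (st' l)}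
    obtain ⟨ρ, h1, h2⟩ := exists_play A S' u
      (fun l => last u l ∉ Lay A N ∧ ∀ e l', l = e :: l' → Bad e (st' l') ∨ r l < r l')
      ⟨hu, fun _ _ h => by cases h⟩ (by
        rintro l hl ⟨hI, -⟩
        have h1 : ¬ FreeB A (Lay A N) (last u l) (st' l) := fun h => hI (hN' ▸ Or.inr ⟨_, h⟩)
        simp only [FreeB, not_forall, not_not] at h1
        have h2 : AttB A (Lay A N) (r l) (last u l) (st' l) :=
          Nat.sInf_mem (s := {k | AttB A (Lay A N) k (last u l) (st' l)}) h1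
        rcases h3 : r l with _ | j
        · rw [h3] at h2; exact h2.elim
        rw [h3] at h2
        have key : ∀ e : V × Option Col × V, (e.2.2 ∉ Lay A N ∧ (Bad e (st' l) ∨
            AttB A (Lay A N) j e.2.2 (step' e.2.1 (st' l)))) → last u (e :: l) ∉ Lay A N ∧
            ∀ e' l', e :: l = e' :: l' → Bad e' (st' l') ∨ r (e :: l) < r l' := by
          rintro e ⟨a1, a2⟩
          refine ⟨a1, fun e' l' h => ?_⟩
          obtain ⟨rfl, rfl⟩ := List.cons.inj h
          refine a2.imp id fun a3 => ?_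
          rw [h3]
          exact Nat.lt_succ_of_le (Nat.sInf_le a3)
        rcases h2 with ⟨a1, e, e1, e2, e3⟩ | ⟨a1, a2⟩
        · exact ⟨e, e1, e2, fun h => (a1 (e2 ▸ h)).elim, key e e3⟩
        · obtain ⟨e, e1, e2, e3⟩ := next_edge hS' hl
          exact ⟨e, e1, e2, e3, key e (a2 e e1 e2)⟩)
    obtain ⟨M, hM⟩ := (mem_W' ρ).1 (hw ρ h1)
    have h3 : ∀ j, r (pre ρ (M + j)) + j ≤ r (pre ρ M) := fun j => by
      induction j with
      | zero => exact le_rfl
      | succ j ih =>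
        have : r (pre ρ (M + (j + 1))) < r (pre ρ (M + j)) :=
          ((h2 (M + j + 1)).2 _ _ rfl).resolve_left (hM _ (by omega))
        omega
    have := h3 (r (pre ρ M) + 1)
    omega
  let v : ℕ → V := fun n => last u (pre π n)
  let p : ℕ → Q := fun n => vs (v n) (mem none δ (pre π n))
  have hok : ∀ n, (∃ k, v n ∈ Lay A k) → Ok A (Lay A (ℓ (v n))) (π n) (p n) := by
    rintro n ⟨k, hk⟩
    obtain ⟨e1, e2, e3⟩ := hπ n
    replace e2 : (π n).1 = v n := e2
    have h1 : F (v n) (p n) := hvs1 _ _ (hF _ _ hk)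
    by_cases hP : A.isP (π n).1
    · rw [show π n = nxt (v n) _ from e3 hP]
      exact hn3 _ _ (e2 ▸ hP) h1
    · exact FreeB.all h1 (e2 ▸ hP) _ e1 e2
  have hin : ∀ n, ∃ k, v n ∈ Lay A k := fun n => by
    induction n with
    | zero => exact ⟨N, h0⟩
    | succ n ih =>
      rcases hok n ih with h | h
      exacts [⟨_, h⟩, ⟨ℓ (v n) + 1, Or.inr ⟨_, h.2⟩⟩]
  have hanti : Antitone fun n => ℓ (v n) := antitone_nat_of_succ_le fun n => by
    rcases hok n (hin n) with h | h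
    · exact (hlt _ _ h).le
    · exact Nat.le_of_lt_succ (hlt _ (ℓ (v n) + 1) (Or.inr ⟨_, h.2⟩))
  obtain ⟨n0, hn0⟩ : ∃ n0, ∀ n ≥ n0, ℓ (v n) = ℓ (v n0) := by
    obtain ⟨_, ⟨n0, rfl⟩, h⟩ := WellFounded.has_min wellFounded_lt
      (range fun n => ℓ (v n)) ⟨_, 0, rfl⟩
    exact ⟨n0, fun n hn => le_antisymm (hanti hn) (not_lt.1 (h _ ⟨n, rfl⟩))⟩
  have hst : ∀ n ≥ n0, ¬ Bad (π n) (p n) ∧ le (p (n + 1)) (step' (π n).2.1 (p n)) := fun n hn => by
    have e : ℓ (v (n + 1)) = ℓ (v n) := (hn0 _ (by omega)).trans (hn0 n hn).symm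
    rcases hok n (hin n) with h | h
    · exact absurd (hlt (v (n + 1)) _ h) (by omega)
    · refine ⟨h.1, hvs2 _ _ _ (show FreeB A (Lay A (ℓ (v (n + 1)))) _ _ from e ▸ h.2) ?_⟩
      have e2 : (π n).1 = v n := (hπ n).2.1
      simp only [p, ← e2]
      rfl
  rw [mem_W']
  by_cases h : ∃ n ≥ n0, (π n).2.1 = none
  · obtain ⟨n1, h1, h2⟩ := h
    have h3 : ∀ j, le (p (n1 + 1 + j)) (st' (pre π (n1 + 1 + j))) := fun j => by
      induction j with
      | zero =>
        have := (hst n1 h1).2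
        rw [h2] at this
        show le (p (n1 + 1)) (step' (π n1).2.1 _)
        rw [h2]
        exact this
      | succ j ih => exact le_trans' (hst (n1 + 1 + j) (by omega)).2 (step'_mono _ ih)
    refine ⟨n1 + 1, fun n hn hb => ?_⟩
    obtain ⟨j, rfl⟩ := Nat.exists_eq_add_of_le hn
    refine (hst _ (by omega)).1 ⟨hb.1, ?_⟩
    have := h3 j
    rw [hb.2] at this
    rcases h4 : p (n1 + 1 + j) with _ | q
    · rfl
    · rw [h4] at this; exact this.elim
  · exact ⟨n0, fun n hn hb => h ⟨n, hn, hb.1⟩⟩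

theorem not_chr' : ¬ ChrFin W' := by
  rintro ⟨k, -, h⟩
  obtain ⟨i, p, hp, hper⟩ := period k
  let N : Fin 2 → ℕ := fun t => if t = 1 then 2 ^ (i + p) else 2 ^ (i + p) + p
  have hlt : i + p < 2 ^ (i + p) := Nat.lt_two_pow_self
  have hc : ∀ t, step .c (some (N t, 0)) = some (N t, t) := fun t => by
    fin_cases t
    · have : ¬ ∃ s, 2 ^ (i + p) + p = 2 ^ s := by
        rintro ⟨s, hs⟩
        have h1 : i + p < s := (Nat.pow_lt_pow_iff_right one_lt_two).1 (by omega)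
        have h2 : 2 ^ (i + p + 1) ≤ 2 ^ s := Nat.pow_le_pow_right two_pos h1
        rw [pow_succ] at h2
        omega
      simp [N, step, this]
    · simp [N, step]
  let V : Type := Option (Option (Σ t : Fin 2, Fin (2 * N t + 1)))
  let nd : Fin 2 → ℕ → V := fun t j =>
    some (if h : j < 2 * N t + 1 then some ⟨t, ⟨j, h⟩⟩ else none)
  let ed : Fin 2 → ℕ → V × Option Col × V := fun t j => (nd t j, some (col (N t) j), nd t (j + 1))
  let A : Arena (Option Col) V :=
    { isP := fun v => v = some none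
      E := {e | (∃ t j, j < 2 * N t + 1 ∧ e = ed t j) ∨ (∃ j, e = (some none, some (.d j), none)) ∨
        ∃ t, e = (none, none, nd t 0)}
      total := by
        rintro (_ | _ | ⟨t, j, hj⟩)
        · exact ⟨_, Or.inr (Or.inr ⟨0, rfl⟩), rfl⟩
        · exact ⟨_, Or.inr (Or.inl ⟨0, rfl⟩), rfl⟩
        · exact ⟨_, Or.inl ⟨t, j, hj, rfl⟩, congrArg some (dif_pos hj)⟩ }
  have hend : ∀ t, nd t (2 * N t + 1) = some none := fun t => congrArg some (dif_neg (lt_irrefl _))
  have d1 : ∀ t j, j < 2 * N t + 1 → ∀ e ∈ A.E, e.1 = nd t j → e = ed t j := by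
    rintro t j hj e (⟨t', j', h1, rfl⟩ | ⟨j', rfl⟩ | ⟨j', rfl⟩) e2
    · simp only [ed, nd, dif_pos h1, dif_pos hj, V, Option.some.injEq, Sigma.mk.injEq] at e2
      obtain ⟨rfl, e3⟩ := e2
      rw [show j' = j from congrArg Fin.val (eq_of_heq e3)]
    · simp [nd, V] at e2
      omega
    · cases e2
  have d2 : ∀ e ∈ A.E, e.1 = some none → ∃ j, e = (some none, some (.d j), none) := by
    rintro e (⟨t', j', h1, rfl⟩ | h | ⟨j', rfl⟩) e2
    · simp [ed, nd, V] at e2
      omega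
    · exact h
    · cases e2
  have d3 : ∀ e ∈ A.E, e.1 = none → ∃ t, e = (none, none, nd t 0) := by
    rintro e (⟨t', j', h1, rfl⟩ | ⟨j', rfl⟩ | h) e2
    · cases e2
    · cases e2
    · exact h
  let ext : List (V × Option Col × V) → Fin 2 → ℕ → List (V × Option Col × V) := fun l t j =>
    Nat.rec ((none, none, nd t 0) :: l) (fun j r => ed t j :: r) j
  have x1 : ∀ l t j, last (none : V) (ext l t j) = nd t j := fun l t j => by cases j <;> rfl
  have x2 : ∀ l t, IsPath A none l → last none l = none → ∀ j ≤ 2 * N t + 1,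
      IsPath A none (ext l t j) := fun l t h1 h2 j hj => by
    induction j with
    | zero => exact ⟨h1, Or.inr (Or.inr ⟨t, rfl⟩), h2.symm⟩
    | succ j ih => exact ⟨ih (by omega), Or.inl ⟨t, j, by omega, rfl⟩, (x1 l t j).symm⟩
  have x3 : ∀ {α : Type} (F : Option Col → α → α) (x₀ : α) l t,
      mem x₀ (fun q e => F e.2.1 q) (ext l t (2 * N t + 1)) = (F (some .b))^[N t] (F (some .c)
        ((F (some .a))^[N t] (F none (mem x₀ (fun q e => F e.2.1 q) l)))) := by
    intro α F x₀ l t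
    rw [← runG_word (fun x => F (some x)) _ (col (N t)) _ fun _ _ => rfl]
    generalize 2 * N t + 1 = j
    induction j with
    | zero => rfl
    | succ j ih => rw [runG, ← ih]; rfl
  have x4 : ∀ l t, st' (ext l t (2 * N t + 1)) = some (0, t) := fun l t => by
    rw [st', x3 step']
    show (step .b)^[N t] (step .c ((step .a)^[N t] (some (0, 0)))) = _
    rw [iter_a, hc, iter_b]
  obtain ⟨S, m₀, δ, ⟨hS, hopt⟩, hb⟩ := h V A
  have hwin : Wins A W' S none := by
    let tt : List (V × Option Col × V) → Fin 2 := fun l => comp (st' l)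
    refine hopt _ ⟨fun _ l => (some none, some (.d (tt l)), none),
      fun u l _ hl => ⟨Or.inr (Or.inl ⟨_, rfl⟩), hl.symm⟩, fun π hπ => (mem_W' π).2 ⟨0, ?_⟩⟩
    have inv : ∀ n, (last none (pre π n) = none ∧ st' (pre π n) ≠ none) ∨
        ∃ l t j, j ≤ 2 * N t + 1 ∧ pre π n = ext l t j := fun n => by
      induction n with
      | zero => exact Or.inl ⟨rfl, by simp [st', pre, mem]⟩
      | succ n ih =>
        obtain ⟨e1, e2, e3⟩ := hπ n
        rcases ih with ⟨a1, -⟩ | ⟨l, t, j, a1, a2⟩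
        · obtain ⟨t, ht⟩ := d3 _ e1 (e2.trans a1)
          exact Or.inr ⟨pre π n, t, 0, by omega, by rw [pre, ht]; rfl⟩
        · rw [a2, x1] at e2
          rcases a1.lt_or_eq with a1 | rfl
          · exact Or.inr ⟨l, t, j + 1, a1, by rw [pre, d1 t j a1 _ e1 e2, a2]⟩
          · have e4 := e3 (e2.trans (hend t))
            left
            rw [pre, e4]
            refine ⟨rfl, ?_⟩
            show step (.d (comp (st' (pre π n)))) (st' (pre π n)) ≠ none
            rw [a2, x4]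
            simp [step, comp]
    rintro n - ⟨b1, b2⟩
    obtain ⟨e1, e2, -⟩ := hπ n
    rcases inv n with a | ⟨l, t, j, a1, a2⟩
    · exact a.2 b2
    · rw [a2, x1] at e2
      rcases a1.lt_or_eq with a1 | rfl
      · rw [d1 t j a1 _ e1 e2] at b1
        cases b1
      · obtain ⟨j, hj⟩ := d2 _ e1 (e2.trans (hend t))
        rw [hj] at b1
        cases b1
  obtain ⟨π, hπ, hI⟩ := exists_play A S none (fun l => (last none l = none ∧
      (l = [] ∨ st' l = none)) ∨ ∃ l0 t j, j ≤ 2 * N t + 1 ∧ l = ext l0 t j ∧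
      S none (ext l0 t (2 * N t + 1)) ≠ (some none, some (.d t), none))
    (Or.inl ⟨rfl, Or.inl rfl⟩) (by
      rintro l hl (⟨a1, -⟩ | ⟨l0, t, j, a1, rfl, a2⟩)
      · have heq := hb _ _ _ _ (x2 l 0 hl a1 _ le_rfl) (x2 l 1 hl a1 _ le_rfl)
          ((x1 _ _ _).trans (hend 0)) (((x1 _ _ _).trans (hend 0)).trans ((x1 _ _ _).trans (hend 1)).symm) (by
            rw [x3 (fun x m => δ m x), x3 (fun x m => δ m x)]
            have e0 : N 0 = 2 ^ (i + p) + p := rfl
            have e1 : N 1 = 2 ^ (i + p) := rfl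
            rw [e0, e1, hper _ _ (by omega), hper _ _ (by omega)])
        obtain ⟨t, ht⟩ : ∃ t, S none (ext l t (2 * N t + 1)) ≠ (some none, some (.d t), none) := by
          by_contra hcon
          push Not at hcon
          rw [hcon 0, hcon 1] at heq
          simp at heq
        exact ⟨(none, none, nd t 0), Or.inr (Or.inr ⟨t, rfl⟩), a1.symm, fun h => (by cases h),
          Or.inr ⟨l, t, 0, by omega, rfl, ht⟩⟩
      · obtain ⟨e, e1, e2, e3⟩ := next_edge hS hl
        refine ⟨e, e1, e2, e3, ?_⟩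
        rw [x1] at e2
        rcases a1.lt_or_eq with a1 | rfl
        · exact Or.inr ⟨l0, t, j + 1, a1, by rw [d1 t j a1 _ e1 e2], a2⟩
        · obtain ⟨j, rfl⟩ := d2 _ e1 (e2.trans (hend t))
          refine Or.inl ⟨rfl, Or.inr ?_⟩
          show step (.d j) (st' (ext l0 t (2 * N t + 1))) = none
          have : t ≠ j := fun e => a2 (by rw [← e3 rfl, e])
          rw [x4]
          simp [step, this])
  obtain ⟨M, hM⟩ := (mem_W' π).1 (hwin π hπ)
  have hs : ∀ n ≥ M + 1, last none (pre π n) ≠ none := fun n hn h1 => by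
    obtain ⟨e1, e2, -⟩ := hπ n
    obtain ⟨t, ht⟩ := d3 _ e1 (e2.trans h1)
    refine hM n (by omega) ⟨by rw [ht], ?_⟩
    rcases hI n with ⟨-, a | a⟩ | ⟨l0, t, j, -, a, -⟩
    · obtain ⟨n, rfl⟩ : ∃ m, n = m + 1 := ⟨n - 1, by omega⟩
      cases a
    · exact a
    · rw [a, x1] at h1
      cases h1
  rcases hI (M + 1) with a | ⟨l0, t, j, a1, a2, -⟩
  · exact hs _ le_rfl a.1
  have h1 : ∀ s, j + s ≤ 2 * N t + 1 → last none (pre π (M + 1 + s)) = nd t (j + s) := fun s hs => by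
    induction s with
    | zero => rw [Nat.add_zero, a2, x1]; rfl
    | succ s ih =>
      obtain ⟨e1, e2, -⟩ := hπ (M + 1 + s)
      show (π (M + 1 + s)).2.2 = _
      rw [d1 t (j + s) (by omega) _ e1 (e2.trans (ih (by omega)))]
      rfl
  obtain ⟨s, hs'⟩ := Nat.exists_eq_add_of_le a1
  obtain ⟨e1, e2, -⟩ := hπ (M + 1 + s)
  rw [h1 s hs'.ge, ← hs', hend] at e2
  obtain ⟨j', hj'⟩ := d2 _ e1 e2
  refine hs (M + 1 + s + 1) (by omega) ?_
  show (π (M + 1 + s)).2.2 = _
  rw [hj']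

end Pool.Agent.H32.Mem
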