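import Mathlib

set_option autoImplicit false

namespace Pool.Agent.H32.Mix

open MeasureTheory ProbabilityTheory InformationTheory Finset Filter Topology
open scoped NNReal ENNReal

noncomputable section

def dens (f : ℝ → ℝ) : Measure ℝ := volume.withDensity fun x => ENNReal.ofReal (f x)

def lawS (μ : Measure ℝ) (n : ℕ) : Measure ℝ :=
  (Measure.pi fun _ : Fin n => μ).map fun x => (∑ i, x i) / √(n : ℝ)

def mix (s : Finset ℕ) (w m : ℕ → ℝ) (V : ℝ≥0) (x : ℝ) : ℝ :=
  ∑ k ∈ s, w k * gaussianPDFReal (m k) V x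

variable {s : Finset ℕ} {w m : ℕ → ℝ} {V : ℝ≥0}

lemma dens_mix (hw : ∀ k, 0 ≤ w k) (hV : V ≠ 0) :
    dens (mix s w m V) = ∑ k ∈ s, ENNReal.ofReal (w k) • gaussianReal (m k) V := by
  ext A hA
  rw [dens, withDensity_apply _ hA, Measure.finsetSum_apply]
  have e : ∀ x, ENNReal.ofReal (mix s w m V x)
      = ∑ k ∈ s, ENNReal.ofReal (w k) * gaussianPDF (m k) V x := by
    intro x
    rw [mix, ENNReal.ofReal_sum_of_nonneg fun k _ => mul_nonneg (hw k) (gaussianPDFReal_nonneg _ _ _)]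
    refine sum_congr rfl fun k _ => ?_
    rw [ENNReal.ofReal_mul (hw k)]; rfl
  simp only [e]
  rw [lintegral_finsetSum _ fun k _ => by fun_prop]
  refine sum_congr rfl fun k _ => ?_
  rw [lintegral_const_mul _ (by fun_prop), Measure.smul_apply, gaussianReal_apply _ hV, smul_eq_mul]

lemma integrable_mix {E : Type} [NormedAddCommGroup E] (hw : ∀ k, 0 ≤ w k) (hV : V ≠ 0) {g : ℝ → E}
    (hg : ∀ k, Integrable g (gaussianReal (m k) V)) : Integrable g (dens (mix s w m V)) := by
  rw [dens_mix hw hV]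
  exact integrable_finsetSum_measure.2 fun k _ => (hg k).smul_measure ENNReal.ofReal_ne_top

lemma integral_mix {E : Type} [NormedAddCommGroup E] [NormedSpace ℝ E] (hw : ∀ k, 0 ≤ w k)
    (hV : V ≠ 0) {g : ℝ → E} (hg : ∀ k, Integrable g (gaussianReal (m k) V)) :
    ∫ x, g x ∂dens (mix s w m V) = ∑ k ∈ s, w k • ∫ x, g x ∂gaussianReal (m k) V := by
  rw [dens_mix hw hV, integral_finsetSum_measure fun k _ =>
    (hg k).smul_measure ENNReal.ofReal_ne_top]
  refine sum_congr rfl fun k _ => ?_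
  rw [integral_smul_measure, ENNReal.toReal_ofReal (hw k)]

lemma prob_mix (hw : ∀ k, 0 ≤ w k) (hV : V ≠ 0) (h1 : ∑ k ∈ s, w k = 1) :
    IsProbabilityMeasure (dens (mix s w m V)) := by
  constructor
  rw [dens_mix hw hV, Measure.finsetSum_apply]
  simp only [Measure.smul_apply, measure_univ, smul_eq_mul, mul_one]
  rw [← ENNReal.ofReal_sum_of_nonneg fun k _ => hw k, h1, ENNReal.ofReal_one]

lemma char_mix (hw : ∀ k, 0 ≤ w k) (hV : V ≠ 0) (t : ℝ) :
    charFun (dens (mix s w m V)) t =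
      ∑ k ∈ s, (w k : ℂ) * Complex.exp (t * m k * Complex.I - V * t ^ 2 / 2) := by
  rw [charFun_apply_real, integral_mix hw hV]
  · refine sum_congr rfl fun k _ => ?_
    rw [← charFun_apply_real, charFun_gaussianReal, Complex.real_smul]
  · intro k
    refine Integrable.of_bound (by fun_prop) 1 (ae_of_all _ fun x => ?_)
    rw [show (t : ℂ) * x * Complex.I = ((t * x : ℝ) : ℂ) * Complex.I by push_cast; ring,
      Complex.norm_exp_ofReal_mul_I]

lemma char_lawS (μ : Measure ℝ) [IsProbabilityMeasure μ] (n : ℕ) (t : ℝ) :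
    charFun (lawS μ n) t = charFun μ (t / √(n : ℝ)) ^ n := by
  have e : lawS μ n = ((Measure.pi fun _ : Fin n => μ).map fun x => ∑ i, x i).map
      fun y => (√(n : ℝ))⁻¹ * y := by
    rw [Measure.map_map (by fun_prop) (by fun_prop), lawS]
    congr 1
    funext x
    simp [div_eq_inv_mul]
  rw [e, charFun_map_mul, charFun_map_sum_pi_eq_prod]
  simp [div_eq_inv_mul]

def bw (ε : ℝ) (N k : ℕ) : ℝ := (N.choose k : ℝ) * ε ^ k * (1 - ε) ^ (N - k)

def bm (ε R : ℝ) (N k : ℕ) : ℝ := R * (k - N * ε) / √(N : ℝ)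

def bf (ε R : ℝ) (V : ℝ≥0) (N : ℕ) : ℝ → ℝ := mix (range (N + 1)) (bw ε N) (bm ε R N) V

variable {ε R : ℝ}

lemma bw_nonneg (h0 : 0 ≤ ε) (h1 : ε ≤ 1) (N k : ℕ) : 0 ≤ bw ε N k := by
  unfold bw
  have : 0 ≤ 1 - ε := by linarith
  positivity

lemma bw_sum (N : ℕ) : ∑ k ∈ range (N + 1), bw ε N k = 1 := by
  have := add_pow ε (1 - ε) N
  rw [show ε + (1 - ε) = 1 by ring, one_pow] at this
  rw [this]
  exact sum_congr rfl fun k _ => by unfold bw; ring

lemma char_bf (h0 : 0 ≤ ε) (h1 : ε ≤ 1) (hV : V ≠ 0) (N : ℕ) (t : ℝ) :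
    charFun (dens (bf ε R V N)) t =
      Complex.exp (-(N * ((t / √(N : ℝ) : ℝ) * R * ε * Complex.I)) - V * t ^ 2 / 2) *
        (ε * Complex.exp ((t / √(N : ℝ) : ℝ) * R * Complex.I) + (1 - ε)) ^ N := by
  rw [bf, char_mix (bw_nonneg h0 h1 N) hV, add_pow, mul_sum]
  refine sum_congr rfl fun k _ => ?_
  rw [mul_pow, ← Complex.exp_nat_mul]
  have e : (t : ℂ) * (bm ε R N k : ℝ) * Complex.I - V * t ^ 2 / 2 =
      (-(N * ((t / √(N : ℝ) : ℝ) * R * ε * Complex.I)) - V * t ^ 2 / 2) +
        k * ((t / √(N : ℝ) : ℝ) * R * Complex.I) := by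
    unfold bm
    push_cast
    ring
  rw [e, Complex.exp_add]
  unfold bw
  push_cast
  ring

lemma law_bf (h0 : 0 ≤ ε) (h1 : ε ≤ 1) (hV : V ≠ 0) (N : ℕ) (hN : 1 ≤ N) :
    lawS (dens (bf ε R V 1)) N = dens (bf ε R V N) := by
  have i1 : ∀ M, IsProbabilityMeasure (dens (bf ε R V M)) := fun M =>
    prob_mix (bw_nonneg h0 h1 M) hV (bw_sum M)
  have i2 : IsProbabilityMeasure (lawS (dens (bf ε R V 1)) N) :=
    Measure.isProbabilityMeasure_map (by fun_prop)
  apply Measure.ext_of_charFun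
  funext t
  rw [char_lawS, char_bf h0 h1 hV, char_bf h0 h1 hV, mul_pow, ← Complex.exp_nat_mul]
  simp only [Nat.cast_one, Real.sqrt_one, div_one, pow_one, one_mul]
  congr 2
  have hN' : (0 : ℝ) < N := by exact_mod_cast hN
  have e : (t / √(N : ℝ)) ^ 2 * N = t ^ 2 := by
    rw [div_pow, Real.sq_sqrt hN'.le]; field_simp
  have e2 : (((t / √(N : ℝ) : ℝ) : ℂ)) ^ 2 * N = (t : ℂ) ^ 2 := by exact_mod_cast e
  rw [← e2]
  ring

lemma int_id (a : ℝ) (V : ℝ≥0) : Integrable (fun x : ℝ => x) (gaussianReal a V) :=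
  (memLp_id_gaussianReal 1).integrable le_rfl

lemma int_sq (a : ℝ) (V : ℝ≥0) : Integrable (fun x : ℝ => x ^ 2) (gaussianReal a V) :=
  (memLp_id_gaussianReal 2).integrable_sq

lemma integral_sq (a : ℝ) (V : ℝ≥0) : ∫ x, x ^ 2 ∂gaussianReal a V = V + a ^ 2 := by
  have h := variance_eq_sub (μ := gaussianReal a V) (X := id) (memLp_id_gaussianReal 2)
  rw [variance_id_gaussianReal] at h
  simp only [Pi.pow_apply, id, integral_id_gaussianReal] at h
  linarith

lemma int_quad (a : ℝ) (V : ℝ≥0) (p q r : ℝ) :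
    Integrable (fun x : ℝ => p + q * x + r * x ^ 2) (gaussianReal a V) :=
  ((integrable_const p).add ((int_id a V).const_mul q)).add ((int_sq a V).const_mul r)

lemma integral_quad (a : ℝ) (V : ℝ≥0) (p q r : ℝ) :
    ∫ x, (p + q * x + r * x ^ 2) ∂gaussianReal a V = p + q * a + r * (V + a ^ 2) := by
  rw [integral_add ((integrable_const p).fun_add ((int_id a V).const_mul q)) ((int_sq a V).const_mul r),
    integral_add (integrable_const p) ((int_id a V).const_mul q), integral_const_mul,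
    integral_const_mul, integral_sq, integral_id_gaussianReal]
  simp

lemma int_quad' (a : ℝ) (hV : V ≠ 0) (p q r : ℝ) :
    Integrable (fun x : ℝ => gaussianPDFReal a V x * (p + q * x + r * x ^ 2)) := by
  have h := int_quad a V p q r
  rw [gaussianReal_of_var_ne_zero _ hV, integrable_withDensity_iff_integrable_smul'
    (measurable_gaussianPDF _ _) (ae_of_all _ fun _ => gaussianPDF_lt_top)] at h
  simpa using h

lemma integral_quad' (a : ℝ) (hV : V ≠ 0) (p q r : ℝ) :
    ∫ x, gaussianPDFReal a V x * (p + q * x + r * x ^ 2) = p + q * a + r * (V + a ^ 2) := by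
  rw [← integral_quad, integral_gaussianReal_eq_integral_smul hV]
  rfl

lemma pow4_le (z : ℝ) : z ^ 4 ≤ 24 * (Real.exp z + Real.exp (-z)) := by
  have h : ∀ y : ℝ, 0 ≤ y → y ^ 4 ≤ 24 * Real.exp y := fun y hy => by
    have := Real.pow_div_factorial_le_exp y hy 4
    norm_num [Nat.factorial] at this
    linarith
  rcases le_total 0 z with hz | hz
  · linarith [h z hz, Real.exp_pos (-z)]
  · have := h (-z) (by linarith)
    rw [show (-z) ^ 4 = z ^ 4 by ring] at this
    linarith [Real.exp_pos z]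

lemma int_four (a : ℝ) (V : ℝ≥0) : Integrable (fun x : ℝ => x ^ 4) (gaussianReal a V) := by
  have h := (memLp_id_gaussianReal' (μ := a) (v := V) 4 (by simp)).integrable_norm_pow' (p := 4)
  refine h.congr (ae_of_all _ fun x => ?_)
  simp only [id, Real.norm_eq_abs]
  rw [show |x| ^ 4 = (|x| ^ 2) ^ 2 by ring, sq_abs]; ring

lemma integral_four (a : ℝ) (hV : (V : ℝ) ≤ 1) : ∫ x, x ^ 4 ∂gaussianReal a V ≤ 8 * a ^ 4 + 800 := by
  have i1 := (integrable_exp_mul_gaussianReal (μ := a) (v := V) 1).const_mul (192 * Real.exp (-a))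
  have i2 := (integrable_exp_mul_gaussianReal (μ := a) (v := V) (-1)).const_mul (192 * Real.exp a)
  have h := integral_mono (int_four a V) (((integrable_const (8 * a ^ 4)).add i1).add i2) fun x => by
    have h1 := pow4_le (x - a)
    have e1 : Real.exp (x - a) = Real.exp (-a) * Real.exp (1 * x) := by
      rw [← Real.exp_add]; congr 1; ring
    have e2 : Real.exp (-(x - a)) = Real.exp a * Real.exp (-1 * x) := by
      rw [← Real.exp_add]; congr 1; ring
    rw [e1, e2] at h1
    have h2 : x ^ 4 ≤ 8 * a ^ 4 + 8 * (x - a) ^ 4 := by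
      nlinarith [sq_nonneg (a ^ 2 - (x - a) ^ 2), sq_nonneg (a - (x - a)), sq_nonneg (a + (x - a)),
        mul_nonneg (sq_nonneg (a - (x - a))) (sq_nonneg x),
        mul_nonneg (sq_nonneg (a - (x - a))) (add_nonneg (sq_nonneg a) (sq_nonneg (x - a)))]
    simp only [Pi.add_apply]
    linarith
  refine h.trans ?_
  simp only [Pi.add_apply]
  rw [integral_add ((integrable_const (8 * a ^ 4)).fun_add i1) i2, integral_add (integrable_const _) i1,
    integral_const_mul (192 * Real.exp (-a)), integral_const_mul (192 * Real.exp a)]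
  have m1 := congrFun (mgf_fun_id_gaussianReal (μ := a) (v := V)) 1
  have m2 := congrFun (mgf_fun_id_gaussianReal (μ := a) (v := V)) (-1)
  simp only [mgf] at m1 m2
  rw [m1, m2]
  have e1 : Real.exp (-a) * Real.exp (a * 1 + V * 1 ^ 2 / 2) = Real.exp (V / 2) := by
    rw [← Real.exp_add]; congr 1; ring
  have e2 : Real.exp a * Real.exp (a * -1 + V * (-1) ^ 2 / 2) = Real.exp (V / 2) := by
    rw [← Real.exp_add]; congr 1; ring
  have e3 : Real.exp (V / 2) ≤ 2 := by
    have h1 : Real.exp (V / 2) * Real.exp (V / 2) ≤ Real.exp 1 := by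
      rw [← Real.exp_add]; exact Real.exp_le_exp.2 (by linarith)
    nlinarith [Real.exp_one_lt_d9, Real.exp_pos ((V : ℝ) / 2)]
  simp only [integral_const, probReal_univ, smul_eq_mul, one_mul]
  rw [mul_assoc, mul_assoc, e1, e2]
  linarith

lemma ofReal_int_le {u : ℝ → ℝ} (hu : Integrable u) :
    ENNReal.ofReal (∫ x, u x) ≤ ∫⁻ x, ENNReal.ofReal (u x) := by
  rw [integral_eq_lintegral_pos_part_sub_lintegral_neg_part hu]
  refine le_trans (ENNReal.ofReal_le_ofReal (sub_le_self _ ENNReal.toReal_nonneg)) ?_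
  exact ENNReal.ofReal_toReal_le

lemma kl_eq {f : ℝ → ℝ} (hf : Measurable f) (h0 : ∀ x, 0 ≤ f x) [IsFiniteMeasure (dens f)] :
    klDiv (dens f) (gaussianReal 0 1) = ∫⁻ x, ENNReal.ofReal
      (gaussianPDFReal 0 1 x * klFun (f x / gaussianPDFReal 0 1 x)) := by
  have hp : ∀ x, 0 < gaussianPDFReal 0 1 x := fun x => gaussianPDFReal_pos 0 1 x one_ne_zero
  have hm : Measurable fun x => ENNReal.ofReal (f x / gaussianPDFReal 0 1 x) := by fun_prop
  have e : dens f = (gaussianReal 0 1).withDensity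
      fun x => ENNReal.ofReal (f x / gaussianPDFReal 0 1 x) := by
    rw [gaussianReal_of_var_ne_zero _ one_ne_zero, ← withDensity_mul _ (by fun_prop) hm, dens]
    congr 1
    funext x
    simp only [Pi.mul_apply, gaussianPDF]
    rw [← ENNReal.ofReal_mul (hp x).le, mul_div_cancel₀ _ (hp x).ne']
  have hac : dens f ≪ gaussianReal 0 1 := by rw [e]; exact withDensity_absolutelyContinuous _ _
  rw [klDiv_eq_lintegral_klFun_of_ac hac]
  have h2 : (dens f).rnDeriv (gaussianReal 0 1) =ᵐ[gaussianReal 0 1]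
      fun x => ENNReal.ofReal (f x / gaussianPDFReal 0 1 x) := by
    rw [e]; exact Measure.rnDeriv_withDensity _ hm
  rw [lintegral_congr_ae (g := fun x => ENNReal.ofReal (klFun (f x / gaussianPDFReal 0 1 x)))
    (h2.mono fun x hx => by
      simp only [hx]; rw [ENNReal.toReal_ofReal (div_nonneg (h0 x) (hp x).le)])]
  rw [gaussianReal_of_var_ne_zero _ one_ne_zero, lintegral_withDensity_eq_lintegral_mul _
    (by fun_prop) (by fun_prop)]
  refine lintegral_congr fun x => ?_
  simp only [Pi.mul_apply, gaussianPDF]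
  rw [← ENNReal.ofReal_mul (hp x).le]

lemma mix_meas : Measurable (mix s w m V) := by unfold mix; fun_prop

lemma mix_int : Integrable (mix s w m V) :=
  integrable_finsetSum _ fun _ _ => (integrable_gaussianPDFReal _ _).const_mul _

lemma hd_pdf (a : ℝ) (hV : V ≠ 0) (x : ℝ) :
    HasDerivAt (gaussianPDFReal a V) (gaussianPDFReal a V x * (-(x - a) / V)) x := by
  have hV' : (V : ℝ) ≠ 0 := by exact_mod_cast hV
  rw [gaussianPDFReal_def]
  have h1 : HasDerivAt (fun x : ℝ => -(x - a) ^ 2 / (2 * (V : ℝ))) (-(x - a) / V) x := by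
    have := ((((hasDerivAt_id x).sub_const a).pow 2).neg).div_const (2 * (V : ℝ))
    refine this.congr_deriv ?_
    simp only [id]; field_simp; ring
  refine ((h1.exp).const_mul (√(2 * Real.pi * V))⁻¹).congr_deriv ?_
  ring

def mixd (s : Finset ℕ) (w m : ℕ → ℝ) (V : ℝ≥0) (x : ℝ) : ℝ :=
  ∑ k ∈ s, w k * (gaussianPDFReal (m k) V x * (-(x - m k) / V))

lemma hd_mix (hV : V ≠ 0) (x : ℝ) : HasDerivAt (mix s w m V) (mixd s w m V x) x :=
  HasDerivAt.fun_sum fun k _ => (hd_pdf (m k) hV x).const_mul _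

lemma mixd_int (hV : V ≠ 0) : Integrable (mixd s w m V) := by
  refine integrable_finsetSum _ fun k _ => Integrable.const_mul ?_ _
  refine (int_quad' (m k) hV (m k / V) (-1 / V) 0).congr (ae_of_all _ fun x => ?_)
  simp only; ring

lemma mix_smooth : ContDiff ℝ 1 (mix s w m V) := by
  unfold mix
  simp only [gaussianPDFReal_def]
  fun_prop

lemma mix_tail (hV : V ≠ 0) (τ : ℝ) : ∫ x in Set.Ioi τ, mixd s w m V x = -mix s w m V τ := by
  have h := integral_Ioi_of_hasDerivAt_of_tendsto' (a := τ) (fun x _ => hd_mix (s := s) (w := w) (m := m) hV x)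
    (mixd_int hV).integrableOn (tendsto_zero_of_hasDerivAt_of_integrableOn_Ioi (a := τ)
      (fun x _ => hd_mix hV x) (mixd_int hV).integrableOn mix_int.integrableOn)
  simpa using h

end

end Pool.Agent.H32.Mix
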