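import Pool.Agent.H32.Mix

set_option autoImplicit false

namespace Pool.Agent.H32.Mix

open MeasureTheory ProbabilityTheory InformationTheory Finset Filter Topology
open scoped NNReal ENNReal

noncomputable section

def fisher (f : ℝ → ℝ) : ℝ≥0∞ := ∫⁻ x, ENNReal.ofReal (f x * (deriv f x / f x + x) ^ 2)

variable {s : Finset ℕ} {w m : ℕ → ℝ} {V : ℝ≥0}

lemma mix_nonneg (hw : ∀ k, 0 ≤ w k) (x : ℝ) : 0 ≤ mix s w m V x :=
  sum_nonneg fun k _ => mul_nonneg (hw k) (gaussianPDFReal_nonneg _ _ _)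

lemma mix_pos (hw : ∀ k, 0 ≤ w k) (hV : V ≠ 0) (h1 : ∑ k ∈ s, w k = 1) (x : ℝ) :
    0 < mix s w m V x := by
  have : ∃ k ∈ s, 0 < w k := by
    by_contra hc
    push Not at hc
    have := sum_nonpos hc
    linarith
  obtain ⟨k, hk, h⟩ := this
  exact sum_pos' (fun k _ => mul_nonneg (hw k) (gaussianPDFReal_nonneg _ _ _))
    ⟨k, hk, mul_pos h (gaussianPDFReal_pos _ _ _ hV)⟩

lemma log_ratio (a : ℝ) (hV : V ≠ 0) (x : ℝ) :
    Real.log (gaussianPDFReal a V x / gaussianPDFReal 0 1 x) =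
      (-(1 / 2) * Real.log V - a ^ 2 / (2 * V)) + a / V * x + (1 / 2 - 1 / (2 * V)) * x ^ 2 := by
  have hV' : (0 : ℝ) < V := by positivity
  have hp := Real.pi_pos
  rw [Real.log_div (gaussianPDFReal_pos _ _ _ hV).ne' (gaussianPDFReal_pos _ _ _ one_ne_zero).ne']
  simp only [gaussianPDFReal_def]
  rw [Real.log_mul (by positivity) (by positivity), Real.log_mul (by positivity) (by positivity),
    Real.log_exp, Real.log_exp, Real.log_inv, Real.log_inv, Real.log_sqrt (by positivity),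
    Real.log_sqrt (by positivity), Real.log_mul (by positivity) hV'.ne']
  simp only [NNReal.coe_one, mul_one, sub_zero]
  field_simp
  ring

lemma kl_up (hw : ∀ k, 0 ≤ w k) (hV : V ≠ 0) (h1 : ∑ k ∈ s, w k = 1) :
    klDiv (dens (mix s w m V)) (gaussianReal 0 1) ≤
      ENNReal.ofReal (∑ k ∈ s, w k * (-(1 / 2) * Real.log V + (V + m k ^ 2 - 1) / 2)) := by
  have := prob_mix (m := m) hw hV h1
  have hV' : (0 : ℝ) < V := by positivity
  have hp : ∀ x, 0 < gaussianPDFReal 0 1 x := fun x => gaussianPDFReal_pos 0 1 x one_ne_zero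
  rw [kl_eq mix_meas (mix_nonneg hw)]
  set u : ℕ → ℝ → ℝ := fun k x => gaussianPDFReal (m k) V x *
    ((-(1 / 2) * Real.log V - m k ^ 2 / (2 * V)) + m k / V * x + (1 / 2 - 1 / (2 * V)) * x ^ 2)
      + gaussianPDFReal 0 1 x - gaussianPDFReal (m k) V x with hu
  have hu1 : ∀ k x, u k x = gaussianPDFReal 0 1 x *
      klFun (gaussianPDFReal (m k) V x / gaussianPDFReal 0 1 x) := by
    intro k x
    simp only [hu]
    rw [klFun_apply, log_ratio _ hV]
    have := (hp x).ne'
    field_simp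
  have hu2 : ∀ k, Integrable (u k) := fun k =>
    ((int_quad' _ hV _ _ _).add (integrable_gaussianPDFReal _ _)).sub (integrable_gaussianPDFReal _ _)
  have hu3 : ∀ k, ∫ x, u k x = -(1 / 2) * Real.log V + (V + m k ^ 2 - 1) / 2 := by
    intro k
    simp only [hu]
    rw [integral_sub ((int_quad' _ hV _ _ _).fun_add (integrable_gaussianPDFReal _ _))
      (integrable_gaussianPDFReal _ _), integral_add (int_quad' _ hV _ _ _)
      (integrable_gaussianPDFReal _ _), integral_quad' _ hV, integral_gaussianPDFReal_eq_one _ hV,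
      integral_gaussianPDFReal_eq_one _ one_ne_zero]
    field_simp
    ring
  have hu0 : ∀ k x, 0 ≤ u k x := fun k x => by
    rw [hu1]
    exact mul_nonneg (hp x).le (klFun_nonneg (div_nonneg (gaussianPDFReal_nonneg _ _ _) (hp x).le))
  simp only [← hu3, ← integral_const_mul]
  rw [← integral_finsetSum _ fun k _ => (hu2 k).const_mul _, ofReal_integral_eq_lintegral_ofReal
    (integrable_finsetSum _ fun k _ => (hu2 k).const_mul _)
    (ae_of_all _ fun x => sum_nonneg fun k _ => mul_nonneg (hw k) (hu0 k x))]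
  refine lintegral_mono fun x => ENNReal.ofReal_le_ofReal ?_
  have h2 := convexOn_klFun.map_sum_le (t := s) (w := w)
    (p := fun k => gaussianPDFReal (m k) V x / gaussianPDFReal 0 1 x) (fun k _ => hw k) h1
    fun k _ => div_nonneg (gaussianPDFReal_nonneg _ _ _) (hp x).le
  simp only [smul_eq_mul] at h2
  have e : mix s w m V x / gaussianPDFReal 0 1 x =
      ∑ k ∈ s, w k * (gaussianPDFReal (m k) V x / gaussianPDFReal 0 1 x) := by
    rw [mix, sum_div]
    exact sum_congr rfl fun k _ => by ring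
  rw [e]
  refine (mul_le_mul_of_nonneg_left h2 (hp x).le).trans (le_of_eq ?_)
  rw [mul_sum]
  exact sum_congr rfl fun k _ => by rw [hu1]; ring

lemma deriv_mix (hV : V ≠ 0) : deriv (mix s w m V) = mixd s w m V :=
  funext fun x => (hd_mix hV x).deriv

lemma fisher_up (hw : ∀ k, 0 ≤ w k) (hV : V ≠ 0) (h1 : ∑ k ∈ s, w k = 1) :
    fisher (mix s w m V) ≤ ENNReal.ofReal (∑ k ∈ s, w k * (m k ^ 2 + (1 - V) ^ 2 / V)) := by
  have hV' : (0 : ℝ) < V := by positivity
  set u : ℕ → ℝ → ℝ := fun k x => gaussianPDFReal (m k) V x *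
    (m k ^ 2 / V ^ 2 + 2 * (m k / V) * (1 - 1 / V) * x + (1 - 1 / V) ^ 2 * x ^ 2) with hu
  have hu1 : ∀ k x, u k x = gaussianPDFReal (m k) V x * (x - (x - m k) / V) ^ 2 := by
    intro k x
    simp only [hu]
    field_simp
    ring
  have hu2 : ∀ k, Integrable (u k) := fun k => int_quad' _ hV _ _ _
  have hu3 : ∀ k, ∫ x, u k x = m k ^ 2 + (1 - V) ^ 2 / V := by
    intro k
    simp only [hu]
    rw [integral_quad' _ hV]
    field_simp
    ring
  have hu0 : ∀ k x, 0 ≤ u k x := fun k x => by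
    rw [hu1]
    exact mul_nonneg (gaussianPDFReal_nonneg _ _ _) (sq_nonneg _)
  simp only [← hu3, ← integral_const_mul]
  rw [← integral_finsetSum _ fun k _ => (hu2 k).const_mul _, ofReal_integral_eq_lintegral_ofReal
    (integrable_finsetSum _ fun k _ => (hu2 k).const_mul _)
    (ae_of_all _ fun x => sum_nonneg fun k _ => mul_nonneg (hw k) (hu0 k x))]
  refine lintegral_mono fun x => ENNReal.ofReal_le_ofReal ?_
  have hp := mix_pos (m := m) hw hV h1 x
  have e : mix s w m V x * (deriv (mix s w m V) x / mix s w m V x + x) ^ 2 =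
      (∑ k ∈ s, w k * gaussianPDFReal (m k) V x * (x - (x - m k) / V)) ^ 2 / mix s w m V x := by
    have e2 : ∑ k ∈ s, w k * gaussianPDFReal (m k) V x * (x - (x - m k) / V) =
        mixd s w m V x + x * mix s w m V x := by
      rw [mixd, mix, mul_sum, ← sum_add_distrib]
      exact sum_congr rfl fun k _ => by ring
    rw [e2, deriv_mix hV]
    field_simp
  rw [e, div_le_iff₀' hp]
  refine Finset.sum_sq_le_sum_mul_sum_of_sq_le_mul s
    (fun k _ => mul_nonneg (hw k) (gaussianPDFReal_nonneg _ _ _))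
    (fun k _ => mul_nonneg (hw k) (hu0 k x)) fun k _ => le_of_eq ?_
  rw [hu1]; ring

lemma pdf_set (a : ℝ) (hV : V ≠ 0) (A : Set ℝ) :
    ∫ x in A, gaussianPDFReal a V x = (gaussianReal a V).real A := by
  rw [Measure.real, gaussianReal_apply_eq_integral _ hV, ENNReal.toReal_ofReal
    (integral_nonneg fun x => gaussianPDFReal_nonneg _ _ _)]

lemma half_le (a τ : ℝ) (hV : V ≠ 0) (hV1 : (V : ℝ) ≤ 1) (h : τ + 2 ≤ a) :
    1 / 2 ≤ ∫ x in Set.Ioi τ, gaussianPDFReal a V x := by
  rw [pdf_set a hV]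
  have h1 := measure_le_le_exp_mul_mgf (μ := gaussianReal a V) (X := fun x => x) (t := -1) τ
    (by norm_num) (integrable_exp_mul_gaussianReal _)
  rw [mgf_fun_id_gaussianReal, ← Real.exp_add] at h1
  have h2 : Real.exp (- -1 * τ + (a * -1 + V * (-1) ^ 2 / 2)) ≤ Real.exp (-1) :=
    Real.exp_le_exp.2 (by linarith)
  have h3 : Real.exp (-1) ≤ 1 / 2 := by
    rw [Real.exp_neg, ← one_div]
    exact one_div_le_one_div_of_le (by norm_num) (by linarith [Real.add_one_le_exp 1])
  have h4 := probReal_compl_eq_one_sub (μ := gaussianReal a V) (s := Set.Ioi τ) measurableSet_Ioi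
  have e : (Set.Ioi τ)ᶜ = {ω | ω ≤ τ} := by ext; simp
  rw [e] at h4
  linarith

lemma gauss_tail {τ : ℝ} (h : 0 ≤ τ) :
    ∫ x in Set.Ioi τ, gaussianPDFReal 0 1 x ≤ Real.exp (-(τ ^ 2 / 2)) := by
  rw [pdf_set 0 one_ne_zero]
  have h1 := measure_ge_le_exp_mul_mgf (μ := gaussianReal 0 1) (X := fun x => x) (t := τ) τ
    h (integrable_exp_mul_gaussianReal _)
  rw [mgf_fun_id_gaussianReal, ← Real.exp_add] at h1
  have hs : Set.Ioi τ ⊆ {ω | τ ≤ ω} := fun x (hx : τ < x) => (hx.le : τ ≤ x)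
  refine le_trans (measureReal_mono hs) (h1.trans (le_of_eq ?_))
  congr 1
  simp only [NNReal.coe_one]
  ring

lemma mass_low (hw : ∀ k, 0 ≤ w k) (hV : V ≠ 0) (hV1 : (V : ℝ) ≤ 1) {τ : ℝ} (h1 : 1 ∈ s)
    (h : τ + 2 ≤ m 1) : w 1 / 2 ≤ ∫ x in Set.Ioi τ, mix s w m V x := by
  have h2 := mul_le_mul_of_nonneg_left (half_le (m 1) τ hV hV1 h) (hw 1)
  rw [← integral_const_mul] at h2
  refine le_trans (by linarith) (h2.trans ?_)
  refine integral_mono ((integrable_gaussianPDFReal _ _).const_mul _).integrableOn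
    mix_int.integrableOn fun x => ?_
  exact single_le_sum (f := fun k => w k * gaussianPDFReal (m k) V x)
    (fun k _ => mul_nonneg (hw k) (gaussianPDFReal_nonneg _ _ _)) h1

lemma young (a : ℝ) {y : ℝ} (hy : 0 ≤ y) : a * y - Real.exp a ≤ klFun y := by
  rw [klFun_apply]
  rcases hy.eq_or_lt with rfl | hy
  · simp; linarith [Real.exp_pos a]
  · have h := Real.add_one_le_exp (a - Real.log y)
    rw [Real.exp_sub, Real.exp_log hy, le_div_iff₀ hy] at h
    nlinarith

lemma kl_low (hw : ∀ k, 0 ≤ w k) (hV : V ≠ 0) (h1 : ∑ k ∈ s, w k = 1) (a τ : ℝ) :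
    ENNReal.ofReal (a * (∫ x in Set.Ioi τ, mix s w m V x) -
      Real.exp a * ∫ x in Set.Ioi τ, gaussianPDFReal 0 1 x) ≤
      klDiv (dens (mix s w m V)) (gaussianReal 0 1) := by
  have := prob_mix (m := m) hw hV h1
  have hp : ∀ x, 0 < gaussianPDFReal 0 1 x := fun x => gaussianPDFReal_pos 0 1 x one_ne_zero
  have i1 : Integrable fun x => a * mix s w m V x := mix_int.const_mul _
  have i2 : Integrable fun x => Real.exp a * gaussianPDFReal 0 1 x :=
    (integrable_gaussianPDFReal _ _).const_mul _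
  rw [kl_eq mix_meas (mix_nonneg hw), ← integral_const_mul, ← integral_const_mul,
    ← integral_sub i1.integrableOn i2.integrableOn, ← integral_indicator measurableSet_Ioi]
  refine (ofReal_int_le ((i1.sub i2).indicator measurableSet_Ioi)).trans
    (lintegral_mono fun x => ENNReal.ofReal_le_ofReal ?_)
  have h2 : 0 ≤ mix s w m V x / gaussianPDFReal 0 1 x := div_nonneg (mix_nonneg hw x) (hp x).le
  by_cases hx : x ∈ Set.Ioi τ
  · rw [Set.indicator_of_mem hx]
    refine le_trans (le_of_eq ?_) (mul_le_mul_of_nonneg_left (young a h2) (hp x).le)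
    have := (hp x).ne'
    simp only [Pi.sub_apply]
    field_simp
  · rw [Set.indicator_of_notMem hx]
    exact mul_nonneg (hp x).le (klFun_nonneg h2)

lemma fisher_low (hw : ∀ k, 0 ≤ w k) (hV : V ≠ 0) (h1 : ∑ k ∈ s, w k = 1) {τ : ℝ} (hτ : 0 ≤ τ) :
    ENNReal.ofReal (τ ^ 2 * (∫ x in Set.Ioi τ, mix s w m V x) - 2 * τ * mix s w m V τ) ≤
      fisher (mix s w m V) := by
  have i1 : Integrable fun x => τ ^ 2 * mix s w m V x := mix_int.const_mul _
  have i2 : Integrable fun x => 2 * τ * mixd s w m V x := (mixd_int hV).const_mul _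
  have e : τ ^ 2 * (∫ x in Set.Ioi τ, mix s w m V x) - 2 * τ * mix s w m V τ =
      ∫ x in Set.Ioi τ, (τ ^ 2 * mix s w m V x + 2 * τ * mixd s w m V x) := by
    rw [integral_add i1.integrableOn i2.integrableOn, integral_const_mul, integral_const_mul,
      mix_tail hV]
    ring
  rw [e, ← integral_indicator measurableSet_Ioi]
  refine (ofReal_int_le ((i1.add i2).indicator measurableSet_Ioi)).trans
    (lintegral_mono fun x => ENNReal.ofReal_le_ofReal ?_)
  have hp := mix_pos (m := m) hw hV h1 x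
  by_cases hx : x ∈ Set.Ioi τ
  · rw [Set.indicator_of_mem hx, deriv_mix hV]
    have hx' : τ < x := hx
    simp only [Pi.add_apply]
    set f := mix s w m V x
    set d := mixd s w m V x
    have e2 : d = f * (d / f) := by field_simp
    set ρ := d / f
    rw [e2]
    have : τ ^ 2 + 2 * τ * ρ ≤ (ρ + x) ^ 2 := by nlinarith [sq_nonneg (ρ + x - τ)]
    nlinarith
  · rw [Set.indicator_of_notMem hx]
    positivity

lemma mix_le (hw : ∀ k, 0 ≤ w k) (h1 : ∑ k ∈ s, w k = 1) (hV0 : (1 / 2 : ℝ) ≤ V) (hV1 : (V : ℝ) ≤ 1)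
    {τ c : ℝ} (h : ∀ k, c ≤ (τ - m k) ^ 2) (hc : 0 ≤ c) : mix s w m V τ ≤ Real.exp (-(c / 2)) := by
  have h2 : ∀ k, gaussianPDFReal (m k) V τ ≤ Real.exp (-(c / 2)) := by
    intro k
    rw [gaussianPDFReal_def]
    have a1 : 1 ≤ √(2 * Real.pi * V) := Real.one_le_sqrt.2 (by nlinarith [Real.pi_gt_three])
    have a2 : (√(2 * Real.pi * V))⁻¹ ≤ 1 := inv_le_one_of_one_le₀ a1
    have a3 : Real.exp (-(τ - m k) ^ 2 / (2 * V)) ≤ Real.exp (-(c / 2)) := by
      refine Real.exp_le_exp.2 ?_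
      rw [div_le_iff₀ (by linarith)]
      nlinarith [h k, hc]
    exact (mul_le_of_le_one_left (Real.exp_pos _).le a2).trans a3
  calc mix s w m V τ ≤ ∑ k ∈ s, w k * Real.exp (-(c / 2)) :=
        sum_le_sum fun k _ => mul_le_mul_of_nonneg_left (h2 k) (hw k)
    _ = _ := by rw [← sum_mul, h1, one_mul]

end

end Pool.Agent.H32.Mix
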