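import Pool.Agent.H32.Mix2

set_option autoImplicit false

namespace Pool.Agent.H32.Mix

open MeasureTheory ProbabilityTheory InformationTheory Finset Filter Topology
open scoped NNReal ENNReal

noncomputable section

structure Par (n : ℕ) (τ R ε : ℝ) (V : ℝ≥0) : Prop where
  n1 : 1 ≤ n
  hτ : τ = 40000 * n
  hR : R = 2 * τ * √(n : ℝ)
  hε : ε = 1 / R ^ 4
  hV : (V : ℝ) = 1 - ε * (1 - ε) * R ^ 2

variable {n : ℕ} {τ R ε : ℝ} {V : ℝ≥0}

lemma Par.n1' (h : Par n τ R ε V) : (1 : ℝ) ≤ n := by exact_mod_cast h.n1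

lemma Par.τ1 (h : Par n τ R ε V) : 40000 ≤ τ := by have := h.n1'; have := h.hτ; linarith

lemma Par.R2 (h : Par n τ R ε V) : R ^ 2 = 4 * τ ^ 2 * n := by
  rw [h.hR, mul_pow, Real.sq_sqrt (by positivity)]; ring

lemma Par.R4 (h : Par n τ R ε V) : 4 * n ≤ R ^ 2 := by
  rw [h.R2]
  have h1 := h.τ1
  have h2 := h.n1'
  have : 1 ≤ τ ^ 2 := by nlinarith
  nlinarith

lemma Par.e2 (h : Par n τ R ε V) : ε * R ^ 2 = 1 / R ^ 2 := by
  have h1 := h.R4
  have h2 := h.n1'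
  have : R ≠ 0 := fun e => by rw [e] at h1; norm_num at h1; linarith
  rw [h.hε]; field_simp

lemma Par.e4 (h : Par n τ R ε V) : ε * R ^ 4 = 1 := by
  have h1 := h.R4
  have h2 := h.n1'
  have : R ≠ 0 := fun e => by rw [e] at h1; norm_num at h1; linarith
  rw [h.hε]; field_simp

lemma Par.ε0 (h : Par n τ R ε V) : 0 ≤ ε := by rw [h.hε]; positivity

lemma Par.nε (h : Par n τ R ε V) : n * ε ≤ 1 / 4 := by
  have h1 := h.R4
  have h2 := h.n1'
  have h3 := h.e4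
  have h4 := h.ε0
  have h5 : 4 * n ≤ R ^ 4 := by nlinarith
  nlinarith

lemma Par.ε1 (h : Par n τ R ε V) : ε ≤ 1 / 4 := by
  have := h.nε
  have := h.n1'
  have := h.ε0
  nlinarith

lemma Par.inv (h : Par n τ R ε V) : 1 / R ^ 2 ≤ 1 / 4 :=
  one_div_le_one_div_of_le (by norm_num) (by have := h.R4; have := h.n1'; linarith)

lemma Par.v_le (h : Par n τ R ε V) : 0 ≤ 1 - (V : ℝ) ∧ 1 - (V : ℝ) ≤ 1 / R ^ 2 := by
  have h1 := h.e2
  have h2 := h.ε0
  have h3 := h.ε1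
  have h4 : 0 ≤ ε * R ^ 2 := by positivity
  rw [h.hV, ← h1]
  constructor <;> nlinarith

lemma Par.V1 (h : Par n τ R ε V) : (V : ℝ) ≤ 1 := by linarith [h.v_le.1]

lemma Par.V2 (h : Par n τ R ε V) : (1 / 2 : ℝ) ≤ V := by linarith [h.v_le.2, h.inv]

lemma Par.V0 (h : Par n τ R ε V) : V ≠ 0 := fun e => by
  have := h.V2
  rw [e] at this
  norm_num at this

lemma Par.w0 (h : Par n τ R ε V) (N k : ℕ) : 0 ≤ bw ε N k :=
  bw_nonneg h.ε0 (by linarith [h.ε1]) N k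

lemma exists_par (n : ℕ) (hn : 1 ≤ n) : ∃ τ R ε V, Par n τ R ε V := by
  set τ : ℝ := 40000 * n
  set R : ℝ := 2 * τ * √(n : ℝ)
  set ε : ℝ := 1 / R ^ 4
  have h : Par n τ R ε (Real.toNNReal (1 - ε * (1 - ε) * R ^ 2)) := by
    refine ⟨hn, rfl, rfl, rfl, Real.coe_toNNReal _ ?_⟩
    have hn' : (1 : ℝ) ≤ n := by exact_mod_cast hn
    have h1 : 1 ≤ √(n : ℝ) := Real.one_le_sqrt.2 hn'
    have h2 : 1 ≤ R := by simp only [R, τ]; nlinarith
    have h3 : ε * R ^ 2 = 1 / R ^ 2 := by simp only [ε]; field_simp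
    have h4 : 1 / R ^ 2 ≤ 1 := by rw [div_le_one (by positivity)]; nlinarith
    have h5 : 0 ≤ ε := by positivity
    have h6 : 0 ≤ ε * R ^ 2 := by positivity
    nlinarith
  exact ⟨_, _, _, _, h⟩

lemma sum_one (ε R : ℝ) (g : ℝ → ℝ) : ∑ k ∈ range (1 + 1), bw ε 1 k * g (bm ε R 1 k) =
    (1 - ε) * g (-(R * ε)) + ε * g (R * (1 - ε)) := by
  simp [sum_range_succ, bw, bm]

lemma Par.moments (h : Par n τ R ε V) :
    IsProbabilityMeasure (dens (bf ε R V 1)) ∧ ∫ x, x ∂dens (bf ε R V 1) = 0 ∧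
      ∫ x, x ^ 2 ∂dens (bf ε R V 1) = 1 ∧ Integrable (fun x => x ^ 4) (dens (bf ε R V 1)) ∧
      ∫ x, x ^ 4 ∂dens (bf ε R V 1) ≤ 1000 := by
  refine ⟨prob_mix (h.w0 1) h.V0 (bw_sum 1), ?_, ?_,
    integrable_mix (h.w0 1) h.V0 fun k => int_four _ _, ?_⟩
  · rw [bf, integral_mix (h.w0 1) h.V0 fun k => int_id _ _]
    simp only [integral_id_gaussianReal, smul_eq_mul]
    rw [sum_one ε R fun a => a]; ring
  · rw [bf, integral_mix (h.w0 1) h.V0 fun k => int_sq _ _]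
    simp only [integral_sq, smul_eq_mul]
    rw [sum_one ε R fun a => V + a ^ 2, h.hV]; ring
  · rw [bf, integral_mix (h.w0 1) h.V0 fun k => int_four _ _]
    simp only [smul_eq_mul]
    refine (sum_le_sum fun k _ => mul_le_mul_of_nonneg_left (integral_four _ h.V1) (h.w0 1 k)).trans ?_
    rw [sum_one ε R fun a => 8 * a ^ 4 + 800]
    have h1 := h.e4
    have h2 := h.ε0
    have h3 := h.ε1
    have e : (1 - ε) * (8 * (-(R * ε)) ^ 4 + 800) + ε * (8 * (R * (1 - ε)) ^ 4 + 800)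
        = 800 + 8 * (ε * R ^ 4) * ((1 - ε) * ε ^ 3 + (1 - ε) ^ 4) := by ring
    rw [e, h1]
    have h4 : ε ^ 3 ≤ 1 := pow_le_one₀ h2 (by linarith)
    have h5 : (1 - ε) ^ 4 ≤ 1 := pow_le_one₀ (by linarith) (by linarith)
    have h6 : 0 ≤ ε ^ 3 := by positivity
    nlinarith

lemma Par.kl1 (h : Par n τ R ε V) :
    klDiv (dens (bf ε R V 1)) (gaussianReal 0 1) ≤ ENNReal.ofReal (1 / R ^ 2) := by
  refine (kl_up (h.w0 1) h.V0 (bw_sum 1)).trans (ENNReal.ofReal_le_ofReal ?_)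
  rw [sum_one ε R fun a => -(1 / 2) * Real.log V + (V + a ^ 2 - 1) / 2]
  have h1 := h.hV
  have h2 := h.V2
  have h3 := h.v_le
  have h4 := Real.one_sub_inv_le_log_of_pos (show (0 : ℝ) < V by linarith)
  have h5 : (V : ℝ)⁻¹ - 1 ≤ 2 * (1 - V) := by
    rw [sub_le_iff_le_add, inv_le_iff_one_le_mul₀ (by linarith)]
    nlinarith
  have e : (1 - ε) * (-(1 / 2) * Real.log V + (V + (-(R * ε)) ^ 2 - 1) / 2) +
      ε * (-(1 / 2) * Real.log V + (V + (R * (1 - ε)) ^ 2 - 1) / 2) =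
      -(1 / 2) * Real.log V + (V - (1 - ε * (1 - ε) * R ^ 2)) / 2 := by ring
  rw [e, ← h1]
  linarith [h3.2]

lemma Par.fi1 (h : Par n τ R ε V) : fisher (bf ε R V 1) ≤ ENNReal.ofReal (2 / R ^ 2) := by
  refine (fisher_up (h.w0 1) h.V0 (bw_sum 1)).trans (ENNReal.ofReal_le_ofReal ?_)
  rw [sum_one ε R fun a => a ^ 2 + (1 - V) ^ 2 / V]
  have h1 := h.hV
  have h2 := h.V2
  have h3 := h.v_le
  have e : (1 - ε) * ((-(R * ε)) ^ 2 + (1 - V) ^ 2 / V) + ε * ((R * (1 - ε)) ^ 2 + (1 - V) ^ 2 / V)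
      = (1 - (1 - ε * (1 - ε) * R ^ 2)) + (1 - V) ^ 2 / V := by ring
  rw [e, ← h1]
  have h4 : (1 - (V : ℝ)) ^ 2 / V ≤ 1 - V := by
    rw [div_le_iff₀ (by linarith)]
    nlinarith
  have e2 : 2 / R ^ 2 = 2 * (1 / R ^ 2) := by ring
  linarith [h3.2]

lemma Par.bm_eq (h : Par n τ R ε V) (k : ℕ) : bm ε R n k = 2 * τ * (k - n * ε) := by
  have : 0 < √(n : ℝ) := Real.sqrt_pos.2 (by linarith [h.n1'])
  rw [bm, h.hR]; field_simp

lemma Par.mass (h : Par n τ R ε V) : n * ε / 4 ≤ ∫ x in Set.Ioi τ, bf ε R V n x := by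
  have h1 := mass_low (s := range (n + 1)) (m := bm ε R n) (h.w0 n) h.V0 h.V1 (τ := τ)
    (mem_range.2 (by have := h.n1; omega)) (by
      rw [h.bm_eq]
      have := h.nε
      have := h.τ1
      push_cast
      nlinarith)
  refine le_trans ?_ h1
  have h2 := one_add_mul_le_pow (a := -ε) (by linarith [h.ε1]) (n - 1)
  have h3 : ((n - 1 : ℕ) : ℝ) ≤ n := by exact_mod_cast Nat.sub_le n 1
  have h4 := h.nε
  have h5 := h.ε0
  have h6 : 1 / 2 ≤ (1 - ε) ^ (n - 1) := by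
    rw [← sub_eq_add_neg] at h2
    nlinarith
  simp only [bw, Nat.choose_one_right, pow_one]
  have h7 : 0 ≤ n * ε := by positivity
  nlinarith

lemma exp_neg_le2 {y : ℝ} (hy : 0 < y) : Real.exp (-y) ≤ 2 / y ^ 2 := by
  have := Real.pow_div_factorial_le_exp y hy.le 2
  norm_num [Nat.factorial] at this
  rw [Real.exp_neg, inv_le_comm₀ (Real.exp_pos _) (by positivity), inv_div]
  exact this

lemma Par.tne (h : Par n τ R ε V) : τ ^ 2 * (n * ε) = 1 / 4 * (1 / R ^ 2) := by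
  rw [← h.e2, h.R2]; ring

lemma Par.kln (h : Par n τ R ε V) :
    ENNReal.ofReal (1 / 100 * (1 / R ^ 2)) ≤ klDiv (dens (bf ε R V n)) (gaussianReal 0 1) := by
  refine le_trans (ENNReal.ofReal_le_ofReal ?_) (kl_low (h.w0 n) h.V0 (bw_sum n) (τ ^ 2 / 4) τ)
  have h1 := h.mass
  have hτ := h.τ1
  have h2 := mul_le_mul_of_nonneg_left (gauss_tail (τ := τ) (by linarith)) (Real.exp_pos (τ ^ 2 / 4)).le
  rw [← Real.exp_add, show τ ^ 2 / 4 + -(τ ^ 2 / 2) = -(τ ^ 2 / 4) by ring] at h2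
  have h3 := exp_neg_le2 (y := τ ^ 2 / 4) (by positivity)
  have h4 : 2 / (τ ^ 2 / 4) ^ 2 ≤ 1 / 200 * (1 / R ^ 2) := by
    have hn := h.n1'
    have e := h.hτ
    rw [h.R2, mul_one_div, div_le_div_iff₀ (by positivity) (by positivity)]
    have a1 : 25600 * (n : ℝ) ≤ τ ^ 2 := by nlinarith
    nlinarith [mul_le_mul_of_nonneg_left a1 (sq_nonneg τ)]
  have h5 := mul_le_mul_of_nonneg_left h1 (show 0 ≤ τ ^ 2 / 4 by positivity)
  have h6 := h.tne
  have h7 : 0 ≤ 1 / R ^ 2 := by positivity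
  unfold bf at h5
  nlinarith

lemma Par.fin (h : Par n τ R ε V) :
    ENNReal.ofReal (1 / 32 * (1 / R ^ 2)) ≤ fisher (bf ε R V n) := by
  have hτ := h.τ1
  refine le_trans (ENNReal.ofReal_le_ofReal ?_)
    (fisher_low (h.w0 n) h.V0 (bw_sum n) (τ := τ) (by linarith))
  have h1 := h.mass
  have h2 := mix_le (m := bm ε R n) (h.w0 n) (bw_sum n) h.V2 h.V1 (τ := τ) (c := τ ^ 2 / 4)
    (fun k => by
      rw [h.bm_eq]
      have a1 := h.nε
      have a2 : 0 ≤ n * ε := mul_nonneg (by positivity) h.ε0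
      have a3 : 1 / 4 ≤ (1 - 2 * ((k : ℝ) - n * ε)) ^ 2 := by
        rcases Nat.eq_zero_or_pos k with rfl | hk
        · push_cast; nlinarith
        · have : (1 : ℝ) ≤ k := by exact_mod_cast hk
          nlinarith
      nlinarith [mul_le_mul_of_nonneg_left a3 (sq_nonneg τ)]) (by positivity)
  have h3 := exp_neg_le2 (y := τ ^ 2 / 4 / 2) (by positivity)
  have h4 : 2 * τ * (2 / (τ ^ 2 / 4 / 2) ^ 2) ≤ 1 / 32 * (1 / R ^ 2) := by
    have hn := h.n1'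
    have e := h.hτ
    have e2 : 2 * τ * (2 / (τ ^ 2 / 4 / 2) ^ 2) = 256 / τ ^ 3 := by field_simp; ring
    rw [e2, h.R2, mul_one_div, div_le_div_iff₀ (by positivity) (by positivity)]
    have a1 : 32768 * (n : ℝ) ≤ τ := by linarith
    nlinarith [mul_le_mul_of_nonneg_left a1 (sq_nonneg τ)]
  have h5 := mul_le_mul_of_nonneg_left h1 (sq_nonneg τ)
  have h6 := h.tne
  have h7 := mul_le_mul_of_nonneg_left (h2.trans h3) (show 0 ≤ 2 * τ by linarith)
  unfold bf at h5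
  nlinarith

lemma fin_step (h : Par n τ R ε V) {C a b : ℝ} {x y : ℝ≥0∞} (ha : 0 ≤ a) (hb : 0 < b)
    (hC : C * a < b * n)
    (hx : x ≤ ENNReal.ofReal (a * (1 / R ^ 2))) (hy : ENNReal.ofReal (b * (1 / R ^ 2)) ≤ y) :
    ENNReal.ofReal (C / n) * x < y := by
  have hn := h.n1'
  have hR : 0 < 1 / R ^ 2 := by have := h.R4; have : 0 < R ^ 2 := by linarith
                                positivity
  refine lt_of_le_of_lt (mul_le_mul_right hx _) (lt_of_lt_of_le ?_ hy)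
  rw [← ENNReal.ofReal_mul' (by positivity), ENNReal.ofReal_lt_ofReal_iff (by positivity),
    ← mul_assoc]
  refine mul_lt_mul_of_pos_right ?_ hR
  rw [div_mul_eq_mul_div, div_lt_iff₀ (by linarith)]
  exact hC

end

end Pool.Agent.H32.Mix
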