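import Mathlib

open Set Filter

namespace Pool.Agent.H32.NS

variable {I T : Type}

/-- `x ∈ *A` in the ultrapower -/
def Star {V : Ultrafilter I} (A : Set T) (x : Germ (V : Filter I) T) : Prop := x.LiftPred (· ∈ A)

/-- the ultrapower by `V` is an enlargement for families of subsets of `T` -/
def Enl (V : Ultrafilter I) (T : Type) : Prop :=
  ∀ 𝒜 : Set (Set T), (∀ F ⊆ 𝒜, F.Finite → (⋂₀ F).Nonempty) →
    ∃ x : Germ (V : Filter I) T, ∀ A ∈ 𝒜, Star A x

def monad (V : Ultrafilter I) (F : Ultrafilter ℕ+) : Set (Germ (V : Filter I) ℕ+) :=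
  {x | ∀ A ∈ F, Star A x}

def up (A : Set ℕ+) : Set ℕ+ := {n | ∃ a ∈ A, a ∣ n}

def TDvd (F G : Ultrafilter ℕ+) : Prop := ∀ A ∈ F, up A ∈ G

lemma enl_of {V : Ultrafilter I} (φ : I → Finset (Set T)) (h : Tendsto φ V atTop) : Enl V T :=
  fun 𝒜 h1 => by
    choose f hf using fun s : Finset (Set T) => h1 (s ∩ 𝒜) inter_subset_right
      (s.finite_toSet.inter_of_left _)
    exact ⟨(f ∘ φ : I → T), fun A hA => (h.eventually (eventually_ge_atTop {A})).mono fun i hi =>
      hf _ A ⟨hi (Finset.mem_singleton_self A), hA⟩⟩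

/-- an enlarging ultrafilter of the form `U ⊗ W` -/
lemma exists_enl (T : Type) {J : Type} (U : Ultrafilter J) : ∃ (I : Type) (W : Ultrafilter I),
    Enl (U.bind fun n => W.map (Prod.mk n)) T ∧ Enl (U.bind fun n => W.map (Prod.mk n)) ℕ+ := by
  obtain ⟨W, hW⟩ := Ultrafilter.exists_le (atTop : Filter (Finset (Set T) × Finset (Set ℕ+)))
  rw [← prod_atTop_atTop_eq] at hW
  exact ⟨_, W, enl_of (fun i => i.2.1) fun s hs => univ_mem' (f := (U : Filter J)) fun _ =>
    hW (tendsto_fst hs), enl_of (fun i => i.2.2) fun s hs => univ_mem' (f := (U : Filter J))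
      fun _ => hW (tendsto_snd hs)⟩

end Pool.Agent.H32.NS
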