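import Pool.Agent.H32.PCADefs

set_option autoImplicit false
set_option linter.unusedSectionVars false
open MeasureTheory ProbabilityTheory Filter Topology
open scoped ENNReal Pointwise

namespace Pool.Agent.H32.PCA

variable {ι A : Type} [MeasurableSpace A] [Fintype A] [DiscreteMeasurableSpace A]

lemma exists_comp_restrict {B : Type} {g : (ι → A) → B} {s : Finset ι} (hg : DependsOn g (s : Set ι))
    (x0 : ι → A) : ∃ g' : (s → A) → B, g = fun x => g' (s.restrict x) := by
  classical
  refine ⟨fun y => g (Function.updateFinset x0 s y), funext fun x => hg fun i hi => ?_⟩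
  have hi' : i ∈ s := hi
  simp [Function.updateFinset, hi']

lemma measurable_of_dependsOn {B : Type} [MeasurableSpace B] {g : (ι → A) → B} {s : Finset ι}
    (hg : DependsOn g (s : Set ι)) : Measurable g := by
  cases isEmpty_or_nonempty (ι → A) with
  | inl h => exact measurable_of_empty g
  | inr h =>
    obtain ⟨g', rfl⟩ := exists_comp_restrict hg h.some
    exact (Measurable.of_discrete (f := g')).comp (Finset.measurable_restrict s)

lemma dependsOn_cyl (S : Finset ι) (a : ι → A) :
    DependsOn ((cyl S a).indicator (1 : (ι → A) → ℝ≥0∞)) (S : Set ι) := by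
  intro x y h
  have : x ∈ cyl S a ↔ y ∈ cyl S a :=
    ⟨fun hx k hk => (h k hk).symm.trans (hx k hk), fun hy k hk => (h k hk).trans (hy k hk)⟩
  by_cases hx : x ∈ cyl S a
  · rw [Set.indicator_of_mem hx, Set.indicator_of_mem (this.1 hx)]
    rfl
  · rw [Set.indicator_of_notMem hx, Set.indicator_of_notMem (fun h => hx (this.2 h))]

lemma cyl_eq_pi (S : Finset ι) (a : ι → A) : cyl S a = Set.pi (S : Set ι) fun k => {a k} := by
  ext x
  simp [cyl]

lemma measurableSet_cyl (S : Finset ι) (a : ι → A) : MeasurableSet (cyl S a) := by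
  rw [cyl_eq_pi]
  exact MeasurableSet.pi S.countable_toSet fun i _ => MeasurableSet.of_discrete

lemma lintegral_congr_of_dependsOn (m m' : ι → Measure A) [∀ i, IsProbabilityMeasure (m i)]
    [∀ i, IsProbabilityMeasure (m' i)] {g : (ι → A) → ℝ≥0∞} {s : Finset ι}
    (hg : DependsOn g (s : Set ι)) (h : ∀ i ∈ s, m i = m' i) (x0 : ι → A) :
    ∫⁻ y, g y ∂(Measure.infinitePi m) = ∫⁻ y, g y ∂(Measure.infinitePi m') := by
  obtain ⟨g', rfl⟩ := exists_comp_restrict hg x0
  rw [lintegral_restrict_infinitePi _ Measurable.of_discrete,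
    lintegral_restrict_infinitePi _ Measurable.of_discrete]
  congr 2
  funext i
  exact h i i.2

lemma lintegral_mul_of_disjoint (m : ι → Measure A) [∀ i, IsProbabilityMeasure (m i)]
    {g h : (ι → A) → ℝ≥0∞} {s t : Finset ι}
    (hg : DependsOn g (s : Set ι)) (hh : DependsOn h (t : Set ι)) (hst : Disjoint s t)
    (x0 : ι → A) :
    ∫⁻ y, g y * h y ∂(Measure.infinitePi m) =
      (∫⁻ y, g y ∂(Measure.infinitePi m)) * ∫⁻ y, h y ∂(Measure.infinitePi m) := by
  have mg := measurable_of_dependsOn hg
  have mh := measurable_of_dependsOn hh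
  obtain ⟨g', rfl⟩ := exists_comp_restrict hg x0
  obtain ⟨h', rfl⟩ := exists_comp_restrict hh x0
  have h1 := (iIndepFun_infinitePi (P := m) (X := fun _ a => a)
    (fun _ => measurable_id)).indepFun_finset s t hst (fun i => measurable_pi_apply i)
  have h2 := h1.comp (Measurable.of_discrete (f := g')) (Measurable.of_discrete (f := h'))
  exact lintegral_mul_eq_lintegral_mul_lintegral_of_indepFun mg mh h2

variable [AddCommGroup ι] (N : Finset ι) (F : (N → A) → Measure A)
  [∀ u, IsProbabilityMeasure (F u)]

instance isProb_ker (x : ι → A) : IsProbabilityMeasure (ker N F x) := by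
  unfold ker
  infer_instance

noncomputable def T (g : (ι → A) → ℝ≥0∞) (x : ι → A) : ℝ≥0∞ := ∫⁻ y, g y ∂(ker N F x)

lemma dependsOn_T [DecidableEq ι] {g : (ι → A) → ℝ≥0∞} {s : Finset ι} (hg : DependsOn g (s : Set ι)) :
    DependsOn (T N F g) ((s + N : Finset ι) : Set ι) := by
  intro x y h
  refine lintegral_congr_of_dependsOn _ _ hg (fun i hi => ?_) x
  congr 1
  funext v
  exact h _ (Finset.mem_coe.2 (Finset.add_mem_add hi v.2))

lemma measurable_ker : Measurable (ker N F) := by
  classical
  refine Measurable.measure_of_isPiSystem_of_isProbabilityMeasure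
    generateFrom_measurableCylinders.symm isPiSystem_measurableCylinders fun C hC => ?_
  obtain ⟨s, S, hS, rfl⟩ := (mem_measurableCylinders _).1 hC
  have hd : DependsOn ((cylinder s S).indicator (1 : (ι → A) → ℝ≥0∞)) (s : Set ι) := by
    intro x y h
    have : s.restrict x = s.restrict y := funext fun i => h i i.2
    by_cases hx : x ∈ cylinder s S
    · have hy : y ∈ cylinder s S := by
        rw [mem_cylinder] at hx ⊢
        rwa [← this]
      rw [Set.indicator_of_mem hx, Set.indicator_of_mem hy]
      rfl
    · have hy : y ∉ cylinder s S := by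
        rw [mem_cylinder] at hx ⊢
        rwa [← this]
      rw [Set.indicator_of_notMem hx, Set.indicator_of_notMem hy]
  have := measurable_of_dependsOn (dependsOn_T N F hd)
  convert this using 1
  funext x
  exact (lintegral_indicator_one (MeasurableSet.cylinder s hS)).symm

lemma measurable_T {g : (ι → A) → ℝ≥0∞} (hg : Measurable g) : Measurable (T N F g) :=
  (Measure.measurable_lintegral hg).comp (measurable_ker N F)

lemma lintegral_bind_ker (μ : Measure (ι → A)) {g : (ι → A) → ℝ≥0∞} (hg : Measurable g) :
    ∫⁻ x, g x ∂(μ.bind (ker N F)) = ∫⁻ x, T N F g x ∂μ :=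
  Measure.lintegral_bind (measurable_ker N F).aemeasurable hg.aemeasurable

lemma evolve_succ (t : ℕ) (μ : Measure (ι → A)) :
    evolve N F (t + 1) μ = (evolve N F t μ).bind (ker N F) :=
  Function.iterate_succ_apply' _ _ _

lemma evolve_succ' (t : ℕ) (μ : Measure (ι → A)) :
    evolve N F (t + 1) μ = evolve N F t (μ.bind (ker N F)) :=
  Function.iterate_succ_apply _ _ _

instance isProb_bind (μ : Measure (ι → A)) [IsProbabilityMeasure μ] :
    IsProbabilityMeasure (μ.bind (ker N F)) :=
  isProbabilityMeasure_bind (measurable_ker N F).aemeasurable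
    (ae_of_all _ fun _ => inferInstance)

instance isProb_evolve (t : ℕ) (μ : Measure (ι → A)) [IsProbabilityMeasure μ] :
    IsProbabilityMeasure (evolve N F t μ) := by
  induction t with
  | zero => assumption
  | succ t ih =>
    rw [evolve_succ]
    infer_instance

lemma measurable_T_iter {g : (ι → A) → ℝ≥0∞} (hg : Measurable g) (t : ℕ) :
    Measurable ((T N F)^[t] g) := by
  induction t with
  | zero => exact hg
  | succ t ih =>
    rw [Function.iterate_succ_apply']
    exact measurable_T N F ih

lemma lintegral_evolve {g : (ι → A) → ℝ≥0∞} (hg : Measurable g) (t : ℕ) (μ : Measure (ι → A)) :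
    ∫⁻ x, g x ∂(evolve N F t μ) = ∫⁻ x, (T N F)^[t] g x ∂μ := by
  induction t generalizing μ with
  | zero => rfl
  | succ t ih =>
    rw [evolve_succ', ih, lintegral_bind_ker N F μ (measurable_T_iter N F hg t),
      Function.iterate_succ_apply']

lemma lintegral_evolve_succ {g : (ι → A) → ℝ≥0∞} (hg : Measurable g) (t : ℕ)
    (μ : Measure (ι → A)) :
    ∫⁻ x, g x ∂(evolve N F (t + 1) μ) = ∫⁻ x, T N F g x ∂(evolve N F t μ) := by
  rw [evolve_succ, lintegral_bind_ker N F _ hg]

lemma evolve_succ_apply {C : Set (ι → A)} (hC : MeasurableSet C) (t : ℕ)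
    (μ : Measure (ι → A)) :
    evolve N F (t + 1) μ C = ∫⁻ x, ker N F x C ∂(evolve N F t μ) := by
  rw [evolve_succ, Measure.bind_apply hC (measurable_ker N F).aemeasurable]

lemma evolve_of_invariant {π : Measure (ι → A)} (h : π.bind (ker N F) = π) (t : ℕ) :
    evolve N F t π = π :=
  Function.iterate_fixed h t

lemma T_mul {g h : (ι → A) → ℝ≥0∞} {s t : Finset ι}
    (hg : DependsOn g (s : Set ι)) (hh : DependsOn h (t : Set ι)) (hst : Disjoint s t) :
    T N F (fun y => g y * h y) = fun x => T N F g x * T N F h x :=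
  funext fun x => lintegral_mul_of_disjoint _ hg hh hst x

lemma T_iter_mul [DecidableEq ι] (n : ℕ) : ∀ {g h : (ι → A) → ℝ≥0∞} {s t : Finset ι},
    DependsOn g (s : Set ι) → DependsOn h (t : Set ι) →
    (∀ j < n, Disjoint (s + j • N) (t + j • N)) →
    (T N F)^[n] (fun y => g y * h y) = fun x => (T N F)^[n] g x * (T N F)^[n] h x := by
  induction n with
  | zero => intros; rfl
  | succ n ih =>
    intro g h s t hg hh hst
    have h0 : Disjoint s t := by simpa using hst 0 (by omega)
    simp only [Function.iterate_succ_apply]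
    rw [T_mul N F hg hh h0]
    refine ih (dependsOn_T N F hg) (dependsOn_T N F hh) fun j hj => ?_
    have := hst (j + 1) (by omega)
    rwa [succ_nsmul', ← add_assoc, ← add_assoc] at this

def shift (k : ι) (x : ι → A) : ι → A := fun i => x (i + k)

lemma measurable_shift (k : ι) : Measurable (shift (A := A) k) :=
  measurable_pi_lambda _ fun i => measurable_pi_apply (i + k)

lemma ker_shift (k : ι) (x : ι → A) : (ker N F x).map (shift k) = ker N F (shift k x) := by
  have := Measure.map_infinitePi_infinitePi_of_inj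
    (P := fun k : ι => F fun v : N => x (k + v)) (f := fun i => i + k) (add_left_injective k)
  refine this.trans ?_
  unfold ker shift
  congr 1
  funext i
  congr 1
  funext v
  congr 1
  abel

lemma bind_map_shift (k : ι) (μ : Measure (ι → A)) :
    (μ.map (shift k)).bind (ker N F) = (μ.bind (ker N F)).map (shift k) := by
  ext C hC
  rw [Measure.bind_apply hC (measurable_ker N F).aemeasurable,
    Measure.map_apply (measurable_shift k) hC,
    Measure.bind_apply (measurable_shift k hC) (measurable_ker N F).aemeasurable,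
    lintegral_map (f := fun a => ker N F a C)
      ((Measure.measurable_coe hC).comp (measurable_ker N F)) (measurable_shift k)]
  refine lintegral_congr fun x => ?_
  rw [← ker_shift, Measure.map_apply (measurable_shift k) hC]

lemma evolve_map_shift (k : ι) (t : ℕ) (μ : Measure (ι → A)) :
    evolve N F t (μ.map (shift k)) = (evolve N F t μ).map (shift k) := by
  induction t with
  | zero => rfl
  | succ t ih => rw [evolve_succ, evolve_succ, ih, bind_map_shift]

lemma T_le_one {g : (ι → A) → ℝ≥0∞} (hg : ∀ x, g x ≤ 1) (x : ι → A) : T N F g x ≤ 1 := by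
  refine (lintegral_mono hg).trans ?_
  simp

lemma T_iter_le_one {g : (ι → A) → ℝ≥0∞} (hg : ∀ x, g x ≤ 1) (t : ℕ) :
    ∀ x, (T N F)^[t] g x ≤ 1 := by
  induction t with
  | zero => exact hg
  | succ t ih =>
    rw [Function.iterate_succ_apply']
    exact T_le_one N F ih

lemma evolve_dirac {C : Set (ι → A)} (hC : MeasurableSet C) (t : ℕ) (x : ι → A) :
    evolve N F t (Measure.dirac x) C = (T N F)^[t] (C.indicator 1) x := by
  rw [← lintegral_indicator_one hC, lintegral_evolve N F (measurable_one.indicator hC),
    lintegral_dirac' _ (measurable_T_iter N F (measurable_one.indicator hC) t)]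

lemma ae_ker [Countable ι] (x : ι → A) (P : ι → A → Prop)
    (h : ∀ k, F (fun v : N => x (k + v)) {a | ¬ P k a} = 0) :
    ∀ᵐ y ∂(ker N F x), ∀ k, P k (y k) := by
  rw [ae_all_iff]
  intro k
  have h1 := measurePreserving_eval_infinitePi (fun k : ι => F fun v : N => x (k + v)) k
  exact h1.quasiMeasurePreserving.ae (p := fun a => P k a) (h k)

end Pool.Agent.H32.PCA
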