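import Pool.Agent.H32.IsingK
import Pool.Agent.H32.PCA

set_option autoImplicit false

namespace Pool.Agent.H32.Peierls

open Finset MeasureTheory Pool.Agent.H32.PCA
open scoped NNReal ENNReal Pointwise

def NN : Finset V := univ.image nb

lemma nb_mem (j : Fin 2 × Bool) : nb j ∈ NN := mem_image_of_mem _ (mem_univ j)

def rule (u : NN → Fin 6) : Fin 6 :=
  ⟨1 + ∑ j, if u ⟨nb j, nb_mem j⟩ = 0 then 1 else 0, by
    have : (∑ j, if u ⟨nb j, nb_mem j⟩ = 0 then 1 else 0) ≤ 4 := by
      refine (sum_le_card_nsmul _ _ 1 fun j _ => ?_).trans (by simp)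
      split_ifs <;> simp
    omega⟩

lemma rule_ne (u : NN → Fin 6) : rule u ≠ 0 := fun h => by
  have := congrArg Fin.val h
  simp only [rule, Fin.val_zero] at this
  omega

lemma rule_dead {u : NN → Fin 6} (h : ∀ v, u v ≠ 0) : rule u = 1 :=
  Fin.ext (by simp [rule, h])

noncomputable def wt (a y : Fin 6) : ℝ≥0 :=
  if y = 0 then kw (a.1 - 1) true else kw (a.1 - 1) false / 5

lemma wt_pos (a y : Fin 6) : 0 < wt a y := by
  have h1 := kw_pos (a.1 - 1) true
  have h2 := kw_pos (a.1 - 1) false
  unfold wt
  split_ifs <;> positivity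

noncomputable def th (a : Fin 6) : PMF (Fin 6) :=
  PMF.ofFintype (fun y => (wt a y : ℝ≥0∞)) (by
    rw [← ENNReal.ofNNReal_finsetSum, ENNReal.coe_eq_one, ← kw_sum (a.1 - 1)]
    simp [wt, Fin.sum_univ_succ]
    ring)

def pr (b : Bool) (a : Fin 6) : Bool := xor b (decide (a = 0))

lemma sum_wt (a : Fin 6) (y : Bool) :
    ∑ c, (if decide (c = 0) = y then wt a c else 0) = kw (a.1 - 1) y := by
  cases y
  · simp [wt, Fin.sum_univ_succ]
    ring
  · simp [wt]

lemma map_th (b : Bool) (x : V → Fin 6) (i : V) (y : Bool) :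
    (th (rule fun v : NN => x (i + v))).toMeasure.map (pr b) {y} =
      kw (cnt (fun v => pr b (x v)) i) y := by
  have hc : (rule fun v : NN => x (i + v)).1 - 1 = cnt (fun v => pr false (x v)) i := by
    simp [rule, cnt, pr]
  have hc' : cnt (fun v => pr true (x v)) i = 4 - cnt (fun v => pr false (x v)) i := by
    refine Nat.eq_sub_of_add_eq ?_
    rw [cnt, cnt, ← sum_add_distrib, sum_congr rfl (g := fun _ => 1) fun j _ => ?_]
    · simp
    · by_cases h : x (i + nb j) = 0 <;> simp [pr, h]
  have h : kw (cnt (fun v => pr b (x v)) i) y = kw (cnt (fun v => pr false (x v)) i) (xor b y) := by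
    cases b
    · simp
    · rw [hc', kw_flip (cnt_le _ _)]
      simp
  rw [Measure.map_apply Measurable.of_discrete MeasurableSet.of_discrete,
    PMF.toMeasure_apply_fintype, h, ← hc, ← sum_wt, ENNReal.ofNNReal_finsetSum]
  refine sum_congr rfl fun c _ => ?_
  have : pr b c = y ↔ decide (c = 0) = xor b y := by
    unfold pr
    cases b <;> cases y <;> simp
  simp only [Set.indicator, Set.mem_preimage, Set.mem_singleton_iff, th, PMF.ofFintype_apply, this]
  split_ifs <;> rfl

noncomputable def FF (u : NN → Fin 6) : Measure (Fin 6) := (th (rule u)).toMeasure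

instance (u : NN → Fin 6) : IsProbabilityMeasure (FF u) := by
  unfold FF
  infer_instance

lemma T_eq (L : ℕ) (b : Bool) (G : (box L → Bool) → ℝ≥0) (x : V → Fin 6) :
    T NN FF (fun y => (G fun i => pr b (y i) : ℝ≥0∞)) x =
      (∑ τ, G τ * ∏ i : box L, kw (cnt (fun v => pr b (x v)) i) (τ i) : ℝ≥0) := by
  have h1 := lintegral_restrict_infinitePi (fun k : V => FF fun v : NN => x (k + v)) (s := box L)
    (f := fun y => (G fun i => pr b (y i) : ℝ≥0∞)) Measurable.of_discrete
  refine h1.trans ?_
  have : ∀ k : box L, IsProbabilityMeasure ((FF fun v : NN => x (k + v)).map (pr b)) := fun k =>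
    Measure.isProbabilityMeasure_map Measurable.of_discrete.aemeasurable
  rw [← lintegral_map (f := fun τ : box L → Bool => (G τ : ℝ≥0∞))
    (g := fun (y : box L → Fin 6) i => pr b (y i)) Measurable.of_discrete Measurable.of_discrete,
    Measure.pi_map_pi (fun _ => Measurable.of_discrete.aemeasurable), lintegral_fintype,
    ENNReal.ofNNReal_finsetSum]
  refine sum_congr rfl fun τ _ => ?_
  rw [Measure.pi_singleton, ENNReal.coe_mul, ENNReal.ofNNReal_finsetProd]
  congr 1
  exact prod_congr rfl fun i _ => map_th b x i (τ i)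

noncomputable def h0 (b : Bool) (y : V → Fin 6) : ℝ≥0∞ := if pr b (y 0) = true then 1 else 0

lemma dep (b : Bool) (t : ℕ) : DependsOn ((T NN FF)^[t] (h0 b)) (box t : Set V) := by
  classical
  induction t with
  | zero =>
    intro x y h
    simp only [Function.iterate_zero, id, h0, h 0 (by simp [mem_box])]
  | succ t ih =>
    rw [Function.iterate_succ_apply']
    refine (dependsOn_T NN FF ih).mono (coe_subset.2 fun v hv => ?_)
    obtain ⟨a, ha, c, hc, rfl⟩ := mem_add.1 hv
    obtain ⟨⟨d, s⟩, -, rfl⟩ := mem_image.1 hc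
    fin_cases d <;> cases s <;> simp [mem_box, nb] at ha ⊢ <;> omega

def gd (b : Bool) : Fin 6 := if b then 0 else 1

lemma pr_gd (b : Bool) : pr b (gd b) = false := by
  cases b <;> rfl

lemma iter_eq (L : ℕ) (b : Bool) (t : ℕ) (ht : t ≤ L) (x : V → Fin 6) :
    (T NN FF)^[t] (h0 b) x = (KK L)^[t] (G0 L) fun i => pr b (x i) := by
  classical
  induction t generalizing x with
  | zero =>
    have : (0 : V) ∈ box L := by simp [mem_box]
    simp only [Function.iterate_zero, id, h0, G0, ext, dif_pos this]
    split_ifs <;> rfl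
  | succ t ih =>
    have hs : box (t + 1) ⊆ box L := fun v hv => by
      simp only [mem_box] at hv ⊢
      omega
    rw [dep b (t + 1) (y := fun v => if v ∈ box L then x v else gd b)
      fun v hv => (if_pos (hs hv)).symm, Function.iterate_succ_apply',
      funext (ih (by omega)), T_eq, Function.iterate_succ_apply']
    have : (fun v => pr b (if v ∈ box L then x v else gd b)) = ext L fun i => pr b (x i) := by
      funext v
      by_cases hv : v ∈ box L <;> simp [ext, hv, pr_gd]
    rw [this]
    rfl

theorem bad_le (b : Bool) (t : ℕ) :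
    evolve NN FF t (Measure.dirac fun _ => gd b) {y | pr b (y 0) = true} ≤ 4⁻¹ := by
  have hm : MeasurableSet {y : V → Fin 6 | pr b (y 0) = true} :=
    measurable_pi_apply (X := fun _ : V => Fin 6) 0
      (MeasurableSet.of_discrete (s := {a | pr b a = true}))
  have : ({y : V → Fin 6 | pr b (y 0) = true}).indicator 1 = h0 b := by
    funext y
    simp [h0, Set.indicator]
  rw [evolve_dirac NN FF hm, this, iter_eq t b t le_rfl]
  have h : (fun i : box t => pr b (gd b)) = ⊥ := funext fun _ => pr_gd b
  rw [h]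
  exact (ENNReal.coe_le_coe.2 (KK_bound t t)).trans (by simp)

end Pool.Agent.H32.Peierls
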