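import Pool.Agent.H32.FROp

set_option autoImplicit false

namespace Pool.Agent.H32.NC

open Filter Topology FR

def D (u : ℕ → ℝ) : ℕ → ℕ → ℝ
  | 0, t => u t
  | i + 1, j => u (4 * 16 ^ i + j) - u (5 * 16 ^ i + j)

noncomputable def F (u : ℕ → ℝ) (p : ℕ × ℕ) : ℝ := D u p.1 p.2 / 2 ^ p.2

lemma F_sub (u v : ℕ → ℝ) (p : ℕ × ℕ) : F u p - F v p = F (fun t => u t - v t) p := by
  obtain ⟨_ | i, j⟩ := p <;> simp only [F, D] <;> ring

lemma F_add (u v : ℕ → ℝ) (p : ℕ × ℕ) : F (fun t => u t + v t) p = F u p + F v p := by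
  obtain ⟨_ | i, j⟩ := p <;> simp only [F, D] <;> ring

lemma p16 {a b : ℕ} (h : a ≤ b) : 16 ^ a ≤ 16 ^ b := Nat.pow_le_pow_right (by norm_num) h

lemma l16 (a : ℕ) : 4 * a ≤ 16 ^ a := (four_le a).trans (Nat.pow_le_pow_left (by norm_num) a)

lemma q16 {a b : ℕ} (h : a < b) : 16 * 16 ^ a ≤ 16 ^ b := pow_succ' 16 a ▸ p16 h

lemma per {u : ℕ → ℝ} {M : ℝ} {k L : ℕ} (hM : ∀ t, ‖u t‖ ≤ M) (hL : 2 * L ≤ 16 ^ k)
    (h0 : ∀ t < 16 ^ k, u t = 0)
    (h1 : ∀ i, k ≤ i → ∀ j < L, u (4 * 16 ^ i + j) = u (5 * 16 ^ i + j)) (p : ℕ × ℕ) :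
    ‖F u p‖ ≤ 2 * M / 2 ^ L := by
  have hM0 := (norm_nonneg _).trans (hM 0)
  obtain ⟨n, j⟩ := p
  by_cases hj : L ≤ j
  · refine dv (i := 0) ?_ (by simpa using hj)
    rcases n with _ | i
    · exact (hM _).trans (by linarith)
    · exact (norm_sub_le _ _).trans (by linarith [hM (4 * 16 ^ i + j), hM (5 * 16 ^ i + j)])
  suffices D u n j = 0 by
    rw [F, this, zero_div, norm_zero]
    positivity
  rcases n with _ | i
  · exact h0 _ (by omega)
  · by_cases hi : k ≤ i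
    · exact sub_eq_zero.2 (h1 i hi j (by omega))
    · have := q16 (not_le.1 hi)
      rw [D, h0 _ (by omega), h0 _ (by omega), sub_zero]

lemma sparse {u : ℕ → ℝ} {K : ℕ} (h : ∀ t, u t ≠ 0 → ∃ ν, 7 * 16 ^ ν ≤ t ∧ t < 9 * 16 ^ ν ∧
    ‖u t‖ ≤ 2 ^ ν ∧ K ≤ ν) {n t L : ℕ} (hL : (t + 1 < n ∨ 2 * L ≤ t) ∨ L ≤ K) :
    ‖F u (n, t)‖ ≤ 2 / 2 ^ L := by
  have key : ∀ c, (n = 0 ∧ c = 0 ∨ 4 * 16 ^ (n - 1) ≤ c ∧ c ≤ 5 * 16 ^ (n - 1)) →
      ‖u (c + t) / 2 ^ t‖ ≤ 1 / 2 ^ L := fun c hc => by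
    by_cases a : u (c + t) = 0
    · rw [a, zero_div, norm_zero]
      positivity
    obtain ⟨ν, h1, h2, h3, h4⟩ := h _ a
    have h5 := l16 ν
    have h6 : n - 1 ≤ ν := by
      by_contra k
      have := q16 (not_le.1 k)
      omega
    have h7 := p16 h6
    exact dv (i := ν) (by rwa [mul_one]) (by omega)
  rcases n with _ | i
  · exact ((congrArg (fun s => ‖u s / 2 ^ t‖) (zero_add t)).ge.trans
      (key 0 (Or.inl ⟨rfl, rfl⟩))).trans (by gcongr; norm_num)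
  · simp only [F, D]
    rw [sub_div, show (2 : ℝ) / 2 ^ L = 1 / 2 ^ L + 1 / 2 ^ L by ring]
    exact (norm_sub_le _ _).trans (add_le_add (key _ (Or.inr ⟨le_rfl, by simp⟩))
      (key _ (Or.inr ⟨by simp, le_rfl⟩)))

lemma c0' {f : ℕ × ℕ → ℝ} {C : ℝ}
    (h : ∀ L : ℕ, ∃ R, ∀ n t, R ≤ n ∨ R ≤ t → ‖f (n, t)‖ ≤ C / 2 ^ L) :
    Tendsto f cofinite (𝓝 0) := by
  refine NormedAddGroup.tendsto_nhds_zero.2 fun ε hε => ?_
  obtain ⟨L, hL⟩ := ((tendsto_const_nhds.div_atTop (tendsto_pow_atTop_atTop_of_one_lt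
    (r := (2 : ℝ)) one_lt_two) (a := C)).eventually (gt_mem_nhds hε)).exists
  obtain ⟨R, hR⟩ := h L
  refine ((Set.finite_le_nat R).prod (Set.finite_le_nat R)).subset fun p hp => ?_
  have : ¬(R ≤ p.1 ∨ R ≤ p.2) := fun k => hp ((hR _ _ k).trans_lt hL)
  exact ⟨show p.1 ≤ R by omega, show p.2 ≤ R by omega⟩

lemma fin_c0 {u : ℕ → ℝ} {R : ℕ} (h : ∀ t, R ≤ t → u t = 0) : Tendsto (F u) cofinite (𝓝 0) :=
  c0' (C := 0) fun L => ⟨R + 1, fun n t k => by
    rcases n with _ | i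
    · simp [F, D, h t (by omega)]
    · have := l16 i
      have := Nat.one_le_pow i 16 (by norm_num)
      simp [F, D, h (4 * 16 ^ i + t) (by omega), h (5 * 16 ^ i + t) (by omega)]⟩

def M₀ : Submodule ℝ (Z ℝ) where
  carrier := {z | ∃ u : ℕ → ℝ, (∃ R, ∀ t, R ≤ t → u t = 0) ∧ ∀ p, z p = F u p}
  add_mem' := by
    rintro a b ⟨u, ⟨R, h1⟩, h2⟩ ⟨v, ⟨R', h3⟩, h4⟩
    exact ⟨fun t => u t + v t, ⟨R + R', fun t h => by
      simp [h1 t (by omega), h3 t (by omega)]⟩, fun p => by rw [F_add, ← h2, ← h4]; rfl⟩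
  zero_mem' := ⟨0, ⟨0, fun _ _ => rfl⟩, by rintro ⟨_ | i, j⟩ <;> simp [F, D]⟩
  smul_mem' := by
    rintro c a ⟨u, ⟨R, h1⟩, h2⟩
    refine ⟨fun t => c * u t, ⟨R, fun t h => by simp [h1 t h]⟩, fun p => ?_⟩
    rw [ZeroAtInftyContinuousMap.smul_apply, h2, smul_eq_mul]
    obtain ⟨_ | i, j⟩ := p <;> simp only [F, D] <;> ring

noncomputable def T₀ : Z ℝ →L[ℝ] Z ℝ := LinearMap.mkContinuous
  { toFun := fun z => mk (fun p => 2 * z (p.1, p.2 + 1)) (by
      simpa using ((tends z).comp (Function.Injective.tendsto_cofinite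
        (f := fun p : ℕ × ℕ => (p.1, p.2 + 1)) fun p q e => by grind)).const_mul 2)
    map_add' := fun x y => ZeroAtInftyContinuousMap.ext fun p => mul_add _ _ _
    map_smul' := fun c x => ZeroAtInftyContinuousMap.ext fun p => mul_left_comm _ _ _ } 2
  fun x => norm_le _ (by positivity) fun p => by
    change ‖2 * x _‖ ≤ _
    rw [norm_mul, Real.norm_two]
    exact mul_le_mul_of_nonneg_left (le_norm x _) zero_le_two

lemma F_shift (u : ℕ → ℝ) (n a t : ℕ) :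
    2 ^ n * F u (a, t + n) = F (fun s => u (s + n)) (a, t) := by
  rcases a with _ | i <;> simp only [F, D, add_assoc, pow_add] <;> field_simp

noncomputable abbrev X := M₀.topologicalClosure

noncomputable def T : X →L[ℝ] X := T₀.restrict fun z hz =>
  map_mem_closure T₀.continuous hz (by
    rintro z ⟨u, ⟨R, h1⟩, h2⟩
    exact ⟨fun s => u (s + 1), ⟨R, fun t h => h1 _ (by omega)⟩, fun p => by
      rw [← F_shift, ← h2, pow_one]; rfl⟩)

lemma T_pow (n : ℕ) (z : X) (a t : ℕ) : ((T ^ n) z).1 (a, t) = 2 ^ n * z.1 (a, t + n) := by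
  induction n generalizing z with
  | zero => simp
  | succ n ih =>
    rw [pow_succ, mul_apply_eq_comp, ih, pow_succ, mul_assoc]
    rfl

lemma T_F {z : X} {u : ℕ → ℝ} (h : ∀ p, z.1 p = F u p) (n : ℕ) (p : ℕ × ℕ) :
    ((T ^ n) z).1 p = F (fun s => u (s + n)) p := by rw [T_pow, h, F_shift]

lemma cont (p : ℕ × ℕ) : Continuous fun z : Z ℝ => z p :=
  (continuous_eval_const (F := BoundedContinuousFunction (ℕ × ℕ) ℝ) p).comp
    ZeroAtInftyContinuousMap.isometry_toBCF.continuous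

lemma rel (z : X) (i : ℕ) : z.1 (i + 1, 0) =
    2 ^ (4 * 16 ^ i) * z.1 (0, 4 * 16 ^ i) - 2 ^ (5 * 16 ^ i) * z.1 (0, 5 * 16 ^ i) := by
  refine (isClosed_eq (cont _) (((cont _).const_mul _).sub ((cont _).const_mul _))).closure_subset_iff.2
    ?_ z.2
  rintro z ⟨u, -, h⟩
  change z _ = _ * z _ - _ * z _
  simp only [h, F, D]
  field_simp
  simp

lemma mem {u : ℕ → ℝ} {C : ℝ} (hu : ∀ t, ‖u t‖ ≤ 2 ^ (t / 4) * C)
    (h0 : Tendsto (F u) cofinite (𝓝 0)) : ∃ z : X, ∀ p, z.1 p = F u p := by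
  refine ⟨⟨mk _ h0, Metric.mem_closure_iff.2 fun ε hε => ?_⟩, fun _ => rfl⟩
  have hF := NormedAddGroup.tendsto_nhds_zero.1 h0 _ (half_pos hε)
  rw [eventually_cofinite] at hF
  obtain ⟨R, hR⟩ := (hF.image fun p => p.1 + p.2).bddAbove
  obtain ⟨m, h1, h2⟩ := ((eventually_gt_atTop R).and ((tendsto_const_nhds.div_atTop
    (tendsto_pow_atTop_atTop_of_one_lt (r := (2 : ℝ)) one_lt_two) (a := C)).eventually
      (gt_mem_nhds (half_pos hε)))).exists
  have h3 : ∀ t, 8 * 16 ^ m ≤ t → (if t < 8 * 16 ^ m then u t else 0) = 0 :=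
    fun t h => if_neg (by omega)
  refine ⟨mk _ (fin_c0 h3), ⟨_, ⟨_, h3⟩, fun _ => rfl⟩, ?_⟩
  rw [dist_eq_norm]
  refine (norm_le _ (half_pos hε).le fun p => ?_).trans_lt (half_lt_self hε)
  have h4 : R < p.1 + p.2 → ‖F u p‖ ≤ ε / 2 := fun k =>
    le_of_lt (by_contra fun a => k.not_ge (hR ⟨p, a, rfl⟩))
  have h5 := l16 m
  change ‖F _ p - F _ p‖ ≤ _
  obtain ⟨_ | i, j⟩ := p
  · simp only [F, D] at h4 ⊢
    split_ifs with a
    · simpa using (half_pos hε).le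
    · simpa using h4 (by omega)
  · have h6 : i ≤ m ∨ 16 * 16 ^ m ≤ 16 ^ i ∧ m < i := (le_or_gt i m).imp_right fun a => ⟨q16 a, a⟩
    have h7 := @p16 i m
    simp only [F, D] at h4 ⊢
    split_ifs with a b b
    · simpa using (half_pos hε).le
    · rw [← sub_div, sub_zero, sub_sub_cancel_left, neg_div, norm_neg]
      exact (dv (hu _) (by omega)).trans h2.le
    · omega
    · simpa using h4 (by omega)

lemma dist_le {z z' : X} {ε : ℝ} (h : ∀ p, ‖z.1 p - z'.1 p‖ ≤ ε) : dist z z' ≤ ε := by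
  rw [Subtype.dist_eq, dist_eq_norm]
  exact norm_le _ ((norm_nonneg _).trans (h 0)) h

lemma approx {U : Set X} (hU : IsOpen U) (hne : U.Nonempty) : ∃ (u : ℕ → ℝ) (R : ℕ) (M ε : ℝ),
    0 < ε ∧ (∀ t, R ≤ t → u t = 0) ∧ (∀ t, ‖u t‖ ≤ M) ∧
      ∀ z : X, (∀ p, ‖z.1 p - F u p‖ ≤ ε) → z ∈ U := by
  obtain ⟨a, ha⟩ := hne
  obtain ⟨ε, hε, h1⟩ := Metric.isOpen_iff.1 hU a ha
  obtain ⟨b, ⟨u, ⟨R, h2⟩, h3⟩, h4⟩ := Metric.mem_closure_iff.1 a.2 _ (half_pos hε)
  refine ⟨u, R, ∑ t ∈ Finset.range R, ‖u t‖, ε / 4, by positivity, h2, fun t => ?_, fun z hz =>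
    h1 ((dist_le (ε := ε / 4 + ε / 2) fun p => ?_).trans_lt (by linarith))⟩
  · by_cases k : t < R
    · exact Finset.single_le_sum (fun _ _ => norm_nonneg _) (Finset.mem_range.2 k)
    · rw [h2 t (by omega), norm_zero]
      positivity
  · refine (norm_sub_le_norm_sub_add_norm_sub _ (F u p) _).trans (add_le_add (hz p) ?_)
    rw [dist_comm, dist_eq_norm] at h4
    exact h3 p ▸ (le_norm (b - a.1) p).trans h4.le

lemma big {C η : ℝ} (hη : 0 < η) (K : ℕ) : ∃ L : ℕ, K ≤ L ∧ C / 2 ^ L ≤ η :=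
  ((eventually_ge_atTop K).and ((tendsto_const_nhds.div_atTop (tendsto_pow_atTop_atTop_of_one_lt
    (r := (2 : ℝ)) one_lt_two) (a := C)).eventually (ge_mem_nhds hη))).exists

theorem periodic : Dense {x : X | ∃ n : ℕ, 0 < n ∧ (T ^ n) x = x} := by
  refine dense_iff_inter_open.2 fun U hU hne => ?_
  obtain ⟨u, R, M, ε, hε, h1, h2, h3⟩ := approx hU hne
  obtain ⟨k, h4, h5⟩ := big (C := 2 * (M + M)) hε R
  have h6 : ∀ i, k ≤ i → ∀ j, (4 * 16 ^ i + j) % 16 ^ k = (5 * 16 ^ i + j) % 16 ^ k := fun i hi j => by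
    obtain ⟨c, hc⟩ := pow_dvd_pow 16 hi
    rw [show 5 * 16 ^ i + j = 4 * 16 ^ i + j + 16 ^ k * c by omega, Nat.add_mul_mod_self_left]
  obtain ⟨z, hz⟩ := mem (u := fun t => u (t % 16 ^ k)) (C := M) (fun t => (h2 _).trans
    (le_mul_of_one_le_left ((norm_nonneg _).trans (h2 0)) (one_le_pow₀ one_le_two)))
    (c0' (C := 2 * M) fun L => ⟨k + L + 1, fun n t a => by
      have hM0 := (norm_nonneg _).trans (h2 0)
      by_cases b : L ≤ t
      · refine dv (i := 0) ?_ (by simpa using b)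
        rcases n with _ | i
        · exact (h2 _).trans (by linarith)
        · exact (norm_sub_le _ _).trans (by
            linarith [h2 ((4 * 16 ^ i + t) % 16 ^ k), h2 ((5 * 16 ^ i + t) % 16 ^ k)])
      · obtain ⟨i, rfl⟩ : ∃ i, n = i + 1 := ⟨n - 1, by omega⟩
        simp only [F, D]
        rw [h6 i (by omega), sub_self, zero_div, norm_zero]
        positivity⟩)
  have h7 := l16 k
  refine ⟨z, h3 z fun p => ?_, 16 ^ k, by positivity, Subtype.ext
    (ZeroAtInftyContinuousMap.ext fun p => by simp only [T_F hz, hz, Nat.add_mod_right])⟩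
  rw [hz, F_sub]
  refine (per (k := k) (fun t => (norm_sub_le _ _).trans (add_le_add (h2 _) (h2 _))) (by omega)
    (fun t a => by rw [Nat.mod_eq_of_lt a, sub_self]) (fun i a j _ => ?_) p).trans h5
  have := p16 a
  rw [h6 i a, h1 (4 * 16 ^ i + j) (by omega), h1 (5 * 16 ^ i + j) (by omega)]

theorem mixing (U V : Set X) (hU : IsOpen U) (hV : IsOpen V) (nU : U.Nonempty) (nV : V.Nonempty) :
    ∃ N : ℕ, ∀ n : ℕ, N ≤ n → ((⇑(T ^ n)) ⁻¹' V ∩ U).Nonempty := by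
  obtain ⟨u, R, M, ε, hε, h1, -, h3⟩ := approx hU nU
  obtain ⟨v, R', M', ε', hε', k1, k2, k3⟩ := approx hV nV
  obtain ⟨L, h4, h5⟩ := big (C := 2 * (M' + M')) (lt_min hε hε') (R + R')
  refine ⟨16 ^ L, fun n hn => ?_⟩
  have a0 := Nat.one_le_pow L 16 (by norm_num)
  have a1 := Nat.le_log_of_pow_le (by norm_num) hn
  have a2 := Nat.pow_log_le_self 16 (show n ≠ 0 by omega)
  have a3 := Nat.lt_pow_succ_log_self (b := 16) (by norm_num) n
  generalize Nat.log 16 n = k at a1 a2 a3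
  rw [pow_succ'] at a3
  have a4 := l16 k
  have hM := (norm_nonneg _).trans (k2 0)
  let w : ℕ → ℝ := fun t => if 16 ^ k ≤ t ∧ t < 32 * 16 ^ k then v ((t + 16 * 16 ^ k - n) % 16 ^ k)
    else 0
  have w1 : ∀ t, ‖w t‖ ≤ M' := fun t => by
    simp only [w]
    split_ifs
    exacts [k2 _, by simpa]
  have w2 : ∀ s ≤ n, ∀ i, k ≤ i → ∀ j < L, w (4 * 16 ^ i + j + s) = w (5 * 16 ^ i + j + s) := by
    intro s hs i hi j hj
    simp only [w]
    rcases hi.eq_or_lt with rfl | hi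
    · rw [if_pos (by omega), if_pos (by omega), show 5 * 16 ^ k + j + s + 16 * 16 ^ k - n =
        4 * 16 ^ k + j + s + 16 * 16 ^ k - n + 16 ^ k by omega, Nat.add_mod_right]
    · have := q16 hi
      rw [if_neg (by omega), if_neg (by omega)]
  have w3 : ∀ t, 32 * 16 ^ k ≤ t → u t + w t = 0 := fun t a => by
    simp only [w]
    rw [h1 t (by omega), if_neg (by omega), add_zero]
  let z : X := ⟨mk _ (fin_c0 w3), subset_closure ⟨_, ⟨_, w3⟩, fun _ => rfl⟩⟩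
  refine ⟨z, k3 _ fun p => ?_, h3 _ fun p => ?_⟩
  · rw [T_F (fun _ => rfl), F_sub]
    simp only [fun t => h1 (t + n) (by omega), zero_add]
    refine (per (k := k) (fun t => (norm_sub_le _ _).trans (add_le_add (w1 _) (k2 _))) (by omega)
      (fun t a => ?_) (fun i a j b => ?_) p).trans (h5.trans (min_le_right _ _))
    · simp only [w]
      rw [if_pos (by omega), show t + n + 16 * 16 ^ k - n = t + 16 * 16 ^ k by omega,
        Nat.add_mul_mod_self_right, Nat.mod_eq_of_lt a, sub_self]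
    · have := p16 a
      rw [w2 n le_rfl i a j b, k1 (4 * 16 ^ i + j) (by omega), k1 (5 * 16 ^ i + j) (by omega)]
  · change ‖F _ p - _‖ ≤ _
    rw [F_add, add_sub_cancel_left]
    exact (per (k := k) (M := M' + M') (fun t => (w1 t).trans (by linarith)) (by omega)
      (fun t a => if_neg (by omega)) (w2 0 n.zero_le) p).trans (h5.trans (min_le_left _ _))

lemma cnt (k : ℕ) : ∃ δ : ℝ, 0 < δ ∧ ∃ N₀ : ℕ, ∀ N, N₀ ≤ N → ∀ p : ℕ → Prop,
    (∀ μ s, 0 < μ → cls μ = k → 16 ^ k ∣ s → 8 * 16 ^ μ ≤ s → 2 * s < 17 * 16 ^ μ → p s) →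
    δ * N ≤ (Nat.card {n : ℕ // n < N ∧ p n} : ℝ) := by
  refine ⟨1 / 16 ^ (k + 2 ^ (k + 1) + 2), by positivity, 16 ^ (2 ^ (k + 1) + 1),
    fun N hN p hp => ?_⟩
  have h0 : N ≠ 0 := by have := Nat.one_le_pow (2 ^ (k + 1) + 1) 16 (by norm_num); omega
  have h1 := Nat.le_log_of_pow_le (by norm_num) hN
  have h2 := Nat.pow_log_le_self 16 h0
  have h3 := Nat.lt_pow_succ_log_self (b := 16) (by norm_num) N
  generalize Nat.log 16 N = l at h1 h2 h3
  have h4 := Nat.div_add_mod (l - 1 - 2 ^ k) (2 ^ (k + 1))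
  have h5 := Nat.mod_lt (l - 1 - 2 ^ k) (show 0 < 2 ^ (k + 1) by positivity)
  generalize (l - 1 - 2 ^ k) / 2 ^ (k + 1) = a at h4
  obtain ⟨μ, hμ⟩ : ∃ μ, μ = 2 ^ k + 2 ^ (k + 1) * a := ⟨_, rfl⟩
  have h6 : 2 ^ (k + 1) = 2 * 2 ^ k := pow_succ' 2 k
  have h7 := Nat.one_le_two_pow (n := k)
  have hc : cls μ = k := by
    rw [hμ, show 2 ^ k + 2 ^ (k + 1) * a = 2 ^ k * (2 * a + 1) by ring, cls,
      padicValNat.mul (by positivity) (by omega), padicValNat.prime_pow,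
      padicValNat.eq_zero_of_not_dvd (by omega), add_zero]
  have h8 := hc ▸ cls_le μ
  have h9 := q16 (show μ < l by omega)
  have a2 := q16 (show μ - 1 < μ by omega)
  have a4 : 16 ^ k * 16 ^ (μ - 1 - k) = 16 ^ (μ - 1) := by rw [← pow_add]; congr 1; omega
  have key : 16 ^ (μ - 1 - k) ≤ {n : ℕ | n < N ∧ p n}.ncard := by
    refine ((Set.ncard_coe_finset _).trans (Finset.card_range _)).ge.trans <|
      Set.ncard_le_ncard_of_injOn (fun j => 8 * 16 ^ μ + 16 ^ k * j) (fun j hj => ?_)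
      (fun j _ j' _ e => Nat.eq_of_mul_eq_mul_left (show 0 < 16 ^ k by positivity) (by
        simp only at e; omega)) ((Set.finite_lt_nat N).subset fun n hn => hn.1)
    have b1 := Nat.mul_lt_mul_of_pos_left (Finset.mem_range.1 hj) (show 0 < 16 ^ k by positivity)
    exact ⟨by omega, hp μ _ (by omega) hc (Dvd.dvd.add (Dvd.dvd.mul_left (pow_dvd_pow 16
      (by omega)) 8) (Dvd.intro _ rfl)) (by omega) (by omega)⟩
  have b2 : N ≤ 16 ^ (μ - 1 - k) * 16 ^ (k + 2 ^ (k + 1) + 2) := by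
    rw [← pow_add]
    exact h3.le.trans (p16 (by omega))
  rw [one_div_mul_eq_div, div_le_iff₀ (by positivity)]
  exact_mod_cast b2.trans (Nat.mul_le_mul_right _ key)

theorem fhc : ∃ x : X, ∀ U : Set X, IsOpen U → U.Nonempty →
    ∃ δ : ℝ, 0 < δ ∧ ∃ N₀ : ℕ, ∀ N : ℕ, N₀ ≤ N →
      δ * (N : ℝ) ≤ (Nat.card {n : ℕ // n < N ∧ (T ^ n) x ∈ U} : ℝ) := by
  let u : ℕ → ℝ := fun t => if 8 * 16 ^ Nat.log 16 t ≤ t ∧ t < 9 * 16 ^ Nat.log 16 t then
    pp ℝ (cls (Nat.log 16 t)) (0, t % 16 ^ cls (Nat.log 16 t)) else 0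
  have u1 : ∀ t, u t ≠ 0 → ∃ ν, 8 * 16 ^ ν ≤ t ∧ t < 9 * 16 ^ ν ∧ ‖u t‖ ≤ 2 ^ ν := fun t a => by
    simp only [u] at a ⊢
    split_ifs at a ⊢ with b
    · exact ⟨_, b.1, b.2, (pp_le _ _).trans (pow_le_pow_right₀ one_le_two (by
        have := cls_le (Nat.log 16 t); omega))⟩
    · exact absurd rfl a
  obtain ⟨x, hx⟩ := mem (u := u) (C := 1) (fun t => by
    by_cases a : u t = 0
    · rw [a, norm_zero]
      positivity
    obtain ⟨ν, b1, -, b2⟩ := u1 t a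
    have := l16 ν
    rw [mul_one]
    exact b2.trans (pow_le_pow_right₀ one_le_two (by omega)))
    (c0 (C := 2) fun L => ⟨2 * L, fun n t a => sparse (K := 0) (fun t b => (u1 t b).imp
      fun ν c => ⟨by omega, c.2.1, c.2.2, ν.zero_le⟩) (Or.inl a)⟩)
  refine ⟨x, fun U hU hne => ?_⟩
  obtain ⟨v, R, M, ε, hε, h1, -, h3⟩ := approx hU hne
  obtain ⟨K, hK⟩ := eventually_atTop.1 ((tendsto_const_nhds.div_atTop
    (tendsto_pow_atTop_atTop_of_one_lt (r := (2 : ℝ)) one_lt_two) (a := 6)).eventually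
      (ge_mem_nhds (half_pos hε)))
  obtain ⟨k, k1, -, k2⟩ := pp_dense 0 K (mk (fun q => if q.1 = 0 then v q.2 else 0)
    (c0 (C := 0) fun L => ⟨R, fun n t a => by
      split_ifs with b
      · simp [h1 t (by omega)]
      · simp⟩)) (show 0 < ε / 4 by positivity)
  obtain ⟨δ, a1, N₀, a2⟩ := cnt k
  refine ⟨δ, a1, N₀, fun N hN => a2 N hN _ fun μ s b1 b2 b3 b4 b5 => h3 _ fun p => ?_⟩
  have c1 := b2 ▸ cls_le μ
  have c2 := q16 (show k < μ by omega)
  have c3 := l16 k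
  have c4 := l16 μ
  have e : F (fun t => u (t + s)) p - F v p = F (fun t => (if t + s < 9 * 16 ^ μ then
      pp ℝ k (0, t % 16 ^ k) else 0) - pp ℝ k (0, t)) p + F (fun t => if t + s < 9 * 16 ^ μ then 0
      else u (t + s)) p + F (fun t => pp ℝ k (0, t) - v t) p := by
    rw [F_sub, ← F_add, ← F_add]
    congr with t
    split_ifs with a
    · have : Nat.log 16 (t + s) = μ := Nat.log_eq_of_pow_le_of_lt_pow (by omega) (by
        rw [pow_succ]; omega)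
      obtain ⟨c, hc⟩ := b3
      simp only [u]
      rw [this, if_pos (by omega), b2, hc, Nat.add_mul_mod_self_left]
      ring
    · ring
  have d1 := per (k := k) (L := 2 * k) (M := 2 ^ k + 2 ^ k) (u := fun t => (if t + s < 9 * 16 ^ μ
    then pp ℝ k (0, t % 16 ^ k) else 0) - pp ℝ k (0, t)) (fun t => (norm_sub_le _ _).trans
      (add_le_add (by split_ifs; exacts [pp_le _ _, by simp]) (pp_le _ _))) (by omega)
    (fun t a => by rw [if_pos (by omega), Nat.mod_eq_of_lt a, sub_self]) (fun i a j b => by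
      have z : ∀ t, k ≤ t → pp ℝ k (0, t) = 0 := fun t c => by_contra fun d => c.not_gt (pp_ne d).2
      have := p16 a
      rw [z (4 * 16 ^ i + j) (by omega), z (5 * 16 ^ i + j) (by omega)]
      by_cases c : i < μ
      · obtain ⟨c', hc⟩ := pow_dvd_pow 16 a
        have := q16 c
        rw [if_pos (by omega), if_pos (by omega), show 5 * 16 ^ i + j = 4 * 16 ^ i + j + 16 ^ k * c'
          by omega, Nat.add_mul_mod_self_left]
      · have := p16 (not_lt.1 c)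
        rw [if_neg (by omega), if_neg (by omega)]) p
  have d2 := sparse (K := k) (L := k) (n := p.1) (t := p.2) (u := fun t => if t + s < 9 * 16 ^ μ
    then 0 else u (t + s)) (fun t a => by
      split_ifs at a ⊢ with b
      · exact absurd rfl a
      · obtain ⟨ν, f1, f2, f3⟩ := u1 _ a
        have f4 : μ < ν := by
          by_contra f
          have := p16 (not_lt.1 f)
          omega
        have := q16 f4
        exact ⟨ν, by omega, by omega, f3, by omega⟩) (Or.inr le_rfl)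
  have d4 : ‖F (fun t => pp ℝ k (0, t) - v t) p‖ ≤ 2 * (ε / 4) / 2 ^ 0 := by
    refine dv (i := 0) ?_ (by simp)
    obtain ⟨_ | i, j⟩ := p
    · exact (k2 (0, j)).trans (by linarith)
    · exact (norm_sub_le _ _).trans ((add_le_add (k2 (0, _)) (k2 (0, _))).trans (by linarith))
  rw [T_F hx, e]
  refine (norm_add₃_le).trans ?_
  have d5 : 2 * ((2 : ℝ) ^ k + 2 ^ k) / 2 ^ (2 * k) + 2 / 2 ^ k = 6 / 2 ^ k := by
    rw [two_mul k, pow_add]
    field_simp
    norm_num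
  linarith [hK k k1]

theorem no_null {x : ℕ → X} (h : ∀ n, T (x (n + 1)) = x n) (h0 : Tendsto x atTop (𝓝 0)) :
    (x 0).1 (0, 0) = 0 := by
  have h1 : ∀ m n, (T ^ m) (x (n + m)) = x n := fun m n => by
    induction m with
    | zero => rfl
    | succ m ih => rw [pow_succ, mul_apply_eq_comp, ← add_assoc, h, ih]
  have h2 : ∀ i, (x 0).1 (0, 0) = (x (16 ^ i)).1 (0, 0) - (x (5 * 16 ^ i)).1 (i + 1, 0) := fun i => by
    rw [rel, ← h1 (5 * 16 ^ i) 0, ← h1 (4 * 16 ^ i) (16 ^ i), T_pow, T_pow,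
      show 16 ^ i + 4 * 16 ^ i = 5 * 16 ^ i by omega]
    simp
  have h3 := tendsto_zero_iff_norm_tendsto_zero.1 h0
  have h4 := tendsto_pow_atTop_atTop_of_one_lt (r := 16) (by norm_num)
  refine norm_le_zero_iff.1 (ge_of_tendsto' (by
    simpa using (h3.comp h4).add (h3.comp (h4.const_mul_atTop' (show 0 < 5 by norm_num))))
    fun i => ?_)
  rw [h2 i]
  exact (norm_sub_le _ _).trans (add_le_add (le_norm _ _) (le_norm _ _))

end Pool.Agent.H32.NC
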