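import Mathlib

set_option autoImplicit false

namespace Pool.Agent.H32.OP

open MeasureTheory ProbabilityTheory Set
open scoped ENNReal

lemma indep_set {ι X : Type} [MeasurableSpace X] [Nonempty X] (μ : ι → Measure X)
    [∀ i, IsProbabilityMeasure (μ i)] {S T : Set ι} (hST : Disjoint S T) {A B : Set (ι → X)}
    (mA : MeasurableSet A) (mB : MeasurableSet B)
    (hA : ∀ ω ω' : ι → X, (∀ x ∈ S, ω x = ω' x) → ω ∈ A → ω' ∈ A)
    (hB : ∀ ω ω' : ι → X, (∀ x ∈ T, ω x = ω' x) → ω ∈ B → ω' ∈ B) :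
    Measure.infinitePi μ (A ∩ B) = Measure.infinitePi μ A * Measure.infinitePi μ B := by
  classical
  have key : ∀ (S : Set ι) (A : Set (ι → X)), MeasurableSet A →
      (∀ ω ω' : ι → X, (∀ x ∈ S, ω x = ω' x) → ω ∈ A → ω' ∈ A) →
      MeasurableSet[⨆ i ∈ S, MeasurableSpace.comap (fun ω : ι → X => ω i) inferInstance] A := by
    intro S A mA hA
    let ex : (ι → X) → ι → X := fun η x => if x ∈ S then η x else Classical.arbitrary X
    have h1 : A = ex ⁻¹' A := Set.ext fun ω =>
      ⟨hA _ _ fun x hx => by simp [ex, hx], hA _ _ fun x hx => by simp [ex, hx]⟩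
    rw [h1]
    refine (@measurable_pi_lambda _ _ _ (_) _ ex fun x => ?_) mA
    by_cases h : x ∈ S
    · simp only [ex, h, if_pos]
      exact Measurable.of_comap_le (le_iSup₂ (f := fun i (_ : i ∈ S) =>
        MeasurableSpace.comap (fun ω : ι → X => ω i) inferInstance) x h)
    · simp [ex, h]
  have h := (iIndepFun_iff_iIndep _ _ _).1
    (iIndepFun_infinitePi (P := μ) (X := fun _ a => a) fun _ => measurable_id)
  exact (Indep_iff _ _ _).1 (indep_iSup_of_disjoint (fun i => (measurable_pi_apply i).comap_le) h hST)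
    _ _ (key S A mA hA) (key T B mB hB)

lemma prod_blocks {ι X κ : Type} [MeasurableSpace X] [Nonempty X] (μ : ι → Measure X)
    [∀ i, IsProbabilityMeasure (μ i)] (blk : κ → Set ι) (hd : Pairwise fun a b => Disjoint (blk a) (blk b))
    (E : κ → Set (ι → X)) (mE : ∀ k, MeasurableSet (E k))
    (hE : ∀ k (ω ω' : ι → X), (∀ x ∈ blk k, ω x = ω' x) → ω ∈ E k → ω' ∈ E k) (S : Finset κ) :
    Measure.infinitePi μ (⋂ k ∈ S, E k) = ∏ k ∈ S, Measure.infinitePi μ (E k) := by
  classical
  induction S using Finset.induction_on with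
  | empty => simp
  | insert a S ha ih =>
    rw [Finset.set_biInter_insert, Finset.prod_insert ha, ← ih]
    refine indep_set μ (S := blk a) (T := ⋃ k ∈ S, blk k) ?_ (mE a)
      (S.measurableSet_biInter fun k _ => mE k) (hE a) fun ω ω' h k => ?_
    · simp only [disjoint_iUnion_right]
      exact fun k hk => hd fun e => ha (e ▸ hk)
    · simp only [mem_iInter] at k ⊢
      exact fun b hb => hE b ω ω' (fun x hx => h x (mem_biUnion hb hx)) (k b hb)

section walks

variable {α σ β : Type} (mv : σ → α → α) (lab : σ → α → Option β)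

def fin : α → List σ → α
  | a, [] => a
  | a, s :: l => fin (mv s a) l

def verts : α → List σ → List α
  | a, [] => [a]
  | a, s :: l => a :: verts (mv s a) l

def labs : α → List σ → List β
  | _, [] => []
  | a, s :: l => (lab s a).toList ++ labs (mv s a) l

lemma self_mem (a : α) (l : List σ) : a ∈ verts mv a l := by
  cases l <;> simp [verts]

lemma cut {a : α} (l : List σ) : ∀ c, a ∈ verts mv c l → ∃ l', fin mv a l' = fin mv c l ∧
    verts mv a l' <:+ verts mv c l ∧ labs mv lab a l' <:+ labs mv lab c l := by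
  induction l with
  | nil =>
    intro c h
    obtain rfl : a = c := by simpa [verts] using h
    exact ⟨[], rfl, List.suffix_rfl, List.suffix_rfl⟩
  | cons s l ih =>
    intro c h
    rcases List.mem_cons.1 h with rfl | h
    · exact ⟨s :: l, rfl, List.suffix_rfl, List.suffix_rfl⟩
    · obtain ⟨l', h1, h2, h3⟩ := ih _ h
      exact ⟨l', h1, h2.trans (List.suffix_cons _ _), h3.trans (List.suffix_append _ _)⟩

lemma mem_labs {b : β} (l : List σ) : ∀ a, b ∈ labs mv lab a l →
    ∃ s c, lab s c = some b ∧ c ∈ verts mv a l ∧ mv s c ∈ verts mv a l := by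
  induction l with
  | nil => simp [labs]
  | cons s l ih =>
    intro a h
    rcases List.mem_append.1 h with h | h
    · exact ⟨s, a, by simpa using h, List.mem_cons_self, List.mem_cons_of_mem _ (self_mem _ _ _)⟩
    · obtain ⟨s', c, h1, h2, h3⟩ := ih _ h
      exact ⟨s', c, h1, List.mem_cons_of_mem _ h2, List.mem_cons_of_mem _ h3⟩

lemma simple (hl : ∀ s a s' c b, lab s a = some b → lab s' c = some b → c = a ∨ mv s' c = a)
    (on : β → Prop) {a z : α}
    (h : Relation.ReflTransGen (fun u v => ∃ s, v = mv s u ∧ ∀ b, lab s u = some b → on b) a z) :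
    ∃ l, fin mv a l = z ∧ (verts mv a l).Nodup ∧ (labs mv lab a l).Nodup ∧
      ∀ b ∈ labs mv lab a l, on b := by
  induction h using Relation.ReflTransGen.head_induction_on with
  | refl => exact ⟨[], rfl, by simp [verts], by simp [labs], by simp [labs]⟩
  | @head a c h _ ih =>
    obtain ⟨s, rfl, hs⟩ := h
    obtain ⟨l, h1, h2, h3, h4⟩ := ih
    by_cases ha : a ∈ verts mv (mv s a) l
    · obtain ⟨l', k1, k2, k3⟩ := cut mv lab l _ ha
      exact ⟨l', k1.trans h1, h2.sublist k2.sublist, h3.sublist k3.sublist,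
        fun b hb => h4 b (k3.subset hb)⟩
    · refine ⟨s :: l, h1, List.nodup_cons.2 ⟨ha, h2⟩, ?_, fun b hb => ?_⟩
      · refine List.Nodup.append (by cases lab s a <;> simp) h3 fun b hb hb' => ha ?_
        obtain ⟨s', c, k1, k2, k3⟩ := mem_labs mv lab l _ hb'
        rcases hl s a s' c b (by simpa using hb) k1 with rfl | k
        · exact k2
        · exact k ▸ k3
      · rcases List.mem_append.1 hb with hb | hb
        · exact hs b (by simpa using hb)
        · exact h4 b hb

lemma sum_lists [Fintype σ] (r : ℝ≥0∞) :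
    ∑' l : List σ, r ^ l.length = (1 - Fintype.card σ * r)⁻¹ := by
  rw [← (List.equivSigmaTuple (α := σ)).symm.tsum_eq, ENNReal.tsum_sigma', ← ENNReal.tsum_geometric]
  refine tsum_congr fun n => ?_
  simp [List.equivSigmaTuple, mul_pow]

lemma walk_bound {Ω : Type} [MeasurableSpace Ω] [Fintype σ] (μ : Measure Ω)
    (hl : ∀ s a s' c b, lab s a = some b → lab s' c = some b → c = a ∨ mv s' c = a)
    (on : Ω → β → Prop) {ε c r : ℝ≥0∞}
    (h : ∀ S : Finset β, μ {ω | ∀ b ∈ S, on ω b} ≤ ε ^ S.card) (a : α) (Z : Set α)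
    (hZ : ∀ l, fin mv a l ∈ Z → ε ^ (labs mv lab a l).length ≤ c * r ^ l.length) :
    μ {ω | ∃ z ∈ Z, Relation.ReflTransGen
      (fun u v => ∃ s, v = mv s u ∧ ∀ b, lab s u = some b → on ω b) a z} ≤
      c * (1 - Fintype.card σ * r)⁻¹ := by
  classical
  rw [← sum_lists, ← ENNReal.tsum_mul_left]
  refine (measure_mono (t := ⋃ l : List σ, {ω | (fin mv a l ∈ Z ∧ (labs mv lab a l).Nodup) ∧
    ∀ b ∈ (labs mv lab a l).toFinset, on ω b}) ?_).trans ((measure_iUnion_le _).trans
      (ENNReal.tsum_le_tsum fun l => ?_))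
  · rintro ω ⟨z, hz, k⟩
    obtain ⟨l, rfl, -, k2, k3⟩ := simple mv lab hl _ k
    exact mem_iUnion.2 ⟨l, ⟨hz, k2⟩, fun b hb => k3 b (List.mem_toFinset.1 hb)⟩
  · by_cases k : fin mv a l ∈ Z ∧ (labs mv lab a l).Nodup
    · refine (measure_mono fun ω hω => hω.2).trans ((h _).trans ?_)
      rw [List.toFinset_card_of_nodup k.2]
      exact hZ l k.1
    · simp [k]

end walks

def dmv {τ : Type} : Bool ⊕ τ → ℤ × ℤ → ℤ × ℤ
  | .inl true, x => (x.1, x.2 + 1)
  | .inl false, x => (x.1 - 1, x.2 - 1)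
  | .inr _, x => (x.1 + 1, x.2)

def dlab {τ : Type} : Bool ⊕ τ → ℤ × ℤ → Option ((ℤ × ℤ) × τ)
  | .inl _, _ => none
  | .inr t, x => some (x, t)

lemma dcount {τ : Type} (l : List (Bool ⊕ τ)) : ∀ a : ℤ × ℤ,
    (3 * (labs dmv dlab a l).length : ℤ) = l.length + 2 * ((fin dmv a l).1 - a.1) -
      ((fin dmv a l).2 - a.2) := by
  induction l with
  | nil => simp [labs, fin]
  | cons s l ih =>
    intro a
    have := ih (dmv s a)
    rcases s with (_ | _) | t <;> simp [labs, fin, dmv, dlab] at this ⊢ <;> omega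

/-- Contour bound for oriented percolation. -/
theorem op_bound {Ω τ : Type} [MeasurableSpace Ω] [Fintype τ] (μ : Measure Ω)
    (cl : Ω → (ℤ × ℤ) × τ → Prop) (r : ℝ≥0∞)
    (h : ∀ S : Finset ((ℤ × ℤ) × τ), μ {ω | ∀ b ∈ S, cl ω b} ≤ (r ^ 3) ^ S.card) :
    μ {ω | ¬ ∃ γ : ℕ → ℤ, γ 0 = 0 ∧ ∀ n, (γ (n + 1) = γ n ∨ γ (n + 1) = γ n + 1) ∧
      ∀ t, ¬ cl ω ((γ n, n), t)} ≤ r ^ 2 * (1 - (2 + Fintype.card τ) * r)⁻¹ := by
  have k := walk_bound (dmv (τ := τ)) dlab μ (fun s a s' c b h1 h2 => by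
    rcases s with _ | _ <;> rcases s' with _ | _ <;> simp_all [dlab, Prod.ext_iff]) cl h (0, 0) {(1, 0)}
    (c := r ^ 2) (r := r) fun l hl => by
      have := dcount l (0, 0)
      rw [mem_singleton_iff.1 hl] at this
      rw [← pow_mul, ← pow_add]
      exact le_of_eq (congrArg _ (by simp at this; omega))
  simp only [Fintype.card_sum, Fintype.card_bool, Nat.cast_add, Nat.cast_ofNat] at k
  refine (measure_mono fun ω hω => ?_).trans k
  by_contra hc
  refine hω ?_
  set R := Relation.ReflTransGen fun u v : ℤ × ℤ =>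
    ∃ s : Bool ⊕ τ, v = dmv s u ∧ ∀ b, dlab s u = some b → cl ω b with hR
  have step : ∀ x : ℤ × ℤ, ¬ R x (x.1 + 1, x.2) → (∀ t, ¬ cl ω (x, t)) ∧
      ∃ i, (i = x.1 ∨ i = x.1 + 1) ∧ ¬ R (i, x.2 + 1) (i + 1, x.2 + 1) := by
    intro x hx
    refine ⟨fun t ht => hx (.single ⟨.inr t, rfl, fun b hb => ?_⟩), ?_⟩
    · obtain rfl : (x, t) = b := by simpa [dlab] using hb
      exact ht
    · by_contra k
      simp only [not_exists, not_and, not_not] at k
      exact hx (.head ⟨.inl true, rfl, by simp [dlab]⟩ (((k _ (.inl rfl)).trans (k _ (.inr rfl))).tail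
        ⟨.inl false, by simp [dmv], by simp [dlab]⟩))
  choose! h1 g h2 h3 using step
  let γ : ℕ → ℤ := fun n => n.rec 0 fun n i => g (i, n)
  have h4 : ∀ n : ℕ, ¬ R (γ n, n) (γ n + 1, n) := by
    intro n
    induction n with
    | zero => exact fun k => hc ⟨(1, 0), rfl, k⟩
    | succ n ih => exact_mod_cast h3 _ ih
  exact ⟨γ, rfl, fun n => ⟨h2 _ (h4 n), h1 _ (h4 n)⟩⟩

end Pool.Agent.H32.OP
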