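import Mathlib

set_option autoImplicit false
open MeasureTheory Filter Topology

namespace Pool.Agent.H32.PCA

/-- Transition kernel: independent new symbols, the one at `k` with law `F` of the pattern
of `x` on `k + N`. -/
noncomputable def ker {ι A : Type} [Add ι] [MeasurableSpace A] (N : Finset ι)
    (F : (N → A) → Measure A) (x : ι → A) : Measure (ι → A) :=
  Measure.infinitePi fun k : ι => F fun v : N => x (k + v)

/-- Law at time `t` from the initial law `μ`. -/
noncomputable def evolve {ι A : Type} [Add ι] [MeasurableSpace A] (N : Finset ι)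
    (F : (N → A) → Measure A) (t : ℕ) (μ : Measure (ι → A)) : Measure (ι → A) :=
  (fun ν : Measure (ι → A) => ν.bind (ker N F))^[t] μ

/-- Cylinder of configurations equal to `a` on `S`. -/
def cyl {ι A : Type} (S : Finset ι) (a : ι → A) : Set (ι → A) := {x | ∀ k ∈ S, x k = a k}

/-- `π` is the only invariant probability measure and every initial law converges weakly to it. -/
def IsErgodic {ι A : Type} [Add ι] [MeasurableSpace A] [TopologicalSpace A] (N : Finset ι)
    (F : (N → A) → Measure A) (π : Measure (ι → A)) : Prop :=
  IsProbabilityMeasure π ∧ π.bind (ker N F) = π ∧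
  (∀ ν : Measure (ι → A), IsProbabilityMeasure ν → ν.bind (ker N F) = ν → ν = π) ∧
  ∀ μ : Measure (ι → A), IsProbabilityMeasure μ → ∀ g : C(ι → A, ℝ),
    Tendsto (fun t : ℕ => ∫ x, g x ∂(evolve N F t μ)) atTop (𝓝 (∫ x, g x ∂π))

end Pool.Agent.H32.PCA
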