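import Pool.Agent.H32.PCA

set_option autoImplicit false
set_option linter.unusedSectionVars false
open MeasureTheory ProbabilityTheory Filter Topology
open scoped ENNReal NNReal Pointwise

namespace Pool.Agent.H32.PCA

variable {ι A : Type} [MeasurableSpace A] [Fintype A] [DiscreteMeasurableSpace A]

section
variable [TopologicalSpace A] [DiscreteTopology A] [Countable ι]

lemma isClopen_cyl (S : Finset ι) (u : ι → A) : IsClopen (cyl S u) := by
  have : cyl S u = ⋂ k ∈ S, (fun x : ι → A => x k) ⁻¹' {u k} := by
    ext x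
    simp [cyl]
  rw [this]
  exact S.finite_toSet.isClopen_biInter fun k _ =>
    (isClopen_discrete _).preimage (continuous_apply k)

lemma tendsto_of_cyl (μ : ℕ → ProbabilityMeasure (ι → A)) (π : ProbabilityMeasure (ι → A))
    (h : ∀ S a, Tendsto (fun t => (μ t : Measure (ι → A)) (cyl S a)) atTop
      (𝓝 ((π : Measure (ι → A)) (cyl S a)))) : Tendsto μ atTop (𝓝 π) := by
  classical
  have : BorelSpace A := DiscreteMeasurableSpace.toBorelSpace
  have hp : IsPiSystem {C : Set (ι → A) | ∃ S a, C = cyl S a} := by
    rintro - ⟨S, a, rfl⟩ - ⟨S', a', rfl⟩ ⟨x, hx, hx'⟩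
    refine ⟨S ∪ S', x, Set.ext fun y => ⟨fun hy k hk => ?_, fun hy => ⟨fun k hk => ?_, fun k hk => ?_⟩⟩⟩
    · rcases Finset.mem_union.1 hk with hk | hk
      · exact (hy.1 k hk).trans (hx k hk).symm
      · exact (hy.2 k hk).trans (hx' k hk).symm
    · exact (hy k (Finset.mem_union_left _ hk)).trans (hx k hk)
    · exact (hy k (Finset.mem_union_right _ hk)).trans (hx' k hk)
  refine hp.tendsto_probabilityMeasure_of_tendsto_of_mem ?_ ?_ ?_
  · rintro - ⟨S, a, rfl⟩
    exact measurableSet_cyl S a
  · intro u hu x hx
    have hU := hu.mem_nhds hx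
    rw [nhds_pi, Filter.mem_pi'] at hU
    obtain ⟨S, U, hU, hsub⟩ := hU
    refine ⟨cyl S x, ⟨S, x, rfl⟩, (isClopen_cyl S x).isOpen.mem_nhds fun _ _ => rfl,
      fun y hy => hsub fun k hk => ?_⟩
    rw [hy k hk]
    exact mem_of_mem_nhds (hU k)
  · rintro - ⟨S, a, rfl⟩
    exact (ENNReal.tendsto_toNNReal (measure_ne_top _ _)).comp (h S a)

def pm (ν : Measure (ι → A)) [IsProbabilityMeasure ν] : ProbabilityMeasure (ι → A) :=
  ⟨ν, inferInstance⟩

lemma ext_cyl (ν π : Measure (ι → A)) [IsProbabilityMeasure ν] [IsProbabilityMeasure π]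
    (h : ∀ S a, ν (cyl S a) = π (cyl S a)) : ν = π := by
  have : BorelSpace A := DiscreteMeasurableSpace.toBorelSpace
  have h1 := tendsto_of_cyl (fun _ => pm ν)
    (pm π) fun S a => by
      change Tendsto (fun _ => ν (cyl S a)) _ (𝓝 (π (cyl S a)))
      rw [h]
      exact tendsto_const_nhds
  have h2 : pm ν = pm π := tendsto_nhds_unique tendsto_const_nhds h1
  exact congrArg Subtype.val h2

lemma continuous_of_dependsOn {B : Type} [TopologicalSpace B] {g : (ι → A) → B} {s : Finset ι}
    (hg : DependsOn g (s : Set ι)) (x0 : ι → A) : Continuous g := by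
  obtain ⟨g', rfl⟩ := exists_comp_restrict hg x0
  exact (continuous_of_discreteTopology (f := g')).comp (Finset.continuous_restrict s)

variable [AddCommGroup ι] (N : Finset ι) (F : (N → A) → Measure A)
  [∀ u, IsProbabilityMeasure (F u)]

theorem isErgodic_of_close (x0 : ι → A)
    (h : ∀ (S : Finset ι) (a : ι → A) (ε : ℝ≥0∞), 0 < ε → ∀ᶠ t in atTop,
      ∀ μ ν : Measure (ι → A), IsProbabilityMeasure μ → IsProbabilityMeasure ν →
        evolve N F t μ (cyl S a) ≤ evolve N F t ν (cyl S a) + ε) :
    ∃ π, IsErgodic N F π := by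
  classical
  have : BorelSpace A := DiscreteMeasurableSpace.toBorelSpace
  let μ : ℕ → ProbabilityMeasure (ι → A) := fun t => pm (evolve N F t (Measure.dirac x0))
  obtain ⟨π, -, hπ⟩ := isCompact_univ.ultrafilter_le_nhds ((hyperfilter ℕ).map μ) (by simp)
  have hU : ((hyperfilter ℕ : Ultrafilter ℕ) : Filter ℕ) ≤ atTop := Nat.hyperfilter_le_atTop
  have hlim : ∀ S a, Tendsto (fun t => evolve N F t (Measure.dirac x0) (cyl S a)) (hyperfilter ℕ)
      (𝓝 ((π : Measure (ι → A)) (cyl S a))) := fun S a =>
    ProbabilityMeasure.tendsto_measure_of_null_frontier_of_tendsto' (μs := μ) hπ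
      (by simp [(isClopen_cyl S a).frontier_eq])
  have key : ∀ ν : Measure (ι → A), IsProbabilityMeasure ν → ∀ S a,
      Tendsto (fun t => evolve N F t ν (cyl S a)) atTop (𝓝 ((π : Measure (ι → A)) (cyl S a))) := by
    intro ν hν S a
    rw [ENNReal.tendsto_nhds (measure_ne_top _ _)]
    intro ε hε
    filter_upwards [h S a ε hε] with t ht
    have h1 : ∀ᶠ n in hyperfilter ℕ, ∃ s, evolve N F n (Measure.dirac x0) =
        evolve N F t (evolve N F s (Measure.dirac x0)) := by
      filter_upwards [hU (eventually_ge_atTop t)] with n hn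
      obtain ⟨s, rfl⟩ := Nat.exists_eq_add_of_le hn
      exact ⟨s, Function.iterate_add_apply _ _ _ _⟩
    constructor
    · rw [tsub_le_iff_right]
      refine le_of_tendsto (hlim S a) ?_
      filter_upwards [h1] with n ⟨s, hs⟩
      rw [hs]
      exact ht _ _ inferInstance hν
    · refine ge_of_tendsto ((hlim S a).add_const ε) ?_
      filter_upwards [h1] with n ⟨s, hs⟩
      rw [hs]
      exact ht _ _ hν inferInstance
  have conv : ∀ (ν : Measure (ι → A)) (hν : IsProbabilityMeasure ν),
      Tendsto (fun t => pm (evolve N F t ν)) atTop (𝓝 π) :=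
    fun ν hν => tendsto_of_cyl _ _ (key ν hν)
  refine ⟨π, π.2, ext_cyl _ _ fun S a => ?_, fun ν hν hinv => ext_cyl _ _ fun S a => ?_,
    fun ν hν g => ?_⟩
  · have hd := dependsOn_T N F (dependsOn_cyl S a)
    have h1 : ∀ x, T N F ((cyl S a).indicator 1) x ≠ ⊤ := fun x =>
      ne_top_of_le_ne_top ENNReal.one_ne_top (T_le_one N F (g := (cyl S a).indicator 1) (fun x =>
        Set.indicator_apply_le' (fun _ => le_rfl) (fun _ => zero_le_one)) x)
    have hc : Continuous fun x => (T N F ((cyl S a).indicator 1) x).toNNReal :=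
      continuous_of_dependsOn (s := S + N) (fun x y hxy => by simp only [hd hxy]) x0
    have h2 := ProbabilityMeasure.tendsto_iff_forall_lintegral_tendsto.1
      (conv (Measure.dirac x0) inferInstance) (BoundedContinuousFunction.mkOfCompact ⟨_, hc⟩)
    simp only [BoundedContinuousFunction.mkOfCompact_apply, ContinuousMap.coe_mk,
      ENNReal.coe_toNNReal (h1 _), pm, ProbabilityMeasure.coe_mk] at h2
    have hm := measurable_one.indicator (β := ℝ≥0∞) (measurableSet_cyl S a)
    simp only [← lintegral_evolve_succ N F hm, ← lintegral_bind_ker N F _ hm,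
      lintegral_indicator_one (measurableSet_cyl S a)] at h2
    exact tendsto_nhds_unique h2 ((key _ inferInstance S a).comp (tendsto_add_atTop_nat 1))
  · have := key ν hν S a
    simp only [evolve_of_invariant N F hinv] at this
    exact tendsto_nhds_unique tendsto_const_nhds this
  · exact ProbabilityMeasure.tendsto_iff_forall_integral_tendsto.1 (conv ν hν)
      (BoundedContinuousFunction.mkOfCompact g)

end

variable {B : Type} [MeasurableSpace B] [Fintype B] [DiscreteMeasurableSpace B]
  [AddCommGroup ι] (N : Finset ι) (F : (N → A) → Measure A) [∀ u, IsProbabilityMeasure (F u)]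

lemma evolve_map (G : (N → B) → Measure B) [∀ u, IsProbabilityMeasure (G u)] (p : B → A)
    (hp : ∀ u, (G u).map p = F fun v => p (u v)) (t : ℕ) (M : Measure (ι → B)) :
    (evolve N G t M).map (fun y i => p (y i)) = evolve N F t (M.map fun y i => p (y i)) := by
  have mp : Measurable fun (y : ι → B) i => p (y i) :=
    measurable_pi_lambda _ fun i => (Measurable.of_discrete (f := p)).comp (measurable_pi_apply i)
  induction t with
  | zero => rfl
  | succ t ih =>
    rw [evolve_succ, evolve_succ, ← ih]
    ext C hC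
    rw [Measure.bind_apply hC (measurable_ker N F).aemeasurable, Measure.map_apply mp hC,
      Measure.bind_apply (mp hC) (measurable_ker N G).aemeasurable,
      lintegral_map (f := fun a => ker N F a C)
        ((Measure.measurable_coe hC).comp (measurable_ker N F)) mp]
    refine lintegral_congr fun x => ?_
    rw [← Measure.map_apply mp hC, ker, Measure.infinitePi_map_pi _ fun _ => Measurable.of_discrete]
    simp only [hp]
    rfl

def dis (v : ι) : Set (ι → A × A) := {z | (z v).1 ≠ (z v).2}

lemma measurableSet_dis (v : ι) : MeasurableSet (dis (A := A) v) :=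
  measurable_pi_apply (X := fun _ : ι => A × A) v
    (MeasurableSet.of_discrete (s := {a : A × A | a.1 ≠ a.2}))

theorem isErgodic_of_coupling [TopologicalSpace A] [DiscreteTopology A] [Countable ι] (x0 : ι → A)
    (G : (N → A × A) → Measure (A × A)) [∀ u, IsProbabilityMeasure (G u)]
    (h1 : ∀ u, (G u).map Prod.fst = F fun v => (u v).1)
    (h2 : ∀ u, (G u).map Prod.snd = F fun v => (u v).2)
    (h : ∀ (v : ι) (ε : ℝ≥0∞), 0 < ε → ∀ᶠ t in atTop, ∀ M : Measure (ι → A × A),
      IsProbabilityMeasure M → evolve N G t M (dis v) ≤ ε) : ∃ π, IsErgodic N F π := by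
  refine isErgodic_of_close N F x0 fun S a ε hε => ?_
  have hε' : 0 < ε / S.card := ENNReal.div_pos hε.ne' (ENNReal.natCast_ne_top _)
  filter_upwards [(eventually_all_finset S).2 fun v _ => h v _ hε'] with t ht μ ν hμ hν
  have mz : Measurable fun (p : (ι → A) × (ι → A)) i => (p.1 i, p.2 i) := by fun_prop
  have m1 : Measurable fun (y : ι → A × A) i => (y i).1 := by fun_prop
  have m2 : Measurable fun (y : ι → A × A) i => (y i).2 := by fun_prop
  let M := (μ.prod ν).map fun (p : (ι → A) × (ι → A)) i => (p.1 i, p.2 i)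
  have : IsProbabilityMeasure M := Measure.isProbabilityMeasure_map mz.aemeasurable
  have e1 : M.map (fun y i => (y i).1) = μ := by
    rw [Measure.map_map m1 mz]
    exact (Measure.map_fst_prod (μ := μ) (ν := ν)).trans (by simp)
  have e2 : M.map (fun y i => (y i).2) = ν := by
    rw [Measure.map_map m2 mz]
    exact (Measure.map_snd_prod (μ := μ) (ν := ν)).trans (by simp)
  rw [← e1, ← e2, ← evolve_map N F G _ h1, ← evolve_map N F G _ h2,
    Measure.map_apply m1 (measurableSet_cyl S a), Measure.map_apply m2 (measurableSet_cyl S a)]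
  refine (measure_mono (t := (fun y i => (y i).2) ⁻¹' cyl S a ∪ ⋃ v ∈ S, dis v) ?_).trans
    ((measure_union_le _ _).trans (add_le_add_right ((measure_biUnion_finset_le _ _).trans ?_) _))
  · intro y hy
    by_contra hc
    simp only [Set.mem_union, Set.mem_iUnion, not_or, not_exists, dis, Set.mem_ofPred_eq,
      not_not] at hc
    exact hc.1 fun k hk => (hc.2 k hk).symm.trans (hy k hk)
  · refine (Finset.sum_le_card_nsmul S _ (ε / S.card) fun v hv => ht v hv M this).trans ?_
    rw [nsmul_eq_mul]
    exact ENNReal.mul_div_le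

theorem isErgodic_of_block [TopologicalSpace A] [DiscreteTopology A] [Countable ι] (x0 : ι → A)
    (G : (N → A × A) → Measure (A × A)) [∀ u, IsProbabilityMeasure (G u)]
    (h1 : ∀ u, (G u).map Prod.fst = F fun v => (u v).1)
    (h2 : ∀ u, (G u).map Prod.snd = F fun v => (u v).2)
    (hd : ∀ u : N → A × A, (∀ v, (u v).1 = (u v).2) → G u {a | ¬ a.1 = a.2} = 0)
    (t0 : ℕ) (c : ℕ) (p : ℝ≥0∞) (hcp : c * p < 1)
    (hK : ∀ v, ∃ K : Finset ι, K.card ≤ c ∧ DependsOn ((T N G)^[t0] ((dis v).indicator 1)) (K : Set ι))
    (hp : ∀ v z, evolve N G t0 (Measure.dirac z) (dis v) ≤ p) : ∃ π, IsErgodic N F π := by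
  classical
  have hz : ∀ v t (z : ι → A × A), (∀ w, (z w).1 = (z w).2) →
      (T N G)^[t] ((dis v).indicator 1) z = 0 := by
    intro v t
    induction t with
    | zero => exact fun z hz => Set.indicator_of_notMem (fun h : z ∈ dis v => h (hz v)) _
    | succ t ih =>
      intro z hz
      rw [Function.iterate_succ_apply', T, lintegral_congr_ae (g := fun _ => 0), lintegral_zero]
      filter_upwards [ae_ker N G z (fun _ a => a.1 = a.2) fun k => hd _ fun v => hz _] with y hy
      exact ih y hy
  have step : ∀ (M : Measure (ι → A × A)) (b : ℝ≥0∞), (∀ w, M (dis w) ≤ b) → ∀ v,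
      evolve N G t0 M (dis v) ≤ c * p * b := by
    intro M b hb v
    obtain ⟨K, hK1, hK2⟩ := hK v
    rw [← lintegral_indicator_one (measurableSet_dis v),
      lintegral_evolve N G (measurable_one.indicator (measurableSet_dis v))]
    calc _ ≤ ∫⁻ z, ∑ w ∈ K, p * (dis w).indicator 1 z ∂M := by
          refine lintegral_mono fun z => ?_
          by_cases hw : ∃ w ∈ K, z ∈ dis w
          · obtain ⟨w, hw, hzw⟩ := hw
            refine le_trans ?_ (Finset.single_le_sum (f := fun w => p * (dis w).indicator 1 z)
              (fun _ _ => zero_le) hw)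
            rw [← evolve_dirac N G (measurableSet_dis v)]
            simpa [Set.indicator_of_mem hzw] using hp v z
          · have := hK2 (x := z) (y := fun w => ((z w).1, (z w).1)) fun w hwK => Prod.ext rfl (by
              by_contra hc
              exact hw ⟨w, hwK, fun h => hc h.symm⟩)
            rw [this, hz v t0 _ fun _ => rfl]
            exact zero_le
      _ = ∑ w ∈ K, p * M (dis w) := by
          rw [lintegral_finsetSum _ fun w _ =>
            (measurable_one.indicator (measurableSet_dis w)).const_mul p]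
          refine Finset.sum_congr rfl fun w _ => ?_
          rw [lintegral_const_mul _ (measurable_one.indicator (measurableSet_dis w)),
            lintegral_indicator_one (measurableSet_dis w)]
      _ ≤ _ := by
          refine (Finset.sum_le_card_nsmul K _ (p * b) fun w _ => mul_le_mul_right (hb w) _).trans ?_
          rw [nsmul_eq_mul, mul_assoc]
          exact mul_le_mul_left (Nat.cast_le.2 hK1) _
  have it : ∀ n (M : Measure (ι → A × A)), IsProbabilityMeasure M → ∀ v,
      evolve N G (n * t0) M (dis v) ≤ (c * p) ^ n := by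
    intro n M hM
    induction n with
    | zero => exact fun v => by simpa [evolve] using prob_le_one
    | succ n ih =>
      intro v
      rw [add_one_mul, add_comm, evolve, Function.iterate_add_apply, pow_succ']
      exact step _ _ ih v
  refine isErgodic_of_coupling N F x0 G h1 h2 fun v ε hε => ?_
  obtain ⟨n, hn⟩ := ((ENNReal.tendsto_pow_atTop_nhds_zero_of_lt_one hcp).eventually
    (ge_mem_nhds hε)).exists
  filter_upwards [eventually_ge_atTop (n * t0)] with t ht M hM
  obtain ⟨s, rfl⟩ := Nat.exists_eq_add_of_le ht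
  rw [evolve, Function.iterate_add_apply]
  exact (it n (evolve N G s M) inferInstance v).trans hn

end Pool.Agent.H32.PCA
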