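import Mathlib

set_option autoImplicit false
set_option linter.unusedSectionVars false

namespace Pool.Agent.H32.PK

open Set Function

variable {Γ X : Type*} [Group Γ] [Countable Γ] [MulAction Γ X] [MeasurableSpace X]
  [MeasurableSpace Γ] [DiscreteMeasurableSpace Γ] [MeasurableConstSMul Γ X]

variable (Γ) in
def Coc (φ : X × ℕ → X × ℕ) : Prop :=
  ∃ c : X × ℕ → Γ × ℕ, Measurable c ∧ ∀ ω, φ ω = ((c ω).1 • ω.1, (c ω).2)

lemma Coc.meas {φ : X × ℕ → X × ℕ} (h : Coc Γ φ) : Measurable φ := by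
  obtain ⟨c, hc, h⟩ := h
  have h1 : Measurable fun p : X × Γ => p.2 • p.1 :=
    measurable_from_prod_countable_left fun g => measurable_const_smul g
  rw [funext h]
  exact (h1.comp (measurable_fst.prodMk hc.fst)).prodMk hc.snd

lemma Coc.mv (g : Γ) (n : ℕ) : Coc Γ fun ω : X × ℕ => (g • ω.1, n) :=
  ⟨fun _ => (g, n), measurable_const, fun _ => rfl⟩

lemma Coc.lv {f : X × ℕ → ℕ} (hf : Measurable f) : Coc Γ fun ω : X × ℕ => (ω.1, f ω) :=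
  ⟨fun ω => (1, f ω), measurable_const.prodMk hf, fun _ => by simp⟩

lemma Coc.comp {φ ψ : X × ℕ → X × ℕ} (h : Coc Γ φ) (k : Coc Γ ψ) : Coc Γ (φ ∘ ψ) := by
  have hk := k.meas
  obtain ⟨c, hc, h⟩ := h
  obtain ⟨d, hd, k⟩ := k
  have h1 : Measurable fun p : Γ × Γ => p.1 * p.2 := Measurable.of_discrete
  refine ⟨fun ω => ((c (ψ ω)).1 * (d ω).1, (c (ψ ω)).2),
    (h1.comp ((hc.comp hk).fst.prodMk hd.fst)).prodMk (hc.comp hk).snd, fun ω => ?_⟩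
  rw [comp_apply, h, mul_smul, congrArg Prod.fst (k ω)]

lemma Coc.iter {φ : X × ℕ → X × ℕ} (h : Coc Γ φ) (k : ℕ) : Coc Γ φ^[k] := by
  induction k with
  | zero => exact Coc.lv measurable_snd
  | succ k ih => exact ih.comp h

lemma Coc.sel {σ : X × ℕ → ℕ} (hσ : Measurable σ) {φ : ℕ → X × ℕ → X × ℕ}
    (h : ∀ i, Coc Γ (φ i)) : Coc Γ fun ω => φ (σ ω) ω := by
  choose c hc h using h
  have h1 : Measurable fun p : (X × ℕ) × ℕ => c p.2 p.1 := measurable_from_prod_countable_left hc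
  exact ⟨fun ω => c (σ ω) ω, h1.comp (measurable_id.prodMk hσ), fun ω => h _ _⟩

variable (Γ) in
def Inv (Z : Set X) : Prop := ∀ (g : Γ) x, g • x ∈ Z ↔ x ∈ Z

lemma Coc.inv {φ : X × ℕ → X × ℕ} (h : Coc Γ φ) {Z : Set X} (hZ : Inv Γ Z) (ω : X × ℕ) :
    (φ ω).1 ∈ Z ↔ ω.1 ∈ Z := by
  obtain ⟨c, -, h⟩ := h
  rw [h, hZ]

variable (Γ) in
def Emb (A B : Set (X × ℕ)) : Prop := ∃ φ, Coc Γ φ ∧ InjOn φ A ∧ MapsTo φ A B

lemma Emb.trans {A B C : Set (X × ℕ)} (h : Emb Γ A B) (k : Emb Γ B C) : Emb Γ A C := by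
  obtain ⟨φ, h1, h2, h3⟩ := h
  obtain ⟨ψ, k1, k2, k3⟩ := k
  exact ⟨ψ ∘ φ, k1.comp h1, k2.comp h2 h3, k3.comp h3⟩

lemma Emb.of_subset {A B : Set (X × ℕ)} (h : A ⊆ B) : Emb Γ A B :=
  ⟨id, Coc.lv measurable_snd, injOn_id _, h⟩

lemma Emb.res {A B : Set (X × ℕ)} (h : Emb Γ A B) {Z : Set X} (hZ : Inv Γ Z) :
    Emb Γ (A ∩ Prod.fst ⁻¹' Z) (B ∩ Prod.fst ⁻¹' Z) := by
  obtain ⟨φ, h1, h2, h3⟩ := h
  exact ⟨φ, h1, h2.mono inter_subset_left, fun ω k => ⟨h3 k.1, (h1.inv hZ ω).2 k.2⟩⟩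

lemma idx {ι : Type*} [Countable ι] {Y : Type*} [MeasurableSpace Y] (t : ι → Set Y)
    (ht : ∀ i, MeasurableSet (t i)) (i0 : ι) : ∃ (e : ℕ → ι) (σ : Y → ℕ), Measurable σ ∧
      (∀ x i, x ∈ t i → x ∈ t (e (σ x))) ∧ ∀ x y, (∀ i, x ∈ t i ↔ y ∈ t i) → σ x = σ y := by
  classical
  have : Nonempty ι := ⟨i0⟩
  obtain ⟨e, he⟩ := exists_surjective_nat ι
  have h : ∀ x, ∃ n, x ∈ t (e n) ∨ ∀ i, x ∉ t i := fun x => by
    by_cases k : ∃ i, x ∈ t i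
    · obtain ⟨i, hi⟩ := k
      obtain ⟨n, rfl⟩ := he i
      exact ⟨n, Or.inl hi⟩
    · exact ⟨0, Or.inr (not_exists.1 k)⟩
  refine ⟨e, fun x => Nat.find (h x), measurable_find h fun n => (ht _).union
    (show MeasurableSet {x | ∀ i, x ∉ t i} by
      rw [ofPred_forall]; exact MeasurableSet.iInter fun i => (ht i).compl), fun x i hi =>
    (Nat.find_spec (h x)).resolve_right fun k => k i hi, fun x y k => ?_⟩
  exact Nat.find_congr' (by simp only [k, implies_true])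

lemma pieces {ι : Type*} [Countable ι] (i0 : ι) {P : ι → Set (X × ℕ)} (hP : ∀ i, MeasurableSet (P i))
    {φ : ι → X × ℕ → X × ℕ} (hφ : ∀ i, Coc Γ (φ i)) {A B : Set (X × ℕ)}
    (h1 : ∀ x ∈ A, ∃ i, x ∈ P i) (h2 : ∀ i, ∀ x ∈ A, x ∈ P i → φ i x ∈ B)
    (h3 : ∀ i j, ∀ x ∈ A, ∀ y ∈ A, x ∈ P i → y ∈ P j → φ i x = φ j y → x = y) : Emb Γ A B := by
  obtain ⟨e, σ, k1, k2, -⟩ := idx P hP i0
  have k : ∀ x ∈ A, x ∈ P (e (σ x)) := fun x hx => (h1 x hx).elim (k2 x)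
  exact ⟨_, Coc.sel k1 fun n => hφ (e n), fun x hx y hy => h3 _ _ x hx y hy (k x hx) (k y hy),
    fun x hx => h2 _ x hx (k x hx)⟩

lemma glue {ι : Type*} [Countable ι] (i0 : ι) {Z : ι → Set X} (hZ : ∀ i, MeasurableSet (Z i))
    (hI : ∀ i, Inv Γ (Z i)) {A B : Set (X × ℕ)} (h1 : ∀ x ∈ A, ∃ i, x.1 ∈ Z i)
    (h2 : ∀ i, Emb Γ (A ∩ Prod.fst ⁻¹' Z i) B) : Emb Γ A B := by
  obtain ⟨e, σ, k1, k2, k3⟩ := idx Z hZ i0
  choose φ p1 p2 p3 using h2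
  have k : ∀ x ∈ A, x.1 ∈ Z (e (σ x.1)) := fun x hx => (h1 x hx).elim (k2 x.1)
  refine ⟨_, Coc.sel (k1.comp measurable_fst) fun n => p1 (e n), fun x hx y hy h => ?_,
    fun x hx => p3 _ ⟨hx, k x hx⟩⟩
  simp only [comp_apply] at h
  have : σ x.1 = σ y.1 := k3 _ _ fun i => by rw [← (p1 _).inv (hI i) x, h, (p1 _).inv (hI i)]
  rw [this] at h
  exact p2 _ ⟨hx, this ▸ k x hx⟩ ⟨hy, k y hy⟩ h

open Classical in
lemma meas_count {p : X → ℕ → Prop} (hp : ∀ n, MeasurableSet {x | p x n}) :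
    Measurable fun ω : X × ℕ => Nat.count (p ω.1) ω.2 := by
  refine measurable_from_prod_countable_left fun n => ?_
  induction n with
  | zero => simp
  | succ n ih =>
    simp only [Nat.count_succ]
    exact ih.add (Measurable.ite (hp n) measurable_const measurable_const)

open Classical in
lemma cntEmb {p : X → ℕ → Prop} (hp : ∀ n, MeasurableSet {x | p x n}) {A B : Set (X × ℕ)}
    (hA : ∀ ω ∈ A, p ω.1 ω.2) (hB : ∀ ω ∈ A, (ω.1, Nat.count (p ω.1) ω.2) ∈ B) : Emb Γ A B := by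
  refine ⟨_, Coc.lv (meas_count hp), ?_, hB⟩
  rintro ⟨x, n⟩ h1 ⟨y, m⟩ h2 h
  obtain ⟨rfl, h3⟩ := Prod.mk.inj h
  exact Prod.ext rfl (Nat.count_injective (hA _ h1) (hA _ h2) h3)

open Classical in
lemma nthEmb {p : X → ℕ → Prop} (hp : ∀ n, MeasurableSet {x | p x n}) {A : Set (X × ℕ)}
    (hA : ∀ ω ∈ A, ∀ hf : (ofPred (p ω.1)).Finite, ω.2 < hf.toFinset.card) :
    Emb Γ A {ω | p ω.1 ω.2 ∧ ∃ n, (ω.1, n) ∈ A} := by
  refine pieces 0 (P := fun n => {ω | p ω.1 n ∧ Nat.count (p ω.1) n = ω.2})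
    (φ := fun n ω => (ω.1, n)) (fun n => (measurable_fst (hp n)).inter (measurableSet_eq_fun
      ((meas_count hp).comp (measurable_fst.prodMk measurable_const)) measurable_snd))
    (fun n => Coc.lv measurable_const) (fun ω h => ⟨_, Nat.nth_mem _ (hA ω h), Nat.count_nth (hA ω h)⟩)
    (fun n ω h k => ⟨k.1, ω.2, h⟩) ?_
  rintro n m ⟨x, i⟩ - ⟨y, j⟩ - h1 h2 h
  obtain ⟨rfl, rfl⟩ := Prod.mk.inj h
  exact Prod.ext rfl (h1.2.symm.trans h2.2)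

variable (Γ) in
def sat (S : Set X) : Set X := {x | ∃ g : Γ, g • x ∈ S}

lemma sat_meas {S : Set X} (h : MeasurableSet S) : MeasurableSet (sat Γ S) := by
  rw [sat, ofPred_exists]
  exact MeasurableSet.iUnion fun g => measurable_const_smul g h

lemma sat_inv (S : Set X) : Inv Γ (sat Γ S) := fun g x =>
  ⟨fun ⟨h, k⟩ => ⟨h * g, by rwa [mul_smul]⟩, fun ⟨h, k⟩ => ⟨h * g⁻¹, by simpa [mul_smul]⟩⟩

lemma satEmb {S : Set X} (h : MeasurableSet S) : Emb Γ (sat Γ S ×ˢ {0}) (S ×ˢ univ) := by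
  obtain ⟨e, he⟩ := exists_injective_nat Γ
  refine pieces 1 (P := fun g : Γ => {ω | g • ω.1 ∈ S}) (φ := fun g ω => (g • ω.1, e g))
    (fun g => measurable_fst (measurable_const_smul g h)) (fun g => Coc.mv g _)
    (fun ω k => k.1) (fun g ω _ k => ⟨k, trivial⟩) ?_
  rintro g g' ⟨x, i⟩ ⟨-, rfl⟩ ⟨y, j⟩ ⟨-, rfl⟩ - - k
  obtain ⟨k1, k2⟩ := Prod.mk.inj k
  rw [he k2] at k1
  exact Prod.ext (MulAction.injective _ k1) rfl

lemma para {B : Set X} (hB : MeasurableSet B) {N : ℕ}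
    (h : Emb Γ (B ×ˢ Iio (N + 1)) (B ×ˢ Iio N)) : Emb Γ (sat Γ B ×ˢ {0}) (B ×ˢ {0}) := by
  obtain ⟨φ, h1, h2, h3⟩ := h
  have hs : B ×ˢ Iio N ⊆ B ×ˢ Iio (N + 1) := prod_mono subset_rfl (Iio_subset_Iio N.le_succ)
  have m1 : ∀ k, ∀ x ∈ B, φ^[k] (x, N) ∈ B ×ˢ Iio (N + 1) := fun k x hx =>
    (h3.mono_right hs).iterate k ⟨hx, N.lt_succ_self⟩
  have m2 : ∀ k, ∀ x ∈ B, φ^[k + 1] (x, N) ∈ B ×ˢ Iio N := fun k x hx => by
    rw [iterate_succ_apply']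
    exact h3 (m1 k x hx)
  have inj : ∀ k l, ∀ x ∈ B, ∀ y ∈ B, φ^[k] (x, N) = φ^[l] (y, N) → (x, k) = (y, l) := by
    intro k
    induction k with
    | zero =>
      rintro (_ | l) x hx y hy h
      · exact Prod.ext (Prod.mk.inj h).1 rfl
      · exact absurd (h ▸ m2 l y hy).2 (lt_irrefl N)
    | succ k ih =>
      rintro (_ | l) x hx y hy h
      · exact absurd (h ▸ m2 k x hx).2 (lt_irrefl N)
      · rw [iterate_succ_apply', iterate_succ_apply'] at h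
        obtain ⟨rfl, rfl⟩ := Prod.mk.inj (ih l x hx y hy (h2 (m1 k x hx) (m1 l y hy) h))
        rfl
  have c1 : Coc Γ fun ω : X × ℕ => φ^[ω.2] (ω.1, N) :=
    Coc.sel measurable_snd (φ := fun k ω => φ^[k] (ω.1, N)) fun k =>
      (h1.iter k).comp (Coc.lv measurable_const)
  let p : ℕ → X → ℕ → Prop := fun i x k => (φ^[k] (x, N)).2 = i
  have hp : ∀ i k, MeasurableSet {x | p i x k} := fun i k =>
    (c1.meas.comp (measurable_id.prodMk measurable_const)).snd (measurableSet_singleton i)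
  let C : ℕ → Set X := fun i => B ∩ {x | ∀ m, ∃ k, m ≤ k ∧ p i x k}
  have hC : ∀ i, MeasurableSet (C i) := fun i => hB.inter (by
    rw [ofPred_forall]
    refine MeasurableSet.iInter fun m => ?_
    rw [ofPred_exists]
    exact MeasurableSet.iUnion fun k => (MeasurableSet.const _).inter (hp i k))
  refine glue 0 (fun i => sat_meas (hC i)) (fun i => sat_inv _) ?_ fun i => ?_
  · rintro ⟨x, _⟩ ⟨⟨g, hg⟩, -⟩
    obtain ⟨i, hi⟩ := Finite.exists_infinite_fiber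
      (fun k : ℕ => (⟨(φ^[k] (g • x, N)).2, (m1 k _ hg).2⟩ : Fin (N + 1)))
    refine ⟨i, g, hg, fun m => ?_⟩
    obtain ⟨k, h4, h5⟩ := (infinite_coe_iff.1 hi).exists_gt m
    exact ⟨k, h5.le, congrArg Fin.val h4⟩
  refine ((Emb.of_subset (B := sat Γ (C i) ×ˢ {0}) fun ω k => ⟨k.2, k.1.2⟩).trans
    (satEmb (hC i))).trans ((nthEmb (hp i) fun ω k hf => ?_).trans ?_)
  · obtain ⟨M, hM⟩ := hf.bddAbove
    obtain ⟨l, h4, h5⟩ := k.1.2 (M + 1)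
    exact absurd (hM h5) (by omega)
  refine ⟨_, (Coc.lv (f := fun _ => 0) measurable_const).comp c1, ?_,
    fun ω ⟨_, _, k⟩ => ⟨(m1 _ _ k.1.1).1, rfl⟩⟩
  rintro ⟨x, k⟩ ⟨k1, _, k2⟩ ⟨y, l⟩ ⟨k3, _, k4⟩ h
  exact inj k l x k2.1.1 y k4.1.1 (Prod.ext (Prod.mk.inj h).1 (k1.trans k3.symm))

noncomputable def pc (E : ℕ → Set X) (U : Set X) (e : ℕ → Γ) : ℕ ×ₗ ℕ → Set X :=
  wellFounded_lt.fix fun p r => {x | x ∈ E (ofLex p).1 ∧ e (ofLex p).2 • x ∈ U ∧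
    ∀ q (h : q < p), x ∉ r q h ∧ (e (ofLex q).2)⁻¹ • e (ofLex p).2 • x ∉ r q h}

lemma mem_pc (E : ℕ → Set X) (U : Set X) (e : ℕ → Γ) (p : ℕ ×ₗ ℕ) (x : X) :
    x ∈ pc E U e p ↔ x ∈ E (ofLex p).1 ∧ e (ofLex p).2 • x ∈ U ∧
      ∀ q < p, x ∉ pc E U e q ∧ (e (ofLex q).2)⁻¹ • e (ofLex p).2 • x ∉ pc E U e q := by
  rw [pc, WellFounded.fix_eq]
  rfl

instance : Countable (ℕ ×ₗ ℕ) := inferInstanceAs (Countable (ℕ × ℕ))

theorem pack {E : ℕ → Set X} {U : Set X} (hE : ∀ j, MeasurableSet (E j)) (hm : Monotone E)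
    (hU : MeasurableSet U) (hs : ∀ j, E j ⊆ sat Γ U)
    (h : ∀ j, ∃ N, Emb Γ (E j ×ˢ Iio (N + 1)) (U ×ˢ Iio N)) :
    Emb Γ ((⋃ j, E j) ×ˢ {0}) (U ×ˢ {0}) := by
  obtain ⟨e, he⟩ := exists_surjective_nat Γ
  have mp : ∀ p, MeasurableSet (pc E U e p) := fun p => by
    induction p using WellFoundedLT.induction with
    | ind p ih =>
      rw [show pc E U e p = _ from Set.ext (mem_pc E U e p)]
      refine (hE _).inter ((measurable_const_smul _ hU).inter (?_ : MeasurableSet {x | ∀ q < p,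
        x ∉ pc E U e q ∧ (e (ofLex q).2)⁻¹ • e (ofLex p).2 • x ∉ pc E U e q}))
      simp only [ofPred_forall]
      exact MeasurableSet.iInter fun q => MeasurableSet.iInter fun hq => (ih q hq).compl.inter
        ((measurable_const_smul _).comp (measurable_const_smul _) (ih q hq).compl)
  have d1 : ∀ p q x, x ∈ pc E U e p → x ∈ pc E U e q → p = q := fun p q x h1 h2 => by
    rcases lt_trichotomy p q with k | k | k
    · exact absurd h1 (((mem_pc ..).1 h2).2.2 p k).1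
    · exact k
    · exact absurd h2 (((mem_pc ..).1 h1).2.2 q k).1
  have d2 : ∀ p q x y, x ∈ pc E U e p → y ∈ pc E U e q →
      e (ofLex p).2 • x = e (ofLex q).2 • y → x = y := fun p q x y h1 h2 h => by
    rcases lt_trichotomy p q with k | rfl | k
    · exact absurd (by rwa [← h, inv_smul_smul]) (((mem_pc ..).1 h2).2.2 p k).2
    · exact MulAction.injective _ h
    · exact absurd (by rwa [h, inv_smul_smul]) (((mem_pc ..).1 h1).2.2 q k).2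
  let R : ℕ → Set X := fun j => E j \ ⋃ p, pc E U e p
  have hR : ∀ j, MeasurableSet (R j) := fun j => (hE j).diff (MeasurableSet.iUnion mp)
  refine glue none (Z := fun o : Option ℕ => o.elim (⋃ j, sat Γ (R j))ᶜ fun j => sat Γ (R j))
    ?_ ?_ (fun ω _ => ?_) ?_
  · rintro (_ | j)
    · exact (MeasurableSet.iUnion fun j => sat_meas (hR j)).compl
    · exact sat_meas (hR j)
  · rintro (_ | j)
    · exact fun g x => by simp only [Option.elim, mem_compl_iff, mem_iUnion, sat_inv _ g x]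
    · exact sat_inv _
  · by_cases k : ω.1 ∈ ⋃ j, sat Γ (R j)
    · exact (mem_iUnion.1 k).elim fun j hj => ⟨some j, hj⟩
    · exact ⟨none, k⟩
  rintro (_ | j)
  · refine pieces (toLex (0, 0)) (P := fun p => Prod.fst ⁻¹' pc E U e p)
      (φ := fun p ω => (e (ofLex p).2 • ω.1, 0)) (fun p => measurable_fst (mp p))
      (fun p => Coc.mv _ _) ?_ (fun p ω _ k => ⟨((mem_pc ..).1 k).2.1, rfl⟩) ?_
    · rintro ⟨x, _⟩ ⟨⟨h1, -⟩, h2⟩
      obtain ⟨j, hj⟩ := mem_iUnion.1 h1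
      by_contra k
      exact h2 (mem_iUnion.2 ⟨j, 1, by rw [one_smul]; exact ⟨hj, fun k2 => k (mem_iUnion.1 k2 :)⟩⟩)
    · rintro p q ⟨x, _⟩ ⟨⟨-, rfl⟩, -⟩ ⟨y, _⟩ ⟨⟨-, rfl⟩, -⟩ h1 h2 k
      exact Prod.ext (d2 p q x y h1 h2 (Prod.mk.inj k).1) rfl
  obtain ⟨N, hN⟩ := h j
  have e1 : Emb Γ ((U ∩ sat Γ (R j)) ×ˢ Iio (N + 1)) (E j ×ˢ Iio (N + 1)) := by
    refine pieces (toLex (0, 0), 0) (P := fun p : (ℕ ×ₗ ℕ) × ℕ => {ω | (ofLex p.1).1 ≤ j ∧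
      (e (ofLex p.1).2)⁻¹ • ω.1 ∈ pc E U e p.1 ∧ ω.2 = p.2})
      (φ := fun p ω => ((e (ofLex p.1).2)⁻¹ • ω.1, p.2)) (fun p => (MeasurableSet.const _).inter
        ((measurable_fst (measurable_const_smul _ (mp p.1))).inter
          (measurable_snd (measurableSet_singleton _)))) (fun p => Coc.mv _ _) ?_
      (fun p ω k1 k => ⟨hm k.1 ((mem_pc ..).1 k.2.1).1, k.2.2 ▸ k1.2⟩) ?_
    · rintro ⟨y, i⟩ ⟨⟨h1, g, h2, h3⟩, -⟩
      obtain ⟨k, hk⟩ := he g⁻¹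
      have h4 : g • y ∉ pc E U e (toLex (j, k)) := fun k2 => h3 (mem_iUnion.2 ⟨_, k2⟩)
      rw [mem_pc] at h4
      simp only [ofLex_toLex, hk, inv_smul_smul, not_and, not_forall] at h4
      obtain ⟨q, h5, h6⟩ := h4 h2 h1
      refine ⟨(q, i), ?_, not_not.1 (h6 fun k2 => h3 (mem_iUnion.2 ⟨_, k2⟩)), rfl⟩
      exact (Prod.Lex.lt_iff.1 h5).elim le_of_lt fun k => k.1.le
    · rintro p q ⟨x, i⟩ - ⟨y, l⟩ - h1 h2 k
      obtain ⟨k1, k2⟩ := Prod.mk.inj k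
      have h3 := d1 _ _ _ h1.2.1 (k1 ▸ h2.2.1)
      rw [h3] at k1
      exact Prod.ext (MulAction.injective _ k1) (h1.2.2.trans (k2.trans h2.2.2.symm))
  have e2 := (e1.trans hN).res (sat_inv (R j))
  have e3 := para (Γ := Γ) (hU.inter (sat_meas (Γ := Γ) (hR j))) (N := N)
    (((Emb.of_subset fun ω k => mem_inter k k.1.2).trans e2).trans
      (Emb.of_subset fun ω k => ⟨⟨k.1.1, k.2⟩, k.1.2⟩))
  refine ((Emb.of_subset ?_).trans e3).trans (Emb.of_subset fun ω k => ⟨k.1.1, k.2⟩)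
  rintro ⟨x, _⟩ ⟨⟨h1, h2⟩, h3⟩
  obtain ⟨i, hi⟩ := mem_iUnion.1 h1
  obtain ⟨g, hg⟩ := hs i hi
  exact ⟨⟨g, hg, (sat_inv _ g x).2 h3⟩, h2⟩

open Classical in
lemma frac {κ : Type*} [Fintype κ] (γ : κ → Γ) {S U : Set X} (hS : MeasurableSet S)
    (hU : MeasurableSet U) {N : ℕ}
    (h1 : ∀ x ∈ S, N < (Finset.univ.filter fun k => γ k • x ∈ U).card)
    (h2 : ∀ y ∈ U, (Finset.univ.filter fun k => (γ k)⁻¹ • y ∈ S).card ≤ N) :
    Emb Γ (S ×ˢ Iio (N + 1)) (U ×ˢ Iio N) := by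
  obtain ⟨e, he⟩ := exists_injective_nat κ
  have cd : ∀ (q : κ → Prop) (hf : (ofPred fun n => ∃ k, e k = n ∧ q k).Finite),
      hf.toFinset.card = (Finset.univ.filter q).card := fun q hf => by
    rw [← Finset.card_image_of_injective _ he]
    congr 1
    ext n
    simp [and_comm]
  have ms : ∀ (T : Set X) (δ : κ → Γ), MeasurableSet T → ∀ n,
      MeasurableSet {x | ∃ k, e k = n ∧ δ k • x ∈ T} := fun T δ hT n => by
    rw [ofPred_exists]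
    exact MeasurableSet.iUnion fun k => (MeasurableSet.const _).inter (measurable_const_smul _ hT)
  refine (nthEmb (p := fun x n => ∃ k, e k = n ∧ γ k • x ∈ U) (ms U γ hU) fun ω k hf => ?_).trans
    (Emb.trans (B := {ω | ω.1 ∈ U ∧ ∃ k, e k = ω.2 ∧ (γ k)⁻¹ • ω.1 ∈ S}) ?_
      (cntEmb (p := fun x n => ∃ k, e k = n ∧ (γ k)⁻¹ • x ∈ S) (ms S _ hS) (fun ω k => k.2)
        fun ω k => ⟨k.1, ?_⟩))
  · rw [cd]
    exact (Nat.le_of_lt_succ k.2).trans_lt (h1 _ k.1)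
  · refine pieces none (P := fun o : Option κ => {ω | ∃ k, o = some k ∧ e k = ω.2})
      (φ := fun o ω => (o.elim 1 γ • ω.1, o.elim 0 e)) (fun o => measurable_snd
        (MeasurableSet.of_discrete (s := {n | ∃ k, o = some k ∧ e k = n}))) (fun o => Coc.mv _ _)
      (fun ω ⟨⟨k, h, _⟩, _⟩ => ⟨some k, k, rfl, h⟩) ?_ ?_
    · rintro _ ⟨x, n⟩ ⟨⟨k, h3, h4⟩, _, h5⟩ ⟨l, rfl, h6⟩
      obtain rfl := he (h3.trans h6.symm)
      exact ⟨h4, k, rfl, by simpa using h5.1⟩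
    · rintro _ _ ⟨x, n⟩ - ⟨y, m⟩ - ⟨k, rfl, h3⟩ ⟨l, rfl, h4⟩ h
      obtain ⟨k1, k2⟩ := Prod.mk.inj h
      obtain rfl := he k2
      exact Prod.ext (MulAction.injective _ k1) (h3.symm.trans h4)
  · have hf : (ofPred fun n => ∃ k, e k = n ∧ (γ k)⁻¹ • ω.1 ∈ S).Finite :=
      (finite_range e).subset fun n ⟨k, h, _⟩ => ⟨k, h⟩
    exact (@Nat.count_lt_card _ (fun _ => Classical.propDecidable _) _ hf k.2).trans_le
      ((cd _ hf).trans_le (h2 _ k.1))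

end Pool.Agent.H32.PK
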