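import Pool.Agent.H32.Pack

set_option autoImplicit false
set_option linter.unusedSectionVars false

namespace Pool.Agent.H32.PK

open Set Function MeasureTheory Filter Topology Pointwise
open scoped ENNReal

universe u

variable {G : Type u} [Group G] [TopologicalSpace G] [IsTopologicalGroup G] [LocallyCompactSpace G]
  [T2Space G] [MeasurableSpace G] [BorelSpace G] (μ : Measure G) [μ.IsHaarMeasure] [μ.Regular]

lemma approx {V : Set G} (hV : IsOpen V) (hf : μ V ≠ ⊤) : ∃ K : ℕ → Set G,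
    ∀ n, K n ⊆ V ∧ IsCompact (K n) ∧ μ (V \ K n) < ((n : ℝ≥0∞) + 1)⁻¹ := by
  choose K h using fun n : ℕ => hV.measurableSet.exists_isCompact_sdiff_lt hf
    (ε := ((n : ℝ≥0∞) + 1)⁻¹) (by simp)
  exact ⟨K, h⟩

lemma zero_of {a : ℝ≥0∞} (h : ∀ n : ℕ, a ≤ ((n : ℝ≥0∞) + 1)⁻¹) : a = 0 := by
  by_contra k
  obtain ⟨n, hn⟩ := ENNReal.exists_inv_nat_lt k
  exact absurd ((h n).trans (ENNReal.inv_le_inv.2 le_self_add)) (not_le.2 hn)

lemma sig {V : Set G} (hV : IsOpen V) (hf : μ V ≠ ⊤) : ∃ K : ℕ → Set G,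
    (∀ j, IsCompact (K j)) ∧ Monotone K ∧ ∀ x ∈ V, ∃ j, x ∈ K j := by
  obtain ⟨K, hK⟩ := approx μ hV hf
  obtain ⟨C, hC, h1⟩ := exists_compact_mem_nhds (1 : G)
  refine ⟨accumulate fun n => K n * C, isCompact_accumulate fun n => (hK n).2.1.mul hC,
    monotone_accumulate, fun x hx => ?_⟩
  have h2 : V ∩ {z | z⁻¹ * x ∈ C} ∈ 𝓝 x := inter_mem (hV.mem_nhds hx)
    ((continuous_inv.mul continuous_const).continuousAt.preimage_mem_nhds (by simpa using h1))
  by_contra k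
  refine (Measure.measure_pos_of_mem_nhds μ h2).ne' (zero_of fun n => (measure_mono ?_).trans
    (hK n).2.2.le)
  exact fun z hz => ⟨hz.1, fun k2 => k ⟨n, subset_accumulate ⟨z, k2, _, hz.2, by simp⟩⟩⟩

lemma thick {V : Set G} (hV : IsOpen V) (hf : μ V ≠ ⊤) : ∃ (V' : Set G) (C : ℕ → Set G),
    IsOpen V' ∧ μ V' ≤ μ V ∧ (∀ j, C j ∈ 𝓝 (1 : G)) ∧ (∀ j, IsCompact (C j)) ∧ Antitone C ∧
      ∀ x ∈ V, ∃ j, ∀ g ∈ C j, g * x ∈ V' := by
  obtain ⟨K, hK⟩ := approx μ hV hf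
  choose W hW1 hW2 using fun n => compact_open_separated_mul_left (hK n).2.1 hV (hK n).1
  choose D hD1 hD2 hD3 using fun n => local_compact_nhds (hW1 n)
  let V' : Set G := ⋃₀ {O | IsOpen O ∧ μ (O \ V) = 0}
  have hV' : IsOpen V' := isOpen_sUnion fun O h => h.1
  have hc : ∀ j, IsCompact (⋂ n ≤ j, D n) := fun j => (hD3 0).of_isClosed_subset
    (isClosed_biInter fun n _ => (hD3 n).isClosed) (biInter_subset_of_mem (Nat.zero_le j))
  have ha : Antitone fun j => ⋂ n ≤ j, D n := fun i j h =>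
    biInter_subset_biInter_left fun n (k : n ≤ i) => k.trans h
  refine ⟨V', fun j => ⋂ n ≤ j, D n, hV', ?_, fun j => (biInter_mem (finite_le_nat j)).2
    fun n _ => hD1 n, hc, ha, fun x hx => ?_⟩
  · rw [hV'.measure_eq_iSup_isCompact]
    refine iSup_le fun L => iSup_le fun h1 => iSup_le fun h2 => measure_mono_ae (ae_le_set.2 ?_)
    have := h2.measure_zero_of_nhdsWithin (μ := μ.restrict Vᶜ) fun a ha => by
      obtain ⟨O, ⟨h3, h4⟩, h5⟩ := h1 ha
      exact ⟨O, nhdsWithin_le_nhds (h3.mem_nhds h5), by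
        rwa [Measure.restrict_apply h3.measurableSet]⟩
    rwa [Measure.restrict_apply h2.measurableSet] at this
  refine exists_subset_nhds_of_isCompact ha.directed_ge hc (U := {g | g * x ∈ V'}) fun g hg =>
    (hV'.preimage (continuous_mul_const x)).mem_nhds ⟨(g⁻¹ * ·) ⁻¹' V,
      ⟨hV.preimage (continuous_const_mul _), zero_of fun n => ?_⟩, by simpa using hx⟩
  refine le_trans (measure_mono ?_) ((measure_preimage_mul μ g⁻¹ (V \ K n)).trans_le (hK n).2.2.le)
  refine fun z hz => ⟨hz.1, fun k => hz.2 (hW2 n ⟨g, hD2 n ?_, _, k, by simp⟩)⟩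
  exact mem_iInter₂.1 (mem_iInter.1 hg n) n le_rfl

lemma modb {C O : Set G} (hC : IsCompact C) (hO : IsOpen O) (hne : O.Nonempty) (h : O ⊆ C) :
    ∃ c : ℝ≥0∞, c ≠ ⊤ ∧ ∀ y ∈ C, ∀ T, MeasurableSet T → IsCompact (closure T) →
      μ ((· * y) ⁻¹' T) ≤ c * μ T := by
  have h0 := (hO.measure_pos μ hne).ne'
  refine ⟨μ (C * C⁻¹) / μ O, ENNReal.div_ne_top (hC.mul hC.inv).measure_lt_top.ne h0,
    fun y hy T h1 h2 => ?_⟩
  have e : ∀ T, MeasurableSet T → IsCompact (closure T) → μ ((· * y) ⁻¹' T) =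
      Measure.haarScalarFactor (Measure.map (· * y) μ) μ * μ T := fun T h1 h2 => by
    rw [← Measure.map_apply (measurable_mul_const y) h1,
      Measure.measure_isMulInvariant_eq_smul_of_isCompact_closure _ μ h2]
    rfl
  rw [e T h1 h2]
  refine mul_le_mul_left ?_ _
  rw [ENNReal.le_div_iff_mul_le (Or.inl h0) (Or.inl ((measure_mono h).trans_lt hC.measure_lt_top).ne),
    ← e O hO.measurableSet (hC.closure_of_subset h)]
  exact measure_mono fun z hz => ⟨_, h hz, y⁻¹, by simpa using hy, by simp⟩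

open Classical in
lemma fracG {U C1 : Set G} (hU : IsOpen U) (hne : U.Nonempty) (hC1 : IsCompact C1) (hs : U ⊆ C1) :
    ∃ ε : ℝ≥0∞, 0 < ε ∧ ∀ V', IsOpen V' → μ V' ≤ ε → ∀ C ∈ 𝓝 (1 : G), ∀ K, IsCompact K →
      ∃ (κ : Type u) (_ : Fintype κ) (γ : κ → G) (N : ℕ),
        (∀ x ∈ K, N < (Finset.univ.filter fun k => γ k * x ∈ U).card) ∧
        ∀ y ∈ U, (Finset.univ.filter fun k => ∀ g ∈ C, g * ((γ k)⁻¹ * y) ∈ V').card ≤ N := by
  obtain ⟨c, hc, hm⟩ := modb μ hC1 hU hne hs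
  obtain ⟨u, hu⟩ := hne
  obtain ⟨K0, h1, h2, h3⟩ := local_compact_nhds (hU.mem_nhds hu)
  obtain ⟨W, hW1, hW2⟩ := compact_open_separated_mul_left h3 hU h2
  have a0 : μ K0⁻¹ ≠ 0 := (Measure.measure_pos_of_mem_nhds μ (x := u⁻¹)
    (continuous_inv.continuousAt.preimage_mem_nhds (by simpa using h1))).ne'
  have a1 : μ K0⁻¹ ≠ ⊤ := h3.inv.measure_lt_top.ne
  refine ⟨μ K0⁻¹ / 2 / (c + 1), ENNReal.div_pos (ENNReal.div_pos a0 (by simp)).ne' (by simpa),
    fun V' hV' hε C hC K hK => ?_⟩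
  have hR := hK.mul h3.inv
  obtain ⟨t, -, ht⟩ := hR.elim_nhds_subcover (fun d => interior {z | d⁻¹ * z ∈ W ∧ z * d⁻¹ ∈ C})
    fun d _ => interior_mem_nhds.2 (inter_mem
      ((continuous_const_mul _).continuousAt.preimage_mem_nhds (by simpa using hW1))
      ((continuous_mul_const _).continuousAt.preimage_mem_nhds (by simpa using hC)))
  obtain ⟨e, σ, k1, k2, -⟩ := idx (ι := Option t) (fun o => o.elim ∅
    fun d => interior {z | (d : G)⁻¹ * z ∈ W ∧ z * (d : G)⁻¹ ∈ C})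
    (by rintro (_ | d); exacts [MeasurableSet.empty, measurableSet_interior]) none
  let L : t → Set G := fun d => (K * K0⁻¹) ∩ σ ⁻¹' (e ⁻¹' {some d})
  have hL : ∀ d, MeasurableSet (L d) := fun d =>
    hR.measurableSet.inter (k1 MeasurableSet.of_discrete)
  have hL1 : ∀ z ∈ K * K0⁻¹, ∃ d, z ∈ L d := fun z hz => by
    obtain ⟨d, h4, h5⟩ := mem_iUnion₂.1 (ht hz)
    have := k2 z (some ⟨d, h4⟩) h5
    cases h6 : e (σ z) with
    | none => rw [h6] at this; exact this.elim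
    | some d => exact ⟨d, hz, h6⟩
  have hL2 : ∀ d, ∀ z ∈ L d, (d : G)⁻¹ * z ∈ W ∧ z * (d : G)⁻¹ ∈ C := fun d z hz => by
    obtain ⟨d', h4, h5⟩ := mem_iUnion₂.1 (ht hz.1)
    have := k2 z (some ⟨d', h4⟩) h5
    rw [show e (σ z) = some d from hz.2] at this
    exact interior_subset (s := {z | (d : G)⁻¹ * z ∈ W ∧ z * (d : G)⁻¹ ∈ C}) this
  have hf : ∀ d, μ (L d) ≠ ⊤ := fun d => ((measure_mono inter_subset_left).trans_lt
    hR.measure_lt_top).ne
  have ap : 0 < (μ K0⁻¹).toReal := ENNReal.toReal_pos a0 a1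
  set T : ℝ := 2 * (t.card + 2) / (μ K0⁻¹).toReal with hT
  have T0 : 0 < T := by positivity
  have T1 : T * (μ K0⁻¹).toReal = 2 * (t.card + 2) := div_mul_cancel₀ _ ap.ne'
  let n : t → ℕ := fun d => ⌈T * (μ (L d)).toReal⌉₊
  have cd : ∀ q : t → Prop, (Finset.univ.filter fun k : Σ d, Fin (n d) => q k.1).card =
      ∑ d ∈ Finset.univ.filter q, n d := fun q => by
    simp only [Finset.card_filter, Finset.sum_filter, Fintype.sum_sigma]
    exact Finset.sum_congr rfl fun d _ => by split_ifs <;> simp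
  refine ⟨Σ d, Fin (n d), inferInstance, fun k => (k.1 : G)⁻¹, 2 * t.card + 2, fun x hx => ?_,
    fun y hy => ?_⟩
  · rw [cd fun d => (d : G)⁻¹ * x ∈ U]
    have e1 : μ K0⁻¹ ≤ ∑ d ∈ Finset.univ.filter fun d : t => (d : G)⁻¹ * x ∈ U, μ (L d) := by
      rw [← measure_preimage_mul μ x⁻¹]
      refine (measure_mono fun z hz => ?_).trans (measure_biUnion_finset_le _ _)
      obtain ⟨d, hd⟩ := hL1 z ⟨x, hx, _, hz, by simp⟩
      exact mem_biUnion (by simpa using hW2 ⟨_, (hL2 d z hd).1, _, hz, by simp⟩) hd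
    have e2 := ENNReal.toReal_mono (ENNReal.sum_ne_top.2 fun d _ => hf d) e1
    rw [ENNReal.toReal_sum fun d _ => hf d] at e2
    have e3 := mul_le_mul_of_nonneg_left e2 T0.le
    rw [T1, Finset.mul_sum] at e3
    have e4 := e3.trans (Finset.sum_le_sum fun d _ => Nat.le_ceil (T * (μ (L d)).toReal))
    have e5 : 2 * (t.card + 2) ≤ ∑ d ∈ Finset.univ.filter fun d : t => (d : G)⁻¹ * x ∈ U, n d := by
      exact_mod_cast e4
    omega
  · simp only [inv_inv]
    rw [cd fun d => ∀ g ∈ C, g * ((d : G) * y) ∈ V']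
    set s := Finset.univ.filter fun d : t => ∀ g ∈ C, g * ((d : G) * y) ∈ V' with hs'
    have hR2 := hR.mul hC1
    have e1 : ∑ d ∈ s, μ (L d) ≤ μ K0⁻¹ / 2 := by
      rw [← measure_biUnion_finset (fun d _ d' _ k => disjoint_left.2 fun z h4 h5 => k
        (Option.some.inj ((show e (σ z) = some d from h4.2).symm.trans h5.2))) fun d _ => hL d]
      refine le_trans (measure_mono ?_) ((hm y (hs hy) (V' ∩ (K * K0⁻¹ * C1))
        (hV'.measurableSet.inter hR2.measurableSet) (hR2.closure_of_subset inter_subset_right)).trans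
        ((mul_le_mul' (le_self_add (b := 1)) ((measure_mono inter_subset_left).trans hε)).trans
          ENNReal.mul_div_le))
      intro z hz
      obtain ⟨d, h4, h5⟩ := mem_iUnion₂.1 hz
      exact ⟨by simpa using (Finset.mem_filter.1 h4).2 _ (hL2 d z h5).2, z, h5.1, y, hs hy, rfl⟩
    have e2 := ENNReal.toReal_mono (ENNReal.div_ne_top a1 (by simp)) e1
    rw [ENNReal.toReal_sum (fun d _ => hf d), ENNReal.toReal_div] at e2
    have e3 := mul_le_mul_of_nonneg_left e2 T0.le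
    rw [← mul_div_assoc, T1, Finset.mul_sum] at e3
    have e4 : ∑ d ∈ s, (n d : ℝ) ≤ ∑ d ∈ s, (T * (μ (L d)).toReal + 1) :=
      Finset.sum_le_sum fun d _ => (Nat.ceil_lt_add_one (by positivity)).le
    have e5 : (s.card : ℝ) ≤ t.card := by exact_mod_cast s.card_le_univ.trans_eq (Fintype.card_coe t)
    rw [Finset.sum_add_distrib, Finset.sum_const, nsmul_one] at e4
    have e6 : ∑ d ∈ s, (n d : ℝ) ≤ 2 * t.card + 2 := by
      simp only [ENNReal.toReal_ofNat] at e3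
      linarith
    exact_mod_cast e6

theorem main {E U : Set G} (hE : MeasurableSet E) (h0 : μ E = 0) (hU : IsOpen U)
    (hne : U.Nonempty) : ∃ (c : G → ℕ) (g : ℕ → G), Measurable c ∧
      InjOn (fun x => g (c x) * x) E ∧ ∀ x ∈ E, g (c x) * x ∈ U := by
  classical
  obtain ⟨u, hu⟩ := hne
  obtain ⟨C1, h1, h2, h3⟩ := local_compact_nhds (hU.mem_nhds hu)
  obtain ⟨ε, hε, h⟩ := fracG μ isOpen_interior ⟨u, mem_interior_iff_mem_nhds.2 h1⟩ h3
    interior_subset
  obtain ⟨V, v1, v2, v3⟩ := Set.exists_isOpen_lt_of_lt (μ := μ) E ε (h0 ▸ hε)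
  obtain ⟨K, k1, k2, k3⟩ := sig μ v2 v3.ne_top
  obtain ⟨V', C, c1, c2, c3, c4, c5, c6⟩ := thick μ v2 v3.ne_top
  choose κ _ γ N p1 p2 using fun j => h V' c1 (c2.trans v3.le) _ (c3 j) _ (k1 j)
  let Γ := Subgroup.closure (⋃ j, range (γ j))
  have : Countable (⋃ j, range (γ j)) := (countable_iUnion fun j => countable_range _).to_subtype
  have : Countable Γ := by
    rw [show Γ = _ from FreeGroup.closure_eq_range _]
    exact (countable_range _).to_subtype
  let γ' : ∀ j, κ j → Γ := fun j k => ⟨γ j k, Subgroup.subset_closure (mem_iUnion.2 ⟨j, k, rfl⟩)⟩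
  let S : ℕ → Set G := fun j => E ∩ (K j ∩ {x | ∀ g ∈ C j, g * x ∈ V'})
  have hS : ∀ j, MeasurableSet (S j) := fun j => hE.inter ((k1 j).measurableSet.inter
    (IsOpen.measurableSet (isOpen_iff_mem_nhds.2 fun x hx =>
      (c4 j).eventually_forall_of_forall_eventually fun g hg =>
        (c1.preimage (continuous_snd.mul continuous_fst)).mem_nhds (hx g hg))))
  obtain ⟨φ, ⟨c, q1, q2⟩, q3, q4⟩ := pack (Γ := Γ) hS (fun i j k => inter_subset_inter_right _
    (inter_subset_inter (k2 k) fun x hx g hg => hx g (c5 k hg))) measurableSet_interior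
    (fun j x hx => by
      obtain ⟨k, hk⟩ := Finset.card_pos.1 ((Nat.zero_le _).trans_lt (p1 j x hx.2.1))
      exact ⟨γ' j k, (Finset.mem_filter.1 hk).2⟩)
    fun j => ⟨N j, frac (γ' j) (hS j) measurableSet_interior (fun x hx => p1 j x hx.2.1)
      fun y hy => le_trans (Finset.card_le_card fun k hk => by
        simp only [Finset.mem_filter] at hk ⊢
        exact ⟨hk.1, hk.2.2.2⟩) (p2 j y hy)⟩
  have hm : ∀ x ∈ E, (x, 0) ∈ (⋃ j, S j) ×ˢ ({0} : Set ℕ) := fun x hx => by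
    obtain ⟨i, hi⟩ := k3 x (v1 hx)
    obtain ⟨j, hj⟩ := c6 x (v1 hx)
    exact ⟨mem_iUnion.2 ⟨max i j, hx, k2 (le_max_left i j) hi,
      fun g hg => hj g (c5 (le_max_right i j) hg)⟩, rfl⟩
  obtain ⟨f, hf⟩ := exists_injective_nat Γ
  have e : ∀ x, ((invFun f (f (c (x, 0)).1) : Γ) : G) * x = (φ (x, 0)).1 := fun x => by
    rw [leftInverse_invFun hf, q2]
    rfl
  refine ⟨fun x => f (c (x, 0)).1, fun i => (invFun f i : Γ), Measurable.of_discrete.comp
    (q1.comp (measurable_id.prodMk measurable_const)).fst, fun x hx y hy k => ?_,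
    fun x hx => e x ▸ h2 (interior_subset (q4 (hm x hx)).1)⟩
  simp only [e] at k
  exact (Prod.mk.inj (q3 (hm x hx) (hm y hy) (Prod.ext k
    ((q4 (hm x hx)).2.trans (q4 (hm y hy)).2.symm)))).1

end Pool.Agent.H32.PK
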