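import Pool.Agent.H32.OP

set_option autoImplicit false

namespace Pool.Agent.H32.Peierls

open Finset Pool.Agent.H32.OP
open scoped ENNReal NNReal

abbrev V := Fin 2 → ℤ
abbrev E := V × Fin 2

def e (d : Fin 2) : V := Pi.single d 1

@[simp] lemma e00 : e 0 0 = 1 := rfl
@[simp] lemma e01 : e 0 1 = 0 := rfl
@[simp] lemma e10 : e 1 0 = 0 := rfl
@[simp] lemma e11 : e 1 1 = 1 := rfl

noncomputable def box (L : ℕ) : Finset V := Fintype.piFinset fun _ => Finset.Icc (-(L : ℤ)) L

lemma mem_box {L : ℕ} {v : V} :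
    v ∈ box L ↔ (-(L : ℤ) ≤ v 0 ∧ v 0 ≤ L) ∧ (-(L : ℤ) ≤ v 1 ∧ v 1 ≤ L) := by
  simp [box, Fin.forall_fin_two]

def Supp (L : ℕ) (x : V → Bool) : Prop := ∀ v, v ∉ box L → x v = false

noncomputable def Bd (L : ℕ) (x : V → Bool) : Finset E :=
  (box (L + 1) ×ˢ (univ : Finset (Fin 2))).filter fun a => x a.1 ≠ x (a.1 + e a.2)

lemma Supp.mem {L : ℕ} {x : V → Bool} (hx : Supp L x) {v : V} (h : x v = true) : v ∈ box L := by
  by_contra hv
  rw [hx v hv] at h
  exact Bool.false_ne_true h

lemma touch {L : ℕ} {x : V → Bool} (hx : Supp L x) {a : E} (h : x a.1 ≠ x (a.1 + e a.2)) :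
    a.1 ∈ box L ∨ a.1 + e a.2 ∈ box L := by
  by_contra hc
  rw [not_or] at hc
  exact h ((hx _ hc.1).trans (hx _ hc.2).symm)

lemma mem_Bd {L : ℕ} {x : V → Bool} (hx : Supp L x) {a : E} :
    a ∈ Bd L x ↔ x a.1 ≠ x (a.1 + e a.2) := by
  refine ⟨fun h => (mem_filter.1 h).2, fun h => mem_filter.2 ⟨mem_product.2 ⟨?_, mem_univ _⟩, h⟩⟩
  have := touch hx h
  obtain ⟨v, d⟩ := a
  fin_cases d <;> simp [mem_box] at this ⊢ <;> omega

def ind (A : Finset E) (a : E) : ZMod 2 := if a ∈ A then 1 else 0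

def Cocycle (A : Finset E) : Prop :=
  ∀ v : V, ind A (v, 0) + ind A (v, 1) + ind A (v + e 1, 0) + ind A (v + e 0, 1) = 0

def par (A : Finset E) (v : V) : ZMod 2 :=
  ∑ a ∈ A, if a.2 = 0 ∧ a.1 1 = v 1 ∧ v 0 ≤ a.1 0 then 1 else 0

lemma par_hor (A : Finset E) (v : V) : par A v = par A (v + e 0) + ind A (v, 0) := by
  have h : ind A (v, 0) = ∑ a ∈ A, if a = (v, 0) then (1 : ZMod 2) else 0 := by
    simp [ind]
  rw [h, par, par, ← sum_add_distrib]
  refine sum_congr rfl fun a _ => ?_
  obtain ⟨w, d⟩ := a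
  have hw : (w, d) = (v, 0) ↔ d = 0 ∧ w 0 = v 0 ∧ w 1 = v 1 := by
    simp [funext_iff, Fin.forall_fin_two, and_comm]
  simp only [hw, Pi.add_apply, e00, e01, add_zero]
  split_ifs <;> first | rfl | omega

lemma par_zero {L : ℕ} {A : Finset E} (hA : ∀ a ∈ A, a.1 ∈ box L ∨ a.1 + e a.2 ∈ box L) {v : V}
    (hv : (L : ℤ) < v 0 ∨ (L : ℤ) < v 1 ∨ v 1 < -(L : ℤ)) : par A v = 0 := by
  refine sum_eq_zero fun a ha => if_neg fun h => ?_
  have := hA a ha
  obtain ⟨w, d⟩ := a
  obtain ⟨rfl, h1, h2⟩ := h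
  simp [mem_box] at this h1 h2
  omega

lemma par_ver {L : ℕ} {A : Finset E} (hA : ∀ a ∈ A, a.1 ∈ box L ∨ a.1 + e a.2 ∈ box L)
    (hc : Cocycle A) (v : V) : par A v = par A (v + e 1) + ind A (v, 1) := by
  have key : ∀ n : ℕ, ∀ v : V, (L : ℤ) < v 0 + n → par A v = par A (v + e 1) + ind A (v, 1) := by
    intro n
    induction n with
    | zero =>
      intro v hv
      rw [par_zero hA (Or.inl (by simpa using hv)), par_zero hA (Or.inl (by simpa using hv)), ind,
        if_neg, add_zero]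
      intro h
      have := hA _ h
      simp [mem_box] at this hv
      omega
    | succ n ih =>
      intro v hv
      have h1 := ih (v + e 0) (by simp at hv ⊢; omega)
      have h2 := par_hor A v
      have h3 := par_hor A (v + e 1)
      have h4 := hc v
      rw [add_right_comm v (e 1) (e 0)] at h3
      rw [h2, h3, h1]
      clear h1 h2 h3
      generalize par A (v + e 0 + e 1) = p
      revert h4
      generalize ind A (v, 0) = a
      generalize ind A (v, 1) = b
      generalize ind A (v + e 1, 0) = c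
      generalize ind A (v + e 0, 1) = d
      revert p a b c d
      decide
  exact key (L - v 0 + 1).toNat v (by omega)

lemma cob {L : ℕ} {A : Finset E} (hA : ∀ a ∈ A, a.1 ∈ box L ∨ a.1 + e a.2 ∈ box L)
    (hc : Cocycle A) : ∃ y : V → Bool, Supp L y ∧ Bd L y = A := by
  have key : ∀ n : ℕ, ∀ v : V, v 0 < -(L : ℤ) → (L : ℤ) < v 1 + n → par A v = 0 := by
    intro n
    induction n with
    | zero => exact fun v _ hv => par_zero hA (Or.inr (Or.inl (by simpa using hv)))
    | succ n ih =>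
      intro v h0 hv
      rw [par_ver hA hc, ih (v + e 1) (by simpa using h0) (by simp at hv ⊢; omega), ind, if_neg,
        add_zero]
      intro h
      have := hA _ h
      simp [mem_box] at this
      omega
  have hs : Supp L fun v => decide (par A v = 1) := by
    intro v hv
    have : par A v = 0 := by
      by_cases h0 : v 0 < -(L : ℤ)
      · exact key (L - v 1 + 1).toNat v h0 (by omega)
      · refine par_zero hA ?_
        rw [mem_box] at hv
        omega
    simp [this]
  refine ⟨_, hs, Finset.ext fun a => ?_⟩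
  rw [mem_Bd hs]
  obtain ⟨v, d⟩ := a
  have h : par A v = par A (v + e d) + ind A (v, d) := by
    fin_cases d
    · exact par_hor A v
    · exact par_ver hA hc v
  simp only [h, ind]
  generalize par A (v + e d) = p
  split_ifs with h'
  · simp only [h', iff_true]
    revert p
    decide
  · simp [h']

def sqe (v : V) : Fin 4 → E := ![(v, 0), (v, 1), (v + e 1, 0), (v + e 0, 1)]

def Adj (a b : E) : Prop := ∃ v k k', a = sqe v k ∧ b = sqe v k'

def mv (m : Fin 3 × Fin 4) (a : E) : E := sqe (a.1 - ![0, e 0, e 1] m.1) m.2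

lemma Adj.symm {a b : E} (h : Adj a b) : Adj b a := by
  obtain ⟨v, k, k', h1, h2⟩ := h
  exact ⟨v, k', k, h2, h1⟩

lemma Adj.mv {a b : E} (h : Adj a b) : ∃ m, mv m a = b := by
  obtain ⟨v, k, k', rfl, rfl⟩ := h
  fin_cases k
  · exact ⟨(0, k'), by simp [Peierls.mv, sqe]⟩
  · exact ⟨(0, k'), by simp [Peierls.mv, sqe]⟩
  · exact ⟨(2, k'), by simp [Peierls.mv, sqe]⟩
  · exact ⟨(1, k'), by simp [Peierls.mv, sqe]⟩

def Conn (G : Finset E) : Prop :=
  ∀ A ⊆ G, A.Nonempty → A ≠ G → ∃ a ∈ A, ∃ b ∈ G, b ∉ A ∧ Adj a b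

lemma cocycle_Bd {L : ℕ} {x : V → Bool} (hx : Supp L x) : Cocycle (Bd L x) := by
  intro v
  simp only [ind, mem_Bd hx, add_right_comm v (e 1) (e 0)]
  generalize x v = a
  generalize x (v + e 0) = b
  generalize x (v + e 1) = c
  generalize x (v + e 0 + e 1) = d
  revert a b c d
  decide

lemma Supp.xor {L : ℕ} {x y : V → Bool} (hx : Supp L x) (hy : Supp L y) :
    Supp L fun v => xor (x v) (y v) := fun v hv => by simp [hx v hv, hy v hv]

lemma Bd_xor {L : ℕ} {x y : V → Bool} (hx : Supp L x) (hy : Supp L y) (h : Bd L y ⊆ Bd L x) :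
    Bd L (fun v => xor (x v) (y v)) = Bd L x \ Bd L y := by
  ext a
  have := @h a
  rw [mem_sdiff, mem_Bd (hx.xor hy)]
  rw [mem_Bd hx, mem_Bd hy] at this ⊢
  revert this
  generalize x a.1 = p
  generalize x (a.1 + e a.2) = q
  generalize y a.1 = r
  generalize y (a.1 + e a.2) = s
  revert p q r s
  decide

lemma exists_conn {L : ℕ} {x : V → Bool} (hx : Supp L x) (h0 : x 0 = true) :
    ∃ g : V → Bool, Supp L g ∧ g 0 = true ∧ Bd L g ⊆ Bd L x ∧ Conn (Bd L g) := by
  classical
  have hex : ∃ n, ∃ g : V → Bool, Supp L g ∧ g 0 = true ∧ Bd L g ⊆ Bd L x ∧ (Bd L g).card = n :=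
    ⟨_, x, hx, h0, Subset.rfl, rfl⟩
  obtain ⟨g, hg, hg0, hgx, hn⟩ := Nat.find_spec hex
  refine ⟨g, hg, hg0, hgx, fun A hA hne hAG => ?_⟩
  by_contra hc
  push Not at hc
  have hco : Cocycle A := by
    intro v
    by_cases hk : ∃ k, sqe v k ∈ A
    · obtain ⟨k, hk⟩ := hk
      have : ∀ k', ind A (sqe v k') = ind (Bd L g) (sqe v k') := by
        intro k'
        by_cases h1 : sqe v k' ∈ A
        · simp [ind, h1, hA h1]
        · have : sqe v k' ∉ Bd L g := fun h2 => hc _ hk _ h2 h1 ⟨v, k, k', rfl, rfl⟩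
          simp [ind, h1, this]
      have h0 := this 0
      have h1 := this 1
      have h2 := this 2
      have h3 := this 3
      simp only [sqe, Matrix.cons_val] at h0 h1 h2 h3
      rw [h0, h1, h2, h3]
      exact cocycle_Bd hg v
    · push Not at hk
      have h0 := hk 0
      have h1 := hk 1
      have h2 := hk 2
      have h3 := hk 3
      simp only [sqe, Matrix.cons_val] at h0 h1 h2 h3
      simp [ind, h0, h1, h2, h3]
  obtain ⟨y, hy, hyA⟩ := cob (L := L) (fun a ha => touch hg ((mem_Bd hg).1 (hA ha))) hco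
  by_cases hy0 : y 0 = true
  · have := Nat.find_min' hex ⟨y, hy, hy0, hyA ▸ hA.trans hgx, rfl⟩
    rw [← hn, hyA] at this
    exact hAG (eq_of_subset_of_card_le hA this)
  · have hb := Bd_xor hg hy (hyA ▸ hA)
    have := Nat.find_min' hex ⟨_, hg.xor hy, by simp [hg0, hy0], hb ▸ sdiff_subset.trans hgx, rfl⟩
    rw [← hn, hb, hyA, card_sdiff_of_subset hA] at this
    have h1 := hne.card_pos
    have h2 := card_le_card hA
    omega

lemma ray {L : ℕ} {g : V → Bool} (hg : Supp L g) {v : V} (hv : g v = true) (d : Fin 2) :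
    ∃ n : ℕ, (∀ j ≤ n, g (v + j • e d) = true) ∧ (v + n • e d, d) ∈ Bd L g := by
  classical
  have hex : ∃ n : ℕ, g (v + (n + 1) • e d) = false := by
    refine ⟨2 * L, hg _ fun h => ?_⟩
    have := hg.mem hv
    fin_cases d <;> simp [mem_box] at this h <;> omega
  have h1 : ∀ j ≤ Nat.find hex, g (v + j • e d) = true := by
    intro j hj
    cases j with
    | zero => simpa using hv
    | succ j => simpa using Nat.find_min hex (show j < Nat.find hex by omega)
  refine ⟨Nat.find hex, h1, (mem_Bd hg).2 ?_⟩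
  have h2 := Nat.find_spec hex
  rw [succ_nsmul, ← add_assoc] at h2
  simp only [h1 _ le_rfl, h2]
  decide

lemma exit {L : ℕ} {g : V → Bool} (hg : Supp L g) (h0 : g 0 = true) :
    ∃ n : ℕ, (n • e 0, (0 : Fin 2)) ∈ Bd L g ∧ n + 1 ≤ (Bd L g).card := by
  obtain ⟨n, h1, h2⟩ := ray hg h0 0
  refine ⟨n, by simpa using h2, ?_⟩
  have : (range (n + 1)).image (fun j : ℕ => (j : ℤ)) ⊆ (Bd L g).image fun a => a.1 0 := by
    intro z hz
    obtain ⟨j, hj, rfl⟩ := mem_image.1 hz
    obtain ⟨m, -, h3⟩ := ray hg (h1 j (by simpa [Nat.lt_succ_iff] using hj)) 1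
    exact mem_image.2 ⟨_, h3, by simp⟩
  have h4 := (card_le_card this).trans card_image_le
  rwa [card_image_of_injective _ Nat.cast_injective, card_range] at h4

lemma detour {a b : E} (hab : Adj a b) (l : List (Fin 3 × Fin 4)) : ∀ c, a ∈ verts mv c l →
    ∃ l', (verts mv c l').toFinset = insert b (verts mv c l).toFinset ∧
      l'.length = l.length + 2 := by
  obtain ⟨m, hm⟩ := hab.mv
  obtain ⟨m', hm'⟩ := hab.symm.mv
  have base : ∀ l, ∃ l', (verts mv a l').toFinset = insert b (verts mv a l).toFinset ∧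
      l'.length = l.length + 2 := by
    intro l
    refine ⟨m :: m' :: l, ?_, rfl⟩
    have := self_mem mv a l
    ext z
    simp only [verts, hm, hm', List.toFinset_cons, mem_insert, List.mem_toFinset]
    constructor
    · rintro (rfl | h)
      · exact Or.inr this
      · exact h
    · exact Or.inr
  induction l with
  | nil =>
    intro c h
    obtain rfl : a = c := by simpa [verts] using h
    exact base []
  | cons s l ih =>
    intro c h
    rcases List.mem_cons.1 h with rfl | h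
    · exact base _
    · obtain ⟨l', h1, h2⟩ := ih _ h
      refine ⟨s :: l', ?_, by simp [h2]⟩
      simp only [verts, List.toFinset_cons, h1]
      exact insert_comm _ _ _

lemma cover {G : Finset E} (hG : Conn G) {c : E} (hc : c ∈ G) :
    ∃ l, (verts mv c l).toFinset = G ∧ l.length ≤ 2 * G.card := by
  have key : ∀ k, k + 1 ≤ G.card → ∃ l, (verts mv c l).toFinset ⊆ G ∧
      (verts mv c l).toFinset.card = k + 1 ∧ l.length ≤ 2 * k := by
    intro k
    induction k with
    | zero => exact fun _ => ⟨[], by simpa [verts] using hc, by simp [verts], by simp⟩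
    | succ k ih =>
      intro hk
      obtain ⟨l, h1, h2, h3⟩ := ih (by omega)
      obtain ⟨a, ha, b, hb, hb', hab⟩ := hG _ h1 (card_pos.1 (by omega))
        (fun h => by rw [h] at h2; omega)
      obtain ⟨l', k1, k2⟩ := detour hab l c (List.mem_toFinset.1 ha)
      refine ⟨l', k1 ▸ insert_subset hb h1, ?_, by omega⟩
      rw [k1, card_insert_of_notMem hb', h2]
  have hp := card_pos.2 ⟨c, hc⟩
  obtain ⟨l, h1, h2, h3⟩ := key (G.card - 1) (by omega)
  exact ⟨l, eq_of_subset_of_card_le h1 (by omega), by omega⟩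

def Good (L : ℕ) (G : Finset E) : Prop :=
  ∃ g : V → Bool, Supp L g ∧ g 0 = true ∧ Bd L g = G ∧ Conn G

noncomputable def r : ℝ≥0 := (24⁻¹) ^ 3

lemma sum_good (L : ℕ) (S : Finset (Finset E)) (hS : ∀ G ∈ S, Good L G) :
    ∑ G ∈ S, r ^ G.card ≤ 4⁻¹ := by
  classical
  have h : ∀ G : S, ∃ p : ℕ × List (Fin 3 × Fin 4),
      (verts mv (p.1 • e 0, (0 : Fin 2)) p.2).toFinset = G.1 ∧
        p.1 + 1 + p.2.length ≤ 3 * G.1.card := by
    intro G
    obtain ⟨g, hg, h0, hG, hc⟩ := hS G.1 G.2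
    obtain ⟨n, h1, h2⟩ := exit hg h0
    rw [hG] at h1 h2
    obtain ⟨l, h3, h4⟩ := cover hc h1
    exact ⟨(n, l), h3, by simp only; omega⟩
  choose φ h1 h2 using h
  have hinj : Function.Injective φ := fun a b hab => Subtype.ext (by rw [← h1, ← h1, hab])
  rw [← ENNReal.coe_le_coe, ENNReal.ofNNReal_finsetSum, ← sum_coe_sort, ← tsum_fintype (L := .unconditional _)]
  let w : ℕ × List (Fin 3 × Fin 4) → ℝ≥0∞ := fun p => 24⁻¹ ^ (p.1 + 1) * 24⁻¹ ^ p.2.length
  calc _ ≤ ∑' G : S, w (φ G) := by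
        refine ENNReal.tsum_le_tsum fun G => ?_
        simp only [w, r, ← pow_add, ← pow_mul]
        rw [ENNReal.coe_pow, ENNReal.coe_inv (by norm_num)]
        exact pow_le_pow_right_of_le_one' (by norm_num) (h2 G)
    _ ≤ ∑' p, w p := ENNReal.tsum_comp_le_tsum_of_injective hinj w
    _ = _ := ENNReal.tsum_prod'
    _ ≤ _ := by
        simp only [w, ENNReal.tsum_mul_left, ENNReal.tsum_mul_right, sum_lists,
          ENNReal.tsum_geometric_add_one]
        have e1 : (24 : ℝ≥0∞)⁻¹ = ((24⁻¹ : ℝ≥0) : ℝ≥0∞) := by simp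
        have e2 : (1 : ℝ≥0∞) - ((24⁻¹ : ℝ≥0) : ℝ≥0∞) = ((23 / 24 : ℝ≥0) : ℝ≥0∞) := by
          rw [← ENNReal.coe_one, ← ENNReal.coe_sub]
          congr 1
          rw [tsub_eq_iff_eq_add_of_le (by rw [← NNReal.coe_le_coe]; norm_num)]
          norm_num
        have e3 : (1 : ℝ≥0∞) - (Fintype.card (Fin 3 × Fin 4) : ℕ) * ((24⁻¹ : ℝ≥0) : ℝ≥0∞) =
            ((1 / 2 : ℝ≥0) : ℝ≥0∞) := by
          rw [← ENNReal.coe_one, ← ENNReal.coe_natCast, ← ENNReal.coe_mul, ← ENNReal.coe_sub]
          congr 1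
          rw [tsub_eq_iff_eq_add_of_le (by norm_num)]
          norm_num
        rw [e1, e2, e3, ← ENNReal.coe_inv (by norm_num), ← ENNReal.coe_inv (by norm_num),
          ← ENNReal.coe_mul, ← ENNReal.coe_mul, ENNReal.coe_le_coe, ← NNReal.coe_le_coe]
        norm_num

noncomputable def ext (L : ℕ) (σ : box L → Bool) (v : V) : Bool := if h : v ∈ box L then σ ⟨v, h⟩ else false

lemma supp_ext (L : ℕ) (σ : box L → Bool) : Supp L (ext L σ) := fun _ hv => dif_neg hv

theorem peierls (L : ℕ) :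
    ∑ σ : box L → Bool, (if ext L σ 0 = true then r ^ (Bd L (ext L σ)).card else 0) ≤
      4⁻¹ * ∑ σ : box L → Bool, r ^ (Bd L (ext L σ)).card := by
  classical
  let S := (box (L + 1) ×ˢ (univ : Finset (Fin 2))).powerset.filter (Good L)
  calc _ ≤ ∑ σ : box L → Bool, ∑ G ∈ S,
        (if G ⊆ Bd L (ext L σ) then r ^ (Bd L (ext L σ)).card else 0) := by
        refine sum_le_sum fun σ _ => ?_
        split_ifs with h
        · obtain ⟨g, hg, h0, h1, h2⟩ := exists_conn (supp_ext L σ) h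
          have hm : Bd L g ∈ S := mem_filter.2 ⟨mem_powerset.2 (filter_subset _ _), g, hg, h0, rfl, h2⟩
          refine le_trans (le_of_eq ?_) (single_le_sum (fun _ _ => zero_le) hm)
          rw [if_pos h1]
        · exact zero_le
    _ = _ := sum_comm
    _ ≤ ∑ G ∈ S, r ^ G.card * ∑ σ : box L → Bool, r ^ (Bd L (ext L σ)).card := by
        refine sum_le_sum fun G hG => ?_
        obtain ⟨g, hg, h0, rfl, -⟩ := (mem_filter.1 hG).2
        let fl : (box L → Bool) → box L → Bool := fun σ i => xor (σ i) (g i)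
        have hfl : Function.Involutive fl := fun σ => funext fun i => by simp [fl]
        have he : ∀ σ, ext L (fl σ) = fun v => xor (ext L σ v) (g v) := by
          intro σ
          funext v
          by_cases hv : v ∈ box L
          · simp [ext, hv, fl]
          · simp [ext, hv, hg v hv]
        rw [← Equiv.sum_comp hfl.toPerm (fun σ => r ^ (Bd L (ext L σ)).card), mul_sum]
        refine sum_le_sum fun σ _ => ?_
        split_ifs with h
        · rw [Function.Involutive.coe_toPerm, he, Bd_xor (supp_ext L σ) hg h, ← pow_add,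
            add_comm, card_sdiff_add_card_eq_card h]
        · exact zero_le
    _ ≤ _ := by
        rw [← sum_mul]
        exact mul_le_mul_left (sum_good L S fun G hG => (mem_filter.1 hG).2) _

end Pool.Agent.H32.Peierls
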