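import Pool.Agent.H32.FROp

set_option autoImplicit false

namespace Pool.Agent.H32.PA

open Filter Topology FR

def Lv (n m : ℕ) : Prop := ∃ k j, 1 ≤ j ∧ m + n ≤ k + j * 4 ^ k ∧ m + j * 4 ^ k ≤ k + n

open Classical in
noncomputable def v (n : ℕ) : ℕ := Nat.findGreatest (Lv n) n

lemma le_v {n m : ℕ} (h : Lv n m) : m ≤ v n := by
  classical
  refine Nat.le_findGreatest ?_ h
  obtain ⟨k, j, h1, -, h2⟩ := h
  have := four_le k
  have := Nat.le_mul_of_pos_left (4 ^ k) h1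
  omega

lemma lv {n : ℕ} (h : v n ≠ 0) : Lv n (v n) := by
  classical
  exact Nat.findGreatest_of_ne_zero rfl h

lemma v_le (n : ℕ) : v n ≤ n := by
  classical
  exact Nat.findGreatest_le n

noncomputable def W (i : ℤ) : ℕ := (-i).toNat + v i.toNat

lemma W_succ (i : ℤ) : W (i - 1) ≤ W i + 1 := by
  unfold W
  by_cases h : v (i - 1).toNat = 0
  · omega
  have h0 := v_le (i - 1).toNat
  obtain ⟨k, j, h1, h2, h3⟩ := lv h
  have := le_v (n := i.toNat) (m := v (i - 1).toNat - 1) ⟨k, j, h1, by omega, by omega⟩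
  omega

abbrev Y := ZeroAtInftyContinuousMap ℤ ℂ

lemma le_norm (f : Y) (p : ℤ) : ‖f p‖ ≤ ‖f‖ := f.toBCF.norm_coe_le_norm p

lemma norm_le (f : Y) {C : ℝ} (hC : 0 ≤ C) (h : ∀ p, ‖f p‖ ≤ C) : ‖f‖ ≤ C :=
  (BoundedContinuousFunction.norm_le (f := f.toBCF) hC).2 h

def mk (f : ℤ → ℂ) (h : Tendsto f cofinite (𝓝 0)) : Y :=
  ⟨⟨f, continuous_of_discreteTopology⟩, by rwa [cocompact_eq_cofinite]⟩

lemma tends (f : Y) : Tendsto f cofinite (𝓝 0) := cocompact_eq_cofinite ℤ ▸ f.zero_at_infty'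

lemma small (f : Y) {ε : ℝ} (hε : 0 < ε) : ∃ R : ℕ, ∀ i : ℤ, R < |i| → ‖f i‖ < ε := by
  have hF := NormedAddGroup.tendsto_nhds_zero.1 (tends f) ε hε
  rw [eventually_cofinite] at hF
  obtain ⟨M, hM⟩ := (hF.image Int.natAbs).bddAbove
  exact ⟨M, fun i hi => by_contra fun k => by
    have := hM ⟨i, k, rfl⟩
    rw [Int.abs_eq_natAbs] at hi
    omega⟩

lemma step (x : Y) (i : ℤ) : ‖2 ^ W (i - 1) * x (i - 1) / 2 ^ W i‖ ≤ 2 * ‖x (i - 1)‖ := by
  refine (dv (i := W i) (L := 0) (C := 2 * ‖x (i - 1)‖) ?_ le_rfl).trans_eq (by simp)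
  rw [norm_mul, norm_pow, RCLike.norm_two, ← mul_assoc, ← pow_succ]
  exact mul_le_mul_of_nonneg_right (pow_le_pow_right₀ one_le_two (W_succ _)) (norm_nonneg _)

noncomputable def T : Y →L[ℂ] Y := LinearMap.mkContinuous
  { toFun := fun x => mk (fun i => 2 ^ W (i - 1) * x (i - 1) / 2 ^ W i) (squeeze_zero_norm (step x)
      (by simpa using ((tends x).comp
        (sub_left_injective (b := (1 : ℤ))).tendsto_cofinite).norm.const_mul 2))
    map_add' := fun x y => ZeroAtInftyContinuousMap.ext fun p => by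
      change _ * (x _ + y _) / _ = _ * x _ / _ + _ * y _ / _
      ring
    map_smul' := fun c x => ZeroAtInftyContinuousMap.ext fun p => by
      change _ * (c * x _) / _ = c * (_ * x _ / _)
      ring } 2 fun x => norm_le _ (by positivity) fun p =>
    (step x p).trans (mul_le_mul_of_nonneg_left (le_norm x _) zero_le_two)

lemma T_pow (s : ℕ) (x : Y) (i : ℤ) : (T ^ s) x i = 2 ^ W (i - s) * x (i - s) / 2 ^ W i := by
  induction s generalizing x with
  | zero => simp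
  | succ s ih =>
    rw [pow_succ, mul_apply_eq_comp, ih]
    change _ * (_ * x _ / _) / _ = _
    rw [mul_div_cancel₀ _ (by simp), Nat.cast_succ, sub_add_eq_sub_sub]

theorem propA {U : Set Y} (hU : IsOpen U) (hne : U.Nonempty) : ∃ x : Y, ∃ δ : ℝ, 0 < δ ∧ ∀ N₀ : ℕ,
    ∃ N : ℕ, N₀ < N ∧ δ * N ≤ ({n : ℕ | 1 ≤ n ∧ n ≤ N ∧ (T ^ n) x ∈ U}.ncard : ℕ) := by
  obtain ⟨y, hy⟩ := hne
  obtain ⟨ε, hε, h1⟩ := Metric.isOpen_iff.1 hU y hy
  obtain ⟨R, hR⟩ := small y (show 0 < ε / 4 by positivity)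
  obtain ⟨L, hL⟩ := ((tendsto_const_nhds.div_atTop (tendsto_pow_atTop_atTop_of_one_lt
    (r := (2 : ℝ)) one_lt_two) (a := ‖y‖)).eventually (gt_mem_nhds (half_pos hε))).exists
  obtain ⟨P, hP⟩ : ∃ P : ℕ, P = 4 ^ (2 * R + L) := ⟨_, rfl⟩
  have h2 : 4 * (2 * R + L) ≤ P := hP ▸ four_le _
  have h3 : 0 < P := by rw [hP]; positivity
  let g : ℤ → ℂ := fun t => if |t| ≤ R then 2 ^ W t * y t else 0
  have hg : ∀ t, ‖g t‖ ≤ 2 ^ R * ‖y‖ := fun t => by
    simp only [g]
    split_ifs with a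
    · rw [norm_mul, norm_pow, RCLike.norm_two]
      have := v_le t.toNat
      exact mul_le_mul (pow_le_pow_right₀ one_le_two (by unfold W; rw [abs_le] at a; omega))
        (le_norm _ _) (norm_nonneg _) (by positivity)
    · rw [norm_zero]
      positivity
  let u : ℤ → ℂ := fun i => if i ≤ R then g ((i + R) % P - R) else 0
  have hu : ∀ i, ‖u i‖ ≤ 2 ^ R * ‖y‖ := fun i => by
    simp only [u]
    split_ifs
    · exact hg _
    · rw [norm_zero]
      positivity
  refine ⟨mk (fun i => u i / 2 ^ W i) (NormedAddGroup.tendsto_nhds_zero.2 fun η hη => ?_),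
    1 / P, by positivity, fun N₀ => ⟨P * (N₀ + 1), by nlinarith, ?_⟩⟩
  · obtain ⟨K, hK⟩ := ((tendsto_const_nhds.div_atTop (tendsto_pow_atTop_atTop_of_one_lt
      (r := (2 : ℝ)) one_lt_two) (a := ‖y‖)).eventually (gt_mem_nhds hη)).exists
    refine (Set.finite_Icc (-(R + K : ℤ)) R).subset fun i hi => by_contra fun a => hi ?_
    by_cases b : i ≤ R
    · exact (dv (hu i) (by unfold W; rw [Set.mem_Icc] at a; omega)).trans_lt hK
    · simpa [u, b] using hη
  · rw [Nat.cast_mul, ← mul_assoc, one_div_mul_cancel (by positivity), one_mul, Nat.cast_le]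
    refine ((Set.ncard_coe_finset _).trans (Finset.card_range (N₀ + 1))).ge.trans <|
      Set.ncard_le_ncard_of_injOn (fun m => P * (m + 1)) (fun m hm => ⟨Nat.mul_pos h3 m.succ_pos,
      Nat.mul_le_mul_left _ (Finset.mem_range.1 hm), h1 (mem_ball_iff_norm.2 ((norm_le _
        (C := ε / 2 + ε / 4) (by positivity) fun i => ?_).trans_lt (by linarith)))⟩)
      (fun a _ b _ e => by simpa [h3.ne'] using e) ((Set.finite_le_nat _).subset fun n hn => hn.2.1)
    rw [ZeroAtInftyContinuousMap.sub_apply, T_pow]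
    change ‖_ * (u _ / _) / _ - _‖ ≤ _
    rw [mul_div_cancel₀ _ (by simp)]
    have e : (i - (P * (m + 1) : ℕ) + R) % P = (i + R) % P := by
      rw [sub_add_eq_add_sub, Nat.cast_mul, Int.sub_mul_emod_self_left]
    by_cases a : |i| ≤ R
    · have a' := abs_le.1 a
      simp only [u, g]
      rw [if_pos (by omega), e, Int.emod_eq_of_lt (by omega) (by omega), add_sub_cancel_right,
        if_pos a, mul_div_cancel_left₀ _ (by simp), sub_self, norm_zero]
      positivity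
    refine (norm_sub_le _ _).trans (add_le_add ?_ (hR i (not_le.1 a)).le)
    by_cases b : |(i + R) % P - R| ≤ R
    · refine (dv (hu _) ?_).trans hL.le
      have c := Int.emod_add_mul_ediv (i + R) P
      rw [abs_le] at a b
      unfold W
      rcases lt_trichotomy ((i + R) / P) 0 with l | l | l
      · have : (P : ℤ) * ((i + R) / P) ≤ -P := by nlinarith
        omega
      · rw [l] at c
        omega
      · obtain ⟨j, hj⟩ := Int.eq_ofNat_of_zero_le l.le
        rw [hj] at c l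
        have := le_v (n := i.toNat) (m := R + L) ⟨2 * R + L, j, by omega, by
          rw [← hP, mul_comm j]; omega, by rw [← hP, mul_comm j]; omega⟩
        omega
    · simp only [u, g]
      rw [e, if_neg b, ite_self, zero_div, norm_zero]
      positivity

lemma near_shift {i k K c : ℕ} (h : Near i k) (hk : k ≤ K) (hc : c * 4 ^ K ≤ i) :
    Near (i + 4 ^ K - c * 4 ^ K) k := by
  obtain ⟨j, -, h2, h3⟩ := h
  have h4 := (four_le k).trans (p4 hk)
  have h5 : 4 ^ K = 4 ^ (K - k) * 4 ^ k := by rw [← pow_add, Nat.sub_add_cancel hk]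
  have h6 : (j + 4 ^ (K - k) - c * 4 ^ (K - k)) * 4 ^ k = j * 4 ^ k + 4 ^ K - c * 4 ^ K := by
    rw [Nat.sub_mul, add_mul, mul_assoc, ← h5]
  exact ⟨j + 4 ^ (K - k) - c * 4 ^ (K - k), Nat.pos_of_ne_zero fun e => by rw [e] at h6; omega,
    by omega, by omega⟩

lemma big {C η : ℝ} (hη : 0 < η) : ∃ Q : ℕ, 0 < Q ∧ C / 2 ^ Q < η :=
  ((eventually_gt_atTop 0).and ((tendsto_const_nhds.div_atTop (tendsto_pow_atTop_atTop_of_one_lt
    (r := (2 : ℝ)) one_lt_two) (a := C)).eventually (gt_mem_nhds hη))).exists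

theorem not_ufrec {x : Y} (hx : x 0 ≠ 0) : ¬∀ U, IsOpen U → x ∈ U → ∃ δ : ℝ, 0 < δ ∧ ∀ N₀ : ℕ,
    ∃ N : ℕ, N₀ < N ∧ δ * N ≤ ({n : ℕ | 1 ≤ n ∧ n ≤ N ∧ (T ^ n) x ∈ U}.ncard : ℕ) := by
  classical
  intro H
  have ha := norm_pos_iff.2 hx
  obtain ⟨δ, h1, h2⟩ := H _ Metric.isOpen_ball (Metric.mem_ball_self (half_pos ha))
  obtain ⟨Q, hQ, h3⟩ := big (C := 60) (half_pos h1)
  have hε : 0 < ‖x 0‖ / 4 / 2 ^ (3 * Q) := by positivity
  obtain ⟨δ', h4, h5⟩ := H _ Metric.isOpen_ball (Metric.mem_ball_self hε)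
  obtain ⟨R, hR⟩ := small x hε
  obtain ⟨Q', hQ', h6⟩ := big (C := 20) (show 0 < δ' / 2 * (δ / 2) by positivity)
  obtain ⟨N, h7, h8⟩ := h2 (4 ^ (3 * Q'))
  obtain ⟨N', h9, h10⟩ := h5 ⌈2 * (N + R + 1) / δ'⌉₊
  have f1 := (Set.finite_le_nat N).subset (t := {n : ℕ | 1 ≤ n ∧ n ≤ N ∧ (T ^ n) x ∈
    Metric.ball x (‖x 0‖ / 2)}) fun n hn => hn.2.1
  have f2 := (Set.finite_le_nat N').subset (t := {n : ℕ | 1 ≤ n ∧ n ≤ N' ∧ (T ^ n) x ∈
    Metric.ball x (‖x 0‖ / 4 / 2 ^ (3 * Q))}) fun n hn => hn.2.1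
  rw [Set.ncard_eq_toFinset_card _ f1] at h8
  rw [Set.ncard_eq_toFinset_card _ f2] at h10
  have key := Finset.sum_card_bipartiteAbove_eq_sum_card_bipartiteBelow
    (s := f2.toFinset \ Finset.range (N + R + 1)) (t := f1.toFinset)
    (r := fun n' n => 3 * Q' ≤ e (n' - n))
  have k1 : ∀ n' ∈ f2.toFinset \ Finset.range (N + R + 1), δ / 2 * N ≤
      (f1.toFinset.bipartiteAbove (fun n' n => 3 * Q' ≤ e (n' - n)) n').card := fun n' hn' => by
    obtain ⟨a1, a2⟩ := Finset.mem_sdiff.1 hn'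
    rw [Finset.mem_range] at a2
    have a3 := Finset.card_filter_add_card_filter_not (s := f1.toFinset)
      fun n => 3 * Q' ≤ e (n' - n)
    have a4 := Nat.div_mul_le_self (n' - N) (4 ^ (3 * Q'))
    have a5 := Nat.lt_div_mul_add (a := n' - N) (show 0 < 4 ^ (3 * Q') by positivity)
    have a6 : (f1.toFinset.filter fun n => ¬3 * Q' ≤ e (n' - n)).card ≤
        {m : ℕ | m ≤ 3 * N ∧ 3 * Q ≤ e m}.ncard := by
      rw [← Set.ncard_coe_finset]
      refine Set.ncard_le_ncard_of_injOn (fun n => n' - n + 4 ^ (3 * Q') -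
        (n' - N) / 4 ^ (3 * Q') * 4 ^ (3 * Q')) (fun n hn => ?_) (fun n hn m hm c => ?_)
        ((Set.finite_le_nat _).subset fun n hn => hn.1)
      · obtain ⟨b1, b2⟩ := Finset.mem_filter.1 hn
        obtain ⟨-, b3, b4⟩ := f1.mem_toFinset.1 b1
        have b5 := (le_norm _ 0).trans_lt (mem_ball_iff_norm.1 b4)
        have b6 := (le_norm _ ((n' - n : ℕ) : ℤ)).trans_lt
          (mem_ball_iff_norm.1 (f2.mem_toFinset.1 a1).2.2)
        have b7 := hR ((n' - n : ℕ) : ℤ) (by rw [Nat.abs_cast]; omega)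
        rw [ZeroAtInftyContinuousMap.sub_apply, T_pow] at b5 b6
        rw [show W 0 = 0 by have := v_le 0; unfold W; simpa using this, pow_zero, div_one] at b5
        rw [show ((n' - n : ℕ) : ℤ) - n' = 0 - n by omega] at b6
        generalize 2 ^ W (0 - n) * x (0 - n) = y at b5 b6
        have b8 := norm_sub_norm_le (x 0) y
        have b9 := norm_sub_norm_le (y / 2 ^ W (n' - n : ℕ)) (x (n' - n : ℕ))
        rw [norm_sub_rev] at b8
        rw [norm_div, norm_pow, RCLike.norm_two] at b9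
        have c1 : 3 * Q < W (n' - n : ℕ) := by
          by_contra c
          have := div_le_div₀ (norm_nonneg y) (show ‖x 0‖ / 2 ≤ ‖y‖ by linarith) (by positivity)
            (pow_le_pow_right₀ one_le_two (not_lt.1 c))
          linarith [show ‖x 0‖ / 2 / 2 ^ (3 * Q) = 2 * (‖x 0‖ / 4 / 2 ^ (3 * Q)) by ring]
        rw [W, Int.toNat_neg_natCast, Int.toNat_natCast, zero_add] at c1
        obtain ⟨k, j, c2, c3, c4⟩ := lv (n := n' - n) (by omega)
        have c5 : Near (n' - n) k := ⟨j, c2, by omega, by omega⟩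
        have c6 := le_lam c5
        have c7 := le_lam (near_shift c5 (K := 3 * Q') (c := (n' - N) / 4 ^ (3 * Q'))
          (by unfold e at b2; omega) (by omega))
        exact ⟨by omega, by unfold e; omega⟩
      · have := (f1.mem_toFinset.1 (Finset.mem_filter.1 hn).1).2.1
        have := (f1.mem_toFinset.1 (Finset.mem_filter.1 hm).1).2.1
        dsimp only at c
        omega
    have a7 := (Nat.cast_le.2 a6).trans (cnt_up hQ (3 * N))
    have a8 := mul_le_mul_of_nonneg_right h3.le N.cast_nonneg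
    rw [← a3, Nat.cast_add] at h8
    rw [Nat.cast_mul, Nat.cast_ofNat] at a7
    rw [Finset.bipartiteAbove]
    linarith [show (20 : ℝ) * (3 * N) / 2 ^ Q = 60 / 2 ^ Q * N by ring]
  have k2 : ∀ n ∈ f1.toFinset, (((f2.toFinset \ Finset.range (N + R + 1)).bipartiteBelow
      (fun n' n => 3 * Q' ≤ e (n' - n)) n).card : ℝ) ≤ 20 * N' / 2 ^ Q' := fun n hn => by
    refine (Nat.cast_le.2 ?_).trans (cnt_up hQ' N')
    rw [← Set.ncard_coe_finset]
    have := (f1.mem_toFinset.1 hn).2.1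
    refine Set.ncard_le_ncard_of_injOn (fun m => m - n) (fun m hm => ?_) (fun m hm m' hm' c => ?_)
      ((Set.finite_le_nat _).subset fun n hn => hn.1)
    · obtain ⟨a1, a2⟩ := Finset.mem_filter.1 hm
      exact ⟨(Nat.sub_le _ _).trans (f2.mem_toFinset.1 (Finset.mem_sdiff.1 a1).1).2.1, a2⟩
    · have := Finset.mem_range.not.1 (Finset.mem_sdiff.1 (Finset.mem_filter.1 hm).1).2
      have := Finset.mem_range.not.1 (Finset.mem_sdiff.1 (Finset.mem_filter.1 hm').1).2
      dsimp only at c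
      omega
  have k3 := Finset.card_nsmul_le_sum _ _ _ k1
  have k4 := Finset.sum_le_card_nsmul _ _ _ k2
  rw [← Nat.cast_sum, nsmul_eq_mul] at k3 k4
  rw [key] at k3
  have k5 : (f1.toFinset.card : ℝ) ≤ N := by
    exact Nat.cast_le.2 ((Finset.card_le_card fun n hn => Finset.mem_Icc.2
      ⟨(f1.mem_toFinset.1 hn).1, (f1.mem_toFinset.1 hn).2.1⟩).trans_eq (by simp))
  have k6 := Finset.le_card_sdiff (Finset.range (N + R + 1)) f2.toFinset
  rw [Finset.card_range, tsub_le_iff_right, ← Nat.cast_le (α := ℝ)] at k6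
  have k7 := (div_lt_iff₀ h4).1 (Nat.lt_of_ceil_lt h9)
  rw [Nat.cast_add, Nat.cast_add_one, Nat.cast_add] at k6
  have k8 : δ' / 2 * N' ≤ (f2.toFinset \ Finset.range (N + R + 1)).card := by linarith
  have k9 := (mul_le_mul_of_nonneg_right k8 (by positivity)).trans (k3.trans (k4.trans
    (mul_le_mul_of_nonneg_right k5 (by positivity))))
  have := mul_lt_mul_of_pos_right h6 (show (0 : ℝ) < N * N' by
    exact_mod_cast Nat.mul_pos (Nat.zero_lt_of_lt h7) (Nat.zero_lt_of_lt h9))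
  linarith [show (N : ℝ) * (20 * N' / 2 ^ Q') = 20 / 2 ^ Q' * (N * N') by ring]

end Pool.Agent.H32.PA
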