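import Mathlib

set_option autoImplicit false

namespace Pool.Agent.H32.QI

theorem qi {V : Type} (G : SimpleGraph V) (f : V → ℤ × ℤ) (g : ℤ × ℤ → V) (C : ℕ)
    (h1 : ∀ x, G.edist x (g (f x)) ≤ C)
    (h2 : ∀ v : ℤ × ℤ, G.edist (g v) (g (v.1 + 1, v.2)) ≤ C ∧ G.edist (g v) (g (v.1, v.2 + 1)) ≤ C)
    (h3 : ∀ x y, G.Adj x y → |(f x).1 - (f y).1| + |(f x).2 - (f y).2| ≤ C) :
    G.Connected ∧ ∀ x y, |(f x).1 - (f y).1| + |(f x).2 - (f y).2| ≤ C * G.dist x y ∧
      (G.dist x y : ℤ) ≤ C * (|(f x).1 - (f y).1| + |(f x).2 - (f y).2|) + 2 * C := by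
  have a1 : ∀ (n : ℕ) (u v : ℤ × ℤ), (u.1 - v.1).natAbs + (u.2 - v.2).natAbs = n →
      G.edist (g u) (g v) ≤ (C * n : ℕ) := by
    intro n
    induction n with
    | zero =>
      intro u v h
      obtain rfl : u = v := Prod.ext (by omega) (by omega)
      simp
    | succ n ih =>
      intro u v h
      obtain ⟨w, k1, k2⟩ : ∃ w : ℤ × ℤ, G.edist (g u) (g w) ≤ C ∧
          (w.1 - v.1).natAbs + (w.2 - v.2).natAbs = n := by
        rcases lt_trichotomy u.1 v.1 with k | k | k
        · exact ⟨_, (h2 u).1, by simp only; omega⟩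
        · rcases lt_trichotomy u.2 v.2 with k' | k' | k'
          · exact ⟨_, (h2 u).2, by simp only; omega⟩
          · omega
          · refine ⟨(u.1, u.2 - 1), ?_, by simp only; omega⟩
            rw [SimpleGraph.edist_comm]
            simpa using (h2 (u.1, u.2 - 1)).2
        · refine ⟨(u.1 - 1, u.2), ?_, by simp only; omega⟩
          rw [SimpleGraph.edist_comm]
          simpa using (h2 (u.1 - 1, u.2)).1
      refine SimpleGraph.edist_triangle.trans ((add_le_add k1 (ih w v k2)).trans (le_of_eq ?_))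
      push_cast
      ring
  have a2 : ∀ x y, G.edist x y ≤
      (C * (((f x).1 - (f y).1).natAbs + ((f x).2 - (f y).2).natAbs) + 2 * C : ℕ) := by
    intro x y
    refine (SimpleGraph.edist_triangle (v := g (f x))).trans ((add_le_add (h1 x)
      ((SimpleGraph.edist_triangle (v := g (f y))).trans (add_le_add (a1 _ _ _ rfl)
        (SimpleGraph.edist_comm.le.trans (h1 y))))).trans (le_of_eq ?_))
    push_cast
    ring
  have a3 : ∀ x y, G.Reachable x y := fun x y =>
    SimpleGraph.reachable_of_edist_ne_top (ne_top_of_le_ne_top (ENat.coe_ne_top _) (a2 x y))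
  refine ⟨@SimpleGraph.Connected.mk _ _ a3 ⟨g 0⟩, fun x y => ⟨?_, ?_⟩⟩
  · obtain ⟨w, hw⟩ := (a3 x y).exists_walk_length_eq_dist
    rw [← hw]
    clear hw
    induction w with
    | nil => simp
    | @cons a b c h w ih =>
      have := h3 a b h
      have k1 := abs_sub_le (f a).1 (f b).1 (f c).1
      have k2 := abs_sub_le (f a).2 (f b).2 (f c).2
      simp only [SimpleGraph.Walk.length_cons]
      push_cast
      linarith
  · have := ENat.toNat_le_of_le_coe (a2 x y)
    zify at this
    exact this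

end Pool.Agent.H32.QI
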