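import Pool.Agent.H32.PCA

set_option autoImplicit false
open MeasureTheory ProbabilityTheory
open scoped ENNReal

namespace Pool.Agent.H32.Queue

noncomputable def V (s : ℕ → ℝ) : ℕ → Fin 2 → ℝ
  | 0 => fun _ => 0
  | n + 1 => fun j => max 0 (V s n j +
      (if j = (if V s n 0 ≤ V s n 1 then 0 else 1) then s n else 0) - 1)

lemma V_spec (s : ℕ → ℝ) (n : ℕ) : ∃ i : Fin 2, (∀ j, V s n i ≤ V s n j) ∧
    ∀ j, V s (n + 1) j = max 0 (V s n j + (if j = i then s n else 0) - 1) := by
  refine ⟨if V s n 0 ≤ V s n 1 then 0 else 1, fun j => ?_, fun j => rfl⟩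
  split_ifs with h
  · fin_cases j
    · exact le_rfl
    · exact h
  · fin_cases j
    · exact (not_le.1 h).le
    · exact le_rfl

lemma V_nonneg (s : ℕ → ℝ) (n : ℕ) (j : Fin 2) : 0 ≤ V s n j := by
  cases n with
  | zero => exact le_rfl
  | succ n => exact le_max_left _ _

lemma V_step (s : ℕ → ℝ) (n : ℕ) (c d : ℝ) (hc : ∀ j, c ≤ V s n j) (h1 : d ≤ s (n + 1) - 1)
    (h2 : d ≤ c + s n - 2) (j : Fin 2) : d ≤ V s (n + 2) j := by
  obtain ⟨i, -, hi⟩ := V_spec s n
  obtain ⟨i', hm, hi'⟩ := V_spec s (n + 1)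
  rw [hi' j]
  refine le_trans ?_ (le_max_right _ _)
  split_ifs with h
  · linarith [V_nonneg s (n + 1) j]
  · have h3 : V s (n + 1) i ≤ V s (n + 1) j := by
      by_cases hj : j = i
      · rw [hj]
      · have : i = i' := by omega
        rw [this]
        exact hm j
    have h4 := le_max_right 0 (V s n i + (if i = i then s n else 0) - 1)
    rw [← hi i, if_pos rfl] at h4
    linarith [hc i]

noncomputable def bern : Measure Bool :=
  (20⁻¹ : ℝ≥0∞) • Measure.dirac true + (19 / 20 : ℝ≥0∞) • Measure.dirac false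

lemma w_add : (20⁻¹ : ℝ≥0∞) + 19 / 20 = 1 := by
  rw [← one_div, ENNReal.div_add_div_same]
  norm_num
  exact ENNReal.div_self (by norm_num) (by norm_num)

instance : IsProbabilityMeasure bern := ⟨by simp [bern, w_add]⟩

lemma bern_true : bern {true} = 20⁻¹ := by simp [bern]

lemma bern_false : bern {false} = 19 / 20 := by simp [bern]

lemma integral_bern (f : Bool → ℝ) : ∫ b, f b ∂bern = 1 / 20 * f true + 19 / 20 * f false := by
  rw [integral_fintype Integrable.of_finite]
  simp [Measure.real, bern_true, bern_false]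

noncomputable def P (ι : Type) : Measure (ι → Bool) := Measure.infinitePi fun _ => bern

instance (ι : Type) : IsProbabilityMeasure (P ι) := by
  unfold P
  infer_instance

lemma map_coord {ι : Type} (i : ι) (f : Bool → ℝ) :
    (P ι).map (fun ω => f (ω i)) = bern.map f := by
  rw [← Measure.infinitePi_map_eval (fun _ : ι => bern) i]
  exact (Measure.map_map (Measurable.of_discrete (f := f)) (measurable_pi_apply i)).symm

lemma meas_coord {ι : Type} (i : ι) (f : Bool → ℝ) : Measurable fun ω : ι → Bool => f (ω i) :=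
  (Measurable.of_discrete (f := f)).comp (measurable_pi_apply i)

lemma ident {ι : Type} (i j : ι) (f : Bool → ℝ) :
    IdentDistrib (fun ω => f (ω i)) (fun ω => f (ω j)) (P ι) (P ι) :=
  ⟨(meas_coord i f).aemeasurable, (meas_coord j f).aemeasurable, by rw [map_coord, map_coord]⟩

lemma integral_coord {ι : Type} (i : ι) (f : Bool → ℝ) :
    ∫ ω, f (ω i) ∂(P ι) = 1 / 20 * f true + 19 / 20 * f false := by
  rw [← integral_bern, ← Measure.infinitePi_map_eval (fun _ : ι => bern) i,
    integral_map (measurable_pi_apply i).aemeasurable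
      (Measurable.of_discrete (f := f)).aestronglyMeasurable]
  rfl

lemma memLp_coord {ι : Type} (i : ι) (f : Bool → ℝ) (p : ℝ≥0∞) :
    MemLp (fun ω => f (ω i)) p (P ι) :=
  MemLp.of_bound (meas_coord i f).aestronglyMeasurable (‖f true‖ + ‖f false‖)
    (ae_of_all _ fun ω => by
      cases ω i
      · linarith [norm_nonneg (f true)]
      · linarith [norm_nonneg (f false)])

lemma P_one {ι : Type} (i : ι) (b : Bool) : P ι {ω | ω i = b} = bern {b} :=
  (measurePreserving_eval_infinitePi (fun _ : ι => bern) i).measure_preimage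
    (MeasurableSet.of_discrete (s := {b})).nullMeasurableSet

lemma P_two {ι : Type} {i j : ι} (h : i ≠ j) (b c : Bool) :
    P ι ({ω | ω i = b} ∩ {ω | ω j = c}) = bern {b} * bern {c} := by
  have h1 := Measure.infinitePi_map_eval_prod (P := fun _ : ι => bern) h
  rw [← Measure.prod_prod, ← h1, Measure.map_apply (by fun_prop) MeasurableSet.of_discrete]
  rfl

lemma mset {ι : Type} (i : ι) (b : Bool) : MeasurableSet {ω : ι → Bool | ω i = b} :=
  measurable_pi_apply (X := fun _ : ι => Bool) i (MeasurableSet.of_discrete (s := {b}))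

end Pool.Agent.H32.Queue
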