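import Mathlib
import Pool.Agent.H32.Kun

open Set Filter Function

namespace Pool.Agent.H32.RFW

open UFA UFB

/-- Rudin-Frolik preorder -/
def RFle (u v : Ultrafilter ℕ) : Prop :=
  ∃ f : ℕ → Ultrafilter ℕ, Injective f ∧ IsDiscrete (range f) ∧ v = u.bind f

def RFlt (u v : Ultrafilter ℕ) : Prop := RFle u v ∧ ¬ RFle v u

/-- the level `α` of the well-founded part -/
def wf (α : Ordinal.{0}) : Set (Ultrafilter ℕ) := {u | ∃ h : Acc RFlt u, h.rank = α}

/-- discretely weak p-point -/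
def DWP (u : Ultrafilter ℕ) : Prop := (∀ n : ℕ, u ≠ pure n) ∧
  ∀ D : Set (Ultrafilter ℕ), D.Countable → IsDiscrete D →
    (∀ v ∈ D, (∀ n : ℕ, v ≠ pure n) ∧ v ≠ u) → u ∉ closure D

def Mn (w : UF) : Prop := NP w ∧ ∀ (v : UF) (g : ℕ → UF) (ρ : ℕ → ℕ), NP v →
  (∀ j, (g j).map ρ = pure j) → {j | NP (g j)} ∈ v → w ≠ v.bind g

lemma DWP.mn {w : UF} (h : DWP w) : Mn w := by
  refine ⟨h.1, fun v g ρ hv hg hn e => ?_⟩
  obtain ⟨i, d⟩ := discrete_of_part hg
  have : {j | g j ≠ w} ∈ v := Ultrafilter.compl_mem_iff_notMem.2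
    (hv.fin (s := g ⁻¹' {w}) ((finite_singleton w).preimage i.injOn))
  refine h.2 (g '' ({j | NP (g j)} ∩ {j | g j ≠ w})) ((to_countable _).image _)
    (d.mono (image_subset_range _ _)) ?_ (mem_closure_of_tendsto
      (show Tendsto g v (nhds w) from e ▸ tendsto_bind v g)
      (mem_of_superset (inter_mem hn this) fun n hn => mem_image_of_mem g hn))
  rintro _ ⟨n, hn, rfl⟩
  exact hn

lemma rf_iff {u v : UF} : RFle u v ↔ ∃ (g : ℕ → UF) (τ : ℕ → ℕ),
    (∀ j, (g j).map τ = pure j) ∧ v = u.bind g :=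
  ⟨fun ⟨g, a, b, c⟩ => let ⟨τ, h⟩ := part_of_discrete a b; ⟨g, τ, h, c⟩,
    fun ⟨g, _, a, b⟩ => ⟨g, (discrete_of_part a).1, (discrete_of_part a).2, b⟩⟩

lemma rf_large {u : UF} (hu : NP u) {g : ℕ → UF} {τ : ℕ → ℕ}
    (h : {j | (g j).map τ = pure j} ∈ u) : RFle u (u.bind g) := by
  obtain ⟨σ, s1, s2, s3⟩ := exists_ext hu h
  refine rf_iff.2 ⟨g ∘ σ, invFun σ ∘ τ, fun j => ?_,
    UFA.bind_congr (mem_of_superset s3 fun j hj => congrArg g hj.symm)⟩
  rw [← Ultrafilter.map_map, comp_apply, s2 j, Ultrafilter.map_pure, leftInverse_invFun s1]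

lemma RFle.rk {u v : UF} (h : RFle u v) : RK u v := by
  obtain ⟨g, τ, a, rfl⟩ := rf_iff.1 h
  exact ⟨τ, map_bind_part (univ_mem' a)⟩

lemma RFle.trans {u v w : UF} (h : RFle u v) (h' : RFle v w) : RFle u w := by
  obtain ⟨f, ρ, a, rfl⟩ := rf_iff.1 h
  obtain ⟨g, τ, b, rfl⟩ := rf_iff.1 h'
  exact rf_iff.2 ⟨fun n => (f n).bind g, ρ ∘ τ, fun n => by
    rw [← Ultrafilter.map_map, map_bind_part (univ_mem' b), a], rfl⟩

lemma back {v : UF} (hv : NP v) {p : ℕ → UF} {τ : ℕ → ℕ} (h : ∀ j, (p j).map τ = pure j)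
    (k : {j | ¬ NP (p j)} ∈ v) : RFle (v.bind p) v := by
  choose! φ hφ using fun j (hj : ¬ NP (p j)) => not_forall_not.1 hj
  have := rf_large (hv.of_RK ⟨τ, map_bind_part (univ_mem' h)⟩) (g := fun k => pure (τ k)) (τ := φ)
    (mem_of_superset (f := (v : Filter ℕ)) k fun j hj => by
      have := h j
      rw [hφ j hj] at this
      show _ ∈ p j
      rw [hφ j hj]
      exact congrArg (fun n => (pure (φ n) : UF)) (Ultrafilter.pure_injective this))
  rwa [bind_pure', map_bind_part (univ_mem' h)] at this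

lemma strict {u : UF} {g : ℕ → UF} {τ : ℕ → ℕ} (h : ∀ j, (g j).map τ = pure j)
    (k : ∀ j, NP (g j)) : RFlt u (u.bind g) := by
  refine ⟨rf_iff.2 ⟨g, τ, h, rfl⟩, fun q => ?_⟩
  obtain ⟨φ, hφ⟩ := q.rk
  have := katetov (u := u) (f := τ ∘ φ)
    (by rw [← Ultrafilter.map_map, hφ, map_bind_part (univ_mem' h)])
  have z : φ '' {n | (τ ∘ φ) n = n} ∈ u.bind g := hφ ▸ image_mem_map this
  obtain ⟨j, hj⟩ := Ultrafilter.nonempty_of_mem (show _ ∈ u from z)
  refine (k j).fin (finite_singleton (φ j)) ?_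
  filter_upwards [show _ ∈ g j from hj, map_eq_pure.1 (h j)]
  rintro _ ⟨n, h1, rfl⟩ h2
  exact congrArg φ (h1.symm.trans h2)

lemma le_rank {v u : UF} (h : RFle v u) (a : Acc RFlt u) : ∃ b : Acc RFlt v, b.rank ≤ a.rank := by
  have k : ∀ z, RFlt z v → RFlt z u := fun z hz => ⟨hz.1.trans h, fun q => hz.2 (h.trans q)⟩
  refine ⟨⟨_, fun z hz => a.inv (k z hz)⟩, ?_⟩
  rw [Acc.rank_eq]
  exact Ordinal.iSup_le fun z => Order.succ_le_of_lt (a.rank_lt_of_rel (k z.1 z.2))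

lemma wf_congr {v u : UF} (h : RFle v u) (h' : RFle u v) {α : Ordinal} (a : u ∈ wf α) :
    v ∈ wf α := by
  obtain ⟨a, rfl⟩ := a
  obtain ⟨b, hb⟩ := le_rank h a
  exact ⟨b, hb.antisymm (le_rank h' b).2⟩

lemma of_lt {u : UF} {α : Ordinal} (h : ∀ z, RFlt z u → ∃ b : Acc RFlt z, b.rank < α) :
    ∃ a : Acc RFlt u, a.rank ≤ α := by
  refine ⟨⟨_, fun z hz => (h z hz).1⟩, ?_⟩
  rw [Acc.rank_eq]
  exact Ordinal.iSup_le fun z => Order.succ_le_of_lt (h z.1 z.2).2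

lemma rank_pure {v : UF} (h : ¬ NP v) : ∃ a : Acc RFlt v, a.rank ≤ 0 := by
  refine of_lt fun z hz => (hz.2 ?_).elim
  obtain ⟨n, rfl⟩ := not_forall_not.1 h
  obtain ⟨m, rfl⟩ := not_forall_not.1 fun k : NP z => h (k.of_RK hz.1.rk)
  exact rf_iff.2 ⟨fun j => pure (Equiv.swap n m j), Equiv.swap n m, fun j => by simp, by
    simp [pure_bind']⟩

lemma Mn.rank {w : UF} (h : Mn w) : ∃ a : Acc RFlt w, a.rank ≤ 1 := by
  refine of_lt fun z hz => ?_
  by_cases k : NP z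
  · obtain ⟨g, τ, a, rfl⟩ := rf_iff.1 hz.1
    exact (hz.2 (back k a (Ultrafilter.compl_mem_iff_notMem.2 fun q => h.2 z g τ k a q rfl))).elim
  · exact (rank_pure k).imp fun _ q => q.trans_lt one_pos

lemma np_map {x : UF} (h : NP x) (i : ℕ) : NP (x.map (Nat.pair i)) := h.of_RK ⟨_, col_snd x i⟩

lemma col {x : UF} (h : NP x) (i : ℕ) :
    RFle x (x.map (Nat.pair i)) ∧ RFle (x.map (Nat.pair i)) x :=
  have a : ∀ j, (pure (Nat.pair i j) : UF).map (fun k => k.unpair.2) = pure j := fun j => by simp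
  ⟨rf_iff.2 ⟨_, _, a, rfl⟩, back h a (univ_mem' fun _ q => q _ rfl)⟩

lemma Mn.wf {w : UF} (h : Mn w) : w ∈ wf 1 := by
  obtain ⟨a, ha⟩ := h.rank
  have := strict (u := pure 0) (col_fst w) (np_map h.1)
  have k : RFlt (pure 0) w := ⟨this.1.trans (col h.1 0).2, fun q => this.2 ((col h.1 0).2.trans q)⟩
  exact ⟨a, ha.antisymm (Order.one_le_iff_pos.2 (zero_le.trans_lt (a.rank_lt_of_rel k)))⟩

lemma below {a b : UF} (hb : NP b) {g p c : ℕ → UF} {ρ τ : ℕ → ℕ} (e : a.bind g = b.bind p)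
    (h1 : ∀ n, (g n).map ρ = pure n) (h2 : ∀ j, (p j).map τ = pure j)
    (h : {j | p j = (c j).bind g} ∈ b) : RFle b a := by
  choose! t ht using fun n (hn : ∃ j, (g n).map τ = pure j) => hn
  have : a = b.bind c := by
    rw [← map_bind_part (v := a) (univ_mem' h1), e, UFA.map_bind]
    exact UFA.bind_congr (mem_of_superset h fun j hj => by
      simp only [mem_ofPred_eq] at hj ⊢
      rw [hj, map_bind_part (univ_mem' h1)])
  rw [this]
  refine rf_large hb (τ := t) (mem_of_superset h fun j hj => map_eq_pure.2 ?_)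
  have k : {k | τ k = j} ∈ (c j).bind g := hj ▸ map_eq_pure.1 (h2 j)
  refine mem_of_superset k fun n hn => Ultrafilter.pure_injective ?_
  rw [← ht n ⟨j, map_eq_pure.2 hn⟩, map_eq_pure.2 hn]

theorem two {u : UF} {f : ℕ → UF} {ρ : ℕ → ℕ} (hu : Mn u) (hf : ∀ i, Mn (f i))
    (h1 : ∀ n, (f n).map ρ = pure n) : ∃ a : Acc RFlt (u.bind f), a.rank ≤ 2 := by
  refine of_lt fun v hv => ?_
  by_cases k : NP v
  swap
  · exact (rank_pure k).imp fun _ q => q.trans_lt two_pos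
  obtain ⟨p, τ, h2, e⟩ := rf_iff.1 hv.1
  suffices RFle v u by
    obtain ⟨a, ha⟩ := hu.rank
    exact (le_rank this a).imp fun _ q => (q.trans ha).trans_lt one_lt_two
  rcases v.mem_or_compl_mem {j | ∀ S ∈ p j, ∃ n ∈ univ, S ∈ f n} with l | l
  · choose! c c1 c2 using fun j (hj : ∀ S ∈ p j, ∃ n ∈ univ, S ∈ f n) => closure_lemma hj
    exact below k e h1 h2 (mem_of_superset l c2)
  rcases u.mem_or_compl_mem {n | ∀ S ∈ f n, ∃ j ∈ {j | ∀ S ∈ p j, ∃ n ∈ univ, S ∈ f n}ᶜ, S ∈ p j}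
    with m | m
  · choose! c c1 c2 using fun n (hn : ∀ S ∈ f n, ∃ j ∈ _, S ∈ p j) => closure_lemma hn
    have z : v = u.bind c := by
      rw [← map_bind_part (v := v) (univ_mem' h2), ← e, UFA.map_bind]
      exact UFA.bind_congr (mem_of_superset m fun j hj => by
        simp only [mem_ofPred_eq]
        rw [c2 j hj, map_bind_part (univ_mem' h2)])
    refine (hv.2 (e ▸ back k h2 (z ▸ mem_of_superset (f := (u : Filter ℕ)) m fun n hn => ?_))).elim
    refine Ultrafilter.compl_mem_iff_notMem.2 fun q => (hf n).2 _ p τ ?_ h2 q (c2 n hn)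
    intro j hj
    have := c1 n hn
    rw [hj] at this
    exact this fun S hS => ⟨n, trivial, by rw [c2 n hn, hj]; exact hS⟩
  refine (separation m l (fun n hn => ?_) (fun j hj => ?_) e).elim
  · by_contra! q
    exact hn q
  · by_contra! q
    exact hj fun S hS => let ⟨n, _, h⟩ := q S hS; ⟨n, trivial, h⟩

end Pool.Agent.H32.RFW
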