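import Mathlib

namespace Pool.Agent.H32.RdA

def lab5 (b0 b1 b2 b3 b4 : Bool) (k : ℕ) : ℕ :=
  bif b0 && !b1 && !b2 then 0 else bif b1 && !b2 && !b3 && !b4 then 1 else
  bif b2 && !b3 && !b4 then 2 else bif b3 && !b0 && !b4 then 3 else bif b4 && !b0 then 4 else k

def sumC (F : ℕ → Bool → ℕ) : ℕ → ℕ
  | 0 => 0
  | i + 1 => sumC F i + (F i true + F i false)

def prodC (F : ℕ → Bool → ℕ) : ℕ → ℕ
  | 0 => 1
  | i + 1 => prodC F i * (F i true * F i false)

def anyC (F : ℕ → Bool) : ℕ → Bool
  | 0 => false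
  | i + 1 => anyC F i || F i

def root (d : ℕ) (L : ℕ → ℕ) : ℕ :=
  lab5 (anyC (fun i => L i == 0) d) (anyC (fun i => L i == 1) d) (anyC (fun i => L i == 2) d)
    (anyC (fun i => L i == 3) d) (anyC (fun i => L i == 4) d) (L 0)

def grp (g0 g1 g2 g3 g4 : ℕ) (t0 t1 t2 t3 t4 : Bool) (i : ℕ) : ℕ :=
  lab5 (g0 == i) (g1 == i) (g2 == i) (g3 == i) (g4 == i)
    (bif g0 == i && t0 then 0 else bif g1 == i && t1 then 1 else bif g2 == i && t2 then 2 else
      bif g3 == i && t3 then 3 else bif g4 == i && t4 then 4 else 5)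

def wt (d g0 g1 g2 g3 g4 : ℕ) (t0 t1 t2 t3 t4 : Bool) : ℕ :=
  prodC (fun i t => (bif t then 1 else d - 1).descFactorial
    ((g0 == i && t0 == t).toNat + (g1 == i && t1 == t).toNat + (g2 == i && t2 == t).toNat +
      (g3 == i && t3 == t).toNat + (g4 == i && t4 == t).toNat)) d

def cell (d g0 g1 g2 g3 g4 : ℕ) (t0 t1 t2 t3 t4 : Bool) : ℕ :=
  bif decide (root d (grp g0 g1 g2 g3 g4 t0 t1 t2 t3 t4) < 3)
    then wt d g0 g1 g2 g3 g4 t0 t1 t2 t3 t4 else 0

def tot (d : ℕ) : ℕ :=
  sumC (fun g0 t0 => sumC (fun g1 t1 => sumC (fun g2 t2 => sumC (fun g3 t3 => sumC (fun g4 t4 =>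
    cell d g0 g1 g2 g3 g4 t0 t1 t2 t3 t4) d) d) d) d) d

set_option maxRecDepth 100000 in
theorem tot3 : tot 3 = 6948 := by decide +kernel

set_option maxRecDepth 100000 in
theorem tot4 : tot 4 = 221760 := by decide +kernel

lemma sumC_eq (F : ℕ → Bool → ℕ) (d : ℕ) : ∑ c : Fin d × Bool, F c.1 c.2 = sumC F d := by
  rw [Fintype.sum_prod_type, Fin.sum_univ_eq_sum_range (fun i => ∑ t : Bool, F i t)]
  induction d with
  | zero => rfl
  | succ d ih => rw [Finset.sum_range_succ, ih, Fintype.sum_bool]; rfl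

lemma prodC_eq (F : ℕ → Bool → ℕ) (d : ℕ) : ∏ c : Fin d × Bool, F c.1 c.2 = prodC F d := by
  rw [Fintype.prod_prod_type, Fin.prod_univ_eq_prod_range (fun i => ∏ t : Bool, F i t)]
  induction d with
  | zero => rfl
  | succ d ih => rw [Finset.prod_range_succ, ih, Fintype.prod_bool]; rfl

lemma anyC_iff (F : ℕ → Bool) (d : ℕ) : anyC F d = true ↔ ∃ i < d, F i = true := by
  induction d with
  | zero => simp [anyC]
  | succ d ih =>
    simp only [anyC, Bool.or_eq_true, ih]
    constructor
    · rintro (⟨i, hi, h⟩ | h)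
      exacts [⟨i, by omega, h⟩, ⟨d, by omega, h⟩]
    · rintro ⟨i, hi, h⟩
      rcases Nat.lt_succ_iff_lt_or_eq.1 hi with h1 | rfl
      exacts [Or.inl ⟨i, h1, h⟩, Or.inr h]

lemma sum_cons {C : Type} [Fintype C] (n : ℕ) (F : (Fin (n + 1) → C) → ℕ) :
    ∑ a, F a = ∑ c, ∑ a : Fin n → C, F (Fin.cons c a) := by
  rw [← Fintype.sum_prod_type']
  exact (Fintype.sum_equiv (Fin.consEquiv fun _ => C) _ _ fun _ => rfl).symm

lemma sum_cell (d : ℕ) : ∑ a : Fin 5 → Fin d × Bool, cell d (a 0).1 (a 1).1 (a 2).1 (a 3).1 (a 4).1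
    (a 0).2 (a 1).2 (a 2).2 (a 3).2 (a 4).2 = tot d := by
  simp only [sum_cons, Fintype.sum_unique, tot, ← sumC_eq]
  rfl

/-- embeddings with prescribed classes -/
lemma card_emb {ι L C : Type} [Fintype ι] [Fintype L] [Fintype C] [DecidableEq ι] [DecidableEq L]
    [DecidableEq C] (c : L → C) (a : ι → C) :
    Fintype.card {p : ι ↪ L // ∀ y, c (p y) = a y} =
      ∏ κ, (Fintype.card {l // c l = κ}).descFactorial (Fintype.card {y // a y = κ}) := by
  simp only [← Fintype.card_embedding_eq]
  rw [← Fintype.card_pi]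
  refine Fintype.card_congr
    { toFun := fun p κ => ⟨fun y => ⟨p.1 y.1, (p.2 y.1).trans y.2⟩, fun y y' h =>
        Subtype.ext (p.1.injective (congrArg Subtype.val h))⟩
      invFun := fun q => ⟨⟨fun y => (q (a y) ⟨y, rfl⟩).1, fun y y' h => ?_⟩,
        fun y => (q (a y) ⟨y, rfl⟩).2⟩
      left_inv := fun p => rfl
      right_inv := fun q => ?_ }
  · have key : ∀ κ (h1 : a y' = κ), (q (a y') ⟨y', rfl⟩).1 = (q κ ⟨y', h1⟩).1 := by
      rintro _ rfl; rfl
    have h1 : a y' = a y := by
      rw [← (q (a y) ⟨y, rfl⟩).2, ← (q (a y') ⟨y', rfl⟩).2]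
      exact congrArg c h.symm
    have h2 := h.trans (key _ h1)
    exact congrArg Subtype.val ((q (a y)).injective (Subtype.ext h2))
  · funext κ
    ext ⟨y, rfl⟩
    rfl

/-- bijections extending an embedding -/
lemma card_ext {ι L N : Type} [Fintype ι] [Fintype L] [Fintype N] [DecidableEq ι] [DecidableEq L]
    [DecidableEq N] (h : Fintype.card L = Fintype.card N) (s : ι ↪ N) (p : ι ↪ L) :
    Fintype.card {σ : L ≃ N // ∀ y, σ.symm (s y) = p y} =
      (Fintype.card N - Fintype.card ι).factorial := by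
  classical
  let e₀ : Set.range p ≃ Set.range s :=
    (Equiv.ofInjective p p.injective).symm.trans (Equiv.ofInjective s s.injective)
  have e1 : {σ : L ≃ N // ∀ y, σ.symm (s y) = p y} ≃ {σ : L ≃ N // ∀ x : Set.range p, σ x = e₀ x} :=
    Equiv.subtypeEquivRight fun σ => by
      constructor
      · rintro h ⟨_, y, rfl⟩
        have := h y
        rw [Equiv.symm_apply_eq] at this
        simp [e₀, this]
      · intro h y
        have := h ⟨p y, y, rfl⟩
        rw [Equiv.symm_apply_eq]
        simpa [e₀] using this.symm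
  have c1 : Fintype.card ((Set.range s)ᶜ : Set N) = Fintype.card N - Fintype.card ι := by
    rw [Fintype.card_compl_set, Set.card_range_of_injective s.injective]
  have c2 : Fintype.card ((Set.range p)ᶜ : Set L) = Fintype.card N - Fintype.card ι := by
    rw [Fintype.card_compl_set, Set.card_range_of_injective p.injective, h]
  rw [Fintype.card_congr (e1.trans (Equiv.Set.compl e₀)),
    Fintype.card_equiv (Fintype.equivOfCardEq (c2.trans c1.symm)), c2]

/-- counting placements by the classes of the special teams -/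
lemma count {ι L N C : Type} [Fintype ι] [Fintype L] [Fintype N] [Fintype C] [DecidableEq ι]
    [DecidableEq L] [DecidableEq N] [DecidableEq C] (h : Fintype.card L = Fintype.card N)
    (s : ι ↪ N) (c : L → C) (Φ : (ι → C) → Prop) [DecidablePred Φ] :
    (Finset.univ.filter fun σ : L ≃ N => Φ fun y => c (σ.symm (s y))).card =
      (∑ a : ι → C, if Φ a then
        ∏ κ, (Fintype.card {l // c l = κ}).descFactorial (Fintype.card {y // a y = κ}) else 0) *
      (Fintype.card N - Fintype.card ι).factorial := by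
  classical
  rw [Finset.card_eq_sum_card_fiberwise (f := fun σ : L ≃ N => s.trans σ.symm.toEmbedding)
    (t := Finset.univ.filter fun p : ι ↪ L => Φ fun y => c (p y))
    (fun σ hσ => by simpa using hσ)]
  rw [Finset.sum_congr rfl (g := fun _ => (Fintype.card N - Fintype.card ι).factorial), Finset.sum_const,
    smul_eq_mul]
  · congr 1
    rw [Finset.card_eq_sum_card_fiberwise (f := fun (p : ι ↪ L) y => c (p y)) (t := Finset.univ)
      (fun _ _ => by simp)]
    refine Finset.sum_congr rfl fun a _ => ?_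
    split_ifs with ha
    · rw [← card_emb c a, Fintype.card_subtype, Finset.filter_filter]
      congr 1
      ext p
      simp only [Finset.mem_filter, Finset.mem_univ, true_and]
      constructor
      · exact fun h y => congrFun h.2 y
      · intro h
        have := funext h
        exact ⟨this ▸ ha, this⟩
    · rw [Finset.card_eq_zero, Finset.filter_filter, Finset.filter_eq_empty_iff]
      rintro p - ⟨h1, h2⟩
      exact ha (h2 ▸ h1)
  · intro p hp
    rw [← card_ext h s p, Fintype.card_subtype, Finset.filter_filter]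
    congr 1
    ext σ
    simp only [Finset.mem_filter, Finset.mem_univ, true_and] at hp ⊢
    constructor
    · rintro ⟨-, rfl⟩ y
      rfl
    · intro h
      have : s.trans σ.symm.toEmbedding = p := by ext y; exact h y
      refine ⟨?_, this⟩
      subst this
      exact hp

end Pool.Agent.H32.RdA
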