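import Mathlib

set_option autoImplicit false

namespace Pool.Agent.H32.Rdv

open MeasureTheory Set
open scoped ENNReal NNReal

noncomputable section

def sg (b : Bool) : ℤ := if b then 1 else -1

def cl (x : ℝ) : ℝ := max 0 (min x (1 / 4))

def G (b : ℕ → Bool) (N : ℕ) (t : ℝ) : ℝ :=
  ∑ j ∈ Finset.range N, (sg (b j) : ℝ) * cl (t - j / 4)

def F (b : ℕ → Bool) (t : ℝ) : ℝ := G b ⌈4 * t⌉₊ t

lemma cl_nonpos {x : ℝ} (h : x ≤ 0) : cl x = 0 := by
  unfold cl
  exact max_eq_left ((min_le_left _ _).trans h)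

lemma cl_big {x : ℝ} (h : 1 / 4 ≤ x) : cl x = 1 / 4 := by
  unfold cl
  rw [min_eq_right h, max_eq_right (by norm_num)]

lemma cl_mid {x : ℝ} (h0 : 0 ≤ x) (h : x ≤ 1 / 4) : cl x = x := by
  unfold cl
  rw [min_eq_left h, max_eq_right h0]

lemma cl_mono : Monotone cl := fun _ _ h => max_le_max le_rfl (min_le_min h le_rfl)

lemma continuous_cl : Continuous cl := by
  unfold cl
  fun_prop

lemma F_eq (b : ℕ → Bool) {N : ℕ} {t : ℝ} (h : 4 * t ≤ N) : F b t = G b N t := by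
  unfold F G
  have hle : ⌈4 * t⌉₊ ≤ N := Nat.ceil_le.2 h
  refine Finset.sum_subset (Finset.range_mono hle) fun j _ hj => ?_
  have : ⌈4 * t⌉₊ ≤ j := by simpa using hj
  have h2 : 4 * t ≤ j := Nat.ceil_le.1 this
  rw [cl_nonpos (by linarith), mul_zero]

lemma sum_cl (N : ℕ) {t : ℝ} (ht : 0 ≤ t) :
    ∑ j ∈ Finset.range N, cl (t - j / 4) = min t (N / 4) := by
  induction N with
  | zero => simp [ht]
  | succ N ih =>
    rw [Finset.sum_range_succ, ih]
    push_cast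
    rcases le_total t (N / 4) with h | h
    · rw [min_eq_left h, cl_nonpos (by linarith), min_eq_left (by linarith), add_zero]
    · rw [min_eq_right h]
      rcases le_total t ((N + 1) / 4) with h2 | h2
      · rw [cl_mid (by linarith) (by linarith), min_eq_left h2]
        ring
      · rw [cl_big (by linarith), min_eq_right h2]
        ring

lemma abs_sg (b : Bool) : |(sg b : ℝ)| = 1 := by
  cases b <;> simp [sg]

lemma F_lip (b : ℕ → Bool) {s t : ℝ} (hs : 0 ≤ s) (hst : s ≤ t) : |F b t - F b s| ≤ t - s := by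
  have hN : 4 * t ≤ (⌈4 * t⌉₊ : ℕ) := Nat.le_ceil _
  set N := ⌈4 * t⌉₊
  rw [F_eq b hN, F_eq b (N := N) (by linarith), G, G, ← Finset.sum_sub_distrib]
  refine (Finset.abs_sum_le_sum_abs _ _).trans ?_
  have : ∀ j ∈ Finset.range N, |(sg (b j) : ℝ) * cl (t - j / 4) - (sg (b j) : ℝ) * cl (s - j / 4)| =
      cl (t - j / 4) - cl (s - j / 4) := by
    intro j _
    rw [← mul_sub, abs_mul, abs_sg, one_mul, abs_of_nonneg (sub_nonneg.2 (cl_mono (by linarith)))]
  rw [Finset.sum_congr rfl this, Finset.sum_sub_distrib, sum_cl N (hs.trans hst), sum_cl N hs,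
    min_eq_left (by linarith), min_eq_left (by linarith)]

lemma F_step (b : ℕ → Bool) (k : ℕ) {u : ℝ} (h0 : 0 ≤ u) (h1 : u ≤ 1 / 4) :
    F b (k / 4 + u) = ((∑ j ∈ Finset.range k, sg (b j) : ℤ) : ℝ) / 4 + sg (b k) * u := by
  rw [F_eq b (N := k + 1) (by push_cast; linarith), G, Finset.sum_range_succ]
  congr 1
  · push_cast
    rw [Finset.sum_div]
    refine Finset.sum_congr rfl fun j hj => ?_
    have : (j : ℝ) + 1 ≤ k := by exact_mod_cast Finset.mem_range.1 hj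
    rw [cl_big (by linarith)]
    ring
  · rw [cl_mid (by linarith) (by linarith)]
    ring

lemma F_zero (b : ℕ → Bool) : F b 0 = 0 := by
  simp [F, G]

lemma continuous_F : Continuous fun p : (ℕ → Bool) × ℝ≥0 => F p.1 p.2 := by
  rw [continuous_iff_continuousAt]
  intro p
  set N := ⌈4 * (p.2 : ℝ)⌉₊ + 1 with hN
  have hc : Continuous fun q : (ℕ → Bool) × ℝ≥0 => G q.1 N q.2 := by
    unfold G
    refine continuous_finsetSum _ fun j _ => Continuous.mul ?_ ?_
    · exact (continuous_of_discreteTopology (f := fun c : Bool => (sg c : ℝ))).comp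
        ((continuous_apply j).comp continuous_fst)
    · exact continuous_cl.comp (by fun_prop)
  refine hc.continuousAt.congr ?_
  have ho : IsOpen {q : (ℕ → Bool) × ℝ≥0 | 4 * (q.2 : ℝ) < N} :=
    isOpen_lt (by fun_prop) continuous_const
  have hp : p ∈ {q : (ℕ → Bool) × ℝ≥0 | 4 * (q.2 : ℝ) < N} := by
    have := Nat.le_ceil (4 * (p.2 : ℝ))
    simp only [hN, mem_ofPred_eq]
    push_cast
    linarith
  filter_upwards [ho.mem_nhds hp] with q hq
  exact (F_eq _ (le_of_lt hq)).symm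

def Pc : C((ℕ → Bool) × ℝ≥0, UnitAddCircle) :=
  ⟨fun p => ((F p.1 p.2 : ℝ) : UnitAddCircle), (AddCircle.continuous_mk' 1).comp continuous_F⟩

def P (b : ℕ → Bool) : C(ℝ≥0, UnitAddCircle) := Pc.curry b

lemma P_apply (b : ℕ → Bool) (t : ℝ≥0) : P b t = ((F b t : ℝ) : UnitAddCircle) := rfl

lemma continuous_P : Continuous P := Pc.curry.continuous

lemma P_zero (b : ℕ → Bool) : P b 0 = 0 := by
  rw [P_apply]
  simp [F_zero]

lemma P_lip (b : ℕ → Bool) : LipschitzWith 1 (P b) := by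
  refine LipschitzWith.of_dist_le_mul fun s t => ?_
  rw [P_apply, P_apply, dist_eq_norm, ← AddCircle.coe_sub]
  refine (QuotientAddGroup.norm_mk_le_norm).trans ?_
  rw [NNReal.coe_one, one_mul, NNReal.dist_eq, Real.norm_eq_abs]
  rcases le_total (s : ℝ) t with h | h
  · rw [abs_sub_comm, abs_sub_comm (s : ℝ)]
    exact (F_lip b s.2 h).trans (le_abs_self _)
  · exact (F_lip b t.2 h).trans (le_abs_self _)

lemma F_not (b : ℕ → Bool) (t : ℝ) : F (fun j => !b j) t = - F b t := by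
  unfold F G
  rw [← Finset.sum_neg_distrib]
  refine Finset.sum_congr rfl fun j _ => ?_
  have : ∀ c : Bool, (sg (!c) : ℝ) = - sg c := by
    intro c
    cases c <;> simp [sg]
  rw [this, neg_mul]

lemma P_not (b : ℕ → Bool) (t : ℝ≥0) : P (fun j => !b j) t = - P b t := by
  rw [P_apply, P_apply, F_not]
  simp

lemma lin_int (p q α β : ℝ) (hpq : p ≤ q) (h : ∀ x ∈ Ioc p q, 0 ≤ α + β * x) :
    ∫⁻ x in Ioc p q, ENNReal.ofReal (α + β * x) =
      ENNReal.ofReal (α * (q - p) + β * (q ^ 2 - p ^ 2) / 2) := by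
  have hc : Continuous fun x : ℝ => α + β * x := by fun_prop
  rw [← ofReal_integral_eq_lintegral_ofReal (hc.integrableOn_Icc.mono_set Ioc_subset_Icc_self)
    ((ae_restrict_iff' measurableSet_Ioc).2 (Filter.Eventually.of_forall h)),
    ← intervalIntegral.integral_of_le hpq]
  congr 1
  rw [intervalIntegral.integral_add (by simp) ((by fun_prop : Continuous fun x : ℝ => β * x).intervalIntegrable _ _),
    intervalIntegral.integral_const_mul]
  simp
  ring

def T (b1 b2 : ℕ → Bool) (a : UnitAddCircle) : ℝ≥0∞ :=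
  ⨅ (τ : ℝ≥0) (_ : a + P b1 τ = P b2 τ), (τ : ℝ≥0∞)

def D (b1 b2 : ℕ → Bool) (k : ℕ) : ℤ := ∑ j ∈ Finset.range k, (sg (b2 j) - sg (b1 j))

def sweep (b1 b2 : ℕ → Bool) (c k : ℕ) : Bool :=
  (!b1 k && b2 k && decide ((D b1 b2 k - 2 * c) % 4 = 0)) ||
    (b1 k && !b2 k && decide ((D b1 b2 k - 2 - 2 * c) % 4 = 0))

def I (b1 b2 : ℕ → Bool) (c : ℕ) : ℝ≥0∞ :=
  ∫⁻ x in Ioc ((c : ℝ) / 2) (c / 2 + 1 / 2), T b1 b2 (x : UnitAddCircle)

lemma T_le (b1 b2 : ℕ → Bool) (x : ℝ) (k : ℕ) {u : ℝ} (h0 : 0 ≤ u) (h1 : u ≤ 1 / 4) (m : ℤ)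
    (h : x + m = (D b1 b2 k : ℝ) / 4 + (sg (b2 k) - sg (b1 k)) * u) :
    T b1 b2 x ≤ ENNReal.ofReal (k / 4 + u) := by
  have hτ : (0 : ℝ) ≤ k / 4 + u := by positivity
  refine (iInf₂_le (NNReal.mk (k / 4 + u) hτ) ?_).trans ?_
  · rw [P_apply, P_apply, NNReal.coe_mk, F_step b1 k h0 h1, F_step b2 k h0 h1, ← AddCircle.coe_add,
      ← sub_eq_zero, ← AddCircle.coe_sub, AddCircle.coe_eq_zero_iff]
    refine ⟨-m, ?_⟩
    rw [D, Finset.sum_sub_distrib] at h
    push_cast at h ⊢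
    simp only [neg_smul, zsmul_eq_mul, mul_one]
    linarith
  · rw [ENNReal.ofReal, Real.toNNReal_of_nonneg hτ]

lemma I_le (b1 b2 : ℕ → Bool) (c k : ℕ) (h : sweep b1 b2 c k = true) :
    I b1 b2 c ≤ ENNReal.ofReal ((2 * k + 1) / 16) := by
  simp only [sweep, Bool.or_eq_true, Bool.and_eq_true, Bool.not_eq_true', decide_eq_true_eq] at h
  have hk : (0 : ℝ) ≤ k := Nat.cast_nonneg k
  rcases h with ⟨⟨h1, h2⟩, h3⟩ | ⟨⟨h1, h2⟩, h3⟩
  · obtain ⟨m, hm⟩ := Int.dvd_of_emod_eq_zero h3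
    have hm' : (D b1 b2 k : ℝ) - 2 * c = 4 * m := by exact_mod_cast hm
    calc I b1 b2 c ≤ ∫⁻ x in Ioc ((c : ℝ) / 2) (c / 2 + 1 / 2),
          ENNReal.ofReal ((k / 4 - c / 4) + 1 / 2 * x) := by
          refine setLIntegral_mono' measurableSet_Ioc fun x hx => ?_
          have := T_le b1 b2 x k (u := (x - c / 2) / 2) (by linarith [hx.1]) (by linarith [hx.2]) m
            (by simp only [h1, h2, sg]; push_cast; simp; linarith)
          refine this.trans (le_of_eq ?_)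
          congr 1
          ring
      _ = _ := by
          rw [lin_int _ _ _ _ (by linarith) fun x hx => by linarith [hx.1]]
          congr 1
          ring
  · obtain ⟨m, hm⟩ := Int.dvd_of_emod_eq_zero h3
    have hm' : (D b1 b2 k : ℝ) - 2 - 2 * c = 4 * m := by exact_mod_cast hm
    calc I b1 b2 c ≤ ∫⁻ x in Ioc ((c : ℝ) / 2) (c / 2 + 1 / 2),
          ENNReal.ofReal ((k / 4 + c / 4 + 1 / 4) + (-1 / 2) * x) := by
          refine setLIntegral_mono' measurableSet_Ioc fun x hx => ?_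
          have := T_le b1 b2 x k (u := (c / 2 + 1 / 2 - x) / 2) (by linarith [hx.2])
            (by linarith [hx.1]) m
            (by simp only [h1, h2, sg]; push_cast; simp; linarith)
          refine this.trans (le_of_eq ?_)
          congr 1
          ring
      _ = _ := by
          rw [lin_int _ _ _ _ (by linarith) fun x hx => by linarith [hx.2]]
          congr 1
          ring

lemma lint_T (b1 b2 : ℕ → Bool) : ∫⁻ a, T b1 b2 a = I b1 b2 0 + I b1 b2 1 := by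
  rw [← UnitAddCircle.lintegral_preimage 0, I, I, ← lintegral_union measurableSet_Ioc]
  · congr 2
    norm_num
  · norm_num

def ext (n : ℕ) (s ω : ℕ → Bool) (j : ℕ) : Bool := if j < n then s j else ω ((j - n) / 2)

lemma continuous_ext (n : ℕ) (s : ℕ → Bool) : Continuous (ext n s) := by
  refine continuous_pi fun j => ?_
  unfold ext
  split_ifs
  · exact continuous_const
  · exact continuous_apply _

lemma sweep_ext {n k : ℕ} (s t ω1 ω2 : ℕ → Bool) (c : ℕ) (hk : k < n) :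
    sweep (ext n s ω1) (ext n t ω2) c k = sweep s t c k := by
  have : D (ext n s ω1) (ext n t ω2) k = D s t k := by
    refine Finset.sum_congr rfl fun j hj => ?_
    have : j < n := (Finset.mem_range.1 hj).trans hk
    simp [ext, this]
  simp [sweep, this, ext, hk]

lemma D_even (b1 b2 : ℕ → Bool) (k : ℕ) : D b1 b2 k % 2 = 0 := by
  induction k with
  | zero => simp [D]
  | succ k ih =>
    have hD : D b1 b2 (k + 1) = D b1 b2 k + (sg (b2 k) - sg (b1 k)) := Finset.sum_range_succ _ _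
    rw [hD]
    cases b1 k <;> cases b2 k <;> simp [sg] <;> omega

lemma sweep_two (b1 b2 : ℕ → Bool) (k : ℕ) (h1 : b1 (k + 1) = b1 k) (h2 : b2 (k + 1) = b2 k)
    (h : b1 k ≠ b2 k) :
    (sweep b1 b2 0 k = true ∧ sweep b1 b2 1 (k + 1) = true) ∨
      (sweep b1 b2 1 k = true ∧ sweep b1 b2 0 (k + 1) = true) := by
  have he := D_even b1 b2 k
  have hD : D b1 b2 (k + 1) = D b1 b2 k + (sg (b2 k) - sg (b1 k)) := Finset.sum_range_succ _ _
  simp only [sweep, h1, h2, hD]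
  revert h
  cases b1 k <;> cases b2 k <;> simp [sg] <;> omega

def J (n : ℕ) (s t : ℕ → Bool) (c : ℕ) : Option ℕ := (List.range n).find? (sweep s t c)

def cA (n : ℕ) (s t : ℕ → Bool) : ℕ :=
  match J n s t 0, J n s t 1 with
  | some a, some b => a + b + 1
  | some a, none => a + n + 2
  | none, some b => b + n + 2
  | none, none => 2 * n + 2

def cB (n : ℕ) (s t : ℕ → Bool) : ℕ :=
  match J n s t 0, J n s t 1 with
  | some _, some _ => 0
  | some _, none => 2
  | none, some _ => 2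
  | none, none => 4

def K (ω1 ω2 : ℕ → Bool) : ℝ≥0∞ := ⨅ (t : ℕ) (_ : ω1 t ≠ ω2 t), (t : ℝ≥0∞)

lemma I_add_le (b1 b2 : ℕ → Bool) {k0 k1 m : ℕ} (h0 : sweep b1 b2 0 k0 = true)
    (h1 : sweep b1 b2 1 k1 = true) (hm : k0 + k1 + 1 ≤ m) :
    ∫⁻ a, T b1 b2 a ≤ (m : ℝ≥0∞) / 8 := by
  rw [lint_T]
  refine (add_le_add (I_le _ _ _ _ h0) (I_le _ _ _ _ h1)).trans ?_
  rw [← ENNReal.ofReal_add (by positivity) (by positivity)]
  have : (m : ℝ≥0∞) / 8 = ENNReal.ofReal (m / 8) := by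
    rw [ENNReal.ofReal_div_of_pos (by norm_num)]
    simp
  rw [this]
  refine ENNReal.ofReal_le_ofReal ?_
  have : (k0 : ℝ) + k1 + 1 ≤ m := by exact_mod_cast hm
  linarith

lemma J_some {n : ℕ} {s t : ℕ → Bool} {c a : ℕ} (h : J n s t c = some a) (ω1 ω2 : ℕ → Bool) :
    sweep (ext n s ω1) (ext n t ω2) c a = true := by
  rw [sweep_ext _ _ _ _ _ (List.mem_range.1 (List.mem_of_find?_eq_some h))]
  exact List.find?_some h

lemma main_le (n : ℕ) (s t ω1 ω2 : ℕ → Bool) :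
    ∫⁻ a, T (ext n s ω1) (ext n t ω2) a ≤ (cA n s t + cB n s t * K ω1 ω2) / 8 := by
  classical
  by_cases hB : cB n s t = 0
  · unfold cA
    unfold cB at hB
    rcases h0 : J n s t 0 with _ | a <;> rcases h1 : J n s t 1 with _ | b <;>
      simp only [h0, h1] at hB ⊢
    · omega
    · omega
    · omega
    · refine (I_add_le _ _ (J_some h0 ω1 ω2) (J_some h1 ω1 ω2) le_rfl).trans ?_
      gcongr
      exact le_self_add
  by_cases h : ∃ k, ω1 k ≠ ω2 k
  · have hK : ((Nat.find h : ℕ) : ℝ≥0∞) ≤ K ω1 ω2 :=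
      le_iInf₂ fun k hk => by exact_mod_cast Nat.find_min' h hk
    have hs := Nat.find_spec h
    set k := Nat.find h
    have e1 : ∀ s ω : ℕ → Bool, ext n s ω (n + 2 * k) = ω k := by
      intro s ω
      simp [ext]
    have e2 : ∀ s ω : ℕ → Bool, ext n s ω (n + 2 * k + 1) = ω k := by
      intro s ω
      have : (n + 2 * k + 1 - n) / 2 = k := by omega
      rw [ext, if_neg (by omega), this]
    have h2 := sweep_two (ext n s ω1) (ext n t ω2) (n + 2 * k) (by rw [e1, e2]) (by rw [e1, e2])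
      (by rwa [e1, e1])
    refine le_trans (b := ((cA n s t + cB n s t * k : ℕ) : ℝ≥0∞) / 8) ?_ ?_
    · unfold cA cB
      rcases h0 : J n s t 0 with _ | a <;> rcases h1 : J n s t 1 with _ | b <;>
        simp only []
      · rcases h2 with ⟨p, q⟩ | ⟨p, q⟩
        · exact I_add_le _ _ p q (by omega)
        · exact I_add_le _ _ q p (by omega)
      · rcases h2 with ⟨p, q⟩ | ⟨p, q⟩
        · exact I_add_le _ _ p (J_some h1 ω1 ω2) (by omega)
        · exact I_add_le _ _ q (J_some h1 ω1 ω2) (by omega)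
      · rcases h2 with ⟨p, q⟩ | ⟨p, q⟩
        · exact I_add_le _ _ (J_some h0 ω1 ω2) q (by omega)
        · exact I_add_le _ _ (J_some h0 ω1 ω2) p (by omega)
      · exact I_add_le _ _ (J_some h0 ω1 ω2) (J_some h1 ω1 ω2) (by omega)
    · push_cast
      gcongr
  · push Not at h
    have : K ω1 ω2 = ⊤ := by simp [K, h]
    rw [this, ENNReal.mul_top (by exact_mod_cast hB), add_top, ENNReal.top_div]
    simp

open Classical in
lemma iInf_eq_tsum (Q : ℕ → Prop) :
    ⨅ (t : ℕ) (_ : Q t), (t : ℝ≥0∞) = ∑' n : ℕ, if ∀ t ≤ n, ¬ Q t then 1 else 0 := by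
  by_cases h : ∃ t, Q t
  · have h1 : ⨅ (t : ℕ) (_ : Q t), (t : ℝ≥0∞) = (Nat.find h : ℕ) := by
      apply le_antisymm
      · exact iInf₂_le (Nat.find h) (Nat.find_spec h)
      · refine le_iInf₂ fun t ht => ?_
        exact_mod_cast Nat.find_min' h ht
    rw [h1, tsum_eq_sum (s := Finset.range (Nat.find h))]
    · rw [Finset.sum_congr rfl (g := fun _ => (1 : ℝ≥0∞))]
      · simp
      · intro n hn
        rw [if_pos]
        intro t ht
        exact Nat.find_min h (lt_of_le_of_lt ht (Finset.mem_range.1 hn))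
    · intro n hn
      rw [if_neg]
      intro hh
      exact hh _ (by simpa using hn) (Nat.find_spec h)
  · push Not at h
    simp [h]

abbrev coins : Measure (ℕ → Bool) :=
  Measure.infinitePi (fun _ : ℕ => (PMF.uniformOfFintype Bool).toMeasure)

lemma K_eq (ω1 ω2 : ℕ → Bool) : K ω1 ω2 =
    ∑' n : ℕ, (Set.pi (Finset.range (n + 1)) fun j => ({ω1 j} : Set Bool)).indicator 1 ω2 := by
  rw [K, iInf_eq_tsum]
  refine tsum_congr fun n => ?_
  have : (∀ t ≤ n, ¬ ω1 t ≠ ω2 t) ↔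
      ω2 ∈ Set.pi (Finset.range (n + 1)) fun j => ({ω1 j} : Set Bool) := by
    simp only [Set.mem_pi, Finset.mem_coe, Finset.mem_range, mem_singleton_iff, not_not]
    exact ⟨fun h i hi => (h i (by omega)).symm, fun h i hi => (h i (by omega)).symm⟩
  by_cases hh : ω2 ∈ Set.pi (Finset.range (n + 1)) fun j => ({ω1 j} : Set Bool)
  · rw [Set.indicator_of_mem hh, if_pos (this.2 hh), Pi.one_apply]
  · rw [Set.indicator_of_notMem hh, if_neg (fun h => hh (this.1 h))]

lemma meas_cyl (ω1 : ℕ → Bool) (n : ℕ) :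
    MeasurableSet (Set.pi (Finset.range n) fun j => ({ω1 j} : Set Bool)) :=
  MeasurableSet.pi (Finset.countable_toSet _) fun _ _ => MeasurableSet.of_discrete

lemma measurable_K (ω1 : ℕ → Bool) : Measurable (K ω1) := by
  have : K ω1 = fun ω2 => ∑' n : ℕ,
      (Set.pi (Finset.range (n + 1)) fun j => ({ω1 j} : Set Bool)).indicator 1 ω2 :=
    funext (K_eq ω1)
  rw [this]
  exact Measurable.tsum fun n => measurable_one.indicator (meas_cyl ω1 _)

lemma lint_K (ω1 : ℕ → Bool) : ∫⁻ ω2, K ω1 ω2 ∂coins = 1 := by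
  simp only [K_eq]
  rw [lintegral_tsum fun n => (measurable_one.indicator (meas_cyl ω1 _)).aemeasurable]
  have : ∀ n : ℕ, ∫⁻ ω2, (Set.pi (Finset.range (n + 1)) fun j => ({ω1 j} : Set Bool)).indicator 1 ω2
      ∂coins = 2⁻¹ ^ n * 2⁻¹ := by
    intro n
    rw [lintegral_indicator_one (meas_cyl ω1 _), Measure.infinitePi_pi _
      (fun _ _ => MeasurableSet.of_discrete)]
    have : ∀ j, (PMF.uniformOfFintype Bool).toMeasure {ω1 j} = 2⁻¹ := by
      intro j
      rw [PMF.toMeasure_apply_singleton _ _ (measurableSet_singleton _)]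
      simp
    simp [this, pow_succ]
  simp only [this]
  rw [ENNReal.tsum_mul_right, ENNReal.tsum_geometric, ENNReal.one_sub_inv_two, inv_inv,
    ENNReal.mul_inv_cancel (by norm_num) (by norm_num)]

lemma lint_affine (ω1 : ℕ → Bool) (A B : ℝ≥0∞) :
    ∫⁻ ω2, (A + B * K ω1 ω2) / 8 ∂coins = (A + B) / 8 := by
  simp only [div_eq_mul_inv]
  have hm : Measurable fun ω2 => A + B * K ω1 ω2 :=
    measurable_const.add ((measurable_K ω1).const_mul B)
  rw [lintegral_mul_const _ hm,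
    lintegral_add_left measurable_const, lintegral_const_mul _ (measurable_K ω1), lint_K]
  simp

abbrev Path := C(ℝ≥0, UnitAddCircle)

instance : MeasurableSpace Path := borel _
instance : BorelSpace Path := ⟨rfl⟩

def Φ (n : ℕ) (s ω : ℕ → Bool) : Path := P (ext n s ω)

lemma measurable_Φ (n : ℕ) (s : ℕ → Bool) : Measurable (Φ n s) :=
  (continuous_P.comp (continuous_ext n s)).measurable

def mix {m : ℕ} (n : ℕ) (s : Fin m → ℕ → Bool) (w : Fin m → ℕ) : Measure Path :=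
  ∑ i, ((w i : ℝ≥0∞) / 100) • coins.map (Φ n (s i))

lemma mix_prob {m : ℕ} (n : ℕ) (s : Fin m → ℕ → Bool) (w : Fin m → ℕ) (hw : ∑ i, w i = 100) :
    IsProbabilityMeasure (mix n s w) := by
  constructor
  have : ∀ i, coins.map (Φ n (s i)) univ = 1 := fun i => by
    rw [Measure.map_apply (measurable_Φ _ _) MeasurableSet.univ]
    simp
  simp only [mix, Measure.coe_finsetSum, Finset.sum_apply, Measure.smul_apply, this, smul_eq_mul,
    mul_one, div_eq_mul_inv]
  rw [← Finset.sum_mul, ← Nat.cast_sum, hw]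
  exact ENNReal.mul_inv_cancel (by norm_num) (by norm_num)

lemma isClosed_strat : IsClosed {f : Path | LipschitzWith 1 (⇑f) ∧ f 0 = 0} := by
  refine IsClosed.inter (s₁ := {f : Path | LipschitzWith 1 (⇑f)}) (s₂ := {f : Path | f 0 = 0}) ?_ ?_
  · have : {f : Path | LipschitzWith 1 (⇑f)} =
        ⋂ x, ⋂ y, {f : Path | dist (f x) (f y) ≤ 1 * dist x y} := by
      ext f
      simp [lipschitzWith_iff_dist_le_mul]
    rw [this]
    exact isClosed_iInter fun x => isClosed_iInter fun y => isClosed_le (by fun_prop) (by fun_prop)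
  · exact isClosed_eq (by fun_prop) continuous_const

lemma mix_ae {m : ℕ} (n : ℕ) (s : Fin m → ℕ → Bool) (w : Fin m → ℕ) :
    ∀ᵐ (f : Path) ∂(mix n s w), LipschitzWith 1 (⇑f) ∧ f 0 = 0 := by
  rw [ae_iff, mix]
  have : ∀ i, coins.map (Φ n (s i)) {f : Path | ¬ (LipschitzWith 1 (⇑f) ∧ f 0 = 0)} = 0 := by
    intro i
    have hm : MeasurableSet {f : Path | ¬ (LipschitzWith 1 (⇑f) ∧ f 0 = 0)} :=
      isClosed_strat.measurableSet.compl
    rw [Measure.map_apply (measurable_Φ _ _) hm]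
    convert measure_empty (μ := coins)
    ext ω
    simp [Φ, P_lip, P_zero]
  simp only [Measure.coe_finsetSum, Finset.sum_apply, Measure.smul_apply, this, smul_zero,
    Finset.sum_const_zero]

lemma lint_mix_le {m : ℕ} (n : ℕ) (s : Fin m → ℕ → Bool) (w : Fin m → ℕ) (H : Path → ℝ≥0∞)
    (c : Fin m → ℝ≥0∞) (h : ∀ i, ∫⁻ ω, H (Φ n (s i) ω) ∂coins ≤ c i) :
    ∫⁻ f, H f ∂(mix n s w) ≤ ∑ i, (w i : ℝ≥0∞) / 100 * c i := by
  rw [mix, lintegral_finsetSum_measure]
  refine Finset.sum_le_sum fun i _ => ?_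
  rw [lintegral_smul_measure, smul_eq_mul]
  gcongr
  exact (lintegral_map_le _ _).trans (h i)

lemma lint2_mix_le {m : ℕ} (n : ℕ) (s : Fin m → ℕ → Bool) (w : Fin m → ℕ)
    (H : Path → Path → ℝ≥0∞) (c : Fin m → Fin m → ℕ) (q : ℝ≥0∞)
    (h : ∀ i j ω1, ∫⁻ ω2, H (Φ n (s i) ω1) (Φ n (s j) ω2) ∂coins ≤ c i j / q) :
    ∫⁻ f, ∫⁻ g, H f g ∂(mix n s w) ∂(mix n s w) ≤
      ((∑ i, ∑ j, w i * w j * c i j : ℕ) : ℝ≥0∞) / (10000 * q) := by
  refine (lint_mix_le n s w _ (fun i => ∑ j, (w j : ℝ≥0∞) / 100 * (c i j / q)) fun i => ?_).trans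
    (le_of_eq ?_)
  · refine (lintegral_mono fun ω1 => lint_mix_le n s w _ _ fun j => h i j ω1).trans ?_
    simp
  · push_cast
    simp only [Finset.mul_sum, div_eq_mul_inv, Finset.sum_mul]
    refine Finset.sum_congr rfl fun i _ => Finset.sum_congr rfl fun j _ => ?_
    rw [ENNReal.mul_inv (by norm_num) (by norm_num),
      show (10000 : ℝ≥0∞) = 100 * 100 by norm_num, ENNReal.mul_inv (by norm_num) (by norm_num)]
    ring

lemma pair_le (n : ℕ) (s t ω1 : ℕ → Bool) :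
    ∫⁻ ω2, ∫⁻ a, (⨅ (τ : ℝ≥0) (_ : a + Φ n s ω1 τ = Φ n t ω2 τ), (τ : ℝ≥0∞)) ∂volume ∂coins ≤
      ((cA n s t + cB n s t : ℕ) : ℝ≥0∞) / 8 := by
  refine (lintegral_mono fun ω2 => main_le n s t ω1 ω2).trans ?_
  rw [lint_affine]
  simp

/-- position at time `τ` of the coin half tour with coins `ω` -/
def co (ω : ℕ → Bool) (τ : ℝ≥0) : ℝ :=
  (∑ j ∈ Finset.range ⌊2 * (τ : ℝ)⌋₊, (if ω j then (1 / 2 : ℝ) else -1 / 2))
    + (if ω ⌊2 * (τ : ℝ)⌋₊ then (1 : ℝ) else -1) * ((τ : ℝ) - (⌊2 * (τ : ℝ)⌋₊ : ℝ) / 2)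

lemma co_low (ω1 ω2 : ℕ → Bool) (k : ℕ) (h : ∀ j < k, ω1 j = ω2 j) (x : ℝ) (hx : x ∈ Ioo (0 : ℝ) 1)
    (τ : ℝ≥0) (hτ : (x : UnitAddCircle) + (co ω1 τ : UnitAddCircle) = (co ω2 τ : UnitAddCircle)) :
    (if ω2 k then (k : ℝ) / 2 + 1 / 2 * x else (k / 2 + 1 / 2) + (-1 / 2) * x) ≤ τ := by
  rw [← AddCircle.coe_add, ← sub_eq_zero, ← AddCircle.coe_sub, AddCircle.coe_eq_zero_iff] at hτ
  obtain ⟨m, hm⟩ := hτ
  rw [zsmul_eq_mul, mul_one] at hm
  have h0 : (0 : ℝ) ≤ 2 * τ := by positivity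
  have f1 := Nat.floor_le h0
  have f2 := Nat.lt_floor_add_one (2 * (τ : ℝ))
  unfold co at hm
  set l := ⌊2 * (τ : ℝ)⌋₊
  have key : ∀ y : ℝ, (m : ℝ) = y → 0 < y → y < 1 → False := by
    intro y hy a b
    rw [← hy] at a b
    have a' : 0 < m := by exact_mod_cast a
    have b' : m < 1 := by exact_mod_cast b
    omega
  rcases lt_or_ge k l with hl | hl
  · have : (k : ℝ) + 1 ≤ l := by exact_mod_cast hl
    split_ifs <;> linarith [hx.1, hx.2]
  have hs : ∑ j ∈ Finset.range l, (if ω1 j then (1 / 2 : ℝ) else -1 / 2) =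
      ∑ j ∈ Finset.range l, (if ω2 j then (1 / 2 : ℝ) else -1 / 2) :=
    Finset.sum_congr rfl fun j hj => by rw [h j (lt_of_lt_of_le (Finset.mem_range.1 hj) hl)]
  rw [hs] at hm
  by_cases he : ω1 l = ω2 l
  · rw [he] at hm
    exact (key x (by linarith) hx.1 hx.2).elim
  obtain rfl : l = k := by
    by_contra hne
    exact he (h l (lt_of_le_of_ne hl hne))
  rcases h2 : ω2 l with _ | _
  · have h1 : ω1 l = true := by simpa [h2] using he
    simp only [h1, h2, if_true, Bool.false_eq_true, if_false] at hm ⊢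
    by_contra hc
    exact key (x + 2 * τ - l) (by linarith) (by linarith [hx.1]) (by linarith)
  · have h1 : ω1 l = false := by simpa [h2] using he
    simp only [h1, h2, if_true, Bool.false_eq_true, if_false] at hm ⊢
    by_contra hc
    exact key (x - 2 * τ + l) (by linarith) (by linarith) (by linarith [hx.2])

lemma co_int (ω1 ω2 : ℕ → Bool) (k : ℕ) (h : ∀ j < k, ω1 j = ω2 j) :
    ((2 : ℝ≥0∞) + 4 * k) / 8 ≤ ∫⁻ a : UnitAddCircle,
      ⨅ (τ : ℝ≥0) (_ : a + (co ω1 τ : UnitAddCircle) = (co ω2 τ : UnitAddCircle)), (τ : ℝ≥0∞) := by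
  rw [← UnitAddCircle.lintegral_preimage 0, zero_add, ← restrict_Ioo_eq_restrict_Ioc]
  have hk : (0 : ℝ) ≤ k := Nat.cast_nonneg k
  have e : ((2 : ℝ≥0∞) + 4 * k) / 8 = ENNReal.ofReal ((2 + 4 * k) / 8) := by
    rw [ENNReal.ofReal_div_of_pos (by norm_num), ENNReal.ofReal_add (by norm_num) (by positivity),
      ENNReal.ofReal_mul (by norm_num)]
    simp
  refine le_trans ?_ (setLIntegral_mono' measurableSet_Ioo (f := fun x => ENNReal.ofReal
    (if ω2 k then (k : ℝ) / 2 + 1 / 2 * x else (k / 2 + 1 / 2) + (-1 / 2) * x)) fun x hx =>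
      le_iInf₂ fun τ hτ => ?_)
  · rw [restrict_Ioo_eq_restrict_Ioc, e]
    cases ω2 k
    · simp only [Bool.false_eq_true, if_false]
      rw [lin_int _ _ _ _ (by norm_num) fun x hx => by linarith [hx.2]]
      exact ENNReal.ofReal_le_ofReal (le_of_eq (by ring))
    · simp only [if_true]
      rw [lin_int _ _ _ _ (by norm_num) fun x hx => by linarith [hx.1]]
      exact ENNReal.ofReal_le_ofReal (le_of_eq (by ring))
  · exact (ENNReal.ofReal_le_ofReal (co_low ω1 ω2 k h x hx τ hτ)).trans (by simp)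

lemma co_K (ω1 ω2 : ℕ → Bool) :
    ((2 : ℝ≥0∞) + 4 * K ω1 ω2) / 8 ≤ ∫⁻ a : UnitAddCircle,
      ⨅ (τ : ℝ≥0) (_ : a + (co ω1 τ : UnitAddCircle) = (co ω2 τ : UnitAddCircle)), (τ : ℝ≥0∞) := by
  classical
  by_cases h : ∃ k, ω1 k ≠ ω2 k
  · refine le_trans ?_ (co_int ω1 ω2 (Nat.find h) fun j hj => not_not.1 (Nat.find_min h hj))
    gcongr
    exact iInf₂_le (Nat.find h) (Nat.find_spec h)
  · push Not at h
    refine le_top.trans (le_of_eq (ENNReal.eq_top_of_forall_nnreal_le fun r => ?_).symm)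
    refine le_trans ?_ (co_int ω1 ω2 (2 * ⌈r⌉₊) fun j _ => h j)
    rw [ENNReal.le_div_iff_mul_le (by norm_num) (by norm_num)]
    have : (r : ℝ≥0∞) ≤ (⌈r⌉₊ : ℕ) := by exact_mod_cast Nat.le_ceil r
    calc (r : ℝ≥0∞) * 8 ≤ (⌈r⌉₊ : ℕ) * 8 := by gcongr
      _ = 4 * ((2 * ⌈r⌉₊ : ℕ) : ℝ≥0∞) := by push_cast; ring
      _ ≤ _ := le_add_self

lemma co_lint (ω1 : ℕ → Bool) :
    (6 : ℝ≥0∞) / 8 ≤ ∫⁻ ω2, ∫⁻ a : UnitAddCircle,
      ⨅ (τ : ℝ≥0) (_ : a + (co ω1 τ : UnitAddCircle) = (co ω2 τ : UnitAddCircle)), (τ : ℝ≥0∞)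
        ∂volume ∂coins := by
  refine le_trans (le_of_eq ?_) (lintegral_mono fun ω2 => co_K ω1 ω2)
  rw [lint_affine]
  norm_num

end

end Pool.Agent.H32.Rdv
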