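import Mathlib
import Pool.Agent.H32.BBL

set_option autoImplicit false
open MeasureTheory Set Filter Topology
open scoped ENNReal Pointwise

namespace Pool.Agent.H32.Renyi
open Pool.Agent.H32.BBL

noncomputable def tau : ℝ := Real.exp (-256) / 2

lemma tau_pos : 0 < tau := by unfold tau; positivity

lemma tau_small : tau ≤ 1 / 100 := by
  unfold tau
  have h := Real.add_one_le_exp 256
  have : Real.exp (-256) = 1 / Real.exp 256 := by rw [Real.exp_neg]; simp
  rw [this]
  have : 1 / Real.exp 256 ≤ 1 / 257 := one_div_le_one_div_of_le (by norm_num) (by linarith)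
  linarith

noncomputable def psi (y : ℝ) : ℝ := tau / 2 / (tau + |y|) ^ 2

noncomputable def fU : ℝ → ℝ := (Icc (-(1/2) : ℝ) (1/2)).indicator 1

noncomputable def nu : Measure ℝ := volume.withDensity fun y => ENNReal.ofReal (psi y)

noncomputable def U : Measure ℝ := volume.withDensity fun y => ENNReal.ofReal (fU y)

lemma psi_meas : Measurable psi := by unfold psi; fun_prop

lemma psi_pos (y : ℝ) : 0 < psi y := by
  unfold psi; have := tau_pos; positivity

lemma psi_le (y : ℝ) : psi y ≤ 1 / (2 * tau) := by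
  unfold psi
  have h := tau_pos
  have h1 := abs_nonneg y
  rw [div_le_div_iff₀ (by positivity) (by positivity)]
  nlinarith

lemma fU_meas : Measurable fU := measurable_one.indicator measurableSet_Icc

lemma fU_nonneg (y : ℝ) : 0 ≤ fU y := indicator_nonneg (fun _ _ => zero_le_one) y

lemma U_eq : U = volume.restrict (Icc (-(1/2) : ℝ) (1/2)) := by
  rw [← withDensity_indicator_one measurableSet_Icc]
  unfold U
  congr 1
  ext y
  unfold fU
  by_cases h : y ∈ Icc (-(1/2) : ℝ) (1/2)
  · rw [indicator_of_mem h, indicator_of_mem h]; simp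
  · rw [indicator_of_notMem h, indicator_of_notMem h]; simp

instance : IsProbabilityMeasure U := ⟨by
  rw [U_eq]; simp; norm_num⟩

lemma map_neg_dens (φ : ℝ → ℝ≥0∞) (he : ∀ y, φ (-y) = φ y) :
    (volume.withDensity φ).map (fun y => -y) = volume.withDensity φ := by
  ext s hs
  rw [Measure.map_apply measurable_neg hs, withDensity_apply _ (measurable_neg hs),
    withDensity_apply _ hs, ← lintegral_indicator (measurable_neg hs), ← lintegral_indicator hs,
    ← lintegral_neg_eq_self]
  apply lintegral_congr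
  intro y
  by_cases h : y ∈ s <;> simp [indicator, h, he]

lemma nu_neg : nu.map (fun y => -y) = nu :=
  map_neg_dens _ (fun y => by simp [psi])

lemma U_neg : U.map (fun y => -y) = U :=
  map_neg_dens _ (fun y => by
    congr 1
    unfold fU
    have : -y ∈ Icc (-(1/2) : ℝ) (1/2) ↔ y ∈ Icc (-(1/2) : ℝ) (1/2) := by
      simp only [mem_Icc]; constructor <;> rintro ⟨h1, h2⟩ <;> constructor <;> linarith
    by_cases h : y ∈ Icc (-(1/2) : ℝ) (1/2)
    · rw [indicator_of_mem h, indicator_of_mem (this.2 h)]; rfl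
    · rw [indicator_of_notMem h, indicator_of_notMem (fun h' => h (this.1 h'))])

lemma nu_Ioi (a : ℝ) (ha : 0 ≤ a) : nu (Ioi a) = ENNReal.ofReal (tau / (2 * (tau + a))) := by
  have ht := tau_pos
  have hd : ∀ x ∈ Ici a, HasDerivAt (fun y => -(tau / 2) * (tau + y)⁻¹)
      (tau / 2 / (tau + x) ^ 2) x := by
    intro x hx
    have hx0 : tau + x ≠ 0 := by
      have : a ≤ x := hx
      have : 0 < tau + x := by linarith
      exact this.ne'
    have := (((hasDerivAt_id x).const_add tau).inv hx0).const_mul (-(tau / 2))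
    refine this.congr_deriv ?_
    simp only [id]; field_simp
  have hp : ∀ x ∈ Ioi a, 0 ≤ tau / 2 / (tau + x) ^ 2 := fun x _ => by positivity
  have hl : Tendsto (fun y => -(tau / 2) * (tau + y)⁻¹) atTop (𝓝 0) := by
    have : Tendsto (fun y : ℝ => (tau + y)⁻¹) atTop (𝓝 0) :=
      tendsto_inv_atTop_zero.comp (tendsto_atTop_add_const_left _ _ tendsto_id)
    simpa using this.const_mul (-(tau / 2))
  have hi := integrableOn_Ioi_deriv_of_nonneg' hd hp hl
  have hv := integral_Ioi_of_hasDerivAt_of_nonneg' hd hp hl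
  unfold nu
  rw [withDensity_apply _ measurableSet_Ioi]
  have : ∫⁻ y in Ioi a, ENNReal.ofReal (psi y)
      = ∫⁻ y in Ioi a, ENNReal.ofReal (tau / 2 / (tau + y) ^ 2) := by
    apply setLIntegral_congr_fun measurableSet_Ioi
    intro y hy
    have : a < y := hy
    simp only [psi]
    rw [abs_of_nonneg (by linarith)]
  rw [this, ← ofReal_integral_eq_lintegral_ofReal hi
    ((ae_restrict_iff' measurableSet_Ioi).2 (Eventually.of_forall hp)), hv]
  congr 1
  field_simp
  ring

lemma nu_Iio (a : ℝ) (ha : 0 ≤ a) : nu (Iio (-a)) = ENNReal.ofReal (tau / (2 * (tau + a))) := by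
  rw [← nu_Ioi a ha]
  conv_rhs => rw [← nu_neg]
  rw [Measure.map_apply measurable_neg measurableSet_Ioi]
  congr 1
  ext y; simp

lemma nu_sing (a : ℝ) : nu {a} = 0 :=
  withDensity_absolutelyContinuous _ _ (by simp)

instance : NullSingletonClass nu := ⟨nu_sing⟩

lemma half : tau / (2 * (tau + 0)) = 1 / 2 := by
  have := tau_pos; field_simp; ring

instance : IsProbabilityMeasure nu := ⟨by
  have h1 := nu_Ioi 0 le_rfl
  have h2 := nu_Iio 0 le_rfl
  rw [half] at h1 h2
  rw [neg_zero] at h2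
  have h3 : nu (Ici 0) = nu (Ioi 0) := (measure_congr Ioi_ae_eq_Ici).symm
  rw [← Iio_union_Ici (a := (0:ℝ)), measure_union (Iio_disjoint_Ici le_rfl) measurableSet_Ici,
    h3, h1, h2, ← ENNReal.ofReal_add (by norm_num) (by norm_num)]
  norm_num⟩

noncomputable def mu : Measure (ℝ × ℝ) := U.prod nu

instance : IsProbabilityMeasure mu := by unfold mu; infer_instance

lemma mu_neg : mu.map (fun x => -x) = mu := by
  have : (fun x : ℝ × ℝ => -x) = Prod.map (fun y => -y) (fun y => -y) := by
    ext x <;> simp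
  rw [this]
  unfold mu
  rw [← Measure.map_prod_map _ _ measurable_neg measurable_neg, U_neg, nu_neg]

noncomputable def fib (S : Set (ℝ × ℝ)) (y : ℝ) : ℝ :=
  psi y * (U ((fun x => (x, y)) ⁻¹' S)).toReal

lemma fib_meas {S : Set (ℝ × ℝ)} (hS : MeasurableSet S) : Measurable (fib S) :=
  psi_meas.mul (measurable_measure_prodMk_right (μ := U) hS).ennreal_toReal

lemma fib_nonneg (S : Set (ℝ × ℝ)) (y : ℝ) : 0 ≤ fib S y :=
  mul_nonneg (psi_pos y).le ENNReal.toReal_nonneg

lemma fib_bdd (S : Set (ℝ × ℝ)) : BddAbove (range (fib S)) := by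
  refine ⟨1 / (2 * tau), ?_⟩
  rintro _ ⟨y, rfl⟩
  have h1 : (U ((fun x => (x, y)) ⁻¹' S)).toReal ≤ 1 := measureReal_le_one
  have h2 := psi_le y
  have h3 := psi_pos y
  unfold fib
  nlinarith

lemma mu_fib {S : Set (ℝ × ℝ)} (hS : MeasurableSet S) :
    mu S = ∫⁻ y, ENNReal.ofReal (fib S y) := by
  unfold mu
  rw [Measure.prod_apply_symm hS]
  unfold nu
  rw [lintegral_withDensity_eq_lintegral_mul _ psi_meas.ennreal_ofReal
    (measurable_measure_prodMk_right hS)]
  apply lintegral_congr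
  intro y
  simp only [Pi.mul_apply, fib]
  rw [ENNReal.ofReal_mul (psi_pos y).le, ENNReal.ofReal_toReal (measure_ne_top _ _)]

lemma real_ineq {c P Q R p q r a b t : ℝ} (hc : 0 < c) (hP : 0 < P) (hQ : 0 < Q) (hR : 0 < R)
    (ht : 0 < t) (ht1 : t < 1) (ha : 0 < a) (hb : 0 < b)
    (h1 : a < c / P ^ 2 * p) (h2 : b < c / Q ^ 2 * q) (hr : t * p + (1 - t) * q ≤ r)
    (hR1 : R ≤ t * P + (1 - t) * Q) : 1 / (t / a + (1 - t) / b) < c / R ^ 2 * r := by
  have t1 : 0 < 1 - t := by linarith
  have hp : 0 < p := by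
    by_contra h
    have : c / P ^ 2 * p ≤ 0 := mul_nonpos_of_nonneg_of_nonpos (by positivity) (not_lt.1 h)
    linarith
  have hq : 0 < q := by
    by_contra h
    have : c / Q ^ 2 * q ≤ 0 := mul_nonpos_of_nonneg_of_nonpos (by positivity) (not_lt.1 h)
    linarith
  have hs : 0 < t * p + (1 - t) * q := by positivity
  have r0 : 0 < r := by linarith
  have e1 : P ^ 2 / (c * p) < 1 / a := by
    rw [div_lt_div_iff₀ (by positivity) ha]
    rw [div_mul_eq_mul_div, lt_div_iff₀ (by positivity)] at h1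
    linarith
  have e2 : Q ^ 2 / (c * q) < 1 / b := by
    rw [div_lt_div_iff₀ (by positivity) hb]
    rw [div_mul_eq_mul_div, lt_div_iff₀ (by positivity)] at h2
    linarith
  have cs : (t * P + (1 - t) * Q) ^ 2 / (t * p + (1 - t) * q)
      ≤ t * (P ^ 2 / p) + (1 - t) * (Q ^ 2 / q) := by
    rw [div_le_iff₀ hs]
    have : (t * (P ^ 2 / p) + (1 - t) * (Q ^ 2 / q)) * (t * p + (1 - t) * q)
        - (t * P + (1 - t) * Q) ^ 2 = t * (1 - t) * ((P * q - Q * p) ^ 2 / (p * q)) := by
      field_simp; ring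
    have h3 : 0 ≤ t * (1 - t) * ((P * q - Q * p) ^ 2 / (p * q)) := by positivity
    linarith
  have e3 : R ^ 2 / r ≤ (t * P + (1 - t) * Q) ^ 2 / (t * p + (1 - t) * q) := by
    gcongr
  have e4 : R ^ 2 / (c * r) < t / a + (1 - t) / b := by
    have f1 : R ^ 2 / (c * r) = (R ^ 2 / r) / c := by field_simp
    have f2 : (t * (P ^ 2 / p) + (1 - t) * (Q ^ 2 / q)) / c
        = t * (P ^ 2 / (c * p)) + (1 - t) * (Q ^ 2 / (c * q)) := by field_simp
    have f3 : (R ^ 2 / r) / c ≤ (t * (P ^ 2 / p) + (1 - t) * (Q ^ 2 / q)) / c := by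
      gcongr; exact e3.trans cs
    have f4 : t * (P ^ 2 / (c * p)) < t * (1 / a) := mul_lt_mul_of_pos_left e1 ht
    have f5 : (1 - t) * (Q ^ 2 / (c * q)) < (1 - t) * (1 / b) := mul_lt_mul_of_pos_left e2 t1
    have f6 : t / a + (1 - t) / b = t * (1 / a) + (1 - t) * (1 / b) := by ring
    linarith
  have f7 : c / R ^ 2 * r = 1 / (R ^ 2 / (c * r)) := by field_simp
  rw [f7]
  exact one_div_lt_one_div_of_lt (by positivity) e4

lemma mu_convex {K L : Set (ℝ × ℝ)} (hK : IsCompact K) (hL : IsCompact L) {t : ℝ}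
    (ht : 0 < t) (ht1 : t < 1) : min (mu K) (mu L) ≤ mu (t • K + (1 - t) • L) := by
  have hC : IsCompact (t • K + (1 - t) • L) := (hK.smul t).add (hL.smul (1 - t))
  have mK := hK.measurableSet
  have mL := hL.measurableSet
  have mC := hC.measurableSet
  rw [mu_fib mK, mu_fib mL, mu_fib mC]
  refine bbl _ _ _ (fib_meas mK) (fib_meas mL) (fib_meas mC) (fib_nonneg _) (fib_nonneg _)
    (fib_nonneg _) (fib_bdd _) (fib_bdd _) ht ht1 ?_
  intro x y a b ha hb h1 h2
  have htau := tau_pos
  have t1 : 0 < 1 - t := by linarith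
  unfold fib psi at *
  refine real_ineq (by positivity) (by positivity) (by positivity) (by positivity) ht ht1 ha hb
    h1 h2 ?_ ?_
  · set I := Icc (-(1/2) : ℝ) (1/2) with hI
    have m1 : MeasurableSet ((fun u => (u, x)) ⁻¹' K) := measurable_prodMk_right mK
    have m2 : MeasurableSet ((fun u => (u, y)) ⁻¹' L) := measurable_prodMk_right mL
    have m3 : MeasurableSet ((fun u => (u, t * x + (1 - t) * y)) ⁻¹' (t • K + (1 - t) • L)) :=
      measurable_prodMk_right mC
    have n1 : ((fun u => (u, x)) ⁻¹' K ∩ I).Nonempty := by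
      by_contra h
      rw [not_nonempty_iff_eq_empty] at h
      rw [U_eq, Measure.restrict_apply m1, h] at h1
      simp at h1; linarith
    have n2 : ((fun u => (u, y)) ⁻¹' L ∩ I).Nonempty := by
      by_contra h
      rw [not_nonempty_iff_eq_empty] at h
      rw [U_eq, Measure.restrict_apply m2, h] at h2
      simp at h2; linarith
    have hb := bm_smul (m1.inter measurableSet_Icc) (m2.inter measurableSet_Icc) n1 n2 ht ht1
    have hsub : t • ((fun u => (u, x)) ⁻¹' K ∩ I) + (1 - t) • ((fun u => (u, y)) ⁻¹' L ∩ I)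
        ⊆ (fun u => (u, t * x + (1 - t) * y)) ⁻¹' (t • K + (1 - t) • L) ∩ I := by
      rintro z ⟨_, ⟨u, hu, rfl⟩, _, ⟨v, hv, rfl⟩, rfl⟩
      refine ⟨⟨_, ⟨_, hu.1, rfl⟩, _, ⟨_, hv.1, rfl⟩, ?_⟩, ?_⟩
      · simp
      · exact (convex_Icc _ _) hu.2 hv.2 ht.le t1.le (by ring)
    have hb2 := hb.trans (measure_mono hsub)
    rw [← Measure.restrict_apply m1, ← Measure.restrict_apply m2, ← Measure.restrict_apply m3,
      ← U_eq] at hb2
    have := ENNReal.toReal_mono (measure_ne_top _ _) hb2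
    rw [ENNReal.toReal_add (ENNReal.mul_ne_top ENNReal.ofReal_ne_top (measure_ne_top _ _))
      (ENNReal.mul_ne_top ENNReal.ofReal_ne_top (measure_ne_top _ _)), ENNReal.toReal_mul,
      ENNReal.toReal_mul, ENNReal.toReal_ofReal ht.le, ENNReal.toReal_ofReal t1.le] at this
    exact this
  · have h3 := abs_add_le (t * x) ((1 - t) * y)
    rw [abs_mul, abs_mul, abs_of_pos ht, abs_of_pos t1] at h3
    nlinarith

lemma mu_fst : mu.map Prod.fst = U := by unfold mu; simp

lemma mu_snd : mu.map Prod.snd = nu := by unfold mu; simp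

noncomputable def fW (z : ℝ) : ℝ := (nu (Icc (z - 1/2) (z + 1/2))).toReal

lemma band_meas : MeasurableSet {p : ℝ × ℝ | p.1 - 1/2 ≤ p.2 ∧ p.2 ≤ p.1 + 1/2} := by
  have h1 : MeasurableSet {p : ℝ × ℝ | p.1 - 1/2 ≤ p.2} :=
    measurableSet_le (by fun_prop) (by fun_prop)
  have h2 : MeasurableSet {p : ℝ × ℝ | p.2 ≤ p.1 + 1/2} :=
    measurableSet_le (by fun_prop) (by fun_prop)
  exact h1.inter h2

lemma fW_meas' : Measurable fun z : ℝ => nu (Icc (z - 1/2) (z + 1/2)) :=
  measurable_measure_prodMk_left (ν := nu) band_meas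

lemma fW_meas : Measurable fW := fW_meas'.ennreal_toReal

lemma fW_nonneg (z : ℝ) : 0 ≤ fW z := ENNReal.toReal_nonneg

lemma fW_le (z : ℝ) : fW z ≤ 1 := measureReal_le_one

lemma mu_sum : mu.map (fun x => x.1 + x.2)
    = volume.withDensity fun z => ENNReal.ofReal (fW z) := by
  ext s hs
  have hm : Measurable fun x : ℝ × ℝ => x.1 + x.2 := by fun_prop
  rw [Measure.map_apply hm hs, withDensity_apply _ hs]
  unfold mu
  rw [Measure.prod_apply_symm (hm hs)]
  set T : Set (ℝ × ℝ) := {p | p.1 ∈ s ∧ p.1 - 1/2 ≤ p.2 ∧ p.2 ≤ p.1 + 1/2} with hT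
  have mT : MeasurableSet T := (measurable_fst hs).inter band_meas
  have e1 : ∀ y : ℝ, U ((fun x => (x, y)) ⁻¹' ((fun x : ℝ × ℝ => x.1 + x.2) ⁻¹' s))
      = volume ((fun x => (x, y)) ⁻¹' T) := by
    intro y
    rw [U_eq, Measure.restrict_apply (measurable_prodMk_right (hm hs)),
      ← measure_preimage_add_right volume y ((fun x => (x, y)) ⁻¹' T)]
    congr 1
    ext u
    simp only [hT, mem_inter_iff, mem_preimage, mem_Icc, Set.mem_ofPred_eq]
    constructor <;> rintro ⟨h1, h2, h3⟩ <;> refine ⟨h1, ?_, ?_⟩ <;> linarith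
  simp only [e1]
  rw [← Measure.prod_apply_symm mT, Measure.prod_apply mT, ← lintegral_indicator hs]
  apply lintegral_congr
  intro z
  by_cases h : z ∈ s
  · rw [indicator_of_mem h, fW, ENNReal.ofReal_toReal (measure_ne_top _ _)]
    congr 1
    ext y
    simp [hT, h]
  · rw [indicator_of_notMem h]
    have : Prod.mk z ⁻¹' T = ∅ := by ext y; simp [hT, h]
    simp [this]

lemma IU : ∫⁻ z, ENNReal.ofReal (fU z) ^ 2 = 1 := by
  have : ∀ z, ENNReal.ofReal (fU z) ^ 2 = ENNReal.ofReal (fU z) := by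
    intro z
    unfold fU
    by_cases h : z ∈ Icc (-(1/2) : ℝ) (1/2)
    · rw [indicator_of_mem h]; simp
    · rw [indicator_of_notMem h]; simp
  simp only [this]
  have h := measure_univ (μ := U)
  unfold U at h
  rwa [withDensity_apply _ MeasurableSet.univ, Measure.restrict_univ] at h

lemma IV : ENNReal.ofReal (1 / (32 * tau)) ≤ ∫⁻ z, ENNReal.ofReal (psi z) ^ 2 := by
  have ht := tau_pos
  have h1 : ∫⁻ _ in Icc (-tau) tau, ENNReal.ofReal (1 / (8 * tau)) ^ 2
      ≤ ∫⁻ z in Icc (-tau) tau, ENNReal.ofReal (psi z) ^ 2 := by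
    apply setLIntegral_mono' measurableSet_Icc
    intro z hz
    gcongr
    have h2 : |z| ≤ tau := abs_le.2 hz
    have h3 := abs_nonneg z
    unfold psi
    rw [div_le_div_iff₀ (by positivity) (by positivity)]
    nlinarith
  refine le_trans (le_of_eq ?_) (h1.trans (setLIntegral_le_lintegral _ _))
  rw [setLIntegral_const, Real.volume_Icc, ← ENNReal.ofReal_pow (by positivity),
    ← ENNReal.ofReal_mul (by positivity)]
  congr 1
  field_simp
  ring

lemma fW_pt (z : ℝ) (hz : z ∈ Ioc (-(1/2) : ℝ) 0) :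
    fW z ^ 2 + tau / 8 * (1 / (tau + 1/2 + z)) ≤ fW z := by
  have ht := tau_pos
  have hs := tau_small
  obtain ⟨h1, h2⟩ := hz
  have a1 : fW z + tau / (2 * (tau + (z + 1/2))) ≤ 1 := by
    have hd : Disjoint (Icc (z - 1/2) (z + 1/2)) (Ioi (z + 1/2)) :=
      disjoint_left.2 fun y hy hy' => absurd hy.2 (not_le.2 hy')
    have h3 := measure_union (μ := nu) hd measurableSet_Ioi
    rw [nu_Ioi _ (by linarith)] at h3
    have h4 : (nu (Icc (z - 1/2) (z + 1/2) ∪ Ioi (z + 1/2))).toReal ≤ 1 := measureReal_le_one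
    rw [h3, ENNReal.toReal_add (measure_ne_top _ _) ENNReal.ofReal_ne_top,
      ENNReal.toReal_ofReal (by apply div_nonneg <;> linarith)] at h4
    exact h4
  have a2 : 1 / 4 ≤ fW z := by
    have h3 : nu univ ≤ nu (Iio (-(1/2))) + nu (Icc (z - 1/2) (z + 1/2)) + nu (Ioi 0) := by
      refine le_trans (measure_mono ?_) ((measure_union_le _ _).trans
        (add_le_add_left (measure_union_le _ _) _))
      intro y _
      by_cases c1 : y < -(1/2)
      · exact Or.inl (Or.inl c1)
      by_cases c2 : 0 < y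
      · exact Or.inr c2
      exact Or.inl (Or.inr ⟨by linarith, by linarith⟩)
    rw [measure_univ, nu_Ioi 0 le_rfl, half, nu_Iio _ (by norm_num)] at h3
    have h4 := ENNReal.toReal_mono (by finiteness) h3
    rw [ENNReal.toReal_add (by finiteness) (by finiteness),
      ENNReal.toReal_add (by finiteness) (by finiteness),
      ENNReal.toReal_ofReal (by positivity), ENNReal.toReal_ofReal (by norm_num)] at h4
    have h5 : tau / (2 * (tau + 1/2)) ≤ 1 / 4 := by
      rw [div_le_div_iff₀ (by positivity) (by norm_num)]; linarith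
    simp only [ENNReal.toReal_one] at h4
    unfold fW
    linarith
  have a3 : tau / 8 * (1 / (tau + 1/2 + z)) = 1 / 4 * (tau / (2 * (tau + (z + 1/2)))) := by
    have : 0 < tau + 1/2 + z := by linarith
    have : 0 < tau + (z + 1/2) := by linarith
    field_simp; ring
  have a4 : 0 ≤ tau / (2 * (tau + (z + 1/2))) := by apply div_nonneg <;> linarith
  rw [a3]
  nlinarith

lemma logint : ENNReal.ofReal (32 * tau)
    ≤ ∫⁻ z in Ioc (-(1/2) : ℝ) 0, ENNReal.ofReal (tau / 8 * (1 / (tau + 1/2 + z))) := by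
  have ht := tau_pos
  have hc : ContinuousOn (fun z : ℝ => tau / 8 * (1 / (tau + 1/2 + z))) (Icc (-(1/2)) 0) := by
    refine continuousOn_const.mul (continuousOn_const.div (by fun_prop) ?_)
    intro z hz
    have := hz.1
    have : 0 < tau + 1/2 + z := by linarith
    exact this.ne'
  have hi : IntegrableOn (fun z : ℝ => tau / 8 * (1 / (tau + 1/2 + z))) (Ioc (-(1/2)) 0) :=
    (hc.integrableOn_Icc).mono_set Ioc_subset_Icc_self
  rw [← ofReal_integral_eq_lintegral_ofReal hi ((ae_restrict_iff' measurableSet_Ioc).2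
    (Eventually.of_forall fun z hz => by
      have := hz.1
      have : 0 < tau + 1/2 + z := by linarith
      positivity))]
  apply ENNReal.ofReal_le_ofReal
  rw [← intervalIntegral.integral_of_le (by norm_num), intervalIntegral.integral_const_mul,
    intervalIntegral.integral_comp_add_left (fun x : ℝ => 1 / x) (tau + 1/2),
    integral_one_div_of_pos (by linarith) (by linarith)]
  have h1 : Real.exp 256 ≤ (tau + 1 / 2 + 0) / (tau + 1 / 2 + -(1 / 2)) := by
    rw [le_div_iff₀ (by linarith)]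
    have : Real.exp 256 * tau = 1 / 2 := by
      unfold tau
      rw [← mul_div_assoc, ← Real.exp_add]; simp
    nlinarith
  have h2 := (Real.le_log_iff_exp_le (by apply div_pos <;> linarith)).2 h1
  nlinarith

lemma IW : (∫⁻ z, ENNReal.ofReal (fW z) ^ 2) + ENNReal.ofReal (32 * tau) ≤ 1 := by
  have h0 : ∫⁻ z, ENNReal.ofReal (fW z) = 1 := by
    have h := measure_univ (μ := mu.map (fun x => x.1 + x.2))
      (self := Measure.isProbabilityMeasure_map (by fun_prop))
    rwa [mu_sum, withDensity_apply _ MeasurableSet.univ, Measure.restrict_univ] at h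
  rw [← h0]
  refine le_trans (add_le_add_right logint _) ?_
  rw [← lintegral_indicator measurableSet_Ioc,
    ← lintegral_add_left (fW_meas.ennreal_ofReal.pow_const 2)]
  apply lintegral_mono
  intro z
  have h1 := fW_nonneg z
  have h2 := fW_le z
  have ht := tau_pos
  by_cases h : z ∈ Ioc (-(1/2) : ℝ) 0
  · simp only []
    have h3 : 0 < tau + 1/2 + z := by have := h.1; linarith
    rw [indicator_of_mem h, ← ENNReal.ofReal_pow h1,
      ← ENNReal.ofReal_add (by positivity) (by positivity)]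
    exact ENNReal.ofReal_le_ofReal (fW_pt z h)
  · simp only []
    rw [indicator_of_notMem h, add_zero, ← ENNReal.ofReal_pow h1]
    exact ENNReal.ofReal_le_ofReal (by nlinarith)

lemma key : ¬ ((∫⁻ z, ENNReal.ofReal (fW z) ^ 2)⁻¹ ≤ (∫⁻ z, ENNReal.ofReal (fU z) ^ 2)⁻¹
    + (∫⁻ z, ENNReal.ofReal (psi z) ^ 2)⁻¹) := by
  intro h
  have ht := tau_pos
  have hs := tau_small
  rw [IU, inv_one] at h
  have h1 : (∫⁻ z, ENNReal.ofReal (psi z) ^ 2)⁻¹ ≤ ENNReal.ofReal (32 * tau) := by
    refine (ENNReal.inv_le_inv.2 IV).trans (le_of_eq ?_)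
    rw [← ENNReal.ofReal_inv_of_pos (by positivity)]; simp
  have h2 : (∫⁻ z, ENNReal.ofReal (fW z) ^ 2) ≤ ENNReal.ofReal (1 - 32 * tau) := by
    rw [ENNReal.ofReal_sub _ (by positivity), ENNReal.ofReal_one]
    exact ENNReal.le_sub_of_add_le_right ENNReal.ofReal_ne_top IW
  have h3 := (ENNReal.inv_le_inv.2 h2).trans (h.trans (add_le_add_right h1 _))
  rw [← ENNReal.ofReal_inv_of_pos (by linarith), ← ENNReal.ofReal_one,
    ← ENNReal.ofReal_add (by norm_num) (by positivity),
    ENNReal.ofReal_le_ofReal_iff (by positivity), inv_eq_one_div,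
    div_le_iff₀ (by linarith)] at h3
  nlinarith

end Pool.Agent.H32.Renyi
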