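import Mathlib
import Pool.Agent.H32.Renyi

set_option autoImplicit false
open MeasureTheory Set Filter Topology
open scoped ENNReal Pointwise

namespace Pool.Agent.H32.Renyi

lemma dens_bounds (ρ : Measure ℝ) [IsProbabilityMeasure ρ] (C : ℝ≥0∞) (hC : C ≠ ⊤)
    (h : ∀ s, MeasurableSet s → ρ s ≤ C * volume s) :
    ρ ≪ volume ∧ 0 < ∫⁻ x, ρ.rnDeriv volume x ^ 2 ∧ ∫⁻ x, ρ.rnDeriv volume x ^ 2 < ⊤ := by
  have hac : ρ ≪ volume := Measure.AbsolutelyContinuous.mk fun s hs h0 => by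
    have := h s hs
    rw [h0, mul_zero] at this
    exact le_antisymm this bot_le
  have hm := Measure.measurable_rnDeriv ρ volume
  have h1 : ∫⁻ x, ρ.rnDeriv volume x = 1 := by
    rw [Measure.lintegral_rnDeriv hac, measure_univ]
  refine ⟨hac, ?_, ?_⟩
  · rw [pos_iff_ne_zero]
    intro h0
    rw [lintegral_eq_zero_iff (hm.pow_const 2)] at h0
    have : ρ.rnDeriv volume =ᵐ[volume] 0 := by
      filter_upwards [h0] with x hx
      simpa using hx
    rw [lintegral_congr_ae this] at h1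
    simp at h1
  · have hle : ρ.rnDeriv volume ≤ᵐ[volume] fun _ => C := by
      refine ae_le_of_forall_setLIntegral_le_of_sigmaFinite hm fun s hs _ => ?_
      rw [Measure.setLIntegral_rnDeriv hac, setLIntegral_const]
      exact h s hs
    calc ∫⁻ x, ρ.rnDeriv volume x ^ 2 ≤ ∫⁻ x, C * ρ.rnDeriv volume x := by
          apply lintegral_mono_ae
          filter_upwards [hle] with x hx
          rw [sq]; gcongr
      _ = C := by rw [lintegral_const_mul _ hm, h1, mul_one]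
      _ < ⊤ := hC.lt_top

lemma vol_aff (a c : ℝ) (ha : a ≠ 0) (s : Set ℝ) :
    volume ((fun x => a * x + c) ⁻¹' s) = ENNReal.ofReal |a⁻¹| * volume s := by
  have : (fun x => a * x + c) ⁻¹' s = (fun x => a * x) ⁻¹' ((fun x => x + c) ⁻¹' s) := rfl
  rw [this, Real.volume_preimage_mul_left ha, measure_preimage_add_right]

lemma nu_le (s : Set ℝ) (hs : MeasurableSet s) :
    nu s ≤ ENNReal.ofReal (1 / (2 * tau)) * volume s := by
  unfold nu
  rw [withDensity_apply _ hs, ← setLIntegral_const]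
  exact lintegral_mono fun y => ENNReal.ofReal_le_ofReal (psi_le y)

lemma lin_bound (a b : ℝ) (hab : a ≠ 0 ∨ b ≠ 0) : ∃ C : ℝ≥0∞, C ≠ ⊤ ∧
    ∀ s, MeasurableSet s → (mu.map fun p : ℝ × ℝ => a * p.1 + b * p.2) s ≤ C * volume s := by
  have hm : Measurable fun p : ℝ × ℝ => a * p.1 + b * p.2 := by fun_prop
  rcases hab with ha | hb
  · refine ⟨ENNReal.ofReal |a⁻¹|, ENNReal.ofReal_ne_top, fun s hs => ?_⟩
    rw [Measure.map_apply hm hs]
    unfold mu
    rw [Measure.prod_apply_symm (hm hs)]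
    calc _ ≤ ∫⁻ _, ENNReal.ofReal |a⁻¹| * volume s ∂nu := by
          apply lintegral_mono
          intro y
          simp only []
          rw [← vol_aff a (b * y) ha, U_eq]
          exact Measure.restrict_le_self _
      _ = _ := by simp
  · refine ⟨ENNReal.ofReal (1 / (2 * tau)) * ENNReal.ofReal |b⁻¹|, by finiteness, fun s hs => ?_⟩
    rw [Measure.map_apply hm hs]
    unfold mu
    rw [Measure.prod_apply (hm hs)]
    calc _ ≤ ∫⁻ _, ENNReal.ofReal (1 / (2 * tau)) * ENNReal.ofReal |b⁻¹| * volume s ∂U := by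
          apply lintegral_mono
          intro x
          simp only []
          rw [mul_assoc, ← vol_aff b (a * x) hb]
          refine (nu_le _ (measurable_prodMk_left (hm hs))).trans (le_of_eq ?_)
          congr 2
          ext y
          simp [add_comm]
      _ = _ := by simp

lemma mu_ac : mu ≪ volume := by
  unfold mu
  rw [Measure.volume_eq_prod]
  exact Measure.AbsolutelyContinuous.prod (withDensity_absolutelyContinuous _ _)
    (withDensity_absolutelyContinuous _ _)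

lemma mu_convex' {A B : Set (ℝ × ℝ)} (hA : MeasurableSet A) (hB : MeasurableSet B)
    (hA0 : A.Nonempty) (hB0 : B.Nonempty) {t : ℝ} (ht : 0 ≤ t) (ht1 : t ≤ 1) :
    min (mu A) (mu B) ≤ mu (t • A + (1 - t) • B) := by
  rcases ht.eq_or_lt with rfl | ht
  · refine (min_le_right _ _).trans (measure_mono ?_)
    obtain ⟨a, ha⟩ := hA0
    intro z hz
    exact ⟨_, ⟨a, ha, rfl⟩, _, ⟨z, hz, rfl⟩, by simp⟩
  rcases ht1.eq_or_lt with rfl | ht1
  · refine (min_le_left _ _).trans (measure_mono ?_)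
    obtain ⟨b, hb⟩ := hB0
    intro z hz
    exact ⟨_, ⟨z, hz, rfl⟩, _, ⟨b, hb, rfl⟩, by simp⟩
  refine le_of_forall_lt fun r hr => ?_
  obtain ⟨K, hK, cK, rK⟩ := hA.exists_lt_isCompact (lt_of_lt_of_le hr (min_le_left _ _))
  obtain ⟨L, hL, cL, rL⟩ := hB.exists_lt_isCompact (lt_of_lt_of_le hr (min_le_right _ _))
  refine lt_of_lt_of_le (lt_min rK rL) ((mu_convex cK cL ht ht1).trans (measure_mono ?_))
  exact add_subset_add (smul_set_mono hK) (smul_set_mono hL)

noncomputable def e2 : (Fin 2 → ℝ) ≃ᵐ ℝ × ℝ := MeasurableEquiv.finTwoArrow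

noncomputable def mu2 : Measure (Fin 2 → ℝ) := mu.map e2.symm

instance : IsProbabilityMeasure mu2 :=
  Measure.isProbabilityMeasure_map e2.symm.measurable.aemeasurable

lemma e2_symm (p : ℝ × ℝ) : e2.symm p = ![p.1, p.2] := rfl

lemma mu2_ac : mu2 ≪ volume := by
  have h := (volume_preserving_finTwoArrow ℝ).symm
  rw [← h.map_eq]
  exact mu_ac.map e2.symm.measurable

lemma mu2_neg : mu2.map (fun x => -x) = mu2 := by
  unfold mu2
  rw [Measure.map_map measurable_neg e2.symm.measurable]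
  conv_rhs => rw [← mu_neg]
  rw [Measure.map_map e2.symm.measurable measurable_neg]
  congr 1
  ext p i
  fin_cases i <;> simp [e2_symm]

lemma mu2_convex {A B : Set (Fin 2 → ℝ)} (hA : MeasurableSet A) (hB : MeasurableSet B)
    (hA0 : A.Nonempty) (hB0 : B.Nonempty) {t : ℝ} (ht : 0 ≤ t) (ht1 : t ≤ 1) :
    min (mu2 A) (mu2 B) ≤ mu2 (t • A + (1 - t) • B) := by
  unfold mu2
  simp only [MeasurableEquiv.map_apply]
  refine (mu_convex' (e2.symm.measurable hA) (e2.symm.measurable hB)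
    (hA0.preimage e2.symm.surjective) (hB0.preimage e2.symm.surjective) ht ht1).trans
    (measure_mono ?_)
  rintro z ⟨_, ⟨u, hu, rfl⟩, _, ⟨v, hv, rfl⟩, rfl⟩
  refine ⟨_, ⟨_, hu, rfl⟩, _, ⟨_, hv, rfl⟩, ?_⟩
  ext i
  fin_cases i <;> simp [e2_symm]

lemma mu2_lin (v : Fin 2 → ℝ) : mu2.map (fun x => ∑ i, v i * x i)
    = mu.map fun p : ℝ × ℝ => v 0 * p.1 + v 1 * p.2 := by
  unfold mu2
  rw [Measure.map_map (by fun_prop) e2.symm.measurable]
  congr 1
  ext p
  simp [e2_symm]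

noncomputable def gg (v : Fin 2 → ℝ) : ℝ → ℝ≥0∞ :=
  (mu.map fun p : ℝ × ℝ => v 0 * p.1 + v 1 * p.2).rnDeriv volume

lemma gg_spec (v : Fin 2 → ℝ) (hv : v ≠ 0) :
    mu2.map (fun x => ∑ i, v i * x i) = volume.withDensity (gg v) ∧
      0 < ∫⁻ x, gg v x ^ 2 ∧ ∫⁻ x, gg v x ^ 2 < ⊤ := by
  have hab : v 0 ≠ 0 ∨ v 1 ≠ 0 := by
    by_contra h
    push Not at h
    apply hv
    ext i
    fin_cases i <;> simp [h.1, h.2]
  obtain ⟨C, hC, h⟩ := lin_bound _ _ hab
  have : IsProbabilityMeasure (mu.map fun p : ℝ × ℝ => v 0 * p.1 + v 1 * p.2) :=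
    Measure.isProbabilityMeasure_map (by fun_prop)
  obtain ⟨h1, h2, h3⟩ := dens_bounds _ C hC h
  exact ⟨by rw [mu2_lin, gg, Measure.withDensity_rnDeriv_eq _ _ h1], h2, h3⟩

lemma gg_int (v : Fin 2 → ℝ) (f : ℝ → ℝ) (hf : Measurable f)
    (h : (mu.map fun p : ℝ × ℝ => v 0 * p.1 + v 1 * p.2)
      = volume.withDensity fun x => ENNReal.ofReal (f x)) :
    ∫⁻ x, gg v x ^ 2 = ∫⁻ x, ENNReal.ofReal (f x) ^ 2 := by
  unfold gg
  rw [h]
  apply lintegral_congr_ae
  filter_upwards [Measure.rnDeriv_withDensity volume hf.ennreal_ofReal] with x hx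
  rw [hx]

lemma key2 : ¬ ((∫⁻ z, gg ![1, 1] z ^ 2)⁻¹ ≤ (∫⁻ z, gg ![1, 0] z ^ 2)⁻¹
    + (∫⁻ z, gg ![0, 1] z ^ 2)⁻¹) := by
  rw [gg_int _ fW fW_meas (by simpa using mu_sum), gg_int _ fU fU_meas (by simp; exact mu_fst),
    gg_int _ psi psi_meas (by simp; exact mu_snd)]
  exact key

end Pool.Agent.H32.Renyi
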