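import Pool.Agent.H32.L2Shift

set_option autoImplicit false

namespace Pool.Agent.H32.Join

open Filter Topology MeasureTheory
open scoped InnerProductSpace ENNReal

structure Sys (Z : Type) [MeasurableSpace Z] where
  μ : Measure Z
  prob : IsProbabilityMeasure μ
  σ : Z → Z
  mp : MeasurePreserving σ μ μ
  φ : Z → ℝ
  mφ : Measurable φ
  bφ : ∀ z, |φ z| ≤ 1
  orth : ∀ Y : Z → ℝ, Integrable Y μ → ∫ z, φ z * Y (σ z) ∂μ = 0

variable {Z W : Type} [MeasurableSpace Z] [MeasurableSpace W]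

namespace Sys

variable (s : Sys Z)

instance : IsProbabilityMeasure s.μ := s.prob

abbrev L2 := Lp ℝ 2 s.μ

noncomputable def U : s.L2 →ₗᵢ[ℝ] s.L2 := Lp.compMeasurePreservingₗᵢ ℝ s.σ s.mp

noncomputable def L : s.L2 →L[ℝ] s.L2 := ContinuousLinearMap.adjoint s.U.toContinuousLinearMap

lemma U_ae (F : s.L2) : s.U F =ᵐ[s.μ] fun z => F (s.σ z) := Lp.coeFn_compMeasurePreserving F s.mp

lemma inner_eq' (F G : s.L2) : ⟪F, G⟫_ℝ = ∫ z, F z * G z ∂s.μ := by
  rw [L2.inner_def]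
  simp [mul_comm]

lemma inner_L (F G : s.L2) : ⟪s.L F, G⟫_ℝ = ⟪F, s.U G⟫_ℝ :=
  ContinuousLinearMap.adjoint_inner_left _ _ _

lemma L_U (F : s.L2) : s.L (s.U F) = F :=
  ext_inner_right ℝ fun G => by rw [inner_L, s.U.inner_map_map]

lemma memM (F : s.L2) : MemLp (fun z => s.φ z * F z) 2 s.μ :=
  (Lp.memLp F).of_le (s.mφ.aestronglyMeasurable.mul (Lp.aestronglyMeasurable F))
    (ae_of_all _ fun z => by
      rw [norm_mul]
      exact mul_le_of_le_one_left (norm_nonneg _) (s.bφ z))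

noncomputable def M (F : s.L2) : s.L2 := (s.memM F).toLp _

lemma M_ae (F : s.L2) : s.M F =ᵐ[s.μ] fun z => s.φ z * F z := MemLp.coeFn_toLp _

lemma norm_M (F : s.L2) : ‖s.M F‖ ≤ ‖F‖ :=
  Lp.norm_le_norm_of_ae_le (by
    filter_upwards [s.M_ae F] with z hz
    rw [hz, norm_mul]
    exact mul_le_of_le_one_left (norm_nonneg _) (s.bφ z))

noncomputable def A (F : s.L2) : s.L2 := s.L (s.M F)

lemma inner_MU (F G : s.L2) : ⟪s.M (s.U F), s.U G⟫_ℝ = 0 := by
  rw [inner_eq', ← s.orth (fun z => F z * G z) ((Lp.memLp F).integrable_mul (Lp.memLp G))]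
  refine integral_congr_ae ?_
  filter_upwards [s.M_ae (s.U F), s.U_ae F, s.U_ae G] with z h1 h2 h3
  rw [h1, h2, h3, mul_assoc]

lemma A_U (F : s.L2) : s.A (s.U F) = 0 :=
  ext_inner_right ℝ fun G => by rw [A, inner_L, inner_MU, inner_zero_left]

lemma M_add (F G : s.L2) : s.M (F + G) = s.M F + s.M G := by
  ext1
  filter_upwards [s.M_ae (F + G), s.M_ae F, s.M_ae G, Lp.coeFn_add F G,
    Lp.coeFn_add (s.M F) (s.M G)] with z h1 h2 h3 h4 h5
  rw [h5, h1, h4, Pi.add_apply, Pi.add_apply, h2, h3, mul_add]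

lemma pyth (F : s.L2) : ‖s.L F‖ ^ 2 + ‖s.A F‖ ^ 2 ≤ ‖F‖ ^ 2 := by
  set R := F - s.U (s.L F) with hR
  have h1 : F = R + s.U (s.L F) := by simp [hR]
  have h2 : ⟪R, s.U (s.L F)⟫_ℝ = 0 := by
    rw [← inner_L, hR, map_sub, L_U, sub_self, inner_zero_left]
  have h3 : ‖F‖ ^ 2 = ‖R‖ ^ 2 + ‖s.L F‖ ^ 2 := by
    conv_lhs => rw [h1]
    rw [norm_add_sq_real, h2, s.U.norm_map]
    ring
  have h4 : s.A F = s.A R := by
    conv_lhs => rw [h1]
    rw [A, M_add, map_add, ← A, ← A, A_U, add_zero]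
  have h5 : ‖s.A R‖ ^ 2 ≤ ‖R‖ * ‖s.A R‖ := by
    rw [← real_inner_self_eq_norm_sq]
    conv_lhs => rw [A, inner_L, ← A]
    refine (real_inner_le_norm _ _).trans ?_
    rw [s.U.norm_map]
    exact mul_le_mul_of_nonneg_right (s.norm_M R) (norm_nonneg _)
  rw [h4, h3]
  nlinarith [sq_nonneg (‖R‖ - ‖s.A R‖)]

lemma int (F : s.L2) : Integrable F s.μ := (Lp.memLp F).integrable (by norm_num)

lemma trans (F : s.L2) {K : Z → ℝ} (hK : AEStronglyMeasurable K s.μ) {C : ℝ} (hC : ∀ z, |K z| ≤ C) :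
    ∫ z, F z * K (s.σ z) ∂s.μ = ∫ z, s.L F z * K z ∂s.μ := by
  have hm : MemLp K 2 s.μ := MemLp.of_bound hK C (ae_of_all _ hC)
  have := s.inner_L F (hm.toLp _)
  rw [inner_eq', inner_eq'] at this
  refine Eq.trans (integral_congr_ae ?_) (this.symm.trans (integral_congr_ae ?_))
  · filter_upwards [s.U_ae (hm.toLp _), s.mp.quasiMeasurePreserving.ae hm.coeFn_toLp] with z h1 h2
    rw [h1, h2]
  · filter_upwards [hm.coeFn_toLp] with z h1
    rw [h1]

noncomputable def E (F : s.L2) : ℝ := ∫ z, F z ∂s.μ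

lemma E_L (F : s.L2) : s.E (s.L F) = s.E F := by
  have := s.trans F (K := fun _ => 1) aestronglyMeasurable_const (C := 1) (by simp)
  simpa [E] using this.symm

lemma E_le (F : s.L2) : |s.E F| ≤ ‖F‖ := by
  have hm : MemLp (fun _ : Z => (1 : ℝ)) 2 s.μ := memLp_const 1
  have h1 : s.E F = ⟪F, hm.toLp _⟫_ℝ := by
    rw [inner_eq']
    refine integral_congr_ae ?_
    filter_upwards [hm.coeFn_toLp] with z h
    rw [h, mul_one]
  have h2 : ‖hm.toLp _‖ = 1 := by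
    rw [Lp.norm_toLp, eLpNorm_const _ (by norm_num) (NeZero.ne _)]
    simp
  rw [h1]
  exact (abs_real_inner_le_norm _ _).trans (by rw [h2, mul_one])

noncomputable def α (F : s.L2) (k : ℕ) : ℝ := s.E (s.A (s.L^[k] F))

lemma α_zero (F : s.L2) : s.α F 0 = ∫ z, s.φ z * F z ∂s.μ := by
  rw [α, A, E_L]
  exact integral_congr_ae (s.M_ae F)

lemma α_U (F : s.L2) : s.α (s.U F) = sh (s.α F) := by
  funext k
  cases k with
  | zero => simp [α, A_U, E, sh]
  | succ k => simp [α, L_U, sh]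

lemma α_iter (F : s.L2) (p : ℕ) : s.α (s.U^[p] F) = sh^[p] (s.α F) := by
  induction p with
  | zero => rfl
  | succ p ih => rw [Function.iterate_succ_apply', Function.iterate_succ_apply', α_U, ih]

lemma α_sq (F : s.L2) : Summable fun k => s.α F k ^ 2 := by
  have : ∀ n (F : s.L2), ∑ k ∈ Finset.range n, s.α F k ^ 2 ≤ ‖F‖ ^ 2 := by
    intro n
    induction n with
    | zero => simp
    | succ n ih =>
      intro F
      rw [Finset.sum_range_succ']
      have h1 := ih (s.L F)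
      have h2 := s.pyth F
      have h3 : s.α F 0 ^ 2 ≤ ‖s.A F‖ ^ 2 := by
        rw [← sq_abs]
        exact pow_le_pow_left₀ (abs_nonneg _) (s.E_le _) 2
      change ∑ k ∈ Finset.range n, s.α (s.L F) k ^ 2 + _ ≤ _
      linarith
  exact summable_of_sum_range_le (fun _ => sq_nonneg _) fun n => this n F

end Sys

variable (s : Sys Z) (t : Sys W) (δ : ℝ)

noncomputable def D : ℕ → Z × W → ℝ
  | 0, _ => 1
  | N + 1, p => (1 + δ * (s.φ p.1 * t.φ p.2)) * D N (s.σ p.1, t.σ p.2)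

lemma mD (N : ℕ) : Measurable (D s t δ N) := by
  induction N with
  | zero => exact measurable_const
  | succ N ih =>
    exact (measurable_const.add (measurable_const.mul ((s.mφ.comp measurable_fst).mul
      (t.mφ.comp measurable_snd)))).mul (ih.comp (s.mp.measurable.prodMap t.mp.measurable))

variable {δ}

lemma bD (h0 : 0 ≤ δ) (h1 : δ ≤ 1) (N : ℕ) : ∀ p, 0 ≤ D s t δ N p ∧ D s t δ N p ≤ 2 ^ N := by
  induction N with
  | zero => exact fun p => by simp [D]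
  | succ N ih =>
    intro p
    have h2 : |s.φ p.1 * t.φ p.2| ≤ 1 := by
      rw [abs_mul]
      exact mul_le_one₀ (s.bφ _) (abs_nonneg _) (t.bφ _)
    have h3 := abs_le.1 h2
    have h4 := ih (s.σ p.1, t.σ p.2)
    simp only [D]
    refine ⟨mul_nonneg (by nlinarith) h4.1, ?_⟩
    rw [pow_succ']
    exact mul_le_mul (by nlinarith) h4.2 h4.1 (by norm_num)

lemma absD (h0 : 0 ≤ δ) (h1 : δ ≤ 1) (N : ℕ) (p : Z × W) : |D s t δ N p| ≤ 2 ^ N := by
  rw [abs_of_nonneg (bD s t h0 h1 N p).1]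
  exact (bD s t h0 h1 N p).2

lemma D_swap (N : ℕ) : ∀ p : Z × W, D s t δ N p = D t s δ N p.swap := by
  induction N with
  | zero => exact fun _ => rfl
  | succ N ih => exact fun p => by simp [D, ih, mul_comm]

lemma marg (h0 : 0 ≤ δ) (h1 : δ ≤ 1) (N : ℕ) : ∀ z, ∫ w, D s t δ N (z, w) ∂t.μ = 1 := by
  induction N with
  | zero => simp [D]
  | succ N ih =>
    intro z
    have hm : Measurable fun w => D s t δ N (s.σ z, w) := (mD s t δ N).comp measurable_prodMk_left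
    have hi : Integrable (fun w => D s t δ N (s.σ z, w)) t.μ :=
      Integrable.of_bound hm.aestronglyMeasurable _ (ae_of_all _ fun w => absD s t h0 h1 N _)
    have hi2 : Integrable (fun w => D s t δ N (s.σ z, t.σ w)) t.μ :=
      t.mp.integrable_comp_of_integrable hi
    have e : ∀ w, D s t δ (N + 1) (z, w) = D s t δ N (s.σ z, t.σ w) +
        δ * s.φ z * (t.φ w * D s t δ N (s.σ z, t.σ w)) := fun w => by
      simp only [D]
      ring
    simp only [e]
    rw [integral_add hi2 ((hi2.bdd_mul t.mφ.aestronglyMeasurable (ae_of_all _ t.bφ)).const_mul _),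
      integral_const_mul, t.orth _ hi, mul_zero, add_zero, ← ih (s.σ z)]
    rw [← integral_map t.mp.measurable.aemeasurable hm.aestronglyMeasurable, t.mp.map_eq]

lemma intI (F : s.L2) (G : t.L2) {K : Z × W → ℝ} (hK : Measurable K) {C : ℝ} (hC : ∀ p, |K p| ≤ C) :
    Integrable (fun p : Z × W => F p.1 * G p.2 * K p) (s.μ.prod t.μ) :=
  ((s.int F).mul_prod (t.int G)).mul_bdd hK.aestronglyMeasurable (ae_of_all _ hC)

lemma trans1 (F : s.L2) (G : t.L2) {K : Z × W → ℝ} (hK : Measurable K) {C : ℝ}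
    (hC : ∀ p, |K p| ≤ C) :
    ∫ p, F p.1 * G p.2 * K (p.1, t.σ p.2) ∂(s.μ.prod t.μ) =
      ∫ p, F p.1 * t.L G p.2 * K p ∂(s.μ.prod t.μ) := by
  rw [integral_prod _ (intI s t F G (K := fun p => K (p.1, t.σ p.2))
    (hK.comp (measurable_id.prodMap t.mp.measurable))
    fun p => hC _), integral_prod _ (intI s t F _ hK hC)]
  refine integral_congr_ae (ae_of_all _ fun z => ?_)
  simp only [mul_assoc, integral_const_mul]
  congr 1
  exact t.trans G (K := fun w => K (z, w)) (hK.comp measurable_prodMk_left).aestronglyMeasurable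
    fun w => hC _

lemma trans2 (F : s.L2) (G : t.L2) {K : Z × W → ℝ} (hK : Measurable K) {C : ℝ}
    (hC : ∀ p, |K p| ≤ C) :
    ∫ p, F p.1 * G p.2 * K (s.σ p.1, t.σ p.2) ∂(s.μ.prod t.μ) =
      ∫ p, s.L F p.1 * t.L G p.2 * K p ∂(s.μ.prod t.μ) := by
  rw [trans1 s t F G (K := fun p => K (s.σ p.1, p.2))
    (hK.comp (s.mp.measurable.prodMap measurable_id)) fun p => hC _]
  have := trans1 t s (t.L G) F (K := fun p => K p.swap) (hK.comp measurable_swap) fun p => hC _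
  rw [← integral_prod_swap, ← integral_prod_swap (fun p => s.L F p.1 * t.L G p.2 * K p)]
  simpa [mul_comm, Prod.swap] using this

variable (δ) in
noncomputable def I (N : ℕ) (F : s.L2) (G : t.L2) : ℝ :=
  ∫ p, F p.1 * G p.2 * D s t δ N p ∂(s.μ.prod t.μ)

lemma I_zero (F : s.L2) (G : t.L2) : I s t δ 0 F G = s.E F * t.E G := by
  simp only [I, D, mul_one]
  exact integral_prod_mul _ _

lemma I_succ (h0 : 0 ≤ δ) (h1 : δ ≤ 1) (N : ℕ) (F : s.L2) (G : t.L2) :
    I s t δ (N + 1) F G = I s t δ N (s.L F) (t.L G) + δ * I s t δ N (s.A F) (t.A G) := by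
  have hm : Measurable fun p : Z × W => D s t δ N (s.σ p.1, t.σ p.2) :=
    (mD s t δ N).comp (s.mp.measurable.prodMap t.mp.measurable)
  rw [I, I, I, Sys.A, Sys.A, ← trans2 s t _ _ (mD s t δ N) (absD s t h0 h1 N),
    ← trans2 s t _ _ (mD s t δ N) (absD s t h0 h1 N), ← integral_const_mul,
    ← integral_add (intI s t _ _ hm fun p => absD s t h0 h1 N _)
      ((intI s t _ _ hm fun p => absD s t h0 h1 N _).const_mul _)]
  refine integral_congr_ae ?_
  filter_upwards [Measure.quasiMeasurePreserving_fst.ae (s.M_ae F),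
    Measure.quasiMeasurePreserving_snd.ae (t.M_ae G)] with p h2 h3
  simp only [D, h2, h3]
  ring

lemma cs (F : s.L2) (G : t.L2) :
    ‖s.L F‖ * ‖t.L G‖ + ‖s.A F‖ * ‖t.A G‖ ≤ ‖F‖ * ‖G‖ := by
  refine abs_le_of_sq_le_sq' ?_ (by positivity) |>.2
  calc _ ≤ (‖s.L F‖ ^ 2 + ‖s.A F‖ ^ 2) * (‖t.L G‖ ^ 2 + ‖t.A G‖ ^ 2) := by
        nlinarith [sq_nonneg (‖s.L F‖ * ‖t.A G‖ - ‖s.A F‖ * ‖t.L G‖)]
    _ ≤ ‖F‖ ^ 2 * ‖G‖ ^ 2 := by
        gcongr
        · exact s.pyth F
        · exact t.pyth G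
    _ = _ := by ring

lemma I_bound (h0 : 0 ≤ δ) (h1 : δ ≤ 1) (N : ℕ) : ∀ (F : s.L2) (G : t.L2),
    |I s t δ N F G| ≤ ‖F‖ * ‖G‖ ∧ |I s t δ N F G - s.E F * t.E G| ≤ δ * (‖F‖ * ‖G‖) ∧
    |I s t δ N F G - s.E F * t.E G - δ * ∑ k ∈ Finset.range N, s.α F k * t.α G k| ≤
      δ ^ 2 * (‖F‖ * ‖G‖) := by
  induction N with
  | zero =>
    intro F G
    rw [I_zero, abs_mul]
    refine ⟨mul_le_mul (s.E_le F) (t.E_le G) (abs_nonneg _) (norm_nonneg _), ?_, ?_⟩ <;> simp <;>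
      positivity
  | succ N ih =>
    intro F G
    obtain ⟨a1, a2, a3⟩ := ih (s.L F) (t.L G)
    obtain ⟨b1, b2, -⟩ := ih (s.A F) (t.A G)
    have c := cs s t F G
    rw [s.E_L, t.E_L] at a2 a3
    rw [I_succ s t h0 h1, Finset.sum_range_succ']
    change _ ∧ _ ∧ |_ - δ * (∑ k ∈ Finset.range N, s.α (s.L F) k * t.α (t.L G) k +
      s.E (s.A F) * t.E (t.A G))| ≤ _
    have p1 : 0 ≤ ‖s.A F‖ * ‖t.A G‖ := by positivity
    rw [abs_le] at a1 a2 a3 b1 b2
    simp only [abs_le]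
    refine ⟨⟨?_, ?_⟩, ⟨?_, ?_⟩, ?_, ?_⟩ <;> nlinarith [mul_nonneg h0 h0]

lemma I_U (h0 : 0 ≤ δ) (h1 : δ ≤ 1) (j N : ℕ) (F : s.L2) (G : t.L2) :
    I s t δ (N + j) (s.U^[j] F) (t.U^[j] G) = I s t δ N F G := by
  induction j with
  | zero => rfl
  | succ j ih =>
    rw [← add_assoc, I_succ s t h0 h1, Function.iterate_succ_apply', Function.iterate_succ_apply',
      s.L_U, t.L_U, s.A_U, t.A_U, ih]
    have := (I_bound s t h0 h1 (N + j) 0 0).1
    simp only [norm_zero, mul_zero, abs_nonpos_iff] at this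
    rw [this, mul_zero, add_zero]

end Pool.Agent.H32.Join
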