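import Mathlib

set_option autoImplicit false

namespace Pool.Agent.H32.Rotor

abbrev V := ℤ × ℤ

def dir : Fin 5 → V := ![(0, 1), (0, 1), (1, 0), (0, -1), (-1, 0)]
def dn : Fin 5 → Fin 4 := ![0, 0, 1, 2, 3]
def vec : Fin 4 → V := ![(0, 1), (1, 0), (0, -1), (-1, 0)]

lemma dir_eq (r : Fin 5) : dir r = vec (dn r) := by
  revert r
  decide

def rot (r : Fin 5) : ℕ → Fin 5
  | 0 => r
  | k + 1 => rot r k + 1

def cnt (r : Fin 5) (d : Fin 4) : ℕ → ℕ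
  | 0 => 0
  | k + 1 => cnt r d k + if dn (rot r k + 1) = d then 1 else 0

lemma cnt_mono (r : Fin 5) (d : Fin 4) : Monotone (cnt r d) :=
  monotone_nat_of_le_succ fun _ => Nat.le_add_right _ _

lemma cnt_five (r : Fin 5) (d : Fin 4) (m : ℕ) :
    cnt r d (m + 5) = cnt r d m + if d = 0 then 2 else 1 := by
  simp only [cnt, rot, add_assoc]
  congr 1
  generalize rot r m = q
  revert q d
  decide

def inflow (r : V → Fin 5) (u : V → ℕ) (y : V) : ℕ :=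
  ∑ d : Fin 4, cnt (r (y - vec d)) d (u (y - vec d))

def step (s : V × (V → Fin 5)) : V × (V → Fin 5) :=
  (s.1 + dir (s.2 s.1 + 1), Function.update s.2 s.1 (s.2 s.1 + 1))

def walk (r : V → Fin 5) (n : ℕ) : V × (V → Fin 5) := step^[n] ((0, 0), r)

def ex (r : V → Fin 5) : ℕ → V → ℕ
  | 0, _ => 0
  | n + 1, x => ex r n x + if (walk r n).1 = x then 1 else 0

lemma walk_succ (r : V → Fin 5) (n : ℕ) : walk r (n + 1) = step (walk r n) :=
  Function.iterate_succ_apply' _ _ _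

lemma rotor_eq (r : V → Fin 5) (n : ℕ) (x : V) : (walk r n).2 x = rot (r x) (ex r n x) := by
  induction n with
  | zero => rfl
  | succ n ih =>
    rw [walk_succ, step, ex]
    by_cases h : (walk r n).1 = x
    · simp only [h, Function.update_self, if_true, rot, ih]
    · simp only [h, if_false, add_zero]
      rw [Function.update_of_ne (Ne.symm h), ih]

lemma flow_eq (r : V → Fin 5) (n : ℕ) (y : V) :
    ex r n y + (if (walk r n).1 = y then 1 else 0) =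
      inflow r (ex r n) y + if y = (0, 0) then 1 else 0 := by
  induction n with
  | zero => simp [ex, walk, inflow, cnt, eq_comm]
  | succ n ih =>
    have h1 : inflow r (ex r (n + 1)) y =
        inflow r (ex r n) y + if (walk r (n + 1)).1 = y then 1 else 0 := by
      set p := (walk r n).1 with hp
      set d0 := dn ((walk r n).2 p + 1) with hd0
      have h2 : (walk r (n + 1)).1 = p + vec d0 := by
        rw [walk_succ, step, dir_eq]
      have h3 : ∀ d : Fin 4, cnt (r (y - vec d)) d (ex r (n + 1) (y - vec d)) =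
          cnt (r (y - vec d)) d (ex r n (y - vec d)) +
            if d = d0 then (if p + vec d0 = y then 1 else 0) else 0 := by
        intro d
        rw [ex]
        by_cases h : p = y - vec d
        · simp only [← hp, h, if_true, cnt]
          rw [← rotor_eq, ← h, ← hd0]
          by_cases hd : d = d0
          · subst hd
            simp [h]
          · simp [hd, Ne.symm hd]
        · simp only [← hp, h, if_false, add_zero]
          by_cases hd : d = d0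
          · subst hd
            have : ¬ p + vec d0 = y := fun hh => h (eq_sub_of_add_eq hh)
            simp [this]
          · simp [hd]
      simp only [inflow, h3, Finset.sum_add_distrib, h2]
      simp
    rw [h1, ex]
    omega

lemma sum_ex (r : V → Fin 5) (S : Finset V) (n : ℕ) (h : ∀ x, x ∉ S → ex r n x = 0) :
    ∑ x ∈ S, ex r n x = n := by
  induction n with
  | zero => simp [ex]
  | succ n ih =>
    have h1 : ∀ x, x ∉ S → ex r n x = 0 := fun x hx => by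
      have := h x hx
      rw [ex] at this
      omega
    have h2 : (walk r n).1 ∈ S := by
      by_contra hx
      have := h _ hx
      simp [ex] at this
    simp only [ex, Finset.sum_add_distrib, ih h1]
    simp [h2]

lemma ex_card (r : V → Fin 5) (n : ℕ) (x : V) :
    ex r n x = ((Finset.range n).filter fun k => (walk r k).1 = x).card := by
  induction n with
  | zero => simp [ex]
  | succ n ih =>
    rw [ex, Finset.range_add_one, Finset.filter_insert]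
    split_ifs with h
    · rw [Finset.card_insert_of_notMem (by simp), ih]
    · exact ih

lemma recurrent (r : V → Fin 5)
    (h : ∀ m : ℕ, ∃ (u : V → ℕ) (S : Finset V), (∀ x, x ∉ S → u x = 0) ∧ m ≤ u (0, 0) ∧
      ∀ y, inflow r u y ≤ u y) : ¬ Set.Finite {n : ℕ | (walk r n).1 = (0, 0)} := by
  intro hf
  obtain ⟨u, S, hS, hm, hu⟩ := h hf.toFinset.card
  have h0 : ∀ n, ex r n (0, 0) ≤ u (0, 0) := by
    intro n
    rw [ex_card]
    refine le_trans (Finset.card_le_card fun k hk => ?_) hm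
    simpa using (Finset.mem_filter.1 hk).2
  have h1 : ∀ n x, ex r n x ≤ u x := by
    intro n
    induction n with
    | zero => intro x; simp [ex]
    | succ n ih =>
      intro x
      by_cases hx : x = (0, 0)
      · rw [hx]
        exact h0 _
      have h2 := flow_eq r n x
      have h3 : inflow r (ex r n) x ≤ inflow r u x :=
        Finset.sum_le_sum fun d _ => cnt_mono _ _ (ih _)
      have := hu x
      rw [if_neg hx] at h2
      rw [ex]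
      omega
  have h2 := sum_ex r S (∑ x ∈ S, u x + 1) fun x hx => by
    have := h1 (∑ x ∈ S, u x + 1) x
    rw [hS x hx] at this
    omega
  have h3 : ∑ x ∈ S, ex r (∑ x ∈ S, u x + 1) x ≤ ∑ x ∈ S, u x := Finset.sum_le_sum fun x _ => h1 _ x
  omega

def inR (a : ℤ) (p : V) : Prop := -a ≤ p.1 ∧ p.1 ≤ a ∧ -a ≤ p.2 ∧ p.2 ≤ a

instance (a : ℤ) (p : V) : Decidable (inR a p) := by
  unfold inR
  infer_instance

/-- class of a vertex: 0 inside, 1 = N N, 2 = N E S, 3 = E S, 4 = N, 5 = E, 6 = S, 7 = W, 8 unused -/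
def cls (a x y : ℤ) : Fin 9 :=
  if -a ≤ x ∧ x ≤ a ∧ -a ≤ y ∧ y ≤ a then 0
  else if y = -a - 1 ∧ -a ≤ x ∧ x ≤ a then 1
  else if y = a + 1 ∧ -a < x ∧ x ≤ a then 2
  else if y = a + 1 ∧ x = -a then 3
  else if (-a < x ∧ x ≤ a ∧ a + 2 ≤ y ∧ y + x < 2 * a + 2) ∨
    (-a ≤ x ∧ x ≤ a ∧ x - 2 * a - 2 ≤ y ∧ y ≤ -a - 2) then 4
  else if (x = -a - 1 ∧ -a ≤ y ∧ y ≤ a) ∨
    (a + 1 ≤ y ∧ y ≤ 3 * a + 1 ∧ 2 * a + 2 - y ≤ x ∧ x ≤ y) then 5
  else if a + 2 ≤ x ∧ x ≤ 3 * a + 2 ∧ -x + 1 ≤ y ∧ y ≤ x - 1 then 6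
  else if (x = a + 1 ∧ -a ≤ y ∧ y ≤ a) ∨
    (-3 * a - 2 ≤ y ∧ y ≤ -a - 2 ∧ 2 * a + 3 + y ≤ x ∧ x ≤ -y) then 7
  else 8

def len : Fin 9 → ℕ := ![5, 2, 3, 2, 1, 1, 1, 1, 0]
def ini : Fin 9 → Fin 5 := ![0, 4, 0, 1, 0, 1, 2, 3, 0]
def cc (c : Fin 9) (d : Fin 4) : ℕ := cnt (ini c) d (len c)

lemma cc_vals : ∀ c : Fin 9, (cc c 0 ≤ 2 ∧ cc c 1 ≤ 1 ∧ cc c 2 ≤ 1 ∧ cc c 3 ≤ 1) ∧
    (2 ≤ cc c 0 → c = 0 ∨ c = 1) ∧ (1 ≤ cc c 0 → c = 0 ∨ c = 1 ∨ c = 2 ∨ c = 4) ∧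
    (1 ≤ cc c 1 → c = 0 ∨ c = 2 ∨ c = 3 ∨ c = 5) ∧ (1 ≤ cc c 2 → c = 0 ∨ c = 2 ∨ c = 3 ∨ c = 6) ∧
    (1 ≤ cc c 3 → c = 0 ∨ c = 7) := by decide

lemma len_vals : len 0 = 5 ∧ len 1 = 2 ∧ len 2 = 3 ∧ len 3 = 2 ∧ len 4 = 1 ∧ len 5 = 1 ∧
    len 6 = 1 ∧ len 7 = 1 ∧ len 8 = 0 := by decide

lemma cls_spec (a x y : ℤ) :
    (cls a x y = 0 → -a ≤ x ∧ x ≤ a ∧ -a ≤ y ∧ y ≤ a) ∧
    (cls a x y = 1 → y = -a - 1 ∧ -a ≤ x ∧ x ≤ a) ∧
    (cls a x y = 2 → y = a + 1 ∧ -a < x ∧ x ≤ a) ∧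
    (cls a x y = 3 → y = a + 1 ∧ x = -a) ∧
    (cls a x y = 4 → (-a < x ∧ x ≤ a ∧ a + 2 ≤ y ∧ y + x < 2 * a + 2) ∨
      (-a ≤ x ∧ x ≤ a ∧ x - 2 * a - 2 ≤ y ∧ y ≤ -a - 2)) ∧
    (cls a x y = 5 → (x = -a - 1 ∧ -a ≤ y ∧ y ≤ a) ∨
      (a + 1 ≤ y ∧ y ≤ 3 * a + 1 ∧ 2 * a + 2 - y ≤ x ∧ x ≤ y)) ∧
    (cls a x y = 6 → a + 2 ≤ x ∧ x ≤ 3 * a + 2 ∧ -x + 1 ≤ y ∧ y ≤ x - 1) ∧
    (cls a x y = 7 → (x = a + 1 ∧ -a ≤ y ∧ y ≤ a) ∨
      (-3 * a - 2 ≤ y ∧ y ≤ -a - 2 ∧ 2 * a + 3 + y ≤ x ∧ x ≤ -y)) := by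
  unfold cls
  split_ifs with h0 h1 h2 h3 h4 h5 h6 h7
  all_goals
    refine ⟨fun h => ?_, fun h => ?_, fun h => ?_, fun h => ?_, fun h => ?_, fun h => ?_,
      fun h => ?_, fun h => ?_⟩ <;> first | assumption | exact absurd h (by decide)

lemma cN2 (a x y : ℤ) (h : 2 ≤ cc (cls a x y) 0) : -a ≤ x ∧ x ≤ a ∧ -a - 1 ≤ y ∧ y ≤ a := by
  obtain ⟨s0, s1, -⟩ := cls_spec a x y
  rcases (cc_vals _).2.1 h with h | h
  · have := s0 h
    omega
  · have := s1 h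
    omega

lemma cN1 (a x y : ℤ) (ha : 0 ≤ a) (h : 1 ≤ cc (cls a x y) 0) :
    -a ≤ x ∧ x ≤ a ∧ x - 2 * a - 2 ≤ y ∧ y + x < 2 * a + 2 ∧ (y ≤ a ∨ -a < x) := by
  obtain ⟨s0, s1, s2, -, s4, -⟩ := cls_spec a x y
  rcases (cc_vals _).2.2.1 h with h | h | h | h
  · have := s0 h
    omega
  · have := s1 h
    omega
  · have := s2 h
    omega
  · have := s4 h
    omega

lemma cE (a x y : ℤ) (ha : 0 ≤ a) (h : 1 ≤ cc (cls a x y) 1) :
    (-a - 1 ≤ x ∧ x ≤ a ∧ -a ≤ y ∧ y ≤ a) ∨ (y = a + 1 ∧ -a ≤ x ∧ x ≤ a) ∨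
      (a + 1 ≤ y ∧ y ≤ 3 * a + 1 ∧ 2 * a + 2 - y ≤ x ∧ x ≤ y) := by
  obtain ⟨s0, -, s2, s3, -, s5, -⟩ := cls_spec a x y
  rcases (cc_vals _).2.2.2.1 h with h | h | h | h
  · have := s0 h
    omega
  · have := s2 h
    omega
  · have := s3 h
    omega
  · have := s5 h
    omega

lemma cS (a x y : ℤ) (ha : 0 ≤ a) (h : 1 ≤ cc (cls a x y) 2) :
    (-a ≤ x ∧ x ≤ a ∧ -a ≤ y ∧ y ≤ a + 1) ∨
      (a + 2 ≤ x ∧ x ≤ 3 * a + 2 ∧ -x + 1 ≤ y ∧ y ≤ x - 1) := by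
  obtain ⟨s0, -, s2, s3, -, -, s6, -⟩ := cls_spec a x y
  rcases (cc_vals _).2.2.2.2.1 h with h | h | h | h
  · have := s0 h
    omega
  · have := s2 h
    omega
  · have := s3 h
    omega
  · have := s6 h
    omega

lemma cW (a x y : ℤ) (_ha : 0 ≤ a) (h : 1 ≤ cc (cls a x y) 3) :
    (-a ≤ x ∧ x ≤ a + 1 ∧ -a ≤ y ∧ y ≤ a) ∨
      (-3 * a - 2 ≤ y ∧ y ≤ -a - 2 ∧ 2 * a + 3 + y ≤ x ∧ x ≤ -y) := by
  obtain ⟨s0, -, -, -, -, -, -, s7⟩ := cls_spec a x y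
  rcases (cc_vals _).2.2.2.2.2 h with h | h
  · have := s0 h
    omega
  · have := s7 h
    omega

lemma len_ge (a x y : ℤ) (ha : 0 ≤ a) :
    len (cls a x y) = 5 ∨ (len (cls a x y) = 2 ∧ y = -a - 1 ∧ -a ≤ x ∧ x ≤ a) ∨
    (len (cls a x y) = 3 ∧ y = a + 1 ∧ -a < x ∧ x ≤ a) ∨
    (len (cls a x y) = 2 ∧ y = a + 1 ∧ x = -a) ∨
    (len (cls a x y) = 1 ∧ (x < -a ∨ a < x ∨ y < -a - 1 ∨ a + 1 < y)) ∨
    (len (cls a x y) = 0 ∧ (x < -a ∨ a < x ∨ y < -a - 1 ∨ a + 1 < y) ∧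
      ¬ (-a < x ∧ x ≤ a ∧ a + 2 ≤ y ∧ y + x < 2 * a + 2) ∧
      ¬ (-a ≤ x ∧ x ≤ a ∧ x - 2 * a - 2 ≤ y ∧ y ≤ -a - 2) ∧
      ¬ (x = -a - 1 ∧ -a ≤ y ∧ y ≤ a) ∧
      ¬ (a + 1 ≤ y ∧ y ≤ 3 * a + 1 ∧ 2 * a + 2 - y ≤ x ∧ x ≤ y) ∧
      ¬ (a + 2 ≤ x ∧ x ≤ 3 * a + 2 ∧ -x + 1 ≤ y ∧ y ≤ x - 1) ∧
      ¬ (x = a + 1 ∧ -a ≤ y ∧ y ≤ a) ∧
      ¬ (-3 * a - 2 ≤ y ∧ y ≤ -a - 2 ∧ 2 * a + 3 + y ≤ x ∧ x ≤ -y)) := by
  unfold cls
  split_ifs with h0 h1 h2 h3 h4 h5 h6 h7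
  · exact Or.inl rfl
  · exact Or.inr (Or.inl ⟨rfl, h1⟩)
  · exact Or.inr (Or.inr (Or.inl ⟨rfl, h2⟩))
  · exact Or.inr (Or.inr (Or.inr (Or.inl ⟨rfl, h3⟩)))
  · exact Or.inr (Or.inr (Or.inr (Or.inr (Or.inl ⟨rfl, by clear h0 h1 h2 h3; omega⟩))))
  · exact Or.inr (Or.inr (Or.inr (Or.inr (Or.inl ⟨rfl, by clear h0 h1 h2 h3 h4; omega⟩))))
  · exact Or.inr (Or.inr (Or.inr (Or.inr (Or.inl ⟨rfl, by clear h0 h1 h2 h3 h4 h5; omega⟩))))
  · exact Or.inr (Or.inr (Or.inr (Or.inr (Or.inl ⟨rfl, by clear h0 h1 h2 h3 h4 h5 h6; omega⟩))))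
  · rw [not_or] at h4 h5 h7
    exact Or.inr (Or.inr (Or.inr (Or.inr (Or.inr ⟨rfl, by clear h4 h5 h6 h7; omega, h4.1, h4.2,
      h5.1, h5.2, h6, h7.1, h7.2⟩))))

lemma balance (a x y : ℤ) (ha : 0 ≤ a) :
    cc (cls a x (y - 1)) 0 + cc (cls a (x - 1) y) 1 + cc (cls a x (y + 1)) 2 +
      cc (cls a (x + 1) y) 3 ≤ len (cls a x y) := by
  have h0 := cN2 a x (y - 1)
  have h1 := cN1 a x (y - 1) ha
  have h2 := cE a (x - 1) y ha
  have h3 := cS a x (y + 1) ha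
  have h4 := cW a (x + 1) y ha
  have b1 := (cc_vals (cls a x (y - 1))).1.1
  have b2 := (cc_vals (cls a (x - 1) y)).1.2.1
  have b3 := (cc_vals (cls a x (y + 1))).1.2.2.1
  have b4 := (cc_vals (cls a (x + 1) y)).1.2.2.2
  have h5 := len_ge a x y ha
  generalize cc (cls a x (y - 1)) 0 = c1 at *
  generalize cc (cls a (x - 1) y) 1 = c2 at *
  generalize cc (cls a x (y + 1)) 2 = c3 at *
  generalize cc (cls a (x + 1) y) 3 = c4 at *
  generalize len (cls a x y) = l at *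
  rcases h5 with h | ⟨h, g⟩ | ⟨h, g⟩ | ⟨h, g⟩ | ⟨h, g⟩ | ⟨h, g, g1, g2, g3, g4, g5, g6, g7⟩
  · omega
  · have : c2 = 0 := by clear h0 h1 h3 h4; omega
    have : c4 = 0 := by clear h0 h1 h3 h2; omega
    have : c1 ≤ 1 := by clear h1 h2 h3 h4; omega
    omega
  · have : c3 = 0 := by clear h0 h1 h2 h4; omega
    have : c4 = 0 := by clear h0 h1 h3 h2; omega
    omega
  · have : c2 = 0 := by clear h0 h1 h3 h4; omega
    have : c3 = 0 := by clear h0 h1 h2 h4; omega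
    have : c4 = 0 := by clear h0 h1 h3 h2; omega
    omega
  · have : c1 ≤ 1 := by clear h1 h2 h3 h4; omega
    have : c1 = 0 ∨ c2 = 0 := by clear h0 h3 h4; omega
    have : c1 = 0 ∨ c3 = 0 := by clear h0 h2 h4; omega
    have : c1 = 0 ∨ c4 = 0 := by clear h0 h2 h3; omega
    have : c2 = 0 ∨ c3 = 0 := by clear h0 h1 h4; omega
    have : c2 = 0 ∨ c4 = 0 := by clear h0 h1 h3; omega
    have : c3 = 0 ∨ c4 = 0 := by clear h0 h1 h2; omega
    clear h0 h1 h2 h3 h4 g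
    omega
  · have : c1 = 0 := by clear h0 h2 h3 h4 g3 g5 g6 g7; omega
    have : c2 = 0 := by clear h0 h1 h3 h4 g1 g2 g3 g7; omega
    have : c3 = 0 := by clear h0 h1 h2 h4 g1 g3 g4 g6; omega
    have : c4 = 0 := by clear h0 h1 h2 h3 g1 g4 g5 g6; omega
    omega

def A : ℕ → ℤ
  | 0 => 0
  | s + 1 => 3 * A s + 2

lemma A_ge (s : ℕ) : (s : ℤ) ≤ A s := by
  induction s with
  | zero => simp [A]
  | succ s ih =>
    rw [A]
    push_cast
    omega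

lemma A_nonneg (s : ℕ) : 0 ≤ A s := le_trans (Int.natCast_nonneg s) (A_ge s)

lemma A_mono : Monotone A := monotone_nat_of_le_succ fun s => by
  have := A_nonneg s
  rw [A]
  omega

lemma ex_layer (p : V) : ∃ s, inR (A (s + 1)) p := by
  refine ⟨p.1.natAbs + p.2.natAbs, ?_⟩
  have := A_ge (p.1.natAbs + p.2.natAbs + 1)
  unfold inR
  push_cast at this
  have h1 := le_abs_self p.1
  have h2 := neg_abs_le p.1
  have h3 := le_abs_self p.2
  have h4 := neg_abs_le p.2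
  have h5 := abs_nonneg p.1
  have h6 := abs_nonneg p.2
  omega

def r0 (p : V) : Fin 5 := ini (cls (A (Nat.find (ex_layer p))) p.1 p.2)

def U : ℕ → V → ℕ
  | 0, _ => 0
  | t + 1, p => U t p + len (cls (A t) p.1 p.2)

lemma cls_in {a : ℤ} {p : V} (h : inR a p) : cls a p.1 p.2 = 0 := by
  unfold cls
  exact if_pos h

lemma cls_out {a : ℤ} (ha : 0 ≤ a) {p : V} (h : ¬ inR (3 * a + 2) p) : cls a p.1 p.2 = 8 := by
  unfold inR at h
  obtain ⟨s0, s1, s2, s3, s4, s5, s6, s7⟩ := cls_spec a p.1 p.2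
  have : ∀ c : Fin 9, c = 0 ∨ c = 1 ∨ c = 2 ∨ c = 3 ∨ c = 4 ∨ c = 5 ∨ c = 6 ∨ c = 7 ∨ c = 8 := by
    decide
  rcases this (cls a p.1 p.2) with g | g | g | g | g | g | g | g | g
  · have := s0 g; clear s0 s1 s2 s3 s4 s5 s6 s7; omega
  · have := s1 g; clear s0 s1 s2 s3 s4 s5 s6 s7; omega
  · have := s2 g; clear s0 s1 s2 s3 s4 s5 s6 s7; omega
  · have := s3 g; clear s0 s1 s2 s3 s4 s5 s6 s7; omega
  · have := s4 g; clear s0 s1 s2 s3 s4 s5 s6 s7; omega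
  · have := s5 g; clear s0 s1 s2 s3 s4 s5 s6 s7; omega
  · have := s6 g; clear s0 s1 s2 s3 s4 s5 s6 s7; omega
  · have := s7 g; clear s0 s1 s2 s3 s4 s5 s6 s7; omega
  · exact g

lemma U_out (t : ℕ) (p : V) (h : ¬ inR (A t) p) : U t p = 0 := by
  induction t with
  | zero => rfl
  | succ t ih =>
    have h1 : ¬ inR (A t) p := by
      have := A_mono (Nat.le_succ t)
      unfold inR at h ⊢
      simp only [Nat.succ_eq_add_one] at this
      omega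
    simp only [U, ih h1, cls_out (A_nonneg t) h]
    rfl

lemma cnt_U (t : ℕ) (p : V) (d : Fin 4) :
    cnt (r0 p) d (U (t + 1) p) = cnt (r0 p) d (U t p) + cc (cls (A t) p.1 p.2) d := by
  by_cases h : inR (A t) p
  · simp only [U, cls_in h]
    rw [len_vals.1, cnt_five]
    congr 1
    revert d
    decide
  · simp only [U, U_out t p h, zero_add, cnt]
    by_cases h2 : inR (A (t + 1)) p
    · have : Nat.find (ex_layer p) = t := by
        rw [Nat.find_eq_iff]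
        refine ⟨h2, fun s hs h3 => h ?_⟩
        have := A_mono (show s + 1 ≤ t from hs)
        unfold inR at h3 ⊢
        omega
      rw [r0, this, cc]
    · rw [cls_out (A_nonneg t) h2]
      rfl

lemma inflow_U (t : ℕ) (y : V) : inflow r0 (U t) y ≤ U t y := by
  induction t with
  | zero => simp [inflow, U, cnt]
  | succ t ih =>
    have hb := balance (A t) y.1 y.2 (A_nonneg t)
    unfold inflow at ih ⊢
    simp only [cnt_U, Finset.sum_add_distrib]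
    rw [U]
    refine add_le_add ih (le_trans (le_of_eq ?_) hb)
    simp [Fin.sum_univ_four, vec]

lemma U_zero (t : ℕ) : t ≤ U t (0, 0) := by
  induction t with
  | zero => rfl
  | succ t ih =>
    have : inR (A t) (0, 0) := by
      have := A_nonneg t
      unfold inR
      simp only
      omega
    simp only [U, cls_in this]
    rw [len_vals.1]
    omega

theorem main : ¬ Set.Finite {n : ℕ | (walk r0 n).1 = (0, 0)} := by
  refine recurrent r0 fun m => ⟨U m, Finset.Icc (-A m) (A m) ×ˢ Finset.Icc (-A m) (A m), ?_,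
    U_zero m, inflow_U m⟩
  intro x hx
  refine U_out m x fun h => hx ?_
  unfold inR at h
  simp only [Finset.mem_product, Finset.mem_Icc]
  omega

end Pool.Agent.H32.Rotor
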