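import Pool.Agent.H32.NoCrit

set_option autoImplicit false

namespace Pool.Agent.H32.SO

open Filter Topology FR

abbrev X := ℝ × Z ℝ

noncomputable def r (j : ℤ) : ℝ := 4 ^ j.natAbs

lemma r_pos (j : ℤ) : 0 < r j := by unfold r; positivity

lemma r_eq {a : ℤ} {c : ℕ} (h : a.natAbs = c) : r a = 4 ^ c := by rw [r, h]

lemma r_le {a b : ℤ} {c : ℕ} (h : a.natAbs ≤ b.natAbs + c) : r a ≤ 4 ^ c * r b := by
  rw [r, r, ← pow_add]
  exact pow_le_pow_right₀ (by norm_num) (by omega)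

noncomputable def ω (i : ℕ) (j : ℤ) : ℝ := 1 / r j + 1 / (i + 1) / r (j - (2 * i + 2))

lemma ω_ge (i : ℕ) (j : ℤ) : 1 / r j ≤ ω i j :=
  le_add_of_nonneg_right (div_nonneg (by positivity) (r_pos _).le)

lemma ω_pos (i : ℕ) (j : ℤ) : 0 < ω i j := (one_div_pos.2 (r_pos j)).trans_le (ω_ge i j)

lemma inv_r {a b : ℤ} {c : ℕ} (h : a.natAbs ≤ b.natAbs + c) : 1 / r b ≤ 4 ^ c / r a := by
  rw [div_le_div_iff₀ (r_pos _) (r_pos _), one_mul]
  exact r_le h

lemma ω_le {i : ℕ} {j : ℤ} {c : ℕ} (h : j.natAbs ≤ (j - (2 * i + 2)).natAbs + c) :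
    ω i j ≤ 2 * 4 ^ c / r j := by
  have h1 := inv_r (a := j) (b := j) (c := c) (by omega)
  have h2 := (div_le_div_of_nonneg_right (show (1 : ℝ) / (i + 1) ≤ 1 from
    div_le_one_of_le₀ (by simp) (by positivity)) (r_pos _).le).trans (inv_r h)
  rw [ω, two_mul (4 ^ c : ℝ), add_div]
  linarith

noncomputable def sm (Y : ℝ) (G : ℕ × ℕ → ℝ) (i : ℕ) : ℝ :=
  Y + G (i, 0) + ∑ l ∈ Finset.range i, G (i, l + 1)

noncomputable def W (j : ℤ) (Y : ℝ) (G : ℕ × ℕ → ℝ) : ℕ × ℕ → ℝ
  | (i, 0) => if j ≤ i then G (i, 0) / r j else ω i j * sm Y G i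
  | (i, l + 1) => G (i, l + 1) / r (j - (l + 1))

noncomputable def U (j : ℤ) (x : X) : ℕ × ℕ → ℝ
  | (i, 0) => if j ≤ i then r j * x.2 (i, 0) else x.2 (i, 0) / ω i j - r j * x.1 -
      ∑ l ∈ Finset.range i, r (j - (l + 1)) * x.2 (i, l + 1)
  | (i, l + 1) => r (j - (l + 1)) * x.2 (i, l + 1)

lemma W_U (j : ℤ) (x : X) (p : ℕ × ℕ) : W j (r j * x.1) (U j x) p = x.2 p := by
  have := (r_pos j).ne'
  obtain ⟨i, _ | l⟩ := p
  · have := (ω_pos i j).ne'
    simp only [W, U, sm]
    split_ifs <;> field_simp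
    ring
  · exact mul_div_cancel_left₀ _ (r_pos _).ne'

lemma U_W {j : ℤ} {x : X} {Y : ℝ} {G : ℕ × ℕ → ℝ} (h1 : r j * x.1 = Y) (h2 : ∀ p, x.2 p = W j Y G p) :
    U j x = G := by
  have := (r_pos j).ne'
  ext ⟨i, _ | l⟩
  · have := (ω_pos i j).ne'
    simp only [U, h1, h2, W, sm, mul_div_cancel₀ _ (r_pos _).ne']
    split_ifs <;> field_simp
    ring
  · simp only [U, h2, W, mul_div_cancel₀ _ (r_pos _).ne']

lemma ext' {j : ℤ} {x y : X} (h1 : x.1 = y.1) (h2 : U j x = U j y) : x = y :=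
  Prod.ext h1 (ZeroAtInftyContinuousMap.ext fun p => by rw [← W_U j, ← W_U j y, h1, h2])

lemma geo (i : ℕ) : ∑ l ∈ Finset.range i, r (i + 1 - (l + 1)) ≤ 2 * 4 ^ i := by
  induction i with
  | zero => simp
  | succ i ih =>
    rw [Finset.sum_range_succ']
    simp only [Nat.cast_add, Nat.cast_one, add_sub_add_right_eq_sub] at ih ⊢
    have : r (i + 1 - (0 : ℕ)) = 4 ^ (i + 1) := r_eq (by omega)
    rw [this, pow_succ]
    linarith [show (0 : ℝ) < 4 ^ i by positivity]

lemma sum_le (x : X) {i : ℕ} {j : ℤ} (h : j = i ∨ j = i + 1) :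
    |∑ l ∈ Finset.range i, r (j - (l + 1)) * x.2 (i, l + 1)| ≤ 2 * 4 ^ i * ‖x‖ := by
  refine (Finset.abs_sum_le_sum_abs _ _).trans ((Finset.sum_le_sum fun l hl => ?_).trans
    ((Finset.sum_mul _ _ _).ge.trans (mul_le_mul_of_nonneg_right (geo i) (norm_nonneg x))))
  rw [abs_mul, abs_of_pos (r_pos _)]
  have := Finset.mem_range.1 hl
  exact mul_le_mul ((r_le (b := i + 1 - (l + 1)) (c := 0) (by omega)).trans_eq (by simp))
    ((le_norm _ _).trans (norm_snd_le x)) (abs_nonneg _) (r_pos _).le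

lemma rat {a b : ℤ} (h : a.natAbs ≤ b.natAbs + 1) (c : ℝ) : |r a * c / r b| ≤ 4 * |c| := by
  rw [abs_div, abs_mul, abs_of_pos (r_pos _), abs_of_pos (r_pos _), div_le_iff₀ (r_pos _)]
  nlinarith [r_le h, abs_nonneg c]

lemma tr_le {j j' : ℤ} (h : j' = j + 1 ∨ j = j' + 1) (x : X) (p : ℕ × ℕ) :
    |W j (r j' * x.1) (U j' x) p| ≤ 4 * |x.2 p| +
      if p = ((min j j').toNat, 0) then 12 * ‖x‖ else 0 := by
  have h0 := norm_nonneg x
  have h1 : |x.1| ≤ ‖x‖ := norm_fst_le x
  obtain ⟨i, _ | l⟩ := p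
  · have h2 : |x.2 (i, 0)| ≤ ‖x‖ := (le_norm _ _).trans (norm_snd_le x)
    have h3 := abs_nonneg (x.2 (i, 0))
    have h4 : (0 : ℝ) < 4 ^ i := by positivity
    simp only [W, U, sm]
    by_cases a : j ≤ i <;> by_cases b : j' ≤ i
    · rw [if_pos a, if_pos b]
      exact (rat (by omega) _).trans (le_add_of_nonneg_right (by positivity))
    · obtain rfl : j = i := by omega
      obtain rfl : j' = i + 1 := by omega
      have e : r (i + 1) = 4 * 4 ^ i := by rw [← pow_succ']; exact r_eq (by omega)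
      have k1 := sum_le x (i := i) (Or.inr rfl)
      have k2 : |x.2 (i, 0) / ω i (i + 1)| ≤ 4 * 4 ^ i * ‖x‖ := by
        rw [abs_div, abs_of_pos (ω_pos _ _), div_le_iff₀ (ω_pos _ _), ← e]
        have := (div_le_iff₀ (r_pos _)).1 (ω_ge i (i + 1))
        nlinarith
      rw [if_pos a, if_neg b, if_pos (by simp), abs_div, show |r i| = 4 ^ i by simp [r],
        div_le_iff₀ h4]
      refine (abs_sub _ _).trans ((add_le_add ((abs_sub _ _).trans (add_le_add k2
        (show _ ≤ 4 * 4 ^ i * ‖x‖ by rw [e, abs_mul, abs_of_pos (by positivity)]; gcongr)))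
        k1).trans ?_)
      nlinarith
    · obtain rfl : j' = i := by omega
      obtain rfl : j = i + 1 := by omega
      have e : r (i + 1) = 4 * 4 ^ i := by rw [← pow_succ']; exact r_eq (by omega)
      have k1 := sum_le x (i := i) (Or.inl rfl)
      have k2 := ω_le (i := i) (j := i + 1) (c := 0) (by omega)
      rw [e, le_div_iff₀ (by positivity)] at k2
      rw [if_neg a, if_pos b, if_pos (by simp), abs_mul, abs_of_pos (ω_pos _ _),
        show r i = 4 ^ i by simp [r]]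
      refine (mul_le_mul_of_nonneg_left ((abs_add_le _ _).trans (add_le_add ((abs_add_le _ _).trans
        (show _ ≤ 4 ^ i * ‖x‖ + 4 ^ i * ‖x‖ by
          rw [abs_mul, abs_mul, abs_of_pos h4]; gcongr)) k1)) (ω_pos _ _).le).trans ?_
      nlinarith
    · rw [if_neg a, if_neg b, add_assoc, sub_add_cancel, add_sub_cancel, abs_mul, abs_div,
        abs_of_pos (ω_pos _ _), abs_of_pos (ω_pos _ _)]
      refine le_add_of_le_of_nonneg ?_ (by positivity)
      rw [← mul_div_assoc, div_le_iff₀ (ω_pos _ _), mul_right_comm]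
      refine mul_le_mul_of_nonneg_right ?_ h3
      have k1 := inv_r (a := j') (b := j) (c := 1) (by omega)
      have k2 := mul_le_mul_of_nonneg_left (inv_r (a := j' - (2 * i + 2)) (b := j - (2 * i + 2))
        (c := 1) (by omega)) (show (0 : ℝ) ≤ 1 / (i + 1) by positivity)
      simp only [ω, div_eq_mul_inv] at k1 k2 ⊢
      linarith
  · exact (rat (by omega) _).trans (le_add_of_nonneg_right (by positivity))

noncomputable def Tr (j j' : ℤ) (h : j' = j + 1 ∨ j = j' + 1) : X →L[ℝ] X := LinearMap.mkContinuous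
  { toFun := fun x => (r j' * x.1 / r j, mk (W j (r j' * x.1) (U j' x)) (squeeze_zero_norm
      (tr_le h x) (by
        simpa using ((tends x.2).abs.const_mul 4).add (tendsto_const_nhds.congr'
          (f₂ := fun p => if p = ((min j j').toNat, 0) then 12 * ‖x‖ else 0)
          ((Set.finite_singleton ((min j j').toNat, 0)).subset fun p hp => by_contra fun k => hp
            (if_neg (c := p = _) k).symm)))))
    map_add' := fun x y => Prod.ext (by simp; ring) (ZeroAtInftyContinuousMap.ext fun p => by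
      change W _ _ _ _ = W _ _ _ _ + W _ _ _ _
      obtain ⟨i, _ | l⟩ := p <;> simp only [W, U, sm, Prod.fst_add, Prod.snd_add, mul_add,
        ZeroAtInftyContinuousMap.add_apply, Finset.sum_add_distrib]
      · split_ifs <;> ring
      · ring)
    map_smul' := fun c x => Prod.ext (by simp; ring) (ZeroAtInftyContinuousMap.ext fun p => by
      change W _ _ _ _ = c * W _ _ _ _
      obtain ⟨i, _ | l⟩ := p <;> simp only [W, U, sm, Prod.smul_fst, Prod.smul_snd, smul_eq_mul,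
        ZeroAtInftyContinuousMap.smul_apply, mul_left_comm _ c, ← Finset.mul_sum]
      · split_ifs <;> ring
      · ring) } 16 fun x => by
    have h0 := norm_nonneg x
    refine max_le ((rat (by omega) _).trans ?_) (norm_le _ (by positivity) fun p =>
      (tr_le h x p).trans ?_)
    · linarith [show |x.1| ≤ ‖x‖ from norm_fst_le x]
    · have : |x.2 p| ≤ ‖x‖ := (le_norm _ _).trans (norm_snd_le x)
      split_ifs <;> linarith

lemma Tr_le (j j' : ℤ) (h) : ‖Tr j j' h‖ ≤ 16 := LinearMap.mkContinuous_norm_le _ (by norm_num) _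

lemma Tr_spec (j j' : ℤ) (h) (x : X) :
    r j * (Tr j j' h x).1 = r j' * x.1 ∧ U j (Tr j j' h x) = U j' x :=
  have := mul_div_cancel₀ (r j' * x.1) (r_pos j).ne'
  ⟨this, U_W this fun _ => rfl⟩

lemma Tr_Tr (j j' : ℤ) (h h') (x : X) : Tr j j' h (Tr j' j h' x) = x :=
  ext' (j := j) (mul_left_cancel₀ (r_pos j).ne' ((Tr_spec _ _ _ _).1.trans (Tr_spec _ _ _ _).1))
    ((Tr_spec _ _ _ _).2.trans (Tr_spec _ _ _ _).2)

noncomputable def S (n : ℤ) : X ≃L[ℝ] X :=
  ContinuousLinearEquiv.equivOfInverse (Tr (n - 1) n (by omega)) (Tr n (n - 1) (by omega))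
    (Tr_Tr _ _ _ _) (Tr_Tr _ _ _ _)

noncomputable abbrev E := lp (fun _ : ℤ => X) 1

lemma hasSum_norm (f : E) : HasSum (fun i => ‖f i‖) ‖f‖ := by
  simpa using lp.hasSum_norm (by norm_num) f

lemma mem1 {f : ℤ → X} {a : ℤ → ℝ} (ha : Summable a) (h : ∀ i, ‖f i‖ ≤ a i) : Memℓp f 1 :=
  memℓp_gen (by simpa using ha.of_nonneg_of_le (fun _ => norm_nonneg _) h)

lemma σ_le (f : E) (n : ℤ) : ‖S (n + 1) (f (n + 1))‖ ≤ 16 * ‖f (n + 1)‖ :=
  ContinuousLinearMap.le_of_opNorm_le _ (Tr_le (n + 1 - 1) (n + 1) (by omega)) _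

lemma hs (f : E) : HasSum (fun n => 16 * ‖f (n + 1)‖) (16 * ‖f‖) :=
  ((Equiv.addRight (1 : ℤ)).hasSum_iff.2 (hasSum_norm f)).mul_left 16

noncomputable def σ : E →L[ℝ] E := LinearMap.mkContinuous
  { toFun := fun f => ⟨fun n => S (n + 1) (f (n + 1)), mem1 (hs f).summable (σ_le f)⟩
    map_add' := fun _ _ => lp.ext (funext fun n => map_add (S (n + 1)) _ _)
    map_smul' := fun _ _ => lp.ext (funext fun n => map_smul (S (n + 1)) _ _) } 16
  fun f => hasSum_le (σ_le f) (hasSum_norm _) (hs f)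

lemma σ_pow (s : ℕ) (f : E) (j : ℤ) : r j * ((σ ^ s) f j).1 = r (j + s) * (f (j + s)).1 ∧
    U j ((σ ^ s) f j) = U (j + s) (f (j + s)) := by
  induction s generalizing f with
  | zero => simp
  | succ s ih =>
    have := Tr_spec (j + s + 1 - 1) (j + s + 1) (by omega) (f (j + s + 1))
    rw [pow_succ, mul_apply_eq_comp, (ih _).1, (ih _).2, Nat.cast_succ, ← add_assoc]
    change _ * (σ f (j + s)).1 = _ ∧ U _ (σ f (j + s)) = _ at this
    rwa [add_sub_cancel_right] at this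

lemma null {x : ℕ → X} {Y : ℝ} {G : ℕ × ℕ → ℝ} (h1 : ∀ j : ℕ, r j * (x j).1 = Y ∧ U j (x j) = G)
    (h2 : Summable fun j => ‖x j‖) : Y = 0 := by
  have h3 : ∀ j p, |W (j : ℕ) Y G p| ≤ ‖x j‖ := fun j p => by
    rw [← (h1 j).1, ← (h1 j).2, W_U]
    exact (le_norm (x j).2 p).trans (norm_snd_le _)
  have h4 : ∀ l, Tendsto (fun i => G (i, l)) atTop (𝓝 0) := fun l => by
    have := (tends (x 0).2).comp ((Prod.mk_left_injective l).tendsto_cofinite)
    rw [Nat.cofinite_eq_atTop] at this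
    rw [← (h1 0).2]
    rcases l with _ | l
    · simpa [U, r, Function.comp_def] using this
    · simpa [U] using this.const_mul (r ((0 : ℕ) - (l + 1)))
  have h5 := tendsto_tsum_of_dominated_convergence (𝓕 := atTop) (g := fun _ => 0)
    (f := fun i l => if l < i then G (i, l + 1) else 0) ((summable_nat_add_iff 1).2 h2)
    (fun l => (h4 (l + 1)).congr' ((eventually_gt_atTop l).mono fun i hi => (if_pos hi).symm))
    (Eventually.of_forall fun i l => by
      split_ifs
      · simpa [W, r] using h3 (l + 1) (i, l + 1)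
      · simp)
  have h6 : Tendsto (fun i => |sm Y G i|) atTop (𝓝 |Y|) := by
    refine Tendsto.abs ?_
    unfold sm
    simpa using (tendsto_const_nhds.add (h4 0)).add (h5.congr fun i => (tsum_eq_sum
      (s := Finset.range i) fun l hl => if_neg (by simpa using hl)).trans
        (Finset.sum_congr rfl fun l hl => if_pos (Finset.mem_range.1 hl)))
  by_contra hY
  have h7 := abs_pos.2 hY
  refine Real.not_summable_one_div_natCast ((summable_nat_add_iff 1).1
    (Summable.of_norm_bounded_eventually_nat ((h2.comp_injective (i := fun i => 2 * i + 2)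
      fun a b e => by simpa using e).div_const (|Y| / 2))
      ((h6.eventually (lt_mem_nhds (half_lt_self h7))).mono fun i hi => ?_)))
  have h8 := h3 (2 * i + 2) (i, 0)
  simp only [W] at h8
  rw [if_neg (by omega), abs_mul, abs_of_pos (ω_pos _ _)] at h8
  have h9 : 1 / ((i : ℝ) + 1) ≤ ω i (2 * i + 2 : ℕ) := by
    simp [ω, r]
  rw [Real.norm_of_nonneg (by positivity), le_div_iff₀ (half_pos h7), Nat.cast_succ]
  exact (mul_le_mul h9 hi.le (half_pos h7).le (ω_pos _ _).le).trans h8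

lemma div_summable {q : ℕ} (hq : 0 < q) {a : ℕ → ℝ} (h0 : ∀ m, 0 ≤ a m) (h : Summable a) :
    Summable fun j => a (j / q) := by
  have : NeZero q := ⟨hq.ne'⟩
  exact (Nat.divModEquiv q).summable_iff (f := fun p => a p.1) |>.2
    ((summable_prod_of_nonneg fun _ => h0 _).2 ⟨fun _ => Summable.of_finite, by
      simpa using h.mul_left (q : ℝ)⟩)

theorem periodic_zero {f : E} {q : ℕ} (hq : 0 < q) (h : (σ ^ q) f = f) : (f 0).1 = 0 := by
  have h1 : ∀ m : ℕ, r (q * m : ℕ) * (f (q * m : ℕ)).1 = r 0 * (f 0).1 ∧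
      U (q * m : ℕ) (f (q * m : ℕ)) = U 0 (f 0) := fun m => by
    have := σ_pow (q * m) f 0
    rw [pow_mul, FunLike.coe_pow_eq_iterate, Function.iterate_fixed h, zero_add] at this
    exact ⟨this.1.symm, this.2.symm⟩
  have h2 : ∀ (t j : ℕ) (x : X), ∃ y : X, (r (j + t : ℕ) * y.1 = r j * x.1 ∧
      U (j + t : ℕ) y = U j x) ∧ ‖y‖ ≤ 16 ^ t * ‖x‖ := fun t j x => by
    induction t with
    | zero => exact ⟨x, ⟨rfl, rfl⟩, by simp⟩
    | succ t ih =>
      obtain ⟨y, ⟨a, b⟩, c⟩ := ih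
      have := Tr_spec (j + (t + 1) : ℕ) (j + t : ℕ) (by omega) y
      exact ⟨_, ⟨this.1.trans a, this.2.trans b⟩, (ContinuousLinearMap.le_of_opNorm_le _
        (Tr_le _ _ _) _).trans (by rw [pow_succ']; nlinarith)⟩
  choose y h3 h4 using fun j => h2 (j % q) (q * (j / q)) (f (q * (j / q) : ℕ))
  have h5 : Summable fun m : ℕ => ‖f (q * m : ℕ)‖ := (hasSum_norm f).summable.comp_injective
    fun a b e => Nat.eq_of_mul_eq_mul_left hq (by exact_mod_cast e)
  have h6 := div_summable hq (fun _ => norm_nonneg _) h5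
  simpa [r] using null (x := y) (Y := r 0 * (f 0).1) (fun j => by
    have := h3 j
    rw [Nat.div_add_mod] at this
    exact ⟨this.1.trans (h1 _).1, this.2.trans (h1 _).2⟩) ((h6.mul_left (16 ^ q)).of_nonneg_of_le
      (fun _ => norm_nonneg _) fun j => (h4 j).trans (mul_le_mul_of_nonneg_right
        (pow_le_pow_right₀ (by norm_num) (Nat.mod_lt j hq).le) (norm_nonneg _)))

end Pool.Agent.H32.SO
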