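import Pool.Agent.H32.ShiftOp

set_option autoImplicit false

namespace Pool.Agent.H32.SO

open Filter Topology FR

lemma exists_pp {I : Type} [Countable I] (sz : I → ℕ) : ∃ P : ℕ → I → ℝ, (∀ k q, |P k q| ≤ 2 ^ k) ∧
    (∀ k q, P k q ≠ 0 → sz q < k) ∧ ∀ (y : I → ℝ) (ε : ℝ), 0 < ε → {q | ¬|y q| < ε}.Finite →
      ∀ K, ∃ k, K ≤ k ∧ ∀ q, |P k q - y q| ≤ ε := by
  classical
  obtain ⟨g, hg⟩ := exists_surjective_nat (I →₀ ℕ)
  refine ⟨fun k q => if sz q < k ∧ |d ℝ (g k.unpair.1 q)| ≤ k then d ℝ (g k.unpair.1 q) else 0,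
    fun k q => ?_, fun k q a => by_contra fun c => a (if_neg fun e => c e.1), fun y ε hε hF K => ?_⟩
  · have h2 : (k : ℝ) ≤ 2 ^ k := by exact_mod_cast Nat.lt_two_pow_self.le
    dsimp only
    split_ifs with a
    exacts [a.2.trans h2, by simp]
  choose a ha using fun q => d_dense (y q) hε
  obtain ⟨c, hc⟩ := hg (Finsupp.onFinset hF.toFinset (fun q => if q ∈ hF.toFinset then a q else 0)
    fun q => by split_ifs <;> simp_all)
  obtain ⟨M, hM⟩ := (hF.image fun q => sz q + ⌈|d ℝ (a q)|⌉₊).bddAbove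
  have k1 := Nat.right_le_pair c (M + K + 1)
  refine ⟨Nat.pair c (M + K + 1), by omega, fun q => ?_⟩
  simp only [Nat.unpair_pair, hc, Finsupp.onFinset_apply]
  by_cases hq : q ∈ hF.toFinset
  · have := hM ⟨q, hF.mem_toFinset.1 hq, rfl⟩
    dsimp only at this
    rw [if_pos hq, if_pos ⟨by omega, Nat.ceil_le.1 (by omega)⟩]
    exact (ha q).le
  · rw [if_neg hq, show d ℝ 0 = 0 from rfl, ite_self, zero_sub, abs_neg]
    exact (not_not.1 (hF.mem_toFinset.not.1 hq)).le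

lemma p2 {a b : ℕ} (h : a ≤ b) : (2 : ℝ) ^ a ≤ 2 ^ b := pow_le_pow_right₀ one_le_two h

lemma four (a : ℕ) : (4 : ℝ) ^ a = 2 ^ (2 * a) := by rw [pow_mul]; norm_num

lemma sum_bd {a : ℕ → ℝ} {i b c : ℕ} (h : ∀ l < i, |a l| ≤ 2 ^ b) (hi : i ≤ c) :
    |∑ l ∈ Finset.range i, a l| ≤ 2 ^ (b + c) := by
  refine (Finset.abs_sum_le_sum_abs _ _).trans ((Finset.sum_le_card_nsmul _ _ _ fun l hl =>
    h l (Finset.mem_range.1 hl)).trans ?_)
  rw [Finset.card_range, nsmul_eq_mul, pow_add, mul_comm]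
  exact mul_le_mul_of_nonneg_left (by exact_mod_cast hi.trans Nat.lt_two_pow_self.le)
    (by positivity)

lemma add3 {x y z : ℝ} {a : ℕ} (h1 : |x| ≤ 2 ^ a) (h2 : |y| ≤ 2 ^ a) (h3 : |z| ≤ 2 ^ (a + 1)) :
    |x + y + z| ≤ 2 ^ (a + 2) :=
  (abs_add_three _ _ _).trans (by rw [pow_succ] at h3; rw [pow_add]; linarith)

lemma prof {Y : ℝ} {G : ℕ × ℕ → ℝ} {b L I : ℕ} (hY : |Y| ≤ 2 ^ b) (hG : ∀ p, |G p| ≤ 2 ^ b)
    (h1 : ∀ i l, L < l → G (i, l) = 0) (h2 : ∀ i, L ≤ i → i < I → sm Y G i = 0)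
    (h3 : ∀ i l, L ≤ i → I ≤ i → G (i, l) = 0) (j : ℤ) (p : ℕ × ℕ) :
    |W j Y G p| ≤ 2 ^ (b + 5 * L + 3) / r j + if 0 < j then 2 ^ b / (I + 1 : ℝ) else 0 := by
  have h0 := r_pos j
  have h4 : (0 : ℝ) ≤ if 0 < j then 2 ^ b / (I + 1 : ℝ) else 0 := by positivity
  obtain ⟨i, _ | l⟩ := p
  · simp only [W]
    by_cases a : j ≤ i
    · rw [if_pos a, abs_div, abs_of_pos h0]
      exact le_add_of_le_of_nonneg (by gcongr; exact (hG _).trans (p2 (by omega))) h4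
    rw [if_neg a, abs_mul, abs_of_pos (ω_pos _ _)]
    by_cases c : i < L
    · refine le_add_of_le_of_nonneg ((mul_le_mul (ω_le (c := 2 * L) (by omega)) (add3 (a := b + L)
        (hY.trans (p2 (by omega))) ((hG _).trans (p2 (by omega))) (sum_bd (c := L + 1)
          (fun _ _ => hG _) (by omega))) (abs_nonneg _) (by positivity)).trans_eq ?_) h4
      rw [four]
      ring
    by_cases e : i < I
    · rw [h2 i (by omega) e, abs_zero, mul_zero]
      positivity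
    have k1 : (1 : ℝ) / (i + 1) / r (j - (2 * i + 2)) ≤ 1 / (I + 1) :=
      (div_le_self (by positivity) (one_le_pow₀ (by norm_num))).trans (by gcongr; omega)
    simp only [sm, h3 i _ (by omega) (by omega), Finset.sum_const_zero, add_zero]
    rw [if_pos (by omega), ω, add_mul, one_div_mul_eq_div]
    refine add_le_add (by gcongr; exact hY.trans (p2 (by omega))) ?_
    exact (mul_le_mul k1 hY (abs_nonneg _) (by positivity)).trans_eq (one_div_mul_eq_div _ _)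
  · simp only [W]
    refine le_add_of_le_of_nonneg ?_ h4
    by_cases a : L < l + 1
    · rw [h1 _ _ a, zero_div, abs_zero]
      positivity
    rw [abs_div, abs_of_pos (r_pos _), ← mul_one_div]
    refine (mul_le_mul (hG _) (inv_r (a := j) (c := L) (by omega)) (one_div_pos.2 (r_pos _)).le
      (by positivity)).trans ?_
    rw [← mul_div_assoc, four, ← pow_add]
    exact div_le_div_of_nonneg_right (p2 (by omega)) h0.le

lemma el (j : ℤ) (Y : ℝ) {G : ℕ × ℕ → ℝ} {R : ℕ} (h : ∀ i l, R ≤ i ∨ R ≤ l → G (i, l) = 0) :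
    ∃ x : X, r j * x.1 = Y ∧ U j x = G := by
  have := mul_div_cancel₀ Y (r_pos j).ne'
  refine ⟨(Y / r j, mk (W j Y G) (NC.c0' (C := 0) fun L => ⟨R + j.toNat + 1, fun i l a => ?_⟩)),
    this, U_W this fun _ => rfl⟩
  rcases l with _ | l
  · simp [W, h i 0 (by omega), show j ≤ i by omega]
  · simp [W, h i (l + 1) (by omega)]

lemma data {z : X} {κ : ℕ} {t : ℤ} (ht : t.natAbs < κ) (h1 : |z.1| ≤ 2 ^ κ)
    (h2 : ∀ p, |z.2 p| ≤ 2 ^ κ) (h3 : ∀ p, z.2 p ≠ 0 → p.1 + p.2 < κ) (I : ℕ) :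
    ∃ G : ℕ × ℕ → ℝ, (∃ R, ∀ i l, R ≤ i ∨ R ≤ l → G (i, l) = 0) ∧
      (∀ j p, |W j (r t * z.1) G p| ≤ 2 ^ (30 * κ) / r j +
        if 0 < j then 2 ^ (8 * κ) / (I + 1 : ℝ) else 0) ∧
      ∀ p, |W t (r t * z.1) G p - z.2 p| ≤ 1 / 2 ^ (2 * κ) := by
  have a1 : ∀ {a : ℤ} {c : ℝ} {n : ℕ}, a.natAbs ≤ n → |c| ≤ 2 ^ κ → |r a * c| ≤ 2 ^ (2 * n + κ) :=
    fun {a c n} h h' => by
      rw [abs_mul, abs_of_pos (r_pos _), pow_add, r, four]
      exact mul_le_mul (p2 (by omega)) h' (abs_nonneg _) (by positivity)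
  have a2 : ∀ i l, κ ≤ i + l → z.2 (i, l) = 0 := fun i l a => by_contra fun c => a.not_gt (h3 _ c)
  have a3 : ∀ i l, κ ≤ i ∨ κ ≤ l → U t z (i, l) = 0 := fun i l a => by
    rcases l with _ | l
    · simp [U, a2 i 0 (by omega), show t ≤ i by omega]
    · simp [U, a2 i (l + 1) (by omega)]
  have a4 : ∀ i l, |r (t - (l + 1 : ℕ)) * z.2 (i, l + 1)| ≤ 2 ^ (2 * (2 * κ - 2) + κ) := fun i l => by
    by_cases c : κ ≤ l + 1
    · simp [a2 i (l + 1) (by omega)]
    · exact a1 (by omega) (h2 _)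
  have a5 := a1 (n := κ - 1) (a := t) (by omega) h1
  have a6 : ∀ p, |U t z p| ≤ 2 ^ (6 * κ) := by
    rintro ⟨i, _ | l⟩
    · simp only [U]
      split_ifs with c
      · exact (a1 ht.le (h2 _)).trans (p2 (by omega))
      · rw [sub_eq_add_neg, sub_eq_add_neg]
        refine (add3 (a := 6 * κ - 3) ?_ ((abs_neg _).trans_le (a5.trans (p2 (by omega))))
          ((abs_neg _).trans_le ((sum_bd (c := κ) (fun l _ => a4 i l) (by omega)).trans
            (p2 (by omega))))).trans (p2 (by omega))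
        refine le_trans ?_ ((a1 (n := κ - 1) (a := t) (by omega) (h2 (i, 0))).trans (p2 (by omega)))
        rw [abs_div, abs_mul, abs_of_pos (ω_pos _ _), abs_of_pos (r_pos _), div_le_iff₀ (ω_pos _ _)]
        nlinarith [(div_le_iff₀ (r_pos _)).1 (ω_ge i t), abs_nonneg (z.2 (i, 0))]
    · exact (a4 i l).trans (p2 (by omega))
  let c : ℕ × ℕ → ℝ := fun p => if p.2 = 4 * κ ∧ 4 * κ ≤ p.1 ∧ p.1 < I then -(r t * z.1) else 0
  have c1 : ∀ p, |c p| ≤ 2 ^ (2 * (κ - 1) + κ) := fun p => by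
    simp only [c]
    split_ifs
    exacts [(abs_neg _).trans_le a5, by simp]
  refine ⟨fun p => U t z p + c p, ⟨4 * κ + I + 1, fun i l a => ?_⟩, fun j p => (prof
    (b := 6 * κ + 1) (L := 4 * κ) (I := I) (a5.trans (p2 (by omega))) (fun p => (abs_add_le _ _).trans
      ((add_le_add (a6 p) ((c1 p).trans (p2 (b := 6 * κ) (by omega)))).trans_eq (by ring)))
      (fun i l a => ?_) (fun i a b => ?_) (fun i l a b => ?_) j p).trans ?_, ?_⟩
  · simp only [c]
    rw [a3 i l (by omega), if_neg (by omega), add_zero]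
  · simp only [c]
    rw [a3 i l (by omega), if_neg (by omega), add_zero]
  · simp only [sm, c, a3 i _ (Or.inl (by omega)), zero_add]
    rw [if_neg (by omega), Finset.sum_eq_single_of_mem (4 * κ - 1) (Finset.mem_range.2 (by omega))
      fun l _ e => if_neg (by omega), if_pos (by omega)]
    ring
  · simp only [c]
    rw [a3 i l (by omega), if_neg (by omega), add_zero]
  · have := r_pos j
    split_ifs <;> gcongr <;> first | exact one_le_two | omega
  · intro p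
    rw [← W_U t z p]
    obtain ⟨i, _ | l⟩ := p
    · simp only [W, sm, c]
      rw [if_neg (show ¬(0 = 4 * κ ∧ _) by omega), add_zero]
      by_cases a : t ≤ i
      · simp [a]
      · simp [a, show ¬4 * κ ≤ i by omega]
    · simp only [W]
      rw [← sub_div, add_sub_cancel_left]
      by_cases a : l + 1 = 4 * κ
      · rw [r, four]
        exact dv (𝕜 := ℝ) ((c1 _).trans_eq (mul_one _).symm) (by omega)
      · simp [c, a]

lemma nle {x y : X} {C : ℝ} (h1 : |x.1 - y.1| ≤ C) (h2 : ∀ p, |x.2 p - y.2 p| ≤ C) : ‖x - y‖ ≤ C :=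
  max_le h1 (norm_le _ ((abs_nonneg _).trans h1) h2)

lemma sumZ : Summable fun j : ℤ => (1 : ℝ) / 2 ^ j.natAbs :=
  Summable.of_nat_of_neg (by simpa using summable_geometric_two)
    (by simpa using summable_geometric_two)

theorem fhc : ∃ x : E, ∀ V : Set E, IsOpen V → V.Nonempty → ∃ δ : ℝ, 0 < δ ∧ ∃ N₀ : ℕ, ∀ N, N₀ ≤ N →
    δ * N ≤ ({n : ℕ | 1 ≤ n ∧ n ≤ N ∧ (σ ^ n) x ∈ V}.ncard : ℕ) := by
  classical
  obtain ⟨P, p1, p3, p4⟩ := exists_pp fun q : ℤ × Option (ℕ × ℕ) =>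
    q.1.natAbs + q.2.elim 0 fun p => p.1 + p.2
  have hz : ∀ (κ : ℕ) (t : ℤ), ∃ z : X, z.1 = P κ (t, none) / 2 ^ t.natAbs ∧
      ∀ p, z.2 p = P κ (t, some p) / 2 ^ t.natAbs := fun κ t => ⟨(_, mk _ (NC.c0' (C := 0) fun L =>
    ⟨κ, fun i l a => by
      change ‖P κ (t, some (i, l)) / _‖ ≤ _
      rw [show P κ (t, some (i, l)) = 0 from by_contra fun c => by
        have := p3 _ _ c; simp at this; omega]
      simp⟩)), rfl, fun _ => rfl⟩
  choose z z1 z2 using hz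
  have z3 : ∀ κ q (n : ℕ), |P κ q / 2 ^ n| ≤ 2 ^ κ := fun κ q n => by
    rw [abs_div, abs_of_pos (a := (2 : ℝ) ^ n) (by positivity)]
    exact (div_le_self (abs_nonneg _) (one_le_pow₀ one_le_two)).trans (p1 _ _)
  have hx : ∀ m : ℤ, ∃ x : X, (x = 0 ∧ ∀ k μ (s : ℕ), Blk k μ s → ¬(m - s).natAbs < k / 8) ∨
      ∃ k μ, ∃ s : ℕ, Blk k μ s ∧ (m - s).natAbs < k / 8 ∧ r m * x.1 = r (m - s) * (z (k / 8) (m - s)).1 ∧
      (∀ j p, |W j (r m * x.1) (U m x) p| ≤ 2 ^ (30 * (k / 8)) / r j + if 0 < j then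
        2 ^ (8 * (k / 8)) / ((2 ^ (8 * (k / 8) + m.toNat) : ℕ) + 1 : ℝ) else 0) ∧
      ∀ p, |W (m - s) (r m * x.1) (U m x) p - (z (k / 8) (m - s)).2 p| ≤ 1 / 2 ^ (2 * (k / 8)) := by
    intro m
    by_cases a : ∃ k μ, ∃ s : ℕ, Blk k μ s ∧ (m - s).natAbs < k / 8
    · obtain ⟨k, μ, s, a1, a2⟩ := a
      obtain ⟨G, ⟨R, b1⟩, b2, b3⟩ := data (z := z (k / 8) (m - s)) a2 (z1 _ _ ▸ z3 _ _ _)
        (fun p => z2 _ _ _ ▸ z3 _ _ _) (fun p c => by
          have := p3 _ _ (div_ne_zero_iff.1 (z2 _ _ _ ▸ c)).1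
          simp at this
          omega) (2 ^ (8 * (k / 8) + m.toNat))
      obtain ⟨x, b4, rfl⟩ := el m (r (m - s) * (z (k / 8) (m - s)).1) b1
      exact ⟨x, Or.inr ⟨k, μ, s, a1, a2, b4, b4 ▸ b2, b4 ▸ b3⟩⟩
    · exact ⟨0, Or.inl ⟨rfl, fun k μ s b c => a ⟨k, μ, s, b, c⟩⟩⟩
  choose x hx using hx
  have far : ∀ (s₀ κ : ℕ) (j : ℤ) (y : X), κ ≤ s₀ → r j * y.1 = r (j + s₀) * (x (j + s₀)).1 →
      U j y = U (j + s₀) (x (j + s₀)) → (∀ k μ (s : ℕ), Blk k μ s → (j + s₀ - s).natAbs < k / 8 →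
        30 * (k / 8) + κ ≤ j.natAbs) → ‖y‖ ≤ 2 / 2 ^ κ * (1 / 2 ^ j.natAbs) := by
    intro s₀ κ j y a1 a2 a3 a4
    rcases hx (j + s₀) with ⟨b1, -⟩ | ⟨k, μ, s, b1, b2, b3, b4, -⟩
    · rw [b1] at a2 a3
      rw [ext' (j := j) (y := 0) (by simpa [(r_pos j).ne'] using a2) (a3.trans (by
        ext ⟨i, _ | l⟩ <;> simp [U])), norm_zero]
      positivity
    have c1 := a4 k μ s b1 b2
    have c2 : (2 : ℝ) ^ (30 * (k / 8)) / r j ≤ 1 / 2 ^ (κ + j.natAbs) := by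
      rw [r, four]
      exact (le_abs_self _).trans (dv (𝕜 := ℝ) (i := 30 * (k / 8)) (by simp) (by omega))
    have c3 : (if 0 < j then 2 ^ (8 * (k / 8)) / ((2 ^ (8 * (k / 8) + (j + s₀).toNat) : ℕ) + 1 : ℝ)
        else 0) ≤ 1 / 2 ^ (κ + j.natAbs) := by
      split_ifs
      · rw [div_le_div_iff₀ (by positivity) (by positivity), ← pow_add, one_mul, Nat.cast_pow]
        exact le_add_of_le_of_nonneg (p2 (by omega)) zero_le_one
      · positivity
    have c4 : (2 : ℝ) / 2 ^ κ * (1 / 2 ^ j.natAbs) = 1 / 2 ^ (κ + j.natAbs) + 1 / 2 ^ (κ + j.natAbs) := by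
      rw [pow_add]
      ring
    rw [c4, ← sub_zero y]
    refine nle ?_ fun p => ?_
    · rw [Prod.fst_zero, sub_zero, ← mul_div_cancel_left₀ y.1 (r_pos j).ne', a2, b3, abs_div,
        abs_of_pos (r_pos j), abs_mul, abs_of_pos (r_pos _), z1, r, four]
      refine le_add_of_le_of_nonneg (le_trans ?_ c2) (by positivity)
      have := r_pos j
      gcongr
      exact (mul_le_mul_of_nonneg_left (z3 _ _ _) (by positivity)).trans
        ((pow_add _ _ _).ge.trans (p2 (by omega)))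
    · rw [Prod.snd_zero, ZeroAtInftyContinuousMap.zero_apply, sub_zero, ← W_U j, a2, a3]
      exact (b4 j p).trans (add_le_add c2 c3)
  refine ⟨⟨x, mem1 (sumZ.mul_left _) fun m => far 0 0 m _ le_rfl (by simp) (by simp)
    fun k μ s a b => ?_⟩, fun V hV ⟨f, hf⟩ => ?_⟩
  · have := four_le μ
    have := a.two
    have := a.2.2.2.1
    omega
  obtain ⟨ε, hε, h1⟩ := Metric.isOpen_iff.1 hV f hf
  obtain ⟨s, hs⟩ := ((lp.hasSum_single (by norm_num) f).eventually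
    (Metric.ball_mem_nhds f (half_pos hε))).exists
  generalize hg : ∑ i ∈ s, lp.single 1 i (f i) = g at hs
  have g1 : ∀ t ∉ s, (g : E) t = 0 := fun t a => by
    rw [← hg, lp.coeFn_sum, Finset.sum_apply]
    exact Finset.sum_eq_zero fun i hi => lp.single_apply_ne _ _ _ fun e => a (e ▸ hi)
  obtain ⟨η, hη, h2⟩ := exists_pos_mul_lt (half_pos hε) (∑' j : ℤ, (1 : ℝ) / 2 ^ j.natAbs)
  obtain ⟨K, hK⟩ := eventually_atTop.1 ((tendsto_const_nhds.div_atTop
    (tendsto_pow_atTop_atTop_of_one_lt (r := (2 : ℝ)) one_lt_two) (a := 2)).eventually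
      (ge_mem_nhds (half_pos hη)))
  obtain ⟨κ, k1, k2⟩ := p4 (fun q => 2 ^ q.1.natAbs * q.2.elim (g q.1).1 (g q.1).2) _ (half_pos hη)
    ((s.finite_toSet.biUnion fun t _ => (Set.finite_singleton t).prod
      (((eventually_cofinite.1 (NormedAddGroup.tendsto_nhds_zero.1 (by
        simpa using (tends (g t).2).const_mul (2 ^ t.natAbs)) _ (half_pos hη))).image some).insert
          none)).subset (by
      rintro ⟨t, o⟩ a
      refine Set.mem_iUnion₂.2 ⟨t, by_contra fun c => a ?_, rfl, ?_⟩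
      · rcases o with _ | p <;> simpa [g1 t c] using hη
      · rcases o with _ | p
        exacts [Or.inl rfl, Or.inr ⟨p, a, rfl⟩])) K
  obtain ⟨δ, d1, N₀, d2⟩ := cnt_low (8 * κ) 0
  refine ⟨δ, d1, N₀, fun N hN => d2 N hN _ fun n μ a => h1 ((dist_triangle _ g _).trans_lt
    ((add_lt_add_of_le_of_lt (b := ε / 2) ?_ hs).trans_eq (add_halves ε)))⟩
  rw [dist_eq_norm]
  refine (hasSum_le (fun j => ?_) (hasSum_norm _) (sumZ.hasSum.mul_left η)).trans
    ((mul_comm _ _).trans_le h2.le)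
  obtain ⟨e1, e2⟩ := σ_pow n ⟨x, _⟩ j
  rw [lp.coeFn_sub, Pi.sub_apply]
  generalize (σ ^ n) _ j = y at e1 e2
  change _ = _ * (x _).1 at e1
  change _ = U _ (x _) at e2
  have e3 : ∀ (o) (c : ℝ), |P κ (j, o) - 2 ^ j.natAbs * c| ≤ η / 2 →
      |P κ (j, o) / 2 ^ j.natAbs - c| ≤ η / 2 * (1 / 2 ^ j.natAbs) := fun o c h => by
    rw [div_sub' (by positivity), abs_div, abs_of_pos (a := (2 : ℝ) ^ _) (by positivity),
      mul_one_div]
    gcongr
  have e4 : ‖z κ j - g j‖ ≤ η / 2 * (1 / 2 ^ j.natAbs) :=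
    nle (z1 _ _ ▸ e3 _ _ (k2 (j, none))) fun p => z2 _ _ _ ▸ e3 _ _ (k2 (j, some p))
  have e5 : ‖y - z κ j‖ ≤ 2 / 2 ^ κ * (1 / 2 ^ j.natAbs) := by
    have f1 := four_le (8 * κ)
    have f2 : ∀ k μ' (s : ℕ), Blk k μ' s → s = n ∧ k = 8 * κ ∨
        s + 4 * k ≤ n ∧ s + 32 * κ ≤ n ∨ n + 4 * k ≤ s ∧ n + 32 * κ ≤ s := fun k μ' s b => by
      have := four_le k
      rcases lt_trichotomy s n with l | rfl | l
      · have := b.sep a l
        omega
      · exact Or.inl ⟨rfl, b.cls_eq a⟩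
      · have := Blk.sep a b l
        omega
    by_cases c : j.natAbs < κ
    · rcases hx (j + n) with ⟨-, b⟩ | ⟨k, μ', s, b1, b2, b3, -, b4⟩
      · exact absurd (by omega) (b _ μ n a)
      obtain ⟨rfl, rfl⟩ := (f2 k μ' s b1).resolve_right (by omega)
      rw [add_sub_cancel_right, Nat.mul_div_cancel_left _ (by norm_num)] at b3 b4
      rw [← e1, ← e2] at b4
      refine nle ?_ fun p => (W_U j y p ▸ b4 p).trans ?_
      · rw [mul_left_cancel₀ (r_pos j).ne' (e1.trans b3), sub_self, abs_zero]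
        positivity
      · rw [div_mul_div_comm, ← pow_add]
        gcongr
        exacts [by norm_num, one_le_two, by omega]
    · have f3 : ∀ o, P κ (j, o) = 0 := fun o => by_contra fun b => by
        have := p3 _ _ b
        omega
      have f4 := four_le μ
      have f5 := a.two
      have f6 := a.2.2.2.1
      rw [show z κ j = 0 from Prod.ext (by simp [z1, f3]) (ZeroAtInftyContinuousMap.ext fun p => by
        simp [z2, f3]), sub_zero]
      exact far n κ j y (by omega) e1 e2 fun k μ' s b1 b2 => by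
        have := f2 k μ' s b1
        omega
  have e6 := mul_le_mul_of_nonneg_right (hK κ k1) (show (0 : ℝ) ≤ 1 / 2 ^ j.natAbs by positivity)
  linarith [norm_sub_le_norm_sub_add_norm_sub y (z κ j) (g j)]

end Pool.Agent.H32.SO
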