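import Mathlib

set_option autoImplicit false

namespace Pool.Agent.H32.Sph

open MeasureTheory Finset Filter Topology Complex
open scoped ComplexConjugate

noncomputable section

abbrev UG (N : ℕ) := Matrix.unitaryGroup (Fin (N + 1)) ℂ

variable {N : ℕ}

def u (U : UG N) (i : Fin (N + 1)) : ℂ := U.1 i 0

lemma u_cont (i : Fin (N + 1)) : Continuous fun U : UG N => u U i :=
  continuous_subtype_val.matrix_elem i 0

lemma u_le (U : UG N) (i : Fin (N + 1)) : ‖u U i‖ ≤ 1 := entry_norm_bound_of_unitary U.2 i 0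

lemma u_sum (U : UG N) : ∑ i, u U i * conj (u U i) = 1 := by
  have h := congrFun (congrFun (Matrix.mem_unitaryGroup_iff'.1 U.2) 0) 0
  rw [Matrix.mul_apply, Matrix.one_apply_eq] at h
  rw [← h]
  exact sum_congr rfl fun i _ => by simp [u, mul_comm]

lemma exists_row (c : Fin (N + 1) → ℂ) (hc : ∑ i, ‖c i‖ ^ 2 = 1) :
    ∃ V : UG N, ∀ i, V.1 0 i = c i := by
  have h1 : Orthonormal ℂ (({0} : Set (Fin (N + 1))).domRestrict
      fun _ => (WithLp.toLp 2 c : EuclideanSpace ℂ (Fin (N + 1)))) := by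
    refine ⟨fun _ => ?_, fun i j hij => absurd (Subsingleton.elim i j) hij⟩
    simp only [Set.domRestrict_apply, EuclideanSpace.norm_eq]
    rw [hc, Real.sqrt_one]
  obtain ⟨b, hb⟩ := h1.exists_orthonormalBasis_extension_of_card_eq (by simp)
  refine ⟨⟨Matrix.of fun i j => b i j, Matrix.mem_unitaryGroup_iff.2 ?_⟩, fun i => ?_⟩
  · ext i j
    have := orthonormal_iff_ite.1 b.orthonormal j i
    rw [Matrix.mul_apply, Matrix.one_apply]
    simp only [PiLp.inner_apply, RCLike.inner_apply] at this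
    simp only [Matrix.of_apply, Matrix.star_apply, RCLike.star_def, this, eq_comm]
  · simp [hb 0 rfl]

variable [MeasurableSpace (UG N)] [BorelSpace (UG N)] {m : Measure (UG N)} [IsProbabilityMeasure m]
  [m.IsMulLeftInvariant]

omit [m.IsMulLeftInvariant] in
lemma intg {F : UG N → ℂ} (hF : Continuous F) (C : ℝ) (h : ∀ U, ‖F U‖ ≤ C) : Integrable F m :=
  Integrable.of_bound hF.aestronglyMeasurable C (ae_of_all _ h)

omit [IsProbabilityMeasure m] in
lemma inv_row (c : Fin (N + 1) → ℂ) (hc : ∑ i, ‖c i‖ ^ 2 = 1) (F : ℂ → ℂ) :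
    ∫ U, F (∑ i, c i * u U i) ∂m = ∫ U, F (u U 0) ∂m := by
  obtain ⟨V, hV⟩ := exists_row c hc
  rw [← integral_mul_left_eq_self (fun U => F (u U 0)) V]
  congr 1
  funext U
  congr 1
  simp [u, Matrix.mul_apply, hV]

def mono (K : ℕ) (j : Fin (N + 1)) (p q : ℕ) (U : UG N) : ℂ :=
  u U j ^ p * u U 0 ^ (K - p) * (conj (u U j) ^ q * conj (u U 0) ^ (K - q))

omit [m.IsMulLeftInvariant] in
lemma mono_int (K : ℕ) (j : Fin (N + 1)) (p q : ℕ) : Integrable (mono K j p q) m := by
  refine intg ?_ 1 fun U => ?_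
  · have := u_cont j
    have := u_cont (N := N) 0
    unfold mono
    fun_prop
  · simp only [mono, norm_mul, norm_pow, RCLike.norm_conj]
    have h1 := u_le U j
    have h2 := u_le U 0
    refine mul_le_one₀ (mul_le_one₀ ?_ (by positivity) ?_) (by positivity)
      (mul_le_one₀ ?_ (by positivity) ?_) <;> exact pow_le_one₀ (norm_nonneg _) (by assumption)

omit [IsProbabilityMeasure m] in
lemma phase (K : ℕ) {j : Fin (N + 1)} (hj : j ≠ 0) {p q : ℕ} (h : p ≠ q) :
    ∫ U, mono K j p q U ∂m = 0 := by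
  set θ : ℝ := Real.pi / ((p : ℝ) - q) with hθ
  have hpq : (p : ℝ) - q ≠ 0 := sub_ne_zero.2 (by exact_mod_cast h)
  set w : ℂ := exp (θ * I) with hw
  have w1 : w * conj w = 1 := by rw [mul_conj, normSq_eq_norm_sq, hw, norm_exp_ofReal_mul_I]; simp
  have w2 : w ^ p * conj w ^ q = -1 := by
    rw [hw, ← exp_conj, ← exp_nat_mul, ← exp_nat_mul, ← exp_add, ← exp_pi_mul_I]
    congr 1
    have : (θ : ℂ) * (p - q) = Real.pi := by
      have h3 : θ * ((p : ℝ) - q) = Real.pi := by rw [hθ]; field_simp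
      exact_mod_cast congrArg ofReal h3
    simp only [map_mul, conj_ofReal, conj_I]
    rw [← this]; ring
  have hD : Matrix.diagonal (fun i => if i = j then w else 1) ∈ Matrix.unitaryGroup (Fin (N + 1)) ℂ := by
    rw [Matrix.mem_unitaryGroup_iff, Matrix.star_eq_conjTranspose, Matrix.diagonal_conjTranspose,
      Matrix.diagonal_mul_diagonal, ← Matrix.diagonal_one]
    congr 1
    funext i
    by_cases hi : i = j <;> simp [hi, w1]
  have h1 := integral_mul_left_eq_self (μ := m) (mono K j p q) ⟨_, hD⟩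
  have e : ∀ U : UG N, mono K j p q (⟨_, hD⟩ * U) = -mono K j p q U := by
    intro U
    have e1 : u (⟨_, hD⟩ * U) j = w * u U j := by simp [u, Matrix.diagonal_mul]
    have e2 : u (⟨_, hD⟩ * U) 0 = u U 0 := by simp [u, Matrix.diagonal_mul, hj.symm]
    simp only [mono, e1, e2, map_mul, mul_pow]
    linear_combination (u U j ^ p * u U 0 ^ (K - p) * (conj (u U j) ^ q * conj (u U 0) ^ (K - q))) * w2
  simp only [e, integral_neg] at h1
  linear_combination (-1 / 2 : ℂ) * h1

def mom (m : Measure (UG N)) (K : ℕ) : ℂ := ∫ U, (u U 0 * conj (u U 0)) ^ K ∂m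

lemma poly (K : ℕ) {j : Fin (N + 1)} (hj : j ≠ 0) (t : ℝ) :
    ∑ p ∈ range (K + 1), ((K.choose p : ℂ) ^ 2 * ∫ U, mono K j p p U ∂m) * ((t : ℂ) ^ 2) ^ p =
      mom m K * (1 + (t : ℂ) ^ 2) ^ K := by
  set s : ℝ := √(1 + t ^ 2) with hs
  have s0 : 0 < s := Real.sqrt_pos.2 (by positivity)
  have s2 : s ^ 2 = 1 + t ^ 2 := Real.sq_sqrt (by positivity)
  have s3 : (s : ℂ) ^ 2 = 1 + (t : ℂ) ^ 2 := by exact_mod_cast s2
  have s4 : (s : ℂ) ≠ 0 := by exact_mod_cast s0.ne'
  set c : Fin (N + 1) → ℂ := fun i => ((if i = 0 then 1 / s else 0) + (if i = j then t / s else 0) : ℝ)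
    with hc
  have c1 : ∑ i, ‖c i‖ ^ 2 = 1 := by
    have e : ∀ i, ‖c i‖ ^ 2 = (if i = 0 then (1 / s) ^ 2 else 0) + (if i = j then (t / s) ^ 2 else 0) := by
      intro i
      simp only [hc, norm_real, Real.norm_eq_abs, sq_abs]
      by_cases h0 : i = 0
      · subst h0; simp [hj.symm]
      · by_cases h1 : i = j <;> simp [h0, h1, hj]
    simp only [e, sum_add_distrib, sum_ite_eq', mem_univ, if_true]
    field_simp
    linarith
  have c2 : ∀ U : UG N, ∑ i, c i * u U i = (t * u U j + u U 0) / s := by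
    intro U
    simp only [hc]
    push_cast
    simp only [apply_ite ofReal, add_mul, ite_mul, sum_add_distrib, ofReal_zero, zero_mul,
      sum_ite_eq', mem_univ, if_true]
    push_cast
    ring
  have h1 := inv_row (m := m) c c1 fun x => (x * conj x) ^ K
  have e : ∀ U : UG N, ((∑ i, c i * u U i) * conj (∑ i, c i * u U i)) ^ K =
      (∑ p ∈ range (K + 1), ∑ q ∈ range (K + 1),
        ((t : ℂ) ^ p * t ^ q * K.choose p * K.choose q) * mono K j p q U) / (1 + (t : ℂ) ^ 2) ^ K := by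
    intro U
    rw [c2, map_div₀, conj_ofReal, div_mul_div_comm, ← sq, s3, div_pow, mul_pow, map_add, map_mul,
      conj_ofReal, add_pow, add_pow, sum_mul_sum]
    congr 1
    refine sum_congr rfl fun p _ => sum_congr rfl fun q _ => ?_
    simp only [mono, mul_pow]
    ring
  simp only [e] at h1
  have s5 : (1 + (t : ℂ) ^ 2) ^ K ≠ 0 := pow_ne_zero _ (by rw [← s3]; exact pow_ne_zero _ s4)
  rw [integral_div, div_eq_iff s5, integral_finsetSum _ fun p _ =>
    integrable_finsetSum _ fun q _ => (mono_int K j p q).const_mul _] at h1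
  rw [mom, ← h1]
  refine sum_congr rfl fun p hp => ?_
  rw [integral_finsetSum _ fun q _ => (mono_int K j p q).const_mul _, sum_eq_single p]
  · rw [integral_const_mul]; ring
  · intro q _ hq
    rw [integral_const_mul, phase K hj (Ne.symm hq), mul_zero]
  · intro h; exact absurd hp h

lemma coef (k : ℕ) {j : Fin (N + 1)} (hj : j ≠ 0) :
    ((k : ℂ) + 1) * ∫ U, mono (k + 1) j 1 1 U ∂m = mom m (k + 1) := by
  have h : (∑ p ∈ range (k + 1 + 1), Polynomial.C (((k + 1).choose p : ℂ) ^ 2 *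
      ∫ U, mono (k + 1) j p p U ∂m) * Polynomial.X ^ p) =
      Polynomial.C (mom m (k + 1)) * (1 + Polynomial.X) ^ (k + 1) := by
    refine Polynomial.eq_of_infinite_eval_eq _ _ (Set.infinite_of_injective_forall_mem
      (f := fun n : ℕ => ((n : ℝ) : ℂ) ^ 2) (fun a b hab => ?_) fun n => ?_)
    · have h1 : ((a : ℝ) : ℂ) ^ 2 = ((b : ℝ) : ℂ) ^ 2 := hab
      have : (a : ℝ) ^ 2 = (b : ℝ) ^ 2 := by exact_mod_cast h1
      have h2 : a ^ 2 = b ^ 2 := by exact_mod_cast this
      exact Nat.pow_left_injective (by norm_num) h2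
    · have := poly (m := m) (k + 1) hj n
      simp only [Set.mem_ofPred_eq, Polynomial.eval_finsetSum, Polynomial.eval_mul,
        Polynomial.eval_C, Polynomial.eval_pow, Polynomial.eval_X, Polynomial.eval_add,
        Polynomial.eval_one]
      exact this
  have h2 := congrArg (fun P => Polynomial.coeff P 1) h
  simp only [Polynomial.finsetSum_coeff, Polynomial.coeff_C_mul, Polynomial.coeff_X_pow,
    Polynomial.coeff_one_add_X_pow, mul_ite, mul_one, mul_zero, sum_ite_eq, mem_range,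
    Nat.choose_one_right] at h2
  rw [if_pos (by omega)] at h2
  push_cast at h2
  have hk : (k : ℂ) + 1 ≠ 0 := by exact_mod_cast Nat.succ_ne_zero k
  refine mul_left_cancel₀ hk ?_
  linear_combination h2

lemma mom_rec (k : ℕ) : mom m (k + 1) * (N + k + 1) = (k + 1) * mom m k := by
  have e : ∀ U : UG N, (u U 0 * conj (u U 0)) ^ k = ∑ j, mono (k + 1) j 1 1 U := by
    intro U
    simp only [mono, Nat.add_sub_cancel, pow_one]
    rw [← mul_one ((u U 0 * conj (u U 0)) ^ k), ← u_sum U, mul_sum]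
    exact sum_congr rfl fun j _ => by rw [mul_pow]; ring
  have h0 : ∫ U, mono (k + 1) 0 1 1 U ∂m = mom m (k + 1) := by
    refine integral_congr_ae (ae_of_all _ fun U => ?_)
    simp only [mono, Nat.add_sub_cancel, pow_one]
    ring
  have h1 : mom m k = ∑ j, ∫ U, mono (k + 1) j 1 1 U ∂m := by
    rw [mom, ← integral_finsetSum _ fun j _ => mono_int _ j 1 1]
    simp only [e]
  rw [h1, Fin.sum_univ_succ, h0, mul_add ((k : ℂ) + 1), mul_sum,
    sum_congr rfl fun j _ => coef (m := m) k (Fin.succ_ne_zero j)]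
  simp
  ring

lemma mom_eq (k : ℕ) : mom m k = k.factorial * N.factorial / (N + k).factorial := by
  induction k with
  | zero =>
    have : (N.factorial : ℂ) ≠ 0 := by exact_mod_cast N.factorial_ne_zero
    simp [mom, this]
  | succ k ih =>
    have h := mom_rec (m := m) k
    have h1 : (N : ℂ) + k + 1 ≠ 0 := by exact_mod_cast (by omega : N + k + 1 ≠ 0)
    have h2 : ((N + k).factorial : ℂ) ≠ 0 := by exact_mod_cast (N + k).factorial_ne_zero
    rw [ih, ← eq_div_iff h1] at h
    rw [h, ← add_assoc, Nat.factorial_succ, Nat.factorial_succ]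
    push_cast
    field_simp

def S (N : ℕ) (w : ℂ) : ℂ := ∑ j ∈ range N, w ^ j / j.factorial

lemma closed {w : ℂ} (hw : w ≠ 0) :
    ∫ U, exp (w * (u U 0 * conj (u U 0))) ∂m = N.factorial * (exp w - S N w) / w ^ N := by
  have hb : ∀ (k : ℕ) (U : UG N), ‖(w * (u U 0 * conj (u U 0))) ^ k / k.factorial‖
      ≤ ‖w‖ ^ k / k.factorial := by
    intro k U
    rw [norm_div, norm_pow, Complex.norm_natCast]
    refine div_le_div_of_nonneg_right (pow_le_pow_left₀ (norm_nonneg _) ?_ _) (by positivity)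
    rw [norm_mul, norm_mul, RCLike.norm_conj]
    exact mul_le_of_le_one_right (norm_nonneg _) (mul_le_one₀ (u_le U 0) (norm_nonneg _) (u_le U 0))
  have hc := u_cont (N := N) 0
  have h1 := hasSum_integral_of_summable_integral_norm (μ := m)
    (F := fun (k : ℕ) (U : UG N) => (w * (u U 0 * conj (u U 0))) ^ k / k.factorial)
    (fun k => intg (by fun_prop) _ (hb k))
    (Summable.of_nonneg_of_le (fun k => integral_nonneg fun _ => norm_nonneg _) (fun k => by
      have := integral_mono (intg (m := m) (F := fun U => (w * (u U 0 * conj (u U 0))) ^ k / k.factorial)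
        (by fun_prop) _ (hb k)).norm (integrable_const _) (hb k)
      simpa using this) (Real.summable_pow_div_factorial ‖w‖))
  have e1 : ∀ U : UG N, ∑' k : ℕ, (w * (u U 0 * conj (u U 0))) ^ k / k.factorial =
      exp (w * (u U 0 * conj (u U 0))) := fun U => by
    rw [exp_eq_exp_ℂ]; exact (NormedSpace.expSeries_div_hasSum_exp _).tsum_eq
  have e2 : ∀ k : ℕ, ∫ U, (w * (u U 0 * conj (u U 0))) ^ k / k.factorial ∂m =
      N.factorial * (w ^ (k + N) / (k + N).factorial) / w ^ N := by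
    intro k
    simp only [mul_pow w]
    rw [integral_div, integral_const_mul, ← mom, mom_eq, add_comm k N, pow_add]
    have h2 : ((N + k).factorial : ℂ) ≠ 0 := by exact_mod_cast (N + k).factorial_ne_zero
    have h3 : (k.factorial : ℂ) ≠ 0 := by exact_mod_cast k.factorial_ne_zero
    field_simp
  simp only [e1, e2] at h1
  have h4 := (hasSum_nat_add_iff' N).2 (NormedSpace.expSeries_div_hasSum_exp w)
  rw [← exp_eq_exp_ℂ] at h4
  exact h1.unique ((h4.mul_left _).div_const _)

omit [MeasurableSpace (UG N)] [BorelSpace (UG N)] in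
lemma hd_S (N : ℕ) (w : ℂ) : HasDerivAt (S N) (S (N - 1) w) w := by
  cases N with
  | zero =>
    have : S 0 = fun _ => 0 := by funext; simp [S]
    rw [this]
    simpa [S] using hasDerivAt_const w (0 : ℂ)
  | succ N =>
    have h := HasDerivAt.fun_sum (u := range (N + 1)) fun (j : ℕ) _ =>
      (hasDerivAt_pow j w).div_const (j.factorial : ℂ)
    refine h.congr_deriv ?_
    rw [sum_range_succ', S]
    simp only [Nat.cast_zero, zero_mul, zero_div, add_zero, Nat.add_sub_cancel]
    refine sum_congr rfl fun j _ => ?_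
    have h2 : (j.factorial : ℂ) ≠ 0 := by exact_mod_cast j.factorial_ne_zero
    have h3 : (j : ℂ) + 1 ≠ 0 := by exact_mod_cast Nat.succ_ne_zero j
    rw [Nat.factorial_succ]
    push_cast
    field_simp

omit [MeasurableSpace (UG N)] [BorelSpace (UG N)] in
lemma S_le {z : ℂ} (hz : 1 ≤ ‖z‖) {M : ℕ} (hM : M ≤ N + 1) :
    ‖S M ((N + 1) * z) / exp ((N + 1) * z)‖ ≤ (Real.exp 1 * ‖z‖ / Real.exp z.re) ^ (N + 1) := by
  have e1 : ((N : ℂ) + 1) = ((N + 1 : ℕ) : ℂ) := by push_cast; ring
  rw [norm_div, e1, exp_nat_mul, norm_pow, norm_exp, div_pow]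
  refine div_le_div_of_nonneg_right ((norm_sum_le _ _).trans ?_) (by positivity)
  have h1 := Real.sum_le_exp_of_nonneg (x := ((N + 1 : ℕ) : ℝ)) (by positivity) M
  rw [mul_pow, ← Real.exp_nat_mul, mul_one]
  refine le_trans ?_ (mul_le_mul_of_nonneg_right h1 (by positivity))
  rw [sum_mul]
  refine sum_le_sum fun j hj => ?_
  rw [norm_div, norm_pow, norm_mul, Complex.norm_natCast, Complex.norm_natCast, mul_pow,
    div_mul_eq_mul_div]
  refine div_le_div_of_nonneg_right (mul_le_mul_of_nonneg_left ?_ (by positivity)) (by positivity)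
  exact pow_le_pow_right₀ hz (by have := mem_range.1 hj; omega)

lemma ratio {z : ℂ} (hz : z ≠ 0) (h : S N ((N + 1) * z) / exp ((N + 1) * z) ≠ 1) :
    deriv (fun ζ : ℂ => ∫ U, exp ((N + 1) * ζ * (u U 0 * conj (u U 0))) ∂m) z /
      ((N + 1) * ∫ U, exp ((N + 1) * z * (u U 0 * conj (u U 0))) ∂m) =
    (1 - S (N - 1) ((N + 1) * z) / exp ((N + 1) * z)) / (1 - S N ((N + 1) * z) / exp ((N + 1) * z))
      - (N / (N + 1)) / z := by
  have hN : (N : ℂ) + 1 ≠ 0 := by exact_mod_cast Nat.succ_ne_zero N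
  have hw : ((N : ℂ) + 1) * z ≠ 0 := mul_ne_zero hN hz
  have e : (fun ζ : ℂ => ∫ U, exp ((N + 1) * ζ * (u U 0 * conj (u U 0))) ∂m) =ᶠ[𝓝 z]
      fun ζ => N.factorial * (exp ((N + 1) * ζ) - S N ((N + 1) * ζ)) / ((N + 1) * ζ) ^ N :=
    (eventually_ne_nhds hz).mono fun ζ hζ => closed (mul_ne_zero hN hζ)
  have d0 : HasDerivAt (fun ζ : ℂ => ((N : ℂ) + 1) * ζ) (N + 1) z := by
    simpa using (hasDerivAt_id z).const_mul ((N : ℂ) + 1)
  have d1 := (((d0.cexp.sub ((hd_S N _).comp z d0)).const_mul (N.factorial : ℂ)).div (d0.pow N)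
    (pow_ne_zero _ hw)).deriv
  rw [e.deriv_eq, closed hw]
  refine (congrArg (· / _) d1).trans ?_
  have h2 : (N.factorial : ℂ) ≠ 0 := by exact_mod_cast N.factorial_ne_zero
  have h3 := exp_ne_zero ((N + 1) * z)
  have h4 : exp ((N + 1) * z) - S N ((N + 1) * z) ≠ 0 := fun e => h (by
    rw [div_eq_one_iff_eq h3]; linear_combination -e)
  simp only [Pi.sub_apply, Pi.pow_apply, Function.comp]
  cases N with
  | zero => simp [S]
  | succ N =>
    simp only [Nat.add_sub_cancel] at *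
    push_cast at *
    generalize exp ((N + 1 + 1) * z) = x at *
    generalize S (N + 1) ((N + 1 + 1) * z) = y at *
    generalize S N ((N + 1 + 1) * z) = y' at *
    rw [pow_succ ((↑N + 1 + 1) * z) N]
    have h5 : ((N + 1 + 1) * z) ^ N ≠ 0 := pow_ne_zero _ hw
    generalize ((N + 1 + 1) * z) ^ N = q at *
    field_simp

end

theorem limit [∀ N, MeasurableSpace (UG N)] [∀ N, BorelSpace (UG N)] (m : ∀ N, Measure (UG N))
    [∀ N, IsProbabilityMeasure (m N)] [∀ N, (m N).IsMulLeftInvariant] {z : ℂ} (hz : 1 ≤ ‖z‖)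
    (h : Real.exp 1 * ‖z‖ < Real.exp z.re) :
    Tendsto (fun N : ℕ =>
      deriv (fun ζ : ℂ => ∫ U, exp ((N + 1) * ζ * (u U 0 * conj (u U 0))) ∂m N) z /
      ((N + 1) * ∫ U, exp ((N + 1) * z * (u U 0 * conj (u U 0))) ∂m N)) atTop (𝓝 (1 - 1 / z)) := by
  have hz0 : z ≠ 0 := fun e => by rw [e] at hz; norm_num at hz
  have t0 : Tendsto (fun N : ℕ => (Real.exp 1 * ‖z‖ / Real.exp z.re) ^ (N + 1)) atTop (𝓝 0) :=
    (tendsto_pow_atTop_nhds_zero_of_lt_one (by positivity)
      ((div_lt_one (Real.exp_pos _)).2 h)).comp (tendsto_add_atTop_nat 1)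
  have t1 : Tendsto (fun N : ℕ => S (N - 1) ((N + 1) * z) / exp ((N + 1) * z)) atTop (𝓝 0) :=
    squeeze_zero_norm (fun N => S_le hz (by omega)) t0
  have t2 : Tendsto (fun N : ℕ => S N ((N + 1) * z) / exp ((N + 1) * z)) atTop (𝓝 0) :=
    squeeze_zero_norm (fun N => S_le hz (by omega)) t0
  have t3 : Tendsto (fun N : ℕ => (N : ℂ) / (N + 1)) atTop (𝓝 1) := tendsto_natCast_div_add_atTop 1
  have t4 := ((t1.const_sub 1).div (t2.const_sub 1) (by simp)).sub (t3.div_const z)
  simp only [sub_zero, div_one] at t4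
  refine t4.congr' ((t2.eventually_ne (show (0 : ℂ) ≠ 1 by simp)).mono fun N hN => ?_)
  exact (ratio hz0 hN).symm

end Pool.Agent.H32.Sph
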