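import Mathlib

open Set Filter Topology

namespace Pool.Agent.H32.Sub

variable {A : Type} [TopologicalSpace A]

lemma cyl0 {x : ℕ → A} {U : Set (ℕ → A)} (hU : U ∈ 𝓝 x) :
    ∃ L, ∀ y : ℕ → A, (∀ k < L, y k = x k) → y ∈ U := by
  rw [nhds_pi, Filter.mem_pi'] at hU
  obtain ⟨F, t, h1, h2⟩ := hU
  exact ⟨F.sup id + 1, fun y hy => h2 fun k hk =>
    hy k (Nat.lt_succ_of_le (Finset.le_sup (f := id) hk)) ▸ mem_of_mem_nhds (h1 k)⟩

lemma cyl {X : Set (ℕ → A)} {x : X} {U : Set X} (hU : U ∈ 𝓝 x) :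
    ∃ L, ∀ y : X, (∀ k < L, y.1 k = x.1 k) → y ∈ U := by
  obtain ⟨V, hV, h⟩ := (mem_nhds_subtype _ _ _).1 hU
  obtain ⟨L, hL⟩ := cyl0 hV
  exact ⟨L, fun y hy => h (hL y hy)⟩

lemma cyl2 {X : Set (ℕ → A)} {x : X × X} {U : Set (X × X)} (hU : U ∈ 𝓝 x) :
    ∃ L, ∀ y : X × X, (∀ k < L, y.1.1 k = x.1.1 k) → (∀ k < L, y.2.1 k = x.2.1 k) → y ∈ U := by
  obtain ⟨V, hV, W, hW, h⟩ := mem_nhds_prod_iff.1 hU
  obtain ⟨L, hL⟩ := cyl hV
  obtain ⟨M, hM⟩ := cyl hW
  exact ⟨L + M, fun y a b => h ⟨hL _ fun k hk => a k (by omega), hM _ fun k hk => b k (by omega)⟩⟩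

lemma co (X : Set (ℕ → A)) (k : ℕ) : Continuous fun y : X => y.1 k :=
  (continuous_apply k).comp continuous_subtype_val

lemma clopen [DiscreteTopology A] (X : Set (ℕ → A)) (k : ℕ) (a : A) : IsClopen {y : X | y.1 k = a} :=
  (isClopen_discrete {a}).preimage (co X k)

/-- the shift on an invariant set -/
def sh {X : Set (ℕ → A)} (h : ∀ x ∈ X, (fun k => x (k + 1)) ∈ X) (x : X) : X :=
  ⟨fun k => x.1 (k + 1), h x.1 x.2⟩

omit [TopologicalSpace A] in
lemma sh_iter {X : Set (ℕ → A)} (h : ∀ x ∈ X, (fun k => x (k + 1)) ∈ X) (n : ℕ) (x : X) (k : ℕ) :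
    ((sh h)^[n] x).1 k = x.1 (n + k) := by
  induction n generalizing x with
  | zero => simp
  | succ n ih => rw [Function.iterate_succ_apply, ih]; simp only [sh, add_right_comm n k 1]

lemma sh_cont {X : Set (ℕ → A)} (h : ∀ x ∈ X, (fun k => x (k + 1)) ∈ X) : Continuous (sh h) :=
  Continuous.subtype_mk (f := fun (x : X) k => x.1 (k + 1)) (continuous_pi fun k => co X (k + 1)) _

lemma birk {Y : Type} [TopologicalSpace Y] [BaireSpace Y] [SecondCountableTopology Y] [Nonempty Y]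
    {S : Y → Y} (hS : Continuous S) (h : ∀ U V : Set Y, IsOpen U → IsOpen V → U.Nonempty →
      V.Nonempty → ∃ n, ∃ y ∈ U, S^[n] y ∈ V) : ∃ y, Dense (range fun n => S^[n] y) := by
  have := dense_biInter_of_isOpen (S := TopologicalSpace.countableBasis Y)
    (f := fun V => ⋃ n, S^[n] ⁻¹' V) (fun V hV => isOpen_iUnion fun n =>
      (TopologicalSpace.isOpen_of_mem_countableBasis hV).preimage (hS.iterate n))
    (TopologicalSpace.countable_countableBasis Y) fun V hV => dense_iff_inter_open.2 fun U hU hne => by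
      obtain ⟨n, y, h1, h2⟩ := h U V hU (TopologicalSpace.isOpen_of_mem_countableBasis hV) hne
        (TopologicalSpace.nonempty_of_mem_countableBasis hV)
      exact ⟨y, h1, mem_iUnion.2 ⟨n, h2⟩⟩
  obtain ⟨y, hy⟩ := this.nonempty
  refine ⟨y, (TopologicalSpace.isBasis_countableBasis Y).dense_iff.2 fun V hV _ => ?_⟩
  obtain ⟨n, hn⟩ := mem_iUnion.1 (mem_iInter₂.1 hy V hV)
  exact ⟨_, hn, n, rfl⟩

end Pool.Agent.H32.Sub
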