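import Mathlib

set_option autoImplicit false
open MeasureTheory ProbabilityTheory Set Filter Topology
open scoped ENNReal

namespace Pool.Agent.H32.TG

noncomputable def phi (x : ℝ) : ℝ := gaussianPDFReal 0 1 x

noncomputable def gam : Measure ℝ := gaussianReal 0 1

instance : IsProbabilityMeasure gam := by unfold gam; infer_instance

lemma phi_pos (x : ℝ) : 0 < phi x := gaussianPDFReal_pos 0 1 x one_ne_zero

lemma phi_meas : Measurable phi := measurable_gaussianPDFReal 0 1

lemma phi_int : Integrable phi := integrable_gaussianPDFReal 0 1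

noncomputable def c0 : ℝ := Real.log (Real.sqrt (2 * Real.pi))

lemma phi_eq (x : ℝ) : phi x = Real.exp (-(c0 + x ^ 2 / 2)) := by
  have h : 0 < Real.sqrt (2 * Real.pi) := Real.sqrt_pos.2 (by positivity)
  unfold phi gaussianPDFReal c0
  rw [neg_add, Real.exp_add, Real.exp_neg (Real.log _), Real.exp_log h]
  simp [neg_div]

lemma int_gam {E : Type*} [NormedAddCommGroup E] [NormedSpace ℝ E] (g : ℝ → E) :
    ∫ x, g x ∂gam = ∫ x, phi x • g x := integral_gaussianReal_eq_integral_smul one_ne_zero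

noncomputable def law (r : ℝ → ℝ) : Measure ℝ :=
  volume.withDensity fun x => ENNReal.ofReal (phi x * r x)

def Good (r : ℝ → ℝ) : Prop := Continuous r ∧ ∀ x, 1 / 2 ≤ r x ∧ r x ≤ 3 / 2

lemma Good.pos {r : ℝ → ℝ} (h : Good r) (x : ℝ) : 0 < r x := by have := (h.2 x).1; linarith

lemma Good.meas {r : ℝ → ℝ} (h : Good r) : Measurable fun x => phi x * r x :=
  phi_meas.mul h.1.measurable

lemma Good.int {r : ℝ → ℝ} (h : Good r) : Integrable fun x => phi x * r x :=
  phi_int.mul_bdd (c := 3 / 2) h.1.aestronglyMeasurable (Eventually.of_forall fun x => by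
    rw [Real.norm_eq_abs, abs_of_pos (h.pos x)]; exact (h.2 x).2)

lemma Good.fin {r : ℝ → ℝ} (h : Good r) : IsFiniteMeasure (law r) :=
  isFiniteMeasure_withDensity_ofReal h.int.2

lemma Good.integral {r : ℝ → ℝ} (h : Good r) {E : Type*} [NormedAddCommGroup E]
    [NormedSpace ℝ E] (g : ℝ → E) : ∫ x, g x ∂law r = ∫ x, r x • g x ∂gam := by
  unfold law
  rw [integral_withDensity_eq_integral_toReal_smul h.meas.ennreal_ofReal
    (Eventually.of_forall fun x => ENNReal.ofReal_lt_top), int_gam]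
  congr 1
  ext x
  rw [ENNReal.toReal_ofReal (mul_nonneg (phi_pos x).le (h.pos x).le), mul_smul]

lemma int_bdd {E : Type*} [NormedAddCommGroup E] {g : ℝ → E} (hg : Continuous g) (C : ℝ)
    (h : ∀ x, ‖g x‖ ≤ C) : Integrable g gam :=
  Integrable.of_bound hg.aestronglyMeasurable C (Eventually.of_forall h)

lemma sq_int : Integrable (fun x : ℝ => x ^ 2) gam := by
  have := (memLp_id_gaussianReal (μ := 0) (v := 1) 2).integrable_sq
  exact this

lemma Good.int_r {r : ℝ → ℝ} (h : Good r) : Integrable r gam :=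
  int_bdd h.1 (3 / 2) fun x => by rw [Real.norm_eq_abs, abs_of_pos (h.pos x)]; exact (h.2 x).2

lemma Good.int_rsq {r : ℝ → ℝ} (h : Good r) : Integrable (fun x => r x * x ^ 2) gam :=
  sq_int.bdd_mul (c := 3 / 2) h.1.aestronglyMeasurable (Eventually.of_forall fun x => by
    rw [Real.norm_eq_abs, abs_of_pos (h.pos x)]; exact (h.2 x).2)

lemma up (r : ℝ) (h : 0 < r) : r * Real.log r ≤ (r - 1) + (r - 1) ^ 2 := by
  have := Real.log_le_sub_one_of_pos h
  nlinarith

lemma low (r : ℝ) (h : 0 < r) (h2 : r ≤ 3 / 2) : (r - 1) + (r - 1) ^ 2 / 5 ≤ r * Real.log r := by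
  obtain ⟨s, hs, rfl⟩ : ∃ s : ℝ, 0 < s ∧ r = s ^ 2 :=
    ⟨Real.sqrt r, Real.sqrt_pos.2 h, (Real.sq_sqrt h.le).symm⟩
  have h1 := Real.one_sub_inv_le_log_of_pos hs
  rw [Real.log_pow]
  have h3 : s ^ 2 * (2 * (1 - s⁻¹)) = 2 * s ^ 2 - 2 * s := by field_simp
  have h4 : s ^ 2 * (2 * (1 - s⁻¹)) ≤ s ^ 2 * ((2 : ℕ) * Real.log s) := by
    push_cast; gcongr
  have h5 : s ≤ 123 / 100 := by nlinarith
  have h6 : (s + 1) ^ 2 ≤ 5 := by nlinarith
  have h7 : (s ^ 2 - 1) ^ 2 = (s - 1) ^ 2 * (s + 1) ^ 2 := by ring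
  nlinarith [sq_nonneg (s - 1)]

lemma Good.int_rlog {r : ℝ → ℝ} (h : Good r) :
    Integrable (fun x => r x * Real.log (r x)) gam := by
  refine int_bdd (Real.continuous_mul_log.comp h.1) 1 fun x => ?_
  have h1 := up _ (h.pos x)
  have h2 := low _ (h.pos x) (h.2 x).2
  have h3 := h.2 x
  rw [Real.norm_eq_abs, abs_le]
  constructor <;> nlinarith [sq_nonneg (r x - 1)]

lemma Good.int_dev {r : ℝ → ℝ} (h : Good r) : Integrable (fun x => (r x - 1) ^ 2) gam := by
  refine int_bdd (by have := h.1; fun_prop) 1 fun x => ?_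
  have h3 := h.2 x
  rw [Real.norm_eq_abs, abs_of_nonneg (sq_nonneg _)]
  nlinarith

/-- differential entropy as in the frozen statements -/
noncomputable def ent (μ : Measure ℝ) : ℝ :=
  ∫ x, Real.negMulLog ((μ.rnDeriv volume x).toReal)

lemma Good.ent {r : ℝ → ℝ} (h : Good r) : ent (law r) =
    c0 * ∫ x, r x ∂gam + (∫ x, x ^ 2 ∂law r) / 2 - ∫ x, r x * Real.log (r x) ∂gam := by
  have e1 : TG.ent (law r) = ∫ x, (c0 * r x + r x * x ^ 2 / 2 - r x * Real.log (r x)) ∂gam := by
    unfold TG.ent law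
    rw [int_gam]
    apply integral_congr_ae
    filter_upwards [Measure.rnDeriv_withDensity volume h.meas.ennreal_ofReal] with x hx
    rw [hx, ENNReal.toReal_ofReal (mul_nonneg (phi_pos x).le (h.pos x).le), Real.negMulLog,
      Real.log_mul (phi_pos x).ne' (h.pos x).ne']
    have : Real.log (phi x) = -(c0 + x ^ 2 / 2) := by rw [phi_eq, Real.log_exp]
    rw [this, smul_eq_mul]; ring
  have i1 : Integrable (fun x => c0 * r x + r x * x ^ 2 / 2) gam :=
    (h.int_r.const_mul _).add (h.int_rsq.div_const _)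
  rw [e1, integral_sub i1 h.int_rlog,
    integral_add (h.int_r.const_mul _) (h.int_rsq.div_const _), integral_const_mul,
    integral_div, h.integral]
  simp

lemma Good.D_le {r : ℝ → ℝ} (h : Good r) (h1 : ∫ x, r x ∂gam = 1) :
    ∫ x, r x * Real.log (r x) ∂gam ≤ ∫ x, (r x - 1) ^ 2 ∂gam := by
  have := integral_mono h.int_rlog ((h.int_r.sub (integrable_const 1)).add h.int_dev)
    (fun x => up _ (h.pos x))
  rw [integral_add' (h.int_r.sub (integrable_const 1)) h.int_dev,
    integral_sub' h.int_r (integrable_const 1), h1] at this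
  simpa using this

lemma Good.le_D {r : ℝ → ℝ} (h : Good r) (h1 : ∫ x, r x ∂gam = 1) :
    (∫ x, (r x - 1) ^ 2 ∂gam) / 5 ≤ ∫ x, r x * Real.log (r x) ∂gam := by
  have := integral_mono ((h.int_r.sub (integrable_const 1)).add (h.int_dev.div_const 5))
    h.int_rlog (fun x => low _ (h.pos x) (h.2 x).2)
  rw [integral_add' (h.int_r.sub (integrable_const 1)) (h.int_dev.div_const 5),
    integral_sub' h.int_r (integrable_const 1), h1, integral_div] at this
  simpa using this

noncomputable def K (l t : ℝ) : ℝ := Real.exp (-(t ^ 2 + l ^ 2) / 2) * Real.cosh (l * t)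

lemma expint (t : ℝ) :
    ∫ x, Complex.exp (t * x * Complex.I) ∂gam = (Real.exp (-t ^ 2 / 2) : ℝ) := by
  rw [← charFun_apply_real]
  unfold gam
  rw [charFun_gaussianReal]
  push_cast
  congr 1
  simp [neg_div]

lemma exp_intg (t : ℝ) : Integrable (fun x : ℝ => Complex.exp (t * x * Complex.I)) gam :=
  int_bdd (by fun_prop) 1 fun x => by
    rw [← Complex.ofReal_mul, Complex.norm_exp_ofReal_mul_I]

lemma cos_intg (l t : ℝ) :
    Integrable (fun x : ℝ => Real.cos (l * x) • Complex.exp (t * x * Complex.I)) gam :=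
  int_bdd (by fun_prop) 1 fun x => by
    rw [norm_smul, ← Complex.ofReal_mul, Complex.norm_exp_ofReal_mul_I, mul_one]
    exact Real.abs_cos_le_one _

lemma cosint (l t : ℝ) :
    ∫ x, Real.cos (l * x) • Complex.exp (t * x * Complex.I) ∂gam = (K l t : ℝ) := by
  have e : ∀ x : ℝ, Real.cos (l * x) • Complex.exp (t * x * Complex.I)
      = (Complex.exp ((t + l : ℝ) * x * Complex.I)
        + Complex.exp ((t - l : ℝ) * x * Complex.I)) / 2 := by
    intro x
    rw [Complex.real_smul, Complex.ofReal_cos, Complex.cos, div_mul_eq_mul_div, add_mul,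
      ← Complex.exp_add, ← Complex.exp_add]
    push_cast
    congr 3 <;> ring
  simp only [e]
  rw [integral_div, integral_add (exp_intg _) (exp_intg _), expint, expint]
  have : K l t = (Real.exp (-(t + l) ^ 2 / 2) + Real.exp (-(t - l) ^ 2 / 2)) / 2 := by
    unfold K
    rw [Real.cosh_eq, mul_div_assoc', mul_add, ← Real.exp_add, ← Real.exp_add, add_comm]
    congr 3 <;> ring
  rw [this]
  push_cast
  rfl

lemma cos_real (l : ℝ) : ∫ x, Real.cos (l * x) ∂gam = Real.exp (-l ^ 2 / 2) := by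
  have h := cosint l 0
  simp only [Complex.ofReal_zero, zero_mul, Complex.exp_zero, Complex.real_smul, mul_one] at h
  rw [integral_complex_ofReal] at h
  have := Complex.ofReal_injective h
  rw [this]
  simp [K]

lemma cos_sq_ge (l : ℝ) : 1 / 2 ≤ ∫ x, Real.cos (l * x) ^ 2 ∂gam := by
  have e : ∀ x : ℝ, Real.cos (l * x) ^ 2 = 1 / 2 + Real.cos (2 * l * x) / 2 := by
    intro x; rw [Real.cos_sq, mul_assoc]
  simp only [e]
  rw [integral_add (integrable_const _) ((int_bdd (by fun_prop) 1 fun x =>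
    Real.abs_cos_le_one _).div_const 2), integral_div, integral_div, cos_real]
  have := Real.exp_pos (-(2 * l) ^ 2 / 2)
  simp only [integral_const, probReal_univ, smul_eq_mul, mul_one]
  linarith

end Pool.Agent.H32.TG
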