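import Mathlib
import Pool.Agent.H32.TG

set_option autoImplicit false
open MeasureTheory ProbabilityTheory Set Filter Topology
open scoped ENNReal

namespace Pool.Agent.H32.TG

noncomputable def ep : ℝ := 1 / 20000
noncomputable def E (c : ℝ) : ℝ := Real.exp (-(100 * c) ^ 2 / 2)
noncomputable def Z : ℝ := 1 + ep * E 1

lemma E_pos (c : ℝ) : 0 < E c := Real.exp_pos _
lemma E_le (c : ℝ) : E c ≤ 1 := Real.exp_le_one_iff.2 (by nlinarith [sq_nonneg (100 * c)])
lemma E_small (c : ℝ) (h : 1 / 25 ≤ c ^ 2) : E c ≤ 1 / 10 ^ 13 := by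
  have h1 : E c ≤ Real.exp (-(10 * 20)) := Real.exp_le_exp.2 (by nlinarith)
  have h2 : (21 : ℝ) ^ 10 ≤ Real.exp (10 * 20) := by
    have := Real.exp_nat_mul 20 10
    push_cast at this
    rw [this]
    have h := Real.add_one_le_exp 20
    gcongr; linarith
  rw [Real.exp_neg, inv_eq_one_div] at h1
  exact h1.trans (one_div_le_one_div_of_le (by norm_num) (le_trans (by norm_num) h2))

lemma Z_bd : 1 ≤ Z ∧ Z ≤ 1 + 1 / 10 ^ 17 := by
  have h1 := E_pos 1
  have h2 := E_small 1 (by norm_num)
  unfold Z ep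
  constructor <;> linarith

noncomputable def r0 (x : ℝ) : ℝ := (1 + ep * Real.cos (100 * x)) / Z

noncomputable def num (a b s : ℝ) : ℝ :=
  ep * E b * Real.cos (100 * a * s) + ep * E a * Real.cos (100 * b * s)
    + ep ^ 2 / 2 * E (a - b) * Real.cos (100 * (a + b) * s)
    + ep ^ 2 / 2 * E (a + b) * Real.cos (100 * (a - b) * s)

noncomputable def rr (a b s : ℝ) : ℝ := (1 + num a b s) / Z ^ 2

lemma term_bd (c e t η : ℝ) (hc : 0 ≤ c) (he : 0 ≤ e) (h : e ≤ η) :
    -(c * η) ≤ c * e * Real.cos t ∧ c * e * Real.cos t ≤ c * η := by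
  have h1 := Real.neg_one_le_cos t
  have h2 := Real.cos_le_one t
  have h3 : 0 ≤ c * e := mul_nonneg hc he
  have h4 : c * e ≤ c * η := mul_le_mul_of_nonneg_left h hc
  constructor <;> nlinarith

lemma ep_pos : 0 < ep := by unfold ep; norm_num

lemma good_r0 : Good r0 := by
  refine ⟨by unfold r0; fun_prop, fun x => ?_⟩
  have h := Z_bd
  have h1 := Real.neg_one_le_cos (100 * x)
  have h2 := Real.cos_le_one (100 * x)
  unfold r0 ep
  rw [le_div_iff₀ (by linarith), div_le_iff₀ (by linarith)]
  constructor <;> linarith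

lemma Zsq : 1 ≤ Z ^ 2 ∧ Z ^ 2 ≤ 1 + 3 / 10 ^ 17 := by
  have h := Z_bd
  constructor <;> nlinarith

lemma good_rr (a b : ℝ) : Good (rr a b) := by
  refine ⟨by unfold rr num; fun_prop, fun x => ?_⟩
  have h := Zsq
  have p := ep_pos
  have h1 := term_bd ep (E b) (100 * a * x) 1 p.le (E_pos _).le (E_le _)
  have h2 := term_bd ep (E a) (100 * b * x) 1 p.le (E_pos _).le (E_le _)
  have h3 := term_bd (ep ^ 2 / 2) (E (a - b)) (100 * (a + b) * x) 1 (by positivity)
    (E_pos _).le (E_le _)
  have h4 := term_bd (ep ^ 2 / 2) (E (a + b)) (100 * (a - b) * x) 1 (by positivity)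
    (E_pos _).le (E_le _)
  unfold rr num
  rw [le_div_iff₀ (by linarith), div_le_iff₀ (by linarith)]
  have e1 : ep = 1 / 20000 := rfl
  have e2 : ep ^ 2 / 2 = 1 / 800000000 := by rw [e1]; norm_num
  constructor <;> linarith

lemma cos_intg' (c l t : ℝ) :
    Integrable (fun x : ℝ => c • (Real.cos (l * x) • Complex.exp (t * x * Complex.I))) gam :=
  (cos_intg l t).smul c

lemma char_r0 (t : ℝ) : charFun (law r0) t = (((K 0 t + ep * K 100 t) / Z : ℝ) : ℂ) := by
  rw [charFun_apply_real, good_r0.integral]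
  have e : ∀ x : ℝ, r0 x • Complex.exp (t * x * Complex.I)
      = (1 / Z) • (Real.cos (0 * x) • Complex.exp (t * x * Complex.I)
        + ep • (Real.cos (100 * x) • Complex.exp (t * x * Complex.I))) := by
    intro x
    simp only [smul_smul, ← add_smul]
    congr 1
    unfold r0; simp; ring
  simp only [e]
  rw [integral_smul, integral_add (cos_intg _ _) (cos_intg' _ _ _), integral_smul,
    cosint, cosint]
  simp only [Complex.real_smul]
  push_cast; ring

lemma char_rr (a b t : ℝ) : charFun (law (rr a b)) t = (((K 0 t + ep * E b * K (100 * a) t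
    + ep * E a * K (100 * b) t + ep ^ 2 / 2 * E (a - b) * K (100 * (a + b)) t
    + ep ^ 2 / 2 * E (a + b) * K (100 * (a - b)) t) / Z ^ 2 : ℝ) : ℂ) := by
  rw [charFun_apply_real, (good_rr a b).integral]
  have e : ∀ x : ℝ, rr a b x • Complex.exp (t * x * Complex.I)
      = (1 / Z ^ 2) • (Real.cos (0 * x) • Complex.exp (t * x * Complex.I)
        + (ep * E b) • (Real.cos (100 * a * x) • Complex.exp (t * x * Complex.I))
        + (ep * E a) • (Real.cos (100 * b * x) • Complex.exp (t * x * Complex.I))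
        + (ep ^ 2 / 2 * E (a - b)) •
          (Real.cos (100 * (a + b) * x) • Complex.exp (t * x * Complex.I))
        + (ep ^ 2 / 2 * E (a + b)) •
          (Real.cos (100 * (a - b) * x) • Complex.exp (t * x * Complex.I))) := by
    intro x
    simp only [smul_smul, ← add_smul]
    congr 1
    unfold rr num; simp; ring
  simp only [e]
  have i0 := cos_intg 0 t
  have i1 := cos_intg' (ep * E b) (100 * a) t
  have i2 := cos_intg' (ep * E a) (100 * b) t
  have i3 := cos_intg' (ep ^ 2 / 2 * E (a - b)) (100 * (a + b)) t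
  have i4 := cos_intg' (ep ^ 2 / 2 * E (a + b)) (100 * (a - b)) t
  rw [integral_smul, integral_add (((i0.fun_add i1).fun_add i2).fun_add i3) i4,
    integral_add ((i0.fun_add i1).fun_add i2) i3, integral_add (i0.fun_add i1) i2,
    integral_add i0 i1,
    integral_smul, integral_smul, integral_smul, integral_smul,
    cosint, cosint, cosint, cosint, cosint]
  simp only [Complex.real_smul]
  push_cast; ring

lemma char_mul (a b t : ℝ) (h : a ^ 2 + b ^ 2 = 1) :
    charFun (law r0) (a * t) * charFun (law r0) (b * t) = charFun (law (rr a b)) t := by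
  rw [char_r0, char_r0, char_rr, ← Complex.ofReal_mul]
  congr 1
  have k0 : K 0 (a * t) * K 0 (b * t) = K 0 t := by
    simp only [K, zero_mul, Real.cosh_zero, mul_one, ← Real.exp_add]
    congr 1
    linear_combination (-t ^ 2 / 2) * h
  have k1 : K 100 (a * t) * K 0 (b * t) = E b * K (100 * a) t := by
    simp only [K, E, zero_mul, Real.cosh_zero, mul_one]
    rw [mul_right_comm, ← mul_assoc (Real.exp _), ← Real.exp_add, ← Real.exp_add, mul_assoc 100]
    congr 2
    linear_combination (-t ^ 2 / 2 + 5000) * h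
  have k2 : K 0 (a * t) * K 100 (b * t) = E a * K (100 * b) t := by
    simp only [K, E, zero_mul, Real.cosh_zero, mul_one]
    rw [← mul_assoc (Real.exp _), ← mul_assoc (Real.exp _), ← Real.exp_add, ← Real.exp_add,
      mul_assoc 100]
    congr 2
    linear_combination (-t ^ 2 / 2 + 5000) * h
  have k3 : K 100 (a * t) * K 100 (b * t) =
      (E (a - b) * K (100 * (a + b)) t + E (a + b) * K (100 * (a - b)) t) / 2 := by
    simp only [K, E]
    have f1 : Real.exp (-(100 * (a - b)) ^ 2 / 2) * Real.exp (-(t ^ 2 + (100 * (a + b)) ^ 2) / 2)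
        = Real.exp (-((a * t) ^ 2 + 100 ^ 2) / 2) * Real.exp (-((b * t) ^ 2 + 100 ^ 2) / 2) := by
      rw [← Real.exp_add, ← Real.exp_add]
      congr 1
      linear_combination (t ^ 2 / 2 - 10000) * h
    have f2 : Real.exp (-(100 * (a + b)) ^ 2 / 2) * Real.exp (-(t ^ 2 + (100 * (a - b)) ^ 2) / 2)
        = Real.exp (-((a * t) ^ 2 + 100 ^ 2) / 2) * Real.exp (-((b * t) ^ 2 + 100 ^ 2) / 2) := by
      rw [← Real.exp_add, ← Real.exp_add]
      congr 1
      linear_combination (t ^ 2 / 2 - 10000) * h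
    have g1 : 100 * (a + b) * t = 100 * (a * t) + 100 * (b * t) := by ring
    have g2 : 100 * (a - b) * t = 100 * (a * t) - 100 * (b * t) := by ring
    rw [← mul_assoc (Real.exp (-(100 * (a - b)) ^ 2 / 2)),
      ← mul_assoc (Real.exp (-(100 * (a + b)) ^ 2 / 2)), f1, f2,
      g1, g2, Real.cosh_add, Real.cosh_sub]
    ring
  rw [div_mul_div_comm, ← sq]
  congr 1
  linear_combination k0 + ep * k1 + ep * k2 + ep ^ 2 * k3

lemma int_r0 : ∫ x, r0 x ∂gam = 1 := by
  have hZ : Z ≠ 0 := by have := Z_bd.1; linarith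
  unfold r0
  rw [integral_div, integral_add (integrable_const _) ((int_bdd (by fun_prop) 1 fun x =>
    Real.abs_cos_le_one _).const_mul _), integral_const_mul, cos_real, div_eq_one_iff_eq hZ]
  simp [Z, E]

lemma Good.prob {r : ℝ → ℝ} (h : Good r) (h1 : ∫ x, r x ∂gam = 1) :
    IsProbabilityMeasure (law r) := by
  have := h.fin
  have h2 := h.integral (fun _ => (1 : ℝ))
  simp only [integral_const, smul_eq_mul, mul_one, h1] at h2
  exact isProbabilityMeasure_iff_real.2 h2

lemma Good.mass {r : ℝ → ℝ} (h : Good r) [IsProbabilityMeasure (law r)] :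
    ∫ x, r x ∂gam = 1 := by
  have h2 := h.integral (fun _ => (1 : ℝ))
  simpa using h2.symm

instance : IsProbabilityMeasure (law r0) := good_r0.prob int_r0

lemma D1_small : ∫ x, (rr (3 / 5) (4 / 5) x - 1) ^ 2 ∂gam ≤ (1 / 10 ^ 15) ^ 2 := by
  have : ∫ x, (rr (3 / 5) (4 / 5) x - 1) ^ 2 ∂gam ≤ ∫ _, ((1 : ℝ) / 10 ^ 15) ^ 2 ∂gam := by
    refine integral_mono (good_rr _ _).int_dev (integrable_const _) fun x => ?_
    have h := Zsq
    have p := ep_pos
    have h1 := term_bd ep (E (4 / 5)) (100 * (3 / 5) * x) _ p.le (E_pos _).le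
      (E_small _ (by norm_num))
    have h2 := term_bd ep (E (3 / 5)) (100 * (4 / 5) * x) _ p.le (E_pos _).le
      (E_small _ (by norm_num))
    have h3 := term_bd (ep ^ 2 / 2) (E (3 / 5 - 4 / 5)) (100 * (3 / 5 + 4 / 5) * x) _
      (by positivity) (E_pos _).le (E_small _ (by norm_num))
    have h4 := term_bd (ep ^ 2 / 2) (E (3 / 5 + 4 / 5)) (100 * (3 / 5 - 4 / 5) * x) _
      (by positivity) (E_pos _).le (E_small _ (by norm_num))
    have e1 : ep = 1 / 20000 := rfl
    have e2 : ep ^ 2 / 2 = 1 / 800000000 := by rw [e1]; norm_num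
    apply sq_le_sq'
    · rw [le_sub_iff_add_le]
      unfold rr num
      rw [le_div_iff₀ (by linarith)]
      linarith
    · rw [sub_le_iff_le_add]
      unfold rr num
      rw [div_le_iff₀ (by linarith)]
      linarith
  simpa using this

lemma D2_large (a : ℝ) (ha : a ^ 2 + a ^ 2 = 1) :
    (1 / 10 ^ 10) ^ 2 ≤ ∫ x, (rr a a x - 1) ^ 2 ∂gam := by
  have ic : Integrable (fun x => Real.cos (100 * (a + a) * x) ^ 2) gam :=
    int_bdd (by fun_prop) 1 fun x => by
      rw [Real.norm_eq_abs, abs_of_nonneg (sq_nonneg _)]; exact Real.cos_sq_le_one _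
  have : ∫ x, ((1 / 800000000) ^ 2 / 2 * Real.cos (100 * (a + a) * x) ^ 2 - (1 / 10 ^ 15) ^ 2) ∂gam
      ≤ ∫ x, (rr a a x - 1) ^ 2 ∂gam := by
    refine integral_mono ((ic.const_mul _).sub (integrable_const _)) (good_rr _ _).int_dev
      fun x => ?_
    have h := Zsq
    have p := ep_pos
    have h1 := term_bd ep (E a) (100 * a * x) _ p.le (E_pos _).le
      (E_small _ (by nlinarith))
    have h4 := term_bd (ep ^ 2 / 2) (E (a + a)) (100 * (a - a) * x) _
      (by positivity) (E_pos _).le (E_small _ (by nlinarith))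
    have e1 : ep = 1 / 20000 := rfl
    have e2 : ep ^ 2 / 2 = 1 / 800000000 := by rw [e1]; norm_num
    have e3 : E (a - a) = 1 := by simp [E]
    have c1 := Real.neg_one_le_cos (100 * (a + a) * x)
    have c2 := Real.cos_le_one (100 * (a + a) * x)
    set C := Real.cos (100 * (a + a) * x) with hC
    have b1 : (rr a a x - 1 - 1 / 800000000 * C) ^ 2 ≤ (1 / 10 ^ 15) ^ 2 := by
      have z1 : 0 ≤ (Z ^ 2 - 1) * (1 + C) := mul_nonneg (by linarith) (by linarith)
      have z2 : 0 ≤ (Z ^ 2 - 1) * (1 - C) := mul_nonneg (by linarith) (by linarith)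
      apply sq_le_sq'
      · rw [le_sub_iff_add_le, le_sub_iff_add_le]
        unfold rr num
        rw [le_div_iff₀ (by linarith), e3, ← hC, e2]
        rw [e2] at h4
        nlinarith
      · rw [sub_le_iff_le_add, sub_le_iff_le_add]
        unfold rr num
        rw [div_le_iff₀ (by linarith), e3, ← hC, e2]
        rw [e2] at h4
        nlinarith
    simp only []
    nlinarith [sq_nonneg (2 * (rr a a x - 1) - 1 / 800000000 * C)]
  rw [integral_sub (ic.const_mul _) (integrable_const _), integral_const_mul] at this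
  have h2 := cos_sq_ge (100 * (a + a))
  simp only [integral_const, probReal_univ, smul_eq_mul, one_mul] at this
  nlinarith

noncomputable def f0 (x : ℝ) : ℝ := phi x * r0 x

noncomputable def L (x : ℝ) : ℝ :=
  -(c0 + x ^ 2 / 2) + Real.log (1 + ep * Real.cos (100 * x)) - Real.log Z

lemma one_add_pos (x : ℝ) : 0 < 1 + ep * Real.cos (100 * x) := by
  have h1 := Real.neg_one_le_cos (100 * x)
  unfold ep; linarith

lemma f0_eq (x : ℝ) : f0 x = Real.exp (L x) := by
  have hZ : 0 < Z := by have := Z_bd.1; linarith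
  unfold f0 L r0
  rw [Real.exp_sub, Real.exp_add, Real.exp_log (one_add_pos x), Real.exp_log hZ, phi_eq]
  ring

lemma hd_q (x : ℝ) : HasDerivAt (fun x => 1 + ep * Real.cos (100 * x))
    (ep * (-Real.sin (100 * x) * 100)) x := by
  have h : HasDerivAt (fun x : ℝ => 100 * x) 100 x := by
    simpa using (hasDerivAt_id x).const_mul (100 : ℝ)
  exact (h.cos.const_mul ep).const_add 1

lemma hd_L (x : ℝ) : HasDerivAt L
    (-x + ep * (-Real.sin (100 * x) * 100) / (1 + ep * Real.cos (100 * x))) x := by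
  have h1 : HasDerivAt (fun x : ℝ => -(c0 + x ^ 2 / 2)) (-x) x := by
    have := (((hasDerivAt_pow 2 x).div_const 2).const_add c0).neg
    refine this.congr_deriv ?_
    simp
  exact (h1.add ((hd_q x).log (one_add_pos x).ne')).sub_const _

lemma L_concave : ConcaveOn ℝ univ L := by
  refine Antitone.concaveOn_univ_of_deriv (fun x => (hd_L x).differentiableAt) ?_
  have : deriv L = fun x =>
      -x + ep * (-Real.sin (100 * x) * 100) / (1 + ep * Real.cos (100 * x)) :=
    funext fun x => (hd_L x).deriv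
  rw [this]
  have hd : ∀ x : ℝ, HasDerivAt (fun x =>
      -x + ep * (-Real.sin (100 * x) * 100) / (1 + ep * Real.cos (100 * x)))
      (-1 + (ep * (-(Real.cos (100 * x) * 100) * 100) * (1 + ep * Real.cos (100 * x))
        - ep * (-Real.sin (100 * x) * 100) * (ep * (-Real.sin (100 * x) * 100)))
        / (1 + ep * Real.cos (100 * x)) ^ 2) x := by
    intro x
    have h : HasDerivAt (fun x : ℝ => 100 * x) 100 x := by
      simpa using (hasDerivAt_id x).const_mul (100 : ℝ)
    exact (hasDerivAt_neg x).add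
      (((h.sin.neg.mul_const 100).const_mul ep).div (hd_q x) (one_add_pos x).ne')
  refine antitone_of_hasDerivAt_nonpos hd fun x => ?_
  have h0 := one_add_pos x
  have h1 := Real.neg_one_le_cos (100 * x)
  have h2 := Real.cos_le_one (100 * x)
  simp only [Pi.zero_apply]
  rw [neg_add_le_iff_le_add, add_zero, div_le_one (by positivity)]
  have e1 : ep = 1 / 20000 := rfl
  rw [e1] at *
  nlinarith [sq_nonneg (Real.sin (100 * x))]

lemma f0_lc (x y t : ℝ) (ht : 0 ≤ t) (ht1 : t ≤ 1) :
    f0 x ^ t * f0 y ^ (1 - t) ≤ f0 (t * x + (1 - t) * y) := by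
  rw [f0_eq, f0_eq, f0_eq, ← Real.exp_mul, ← Real.exp_mul, ← Real.exp_add]
  have := L_concave.2 (mem_univ x) (mem_univ y) ht (sub_nonneg.2 ht1) (by ring)
  simp only [smul_eq_mul] at this
  exact Real.exp_le_exp.2 (by linarith)

lemma f0_even (x : ℝ) : f0 (-x) = f0 x := by
  rw [f0_eq, f0_eq]; simp [L]

lemma f0_one : ∫ x, f0 x = 1 := by
  rw [← int_r0, int_gam]; rfl

lemma mean0 : ∫ x, x ∂law r0 = 0 := by
  rw [good_r0.integral, int_gam]
  have e : ∀ x : ℝ, phi x • r0 x • x = f0 x * x := fun x => by simp [f0, mul_assoc]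
  simp only [e]
  have := integral_neg_eq_self (fun x => f0 x * x) (volume : Measure ℝ)
  simp only [f0_even, mul_neg, integral_neg] at this
  linarith

lemma memLp0 : MemLp (fun x : ℝ => x) 2 (law r0) := by
  rw [memLp_two_iff_integrable_sq (by fun_prop)]
  unfold law
  rw [integrable_withDensity_iff_integrable_smul' good_r0.meas.ennreal_ofReal
    (Eventually.of_forall fun x => ENNReal.ofReal_lt_top)]
  have h := good_r0.int_rsq
  unfold gam at h
  rw [gaussianReal_of_var_ne_zero _ one_ne_zero,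
    integrable_withDensity_iff_integrable_smul' (measurable_gaussianPDF _ _)
    (Eventually.of_forall fun x => gaussianPDF_lt_top)] at h
  refine h.congr (Eventually.of_forall fun x => ?_)
  simp only [toReal_gaussianPDF, smul_eq_mul]
  rw [ENNReal.toReal_ofReal (mul_nonneg (phi_pos x).le (good_r0.pos x).le), mul_assoc]
  rfl

lemma main {Ω : Type} [MeasurableSpace Ω] (P : Measure Ω) [IsProbabilityMeasure P]
    (X Y : Ω → ℝ) (hX : Measurable X) (hY : Measurable Y) (hI : IndepFun X Y P)
    (lX : P.map X = law r0) (lY : P.map Y = law r0) (a b : ℝ) (h : a ^ 2 + b ^ 2 = 1) :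
    ent (P.map fun w => a * X w + b * Y w) = c0 + (∫ x, x ^ 2 ∂law r0) / 2
      - ∫ x, rr a b x * Real.log (rr a b x) ∂gam ∧ ∫ x, rr a b x ∂gam = 1 := by
  have hI2 : IndepFun (fun w => a * X w) (fun w => b * Y w) P :=
    hI.comp (measurable_const_mul a) (measurable_const_mul b)
  have := (good_rr a b).fin
  have hl : (P.map fun w => a * X w + b * Y w) = law (rr a b) := by
    apply Measure.ext_of_charFun
    ext t
    rw [hI2.charFun_map_fun_add_eq_mul (by fun_prop) (by fun_prop), Pi.mul_apply,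
      charFun_map_mul_comp hX.aemeasurable, charFun_map_mul_comp hY.aemeasurable, lX, lY,
      char_mul a b t h]
  have hp : IsProbabilityMeasure (law (rr a b)) := by
    rw [← hl]; exact Measure.isProbabilityMeasure_map (by fun_prop)
  have hm := (good_rr a b).mass
  refine ⟨?_, hm⟩
  have mX : MemLp X 2 P := by
    have := memLp0
    rw [← lX] at this
    exact (memLp_map_measure_iff (by fun_prop) hX.aemeasurable).1 this
  have mY : MemLp Y 2 P := by
    have := memLp0
    rw [← lY] at this
    exact (memLp_map_measure_iff (by fun_prop) hY.aemeasurable).1 this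
  have eX : ∫ w, X w ^ 2 ∂P = ∫ x, x ^ 2 ∂law r0 := by
    rw [← lX, integral_map hX.aemeasurable (by fun_prop)]
  have eY : ∫ w, Y w ^ 2 ∂P = ∫ x, x ^ 2 ∂law r0 := by
    rw [← lY, integral_map hY.aemeasurable (by fun_prop)]
  have e0 : ∫ w, X w ∂P = 0 := by
    rw [← mean0, ← lX, integral_map hX.aemeasurable (by fun_prop)]
  have eXY : ∫ w, X w * Y w ∂P = 0 := by
    rw [hI.integral_fun_mul_eq_mul_integral (by fun_prop) (by fun_prop), e0, zero_mul]
  have iXY : Integrable (fun w => X w * Y w) P := mX.integrable_mul mY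
  have e2 : ∫ x, x ^ 2 ∂law (rr a b) = ∫ x, x ^ 2 ∂law r0 := by
    rw [← hl, integral_map (by fun_prop) (by fun_prop)]
    have : ∀ w, (a * X w + b * Y w) ^ 2
        = a ^ 2 * X w ^ 2 + b ^ 2 * Y w ^ 2 + 2 * a * b * (X w * Y w) := fun w => by ring
    simp only [this]
    rw [integral_add ((mX.integrable_sq.const_mul _).fun_add (mY.integrable_sq.const_mul _))
      (iXY.const_mul _), integral_add (mX.integrable_sq.const_mul _)
      (mY.integrable_sq.const_mul _), integral_const_mul, integral_const_mul, integral_const_mul,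
      eX, eY, eXY]
    linear_combination (∫ x, x ^ 2 ∂law r0) * h
  rw [hl, (good_rr a b).ent, hm, e2, mul_one]

lemma final {Ω : Type} [MeasurableSpace Ω] (P : Measure Ω) [IsProbabilityMeasure P]
    (X Y : Ω → ℝ) (hX : Measurable X) (hY : Measurable Y) (hI : IndepFun X Y P)
    (lX : P.map X = law r0) (lY : P.map Y = law r0) (a : ℝ) (h : a ^ 2 + a ^ 2 = 1) :
    ent (P.map fun w => a * X w + a * Y w) < ent (P.map fun w => 3 / 5 * X w + 4 / 5 * Y w) := by
  obtain ⟨h1, m1⟩ := main P X Y hX hY hI lX lY a a h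
  obtain ⟨h2, m2⟩ := main P X Y hX hY hI lX lY (3 / 5) (4 / 5) (by norm_num)
  rw [h1, h2]
  have := (good_rr _ _).D_le m2
  have := (good_rr _ _).le_D m1
  have := D1_small
  have := D2_large a h
  linarith

end Pool.Agent.H32.TG
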