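import Mathlib

open Set Filter Function

namespace Pool.Agent.H32.UFA

abbrev UF := Ultrafilter ℕ

/-- nonprincipal -/
def NP (p : UF) : Prop := ∀ n : ℕ, p ≠ pure n

/-- Rudin-Keisler -/
def RK (x y : UF) : Prop := ∃ h : ℕ → ℕ, y.map h = x

/-- isomorphic through a map injective on a large set -/
def Iso (v p : UF) : Prop := ∃ (φ : ℕ → ℕ) (A : Set ℕ), A ∈ v ∧ InjOn φ A ∧ v.map φ = p

lemma mem_bind (v : UF) (g : ℕ → UF) (s : Set ℕ) : s ∈ v.bind g ↔ {n | s ∈ g n} ∈ v := Iff.rfl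

lemma eq_of_sub {p q : UF} (h : ∀ s ∈ p, s ∈ q) : p = q :=
  (Ultrafilter.eq_of_le (show (q : Filter ℕ) ≤ p from h)).symm

lemma bind_congr {v : UF} {g g' : ℕ → UF} (h : {n | g n = g' n} ∈ v) : v.bind g = v.bind g' := by
  apply eq_of_sub
  intro s hs
  rw [mem_bind] at hs ⊢
  filter_upwards [hs, h] with n h1 h2
  rw [← h2]; exact h1

lemma map_congr {v : UF} {f f' : ℕ → ℕ} (h : {n | f n = f' n} ∈ v) : v.map f = v.map f' := by
  apply eq_of_sub
  intro s hs
  rw [Ultrafilter.mem_map] at hs ⊢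
  filter_upwards [hs, h] with n h1 h2
  rw [mem_preimage, ← h2]; exact h1

lemma map_bind (v : UF) (g : ℕ → UF) (f : ℕ → ℕ) :
    (v.bind g).map f = v.bind fun n => (g n).map f := rfl

lemma bind_bind (v : UF) (a g : ℕ → UF) :
    (v.bind a).bind g = v.bind fun n => (a n).bind g := rfl

lemma bind_map (v : UF) (f : ℕ → ℕ) (g : ℕ → UF) : (v.map f).bind g = v.bind (g ∘ f) := rfl

lemma bind_pure' (v : UF) (f : ℕ → ℕ) : (v.bind fun n => pure (f n)) = v.map f := rfl

lemma pure_bind' (n : ℕ) (g : ℕ → UF) : (pure n : UF).bind g = g n := rfl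

lemma bind_const (v p : UF) : (v.bind fun _ => p) = p := by
  symm
  apply eq_of_sub
  intro s hs
  rw [mem_bind]
  exact univ_mem' fun _ => hs

lemma map_eq_pure {p : UF} {f : ℕ → ℕ} {n : ℕ} : p.map f = pure n ↔ {k | f k = n} ∈ p := by
  constructor
  · intro h
    have : ({n} : Set ℕ) ∈ p.map f := by rw [h]; simp
    exact this
  · intro h
    symm
    apply eq_of_sub
    intro s hs
    rw [Ultrafilter.mem_map]
    filter_upwards [h] with k hk
    rw [mem_preimage, hk]; exact hs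

lemma NP.ne {p : UF} (h : NP p) (n : ℕ) : {k | k ≠ n} ∈ p := by
  have : ({n} : Set ℕ) ∉ p := fun hn => by
    obtain ⟨x, -, hx⟩ := Ultrafilter.eq_pure_of_finite_mem (finite_singleton n) hn
    exact h x hx
  exact Ultrafilter.compl_mem_iff_notMem.2 this

lemma NP.fin {p : UF} (h : NP p) {s : Set ℕ} (hs : s.Finite) : s ∉ p := fun hn => by
  obtain ⟨x, -, hx⟩ := Ultrafilter.eq_pure_of_finite_mem hs hn
  exact h x hx

lemma NP.of_RK {x y : UF} (hx : NP x) (h : RK x y) : NP y := by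
  obtain ⟨f, rfl⟩ := h
  rintro n rfl
  exact hx _ rfl

lemma RK.trans {x y z : UF} (h : RK x y) (h' : RK y z) : RK x z := by
  obtain ⟨f, rfl⟩ := h
  obtain ⟨g, rfl⟩ := h'
  exact ⟨f ∘ g, rfl⟩

lemma RK.refl (x : UF) : RK x x := ⟨id, rfl⟩

lemma Iso.rk {v p : UF} (h : Iso v p) : RK p v := by
  obtain ⟨φ, A, -, -, h⟩ := h
  exact ⟨φ, h⟩

lemma Iso.symm {v p : UF} (h : Iso v p) : Iso p v := by
  obtain ⟨φ, A, hA, hi, rfl⟩ := h
  refine ⟨invFunOn φ A, φ '' A, ?_, ?_, ?_⟩
  · rw [Ultrafilter.mem_map]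
    exact mem_of_superset hA (subset_preimage_image φ A)
  · rintro _ ⟨a, ha, rfl⟩ _ ⟨b, hb, rfl⟩ h
    rw [hi.leftInvOn_invFunOn ha, hi.leftInvOn_invFunOn hb] at h
    rw [h]
  · rw [Ultrafilter.map_map]
    refine (map_congr (f' := id) ?_).trans rfl
    filter_upwards [hA] with a ha
    exact hi.leftInvOn_invFunOn ha

lemma no_coloring {u : UF} {f : ℕ → ℕ} (hf : u.map f = u) {B : Set ℕ} (hB : B ∈ u)
    (c : ℕ → Bool) (hc : ∀ n ∈ B, c (f n) ≠ c n) : False := by
  obtain ⟨b, hb⟩ : ∃ b, {n | c n = b} ∈ u := by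
    rcases u.mem_or_compl_mem {n | c n = true} with h | h
    · exact ⟨true, h⟩
    · refine ⟨false, mem_of_superset h fun n hn => ?_⟩
      simpa using hn
  have hb' : f ⁻¹' {n | c n = b} ∈ u := by rw [← Ultrafilter.mem_map, hf]; exact hb
  obtain ⟨n, h1, h2, h3⟩ := Ultrafilter.nonempty_of_mem (inter_mem hB (inter_mem hb hb'))
  exact hc n h1 (h3.trans h2.symm)

/-- colouring when the map goes down -/
def cdown (f : ℕ → ℕ) (n : ℕ) : Bool := if f n < n then !cdown f (f n) else false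
termination_by n

/-- colouring when the map goes up, truncated at `N` -/
def cup (f : ℕ → ℕ) (N : ℕ) (n : ℕ) : Bool :=
  if n < f n ∧ n < N then !cup f N (f n) else false
termination_by N - n
decreasing_by omega

theorem katetov {u : UF} {f : ℕ → ℕ} (hf : u.map f = u) : {n | f n = n} ∈ u := by
  classical
  by_contra hn
  have h1 : {n | f n < n} ∪ {n | n < f n} ∈ u := by
    refine mem_of_superset (Ultrafilter.compl_mem_iff_notMem.2 hn) fun n hn => ?_
    simp only [mem_compl_iff, mem_ofPred_eq, mem_union] at hn ⊢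
    omega
  rcases Ultrafilter.union_mem_iff.1 h1 with h | h
  · refine no_coloring hf h (cdown f) fun n hn => ?_
    have hn' : f n < n := hn
    conv_rhs => rw [cdown, if_pos hn']
    cases cdown f (f n) <;> simp
  · refine no_coloring hf h (fun n => decide ({N | cup f N n = true} ∈ hyperfilter ℕ)) fun n hn => ?_
    have hn' : n < f n := hn
    have hbig : {N | n < N} ∈ hyperfilter ℕ := Nat.hyperfilter_le_atTop (eventually_gt_atTop n)
    have key : ∀ N, n < N → cup f N n = !cup f N (f n) := by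
      intro N hN
      conv_lhs => rw [cup, if_pos ⟨hn', hN⟩]
    simp only [ne_eq, decide_eq_decide]
    intro hiff
    by_cases h2 : {N | cup f N n = true} ∈ hyperfilter ℕ
    · obtain ⟨N, a1, a2, a3⟩ :=
        Ultrafilter.nonempty_of_mem (inter_mem hbig (inter_mem h2 (hiff.2 h2)))
      have := key N a1
      rw [show cup f N n = true from a2, show cup f N (f n) = true from a3] at this
      simp at this
    · have h3 := Ultrafilter.compl_mem_iff_notMem.2 (fun h => h2 (hiff.1 h))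
      have h4 := Ultrafilter.compl_mem_iff_notMem.2 h2
      obtain ⟨N, a1, a2, a3⟩ := Ultrafilter.nonempty_of_mem (inter_mem hbig (inter_mem h3 h4))
      have := key N a1
      simp only [mem_compl_iff, mem_ofPred_eq, Bool.not_eq_true] at a2 a3
      rw [a2, a3] at this
      simp at this

/-- a genuine sum of ultrafilters above `v` is not below `v` -/
theorem K2 {v b : UF} {g : ℕ → UF} {ρ : ℕ → ℕ} (hb : NP b)
    (hg : {n | (g n).map ρ = pure n ∧ RK v (g n)} ∈ b) : ¬ RK (b.bind g) v := by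
  classical
  rintro ⟨φ, hφ⟩
  let h : ℕ → ℕ → ℕ := fun n => if hn : RK v (g n) then hn.choose else id
  have hh : ∀ n, RK v (g n) → (g n).map (h n) = v := by
    intro n hn
    simp only [h, dif_pos hn]
    exact hn.choose_spec
  let ψ : ℕ → ℕ := fun k => h (ρ k) k
  have hψ : ∀ n, (g n).map ρ = pure n → RK v (g n) → (g n).map ψ = v := by
    intro n h1 h2
    rw [← hh n h2]
    apply map_congr
    filter_upwards [map_eq_pure.1 h1] with k hk
    simp only [ψ, hk]
  have hψp : (b.bind g).map ψ = v := by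
    rw [map_bind]
    refine (bind_congr (g' := fun _ => v) ?_).trans (bind_const b v)
    filter_upwards [hg] with n hn
    exact hψ n hn.1 hn.2
  have hS : {j | ψ (φ j) = j} ∈ v := by
    apply katetov (f := ψ ∘ φ)
    rw [← Ultrafilter.map_map, hφ, hψp]
  have hr : v.map (ρ ∘ φ) = b := by
    rw [← Ultrafilter.map_map, hφ, map_bind]
    refine (bind_congr (g' := fun n => pure (id n)) ?_).trans rfl
    filter_upwards [hg] with n hn
    exact hn.1
  have hW : {k | ρ k ≠ ρ (φ (ψ k))} ∈ b.bind g := by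
    rw [mem_bind]
    filter_upwards [hg] with n hn
    have h1 : {c | ρ (φ c) ≠ n} ∈ v := by
      have := hb.ne n
      rw [← hr] at this
      exact this
    rw [← hψ n hn.1 hn.2] at h1
    filter_upwards [h1, map_eq_pure.1 hn.1] with k h2 h3
    rw [h3]
    exact fun h => h2 h.symm
  rw [← hφ] at hW
  obtain ⟨j, h1, h2⟩ := Ultrafilter.nonempty_of_mem (inter_mem hS hW)
  have h1' : ψ (φ j) = j := h1
  have h2' : ρ (φ j) ≠ ρ (φ (ψ (φ j))) := h2
  rw [h1'] at h2'
  exact h2' rfl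

/-- closure of a countable family of ultrafilters -/
lemma closure_lemma {q : UF} {g : ℕ → UF} {N : Set ℕ}
    (h : ∀ S ∈ q, ∃ n ∈ N, S ∈ g n) : ∃ a : UF, N ∈ a ∧ q = a.bind g := by
  let F : Filter ℕ :=
    { sets := {T | ∃ S ∈ q, {n | n ∈ N ∧ S ∈ g n} ⊆ T}
      univ_sets := ⟨univ, univ_mem, subset_univ _⟩
      sets_of_superset := fun ⟨S, hS, h1⟩ h2 => ⟨S, hS, h1.trans h2⟩
      inter_sets := fun ⟨S, hS, h1⟩ ⟨S', hS', h2⟩ => ⟨S ∩ S', inter_mem hS hS', fun n hn =>
        ⟨h1 ⟨hn.1, mem_of_superset hn.2 inter_subset_left⟩,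
          h2 ⟨hn.1, mem_of_superset hn.2 inter_subset_right⟩⟩⟩ }
  have : F.NeBot := by
    rw [← forall_mem_nonempty_iff_neBot]
    rintro T ⟨S, hS, h1⟩
    obtain ⟨n, hn, hn'⟩ := h S hS
    exact ⟨n, h1 ⟨hn, hn'⟩⟩
  obtain ⟨a, ha⟩ := Ultrafilter.exists_le F
  refine ⟨a, ha ⟨univ, univ_mem, fun n hn => hn.1⟩, eq_of_sub fun S hS => ?_⟩
  exact ha ⟨S, hS, fun n hn => hn.2⟩

/-- two separated countable families have disjoint closures -/
lemma separation {a c : UF} {g p : ℕ → UF} {M J : Set ℕ} (hM : M ∈ a) (hJ : J ∈ c)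
    (h1 : ∀ n ∈ M, ∃ R ∈ g n, ∀ j ∈ J, R ∉ p j) (h2 : ∀ j ∈ J, ∃ Q ∈ p j, ∀ n ∈ M, Q ∉ g n) :
    a.bind g ≠ c.bind p := by
  intro heq
  choose! R hR hR' using h1
  choose! Q hQ hQ' using h2
  let U : Set ℕ := {k | ∃ j ∈ J, k ∈ Q j ∧ ∀ n ∈ M, n ≤ j → k ∉ R n}
  have hU : U ∈ c.bind p := by
    rw [mem_bind]
    filter_upwards [hJ] with j hj
    have : ∀ᶠ k in (p j : Filter ℕ), ∀ n ∈ M ∩ Iic j, k ∉ R n :=
      (eventually_all_finite ((finite_Iic j).inter_of_right M)).2 fun n hn =>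
        Ultrafilter.compl_mem_iff_notMem.2 (hR' n hn.1 j hj)
    filter_upwards [this, hQ j hj] with k hk hk'
    exact ⟨j, hj, hk', fun n hn hnj => hk n ⟨hn, hnj⟩⟩
  have hV : Uᶜ ∈ a.bind g := by
    rw [mem_bind]
    filter_upwards [hM] with n hn
    have : ∀ᶠ k in (g n : Filter ℕ), ∀ j ∈ J ∩ Iic n, k ∉ Q j :=
      (eventually_all_finite ((finite_Iic n).inter_of_right J)).2 fun j hj =>
        Ultrafilter.compl_mem_iff_notMem.2 (hQ' j hj.1 n hn)
    filter_upwards [this, hR n hn] with k hk hk'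
    rintro ⟨j, hj, hkj, hall⟩
    rcases le_total n j with h | h
    · exact hall n hn h hk'
    · exact hk j ⟨hj, h⟩ hkj
  rw [heq] at hV
  exact Ultrafilter.compl_mem_iff_notMem.1 hV hU

/-- an injection into a large set that is the identity on a large set -/
lemma exists_ext {u : UF} (hu : NP u) {A : Set ℕ} (hA : A ∈ u) :
    ∃ σ : ℕ → ℕ, Injective σ ∧ (∀ n, σ n ∈ A) ∧ {n | σ n = n} ∈ u := by
  classical
  have hinf : A.Infinite := fun h => hu.fin h hA
  let τ : ℕ → ℕ := fun n => (hinf.natEmbedding A n : ℕ)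
  have hτ : Injective τ := Subtype.val_injective.comp (hinf.natEmbedding A).injective
  have hτA : ∀ n, τ n ∈ A := fun n => (hinf.natEmbedding A n).2
  obtain ⟨ε, hε⟩ : ∃ ε : ℕ, range (fun n => τ (2 * n + ε)) ∉ u := by
    by_contra hn
    push Not at hn
    obtain ⟨_, ⟨a, rfl⟩, ⟨b, hb⟩⟩ := Ultrafilter.nonempty_of_mem (inter_mem (hn 0) (hn 1))
    have := hτ hb
    omega
  let D := range (fun n => τ (2 * n + ε))
  refine ⟨fun n => if n ∈ A \ D then n else τ (2 * n + ε), ?_, ?_, ?_⟩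
  · intro a b hab
    simp only at hab
    split_ifs at hab with h1 h2 h2
    · exact hab
    · exact (h1.2 ⟨b, hab.symm⟩).elim
    · exact (h2.2 ⟨a, hab⟩).elim
    · have := hτ hab
      omega
  · intro n
    simp only
    split_ifs with h
    · exact h.1
    · exact hτA _
  · filter_upwards [u.sdiff_mem_iff.2 ⟨hA, hε⟩] with n hn
    exact if_pos hn

/-- from isolating sets to a partition map -/
lemma exists_part {p : ℕ → UF} {S : ℕ → Set ℕ} (h1 : ∀ j, S j ∈ p j)
    (h2 : ∀ i j, i ≠ j → S i ∉ p j) : ∃ τ : ℕ → ℕ, (∀ j, (p j).map τ = pure j) ∧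
      ∀ j k, k ∈ S j → (∀ i < j, k ∉ S i) → τ k = j := by
  classical
  have key : ∀ j k, k ∈ S j → (∀ i < j, k ∉ S i) →
      (if h : ∃ j, k ∈ S j then Nat.find h else 0) = j := by
    intro j k hk hk'
    rw [dif_pos ⟨j, hk⟩, Nat.find_eq_iff]
    exact ⟨hk, hk'⟩
  refine ⟨fun k => if h : ∃ j, k ∈ S j then Nat.find h else 0, fun j => ?_, key⟩
  rw [map_eq_pure]
  have : ∀ᶠ k in (p j : Filter ℕ), ∀ i ∈ Iio j, k ∉ S i :=
    (eventually_all_finite (finite_Iio j)).2 fun i hi =>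
      Ultrafilter.compl_mem_iff_notMem.2 (h2 i j (ne_of_lt hi))
  filter_upwards [this, h1 j] with k hk hk'
  exact key j k hk' hk

/-- the tensor product -/
def tens (a b : UF) : UF := a.bind fun n => b.map (Nat.pair n)

lemma col_fst (b : UF) (n : ℕ) : (b.map (Nat.pair n)).map (fun k => k.unpair.1) = pure n := by
  rw [Ultrafilter.map_map, map_eq_pure]
  exact univ_mem' fun k => by simp

lemma col_snd (b : UF) (n : ℕ) : (b.map (Nat.pair n)).map (fun k => k.unpair.2) = b := by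
  rw [Ultrafilter.map_map]
  refine (map_congr (f' := id) ?_).trans rfl
  exact univ_mem' fun k => by simp

lemma tens_fst (a b : UF) : (tens a b).map (fun k => k.unpair.1) = a := by
  rw [tens, map_bind]
  refine (bind_congr (g' := fun n => pure (id n)) ?_).trans rfl
  exact univ_mem' fun n => col_fst b n

lemma tens_not_RK {a : UF} (ha : NP a) (b : UF) : ¬ RK (tens a b) b :=
  K2 (ρ := fun k => k.unpair.1) ha (univ_mem' fun n => ⟨col_fst b n, _, col_snd b n⟩)

end Pool.Agent.H32.UFA
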