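import Pool.Agent.H32.UFB

open Set Filter Function Topology

namespace Pool.Agent.H32.UFC

open Pool.Agent.H32.UFA Pool.Agent.H32.UFB

/-- the algebra of sets that do not see the collapse -/
def Alg (g : ℕ → UF) (N : Set ℕ) (h : ℕ → ℕ) : Set (Set ℕ) :=
  {S | ∀ n ∈ N, ∀ m ∈ N, h n = h m → (S ∈ g n ↔ S ∈ g m)}

open Classical in
/-- restriction to the algebra -/
noncomputable def rr (𝒜 : Set (Set ℕ)) (p : UF) : 𝒜 → Bool := fun S => decide (S.1 ∈ p)

lemma rr_eq {𝒜 : Set (Set ℕ)} {p q : UF} : rr 𝒜 p = rr 𝒜 q ↔ ∀ S ∈ 𝒜, (S ∈ p ↔ S ∈ q) := by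
  simp [rr, funext_iff]

lemma rr_tendsto (𝒜 : Set (Set ℕ)) (v : UF) (p : ℕ → UF) :
    Tendsto (fun j => rr 𝒜 (p j)) v (𝓝 (rr 𝒜 (v.bind p))) := by
  rw [tendsto_pi_nhds]
  intro S
  refine tendsto_const_nhds.congr' ?_
  by_cases h : S.1 ∈ v.bind p
  · filter_upwards [(UFA.mem_bind _ _ _).1 h] with j hj
    have : S.1 ∈ p j := hj
    simp [rr, h, this]
  · filter_upwards [Ultrafilter.compl_mem_iff_notMem.2 (mt (UFA.mem_bind _ _ _).2 h)] with j hj
    have : S.1 ∉ p j := hj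
    simp [rr, h, this]

lemma cyl_mem {𝒜 : Set (Set ℕ)} (I : Finset 𝒜) (P : 𝒜 → Prop) (q : UF) :
    {k | ∀ T ∈ I, (k ∈ T.1 ↔ P T)} ∈ q ↔ ∀ T ∈ I, (T.1 ∈ q ↔ P T) := by
  have h1 : {k | ∀ T ∈ I, (k ∈ T.1 ↔ P T)} ∈ q ↔ ∀ T ∈ I, {k | k ∈ T.1 ↔ P T} ∈ q :=
    eventually_all_finset I (l := (q : Filter ℕ))
  rw [h1]
  refine forall₂_congr fun T _ => ?_
  by_cases hP : P T
  · simp [hP]
  · simp only [hP, iff_false]
    exact Ultrafilter.compl_mem_iff_notMem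

lemma cylinder {g : ℕ → UF} {N : Set ℕ} {h : ℕ → ℕ} {U : Set (Alg g N h → Bool)} (hU : IsOpen U)
    {p : UF} (hp : rr _ p ∈ U) : ∃ S ∈ Alg g N h, S ∈ p ∧ ∀ q : UF, S ∈ q → rr _ q ∈ U := by
  obtain ⟨I, u, h1, h2⟩ := isOpen_pi_iff.1 hU _ hp
  refine ⟨{k | ∀ T ∈ I, (k ∈ T.1 ↔ T.1 ∈ p)}, ?_, (cyl_mem I _ p).2 fun _ _ => Iff.rfl, ?_⟩
  · intro n hn m hm hnm
    rw [cyl_mem I (fun T => T.1 ∈ p), cyl_mem I (fun T => T.1 ∈ p)]
    refine forall₂_congr fun T _ => ?_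
    rw [T.2 n hn m hm hnm]
  · intro q hq
    rw [cyl_mem I (fun T => T.1 ∈ p)] at hq
    apply h2
    intro T hT
    have := (h1 T hT).2
    have h3 : rr _ q T = rr _ p T := decide_eq_decide.2 (hq T hT)
    rw [h3]
    exact this

/-- closure of the collapsed sequence -/
def GG (g : ℕ → UF) (N : Set ℕ) (p : UF) : Prop := ∃ a : UF, N ∈ a ∧ p = a.bind g

/-- the points kept -/
def YY (v : UF) (g : ℕ → UF) (N : Set ℕ) (h : ℕ → ℕ) (p : UF) : Prop :=
  (¬ GG g N p ∧ ((∃ n : ℕ, p = pure n) ∨ RK v p)) ∨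
    ∃ a : UF, N ∈ a ∧ p = a.bind g ∧ ((∃ n : ℕ, a.map h = pure n) ∨ RK v (a.map h))

lemma not_GG {g : ℕ → UF} {N : Set ℕ} {p : UF} (hp : ¬ GG g N p) : ∃ S ∈ p, ∀ n ∈ N, S ∉ g n := by
  by_contra hn
  push Not at hn
  exact hp (closure_lemma hn)

lemma F1 {g : ℕ → UF} {N : Set ℕ} {h : ℕ → ℕ} {p q : UF} (hp : ¬ GG g N p)
    (hr : rr (Alg g N h) p = rr _ q) : p = q := by
  obtain ⟨S, hS, hS'⟩ := not_GG hp
  apply eq_of_sub
  intro T hT
  have hA : S ∩ T ∈ Alg g N h := fun n hn m hm _ =>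
    iff_of_false (fun h => hS' n hn (mem_of_superset h inter_subset_left))
      (fun h => hS' m hm (mem_of_superset h inter_subset_left))
  exact mem_of_superset ((rr_eq.1 hr _ hA).1 (inter_mem hS hT)) inter_subset_right

lemma F2 {g : ℕ → UF} {N : Set ℕ} {h ρ : ℕ → ℕ} (hN : ∀ n ∈ N, (g n).map ρ = pure n) {a b : UF}
    (ha : N ∈ a) (hb : N ∈ b) (hr : rr (Alg g N h) (a.bind g) = rr _ (b.bind g)) :
    a.map h = b.map h := by
  apply eq_of_sub
  intro T hT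
  have key : ∀ n ∈ N, (ρ ⁻¹' (h ⁻¹' T) ∈ g n ↔ h n ∈ T) := by
    intro n hn
    rw [← Ultrafilter.mem_map, hN n hn]
    rfl
  have hA : ρ ⁻¹' (h ⁻¹' T) ∈ Alg g N h := fun n hn m hm hnm => by
    rw [key n hn, key m hm, hnm]
  have h1 : ρ ⁻¹' (h ⁻¹' T) ∈ a.bind g := by
    rw [UFA.mem_bind]
    filter_upwards [ha, Ultrafilter.mem_map.1 hT] with n hn hn'
    exact (key n hn).2 hn'
  have h2 := (UFA.mem_bind _ _ _).1 ((rr_eq.1 hr _ hA).1 h1)
  rw [Ultrafilter.mem_map]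
  filter_upwards [hb, h2] with n hn hn'
  exact (key n hn).1 hn'

/-- the key closure property -/
lemma YY_bind {v : UF} {g : ℕ → UF} {N : Set ℕ} {h ρ : ℕ → ℕ}
    (hN : ∀ n ∈ N, (g n).map ρ = pure n ∧ Iso v (g n)) {p : ℕ → UF} (hp : ∀ j, YY v g N h (p j))
    {S : ℕ → Set ℕ} (hSA : ∀ j, S j ∈ Alg g N h) (h1 : ∀ j, S j ∈ p j)
    (h2 : ∀ i j, i ≠ j → S i ∉ p j) : YY v g N h (v.bind p) := by
  classical
  obtain ⟨τ, hτ, -⟩ := exists_part h1 h2
  have hτq : (v.bind p).map τ = v := map_bind_part (univ_mem' hτ)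
  rcases v.mem_or_compl_mem {j | ¬ GG g N (p j) ∧ ((∃ n : ℕ, p j = pure n) ∨ RK v (p j))}
    with hJ | hJ
  · by_cases hG : GG g N (v.bind p)
    swap
    · exact Or.inl ⟨hG, Or.inr ⟨τ, hτq⟩⟩
    obtain ⟨a, ha, hq⟩ := hG
    by_cases hap : ∃ n : ℕ, a = pure n
    · obtain ⟨n, rfl⟩ := hap
      exact Or.inr ⟨_, ha, hq, Or.inl ⟨h n, rfl⟩⟩
    exfalso
    have hanp : NP a := fun n hn => hap ⟨n, hn⟩
    set J := {j | ¬ GG g N (p j) ∧ ((∃ n : ℕ, p j = pure n) ∨ RK v (p j))} with hJdef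
    have hM : {n | n ∈ N ∧ ∀ R ∈ g n, ∃ j ∈ J, R ∈ p j} ∈ a := by
      by_contra hn
      have hM' := inter_mem ha (Ultrafilter.compl_mem_iff_notMem.2 hn)
      refine separation (g := g) (p := p) hM' hJ ?_ ?_ hq.symm
      · rintro n ⟨hn1, hn2⟩
        by_contra hc
        push Not at hc
        exact hn2 ⟨hn1, hc⟩
      · intro j hj
        obtain ⟨Q, hQ, hQ'⟩ := not_GG hj.1
        exact ⟨Q, hQ, fun n hn => hQ' n hn.1⟩
    have hφ : ∀ j, ∃ n : ℕ, (∃ n : ℕ, p j = pure n) → p j = pure n := fun j => by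
      by_cases h : ∃ n : ℕ, p j = pure n
      · obtain ⟨n, hn⟩ := h
        exact ⟨n, fun _ => hn⟩
      · exact ⟨0, fun h' => (h h').elim⟩
    choose φ hφ using hφ
    refine K2 (v := v) (g := fun n => (g n).map τ) (ρ := ρ ∘ φ) hanp ?_ ?_
    · filter_upwards [hM] with n hn
      obtain ⟨c, hc, hgc⟩ := closure_lemma hn.2
      have hcτ : (g n).map τ = c := by rw [hgc]; exact map_bind_part (univ_mem' hτ)
      have hcnp : NP c := by
        rintro j rfl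
        exact (show j ∈ J from hc).1 ⟨pure n, hn.1, hgc.symm⟩
      have hpr : {j | ∃ n : ℕ, p j = pure n} ∈ c := by
        by_contra hcon
        refine K2 (v := v) (g := p) (ρ := τ) hcnp ?_ (hgc ▸ (hN n hn.1).2.rk)
        filter_upwards [hc, Ultrafilter.compl_mem_iff_notMem.2 hcon] with j hj hj'
        exact ⟨hτ j, hj.2.resolve_left hj'⟩
      have hgφ : c.map φ = g n := by
        rw [hgc, ← bind_pure']
        apply UFA.bind_congr
        filter_upwards [hpr] with j hj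
        exact (hφ j hj).symm
      rw [hcτ]
      refine ⟨?_, (hN n hn.1).2.symm.rk.trans ⟨φ, hgφ⟩⟩
      rw [← Ultrafilter.map_map, hgφ]
      exact (hN n hn.1).1
    · rw [← UFA.map_bind, ← hq, hτq]
      exact RK.refl v
  · have : ∀ j, ∃ a : UF, (¬ (¬ GG g N (p j) ∧ ((∃ n : ℕ, p j = pure n) ∨ RK v (p j)))) →
        N ∈ a ∧ p j = a.bind g := fun j => by
      rcases hp j with h | ⟨a, h1, h2, -⟩
      · exact ⟨v, fun h' => (h' h).elim⟩
      · exact ⟨a, fun _ => ⟨h1, h2⟩⟩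
    choose a ha using this
    let κ : ℕ → ℕ := fun c =>
      if hc : ∃ j, ∃ n ∈ N, h n = c ∧ S j ∈ g n then Nat.find hc else 0
    refine Or.inr ⟨v.bind a, ?_, ?_, Or.inr ⟨κ, ?_⟩⟩
    · rw [UFA.mem_bind]
      filter_upwards [hJ] with j hj
      exact (ha j hj).1
    · rw [UFA.bind_bind]
      apply UFA.bind_congr
      filter_upwards [hJ] with j hj
      exact (ha j hj).2
    · rw [Ultrafilter.map_map]
      apply map_bind_part
      filter_upwards [hJ] with j hj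
      obtain ⟨h3, h4⟩ := ha j hj
      rw [map_eq_pure]
      have h5 : {n | S j ∈ g n} ∈ a j := (UFA.mem_bind _ _ _).1 (h4 ▸ h1 j)
      have h6 : ∀ᶠ n in (a j : Filter ℕ), ∀ i ∈ Iio j, S i ∉ g n :=
        (eventually_all_finite (finite_Iio j)).2 fun i hi => by
          have := h2 i j (ne_of_lt hi)
          rw [h4, UFA.mem_bind] at this
          exact Ultrafilter.compl_mem_iff_notMem.2 this
      filter_upwards [h3, h5, h6] with n hn hn5 hn6
      have hex : ∃ j, ∃ m ∈ N, h m = h n ∧ S j ∈ g m := ⟨j, n, hn, rfl, hn5⟩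
      simp only [comp, κ, dif_pos hex]
      rw [Nat.find_eq_iff]
      refine ⟨⟨n, hn, rfl, hn5⟩, ?_⟩
      rintro i hi ⟨m, hm, hmn, hS⟩
      exact hn6 i hi ((hSA i m hm n hn hmn).1 hS)

/-- predecessors of an ultrafilter that is not Rudin-Keisler minimal -/
theorem iso_of_cf {v u w : UF} (hu : NP u) (huv : RK u v) (hvu : ¬ RK v u) (hw : NP w)
    (hcf : CFLe w v) : Iso v w := by
  obtain ⟨b, g, ρ, hb, rfl, hb'⟩ := hcf.decomp hw
  rcases hb' with ⟨n, rfl⟩ | hvb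
  · exact hb.2
  exfalso
  have hv : NP v := hu.of_RK huv
  obtain ⟨h, hh⟩ := huv.trans hvb
  set N := {n | (g n).map ρ = pure n ∧ Iso v (g n)} with hN
  let X : Set (Alg g N h → Bool) := {x | ∃ p, YY v g N h p ∧ x = rr _ p}
  have hX : DUCompact v X := by
    intro e hi hd
    choose p hp hep using fun j => (e j).2
    have hd' := (discrete_image IsEmbedding.subtypeVal).1 hd
    have : ∀ j, ∃ S ∈ Alg g N h, S ∈ p j ∧ ∀ i, j ≠ i → S ∉ p i := by
      intro j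
      obtain ⟨U, hU, hUj⟩ := isDiscrete_iff_forall_mem_exists_isOpen.1 hd' _ ⟨j, rfl⟩
      have hj : (e j).1 ∈ U := (hUj.symm ▸ mem_singleton _ : (e j).1 ∈ U ∩ range _).1
      obtain ⟨S, hS, hS1, hS2⟩ := cylinder hU (hep j ▸ hj)
      refine ⟨S, hS, hS1, fun i hij hs => hij ?_⟩
      have : (e i).1 ∈ U ∩ range (Subtype.val ∘ e) := ⟨hep i ▸ hS2 _ hs, i, rfl⟩
      rw [hUj] at this
      exact (hi (Subtype.ext this)).symm
    choose S hSA h1 h2 using this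
    refine ⟨⟨_, _, YY_bind (fun n hn => hn) hp hSA h1 h2, rfl⟩, tendsto_subtype_rng.2 ?_⟩
    refine (rr_tendsto _ v p).congr fun j => (hep j).symm
  have hgnp : ∀ n ∈ N, NP (g n) := fun n hn => hv.of_RK hn.2.symm.rk
  have hsing : ∀ k : ℕ, ({k} : Set ℕ) ∈ Alg g N h := fun k n hn m hm _ =>
    iff_of_false ((hgnp n hn).fin (finite_singleton k)) ((hgnp m hm).fin (finite_singleton k))
  have hpG : ∀ k : ℕ, ¬ GG g N (pure k) := by
    rintro k ⟨a, ha, hk⟩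
    have : ({k} : Set ℕ) ∈ a.bind g := hk ▸ (mem_singleton k : k ∈ ({k} : Set ℕ))
    obtain ⟨n, h1, h2⟩ := Ultrafilter.nonempty_of_mem (inter_mem ha ((UFA.mem_bind _ _ _).1 this))
    exact (hgnp n h1).fin (finite_singleton k) h2
  let f : ℕ → X := fun k => ⟨rr _ (pure k), _, Or.inl ⟨hpG k, Or.inl ⟨k, rfl⟩⟩, rfl⟩
  have hfi : Injective f := fun a b hab =>
    Ultrafilter.pure_injective (F1 (hpG a) (congrArg Subtype.val hab))
  have hfd : IsDiscrete (range f) := by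
    rw [isDiscrete_iff_forall_mem_exists_isOpen]
    rintro _ ⟨k, rfl⟩
    refine ⟨{x | x.1 ⟨{k}, hsing k⟩ = true}, ?_, ?_⟩
    · exact (isOpen_discrete {true}).preimage
        ((continuous_apply (A := fun _ => Bool) _).comp continuous_subtype_val)
    · ext x
      constructor
      · rintro ⟨h1, m, rfl⟩
        have : m = k := by simpa [f, rr] using h1
        rw [this]; rfl
      · rintro rfl
        exact ⟨by simp [f, rr], k, rfl⟩
  obtain ⟨⟨x, p, hp, rfl⟩, hx⟩ := hcf X hX f hfi hfd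
  have hlim : rr (Alg g N h) p = rr _ (b.bind g) :=
    tendsto_nhds_unique (tendsto_subtype_rng.1 hx) (rr_tendsto _ (b.bind g) fun k => pure k)
  rcases hp with ⟨h1, -⟩ | ⟨a, ha, rfl, h2⟩
  · exact h1 ⟨b, hb, F1 h1 hlim⟩
  · rw [F2 (fun n hn => hn.1) ha hb hlim, hh] at h2
    rcases h2 with ⟨n, hn⟩ | h2
    · exact hu n hn
    · exact hvu h2

end Pool.Agent.H32.UFC
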