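import Pool.Agent.H32.MinSet

set_option autoImplicit false

namespace Pool.Agent.H32.URec

open Filter Topology

def UR {X : Type} [TopologicalSpace X] (T : X → X) (x : X) : Prop :=
  ∀ U ∈ 𝓝 x, ∃ g, ∀ k, ∃ m, k ≤ m ∧ m ≤ k + g ∧ T^[m] x ∈ U

def Good (q : Ultrafilter ℕ) : Prop :=
  ∀ A ∈ q, ∃ g, ∀ k, ∃ m, k ≤ m ∧ m ≤ k + g ∧ {n | n + m ∈ A} ∈ q

lemma lim_mem {X : Type} [TopologicalSpace X] {T : X → X} (hT : Continuous T) {q : Ultrafilter ℕ}
    {y z : X} (h : Tendsto (fun n => T^[n] y) q (𝓝 z)) (m : ℕ) :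
    Tendsto (fun n => T^[n + m] y) q (𝓝 (T^[m] z)) := by
  simpa only [add_comm _ m, Function.iterate_add_apply, Function.comp_def] using
    ((hT.iterate m).tendsto z).comp h

lemma ur_of_good {X : Type} [TopologicalSpace X] [RegularSpace X] {T : X → X} (hT : Continuous T)
    {q : Ultrafilter ℕ} (hq : Good q) {y z : X} (h : Tendsto (fun n => T^[n] y) q (𝓝 z)) :
    UR T z := by
  intro U hU
  obtain ⟨V, hV, cV, hVU⟩ := exists_mem_nhds_isClosed_subset hU
  obtain ⟨g, hg⟩ := hq _ (h hV)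
  exact ⟨g, fun k => (hg k).imp fun m hm =>
    ⟨hm.1, hm.2.1, hVU (cV.mem_of_tendsto (lim_mem hT h m) hm.2.2)⟩⟩

theorem joint {X : Type} [PseudoMetricSpace X] [CompleteSpace X] {T : X → X} (hT : Continuous T)
    {ι : Type} [Countable ι] (x : ι → X) (hx : ∀ i, UR T (x i)) :
    ∃ q, Good q ∧ ∀ i, x i ∈ closure {z | ∃ y, Tendsto (fun n => T^[n] y) q (𝓝 z)} := by
  let σ : Ultrafilter ℕ → Ultrafilter ℕ := Ultrafilter.map (· + 1)
  have cσ : Continuous σ := ultrafilterBasis_is_basis.continuous_iff.2 <|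
    Set.forall_mem_range.mpr fun s => ultrafilter_isOpen_basic ((· + 1) ⁻¹' s)
  have it : ∀ m q A, A ∈ σ^[m] q ↔ {n | n + m ∈ A} ∈ q := fun m => by
    induction m with
    | zero => exact fun _ _ => Iff.rfl
    | succ m ih => exact fun q A => by rw [Function.iterate_succ_apply']; exact ih q _
  obtain ⟨L, cL, ⟨p0, hp0⟩, iL, hL⟩ := MinSet.exists_minimal cσ
  have meet : ∀ i, ∀ V ∈ 𝓝 (x i), ({p : Ultrafilter ℕ | {n | T^[n] (x i) ∈ V} ∈ p} ∩ L).Nonempty := by
    intro i V hV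
    obtain ⟨g, hg⟩ := hx i V hV
    obtain ⟨r, -, hr⟩ := (Ultrafilter.finite_biUnion_mem_iff (f := p0)
      (s := fun r => {n | T^[n + r] (x i) ∈ V}) (Set.finite_le_nat g)).1
      (univ_mem' fun n => by
        obtain ⟨m, h1, h2, h3⟩ := hg n
        exact Set.mem_iUnion₂.2 ⟨m - n, show m - n ≤ g by omega, by
          rwa [Set.mem_ofPred_eq, Nat.add_sub_cancel' h1]⟩)
    exact ⟨σ^[r] p0, (it _ _ _).2 hr, iL.iterate r hp0⟩
  have := isCompact_iff_compactSpace.1 cL.isCompact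
  have : Nonempty L := ⟨⟨p0, hp0⟩⟩
  obtain ⟨q, hq⟩ := (dense_iInter_of_isOpen (f := fun j : ι × ℕ => {q : L | ∃ z,
      {n | T^[n] (x j.1) ∈ Metric.ball z (1 / (j.2 + 1))} ∈ q.1}) (fun j => by
      rw [Set.ofPred_exists]
      exact isOpen_iUnion fun z => (ultrafilter_isOpen_basic _).preimage continuous_subtype_val)
    fun j => dense_iff_inter_open.2 fun W hW ⟨p, hp⟩ => by
      obtain ⟨W', hW', rfl⟩ := isOpen_induced_iff.1 hW
      obtain ⟨g, hg⟩ := hL W' hW' ⟨p, hp, p.2⟩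
      obtain ⟨p', h1, h2⟩ := meet j.1 {y | ∀ m ∈ Set.Iic g, T^[m] y ∈
        Metric.ball (T^[m] (x j.1)) (1 / (j.2 + 1))} ((Set.finite_Iic g).eventually_all.2 fun m _ =>
          (hT.iterate m).continuousAt (Metric.ball_mem_nhds _ (by positivity)))
      obtain ⟨m, h3, h4⟩ := hg p' h2
      refine ⟨⟨σ^[m] p', iL.iterate m h2⟩, h4, T^[m] (x j.1), (it _ _ _).2 (mem_of_superset h1
        fun n hn => ?_)⟩
      rw [Set.mem_ofPred_eq, Set.mem_ofPred_eq, add_comm n m, Function.iterate_add_apply]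
      exact hn m h3).nonempty
  refine ⟨q.1, fun A hA => ?_, fun i => ?_⟩
  · obtain ⟨g, hg⟩ := hL _ (ultrafilter_isOpen_basic A) ⟨q, hA, q.2⟩
    refine ⟨g, fun k => ?_⟩
    obtain ⟨m, h1, h2⟩ := hg _ (iL.iterate k q.2)
    rw [← Function.iterate_add_apply] at h2
    exact ⟨m + k, by omega, by omega, (it _ _ _).1 h2⟩
  · obtain ⟨z, hz⟩ := CompleteSpace.complete (f := map (fun n => T^[n] (x i)) q.1)
      (Metric.cauchy_iff.2 ⟨inferInstance, fun ε hε => by
        obtain ⟨j, hj⟩ := exists_nat_one_div_lt (half_pos hε)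
        obtain ⟨z, hz⟩ := Set.mem_iInter.1 hq (i, j)
        exact ⟨_, hz, fun a ha b hb => (dist_triangle_right a b z).trans_lt (by
          rw [Metric.mem_ball] at ha hb
          linarith)⟩⟩)
    refine mem_closure_iff_nhds.2 fun U hU => ?_
    obtain ⟨V, hV, cV, hVU⟩ := exists_mem_nhds_isClosed_subset hU
    obtain ⟨g, hg⟩ := hL _ (ultrafilter_isOpen_basic _) (meet i V hV)
    obtain ⟨m, -, h2⟩ := hg q q.2
    exact ⟨T^[m] z, hVU (cV.mem_of_tendsto (lim_mem hT hz m) ((it _ _ _).1 h2)), T^[m] (x i), by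
      simpa only [Function.iterate_add_apply] using lim_mem hT hz m⟩

section inv
variable {X : Type} [TopologicalSpace X] {T S : X → X}

omit [TopologicalSpace X] in
lemma canc (h : Function.LeftInverse S T) (j m : ℕ) (x : X) : S^[j] (T^[j + m] x) = T^[m] x := by
  rw [Function.iterate_add_apply, h.iterate j]

theorem ur_inv [RegularSpace X] (hS : Continuous S) (h : Function.LeftInverse S T) {x : X}
    (hx : UR T x) : UR S x := by
  intro U hU
  obtain ⟨V, hV, cV, hVU⟩ := exists_mem_nhds_isClosed_subset hU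
  obtain ⟨g, hg⟩ := hx V hV
  refine ⟨g, fun k => ?_⟩
  by_contra hc
  push Not at hc
  obtain ⟨g', hg'⟩ := hx {y | ∀ j ∈ Set.Icc k (k + g), S^[j] y ∈ Vᶜ}
    ((Set.finite_Icc _ _).eventually_all.2 fun j hj => (hS.iterate j).continuousAt
      (cV.isOpen_compl.mem_nhds fun e => hc j hj.1 hj.2 (hVU e)))
  obtain ⟨n, h1, -, h2⟩ := hg' (k + g)
  obtain ⟨m, h3, h4, h5⟩ := hg (n - (k + g))
  refine h2 (n - m) ⟨by omega, by omega⟩ ?_
  rwa [← Nat.sub_add_cancel (show m ≤ n by omega), Nat.add_sub_cancel, canc h]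

def DR (T : X → X) (x : X) : Prop :=
  ∀ U ∈ 𝓝 x, ∀ s : ℕ → ℕ, StrictMono s → ∃ i j, i < j ∧ T^[s j - s i] x ∈ U

lemma DR.ur {x : X} (hx : DR T x) : UR T x := by
  intro U hU
  by_contra hc
  push Not at hc
  choose p hp using hc
  let b : ℕ → ℕ := fun i => Nat.rec 0 (fun _ b => p b + b + 1) i
  have sm : StrictMono b := strictMono_nat_of_lt_succ fun i => by
    change b i < p (b i) + b i + 1
    omega
  obtain ⟨i, j, hij, k⟩ := hx U hU (fun i => b (i + 1)) fun _ _ h => sm (Nat.succ_lt_succ h)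
  have k1 : b (i + 1) ≤ b j := sm.monotone hij
  have k2 : b (j + 1) = p (b j) + b j + 1 := rfl
  have k3 : b (i + 1) = p (b i) + b i + 1 := rfl
  exact hp (b j) _ (by omega) (by omega) k

theorem dr_inv [RegularSpace X] (hT : Continuous T) (hS : Continuous S)
    (h : Function.LeftInverse S T) {x : X} (hx : DR T x) : DR S x := by
  intro U hU s hs
  obtain ⟨V, hV, cV, hVU⟩ := exists_mem_nhds_isClosed_subset hU
  by_contra hc
  push Not at hc
  have step : ∀ W ∈ 𝓝 x, ∀ K, ∃ n m, K < m ∧ T^[n] x ∈ W ∧ T^[m] x ∈ W ∧ S^[m] (T^[n] x) ∉ V := by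
    intro W hW K
    obtain ⟨g, hg⟩ := hx.ur W hW
    choose m h1 h2 h3 using fun i => hg (s i)
    obtain ⟨r, hr⟩ := Finite.exists_infinite_fiber fun i => (⟨m i - s i, by
      have := h2 i; omega⟩ : Fin (g + 1))
    rw [Set.infinite_coe_iff] at hr
    obtain ⟨i, hi⟩ := hr.nonempty
    obtain ⟨j, hj, hij⟩ := hr.exists_gt (i + K)
    have e1 : m i - s i = r := congrArg Fin.val hi
    have e2 : m j - s j = r := congrArg Fin.val hj
    have k1 := hs (show i < j by omega)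
    have k2 := hs.le_apply (x := j)
    have k3 := h1 i
    have k4 := h1 j
    refine ⟨m i, m j, by omega, h3 i, h3 j, fun e => hc i j (by omega) (hVU ?_)⟩
    rwa [show m j = s j - s i + m i by omega, Function.iterate_add_apply, h.iterate] at e
  have st : ∀ (F : Finset (ℕ × ℕ)) (K : ℕ), (∀ p ∈ F, S^[p.1] (T^[p.2] x) ∉ V) → ∃ n m, K < m ∧
      S^[m] (T^[n] x) ∉ V ∧ ∀ p ∈ F, S^[p.1] (T^[p.2 + n] x) ∉ V ∧ S^[p.1] (T^[p.2 + m] x) ∉ V := by
    intro F K hF
    obtain ⟨n, m, h1, h2, h3, h4⟩ := step {y | ∀ p ∈ F, S^[p.1] (T^[p.2] y) ∈ Vᶜ}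
      ((Finset.eventually_all F).2 fun p hp => ((hS.iterate _).comp (hT.iterate _)).continuousAt
        (cV.isOpen_compl.mem_nhds (hF p hp))) K
    exact ⟨n, m, h1, h4, fun p hp => by
      simp only [Function.iterate_add_apply]
      exact ⟨h2 p hp, h3 p hp⟩⟩
  choose! n m h1 h2 h3 using st
  let z : ℕ → Finset (ℕ × ℕ) × ℕ × ℕ := fun k => Nat.rec (∅, 0, 0) (fun _ z =>
    (insert (m z.1 z.2.1, n z.1 z.2.1) (z.1.image fun p => (p.1, p.2 + n z.1 z.2.1)), m z.1 z.2.1,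
      z.2.2 + n z.1 z.2.1)) k
  have inv : ∀ k, ∀ p ∈ (z k).1, S^[p.1] (T^[p.2] x) ∉ V := fun k => by
    induction k with
    | zero => exact fun p hp => absurd hp (Finset.notMem_empty _)
    | succ k ih =>
      intro p hp
      rcases Finset.mem_insert.1 hp with rfl | hp
      · exact h2 _ _ ih
      · obtain ⟨p', hp', rfl⟩ := Finset.mem_image.1 hp
        exact (h3 _ (z k).2.1 ih p' hp').1
  have mM : StrictMono fun k => (z k).2.1 := strictMono_nat_of_lt_succ fun k => h1 _ _ (inv k)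
  have mN : Monotone fun k => (z k).2.2 := monotone_nat_of_le_succ fun k => Nat.le_add_right _ _
  have mem : ∀ i k, i < k → ((z (i + 1)).2.1, (z k).2.2 - (z i).2.2) ∈ (z k).1 := by
    intro i k hik
    induction hik with
    | refl => exact Finset.mem_insert.2 (Or.inl (Prod.ext rfl (Nat.add_sub_cancel_left _ _)))
    | @step k hk ih =>
      exact Finset.mem_insert_of_mem (Finset.mem_image.2 ⟨_, ih, Prod.ext rfl
        (Nat.sub_add_comm (mN (Nat.le_of_succ_le hk))).symm⟩)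
  obtain ⟨i, j, hij, e⟩ := hx V hV (fun k => (z (k + 1)).2.1 + (z k).2.2) fun a b hab =>
    add_lt_add_of_lt_of_le (mM (Nat.succ_lt_succ hab)) (mN hab.le)
  refine (h3 _ (z j).2.1 (inv j) _ (mem i j hij)).2 ?_
  have k1 := mM (Nat.succ_lt_succ hij)
  have k2 := mN hij.le
  have k3 : (z (j + 1)).2.1 = m (z j).1 (z j).2.1 := rfl
  simp only [Nat.succ_eq_add_one] at k1 k2 e ⊢
  rwa [← k3, show (z j).2.2 - (z i).2.2 + (z (j + 1)).2.1 = (z (i + 1)).2.1 + ((z (j + 1)).2.1 +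
    (z j).2.2 - ((z (i + 1)).2.1 + (z i).2.2)) by omega, canc h]

end inv

end Pool.Agent.H32.URec
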