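import Mathlib

set_option autoImplicit false

namespace Pool.Agent.H32.Ucem

open MeasureTheory ProbabilityTheory Set Filter Topology
open scoped ENNReal

noncomputable section

abbrev coin : Measure Bool := (PMF.uniformOfFintype Bool).toMeasure

abbrev π (ι : Type) : Measure (ι → Bool) := Measure.infinitePi fun _ : ι => coin

lemma coin_single (b : Bool) : coin {b} = 2⁻¹ := by
  rw [PMF.toMeasure_apply_singleton _ _ (measurableSet_singleton _)]
  simp

lemma mp_comp {ι K : Type} {f : K → ι} (hf : Function.Injective f) :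
    MeasurePreserving (fun (x : ι → Bool) k => x (f k)) (π ι) (π K) :=
  ⟨by fun_prop, Measure.map_infinitePi_infinitePi_of_inj (P := fun _ : ι => coin) hf⟩

lemma comap_le {ι K : Type} (f : K → ι) :
    MeasurableSpace.comap (fun (x : ι → Bool) k => x (f k)) MeasurableSpace.pi ≤
      ⨆ i ∈ range f, MeasurableSpace.comap (fun x : ι → Bool => x i) inferInstance := by
  rw [MeasurableSpace.pi, MeasurableSpace.comap_iSup]
  refine iSup_le fun k => ?_
  rw [MeasurableSpace.comap_comp]
  exact le_iSup₂_of_le (f k) (mem_range_self k) le_rfl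

lemma split {ι K L : Type} {f : K → ι} {g : L → ι} (hf : Function.Injective f)
    (hg : Function.Injective g) (h : ∀ a b, f a ≠ g b) :
    MeasurePreserving (fun (x : ι → Bool) => (fun k => x (f k), fun k => x (g k))) (π ι)
      ((π K).prod (π L)) := by
  refine ⟨by fun_prop, ?_⟩
  have h1 := (iIndepFun_infinitePi (P := fun _ : ι => coin) (X := fun _ a => a)
    (fun _ => measurable_id)).iIndep
  have h2 := indep_iSup_of_disjoint (fun i => (measurable_pi_apply i).comap_le) h1
    (S := range f) (T := range g) (by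
      rw [Set.disjoint_left]
      rintro _ ⟨a, rfl⟩ ⟨b, hb⟩
      exact h a b hb.symm)
  have h3 : IndepFun (fun (x : ι → Bool) k => x (f k)) (fun (x : ι → Bool) k => x (g k)) (π ι) := by
    rw [IndepFun_iff_Indep]
    exact indep_of_indep_of_le_right (indep_of_indep_of_le_left h2 (comap_le f)) (comap_le g)
  rw [h3.map_prod_eq_prod_map_map (mp_comp hf).measurable.aemeasurable
    (mp_comp hg).measurable.aemeasurable, (mp_comp hf).map_eq,
    (mp_comp hg).map_eq]

abbrev X := List Bool → Bool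
abbrev Ξ := ℕ → Bool

def S (u : List Bool) (x : X) : X := fun w => x (u ++ w)
def res (n : ℕ) (ξ : Ξ) : Fin n → Bool := fun i => ξ i
def θ (n : ℕ) (ξ : Ξ) : Ξ := fun i => ξ (n + i)
def T (n : ℕ) (p : X × Ξ) : X × Ξ := (S (List.ofFn (res n p.2)) p.1, θ n p.2)
def Φ (p : X × Ξ) : ℕ → X := fun n => (T n p).1

abbrev Q : Measure (X × Ξ) := (π (List Bool)).prod (π ℕ)

lemma mp_S (u : List Bool) : MeasurePreserving (S u) (π _) (π _) :=
  mp_comp (List.append_right_injective u)

lemma measurable_S (u : List Bool) : Measurable (S u) := (mp_S u).measurable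

lemma S_S (u v : List Bool) (x : X) : S v (S u x) = S (u ++ v) x := by
  funext w
  simp [S]

lemma measurable_res (n : ℕ) : Measurable (res n) := by
  unfold res
  fun_prop

lemma measurable_θ (n : ℕ) : Measurable (θ n) := by
  unfold θ
  fun_prop

lemma measurable_T (n : ℕ) : Measurable (T n) := by
  refine Measurable.prodMk ?_ ((measurable_θ n).comp measurable_snd)
  have : Measurable fun q : X × (Fin n → Bool) => S (List.ofFn q.2) q.1 :=
    measurable_from_prod_countable_left fun u => measurable_S (List.ofFn u)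
  exact this.comp (measurable_fst.prodMk ((measurable_res n).comp measurable_snd))

lemma measurable_Φ : Measurable Φ := measurable_pi_lambda _ fun n => (measurable_T n).fst

lemma T_T (l k : ℕ) (p : X × Ξ) : T k (T l p) = T (l + k) p := by
  unfold T
  refine Prod.ext ?_ ?_
  · simp only [S_S]
    rw [List.ofFn_add]
    rfl
  · funext i
    simp [θ, add_assoc]

lemma Φ_T (l : ℕ) (p : X × Ξ) : Φ (T l p) = fun i => Φ p (l + i) := by
  funext i
  simp [Φ, T_T]

lemma intg {Ω : Type} [MeasurableSpace Ω] (P : Measure Ω) [IsFiniteMeasure P] {f : Ω → ℝ}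
    (hf : Measurable f) (hb : ∀ x, |f x| ≤ 1) : Integrable f P :=
  Integrable.of_bound hf.aestronglyMeasurable 1 (ae_of_all _ hb)

lemma abs_int_le {Ω : Type} [MeasurableSpace Ω] (P : Measure Ω) [IsProbabilityMeasure P]
    {f : Ω → ℝ} (hb : ∀ x, |f x| ≤ 1) : |∫ x, f x ∂P| ≤ 1 := by
  have := norm_integral_le_of_norm_le_const (μ := P) (f := f) (C := 1) (ae_of_all _ hb)
  simpa using this

lemma int_split (l : ℕ) (F : (Fin l → Bool) → Ξ → ℝ) (hF : ∀ u, Measurable (F u))
    (hb : ∀ u η, |F u η| ≤ 1) :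
    ∫ ξ, F (res l ξ) (θ l ξ) ∂π ℕ = ∑ u, (1 / 2) ^ l * ∫ η, F u η ∂π ℕ := by
  have hm : Measurable fun q : (Fin l → Bool) × Ξ => F q.1 q.2 :=
    measurable_from_prod_countable_right hF
  have h1 := split (f := fun i : Fin l => (i : ℕ)) (g := fun i => l + i) Fin.val_injective
    (add_right_injective l) (fun a b => by have := a.2; omega)
  have h2 : ∫ ξ, F (res l ξ) (θ l ξ) ∂π ℕ = ∫ q, F q.1 q.2 ∂((π (Fin l)).prod (π ℕ)) := by
    rw [← h1.map_eq, integral_map h1.measurable.aemeasurable hm.aestronglyMeasurable]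
    rfl
  rw [h2, integral_prod _ (intg _ hm fun q => hb _ _), integral_fintype (by simp)]
  refine Finset.sum_congr rfl fun u _ => ?_
  rw [smul_eq_mul, Measure.real, Measure.infinitePi_singleton_of_fintype]
  simp

def E (G : X × Ξ → ℝ) (x : X) : ℝ := ∫ η, G (x, η) ∂π ℕ

lemma measurable_E {G : X × Ξ → ℝ} (hG : Measurable G) : Measurable (E G) :=
  (hG.stronglyMeasurable.integral_prod_right' (ν := π ℕ)).measurable

lemma sum_half (l : ℕ) (c : ℝ) : ∑ _u : Fin l → Bool, (1 / 2 : ℝ) ^ l * c = c := by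
  simp

lemma int_S (u : List Bool) {g : X → ℝ} (hg : Measurable g) :
    ∫ x, g (S u x) ∂π _ = ∫ x, g x ∂π _ := by
  conv_rhs => rw [← (mp_S u).map_eq, integral_map (measurable_S u).aemeasurable
    hg.aestronglyMeasurable]

lemma markov (l : ℕ) (a : (Fin l → Bool) → X → ℝ) (ha : ∀ u, Measurable (a u))
    (hab : ∀ u x, |a u x| ≤ 1) {G : X × Ξ → ℝ} (hG : Measurable G) (hb : ∀ p, |G p| ≤ 1) :
    ∫ p, a (res l p.2) p.1 * G (T l p) ∂Q =
      ∑ u, (1 / 2) ^ l * ∫ x, a u x * E G (S (List.ofFn u) x) ∂π _ := by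
  have hm : Measurable fun q : X × (Fin l → Bool) => a q.2 q.1 :=
    measurable_from_prod_countable_left ha
  have hm2 : Measurable fun p : X × Ξ => a (res l p.2) p.1 * G (T l p) :=
    (hm.comp (measurable_fst.prodMk ((measurable_res l).comp measurable_snd))).mul
      (hG.comp (measurable_T l))
  have hmul : ∀ {s t : ℝ}, |s| ≤ 1 → |t| ≤ 1 → |s * t| ≤ 1 := fun hs ht => by
    rw [abs_mul]
    exact mul_le_one₀ hs (abs_nonneg _) ht
  rw [integral_prod _ (intg _ hm2 fun p => hmul (hab _ _) (hb _))]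
  have : ∀ x, ∫ ξ, a (res l ξ) x * G (T l (x, ξ)) ∂π ℕ =
      ∑ u, (1 / 2) ^ l * (a u x * E G (S (List.ofFn u) x)) := by
    intro x
    have := int_split l (fun u η => a u x * G (S (List.ofFn u) x, η))
      (fun u => (hG.comp measurable_prodMk_left).const_mul _) fun u η => hmul (hab _ _) (hb _)
    simp only [integral_const_mul] at this
    exact this
  simp only [this]
  rw [integral_finsetSum]
  · simp only [integral_const_mul]
  · intro u _
    exact (intg _ ((ha u).mul ((measurable_E hG).comp (measurable_S _))) fun x =>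
      hmul (hab _ _) (abs_int_le _ fun η => hb _)).const_mul _

lemma int_E {G : X × Ξ → ℝ} (hG : Measurable G) (hb : ∀ p, |G p| ≤ 1) :
    ∫ x, E G x ∂π _ = ∫ p, G p ∂Q := (integral_prod _ (intg _ hG hb)).symm

lemma int_T (l : ℕ) {G : X × Ξ → ℝ} (hG : Measurable G) (hb : ∀ p, |G p| ≤ 1) :
    ∫ p, G (T l p) ∂Q = ∫ p, G p ∂Q := by
  have := markov l (fun _ _ => 1) (fun _ => measurable_const) (fun _ _ => by simp) hG hb
  simp only [one_mul] at this
  rw [this]
  simp only [int_S _ (measurable_E hG)]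
  rw [sum_half, int_E hG hb]

lemma abs_ind {Ω : Type} (B : Set Ω) (p : Ω) : |B.indicator (1 : Ω → ℝ) p| ≤ 1 := by
  by_cases h : p ∈ B <;> simp [h]

lemma mp_T (l : ℕ) : MeasurePreserving (T l) Q Q := by
  refine ⟨measurable_T l, ?_⟩
  ext B hB
  rw [Measure.map_apply (measurable_T l) hB, ← ENNReal.toReal_eq_toReal_iff' (measure_ne_top _ _)
    (measure_ne_top _ _)]
  have := int_T l (measurable_one.indicator hB) (abs_ind B)
  rw [integral_indicator_one hB] at this
  rw [← Measure.real, ← Measure.real, ← this, ← integral_indicator_one (measurable_T l hB)]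
  rfl

lemma E_T (k : ℕ) {G : X × Ξ → ℝ} (hG : Measurable G) (hb : ∀ p, |G p| ≤ 1) (x : X) :
    E (fun p => G (T k p)) x = ∑ u : Fin k → Bool, (1 / 2) ^ k * E G (S (List.ofFn u) x) :=
  int_split k (fun u η => G (S (List.ofFn u) x, η))
    (fun _ => hG.comp measurable_prodMk_left) fun _ _ => hb _

lemma orth {k : ℕ} {u v : Fin k → Bool} (huv : u ≠ v) {h : X → ℝ} (hh : Measurable h)
    (h0 : ∫ x, h x ∂π _ = 0) : ∫ x, h (S (List.ofFn u) x) * h (S (List.ofFn v) x) ∂π _ = 0 := by
  have h1 := split (f := fun w => List.ofFn u ++ w) (g := fun w => List.ofFn v ++ w)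
    (List.append_right_injective _) (List.append_right_injective _) fun a b hab =>
      huv (List.ofFn_injective (List.append_inj_left hab (by simp)))
  have hm : Measurable fun q : X × X => h q.1 * h q.2 := (hh.comp measurable_fst).mul
    (hh.comp measurable_snd)
  have h2 : ∫ x, h (S (List.ofFn u) x) * h (S (List.ofFn v) x) ∂π _ =
      ∫ q, h q.1 * h q.2 ∂((π _).prod (π _)) := by
    rw [← h1.map_eq, integral_map h1.measurable.aemeasurable hm.aestronglyMeasurable]
    rfl
  rw [h2, integral_prod_mul, h0, zero_mul]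

lemma var_le (k : ℕ) {h : X → ℝ} (hh : Measurable h) (hb : ∀ x, |h x| ≤ 1)
    (h0 : ∫ x, h x ∂π _ = 0) :
    ∫ x, (∑ u : Fin k → Bool, (1 / 2) ^ k * h (S (List.ofFn u) x)) ^ 2 ∂π _ ≤ (1 / 2) ^ k := by
  classical
  have hmul : ∀ {s t : ℝ}, |s| ≤ 1 → |t| ≤ 1 → |s * t| ≤ 1 := fun hs ht => by
    rw [abs_mul]
    exact mul_le_one₀ hs (abs_nonneg _) ht
  have hi : ∀ u v : Fin k → Bool, Integrable (fun x => (1 / 2 : ℝ) ^ k * (1 / 2) ^ k *
      (h (S (List.ofFn u) x) * h (S (List.ofFn v) x))) (π _) := fun u v =>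
    (intg _ ((hh.comp (measurable_S _)).mul (hh.comp (measurable_S _))) fun x =>
      hmul (hb _) (hb _)).const_mul _
  have : ∀ x, (∑ u : Fin k → Bool, (1 / 2 : ℝ) ^ k * h (S (List.ofFn u) x)) ^ 2 =
      ∑ u : Fin k → Bool, ∑ v : Fin k → Bool, (1 / 2 : ℝ) ^ k * (1 / 2) ^ k *
        (h (S (List.ofFn u) x) * h (S (List.ofFn v) x)) := by
    intro x
    rw [sq, Finset.sum_mul_sum]
    exact Finset.sum_congr rfl fun u _ => Finset.sum_congr rfl fun v _ => by ring
  simp only [this]
  rw [integral_finsetSum _ fun u _ => integrable_finsetSum _ fun v _ => hi u v]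
  refine le_trans (Finset.sum_le_sum fun u _ => ?_) (le_of_eq (sum_half k ((1 / 2) ^ k)))
  rw [integral_finsetSum _ fun v _ => hi u v, Finset.sum_eq_single u]
  · rw [integral_const_mul]
    exact mul_le_of_le_one_right (by positivity)
      ((le_abs_self _).trans (abs_int_le _ fun x => hmul (hb _) (hb _)))
  · intro v _ hv
    rw [integral_const_mul, orth (Ne.symm hv) hh h0, mul_zero]
  · simp

lemma mix (l k : ℕ) (a : (Fin l → Bool) → X → ℝ) (ha : ∀ u, Measurable (a u))
    (hab : ∀ u x, |a u x| ≤ 1) {G : X × Ξ → ℝ} (hG : Measurable G) (hb : ∀ p, |G p| ≤ 1)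
    (h0 : ∫ p, G p ∂Q = 0) {ε : ℝ} (hε : 0 < ε) (hk : (1 / 2) ^ k ≤ ε ^ 2) :
    |∫ p, a (res l p.2) p.1 * G (T (l + k) p) ∂Q| ≤ ε := by
  have hG' : Measurable fun p => G (T k p) := hG.comp (measurable_T k)
  have hb' : ∀ x, |E (fun p => G (T k p)) x| ≤ 1 := fun x => abs_int_le _ fun η => hb _
  have h1 := markov l a ha hab hG' fun p => hb _
  simp only [T_T] at h1
  rw [h1]
  set g := E fun p => G (T k p) with hg
  have hgm : Measurable g := measurable_E hG'
  have h2 : ∫ x, g x ^ 2 ∂π _ ≤ ε ^ 2 := by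
    simp only [hg, E_T k hG hb]
    exact (var_le k (measurable_E hG) (fun x => abs_int_le _ fun η => hb _)
      ((int_E hG hb).trans h0)).trans hk
  have i2 : Integrable (fun x => g x ^ 2) (π _) := intg _ (hgm.pow_const 2) fun x => by
    rw [abs_pow]
    exact pow_le_one₀ (abs_nonneg _) (hb' x)
  have h3 : ∫ x, |g x| ∂π _ ≤ ε := by
    have : ∫ x, |g x| ∂π _ ≤ ∫ x, (ε / 2 + (2 * ε)⁻¹ * g x ^ 2) ∂π _ := by
      refine integral_mono (intg _ hgm hb').abs ((integrable_const _).add (i2.const_mul _)) fun x => ?_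
      have : (2 * ε)⁻¹ * g x ^ 2 = |g x| ^ 2 / (2 * ε) := by
        rw [sq_abs]
        ring
      simp only [this]
      rw [← sub_le_iff_le_add', le_div_iff₀ (by positivity)]
      nlinarith [sq_nonneg (|g x| - ε)]
    rw [integral_add (integrable_const _) (i2.const_mul _), integral_const_mul] at this
    simp only [integral_const, probReal_univ, smul_eq_mul, one_mul] at this
    have h4 : (2 * ε)⁻¹ * ∫ x, g x ^ 2 ∂π _ ≤ (2 * ε)⁻¹ * ε ^ 2 := by gcongr
    have h5 : (2 * ε)⁻¹ * ε ^ 2 = ε / 2 := by field_simp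
    linarith
  refine (Finset.abs_sum_le_sum_abs _ _).trans (le_trans (Finset.sum_le_sum fun u _ => ?_)
    (le_of_eq (sum_half l ε)))
  rw [abs_mul, abs_of_nonneg (by positivity)]
  refine mul_le_mul_of_nonneg_left ((abs_integral_le_integral_abs).trans ?_) (by positivity)
  refine le_trans ?_ h3
  rw [← int_S (List.ofFn u) hgm.abs]
  refine integral_mono_of_nonneg (ae_of_all _ fun x => abs_nonneg _)
    (intg _ (hgm.comp (measurable_S _)) fun x => hb' _).abs (ae_of_all _ fun x => ?_)
  simp only [abs_mul]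
  exact mul_le_of_le_one_left (abs_nonneg _) (hab _ _)

def P : Measure (ℕ → X) := Q.map Φ

instance : IsProbabilityMeasure P := Measure.isProbabilityMeasure_map measurable_Φ.aemeasurable

lemma P_shift (n : ℕ) : P.map (fun (ω : ℕ → X) (i : ℕ) => ω (n + i)) = P := by
  rw [P, Measure.map_map (by fun_prop) measurable_Φ]
  conv_rhs => rw [← (mp_T n).map_eq, Measure.map_map measurable_Φ (measurable_T n)]
  congr 1
  funext p
  exact (Φ_T n p).symm

lemma P_marg : π (List Bool) = P.map fun ω : ℕ → X => ω 0 := by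
  rw [P, Measure.map_map (by fun_prop) measurable_Φ]
  have : ((fun ω : ℕ → X => ω 0) ∘ Φ) = Prod.fst := by
    funext p
    funext w
    simp [Φ, T, S]
  rw [this, Measure.map_fst_prod]
  simp

lemma alpha (l k : ℕ) (A B : Set (ℕ → X))
    (hA : MeasurableSet[⨆ (i : ℕ) (_ : i ≤ l),
      MeasurableSpace.comap (fun ω : ℕ → X => ω i) inferInstance] A)
    (hB : MeasurableSet[⨆ (i : ℕ) (_ : l + k ≤ i),
      MeasurableSpace.comap (fun ω : ℕ → X => ω i) inferInstance] B)
    {ε : ℝ} (hε : 0 < ε) (hk : (1 / 2) ^ k ≤ ε ^ 2) :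
    |P.real (A ∩ B) - P.real A * P.real B| ≤ ε := by
  have gen : ∀ (f : ℕ → ℕ) (q : ℕ → Prop), (∀ i, q i → ∃ j, f j = i) →
      (⨆ (i : ℕ) (_ : q i), MeasurableSpace.comap (fun ω : ℕ → X => ω i) inferInstance) ≤
        MeasurableSpace.comap (fun (ω : ℕ → X) j => ω (f j)) MeasurableSpace.pi := by
    intro f q h
    refine iSup₂_le fun i hi => ?_
    obtain ⟨j, rfl⟩ := h i hi
    have : (fun ω : ℕ → X => ω (f j)) = (fun ω : ℕ → X => ω j) ∘ fun (ω : ℕ → X) j => ω (f j) := rfl
    rw [this, ← MeasurableSpace.comap_comp]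
    exact MeasurableSpace.comap_mono (measurable_pi_apply j).comap_le
  obtain ⟨A0, hA0, rfl⟩ := gen (fun j => min j l) _ (fun i hi => ⟨i, min_eq_left hi⟩) A hA
  obtain ⟨B0, hB0, rfl⟩ := gen (fun j => l + k + j) _ (fun i hi => ⟨i - (l + k), by omega⟩) B hB
  have mA : MeasurableSet ((fun (ω : ℕ → X) j => ω (min j l)) ⁻¹' A0) :=
    hA0.preimage (by fun_prop)
  have mB : MeasurableSet ((fun (ω : ℕ → X) j => ω (l + k + j)) ⁻¹' B0) :=
    hB0.preimage (by fun_prop)
  set A := (fun (ω : ℕ → X) j => ω (min j l)) ⁻¹' A0 with hAd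
  set B := (fun (ω : ℕ → X) j => ω (l + k + j)) ⁻¹' B0 with hBd
  have hPB : P.real B = P.real B0 := by
    conv_rhs => rw [← P_shift (l + k), map_measureReal_apply (by fun_prop) hB0]
  have hint : ∀ C : Set (ℕ → X), MeasurableSet C →
      ∫ p, C.indicator (1 : (ℕ → X) → ℝ) (Φ p) ∂Q = P.real C := by
    intro C hC
    rw [← integral_indicator_one hC, P, integral_map measurable_Φ.aemeasurable
      (measurable_one.indicator hC).aestronglyMeasurable]
  have hi : ∀ C : Set (ℕ → X), MeasurableSet C →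
      Integrable (fun p => C.indicator (1 : (ℕ → X) → ℝ) (Φ p)) Q := fun C hC =>
    intg _ ((measurable_one.indicator hC).comp measurable_Φ) fun p => abs_ind _ _
  have h := mix l k (fun u x => A0.indicator (1 : (ℕ → X) → ℝ)
      fun i => S ((List.ofFn u).take i) x)
    (fun u => (measurable_one.indicator hA0).comp
      (measurable_pi_lambda _ fun i => measurable_S _)) (fun _ _ => abs_ind _ _)
    (G := fun p => B0.indicator (1 : (ℕ → X) → ℝ) (Φ p) - P.real B0)
    (((measurable_one.indicator hB0).comp measurable_Φ).sub_const _)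
    (fun p => by
      have h1 : 0 ≤ P.real B0 := measureReal_nonneg
      have h2 : P.real B0 ≤ 1 := measureReal_le_one
      rw [abs_le]
      by_cases h : Φ p ∈ B0
      · rw [indicator_of_mem h, Pi.one_apply]
        constructor <;> linarith
      · rw [indicator_of_notMem h]
        constructor <;> linarith)
    (by rw [integral_sub (hi _ hB0) (integrable_const _), hint _ hB0]; simp) hε hk
  refine le_trans (le_of_eq ?_) h
  congr 1
  rw [hPB, ← hint _ (mA.inter mB), ← hint _ mA, ← integral_mul_const,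
    ← integral_sub (hi _ (mA.inter mB)) ((hi _ mA).mul_const _)]
  refine integral_congr_ae (ae_of_all _ fun p => ?_)
  have e1 : (fun i => S ((List.ofFn (res l p.2)).take i) p.1) = fun j => Φ p (min j l) := by
    funext i
    simp only [Φ, T]
    congr 1
    refine List.ext_getElem (by simp) fun n h1 h2 => by simp [res]
  simp only [e1, Φ_T]
  have e2 : A0.indicator (1 : (ℕ → X) → ℝ) (fun j => Φ p (min j l)) = A.indicator 1 (Φ p) := rfl
  have e3 : B0.indicator (1 : (ℕ → X) → ℝ) (fun j => Φ p (l + k + j)) = B.indicator 1 (Φ p) := rfl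
  rw [e2, e3, inter_indicator_one, Pi.mul_apply]
  ring

lemma atom (x : X) : π (List Bool) {x} = 0 := by
  refine le_antisymm ?_ zero_le
  have h : ∀ n : ℕ, π (List Bool) {x} ≤ 2⁻¹ ^ n := by
    intro n
    have h1 := mp_comp (f := fun i : Fin n => List.replicate i true)
      (fun a b hab => Fin.ext (by simpa using congrArg List.length hab))
    have h2 := h1.measure_preimage (s := {fun i : Fin n => x (List.replicate i true)})
      (measurableSet_singleton _).nullMeasurableSet
    rw [Measure.infinitePi_singleton_of_fintype] at h2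
    simp only [coin_single, Finset.prod_const, Finset.card_univ, Fintype.card_fin] at h2
    rw [← h2]
    refine measure_mono ?_
    rintro _ rfl
    rfl
  exact ge_of_tendsto' (ENNReal.tendsto_pow_atTop_nhds_zero_of_lt_one (by norm_num)) h

def Chain (A : Finset X) : Prop := ∀ y ∈ A, ∀ z ∈ A, ∃ u, y = S u z ∨ z = S u y

def 𝓕 : Set (X → ℝ) := {f | ∃ A : Finset X, Chain A ∧ f = (A : Set X).indicator 1}

lemma F_inf : 𝓕.Infinite := by
  refine Set.infinite_of_injective_forall_mem
    (f := fun x : X => (({x} : Finset X) : Set X).indicator (1 : X → ℝ)) ?_ ?_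
  · intro x y h
    have := congrFun h x
    by_contra hne
    simp [hne] at this
  · intro x
    refine ⟨{x}, fun y hy z hz => ⟨[], Or.inl ?_⟩, rfl⟩
    rw [Finset.mem_singleton.1 hy, Finset.mem_singleton.1 hz]
    rfl

lemma int_F (A : Finset X) : ∫ y, (A : Set X).indicator (1 : X → ℝ) y ∂π _ = 0 := by
  rw [integral_indicator_one A.measurableSet, Measure.real,
    (measure_null_iff_singleton A.countable_toSet).2 fun x _ => atom x]
  rfl

lemma null_rel (m : ℕ) {i j : Fin m} (hij : i ≠ j) (u : List Bool) :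
    Measure.pi (fun _ : Fin m => π (List Bool)) {x | x i = S u (x j)} = 0 := by
  have hm : MeasurableSet {q : X × X | q.2 = S u q.1} :=
    measurableSet_eq_fun measurable_snd ((measurable_S u).comp measurable_fst)
  have h1 := Measure.infinitePi_map_eval_prod (P := fun _ : Fin m => π (List Bool)) hij.symm
  have h2 : ((π (List Bool)).prod (π (List Bool))) {q : X × X | q.2 = S u q.1} = 0 := by
    rw [Measure.measure_prod_null hm]
    exact ae_of_all _ fun y => atom (S u y)
  rw [← h1, Measure.map_apply (by fun_prop) hm, Measure.infinitePi_eq_pi] at h2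
  exact h2

lemma iid (ε : ℝ) (hε : 0 < ε) :
    Tendsto (fun m : ℕ => Measure.pi (fun _ : Fin m => π (List Bool))
      {x : Fin m → X | ∃ f ∈ 𝓕,
        ε < |(1 / (m : ℝ)) * ∑ i : Fin m, f (x i) - ∫ y, f y ∂π _|}) atTop (𝓝 0) := by
  classical
  refine tendsto_const_nhds.congr' ?_
  filter_upwards [(tendsto_one_div_atTop_nhds_zero_nat (𝕜 := ℝ)).eventually (ge_mem_nhds hε)]
    with m hm
  symm
  refine measure_mono_null (t := ⋃ i : Fin m, ⋃ j : Fin m, ⋃ (_ : i ≠ j), ⋃ u : List Bool,
    {x | x i = S u (x j)}) ?_ (measure_iUnion_null fun i => measure_iUnion_null fun j =>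
      measure_iUnion_null fun hij => measure_iUnion_null fun u => null_rel m hij u)
  rintro x ⟨_, ⟨A, hA, rfl⟩, hx⟩
  by_contra hc
  simp only [mem_iUnion, mem_ofPred_eq, not_exists] at hc
  rw [int_F, sub_zero] at hx
  have h1 : ∑ i : Fin m, (A : Set X).indicator (1 : X → ℝ) (x i) =
      (Finset.univ.filter fun i => x i ∈ A).card := by
    rw [Finset.card_filter]
    push_cast
    refine Finset.sum_congr rfl fun i _ => ?_
    by_cases h : x i ∈ A <;> simp [h]
  have h2 : (Finset.univ.filter fun i => x i ∈ A).card ≤ 1 := by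
    refine Finset.card_le_one.2 fun i hi j hj => ?_
    by_contra hij
    obtain ⟨u, h | h⟩ := hA _ (Finset.mem_filter.1 hi).2 _ (Finset.mem_filter.1 hj).2
    · exact hc i j hij u h
    · exact hc j i (Ne.symm hij) u h
  have h3 : ((Finset.univ.filter fun i => x i ∈ A).card : ℝ) ≤ 1 := by exact_mod_cast h2
  rw [h1, abs_of_nonneg (by positivity)] at hx
  have := mul_le_of_le_one_right (a := 1 / (m : ℝ)) (by positivity) h3
  linarith

lemma proc (m : ℕ) (hm : 1 ≤ m) : 1 ≤ P {ω : ℕ → X | ∃ f ∈ 𝓕,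
    (1 / 2 : ℝ) < |(1 / (m : ℝ)) * ∑ i ∈ Finset.range m, f (ω i) - ∫ y, f y ∂π _|} := by
  classical
  refine le_trans (le_of_eq ?_) (Measure.le_map_apply measurable_Φ.aemeasurable _)
  rw [← measure_univ (μ := Q)]
  congr 1
  symm
  refine eq_univ_of_forall fun p => ⟨_, ⟨(Finset.range m).image (Φ p), ?_, rfl⟩, ?_⟩
  · intro y hy z hz
    obtain ⟨i, -, rfl⟩ := Finset.mem_image.1 hy
    obtain ⟨j, -, rfl⟩ := Finset.mem_image.1 hz
    have key : ∀ a b : ℕ, ∃ u, Φ p (a + b) = S u (Φ p a) := fun a b =>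
      ⟨_, by simp only [Φ, ← T_T]; rfl⟩
    rcases le_total i j with h | h
    · obtain ⟨b, rfl⟩ := Nat.exists_eq_add_of_le h
      obtain ⟨u, hu⟩ := key i b
      exact ⟨u, Or.inr hu⟩
    · obtain ⟨b, rfl⟩ := Nat.exists_eq_add_of_le h
      obtain ⟨u, hu⟩ := key j b
      exact ⟨u, Or.inl hu⟩
  · rw [int_F, sub_zero, Finset.sum_congr rfl (g := fun _ => (1 : ℝ))]
    · have : (m : ℝ) ≠ 0 := by positivity
      simp only [Finset.sum_const, Finset.card_range, nsmul_eq_mul, mul_one, one_div,
        inv_mul_cancel₀ this]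
      norm_num
    · intro i hi
      exact indicator_of_mem (Finset.mem_coe.2 (Finset.mem_image_of_mem _ hi)) _

end

end Pool.Agent.H32.Ucem
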