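import Mathlib

set_option autoImplicit false

namespace Pool.Agent.H32.Uniq

open Finset

variable {X : Type} [Fintype X]

lemma pos_step (K : X → X → ℝ) (hK : ∀ x y, 0 ≤ K x y) (c : X → ℝ) (hc : ∀ x, ∑ y, K x y = c x)
    (d : X → ℝ) (hd : ∀ y, ∑ x, d x * K x y = c y * d y) {x y : X} (hx : 0 < d x) (h : 0 < K x y) :
    0 < d y := by
  have h0 : ∀ y, 0 ≤ c y := fun y => hc y ▸ sum_nonneg fun z _ => hK y z
  have h1 : ∀ y, c y * max (d y) 0 ≤ ∑ x, max (d x) 0 * K x y := fun y => by
    rw [mul_max_of_nonneg _ _ (h0 y), ← hd, mul_zero]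
    exact max_le (sum_le_sum fun x _ => mul_le_mul_of_nonneg_right (le_max_left _ _) (hK x y))
      (sum_nonneg fun x _ => mul_nonneg (le_max_right _ _) (hK x y))
  have h2 := (sum_eq_sum_iff_of_le fun y _ => h1 y).1 (by
    rw [sum_comm]
    simp only [← mul_sum, hc]
    simp only [mul_comm]) y (mem_univ y)
  have h3 : max (d x) 0 * K x y ≤ ∑ x, max (d x) 0 * K x y := single_le_sum
    (f := fun x => max (d x) 0 * K x y) (fun x _ => mul_nonneg (le_max_right _ _) (hK x y)) (mem_univ x)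
  by_contra k
  rw [← h2, max_eq_right (not_lt.1 k), max_eq_left hx.le, mul_zero] at h3
  exact absurd (mul_pos hx h) (not_lt.2 h3)

/-- A signed stationary vector of total mass zero vanishes if one state is reachable from its support. -/
theorem uniq (K : X → X → ℝ) (hK : ∀ x y, 0 ≤ K x y) (c : X → ℝ) (hc : ∀ x, ∑ y, K x y = c x)
    (d : X → ℝ) (hd : ∀ y, ∑ x, d x * K x y = c y * d y) (h0 : ∑ x, d x = 0) (z : X)
    (hz : ∀ x, d x ≠ 0 → Relation.ReflTransGen (fun a b => 0 < K a b) x z) (x : X) : d x = 0 := by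
  have key : ∀ d : X → ℝ, (∀ y, ∑ x, d x * K x y = c y * d y) → ∀ x z, 0 < d x →
      Relation.ReflTransGen (fun a b => 0 < K a b) x z → 0 < d z := by
    intro d hd x z hx h
    induction h with
    | refl => exact hx
    | tail _ h ih => exact pos_step K hK c hc d hd ih h
  by_contra hx
  have h1 : ∃ a, 0 < d a := by
    by_contra k
    push Not at k
    exact hx ((sum_eq_zero_iff_of_nonpos fun a _ => k a).1 h0 x (mem_univ x))
  have h2 : ∃ a, d a < 0 := by
    by_contra k
    push Not at k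
    exact hx ((sum_eq_zero_iff_of_nonneg fun a _ => k a).1 h0 x (mem_univ x))
  obtain ⟨a, ha⟩ := h1
  obtain ⟨b, hb⟩ := h2
  have k1 := key d hd a z ha (hz a ha.ne')
  have k2 := key (fun x => -d x) (fun y => by simp [hd]) b z (neg_pos.2 hb) (hz b hb.ne)
  linarith

theorem uniq_map {P I J : Type} [Fintype P] [Fintype I] [Fintype J] (σ : P → X → X)
    (μ : I → ℝ) (x : I → X) (ν : J → ℝ) (y : J → X)
    (hμ : ∀ f : X → ℝ, ∑ i, μ i * ∑ p, f (σ p (x i)) = Fintype.card P * ∑ i, μ i * f (x i))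
    (hν : ∀ f : X → ℝ, ∑ i, ν i * ∑ p, f (σ p (y i)) = Fintype.card P * ∑ i, ν i * f (y i))
    (h0 : ∑ i, μ i = ∑ j, ν j) (z : X)
    (h1 : ∀ i, Relation.ReflTransGen (fun a b => ∃ p, b = σ p a) (x i) z)
    (h2 : ∀ i, ν i ≠ 0 → Relation.ReflTransGen (fun a b => ∃ p, b = σ p a) (y i) z) (f : X → ℝ) :
    ∑ i, μ i * f (x i) = ∑ i, ν i * f (y i) := by
  classical
  let d : X → ℝ := fun w => ∑ i, μ i * (if x i = w then 1 else 0) - ∑ i, ν i * (if y i = w then 1 else 0)
  have hd : ∀ f : X → ℝ, ∑ w, d w * f w = ∑ i, μ i * f (x i) - ∑ i, ν i * f (y i) := fun f => by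
    simp only [d, sub_mul, sum_sub_distrib, sum_mul]
    rw [sum_comm, sum_comm (s := (univ : Finset X))]
    simp
  have h := uniq (fun a b => ∑ p, if σ p a = b then 1 else 0)
    (fun a b => sum_nonneg fun p _ => by split_ifs <;> norm_num) (fun _ => Fintype.card P)
    (fun a => by rw [sum_comm]; simp) d (fun w => by
      rw [hd, hμ fun a => if a = w then 1 else 0, hν fun a => if a = w then 1 else 0, mul_sub])
    (by simpa [sub_eq_zero] using (hd fun _ => 1).trans (by simp [h0])) z fun w hw => by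
      have h3 : Relation.ReflTransGen (fun a b => ∃ p, b = σ p a) w z := by
        by_contra k
        refine hw (sub_eq_zero.2 ((sum_eq_zero fun i _ => ?_).trans (sum_eq_zero fun i _ => ?_).symm))
        · rw [if_neg fun e : x i = w => k (e ▸ h1 i), mul_zero]
        · by_cases e : ν i = 0
          · rw [e, zero_mul]
          · rw [if_neg fun e' : y i = w => k (e' ▸ h2 i e), mul_zero]
      refine Relation.ReflTransGen.mono ?_ _ _ h3
      rintro a _ ⟨p, rfl⟩
      exact sum_pos' (fun p _ => by split_ifs <;> norm_num) ⟨p, mem_univ _, by simp⟩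
  rw [← sub_eq_zero, ← hd]
  simp [h]

end Pool.Agent.H32.Uniq
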