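import Mathlib

open Set Filter Topology Function

namespace Pool.Agent.H32.WS

/-- the remainder `ω*`, as a subspace of the space of ultrafilters -/
abbrev W : Type := {p : Ultrafilter ℕ // (p : Filter ℕ) ≤ cofinite}

def st (A : Set ℕ) : Set W := {p | A ∈ p.1}

lemma st_clopen (A : Set ℕ) : IsClopen (st A) :=
  ⟨(ultrafilter_isClosed_basic A).preimage continuous_subtype_val,
    (ultrafilter_isOpen_basic A).preimage continuous_subtype_val⟩

lemma ex {A : Set ℕ} (h : A.Infinite) : ∃ p, p ∈ st A := by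
  have := frequently_mem_iff_neBot.1 (frequently_cofinite_iff_infinite.2 h)
  exact ⟨⟨Ultrafilter.of (cofinite ⊓ 𝓟 A), (Ultrafilter.of_le _).trans inf_le_left⟩,
    Ultrafilter.of_le (cofinite ⊓ 𝓟 A) (mem_inf_of_right (mem_principal_self A))⟩

instance : CompactSpace W := isCompact_iff_compactSpace.1 (IsClosed.isCompact (by
  have : {p : Ultrafilter ℕ | (p : Filter ℕ) ≤ cofinite} =
      ⋂ A ∈ (cofinite : Filter ℕ), {p | A ∈ p} := by
    ext p
    simp only [mem_ofPred_eq, mem_iInter]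
    rfl
  show IsClosed {p : Ultrafilter ℕ | (p : Filter ℕ) ≤ cofinite}
  exact this ▸ isClosed_biInter fun A _ => ultrafilter_isClosed_basic A))

lemma bas {p : W} {U : Set W} (u : IsOpen U) (h : p ∈ U) : ∃ A ∈ p.1, st A ⊆ U := by
  obtain ⟨V, v, rfl⟩ := isOpen_induced_iff.1 u
  obtain ⟨_, ⟨A, rfl⟩, a1, a2⟩ := ultrafilterBasis_is_basis.exists_subset_of_mem_open h v
  exact ⟨A, a1, fun q hq => a2 hq⟩

lemma nh {p : W} {N : Set C(W, W)} (h : N ∈ 𝓝 (ContinuousMap.const W p)) :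
    ∃ A ∈ p.1, ∀ g : C(W, W), (∀ x, g x ∈ st A) → g ∈ N := by
  let F : Filter C(W, W) := (p.1 : Filter ℕ).lift' fun A => {g | ∀ x, g x ∈ st A}
  have m : Monotone fun A : Set ℕ => {g : C(W, W) | ∀ x, g x ∈ st A} :=
    fun A B k g hg x => mem_of_superset (f := ((g x).1 : Filter ℕ)) (hg x) k
  refine (mem_lift'_sets m).1 ((show Tendsto id F _ from ?_) h)
  refine ContinuousMap.tendsto_nhds_compactOpen.2 fun K k U u z => ?_
  rcases K.eq_empty_or_nonempty with rfl | ⟨x, hx⟩
  · exact Eventually.of_forall fun _ => mapsTo_empty _ _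
  obtain ⟨A, a1, a2⟩ := bas u (z hx)
  exact (mem_lift'_sets m).2 ⟨A, a1, fun g hg y _ => a2 (hg y)⟩

lemma pre (f : C(W, W)) {D : Set W} (hD : IsClopen D) : 
    ∀ᶠ g : C(W, W) in 𝓝 f, g ⁻¹' D = f ⁻¹' D := by
  filter_upwards [ContinuousMap.eventually_mapsTo (f := f)
    (hD.1.preimage f.continuous).isCompact hD.2 (mapsTo_preimage _ _),
    ContinuousMap.eventually_mapsTo (f := f) (hD.compl.1.preimage f.continuous).isCompact
      hD.compl.2 (mapsTo_preimage _ _)] with f' f1 f2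
  exact Subset.antisymm (fun x hx => by_contra fun z => f2 z hx) f1

end Pool.Agent.H32.WS
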