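import Pool.Agent.H32.OP
import Pool.Agent.H32.QI

set_option autoImplicit false

namespace Pool.Agent.H32.Wedge

open MeasureTheory Set Pool.Agent.H32.OP
open scoped ENNReal NNReal

def ed : Bool → ℤ × ℤ
  | true => (1, 0)
  | false => (0, 1)

def thick (v : ℤ × ℤ) (d : Bool) : Prop :=
  ((v + ed d).1 ≤ 0 ∧ (v + ed d).2 ≤ 0) ∨ (1 ≤ v.1 ∧ 1 ≤ v.2)

abbrev V (m : ℕ) := (ℤ × ℤ) × Option (Bool × Fin (m + 1))

variable {m : ℕ}

def rel (x y : V m) : Prop := x.2 = none ∧ ∃ d j, y.2 = some (d, j) ∧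
  (x.1 = y.1 ∨ (x.1 = y.1 + ed d ∧ (thick y.1 d ∨ j = 0)))

def G (m : ℕ) : SimpleGraph (V m) := SimpleGraph.fromRel rel

lemma adj_iff {x y : V m} : (G m).Adj x y ↔ rel x y ∨ rel y x := by
  rw [G, SimpleGraph.fromRel_adj, and_iff_right_iff_imp]
  rintro (⟨h1, d, j, h2, -⟩ | ⟨h1, d, j, h2, -⟩) rfl <;> simp [h1] at h2

lemma adjA (v : ℤ × ℤ) (t : Bool × Fin (m + 1)) : (G m).Adj (v, none) (v, some t) :=
  adj_iff.2 (.inl ⟨rfl, t.1, t.2, rfl, .inl rfl⟩)

lemma adjB {v : ℤ × ℤ} {d : Bool} {j : Fin (m + 1)} (h : thick v d ∨ j = 0) :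
    (G m).Adj (v + ed d, none) (v, some (d, j)) :=
  adj_iff.2 (.inl ⟨rfl, d, j, rfl, .inr ⟨rfl, h⟩⟩)

lemma ed_ne (v : ℤ × ℤ) (d : Bool) : v + ed d ≠ v := by
  cases d <;> simp [ed, Prod.ext_iff]

lemma geom : (G m).Connected ∧ ∀ x y : V m, |x.1.1 - y.1.1| + |x.1.2 - y.1.2| ≤ (2 : ℕ) * (G m).dist x y ∧
    ((G m).dist x y : ℤ) ≤ (2 : ℕ) * (|x.1.1 - y.1.1| + |x.1.2 - y.1.2|) + 2 * (2 : ℕ) := by
  have h : ∀ (v : ℤ × ℤ) (d : Bool), (G m).edist (v, none) (v + ed d, none) ≤ (2 : ℕ) := fun v d =>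
    SimpleGraph.edist_le (.cons (adjA v (d, 0)) (.cons (adjB (.inr rfl)).symm .nil))
  refine QI.qi (G m) Prod.fst (fun v => (v, none)) 2 (fun x => ?_) (fun v => ⟨?_, ?_⟩) fun x y h => ?_
  · obtain ⟨v, _ | t⟩ := x
    · simp
    · exact (SimpleGraph.edist_le (.cons (adjA v t).symm .nil)).trans (by norm_num)
  · simpa [ed, Prod.add_def] using h v true
  · simpa [ed, Prod.add_def] using h v false
  · rcases adj_iff.1 h with ⟨-, d, j, -, h | ⟨h, -⟩⟩ | ⟨-, d, j, -, h | ⟨h, -⟩⟩ <;> rw [h] <;>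
      cases d <;> simp [ed]

lemma deg : ∃ D : ℕ, ∀ v : V m, ((G m).neighborSet v).encard ≤ (D : ℕ∞) := by
  let F : Finset (V m) := Finset.Icc (-1, -1) (1, 1) ×ˢ Finset.univ
  refine ⟨F.card, fun v => ?_⟩
  rw [← encard_coe_eq_coe_finsetCard]
  refine (encard_le_encard (t := (fun q : V m => (v.1 + q.1, q.2)) '' F) fun y hy => ?_).trans
    (encard_image_le _ _)
  refine ⟨(y.1 - v.1, y.2), ?_, by simp⟩
  rcases adj_iff.1 hy with ⟨-, d, j, -, h | ⟨h, -⟩⟩ | ⟨-, d, j, -, h | ⟨h, -⟩⟩ <;> cases d <;>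
    simp [F, h, ed, Prod.le_def]

abbrev Om (m : ℕ) := (G m).edgeSet → Bool

def op (ω : Om m) (e : Sym2 (V m)) : Prop := ∃ h : e ∈ (G m).edgeSet, ω ⟨e, h⟩ = true

def O (ω : Om m) (k : (ℤ × ℤ) × Bool) : Prop :=
  ∃ j, op ω s((k.1, none), (k.1, some (k.2, j))) ∧ op ω s((k.1 + ed k.2, none), (k.1, some (k.2, j)))

lemma aux_uniq (e : (G m).edgeSet) {a b : V m} (ha : a ∈ e.1) (hb : b ∈ e.1) (h1 : a.2 ≠ none)
    (h2 : b.2 ≠ none) : a = b := by
  obtain ⟨e, he⟩ := e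
  induction e using Sym2.ind with
  | h x y =>
    simp only [Sym2.mem_iff] at ha hb
    rcases adj_iff.1 he with ⟨h, -⟩ | ⟨h, -⟩ <;> rcases ha with rfl | rfl <;>
      rcases hb with rfl | rfl <;> simp_all

lemma m_op (e : Sym2 (V m)) : MeasurableSet {ω : Om m | op ω e} := by
  by_cases h : e ∈ (G m).edgeSet
  · have : {ω : Om m | op ω e} = (fun ω : Om m => ω ⟨e, h⟩) ⁻¹' {true} := by
      ext ω
      simp [op, h]
    rw [this]
    exact measurable_pi_apply _ (measurableSet_singleton _)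
  · simp [op, h]

lemma op_loc {ω ω' : Om m} {S : Set (G m).edgeSet} (h : ∀ x ∈ S, ω x = ω' x) {e : Sym2 (V m)}
    (he : ∀ k, ⟨e, k⟩ ∈ S) : op ω e ↔ op ω' e :=
  exists_congr fun k => by rw [h _ (he k)]

lemma m_O (k : (ℤ × ℤ) × Bool) : MeasurableSet {ω : Om m | O ω k} := by
  simp only [O, ofPred_exists]
  exact MeasurableSet.iUnion fun j => (m_op _).inter (m_op _)

def blk (k : (ℤ × ℤ) × Bool) : Set (G m).edgeSet := {e | ∃ j, (k.1, some (k.2, j)) ∈ e.1}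

lemma blk_d : Pairwise fun a b => Disjoint (blk (m := m) a) (blk b) := by
  intro a b h
  refine disjoint_left.2 fun e ⟨j, h1⟩ ⟨j', h2⟩ => h ?_
  have := aux_uniq e h1 h2 (by simp) (by simp)
  simp only [Prod.mk.injEq, Option.some.injEq] at this
  exact Prod.ext this.1 this.2.1

lemma O_loc (k : (ℤ × ℤ) × Bool) {ω ω' : Om m} (h : ∀ x ∈ blk k, ω x = ω' x) : O ω k ↔ O ω' k :=
  exists_congr fun j => and_congr (op_loc h fun _ => ⟨j, by simp⟩) (op_loc h fun _ => ⟨j, by simp⟩)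

lemma hp : (1 / 64 : ℝ≥0) ≤ 1 := by
  rw [← NNReal.coe_le_coe]
  norm_num

noncomputable def mu (m : ℕ) : Measure (Om m) :=
  Measure.infinitePi fun _ => (PMF.bernoulli (1 / 64) hp).toMeasure

instance : IsProbabilityMeasure (mu m) := by
  unfold mu
  infer_instance

lemma mu_op {e : Sym2 (V m)} (h : e ∈ (G m).edgeSet) : mu m {ω | op ω e} = 64⁻¹ := by
  have : {ω : Om m | op ω e} = (fun ω : Om m => ω ⟨e, h⟩) ⁻¹' {true} := by
    ext ω
    simp [op, h]
  rw [this, ← Measure.map_apply (measurable_pi_apply _) (measurableSet_singleton _), mu,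
    Measure.infinitePi_map_eval, PMF.toMeasure_apply_singleton _ _ (measurableSet_singleton _)]
  simp [PMF.bernoulli_apply]

lemma mu_thin {k : (ℤ × ℤ) × Bool} (h : ¬ thick k.1 k.2) : mu m {ω | O ω k} ≤ 64⁻¹ := by
  rw [← mu_op ((G m).mem_edgeSet.2 (adjB (v := k.1) (d := k.2) (.inr rfl)))]
  refine measure_mono ?_
  rintro ω ⟨j, -, h1, h2⟩
  obtain rfl : j = 0 := by
    rcases adj_iff.1 h1 with ⟨-, d, j', k1, k2 | ⟨-, k2⟩⟩ | ⟨k1, -⟩
    · exact absurd k2 (ed_ne _ _)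
    · simp only [Option.some.injEq, Prod.mk.injEq] at k1
      obtain ⟨rfl, rfl⟩ := k1
      exact k2.resolve_left h
    · simp at k1
  exact ⟨h1, h2⟩

lemma mu_thick {k : (ℤ × ℤ) × Bool} (h : thick k.1 k.2) :
    mu m {ω | ¬ O ω k} = (1 - 64⁻¹ * 64⁻¹) ^ (m + 1) := by
  have h1 := prod_blocks (fun _ : (G m).edgeSet => (PMF.bernoulli (1 / 64) hp).toMeasure)
    (fun j : Fin (m + 1) => {e | (k.1, some (k.2, j)) ∈ e.1}) (fun a b h => disjoint_left.2
      fun e h1 h2 => h (by simpa using aux_uniq e h1 h2 (by simp) (by simp)))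
    (fun j => ({ω | op ω s((k.1, none), (k.1, some (k.2, j)))} ∩
      {ω | op ω s((k.1 + ed k.2, none), (k.1, some (k.2, j)))})ᶜ)
    (fun j => ((m_op _).inter (m_op _)).compl) (fun j ω ω' h => mt fun c =>
      ⟨(op_loc h fun _ => by simp).2 c.1, (op_loc h fun _ => by simp).2 c.2⟩) Finset.univ
  refine (congrArg _ (Set.ext fun ω => by simp [O])).trans (h1.trans ?_)
  rw [Finset.prod_congr rfl (g := fun _ => 1 - 64⁻¹ * 64⁻¹), Finset.prod_const, Finset.card_univ,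
    Fintype.card_fin]
  intro j _
  rw [prob_compl_eq_one_sub ((m_op _).inter (m_op _)), indep_set _
    (S := {e | e.1 = s((k.1, none), (k.1, some (k.2, j)))})
    (T := {e | e.1 = s((k.1 + ed k.2, none), (k.1, some (k.2, j)))}) _ (m_op _) (m_op _)
    (fun ω ω' h => (op_loc h fun _ => by simp).1) fun ω ω' h => (op_loc h fun _ => by simp).1]
  · exact congrArg _ (congrArg₂ _ (mu_op (adjA _ _)) (mu_op (adjB (.inl h))))
  · refine disjoint_left.2 fun e h1 h2 => ed_ne k.1 k.2 ?_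
    simpa using h2.symm.trans h1

lemma bound {κ : Type} (φ : κ → (ℤ × ℤ) × Bool) (hφ : Function.Injective φ) (c : (ℤ × ℤ) × Bool → Prop)
    (E : Prop → Prop) {ε : ℝ≥0∞} (mE : ∀ k, MeasurableSet {ω : Om m | E (O ω k)})
    (h : ∀ k, c k → mu m {ω | E (O ω k)} ≤ ε) (S : Finset κ) :
    mu m {ω | ∀ b ∈ S, c (φ b) ∧ E (O ω (φ b))} ≤ ε ^ S.card := by
  by_cases hc : ∀ b ∈ S, c (φ b)
  · have h1 := prod_blocks (fun _ : (G m).edgeSet => (PMF.bernoulli (1 / 64) hp).toMeasure)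
      (fun b => blk (φ b)) (fun a b h => blk_d (hφ.ne h)) (fun b => {ω | E (O ω (φ b))})
      (fun b => mE _) (fun b ω ω' h k => by
        rw [mem_ofPred_eq, ← propext (O_loc _ h)]
        exact k) S
    refine (measure_mono fun ω hω => ?_).trans (h1.le.trans
      (Finset.prod_le_pow_card _ _ _ fun b hb => h _ (hc b hb)))
    simp only [mem_iInter]
    exact fun b hb => (hω b hb).2
  · rw [show {ω : Om m | ∀ b ∈ S, c (φ b) ∧ E (O ω (φ b))} = ∅ from
      eq_empty_of_forall_notMem fun ω k => hc fun b hb => (k b hb).1]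
    simp

def cmv : Bool × Bool → ℤ × ℤ → ℤ × ℤ
  | (true, d), v => v + ed d
  | (false, d), v => v - ed d

def clab : Bool × Bool → ℤ × ℤ → Option ((ℤ × ℤ) × Bool)
  | (true, d), v => some (v, d)
  | (false, d), v => some (v - ed d, d)

lemma ccount (l : List (Bool × Bool)) : ∀ a : ℤ × ℤ, (labs cmv clab a l).length = l.length ∧
    (fin cmv a l).1 + (fin cmv a l).2 ≤ a.1 + a.2 + l.length := by
  induction l with
  | nil => simp [labs, fin]
  | cons s l ih =>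
    intro a
    have := ih (cmv s a)
    obtain ⟨_ | _, _ | _⟩ := s <;> simp [labs, fin, cmv, clab, ed] at this ⊢ <;> omega

def Cr (ω : Om m) : ℤ × ℤ → ℤ × ℤ → Prop := Relation.ReflTransGen fun u v =>
  ∃ s, v = cmv s u ∧ ∀ b, clab s u = some b → ¬ thick b.1 b.2 ∧ O ω b

def cross (m : ℕ) : Set (Om m) :=
  ⋃ a : ℕ × ℕ, {ω | ∃ z ∈ {z : ℤ × ℤ | 1 ≤ z.1 ∧ 1 ≤ z.2}, Cr ω (-a.1, -a.2) z}

lemma mu_cross : mu m (cross m) ≤ 8⁻¹ := by
  have h8 : (8 : ℝ≥0∞)⁻¹ ≤ 2⁻¹ := ENNReal.inv_le_inv.2 (by norm_num)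
  have h1 : ∀ a : ℕ × ℕ, mu m {ω | ∃ z ∈ {z : ℤ × ℤ | 1 ≤ z.1 ∧ 1 ≤ z.2}, Cr ω (-a.1, -a.2) z} ≤
      (8⁻¹ ^ 2 * (2⁻¹ ^ a.1 * 2⁻¹ ^ a.2)) *
        (1 - (Fintype.card (Bool × Bool) : ℝ≥0∞) * 8⁻¹)⁻¹ := fun a =>
    walk_bound cmv clab (mu m) (fun s a s' c b h1 h2 => by
      obtain ⟨_ | _, d⟩ := s <;> obtain ⟨_ | _, d'⟩ := s' <;> simp only [clab, Option.some.injEq] at h1 h2 <;>
        obtain ⟨k1, rfl⟩ := Prod.mk.inj (h1.trans h2.symm) <;> simp_all [cmv, sub_eq_iff_eq_add])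
      (fun ω b => ¬ thick b.1 b.2 ∧ O ω b) (ε := 64⁻¹)
      (bound id Function.injective_id (fun b => ¬ thick b.1 b.2) id m_O fun k => mu_thin)
      ((-a.1, -a.2) : ℤ × ℤ) {z : ℤ × ℤ | 1 ≤ z.1 ∧ 1 ≤ z.2} fun l hl => by
        obtain ⟨k1, k2⟩ := ccount l (-a.1, -a.2)
        obtain ⟨d, hd⟩ : ∃ d, l.length = 2 + (a.1 + a.2) + d := ⟨l.length - (2 + (a.1 + a.2)), by
          have := hl.1
          have := hl.2
          simp only at k2
          omega⟩
        rw [k1, show (64 : ℝ≥0∞)⁻¹ = 8⁻¹ * 8⁻¹ by rw [← ENNReal.mul_inv] <;> norm_num, mul_pow]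
        gcongr
        rw [hd, pow_add, pow_add, pow_add]
        refine (mul_le_of_le_one_right' (pow_le_one' (by simp) _)).trans ?_
        gcongr
  refine (measure_iUnion_le _).trans ((ENNReal.tsum_le_tsum h1).trans (le_of_eq ?_))
  rw [ENNReal.tsum_mul_right, ENNReal.tsum_mul_left, ENNReal.tsum_prod']
  simp only [ENNReal.tsum_mul_right, ENNReal.tsum_mul_left, ENNReal.tsum_geometric]
  have h2 : (1 : ℝ≥0∞) - Fintype.card (Bool × Bool) * 8⁻¹ = 2⁻¹ := by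
    rw [show (Fintype.card (Bool × Bool) : ℝ≥0∞) * 8⁻¹ = 2⁻¹ by
      rw [← ENNReal.toReal_eq_toReal_iff' (by finiteness) (by finiteness)]
      simp
      norm_num, ENNReal.one_sub_inv_two]
  rw [h2, ENNReal.one_sub_inv_two, inv_inv, ← ENNReal.toReal_eq_toReal_iff' (by finiteness) (by finiteness)]
  simp
  norm_num

def H (ω : Om m) : SimpleGraph (V m) :=
  SimpleGraph.fromEdgeSet {e : Sym2 (V m) | ∃ h : e ∈ (G m).edgeSet, ω ⟨e, h⟩ = true}

lemma H_adj {ω : Om m} {x y : V m} : (H ω).Adj x y ↔ op ω s(x, y) := by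
  rw [H, SimpleGraph.fromEdgeSet_adj]
  exact ⟨fun h => h.1, fun h => ⟨h, ((G m).mem_edgeSet.1 h.1).ne⟩⟩

lemma O_reach {ω : Om m} {k : (ℤ × ℤ) × Bool} (h : O ω k) :
    (H ω).Reachable (k.1, none) (k.1 + ed k.2, none) := by
  obtain ⟨j, h1, h2⟩ := h
  exact (H_adj.2 h1).reachable.trans (H_adj.2 h2).reachable.symm

lemma no_cross {ω : Om m} (hc : ω ∉ cross m) : ¬ (H ω).Reachable ((0, 0), none) ((1, 1), none) := by
  let T : ℤ × ℤ → Prop := fun v => ∃ a : ℕ × ℕ, Cr ω (-a.1, -a.2) v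
  have hL : ∀ v : ℤ × ℤ, v.1 ≤ 0 → v.2 ≤ 0 → T v := fun v h1 h2 =>
    ⟨((-v.1).toNat, (-v.2).toNat), by
      rw [show ((-((-v.1).toNat : ℤ), -((-v.2).toNat : ℤ)) : ℤ × ℤ) = v from
        Prod.ext (by simp only; omega) (by simp only; omega)]
      exact .refl⟩
  have hR : ∀ v : ℤ × ℤ, 1 ≤ v.1 → 1 ≤ v.2 → ¬ T v := fun v h1 h2 ⟨a, h⟩ =>
    hc (mem_iUnion.2 ⟨a, v, ⟨h1, h2⟩, h⟩)
  have hO : ∀ v d, O ω (v, d) → (T v ↔ T (v + ed d)) := by
    intro v d h
    by_cases k : thick v d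
    · rcases k with k | k
      · refine iff_of_true (hL _ ?_ ?_) (hL _ k.1 k.2) <;> cases d <;> simp [ed] at k <;> omega
      · refine iff_of_false (hR _ k.1 k.2) (hR _ ?_ ?_) <;> cases d <;> simp [ed] <;> omega
    · refine exists_congr fun a => ⟨fun c => c.tail ⟨(true, d), rfl, ?_⟩,
        fun c => c.tail ⟨(false, d), by simp [cmv], ?_⟩⟩ <;> simp [clab, k, h]
  have key : ∀ x, Relation.ReflTransGen (H ω).Adj ((0, 0), none) x →
      ∃ u, T u ∧ (x = (u, none) ∨ (x.2 ≠ none ∧ op ω s((u, none), x))) := by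
    intro x h
    induction h with
    | refl => exact ⟨_, hL _ le_rfl le_rfl, .inl rfl⟩
    | @tail x y _ h ih =>
      obtain ⟨u, h1, rfl | ⟨h2, h3⟩⟩ := ih
      · refine ⟨u, h1, .inr ⟨?_, H_adj.1 h⟩⟩
        rcases adj_iff.1 (H_adj.1 h).1 with ⟨-, d, j, k, -⟩ | ⟨-, d, j, k, -⟩ <;> simp_all
      · have h4 := H_adj.1 h.symm
        obtain ⟨v, t⟩ := x
        obtain ⟨w, t'⟩ := y
        rcases adj_iff.1 h4.1 with ⟨rfl, d, j, rfl, k⟩ | ⟨k, -⟩
        · refine ⟨w, ?_, .inl rfl⟩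
          rcases adj_iff.1 h3.1 with ⟨-, d', j', e, k'⟩ | ⟨k, -⟩
          · simp only [Option.some.injEq, Prod.mk.injEq] at e k k'
            obtain ⟨rfl, rfl⟩ := e
            rcases k with rfl | ⟨rfl, -⟩ <;> rcases k' with rfl | ⟨rfl, -⟩
            · exact h1
            · exact (hO _ _ ⟨j, h4, h3⟩).2 h1
            · exact (hO _ _ ⟨j, h3, h4⟩).1 h1
            · exact h1
          · exact absurd k h2
        · exact absurd k h2
  intro h
  obtain ⟨u, h1, h2 | ⟨h2, -⟩⟩ := key _ ((SimpleGraph.reachable_iff_reflTransGen _ _).1 h)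
  · obtain rfl : (1, 1) = u := congrArg Prod.fst h2
    exact hR _ le_rfl le_rfl h1
  · exact h2 rfl

lemma inf_of {ω : Om m} (w : ℕ → ℤ × ℤ) (hw : Function.Injective w)
    (h : ∀ n, (H ω).Reachable (w n, none) (w (n + 1), none)) :
    ((H ω).connectedComponentMk (w 0, none)).supp.Infinite := by
  refine infinite_of_injective_forall_mem (f := fun n => (w n, none))
    (fun a b k => hw (congrArg Prod.fst k)) fun n => ?_
  rw [SimpleGraph.ConnectedComponent.mem_supp_iff, SimpleGraph.ConnectedComponent.eq]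
  induction n with
  | zero => rfl
  | succ n ih => exact (h n).symm.trans ih

def pR (b : (ℤ × ℤ) × Bool) : (ℤ × ℤ) × Bool := ((1 + b.1.1, 1 + b.1.2 - b.1.1), b.2)

def pL (b : (ℤ × ℤ) × Bool) : (ℤ × ℤ) × Bool := ((-b.1.1, b.1.1 - b.1.2) - ed b.2, b.2)

lemma gam {γ : ℕ → ℤ} (h0 : γ 0 = 0) (h : ∀ n, γ (n + 1) = γ n ∨ γ (n + 1) = γ n + 1) (n : ℕ) :
    0 ≤ γ n ∧ γ n ≤ n := by
  induction n with
  | zero => simp [h0]
  | succ n ih =>
    have := h n
    push_cast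
    omega

theorem main : ∃ m, ¬ ∀ᵐ ω ∂(mu m), ∀ c₁ c₂ : (H ω).ConnectedComponent,
    c₁.supp.Infinite → c₂.supp.Infinite → c₁ = c₂ := by
  obtain ⟨m, hm⟩ : ∃ m : ℕ, (1 - 64⁻¹ * 64⁻¹ : ℝ≥0∞) ^ (m + 1) ≤ 8⁻¹ ^ 3 := by
    have := (ENNReal.tendsto_pow_atTop_nhds_zero_of_lt_one (r := 1 - 64⁻¹ * 64⁻¹)
      (ENNReal.sub_lt_self (by simp) (by simp) (by simp))).eventually
      (ge_mem_nhds (show (0 : ℝ≥0∞) < 8⁻¹ ^ 3 from ENNReal.pow_pos (by simp) _))
    obtain ⟨n, hn⟩ := Filter.eventually_atTop.1 this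
    exact ⟨n, hn _ (Nat.le_succ n)⟩
  have hb := fun (φ : (ℤ × ℤ) × Bool → (ℤ × ℤ) × Bool) hφ => op_bound (mu m) (fun ω b => thick (φ b).1 (φ b).2 ∧ ¬ O ω (φ b)) 8⁻¹
    (bound φ hφ (fun b => thick b.1 b.2) Not (fun k => (m_O k).compl)
      fun k h => (mu_thick h).le.trans hm)
  have h1 := hb pR fun a b h => by
    simp only [pR, Prod.ext_iff] at h ⊢
    exact ⟨by omega, h.2⟩
  have h2 := hb pL fun a b h => by
    obtain ⟨k1, k2⟩ := Prod.mk.inj h
    rw [k2, sub_left_inj] at k1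
    simp only [Prod.ext_iff] at k1 ⊢
    exact ⟨by omega, k2⟩
  have h3 : (8⁻¹ : ℝ≥0∞) ^ 2 * (1 - (2 + (Fintype.card Bool : ℝ≥0∞)) * 8⁻¹)⁻¹ ≤ 8⁻¹ := by
    rw [show (2 + Fintype.card Bool : ℝ≥0∞) * 8⁻¹ = 2⁻¹ by
      rw [← ENNReal.toReal_eq_toReal_iff' (by finiteness) (by finiteness)]
      simp
      norm_num, ENNReal.one_sub_inv_two, inv_inv,
      ← ENNReal.toReal_le_toReal (by finiteness) (by finiteness)]
    simp
    norm_num
  refine ⟨m, fun h => ?_⟩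
  have h4 := (measure_union_le _ _).trans (add_le_add ((measure_union_le _ _).trans
    (add_le_add ((measure_union_le _ _).trans (add_le_add (h1.trans h3) (h2.trans h3)))
      (mu_cross (m := m)))) (ae_iff.1 h).le)
  refine absurd ((measure_mono (s := univ) ?_).trans h4) (by
    rw [measure_univ, ← ENNReal.toReal_le_toReal (by finiteness) (by finiteness)]
    simp [ENNReal.toReal_add]
    norm_num)
  intro ω _
  by_contra hc
  simp only [mem_union, mem_ofPred_eq, not_or, not_not] at hc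
  obtain ⟨⟨⟨⟨γ, a0, a1⟩, γ', b0, b1⟩, c⟩, d⟩ := hc
  have k1 := inf_of (ω := ω) (fun n => (1 + γ n, 1 + n - γ n)) (fun a b h => by
    simp only [Prod.ext_iff] at h
    omega) fun n => by
      have := gam a0 (fun n => (a1 n).1) n
      have e : ∀ t, O ω (pR ((γ n, n), t)) := fun t => not_not.1 fun k => (a1 n).2 t
        ⟨.inr (by simp only [pR]; omega), k⟩
      rcases (a1 n).1 with k | k
      · convert O_reach (e false) using 2
        · simp [pR]
        simp only [pR, ed, k, Prod.ext_iff, Prod.fst_add, Prod.snd_add]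
        push_cast
        omega
      · convert O_reach (e true) using 2
        · simp [pR]
        simp only [pR, ed, k, Prod.ext_iff, Prod.fst_add, Prod.snd_add]
        push_cast
        omega
  have k2 := inf_of (ω := ω) (fun n => (-γ' n, γ' n - n)) (fun a b h => by
    simp only [Prod.ext_iff] at h
    omega) fun n => by
      have := gam b0 (fun n => (b1 n).1) n
      have e : ∀ t, O ω (pL ((γ' n, n), t)) := fun t => not_not.1 fun k => (b1 n).2 t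
        ⟨.inl (by simp only [pL, sub_add_cancel]; omega), k⟩
      rcases (b1 n).1 with k | k
      · convert (O_reach (e false)).symm using 2
        · simp [pL]
        simp only [pL, ed, k, Prod.ext_iff, Prod.fst_sub, Prod.snd_sub]
        push_cast
        omega
      · convert (O_reach (e true)).symm using 2
        · simp [pL]
        simp only [pL, ed, k, Prod.ext_iff, Prod.fst_sub, Prod.snd_sub]
        push_cast
        omega
  have k3 := SimpleGraph.ConnectedComponent.exact (d _ _ k2 k1)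
  simp only [a0, b0] at k3
  exact no_cross c (by simpa using k3)

end Pool.Agent.H32.Wedge
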