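import Mathlib

set_option autoImplicit false

namespace Pool.Agent.Results.MP_3fb035_pr.NoZeroOneB

open MeasureTheory Classical

/-- the edge `e` was crossed by the path `γ` up to time `t` -/
def Used (γ : ℕ → ℤ) (t : ℕ) (e : Sym2 ℤ) : Prop := ∃ s, s < t ∧ e = s(γ s, γ (s + 1))

/-- endpoints of the not yet crossed edges at the current vertex -/
def J (G : SimpleGraph ℤ) (γ : ℕ → ℤ) (t : ℕ) : Set ℤ :=
  {w | G.Adj (γ t) w ∧ ¬ Used γ t s(γ t, w)}

/-- transition probability of the greedy random walk with the uniform rule -/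
noncomputable def trans (G : SimpleGraph ℤ) (γ : ℕ → ℤ) (t : ℕ) (w : ℤ) : ℝ :=
  if (J G γ t).Nonempty then (if w ∈ J G γ t then 1 / ((J G γ t).ncard : ℝ) else 0)
  else (if G.Adj (γ t) w then 1 / ((G.neighborSet (γ t)).ncard : ℝ) else 0)

def IsGRW (G : SimpleGraph ℤ) (o : ℤ) {Ω : Type} [MeasurableSpace Ω] (P : Measure Ω)
    (X : ℕ → Ω → ℤ) : Prop :=
  (∀ t, Measurable (X t)) ∧ (∀ ω, X 0 ω = o) ∧ ∀ (t : ℕ) (γ : ℕ → ℤ) (w : ℤ),
    P.real {ω | (∀ s ≤ t, X s ω = γ s) ∧ X (t + 1) ω = w} =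
      P.real {ω | ∀ s ≤ t, X s ω = γ s} * trans G γ t w

def G0 : SimpleGraph ℤ where
  Adj a b := b = a + 1 ∨ b = a - 1 ∨ b = a + 2 ∨ b = a - 2
  symm := ⟨fun a b h => by omega⟩
  loopless := ⟨fun a h => by omega⟩

lemma adj (a b : ℤ) : G0.Adj a b ↔ (b = a + 1 ∨ b = a - 1 ∨ b = a + 2 ∨ b = a - 2) := Iff.rfl

lemma fin (v : ℤ) : (G0.neighborSet v).Finite :=
  (Set.finite_Icc (v - 2) (v + 2)).subset fun w hw => by
    have := (adj v w).mp hw
    simp only [Set.mem_Icc]; omega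

lemma Jfin (γ : ℕ → ℤ) (t : ℕ) : (J G0 γ t).Finite := (fin (γ t)).subset fun _ h => h.1

noncomputable def u (γ : ℕ → ℤ) (t : ℕ) (v w : ℤ) : ℕ := if Used γ t s(v, w) then 1 else 0

def Par (γ : ℕ → ℤ) (t : ℕ) : Prop := ∀ v, (u γ t v (v + 1) + u γ t v (v - 1) + u γ t v (v + 2) +
  u γ t v (v - 2) + (if v = 0 then 1 else 0) + (if v = γ t then 1 else 0)) % 2 = 0

lemma u_succ (γ : ℕ → ℤ) (t : ℕ) (h : ¬ Used γ t s(γ t, γ (t + 1))) (v w : ℤ) :
    u γ (t + 1) v w = u γ t v w +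
      if (v = γ t ∧ w = γ (t + 1)) ∨ (v = γ (t + 1) ∧ w = γ t) then 1 else 0 := by
  have key : Used γ (t + 1) s(v, w) ↔ Used γ t s(v, w) ∨ s(v, w) = s(γ t, γ (t + 1)) := by
    constructor
    · rintro ⟨s, hs, e⟩
      rcases Nat.lt_succ_iff_lt_or_eq.mp hs with h1 | h1
      · exact Or.inl ⟨s, h1, e⟩
      · exact Or.inr (h1 ▸ e)
    · rintro (⟨s, hs, e⟩ | e)
      · exact ⟨s, by omega, e⟩
      · exact ⟨t, by omega, e⟩
  unfold u
  rw [key]
  by_cases e : s(v, w) = s(γ t, γ (t + 1))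
  · rw [if_pos (Sym2.eq_iff.mp e), if_pos (Or.inr e), if_neg (by rw [e]; exact h)]
  · rw [if_neg (fun c => e (Sym2.eq_iff.mpr c))]
    simp only [e, or_false, add_zero]

lemma par_succ (γ : ℕ → ℤ) (t : ℕ) (hp : Par γ t) (h : γ (t + 1) ∈ J G0 γ t) : Par γ (t + 1) := by
  intro v
  have h1 := hp v
  have h2 := (adj _ _).mp h.1
  simp only [u_succ γ t h.2]
  split_ifs at h1 ⊢ <;> omega

lemma J_ne (γ : ℕ → ℤ) (t : ℕ) (hp : Par γ t) (h : γ t ≠ 0) : (J G0 γ t).Nonempty := by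
  by_contra hn
  have a : ∀ w, G0.Adj (γ t) w → u γ t (γ t) w = 1 := fun w hw => by
    unfold u
    rw [if_pos]
    by_contra hu
    exact hn ⟨w, hw, hu⟩
  have h1 := hp (γ t)
  rw [a _ (by simp [adj]), a _ (by simp [adj]), a _ (by simp [adj]), a _ (by simp [adj])] at h1
  simp [h] at h1

lemma never (γ : ℕ → ℤ) (h0 : γ 0 = 0) (h1 : γ 1 = 2) (h2 : γ 2 = 1) (h3 : γ 3 = 3)
    (ha : ∀ t, trans G0 γ t (γ (t + 1)) ≠ 0) (t : ℕ) : γ (t + 1) ≠ 0 := by
  have mem : ∀ t, (J G0 γ t).Nonempty → γ (t + 1) ∈ J G0 γ t := fun t ht => by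
    by_contra hn
    exact ha t (by simp [trans, ht, hn])
  have p0 : Par γ 0 := fun v => by
    simp only [u, Used, h0]
    simp
    split_ifs <;> rfl
  have p1 := par_succ γ 0 p0 (mem 0 ⟨1, by simp [adj, h0], by simp [Used]⟩)
  have p2 := par_succ γ 1 p1 (mem 1 (J_ne γ 1 p1 (by omega)))
  have p3 := par_succ γ 2 p2 (mem 2 (J_ne γ 2 p2 (by omega)))
  have main : ∀ n, Par γ (n + 3) ∧ 2 ≤ γ (n + 3) := by
    intro n
    induction n with
    | zero => exact ⟨p3, by simp [h3]⟩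
    | succ n ih =>
      have m := mem (n + 3) (J_ne γ _ ih.1 (by omega))
      refine ⟨par_succ γ _ ih.1 m, ?_⟩
      have a := (adj _ _).mp m.1
      have b0 : ¬ s(γ (n + 3), γ (n + 3 + 1)) = s(γ 0, γ 1) := fun e => m.2 ⟨0, by omega, e⟩
      have b1 : ¬ s(γ (n + 3), γ (n + 3 + 1)) = s(γ 1, γ 2) := fun e => m.2 ⟨1, by omega, e⟩
      have b2 : ¬ s(γ (n + 3), γ (n + 3 + 1)) = s(γ 2, γ 3) := fun e => m.2 ⟨2, by omega, e⟩
      rw [Sym2.eq_iff] at b0 b1 b2
      have := ih.2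
      show 2 ≤ γ (n + 3 + 1)
      omega
  rcases t with _ | _ | t
  · simp [h1]
  · simp [h2]
  · have := (main t).2
    show γ (t + 3) ≠ 0
    omega

lemma trans_congr (γ δ : ℕ → ℤ) (t : ℕ) (h : ∀ s ≤ t, γ s = δ s) (w : ℤ) :
    trans G0 γ t w = trans G0 δ t w := by
  have hu : ∀ e, Used γ t e ↔ Used δ t e := fun e =>
    exists_congr fun s => and_congr_right fun hs => by rw [h s (by omega), h (s + 1) (by omega)]
  have hJ : J G0 γ t = J G0 δ t := by
    ext w; simp only [J, Set.mem_ofPred_eq, hu, h t le_rfl]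
  unfold trans
  rw [hJ, h t le_rfl]

lemma trans_pos (γ : ℕ → ℤ) (t : ℕ) (w : ℤ) (h : w ∈ J G0 γ t) : 0 < trans G0 γ t w := by
  have : 0 < (J G0 γ t).ncard := (Set.ncard_pos (Jfin γ t)).mpr ⟨w, h⟩
  unfold trans
  rw [if_pos ⟨w, h⟩, if_pos h]
  positivity

lemma cyl_pos {Ω : Type} [MeasurableSpace Ω] (P : Measure Ω) [IsProbabilityMeasure P]
    (X : ℕ → Ω → ℤ) (hX : IsGRW G0 0 P X) (γ : ℕ → ℤ) (h0 : γ 0 = 0) (n : ℕ)
    (h : ∀ t < n, γ (t + 1) ∈ J G0 γ t) : 0 < P.real {ω | ∀ s ≤ n, X s ω = γ s} := by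
  induction n with
  | zero => simp [hX.2.1, h0]
  | succ n ih =>
    have e : {ω | ∀ s ≤ n + 1, X s ω = γ s} =
        {ω | (∀ s ≤ n, X s ω = γ s) ∧ X (n + 1) ω = γ (n + 1)} := by
      ext ω
      refine ⟨fun a => ⟨fun s hs => a s (by omega), a _ le_rfl⟩, fun a s hs => ?_⟩
      rcases Nat.le_succ_iff.mp hs with b | b
      · exact a.1 s b
      · rw [b]; exact a.2
    rw [e, hX.2.2]
    exact mul_pos (ih fun t ht => h t (by omega)) (trans_pos _ _ _ (h n (by omega)))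

def g1 (n : ℕ) : ℤ := if n = 1 then 1 else if n = 2 then 2 else 0
def g2 (n : ℕ) : ℤ := if n = 1 then 2 else if n = 2 then 1 else if n = 3 then 3 else 0

lemma step3 (γ : ℕ → ℤ) (a0 : G0.Adj (γ 0) (γ 1)) (a1 : G0.Adj (γ 1) (γ 2))
    (a2 : G0.Adj (γ 2) (γ 3)) (d1 : s(γ 1, γ 2) ≠ s(γ 0, γ 1)) (d2 : s(γ 2, γ 3) ≠ s(γ 0, γ 1))
    (d3 : s(γ 2, γ 3) ≠ s(γ 1, γ 2)) : ∀ t < 3, γ (t + 1) ∈ J G0 γ t := by
  intro t ht
  interval_cases t
  · exact ⟨a0, by simp [Used]⟩
  · refine ⟨a1, ?_⟩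
    rintro ⟨s, hs, e⟩
    interval_cases s
    exact d1 e
  · refine ⟨a2, ?_⟩
    rintro ⟨s, hs, e⟩
    interval_cases s
    · exact d2 e
    · exact d3 e

noncomputable def S (γ : ℕ → ℤ) (t : ℕ) : Finset ℤ :=
  if (J G0 γ t).Nonempty then (Jfin γ t).toFinset else (fin (γ t)).toFinset

lemma S_ne (γ : ℕ → ℤ) (t : ℕ) : (S γ t).Nonempty := by
  unfold S
  split_ifs with h
  · simpa using h
  · exact ⟨γ t + 1, by simp [adj]⟩

lemma S_congr (γ δ : ℕ → ℤ) (t : ℕ) (h : ∀ s ≤ t, γ s = δ s) : S γ t = S δ t := by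
  have hu : ∀ e, Used γ t e ↔ Used δ t e := fun e =>
    exists_congr fun s => and_congr_right fun hs => by rw [h s (by omega), h (s + 1) (by omega)]
  have hJ : J G0 γ t = J G0 δ t := by
    ext w; simp only [J, Set.mem_ofPred_eq, hu, h t le_rfl]
  unfold S
  ext w
  simp only [hJ]
  split_ifs <;> simp [hJ, h t le_rfl]

noncomputable def mu (i : ℕ × Finset ℤ) : Measure ℤ :=
  if h : i.2.Nonempty then (PMF.uniformOfFinset i.2 h).toMeasure else Measure.dirac 0

instance (i : ℕ × Finset ℤ) : IsProbabilityMeasure (mu i) := by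
  unfold mu; split_ifs <;> infer_instance

lemma mu_S (γ : ℕ → ℤ) (t : ℕ) (w : ℤ) : (mu (t, S γ t) {w}).toReal = trans G0 γ t w := by
  unfold mu
  rw [dif_pos (S_ne γ t), PMF.toMeasure_apply_singleton _ _ (measurableSet_singleton w),
    PMF.uniformOfFinset_apply]
  unfold trans
  by_cases h : (J G0 γ t).Nonempty
  · have e : S γ t = (Jfin γ t).toFinset := by unfold S; rw [if_pos h]
    rw [if_pos h, Set.ncard_eq_toFinset_card _ (Jfin γ t)]
    simp only [e, Set.Finite.mem_toFinset]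
    split_ifs <;> simp
  · have e : S γ t = (fin (γ t)).toFinset := by unfold S; rw [if_neg h]
    rw [if_neg h, Set.ncard_eq_toFinset_card _ (fin (γ t))]
    simp only [e, Set.Finite.mem_toFinset, SimpleGraph.mem_neighborSet]
    split_ifs <;> simp

noncomputable def path (ω : ℕ × Finset ℤ → ℤ) : ℕ → ℕ → ℤ
  | 0 => fun _ => 0
  | n + 1 => Function.update (path ω n) (n + 1) (ω (n, S (path ω n) n))

noncomputable def XX (t : ℕ) (ω : ℕ × Finset ℤ → ℤ) : ℤ := path ω t t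

lemma path_eq (ω : ℕ × Finset ℤ → ℤ) (t : ℕ) : ∀ s ≤ t, path ω t s = XX s ω := by
  induction t with
  | zero => intro s hs; rw [Nat.le_zero.mp hs]; rfl
  | succ t ih =>
    intro s hs
    rcases Nat.le_succ_iff.mp hs with b | b
    · rw [path, Function.update_of_ne (by omega)]; exact ih s b
    · rw [b]; rfl

lemma XX_succ (ω : ℕ × Finset ℤ → ℤ) (γ : ℕ → ℤ) (t : ℕ) (h : ∀ s ≤ t, XX s ω = γ s) :
    XX (t + 1) ω = ω (t, S γ t) := by
  rw [XX, path, Function.update_self, S_congr _ γ t fun s hs => (path_eq ω t s hs).trans (h s hs)]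

lemma cyl_eq (γ : ℕ → ℤ) (h0 : γ 0 = 0) (t : ℕ) : {ω | ∀ s ≤ t, XX s ω = γ s} =
    Set.pi (((Finset.range t).image fun s => (s, S γ s) : Finset _) : Set (ℕ × Finset ℤ))
      fun i => {γ (i.1 + 1)} := by
  ext ω
  simp only [Set.mem_ofPred_eq, Set.mem_pi, Finset.coe_image, Set.forall_mem_image,
    Finset.mem_coe, Finset.mem_range, Set.mem_singleton_iff]
  constructor
  · intro h s hs
    rw [← XX_succ ω γ s fun r hr => h r (by omega)]
    exact h _ (by omega)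
  · intro h
    induction t with
    | zero => intro s hs; rw [Nat.le_zero.mp hs, h0]; rfl
    | succ t ih =>
      have ih' := ih fun s hs => h (by omega)
      intro s hs
      rcases Nat.le_succ_iff.mp hs with b | b
      · exact ih' s b
      · rw [b, XX_succ ω γ t ih']; exact h (by omega)

lemma cyl_meas (γ : ℕ → ℤ) (t : ℕ) : MeasurableSet {ω | ∀ s ≤ t, XX s ω = γ s} := by
  by_cases h0 : γ 0 = 0
  · rw [cyl_eq γ h0]
    exact MeasurableSet.pi (Finset.countable_toSet _) fun _ _ => measurableSet_singleton _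
  · have : {ω | ∀ s ≤ t, XX s ω = γ s} = ∅ :=
      Set.eq_empty_iff_forall_notMem.mpr fun ω h => h0 (h 0 (Nat.zero_le t)).symm
    rw [this]; exact MeasurableSet.empty

lemma cyl_P (γ : ℕ → ℤ) (h0 : γ 0 = 0) (t : ℕ) :
    (Measure.infinitePi mu).real {ω | ∀ s ≤ t, XX s ω = γ s} =
      ∏ s ∈ Finset.range t, trans G0 γ s (γ (s + 1)) := by
  rw [cyl_eq γ h0, Measure.real, Measure.infinitePi_pi _ fun _ _ => measurableSet_singleton _,
    Finset.prod_image (fun a _ b _ h => (Prod.mk.inj h).1), ENNReal.toReal_prod]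
  exact Finset.prod_congr rfl fun s _ => mu_S γ s _

lemma exi : IsGRW G0 0 (Measure.infinitePi mu) XX := by
  refine ⟨fun t => ?_, fun _ => rfl, fun t γ w => ?_⟩
  · refine measurable_to_countable' fun v => ?_
    have : XX t ⁻¹' {v} = ⋃ (p : Fin (t + 1) → ℤ), ⋃ (_ : p (Fin.last t) = v),
        {ω | ∀ s ≤ t, XX s ω = (fun s => if h : s < t + 1 then p ⟨s, h⟩ else 0) s} := by
      ext ω
      simp only [Set.mem_preimage, Set.mem_singleton_iff, Set.mem_iUnion, Set.mem_ofPred_eq]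
      constructor
      · intro h
        exact ⟨fun i => XX i ω, h, fun s hs => by simp [Nat.lt_succ_of_le hs]⟩
      · rintro ⟨p, hp, h⟩
        rw [h t le_rfl, dif_pos (Nat.lt_succ_self t)]
        exact hp
    rw [this]
    exact MeasurableSet.iUnion fun p => MeasurableSet.iUnion fun _ => cyl_meas _ t
  · by_cases h0 : γ 0 = 0
    · have ag : ∀ s ≤ t, Function.update γ (t + 1) w s = γ s := fun s hs =>
        Function.update_of_ne (by omega) _ _
      have e : {ω | (∀ s ≤ t, XX s ω = γ s) ∧ XX (t + 1) ω = w} =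
          {ω | ∀ s ≤ t + 1, XX s ω = Function.update γ (t + 1) w s} := by
        ext ω
        refine ⟨fun a s hs => ?_, fun a => ⟨fun s hs => (a s (by omega)).trans (ag s hs), by
          simpa using a (t + 1) le_rfl⟩⟩
        rcases Nat.le_succ_iff.mp hs with b | b
        · rw [ag s b]; exact a.1 s b
        · rw [b]; simpa using a.2
      rw [e, cyl_P _ ((ag 0 (Nat.zero_le t)).trans h0), cyl_P γ h0, Finset.prod_range_succ,
        Function.update_self, trans_congr _ γ t ag]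
      congr 1
      refine Finset.prod_congr rfl fun s hs => ?_
      have hs' := Finset.mem_range.mp hs
      rw [ag (s + 1) (by omega), trans_congr _ γ s fun r hr => ag r (by omega)]
    · have e1 : {ω | ∀ s ≤ t, XX s ω = γ s} = ∅ :=
        Set.eq_empty_iff_forall_notMem.mpr fun ω h => h0 (h 0 (Nat.zero_le t)).symm
      have e2 : {ω | (∀ s ≤ t, XX s ω = γ s) ∧ XX (t + 1) ω = w} = ∅ :=
        Set.eq_empty_iff_forall_notMem.mpr fun ω h => h0 (h.1 0 (Nat.zero_le t)).symm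
      rw [e1, e2]; simp

theorem result : ∃ G : SimpleGraph ℤ, G.Connected ∧ (∀ v, (G.neighborSet v).Finite) ∧
    (∀ a b, ∃ φ : G ≃g G, φ a = b) ∧
    (∃ (Ω : Type) (_ : MeasurableSpace Ω) (P : Measure Ω) (X : ℕ → Ω → ℤ),
      IsProbabilityMeasure P ∧ IsGRW G 0 P X) ∧
    ∀ (Ω : Type) [MeasurableSpace Ω] (P : Measure Ω) [IsProbabilityMeasure P] (X : ℕ → Ω → ℤ),
      IsGRW G 0 P X →
        0 < P {ω | ∃ t, 1 ≤ t ∧ X t ω = 0} ∧ P {ω | ∃ t, 1 ≤ t ∧ X t ω = 0} < 1 := by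
  refine ⟨G0, ⟨fun a b => ?_⟩, fin, fun a b => ⟨⟨Equiv.addRight (b - a), ?_⟩, (show a + (b - a) = b by omega)⟩,
    ⟨_, _, _, _, inferInstance, exi⟩, ?_⟩
  · have r : ∀ z : ℤ, G0.Reachable 0 z := fun z => by
      induction z using Int.induction_on with
      | zero => rfl
      | succ i ih => exact ih.trans (SimpleGraph.Adj.reachable (by simp [adj]))
      | pred i ih => exact ih.trans (SimpleGraph.Adj.reachable (by rw [adj]; omega))
    exact (r a).symm.trans (r b)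
  · intro x y
    simp only [adj, Equiv.coe_addRight]
    omega
  intro Ω _ P _ X hX
  have c1 := cyl_pos P X hX g1 rfl 3 (step3 g1 (by simp [adj, g1]) (by simp [adj, g1])
    (by simp [adj, g1]) (by simp [g1]) (by simp [g1]) (by simp [g1]))
  have c2 := cyl_pos P X hX g2 rfl 3 (step3 g2 (by simp [adj, g2]) (by simp [adj, g2])
    (by simp [adj, g2]) (by simp [g2]) (by simp [g2]) (by simp [g2]))
  have ae : ∀ᵐ ω ∂P, ∀ t, trans G0 (fun s => X s ω) t (X (t + 1) ω) ≠ 0 := by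
    rw [ae_all_iff]
    intro t
    have : ∀ᵐ ω ∂P, ∀ (p : Fin (t + 1) → ℤ) (w : ℤ),
        trans G0 (fun s => if h : s < t + 1 then p ⟨s, h⟩ else 0) t w = 0 →
        ¬ ((∀ s ≤ t, X s ω = (fun s => if h : s < t + 1 then p ⟨s, h⟩ else 0) s) ∧
          X (t + 1) ω = w) := by
      rw [ae_all_iff]; intro p
      rw [ae_all_iff]; intro w
      by_cases hz : trans G0 (fun s => if h : s < t + 1 then p ⟨s, h⟩ else 0) t w = 0
      · have e := hX.2.2 t (fun s => if h : s < t + 1 then p ⟨s, h⟩ else 0) w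
        rw [hz, mul_zero, measureReal_eq_zero_iff] at e
        filter_upwards [measure_eq_zero_iff_ae_notMem.mp e] with ω hω _ using hω
      · exact Filter.Eventually.of_forall fun _ h => absurd h hz
    filter_upwards [this] with ω hω hz
    have ag : ∀ s ≤ t, X s ω = (fun s => if h : s < t + 1 then X s ω else 0) s := fun s hs => by
      simp [Nat.lt_succ_of_le hs]
    exact hω (fun i => X i ω) (X (t + 1) ω) ((trans_congr _ _ t ag _).symm.trans hz) ⟨ag, rfl⟩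
  constructor
  · refine lt_of_lt_of_le ?_ (measure_mono (s := {ω | ∀ s ≤ 3, X s ω = g1 s})
      fun ω h => ⟨3, by norm_num, h 3 le_rfl⟩)
    exact pos_iff_ne_zero.mpr fun h => by simp [Measure.real, h] at c1
  · have hm : MeasurableSet {ω | ∃ t, 1 ≤ t ∧ X t ω = 0} := by
      have : {ω | ∃ t, 1 ≤ t ∧ X t ω = 0} = ⋃ t, ⋃ (_ : 1 ≤ t), X t ⁻¹' {0} := by ext; simp
      rw [this]
      exact MeasurableSet.iUnion fun t => MeasurableSet.iUnion fun _ =>
        hX.1 t (measurableSet_singleton 0)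
    refine lt_of_le_of_ne prob_le_one fun h => ?_
    have h1 := (prob_compl_eq_zero_iff hm).mpr h
    have h2 : P {ω | ∀ s ≤ 3, X s ω = g2 s} = 0 := by
      rw [measure_eq_zero_iff_ae_notMem]
      filter_upwards [ae, measure_eq_zero_iff_ae_notMem.mp h1] with ω a b c
      simp only [Set.mem_compl_iff, not_not] at b
      obtain ⟨t, ht, e⟩ := b
      obtain ⟨t, rfl⟩ : ∃ k, t = k + 1 := ⟨t - 1, by omega⟩
      exact never (fun s => X s ω) (c 0 (by omega)) (c 1 (by omega)) (c 2 (by omega))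
        (c 3 le_rfl) a t e
    simp [Measure.real, h2] at c2

end Pool.Agent.Results.MP_3fb035_pr.NoZeroOneB
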