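import Mathlib

set_option autoImplicit false

namespace Pool.Agent.Results.MP_8f7167_an.Counter

open Filter Topology Finset

/-- consistent matrix (indices start at `0`). -/
def Consistent (t : ℕ → ℕ → ℝ) : Prop :=
  (∃ C : ℝ, ∀ n, Summable (fun m => |t n m|) ∧ ∑' m, |t n m| ≤ C) ∧
  (∀ m, Tendsto (fun n => t n m) atTop (𝓝 0)) ∧ Tendsto (fun n => ∑' m, t n m) atTop (𝓝 1)

/-- `α` is a coefficient sequence of `v`: all `σ_n` exist and tend to `v`. -/
def Expands {E : Type} [NormedAddCommGroup E] [NormedSpace ℝ E] (t : ℕ → ℕ → ℝ) (x : ℕ → E)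
    (v : E) (α : ℕ → ℝ) : Prop :=
  ∃ σ : ℕ → E, (∀ n, Tendsto (fun m => ∑ j ∈ range m, t n j • ∑ i ∈ range (j + 1), α i • x i)
    atTop (𝓝 (σ n))) ∧ Tendsto σ atTop (𝓝 v)

def IsTBasis {E : Type} [NormedAddCommGroup E] [NormedSpace ℝ E] (t : ℕ → ℕ → ℝ) (x : ℕ → E) :
    Prop := ∀ v : E, ∃! α : ℕ → ℝ, Expands t x v α

/-- tail sums `λ_{nm}`. -/
noncomputable def lam (t : ℕ → ℕ → ℝ) (n m : ℕ) : ℝ := ∑' j, t n (j + m)

abbrev E1 : Type := lp (fun _ : ℕ => ℝ) 1

noncomputable def e (i : ℕ) : E1 := lp.single 1 i (1 : ℝ)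
noncomputable def d (k : ℕ) : ℝ := (1 / 8) ^ k
noncomputable def xx (i : ℕ) : E1 := if i % 2 = 0 then e i else e (i - 1) + d (i / 2) • e i
noncomputable def al (v : ℕ → ℝ) (i : ℕ) : ℝ :=
  if i % 2 = 0 then v i - v (i + 1) / d (i / 2) else v i / d (i / 2)
noncomputable def cc (α : ℕ → ℝ) (i : ℕ) : ℝ :=
  if i % 2 = 0 then α i + α (i + 1) else d (i / 2) * α i
noncomputable def tt (n j : ℕ) : ℝ := if j % 2 = 1 ∧ n ≤ j / 2 then (1 / 2) ^ (j / 2 - n + 1) else 0

lemma d_pos (k : ℕ) : 0 < d k := by unfold d; positivity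

lemma block (α : ℕ → ℝ) (k : ℕ) :
    ∑ i ∈ range (2 * k), α i • xx i = ∑ i ∈ range (2 * k), cc α i • e i := by
  induction k with
  | zero => simp
  | succ k ih =>
    rw [show 2 * (k + 1) = 2 * k + 1 + 1 by ring, sum_range_succ, sum_range_succ, sum_range_succ,
      sum_range_succ, ih]
    have h1 : (2 * k) % 2 = 0 := by omega
    have h2 : ¬ (2 * k + 1) % 2 = 0 := by omega
    simp only [xx, cc, h1, h2, if_true, if_false, Nat.add_sub_cancel]
    module

lemma cc_al (v : ℕ → ℝ) (i : ℕ) : cc (al v) i = v i := by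
  by_cases h : i % 2 = 0
  · have h2 : ¬ (i + 1) % 2 = 0 := by omega
    have h3 : (i + 1) / 2 = i / 2 := by omega
    simp only [cc, al, h, h2, h3, if_true, if_false]; ring
  · simp only [cc, al, h, if_false]
    field_simp [(d_pos (i / 2)).ne']

lemma al_cc (α : ℕ → ℝ) : al (cc α) = α := by
  funext i
  by_cases h : i % 2 = 0
  · have h2 : ¬ (i + 1) % 2 = 0 := by omega
    have h3 : (i + 1) / 2 = i / 2 := by omega
    simp only [cc, al, h, h2, h3, if_true, if_false]
    field_simp [(d_pos (i / 2)).ne']; ring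
  · simp only [cc, al, h, if_false]
    field_simp [(d_pos (i / 2)).ne']

noncomputable def ev (j : ℕ) : E1 →L[ℝ] ℝ :=
  LinearMap.mkContinuous { toFun := fun v => v j, map_add' := fun _ _ => rfl, map_smul' := fun _ _ => rfl } 1
    (fun v => by rw [one_mul]; exact lp.norm_apply_le_norm one_ne_zero v j)

lemma ev_apply (j : ℕ) (v : E1) : ev j v = v j := rfl

lemma ev_e (j i : ℕ) : ev j (e i) = if j = i then 1 else 0 := by
  rw [ev_apply, e, lp.single_apply, Pi.single_apply]

lemma ev_sum (c : ℕ → ℝ) (N j : ℕ) (h : j < N) : ev j (∑ i ∈ range N, c i • e i) = c j := by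
  simp [map_sum, ev_e, h]

lemma hs {F : Type} [NormedAddCommGroup F] [NormedSpace ℝ F] (n : ℕ) (g : ℕ → F) (a : F) :
    HasSum (fun k => ((1 / 2 : ℝ) ^ (k + 1)) • g (2 * (k + n) + 1)) a ↔
      HasSum (fun j => tt n j • g j) a := by
  have hinj : Function.Injective (fun k : ℕ => 2 * (k + n) + 1) := fun a b h => by
    simp only at h; omega
  rw [← hinj.hasSum_iff (f := fun j => tt n j • g j)]
  · have : ((fun j => tt n j • g j) ∘ fun k : ℕ => 2 * (k + n) + 1) =
        fun k => ((1 / 2 : ℝ) ^ (k + 1)) • g (2 * (k + n) + 1) := by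
      funext k
      have h1 : (2 * (k + n) + 1) % 2 = 1 ∧ n ≤ (2 * (k + n) + 1) / 2 := by omega
      have h2 : (2 * (k + n) + 1) / 2 - n + 1 = k + 1 := by omega
      simp only [Function.comp, tt, h1, h2, and_self, if_true]
    rw [this]
  · intro j hj
    have : ¬ (j % 2 = 1 ∧ n ≤ j / 2) := fun h => hj ⟨j / 2 - n, by simp only; omega⟩
    simp only [tt, this, if_false, zero_smul]

lemma geo : HasSum (fun k : ℕ => (1 / 2 : ℝ) ^ (k + 1)) 1 := by
  have := hasSum_geometric_two.mul_right (1 / 2 : ℝ)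
  simpa [pow_succ] using this

lemma tt_sum (n : ℕ) : HasSum (tt n) 1 := by
  have := (hs n (fun _ => (1 : ℝ)) 1).mp (by simpa using geo)
  simpa using this

lemma tt_nonneg (n j : ℕ) : 0 ≤ tt n j := by unfold tt; split_ifs <;> positivity

lemma cons : Consistent tt := by
  refine ⟨⟨1, fun n => ?_⟩, fun m => ?_, ?_⟩
  · simp only [abs_of_nonneg (tt_nonneg n _)]
    exact ⟨(tt_sum n).summable, (tt_sum n).tsum_eq.le⟩
  · refine tendsto_const_nhds.congr' (eventually_atTop.2 ⟨m + 1, fun n hn => ?_⟩)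
    have : ¬ (m % 2 = 1 ∧ n ≤ m / 2) := by omega
    simp only [tt, this, if_false]
  · simp only [fun n => (tt_sum n).tsum_eq]
    exact tendsto_const_nhds

lemma exi (v : E1) : Expands tt xx v (al v) := by
  let P : ℕ → E1 := fun N => ∑ i ∈ range N, v i • e i
  have hP : Tendsto P atTop (𝓝 v) := by
    have h := (lp.hasSum_single (by simp) v).tendsto_sum_nat
    refine h.congr fun N => sum_congr rfl fun i _ => ?_
    rw [e, ← lp.single_smul, smul_eq_mul, mul_one]
  obtain ⟨M, hM⟩ := (Metric.isBounded_range_of_tendsto _ hP).exists_norm_le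
  have hs1 : ∀ k, ∑ i ∈ range (2 * k + 1 + 1), al v i • xx i = P (2 * (k + 1)) := fun k => by
    rw [show 2 * k + 1 + 1 = 2 * (k + 1) by ring, block]
    simp only [cc_al, P]
  have bd : ∀ n k, ‖((1 / 2 : ℝ) ^ (k + 1)) • P (2 * (k + n + 1))‖ ≤ (1 / 2) ^ (k + 1) * M := by
    intro n k
    rw [norm_smul, Real.norm_of_nonneg (by positivity)]
    exact mul_le_mul_of_nonneg_left (hM _ ⟨_, rfl⟩) (by positivity)
  have sm : Summable fun k : ℕ => (1 / 2 : ℝ) ^ (k + 1) * M := geo.summable.mul_right M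
  refine ⟨fun n => ∑' k, ((1 / 2 : ℝ) ^ (k + 1)) • P (2 * (k + n + 1)), fun n => ?_, ?_⟩
  · refine ((hs n (fun j => ∑ i ∈ range (j + 1), al v i • xx i) _).mp ?_).tendsto_sum_nat
    simp only [hs1]
    exact (Summable.of_norm_bounded sm (bd n)).hasSum
  · have h := tendsto_tsum_of_dominated_convergence (𝓕 := atTop)
      (f := fun n k => ((1 / 2 : ℝ) ^ (k + 1)) • P (2 * (k + n + 1)))
      (g := fun k => ((1 / 2 : ℝ) ^ (k + 1)) • v) sm (fun k => by
        refine Tendsto.const_smul (hP.comp ?_) _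
        exact tendsto_atTop_mono (fun n => by simp only [id]; omega) tendsto_id)
      (Eventually.of_forall bd)
    rwa [(geo.smul_const v).tsum_eq, one_smul] at h

lemma uniq (v : E1) (α : ℕ → ℝ) (h : Expands tt xx v α) : α = al v := by
  obtain ⟨σ, h1, h2⟩ := h
  have key : ∀ j, cc α j = v j := by
    intro j
    have a : ∀ n, j ≤ n → ev j (σ n) = cc α j := by
      intro n hn
      have b1 := ((ev j).continuous.tendsto _).comp (h1 n)
      have b2 : HasSum (fun l => tt n l • ev j (∑ i ∈ range (l + 1), α i • xx i)) (cc α j) := by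
        refine (hs n (fun l => ev j (∑ i ∈ range (l + 1), α i • xx i)) _).mp ?_
        have : ∀ k, ev j (∑ i ∈ range (2 * (k + n) + 1 + 1), α i • xx i) = cc α j := fun k => by
          rw [show 2 * (k + n) + 1 + 1 = 2 * (k + n + 1) by ring, block, ev_sum _ _ _ (by omega)]
        simp only [this]
        simpa using geo.smul_const (cc α j)
      refine tendsto_nhds_unique b1 (b2.tendsto_sum_nat.congr fun m => ?_)
      simp only [Function.comp, map_sum (ev j) _ (range m), map_smul]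
    have b := ((ev j).continuous.tendsto _).comp h2
    exact tendsto_nhds_unique (tendsto_const_nhds.congr'
      (eventually_atTop.2 ⟨j, fun n hn => (a n hn).symm⟩)) b
  rw [← al_cc α]
  congr 1
  funext j
  exact key j

noncomputable def v0 : E1 := ⟨fun i => (1 / 2 : ℝ) ^ i, memℓp_gen (by
  simpa using summable_geometric_two)⟩

theorem result : ∃ t : ℕ → ℕ → ℝ, Consistent t ∧
    ∃ (E : Type) (_ : NormedAddCommGroup E) (_ : NormedSpace ℝ E) (_ : CompleteSpace E)
      (x : ℕ → E), IsTBasis t x ∧ ∃ (v : E) (α : ℕ → ℝ), Expands t x v α ∧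
        ∀ n, ¬ ∃ w : E,
          Tendsto (fun m => ∑ i ∈ range m, (lam t n i * α i) • x i) atTop (𝓝 w) := by
  refine ⟨tt, cons, E1, inferInstance, inferInstance, inferInstance, xx,
    fun v => ⟨al v, exi v, uniq v⟩, v0, al v0, exi v0, fun n => ?_⟩
  rintro ⟨w, hw⟩
  have h1 := ((tendsto_add_atTop_iff_nat 1).mpr hw).sub hw
  simp only [sum_range_succ, add_sub_cancel_left, sub_self] at h1
  have h2 := h1.norm
  rw [norm_zero] at h2
  obtain ⟨N, hN⟩ := eventually_atTop.1 (h2.eventually_lt_const (show (0 : ℝ) < 1 / 4 by norm_num))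
  set k := N + n with hk
  have h3 := hN (2 * k + 1) (by omega)
  have o1 : ¬ (2 * k + 1) % 2 = 0 := by omega
  have o2 : (2 * k + 1) / 2 = k := by omega
  have l1 : (1 / 2 : ℝ) ^ (k + 1) ≤ lam tt n (2 * k + 1) := by
    have s := (summable_nat_add_iff (2 * k + 1)).mpr (tt_sum n).summable
    have := s.le_tsum 0 (fun j _ => tt_nonneg _ _)
    refine le_trans ?_ this
    have c : (0 + (2 * k + 1)) % 2 = 1 ∧ n ≤ (0 + (2 * k + 1)) / 2 := by omega
    simp only [tt, c, and_self, if_true]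
    exact pow_le_pow_of_le_one (by norm_num) (by norm_num) (by omega)
  have l2 : al v0 (2 * k + 1) = 2 ^ k / 2 := by
    simp only [al, o1, o2, if_false, d]
    change (1 / 2 : ℝ) ^ (2 * k + 1) / (1 / 8) ^ k = _
    rw [show (1 / 8 : ℝ) = (1 / 2) ^ 3 by norm_num, ← pow_mul,
      show 3 * k = 2 * k + k by ring, pow_add, pow_add]
    field_simp
    simp
  have l3 : ev (2 * k) (xx (2 * k + 1)) = 1 := by
    simp only [xx, o1, if_false, Nat.add_sub_cancel, map_add, map_smul, ev_e]
    simp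
  have l4 : 1 ≤ ‖xx (2 * k + 1)‖ := by
    have := lp.norm_apply_le_norm one_ne_zero (xx (2 * k + 1)) (2 * k)
    rwa [← ev_apply, l3, norm_one] at this
  have l5 : (1 / 4 : ℝ) ≤ lam tt n (2 * k + 1) * al v0 (2 * k + 1) := by
    rw [l2]
    have : (1 / 2 : ℝ) ^ (k + 1) * (2 ^ k / 2) = 1 / 4 := by
      rw [pow_succ, one_div, inv_pow]; field_simp; norm_num
    rw [← this]
    exact mul_le_mul_of_nonneg_right l1 (by positivity)
  rw [norm_smul, Real.norm_of_nonneg (by linarith)] at h3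
  nlinarith

end Pool.Agent.Results.MP_8f7167_an.Counter
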