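import Mathlib

open TensorProduct

namespace Pool.Agent.H32.Witt

def Rel (x y : FreeAlgebra ℂ ℤ) : Prop := ∃ m n : ℤ, x = FreeAlgebra.ι ℂ m * FreeAlgebra.ι ℂ n ∧
  y = FreeAlgebra.ι ℂ n * FreeAlgebra.ι ℂ m + ((m : ℂ) - n) • FreeAlgebra.ι ℂ (m + n)

def H : Type := RingQuot Rel

noncomputable instance : Ring H := inferInstanceAs (Ring (RingQuot Rel))
noncomputable instance : Algebra ℂ H := inferInstanceAs (Algebra ℂ (RingQuot Rel))

noncomputable def mk : FreeAlgebra ℂ ℤ →ₐ[ℂ] H := RingQuot.mkAlgHom ℂ Rel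

noncomputable def L (n : ℤ) : H := mk (FreeAlgebra.ι ℂ n)

lemma br (m n : ℤ) : L m * L n = L n * L m + ((m : ℂ) - n) • L (m + n) := by
  have : mk _ = mk _ := RingQuot.mkAlgHom_rel ℂ (s := Rel) ⟨m, n, rfl, rfl⟩
  simpa [L] using this

noncomputable def lift {A : Type} [Semiring A] [Algebra ℂ A] (f : ℤ → A)
    (h : ∀ m n, f m * f n = f n * f m + ((m : ℂ) - n) • f (m + n)) : H →ₐ[ℂ] A :=
  RingQuot.liftAlgHom ℂ ⟨FreeAlgebra.lift ℂ f, by
    rintro _ _ ⟨m, n, rfl, rfl⟩
    simp [h m n]⟩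

@[simp] lemma lift_L {A : Type} [Semiring A] [Algebra ℂ A] (f : ℤ → A) (h) (n : ℤ) :
    lift f h (L n) = f n := by
  have := RingQuot.liftAlgHom_mkAlgHom_apply ℂ (FreeAlgebra.lift ℂ f) (s := Rel) (by
    rintro _ _ ⟨m, n, rfl, rfl⟩
    simp [h m n]) (FreeAlgebra.ι ℂ n)
  exact this.trans (by simp)

lemma ext {A : Type} [Semiring A] [Algebra ℂ A] {f g : H →ₐ[ℂ] A} (h : ∀ n, f (L n) = g (L n)) :
    f = g := by
  have : f.comp mk = g.comp mk := by
    ext n
    exact h n
  ext a
  obtain ⟨x, rfl⟩ : ∃ x, mk x = a := RingQuot.mkAlgHom_surjective ℂ Rel a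
  exact DFunLike.congr_fun this x

lemma sub_top (S : Subalgebra ℂ H) (h : ∀ n, L n ∈ S) (a : H) : a ∈ S := by
  obtain ⟨x, rfl⟩ : ∃ x, mk x = a := RingQuot.mkAlgHom_surjective ℂ Rel a
  induction x using FreeAlgebra.induction with
  | grade0 r => simp
  | grade1 n => exact h n
  | mul a b ha hb => rw [map_mul]; exact S.mul_mem ha hb
  | add a b ha hb => rw [map_add]; exact S.add_mem ha hb

lemma indL (M : Submodule ℂ H) (h1 : (1 : H) ∈ M) (h : ∀ n, ∀ b ∈ M, L n * b ∈ M) (a : H) :
    a ∈ M := by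
  let S : Subalgebra ℂ H :=
    { carrier := {a | ∀ b ∈ M, a * b ∈ M}
      mul_mem' := fun ha hb c hc => by rw [mul_assoc]; exact ha _ (hb _ hc)
      add_mem' := fun ha hb c hc => by rw [add_mul]; exact M.add_mem (ha _ hc) (hb _ hc)
      algebraMap_mem' := fun r c hc => by rw [← Algebra.smul_def]; exact M.smul_mem _ hc }
  simpa using sub_top S h a 1 h1

lemma indR (M : Submodule ℂ H) (h1 : (1 : H) ∈ M) (h : ∀ n, ∀ b ∈ M, b * L n ∈ M) (a : H) :
    a ∈ M := by
  let S : Subalgebra ℂ H :=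
    { carrier := {a | ∀ b ∈ M, b * a ∈ M}
      mul_mem' := fun ha hb c hc => by rw [← mul_assoc]; exact hb _ (ha _ hc)
      add_mem' := fun ha hb c hc => by rw [mul_add]; exact M.add_mem (ha _ hc) (hb _ hc)
      algebraMap_mem' := fun r c hc => by
        rw [← Algebra.commutes, ← Algebra.smul_def]; exact M.smul_mem _ hc }
  simpa using sub_top S h a 1 h1

noncomputable def D : H →ₐ[ℂ] H ⊗[ℂ] H := lift (fun n => L n ⊗ₜ 1 + 1 ⊗ₜ L n) fun m n => by
  simp only [add_mul, mul_add, Algebra.TensorProduct.tmul_mul_tmul, one_mul, mul_one, br m n,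
    add_tmul, tmul_add, smul_add, smul_tmul', tmul_smul]
  abel

noncomputable def E : H →ₐ[ℂ] ℂ := lift (fun _ => 0) fun m n => by simp

noncomputable def S' : H →ₐ[ℂ] Hᵐᵒᵖ := lift (fun n => MulOpposite.op (-L n)) fun m n => by
  apply MulOpposite.unop_injective
  simp [br m n]

noncomputable def S : H →ₗ[ℂ] H := (MulOpposite.opLinearEquiv ℂ).symm.toLinearMap ∘ₗ S'.toLinearMap

lemma S_mul (a b : H) : S (a * b) = S b * S a := by simp [S]
lemma S_one : S 1 = 1 := by simp [S]
lemma S_L (n : ℤ) : S (L n) = -L n := by simp [S, S']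
lemma D_L (n : ℤ) : D (L n) = L n ⊗ₜ 1 + 1 ⊗ₜ L n := by simp [D]
lemma E_L (n : ℤ) : E (L n) = 0 := by simp [E]

@[reducible] noncomputable def bi : Bialgebra ℂ H := Bialgebra.ofAlgHom D E
  (ext fun n => by
    simp [D_L, add_tmul, tmul_add, Algebra.TensorProduct.one_def, add_assoc])
  (ext fun n => by simp [D_L, E_L])
  (ext fun n => by simp [D_L, E_L])

lemma ax1 : LinearMap.mul' ℂ H ∘ₗ S.rTensor H ∘ₗ D.toLinearMap =
    (Algebra.linearMap ℂ H) ∘ₗ E.toLinearMap := by
  refine LinearMap.ext fun a => indL (LinearMap.eqLocus _ _) ?_ (fun n b _ => ?_) a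
  · simp [Algebra.TensorProduct.one_def, S_one]
  · have : ∀ t : H ⊗[ℂ] H, LinearMap.mul' ℂ H (S.rTensor H ((L n ⊗ₜ 1 + 1 ⊗ₜ L n) * t)) = 0 := by
      intro t
      induction t using TensorProduct.induction_on with
      | zero => simp
      | tmul x y => simp [add_mul, S_mul, S_L, mul_assoc]
      | add x y hx hy => rw [mul_add, map_add, map_add, hx, hy, add_zero]
    simp [D_L, E_L, this]

lemma ax2 : LinearMap.mul' ℂ H ∘ₗ S.lTensor H ∘ₗ D.toLinearMap =
    (Algebra.linearMap ℂ H) ∘ₗ E.toLinearMap := by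
  refine LinearMap.ext fun a => indR (LinearMap.eqLocus _ _) ?_ (fun n b _ => ?_) a
  · simp [Algebra.TensorProduct.one_def, S_one]
  · have : ∀ t : H ⊗[ℂ] H, LinearMap.mul' ℂ H (S.lTensor H (t * (L n ⊗ₜ 1 + 1 ⊗ₜ L n))) = 0 := by
      intro t
      induction t using TensorProduct.induction_on with
      | zero => simp
      | tmul x y => simp [mul_add, S_mul, S_L, mul_assoc]
      | add x y hx hy => rw [add_mul, map_add, map_add, hx, hy, add_zero]
    simp [D_L, E_L, this]

@[reducible] noncomputable def hopf : HopfAlgebra ℂ H :=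
  { bi with
    antipode := S
    mul_antipode_rTensor_comul := ax1
    mul_antipode_lTensor_comul := ax2 }

lemma ft : Algebra.FiniteType ℂ H := by
  classical
  refine ⟨⟨{L (-2), L (-1), L 0, L 1, L 2}, eq_top_iff.2 fun a _ => sub_top _ ?_ a⟩⟩
  set A := Algebra.adjoin ℂ (↑({L (-2), L (-1), L 0, L 1, L 2} : Finset H) : Set H) with hA
  have g : ∀ m ∈ ({-2, -1, 0, 1, 2} : Finset ℤ), L m ∈ A := by
    intro m hm
    refine Algebra.subset_adjoin ?_
    simp only [Finset.mem_insert, Finset.mem_singleton] at hm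
    rcases hm with rfl | rfl | rfl | rfl | rfl <;> simp
  have st : ∀ m n : ℤ, m ≠ n → L m ∈ A → L n ∈ A → L (m + n) ∈ A := by
    intro m n hmn hm hn
    have h0 : ((m : ℂ) - n) ≠ 0 := sub_ne_zero.2 (by exact_mod_cast hmn)
    have : L (m + n) = ((m : ℂ) - n)⁻¹ • (L m * L n - L n * L m) := by
      rw [br m n, add_sub_cancel_left, smul_smul, inv_mul_cancel₀ h0, one_smul]
    rw [this]
    exact A.smul_mem (A.sub_mem (A.mul_mem hm hn) (A.mul_mem hn hm)) _
  have up : ∀ k : ℕ, L (2 + k) ∈ A ∧ L (-2 - k) ∈ A := by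
    intro k
    induction k with
    | zero => exact ⟨g _ (by simp), g _ (by simp)⟩
    | succ k ih =>
      constructor
      · have := st _ 1 (by omega) ih.1 (g _ (by simp))
        rwa [show (2 + k + 1 : ℤ) = 2 + (k + 1 : ℕ) by push_cast; ring] at this
      · have := st _ (-1) (by omega) ih.2 (g _ (by simp))
        rwa [show (-2 - k + -1 : ℤ) = -2 - (k + 1 : ℕ) by push_cast; ring] at this
  intro n
  by_cases h1 : 2 ≤ n
  · have := (up (n - 2).toNat).1
    rwa [show (2 + ((n - 2).toNat : ℤ)) = n by omega] at this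
  by_cases h2 : n ≤ -2
  · have := (up (-2 - n).toNat).2
    rwa [show (-2 - ((-2 - n).toNat : ℤ)) = n by omega] at this
  · exact g n (by simp; omega)

noncomputable def rep (m : ℤ) : Module.End ℂ (ℤ → ℂ) where
  toFun v j := ((m : ℂ) - j) * v (j - m)
  map_add' u v := by ext j; simp; ring
  map_smul' c v := by ext j; simp; ring

lemma L_ne : L 0 ≠ 0 := by
  intro h
  have hr : ∀ m n, rep m * rep n = rep n * rep m + ((m : ℂ) - n) • rep (m + n) := by
    intro m n
    ext v j
    simp only [rep, Module.End.mul_apply, LinearMap.coe_mk, AddHom.coe_mk, LinearMap.add_apply,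
      LinearMap.smul_apply, Pi.add_apply, Pi.smul_apply, smul_eq_mul]
    rw [show j - m - n = j - (m + n) by ring, show j - n - m = j - (m + n) by ring]
    push_cast; ring
  have := lift_L rep hr 0
  rw [h, map_zero] at this
  have := congrFun (LinearMap.congr_fun this fun _ => 1) 1
  simp [rep] at this

lemma kill (p : Seminorm ℂ H) (hp : ∀ a b, p (a * b) ≤ p a * p b) (m : ℤ) : p (L m) = 0 := by
  have key : ∀ a b : ℤ, |(a : ℝ) - b| * p (L (a + b)) ≤ 2 * p (L a) * p (L b) := by
    intro a b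
    have e : ((a : ℂ) - b) • L (a + b) = L a * L b - L b * L a := by
      rw [br a b, add_sub_cancel_left]
    have h1 := map_smul_eq_mul p ((a : ℂ) - b) (L (a + b))
    have h2 := map_sub_le_add p (L a * L b) (L b * L a)
    have h3 : ‖(a : ℂ) - b‖ = |(a : ℝ) - b| := by
      rw [← Real.norm_eq_abs, ← Complex.norm_real]; simp
    rw [e, h3] at h1
    nlinarith [hp (L a) (L b), hp (L b) (L a)]
  obtain ⟨N, hN⟩ := exists_nat_gt (2 * p (L 0))
  have big : ∀ n : ℤ, (N : ℤ) ≤ n → p (L n) = 0 := by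
    intro n hn
    have := key 0 n
    have hn' : (N : ℝ) ≤ n := by exact_mod_cast hn
    rw [zero_add, Int.cast_zero, zero_sub, abs_neg] at this
    have h0 := apply_nonneg p (L n)
    have h1 := le_abs_self (n : ℝ)
    nlinarith
  have := key (N + |m| + 1) (m - (N + |m| + 1))
  rw [big (N + |m| + 1) (by have := abs_nonneg m; omega), add_sub_cancel] at this
  have h0 := apply_nonneg p (L m)
  have h1 : (1 : ℝ) ≤ |((N + |m| + 1 : ℤ) : ℝ) - ((m - (N + |m| + 1) : ℤ) : ℝ)| := by
    have : (1 : ℤ) ≤ |(N + |m| + 1) - (m - (N + |m| + 1))| := by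
      have := le_abs_self m
      have := abs_nonneg m
      exact le_trans (by omega) (le_abs_self _)
    exact_mod_cast this
  nlinarith

lemma kill' (p : Seminorm ℂ H) (hp : ∀ a b, p (a * b) ≤ p a * p b) (a : H) :
    p (a - algebraMap ℂ H (E a)) = 0 := by
  let M : Submodule ℂ H :=
    { carrier := {a | p (a - algebraMap ℂ H (E a)) = 0}
      zero_mem' := by simp
      add_mem' := fun {a b} ha hb => by
        simp only [Set.mem_ofPred_eq] at *
        refine le_antisymm ?_ (apply_nonneg _ _)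
        have := map_add_le_add p (a - algebraMap ℂ H (E a)) (b - algebraMap ℂ H (E b))
        rw [ha, hb, add_zero] at this
        rwa [map_add, map_add, add_sub_add_comm]
      smul_mem' := fun c a ha => by
        simp only [Set.mem_ofPred_eq] at *
        rw [map_smul, smul_eq_mul, map_mul, ← Algebra.smul_def, ← smul_sub, map_smul_eq_mul, ha,
          mul_zero] }
  refine indL M (by simp [M]) (fun n b _ => ?_) a
  change p (L n * b - algebraMap ℂ H (E (L n * b))) = 0
  rw [map_mul, E_L, zero_mul, map_zero, sub_zero]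
  refine le_antisymm ?_ (apply_nonneg _ _)
  simpa [kill p hp n] using hp (L n) b

end Pool.Agent.H32.Witt
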